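import Pool.Agent.P.MP_d76e6a_co.WFin
import Pool.Agent.P.MP_d76e6a_co.WD1
import Pool.Agent.P.MP_d76e6a_co.WD2
import Pool.Agent.P.MP_d76e6a_co.WD3
import Pool.Agent.P.MP_d76e6a_co.WD4

/-!
The zigzags are optimal on their region.
-/

namespace Pool.Agent.P.MP_d76e6a_co

open Real EuclideanGeometry

theorem cov_all : Cov wPairs 480 960 465 1201 :=
  (Cov.sb (Cov.sa (Cov.sb w0 (Cov.sa w1 (Cov.sb w2 (Cov.sa (Cov.sb w3 w4) (Cov.sb w5 w6)))))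
  (Cov.sb w7 (Cov.sa (Cov.sb w8 (Cov.sa (Cov.sb w9 w10) w11)) w12))) (Cov.sa (Cov.sb (Cov.sa
  (Cov.sb w13 (Cov.sa w14 (Cov.sb w15 w16))) (Cov.sb (Cov.sa w17 w18) (Cov.sa (Cov.sb w19 w20)
  w21))) (Cov.sa w22 (Cov.sb (Cov.sa w23 (Cov.sb w24 w25)) w26))) (Cov.sb (Cov.sa (Cov.sb (Cov.sa
  w27 (Cov.sb w28 w29)) (Cov.sa w30 w31)) (Cov.sb (Cov.sa (Cov.sb w32 w33) w34) (Cov.sa (Cov.sb
  w35 w36) (Cov.sb w37 w38)))) w39)))

theorem zig_result {X Y Z : ℂ} (hT : AffineIndependent ℝ ![X, Y, Z]) {A B h : ℝ}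
    (hA : A = ∠ Y X Z) (hB : B = ∠ X Y Z) (hh : h = dist X Z * sin A) (hR : InZig A B) :
    ∃ l v, Zig A B l v ∧ (∀ l' v', Zig A B l' v' → v ≤ v') ∧
      escapeLength (convexHull ℝ {X, Y, Z}) = ENNReal.ofReal (v / alt A B * h) ∧
      escapeLength (interior (convexHull ℝ {X, Y, Z})) = ENNReal.ofReal (v / alt A B * h) ∧
      IsEscapePath (interior (convexHull ℝ {X, Y, Z})) (zigzag A B l h) ∧
      pathLength (zigzag A B l h) = ENNReal.ofReal (v / alt A B * h) ∧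
      ∀ w, h < w → IsEscapePath (convexHull ℝ {X, Y, Z}) (zigzag A B l w) := by
  obtain ⟨a, h6, l, v, z, lo, core⟩ := zig_of_cov (by decide) cov_all hR.1 hR.2.1 hR.2.2
  refine ⟨l, v, z, ?_, zig_of_core hT hA hB hh a h6 z core⟩
  rintro l' v' (⟨-, rfl⟩ | ⟨φ, h0, h1, -, rfl⟩)
  · exact lo.1
  · exact lo.2 φ h0 h1

end Pool.Agent.P.MP_d76e6a_co
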