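import Mathlib

/-!
Contact points of four cyclically ordered directions satisfy the quadrilateral inequalities.
-/

namespace Pool.Agent.P.MP_d76e6a_co

open Real

/-- Inner product of `z` with the unit vector of argument `θ`. -/
noncomputable def ip (z : ℂ) (θ : ℝ) : ℝ := z.re * cos θ + z.im * sin θ

theorem ip_sub (z w : ℂ) (θ : ℝ) : ip (z - w) θ = ip z θ - ip w θ := by
  simp only [ip, Complex.sub_re, Complex.sub_im]; ring

theorem ip_add_int (z : ℂ) (θ : ℝ) (n : ℤ) : ip z (θ + n * (2 * π)) = ip z θ := by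
  simp only [ip, cos_add_int_mul_two_pi, sin_add_int_mul_two_pi]

theorem ip_add_two_pi (z : ℂ) (θ : ℝ) : ip z (θ + 2 * π) = ip z θ := by
  simp only [ip, cos_add_two_pi, sin_add_two_pi]

theorem ip_sub_two_pi (z : ℂ) (θ : ℝ) : ip z (θ - 2 * π) = ip z θ := by
  simp only [ip, cos_sub_two_pi, sin_sub_two_pi]

theorem ip_add_pi (z : ℂ) (θ : ℝ) : ip z (θ + π) = -ip z θ := by
  simp only [ip, cos_add_pi, sin_add_pi]; ring

theorem ip_sub_pi (z : ℂ) (θ : ℝ) : ip z (θ - π) = -ip z θ := by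
  simp only [ip, cos_sub_pi, sin_sub_pi]; ring

theorem ip_lip (z : ℂ) (θ θ' : ℝ) : ip z θ ≤ ip z θ' + ‖z‖ * |θ - θ'| := by
  have h1 : (cos θ - cos θ') ^ 2 + (sin θ - sin θ') ^ 2 ≤ (θ - θ') ^ 2 := by
    have := one_sub_sq_div_two_le_cos (x := θ - θ')
    rw [cos_sub] at this
    nlinarith [sin_sq_add_cos_sq θ, sin_sq_add_cos_sq θ']
  have h2 : ‖z‖ ^ 2 = z.re ^ 2 + z.im ^ 2 := by
    rw [Complex.sq_norm, Complex.normSq_apply]; ring
  have h3 : z.re * (cos θ - cos θ') + z.im * (sin θ - sin θ') ≤ ‖z‖ * |θ - θ'| := by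
    apply le_of_sq_le_sq _ (by positivity) |>.trans' (le_abs_self _)
    rw [sq_abs, mul_pow, sq_abs, h2]
    nlinarith [sq_nonneg (z.re * (sin θ - sin θ') - z.im * (cos θ - cos θ')),
      mul_le_mul_of_nonneg_left h1 (show 0 ≤ z.re ^ 2 + z.im ^ 2 by positivity)]
  unfold ip
  linarith

theorem ip_mono {p q : ℂ} {ω θ θ' : ℝ} (h1 : ω ≤ θ) (h2 : θ < θ') (h3 : θ' ≤ ω + π)
    (hp : ip q θ ≤ ip p θ) (hq : ip p θ' ≤ ip q θ') : ip q ω ≤ ip p ω := by
  rcases eq_or_lt_of_le h1 with rfl | h1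
  · exact hp
  have s1 : 0 < sin (θ' - θ) := sin_pos_of_pos_of_lt_pi (by linarith) (by linarith)
  have s2 : 0 ≤ sin (θ' - ω) := sin_nonneg_of_nonneg_of_le_pi (by linarith) (by linarith)
  have s3 : 0 ≤ sin (θ - ω) := sin_nonneg_of_nonneg_of_le_pi (by linarith) (by linarith)
  have e : (ip p ω - ip q ω) * sin (θ' - θ) =
      (ip p θ - ip q θ) * sin (θ' - ω) + (ip q θ' - ip p θ') * sin (θ - ω) := by
    simp only [ip, sin_sub]; ring
  have : 0 ≤ (ip p ω - ip q ω) * sin (θ' - θ) := by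
    rw [e]
    exact add_nonneg (mul_nonneg (by linarith) s2) (mul_nonneg (by linarith) s3)
  have := nonneg_of_mul_nonneg_left this s1
  linarith

theorem ip_mono' {p q : ℂ} {ω θ θ' : ℝ} (h1 : ω - π ≤ θ) (h2 : θ < θ') (h3 : θ' ≤ ω)
    (hp : ip q θ ≤ ip p θ) (hq : ip p θ' ≤ ip q θ') : ip p ω ≤ ip q ω := by
  have := ip_mono h1 h2 (by linarith) hp hq
  rw [ip_sub_pi, ip_sub_pi] at this
  linarith

theorem no_sep {q1 q2 q3 q4 : ℂ} {t1 t2 t3 t4 : ℝ} (h12 : t1 < t2) (h23 : t2 < t3) (h34 : t3 < t4)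
    (h41 : t4 < t1 + 2 * π)
    (m12 : ip q2 t1 ≤ ip q1 t1) (m14 : ip q4 t1 ≤ ip q1 t1) (m21 : ip q1 t2 ≤ ip q2 t2)
    (m23 : ip q3 t2 ≤ ip q2 t2) (m32 : ip q2 t3 ≤ ip q3 t3) (m34 : ip q4 t3 ≤ ip q3 t3)
    (m41 : ip q1 t4 ≤ ip q4 t4) (m43 : ip q3 t4 ≤ ip q4 t4) (ω0 : ℝ)
    (g12 : ip q1 ω0 < ip q2 ω0) (g14 : ip q1 ω0 < ip q4 ω0) (g32 : ip q3 ω0 < ip q2 ω0)
    (g34 : ip q3 ω0 < ip q4 ω0) : False := by
  have hpi := pi_pos
  obtain ⟨ω, hω, w1, w2⟩ : ∃ ω, (∀ z, ip z ω0 = ip z ω) ∧ t2 - π ≤ ω ∧ ω ≤ t2 + π := by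
    have h := toIocMod_mem_Ioc two_pi_pos (t2 - π) ω0
    refine ⟨toIocMod two_pi_pos (t2 - π) ω0, fun z => ?_, h.1.le, by linarith [h.2]⟩
    conv_lhs => rw [← toIocMod_add_toIocDiv_zsmul two_pi_pos (t2 - π) ω0, zsmul_eq_mul]
    exact ip_add_int _ _ _
  simp only [hω] at g12 g14 g32 g34
  rcases le_total ω t2 with c | c
  · have a1 : t1 < ω := by
      by_contra h
      linarith [ip_mono (not_lt.1 h) h12 (by linarith) m12 m21]
    have a2 : ω + π < t4 := by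
      by_contra h
      linarith [ip_mono (by linarith : ω ≤ t3) h34 (not_lt.1 h) m34 m43]
    have := ip_mono' (ω := ω) (θ := t4 - 2 * π) (θ' := t1) (p := q4) (q := q1) (by linarith)
      (by linarith) a1.le (by rwa [ip_sub_two_pi, ip_sub_two_pi]) m14
    linarith
  · have a1 : ω < t3 := by
      by_contra h
      linarith [ip_mono' (by linarith : ω - π ≤ t2) h23 (not_lt.1 h) m23 m32]
    have a2 : ω + π < t4 := by
      by_contra h
      linarith [ip_mono a1.le h34 (not_lt.1 h) m34 m43]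
    have := ip_mono' (ω := ω) (θ := t4 - 2 * π) (θ' := t1) (p := q4) (q := q1) (by linarith)
      (by linarith) (by linarith) (by rwa [ip_sub_two_pi, ip_sub_two_pi]) m14
    linarith

theorem quad {q1 q2 q3 q4 : ℂ} {t1 t2 t3 t4 : ℝ} (h12 : t1 < t2) (h23 : t2 < t3) (h34 : t3 < t4)
    (h41 : t4 < t1 + 2 * π)
    (m12 : ip q2 t1 ≤ ip q1 t1) (m14 : ip q4 t1 ≤ ip q1 t1) (m21 : ip q1 t2 ≤ ip q2 t2)
    (m23 : ip q3 t2 ≤ ip q2 t2) (m32 : ip q2 t3 ≤ ip q3 t3) (m34 : ip q4 t3 ≤ ip q3 t3)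
    (m41 : ip q1 t4 ≤ ip q4 t4) (m43 : ip q3 t4 ≤ ip q4 t4) :
    dist q1 q2 + dist q3 q4 ≤ dist q1 q3 + dist q2 q4 ∧
      dist q1 q4 + dist q2 q3 ≤ dist q1 q3 + dist q2 q4 := by
  have cpt : ∀ x y : ℂ, IsCompact (segment ℝ x y) := fun x y => by
    rw [segment_eq_image]
    exact isCompact_Icc.image (by fun_prop)
  have : ¬Disjoint (segment ℝ q1 q3) (segment ℝ q2 q4) := by
    intro hd
    obtain ⟨f, u, v, h1, h2, h3⟩ := geometric_hahn_banach_compact_closed (convex_segment q1 q3)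
      (cpt _ _) (convex_segment q2 q4) (cpt _ _).isClosed hd
    set w : ℂ := ⟨f 1, f Complex.I⟩
    have hf : ∀ z : ℂ, f z = ‖w‖ * ip z w.arg := by
      intro z
      have e : z = z.re • (1 : ℂ) + z.im • Complex.I := by
        apply Complex.ext <;> simp
      have c1 : ‖w‖ * cos w.arg = f 1 := Complex.norm_mul_cos_arg w
      have c2 : ‖w‖ * sin w.arg = f Complex.I := Complex.norm_mul_sin_arg w
      conv_lhs => rw [e, map_add, map_smul, map_smul, ← c1, ← c2]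
      simp only [ip, smul_eq_mul]; ring
    have a1 := h1 _ (left_mem_segment ℝ q1 q3)
    have a3 := h1 _ (right_mem_segment ℝ q1 q3)
    have a2 := h3 _ (left_mem_segment ℝ q2 q4)
    have a4 := h3 _ (right_mem_segment ℝ q2 q4)
    rw [hf] at a1 a2 a3 a4
    have n := norm_nonneg w
    exact no_sep h12 h23 h34 h41 m12 m14 m21 m23 m32 m34 m41 m43 w.arg
      (lt_of_mul_lt_mul_left (by linarith) n) (lt_of_mul_lt_mul_left (by linarith) n)
      (lt_of_mul_lt_mul_left (by linarith) n) (lt_of_mul_lt_mul_left (by linarith) n)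
  obtain ⟨x, hx1, hx2⟩ := Set.not_disjoint_iff.1 this
  have e1 := dist_add_dist_of_mem_segment hx1
  have e2 := dist_add_dist_of_mem_segment hx2
  have t1 := dist_triangle q1 x q2
  have t2 := dist_triangle q3 x q4
  have t3 := dist_triangle q1 x q4
  have t4 := dist_triangle q2 x q3
  have s1 := dist_comm x q2
  have s2 := dist_comm x q3
  constructor <;> linarith

end Pool.Agent.P.MP_d76e6a_co
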