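import Mathlib

/-!
Half structures: one half of a polygonal path issuing from the origin, together with the
index at which each direction of a closed half circle is supported.
-/

namespace Pool.Agent.P.MP_d76e6a_co

open Real

/-- A polygonal path from the origin with coordinates `X`, `Y`, length function `l`,
and a quasi-concave contact index `d` on `[0, pi]`. -/
structure Half where
  X : ℕ → ℝ
  Y : ℕ → ℝ
  l : ℕ → ℝ
  d : ℝ → ℕ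
  r : ℕ
  X0 : X 0 = 0
  Y0 : Y 0 = 0
  l0 : l 0 = 0
  step : ∀ j, √((X (j + 1) - X j) ^ 2 + (Y (j + 1) - Y j) ^ 2) ≤ l (j + 1) - l j
  hd : ∀ η, d η ≤ r
  d0 : d 0 = 0
  qc : ∀ x y z, 0 ≤ x → x ≤ y → y ≤ z → z ≤ π → min (d x) (d z) ≤ d y

namespace Half

variable (H : Half)

/-- The length of the half path. -/
def len : ℝ := H.l H.r

/-- The value of the contact point in direction `(sin η, cos η)`. -/
noncomputable def h (η : ℝ) : ℝ := H.X (H.d η) * sin η + H.Y (H.d η) * cos η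

theorem cs {u v x y : ℝ} (huv : u ^ 2 + v ^ 2 ≤ 1) : u * x + v * y ≤ √(x ^ 2 + y ^ 2) := by
  apply Real.le_sqrt_of_sq_le
  have h1 : (u * x + v * y) ^ 2 ≤ (u ^ 2 + v ^ 2) * (x ^ 2 + y ^ 2) := by
    nlinarith [sq_nonneg (u * y - v * x)]
  have h2 : 0 ≤ x ^ 2 + y ^ 2 := by positivity
  nlinarith

theorem seg {i j : ℕ} (hij : i ≤ j) {u v : ℝ} (huv : u ^ 2 + v ^ 2 ≤ 1) :
    u * (H.X j - H.X i) + v * (H.Y j - H.Y i) ≤ H.l j - H.l i := by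
  induction j, hij using Nat.le_induction with
  | base => simp
  | succ j _ ih =>
    have h1 := (cs (x := H.X (j + 1) - H.X j) (y := H.Y (j + 1) - H.Y j) huv).trans (H.step j)
    linarith

theorem mono {i j : ℕ} (hij : i ≤ j) : H.l i ≤ H.l j := by
  have := H.seg hij (u := 0) (v := 0) (by norm_num)
  linarith

theorem len_nonneg : 0 ≤ H.len := by
  have := H.mono (Nat.zero_le H.r)
  rw [H.l0] at this
  exact this

theorem chain4 {i1 i2 i3 i4 : ℕ} (h12 : i1 ≤ i2) (h23 : i2 ≤ i3) (h34 : i3 ≤ i4) (h4 : i4 ≤ H.r)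
    {u1 v1 u2 v2 u3 v3 u4 v4 : ℝ}
    (n1 : (u1 + u2 + u3 + u4) ^ 2 + (v1 + v2 + v3 + v4) ^ 2 ≤ 1)
    (n2 : (u2 + u3 + u4) ^ 2 + (v2 + v3 + v4) ^ 2 ≤ 1)
    (n3 : (u3 + u4) ^ 2 + (v3 + v4) ^ 2 ≤ 1) (n4 : u4 ^ 2 + v4 ^ 2 ≤ 1) :
    (H.X i1 * u1 + H.Y i1 * v1) + (H.X i2 * u2 + H.Y i2 * v2) + (H.X i3 * u3 + H.Y i3 * v3)
      + (H.X i4 * u4 + H.Y i4 * v4) ≤ H.len := by
  have a1 := H.seg (Nat.zero_le i1) n1
  have a2 := H.seg h12 n2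
  have a3 := H.seg h23 n3
  have a4 := H.seg h34 n4
  have a5 := H.mono h4
  rw [H.X0, H.Y0, H.l0] at a1
  unfold len
  linarith

theorem chain3 {i1 i2 i3 : ℕ} (h12 : i1 ≤ i2) (h23 : i2 ≤ i3) (h3 : i3 ≤ H.r)
    {u1 v1 u2 v2 u3 v3 : ℝ}
    (n1 : (u1 + u2 + u3) ^ 2 + (v1 + v2 + v3) ^ 2 ≤ 1)
    (n2 : (u2 + u3) ^ 2 + (v2 + v3) ^ 2 ≤ 1) (n3 : u3 ^ 2 + v3 ^ 2 ≤ 1) :
    (H.X i1 * u1 + H.Y i1 * v1) + (H.X i2 * u2 + H.Y i2 * v2) + (H.X i3 * u3 + H.Y i3 * v3)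
      ≤ H.len := by
  have a1 := H.seg (Nat.zero_le i1) n1
  have a2 := H.seg h12 n2
  have a3 := H.seg h23 n3
  have a5 := H.mono h3
  rw [H.X0, H.Y0, H.l0] at a1
  unfold len
  linarith

/-- First point known, the other two in any order. -/
theorem first2 {i1 i2 i3 : ℕ} (h12 : i1 ≤ i2) (h13 : i1 ≤ i3) (h2 : i2 ≤ H.r) (h3 : i3 ≤ H.r)
    {u1 v1 u2 v2 u3 v3 : ℝ}
    (n1 : (u1 + u2 + u3) ^ 2 + (v1 + v2 + v3) ^ 2 ≤ 1)
    (n23 : (u2 + u3) ^ 2 + (v2 + v3) ^ 2 ≤ 1) (n2 : u2 ^ 2 + v2 ^ 2 ≤ 1)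
    (n3 : u3 ^ 2 + v3 ^ 2 ≤ 1) :
    (H.X i1 * u1 + H.Y i1 * v1) + (H.X i2 * u2 + H.Y i2 * v2) + (H.X i3 * u3 + H.Y i3 * v3)
      ≤ H.len := by
  rcases le_total i2 i3 with h | h
  · exact H.chain3 h12 h h3 n1 n23 n3
  · have := H.chain3 h13 h h2 (u1 := u1) (v1 := v1) (u2 := u3) (v2 := v3) (u3 := u2) (v3 := v2)
      (by convert n1 using 2 <;> ring) (by convert n23 using 2 <;> ring) n2
    linarith

/-- Three points in any order. -/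
theorem robust3 {i1 i2 i3 : ℕ} (h1 : i1 ≤ H.r) (h2 : i2 ≤ H.r) (h3 : i3 ≤ H.r)
    {u1 v1 u2 v2 u3 v3 : ℝ}
    (n : (u1 + u2 + u3) ^ 2 + (v1 + v2 + v3) ^ 2 ≤ 1)
    (n12 : (u1 + u2) ^ 2 + (v1 + v2) ^ 2 ≤ 1) (n13 : (u1 + u3) ^ 2 + (v1 + v3) ^ 2 ≤ 1)
    (n23 : (u2 + u3) ^ 2 + (v2 + v3) ^ 2 ≤ 1) (n1 : u1 ^ 2 + v1 ^ 2 ≤ 1)
    (n2 : u2 ^ 2 + v2 ^ 2 ≤ 1) (n3 : u3 ^ 2 + v3 ^ 2 ≤ 1) :
    (H.X i1 * u1 + H.Y i1 * v1) + (H.X i2 * u2 + H.Y i2 * v2) + (H.X i3 * u3 + H.Y i3 * v3)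
      ≤ H.len := by
  by_cases c1 : i1 ≤ i2 ∧ i1 ≤ i3
  · exact H.first2 c1.1 c1.2 h2 h3 n n23 n2 n3
  by_cases c2 : i2 ≤ i1 ∧ i2 ≤ i3
  · have := H.first2 c2.1 c2.2 h1 h3 (u1 := u2) (v1 := v2) (u2 := u1) (v2 := v1) (u3 := u3)
      (v3 := v3) (by convert n using 2 <;> ring) n13 n1 n3
    linarith
  · have c3 : i3 ≤ i1 ∧ i3 ≤ i2 := by omega
    have := H.first2 c3.1 c3.2 h1 h2 (u1 := u3) (v1 := v3) (u2 := u1) (v2 := v1) (u3 := u2)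
      (v3 := v2) (by convert n using 2 <;> ring) n12 n1 n2
    linarith

/-- Two points known, the other two in any order. -/
theorem two2 {i1 i2 i3 i4 : ℕ} (h12 : i1 ≤ i2) (h23 : i2 ≤ i3) (h24 : i2 ≤ i4) (h3 : i3 ≤ H.r)
    (h4 : i4 ≤ H.r) {u1 v1 u2 v2 u3 v3 u4 v4 : ℝ}
    (n1 : (u1 + u2 + u3 + u4) ^ 2 + (v1 + v2 + v3 + v4) ^ 2 ≤ 1)
    (n2 : (u2 + u3 + u4) ^ 2 + (v2 + v3 + v4) ^ 2 ≤ 1)
    (n34 : (u3 + u4) ^ 2 + (v3 + v4) ^ 2 ≤ 1) (n3 : u3 ^ 2 + v3 ^ 2 ≤ 1)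
    (n4 : u4 ^ 2 + v4 ^ 2 ≤ 1) :
    (H.X i1 * u1 + H.Y i1 * v1) + (H.X i2 * u2 + H.Y i2 * v2) + (H.X i3 * u3 + H.Y i3 * v3)
      + (H.X i4 * u4 + H.Y i4 * v4) ≤ H.len := by
  rcases le_total i3 i4 with h | h
  · exact H.chain4 h12 h23 h h4 n1 n2 n34 n4
  · have := H.chain4 h12 h24 h h3 (u1 := u1) (v1 := v1) (u2 := u2) (v2 := v2) (u3 := u4)
      (v3 := v4) (u4 := u3) (v4 := v3) (by convert n1 using 2 <;> ring)
      (by convert n2 using 2 <;> ring) (by convert n34 using 2 <;> ring) n3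
    linarith

/-- If the bottom is met no later than direction `g`, it is met no later than any lower one. -/
theorem tb {g x : ℝ} (hg : 0 ≤ g) (hgx : g ≤ x) (hx : x ≤ π) (h : H.d π ≤ H.d g) :
    H.d π ≤ H.d x := by
  have := H.qc g x π hg hgx hx le_rfl
  omega

/-- If direction `g` is met before the bottom, it is met no later than any lower direction. -/
theorem bt {g x : ℝ} (hg : 0 ≤ g) (hgx : g ≤ x) (hx : x ≤ π) (h : H.d g < H.d π) :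
    H.d g ≤ H.d x := by
  have := H.qc g x π hg hgx hx le_rfl
  omega

/-- If direction `g` is met before the bottom, higher directions are met no later than `g`. -/
theorem bt' {g x : ℝ} (hx : 0 ≤ x) (hxg : x ≤ g) (hg : g ≤ π) (h : H.d g < H.d π) :
    H.d x ≤ H.d g := by
  have := H.qc x g π hx hxg hg le_rfl
  omega

end Half

/-- The escape inequalities of the placements we use, for a triangle with base angles `A`, `B`
and altitude `ρ`; `f` and `g` bound the support function on the two half circles. -/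
structure Pl (ρ : ℝ) (f g : ℝ → ℝ) (A B : ℝ) : Prop where
  up1 : ρ * sin (A + B) ≤ sin B * f A + sin A * g B + sin (A + B) * f π
  up2 : ρ * sin (A + B) ≤ sin B * f A + sin A * g B + sin (A + B) * g π
  down : ρ * sin (A + B) ≤ sin B * g (π - A) + sin A * f (π - B) + sin (A + B) * f 0
  side : ∀ θ, B ≤ θ → θ + A ≤ π →
    ρ * sin (A + B) ≤ sin B * g (π - θ - A) + sin A * g (π - θ + B) + sin (A + B) * f θ

end Pool.Agent.P.MP_d76e6a_co
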