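import Pool.Agent.P.MP_d76e6a_co.Defs
import Pool.Agent.P.MP_d76e6a_co.Half
import Pool.Agent.P.MP_d76e6a_co.Geom

/-!
From escape to inequalities between support values.
-/

namespace Pool.Agent.P.MP_d76e6a_co

open Real EuclideanGeometry

/-- The escape inequalities for upper bounds `U` of a support function. -/
def Esc (U : ℝ → ℝ → Prop) (h A B : ℝ) : Prop :=
  ∀ θ c1 c2 c3, U (θ + π + A) c1 → U (θ + π - B) c2 → U θ c3 →
    h * sin (A + B) ≤ sin B * c1 + sin A * c2 + sin (A + B) * c3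

/-- Upper bounds for the support function of the curve `C - V`. -/
def Bd (C : ℝ → ℂ) (V : ℂ) (θ c : ℝ) : Prop := ∀ t ∈ Set.Icc (0 : ℝ) 1, ip (C t - V) θ ≤ c

theorem exists_iso (a b : ℂ) (ha : ‖a‖ = 1) : ∃ g : ℂ ≃ᵢ ℂ, ∀ z, g z = a * z + b :=
  ⟨(rotation ⟨a, by simpa [Submonoid.unitSphere] using ha⟩).toIsometryEquiv.trans
    (IsometryEquiv.addRight b), fun z => by simp [rotation_apply]⟩

theorem exists_iso' (a b : ℂ) (ha : ‖a‖ = 1) :
    ∃ g : ℂ ≃ᵢ ℂ, ∀ z, g z = a * (starRingEnd ℂ) z + b := by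
  obtain ⟨g, hg⟩ := exists_iso a b ha
  exact ⟨Complex.conjLIE.toIsometryEquiv.trans g, fun z => by simp [hg]⟩

/-- A triangle in standard position: `X = g 0`, `Y = g c`, `Z = g (p + h i)`. -/
structure Std (X Y Z : ℂ) (h A B : ℝ) : Prop where
  hpos : 0 < h
  sA : 0 < sin A
  sB : 0 < sin B
  ex : ∃ (g : ℂ ≃ᵢ ℂ) (c p : ℝ), 0 < c ∧ p * sin A = h * cos A ∧ (c - p) * sin B = h * cos B ∧
    ∀ α β γ : ℝ, α + β + γ = 1 → g ⟨β * c + γ * p, γ * h⟩ = α • X + β • Y + γ • Z

theorem std_of_indep {X Y Z : ℂ} (hT : AffineIndependent ℝ ![X, Y, Z]) :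
    Std X Y Z (dist X Z * sin (∠ Y X Z)) (∠ Y X Z) (∠ X Y Z) := by
  have hnc : ¬Collinear ℝ {X, Y, Z} := affineIndependent_iff_not_collinear_set.1 hT
  have sA : 0 < sin (∠ Y X Z) := sin_pos_of_not_collinear (by rwa [Set.insert_comm])
  have sB : 0 < sin (∠ X Y Z) := sin_pos_of_not_collinear hnc
  have hXY : X ≠ Y := ne₁₂_of_not_collinear hnc
  have hXZ : X ≠ Z := ne₁₃_of_not_collinear hnc
  have hYZ : Y ≠ Z := ne₂₃_of_not_collinear hnc
  set c := ‖Y - X‖ with hc
  have c0 : 0 < c := norm_pos_iff.2 (sub_ne_zero.2 hXY.symm)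
  set e : ℂ := (Y - X) / c with he
  have e1 : ‖e‖ = 1 := by
    rw [he, norm_div, Complex.norm_real, Real.norm_of_nonneg c0.le, div_self c0.ne']
  have e0 : e ≠ 0 := by rintro h; simp [h] at e1
  have cC : (c : ℂ) ≠ 0 := by exact_mod_cast c0.ne'
  set w : ℂ := (Z - X) / e with hw
  have hY : Y - X = e * c := by rw [he]; field_simp
  have hZ : Z - X = e * w := by rw [hw]; field_simp
  have inn : ∀ a b : ℂ, inner ℝ (e * a) (e * b) = a.re * b.re + a.im * b.im := by
    intro a b
    have n : e.re ^ 2 + e.im ^ 2 = 1 := by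
      have := Complex.sq_norm e
      rw [e1, Complex.normSq_apply] at this
      linarith
    simp only [Complex.inner, Complex.mul_re, Complex.mul_im, Complex.conj_re, Complex.conj_im]
    linear_combination (a.re * b.re + a.im * b.im) * n
  have nrm : ∀ a : ℂ, ‖e * a‖ = ‖a‖ := fun a => by rw [norm_mul, e1, one_mul]
  have cA : cos (∠ Y X Z) * ‖w‖ = w.re := by
    have := InnerProductGeometry.cos_angle_mul_norm_mul_norm (Y - X) (Z - X)
    rw [show InnerProductGeometry.angle (Y - X) (Z - X) = ∠ Y X Z from rfl, hY, hZ, inn, nrm,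
      nrm, Complex.norm_real, Real.norm_of_nonneg c0.le] at this
    simp only [Complex.ofReal_re, Complex.ofReal_im, zero_mul, add_zero] at this
    apply mul_left_cancel₀ c0.ne'
    linarith
  have cB : cos (∠ X Y Z) * ‖w - c‖ = c - w.re := by
    have := InnerProductGeometry.cos_angle_mul_norm_mul_norm (X - Y) (Z - Y)
    rw [show InnerProductGeometry.angle (X - Y) (Z - Y) = ∠ X Y Z from rfl,
      show X - Y = e * (-c) by linear_combination -hY,
      show Z - Y = e * (w - c) by linear_combination hZ - hY, inn, nrm,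
      nrm, norm_neg, Complex.norm_real, Real.norm_of_nonneg c0.le] at this
    simp only [Complex.neg_re, Complex.neg_im, Complex.ofReal_re, Complex.ofReal_im, neg_zero,
      zero_mul, add_zero, Complex.sub_re] at this
    apply mul_left_cancel₀ c0.ne'
    linarith
  have dXZ : dist X Z = ‖w‖ := by rw [dist_comm, dist_eq_norm, hZ, nrm]
  have w0 : 0 < ‖w‖ := dXZ ▸ dist_pos.2 hXZ
  have wc0 : 0 < ‖w - c‖ := by
    rw [← nrm, show e * (w - c) = Z - Y by linear_combination hY - hZ]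
    exact norm_pos_iff.2 (sub_ne_zero.2 hYZ.symm)
  have n1 : ‖w‖ ^ 2 = w.re ^ 2 + w.im ^ 2 := by rw [Complex.sq_norm, Complex.normSq_apply]; ring
  have n2 : ‖w - c‖ ^ 2 = (c - w.re) ^ 2 + w.im ^ 2 := by
    rw [Complex.sq_norm, Complex.normSq_apply]; simp; ring
  have hA : ‖w‖ * sin (∠ Y X Z) = |w.im| := by
    rw [← sq_eq_sq₀ (by positivity) (abs_nonneg _), sq_abs]
    linear_combination ‖w‖ ^ 2 * sin_sq_add_cos_sq (∠ Y X Z) + n1
      - (cos (∠ Y X Z) * ‖w‖ + w.re) * cA
  have hB : ‖w - c‖ * sin (∠ X Y Z) = |w.im| := by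
    rw [← sq_eq_sq₀ (by positivity) (abs_nonneg _), sq_abs]
    linear_combination ‖w - c‖ ^ 2 * sin_sq_add_cos_sq (∠ X Y Z) + n2
      - (cos (∠ X Y Z) * ‖w - c‖ + (c - w.re)) * cB
  rw [dXZ]
  have hX : ∀ α β γ : ℝ, α + β + γ = 1 → α • X + β • Y + γ • Z = e * (β * c + γ * w) + X := by
    intro α β γ h
    have h' : (α : ℂ) + β + γ = 1 := by exact_mod_cast h
    simp only [Complex.real_smul]
    linear_combination X * h' + β * hY + γ * hZ
  have k1 : w.re * sin (∠ Y X Z) = ‖w‖ * sin (∠ Y X Z) * cos (∠ Y X Z) := by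
    rw [← cA]; ring
  have k2 : (c - w.re) * sin (∠ X Y Z) = ‖w‖ * sin (∠ Y X Z) * cos (∠ X Y Z) := by
    rw [← cB, hA, ← hB]; ring
  refine ⟨by positivity, sA, sB, ?_⟩
  rcases le_total 0 w.im with hi | hi
  · obtain ⟨g, hg⟩ := exists_iso e X e1
    refine ⟨g, c, w.re, c0, k1, k2, fun α β γ h => ?_⟩
    rw [hg, hX α β γ h, hA, abs_of_nonneg hi]
    congr 2
    apply Complex.ext <;> simp
  · obtain ⟨g, hg⟩ := exists_iso' e X e1
    refine ⟨g, c, w.re, c0, k1, k2, fun α β γ h => ?_⟩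
    rw [hg, hX α β γ h, hA, abs_of_nonpos hi]
    congr 2
    apply Complex.ext <;> simp

theorem Std.esc {X Y Z : ℂ} {h A B : ℝ} (s : Std X Y Z h A B) {C : ℝ → ℂ}
    (hC : IsEscapePath (interior (convexHull ℝ {X, Y, Z})) C) (V : ℂ) : Esc (Bd C V) h A B := by
  obtain ⟨hpos, sA, sB, g, c, p, c0, k1, k2, hg⟩ := s
  intro θ c1 c2 c3 b1 b2 b3
  by_contra hlt
  push Not at hlt
  let O : Set ℂ := {w | 0 < w.im ∧ w.im * cos A - w.re * sin A < 0 ∧
    w.im * cos B + (w.re - c) * sin B < 0}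
  have hO : IsOpen O := by
    have o1 : IsOpen {w : ℂ | 0 < w.im} := isOpen_lt (by fun_prop) (by fun_prop)
    have o2 : IsOpen {w : ℂ | w.im * cos A - w.re * sin A < 0} :=
      isOpen_lt (by fun_prop) (by fun_prop)
    have o3 : IsOpen {w : ℂ | w.im * cos B + (w.re - c) * sin B < 0} :=
      isOpen_lt (by fun_prop) (by fun_prop)
    exact o1.inter (o2.inter o3)
  have hsub : g '' O ⊆ interior (convexHull ℝ {X, Y, Z}) := by
    refine interior_maximal ?_ (g.toHomeomorph.isOpenMap O hO)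
    rintro _ ⟨w, ⟨w1, w2, w3⟩, rfl⟩
    have e : w = ⟨(w.re - w.im / h * p) / c * c + w.im / h * p, w.im / h * h⟩ := by
      apply Complex.ext
      · simp only; field_simp; ring
      · simp only; field_simp
    rw [e, hg (1 - (w.re - w.im / h * p) / c - w.im / h) _ _ (by ring)]
    refine mem_convexHull_of_exists_fintype
      ![1 - (w.re - w.im / h * p) / c - w.im / h, (w.re - w.im / h * p) / c, w.im / h]
      ![X, Y, Z] ?_ ?_ ?_ ?_
    · intro i
      fin_cases i
      · have : 1 - (w.re - w.im / h * p) / c - w.im / h =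
            -(w.im * cos B + (w.re - c) * sin B) / (c * sin B) := by
          field_simp
          linear_combination -w.im * k2
        simp only [Fin.zero_eta, Matrix.cons_val_zero]
        rw [this]
        exact div_nonneg (by linarith) (by positivity)
      · have : (w.re - w.im / h * p) / c = -(w.im * cos A - w.re * sin A) / (c * sin A) := by
          field_simp
          linear_combination -w.im * k1
        simp only [Fin.mk_one, Matrix.cons_val_one, Matrix.cons_val_zero]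
        rw [this]
        exact div_nonneg (by linarith) (by positivity)
      · simp only [Fin.reduceFinMk, Matrix.cons_val]
        positivity
    · simp only [Fin.sum_univ_three, Matrix.cons_val]
      ring
    · intro i
      fin_cases i <;> simp
    · simp [Fin.sum_univ_three]
  set κ := (h * sin (A + B) - (sin B * c1 + sin A * c2 + sin (A + B) * c3)) / 3 with hκ
  have κ0 : 0 < κ := by linarith
  set y0 := c3 + κ with hy0
  set x0 := (c1 + y0 * cos A + κ) / sin A with hx0
  have hx0' : x0 * sin A = c1 + y0 * cos A + κ := by rw [hx0]; field_simp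
  obtain ⟨r, hr⟩ := exists_iso ⟨-sin θ, -cos θ⟩ (⟨x0, y0⟩ - ⟨-sin θ, -cos θ⟩ * V) (by
    rw [← sq_eq_sq₀ (norm_nonneg _) zero_le_one, Complex.sq_norm, Complex.normSq_apply]
    linear_combination sin_sq_add_cos_sq θ)
  have fit : ∀ t ∈ Set.Icc (0 : ℝ) 1, (r.trans g) (C t) ∈ interior (convexHull ℝ {X, Y, Z}) := by
    intro t ht
    refine hsub ⟨r (C t), ?_, rfl⟩
    have a1 := b1 t ht
    have a2 := b2 t ht
    have a3 := b3 t ht
    have e : r (C t) = ⟨-sin θ * (C t - V).re + cos θ * (C t - V).im + x0,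
        -cos θ * (C t - V).re - sin θ * (C t - V).im + y0⟩ := by
      rw [hr]
      apply Complex.ext <;> simp <;> ring
    simp only [ip, cos_add, sin_add, cos_sub, sin_sub, cos_pi, sin_pi] at a1 a2 a3
    generalize (C t - V).re = x at *
    generalize (C t - V).im = y at *
    rw [e]
    refine ⟨?_, ?_, ?_⟩
    · simp only; linarith
    · simp only; linarith
    · simp only
      have hc : c * (sin A * sin B) = h * sin (A + B) := by
        rw [sin_add]; linear_combination sin B * k1 + sin A * k2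
      have u1 := mul_le_mul_of_nonneg_left (sin_le_one (A + B)) κ0.le
      have u2 := mul_le_mul_of_nonneg_left (sin_le_one B) κ0.le
      have u3 : sin A * (c2 + y0 * cos B + (x0 - c) * sin B) < 0 := by
        have : sin A * (c2 + y0 * cos B + (x0 - c) * sin B) = sin B * c1 + sin A * c2
            + sin (A + B) * c3 + κ * sin (A + B) + κ * sin B - h * sin (A + B) := by
          rw [← hc, sin_add]
          linear_combination sin B * hx0' + (sin A * cos B + cos A * sin B) * hy0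
        linarith
      have u4 := neg_of_mul_neg_right u3 sA.le
      linarith
  exact hC.2 _ (fit 0 (by simp)) (r.trans g) rfl fit

theorem Esc.mono {C : ℝ → ℂ} {V : ℂ} {h A B A' B' : ℝ} (e : Esc (Bd C V) h A B) (hA : 0 < A)
    (hB : 0 < B) (hAA : A ≤ A') (hBB : B ≤ B') (hπ : A' + B' < π) : Esc (Bd C V) h A' B' := by
  intro θ c1 c2 c3 b1 b2 b3
  have s0 : 0 < sin (A + B) := sin_pos_of_pos_of_lt_pi (by linarith) (by linarith)
  have s1 : 0 < sin (A' + B') := sin_pos_of_pos_of_lt_pi (by linarith) (by linarith)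
  have s2 : 0 ≤ sin (A + B') := sin_nonneg_of_nonneg_of_le_pi (by linarith) (by linarith)
  have s3 : 0 ≤ sin (A' - A) := sin_nonneg_of_nonneg_of_le_pi (by linarith) (by linarith)
  have s4 : 0 ≤ sin (A' + B) := sin_nonneg_of_nonneg_of_le_pi (by linarith) (by linarith)
  have s5 : 0 ≤ sin (B' - B) := sin_nonneg_of_nonneg_of_le_pi (by linarith) (by linarith)
  have := e θ ((sin (A + B') * c1 + sin (A' - A) * c2) / sin (A' + B'))
    ((sin (B' - B) * c1 + sin (A' + B) * c2) / sin (A' + B')) c3 (fun t ht => by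
      rw [le_div_iff₀ s1]
      have a1 := mul_le_mul_of_nonneg_left (b1 t ht) s2
      have a2 := mul_le_mul_of_nonneg_left (b2 t ht) s3
      have : ip (C t - V) (θ + π + A) * sin (A' + B') = sin (A + B') * ip (C t - V) (θ + π + A')
          + sin (A' - A) * ip (C t - V) (θ + π - B') := by
        generalize θ + π = x
        simp only [ip, sin_add, cos_add, sin_sub, cos_sub]; ring
      linarith) (fun t ht => by
      rw [le_div_iff₀ s1]
      have a1 := mul_le_mul_of_nonneg_left (b1 t ht) s5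
      have a2 := mul_le_mul_of_nonneg_left (b2 t ht) s4
      have : ip (C t - V) (θ + π - B) * sin (A' + B') = sin (B' - B) * ip (C t - V) (θ + π + A')
          + sin (A' + B) * ip (C t - V) (θ + π - B') := by
        generalize θ + π = x
        simp only [ip, sin_add, cos_add, sin_sub, cos_sub]; ring
      linarith) b3
  have e2 : sin B * ((sin (A + B') * c1 + sin (A' - A) * c2) / sin (A' + B'))
      + sin A * ((sin (B' - B) * c1 + sin (A' + B) * c2) / sin (A' + B'))
      = sin (A + B) * ((sin B' * c1 + sin A' * c2) / sin (A' + B')) := by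
    field_simp
    simp only [sin_add, sin_sub]; ring
  rw [e2] at this
  have e3 : h ≤ (sin B' * c1 + sin A' * c2) / sin (A' + B') + c3 :=
    le_of_mul_le_mul_left (by linarith) s0
  have e4 := mul_le_mul_of_nonneg_right e3 s1.le
  rw [add_mul, div_mul_cancel₀ _ s1.ne'] at e4
  linarith

theorem Esc.pl {U : ℝ → ℝ → Prop} {h A B ε ω : ℝ} {f g : ℝ → ℝ} (e : Esc U h A B)
    (per : ∀ θ c, U θ c → U (θ + 2 * π) c) (hA : 0 ≤ A) (hB : 0 ≤ B) (hAB : A + B ≤ π / 2)
    (hε : 0 ≤ ε) (hf : ∀ η ∈ Set.Icc 0 π, U (ω + η) (f η + ε))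
    (hg : ∀ η ∈ Set.Icc 0 π, U (ω - η) (g η + ε)) : Pl (h - 3 * ε) f g A B := by
  have hpi := pi_pos
  have s1 : sin A ≤ sin (A + B) := sin_le_sin_of_le_of_le_pi_div_two (by linarith) hAB (by linarith)
  have s2 : sin B ≤ sin (A + B) := sin_le_sin_of_le_of_le_pi_div_two (by linarith) hAB (by linarith)
  have t1 := mul_le_mul_of_nonneg_left s1 hε
  have t2 := mul_le_mul_of_nonneg_left s2 hε
  have hf' : ∀ η x, 0 ≤ η → η ≤ π → x = ω + η → U x (f η + ε) := fun η x h1 h2 h3 =>
    h3 ▸ hf η ⟨h1, h2⟩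
  have hf2 : ∀ η x, 0 ≤ η → η ≤ π → x = ω + η + 2 * π → U x (f η + ε) := fun η x h1 h2 h3 =>
    h3 ▸ per _ _ (hf η ⟨h1, h2⟩)
  have hg' : ∀ η x, 0 ≤ η → η ≤ π → x = ω - η → U x (g η + ε) := fun η x h1 h2 h3 =>
    h3 ▸ hg η ⟨h1, h2⟩
  have hg2 : ∀ η x, 0 ≤ η → η ≤ π → x = ω - η + 2 * π → U x (g η + ε) := fun η x h1 h2 h3 =>
    h3 ▸ per _ _ (hg η ⟨h1, h2⟩)
  refine ⟨?_, ?_, ?_, fun θ h1 h2 => ?_⟩
  · have := e (ω + π) _ _ _ (hf2 A _ hA (by linarith) (by ring)) (hg2 B _ hB (by linarith) (by ring))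
      (hf' π _ hpi.le le_rfl rfl)
    linarith
  · have := e (ω - π) _ _ _ (hf' A _ hA (by linarith) (by ring)) (hg' B _ hB (by linarith) (by ring))
      (hg' π _ hpi.le le_rfl rfl)
    linarith
  · have := e ω _ _ _ (hg2 (π - A) _ (by linarith) (by linarith) (by ring))
      (hf' (π - B) _ (by linarith) (by linarith) (by ring)) (hf' 0 _ le_rfl hpi.le (by ring))
    linarith
  · have := e (ω + θ) _ _ _ (hg2 (π - θ - A) _ (by linarith) (by linarith) (by ring))
      (hg2 (π - θ + B) _ (by linarith) (by linarith) (by ring))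
      (hf' θ _ (by linarith) (by linarith) rfl)
    linarith

theorem Esc.mirror {C : ℝ → ℂ} {V : ℂ} {h A B : ℝ} (e : Esc (Bd C V) h B A) :
    Esc (fun θ c => Bd C V (-θ) c) h A B := by
  intro θ c1 c2 c3 b1 b2 b3
  have := e (-θ) c2 c1 c3 (fun t ht => by
    rw [show -θ + π + B = -(θ + π - B) + 2 * π by ring, ip_add_two_pi]; exact b2 t ht)
    (fun t ht => by
    rw [show -θ + π - A = -(θ + π + A) + 2 * π by ring, ip_add_two_pi]; exact b1 t ht) b3
  rw [add_comm B A] at this
  linarith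

theorem pl_pair {C : ℝ → ℂ} {V : ℂ} {h A B ε ω : ℝ} {f g : ℝ → ℝ} (e1 : Esc (Bd C V) h A B)
    (e2 : Esc (Bd C V) h B A) (hA : 0 ≤ A) (hB : 0 ≤ B) (hAB : A + B ≤ π / 2) (hε : 0 ≤ ε)
    (hfg : ∀ η ∈ Set.Icc 0 π, ∀ t ∈ Set.Icc (0 : ℝ) 1, ip (C t - V) (ω + η) ≤ f η + ε ∧
        ip (C t - V) (ω - η) ≤ g η + ε) :
    Pl (h - 3 * ε) f g A B ∧ Pl (h - 3 * ε) g f A B := by
  constructor
  · exact e1.pl (ω := ω) (fun θ c b t ht => by rw [ip_add_two_pi]; exact b t ht) hA hB hAB hε
      (fun η hη t ht => (hfg η hη t ht).1) (fun η hη t ht => (hfg η hη t ht).2)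
  · exact e2.mirror.pl (ω := -ω) (fun θ c b t ht => by
      rw [show -(θ + 2 * π) = -θ - 2 * π by ring, ip_sub_two_pi]; exact b t ht) hA hB hAB hε
      (fun η hη t ht => by
        rw [show -(-ω + η) = ω - η by ring]; exact (hfg η hη t ht).2)
      (fun η hη t ht => by
        rw [show -(-ω - η) = ω + η by ring]; exact (hfg η hη t ht).1)

end Pool.Agent.P.MP_d76e6a_co
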