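import Pool.Agent.P.MP_d76e6a_co.Const
import Pool.Agent.P.MP_d76e6a_co.Fit

/-!
The Zalgaller curve has length at most `ζ w` and width at least `w`.
-/

namespace Pool.Agent.P.MP_d76e6a_co

open Real

theorem glue {f g : ℝ → ℂ} {K p : ℝ} (hf : ∀ r s, dist (f r) (f s) ≤ K * |r - s|)
    (hg : ∀ r s, dist (g r) (g s) ≤ K * |r - s|) (h : f p = g p) (r s : ℝ) :
    dist (if r ≤ p then f r else g r) (if s ≤ p then f s else g s) ≤ K * |r - s| := by
  have key : ∀ r s, r ≤ p → ¬s ≤ p → dist (f r) (g s) ≤ K * |r - s| := by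
    intro r s h1 h2
    push Not at h2
    have a1 := hf r p
    have a2 := hg p s
    have a3 := dist_triangle (f r) (f p) (g s)
    rw [abs_of_nonpos (by linarith)] at a1 a2 ⊢
    rw [← h] at a2
    linarith
  split_ifs with h1 h2 h2
  · exact hf r s
  · exact key r s h1 h2
  · rw [dist_comm, abs_sub_comm]; exact key s r h2 h1
  · exact hg r s

theorem dist_le_of_sq {z w : ℂ} {d : ℝ} (h : (z.re - w.re) ^ 2 + (z.im - w.im) ^ 2 ≤ d ^ 2) :
    dist z w ≤ |d| := by
  rw [Complex.dist_eq_re_im, ← sqrt_sq_eq_abs]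
  exact sqrt_le_sqrt h

theorem zalHalf_lip (r s : ℝ) : dist (zalHalf r) (zalHalf s) ≤ 1 * |r - s| := by
  have tphi : tan phi * cos phi = sin phi := tan_mul_cos (by linarith [cos_phi_bounds.1])
  have tpsi : tan psi * cos psi = sin psi := tan_mul_cos cos_psi_pos.ne'
  have t2 : tan psi * (2 * cos phi) = 1 := by
    have := cos_phi_bounds.1
    rw [tan_psi]; field_simp
  refine glue (f := fun r => ⟨r * cos (2 * psi), 1 - r * sin (2 * psi)⟩)
    (g := fun r => if r ≤ tan psi + (π / 2 - phi - 2 * psi) then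
      ⟨-tan psi + sin (2 * psi + (r - tan psi)), cos (2 * psi + (r - tan psi))⟩
      else ⟨tan psi - (zeta / 2 - r) * sin phi, (zeta / 2 - r) * cos phi⟩) ?_ ?_ ?_ r s
  · intro r s
    rw [one_mul]
    apply dist_le_of_sq
    apply le_of_eq
    linear_combination (r - s) ^ 2 * sin_sq_add_cos_sq (2 * psi)
  · refine glue (f := fun r =>
      ⟨-tan psi + sin (2 * psi + (r - tan psi)), cos (2 * psi + (r - tan psi))⟩)
      (g := fun r => ⟨tan psi - (zeta / 2 - r) * sin phi, (zeta / 2 - r) * cos phi⟩) ?_ ?_ ?_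
    · intro r s
      rw [one_mul]
      apply dist_le_of_sq
      have := one_sub_sq_div_two_le_cos
        (x := (2 * psi + (r - tan psi)) - (2 * psi + (s - tan psi)))
      rw [cos_sub] at this
      nlinarith [sin_sq_add_cos_sq (2 * psi + (r - tan psi)),
        sin_sq_add_cos_sq (2 * psi + (s - tan psi))]
    · intro r s
      rw [one_mul]
      apply dist_le_of_sq
      apply le_of_eq
      linear_combination (r - s) ^ 2 * sin_sq_add_cos_sq phi
    · rw [show 2 * psi + (tan psi + (π / 2 - phi - 2 * psi) - tan psi) = π / 2 - phi by ring,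
        show zeta / 2 - (tan psi + (π / 2 - phi - 2 * psi)) = tan phi by rw [zeta]; ring,
        sin_pi_div_two_sub, cos_pi_div_two_sub]
      apply Complex.ext
      · simp only
        apply mul_left_cancel₀ (show cos phi ≠ 0 by linarith [cos_phi_bounds.1])
        linear_combination sin_sq_add_cos_sq phi - t2 + sin phi * tphi
      · exact tphi.symm
  · rw [if_pos (by linarith [two_psi_le]), sub_self, add_zero]
    apply Complex.ext
    · simp only [sin_two_mul, cos_two_mul]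
      linear_combination 2 * cos psi * tpsi
    · simp only [sin_two_mul, cos_two_mul]
      linear_combination -2 * sin_sq_add_cos_sq psi - 2 * sin psi * tpsi

theorem zalgaller_lip {w : ℝ} (hw : 0 ≤ w) (r s : ℝ) :
    dist (zalgaller w r) (zalgaller w s) ≤ zeta * w * |r - s| := by
  have hz := zeta_pos
  have key : ∀ (e : ℝ), e ^ 2 = w ^ 2 → ∀ a b : ℝ, dist (⟨e * (zalHalf a).re, w * (zalHalf a).im⟩ : ℂ)
      ⟨e * (zalHalf b).re, w * (zalHalf b).im⟩ ≤ w * |a - b| := by
    intro e he a b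
    have h := zalHalf_lip a b
    rw [one_mul, Complex.dist_eq_re_im, sqrt_le_left (abs_nonneg _)] at h
    refine (dist_le_of_sq (d := w * |a - b|) ?_).trans (abs_of_nonneg (by positivity)).le
    have := mul_le_mul_of_nonneg_left h (sq_nonneg w)
    simp only
    have e2 : (e * (zalHalf a).re - e * (zalHalf b).re) ^ 2 =
        w ^ 2 * ((zalHalf a).re - (zalHalf b).re) ^ 2 := by rw [← he]; ring
    rw [e2]
    linarith
  refine glue (f := fun t =>
      ⟨-w * (zalHalf ((1 / 2 - t) * zeta)).re, w * (zalHalf ((1 / 2 - t) * zeta)).im⟩)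
    (g := fun t =>
      ⟨w * (zalHalf ((t - 1 / 2) * zeta)).re, w * (zalHalf ((t - 1 / 2) * zeta)).im⟩) ?_ ?_ ?_ r s
  · intro r s
    refine (key (-w) (by ring) _ _).trans (le_of_eq ?_)
    rw [show (1 / 2 - r) * zeta - (1 / 2 - s) * zeta = zeta * (s - r) by ring, abs_mul,
      abs_of_pos hz, abs_sub_comm]
    ring
  · intro r s
    refine (key w rfl _ _).trans (le_of_eq ?_)
    rw [show (r - 1 / 2) * zeta - (s - 1 / 2) * zeta = zeta * (r - s) by ring, abs_mul,
      abs_of_pos hz]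
    ring
  · have : 0 ≤ tan psi := by rw [tan_psi]; have := cos_phi_bounds.1; positivity
    simp [zalHalf, this]

theorem zalgaller_length {w : ℝ} (hw : 0 ≤ w) :
    pathLength (zalgaller w) ≤ ENNReal.ofReal (zeta * w) := by
  have hz := zeta_pos
  have lip : LipschitzWith (zeta * w).toNNReal (zalgaller w) :=
    LipschitzWith.of_dist_le' fun r s => by rw [Real.dist_eq]; exact zalgaller_lip hw r s
  have a1 := (lip.lipschitzOnWith (s := Set.univ)).comp_eVariationOn_le (g := id)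
    (s := Set.Icc (0 : ℝ) 1) (Set.mapsTo_univ _ _)
  have a2 := (monotoneOn_id (s := Set.Icc (0 : ℝ) 1)).eVariationOn_eq (a := 0) (b := 1)
    (by simp) (by simp)
  simp only [Set.inter_self, id, sub_zero, ENNReal.ofReal_one] at a2
  calc pathLength (zalgaller w) ≤ (zeta * w).toNNReal * eVariationOn id (Set.Icc (0 : ℝ) 1) := a1
    _ ≤ (zeta * w).toNNReal * 1 := by rw [a2]
    _ = ENNReal.ofReal (zeta * w) := by rw [mul_one]; rfl

theorem zalgaller_isPath {w : ℝ} (hw : 0 ≤ w) : IsPath (zalgaller w) := by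
  have lip : LipschitzWith (zeta * w).toNNReal (zalgaller w) :=
    LipschitzWith.of_dist_le' fun r s => by rw [Real.dist_eq]; exact zalgaller_lip hw r s
  exact ⟨lip.continuous.continuousOn, ne_top_of_le_ne_top ENNReal.ofReal_ne_top (zalgaller_length hw)⟩

theorem zalHalf_end : zalHalf (zeta / 2) = ⟨tan psi, 0⟩ := by
  have : 0 < tan phi := tan_pos_of_pos_of_lt_pi_div_two phi_facts.2.2.2.1 phi_facts.2.2.2.2
  have h2 := two_psi_le
  rw [zalHalf, if_neg (by rw [zeta]; linarith), if_neg (by rw [zeta]; linarith)]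
  simp

theorem zalHalf_width {u v : ℝ} (hu : 0 ≤ u) (hv : 0 ≤ v) (h : u ^ 2 + v ^ 2 = 1) :
    ∃ r ∈ Set.Icc 0 (zeta / 2), 1 ≤ u * ((zalHalf r).re + tan psi) + v * (zalHalf r).im := by
  have hpi := pi_pos
  have hz := zeta_pos
  have c0 := cos_phi_bounds.1
  have t0 : 0 ≤ tan psi := by rw [tan_psi]; positivity
  have t1 : 0 < tan phi := tan_pos_of_pos_of_lt_pi_div_two phi_facts.2.2.2.1 phi_facts.2.2.2.2
  have p1 := phi_facts.2.2.2.1
  have p2 := phi_facts.2.2.2.2
  obtain ⟨θ, h0, h1, rfl, rfl⟩ : ∃ θ, 0 ≤ θ ∧ θ ≤ π / 2 ∧ u = sin θ ∧ v = cos θ :=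
    ⟨arcsin u, arcsin_nonneg.2 hu, arcsin_le_pi_div_two u,
      (sin_arcsin (by linarith) (by nlinarith)).symm, by
        rw [cos_arcsin, show 1 - u ^ 2 = v ^ 2 by linarith, sqrt_sq hv]⟩
  rcases le_or_gt θ (2 * psi) with c | c
  · refine ⟨0, ⟨le_rfl, by linarith⟩, ?_⟩
    have a1 : cos psi ≤ cos (θ - psi) := by
      rw [← cos_abs (θ - psi)]
      exact cos_le_cos_of_nonneg_of_le_pi (abs_nonneg _) (by linarith [psi_lt])
        (abs_le.2 ⟨by linarith, by linarith⟩)
    have tpsi : tan psi * cos psi = sin psi := tan_mul_cos cos_psi_pos.ne'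
    rw [cos_sub, ← tpsi] at a1
    simp only [zalHalf, if_pos t0]
    refine le_of_mul_le_mul_left ?_ cos_psi_pos
    linarith
  rcases le_total θ (π / 2 - phi) with c' | c'
  · refine ⟨tan psi + (θ - 2 * psi), ⟨by linarith, by rw [zeta]; linarith⟩, ?_⟩
    rw [zalHalf, if_neg (by linarith), if_pos (by linarith),
      show 2 * psi + (tan psi + (θ - 2 * psi) - tan psi) = θ by ring]
    simp only
    linarith
  · refine ⟨zeta / 2, ⟨by linarith, le_rfl⟩, ?_⟩
    rw [zalHalf_end]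
    have a1 : sin (π / 2 - phi) ≤ sin θ := sin_le_sin_of_le_of_le_pi_div_two (by linarith) h1 c'
    rw [sin_pi_div_two_sub] at a1
    have t2 : tan psi * (2 * cos phi) = 1 := by rw [tan_psi]; field_simp
    simp only
    nlinarith

theorem zalgaller_pts (w : ℝ) {r : ℝ} (hr : r ∈ Set.Icc 0 (zeta / 2)) :
    (∃ t ∈ Set.Icc (0 : ℝ) 1, zalgaller w t = ⟨w * (zalHalf r).re, w * (zalHalf r).im⟩) ∧
    (∃ t ∈ Set.Icc (0 : ℝ) 1, zalgaller w t = ⟨-w * (zalHalf r).re, w * (zalHalf r).im⟩) := by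
  have hz := zeta_pos
  have a0 : 0 ≤ r / zeta := div_nonneg hr.1 hz.le
  have a1 : r / zeta ≤ 1 / 2 := by rw [div_le_iff₀ hz]; linarith [hr.2]
  have a2 : r / zeta * zeta = r := by field_simp
  have hL : zalgaller w (1 / 2 - r / zeta) = ⟨-w * (zalHalf r).re, w * (zalHalf r).im⟩ := by
    rw [zalgaller, if_pos (by linarith), sub_sub_cancel, a2]
  refine ⟨?_, ⟨1 / 2 - r / zeta, ⟨by linarith, by linarith⟩, hL⟩⟩
  rcases eq_or_lt_of_le a0 with h | h
  · refine ⟨1 / 2 - r / zeta, ⟨by linarith, by linarith⟩, ?_⟩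
    have r0 : r = 0 := by rw [← a2, ← h, zero_mul]
    have : 0 ≤ tan psi := by rw [tan_psi]; have := cos_phi_bounds.1; positivity
    rw [hL, r0]
    simp [zalHalf, this]
  · refine ⟨1 / 2 + r / zeta, ⟨by linarith, by linarith⟩, ?_⟩
    rw [zalgaller, if_neg (by linarith), add_sub_cancel_left, a2]

theorem zalgaller_width {w : ℝ} (hw : 0 ≤ w) {u v : ℝ} (h : u ^ 2 + v ^ 2 = 1) :
    ∃ t ∈ Set.Icc (0 : ℝ) 1, ∃ s ∈ Set.Icc (0 : ℝ) 1,
      w ≤ u * ((zalgaller w t).re - (zalgaller w s).re)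
        + v * ((zalgaller w t).im - (zalgaller w s).im) := by
  have hz := zeta_pos
  obtain ⟨r, hr, k⟩ := zalHalf_width (abs_nonneg u) (abs_nonneg v) (by simpa using h)
  obtain ⟨⟨t1, m1, e1⟩, ⟨t2, m2, e2⟩⟩ := zalgaller_pts w hr
  obtain ⟨⟨t3, m3, e3⟩, ⟨t4, m4, e4⟩⟩ := zalgaller_pts w (r := zeta / 2) ⟨by linarith, le_rfl⟩
  rw [zalHalf_end] at e3 e4
  have k' := mul_le_mul_of_nonneg_left k hw
  rcases le_total 0 u with hu | hu <;> rcases le_total 0 v with hv | hv
  · rw [abs_of_nonneg hu, abs_of_nonneg hv] at k'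
    exact ⟨t1, m1, t4, m4, by rw [e1, e4]; simp only; linarith⟩
  · rw [abs_of_nonneg hu, abs_of_nonpos hv] at k'
    exact ⟨t3, m3, t2, m2, by rw [e3, e2]; simp only; linarith⟩
  · rw [abs_of_nonpos hu, abs_of_nonneg hv] at k'
    exact ⟨t2, m2, t3, m3, by rw [e3, e2]; simp only; linarith⟩
  · rw [abs_of_nonpos hu, abs_of_nonpos hv] at k'
    exact ⟨t4, m4, t1, m1, by rw [e1, e4]; simp only; linarith⟩

theorem iso_im (G : ℂ ≃ᵢ ℂ) : ∃ u v : ℝ, u ^ 2 + v ^ 2 = 1 ∧
    ∀ z w : ℂ, (G z).im - (G w).im = u * (z.re - w.re) + v * (z.im - w.im) := by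
  obtain ⟨a, ha⟩ := linear_isometry_complex G.toRealLinearIsometryEquiv
  have n : (a : ℂ).im ^ 2 + (a : ℂ).re ^ 2 = 1 := by
    have := Complex.sq_norm (a : ℂ)
    rw [Circle.norm_coe, Complex.normSq_apply] at this
    linarith
  have e : ∀ z, G z = G.toRealLinearIsometryEquiv z + G 0 := fun z => by
    rw [IsometryEquiv.toRealLinearIsometryEquiv_apply]; ring
  rcases ha with ha | ha
  · refine ⟨(a : ℂ).im, (a : ℂ).re, n, fun z w => ?_⟩
    rw [e z, e w, ha]
    simp [rotation_apply]; ring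
  · refine ⟨(a : ℂ).im, -(a : ℂ).re, by linarith, fun z w => ?_⟩
    rw [e z, e w, ha]
    simp [rotation_apply]; ring

theorem Std.strip {X Y Z : ℂ} {h A B : ℝ} (s : Std X Y Z h A B) : ∃ g : ℂ ≃ᵢ ℂ,
    (∀ z ∈ convexHull ℝ {X, Y, Z}, (g z).im ∈ Set.Icc 0 h) ∧
    (∀ z ∈ interior (convexHull ℝ {X, Y, Z}), (g z).im ∈ Set.Ioo 0 h) := by
  obtain ⟨hpos, -, -, g, c, p, -, -, -, hg⟩ := s
  have sub : convexHull ℝ {X, Y, Z} ⊆ g.symm ⁻¹' (Complex.im ⁻¹' Set.Icc 0 h) := by
    apply convexHull_min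
    · have e1 := hg 1 0 0 (by ring)
      have e2 := hg 0 1 0 (by ring)
      have e3 := hg 0 0 1 (by ring)
      simp only [one_smul, zero_smul, add_zero, zero_add] at e1 e2 e3
      rintro z (rfl | rfl | rfl)
      · rw [← e1]; simp [hpos.le]
      · rw [← e2]; simp [hpos.le]
      · rw [← e3]; simp [hpos.le]
    · have c1 : Convex ℝ (Complex.im ⁻¹' Set.Icc 0 h) :=
        (convex_Icc 0 h).linear_preimage Complex.imLm
      exact c1.affine_preimage g.symm.toRealAffineIsometryEquiv.toAffineEquiv.toAffineMap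
  refine ⟨g.symm, fun z hz => sub hz, fun z hz => ?_⟩
  have := interior_mono sub hz
  rw [← g.symm.coe_toHomeomorph, ← Homeomorph.preimage_interior, Complex.interior_preimage_im,
    interior_Icc] at this
  exact this

theorem Std.zal_open {X Y Z : ℂ} {h A B : ℝ} (s : Std X Y Z h A B) :
    IsEscapePath (interior (convexHull ℝ {X, Y, Z})) (zalgaller h) := by
  refine ⟨zalgaller_isPath s.hpos.le, fun P _ g _ hin => ?_⟩
  obtain ⟨g0, -, h2⟩ := s.strip
  obtain ⟨u, v, huv, e⟩ := iso_im (g.trans g0)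
  obtain ⟨t, ht, t', ht', k⟩ := zalgaller_width s.hpos.le huv
  have a1 := h2 _ (hin t ht)
  have a2 := h2 _ (hin t' ht')
  have a3 := e (zalgaller h t) (zalgaller h t')
  simp only [IsometryEquiv.trans_apply] at a3
  linarith [a1.2, a2.1]

theorem Std.zal_closed {X Y Z : ℂ} {h A B w : ℝ} (s : Std X Y Z h A B) (hw : h < w) :
    IsEscapePath (convexHull ℝ {X, Y, Z}) (zalgaller w) := by
  have w0 : 0 ≤ w := by linarith [s.hpos]
  refine ⟨zalgaller_isPath w0, fun P _ g _ hin => ?_⟩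
  obtain ⟨g0, h2, -⟩ := s.strip
  obtain ⟨u, v, huv, e⟩ := iso_im (g.trans g0)
  obtain ⟨t, ht, t', ht', k⟩ := zalgaller_width w0 huv
  have a1 := h2 _ (hin t ht)
  have a2 := h2 _ (hin t' ht')
  have a3 := e (zalgaller w t) (zalgaller w t')
  simp only [IsometryEquiv.trans_apply] at a3
  linarith [a1.2, a2.1]

end Pool.Agent.P.MP_d76e6a_co
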