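import Pool.Agent.P.MP_d76e6a_co.Half

/-!
Certificates for the contact orders that do not occur on the optimal curve.
-/

namespace Pool.Agent.P.MP_d76e6a_co

open Real

theorem gamma_case (L R : Half) {ρ A B sA cA sB cB σ : ℝ} (hsA : sin A = sA) (hcA : cos A = cA)
    (hsB : sin B = sB) (hcB : cos B = cB) (hσ : sin (A + B) = σ) (hA : 0 ≤ A) (hB : 0 ≤ B)
    (hAB : A + B ≤ π) (x1 x2 y : ℝ) (hx1 : 0 ≤ x1) (hx2 : 0 ≤ x2) (hy : 0 ≤ y)
    (n1 : (0 + (x1 + x2) * sB * sA + y * sA * sB) ^ 2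
      + (-(σ * x1) + (x1 + x2) * sB * cA + -(y * sA * cB)) ^ 2 ≤ 1)
    (n2 : ((x1 + x2) * sB * sA + y * sA * sB) ^ 2 + ((x1 + x2) * sB * cA + -(y * sA * cB)) ^ 2 ≤ 1)
    (n3 : ((x1 + x2) * sB * sA) ^ 2 + ((x1 + x2) * sB * cA) ^ 2 ≤ 1)
    (n4 : (y * sA * sB) ^ 2 + (-(y * sA * cB)) ^ 2 ≤ 1)
    (m : ((x1 + x2) * sA * sB + y * sB * sA + 0) ^ 2
      + ((x1 + x2) * sA * cB + -(y * sB * cA) + -(σ * x2)) ^ 2 ≤ 1)
    (m12 : ((x1 + x2) * sA * sB + y * sB * sA) ^ 2 + ((x1 + x2) * sA * cB + -(y * sB * cA)) ^ 2 ≤ 1)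
    (m13 : ((x1 + x2) * sA * sB + 0) ^ 2 + ((x1 + x2) * sA * cB + -(σ * x2)) ^ 2 ≤ 1)
    (m23 : (y * sB * sA + 0) ^ 2 + (-(y * sB * cA) + -(σ * x2)) ^ 2 ≤ 1)
    (m1 : ((x1 + x2) * sA * sB) ^ 2 + ((x1 + x2) * sA * cB) ^ 2 ≤ 1)
    (m2 : (y * sB * sA) ^ 2 + (-(y * sB * cA)) ^ 2 ≤ 1)
    (m3 : (0 : ℝ) ^ 2 + (-(σ * x2)) ^ 2 ≤ 1)
    (hP : Pl ρ L.h R.h A B) (htb : L.d π ≤ L.d A) :
    ρ * (σ * (x1 + x2 + y)) ≤ L.len + R.len := by
  have a1 := mul_le_mul_of_nonneg_left hP.up1 hx1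
  have a2 := mul_le_mul_of_nonneg_left hP.up2 hx2
  have a3 := mul_le_mul_of_nonneg_left hP.down hy
  have bL := L.first2 htb (L.tb hA (x := π - B) (by linarith) (by linarith) htb) (L.hd _) (L.hd _)
    n1 n2 n3 n4
  have bR := R.robust3 (R.hd B) (R.hd (π - A)) (R.hd π) m m12 m13 m23 m1 m2 m3
  simp only [Half.h, sin_pi, cos_pi, sin_pi_sub, cos_pi_sub, L.d0, L.X0, L.Y0, hsA, hcA, hsB, hcB,
    hσ] at a1 a2 a3
  linarith

theorem betabeta_case (L R : Half) {ρ A B sA cA sB cB σ : ℝ} (hsA : sin A = sA) (hcA : cos A = cA)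
    (hsB : sin B = sB) (hcB : cos B = cB) (hσ : sin (A + B) = σ) (x : ℝ) (hx : 0 ≤ x)
    (n1 : (x * sB * sA + 0 + x * sA * sB) ^ 2 + (x * sB * cA + -(σ * x) + x * sA * cB) ^ 2 ≤ 1)
    (n2 : (0 + x * sA * sB) ^ 2 + (-(σ * x) + x * sA * cB) ^ 2 ≤ 1)
    (n3 : (x * sA * sB) ^ 2 + (x * sA * cB) ^ 2 ≤ 1)
    (hP : Pl ρ L.h R.h A B) (hQ : Pl ρ R.h L.h A B)
    (hL1 : L.d A ≤ L.d π) (hL2 : L.d π ≤ L.d B) (hR1 : R.d A ≤ R.d π) (hR2 : R.d π ≤ R.d B) :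
    ρ * (σ * (x + x)) ≤ L.len + R.len := by
  have a1 := mul_le_mul_of_nonneg_left hP.up1 hx
  have a2 := mul_le_mul_of_nonneg_left hQ.up1 hx
  have bL := L.chain3 hL1 hL2 (L.hd _) n1 n2 n3
  have bR := R.chain3 hR1 hR2 (R.hd _) n1 n2 n3
  simp only [Half.h, sin_pi, cos_pi, hsA, hcA, hsB, hcB, hσ] at a1 a2
  linarith

theorem betaalpha_case (L R : Half) {ρ A B sA cA sB cB σ κ : ℝ} (hsA : sin A = sA)
    (hcA : cos A = cA) (hsB : sin B = sB) (hcB : cos B = cB) (hσ : sin (A + B) = σ)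
    (hκ : cos (A + B) = κ) (hA : 0 ≤ A) (hAB : A ≤ B) (hB : A + 2 * B ≤ π)
    (x1 x2 y1 y2 z : ℝ) (hx1 : 0 ≤ x1) (hx2 : 0 ≤ x2) (hy1 : 0 ≤ y1) (hy2 : 0 ≤ y2) (hz : 0 ≤ z)
    (n1 : ((x1 + x2) * sB * sA + 0 + ((y1 + y2) * sA + z * σ) * sB) ^ 2
      + ((x1 + x2) * sB * cA + -(σ * (x1 + y2)) + ((y1 + y2) * sA + z * σ) * cB) ^ 2 ≤ 1)
    (n2 : (0 + ((y1 + y2) * sA + z * σ) * sB) ^ 2
      + (-(σ * (x1 + y2)) + ((y1 + y2) * sA + z * σ) * cB) ^ 2 ≤ 1)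
    (n3 : (((y1 + y2) * sA + z * σ) * sB) ^ 2 + (((y1 + y2) * sA + z * σ) * cB) ^ 2 ≤ 1)
    (m1 : ((y1 + y2) * sB * sA + (x1 + x2) * sA * sB + 0 + z * sB * σ) ^ 2
      + ((y1 + y2) * sB * cA + (x1 + x2) * sA * cB + -(σ * (x2 + y1) + z * sA)
        + -(z * sB * κ)) ^ 2 ≤ 1)
    (m2 : ((x1 + x2) * sA * sB + 0 + z * sB * σ) ^ 2
      + ((x1 + x2) * sA * cB + -(σ * (x2 + y1) + z * sA) + -(z * sB * κ)) ^ 2 ≤ 1)
    (m34 : (0 + z * sB * σ) ^ 2 + (-(σ * (x2 + y1) + z * sA) + -(z * sB * κ)) ^ 2 ≤ 1)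
    (m3 : (0 : ℝ) ^ 2 + (-(σ * (x2 + y1) + z * sA)) ^ 2 ≤ 1)
    (m4 : (z * sB * σ) ^ 2 + (-(z * sB * κ)) ^ 2 ≤ 1)
    (hP : Pl ρ L.h R.h A B) (hQ : Pl ρ R.h L.h A B)
    (hL1 : L.d A ≤ L.d π) (hL2 : L.d π ≤ L.d B) (hR : R.d B < R.d π) :
    ρ * (σ * (x1 + x2 + y1 + y2 + z)) ≤ L.len + R.len := by
  have hpi := pi_pos
  have a1 := mul_le_mul_of_nonneg_left hP.up1 hx1
  have a2 := mul_le_mul_of_nonneg_left hP.up2 hx2
  have a3 := mul_le_mul_of_nonneg_left hQ.up1 hy1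
  have a4 := mul_le_mul_of_nonneg_left hQ.up2 hy2
  have a5 := mul_le_mul_of_nonneg_left (hP.side B le_rfl (by linarith)) hz
  have bL := L.chain3 hL1 hL2 (L.hd _) n1 n2 n3
  have bR := R.two2 (R.bt' hA hAB (by linarith) hR) hR.le
    (R.bt (x := π - (A + B)) (by linarith) (by linarith) (by linarith) hR) (R.hd _) (R.hd _)
    m1 m2 m34 m3 m4
  rw [show π - B - A = π - (A + B) by ring, show π - B + B = π by ring] at a5
  simp only [Half.h, sin_pi, cos_pi, sin_pi_sub, cos_pi_sub, hsA, hcA, hsB, hcB, hσ, hκ]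
    at a1 a2 a3 a4 a5
  linarith

/-- First box. -/
theorem bad1 (L R : Half) {ρ A B : ℝ} (hρ : 0 ≤ ρ) (hsA : sin A = 5 / 13) (hcA : cos A = 12 / 13)
    (hsB : sin B = 153 / 185) (hcB : cos B = 104 / 185) (hA : 0 ≤ A) (hAB : A ≤ B)
    (hB : A + 2 * B ≤ π) (hP : Pl ρ L.h R.h A B) (hQ : Pl ρ R.h L.h A B)
    (htb : L.d π ≤ L.d B) : ρ * (23 / 10) ≤ L.len + R.len := by
  have hσ : sin (A + B) = 2356 / 2405 := by rw [sin_add, hsA, hcA, hsB, hcB]; norm_num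
  have hκ : cos (A + B) = 483 / 2405 := by rw [cos_add, hsA, hcA, hsB, hcB]; norm_num
  have g : ∀ L R : Half, Pl ρ L.h R.h A B → L.d π ≤ L.d A → ρ * (23 / 10) ≤ L.len + R.len := by
    intro L R hP h
    have := gamma_case L R hsA hcA hsB hcB hσ hA (by linarith) (by linarith) (47 / 40) 0 (47 / 40)
      (by norm_num) (by norm_num) (by norm_num) (by norm_num) (by norm_num) (by norm_num)
      (by norm_num) (by norm_num) (by norm_num) (by norm_num) (by norm_num) (by norm_num)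
      (by norm_num) (by norm_num) hP h
    linarith
  rcases le_or_gt (L.d π) (L.d A) with h1 | h1
  · exact g L R hP h1
  rcases le_or_gt (R.d π) (R.d A) with h2 | h2
  · have := g R L hQ h2
    linarith
  rcases le_or_gt (R.d π) (R.d B) with h3 | h3
  · have := betabeta_case L R hsA hcA hsB hcB hσ (47 / 40) (by norm_num) (by norm_num)
      (by norm_num) (by norm_num) hP hQ h1.le htb h2.le h3
    linarith
  · have := betaalpha_case L R hsA hcA hsB hcB hσ hκ hA hAB hB (47 / 40) 0 (694 / 1000)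
      (40 / 1000) (44 / 100) (by norm_num) (by norm_num) (by norm_num) (by norm_num) (by norm_num)
      (by norm_num) (by norm_num) (by norm_num) (by norm_num) (by norm_num) (by norm_num)
      (by norm_num) (by norm_num) hP hQ h1.le htb h3
    linarith

/-- Second box. -/
theorem bad2 (L R : Half) {ρ A B : ℝ} (hρ : 0 ≤ ρ) (hsA : sin A = 8 / 17) (hcA : cos A = 15 / 17)
    (hsB : sin B = 3 / 5) (hcB : cos B = 4 / 5) (hA : 0 ≤ A) (hAB : A ≤ B)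
    (hB : A + 2 * B ≤ π) (hP : Pl ρ L.h R.h A B) (hQ : Pl ρ R.h L.h A B)
    (htb : L.d π ≤ L.d B) : ρ * (23 / 10) ≤ L.len + R.len := by
  have hσ : sin (A + B) = 77 / 85 := by rw [sin_add, hsA, hcA, hsB, hcB]; norm_num
  have hκ : cos (A + B) = 36 / 85 := by rw [cos_add, hsA, hcA, hsB, hcB]; norm_num
  have g : ∀ L R : Half, Pl ρ L.h R.h A B → L.d π ≤ L.d A → ρ * (23 / 10) ≤ L.len + R.len := by
    intro L R hP h
    have := gamma_case L R hsA hcA hsB hcB hσ hA (by linarith) (by linarith) (116 / 100)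
      (39 / 100) 1
      (by norm_num) (by norm_num) (by norm_num) (by norm_num) (by norm_num) (by norm_num)
      (by norm_num) (by norm_num) (by norm_num) (by norm_num) (by norm_num) (by norm_num)
      (by norm_num) (by norm_num) hP h
    linarith
  rcases le_or_gt (L.d π) (L.d A) with h1 | h1
  · exact g L R hP h1
  rcases le_or_gt (R.d π) (R.d A) with h2 | h2
  · have := g R L hQ h2
    linarith
  rcases le_or_gt (R.d π) (R.d B) with h3 | h3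
  · have := betabeta_case L R hsA hcA hsB hcB hσ (13 / 10) (by norm_num) (by norm_num)
      (by norm_num) (by norm_num) hP hQ h1.le htb h2.le h3
    linarith
  · have := betaalpha_case L R hsA hcA hsB hcB hσ hκ hA hAB hB (66 / 100) 0 (98 / 100)
      (90 / 100) 0 (by norm_num) (by norm_num) (by norm_num) (by norm_num) (by norm_num)
      (by norm_num) (by norm_num) (by norm_num) (by norm_num) (by norm_num) (by norm_num)
      (by norm_num) (by norm_num) hP hQ h1.le htb h3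
    linarith

end Pool.Agent.P.MP_d76e6a_co
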