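import Pool.Agent.P.MP_d76e6a_co.Defs

/-!
Numerical and algebraic facts on the constants of the Zalgaller curve.
-/

namespace Pool.Agent.P.MP_d76e6a_co

open Real

theorem phi_facts : 8 * sin phi ^ 3 - 4 * sin phi ^ 2 - 10 * sin phi + 3 = 0 ∧
    0.2859 < sin phi ∧ sin phi < 0.2861 ∧ 0 < phi ∧ phi < π / 2 := by
  have hpi := pi_pos
  set s := sin (arcsin (17 / 64) / 3) with hs
  have a0 : 0 ≤ arcsin (17 / 64) := arcsin_nonneg.2 (by norm_num)
  have a1 := arcsin_le_pi_div_two (17 / 64)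
  have s0 : 0 ≤ s := sin_nonneg_of_nonneg_of_le_pi (by linarith) (by linarith)
  have s1 : s ≤ 1 / 2 := by
    rw [← sin_pi_div_six]
    exact sin_le_sin_of_le_of_le_pi_div_two (by linarith) (by linarith) (by linarith)
  have s3 : 3 * s - 4 * s ^ 3 = 17 / 64 := by
    rw [hs, ← sin_three_mul, show 3 * (arcsin (17 / 64) / 3) = arcsin (17 / 64) by ring,
      sin_arcsin (by norm_num) (by norm_num)]
  have e : sin phi = 1 / 6 + 4 / 3 * s := sin_arcsin (by linarith) (by linarith)
  have cub : 8 * sin phi ^ 3 - 4 * sin phi ^ 2 - 10 * sin phi + 3 = 0 := by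
    rw [e]; linear_combination (-128 / 27) * s3
  have l1 : 1 / 6 ≤ sin phi := by linarith
  have l2 : sin phi ≤ 5 / 6 := by linarith
  refine ⟨cub, ?_, ?_, arcsin_pos.2 (by linarith), arcsin_lt_pi_div_two.2 (by linarith)⟩
  · by_contra h
    push Not at h
    nlinarith [mul_nonneg (sub_nonneg.2 l1) (sub_nonneg.2 h)]
  · by_contra h
    push Not at h
    nlinarith [mul_nonneg (sub_nonneg.2 l2) (sub_nonneg.2 h)]

theorem cos_phi_bounds : 0.958 < cos phi ∧ cos phi < 0.9583 := by
  obtain ⟨-, h1, h2, h3, h4⟩ := phi_facts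
  have c0 : 0 < cos phi := cos_pos_of_mem_Ioo ⟨by linarith, h4⟩
  have := sin_sq_add_cos_sq phi
  constructor <;> nlinarith

theorem tan_psi : tan psi = 1 / (2 * cos phi) := tan_arctan _

theorem psi_pos : 0 < psi := arctan_pos.2 (by have := cos_phi_bounds.1; positivity)

theorem psi_lt : psi < π / 2 := arctan_lt_pi_div_two _

theorem cos_psi_pos : 0 < cos psi := cos_arctan_pos _

theorem sin_psi_pos : 0 < sin psi :=
  sin_pos_of_pos_of_lt_pi psi_pos (by linarith [psi_lt, pi_pos])

theorem cos_psi_eq : cos psi = 2 * cos phi * sin psi := by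
  have h := tan_psi
  have c := cos_phi_bounds.1
  have c2 := cos_psi_pos
  rw [tan_eq_sin_div_cos] at h
  field_simp at h
  linarith

theorem cos_two_psi : cos (2 * psi) = 2 * sin phi := by
  obtain ⟨cub, h1, h2, -, -⟩ := phi_facts
  have e1 := cos_psi_eq
  have e2 := sin_sq_add_cos_sq psi
  have e3 := sin_sq_add_cos_sq phi
  have e4 : sin psi ^ 2 * (5 - 4 * sin phi ^ 2) = 1 := by
    rw [e1] at e2
    linear_combination e2 - 4 * sin psi ^ 2 * e3
  rw [cos_two_mul, cos_sq']
  have p : (5 - 4 * sin phi ^ 2) ≠ 0 := by nlinarith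
  apply mul_right_cancel₀ p
  linear_combination cub - 2 * e4

theorem sin_two_psi : sin (2 * psi) = tan phi + tan psi := by
  have e1 := cos_psi_eq
  have e5 := cos_two_psi
  have c := cos_phi_bounds.1
  rw [cos_two_mul] at e5
  rw [tan_psi, tan_eq_sin_div_cos, sin_two_mul]
  field_simp
  linear_combination e5 - 2 * cos psi * e1

theorem sin_two_psi_bounds : 0.82 < sin (2 * psi) ∧ sin (2 * psi) < 0.8204 := by
  obtain ⟨-, h1, h2, -, -⟩ := phi_facts
  have s0 : 0 < sin (2 * psi) :=
    sin_pos_of_pos_of_lt_pi (by linarith [psi_pos]) (by linarith [psi_lt])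
  have := sin_sq_add_cos_sq (2 * psi)
  rw [cos_two_psi] at this
  constructor <;> nlinarith

theorem zeta_eq : zeta = 2 * (sin (2 * psi) + (π / 2 - phi) - 2 * psi) := by
  rw [zeta, sin_two_psi]; ring

theorem two_psi_le : 2 * psi ≤ π / 2 - phi := by
  obtain ⟨-, h1, h2, h3, h4⟩ := phi_facts
  by_contra h
  push Not at h
  have := cos_le_cos_of_nonneg_of_le_pi (by linarith) (by linarith [psi_lt]) h.le
  rw [cos_two_psi, cos_pi_div_two_sub] at this
  linarith

theorem gap_le : π / 2 - phi - 2 * psi ≤ 0.325 := by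
  obtain ⟨-, h1, h2, h3, h4⟩ := phi_facts
  by_contra h
  push Not at h
  have a1 := sin_le_sin_of_le_of_le_pi_div_two (by linarith) (by linarith [psi_pos]) h.le
  have a2 := sin_gt_sub_cube (x := 0.325) (by norm_num)
  rw [sin_sub, cos_two_psi, cos_pi_div_two_sub, sin_pi_div_two_sub] at a1
  obtain ⟨b1, b2⟩ := cos_phi_bounds
  obtain ⟨b3, b4⟩ := sin_two_psi_bounds
  nlinarith

theorem zeta_le : zeta ≤ 23 / 10 := by
  rw [zeta_eq]
  linarith [gap_le, sin_two_psi_bounds.2]

theorem zeta_pos : 0 < zeta := by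
  rw [zeta_eq]
  linarith [two_psi_le, sin_two_psi_bounds.1]

theorem cos_psi_gt : 0.886 < cos psi := by
  have h := cos_two_psi
  rw [cos_two_mul] at h
  have := phi_facts.2.1
  have := cos_psi_pos
  nlinarith

theorem psi_le : psi ≤ 2 * phi := by
  obtain ⟨-, h1, h2, h3, h4⟩ := phi_facts
  by_contra h
  push Not at h
  have := cos_le_cos_of_nonneg_of_le_pi (by linarith) (by linarith [psi_lt]) h.le
  rw [cos_two_mul, cos_sq'] at this
  nlinarith [cos_psi_gt]

end Pool.Agent.P.MP_d76e6a_co
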