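import Mathlib

/-!
Definitions for Bellman's lost-in-a-forest problem. The Euclidean plane is `ℂ`.
-/

namespace Pool.Agent.P.MP_d76e6a_co

open Real

/-- The length (total variation) of a curve parametrised by `[0, 1]`. -/
noncomputable def pathLength (C : ℝ → ℂ) : ENNReal := eVariationOn C (Set.Icc 0 1)

/-- A path: a continuous curve on `[0, 1]` of finite length. -/
def IsPath (C : ℝ → ℂ) : Prop := ContinuousOn C (Set.Icc 0 1) ∧ pathLength C ≠ ⊤

/-- `C` is an escape path for `F`: no congruent copy of `C` starting at a point of `F`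
is contained in `F`. -/
def IsEscapePath (F : Set ℂ) (C : ℝ → ℂ) : Prop :=
  IsPath C ∧ ∀ P ∈ F, ∀ g : ℂ ≃ᵢ ℂ, g (C 0) = P → ¬∀ t ∈ Set.Icc (0 : ℝ) 1, g (C t) ∈ F

/-- The escape length of `F`. -/
noncomputable def escapeLength (F : Set ℂ) : ENNReal :=
  ⨅ (C : ℝ → ℂ) (_ : IsEscapePath F C), pathLength C

/-- The angle `φ = 0.29004...` of the Zalgaller curve. -/
noncomputable def phi : ℝ := arcsin (1 / 6 + 4 / 3 * sin (arcsin (17 / 64) / 3))

/-- The angle `ψ = 0.48093...` of the Zalgaller curve. -/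
noncomputable def psi : ℝ := arctan (1 / (2 * cos phi))

/-- The length `ζ = 2.27829...` of the Zalgaller curve of width one. -/
noncomputable def zeta : ℝ := 2 * (π / 2 - phi - 2 * psi + tan phi + tan psi)

/-- The right half of the Zalgaller curve of width one, by arc length `r ∈ [0, ζ/2]` from the
apex `(0, 1)`: a segment of length `tan ψ`, an arc of the unit circle about `(-tan ψ, 0)`, and a
segment of length `tan φ` ending at `(tan ψ, 0)`. -/
noncomputable def zalHalf (r : ℝ) : ℂ :=
  if r ≤ tan psi then ⟨r * cos (2 * psi), 1 - r * sin (2 * psi)⟩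
  else if r ≤ tan psi + (π / 2 - phi - 2 * psi) then
    ⟨-tan psi + sin (2 * psi + (r - tan psi)), cos (2 * psi + (r - tan psi))⟩
  else ⟨tan psi - (zeta / 2 - r) * sin phi, (zeta / 2 - r) * cos phi⟩

/-- The Zalgaller curve of width `w`, parametrised by `[0, 1]`. -/
noncomputable def zalgaller (w : ℝ) (t : ℝ) : ℂ :=
  if t ≤ 1 / 2 then
    ⟨-w * (zalHalf ((1 / 2 - t) * zeta)).re, w * (zalHalf ((1 / 2 - t) * zeta)).im⟩
  else ⟨w * (zalHalf ((t - 1 / 2) * zeta)).re, w * (zalHalf ((t - 1 / 2) * zeta)).im⟩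

end Pool.Agent.P.MP_d76e6a_co
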