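import Mathlib

/-!
Uncrossing: a Hamiltonian path through cyclically ordered labels can be replaced, without
increasing its cost, by one whose initial segments are cyclic intervals.
-/

namespace Pool.Agent.P.MP_d76e6a_co

/-- The chords `ab` and `cd` interleave. -/
def Cross (a b c d : ℕ) : Prop :=
  (a < c ∧ c < b ∧ b < d) ∨ (a < d ∧ d < b ∧ b < c) ∨ (b < c ∧ c < a ∧ a < d) ∨
  (b < d ∧ d < a ∧ a < c) ∨ (c < a ∧ a < d ∧ d < b) ∨ (c < b ∧ b < d ∧ d < a) ∨
  (d < a ∧ a < c ∧ c < b) ∨ (d < b ∧ b < c ∧ c < a)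

/-- `x` lies strictly between `a` and `b`. -/
def Bw (a b x : ℕ) : Prop := (a < x ∧ x < b) ∨ (b < x ∧ x < a)

theorem cross_btw {a b c d : ℕ} (h : Cross a c b d) : Bw b d a ↔ ¬Bw b d c := by
  unfold Bw
  rcases h with h | h | h | h | h | h | h | h <;> constructor <;> intro <;> omega

theorem btw_cross {a b c d : ℕ} (h : Bw a b c ↔ ¬Bw a b d) (h1 : a ≠ c) (h2 : a ≠ d)
    (h3 : b ≠ c) (h4 : b ≠ d) : Cross a b c d := by
  have q : ((a < c ∧ c < b) ∨ (b < c ∧ c < a)) ∧ ¬((a < d ∧ d < b) ∨ (b < d ∧ d < a)) ∨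
      ¬((a < c ∧ c < b) ∨ (b < c ∧ c < a)) ∧ ((a < d ∧ d < b) ∨ (b < d ∧ d < a)) := by
    unfold Bw at h
    tauto
  clear h
  rcases lt_or_gt_of_ne h1 with h1 | h1 <;> rcases lt_or_gt_of_ne h2 with h2 | h2 <;>
    rcases lt_or_gt_of_ne h3 with h3 | h3 <;> rcases lt_or_gt_of_ne h4 with h4 | h4 <;>
  first
    | (refine Or.inl ?_; omega)
    | (refine Or.inr (Or.inl ?_); omega)
    | (refine Or.inr (Or.inr (Or.inl ?_)); omega)
    | (refine Or.inr (Or.inr (Or.inr (Or.inl ?_))); omega)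
    | (refine Or.inr (Or.inr (Or.inr (Or.inr (Or.inl ?_)))); omega)
    | (refine Or.inr (Or.inr (Or.inr (Or.inr (Or.inr (Or.inl ?_))))); omega)
    | (refine Or.inr (Or.inr (Or.inr (Or.inr (Or.inr (Or.inr (Or.inl ?_)))))); omega)
    | (refine Or.inr (Or.inr (Or.inr (Or.inr (Or.inr (Or.inr (Or.inr ?_)))))); omega)

theorem cross_symm {a b c d : ℕ} (h : Cross a b c d) : Cross c d a b := by
  unfold Cross at *
  rcases h with h | h | h | h | h | h | h | h <;> simp [h]

theorem cyc_cross {N a b c d a' b' c' d' : ℤ} (h1 : a < b) (h2 : b < c) (h3 : c < d) (h4 : d < a + N)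
  (r1 : b' = b - a + a' ∨ b' = b - a + a' - N) (r2 : c' = c - a + a' ∨ c' = c - a + a' - N)
  (r3 : d' = d - a + a' ∨ d' = d - a + a' - N) (l1 : 0 ≤ a') (l2 : a' < N) (l3 : 0 ≤ b') (l4 : b' < N)
  (l5 : 0 ≤ c') (l6 : c' < N) (l7 : 0 ≤ d') (l8 : d' < N) : Cross a'.toNat c'.toNat b'.toNat d'.toNat := by
  lift a' to ℕ using l1
  lift b' to ℕ using l3
  lift c' to ℕ using l5
  lift d' to ℕ using l7
  simp only [Int.toNat_natCast]
  rcases r1 with r1 | r1 <;> rcases r2 with r2 | r2 <;> rcases r3 with r3 | r3 <;>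
  first
    | (refine Or.inl ?_; omega)
    | (refine Or.inr (Or.inl ?_); omega)
    | (refine Or.inr (Or.inr (Or.inl ?_)); omega)
    | (refine Or.inr (Or.inr (Or.inr (Or.inl ?_))); omega)
    | (refine Or.inr (Or.inr (Or.inr (Or.inr (Or.inl ?_)))); omega)
    | (refine Or.inr (Or.inr (Or.inr (Or.inr (Or.inr (Or.inl ?_))))); omega)
    | (refine Or.inr (Or.inr (Or.inr (Or.inr (Or.inr (Or.inr (Or.inl ?_)))))); omega)

/-- Reversal of the positions `i+1, ..., l`. -/
def rev (i l j : ℕ) : ℕ := if i < j ∧ j ≤ l then i + 1 + l - j else j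

theorem cost_rev {M : Type*} [AddCommMonoid M] (w : ℕ → ℕ → M) (hw : ∀ x y, w x y = w y x)
    (σ : ℕ → ℕ) {n i l : ℕ} (hil : i < l) (hl : l < n) :
    ∑ j ∈ Finset.range n, w (σ (rev i l j)) (σ (rev i l (j + 1)))
      + (w (σ i) (σ (i + 1)) + w (σ l) (σ (l + 1))) =
    ∑ j ∈ Finset.range n, w (σ j) (σ (j + 1)) + (w (σ i) (σ l) + w (σ (i + 1)) (σ (l + 1))) := by
  have split : ∀ g : ℕ → M, ∑ j ∈ Finset.range n, g j =
      ∑ j ∈ Finset.Ico 0 i, g j + g i + ∑ j ∈ Finset.Ico (i + 1) l, g j + g l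
        + ∑ j ∈ Finset.Ico (l + 1) n, g j := by
    intro g
    rw [Finset.range_eq_Ico, ← Finset.sum_Ico_consecutive g (Nat.zero_le (l + 1)) hl,
      Finset.sum_Ico_succ_top (Nat.zero_le l),
      ← Finset.sum_Ico_consecutive g (Nat.zero_le (i + 1)) hil,
      Finset.sum_Ico_succ_top (Nat.zero_le i)]
  rw [split, split]
  have e1 : ∑ j ∈ Finset.Ico 0 i, w (σ (rev i l j)) (σ (rev i l (j + 1))) =
      ∑ j ∈ Finset.Ico 0 i, w (σ j) (σ (j + 1)) := by
    refine Finset.sum_congr rfl fun j hj => ?_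
    have := (Finset.mem_Ico.1 hj).2
    rw [rev, rev, if_neg (by omega), if_neg (by omega)]
  have e2 : ∑ j ∈ Finset.Ico (l + 1) n, w (σ (rev i l j)) (σ (rev i l (j + 1))) =
      ∑ j ∈ Finset.Ico (l + 1) n, w (σ j) (σ (j + 1)) := by
    refine Finset.sum_congr rfl fun j hj => ?_
    have := (Finset.mem_Ico.1 hj).1
    rw [rev, rev, if_neg (by omega), if_neg (by omega)]
  have e3 : ∑ j ∈ Finset.Ico (i + 1) l, w (σ (rev i l j)) (σ (rev i l (j + 1))) =
      ∑ j ∈ Finset.Ico (i + 1) l, w (σ j) (σ (j + 1)) := by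
    refine Finset.sum_nbij' (fun j => i + l - j) (fun j => i + l - j) ?_ ?_ ?_ ?_ ?_
    · intro j hj
      simp only [Finset.mem_Ico] at hj ⊢
      omega
    · intro j hj
      simp only [Finset.mem_Ico] at hj ⊢
      omega
    · intro j hj
      simp only [Finset.mem_Ico] at hj ⊢
      omega
    · intro j hj
      simp only [Finset.mem_Ico] at hj ⊢
      omega
    · intro j hj
      simp only [Finset.mem_Ico] at hj
      rw [rev, rev, if_pos (by omega), if_pos (by omega), hw]
      congr 2 <;> omega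
  have e4 : rev i l i = i := by rw [rev, if_neg (by omega)]
  have e5 : rev i l (i + 1) = l := by rw [rev, if_pos (by omega)]; omega
  have e6 : rev i l l = i + 1 := by rw [rev, if_pos (by omega)]; omega
  have e7 : rev i l (l + 1) = l + 1 := by rw [rev, if_neg (by omega)]
  rw [e1, e2, e3, e4, e5, e6, e7]
  abel

theorem rev_bijOn {N i l : ℕ} (hl : l < N) : Set.BijOn (rev i l) (Set.Iio N) (Set.Iio N) := by
  have m : Set.MapsTo (rev i l) (Set.Iio N) (Set.Iio N) := by
    intro j hj
    simp only [Set.mem_Iio, rev] at hj ⊢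
    split_ifs <;> omega
  have inv : ∀ j, rev i l (rev i l j) = j := by
    intro j
    simp only [rev]
    split_ifs <;> omega
  exact Set.InvOn.bijOn (f' := rev i l) ⟨fun j _ => inv j, fun j _ => inv j⟩ m m

theorem ivt (P : ℕ → Prop) {s t : ℕ} (h : P s ↔ ¬P t) :
    ∃ j, min s t ≤ j ∧ j < max s t ∧ (P j ↔ ¬P (j + 1)) := by
  have key : ∀ s t : ℕ, s ≤ t → (P s ↔ ¬P t) → ∃ j, s ≤ j ∧ j < t ∧ (P j ↔ ¬P (j + 1)) := by
    intro s t hst
    induction t, hst using Nat.le_induction with
    | base => intro h; tauto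
    | succ t ht ih =>
      intro h
      by_cases c : P s ↔ ¬P t
      · obtain ⟨j, h1, h2, h3⟩ := ih c
        exact ⟨j, h1, by omega, h3⟩
      · exact ⟨t, ht, by omega, by tauto⟩
  rcases le_total s t with c | c
  · rw [min_eq_left c, max_eq_right c]; exact key s t c h
  · rw [min_eq_right c, max_eq_left c]; exact key t s c (by tauto)

/-- The potential. -/
def pot (N x y : ℕ) : ℤ := N * |(x : ℤ) - y| - ((x : ℤ) - y) ^ 2

theorem pot_symm (N x y : ℕ) : pot N x y = pot N y x := by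
  unfold pot
  rw [abs_sub_comm]; ring

theorem pot_lt {N x y : ℕ} (h : x < y) : pot N x y = N * ((y : ℤ) - x) - ((y : ℤ) - x) ^ 2 := by
  unfold pot
  rw [abs_of_nonpos (by omega)]; ring

theorem pot_nonneg {N x y : ℕ} (hx : x < N) (hy : y < N) : 0 ≤ pot N x y := by
  have key : ∀ x y : ℕ, x < y → y < N → 0 ≤ pot N x y := by
    intro x y h hy
    rw [pot_lt h]
    have h1 : (0 : ℤ) ≤ (y : ℤ) - x := by omega
    have h2 : (0 : ℤ) ≤ N - ((y : ℤ) - x) := by omega
    nlinarith [mul_nonneg h1 h2]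
  rcases lt_trichotomy x y with h | h | h
  · exact key x y h hy
  · simp [pot, h]
  · rw [pot_symm]; exact key y x h hx

theorem pot_kal {N a b c d : ℕ} (hab : a < b) (hbc : b < c) (hcd : c < d) (hd : d < N) :
    pot N a b + pot N c d < pot N a c + pot N b d ∧
      pot N a d + pot N b c < pot N a c + pot N b d := by
  rw [pot_lt hab, pot_lt hcd, pot_lt (hab.trans hbc), pot_lt (hbc.trans hcd), pot_lt hbc,
    pot_lt ((hab.trans hbc).trans hcd)]
  have h1 : (0 : ℤ) < (b : ℤ) - a := by omega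
  have h2 : (0 : ℤ) < (c : ℤ) - b := by omega
  have h3 : (0 : ℤ) < (d : ℤ) - c := by omega
  have h4 : (0 : ℤ) < N - ((d : ℤ) - a) := by omega
  constructor
  · nlinarith [mul_pos h2 h4]
  · nlinarith [mul_pos h1 h3]

theorem uncross (N : ℕ) (w : ℕ → ℕ → ℝ) (hw : ∀ x y, w x y = w y x)
    (kal : ∀ a b c d, a < b → b < c → c < d → d < N →
      w a b + w c d ≤ w a c + w b d ∧ w a d + w b c ≤ w a c + w b d)
    (σ0 : ℕ → ℕ) (h0 : Set.BijOn σ0 (Set.Iio N) (Set.Iio N)) :
    ∃ σ τ : ℕ → ℕ, (∀ j < N, σ j < N ∧ τ (σ j) = j) ∧ (∀ x < N, τ x < N ∧ σ (τ x) = x) ∧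
      ∑ j ∈ Finset.range (N - 1), w (σ j) (σ (j + 1))
        ≤ ∑ j ∈ Finset.range (N - 1), w (σ0 j) (σ0 (j + 1)) ∧
      ∀ a b c d, a < N → b < N → c < N → d < N → Cross a c b d →
        ¬max (τ a) (τ c) < min (τ b) (τ d) := by
  classical
  let S : (ℕ → ℕ) → Prop := fun σ => Set.BijOn σ (Set.Iio N) (Set.Iio N) ∧
    ∑ j ∈ Finset.range (N - 1), w (σ j) (σ (j + 1))
      ≤ ∑ j ∈ Finset.range (N - 1), w (σ0 j) (σ0 (j + 1))
  obtain ⟨m, ⟨σ, hσ, hm⟩, hmin⟩ := Int.exists_least_of_bdd
    (P := fun z => ∃ σ, S σ ∧ ∑ j ∈ Finset.range (N - 1), pot N (σ j) (σ (j + 1)) = z)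
    ⟨0, by
      rintro z ⟨σ, hσ, rfl⟩
      refine Finset.sum_nonneg fun j hj => ?_
      have := Finset.mem_range.1 hj
      exact pot_nonneg (hσ.1.1 (show j < N by omega)) (hσ.1.1 (show j + 1 < N by omega))⟩
    ⟨_, σ0, ⟨h0, le_rfl⟩, rfl⟩
  have nocross : ∀ i l, i < l → l + 1 < N → ¬Cross (σ i) (σ (i + 1)) (σ l) (σ (l + 1)) := by
    intro i l hil hl hc
    have c1 := cost_rev w hw σ (n := N - 1) hil (by omega)
    have c2 := cost_rev (pot N) (pot_symm N) σ (n := N - 1) hil (by omega)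
    have ha : σ i < N := hσ.1.1 (show i < N by omega)
    have hb : σ (i + 1) < N := hσ.1.1 (show i + 1 < N by omega)
    have hc' : σ l < N := hσ.1.1 (show l < N by omega)
    have hd : σ (l + 1) < N := hσ.1.1 hl
    have k : w (σ i) (σ l) + w (σ (i + 1)) (σ (l + 1)) ≤ w (σ i) (σ (i + 1)) + w (σ l) (σ (l + 1))
        ∧ pot N (σ i) (σ l) + pot N (σ (i + 1)) (σ (l + 1)) <
          pot N (σ i) (σ (i + 1)) + pot N (σ l) (σ (l + 1)) := by
      generalize σ i = a at *
      generalize σ (i + 1) = b at *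
      generalize σ l = c at *
      generalize σ (l + 1) = d at *
      have s1 := hw a b
      have s2 := hw c d
      have s3 := hw a c
      have s4 := hw b d
      have t1 := pot_symm N a b
      have t2 := pot_symm N c d
      have t3 := pot_symm N a c
      have t4 := pot_symm N b d
      rcases hc with h | h | h | h | h | h | h | h <;>
      · obtain ⟨h1, h2, h3⟩ := h
        have k1 := kal _ _ _ _ h1 h2 h3 (by assumption)
        have k2 := pot_kal h1 h2 h3 (by assumption)
        constructor <;> linarith [k1.1, k1.2, k2.1, k2.2]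
    have hS : S (σ ∘ rev i l) := ⟨hσ.1.comp (rev_bijOn (by omega)), by
      have := hσ.2
      simp only [Function.comp]
      linarith [k.1]⟩
    have := hmin _ ⟨_, hS, rfl⟩
    simp only [Function.comp] at this
    linarith [k.2]
  refine ⟨σ, Function.invFunOn σ (Set.Iio N), ?_, ?_, hσ.2, ?_⟩
  · intro j hj
    exact ⟨hσ.1.1 hj, hσ.1.invOn_invFunOn.1 hj⟩
  · intro x hx
    exact ⟨hσ.1.surjOn.mapsTo_invFunOn hx, hσ.1.invOn_invFunOn.2 hx⟩
  · intro a b c d ha hb hc hd hcr hlt
    set τ := Function.invFunOn σ (Set.Iio N)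
    have t1 : ∀ x < N, τ x < N := fun x hx => hσ.1.surjOn.mapsTo_invFunOn hx
    have t2 : ∀ x < N, σ (τ x) = x := fun x hx => hσ.1.invOn_invFunOn.2 hx
    have inj : ∀ i j, i < N → j < N → σ i = σ j → i = j := fun i j hi hj h => hσ.1.injOn hi hj h
    have ta := t1 a ha
    have tb := t1 b hb
    have tc := t1 c hc
    have td := t1 d hd
    obtain ⟨j, j1, j2, j3⟩ := ivt (fun j => Bw b d (σ j)) (s := τ a) (t := τ c) (by
      rw [t2 a ha, t2 c hc]
      exact cross_btw hcr)
    have n1 : σ j ≠ b := fun h => by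
      have := inj j (τ b) (by omega) tb (by rw [h, t2 b hb]); omega
    have n2 : σ j ≠ d := fun h => by
      have := inj j (τ d) (by omega) td (by rw [h, t2 d hd]); omega
    have n3 : σ (j + 1) ≠ b := fun h => by
      have := inj (j + 1) (τ b) (by omega) tb (by rw [h, t2 b hb]); omega
    have n4 : σ (j + 1) ≠ d := fun h => by
      have := inj (j + 1) (τ d) (by omega) td (by rw [h, t2 d hd]); omega
    obtain ⟨l, l1, l2, l3⟩ := ivt (fun l => Bw (σ j) (σ (j + 1)) (σ l)) (s := τ b) (t := τ d) (by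
      rw [t2 b hb, t2 d hd]
      exact cross_btw (btw_cross j3 n1.symm n3.symm n2.symm n4.symm))
    have m1 : σ j ≠ σ l := fun h => by have := inj j l (by omega) (by omega) h; omega
    have m2 : σ j ≠ σ (l + 1) := fun h => by have := inj j (l + 1) (by omega) (by omega) h; omega
    have m3 : σ (j + 1) ≠ σ l := fun h => by have := inj (j + 1) l (by omega) (by omega) h; omega
    have m4 : σ (j + 1) ≠ σ (l + 1) := fun h => by
      have := inj (j + 1) (l + 1) (by omega) (by omega) h; omega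
    exact nocross j l (by omega) (by omega) (btw_cross l3 m1 m2 m3 m4)

/-- Cyclic form of the conclusion, and the choice of the frame. -/
theorem frame (M : ℕ) (hM : 2 ≤ M) (τ : ℕ → ℕ)
    (hinj : ∀ x y, x < 2 * M → y < 2 * M → τ x = τ y → x = y)
    (hnc : ∀ a b c d, a < 2 * M → b < 2 * M → c < 2 * M → d < 2 * M → Cross a c b d →
      ¬max (τ a) (τ c) < min (τ b) (τ d)) :
    ∃ (z ε : ℤ), (ε = 1 ∨ ε = -1) ∧ let T : ℤ → ℕ := fun x => τ (x % (2 * M : ℕ)).toNat
      (∀ i : ℕ, i < M → T (z + ε * i) ≤ T z ∧ T z ≤ T (z - ε * i)) ∧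
      (∀ i j k : ℕ, i ≤ j → j ≤ k → k < M →
        T (z + ε * j) ≤ max (T (z + ε * i)) (T (z + ε * k)) ∧
        min (T (z - ε * i)) (T (z - ε * k)) ≤ T (z - ε * j)) := by
  classical
  set N := 2 * M with hN
  let T : ℤ → ℕ := fun x => τ (x % (N : ℕ)).toNat
  have hNpos : (0 : ℤ) < N := by omega
  have per : ∀ x, T (x + N) = T x := fun x => by simp [T]
  have res : ∀ x c : ℤ, c * N ≤ x → x < c * N + N → x % (N : ℤ) = x - c * N := by
    intro x c h1 h2
    have : x = (x - c * N) + c * N := by ring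
    rw [this, Int.add_mul_emod_self_right, Int.emod_eq_of_lt (by omega) (by omega)]
    ring
  have res2 : ∀ x y : ℤ, x ≤ y → y < x + N → y % (N : ℤ) = y - x + x % N ∨
      y % (N : ℤ) = y - x + x % N - N := by
    intro x y h1 h2
    have e := Int.emod_add_mul_ediv x N
    have l1 := Int.emod_nonneg x hNpos.ne'
    have l2 := Int.emod_lt_of_pos x hNpos
    rcases lt_or_ge y ((x / N) * N + N) with h | h
    · left
      rw [res y (x / N) (by linarith) h]; linarith
    · right
      rw [res y (x / N + 1) (by linarith) (by linarith)]; linarith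
  have cyc : ∀ a b c d : ℤ, a < b → b < c → c < d → d < a + N →
      ¬max (T a) (T c) < min (T b) (T d) ∧ ¬max (T b) (T d) < min (T a) (T c) := by
    intro a b c d h1 h2 h3 h4
    have r1 := res2 a b (by omega) (by omega)
    have r2 := res2 a c (by omega) (by omega)
    have r3 := res2 a d (by omega) (by omega)
    have l1 := Int.emod_nonneg a hNpos.ne'
    have l2 := Int.emod_lt_of_pos a hNpos
    have l3 := Int.emod_nonneg b hNpos.ne'
    have l4 := Int.emod_lt_of_pos b hNpos
    have l5 := Int.emod_nonneg c hNpos.ne'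
    have l6 := Int.emod_lt_of_pos c hNpos
    have l7 := Int.emod_nonneg d hNpos.ne'
    have l8 := Int.emod_lt_of_pos d hNpos
    have cr := cyc_cross h1 h2 h3 h4 r1 r2 r3 l1 l2 l3 l4 l5 l6 l7 l8
    have q : ∀ x : ℤ, 0 ≤ x → x < N → x.toNat < N := fun x h1 h2 => by omega
    exact ⟨hnc _ _ _ _ (q _ l1 l2) (q _ l3 l4) (q _ l5 l6) (q _ l7 l8) cr,
      hnc _ _ _ _ (q _ l3 l4) (q _ l1 l2) (q _ l7 l8) (q _ l5 l6) (cross_symm cr)⟩
  have inj : ∀ x y : ℤ, x < y → y < x + N → T x ≠ T y := by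
    intro x y h1 h2 h
    have r1 := res2 x y h1.le h2
    have l1 := Int.emod_nonneg x hNpos.ne'
    have l2 := Int.emod_lt_of_pos x hNpos
    have l3 := Int.emod_nonneg y hNpos.ne'
    have l4 := Int.emod_lt_of_pos y hNpos
    have := hinj _ _ (by omega) (by omega) h
    omega
  have ex : ∃ k, ∃ α : ℤ, ∀ x, α ≤ x → x ≤ α + M → T x < k := by
    refine ⟨(Finset.Icc (0 : ℤ) M).sup T + 1, 0, fun x h1 h2 => ?_⟩
    have : T x ≤ (Finset.Icc (0 : ℤ) M).sup T :=
      Finset.le_sup (Finset.mem_Icc.2 ⟨h1, by omega⟩)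
    omega
  obtain ⟨α, hα⟩ := Nat.find_spec ex
  have hmin : ∀ k, k < Nat.find ex → ∀ β : ℤ, ∃ x, β ≤ x ∧ x ≤ β + M ∧ k ≤ T x := by
    intro k hk β
    have := Nat.find_min ex hk
    push Not at this
    exact this β
  have kpos : 0 < Nat.find ex := by have := hα α le_rfl (by omega); omega
  obtain ⟨z, z1, z2, z3⟩ := hmin (Nat.find ex - 1) (by omega) α
  have z4 : T z = Nat.find ex - 1 := by have := hα z z1 z2; omega
  have low : ∀ x, α ≤ x → x ≤ α + M → T x ≤ T z := fun x h1 h2 => by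
    have := hα x h1 h2; omega
  have high : ∀ β : ℤ, ∃ x, β ≤ x ∧ x ≤ β + M ∧ T z ≤ T x := fun β => by
    obtain ⟨x, h1, h2, h3⟩ := hmin (Nat.find ex - 1) (by omega) β
    exact ⟨x, h1, h2, by omega⟩
  have conn : ∀ a b c : ℤ, z < a → a ≤ b → b ≤ c → c < z + N → T a < T z → T c < T z →
      T b < T z := by
    intro a b c h1 h2 h3 h4 h5 h6
    by_contra h7
    rcases eq_or_lt_of_le h2 with rfl | h2
    · exact h7 h5
    rcases eq_or_lt_of_le h3 with rfl | h3
    · exact h7 h6
    have := (cyc z a b c h1 h2 h3 h4).2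
    omega
  have ends : z = α ∨ z = α + M := by
    by_contra hne
    have a1 : T (z + 1) < T z := lt_of_le_of_ne (low _ (by omega) (by omega))
      (inj z (z + 1) (by omega) (by omega)).symm
    have a2 : T (z - 1 + N) < T z := by
      rw [per]
      exact lt_of_le_of_ne (low _ (by omega) (by omega)) (inj (z - 1) z (by omega) (by omega))
    obtain ⟨x, x1, x2, x3⟩ := high (z + 1)
    have := conn (z + 1) x (z - 1 + N) (by omega) x1 (by omega) (by omega) a1 a2
    omega
  rcases ends with hz | hz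
  · have lo : ∀ i : ℕ, i ≤ M → T (z + 1 * i) ≤ T z := fun i hi => low _ (by omega) (by omega)
    have hi : ∀ i : ℕ, i < M → T z ≤ T (z - 1 * i) := by
      intro i hi
      rcases Nat.eq_zero_or_pos i with rfl | ipos
      · simp
      by_contra hc
      have a1 : T (z + 1) < T z := lt_of_le_of_ne (low _ (by omega) (by omega))
        (inj z (z + 1) (by omega) (by omega)).symm
      obtain ⟨x, x1, x2, x3⟩ := high (z + 1)
      have := conn (z + 1) x (z - 1 * i + N) (by omega) x1 (by omega) (by omega) a1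
        (by rw [per]; omega)
      omega
    refine ⟨z, 1, Or.inl rfl, fun i h => ⟨lo i h.le, hi i h⟩, fun i j k h1 h2 h3 => ⟨?_, ?_⟩⟩
    · by_contra hc
      rcases eq_or_lt_of_le h1 with rfl | h1
      · exact hc (le_max_left _ _)
      rcases eq_or_lt_of_le h2 with rfl | h2
      · exact hc (le_max_right _ _)
      have c := (cyc (z - 1) (z + 1 * i) (z + 1 * j) (z + 1 * k) (by omega) (by omega) (by omega)
        (by omega)).2
      have a1 := hi 1 (by omega)
      have a2 := lo j (by omega)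
      simp only [Nat.cast_one, mul_one] at a1
      change ¬T (z + 1 * j) ≤ max (T (z + 1 * i)) (T (z + 1 * k)) at hc
      omega
    · by_contra hc
      rcases eq_or_lt_of_le h1 with rfl | h1
      · exact hc (min_le_left _ _)
      rcases eq_or_lt_of_le h2 with rfl | h2
      · exact hc (min_le_right _ _)
      have c := (cyc (z - 1 * k) (z - 1 * j) (z - 1 * i) (z + 1) (by omega) (by omega) (by omega)
        (by omega)).2
      have a1 := lo 1 (by omega)
      have a2 := hi j (by omega)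
      simp only [Nat.cast_one, mul_one] at a1
      change ¬min (T (z - 1 * i)) (T (z - 1 * k)) ≤ T (z - 1 * j) at hc
      omega
  · have lo : ∀ i : ℕ, i ≤ M → T (z + -1 * i) ≤ T z := fun i hi => low _ (by omega) (by omega)
    have hi : ∀ i : ℕ, i < M → T z ≤ T (z - -1 * i) := by
      intro i hi
      rcases Nat.eq_zero_or_pos i with rfl | ipos
      · simp
      by_contra hc
      have a2 : T (z - 1 + N) < T z := by
        rw [per]
        exact lt_of_le_of_ne (low _ (by omega) (by omega)) (inj (z - 1) z (by omega) (by omega))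
      obtain ⟨x, x1, x2, x3⟩ := high (z - 1 + N - M)
      have := conn (z - -1 * i) x (z - 1 + N) (by omega) (by omega) (by omega) (by omega)
        (by omega) a2
      omega
    refine ⟨z, -1, Or.inr rfl, fun i h => ⟨lo i h.le, hi i h⟩, fun i j k h1 h2 h3 => ⟨?_, ?_⟩⟩
    · by_contra hc
      rcases eq_or_lt_of_le h1 with rfl | h1
      · exact hc (le_max_left _ _)
      rcases eq_or_lt_of_le h2 with rfl | h2
      · exact hc (le_max_right _ _)
      have c := (cyc (z + -1 * k) (z + -1 * j) (z + -1 * i) (z + 1) (by omega) (by omega)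
        (by omega) (by omega)).1
      have a1 := hi 1 (by omega)
      have a2 := lo j (by omega)
      simp only [Nat.cast_one, mul_one, sub_neg_eq_add] at a1
      change ¬T (z + -1 * j) ≤ max (T (z + -1 * i)) (T (z + -1 * k)) at hc
      omega
    · by_contra hc
      rcases eq_or_lt_of_le h1 with rfl | h1
      · exact hc (min_le_left _ _)
      rcases eq_or_lt_of_le h2 with rfl | h2
      · exact hc (min_le_right _ _)
      have c := (cyc (z - 1) (z - -1 * i) (z - -1 * j) (z - -1 * k) (by omega) (by omega)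
        (by omega) (by omega)).1
      have a1 := lo 1 (by omega)
      have a2 := hi j (by omega)
      simp only [Nat.cast_one, mul_one, ← sub_eq_add_neg] at a1
      change ¬min (T (z - -1 * i)) (T (z - -1 * k)) ≤ T (z - -1 * j) at hc
      omega

end Pool.Agent.P.MP_d76e6a_co
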