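import Pool.Agent.P.MP_d76e6a_co.Half
import Pool.Agent.P.MP_d76e6a_co.Order
import Pool.Agent.P.MP_d76e6a_co.Geom

/-!
Every rectifiable curve is dominated, up to a small error, by a pair of half structures.
-/

namespace Pool.Agent.P.MP_d76e6a_co

open Real

/-- The half structure of a sequence of points in the frame with top direction `ω`. -/
noncomputable def mkHalf (p : ℕ → ℂ) (s ω : ℝ) (hs : s ^ 2 = 1) (d : ℝ → ℕ) (r : ℕ)
    (hd : ∀ η, d η ≤ r) (d0 : d 0 = 0)
    (qc : ∀ x y z, 0 ≤ x → x ≤ y → y ≤ z → z ≤ π → min (d x) (d z) ≤ d y) : Half where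
  X j := s * (-(p j - p 0).re * sin ω + (p j - p 0).im * cos ω)
  Y j := ip (p j - p 0) ω
  l j := ∑ i ∈ Finset.range j, dist (p i) (p (i + 1))
  d := d
  r := r
  X0 := by simp
  Y0 := by simp [ip]
  l0 := by simp
  step j := by
    rw [Finset.sum_range_succ, add_sub_cancel_left, dist_comm, Complex.dist_eq_re_im]
    apply le_of_eq
    congr 1
    simp only [ip, Complex.sub_re, Complex.sub_im]
    linear_combination (((p (j + 1)).re - (p j).re) ^ 2 + ((p (j + 1)).im - (p j).im) ^ 2)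
      * sin_sq_add_cos_sq ω + (-((p (j + 1)).re - (p j).re) * sin ω
        + ((p (j + 1)).im - (p j).im) * cos ω) ^ 2 * hs
  hd := hd
  d0 := d0
  qc := qc

theorem mkHalf_h (p : ℕ → ℂ) (s ω : ℝ) (hs : s ^ 2 = 1) (hs' : s = 1 ∨ s = -1) (d : ℝ → ℕ) (r : ℕ)
    (hd) (d0) (qc) (η : ℝ) :
    (mkHalf p s ω hs d r hd d0 qc).h η = ip (p (d η) - p 0) (ω + s * η) := by
  simp only [Half.h, mkHalf, ip]
  rcases hs' with rfl | rfl
  · rw [one_mul η, cos_add, sin_add]; ring
  · rw [neg_one_mul η, cos_add, sin_add, cos_neg, sin_neg]; ring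

theorem exists_halves (C : ℝ → ℂ) (hC : ContinuousOn C (Set.Icc 0 1)) (L : ℝ) (hL0 : 0 ≤ L)
    (hL : eVariationOn C (Set.Icc 0 1) ≤ ENNReal.ofReal L) (M : ℕ) (hM : 2 ≤ M) :
    ∃ (ω : ℝ) (V : ℂ) (H1 H2 : Half), H1.len + H2.len ≤ L ∧ ∀ η ∈ Set.Icc 0 π,
      ∀ t ∈ Set.Icc (0 : ℝ) 1, ip (C t - V) (ω + η) ≤ H1.h η + L * (π / M) ∧
        ip (C t - V) (ω - η) ≤ H2.h η + L * (π / M) := by
  classical
  have hpi := pi_pos
  have hMp : (0 : ℝ) < M := by exact_mod_cast (by omega : 0 < M)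
  have hδ : 0 < π / M := div_pos hpi hMp
  have ex : ∀ θ : ℝ, ∃ t ∈ Set.Icc (0 : ℝ) 1, ∀ s ∈ Set.Icc (0 : ℝ) 1, ip (C s) θ ≤ ip (C t) θ := by
    intro θ
    have hc : ContinuousOn (fun t => ip (C t) θ) (Set.Icc 0 1) :=
      (by unfold ip; fun_prop : Continuous fun z => ip z θ).comp_continuousOn hC
    obtain ⟨t, ht, hmax⟩ := isCompact_Icc.exists_isMaxOn ⟨0, by simp⟩ hc
    exact ⟨t, ht, fun s hs => hmax hs⟩
  choose tt tmem tmax using ex
  set N := 2 * M with hN
  let t : ℕ → ℝ := fun i => tt (i * (π / M))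
  let q : ℕ → ℂ := fun i => C (t i)
  have qmax : ∀ i j : ℕ, ip (q j) (i * (π / M)) ≤ ip (q i) (i * (π / M)) :=
    fun i j => tmax _ _ (tmem _)
  let srt := Tuple.sort (fun i : Fin N => t i)
  let σ0 : ℕ → ℕ := fun j => if h : j < N then srt ⟨j, h⟩ else 0
  have hσ0 : Set.BijOn σ0 (Set.Iio N) (Set.Iio N) := by
    refine ⟨fun j hj => ?_, fun i hi j hj h => ?_, fun x hx => ?_⟩
    · have hj' : j < N := hj
      simp only [σ0, dif_pos hj', Set.mem_Iio]
      exact (srt ⟨j, hj'⟩).2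
    · have hi' : i < N := hi
      have hj' : j < N := hj
      simp only [σ0, dif_pos hi', dif_pos hj'] at h
      have := srt.injective (Fin.ext h)
      exact congrArg Fin.val this
    · have hx' : x < N := hx
      refine ⟨srt.symm ⟨x, hx'⟩, (srt.symm ⟨x, hx'⟩).2, ?_⟩
      simp only [σ0, dif_pos (srt.symm ⟨x, hx'⟩).2, Fin.eta, Equiv.apply_symm_apply]
  have hsum : ∑ j ∈ Finset.range (N - 1), dist (q (σ0 j)) (q (σ0 (j + 1))) ≤ L := by
    have m : MonotoneOn (fun j => t (σ0 j)) (Set.Iic (N - 1)) := by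
      intro i hi j hj hij
      have hi' : i < N := by have : i ≤ N - 1 := hi; omega
      have hj' : j < N := by have : j ≤ N - 1 := hj; omega
      simp only [σ0, dif_pos hi', dif_pos hj']
      exact Tuple.monotone_sort (fun i : Fin N => t i) (show (⟨i, hi'⟩ : Fin N) ≤ ⟨j, hj'⟩ from hij)
    have := (eVariationOn.sum_le_of_monotoneOn_Iic (f := C) m (fun i _ => tmem _)).trans hL
    simp only [edist_dist] at this
    rw [← ENNReal.ofReal_sum_of_nonneg (fun _ _ => dist_nonneg),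
      ENNReal.ofReal_le_ofReal_iff hL0] at this
    simpa only [dist_comm] using this
  obtain ⟨σ, τ, h1, h2, h3, h4⟩ := uncross N (fun x y => dist (q x) (q y))
    (fun x y => dist_comm _ _) (by
      intro a b c d hab hbc hcd hd
      have lt : ∀ x y : ℕ, x < y → (x : ℝ) * (π / M) < y * (π / M) := fun x y h =>
        mul_lt_mul_of_pos_right (by exact_mod_cast h) hδ
      refine quad (lt a b hab) (lt b c hbc) (lt c d hcd) ?_ (qmax _ _) (qmax _ _) (qmax _ _)
        (qmax _ _) (qmax _ _) (qmax _ _) (qmax _ _) (qmax _ _)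
      have e1 := lt d N hd
      have e2 : ((N : ℕ) : ℝ) * (π / M) = 2 * π := by
        rw [hN]; push_cast; field_simp
      have e3 : 0 ≤ (a : ℝ) * (π / M) := by positivity
      linarith) σ0 hσ0
  obtain ⟨z, ε, hε, f1, f2⟩ := frame M hM τ (fun x y hx hy h => by
    rw [← (h2 x hx).2, ← (h2 y hy).2, h]) h4
  set T : ℤ → ℕ := fun x => τ (x % (2 * M : ℕ)).toNat with hT
  have hNpos : (0 : ℤ) < (2 * M : ℕ) := by omega
  have hres : ∀ x : ℤ, (x % (2 * M : ℕ)).toNat < N := fun x => by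
    have l1 := Int.emod_nonneg x hNpos.ne'
    have l2 := Int.emod_lt_of_pos x hNpos
    omega
  have TN : ∀ x, T x < N := fun x => (h2 _ (hres x)).1
  let P : ℕ → ℂ := fun j => q (σ j)
  have Pmem : ∀ j, ∃ s ∈ Set.Icc (0 : ℝ) 1, P j = C s := fun j => ⟨_, tmem _, rfl⟩
  have Pmax : ∀ x : ℤ, ∀ s ∈ Set.Icc (0 : ℝ) 1,
      ip (C s) (x * (π / M)) ≤ ip (P (T x)) (x * (π / M)) := by
    intro x s hs
    have e : P (T x) = q (x % (2 * M : ℕ)).toNat := by
      simp only [P, T]; rw [(h2 _ (hres x)).2]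
    have e2 : (x : ℝ) * (π / M) = ((x % (2 * M : ℕ)).toNat : ℕ) * (π / M)
        + (x / (2 * M : ℕ) : ℤ) * (2 * π) := by
      have l1 := Int.emod_nonneg x hNpos.ne'
      have a1 : (((x % (2 * M : ℕ)).toNat : ℕ) : ℝ) = ((x % (2 * M : ℕ) : ℤ) : ℝ) := by
        rw [← Int.cast_natCast, Int.toNat_of_nonneg l1]
      have a2 : (x : ℝ) = ((x % (2 * M : ℕ) : ℤ) : ℝ) + (2 * M) * ((x / (2 * M : ℕ) : ℤ) : ℝ) := by
        exact_mod_cast (Int.emod_add_mul_ediv x (2 * M : ℕ)).symm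
      rw [a1]
      generalize ((x % (2 * M : ℕ) : ℤ) : ℝ) = u at *
      generalize ((x / (2 * M : ℕ) : ℤ) : ℝ) = v at *
      rw [a2]; field_simp
    rw [e, e2, ip_add_int, ip_add_int]
    exact tmax _ _ hs
  let idx : ℝ → ℕ := fun η => min ⌊η / (π / M)⌋₊ (M - 1)
  have idx0 : idx 0 = 0 := by simp [idx]
  have idxM : ∀ η, idx η < M := fun η => by simp only [idx]; omega
  have idxm : ∀ x y, x ≤ y → idx x ≤ idx y := fun x y h =>
    min_le_min_right _ (Nat.floor_mono (div_le_div_of_nonneg_right h hδ.le))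
  have idxe : ∀ η ∈ Set.Icc 0 π, |η - idx η * (π / M)| ≤ π / M := by
    intro η hη
    have a1 : (⌊η / (π / M)⌋₊ : ℝ) ≤ η / (π / M) := Nat.floor_le (div_nonneg hη.1 hδ.le)
    have a2 : η / (π / M) < ⌊η / (π / M)⌋₊ + 1 := Nat.lt_floor_add_one _
    rw [le_div_iff₀ hδ] at a1
    rw [div_lt_iff₀ hδ] at a2
    have a3 : (M : ℝ) * (π / M) = π := by field_simp
    rw [abs_le]
    rcases le_total ⌊η / (π / M)⌋₊ (M - 1) with c | c
    · simp only [idx, min_eq_left c]
      constructor <;> linarith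
    · simp only [idx, min_eq_right c]
      have a4 : ((M - 1 : ℕ) : ℝ) = M - 1 := by rw [Nat.cast_sub (by omega)]; simp
      have a5 : ((M - 1 : ℕ) : ℝ) ≤ ⌊η / (π / M)⌋₊ := by exact_mod_cast c
      have a6 := mul_le_mul_of_nonneg_right a5 hδ.le
      rw [a4] at a6 ⊢
      constructor <;> linarith [hη.2]
  have key : ∀ (x : ℤ) (θ : ℝ) (V : ℂ), |θ - x * (π / M)| ≤ π / M → ∀ s ∈ Set.Icc (0 : ℝ) 1,
      ip (C s - V) θ ≤ ip (P (T x) - V) θ + L * (π / M) := by
    intro x θ V hθ s hs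
    have a1 := ip_lip (C s - P (T x)) θ (x * (π / M))
    have a2 := Pmax x s hs
    obtain ⟨s', hs', e⟩ := Pmem (T x)
    have a3 : ‖C s - P (T x)‖ ≤ L := by
      have := (eVariationOn.edist_le C hs hs').trans hL
      rw [edist_dist, ENNReal.ofReal_le_ofReal_iff hL0, dist_eq_norm] at this
      rwa [e]
    have a4 : ‖C s - P (T x)‖ * |θ - x * (π / M)| ≤ L * (π / M) :=
      mul_le_mul a3 hθ (abs_nonneg _) hL0
    simp only [ip_sub] at a1 ⊢
    linarith
  set k := T z with hk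
  have hε1 : (ε : ℝ) = 1 ∨ (ε : ℝ) = -1 := by
    rcases hε with rfl | rfl <;> simp
  have hε2 : -(ε : ℝ) = 1 ∨ -(ε : ℝ) = -1 := by
    rcases hε with rfl | rfl <;> simp
  have hs1 : (ε : ℝ) ^ 2 = 1 := by rcases hε with rfl | rfl <;> simp
  have hs2 : (-(ε : ℝ)) ^ 2 = 1 := by rcases hε with rfl | rfl <;> simp
  have habs : |(ε : ℝ)| = 1 := by rcases hε with rfl | rfl <;> simp
  let A := mkHalf (fun j => P (k - j)) ε (z * (π / M)) hs1 (fun η => k - T (z + ε * idx η)) k
    (fun η => Nat.sub_le _ _) (by simp [idx0, hk]) (fun a b c _ hab hbc _ => by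
      have := (f2 _ _ _ (idxm a b hab) (idxm b c hbc) (idxM c)).1
      simp only [hT] at this ⊢
      omega)
  let B := mkHalf (fun j => P (k + j)) (-ε) (z * (π / M)) hs2 (fun η => T (z - ε * idx η) - k)
    (N - 1 - k) (fun η => by have := TN (z - ε * idx η); omega) (by simp [idx0, hk])
    (fun a b c _ hab hbc _ => by
      have := (f2 _ _ _ (idxm a b hab) (idxm b c hbc) (idxM c)).2
      simp only [hT] at this ⊢
      omega)
  have hlen : A.len + B.len ≤ L := by
    have kN := TN z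
    have e1 : A.len = ∑ j ∈ Finset.range k, dist (P j) (P (j + 1)) := by
      simp only [A, Half.len, mkHalf]
      rw [← Finset.sum_range_reflect]
      refine Finset.sum_congr rfl fun j hj => ?_
      have := Finset.mem_range.1 hj
      rw [dist_comm]
      congr 2 <;> omega
    have e2 : B.len = ∑ j ∈ Finset.range (N - 1 - k), dist (P (k + j)) (P (k + j + 1)) := rfl
    have e3 := Finset.sum_range_add (fun j => dist (P j) (P (j + 1))) k (N - 1 - k)
    rw [show k + (N - 1 - k) = N - 1 by omega] at e3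
    rw [e1, e2, ← e3]
    exact h3.trans hsum
  have hA : ∀ η ∈ Set.Icc 0 π, ∀ s ∈ Set.Icc (0 : ℝ) 1,
      ip (C s - P k) (z * (π / M) + ε * η) ≤ A.h η + L * (π / M) := by
    intro η hη s hs
    rw [mkHalf_h _ _ _ _ hε1]
    have a := (f1 _ (idxM η)).1
    have : k - (k - T (z + ε * idx η)) = T (z + ε * idx η) := by
      simp only [hT] at a ⊢
      omega
    simp only [this, Nat.sub_zero]
    refine key _ _ _ ?_ s hs
    have : (z : ℝ) * (π / M) + ε * η - ((z + ε * idx η : ℤ) : ℝ) * (π / M)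
        = ε * (η - idx η * (π / M)) := by push_cast; ring
    rw [this, abs_mul, habs, one_mul]
    exact idxe η hη
  have hB : ∀ η ∈ Set.Icc 0 π, ∀ s ∈ Set.Icc (0 : ℝ) 1,
      ip (C s - P k) (z * (π / M) + -ε * η) ≤ B.h η + L * (π / M) := by
    intro η hη s hs
    rw [mkHalf_h _ _ _ _ hε2]
    have a := (f1 _ (idxM η)).2
    have : k + (T (z - ε * idx η) - k) = T (z - ε * idx η) := by
      simp only [hT] at a ⊢
      omega
    simp only [this, Nat.add_zero]
    refine key _ _ _ ?_ s hs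
    have : (z : ℝ) * (π / M) + -ε * η - ((z - ε * idx η : ℤ) : ℝ) * (π / M)
        = -ε * (η - idx η * (π / M)) := by push_cast; ring
    rw [this, abs_mul, abs_neg, habs, one_mul]
    exact idxe η hη
  rcases hε with rfl | rfl
  · refine ⟨z * (π / M), P k, A, B, hlen, fun η hη s hs => ⟨?_, ?_⟩⟩
    · simpa using hA η hη s hs
    · simpa [sub_eq_add_neg] using hB η hη s hs
  · refine ⟨z * (π / M), P k, B, A, by linarith, fun η hη s hs => ⟨?_, ?_⟩⟩
    · simpa using hB η hη s hs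
    · simpa [sub_eq_add_neg] using hA η hη s hs

end Pool.Agent.P.MP_d76e6a_co
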