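import Pool.Agent.P.MP_d76e6a_co.Fit
import Pool.Agent.P.MP_d76e6a_co.Structure

/-!
All escape inequalities for a pair of half structures, and the reduction of the lower bound
to a statement about half structures.
-/

namespace Pool.Agent.P.MP_d76e6a_co

open Real Filter Topology

/-- `c` is the value of `f` (directions `η`) or of `g` (directions `-η`) in direction `ψ`. -/
def Sup (f g : ℝ → ℝ) (ψ c : ℝ) : Prop :=
  ∃ (η : ℝ) (k : ℤ), 0 ≤ η ∧ η ≤ π ∧
    ((ψ = η + k * (2 * π) ∧ c = f η) ∨ (ψ = -η + k * (2 * π) ∧ c = g η))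

/-- The escape inequalities of all placements with one orientation. -/
def Rows (ρ : ℝ) (f g : ℝ → ℝ) (A B : ℝ) : Prop := Esc (Sup f g) ρ A B

theorem Sup.left (f g : ℝ → ℝ) {ψ η : ℝ} (k : ℤ) (h0 : 0 ≤ η) (h1 : η ≤ π)
    (e : ψ = η + k * (2 * π)) : Sup f g ψ (f η) := ⟨η, k, h0, h1, Or.inl ⟨e, rfl⟩⟩

theorem Sup.right (f g : ℝ → ℝ) {ψ η : ℝ} (k : ℤ) (h0 : 0 ≤ η) (h1 : η ≤ π)
    (e : ψ = -η + k * (2 * π)) : Sup f g ψ (g η) := ⟨η, k, h0, h1, Or.inr ⟨e, rfl⟩⟩

section
variable {ρ A B x : ℝ} {f g : ℝ → ℝ}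

/-- Side `c` in direction `x ≤ B` on the left. -/
theorem Rows.l1 (r : Rows ρ f g A B) (hA : 0 ≤ A) (hAB : A + B ≤ π) (h0 : 0 ≤ x) (h1 : x ≤ B) :
    ρ * sin (A + B) ≤ sin B * g (π - A - x) + sin A * f (π - B + x) + sin (A + B) * f x :=
  r x _ _ _ (Sup.right f g 1 (by linarith) (by linarith) (by push_cast; ring))
    (Sup.left f g 0 (by linarith) (by linarith) (by push_cast; ring))
    (Sup.left f g 0 h0 (by linarith) (by push_cast; ring))

/-- Side `c` in direction `x`, `B ≤ x ≤ π - A`, on the left. -/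
theorem Rows.l2 (r : Rows ρ f g A B) (hA : 0 ≤ A) (hB : 0 ≤ B) (h0 : B ≤ x) (h1 : x ≤ π - A) :
    ρ * sin (A + B) ≤ sin B * g (π - A - x) + sin A * g (π + B - x) + sin (A + B) * f x :=
  r x _ _ _ (Sup.right f g 1 (by linarith) (by linarith) (by push_cast; ring))
    (Sup.right f g 1 (by linarith) (by linarith) (by push_cast; ring))
    (Sup.left f g 0 (by linarith) (by linarith) (by push_cast; ring))

/-- Side `c` in direction `x ≥ π - A` on the left. -/
theorem Rows.l3 (r : Rows ρ f g A B) (hB : 0 ≤ B) (hAB : A + B ≤ π) (h0 : π - A ≤ x)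
    (h1 : x ≤ π) :
    ρ * sin (A + B) ≤ sin B * f (x + A - π) + sin A * g (π + B - x) + sin (A + B) * f x :=
  r x _ _ _ (Sup.left f g 1 (by linarith) (by linarith) (by push_cast; ring))
    (Sup.right f g 1 (by linarith) (by linarith) (by push_cast; ring))
    (Sup.left f g 0 (by linarith) (by linarith) (by push_cast; ring))

/-- Side `c` in direction `x ≤ A` on the right. -/
theorem Rows.r1 (r : Rows ρ f g A B) (hB : 0 ≤ B) (hAB : A + B ≤ π) (h0 : 0 ≤ x) (h1 : x ≤ A) :
    ρ * sin (A + B) ≤ sin B * g (π - A + x) + sin A * f (π - B - x) + sin (A + B) * g x :=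
  r (-x) _ _ _ (Sup.right f g 1 (by linarith) (by linarith) (by push_cast; ring))
    (Sup.left f g 0 (by linarith) (by linarith) (by push_cast; ring))
    (Sup.right f g 0 h0 (by linarith) (by push_cast; ring))

/-- Side `c` in direction `x`, `A ≤ x ≤ π - B`, on the right. -/
theorem Rows.r2 (r : Rows ρ f g A B) (hA : 0 ≤ A) (hB : 0 ≤ B) (h0 : A ≤ x) (h1 : x ≤ π - B) :
    ρ * sin (A + B) ≤ sin B * f (π + A - x) + sin A * f (π - B - x) + sin (A + B) * g x :=
  r (-x) _ _ _ (Sup.left f g 0 (by linarith) (by linarith) (by push_cast; ring))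
    (Sup.left f g 0 (by linarith) (by linarith) (by push_cast; ring))
    (Sup.right f g 0 (by linarith) (by linarith) (by push_cast; ring))

/-- Side `c` in direction `x ≥ π - B` on the right. -/
theorem Rows.r3 (r : Rows ρ f g A B) (hA : 0 ≤ A) (hAB : A + B ≤ π) (h0 : π - B ≤ x)
    (h1 : x ≤ π) :
    ρ * sin (A + B) ≤ sin B * f (π + A - x) + sin A * g (x + B - π) + sin (A + B) * g x :=
  r (-x) _ _ _ (Sup.left f g 0 (by linarith) (by linarith) (by push_cast; ring))
    (Sup.right f g 0 (by linarith) (by linarith) (by push_cast; ring))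
    (Sup.right f g 0 (by linarith) h1 (by push_cast; ring))

end

theorem Esc.rows {U : ℝ → ℝ → Prop} {h A B ε ω : ℝ} {f g : ℝ → ℝ} (e : Esc U h A B)
    (per : ∀ θ c (k : ℤ), U θ c → U (θ + k * (2 * π)) c) (hA : 0 < A) (hB : 0 < B)
    (hAB : A + B ≤ 5 * π / 6) (hε : 0 ≤ ε) (hf : ∀ η ∈ Set.Icc 0 π, U (ω + η) (f η + ε))
    (hg : ∀ η ∈ Set.Icc 0 π, U (ω - η) (g η + ε)) : Rows (h - 5 * ε) f g A B := by
  have hpi := pi_pos
  have key : ∀ ψ c, Sup f g ψ c → U (ω + ψ) (c + ε) := by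
    rintro ψ c ⟨η, k, h0, h1, ⟨rfl, rfl⟩ | ⟨rfl, rfl⟩⟩
    · rw [← add_assoc]; exact per _ _ k (hf η ⟨h0, h1⟩)
    · rw [← add_assoc]; exact per _ _ k (hg η ⟨h0, h1⟩)
  intro θ c1 c2 c3 b1 b2 b3
  have := e (ω + θ) _ _ _ (by simpa only [add_assoc] using key _ _ b1)
    (by simpa only [add_assoc, add_sub_assoc] using key _ _ b2) (key _ _ b3)
  have s : sin A + sin B ≤ 4 * sin (A + B) := by
    rcases le_total (A + B) (π / 2) with c | c
    · have s1 : sin A ≤ sin (A + B) :=
        sin_le_sin_of_le_of_le_pi_div_two (by linarith) c (by linarith)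
      have s2 : sin B ≤ sin (A + B) :=
        sin_le_sin_of_le_of_le_pi_div_two (by linarith) c (by linarith)
      have s3 : 0 ≤ sin A := sin_nonneg_of_nonneg_of_le_pi hA.le (by linarith)
      linarith
    · have s1 : sin (π / 6) ≤ sin (π - (A + B)) :=
        sin_le_sin_of_le_of_le_pi_div_two (by linarith) (by linarith) (by linarith)
      rw [sin_pi_sub, sin_pi_div_six] at s1
      linarith [sin_le_one A, sin_le_one B]
  nlinarith [mul_le_mul_of_nonneg_left s hε]

theorem rows_pair {C : ℝ → ℂ} {V : ℂ} {h A B ε ω : ℝ} {f g : ℝ → ℝ} (e1 : Esc (Bd C V) h A B)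
    (e2 : Esc (Bd C V) h B A) (hA : 0 < A) (hB : 0 < B) (hAB : A + B ≤ 5 * π / 6) (hε : 0 ≤ ε)
    (hfg : ∀ η ∈ Set.Icc 0 π, ∀ t ∈ Set.Icc (0 : ℝ) 1, ip (C t - V) (ω + η) ≤ f η + ε ∧
        ip (C t - V) (ω - η) ≤ g η + ε) :
    Rows (h - 5 * ε) f g A B ∧ Rows (h - 5 * ε) g f A B := by
  constructor
  · exact e1.rows (ω := ω) (fun θ c k b t ht => by rw [ip_add_int]; exact b t ht) hA hB hAB hε
      (fun η hη t ht => (hfg η hη t ht).1) (fun η hη t ht => (hfg η hη t ht).2)
  · exact e2.mirror.rows (ω := -ω) (fun θ c k b t ht => by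
      rw [show -(θ + k * (2 * π)) = -θ + ((-k : ℤ) : ℝ) * (2 * π) by push_cast; ring, ip_add_int]
      exact b t ht) hA hB hAB hε
      (fun η hη t ht => by
        rw [show -(-ω + η) = ω - η by ring]; exact (hfg η hη t ht).2)
      (fun η hη t ht => by
        rw [show -(-ω - η) = ω + η by ring]; exact (hfg η hη t ht).1)

/-- Shrinking the base angles with the base kept fixed. -/
theorem Esc.monoC {C : ℝ → ℂ} {V : ℂ} {h h' A B A' B' : ℝ} (e : Esc (Bd C V) h A B) (hA : 0 < A')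
    (hB : 0 < B') (hAA : A' ≤ A) (hBB : B' ≤ B) (hπ : A + B < π)
    (hh : h' * sin (A' + B') * (sin A * sin B) ≤ h * sin (A + B) * (sin A' * sin B')) :
    Esc (Bd C V) h' A' B' := by
  intro θ c1 c2 c3 b1 b2 b3
  have sA : 0 < sin A := sin_pos_of_pos_of_lt_pi (by linarith) (by linarith)
  have sB : 0 < sin B := sin_pos_of_pos_of_lt_pi (by linarith) (by linarith)
  have sA' : 0 < sin A' := sin_pos_of_pos_of_lt_pi (by linarith) (by linarith)
  have sB' : 0 < sin B' := sin_pos_of_pos_of_lt_pi (by linarith) (by linarith)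
  have s3 : 0 ≤ sin (A - A') := sin_nonneg_of_nonneg_of_le_pi (by linarith) (by linarith)
  have s5 : 0 ≤ sin (B - B') := sin_nonneg_of_nonneg_of_le_pi (by linarith) (by linarith)
  have := e θ ((sin A * c1 + sin (A - A') * c3) / sin A')
    ((sin B * c2 + sin (B - B') * c3) / sin B') c3 (fun t ht => by
      rw [le_div_iff₀ sA']
      have a1 := mul_le_mul_of_nonneg_left (b1 t ht) sA.le
      have a2 := mul_le_mul_of_nonneg_left (b3 t ht) s3
      have : ip (C t - V) (θ + π + A) * sin A' = sin A * ip (C t - V) (θ + π + A')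
          + sin (A - A') * ip (C t - V) θ := by
        simp only [ip, sin_add, cos_add, sin_sub, cos_pi, sin_pi]; ring
      linarith) (fun t ht => by
      rw [le_div_iff₀ sB']
      have a1 := mul_le_mul_of_nonneg_left (b2 t ht) sB.le
      have a2 := mul_le_mul_of_nonneg_left (b3 t ht) s5
      have : ip (C t - V) (θ + π - B) * sin B' = sin B * ip (C t - V) (θ + π - B')
          + sin (B - B') * ip (C t - V) θ := by
        simp only [ip, sin_add, cos_add, sin_sub, cos_sub, cos_pi, sin_pi]; ring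
      linarith) b3
  have e2 : (sin B * ((sin A * c1 + sin (A - A') * c3) / sin A')
      + sin A * ((sin B * c2 + sin (B - B') * c3) / sin B') + sin (A + B) * c3) * (sin A' * sin B')
      = (sin B' * c1 + sin A' * c2 + sin (A' + B') * c3) * (sin A * sin B) := by
    field_simp
    simp only [sin_add, sin_sub]; ring
  have e3 := mul_le_mul_of_nonneg_right this (mul_pos sA' sB').le
  rw [e2] at e3
  exact le_of_mul_le_mul_right (hh.trans e3) (mul_pos sA sB)

/-- The inequalities available for a pair of half structures: all placements of all triangles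
with larger base angles and the same altitude. -/
def AllRows (ρ : ℝ) (L R : Half) (A B : ℝ) : Prop :=
  ∀ A' B', A ≤ A' → B ≤ B' → A' + B' ≤ 5 * π / 6 →
    Rows ρ L.h R.h A' B' ∧ Rows ρ R.h L.h A' B'

theorem AllRows.swap {ρ A B : ℝ} {L R : Half} (h : AllRows ρ L R A B) : AllRows ρ R L A B :=
  fun A' B' h1 h2 h3 => (h A' B' h1 h2 h3).symm

/-- Reduction of the lower bound to half structures. -/
theorem lower_of_rows {A B h v : ℝ} (hA : 0 < A) (hB : 0 < B) (hv : 0 ≤ v) {C : ℝ → ℂ}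
    (hC : IsPath C) (e1 : ∀ V, Esc (Bd C V) h A B) (e2 : ∀ V, Esc (Bd C V) h B A)
    (core : ∀ ρ, 0 ≤ ρ → ∀ L R : Half, AllRows ρ L R A B → ρ * v ≤ L.len + R.len) :
    ENNReal.ofReal (v * h) ≤ pathLength C := by
  have hpi := pi_pos
  set L := (pathLength C).toReal with hL
  have hL0 : 0 ≤ L := ENNReal.toReal_nonneg
  have hL1 : pathLength C = ENNReal.ofReal L := (ENNReal.ofReal_toReal hC.2).symm
  rw [hL1]
  apply ENNReal.ofReal_le_ofReal
  have key : ∀ M : ℕ, 2 ≤ M → (h - 5 * (L * (π / M))) * v ≤ L := by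
    intro M hM
    rcases le_total 0 (h - 5 * (L * (π / M))) with c | c
    · obtain ⟨ω, V, H1, H2, hl, hb⟩ := exists_halves C hC.1 L hL0 hL1.le M hM
      refine le_trans (core _ c H1 H2 fun A' B' h1 h2 h3 => ?_) hl
      exact rows_pair ((e1 V).mono hA hB h1 h2 (by linarith))
        ((e2 V).mono hB hA h2 h1 (by linarith)) (by linarith) (by linarith) h3
        (by positivity) hb
    · nlinarith
  have lim : Tendsto (fun M : ℕ => (h - 5 * (L * (π / M))) * v) atTop
      (𝓝 ((h - 5 * (L * 0)) * v)) :=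
    (((tendsto_const_div_atTop_nhds_zero_nat π).const_mul L).const_mul 5 |>.const_sub h).mul_const _
  have := le_of_tendsto lim (eventually_atTop.2 ⟨2, key⟩)
  linarith

/-- Lower bound `U` for the class in which the bottom is met no later than direction `g`. -/
def BadOK (A1 B1 g U : ℝ) : Prop :=
  ∀ ρ, 0 ≤ ρ → ∀ L R : Half, Rows ρ L.h R.h A1 B1 → Rows ρ R.h L.h A1 B1 → L.d π ≤ L.d g →
    ρ * U ≤ L.len + R.len

/-- Use of a table entry: either the bound `v` holds or both halves meet `c` before the bottom. -/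
theorem BadOK.use {A B A1 B1 g U c v ρ : ℝ} (b : BadOK A1 B1 g U) (hA : A ≤ A1) (hB : B ≤ B1)
    (h : A1 + B1 ≤ 5 * π / 6) (c0 : 0 ≤ c) (cg : c ≤ g) (hg : g ≤ π) (hv : v ≤ U) (hρ : 0 ≤ ρ)
    {L R : Half} (r : AllRows ρ L R A B)
    (good : L.d c < L.d π → R.d c < R.d π → ρ * v ≤ L.len + R.len) : ρ * v ≤ L.len + R.len := by
  obtain ⟨r1, r2⟩ := r A1 B1 hA hB h
  have z := mul_le_mul_of_nonneg_left hv hρ
  rcases le_or_gt (L.d π) (L.d c) with p | p
  · linarith [b ρ hρ L R r1 r2 (L.tb c0 cg hg p)]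
  rcases le_or_gt (R.d π) (R.d c) with q | q
  · linarith [b ρ hρ R L r2 r1 (R.tb c0 cg hg q)]
  exact good p q

end Pool.Agent.P.MP_d76e6a_co
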