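import Pool.Agent.P.MP_d76e6a_co.XDefs
import Pool.Agent.P.MP_d76e6a_co.Fit

/-!
A criterion for escape from a triangle.
-/

namespace Pool.Agent.P.MP_d76e6a_co

open Real

/-- In every position the set `S` reaches across the triangle of altitude one. -/
def Wide (A B : ℝ) (S : ℂ → Prop) : Prop :=
  ∀ θ : ℝ, ∃ p0 p1 p2, S p0 ∧ S p1 ∧ S p2 ∧ 1 ≤ wt A B 0 * hs p0 (θ + off A B 0)
    + wt A B 1 * hs p1 (θ + off A B 1) + wt A B 2 * hs p2 (θ + off A B 2)

theorem xesc_angle {u v : ℝ} (h : u ^ 2 + v ^ 2 = 1) : ∃ θ, cos θ = u ∧ sin θ = v := by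
  have n : ‖(⟨u, v⟩ : ℂ)‖ = 1 := by
    rw [← sq_eq_sq₀ (norm_nonneg _) zero_le_one, Complex.sq_norm, Complex.normSq_apply]
    linear_combination h
  have z0 : (⟨u, v⟩ : ℂ) ≠ 0 := fun h0 => by simp [h0] at n
  exact ⟨Complex.arg ⟨u, v⟩, by rw [Complex.cos_arg z0, n, div_one],
    by rw [Complex.sin_arg, n, div_one]⟩

theorem xesc_iso (G : ℂ ≃ᵢ ℂ) {S : ℂ → Prop} (hm : ∀ p, S p → S (mir (-1) p)) :
    ∃ (θ : ℝ) (b : ℂ), ∀ p, S p → ∃ q, S q ∧ ∀ w : ℝ,
      (G (w * q)).re = w * (cos θ * p.re - sin θ * p.im) + b.re ∧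
      (G (w * q)).im = w * (-sin θ * p.re - cos θ * p.im) + b.im := by
  obtain ⟨a, ha⟩ := linear_isometry_complex G.toRealLinearIsometryEquiv
  have n : (a : ℂ).re ^ 2 + (a : ℂ).im ^ 2 = 1 := by
    have := Complex.sq_norm (a : ℂ)
    rw [Circle.norm_coe, Complex.normSq_apply] at this
    linarith
  have e : ∀ z, G z = G.toRealLinearIsometryEquiv z + G 0 := fun z => by
    rw [IsometryEquiv.toRealLinearIsometryEquiv_apply]; ring
  rcases ha with ha | ha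
  · obtain ⟨θ, h1, h2⟩ := xesc_angle (u := -(a : ℂ).re) (v := (a : ℂ).im) (by linarith)
    refine ⟨θ, G 0, fun p hp => ⟨_, hm p hp, fun w => ?_⟩⟩
    rw [e, ha, h1, h2]
    constructor <;> simp [rotation_apply, mir] <;> ring
  · obtain ⟨θ, h1, h2⟩ := xesc_angle (u := (a : ℂ).re) (v := -(a : ℂ).im) (by linarith)
    refine ⟨θ, G 0, fun p hp => ⟨p, hp, fun w => ?_⟩⟩
    rw [e, ha, h1, h2]
    constructor <;> simp [rotation_apply] <;> ring

theorem xesc_sides {X Y Z : ℂ} {h A B : ℝ} (s : Std X Y Z h A B) : ∃ (g : ℂ ≃ᵢ ℂ) (c : ℝ),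
    c * (sin A * sin B) = h * sin (A + B) ∧
    (∀ z ∈ convexHull ℝ {X, Y, Z}, 0 ≤ (g z).im ∧ (g z).im * cos A - (g z).re * sin A ≤ 0 ∧
      (g z).im * cos B + (g z).re * sin B ≤ c * sin B) ∧
    ∀ z ∈ interior (convexHull ℝ {X, Y, Z}), 0 < (g z).im := by
  obtain ⟨hpos, sA, sB, g, c, p, c0, k1, k2, hg⟩ := s
  have sub : convexHull ℝ {X, Y, Z} ⊆ g.symm ⁻¹' {w : ℂ | 0 ≤ w.im ∧
      w.im * cos A - w.re * sin A ≤ 0 ∧ w.im * cos B + w.re * sin B ≤ c * sin B} := by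
    apply convexHull_min
    · have e1 := hg 1 0 0 (by ring)
      have e2 := hg 0 1 0 (by ring)
      have e3 := hg 0 0 1 (by ring)
      simp only [one_smul, zero_smul, add_zero, zero_add] at e1 e2 e3
      have a1 := mul_pos c0 sA
      have a2 := mul_pos c0 sB
      rintro z (rfl | rfl | rfl)
      · rw [← e1, Set.mem_preimage, g.symm_apply_apply]
        exact ⟨by simp, by simp, by simpa using a2.le⟩
      · rw [← e2, Set.mem_preimage, g.symm_apply_apply]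
        exact ⟨by simp, by simpa using a1.le, by simp⟩
      · rw [← e3, Set.mem_preimage, g.symm_apply_apply]
        refine ⟨by simpa using hpos.le, ?_, ?_⟩ <;> simp only [one_mul] <;> linarith
    · have c1 : Convex ℝ {w : ℂ | 0 ≤ w.im ∧
          w.im * cos A - w.re * sin A ≤ 0 ∧ w.im * cos B + w.re * sin B ≤ c * sin B} := by
        rintro x ⟨x1, x2, x3⟩ y ⟨y1, y2, y3⟩ a b ha hb hab
        simp only [Set.mem_setOf_eq, Complex.add_re, Complex.add_im, Complex.smul_re,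
          Complex.smul_im, smul_eq_mul]
        refine ⟨by positivity, ?_, ?_⟩
        · linarith [mul_le_mul_of_nonneg_left x2 ha, mul_le_mul_of_nonneg_left y2 hb]
        · have : a * (c * sin B) + b * (c * sin B) = c * sin B := by rw [← add_mul, hab, one_mul]
          linarith [mul_le_mul_of_nonneg_left x3 ha, mul_le_mul_of_nonneg_left y3 hb]
      exact c1.affine_preimage g.symm.toRealAffineIsometryEquiv.toAffineEquiv.toAffineMap
  refine ⟨g.symm, c, ?_, fun z hz => sub hz, fun z hz => ?_⟩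
  · rw [sin_add]; linear_combination sin B * k1 + sin A * k2
  · have sub' : convexHull ℝ {X, Y, Z} ⊆ g.symm ⁻¹' (Complex.im ⁻¹' Set.Ici 0) :=
      fun z hz => (sub hz).1
    have := interior_mono sub' hz
    rw [← g.symm.coe_toHomeomorph, ← Homeomorph.preimage_interior, Complex.interior_preimage_im,
      interior_Ici] at this
    exact this

theorem xesc_core {A B w : ℝ} (hσ : 0 < sin (A + B)) {S : ℂ → Prop}
    (hm : ∀ p, S p → S (mir (-1) p)) (hW : Wide A B S) {C : ℝ → ℂ} (hw : 0 ≤ w)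
    (hp : ∀ p, S p → ∃ t ∈ Set.Icc (0 : ℝ) 1, C t = w * p) (G : ℂ ≃ᵢ ℂ) :
    ∃ t0 ∈ Set.Icc (0 : ℝ) 1, ∃ t1 ∈ Set.Icc (0 : ℝ) 1, ∃ t2 ∈ Set.Icc (0 : ℝ) 1,
      w * sin (A + B) ≤ -(sin (A + B) * (G (C t0)).im) +
        sin B * ((G (C t1)).im * cos A - (G (C t1)).re * sin A) +
        sin A * ((G (C t2)).im * cos B + (G (C t2)).re * sin B) := by
  obtain ⟨θ, b, hb⟩ := xesc_iso G hm
  obtain ⟨p0, p1, p2, s0, s1, s2, h⟩ := hW θ
  obtain ⟨q0, r0, e0⟩ := hb p0 s0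
  obtain ⟨q1, r1, e1⟩ := hb p1 s1
  obtain ⟨q2, r2, e2⟩ := hb p2 s2
  obtain ⟨t0, m0, f0⟩ := hp q0 r0
  obtain ⟨t1, m1, f1⟩ := hp q1 r1
  obtain ⟨t2, m2, f2⟩ := hp q2 r2
  refine ⟨t0, m0, t1, m1, t2, m2, ?_⟩
  rw [f0, f1, f2, (e0 w).2, (e1 w).1, (e1 w).2, (e2 w).1, (e2 w).2]
  have h' : sin (A + B) ≤ sin (A + B) * hs p0 θ + sin B * hs p1 (θ + (π + A)) +
      sin A * hs p2 (θ + (π - B)) := by
    have w0 : wt A B 0 = 1 := by simp [wt]
    have w1 : sin (A + B) * wt A B 1 = sin B := by simp [wt]; field_simp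
    have w2 : sin (A + B) * wt A B 2 = sin A := by simp [wt]; field_simp
    have o0 : off A B 0 = 0 := by simp [off]
    have o1 : off A B 1 = π + A := by simp [off]
    have o2 : off A B 2 = π - B := by simp [off]
    have := mul_le_mul_of_nonneg_left h hσ.le
    rwa [w0, o0, o1, o2, mul_one, add_zero, one_mul, mul_add, mul_add, ← mul_assoc, ← mul_assoc,
      w1, w2] at this
  have h'' := mul_le_mul_of_nonneg_left h' hw
  refine h''.trans (le_of_eq ?_)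
  simp only [hs, sin_add, cos_add, sin_sub, cos_sub, sin_pi, cos_pi]
  ring

theorem Std.esc_open {X Y Z : ℂ} {h A B : ℝ} (s : Std X Y Z h A B) (hσ : 0 < sin (A + B))
    {S : ℂ → Prop} (hm : ∀ p, S p → S (mir (-1) p)) (hW : Wide A B S) {C : ℝ → ℂ} (hC : IsPath C)
    (hp : ∀ p, S p → ∃ t ∈ Set.Icc (0 : ℝ) 1, C t = h * p) :
    IsEscapePath (interior (convexHull ℝ {X, Y, Z})) C := by
  refine ⟨hC, fun P _ g _ hin => ?_⟩
  obtain ⟨g0, c, hc, k1, k2⟩ := xesc_sides s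
  obtain ⟨t0, m0, t1, m1, t2, m2, e⟩ := xesc_core hσ hm hW s.hpos.le hp (g.trans g0)
  simp only [IsometryEquiv.trans_apply] at e
  have a0 := mul_pos hσ (k2 _ (hin t0 m0))
  have a1 := mul_le_mul_of_nonneg_left (k1 _ (interior_subset (hin t1 m1))).2.1 s.sB.le
  have a2 := mul_le_mul_of_nonneg_left (k1 _ (interior_subset (hin t2 m2))).2.2 s.sA.le
  linarith

theorem Std.esc_closed {X Y Z : ℂ} {h A B w : ℝ} (s : Std X Y Z h A B) (hσ : 0 < sin (A + B))
    {S : ℂ → Prop} (hm : ∀ p, S p → S (mir (-1) p)) (hW : Wide A B S) {C : ℝ → ℂ} (hC : IsPath C)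
    (hw : h < w) (hp : ∀ p, S p → ∃ t ∈ Set.Icc (0 : ℝ) 1, C t = w * p) :
    IsEscapePath (convexHull ℝ {X, Y, Z}) C := by
  refine ⟨hC, fun P _ g _ hin => ?_⟩
  obtain ⟨g0, c, hc, k1, -⟩ := xesc_sides s
  obtain ⟨t0, m0, t1, m1, t2, m2, e⟩ := xesc_core hσ hm hW (s.hpos.trans hw).le hp (g.trans g0)
  simp only [IsometryEquiv.trans_apply] at e
  have a0 := mul_nonneg hσ.le (k1 _ (hin t0 m0)).1
  have a1 := mul_le_mul_of_nonneg_left (k1 _ (hin t1 m1)).2.1 s.sB.le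
  have a2 := mul_le_mul_of_nonneg_left (k1 _ (hin t2 m2)).2.2 s.sA.le
  have a3 := mul_lt_mul_of_pos_right hw hσ
  linarith

end Pool.Agent.P.MP_d76e6a_co
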