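import Pool.Agent.P.MP_d76e6a_co.GOpt
import Pool.Agent.P.MP_d76e6a_co.XEsc
import Pool.Agent.P.MP_d76e6a_co.NRows

/-!
Monotonicity of the game in the angles, and the arc of an optimal strategy.
-/

namespace Pool.Agent.P.MP_d76e6a_co

open Real MeasureTheory Filter Topology EuclideanGeometry

/-- Sublinearity in the direction. -/
def Sub (F : ℝ → ℝ) : Prop :=
  ∀ c a b ψ p q : ℝ, 0 ≤ c → 0 ≤ a → 0 ≤ b → c * sin ψ = a * sin p + b * sin q →
    c * cos ψ = a * cos p + b * cos q → c * F ψ ≤ a * F p + b * F q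

theorem kv_nonneg (x y ψ : ℝ) : 0 ≤ kv x y ψ := le_max_left _ _

theorem kv_ge (x y ψ : ℝ) : |sin ψ| * x - cos ψ * y ≤ kv x y ψ := le_max_right _ _

theorem kv_sub {x : ℝ} (hx : 0 ≤ x) (y : ℝ) : Sub (kv x y) := by
  intro c a b ψ p q hc ha hb e1 e2
  have k1 := mul_le_mul_of_nonneg_left (kv_ge x y p) ha
  have k2 := mul_le_mul_of_nonneg_left (kv_ge x y q) hb
  have k3 : c * |sin ψ| ≤ a * |sin p| + b * |sin q| := by
    rw [← abs_of_nonneg hc, ← abs_mul, e1]
    refine (abs_add_le _ _).trans ?_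
    rw [abs_mul, abs_mul, abs_of_nonneg ha, abs_of_nonneg hb]
  have k4 := mul_le_mul_of_nonneg_right k3 hx
  conv_lhs => rw [kv, mul_max_of_nonneg _ _ hc, mul_zero]
  refine max_le (add_nonneg (mul_nonneg ha (kv_nonneg _ _ _)) (mul_nonneg hb (kv_nonneg _ _ _))) ?_
  have k5 : c * cos ψ * y = (a * cos p + b * cos q) * y := by rw [e2]
  linarith

theorem Cone.sub {F : ℝ → ℝ} {m : ℝ} (h : Cone F m) : Sub F := by
  obtain ⟨ι, s, x, y, h1, -, h3⟩ := h
  intro c a b ψ p q hc ha hb e1 e2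
  rw [h3, h3, h3, Finset.mul_sum, Finset.mul_sum, Finset.mul_sum, ← Finset.sum_add_distrib]
  exact Finset.sum_le_sum fun i hi => kv_sub (h1 i hi).1 _ c a b ψ p q hc ha hb e1 e2

theorem row_mono {F : ℝ → ℝ} (h : Sub F) {A B A' B' : ℝ} (hA : 0 ≤ A) (hB : 0 ≤ B)
    (h0 : 0 < A + B) (hAA : A ≤ A') (hBB : B ≤ B') (hπ : A' + B' < π) (θ : ℝ) :
    row A B F θ ≤ row A' B' F θ := by
  have s0 : 0 < sin (A + B) := sin_pos_of_pos_of_lt_pi h0 (by linarith)
  have s1 : 0 < sin (A' + B') := sin_pos_of_pos_of_lt_pi (by linarith) (by linarith)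
  have s2 : 0 ≤ sin (A + B') := sin_nonneg_of_nonneg_of_le_pi (by linarith) (by linarith)
  have s3 : 0 ≤ sin (A' - A) := sin_nonneg_of_nonneg_of_le_pi (by linarith) (by linarith)
  have s4 : 0 ≤ sin (A' + B) := sin_nonneg_of_nonneg_of_le_pi (by linarith) (by linarith)
  have s5 : 0 ≤ sin (B' - B) := sin_nonneg_of_nonneg_of_le_pi (by linarith) (by linarith)
  have sA : 0 ≤ sin A := sin_nonneg_of_nonneg_of_le_pi hA (by linarith)
  have sB : 0 ≤ sin B := sin_nonneg_of_nonneg_of_le_pi hB (by linarith)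
  unfold row
  generalize θ + π = x
  have k1 := h _ _ _ (x + A) (x + A') (x - B') s1.le s2 s3
    (by simp only [sin_add, sin_sub]; ring)
    (by simp only [sin_add, cos_add, sin_sub, cos_sub]; ring)
  have k2 := h _ _ _ (x - B) (x + A') (x - B') s1.le s5 s4
    (by simp only [sin_add, sin_sub]; ring)
    (by simp only [sin_add, cos_add, sin_sub, cos_sub]; ring)
  refine add_le_add le_rfl ?_
  rw [div_le_div_iff₀ s0 s1]
  have k3 := mul_le_mul_of_nonneg_left k1 sB
  have k4 := mul_le_mul_of_nonneg_left k2 sA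
  have e : (sin B' * F (x + A') + sin A' * F (x - B')) * sin (A + B) =
      sin B * (sin (A + B') * F (x + A') + sin (A' - A) * F (x - B'))
        + sin A * (sin (B' - B) * F (x + A') + sin (A' + B) * F (x - B')) := by
    simp only [sin_add, sin_sub]; ring
  rw [e]
  linarith

theorem gval_pos {A B : ℝ} (hA : 0 < A) (hB : 0 < B) (hπ : A + B < π) : 0 < gval A B := by
  have sA : 0 < sin A := sin_pos_of_pos_of_lt_pi hA (by linarith)
  have sB : 0 < sin B := sin_pos_of_pos_of_lt_pi hB (by linarith)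
  have sC : 0 < sin (A + B) := sin_pos_of_pos_of_lt_pi (by linarith) hπ
  have c : Cone (kv 1 1) 2 := Cone.one zero_le_one zero_le_one
    (sqrt_le_iff.2 ⟨by norm_num, by norm_num⟩)
  have := c.le_gval (ρ := 1) sA.le sB.le sC.le fun θ => by
    refine le_trans ?_ (row_mono c.sub le_rfl hB.le (by linarith) hA.le le_rfl hπ θ)
    unfold row
    rw [sin_zero, zero_mul, add_zero, zero_add, mul_div_cancel_left₀ _ sB.ne', add_zero]
    have a1 := kv_ge 1 1 θ
    have a2 := kv_ge 1 1 (θ + π)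
    have a3 := kv_nonneg 1 1 θ
    have a4 := kv_nonneg 1 1 (θ + π)
    rw [sin_add_pi, cos_add_pi, abs_neg] at a2
    have a5 := sin_sq_add_cos_sq θ
    have a6 := abs_nonneg (sin θ)
    have a7 := sq_abs (sin θ)
    have a8 := abs_sin_le_one θ
    rcases le_total 0 (cos θ) with k | k
    · nlinarith [cos_le_one θ]
    · nlinarith [neg_one_le_cos θ]
  linarith

theorem gain_eq (A B γ θ : ℝ) : gain A B γ θ = row A B (kv (cos γ) (sin γ)) θ := rfl

/-- A mixed strategy of the second player bounds the value from above. -/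
theorem gval_le {A B c : ℝ} (hA : 0 ≤ sin A) (hB : 0 ≤ sin B) (hC : 0 ≤ sin (A + B))
    (l : List (ℝ × ℝ)) (hl : ∀ p ∈ l, 0 ≤ p.1) (hW : 0 < (l.map Prod.fst).sum)
    (h : ∀ γ, 0 ≤ γ → γ ≤ π / 2 →
      (l.map fun p => p.1 * gain A B γ p.2).sum ≤ (l.map Prod.fst).sum * c) :
    gval A B ≤ c := by
  obtain ⟨η, hη⟩ := exists_opt hA hB hC
  rw [hη.gval]
  have cg : ∀ θ, Continuous fun γ => gain A B γ θ := fun θ => by
    unfold gain
    have := ker_cont
    fun_prop
  have key : ∀ l : List (ℝ × ℝ), (∀ p ∈ l, 0 ≤ p.1) →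
      (Continuous fun γ => (l.map fun p => p.1 * gain A B γ p.2).sum) ∧
      (l.map Prod.fst).sum * pay A B η ≤
        ∫ s in (0 : ℝ)..1, (l.map fun p => p.1 * gain A B (η s) p.2).sum := by
    intro l hl
    induction l with
    | nil => simp [continuous_const]
    | cons p l ih =>
      obtain ⟨i1, i2⟩ := ih fun q hq => hl q (List.mem_cons_of_mem _ hq)
      simp only [List.map_cons, List.sum_cons]
      refine ⟨(continuous_const.mul (cg _)).add i1, ?_⟩
      rw [intervalIntegral.integral_add ((mono_ii hη.1.1 (cg _) 0 1).const_mul _)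
        (mono_ii hη.1.1 i1 0 1), intervalIntegral.integral_const_mul, int_gain hη.1.1]
      have := mul_le_mul_of_nonneg_left (pay_le_row hA hB hC hη.1.1 p.2) (hl p List.mem_cons_self)
      linarith
  obtain ⟨k1, k2⟩ := key l hl
  have k3 := intervalIntegral.integral_mono_on zero_le_one (mono_ii hη.1.1 k1 0 1)
    (intervalIntegrable_const (c := (l.map Prod.fst).sum * c) (μ := volume))
    fun s hs => h _ (hη.1.mem hs.1).1 (hη.1.mem hs.1).2
  simp only [intervalIntegral.integral_const, sub_zero, smul_eq_mul, one_mul] at k3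
  exact le_of_mul_le_mul_left (k2.trans k3) hW

/-- The point at signed arc length `r`. -/
noncomputable def apt (η : ℝ → ℝ) (r : ℝ) : ℂ :=
  ∫ s in (0 : ℝ)..r, (⟨cos (η s), -sin (η s)⟩ : ℂ)

theorem tt_cont : Continuous fun e : ℝ => (⟨cos e, -sin e⟩ : ℂ) := by
  have : (fun e : ℝ => (⟨cos e, -sin e⟩ : ℂ)) =
      fun e : ℝ => ((cos e : ℝ) : ℂ) + ((-sin e : ℝ) : ℂ) * Complex.I := by
    funext e
    apply Complex.ext <;> simp [-Complex.ofReal_cos, -Complex.ofReal_sin]
  rw [this]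
  fun_prop

theorem apt_lip {η : ℝ → ℝ} (h : Monotone η) (a b : ℝ) : ‖apt η b - apt η a‖ ≤ |b - a| := by
  unfold apt
  rw [intervalIntegral.integral_interval_sub_left (mono_ii h tt_cont _ _) (mono_ii h tt_cont _ _)]
  have := intervalIntegral.norm_integral_le_of_norm_le_const (a := a) (b := b) (C := 1)
    (f := fun s => (⟨cos (η s), -sin (η s)⟩ : ℂ)) fun s _ => by
      rw [← sq_le_sq₀ (norm_nonneg _) zero_le_one, Complex.sq_norm, Complex.normSq_apply]
      nlinarith [sin_sq_add_cos_sq (η s)]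
  rwa [one_mul] at this

theorem apt_re {η : ℝ → ℝ} (h : Monotone η) (r : ℝ) :
    (apt η r).re = ∫ s in (0 : ℝ)..r, cos (η s) :=
  (Complex.reCLM.intervalIntegral_comp_comm (mono_ii h tt_cont 0 r)).symm

theorem apt_im {η : ℝ → ℝ} (h : Monotone η) (r : ℝ) :
    (apt η r).im = ∫ s in (0 : ℝ)..r, -sin (η s) :=
  (Complex.imCLM.intervalIntegral_comp_comm (mono_ii h tt_cont 0 r)).symm

theorem apt_neg {η : ℝ → ℝ} (h : Adm η) (r : ℝ) : apt η (-r) = mir (-1) (apt η r) := by
  apply Complex.ext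
  · have e := intervalIntegral.integral_comp_neg (a := 0) (b := r) fun s => cos (η s)
    simp only [(h.2 _).1, cos_neg, neg_zero] at e
    rw [intervalIntegral.integral_symm 0 (-r)] at e
    simp only [mir, apt_re h.1, e]
    push_cast
    ring
  · have e := intervalIntegral.integral_comp_neg (a := 0) (b := r) fun s => -sin (η s)
    simp only [(h.2 _).1, sin_neg, neg_zero] at e
    rw [intervalIntegral.integral_symm 0 (-r), intervalIntegral.integral_neg] at e
    simp only [mir, apt_im h.1]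
    linarith

theorem apt_supp {η : ℝ → ℝ} (h : Adm η) (ψ : ℝ) :
    ∃ r ∈ Set.Icc (-1 : ℝ) 1, supp η ψ ≤ hs (apt η r) ψ := by
  set e := arccos (cos ψ) with he
  have e0 : 0 ≤ e := arccos_nonneg _
  have e1 : e ≤ π := arccos_le_pi _
  have ce : cos e = cos ψ := cos_arccos (neg_one_le_cos _) (cos_le_one _)
  have se : sin e = |sin ψ| := by rw [he, sin_arccos, ← sin_sq, sqrt_sq_eq_abs]
  set S := {s ∈ Set.Icc (0 : ℝ) 1 | η s ≤ e} with hS
  have z : (0 : ℝ) ∈ S := ⟨⟨le_rfl, zero_le_one⟩, h.zero.le.trans e0⟩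
  have bd : BddAbove S := ⟨1, fun s hs => hs.1.2⟩
  set r := sSup S with hr
  have r0 : 0 ≤ r := le_csSup bd z
  have r1 : r ≤ 1 := csSup_le ⟨0, z⟩ fun s hs => hs.1.2
  have i := fun a b => mono_ii h.1 (ker_cont ψ) a b
  have k : supp η ψ = |sin ψ| * (apt η r).re + cos ψ * (apt η r).im := by
    rw [supp, ← intervalIntegral.integral_add_adjacent_intervals (i 0 r) (i r 1), apt_re h.1,
      apt_im h.1, ← intervalIntegral.integral_const_mul, ← intervalIntegral.integral_const_mul,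
      ← intervalIntegral.integral_add ((mono_ii h.1 continuous_cos _ _).const_mul _)
        ((mono_ii h.1 (f := fun x => -sin x) continuous_sin.neg _ _).const_mul _)]
    have z2 : ∫ s in r..1, ker (η s) ψ = 0 := by
      rw [intervalIntegral.integral_congr_ae (g := fun _ => 0)
        (Eventually.of_forall fun s hs => ?_), intervalIntegral.integral_zero]
      rw [Set.uIoc_of_le r1] at hs
      have a1 : e < η s := not_le.1 fun c => absurd (le_csSup bd ⟨⟨r0.trans hs.1.le, hs.2⟩, c⟩)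
        (not_le.2 hs.1)
      have a2 : 0 ≤ sin (η s - e) :=
        sin_nonneg_of_nonneg_of_le_pi (by linarith) (by linarith [(h.2 s).2, pi_pos])
      rw [sin_sub, ce, se] at a2
      exact max_eq_left (by linarith)
    rw [z2, add_zero]
    refine intervalIntegral.integral_congr_ae ?_
    filter_upwards [(Set.countable_singleton r).ae_notMem volume] with s h1 hs
    rw [Set.uIoc_of_le r0] at hs
    obtain ⟨t, ht, st⟩ := exists_lt_of_lt_csSup ⟨0, z⟩ (lt_of_le_of_ne hs.2 h1)
    have a1 : η s ≤ e := (h.1 st.le).trans ht.2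
    have a2 : 0 ≤ sin (e - η s) :=
      sin_nonneg_of_nonneg_of_le_pi (by linarith) (by linarith [(h.mem hs.1.le).1])
    rw [sin_sub, ce, se] at a2
    rw [ker, max_eq_right (by linarith)]
    ring
  rcases le_total 0 (sin ψ) with c | c
  · refine ⟨r, ⟨by linarith, r1⟩, ?_⟩
    rw [k, abs_of_nonneg c, hs]
    linarith
  · refine ⟨-r, ⟨by linarith, by linarith⟩, ?_⟩
    rw [k, abs_of_nonpos c, apt_neg h, hs, mir]
    push_cast
    linarith

theorem arc_len {A B w : ℝ} {η : ℝ → ℝ} (h : Monotone η) (hp : 0 < pay A B η) (hw : 0 ≤ w) :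
    IsPath (arc A B η w) ∧ pathLength (arc A B η w) ≤ ENNReal.ofReal (2 / pay A B η * w) := by
  have c0 : 0 ≤ w / pay A B η := by positivity
  have d : ∀ s t, ‖arc A B η w t - arc A B η w s‖ ≤ 2 * (w / pay A B η) * |t - s| := fun s t => by
    change ‖(w / pay A B η) • apt η (2 * t - 1) - (w / pay A B η) • apt η (2 * s - 1)‖ ≤ _
    rw [← smul_sub, norm_smul, Real.norm_of_nonneg c0]
    refine (mul_le_mul_of_nonneg_left (apt_lip h _ _) c0).trans (le_of_eq ?_)
    rw [show 2 * t - 1 - (2 * s - 1) = 2 * (t - s) by ring, abs_mul, abs_two]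
    ring
  have hmono : Monotone fun t : ℝ => 2 * (w / pay A B η) * t := fun s t hst =>
    mul_le_mul_of_nonneg_left hst (by positivity)
  have hle : pathLength (arc A B η w) ≤ ENNReal.ofReal (2 / pay A B η * w) := by
    have h1 : eVariationOn (arc A B η w) (Set.Icc 0 1)
        ≤ eVariationOn (fun t : ℝ => 2 * (w / pay A B η) * t) (Set.Icc 0 1) := by
      unfold eVariationOn
      refine iSup_mono fun p => Finset.sum_le_sum fun i _ => ?_
      rw [edist_dist, edist_dist, dist_eq_norm, Real.dist_eq, ← mul_sub, abs_mul,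
        abs_of_nonneg (by positivity)]
      exact ENNReal.ofReal_le_ofReal (d _ _)
    have h2 := ((hmono.monotoneOn Set.univ).eVariationOn_eq (Set.mem_univ 0) (Set.mem_univ 1)).le
    rw [Set.univ_inter] at h2
    refine (h1.trans h2).trans (le_of_eq ?_)
    congr 1
    ring
  refine ⟨⟨Continuous.continuousOn ?_, ne_top_of_le_ne_top ENNReal.ofReal_ne_top hle⟩, hle⟩
  refine (LipschitzWith.of_dist_le_mul (K := ⟨2 * (w / pay A B η), by positivity⟩)
    fun s t => ?_).continuous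
  rw [dist_eq_norm, Real.dist_eq]
  exact d t s

theorem arc_wide {A B : ℝ} {η : ℝ → ℝ} (hA : 0 ≤ sin A) (hB : 0 ≤ sin B) (hC : 0 ≤ sin (A + B))
    (h : Adm η) (hp : 0 < pay A B η) :
    Wide A B fun p => ∃ r ∈ Set.Icc (-1 : ℝ) 1, p = (1 / pay A B η) • apt η r := by
  intro θ
  obtain ⟨r0, m0, k0⟩ := apt_supp h θ
  obtain ⟨r1, m1, k1⟩ := apt_supp h (θ + π + A)
  obtain ⟨r2, m2, k2⟩ := apt_supp h (θ + π - B)
  refine ⟨_, _, _, ⟨r0, m0, rfl⟩, ⟨r1, m1, rfl⟩, ⟨r2, m2, rfl⟩, ?_⟩
  have e : ∀ (c : ℝ) (p : ℂ) (x : ℝ), hs (c • p) x = c * hs p x := fun c p x => by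
    simp only [hs, Complex.smul_re, Complex.smul_im, smul_eq_mul]
    ring
  have w0 : wt A B 0 = 1 := by simp [wt]
  have w1 : wt A B 1 = sin B / sin (A + B) := by simp [wt]
  have w2 : wt A B 2 = sin A / sin (A + B) := by simp [wt]
  have o0 : θ + off A B 0 = θ := by simp [off]
  have o1 : θ + off A B 1 = θ + π + A := by simp [off, add_assoc]
  have o2 : θ + off A B 2 = θ + π - B := by simp [off, add_sub_assoc]
  rw [e, e, e, w0, w1, w2, o0, o1, o2]
  have a := pay_le_row hA hB hC h.1 θ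
  unfold row at a
  rw [add_div, mul_div_right_comm, mul_div_right_comm] at a
  have a1 := mul_le_mul_of_nonneg_left k1 (div_nonneg hB hC)
  have a2 := mul_le_mul_of_nonneg_left k2 (div_nonneg hA hC)
  have a3 : 1 / pay A B η * pay A B η = 1 := one_div_mul_cancel hp.ne'
  have a4 := mul_le_mul_of_nonneg_left (show pay A B η ≤ hs (apt η r0) θ
    + sin B / sin (A + B) * hs (apt η r1) (θ + π + A)
    + sin A / sin (A + B) * hs (apt η r2) (θ + π - B) by linarith) (one_div_pos.2 hp).le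
  linarith

theorem std_pair {X Y Z : ℂ} (hT : AffineIndependent ℝ ![X, Y, Z]) {A B h : ℝ}
    (hA : A = ∠ Y X Z) (hB : B = ∠ X Y Z) (hh : h = dist X Z * sin A) :
    Std X Y Z h A B ∧ Std Y X Z h B A := by
  refine ⟨by rw [hh, hA, hB]; exact std_of_indep hT, ?_⟩
  have hT' : AffineIndependent ℝ ![Y, X, Z] := by
    rw [affineIndependent_iff_not_collinear_set] at hT ⊢
    rwa [Set.insert_comm]
  have := std_of_indep hT'
  have e2 : dist Y Z * sin (∠ X Y Z) = h := by
    have l2 := law_sin Y X Z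
    rw [angle_comm Z Y X, dist_comm Z Y] at l2
    rw [hh, hA]
    linarith
  rwa [e2, ← hA, ← hB] at this

/-- The arc of an optimal strategy escapes. -/
theorem Opt.escape {X Y Z : ℂ} {A B h : ℝ} {η : ℝ → ℝ} (o : Opt A B η) (s : Std X Y Z h A B)
    (hA : 0 < A) (hB : 0 < B) (hπ : A + B < π) :
    IsEscapePath (interior (convexHull ℝ {X, Y, Z})) (arc A B η h) ∧
      (∀ w, h < w → IsEscapePath (convexHull ℝ {X, Y, Z}) (arc A B η w)) ∧
      ∀ w, 0 ≤ w → pathLength (arc A B η w) ≤ ENNReal.ofReal (vU A B * w) := by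
  have hσ : 0 < sin (A + B) := sin_pos_of_pos_of_lt_pi (by linarith) hπ
  have hp : 0 < pay A B η := o.gval ▸ gval_pos hA hB hπ
  have W := arc_wide s.sA.le s.sB.le hσ.le o.1 hp
  have hm : ∀ p, (∃ r ∈ Set.Icc (-1 : ℝ) 1, p = (1 / pay A B η) • apt η r) →
      ∃ r ∈ Set.Icc (-1 : ℝ) 1, mir (-1) p = (1 / pay A B η) • apt η r := by
    rintro _ ⟨r, hr, rfl⟩
    refine ⟨-r, ⟨by linarith [hr.2], by linarith [hr.1]⟩, ?_⟩
    rw [apt_neg o.1]
    apply Complex.ext <;> simp [mir]
  have hc : ∀ w : ℝ, ∀ p, (∃ r ∈ Set.Icc (-1 : ℝ) 1, p = (1 / pay A B η) • apt η r) →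
      ∃ t ∈ Set.Icc (0 : ℝ) 1, arc A B η w t = w * p := by
    rintro w _ ⟨r, hr, rfl⟩
    refine ⟨(r + 1) / 2, ⟨by linarith [hr.1], by linarith [hr.2]⟩, ?_⟩
    change (w / pay A B η) • apt η (2 * ((r + 1) / 2) - 1) = _
    rw [show 2 * ((r + 1) / 2) - 1 = r by ring, ← Complex.real_smul, smul_smul, mul_one_div]
  refine ⟨s.esc_open hσ hm W (arc_len o.1.1 hp s.hpos.le).1 (hc h), fun w hw =>
    s.esc_closed hσ hm W (arc_len o.1.1 hp (s.hpos.trans hw).le).1 hw (hc w), fun w hw => ?_⟩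
  rw [vU, o.gval]
  exact (arc_len o.1.1 hp hw).2

/-- From a family of escape paths and a matching lower bound to the escape length. -/
theorem five {T : Set ℂ} {C : ℝ → ℝ → ℂ} {v h : ℝ} (hv : 0 ≤ v) (hh : 0 ≤ h)
    (op : IsEscapePath (interior T) (C h)) (cls : ∀ w, h < w → IsEscapePath T (C w))
    (len : ∀ w, 0 ≤ w → pathLength (C w) ≤ ENNReal.ofReal (v * w))
    (low : ∀ D, IsEscapePath (interior T) D → ENNReal.ofReal (v * h) ≤ pathLength D) :
    escapeLength T = ENNReal.ofReal (v * h) ∧ escapeLength (interior T) = ENNReal.ofReal (v * h) ∧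
      pathLength (C h) = ENNReal.ofReal (v * h) := by
  have mono : ∀ D, IsEscapePath T D → IsEscapePath (interior T) D := fun D hD =>
    ⟨hD.1, fun P hP g hg hin => hD.2 P (interior_subset hP) g hg
      fun t ht => interior_subset (hin t ht)⟩
  refine ⟨le_antisymm ?_ (le_iInf₂ fun D hD => low D (mono D hD)),
    le_antisymm ((iInf₂_le _ op).trans (len h hh)) (le_iInf₂ low), le_antisymm (len h hh) (low _ op)⟩
  refine ENNReal.le_of_forall_pos_le_add fun ε hε _ => ?_
  have e0 : (0 : ℝ) < ε / (v + 1) := div_pos (by exact_mod_cast hε) (by linarith)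
  refine ((iInf₂_le _ (cls (h + ε / (v + 1)) (by linarith))).trans (len _ (by linarith))).trans ?_
  rw [mul_add, ENNReal.ofReal_add (mul_nonneg hv hh) (by positivity), ← ENNReal.ofReal_coe_nnreal]
  refine add_le_add le_rfl (ENNReal.ofReal_le_ofReal ?_)
  rw [← mul_div_assoc, div_le_iff₀ (by linarith)]
  nlinarith [ε.coe_nonneg]

end Pool.Agent.P.MP_d76e6a_co
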