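import Pool.Agent.P.MP_d76e6a_co.GBox

/-!
Boxes of angles on which the symmetric convex arc is optimal.
-/

namespace Pool.Agent.P.MP_d76e6a_co

open Real

noncomputable section

def kB (b : Bool) (k : Bool → Bool) : Bool := Bool.rec (k false) (k true) b

theorem kB_eq (b : Bool) (k : Bool → Bool) : kB b k = k b := by cases b <;> rfl

def rowsD (c : ℕ) : ℕ → (List Row → ℕ → Bool) → Bool :=
  Nat.rec (fun n k => k [] n) (fun _ ih n k => kN (Nat.land n 8191) fun t =>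
    kB (Nat.beq (Nat.land n 8192) 8192) fun o => kB (Nat.beq (Nat.land n 16384) 16384) fun s =>
    kN (Nat.land (Nat.shiftRight n 15) 33554431) fun w => kN (Nat.shiftRight n 40) fun n =>
    ih n fun l m => k (⟨t, o, s, w⟩ :: l) m) c

theorem rowsD_ex (c : ℕ) : ∀ n k, rowsD c n k = true → ∃ l m, k l m = true := by
  induction c with
  | zero => exact fun _ _ h => ⟨_, _, h⟩
  | succ c ih =>
    intro n k h
    dsimp only [rowsD] at h
    rw [kN_eq, kB_eq, kB_eq, kN_eq, kN_eq] at h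
    obtain ⟨_, _, h⟩ := ih _ _ h
    exact ⟨_, _, h⟩

def trD (f : ℕ) : ℕ → (Tr → ℕ → Bool) → Bool :=
  Nat.rec (fun _ _ => false) (fun _ ih n k => Bool.rec
    (kB (Nat.beq (Nat.land n 2) 2) fun h => kN (Nat.land (Nat.shiftRight n 2) 4095) fun a =>
      kN (Nat.land (Nat.shiftRight n 14) 4095) fun b => kN (Nat.shiftRight n 26) fun n =>
      ih n fun l n => ih n fun r n => k (.node h a b l r) n)
    (kN (Nat.land (Nat.shiftRight n 1) 63) fun c => kN (Nat.shiftRight n 7) fun n =>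
      rowsD c n fun l n => k (.leaf l) n) (Nat.beq (Nat.land n 1) 0)) f

theorem trD_ex (f : ℕ) : ∀ n k, trD f n k = true → ∃ t m, k t m = true := by
  induction f with
  | zero => intro _ _ h; cases h
  | succ f ih =>
    intro n k h
    dsimp only [trD] at h
    cases hb : Nat.beq (Nat.land n 1) 0 <;> rw [hb] at h
    · replace h := (kB_eq _ _).symm.trans h
      rw [kN_eq, kN_eq, kN_eq] at h
      obtain ⟨_, _, h⟩ := ih _ _ h
      obtain ⟨_, _, h⟩ := ih _ _ h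
      exact ⟨_, _, h⟩
    · replace h := (kN_eq _ _).symm.trans h
      rw [kN_eq] at h
      obtain ⟨_, _, h⟩ := rowsD_ex _ _ _ h
      exact ⟨_, _, h⟩

/-- No pair of half structures beats the symmetric convex arc. -/
def Full (A B : ℝ) : Prop :=
  ∀ ρ, 0 ≤ ρ → ∀ L R : Half, AllRows ρ L R A B → ρ * vU A B ≤ L.len + R.len

/-- `(A, B)` lies in one of the strips `a ≤ A`, `b ≤ B ≤ c`. -/
def InZ (z : List (ℕ × ℕ × ℕ)) (A B : ℝ) : Prop :=
  ∃ t ∈ z, ang t.1 ≤ A ∧ ang t.2.1 ≤ B ∧ B ≤ ang t.2.2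

def zoneK (z : List (ℕ × ℕ × ℕ)) (a0 b0 b1 : ℕ) : Bool :=
  List.rec false (fun t _ ih => Nat.ble t.1 a0 && Nat.ble t.2.1 b0 && Nat.ble b1 t.2.2 || ih) z

theorem zoneK_spec {z : List (ℕ × ℕ × ℕ)} {a0 b0 b1 : ℕ} (h : zoneK z a0 b0 b1 = true) {A B : ℝ}
    (h1 : ang a0 ≤ A) (h3 : ang b0 ≤ B) (h4 : B ≤ ang b1) : InZ z A B := by
  induction z with
  | nil => cases h
  | cons t z ih =>
    replace h : (Nat.ble t.1 a0 && Nat.ble t.2.1 b0 && Nat.ble b1 t.2.2 || zoneK z a0 b0 b1)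
      = true := h
    simp only [Bool.or_eq_true, Bool.and_eq_true, Nat.ble_eq] at h
    rcases h with h | h
    · exact ⟨t, List.mem_cons_self, (ang_mono h.1.1).trans h1, (ang_mono h.1.2).trans h3,
        h4.trans (ang_mono h.2)⟩
    · obtain ⟨s, hs, k⟩ := ih h
      exact ⟨s, List.mem_cons_of_mem _ hs, k⟩

def badL (z : List (ℕ × ℕ × ℕ)) (N a0 a1 b0 b1 : ℕ) : Bool :=
  Bool.rec (kN (bits N 0 12) fun g => kN (bits N 12 5) fun n => kN (bits N 17 8) fun c =>
    kN (Nat.shiftRight N 32) fun P => kN (Nat.shiftRight P (Nat.mul 96 (Nat.succ n))) fun I =>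
    kN (Nat.shiftRight I (Nat.mul 32 c)) fun T =>
      Nat.ble a1 768 && Nat.ble (Nat.add a1 b1) 2400 && Nat.ble g 2880 &&
      (Nat.ble 960 g || Nat.ble 800 g && Nat.ble (Nat.add (Nat.mul 2 a1) b1) 2112) &&
      ubK a0 b0 n c P I && kN (Nat.mul (mass P n) 512) fun U =>
        trD 64 T fun t _ => badCheck a1 b1 g U t) (zoneK z a0 b0 b1) (Nat.beq N 0)

theorem badL_ok (z : List (ℕ × ℕ × ℕ)) :
    LeafOK (badL z) fun A B => InZ z A B ∨ ((A ≤ ang 768 → GP A B) → Full A B) := by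
  intro N a0 a1 b0 b1 h A B h1 h2 h3 h4 h5 h6
  unfold badL at h
  cases hb : Nat.beq N 0 <;> rw [hb] at h
  swap
  · exact Or.inl (zoneK_spec h h1.le h3 h4)
  replace h := (kN_eq _ _).symm.trans h
  simp only [kN_eq, Bool.and_eq_true, Bool.or_eq_true, Nat.ble_eq, Nat.add_eq, Nat.mul_eq] at h
  obtain ⟨⟨⟨⟨⟨k1, k2⟩, k3⟩, k4⟩, k5⟩, k6⟩ := h
  obtain ⟨t, -, k6⟩ := trD_ex _ _ _ k6
  have A0 : 0 < A := (ang_nonneg _).trans_lt h1
  have u := ubK_spec k5 h1.le h3 A0 (by linarith) (by linarith)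
  have b := badCheck_sound k6
  refine Or.inr fun gp ρ hρ L R r => ?_
  obtain ⟨g1, g2⟩ := gp (h2.trans (ang_mono k1))
  have e : ang a1 + ang b1 ≤ 5 * π / 6 := by
    have := ang_mono k2
    rw [ang_add, show ang 2400 = 5 * π / 6 by unfold ang; push_cast; ring] at this
    exact this
  have g : GoodAt A B (ang (bits N 0 12)) := by
    rcases k4 with c | c
    · exact g1.mono (ang_nonneg _) (ang_mono c) (ang_le k3)
    · refine (g2 ?_).mono (ang_nonneg _) (ang_mono c.1) (ang_le k3)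
      have := ang_mono c.2
      rw [ang_add, two_mul a1, ang_add] at this
      linarith
  obtain ⟨r1, r2⟩ := r A B le_rfl le_rfl (by linarith)
  refine b.use h2 h4 e (ang_nonneg _) le_rfl (ang_le k3) ?_ hρ r (g ρ L R r1 r2)
  rw [Nat.cast_mul, Nat.cast_ofNat]
  linarith

end

end Pool.Agent.P.MP_d76e6a_co
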