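import Pool.Agent.P.MP_d76e6a_co.GChk

/-!
The check of a box of angles, and subdivisions.
-/

namespace Pool.Agent.P.MP_d76e6a_co

open Real

noncomputable section

theorem sub_one_fun : Sub fun _ => 1 := by
  intro c a b ψ p q hc ha hb e1 e2
  have h1 : c ^ 2 = (a * sin p + b * sin q) ^ 2 + (a * cos p + b * cos q) ^ 2 := by
    rw [← e1, ← e2]
    linear_combination (-c ^ 2) * sin_sq_add_cos_sq ψ
  have h2 : c ^ 2 = a ^ 2 + b ^ 2 + 2 * (a * b) * cos (p - q) := by
    rw [h1, cos_sub]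
    linear_combination a ^ 2 * sin_sq_add_cos_sq p + b ^ 2 * sin_sq_add_cos_sq q
  have h3 := mul_le_mul_of_nonneg_left (cos_le_one (p - q)) (mul_nonneg ha hb)
  have := abs_le_of_sq_le_sq' (show c ^ 2 ≤ (a + b) ^ 2 by nlinarith) (add_nonneg ha hb)
  linarith [this.2]

theorem sin_min {x lo hi : ℝ} (h0 : 0 ≤ lo) (h1 : lo ≤ x) (h2 : x ≤ hi) (h3 : hi ≤ π) :
    min (sin lo) (sin hi) ≤ sin x := by
  rcases le_total x (π / 2) with c | c
  · exact (min_le_left _ _).trans
      (sin_le_sin_of_le_of_le_pi_div_two (by linarith [pi_pos]) c h1)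
  · refine (min_le_right _ _).trans ?_
    rw [← sin_pi_sub hi, ← sin_pi_sub x]
    exact sin_le_sin_of_le_of_le_pi_div_two (by linarith [pi_pos]) (by linarith) (by linarith)

theorem ratio_le {X Y : ℝ} {x y0 y1 : ℕ} (X0 : 0 ≤ X) (Y0 : 0 < Y) (hx : X ≤ ang x)
    (h0 : ang y0 ≤ Y) (h1 : Y ≤ ang y1) (hs : x + y1 < 2880)
    (hp : 0 < mn (sL (x + y0)) (sL (x + y1))) :
    2 ^ 24 * (sin X / sin (X + Y)) ≤ qH (sU x) (mn (sL (x + y0)) (sL (x + y1))) := by
  have e : ang x + ang y1 ≤ π := by rw [← ang_add]; exact ang_le hs.le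
  have y01 : y0 ≤ 2880 - x := by
    have : ang (x + y0) ≤ π := by rw [ang_add]; linarith
    by_contra c
    have := ang_mono (show 2881 ≤ x + y0 by omega)
    have : ang 2881 = π + π / 2880 := by unfold ang; push_cast; ring
    linarith [pi_pos]
  have lt : ang x + ang y1 < π := by
    have := ang_mono (show x + y1 + 1 ≤ 2880 by omega)
    rw [ang_add, ang_add, ang_pi, show ang 1 = π / 2880 by simp [ang]] at this
    linarith [pi_pos]
  have m := sin_min (x := ang x + Y) (lo := ang x + ang y0) (hi := ang x + ang y1)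
    (add_nonneg (ang_nonneg _) (ang_nonneg _)) (by linarith) (by linarith) e
  have s1 : 0 < sin (X + Y) := sin_pos_of_pos_of_lt_pi (by linarith) (by linarith)
  have s2 : 0 < sin (ang x + Y) := sin_pos_of_pos_of_lt_pi (by linarith) (by linarith)
  refine le_trans ?_ (qH_spec (p := sin (ang x)) (q := sin (ang x + Y)) (sU_spec (by omega)) ?_ hp)
  · refine mul_le_mul_of_nonneg_left ?_ (by positivity)
    rw [div_le_div_iff₀ s1 s2]
    have s3 : 0 ≤ sin Y * sin (ang x - X) := mul_nonneg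
      (sin_nonneg_of_nonneg_of_le_pi Y0.le (by linarith))
      (sin_nonneg_of_nonneg_of_le_pi (by linarith) (by linarith))
    simp only [sin_add, sin_sub] at s3 ⊢
    linarith
  · have l0 := sL_spec (k := x + y0) (by omega)
    have l1 := sL_spec (k := x + y1) (by omega)
    rw [ang_add] at l0 l1
    rw [mn_eq, Nat.cast_min]
    rcases min_choice (sin (ang x + ang y0)) (sin (ang x + ang y1)) with c | c <;> rw [c] at m
    · linarith [min_le_left (sL (x + y0) : ℝ) (sL (x + y1))]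
    · linarith [min_le_right (sL (x + y0) : ℝ) (sL (x + y1))]

/-- The required value on an interval of positions, scale `2 ^ 80`. -/
def tK (g a0 a1 b0 b1 s ws wb wa t u : ℕ) : ℕ :=
  kM (omS g (Nat.add (Nat.add t 2880) a0) (Nat.add (Nat.add u 2880) a1)) fun o1 =>
  kM (omS g (Nat.sub (Nat.add t 2880) b1) (Nat.sub (Nat.add u 2880) b0)) fun o2 =>
  kM (mn o1 o2) fun lo => Nat.add 1208925819614629174706176 (Nat.mul s
    (Nat.add (Nat.add (Nat.mul (omS g t u) 16777216) (Nat.mul ws lo))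
      (Nat.add (Nat.mul wb (Nat.sub o1 lo)) (Nat.mul wa (Nat.sub o2 lo)))))

theorem tK_spec {g a0 a1 b0 b1 s ws wb wa t u : ℕ} {A B θ : ℝ} (hg : g ≤ 2880) (ha : a0 ≤ a1)
    (hb : b0 ≤ b1) (hb1 : b1 ≤ 2880) (tu : t ≤ u) (h1 : ang a0 ≤ A) (h2 : A ≤ ang a1)
    (h3 : ang b0 ≤ B) (h4 : B ≤ ang b1) (h5 : ang t ≤ θ) (h6 : θ ≤ ang u)
    (p0 : 0 ≤ sin B / sin (A + B)) (q0 : 0 ≤ sin A / sin (A + B))
    (k1 : 2 ^ 24 * (sin B / sin (A + B) + sin A / sin (A + B)) ≤ ws)
    (k2 : 2 ^ 24 * (sin B / sin (A + B)) ≤ wb) (k3 : 2 ^ 24 * (sin A / sin (A + B)) ≤ wa) :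
    2 ^ 80 * (1 + s / 2 ^ 24 * row A B (om (ang g)) θ) ≤ tK g a0 a1 b0 b1 s ws wb wa t u := by
  have m0 := omS_spec hg tu h5 h6
  have m1 := omS_spec (k0 := t + 2880 + a0) (k1 := u + 2880 + a1) (ψ := θ + π + A) hg (by omega)
    (by rw [ang_add, ang_add, ang_pi]; linarith) (by rw [ang_add, ang_add, ang_pi]; linarith)
  have m2 := omS_spec (k0 := t + 2880 - b1) (k1 := u + 2880 - b0) (ψ := θ + π - B) hg (by omega)
    (by rw [ang_sub (by omega), ang_add, ang_pi]; linarith)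
    (by rw [ang_sub (by omega), ang_add, ang_pi]; linarith)
  simp only [tK, kM_eq, Nat.add_eq, Nat.mul_eq, Nat.sub_eq, mn_eq]
  generalize omS g t u = o0 at m0
  generalize omS g (t + 2880 + a0) (u + 2880 + a1) = o1 at m1
  generalize omS g (t + 2880 - b1) (u + 2880 - b0) = o2 at m2
  have l1 := min_le_left o1 o2
  have l2 := min_le_right o1 o2
  generalize min o1 o2 = lo at l1 l2
  rw [row, add_div, mul_div_right_comm, mul_div_right_comm]
  simp only [Nat.cast_add, Nat.cast_mul, Nat.cast_ofNat, Nat.cast_sub l1, Nat.cast_sub l2]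
  have l1' : (0 : ℝ) ≤ o1 - lo := sub_nonneg.2 (by exact_mod_cast l1)
  have l2' : (0 : ℝ) ≤ o2 - lo := sub_nonneg.2 (by exact_mod_cast l2)
  have j1 := mul_le_mul_of_nonneg_right k1 (Nat.cast_nonneg (α := ℝ) lo)
  have j2 := mul_le_mul_of_nonneg_right k2 l1'
  have j3 := mul_le_mul_of_nonneg_right k3 l2'
  have j4 := mul_le_mul_of_nonneg_left m1 p0
  have j5 := mul_le_mul_of_nonneg_left m2 q0
  have j6 := mul_le_mul_of_nonneg_left (show 2 ^ 56 * (om (ang g) θ
    + (sin B / sin (A + B) * om (ang g) (θ + π + A) + sin A / sin (A + B) * om (ang g) (θ + π - B)))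
    ≤ o0 * 16777216 + ws * lo + (wb * (o1 - lo) + wa * (o2 - lo)) by linarith)
    (Nat.cast_nonneg (α := ℝ) s)
  linarith

def fd (k : ℕ) : ℕ := kM (Nat.mod k 5760) fun g => Bool.rec (Nat.sub 5760 g) g (Nat.ble g 2880)

theorem fd_spec (k : ℕ) : fd k ≤ 2880 ∧ sin (ang (fd k)) = |sin (ang k)| ∧
    cos (ang (fd k)) = cos (ang k) := by
  rw [fd, kM_eq, ang_mod k, sin_add_nat_mul_two_pi, cos_add_nat_mul_two_pi]
  have g1 : k % 5760 < 5760 := Nat.mod_lt _ (by norm_num)
  change _ ≤ 2880 ∧ sin (ang (Bool.rec (5760 - k % 5760) (k % 5760) (Nat.ble (k % 5760) 2880))) = _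
    ∧ cos (ang (Bool.rec (5760 - k % 5760) (k % 5760) (Nat.ble (k % 5760) 2880))) = _
  change Bool.rec (5760 - k % 5760) (k % 5760) (Nat.ble (k % 5760) 2880) ≤ 2880 ∧ _
  generalize k % 5760 = g at g1
  cases c : Nat.ble g 2880
  · have c' : ¬g ≤ 2880 := by rw [← Nat.ble_eq, c]; simp
    have e : ang (5760 - g) = 2 * π - ang g := by
      rw [ang_sub g1.le]; unfold ang; push_cast; ring
    have s := sin_ang_nonneg (k := 5760 - g) (by omega)
    change 5760 - g ≤ 2880 ∧ sin (ang (5760 - g)) = _ ∧ cos (ang (5760 - g)) = _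
    rw [e, sin_two_pi_sub] at s
    rw [e, sin_two_pi_sub, cos_two_pi_sub, abs_of_nonpos (by linarith)]
    exact ⟨by omega, rfl, rfl⟩
  · have c' : g ≤ 2880 := Nat.le_of_ble_eq_true c
    exact ⟨c', (abs_of_nonneg (sin_ang_nonneg c')).symm, rfl⟩

theorem ker_le {c : ℕ} (hc : c ≤ 1440) (k : ℕ) : 2 ^ 32 * ker (ang c) (ang k) ≤ sU (fd k - c) := by
  obtain ⟨f1, f2, f3⟩ := fd_spec k
  refine le_trans (mul_le_mul_of_nonneg_left ?_ (by positivity)) (sU_spec (by omega))
  rw [ker, ← f2, ← f3, ← sin_sub]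
  refine max_le (sin_ang_nonneg (by omega)) ?_
  rcases le_total c (fd k) with d | d
  · rw [ang_sub d]
  · have := sin_ang_nonneg (k := c - fd k) (by omega)
    rw [ang_sub d, ← neg_sub, sin_neg] at this
    rw [Nat.sub_eq_zero_of_le d, show ang 0 = 0 by simp [ang], sin_zero]
    linarith

def dT (D : ℕ) : ℕ := Nat.land D 8191
def dM (D : ℕ) : ℕ := Nat.land (Nat.shiftRight D 13) 134217727

def dsum (a b wb wa c r : ℕ) : ℕ → ℕ :=
  Nat.rec (fun _ => 0) (fun _ ih D => kM (dT D) fun t => kM (Nat.shiftRight D 40) fun E =>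
    Nat.add (Nat.mul (dM D) (Nat.add (Nat.mul 16777216 (sU (Nat.sub (fd t) c)))
      (Nat.add (Nat.mul wb (sU (Nat.sub (fd (Nat.add (Nat.add t 2880) a)) c)))
        (Nat.mul wa (sU (Nat.sub (fd (Nat.sub (Nat.add t 2880) b)) c)))))) (ih E)) r

def dW (r : ℕ) : ℕ → ℕ :=
  Nat.rec (fun _ => 0) (fun _ ih D => Nat.add (dM D) (ih (Nat.shiftRight D 40))) r

def drows (r : ℕ) : ℕ → List (ℝ × ℝ) :=
  Nat.rec (fun _ => []) (fun _ ih D => ((dM D : ℝ), ang (dT D)) :: ih (Nat.shiftRight D 40)) r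

theorem drows_spec (r : ℕ) : ∀ D, (∀ p ∈ drows r D, 0 ≤ p.1) ∧
    ((drows r D).map Prod.fst).sum = dW r D := by
  induction r with
  | zero => intro D; simp [drows, dW]
  | succ r ih =>
    intro D
    obtain ⟨i1, i2⟩ := ih (Nat.shiftRight D 40)
    change (∀ p ∈ ((dM D : ℝ), ang (dT D)) :: drows r (Nat.shiftRight D 40), 0 ≤ p.1) ∧
      ((((dM D : ℝ), ang (dT D)) :: drows r (Nat.shiftRight D 40)).map Prod.fst).sum =
        ((dM D + dW r (Nat.shiftRight D 40) : ℕ) : ℝ)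
    rw [List.forall_mem_cons, List.map_cons, List.sum_cons, i2, Nat.cast_add]
    exact ⟨⟨Nat.cast_nonneg _, i1⟩, rfl⟩

theorem dsum_spec {a b wb wa c : ℕ} (hc : c ≤ 1440) (hb : b ≤ 2880)
    (k2 : 2 ^ 24 * (sin (ang b) / sin (ang a + ang b)) ≤ wb)
    (k3 : 2 ^ 24 * (sin (ang a) / sin (ang a + ang b)) ≤ wa) (r : ℕ) : ∀ D,
    2 ^ 56 * ((drows r D).map fun p => p.1 * gain (ang a) (ang b) (ang c) p.2).sum
      ≤ dsum a b wb wa c r D := by
  induction r with
  | zero => intro D; simp [drows, dsum]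
  | succ r ih =>
    intro D
    have i := ih (Nat.shiftRight D 40)
    change 2 ^ 56 * ((((dM D : ℝ), ang (dT D)) :: drows r (Nat.shiftRight D 40)).map fun p =>
      p.1 * gain (ang a) (ang b) (ang c) p.2).sum ≤ ((kM (dT D) fun t =>
      kM (Nat.shiftRight D 40) fun E => dM D * (16777216 * sU (fd t - c) +
        (wb * sU (fd (t + 2880 + a) - c) + wa * sU (fd (t + 2880 - b) - c))) +
        dsum a b wb wa c r E : ℕ) : ℝ)
    rw [kM_eq, kM_eq, List.map_cons, List.sum_cons]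
    simp only [Nat.cast_add, Nat.cast_mul, Nat.cast_ofNat]
    have m0 := ker_le hc (dT D)
    have m1 := ker_le hc (dT D + 2880 + a)
    have m2 := ker_le hc (dT D + 2880 - b)
    rw [ang_add, ang_add, ang_pi] at m1
    rw [ang_sub (by omega), ang_add, ang_pi] at m2
    have j1 := mul_le_mul k2 m1 (mul_nonneg (by positivity) (ker_nonneg _ _)) (Nat.cast_nonneg _)
    have j2 := mul_le_mul k3 m2 (mul_nonneg (by positivity) (ker_nonneg _ _)) (Nat.cast_nonneg _)
    have j3 := mul_le_mul_of_nonneg_left (show 2 ^ 56 * gain (ang a) (ang b) (ang c) (ang (dT D)) ≤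
      16777216 * sU (fd (dT D) - c) + (wb * sU (fd (dT D + 2880 + a) - c)
        + wa * sU (fd (dT D + 2880 - b) - c)) by
          rw [gain, add_div, mul_div_right_comm, mul_div_right_comm]
          linarith) (Nat.cast_nonneg (α := ℝ) (dM D))
    linarith

def allN (p : ℕ → Bool) (n : ℕ) : Bool := Nat.rec true (fun j ih => p j && ih) n

theorem allN_spec {p : ℕ → Bool} {n : ℕ} (h : allN p n = true) : ∀ j < n, p j = true := by
  induction n with
  | zero => intro j hj; omega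
  | succ n ih =>
    replace h : (p n && allN p n) = true := h
    rw [Bool.and_eq_true] at h
    intro j hj
    rcases eq_or_lt_of_le (Nat.le_of_lt_succ hj) with e | e
    · exact e ▸ h.1
    · exact ih h.2 j e

theorem ker_interp {x y γ : ℝ} (h1 : x ≤ γ) (h2 : γ ≤ y) (h3 : y - x ≤ π) (ψ : ℝ) :
    sin (y - x) * ker γ ψ ≤ sin (y - γ) * ker x ψ + sin (γ - x) * ker y ψ := by
  have s1 : 0 ≤ sin (y - x) := sin_nonneg_of_nonneg_of_le_pi (by linarith) h3
  have s2 : 0 ≤ sin (y - γ) := sin_nonneg_of_nonneg_of_le_pi (by linarith) (by linarith)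
  have s3 : 0 ≤ sin (γ - x) := sin_nonneg_of_nonneg_of_le_pi (by linarith) (by linarith)
  conv_lhs => rw [ker, mul_max_of_nonneg _ _ s1, mul_zero]
  refine max_le (add_nonneg (mul_nonneg s2 (ker_nonneg _ _)) (mul_nonneg s3 (ker_nonneg _ _))) ?_
  refine le_trans (le_of_eq ?_) (add_le_add (mul_le_mul_of_nonneg_left (le_max_right _ _) s2)
    (mul_le_mul_of_nonneg_left (le_max_right _ _) s3))
  simp only [sin_sub]
  ring

theorem sum_interp {A B x y γ : ℝ} (hA : 0 ≤ sin A) (hB : 0 ≤ sin B) (hC : 0 ≤ sin (A + B))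
    (h1 : x ≤ γ) (h2 : γ ≤ y) (h3 : y - x ≤ π) (l : List (ℝ × ℝ)) (hl : ∀ p ∈ l, 0 ≤ p.1) :
    sin (y - x) * (l.map fun p => p.1 * gain A B γ p.2).sum ≤
      sin (y - γ) * (l.map fun p => p.1 * gain A B x p.2).sum
        + sin (γ - x) * (l.map fun p => p.1 * gain A B y p.2).sum := by
  induction l with
  | nil => simp
  | cons p l ih =>
    have i := ih fun q hq => hl q (List.mem_cons_of_mem _ hq)
    simp only [List.map_cons, List.sum_cons]
    have k0 := ker_interp h1 h2 h3 p.2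
    have k1 := mul_le_mul_of_nonneg_left (ker_interp h1 h2 h3 (p.2 + π + A)) (div_nonneg hB hC)
    have k2 := mul_le_mul_of_nonneg_left (ker_interp h1 h2 h3 (p.2 + π - B)) (div_nonneg hA hC)
    have k3 := mul_le_mul_of_nonneg_left (show sin (y - x) * gain A B γ p.2 ≤
      sin (y - γ) * gain A B x p.2 + sin (γ - x) * gain A B y p.2 by
        simp only [gain, add_div, mul_div_right_comm]
        linarith) (hl p List.mem_cons_self)
    linarith

/-- The mixed strategy `D` with `r` positions shows `gval * m ≤ 2 ^ 24`. -/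
def dualK (a b m r D : ℕ) : Bool :=
  kN (sL (Nat.add a b)) fun y => Nat.blt 0 y && kN (qH (sU b) y) fun wb => kN (qH (sU a) y) fun wa =>
    kN (dW r D) fun W => Nat.blt 0 W &&
      kN (Nat.div (Nat.mul W 1207716893795014545531469824) (Nat.mul 1000 m)) fun Q =>
      allN (fun j => kN (Nat.mul 80 j) fun c => Nat.ble (dsum a b wb wa c r D) Q) 19

theorem dualK_spec {a b m r D : ℕ} (h : dualK a b m r D = true) (hab : a + b < 2880) {A B : ℝ}
    (A0 : 0 < A) (B0 : 0 < B) (ha : A ≤ ang a) (hb : B ≤ ang b) : gval A B * m ≤ 2 ^ 24 := by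
  simp only [dualK, kN_eq, Bool.and_eq_true, Nat.blt_eq, Nat.add_eq, Nat.mul_eq] at h
  obtain ⟨y0, W0, h⟩ := h
  have hpi := pi_pos
  have l := sL_spec hab.le
  have lt : ang a + ang b < π := by
    have := ang_mono (show a + b + 1 ≤ 2880 by omega)
    rw [ang_add, ang_add, ang_pi, show ang 1 = π / 2880 by simp [ang]] at this
    linarith
  rw [ang_add] at l
  have k2 := qH_spec (sU_spec (k := b) (by omega)) l y0
  have k3 := qH_spec (sU_spec (k := a) (by omega)) l y0
  have q : Nat.div (dW r D * 1207716893795014545531469824) (1000 * m) * (1000 * m) ≤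
    dW r D * 1207716893795014545531469824 := Nat.div_mul_le_self _ _
  generalize Nat.div (dW r D * 1207716893795014545531469824) (1000 * m) = Q at h q
  have q' : (Q : ℝ) * (1000 * m) ≤ dW r D * 1207716893795014545531469824 := by
    have := (Nat.cast_le (α := ℝ)).2 q
    rwa [Nat.cast_mul, Nat.cast_mul, Nat.cast_mul, Nat.cast_ofNat, Nat.cast_ofNat] at this
  clear q
  obtain ⟨d1, d2⟩ := drows_spec r D
  have W1 : (0 : ℝ) < dW r D := by exact_mod_cast W0
  have grid : ∀ j ≤ 18, 2 ^ 56 * ((drows r D).map fun p =>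
      p.1 * gain (ang a) (ang b) (ang (80 * j)) p.2).sum ≤ Q := fun j hj => by
    have := allN_spec h j (by omega)
    rw [Nat.ble_eq] at this
    exact (dsum_spec (by omega) (by omega) k2 k3 r D).trans (by exact_mod_cast this)
  have Q0 : (0 : ℝ) ≤ Q := Nat.cast_nonneg _
  clear h y0 W0
  have G : gval A B ≤ Q * 1000 / (2 ^ 56 * 999 * dW r D) := by
    refine gval_le (sin_nonneg_of_nonneg_of_le_pi A0.le (by linarith))
      (sin_nonneg_of_nonneg_of_le_pi B0.le (by linarith))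
      (sin_nonneg_of_nonneg_of_le_pi (by linarith) (by linarith)) _ d1 (by rwa [d2])
      fun γ g0 g1 => ?_
    have up : ((drows r D).map fun p => p.1 * gain A B γ p.2).sum ≤
        ((drows r D).map fun p => p.1 * gain (ang a) (ang b) γ p.2).sum :=
      List.sum_le_sum fun p hp => mul_le_mul_of_nonneg_left (row_mono (kv_sub
        (cos_nonneg_of_neg_pi_div_two_le_of_le (by linarith) g1) (sin γ)) A0.le B0.le (by linarith)
        ha hb lt p.2) (d1 p hp)
    refine up.trans ?_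
    obtain ⟨j, j1, j2, j3⟩ : ∃ j : ℕ, j ≤ 17 ∧ ang (80 * j) ≤ γ ∧ γ ≤ ang (80 * (j + 1)) := by
      have u : 0 < π / 36 := by positivity
      have f1 := (le_div_iff₀ u).1 (Nat.floor_le (div_nonneg g0 u.le))
      have f2 := (div_lt_iff₀ u).1 (Nat.lt_floor_add_one (γ / (π / 36)))
      rcases le_or_gt ⌊γ / (π / 36)⌋₊ 17 with c | c
      · refine ⟨_, c, ?_, ?_⟩ <;> unfold ang <;> push_cast <;> linarith
      · have c' : (18 : ℝ) ≤ ⌊γ / (π / 36)⌋₊ := by exact_mod_cast c
        have := mul_le_mul_of_nonneg_right c' u.le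
        refine ⟨17, le_rfl, ?_, ?_⟩ <;> unfold ang <;> push_cast <;> linarith
    have dl : ang (80 * (j + 1)) - ang (80 * j) = 2 * (π / 72) := by unfold ang; push_cast; ring
    have i := sum_interp (sin_ang_nonneg (k := a) (by omega)) (sin_ang_nonneg (k := b) (by omega))
      (sin_nonneg_of_nonneg_of_le_pi (by linarith) lt.le) j2 j3 (by linarith) _ d1
    have s2 : 0 ≤ sin (ang (80 * (j + 1)) - γ) :=
      sin_nonneg_of_nonneg_of_le_pi (by linarith) (by linarith)
    have s3 : 0 ≤ sin (γ - ang (80 * j)) :=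
      sin_nonneg_of_nonneg_of_le_pi (by linarith) (by linarith)
    have i2 := mul_le_mul_of_nonneg_left (grid j (by omega)) s2
    have i3 := mul_le_mul_of_nonneg_left (grid (j + 1) (by omega)) s3
    have s0 : 0 < sin (π / 72) := sin_pos_of_pos_of_lt_pi (by positivity) (by linarith)
    have s4 : sin (ang (80 * (j + 1)) - γ) + sin (γ - ang (80 * j)) ≤ 2 * sin (π / 72) := by
      rw [sin_add_sin, show (ang (80 * (j + 1)) - γ + (γ - ang (80 * j))) / 2 = π / 72 by linarith]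
      exact mul_le_of_le_one_right (by positivity) (cos_le_one _)
    have s5 : 999 / 1000 ≤ cos (π / 72) := by
      refine le_trans ?_ one_sub_sq_div_two_le_cos
      nlinarith [pi_lt_d2]
    rw [dl, sin_two_mul] at i
    set S := ((drows r D).map fun p => p.1 * gain (ang a) (ang b) γ p.2).sum
    have i4 := mul_le_mul_of_nonneg_right s4 Q0
    have i5 : 2 ^ 56 * (cos (π / 72) * S) ≤ Q :=
      le_of_mul_le_mul_left (a := 2 * sin (π / 72)) (by linarith) (by positivity)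
    rw [d2, show (dW r D : ℝ) * (Q * 1000 / (2 ^ 56 * 999 * dW r D)) = Q * 1000 / (2 ^ 56 * 999) by
      field_simp, le_div_iff₀ (by positivity)]
    rcases le_total 0 S with c | c
    · linarith [mul_le_mul_of_nonneg_right s5 c]
    · linarith
  refine (mul_le_mul_of_nonneg_right G (Nat.cast_nonneg m)).trans ?_
  rw [div_mul_eq_mul_div, div_le_iff₀ (by positivity)]
  linarith

def goodK (a0 a1 b0 b1 g s n c r P I D : ℕ) : Bool :=
  Nat.ble a0 a1 && Nat.ble b0 b1 && Nat.blt (Nat.add a1 b1) 2880 && Nat.ble g 2880 && Nat.blt 0 s &&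
  polyK P n && dualK a1 b1 (Nat.sub (mass P n) s) r D &&
  kN (mn (sL (Nat.add b1 a0)) (sL (Nat.add b1 a1))) fun mb =>
  kN (mn (sL (Nat.add a1 b0)) (sL (Nat.add a1 b1))) fun ma => Nat.blt 0 mb && Nat.blt 0 ma &&
  kN (qH (Nat.add (sU b1) (sU a1)) (sL (Nat.add a1 b1))) fun ws =>
  kN (mn 16777216 (qH (sU b1) mb)) fun wb =>
  kN (mn (Nat.succ (Nat.div ws 2)) (qH (sU a1) ma)) fun wa =>
  kN (lw1 a0 b0) fun W1 => kN (lw2 a0 b0) fun W2 => kN (Nat.add 2880 a0) fun d1 =>
  kN (Nat.sub 2880 b0) fun d2 => ivK P n W1 W2 d1 d2 (tK g a0 a1 b0 b1 s ws wb wa) c I 0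

theorem goodK_spec {a0 a1 b0 b1 g s n c r P I D : ℕ} (h : goodK a0 a1 b0 b1 g s n c r P I D = true)
    {A B : ℝ} (h1 : ang a0 ≤ A) (h2 : A ≤ ang a1) (h3 : ang b0 ≤ B) (h4 : B ≤ ang b1) (A0 : 0 < A)
    (AB : A ≤ B) (BC : A + 2 * B ≤ π) : GoodAt A B (ang g) := by
  simp only [goodK, kN_eq, Bool.and_eq_true, Nat.ble_eq, Nat.blt_eq, Nat.add_eq, Nat.sub_eq] at h
  obtain ⟨⟨⟨⟨⟨⟨⟨k1, k2⟩, k3⟩, k4⟩, k5⟩, k6⟩, k7⟩, ⟨k8, k9⟩, h⟩ := h
  have hpi := pi_pos
  have B0 : 0 < B := by linarith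
  have hπ : A + B < π := by linarith
  obtain ⟨F, c1, c2, c3⟩ := polyK_spec _ _ k6
  have G := dualK_spec k7 k3 A0 B0 h2 h4
  have sA : 0 < sin A := sin_pos_of_pos_of_lt_pi A0 (by linarith)
  have sC : 0 < sin (A + B) := sin_pos_of_pos_of_lt_pi (by linarith) hπ
  have sAB : sin A ≤ sin B := sin_le_sin_of_le_of_le_pi_div_two (by linarith) (by linarith) AB
  have sBC : sin B ≤ sin (A + B) := by
    have := sin_min (x := A + B) (lo := B) (hi := π - B) B0.le (by linarith) (by linarith)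
      (by linarith)
    rwa [sin_pi_sub, min_self] at this
  have lt : ang a1 + ang b1 < π := by
    have := ang_mono (show a1 + b1 + 1 ≤ 2880 by omega)
    rw [ang_add, ang_add, ang_pi, show ang 1 = π / 2880 by simp [ang]] at this
    linarith
  have u1 : 2 ^ 24 * (sin B / sin (A + B) + sin A / sin (A + B)) ≤
      qH (sU b1 + sU a1) (sL (a1 + b1)) := by
    have r := row_mono sub_one_fun A0.le B0.le (by linarith) h2 h4 lt 0
    simp only [row, mul_one] at r
    have l := sL_spec k3.le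
    rw [ang_add] at l
    refine le_trans ?_ (qH_spec (p := sin (ang b1) + sin (ang a1)) ?_ l
      (k9.trans_le (by rw [mn_eq]; exact min_le_right _ _)))
    · rw [← add_div]
      linarith
    · rw [Nat.cast_add]
      linarith [sU_spec (k := a1) (by omega), sU_spec (k := b1) (by omega)]
  have u2 := ratio_le B0.le A0 h4 h1 h2 (by omega) k8
  have u3 := ratio_le A0.le B0 h2 h3 h4 k3 k9
  rw [add_comm B A] at u2
  refine good_of_sec (s := s / 2 ^ 24) A0 B0 hπ (ang_nonneg g) (ang_le k4) c1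
    (div_pos (by exact_mod_cast k5) (by positivity)) (fun θ => ?_) ?_
  · obtain ⟨x, k, x0, x1, rfl⟩ := red_two_pi θ
    rw [row_per fun x y => c1.even, row_per fun x y e1 e2 => by simp only [om, e1, e2]]
    obtain ⟨t, u, tu, t1, t2, k⟩ := ivK_spec c3 _ _ _ h x (by simpa [ang] using x0) x1
    have v := tK_spec (s := s) k4 k1 k2 (by omega) tu h1 h2 h3 h4 t1 t2
      (div_nonneg (by linarith) sC.le) (div_nonneg sA.le sC.le) u1
      (wb := mn 16777216 (qH (sU b1) (mn (sL (b1 + a0)) (sL (b1 + a1))))) (by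
        rw [mn_eq, Nat.cast_min, Nat.cast_ofNat]
        exact le_min (by linarith [(div_le_one sC).2 sBC]) u2)
      (wa := mn (Nat.succ (Nat.div (qH (sU b1 + sU a1) (sL (a1 + b1))) 2))
        (qH (sU a1) (mn (sL (a1 + b0)) (sL (a1 + b1))))) (by
        rw [mn_eq, Nat.cast_min]
        refine le_min ?_ u3
        generalize qH (sU b1 + sU a1) (sL (a1 + b1)) = w at u1
        have e : w ≤ 2 * Nat.succ (Nat.div w 2) := by
          change w ≤ 2 * (w / 2 + 1)
          omega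
        have e' := (Nat.cast_le (α := ℝ)).2 e
        rw [Nat.cast_mul, Nat.cast_ofNat] at e'
        linarith [div_le_div_of_nonneg_right sAB sC.le])
    linarith [low_row c1 c2 h1 h3 A0 B0 hπ x]
  · have := mul_le_mul_of_nonneg_left (cast_sub_ge (mass P n) s) (gval_pos A0 B0 hπ).le
    linarith

/-- Subdivisions of a box. -/
inductive KT where
  | skip : KT
  | leaf (n : ℕ) : KT
  | node (h : Bool) (m : ℕ) (l r : KT) : KT

/-- `P` holds for the angles `A ≤ B ≤ C` in the box. -/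
def Cv (P : ℝ → ℝ → Prop) (a0 a1 b0 b1 : ℕ) : Prop :=
  ∀ A B, ang a0 < A → A ≤ ang a1 → ang b0 < B → B ≤ ang b1 → A ≤ B → A + 2 * B ≤ π → P A B

theorem Cv.sa {P : ℝ → ℝ → Prop} {a0 m a1 b0 b1 : ℕ} (l : Cv P a0 m b0 b1) (r : Cv P m a1 b0 b1) :
    Cv P a0 a1 b0 b1 := fun A B h1 h2 =>
  (le_or_gt A (ang m)).elim (fun h => l A B h1 h) fun h => r A B h h2

theorem Cv.sb {P : ℝ → ℝ → Prop} {a0 a1 b0 m b1 : ℕ} (l : Cv P a0 a1 b0 m) (r : Cv P a0 a1 m b1) :
    Cv P a0 a1 b0 b1 := fun A B h1 h2 h3 h4 =>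
  (le_or_gt B (ang m)).elim (fun h => l A B h1 h2 h3 h) fun h => r A B h1 h2 h h4

def ktK (f : ℕ → ℕ → ℕ → ℕ → ℕ → Bool) (t : KT) : ℕ → ℕ → ℕ → ℕ → Bool :=
  KT.rec (fun a0 _ b0 b1 => Nat.ble b1 a0 || Nat.ble 2880 (Nat.add a0 (Nat.mul 2 b0)))
    (fun n a0 a1 b0 b1 => kN (mn a1 b1) fun a1 => kN (mx b0 a0) fun b0 =>
      kN (mn b1 (Nat.div (Nat.sub 2881 a0) 2)) fun b1 => f n a0 a1 b0 b1)
    (fun h m _ _ il ir a0 a1 b0 b1 => Bool.rec (il a0 a1 b0 m && ir a0 a1 m b1)
      (il a0 m b0 b1 && ir m a1 b0 b1) h) t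

/-- The meaning of a check of leaves. -/
def LeafOK (f : ℕ → ℕ → ℕ → ℕ → ℕ → Bool) (P : ℝ → ℝ → Prop) : Prop :=
  ∀ n a0 a1 b0 b1, f n a0 a1 b0 b1 = true → ∀ A B, ang a0 < A → A ≤ ang a1 → ang b0 ≤ B →
    B ≤ ang b1 → A ≤ B → A + 2 * B ≤ π → P A B

theorem ktK_spec {f : ℕ → ℕ → ℕ → ℕ → ℕ → Bool} {P : ℝ → ℝ → Prop} (hf : LeafOK f P) (t : KT) :
    ∀ {a0 a1 b0 b1}, ktK f t a0 a1 b0 b1 = true → Cv P a0 a1 b0 b1 := by
  induction t with
  | skip =>
    intro a0 a1 b0 b1 h A B h1 h2 h3 h4 h5 h6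
    replace h : (Nat.ble b1 a0 || Nat.ble 2880 (Nat.add a0 (Nat.mul 2 b0))) = true := h
    simp only [Bool.or_eq_true, Nat.ble_eq, Nat.add_eq, Nat.mul_eq] at h
    rcases h with h | h
    · linarith [ang_mono h]
    · have := ang_mono h
      rw [ang_add, two_mul b0, ang_add, ang_pi] at this
      linarith
  | leaf n =>
    intro a0 a1 b0 b1 h A B h1 h2 h3 h4 h5 h6
    replace h : (kN (mn a1 b1) fun a1 => kN (mx b0 a0) fun b0 =>
      kN (mn b1 (Nat.div (Nat.sub 2881 a0) 2)) fun b1 => f n a0 a1 b0 b1) = true := h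
    rw [kN_eq, kN_eq, kN_eq, mn_eq, mn_eq, mx_eq] at h
    refine hf _ _ _ _ _ h A B h1 ?_ ?_ ?_ h5 h6
    · rcases min_choice a1 b1 with e | e <;> rw [e] <;> linarith
    · rcases max_choice b0 a0 with e | e <;> rw [e] <;> linarith
    · rcases min_choice b1 (Nat.div (Nat.sub 2881 a0) 2) with e | e <;> rw [e]
      · exact h4
      · have := ang_mono (show 2880 ≤ a0 + ((2881 - a0) / 2 + (2881 - a0) / 2) by omega)
        rw [ang_add, ang_add, ang_pi] at this
        change B ≤ ang ((2881 - a0) / 2)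
        linarith
  | node h m l r il ir =>
    intro a0 a1 b0 b1 k
    cases h
    · replace k : (ktK f l a0 a1 b0 m && ktK f r a0 a1 m b1) = true := k
      rw [Bool.and_eq_true] at k
      exact (il k.1).sb (ir k.2)
    · replace k : (ktK f l a0 m b0 b1 && ktK f r m a1 b0 b1) = true := k
      rw [Bool.and_eq_true] at k
      exact (il k.1).sa (ir k.2)

def bits (N o w : ℕ) : ℕ := Nat.mod (Nat.shiftRight N o) (Nat.shiftLeft 1 w)

def goodL (N a0 a1 b0 b1 : ℕ) : Bool :=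
  kN (bits N 0 12) fun g => kN (bits N 12 28) fun s => kN (bits N 40 5) fun n =>
  kN (bits N 45 8) fun c => kN (bits N 53 6) fun r => kN (Nat.shiftRight N 64) fun P =>
  kN (Nat.shiftRight P (Nat.mul 96 (Nat.succ n))) fun I => kN (Nat.shiftRight I (Nat.mul 32 c)) fun D =>
    (Nat.ble g 800 || Nat.ble g 960 && Nat.ble 2112 (Nat.add (Nat.mul 2 a0) b0)) &&
      goodK a0 a1 b0 b1 g s n c r P I D

/-- The class of curves that meet the direction `60°`, or `50°`, before the bottom. -/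
def GP (A B : ℝ) : Prop :=
  GoodAt A B (ang 960) ∧ (2 * A + B ≤ ang 2112 → GoodAt A B (ang 800))

theorem goodL_ok : LeafOK goodL GP := by
  intro N a0 a1 b0 b1 h A B h1 h2 h3 h4 h5 h6
  simp only [goodL, kN_eq, Bool.and_eq_true, Bool.or_eq_true, Nat.ble_eq, Nat.add_eq,
    Nat.mul_eq] at h
  have g := goodK_spec h.2 h1.le h2 h3 h4 ((ang_nonneg _).trans_lt h1) h5 h6
  rcases h.1 with c | c
  · have g8 := g.mono (ang_nonneg _) (ang_mono c) (ang_le (by norm_num))
    exact ⟨g8.mono (ang_nonneg _) (ang_mono (by norm_num)) (ang_le (by norm_num)), fun _ => g8⟩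
  · refine ⟨g.mono (ang_nonneg _) (ang_mono c.1) (ang_le (by norm_num)), fun k => ?_⟩
    have := ang_mono c.2
    rw [ang_add (2 * a0), two_mul a0, ang_add] at this
    linarith

end

end Pool.Agent.P.MP_d76e6a_co
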