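import Pool.Agent.P.MP_d76e6a_co.GPrim
import Pool.Agent.P.MP_d76e6a_co.GTab

/-!
Checkers for approximate certificates of the game: polygons, intervals of positions, mixed
strategies. Lengths have scale `2 ^ 24`.
-/

namespace Pool.Agent.P.MP_d76e6a_co

open Real

noncomputable section

def kN (n : ℕ) (k : ℕ → Bool) : Bool := Nat.rec (k 0) (fun m _ => k (Nat.succ m)) n
def kM (n : ℕ) (k : ℕ → ℕ) : ℕ := Nat.rec (k 0) (fun m _ => k (Nat.succ m)) n

theorem kN_eq (n : ℕ) (k : ℕ → Bool) : kN n k = k n := by cases n <;> rfl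
theorem kM_eq (n : ℕ) (k : ℕ → ℕ) : kM n k = k n := by cases n <;> rfl

def mn (a b : ℕ) : ℕ := Nat.sub a (Nat.sub a b)
def mx (a b : ℕ) : ℕ := Nat.add a (Nat.sub b a)

theorem mn_eq (a b : ℕ) : mn a b = min a b := by
  simp only [mn, Nat.sub_eq]; omega

theorem mx_eq (a b : ℕ) : mx a b = max a b := by
  simp only [mx, Nat.sub_eq, Nat.add_eq]; omega

/-- Field `o` of vertex `i`. -/
def vf (P o i : ℕ) : ℕ := Nat.land (Nat.shiftRight P (Nat.add (Nat.mul 96 i) o)) 4294967295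

def polyK (P n : ℕ) : Bool :=
  Nat.rec (Nat.beq (vf P 0 0) 0 && Nat.beq (vf P 32 0) 0) (fun i ih =>
    (kN (vf P 0 i) fun x => kN (vf P 0 (Nat.succ i)) fun x' => kN (vf P 32 i) fun y =>
      kN (vf P 32 (Nat.succ i)) fun y' => kN (vf P 64 (Nat.succ i)) fun l =>
      Nat.ble x x' && Nat.ble y y' && Nat.ble (Nat.add (Nat.mul (Nat.sub x' x) (Nat.sub x' x))
        (Nat.mul (Nat.sub y' y) (Nat.sub y' y))) (Nat.mul l l)) && ih) n

def mass (P n : ℕ) : ℕ := Nat.rec 0 (fun i ih => Nat.add ih (vf P 64 (Nat.succ i))) n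

theorem polyK_spec (P n : ℕ) (h : polyK P n = true) : ∃ F, Cone F (mass P n / 2 ^ 24) ∧
    (∀ ψ, 0 ≤ F ψ) ∧
    ∀ i ≤ n, ∀ ψ, |sin ψ| * vf P 0 i - cos ψ * vf P 32 i ≤ 2 ^ 24 * F ψ := by
  induction n with
  | zero =>
    replace h : (Nat.beq (vf P 0 0) 0 && Nat.beq (vf P 32 0) 0) = true := h
    rw [Bool.and_eq_true, Nat.beq_eq, Nat.beq_eq] at h
    refine ⟨_, Cone.zero.mono (by positivity), fun _ => le_rfl, fun i hi ψ => ?_⟩
    rw [Nat.le_zero.1 hi, h.1, h.2]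
    simp
  | succ n ih =>
    replace h : ((kN (vf P 0 n) fun x => kN (vf P 0 (Nat.succ n)) fun x' => kN (vf P 32 n) fun y =>
      kN (vf P 32 (Nat.succ n)) fun y' => kN (vf P 64 (Nat.succ n)) fun l =>
      Nat.ble x x' && Nat.ble y y' && Nat.ble (Nat.add (Nat.mul (Nat.sub x' x) (Nat.sub x' x))
        (Nat.mul (Nat.sub y' y) (Nat.sub y' y))) (Nat.mul l l)) && polyK P n) = true := h
    simp only [kN_eq, Bool.and_eq_true, Nat.ble_eq, Nat.add_eq, Nat.mul_eq, Nat.sub_eq,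
      Nat.succ_eq_add_one] at h
    obtain ⟨⟨⟨h1, h2⟩, h3⟩, h4⟩ := h
    obtain ⟨F, c1, c2, c3⟩ := ih h4
    have em : ((mass P (n + 1) : ℕ) : ℝ) = mass P n + vf P 64 (n + 1) := Nat.cast_add _ _
    have h3' := (Nat.cast_le (α := ℝ)).2 h3
    rw [Nat.cast_add, Nat.cast_mul, Nat.cast_mul, Nat.cast_mul, Nat.cast_sub h1,
      Nat.cast_sub h2] at h3'
    have h1' := (Nat.cast_le (α := ℝ)).2 h1
    have h2' := (Nat.cast_le (α := ℝ)).2 h2
    have one : Cone (kv ((vf P 0 (n + 1) : ℝ) - vf P 0 n) ((vf P 32 (n + 1) : ℝ) - vf P 32 n))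
        (vf P 64 (n + 1)) := Cone.one (by linarith) (by linarith)
      (sqrt_le_iff.2 ⟨Nat.cast_nonneg _, by linarith⟩)
    refine ⟨_, (c1.add (one.mul (c := 1 / 2 ^ 24) (by positivity))).mono (le_of_eq ?_),
      fun ψ => add_nonneg (c2 ψ) (mul_nonneg (by positivity) (kv_nonneg _ _ _)), fun i hi ψ => ?_⟩
    · rw [em]; ring
    · rcases eq_or_lt_of_le hi with e | e
      · rw [e]
        linarith [c3 n le_rfl ψ, kv_ge ((vf P 0 (n + 1) : ℝ) - vf P 0 n)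
          ((vf P 32 (n + 1) : ℝ) - vf P 32 n) ψ]
      · linarith [c3 i (Nat.le_of_lt_succ e) ψ, kv_nonneg ((vf P 0 (n + 1) : ℝ) - vf P 0 n)
          ((vf P 32 (n + 1) : ℝ) - vf P 32 n) ψ]

/-- A function `u sin + v cos`. -/
def Sinus (f : ℝ → ℝ) : Prop := ∃ u v, ∀ θ, f θ = u * sin θ + v * cos θ

theorem Sinus.add {f g : ℝ → ℝ} (h : Sinus f) (k : Sinus g) : Sinus fun θ => f θ + g θ := by
  obtain ⟨u, v, h⟩ := h
  obtain ⟨x, y, k⟩ := k
  exact ⟨u + x, v + y, fun θ => by beta_reduce; rw [h, k]; ring⟩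

theorem Sinus.ge {f : ℝ → ℝ} (h : Sinus f) {T a b θ : ℝ} (hT : 0 ≤ T) (h1 : a ≤ θ) (h2 : θ ≤ b)
    (h3 : b - a < π) (ha : T ≤ f a) (hb : T ≤ f b) : T ≤ f θ := by
  obtain ⟨u, v, h⟩ := h
  rcases eq_or_lt_of_le (h1.trans h2) with c | c
  · rwa [show θ = a by linarith]
  have s1 : 0 < sin (b - a) := sin_pos_of_pos_of_lt_pi (by linarith) h3
  have s2 : 0 ≤ sin (b - θ) := sin_nonneg_of_nonneg_of_le_pi (by linarith) (by linarith)
  have s3 : 0 ≤ sin (θ - a) := sin_nonneg_of_nonneg_of_le_pi (by linarith) (by linarith)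
  have e : sin (b - a) * f θ = sin (b - θ) * f a + sin (θ - a) * f b := by
    simp only [h, sin_sub]
    ring
  have s4 : sin (b - a) ≤ sin (b - θ) + sin (θ - a) := by
    rw [show b - a = (b - θ) + (θ - a) by ring, sin_add]
    nlinarith [cos_le_one (θ - a), cos_le_one (b - θ)]
  refine le_of_mul_le_mul_left ?_ s1
  rw [e]
  nlinarith [mul_le_mul_of_nonneg_left ha s2, mul_le_mul_of_nonneg_left hb s3]

/-- The anchor vertex with code `c`, weight `W` and direction shift `d`. -/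
def ancK (P n W d c : ℕ) (k : ℕ → ℕ → ℕ → Bool) : Bool :=
  kN (Nat.land c 31) fun i => Nat.ble i n && kN (Nat.mul W (vf P 0 i)) fun X =>
    kN (Nat.mul W (vf P 32 i)) fun Y =>
    kN (Nat.add d (Nat.mul 2880 (Nat.shiftRight (Nat.land c 63) 5))) fun e => k X Y e

def av (X Y e d t : ℕ) : ℕ :=
  Nat.add (Nat.mul X (sP (Nat.add t e))) (Nat.mul Y (sP (Nat.add (Nat.add t d) 4320)))

/-- The value of the anchor. -/
def aR (X Y e d : ℕ) (θ : ℝ) : ℝ := X * sin (θ + ang e) - Y * cos (θ + ang d)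

theorem aR_sinus (X Y e d : ℕ) : Sinus (aR X Y e d) :=
  ⟨X * cos (ang e) + Y * sin (ang d), X * sin (ang e) - Y * cos (ang d), fun θ => by
    simp only [aR, sin_add, cos_add]; ring⟩

theorem av_spec (X Y e d t : ℕ) :
    (av X Y e d t : ℝ) ≤ 2 ^ 32 * aR X Y e d (ang t) + (X + Y) * 4294967306 := by
  have h1 := mul_le_mul_of_nonneg_left (abs_le.1 (sP_spec (t + e))).2 (Nat.cast_nonneg (α := ℝ) X)
  have h2 := mul_le_mul_of_nonneg_left (abs_le.1 (sP_spec (t + d + 4320))).2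
    (Nat.cast_nonneg (α := ℝ) Y)
  have e1 : sin (ang (t + d + 4320)) = -cos (ang t + ang d) := by
    rw [ang_add, ang_add, show ang 4320 = π + π / 2 by unfold ang; push_cast; ring, ← add_assoc,
      sin_add_pi_div_two, cos_add_pi]
  rw [e1] at h2
  rw [ang_add] at h1
  have e2 : (av X Y e d t : ℝ) = X * sP (t + e) + Y * sP (t + d + 4320) := by
    simp only [av, Nat.add_eq, Nat.mul_eq, Nat.cast_add, Nat.cast_mul]
  rw [e2, aR]
  linarith

theorem ancK_spec {P n W d c : ℕ} {k : ℕ → ℕ → ℕ → Bool} {F : ℝ → ℝ}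
    (hF : ∀ i ≤ n, ∀ ψ, |sin ψ| * vf P 0 i - cos ψ * vf P 32 i ≤ 2 ^ 24 * F ψ)
    (h : ancK P n W d c k = true) :
    ∃ X Y e, k X Y e = true ∧ ∀ θ, aR X Y e d θ ≤ 2 ^ 24 * (W * F (θ + ang d)) := by
  simp only [ancK, kN_eq, Bool.and_eq_true, Nat.ble_eq, Nat.add_eq, Nat.mul_eq] at h
  refine ⟨_, _, _, h.2, fun θ => ?_⟩
  generalize Nat.shiftRight (Nat.land c 63) 5 = m
  have e : ang (d + 2880 * m) = ang d + m * π := by unfold ang; push_cast; ring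
  have s : sin (θ + ang (d + 2880 * m)) ≤ |sin (θ + ang d)| := by
    rw [e, ← add_assoc, sin_add_nat_mul_pi]
    refine (le_abs_self _).trans ?_
    rw [abs_mul, abs_pow, abs_neg, abs_one, one_pow, one_mul]
  have h1 := mul_le_mul_of_nonneg_left (hF _ h.1 (θ + ang d)) (Nat.cast_nonneg (α := ℝ) W)
  have h2 := mul_le_mul_of_nonneg_left s (Nat.cast_nonneg (α := ℝ) (W * vf P 0 (Nat.land c 31)))
  rw [aR]
  push_cast at h2 ⊢
  linarith

def stepK (P n W1 W2 d1 d2 : ℕ) (T : ℕ → ℕ → ℕ) (I t u : ℕ) : Bool :=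
  Nat.ble t u && Nat.ble u (Nat.add t 2800) &&
    ancK P n 16777216 0 (Nat.shiftRight I 13) fun X0 Y0 e0 =>
    ancK P n W1 d1 (Nat.shiftRight I 19) fun X1 Y1 e1 =>
    ancK P n W2 d2 (Nat.shiftRight I 25) fun X2 Y2 e2 =>
    kN (Nat.add (T t u) (Nat.mul (Nat.add (Nat.add (Nat.add X0 Y0) (Nat.add X1 Y1)) (Nat.add X2 Y2))
      4294967306)) fun N =>
      Nat.ble N (Nat.add (Nat.add (av X0 Y0 e0 0 t) (av X1 Y1 e1 d1 t)) (av X2 Y2 e2 d2 t)) &&
      Nat.ble N (Nat.add (Nat.add (av X0 Y0 e0 0 u) (av X1 Y1 e1 d1 u)) (av X2 Y2 e2 d2 u))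

def ivK (P n W1 W2 d1 d2 : ℕ) (T : ℕ → ℕ → ℕ) (c : ℕ) : ℕ → ℕ → Bool :=
  Nat.rec (fun _ t => Nat.ble 5760 t) (fun _ ih I t => kN (Nat.land I 8191) fun u =>
    (kN (Nat.land I 4294967295) fun J => stepK P n W1 W2 d1 d2 T J t u) &&
      kN (Nat.shiftRight I 32) fun I => ih I u) c

theorem stepK_spec {P n W1 W2 d1 d2 : ℕ} {T : ℕ → ℕ → ℕ} {F : ℝ → ℝ}
    (hF : ∀ i ≤ n, ∀ ψ, |sin ψ| * vf P 0 i - cos ψ * vf P 32 i ≤ 2 ^ 24 * F ψ) {I t u : ℕ}
    (h : stepK P n W1 W2 d1 d2 T I t u = true) {θ : ℝ} (h1 : ang t ≤ θ) (h2 : θ ≤ ang u) :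
    t ≤ u ∧ (T t u : ℝ) ≤
      2 ^ 56 * (2 ^ 24 * F θ + W1 * F (θ + ang d1) + W2 * F (θ + ang d2)) := by
  simp only [stepK, Bool.and_eq_true, Nat.ble_eq] at h
  obtain ⟨⟨k1, k2⟩, h⟩ := h
  obtain ⟨X0, Y0, e0, h, a0⟩ := ancK_spec hF h
  obtain ⟨X1, Y1, e1, h, a1⟩ := ancK_spec hF h
  obtain ⟨X2, Y2, e2, h, a2⟩ := ancK_spec hF h
  simp only [kN_eq, Bool.and_eq_true, Nat.ble_eq, Nat.add_eq, Nat.mul_eq] at h k2
  refine ⟨k1, ?_⟩
  have s := ((aR_sinus X0 Y0 e0 0).add (aR_sinus X1 Y1 e1 d1)).add (aR_sinus X2 Y2 e2 d2)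
  have key : ∀ w : ℕ, T t u + (X0 + Y0 + (X1 + Y1) + (X2 + Y2)) * 4294967306 ≤
      av X0 Y0 e0 0 w + av X1 Y1 e1 d1 w + av X2 Y2 e2 d2 w → (T t u : ℝ) / 2 ^ 32 ≤
      aR X0 Y0 e0 0 (ang w) + aR X1 Y1 e1 d1 (ang w) + aR X2 Y2 e2 d2 (ang w) := fun w hw => by
    have := (Nat.cast_le (α := ℝ)).2 hw
    simp only [Nat.cast_add, Nat.cast_mul, Nat.cast_ofNat] at this
    linarith [av_spec X0 Y0 e0 0 w, av_spec X1 Y1 e1 d1 w, av_spec X2 Y2 e2 d2 w]
  have w : ang u - ang t < π := by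
    have := ang_mono k2
    rw [ang_add] at this
    have : ang 2800 < π := by unfold ang; push_cast; linarith [pi_pos]
    linarith
  have m := s.ge (by positivity) h1 h2 w (key t h.1) (key u h.2)
  have b0 := a0 θ
  rw [show ang 0 = 0 by simp [ang], add_zero, Nat.cast_ofNat] at b0
  linarith [a1 θ, a2 θ]

theorem ivK_spec {P n W1 W2 d1 d2 : ℕ} {T : ℕ → ℕ → ℕ} {F : ℝ → ℝ}
    (hF : ∀ i ≤ n, ∀ ψ, |sin ψ| * vf P 0 i - cos ψ * vf P 32 i ≤ 2 ^ 24 * F ψ) (c : ℕ) :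
    ∀ I t, ivK P n W1 W2 d1 d2 T c I t = true → ∀ θ, ang t ≤ θ → θ < 2 * π →
      ∃ a b : ℕ, a ≤ b ∧ ang a ≤ θ ∧ θ ≤ ang b ∧ (T a b : ℝ) ≤
        2 ^ 56 * (2 ^ 24 * F θ + W1 * F (θ + ang d1) + W2 * F (θ + ang d2)) := by
  induction c with
  | zero =>
    intro I t h θ h1 h2
    have := ang_mono (Nat.le_of_ble_eq_true (n := 5760) (m := t) h)
    have e : ang 5760 = 2 * π := by unfold ang; push_cast; ring
    linarith
  | succ c ih =>
    intro I t h θ h1 h2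
    replace h : (kN (Nat.land I 8191) fun u =>
      (kN (Nat.land I 4294967295) fun J => stepK P n W1 W2 d1 d2 T J t u) &&
        kN (Nat.shiftRight I 32) fun I => ivK P n W1 W2 d1 d2 T c I u) = true := h
    rw [kN_eq, kN_eq, kN_eq, Bool.and_eq_true] at h
    rcases le_total θ (ang (Nat.land I 8191)) with k | k
    · obtain ⟨k1, k2⟩ := stepK_spec hF h.1 h1 k
      exact ⟨_, _, k1, h1, k, k2⟩
    · exact ih _ _ h.2 θ k h2

theorem row_per {A B : ℝ} {F : ℝ → ℝ}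
    (h : ∀ x y, cos x = cos y → |sin x| = |sin y| → F x = F y) (θ : ℝ) (k : ℤ) :
    row A B F (θ + k * (2 * π)) = row A B F θ := by
  have p : ∀ x, F (x + k * (2 * π)) = F x := fun x =>
    h _ _ (cos_add_int_mul_two_pi _ _) (by rw [sin_add_int_mul_two_pi])
  unfold row
  rw [p, show θ + k * (2 * π) + π + A = θ + π + A + k * (2 * π) by ring,
    show θ + k * (2 * π) + π - B = θ + π - B + k * (2 * π) by ring, p, p]

theorem red_two_pi (θ : ℝ) : ∃ (x : ℝ) (k : ℤ), 0 ≤ x ∧ x < 2 * π ∧ θ = x + k * (2 * π) := by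
  have h2 : (0 : ℝ) < 2 * π := by positivity
  have hm := toIcoMod_mem_Ico h2 0 θ
  exact ⟨toIcoMod h2 0 θ, toIcoDiv h2 0 θ, hm.1, by simpa using hm.2,
    by rw [← zsmul_eq_mul, toIcoMod_add_toIcoDiv_zsmul]⟩

def qL (x y : ℕ) : ℕ := Nat.div (Nat.mul x 16777216) y
def qH (x y : ℕ) : ℕ := Nat.succ (qL x y)

theorem qL_spec {x y : ℕ} {p q : ℝ} (hp : (x : ℝ) ≤ 2 ^ 32 * p) (hq : 2 ^ 32 * q ≤ y) (q0 : 0 < q) :
    (qL x y : ℝ) ≤ 2 ^ 24 * (p / q) := by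
  have h : qL x y * y ≤ x * 16777216 := Nat.div_mul_le_self _ _
  have h' := (Nat.cast_le (α := ℝ)).2 h
  simp only [Nat.cast_mul, Nat.cast_ofNat] at h'
  rw [← mul_div_assoc, le_div_iff₀ q0]
  nlinarith [mul_le_mul_of_nonneg_left hq (Nat.cast_nonneg (α := ℝ) (qL x y))]

theorem qH_spec {x y : ℕ} {p q : ℝ} (hp : 2 ^ 32 * p ≤ x) (hq : (y : ℝ) ≤ 2 ^ 32 * q) (y0 : 0 < y) :
    2 ^ 24 * (p / q) ≤ qH x y := by
  have h : x * 16777216 < y * qH x y := Nat.lt_mul_div_succ _ y0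
  have h' := (Nat.cast_lt (α := ℝ)).2 h
  have y1 : (0 : ℝ) < y := by exact_mod_cast y0
  simp only [Nat.cast_mul, Nat.cast_ofNat] at h'
  rw [← mul_div_assoc, div_le_iff₀ (by linarith)]
  nlinarith [mul_le_mul_of_nonneg_left hq (Nat.cast_nonneg (α := ℝ) (qH x y))]

def lw1 (a b : ℕ) : ℕ := Bool.rec (qL (sL b) (sU (Nat.add a b))) 16777216 (Nat.beq a 0)
def lw2 (a b : ℕ) : ℕ := qL (sL a) (sU (Nat.add a b))

theorem ang_lt_pi {k : ℕ} (h : ang k < π) : k < 2880 := by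
  by_contra c
  have := ang_mono (not_lt.1 c)
  rw [ang_pi] at this
  linarith

theorem ang_sub {x y : ℕ} (h : y ≤ x) : ang (x - y) = ang x - ang y := by
  unfold ang; rw [Nat.cast_sub h]; ring

theorem low_row {F : ℝ → ℝ} {m A B : ℝ} (c : Cone F m) (F0 : ∀ ψ, 0 ≤ F ψ) {a b : ℕ}
    (ha : ang a ≤ A) (hb : ang b ≤ B) (A0 : 0 < A) (B0 : 0 < B) (hπ : A + B < π) (θ : ℝ) :
    2 ^ 24 * F θ + lw1 a b * F (θ + ang (2880 + a)) + lw2 a b * F (θ + ang (2880 - b))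
      ≤ 2 ^ 24 * row A B F θ := by
  have a0 := ang_nonneg a
  have b0 := ang_nonneg b
  have ab : a + b < 2880 := ang_lt_pi (by rw [ang_add]; linarith)
  rw [ang_add, ang_sub (by omega), ang_pi, ← add_assoc, ← add_sub_assoc]
  rcases Nat.eq_zero_or_pos a with rfl | ap
  · have sB : 0 < sin B := sin_pos_of_pos_of_lt_pi B0 (by linarith)
    have r := row_mono c.sub le_rfl B0.le (by linarith) A0.le le_rfl hπ θ
    conv_lhs at r => rw [row, sin_zero, zero_mul, add_zero, zero_add, mul_div_cancel_left₀ _ sB.ne']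
    have e1 : lw1 0 b = 16777216 := rfl
    have e2 : sL 0 = 0 := by
      have := sL_spec (k := 0) (by norm_num)
      rw [show ang 0 = 0 by simp [ang], sin_zero, mul_zero] at this
      exact_mod_cast le_antisymm this (Nat.cast_nonneg _)
    have e3 : lw2 0 b = 0 := by rw [lw2, e2, qL, Nat.mul_eq, Nat.zero_mul]; exact Nat.zero_div _
    rw [e1, e3, show ang 0 = 0 by simp [ang], Nat.cast_ofNat, Nat.cast_zero]
    linarith
  · have p : 0 < ang a := by unfold ang; positivity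
    have r := row_mono c.sub a0 b0 (by linarith) ha hb hπ θ
    have s : 0 < sin (ang a + ang b) := sin_pos_of_pos_of_lt_pi (by linarith) (by linarith)
    have u := sU_spec (k := a + b) (by omega)
    rw [ang_add] at u
    have e1 : lw1 a b = qL (sL b) (sU (a + b)) := by
      obtain ⟨a, rfl⟩ := Nat.exists_eq_succ_of_ne_zero ap.ne'
      rfl
    have k1 := mul_le_mul_of_nonneg_right (qL_spec (sL_spec (k := b) (by omega)) u s)
      (F0 (θ + π + ang a))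
    have k2 := mul_le_mul_of_nonneg_right (qL_spec (sL_spec (k := a) (by omega)) u s)
      (F0 (θ + π - ang b))
    conv_lhs at r => rw [row, add_div, mul_div_right_comm, mul_div_right_comm]
    rw [e1, lw2, Nat.add_eq]
    linarith

/-- The polygon `P` with `n` sides reaches across in every position. -/
def ubK (a b n c P I : ℕ) : Bool :=
  polyK P n && kN (lw1 a b) fun W1 => kN (lw2 a b) fun W2 => kN (Nat.add 2880 a) fun d1 =>
    kN (Nat.sub 2880 b) fun d2 => ivK P n W1 W2 d1 d2 (fun _ _ => 1208925819614629174706176) c I 0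

theorem ubK_row {a b n c P I : ℕ} (h : ubK a b n c P I = true) : ∃ F, Cone F (mass P n / 2 ^ 24) ∧
    ∀ A B, ang a ≤ A → ang b ≤ B → 0 < A → 0 < B → A + B < π → ∀ θ, 1 ≤ row A B F θ := by
  simp only [ubK, kN_eq, Bool.and_eq_true, Nat.add_eq, Nat.sub_eq] at h
  obtain ⟨F, c1, c2, c3⟩ := polyK_spec _ _ h.1
  refine ⟨F, c1, fun A B ha hb A0 B0 hπ θ => ?_⟩
  obtain ⟨x, k, x0, x1, rfl⟩ := red_two_pi θ
  rw [row_per fun x y => c1.even]
  obtain ⟨-, -, -, -, -, k⟩ := ivK_spec c3 _ _ _ h.2 x (by simpa [ang] using x0) x1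
  rw [Nat.cast_ofNat] at k
  linarith [low_row c1 c2 ha hb A0 B0 hπ x]

theorem ubK_spec {a b n c P I : ℕ} (h : ubK a b n c P I = true) {A B : ℝ} (ha : ang a ≤ A)
    (hb : ang b ≤ B) (A0 : 0 < A) (B0 : 0 < B) (hπ : A + B < π) :
    vU A B ≤ 2 * (mass P n / 2 ^ 24) := by
  obtain ⟨F, c1, c2⟩ := ubK_row h
  exact vU_le A0 B0 hπ c1 (c2 A B ha hb A0 B0 hπ)

def omS (g k0 k1 : ℕ) : ℕ :=
  Bool.rec (Bool.rec 4294967296 (Nat.sub (mx (sP k0) (sP (Nat.add k1 2880))) 4294967286)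
    (Nat.ble (Nat.add (Nat.mod (Nat.add k0 4320) 5760) (Nat.sub k1 k0)) 2880)) 0
    (Nat.ble (Nat.add (Nat.mod (Nat.add k0 g) 5760) (Nat.sub k1 k0)) (Nat.mul 2 g))

theorem omS_spec {g k0 k1 : ℕ} (hg : g ≤ 2880) (hk : k0 ≤ k1) {ψ : ℝ} (h0 : ang k0 ≤ ψ)
    (h1 : ψ ≤ ang k1) : 2 ^ 32 * om (ang g) ψ ≤ omS g k0 k1 := by
  unfold omS
  have red : ∀ o w : ℕ, (k0 + o) % 5760 + (k1 - k0) ≤ w → ∃ q : ℕ, 0 ≤ ang k0 + ang o - q * (2 * π) ∧
      ang k1 + ang o - q * (2 * π) ≤ ang w := fun o w h => by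
    have e := ang_mod (k0 + o)
    have m := ang_mono h
    rw [ang_add] at e
    rw [ang_add, ang_sub hk] at m
    exact ⟨(k0 + o) / 5760, by linarith [ang_nonneg ((k0 + o) % 5760)], by linarith⟩
  cases c1 : Nat.ble (Nat.add (Nat.mod (Nat.add k0 g) 5760) (Nat.sub k1 k0)) (Nat.mul 2 g)
  swap
  · obtain ⟨q, q0, q1⟩ := red g (2 * g) (Nat.le_of_ble_eq_true c1)
    rw [two_mul g, ang_add] at q1
    have : cos (ang g) ≤ cos ψ := by
      rw [← cos_sub_nat_mul_two_pi ψ q, ← cos_abs (ψ - _)]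
      exact cos_le_cos_of_nonneg_of_le_pi (abs_nonneg _) (ang_le hg)
        (abs_le.2 ⟨by linarith, by linarith⟩)
    rw [om, if_pos this]
    simp
  cases c2 : Nat.ble (Nat.add (Nat.mod (Nat.add k0 4320) 5760) (Nat.sub k1 k0)) 2880
  · have := om_le_one (ang g) ψ
    change _ ≤ ((4294967296 : ℕ) : ℝ)
    rw [Nat.cast_ofNat]
    linarith
  obtain ⟨q, q0, q1⟩ := red 4320 2880 (Nat.le_of_ble_eq_true c2)
  rw [show ang 4320 = π + π / 2 by unfold ang; push_cast; ring] at q0 q1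
  rw [ang_pi] at q1
  have sc : ∀ x, cos (x + (π + π / 2) - q * (2 * π)) = sin x ∧
      sin (x + (π + π / 2) - q * (2 * π)) = -cos x := fun x => by
    rw [cos_sub_nat_mul_two_pi, sin_sub_nat_mul_two_pi, ← add_assoc, cos_add_pi_div_two,
      sin_add_pi_div_two, sin_add_pi, cos_add_pi, neg_neg]
    exact ⟨rfl, rfl⟩
  have c0 : cos ψ ≤ 0 := by
    have := sin_nonneg_of_nonneg_of_le_pi (x := ψ + (π + π / 2) - q * (2 * π)) (by linarith)
      (by linarith)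
    rw [(sc ψ).2] at this
    linarith
  have m0 : sin ψ ≤ sin (ang k0) := by
    rw [← (sc ψ).1, ← (sc _).1]
    exact cos_le_cos_of_nonneg_of_le_pi q0 (by linarith) (by linarith)
  have m1 : sin (ang k1) ≤ sin ψ := by
    rw [← (sc ψ).1, ← (sc _).1]
    exact cos_le_cos_of_nonneg_of_le_pi (by linarith) q1 (by linarith)
  have o : om (ang g) ψ ≤ |sin ψ| := by
    unfold om
    split_ifs with d1 d2
    · exact abs_nonneg _
    · have := sin_sq_add_cos_sq ψ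
      rw [le_antisymm c0 d2] at this
      rw [← sq_le_sq₀ zero_le_one (abs_nonneg _), sq_abs]
      linarith
    · exact le_rfl
  have s0 := (abs_le.1 (sP_spec k0)).1
  have s1 := (abs_le.1 (sP_spec (k1 + 2880))).1
  rw [ang_add, ang_pi, sin_add_pi] at s1
  have e : ((mx (sP k0) (sP (k1 + 2880)) : ℕ) : ℝ) - (4294967286 : ℕ) ≤
      (Nat.sub (mx (sP k0) (sP (k1 + 2880))) 4294967286 : ℕ) := cast_sub_ge _ _
  refine le_trans ?_ e
  rw [mx_eq, Nat.cast_max, Nat.cast_ofNat]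
  rcases abs_cases (sin ψ) with d | d
  · linarith [le_max_left (sP k0 : ℝ) (sP (k1 + 2880)), d.1]
  · linarith [le_max_right (sP k0 : ℝ) (sP (k1 + 2880)), d.1]

end

end Pool.Agent.P.MP_d76e6a_co
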