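import Pool.Agent.P.MP_d76e6a_co.Defs

/-!
The game whose value gives the shortest symmetric convex escape arc.
-/

namespace Pool.Agent.P.MP_d76e6a_co

open Real

/-- The support function, in direction `(sin θ, cos θ)`, of the two unit segments from the origin
to `(± cos γ, - sin γ)`. -/
noncomputable def ker (γ θ : ℝ) : ℝ := max 0 (|sin θ| * cos γ - cos θ * sin γ)

/-- The payoff for the slope angle `γ` against the position `θ` of the triangle. -/
noncomputable def gain (A B γ θ : ℝ) : ℝ :=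
  ker γ θ + (sin B * ker γ (θ + π + A) + sin A * ker γ (θ + π - B)) / sin (A + B)

/-- Admissible slope angle functions: monotone, odd, at most `π / 2`. -/
def Adm (η : ℝ → ℝ) : Prop := Monotone η ∧ ∀ s, η (-s) = -η s ∧ η s ≤ π / 2

/-- The payoff guaranteed by `η`. -/
noncomputable def pay (A B : ℝ) (η : ℝ → ℝ) : ℝ := ⨅ θ, ∫ s in (0 : ℝ)..1, gain A B (η s) θ

/-- `η` is an optimal strategy. -/
def Opt (A B : ℝ) (η : ℝ → ℝ) : Prop := Adm η ∧ ∀ ζ, Adm ζ → pay A B ζ ≤ pay A B η

/-- The symmetric convex arc with slope angle `η` and length `2 w / pay A B η`. -/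
noncomputable def arc (A B : ℝ) (η : ℝ → ℝ) (w t : ℝ) : ℂ :=
  (w / pay A B η) • ∫ s in (0 : ℝ)..(2 * t - 1), (⟨cos (η s), -sin (η s)⟩ : ℂ)

end Pool.Agent.P.MP_d76e6a_co
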