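import Pool.Agent.P.MP_d76e6a_co.GE1
import Pool.Agent.P.MP_d76e6a_co.GE2
import Pool.Agent.P.MP_d76e6a_co.GD1

/-!
Outside the zone the symmetric convex arc is optimal.
-/

namespace Pool.Agent.P.MP_d76e6a_co

open Real

theorem bad_cv : Cv FP 0 1024 0 2048 :=
  (Cv.sb ge0
  (Cv.sb (Cv.sa ge1 (Cv.sa (Cv.sb (Cv.sa ge2 ge3) ge4) ge5))
  (Cv.sb (Cv.sa ge6 (Cv.sa (Cv.sb ge7 ge8) ge9))
  (Cv.sb (Cv.sa (Cv.sa ge10 (Cv.sb ge11 (Cv.sa ge12 ge13))) ge14)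
  (Cv.sb (Cv.sa (Cv.sa ge15 (Cv.sa ge16 (Cv.sb ge17 ge18))) ge19)
  (Cv.sb (Cv.sa (Cv.sa ge20 (Cv.sa ge21 (Cv.sa ge22 (Cv.sb ge23 (Cv.sa ge24 ge25))))) ge26)
  (Cv.sb (Cv.sa (Cv.sa ge27 (Cv.sa ge28 (Cv.sb (Cv.sa (Cv.sb (Cv.sb ge29 ge30) ge31) ge32) ge33))) ge34)
  ge35)))))))

theorem full_or_zone {A B : ℝ} (h0 : 0 < A) (h1 : A ≤ B) (h2 : A + 2 * B ≤ π) :
    InZ zL A B ∨ Full A B :=
  (bad_cv A B (by simpa [ang] using h0) (by unfold ang; push_cast; linarith)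
    (by simpa [ang] using h0.trans_le h1) (by unfold ang; push_cast; linarith) h1 h2).imp_right
    fun h => h (good_all h0 h1 h2)

end Pool.Agent.P.MP_d76e6a_co
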