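import Pool.Agent.P.MP_d76e6a_co.GDefs

/-!
Existence of an optimal strategy, and finite families of segments as strategies.
-/

namespace Pool.Agent.P.MP_d76e6a_co

open Real MeasureTheory Filter Topology

theorem mono_ii {E : Type} [NormedAddCommGroup E] [SecondCountableTopology E] {ζ : ℝ → ℝ}
    (hζ : Monotone ζ) {f : ℝ → E} (hf : Continuous f) (a b : ℝ) :
    IntervalIntegrable (fun s => f (ζ s)) volume a b := by
  obtain ⟨C, hC⟩ := (isCompact_Icc (a := ζ (min a b)) (b := ζ (max a b))).exists_bound_of_continuousOn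
    hf.continuousOn
  rw [intervalIntegrable_iff]
  borelize E
  refine Measure.integrableOn_of_bounded (M := C) (by simp [Set.uIoc])
    (hf.measurable.comp hζ.measurable).aestronglyMeasurable ?_
  refine (ae_restrict_iff' measurableSet_uIoc).2 (Eventually.of_forall fun s hs => ?_)
  exact hC _ ⟨hζ hs.1.le, hζ hs.2⟩

theorem ker_nonneg (γ θ : ℝ) : 0 ≤ ker γ θ := le_max_left _ _

theorem ker_cont (θ : ℝ) : Continuous fun γ => ker γ θ := by unfold ker; fun_prop

theorem ker_lip (θ x y : ℝ) : |ker x θ - ker y θ| ≤ 2 * |x - y| := by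
  unfold ker
  rw [max_comm 0, max_comm 0]
  refine (abs_max_sub_max_le_abs _ _ _).trans ?_
  have e : |sin θ| * cos x - cos θ * sin x - (|sin θ| * cos y - cos θ * sin y)
      = |sin θ| * (cos x - cos y) - cos θ * (sin x - sin y) := by ring
  rw [e]
  refine (abs_sub _ _).trans ?_
  rw [abs_mul, abs_mul, abs_abs]
  have a1 := mul_le_mul (abs_sin_le_one θ) (abs_cos_sub_cos_le x y) (abs_nonneg _) zero_le_one
  have a2 := mul_le_mul (abs_cos_le_one θ) (abs_sin_sub_sin_le x y) (abs_nonneg _) zero_le_one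
  linarith

theorem Adm.zero {η : ℝ → ℝ} (h : Adm η) : η 0 = 0 := by
  have := (h.2 0).1
  rw [neg_zero] at this
  linarith

theorem Adm.mem {η : ℝ → ℝ} (h : Adm η) {s : ℝ} (hs : 0 ≤ s) : 0 ≤ η s ∧ η s ≤ π / 2 :=
  ⟨h.zero ▸ h.1 hs, (h.2 s).2⟩

/-- The support function of the arc of length two. -/
noncomputable def supp (η : ℝ → ℝ) (ψ : ℝ) : ℝ := ∫ s in (0 : ℝ)..1, ker (η s) ψ

/-- The normalised sum over the three sides. -/
noncomputable def row (A B : ℝ) (F : ℝ → ℝ) (θ : ℝ) : ℝ :=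
  F θ + (sin B * F (θ + π + A) + sin A * F (θ + π - B)) / sin (A + B)

theorem int_gain {η : ℝ → ℝ} (h : Monotone η) (A B θ : ℝ) :
    ∫ s in (0 : ℝ)..1, gain A B (η s) θ = row A B (supp η) θ := by
  have i := fun ψ => mono_ii h (ker_cont ψ) 0 1
  unfold gain row supp
  rw [intervalIntegral.integral_add (i _)
      ((((i _).const_mul _).add ((i _).const_mul _)).div_const _),
    intervalIntegral.integral_div, intervalIntegral.integral_add ((i _).const_mul _)
      ((i _).const_mul _), intervalIntegral.integral_const_mul, intervalIntegral.integral_const_mul]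

theorem supp_nonneg (η : ℝ → ℝ) (ψ : ℝ) : 0 ≤ supp η ψ :=
  intervalIntegral.integral_nonneg zero_le_one fun _ _ => ker_nonneg _ _

theorem row_nonneg {A B : ℝ} (hA : 0 ≤ sin A) (hB : 0 ≤ sin B) (hC : 0 ≤ sin (A + B)) {F : ℝ → ℝ}
    (hF : ∀ ψ, 0 ≤ F ψ) (θ : ℝ) : 0 ≤ row A B F θ :=
  add_nonneg (hF _) (div_nonneg (add_nonneg (mul_nonneg hB (hF _)) (mul_nonneg hA (hF _))) hC)

theorem pay_eq {η : ℝ → ℝ} (h : Monotone η) (A B : ℝ) :
    pay A B η = ⨅ θ, row A B (supp η) θ := by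
  unfold pay
  simp only [int_gain h]

theorem riemann {η : ℝ → ℝ} (h : Adm η) (ψ : ℝ) {n : ℕ} (hn : 0 < n) :
    |supp η ψ - ∑ k ∈ Finset.range n, ker (η (k / n)) ψ / n| ≤ π / n := by
  have n0 : (0 : ℝ) < n := by exact_mod_cast hn
  have i := fun a b => mono_ii h.1 (ker_cont ψ) a b
  have e := intervalIntegral.sum_integral_adjacent_intervals (a := fun k : ℕ => (k : ℝ) / n)
    (n := n) (f := fun s => ker (η s) ψ) (μ := volume) fun k _ => i _ _
  simp only [Nat.cast_zero, zero_div, div_self n0.ne'] at e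
  rw [supp, ← e, ← Finset.sum_sub_distrib]
  refine (Finset.abs_sum_le_sum_abs _ _).trans ?_
  have b : ∀ k ∈ Finset.range n,
      |(∫ s in ((k : ℝ) / n)..(((k + 1 : ℕ) : ℝ) / n), ker (η s) ψ) - ker (η (k / n)) ψ / n| ≤
        2 / n * (η (((k + 1 : ℕ) : ℝ) / n) - η (k / n)) := by
    intro k _
    have d : ((k + 1 : ℕ) : ℝ) / n - k / n = 1 / n := by push_cast; ring
    have le : (k : ℝ) / n ≤ ((k + 1 : ℕ) : ℝ) / n := by
      have : (0 : ℝ) < 1 / n := by positivity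
      linarith
    have c : ker (η (k / n)) ψ / n =
        ∫ _ in ((k : ℝ) / n)..(((k + 1 : ℕ) : ℝ) / n), ker (η (k / n)) ψ := by
      rw [intervalIntegral.integral_const, d, smul_eq_mul]
      ring
    rw [c, ← intervalIntegral.integral_sub (i _ _) intervalIntegrable_const]
    have := intervalIntegral.norm_integral_le_of_norm_le_const
      (a := (k : ℝ) / n) (b := ((k + 1 : ℕ) : ℝ) / n)
      (C := 2 * (η (((k + 1 : ℕ) : ℝ) / n) - η (k / n)))
      (f := fun s => ker (η s) ψ - ker (η (k / n)) ψ) fun s hs => by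
        rw [Set.uIoc_of_le le] at hs
        refine (ker_lip _ _ _).trans ?_
        have m1 := h.1 hs.1.le
        have m2 := h.1 hs.2
        rw [abs_of_nonneg (by linarith)]
        linarith
    rw [d, abs_of_pos (by positivity), Real.norm_eq_abs] at this
    refine this.trans (le_of_eq ?_)
    ring
  refine (Finset.sum_le_sum b).trans ?_
  rw [← Finset.mul_sum, Finset.sum_range_sub (fun k : ℕ => η ((k : ℝ) / n))]
  simp only [Nat.cast_zero, zero_div, div_self n0.ne', h.zero, sub_zero]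
  have := mul_le_mul_of_nonneg_left (h.2 1).2 (show (0 : ℝ) ≤ 2 / n by positivity)
  refine this.trans (le_of_eq ?_)
  ring

theorem supp_contOn (ψ : ℝ) : ContinuousOn (fun η => supp η ψ) {η | Adm η} := by
  refine TendstoUniformlyOn.continuousOn (p := atTop)
    (F := fun (n : ℕ) (η : ℝ → ℝ) => ∑ k ∈ Finset.range n, ker (η (k / n)) ψ / n) ?_
    (Eventually.of_forall fun n => ?_).frequently
  · rw [Metric.tendstoUniformlyOn_iff]
    intro ε hε
    filter_upwards [(tendsto_const_div_atTop_nhds_zero_nat π).eventually (gt_mem_nhds hε),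
      eventually_gt_atTop 0] with n h1 h2 η hη
    exact lt_of_le_of_lt (riemann hη ψ h2) h1
  · refine Continuous.continuousOn (continuous_finsetSum _ fun k _ => ?_)
    exact ((ker_cont ψ).comp (continuous_apply _)).div_const _

theorem adm_compact : IsCompact {η | Adm η} := by
  refine (isCompact_univ_pi fun _ : ℝ => isCompact_Icc (a := -(π / 2)) (b := π / 2)).of_isClosed_subset
    ?_ fun η hη s _ => ⟨?_, (hη.2 s).2⟩
  · have e : {η | Adm η} = {η : ℝ → ℝ | Monotone η} ∩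
        ⋂ s, ({η : ℝ → ℝ | η (-s) = -η s} ∩ {η : ℝ → ℝ | η s ≤ π / 2}) := by
      ext η
      simp [Adm]
    rw [e]
    exact isClosed_monotone.inter (isClosed_iInter fun s =>
      (isClosed_eq (continuous_apply (-s)) (continuous_apply s).neg).inter
        (isClosed_le (continuous_apply s) continuous_const))
  · have h1 := (hη.2 s).1
    have h2 := (hη.2 (-s)).2
    linarith

theorem adm_zero : Adm fun _ => 0 :=
  ⟨monotone_const, fun _ => ⟨neg_zero.symm, by positivity⟩⟩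

theorem exists_opt {A B : ℝ} (hA : 0 ≤ sin A) (hB : 0 ≤ sin B) (hC : 0 ≤ sin (A + B)) :
    ∃ η, Opt A B η := by
  have u : UpperSemicontinuousOn (fun η => ⨅ θ, row A B (supp η) θ) {η | Adm η} := by
    refine upperSemicontinuousOn_ciInf (fun η _ => ⟨0, ?_⟩) fun θ =>
      ContinuousOn.upperSemicontinuousOn ?_
    · rintro _ ⟨θ, rfl⟩
      exact row_nonneg hA hB hC (supp_nonneg η) θ
    · unfold row
      exact (supp_contOn _).add ((((supp_contOn _).const_mul _).add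
        ((supp_contOn _).const_mul _)).div_const _)
  obtain ⟨η, hη, hm⟩ := u.exists_isMaxOn ⟨fun _ => 0, adm_zero⟩ adm_compact
  refine ⟨η, hη, fun ζ hζ => ?_⟩
  rw [pay_eq hζ.1, pay_eq hη.1]
  exact hm hζ

/-- The value of the game. -/
noncomputable def gval (A B : ℝ) : ℝ := sSup (pay A B '' {η | Adm η})

/-- The length of the shortest symmetric convex escape arc for altitude one. -/
noncomputable def vU (A B : ℝ) : ℝ := 2 / gval A B

theorem Opt.gval {A B : ℝ} {η : ℝ → ℝ} (h : Opt A B η) : gval A B = pay A B η :=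
  IsGreatest.csSup_eq ⟨⟨η, h.1, rfl⟩, by rintro _ ⟨ζ, hζ, rfl⟩; exact h.2 ζ hζ⟩

theorem pay_le_row {A B : ℝ} (hA : 0 ≤ sin A) (hB : 0 ≤ sin B) (hC : 0 ≤ sin (A + B))
    {η : ℝ → ℝ} (h : Monotone η) (θ : ℝ) : pay A B η ≤ row A B (supp η) θ := by
  rw [pay_eq h]
  refine ciInf_le ⟨0, ?_⟩ θ
  rintro _ ⟨θ, rfl⟩
  exact row_nonneg hA hB hC (supp_nonneg η) θ

theorem exists_mono {ι : Type} (s : Finset ι) (l γ : ι → ℝ) (hl : ∀ i ∈ s, 0 ≤ l i)
    (hγ : ∀ i ∈ s, 0 ≤ γ i) : ∃ ζ : ℝ → ℝ, Monotone ζ ∧ (∀ x, 0 ≤ ζ x) ∧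
      (∀ x b, 0 ≤ b → (∀ i ∈ s, γ i ≤ b) → ζ x ≤ b) ∧
      ∀ f : ℝ → ℝ, Continuous f → ∫ x in (0 : ℝ)..(∑ i ∈ s, l i), f (ζ x) = ∑ i ∈ s, l i * f (γ i) := by
  classical
  induction s using Finset.induction_on_max_value γ with
  | empty => exact ⟨fun _ => 0, monotone_const, fun _ => le_rfl, fun _ _ h _ => h, by simp⟩
  | insert a s ha hm ih =>
    obtain ⟨ζ, z1, z2, z3, z4⟩ := ih (fun i hi => hl i (Finset.mem_insert_of_mem hi))
      fun i hi => hγ i (Finset.mem_insert_of_mem hi)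
    have g0 := hγ a (Finset.mem_insert_self _ _)
    have l0 := hl a (Finset.mem_insert_self _ _)
    set m := ∑ i ∈ s, l i with hmd
    have m0 : 0 ≤ m := Finset.sum_nonneg fun i hi => hl i (Finset.mem_insert_of_mem hi)
    have mz : Monotone fun x => if x ≤ m then ζ x else γ a := by
      intro x y hxy
      simp only
      split_ifs with h1 h2 h2
      · exact z1 hxy
      · exact z3 x _ g0 hm
      · exact absurd (hxy.trans h2) h1
      · exact le_rfl
    refine ⟨_, mz, fun x => ?_, fun x b b0 hb => ?_, fun f hf => ?_⟩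
    · split_ifs
      · exact z2 x
      · exact g0
    · split_ifs
      · exact z3 x b b0 fun i hi => hb i (Finset.mem_insert_of_mem hi)
      · exact hb a (Finset.mem_insert_self _ _)
    · rw [Finset.sum_insert ha, Finset.sum_insert ha, ← hmd, ← z4 f hf,
        ← intervalIntegral.integral_add_adjacent_intervals (b := m) (mono_ii mz hf _ _)
          (mono_ii mz hf _ _), add_comm]
      congr 1
      · rw [intervalIntegral.integral_congr_ae (g := fun _ => f (γ a))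
          (Eventually.of_forall fun x hx => ?_)]
        · simp
        · rw [Set.uIoc_of_le (by linarith)] at hx
          simp only [if_neg (not_le.2 hx.1)]
      · refine intervalIntegral.integral_congr fun x hx => ?_
        rw [Set.uIcc_of_le m0] at hx
        simp only [if_pos hx.2]

/-- The support function of two mirror segments. -/
noncomputable def kv (x y ψ : ℝ) : ℝ := max 0 (|sin ψ| * x - cos ψ * y)

/-- `F` is the support function of a symmetric convex polygon arc of half length at most `m`. -/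
def Cone (F : ℝ → ℝ) (m : ℝ) : Prop :=
  ∃ (ι : Type) (s : Finset ι) (x y : ι → ℝ), (∀ i ∈ s, 0 ≤ x i ∧ 0 ≤ y i) ∧
    ∑ i ∈ s, √(x i ^ 2 + y i ^ 2) ≤ m ∧ ∀ ψ, F ψ = ∑ i ∈ s, kv (x i) (y i) ψ

theorem Cone.zero : Cone (fun _ => 0) 0 :=
  ⟨Unit, ∅, fun _ => 0, fun _ => 0, by simp, by simp, by simp⟩

theorem Cone.one {x y n : ℝ} (hx : 0 ≤ x) (hy : 0 ≤ y) (hn : √(x ^ 2 + y ^ 2) ≤ n) :
    Cone (kv x y) n :=
  ⟨Unit, {()}, fun _ => x, fun _ => y, by simp [hx, hy], by simpa using hn, by simp⟩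

theorem Cone.add {F G : ℝ → ℝ} {m n : ℝ} (h : Cone F m) (k : Cone G n) :
    Cone (fun ψ => F ψ + G ψ) (m + n) := by
  obtain ⟨ι, s, x, y, h1, h2, h3⟩ := h
  obtain ⟨κ, t, u, v, k1, k2, k3⟩ := k
  refine ⟨ι ⊕ κ, s.disjSum t, Sum.elim x u, Sum.elim y v, ?_, ?_, fun ψ => ?_⟩
  · rintro (i | i) hi
    · exact h1 i (Finset.inl_mem_disjSum.1 hi)
    · exact k1 i (Finset.inr_mem_disjSum.1 hi)
  · rw [Finset.sum_disjSum]
    exact add_le_add h2 k2
  · beta_reduce
    rw [Finset.sum_disjSum, h3, k3]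
    rfl

theorem kv_mul {c : ℝ} (hc : 0 ≤ c) (x y ψ : ℝ) : kv (c * x) (c * y) ψ = c * kv x y ψ := by
  unfold kv
  rw [mul_max_of_nonneg _ _ hc, mul_zero]
  congr 1
  ring

theorem Cone.mul {F : ℝ → ℝ} {m c : ℝ} (h : Cone F m) (hc : 0 ≤ c) :
    Cone (fun ψ => c * F ψ) (c * m) := by
  obtain ⟨ι, s, x, y, h1, h2, h3⟩ := h
  refine ⟨ι, s, fun i => c * x i, fun i => c * y i,
    fun i hi => ⟨mul_nonneg hc (h1 i hi).1, mul_nonneg hc (h1 i hi).2⟩, ?_, fun ψ => ?_⟩
  · refine le_trans (le_of_eq ?_) (mul_le_mul_of_nonneg_left h2 hc)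
    rw [Finset.mul_sum]
    refine Finset.sum_congr rfl fun i _ => ?_
    rw [show (c * x i) ^ 2 + (c * y i) ^ 2 = c ^ 2 * (x i ^ 2 + y i ^ 2) by ring,
      sqrt_mul (sq_nonneg c), sqrt_sq hc]
  · beta_reduce
    rw [h3, Finset.mul_sum]
    exact Finset.sum_congr rfl fun i _ => (kv_mul hc _ _ _).symm

theorem Cone.mono {F : ℝ → ℝ} {m n : ℝ} (h : Cone F m) (hn : m ≤ n) : Cone F n := by
  obtain ⟨ι, s, x, y, h1, h2, h3⟩ := h
  exact ⟨ι, s, x, y, h1, h2.trans hn, h3⟩

theorem polar {x y : ℝ} (hx : 0 ≤ x) (hy : 0 ≤ y) : ∃ γ, 0 ≤ γ ∧ γ ≤ π / 2 ∧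
    x = √(x ^ 2 + y ^ 2) * cos γ ∧ y = √(x ^ 2 + y ^ 2) * sin γ := by
  have hsq := Real.sq_sqrt (show 0 ≤ x ^ 2 + y ^ 2 by positivity)
  set n := √(x ^ 2 + y ^ 2) with hn
  rcases (Real.sqrt_nonneg (x ^ 2 + y ^ 2)).eq_or_lt with h0 | h0
  · rw [← hn] at h0
    rw [← h0] at hsq ⊢
    exact ⟨0, le_rfl, by positivity, by nlinarith, by nlinarith⟩
  rw [← hn] at h0
  have a1 : 0 ≤ x / n := by positivity
  have a2 : x / n ≤ 1 := by
    rw [div_le_one h0]
    nlinarith [abs_le_of_sq_le_sq' (show x ^ 2 ≤ n ^ 2 by nlinarith [sq_nonneg y]) h0.le]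
  refine ⟨arccos (x / n), arccos_nonneg _, arccos_le_pi_div_two.2 a1, ?_, ?_⟩
  · rw [cos_arccos (by linarith) a2]
    field_simp
  · rw [sin_arccos, show 1 - (x / n) ^ 2 = (y / n) ^ 2 by field_simp; linarith,
      sqrt_sq (by positivity)]
    field_simp

theorem Cone.adm {F : ℝ → ℝ} {m : ℝ} (h : Cone F m) :
    ∃ η k, Adm η ∧ 0 ≤ k ∧ k ≤ m ∧ ∀ ψ, F ψ = k * supp η ψ := by
  obtain ⟨ι, s, x, y, h1, h2, h3⟩ := h
  have p : ∀ i, ∃ γ, i ∈ s → 0 ≤ γ ∧ γ ≤ π / 2 ∧
      x i = √(x i ^ 2 + y i ^ 2) * cos γ ∧ y i = √(x i ^ 2 + y i ^ 2) * sin γ := fun i => by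
    by_cases hi : i ∈ s
    · obtain ⟨γ, hγ⟩ := polar (h1 i hi).1 (h1 i hi).2
      exact ⟨γ, fun _ => hγ⟩
    · exact ⟨0, fun h => absurd h hi⟩
  choose γ hγ using p
  obtain ⟨ζ, z1, z2, z3, z4⟩ := exists_mono s (fun i => √(x i ^ 2 + y i ^ 2)) γ
    (fun _ _ => sqrt_nonneg _) fun i hi => (hγ i hi).1
  set k := ∑ i ∈ s, √(x i ^ 2 + y i ^ 2) with hk
  have k0 : 0 ≤ k := Finset.sum_nonneg fun _ _ => sqrt_nonneg _
  have zb : ∀ t, ζ t ≤ π / 2 := fun t => z3 t _ (by positivity) fun i hi => (hγ i hi).2.1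
  let p : ℝ → ℝ := fun t => if 0 < t then ζ (k * t) else 0
  have p0 : ∀ t, 0 ≤ p t := fun t => by
    simp only [p]
    split_ifs
    · exact z2 _
    · exact le_rfl
  have p1 : ∀ t, p t ≤ π / 2 := fun t => by
    simp only [p]
    split_ifs
    · exact zb _
    · positivity
  have pm : Monotone p := fun a b hab => by
    simp only [p]
    split_ifs with c1 c2 c2
    · exact z1 (mul_le_mul_of_nonneg_left hab k0)
    · exact absurd (c1.trans_le hab) c2
    · exact z2 _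
    · exact le_rfl
  refine ⟨fun t => p t - p (-t), k, ⟨fun a b hab => ?_, fun t => ⟨?_, ?_⟩⟩, k0, h2, fun ψ => ?_⟩
  · exact sub_le_sub (pm hab) (pm (neg_le_neg hab))
  · beta_reduce
    rw [neg_neg]
    ring
  · linarith [p0 (-t), p1 t]
  · have e1 : supp (fun t => p t - p (-t)) ψ = ∫ t in (0 : ℝ)..1, ker (ζ (k * t)) ψ := by
      refine intervalIntegral.integral_congr_ae (Eventually.of_forall fun t ht => ?_)
      rw [Set.uIoc_of_le zero_le_one] at ht
      simp only [p, if_pos ht.1, if_neg (show ¬0 < -t by linarith [ht.1]), sub_zero]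
    have e2 := intervalIntegral.mul_integral_comp_mul_left (f := fun t => ker (ζ t) ψ) (a := 0)
      (b := 1) k
    rw [mul_zero, mul_one, z4 _ (ker_cont ψ)] at e2
    rw [e1, e2, h3]
    refine Finset.sum_congr rfl fun i hi => ?_
    obtain ⟨-, -, c1, c2⟩ := hγ i hi
    have := kv_mul (sqrt_nonneg (x i ^ 2 + y i ^ 2)) (cos (γ i)) (sin (γ i)) ψ
    rw [← c1, ← c2] at this
    exact this

theorem row_mul (A B c : ℝ) (F : ℝ → ℝ) (θ : ℝ) :
    row A B (fun ψ => c * F ψ) θ = c * row A B F θ := by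
  unfold row
  ring

theorem row_add (A B : ℝ) (F G : ℝ → ℝ) (θ : ℝ) :
    row A B (fun ψ => F ψ + G ψ) θ = row A B F θ + row A B G θ := by
  unfold row
  ring

/-- A polygon arc that reaches `ρ` in every position bounds the value from below. -/
theorem Cone.le_gval {A B : ℝ} (hA : 0 ≤ sin A) (hB : 0 ≤ sin B) (hC : 0 ≤ sin (A + B))
    {F : ℝ → ℝ} {m ρ : ℝ} (h : Cone F m) (hr : ∀ θ, ρ ≤ row A B F θ) : ρ ≤ m * gval A B := by
  obtain ⟨η, k, hη, k0, km, e⟩ := h.adm
  obtain ⟨ζ, hζ⟩ := exists_opt hA hB hC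
  have g0 : 0 ≤ pay A B ζ := by
    rw [pay_eq hζ.1.1]
    exact le_ciInf fun θ => row_nonneg hA hB hC (supp_nonneg ζ) θ
  have e' : F = fun ψ => k * supp η ψ := funext e
  rw [hζ.gval]
  refine le_trans ?_ (mul_le_mul_of_nonneg_right km g0)
  refine le_trans ?_ (mul_le_mul_of_nonneg_left (hζ.2 η hη) k0)
  rw [pay_eq hη.1, Real.mul_iInf_of_nonneg k0]
  refine le_ciInf fun θ => ?_
  rw [← row_mul, ← e']
  exact hr θ

end Pool.Agent.P.MP_d76e6a_co
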