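import Pool.Agent.P.MP_d76e6a_co.Half

/-!
Calibration of one half structure by a finite family of atoms and bands of directions.
-/

namespace Pool.Agent.P.MP_d76e6a_co

open Real MeasureTheory

/-- An atom of mass `d` at `lo`, or a band `[lo, hi]` of density `d`. -/
structure It where
  band : Bool
  lo : ℝ
  hi : ℝ
  d : ℝ

noncomputable def It.ev (c : It) (f : ℝ → ℝ) : ℝ :=
  if c.band then c.d * ∫ e in c.lo..c.hi, f e else c.d * f c.lo

noncomputable def nu (L : List It) (f : ℝ → ℝ) : ℝ := (L.map fun c => c.ev f).sum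

def It.ok (c : It) : Prop := 0 ≤ c.lo ∧ c.lo ≤ c.hi ∧ c.hi ≤ π ∧ 0 ≤ c.d

/-- Integrable on every interval inside `[0, π]`. -/
def XdGood (f : ℝ → ℝ) : Prop :=
  ∀ a b, 0 ≤ a → a ≤ b → b ≤ π → IntervalIntegrable f volume a b

theorem xd_good_ind {S : Set ℝ} (hS : MeasurableSet S) {f : ℝ → ℝ} (hf : Continuous f) :
    XdGood (S.indicator f) := fun a b _ _ _ =>
  ⟨(hf.intervalIntegrable a b).1.indicator hS, (hf.intervalIntegrable a b).2.indicator hS⟩

theorem xd_good_cont {f : ℝ → ℝ} (hf : Continuous f) : XdGood f := fun a b _ _ _ =>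
  hf.intervalIntegrable a b

theorem xd_good_lin {f k : ℝ → ℝ} (hf : XdGood f) (hk : XdGood k) (u v : ℝ) :
    XdGood fun e => u * f e + v * k e := fun a b h1 h2 h3 =>
  ((hf a b h1 h2 h3).const_mul u).add ((hk a b h1 h2 h3).const_mul v)

theorem xd_nu_cons (c : It) (L : List It) (f : ℝ → ℝ) : nu (c :: L) f = c.ev f + nu L f := by
  simp [nu]

theorem xd_nu_lin {L : List It} (hL : ∀ c ∈ L, c.ok) {f k : ℝ → ℝ} (hf : XdGood f)
    (hk : XdGood k) (u v : ℝ) : nu L (fun e => u * f e + v * k e) = u * nu L f + v * nu L k := by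
  induction L with
  | nil => simp [nu]
  | cons c L ih =>
    obtain ⟨h1, h2, h3, _⟩ := hL c List.mem_cons_self
    rw [xd_nu_cons, xd_nu_cons, xd_nu_cons, ih fun c hc => hL c (List.mem_cons_of_mem _ hc)]
    have : c.ev (fun e => u * f e + v * k e) = u * c.ev f + v * c.ev k := by
      unfold It.ev
      split_ifs
      · rw [intervalIntegral.integral_add ((hf _ _ h1 h2 h3).const_mul u)
          ((hk _ _ h1 h2 h3).const_mul v), intervalIntegral.integral_const_mul,
          intervalIntegral.integral_const_mul]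
        ring
      · ring
    rw [this]
    ring

theorem xd_nu_mono {L : List It} (hL : ∀ c ∈ L, c.ok) {f k : ℝ → ℝ} (hf : XdGood f)
    (hk : XdGood k) (h : ∀ e, 0 ≤ e → e ≤ π → f e ≤ k e) : nu L f ≤ nu L k := by
  induction L with
  | nil => simp [nu]
  | cons c L ih =>
    obtain ⟨h1, h2, h3, h4⟩ := hL c List.mem_cons_self
    rw [xd_nu_cons, xd_nu_cons]
    refine add_le_add ?_ (ih fun c hc => hL c (List.mem_cons_of_mem _ hc))
    unfold It.ev
    split_ifs
    · refine mul_le_mul_of_nonneg_left ?_ h4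
      exact intervalIntegral.integral_mono_on h2 (hf _ _ h1 h2 h3) (hk _ _ h1 h2 h3)
        fun e he => h e (h1.trans he.1) (he.2.trans h3)
    · exact mul_le_mul_of_nonneg_left (h _ h1 (h2.trans h3)) h4

theorem xd_nu_zero (L : List It) : nu L (fun _ => 0) = 0 := by
  induction L with
  | nil => simp [nu]
  | cons c L ih =>
    rw [xd_nu_cons, ih]
    unfold It.ev
    split_ifs <;> simp

theorem xd_good_sum {n : ℕ} {f : ℕ → ℝ → ℝ} (hf : ∀ j, XdGood (f j)) :
    XdGood fun e => ∑ j ∈ Finset.range n, f j e := by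
  induction n with
  | zero => simpa using xd_good_cont (f := fun _ => (0 : ℝ)) continuous_const
  | succ n ih =>
    have := xd_good_lin ih (hf n) 1 1
    simpa [Finset.sum_range_succ] using this

theorem xd_nu_sum {L : List It} (hL : ∀ c ∈ L, c.ok) {n : ℕ} {f : ℕ → ℝ → ℝ}
    (hf : ∀ j, XdGood (f j)) :
    nu L (fun e => ∑ j ∈ Finset.range n, f j e) = ∑ j ∈ Finset.range n, nu L (f j) := by
  induction n with
  | zero => simpa using xd_nu_zero L
  | succ n ih =>
    have := xd_nu_lin hL (xd_good_sum (n := n) hf) (hf n) 1 1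
    simp only [one_mul] at this
    simp only [Finset.sum_range_succ]
    rw [this, ih]

/-- The directions of the half circle that are supported after the vertex `j`. -/
def xdS (H : Half) (j : ℕ) : Set ℝ := {e | (0 ≤ e ∧ e ≤ π) ∧ j < H.d e}

theorem xd_between (H : Half) {j : ℕ} {x y z : ℝ} (hx : x ∈ xdS H j) (hz : z ∈ xdS H j)
    (hxy : x ≤ y) (hyz : y ≤ z) : y ∈ xdS H j := by
  refine ⟨⟨hx.1.1.trans hxy, hyz.trans hz.1.2⟩, ?_⟩
  have h1 := H.qc x y z hx.1.1 hxy hyz hz.1.2
  have h2 := hx.2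
  have h3 := hz.2
  omega

theorem xd_meas (H : Half) (j : ℕ) : MeasurableSet (xdS H j) :=
  Set.OrdConnected.measurableSet ⟨fun _ hx _ hz _ hy => xd_between H hx hz hy.1 hy.2⟩

/-- The contribution of the segment `j`. -/
noncomputable def xdT (H : Half) (j : ℕ) (e : ℝ) : ℝ :=
  (H.X (j + 1) - H.X j) * (xdS H j).indicator sin e +
    (H.Y (j + 1) - H.Y j) * (xdS H j).indicator cos e

theorem xd_goodT (H : Half) (j : ℕ) : XdGood (xdT H j) :=
  xd_good_lin (xd_good_ind (xd_meas H j) continuous_sin) (xd_good_ind (xd_meas H j) continuous_cos)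
    _ _

theorem xd_h_eq (H : Half) {e : ℝ} (h0 : 0 ≤ e) (h1 : e ≤ π) :
    H.h e = ∑ j ∈ Finset.range H.r, xdT H j e := by
  have hsub : Finset.range (H.d e) ⊆ Finset.range H.r := Finset.range_mono (H.hd e)
  rw [← Finset.sum_subset hsub]
  · have : ∀ j ∈ Finset.range (H.d e), xdT H j e =
        (H.X (j + 1) * sin e + H.Y (j + 1) * cos e) - (H.X j * sin e + H.Y j * cos e) := by
      intro j hj
      have hm : e ∈ xdS H j := ⟨⟨h0, h1⟩, Finset.mem_range.1 hj⟩
      rw [xdT, Set.indicator_of_mem hm, Set.indicator_of_mem hm]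
      ring
    rw [Finset.sum_congr rfl this,
      Finset.sum_range_sub (fun j => H.X j * sin e + H.Y j * cos e), H.X0, H.Y0, Half.h]
    ring
  · intro j _ hj
    have hm : e ∉ xdS H j := fun h => hj (Finset.mem_range.2 h.2)
    rw [xdT, Set.indicator_of_notMem hm, Set.indicator_of_notMem hm]
    ring

theorem Half.h_int (H : Half) {a b : ℝ} (ha : 0 ≤ a) (hab : a ≤ b) (hb : b ≤ π) :
    IntervalIntegrable H.h volume a b := by
  refine (xd_good_sum (n := H.r) (xd_goodT H) a b ha hab hb).congr fun e he => ?_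
  rw [Set.uIoc_of_le hab] at he
  exact (xd_h_eq H (ha.trans he.1.le) (he.2.trans hb)).symm

theorem xd_norm_le {L : List It} (hL : ∀ c ∈ L, c.ok) {S : Set ℝ} (hS : MeasurableSet S)
    {k : ℝ → ℝ} (hk : XdGood k) (hk1 : nu L k ≤ 1) {u v : ℝ} (hu : u = nu L (S.indicator sin))
    (hv : v = nu L (S.indicator cos)) (hk0 : ∀ e, 0 ≤ k e)
    (h : ∀ e ∈ S, u * sin e + v * cos e ≤ √(u ^ 2 + v ^ 2) * k e) : u ^ 2 + v ^ 2 ≤ 1 := by
  have g1 := xd_good_ind hS continuous_sin
  have g2 := xd_good_ind hS continuous_cos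
  have e1 := xd_nu_lin hL g1 g2 u v
  have e2 := xd_nu_lin hL hk hk √(u ^ 2 + v ^ 2) 0
  have hn := Real.sqrt_nonneg (u ^ 2 + v ^ 2)
  have e3 := xd_nu_mono hL (xd_good_lin g1 g2 u v) (xd_good_lin hk hk √(u ^ 2 + v ^ 2) 0)
    fun e _ _ => by
      by_cases he : e ∈ S
      · rw [Set.indicator_of_mem he, Set.indicator_of_mem he]
        linarith [h e he]
      · rw [Set.indicator_of_notMem he, Set.indicator_of_notMem he]
        linarith [mul_nonneg hn (hk0 e)]
  rw [e1, e2, ← hu, ← hv] at e3
  have hsq := Real.sq_sqrt (show 0 ≤ u ^ 2 + v ^ 2 by positivity)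
  have e4 : √(u ^ 2 + v ^ 2) ^ 2 ≤ √(u ^ 2 + v ^ 2) := by
    nlinarith [mul_le_mul_of_nonneg_left hk1 hn]
  nlinarith

theorem half_le {L : List It} (hL : ∀ c ∈ L, c.ok) {g : ℝ} (g0 : 0 ≤ g) (g1 : g ≤ π)
    (phi : ∀ γ ∈ Set.Icc 0 π, nu L (fun e => max (sin (e - γ)) 0) ≤ 1) (bal : nu L cos ≤ 0)
    (d2 : nu L (Set.indicator (Set.Ioo g π) 1) ≤ 1) (H : Half) (h : H.d g < H.d π) :
    nu L H.h ≤ H.len := by
  have hV : ∀ j, nu L ((xdS H j).indicator sin) ^ 2 + nu L ((xdS H j).indicator cos) ^ 2 ≤ 1 := by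
    intro j
    have hS := xd_meas H j
    have gc := xd_good_ind hS continuous_cos
    rcases le_or_gt (H.d π) j with hj | hj
    · refine xd_norm_le hL hS (xd_good_ind measurableSet_Ioo continuous_one) d2 rfl rfl
        (fun e => Set.indicator_nonneg (fun _ _ => zero_le_one) e) fun e he => ?_
      have hm : e ∈ Set.Ioo g π := by
        have h2 := he.2
        constructor
        · by_contra hc
          have := H.bt' he.1.1 (not_lt.1 hc) g1 h
          omega
        · refine lt_of_le_of_ne he.1.2 fun hc => ?_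
          rw [hc] at h2
          omega
      rw [Set.indicator_of_mem hm, Pi.one_apply, mul_one, mul_comm _ (sin e), mul_comm _ (cos e)]
      exact Half.cs (sin_sq_add_cos_sq e).le
    · have hπ : π ∈ xdS H j := ⟨⟨pi_pos.le, le_rfl⟩, hj⟩
      have hv0 : nu L ((xdS H j).indicator cos) ≤ 0 := by
        by_cases hm : π / 2 ∈ xdS H j
        · refine le_trans (xd_nu_mono hL gc (xd_good_cont continuous_cos) fun e e0 e1 => ?_) bal
          by_cases he : e ∈ xdS H j
          · rw [Set.indicator_of_mem he]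
          · rw [Set.indicator_of_notMem he]
            have : e ≤ π / 2 := by
              by_contra hc
              exact he (xd_between H hm hπ (not_le.1 hc).le e1)
            exact cos_nonneg_of_neg_pi_div_two_le_of_le (by linarith [pi_pos]) this
        · rw [← xd_nu_zero L]
          refine xd_nu_mono hL gc (xd_good_cont continuous_const) fun e e0 e1 => ?_
          by_cases he : e ∈ xdS H j
          · rw [Set.indicator_of_mem he]
            have : π / 2 ≤ e := by
              by_contra hc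
              exact hm (xd_between H he hπ (not_le.1 hc).le (by linarith [pi_pos]))
            exact cos_nonpos_of_pi_div_two_le_of_le this (by linarith [pi_pos])
          · rw [Set.indicator_of_notMem he]
      set u := nu L ((xdS H j).indicator sin) with hu
      set v := nu L ((xdS H j).indicator cos) with hv
      have hn := Real.sqrt_nonneg (u ^ 2 + v ^ 2)
      have hsq := Real.sq_sqrt (show 0 ≤ u ^ 2 + v ^ 2 by positivity)
      rcases hn.eq_or_lt with h0 | h0
      · rw [← hsq, ← h0]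
        norm_num
      set n := √(u ^ 2 + v ^ 2) with hnd
      have a1 : -1 ≤ u / n := by
        rw [le_div_iff₀ h0]
        nlinarith [abs_le_of_sq_le_sq' (show u ^ 2 ≤ n ^ 2 by nlinarith [sq_nonneg v]) hn]
      have a2 : u / n ≤ 1 := by
        rw [div_le_iff₀ h0]
        nlinarith [abs_le_of_sq_le_sq' (show u ^ 2 ≤ n ^ 2 by nlinarith [sq_nonneg v]) hn]
      have c1 : cos (arccos (u / n)) = u / n := cos_arccos a1 a2
      have c2 : sin (arccos (u / n)) = -v / n := by
        rw [sin_arccos, sqrt_eq_iff_mul_self_eq (by nlinarith) (by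
          exact div_nonneg (by linarith) hn)]
        field_simp
        nlinarith
      refine xd_norm_le hL hS (xd_good_cont (by fun_prop))
        (phi (arccos (u / n)) ⟨arccos_nonneg _, arccos_le_pi _⟩) hu hv
        (fun e => le_max_right _ _) fun e _ => ?_
      refine le_trans (le_of_eq ?_) (mul_le_mul_of_nonneg_left (le_max_left _ _) hn)
      rw [sin_sub, c1, c2]
      field_simp
      ring
  have e1 : nu L H.h ≤ nu L fun e => ∑ j ∈ Finset.range H.r, xdT H j e :=
    xd_nu_mono hL (fun a b => H.h_int) (xd_good_sum (xd_goodT H))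
      fun e e0 e1 => (xd_h_eq H e0 e1).le
  rw [xd_nu_sum hL (xd_goodT H)] at e1
  refine e1.trans ?_
  have e2 : ∀ j ∈ Finset.range H.r, nu L (xdT H j) ≤ H.l (j + 1) - H.l j := by
    intro j _
    have := xd_nu_lin hL (xd_good_ind (xd_meas H j) continuous_sin)
      (xd_good_ind (xd_meas H j) continuous_cos) (H.X (j + 1) - H.X j) (H.Y (j + 1) - H.Y j)
    have h2 := (Half.cs (x := H.X (j + 1) - H.X j) (y := H.Y (j + 1) - H.Y j) (hV j)).trans
      (H.step j)
    change nu L (xdT H j) = _ at this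
    linarith
  refine (Finset.sum_le_sum e2).trans ?_
  rw [Finset.sum_range_sub, H.l0, sub_zero]
  exact le_rfl

end Pool.Agent.P.MP_d76e6a_co
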