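import Pool.Agent.P.MP_d76e6a_co.GArc
import Pool.Agent.P.MP_d76e6a_co.XDual

/-!
Curves that meet the direction `g` before the bottom on both halves are not shorter than the
best symmetric convex arc.
-/

namespace Pool.Agent.P.MP_d76e6a_co

open Real

/-- The gain of a unit upward step after the bottom. -/
noncomputable def om (g ψ : ℝ) : ℝ :=
  if cos g ≤ cos ψ then 0 else if 0 ≤ cos ψ then 1 else |sin ψ|

theorem om_nonneg (g ψ : ℝ) : 0 ≤ om g ψ := by
  unfold om
  split_ifs
  · exact le_rfl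
  · exact zero_le_one
  · exact abs_nonneg _

theorem om_le_one (g ψ : ℝ) : om g ψ ≤ 1 := by
  unfold om
  split_ifs
  · exact zero_le_one
  · exact le_rfl
  · exact abs_sin_le_one _

theorem Half.prim_step (H : Half) {g : ℝ} (g0 : 0 ≤ g) (g1 : g ≤ π) (h : H.d g < H.d π) (j : ℕ) :
    ∃ F m c t, Cone F m ∧ 0 ≤ t ∧ m + t ≤ H.l (j + 1) - H.l j ∧
      ∀ e, 0 ≤ e → e ≤ π → xdT H j e ≤ F e + c * cos e + t * om g e := by
  have st := H.step j
  have hpi := pi_pos
  have on : ∀ e ∈ xdS H j, xdT H j e =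
      (H.X (j + 1) - H.X j) * sin e + (H.Y (j + 1) - H.Y j) * cos e := fun e he => by
    rw [xdT, Set.indicator_of_mem he, Set.indicator_of_mem he]
  have off : ∀ e ∉ xdS H j, xdT H j e = 0 := fun e he => by
    rw [xdT, Set.indicator_of_notMem he, Set.indicator_of_notMem he, mul_zero, mul_zero, add_zero]
  set u := H.X (j + 1) - H.X j
  set v := H.Y (j + 1) - H.Y j
  have su : ∀ e, u * sin e ≤ |sin e| * |u| := fun e => by
    rw [← abs_mul, mul_comm]; exact le_abs_self _
  rcases le_total v 0 with c | c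
  · refine ⟨kv |u| (-v), _, 0, 0, Cone.one (abs_nonneg _) (by linarith) le_rfl, le_rfl,
      by rwa [sq_abs, neg_sq, add_zero], fun e _ _ => ?_⟩
    by_cases he : e ∈ xdS H j
    · rw [on e he]
      linarith [kv_ge |u| (-v) e, su e]
    · rw [off e he]
      linarith [kv_nonneg |u| (-v) e]
  rcases lt_or_ge j (H.d π) with hj | hj
  · have hπ : π ∈ xdS H j := ⟨⟨hpi.le, le_rfl⟩, hj⟩
    have cone : Cone (kv |u| 0) √(u ^ 2 + v ^ 2) := Cone.one (abs_nonneg _) le_rfl
      (sqrt_le_sqrt (by rw [sq_abs]; nlinarith [sq_nonneg v]))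
    by_cases hm : π / 2 ∈ xdS H j
    · refine ⟨_, _, v, 0, cone, le_rfl, by linarith, fun e e0 e1 => ?_⟩
      by_cases he : e ∈ xdS H j
      · rw [on e he]
        linarith [kv_ge |u| 0 e, su e]
      · rw [off e he]
        have : e ≤ π / 2 := not_lt.1 fun hc => he (xd_between H hm hπ hc.le e1)
        have := mul_nonneg c (cos_nonneg_of_neg_pi_div_two_le_of_le (by linarith) this)
        linarith [kv_nonneg |u| 0 e]
    · refine ⟨_, _, 0, 0, cone, le_rfl, by linarith, fun e e0 e1 => ?_⟩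
      by_cases he : e ∈ xdS H j
      · rw [on e he]
        have : π / 2 ≤ e := not_lt.1 fun hc => hm (xd_between H he hπ hc.le (by linarith))
        have := mul_nonpos_of_nonneg_of_nonpos c
          (cos_nonpos_of_pi_div_two_le_of_le this (by linarith))
        linarith [kv_ge |u| 0 e, su e]
      · rw [off e he]
        linarith [kv_nonneg |u| 0 e]
  · refine ⟨_, _, 0, √(u ^ 2 + v ^ 2), Cone.zero, sqrt_nonneg _, by linarith, fun e e0 e1 => ?_⟩
    by_cases he : e ∈ xdS H j
    · rw [on e he]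
      have ge : g < e := not_le.1 fun hc => by
        have := H.bt' e0 hc g1 h
        have := he.2
        omega
      rw [om, if_neg (not_le.2 (cos_lt_cos_of_nonneg_of_le_pi g0 e1 ge))]
      split_ifs with k
      · have := Half.cs (x := u) (y := v) (sin_sq_add_cos_sq e).le
        linarith
      · have a1 : |u| ≤ √(u ^ 2 + v ^ 2) := abs_le_sqrt (by nlinarith [sq_nonneg v])
        have a2 := mul_le_mul_of_nonneg_left a1 (abs_nonneg (sin e))
        have a3 := mul_nonpos_of_nonneg_of_nonpos c (not_le.1 k).le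
        linarith [su e]
    · rw [off e he]
      linarith [mul_nonneg (sqrt_nonneg (u ^ 2 + v ^ 2)) (om_nonneg g e)]

theorem Half.prim (H : Half) {g : ℝ} (g0 : 0 ≤ g) (g1 : g ≤ π) (h : H.d g < H.d π) :
    ∃ F m c t, Cone F m ∧ 0 ≤ t ∧ m + t ≤ H.len ∧
      ∀ e, 0 ≤ e → e ≤ π → H.h e ≤ F e + c * cos e + t * om g e := by
  have key : ∀ n, ∃ F m c t, Cone F m ∧ 0 ≤ t ∧ m + t ≤ H.l n ∧ ∀ e, 0 ≤ e → e ≤ π →
      ∑ j ∈ Finset.range n, xdT H j e ≤ F e + c * cos e + t * om g e := by
    intro n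
    induction n with
    | zero => exact ⟨_, _, 0, 0, Cone.zero, le_rfl, by simp [H.l0], by simp⟩
    | succ n ih =>
      obtain ⟨F, m, c, t, a1, a2, a3, a4⟩ := ih
      obtain ⟨F', m', c', t', b1, b2, b3, b4⟩ := H.prim_step g0 g1 h n
      refine ⟨_, _, c + c', t + t', a1.add b1, by linarith, by linarith, fun e e0 e1 => ?_⟩
      rw [Finset.sum_range_succ]
      linarith [a4 e e0 e1, b4 e e0 e1]
  obtain ⟨F, m, c, t, a1, a2, a3, a4⟩ := key H.r
  exact ⟨F, m, c, t, a1, a2, a3, fun e e0 e1 => (xd_h_eq H e0 e1).trans_le (a4 e e0 e1)⟩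

theorem sup_pair (f g : ℝ → ℝ) (ψ : ℝ) : ∃ e a b, 0 ≤ e ∧ e ≤ π ∧ cos e = cos ψ ∧
    |sin e| = |sin ψ| ∧ Sup f g ψ a ∧ Sup g f ψ b ∧ a + b = f e + g e := by
  have h2 : (0 : ℝ) < 2 * π := by positivity
  have hm := toIcoMod_mem_Ico h2 (-π) ψ
  have e2 : ψ = toIcoMod h2 (-π) ψ + (toIcoDiv h2 (-π) ψ : ℤ) * (2 * π) := by
    rw [← zsmul_eq_mul, toIcoMod_add_toIcoDiv_zsmul]
  generalize toIcoMod h2 (-π) ψ = x at hm e2
  generalize toIcoDiv h2 (-π) ψ = k at e2
  have c : cos x = cos ψ := by rw [e2, cos_add_int_mul_two_pi]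
  have s : sin x = sin ψ := by rw [e2, sin_add_int_mul_two_pi]
  rcases le_total 0 x with p | p
  · exact ⟨x, _, _, p, by linarith [hm.2], c, by rw [s], Sup.left f g k p (by linarith [hm.2]) e2,
      Sup.left g f k p (by linarith [hm.2]) e2, rfl⟩
  · refine ⟨-x, _, _, by linarith, by linarith [hm.1], by rw [cos_neg, c],
      by rw [sin_neg, abs_neg, s], Sup.right f g (η := -x) k (by linarith) (by linarith [hm.1])
        (by rwa [neg_neg]), Sup.right g f (η := -x) k (by linarith) (by linarith [hm.1])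
        (by rwa [neg_neg]), add_comm _ _⟩

theorem Cone.even {F : ℝ → ℝ} {m x y : ℝ} (h : Cone F m) (c : cos x = cos y)
    (s : |sin x| = |sin y|) : F x = F y := by
  obtain ⟨ι, t, u, v, -, -, h3⟩ := h
  simp only [h3, kv, c, s]

/-- The lower bound for the class in which `g` is met before the bottom on both halves. -/
def GoodAt (A B g : ℝ) : Prop :=
  ∀ ρ, ∀ L R : Half, Rows ρ L.h R.h A B → Rows ρ R.h L.h A B → L.d g < L.d π → R.d g < R.d π →
    ρ * vU A B ≤ L.len + R.len

theorem GoodAt.mono {A B g g' : ℝ} (h : GoodAt A B g) (g0 : 0 ≤ g) (g1 : g ≤ g') (g2 : g' ≤ π) :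
    GoodAt A B g' := fun ρ L R r1 r2 p q =>
  h ρ L R r1 r2 ((L.bt' g0 g1 g2 p).trans_lt p) ((R.bt' g0 g1 g2 q).trans_lt q)

theorem good_of_sec {A B g s M : ℝ} (hA : 0 < A) (hB : 0 < B) (hπ : A + B < π) (g0 : 0 ≤ g)
    (g1 : g ≤ π) {K : ℝ → ℝ} (hK : Cone K M) (hs : 0 < s)
    (hr : ∀ θ, 1 + s * row A B (om g) θ ≤ row A B K θ) (hM : gval A B * (M - s) ≤ 1) :
    GoodAt A B g := by
  intro ρ L R r1 r2 p q
  have sA : 0 < sin A := sin_pos_of_pos_of_lt_pi hA (by linarith)
  have sB : 0 < sin B := sin_pos_of_pos_of_lt_pi hB (by linarith)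
  have sC : 0 < sin (A + B) := sin_pos_of_pos_of_lt_pi (by linarith) hπ
  obtain ⟨F, m, c, t, a1, a2, a3, a4⟩ := L.prim g0 g1 p
  obtain ⟨F', m', c', t', b1, b2, b3, b4⟩ := R.prim g0 g1 q
  have cone := a1.add b1
  have key : ∀ ψ, ∃ a b, Sup L.h R.h ψ a ∧ Sup R.h L.h ψ b ∧
      a + b ≤ (F ψ + F' ψ) + (c + c') * cos ψ + (t + t') * om g ψ := fun ψ => by
    obtain ⟨e, a, b, e0, e1, k1, k2, k3, k4, k5⟩ := sup_pair L.h R.h ψ
    refine ⟨a, b, k3, k4, ?_⟩
    have k6 : om g e = om g ψ := by simp only [om, k1, k2]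
    rw [k5, ← k1, ← k6, ← a1.even k1 k2, ← b1.even k1 k2]
    linarith [a4 e e0 e1, b4 e e0 e1]
  have t0 : 0 ≤ (t + t') / s := by positivity
  have G0 := gval_pos hA hB hπ
  have main := (cone.add (hK.mul t0)).le_gval (ρ := 2 * ρ + (t + t') / s) sA.le sB.le sC.le
    fun θ => by
      rw [row_add, row_mul]
      obtain ⟨x1, y1, u1, v1, w1⟩ := key (θ + π + A)
      obtain ⟨x2, y2, u2, v2, w2⟩ := key (θ + π - B)
      obtain ⟨x3, y3, u3, v3, w3⟩ := key θ
      have i1 := r1 θ _ _ _ u1 u2 u3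
      have i2 := r2 θ _ _ _ v1 v2 v3
      have i3 := mul_le_mul_of_nonneg_left w1 sB.le
      have i4 := mul_le_mul_of_nonneg_left w2 sA.le
      have i5 := mul_le_mul_of_nonneg_left w3 sC.le
      have z : sin B * cos (θ + π + A) + sin A * cos (θ + π - B) + sin (A + B) * cos θ = 0 := by
        simp only [sin_add, cos_add, cos_sub, cos_pi, sin_pi]; ring
      have i6 : 2 * ρ ≤ row A B (fun ψ => F ψ + F' ψ) θ + (t + t') * row A B (om g) θ := by
        refine le_of_mul_le_mul_right ?_ sC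
        have : (row A B (fun ψ => F ψ + F' ψ) θ + (t + t') * row A B (om g) θ) * sin (A + B) =
            sin B * (F (θ + π + A) + F' (θ + π + A) + (t + t') * om g (θ + π + A))
            + sin A * (F (θ + π - B) + F' (θ + π - B) + (t + t') * om g (θ + π - B))
            + sin (A + B) * (F θ + F' θ + (t + t') * om g θ) := by
          unfold row
          field_simp
          ring
        rw [this]
        have z' : (c + c') * (sin B * cos (θ + π + A) + sin A * cos (θ + π - B)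
          + sin (A + B) * cos θ) = 0 := by rw [z, mul_zero]
        linarith
      have i7 := mul_le_mul_of_nonneg_left (hr θ) t0
      have i8 : (t + t') / s * (1 + s * row A B (om g) θ) =
          (t + t') / s + (t + t') * row A B (om g) θ := by field_simp
      linarith
  rw [vU, ← mul_div_assoc, div_le_iff₀ G0]
  have i1 := mul_le_mul_of_nonneg_left hM t0
  have i2 : (t + t') / s * (gval A B * (M - s)) =
      (t + t') / s * M * gval A B - (t + t') * gval A B := by field_simp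
  have i3 := mul_le_mul_of_nonneg_right (show m + m' + (t + t') ≤ L.len + R.len by linarith) G0.le
  linarith

/-- A polygon arc that reaches across in every position bounds `vU` from above. -/
theorem vU_le {A B M : ℝ} (hA : 0 < A) (hB : 0 < B) (hπ : A + B < π) {K : ℝ → ℝ} (hK : Cone K M)
    (hr : ∀ θ, 1 ≤ row A B K θ) : vU A B ≤ 2 * M := by
  have := hK.le_gval (sin_pos_of_pos_of_lt_pi hA (by linarith)).le
    (sin_pos_of_pos_of_lt_pi hB (by linarith)).le
    (sin_pos_of_pos_of_lt_pi (by linarith) hπ).le hr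
  rw [vU, div_le_iff₀ (gval_pos hA hB hπ)]
  linarith

theorem vU_pos {A B : ℝ} (hA : 0 < A) (hB : 0 < B) (hπ : A + B < π) : 0 < vU A B :=
  div_pos two_pos (gval_pos hA hB hπ)

end Pool.Agent.P.MP_d76e6a_co
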