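import Pool.Agent.P.MP_d76e6a_co.GBad

/-!
The zone in which zigzags compete.
-/

namespace Pool.Agent.P.MP_d76e6a_co

def zL : List (ℕ × ℕ × ℕ) :=
  [(660, 656, 672),
    (644, 672, 688),
    (632, 688, 704),
    (624, 704, 720),
    (612, 720, 736),
    (600, 736, 752),
    (588, 752, 768),
    (576, 768, 784),
    (568, 784, 800),
    (556, 800, 816),
    (548, 816, 832),
    (540, 832, 848),
    (532, 848, 864),
    (524, 864, 880),
    (516, 880, 896),
    (508, 896, 912),
    (500, 912, 928),
    (492, 928, 944),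
    (488, 944, 960),
    (480, 960, 976),
    (472, 976, 992),
    (464, 992, 1008),
    (460, 1008, 1024),
    (452, 1024, 1040),
    (448, 1040, 1056),
    (440, 1056, 1072),
    (436, 1072, 1232)]

def FP (A B : ℝ) : Prop := InZ zL A B ∨ ((A ≤ ang 768 → GP A B) → Full A B)

theorem fp_ok : LeafOK (badL zL) FP := badL_ok zL

end Pool.Agent.P.MP_d76e6a_co
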