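import Pool.Agent.P.MP_d76e6a_co.Half

/-!
The calibration of the Zalgaller curve.
-/

namespace Pool.Agent.P.MP_d76e6a_co

open Real intervalIntegral MeasureTheory

theorem negcos_le {x y : ℝ} (hy : -(π / 2) ≤ y) (hyx : y ≤ x) (hx : x ≤ π) :
    -cos y ≤ max (-cos x) 0 := by
  have hpi := pi_pos
  rcases le_total y 0 with h | h
  · have : 0 ≤ cos y := cos_nonneg_of_neg_pi_div_two_le_of_le hy (by linarith)
    exact le_trans (by linarith) (le_max_right _ _)
  · have : cos x ≤ cos y := cos_le_cos_of_nonneg_of_le_pi h hx hyx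
    exact le_trans (by linarith) (le_max_left _ _)

theorem int_negcos {y1 y0 : ℝ} (h1 : -(π / 2) ≤ y1) (h10 : y1 ≤ y0) (h0 : y0 ≤ 3 * π / 2) :
    (∫ y in y1..y0, max (-cos y) 0) + sin y0 ≤ 1 := by
  have hpi := pi_pos
  have hc : Continuous fun y : ℝ => max (-cos y) 0 := by fun_prop
  have z : ∀ a b : ℝ, -(π / 2) ≤ a → a ≤ b → b ≤ π / 2 → (∫ y in a..b, max (-cos y) 0) = 0 := by
    intro a b ha hab hb
    rw [intervalIntegral.integral_congr (g := fun _ => (0 : ℝ))]
    · simp
    · intro y hy
      rw [Set.uIcc_of_le hab] at hy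
      have : 0 ≤ cos y := cos_nonneg_of_neg_pi_div_two_le_of_le (by linarith [hy.1])
        (by linarith [hy.2])
      exact max_eq_right (by linarith)
  rcases le_total y0 (π / 2) with h | h
  · rw [z y1 y0 h1 h10 h]
    linarith [sin_le_one y0]
  · have m : (∫ y in y1..y0, max (-cos y) 0) ≤ ∫ y in (-(π / 2))..y0, max (-cos y) 0 := by
      apply intervalIntegral.integral_mono_interval h1 h10 le_rfl
      · exact Filter.Eventually.of_forall fun y => le_max_right _ _
      · exact hc.intervalIntegrable _ _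
    rw [← intervalIntegral.integral_add_adjacent_intervals (hc.intervalIntegrable (-(π / 2)) (π / 2))
      (hc.intervalIntegrable (π / 2) y0), z _ _ le_rfl (by linarith) le_rfl] at m
    have e : (∫ y in (π / 2)..y0, max (-cos y) 0) = ∫ y in (π / 2)..y0, -cos y := by
      apply intervalIntegral.integral_congr
      intro y hy
      rw [Set.uIcc_of_le h] at hy
      have : cos y ≤ 0 := cos_nonpos_of_pi_div_two_le_of_le hy.1 (by linarith [hy.2])
      exact max_eq_left (by linarith)
    rw [e, intervalIntegral.integral_neg, integral_cos, sin_pi_div_two] at m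
    linarith

/-- The data of the calibration. -/
structure Cal (a b A B wA wB : ℝ) : Prop where
  ha : 0 ≤ a
  hab : a ≤ b
  hb : b ≤ π / 2
  hD : b - a ≤ 1 / 3
  hcb : cos b ≤ 1 / 3
  hcos : cos a = 2 * cos b
  hA : 0 ≤ A
  hAB : A ≤ B
  hAb : A ≤ π - 2 * b
  hBa : B ≤ a
  wA0 : 0 ≤ wA
  wA1 : wA ≤ 1
  wB0 : 0 ≤ wB
  wB1 : wB ≤ 1
  ws : wA * sin A = wB * sin B
  wc : wA * cos A + wB * cos B = 1

theorem Cal.unit {a b A B wA wB : ℝ} (c : Cal a b A B wA wB) (ω : ℝ) (hω : π / 2 ≤ ω)
    (hω' : ω ≤ 3 * π / 2) :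
    (∫ θ in a..b, (max (cos (ω - θ)) 0 + wA * max (cos (ω - (π - θ - A))) 0
      + wB * max (cos (ω - (π - θ + B))) 0)) + sin a * (-cos ω) ≤ 1 := by
  have hpi := pi_pos
  have hpi3 := pi_gt_three
  obtain ⟨ha, hab, hb, hD, hcb, hcos, hA, hAB, hAb, hBa, wA0, wA1, wB0, wB1, ws, wc⟩ := c
  have hsa : 0 ≤ sin a := sin_nonneg_of_nonneg_of_le_pi ha (by linarith)
  have hsa1 := sin_le_one a
  have hI : IntervalIntegrable (fun θ => max (cos (ω - θ)) 0 + wA * max (cos (ω - (π - θ - A))) 0
      + wB * max (cos (ω - (π - θ + B))) 0) volume a b :=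
    Continuous.intervalIntegrable (by fun_prop) _ _
  rcases le_total ω (π + b) with h | h
  · have pw : ∀ θ ∈ Set.Icc a b, max (cos (ω - θ)) 0 + wA * max (cos (ω - (π - θ - A))) 0
        + wB * max (cos (ω - (π - θ + B))) 0 ≤
        2 * sin ω * sin θ + (max (-cos (ω - θ)) 0 + max (-cos (ω - 2 * b + θ)) 0) := by
      intro θ hθ
      obtain ⟨h1, h2⟩ := hθ
      have e1 := negcos_le (x := ω - 2 * b + θ) (y := ω - (π - θ - A)) (by linarith) (by linarith)
        (by linarith)
      have e2 := negcos_le (x := ω - 2 * b + θ) (y := ω - (π - θ + B)) (by linarith) (by linarith)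
        (by linarith)
      have e3 := negcos_le (x := ω - 2 * b + θ) (y := ω - (π - θ)) (by linarith) (by linarith)
        (by linarith)
      have e4 : wA * cos (ω - (π - θ - A)) + wB * cos (ω - (π - θ + B)) = cos (ω - (π - θ)) := by
        rw [show ω - (π - θ - A) = (ω - (π - θ)) + A by ring,
          show ω - (π - θ + B) = (ω - (π - θ)) - B by ring, cos_add, cos_sub (ω - (π - θ)) B]
        linear_combination cos (ω - (π - θ)) * wc - sin (ω - (π - θ)) * ws
      have e5 : cos (ω - θ) + cos (ω - (π - θ)) = 2 * sin ω * sin θ := by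
        rw [cos_sub, cos_sub, sin_pi_sub, cos_pi_sub]; ring
      have e6 : max (cos (ω - θ)) 0 = cos (ω - θ) + max (-cos (ω - θ)) 0 := by
        rcases le_total (cos (ω - θ)) 0 with q | q
        · rw [max_eq_right q, max_eq_left (by linarith)]; ring
        · rw [max_eq_left q, max_eq_right (by linarith)]; ring
      have e0 : 0 ≤ max (-cos (ω - 2 * b + θ)) 0 := le_max_right _ _
      set N := max (-cos (ω - 2 * b + θ)) 0
      set p := cos (ω - (π - θ - A))
      set q := cos (ω - (π - θ + B))
      have e7 : wA * max p 0 + wB * max q 0 ≤ wA * p + wB * q + N := by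
        rcases le_total p 0 with hp | hp <;> rcases le_total q 0 with hq | hq
        · rw [max_eq_right hp, max_eq_right hq]; linarith
        · rw [max_eq_right hp, max_eq_left hq]; nlinarith
        · rw [max_eq_left hp, max_eq_right hq]; nlinarith
        · rw [max_eq_left hp, max_eq_left hq]; linarith
      linarith
    have hc : Continuous fun y : ℝ => max (-cos y) 0 := by fun_prop
    have m := intervalIntegral.integral_mono_on hab hI
      (Continuous.intervalIntegrable (by fun_prop) _ _) pw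
    have ev : (∫ θ in a..b, 2 * sin ω * sin θ + (max (-cos (ω - θ)) 0
        + max (-cos (ω - 2 * b + θ)) 0)) = 2 * sin ω * (cos a - cos b)
        + ∫ y in (ω - 2 * b + a)..(ω - a), max (-cos y) 0 := by
      rw [intervalIntegral.integral_add (Continuous.intervalIntegrable (by fun_prop) _ _)
        (Continuous.intervalIntegrable (by fun_prop) _ _),
        intervalIntegral.integral_add (Continuous.intervalIntegrable (by fun_prop) _ _)
        (Continuous.intervalIntegrable (by fun_prop) _ _), intervalIntegral.integral_const_mul,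
        integral_sin,
        intervalIntegral.integral_comp_sub_left (fun y => max (-cos y) 0) ω,
        intervalIntegral.integral_comp_add_left (fun y => max (-cos y) 0) (ω - 2 * b),
        show ω - 2 * b + b = ω - b by ring, add_comm (∫ y in (ω - b)..(ω - a), max (-cos y) 0),
        intervalIntegral.integral_add_adjacent_intervals (hc.intervalIntegrable _ _)
          (hc.intervalIntegrable _ _)]
    rw [ev] at m
    have k := int_negcos (y1 := ω - 2 * b + a) (y0 := ω - a) (by linarith) (by linarith)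
      (by linarith)
    rw [sin_sub] at k
    have e : 2 * sin ω * (cos a - cos b) = sin ω * cos a := by rw [hcos]; ring
    linarith
  · have pw : ∀ θ ∈ Set.Icc a b, max (cos (ω - θ)) 0 + wA * max (cos (ω - (π - θ - A))) 0
        + wB * max (cos (ω - (π - θ + B))) 0 ≤ 2 := by
      intro θ hθ
      obtain ⟨h1, h2⟩ := hθ
      have e1 : cos (ω - θ) ≤ 0 := cos_nonpos_of_pi_div_two_le_of_le (by linarith) (by linarith)
      have e2 : max (cos (ω - (π - θ - A))) 0 ≤ 1 := max_le (cos_le_one _) zero_le_one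
      have e3 : max (cos (ω - (π - θ + B))) 0 ≤ 1 := max_le (cos_le_one _) zero_le_one
      have e4 : 0 ≤ max (cos (ω - (π - θ - A))) 0 := le_max_right _ _
      have e5 : 0 ≤ max (cos (ω - (π - θ + B))) 0 := le_max_right _ _
      rw [max_eq_right e1]
      nlinarith
    have m := intervalIntegral.integral_mono_on hab hI
      (Continuous.intervalIntegrable (by fun_prop) _ _) pw
    simp only [intervalIntegral.integral_const, smul_eq_mul] at m
    have e : -cos ω ≤ cos b := by
      have : cos (ω - π) ≤ cos b :=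
        cos_le_cos_of_nonneg_of_le_pi (by linarith) (by linarith) (by linarith)
      rw [cos_sub_pi] at this
      exact this
    have e' : 0 ≤ cos b := cos_nonneg_of_neg_pi_div_two_le_of_le (by linarith) hb
    nlinarith

theorem Cal.vec {a b A B wA wB : ℝ} (c : Cal a b A B wA wB) (x y : ℝ) :
    (∫ θ in a..b, (max (x * sin θ + y * cos θ) 0
      + wA * max (x * sin (π - θ - A) + y * cos (π - θ - A)) 0
      + wB * max (x * sin (π - θ + B) + y * cos (π - θ + B)) 0))
      + sin a * max (x * sin π + y * cos π) 0 ≤ √(x ^ 2 + y ^ 2) := by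
  have hpi := pi_pos
  set r := √(x ^ 2 + y ^ 2) with hr
  have hr0 : 0 ≤ r := sqrt_nonneg _
  rcases le_or_gt 0 y with hy | hy
  · have ip : ∀ t : ℝ, max (x * sin t + y * cos t) 0 ≤ r := by
      intro t
      refine max_le ?_ hr0
      have := Half.cs (u := sin t) (v := cos t) (x := x) (y := y) (sin_sq_add_cos_sq t).le
      linarith
    have pw : ∀ θ ∈ Set.Icc a b, max (x * sin θ + y * cos θ) 0
      + wA * max (x * sin (π - θ - A) + y * cos (π - θ - A)) 0
      + wB * max (x * sin (π - θ + B) + y * cos (π - θ + B)) 0 ≤ 3 * r := by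
      intro θ _
      have e1 := ip θ
      have e2 := ip (π - θ - A)
      have e3 := ip (π - θ + B)
      have e4 : 0 ≤ max (x * sin (π - θ - A) + y * cos (π - θ - A)) 0 := le_max_right _ _
      have e5 : 0 ≤ max (x * sin (π - θ + B) + y * cos (π - θ + B)) 0 := le_max_right _ _
      nlinarith [c.wA0, c.wA1, c.wB0, c.wB1]
    have m := intervalIntegral.integral_mono_on (μ := volume) c.hab
      (Continuous.intervalIntegrable (by fun_prop) _ _)
      (Continuous.intervalIntegrable (by fun_prop) _ _) pw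
    simp only [intervalIntegral.integral_const, smul_eq_mul] at m
    rw [sin_pi, cos_pi, max_eq_right (by linarith)]
    nlinarith [c.hD, c.hab]
  · have hr2 : r ^ 2 = x ^ 2 + y ^ 2 := sq_sqrt (by positivity)
    have hrp : 0 < r := sqrt_pos.2 (by nlinarith [sq_nonneg x])
    have hx1 : -1 ≤ -x / r := by
      rw [le_div_iff₀ hrp]; nlinarith [sq_nonneg y, abs_le_abs (le_refl x)]
    have hx2 : -x / r ≤ 1 := by
      rw [div_le_iff₀ hrp]; nlinarith [sq_nonneg y]
    set ω := π + arcsin (-x / r) with hω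
    have hs : x = r * sin ω := by
      rw [hω, sin_add, sin_pi, cos_pi, sin_arcsin hx1 hx2]; field_simp; ring
    have hc : y = r * cos ω := by
      rw [hω, cos_add, sin_pi, cos_pi, cos_arcsin]
      have : 1 - (-x / r) ^ 2 = (-y / r) ^ 2 := by field_simp; linarith
      rw [this, sqrt_sq (by apply div_nonneg <;> linarith)]
      field_simp; ring
    have key : ∀ t : ℝ, max (x * sin t + y * cos t) 0 = r * max (cos (ω - t)) 0 := by
      intro t
      rw [mul_max_of_nonneg _ _ hr0, mul_zero, cos_sub]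
      congr 1
      conv_lhs => rw [hs, hc]
      ring
    have u := c.unit ω (by linarith [neg_pi_div_two_le_arcsin (-x / r)])
      (by linarith [arcsin_le_pi_div_two (-x / r)])
    have e : (∫ θ in a..b, (max (x * sin θ + y * cos θ) 0
      + wA * max (x * sin (π - θ - A) + y * cos (π - θ - A)) 0
      + wB * max (x * sin (π - θ + B) + y * cos (π - θ + B)) 0)) =
      r * ∫ θ in a..b, (max (cos (ω - θ)) 0 + wA * max (cos (ω - (π - θ - A))) 0
      + wB * max (cos (ω - (π - θ + B))) 0) := by
      rw [← intervalIntegral.integral_const_mul]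
      congr 1
      funext θ
      rw [key, key, key]; ring
    rw [e, sin_pi, cos_pi, max_eq_left (by linarith)]
    have := mul_le_mul_of_nonneg_left u hr0
    have e2 : r * (sin a * -cos ω) = sin a * (x * 0 + y * -1) := by
      conv_rhs => rw [hc]
      ring
    linarith

theorem Half.h_le (H : Half) {s : ℕ} {η : ℝ} (hs : s ≤ H.d η) :
    H.h η ≤ (H.X s * sin η + H.Y s * cos η) + ∑ j ∈ Finset.Ico s H.r,
      max ((H.X (j + 1) - H.X j) * sin η + (H.Y (j + 1) - H.Y j) * cos η) 0 := by
  have t := Finset.sum_Ico_consecutive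
    (fun j => max ((H.X (j + 1) - H.X j) * sin η + (H.Y (j + 1) - H.Y j) * cos η) 0) hs (H.hd η)
  have p : 0 ≤ ∑ j ∈ Finset.Ico (H.d η) H.r,
      max ((H.X (j + 1) - H.X j) * sin η + (H.Y (j + 1) - H.Y j) * cos η) 0 :=
    Finset.sum_nonneg fun j _ => le_max_right _ _
  have q : ∀ n, s ≤ n → H.X n * sin η + H.Y n * cos η ≤ (H.X s * sin η + H.Y s * cos η)
      + ∑ j ∈ Finset.Ico s n,
      max ((H.X (j + 1) - H.X j) * sin η + (H.Y (j + 1) - H.Y j) * cos η) 0 := by
    intro n hn
    induction n, hn using Nat.le_induction with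
    | base => simp
    | succ n hn ih =>
      rw [Finset.sum_Ico_succ_top hn]
      have := le_max_left ((H.X (n + 1) - H.X n) * sin η + (H.Y (n + 1) - H.Y n) * cos η) 0
      linarith
  have := q _ hs
  unfold Half.h
  linarith

theorem Half.sum_step (H : Half) {s : ℕ} (hs : s ≤ H.r) :
    ∑ j ∈ Finset.Ico s H.r, √((H.X (j + 1) - H.X j) ^ 2 + (H.Y (j + 1) - H.Y j) ^ 2)
      ≤ H.len - H.l s := by
  have q : ∀ n, s ≤ n → ∑ j ∈ Finset.Ico s n,
      √((H.X (j + 1) - H.X j) ^ 2 + (H.Y (j + 1) - H.Y j) ^ 2) ≤ H.l n - H.l s := by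
    intro n hn
    induction n, hn using Nat.le_induction with
    | base => simp
    | succ n hn ih =>
      rw [Finset.sum_Ico_succ_top hn]
      have := H.step n
      linarith
  exact q _ hs

/-- One half of the calibration: a continuous majorant with the right integral. -/
theorem Cal.half {a b A B wA wB : ℝ} (c : Cal a b A B wA wB)
    (z1 : cos a + sin a * (wA * sin A + wB * sin B) ≤ 1)
    (z2 : sin a * wB ≤ 2 * sin (a - B)) (H : Half) (hH : H.d B < H.d π) :
    ∃ Φ : ℝ → ℝ, Continuous Φ ∧
      (∀ θ ∈ Set.Icc a b, H.h θ + wA * H.h (π - θ - A) + wB * H.h (π - θ + B) ≤ Φ θ) ∧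
      (∫ θ in a..b, Φ θ) + sin a * (wA * H.h A + wB * H.h B + H.h π) ≤ H.len := by
  have hpi := pi_pos
  have cv := c.vec
  obtain ⟨ha, hab, hb, hD, hcb, hcos, hA, hAB, hAb, hBa, wA0, wA1, wB0, wB1, ws, wc⟩ := c
  have hsa : 0 ≤ sin a := sin_nonneg_of_nonneg_of_le_pi ha (by linarith)
  set s := H.d B with hs
  let Ψ : ℝ → ℝ := fun η => (H.X s * sin η + H.Y s * cos η) + ∑ j ∈ Finset.Ico s H.r,
      max ((H.X (j + 1) - H.X j) * sin η + (H.Y (j + 1) - H.Y j) * cos η) 0
  have hΨ : ∀ η, B ≤ η → η ≤ π → H.h η ≤ Ψ η := fun η h1 h2 =>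
    H.h_le (H.bt (by linarith) h1 h2 hH)
  let F : ℕ → ℝ → ℝ := fun j θ =>
    max ((H.X (j + 1) - H.X j) * sin θ + (H.Y (j + 1) - H.Y j) * cos θ) 0
      + wA * max ((H.X (j + 1) - H.X j) * sin (π - θ - A)
        + (H.Y (j + 1) - H.Y j) * cos (π - θ - A)) 0
      + wB * max ((H.X (j + 1) - H.X j) * sin (π - θ + B)
        + (H.Y (j + 1) - H.Y j) * cos (π - θ + B)) 0
  have hF : ∀ j, Continuous (F j) := fun j => by
    simp only [F]; fun_prop
  refine ⟨fun θ => 2 * H.X s * sin θ + ∑ j ∈ Finset.Ico s H.r, F j θ, ?_, ?_, ?_⟩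
  · exact (by fun_prop : Continuous fun θ => 2 * H.X s * sin θ).add
      (continuous_finsetSum _ fun j _ => hF j)
  · intro θ hθ
    obtain ⟨h1, h2⟩ := hθ
    have e1 := hΨ θ (by linarith) (by linarith)
    have e2 := mul_le_mul_of_nonneg_left (hΨ (π - θ - A) (by linarith) (by linarith)) wA0
    have e3 := mul_le_mul_of_nonneg_left (hΨ (π - θ + B) (by linarith) (by linarith)) wB0
    have e4 : Ψ θ + wA * Ψ (π - θ - A) + wB * Ψ (π - θ + B) =
        2 * H.X s * sin θ + ∑ j ∈ Finset.Ico s H.r, F j θ := by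
      simp only [Ψ, F, Finset.sum_add_distrib, ← Finset.mul_sum]
      have : (H.X s * sin θ + H.Y s * cos θ)
          + wA * (H.X s * sin (π - θ - A) + H.Y s * cos (π - θ - A))
          + wB * (H.X s * sin (π - θ + B) + H.Y s * cos (π - θ + B)) = 2 * H.X s * sin θ := by
        rw [sin_sub (π - θ), cos_sub (π - θ), sin_add (π - θ), cos_add (π - θ), sin_pi_sub,
          cos_pi_sub]
        linear_combination (H.X s * sin θ - H.Y s * cos θ) * wc
          + (H.X s * cos θ + H.Y s * sin θ) * ws
      linarith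
    linarith
  · rw [intervalIntegral.integral_add (Continuous.intervalIntegrable (by fun_prop) _ _)
      ((continuous_finsetSum _ fun j _ => hF j).intervalIntegrable _ _),
      intervalIntegral.integral_const_mul, integral_sin,
      intervalIntegral.integral_finsetSum fun j _ => (hF j).intervalIntegrable _ _]
    have e1 := mul_le_mul_of_nonneg_left (hΨ π (by linarith) le_rfl) hsa
    have e2 : ∑ j ∈ Finset.Ico s H.r, ((∫ θ in a..b, F j θ) + sin a *
        max ((H.X (j + 1) - H.X j) * sin π + (H.Y (j + 1) - H.Y j) * cos π) 0) ≤ H.len - H.l s :=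
      le_trans (Finset.sum_le_sum fun j _ => cv _ _) (H.sum_step (H.hd B))
    rw [Finset.sum_add_distrib, ← Finset.mul_sum] at e2
    have sc := sin_sq_add_cos_sq a
    have scB := sin_sq_add_cos_sq B
    have hca : 0 ≤ cos a := cos_nonneg_of_neg_pi_div_two_le_of_le (by linarith) (by linarith)
    have hsA : 0 ≤ sin A := sin_nonneg_of_nonneg_of_le_pi hA (by linarith)
    have hsB : 0 ≤ sin B := sin_nonneg_of_nonneg_of_le_pi (by linarith) (by linarith)
    have n1 : (cos a + sin a * (wA * sin A + wB * sin B)) ^ 2 + (0 : ℝ) ^ 2 ≤ 1 := by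
      have : 0 ≤ cos a + sin a * (wA * sin A + wB * sin B) := by positivity
      nlinarith
    have n2 : (cos a + sin a * wB * sin B) ^ 2 + (-sin a + sin a * wB * cos B) ^ 2 ≤ 1 := by
      rw [sin_sub] at z2
      have q := mul_le_mul_of_nonneg_left z2 (mul_nonneg hsa wB0)
      have : (cos a + sin a * wB * sin B) ^ 2 + (-sin a + sin a * wB * cos B) ^ 2 =
          1 + sin a * wB * (sin a * wB) - sin a * wB * (2 * (sin a * cos B - cos a * sin B)) := by
        linear_combination sc + (sin a * wB) ^ 2 * scB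
      linarith
    have a1 := H.seg (Nat.zero_le (H.d A)) n1
    have a2 := H.seg (H.bt' hA hAB (by linarith) hH) n2
    rw [H.X0, H.Y0, H.l0] at a1
    simp only [Ψ, sin_pi, cos_pi] at e1 e2
    have e3 : 2 * H.X s * (cos a - cos b) = H.X s * cos a := by rw [hcos]; ring
    have e4 : sin a * (wA * H.h A) = sin a * (wA * sin A) * H.X (H.d A)
        + sin a * (1 - wB * cos B) * H.Y (H.d A) := by
      unfold Half.h
      linear_combination sin a * H.Y (H.d A) * wc
    have e5 : sin a * (wB * H.h B) = sin a * wB * sin B * H.X s + sin a * wB * cos B * H.Y s := by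
      unfold Half.h
      ring
    rw [← hs] at a2
    linarith

theorem good {a b A B wA wB ρ : ℝ} (c : Cal a b A B wA wB)
    (z1 : cos a + sin a * (wA * sin A + wB * sin B) ≤ 1)
    (z2 : sin a * wB ≤ 2 * sin (a - B)) (hσ : 0 < sin (A + B))
    (hwA : sin B = wA * sin (A + B)) (hwB : sin A = wB * sin (A + B))
    (L R : Half) (hL : L.d B < L.d π) (hR : R.d B < R.d π)
    (hP : Pl ρ L.h R.h A B) (hQ : Pl ρ R.h L.h A B) :
    ρ * (2 * (sin a + b - a)) ≤ L.len + R.len := by
  have hpi := pi_pos
  obtain ⟨Φ, hΦ, p1, p2⟩ := c.half z1 z2 L hL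
  obtain ⟨Ψ, hΨ, q1, q2⟩ := c.half z1 z2 R hR
  have hsa : 0 ≤ sin a := sin_nonneg_of_nonneg_of_le_pi c.ha (by linarith [c.hab, c.hb])
  have dv : ∀ x y z : ℝ, ρ * sin (A + B) ≤ sin B * x + sin A * y + sin (A + B) * z →
      ρ ≤ wA * x + wB * y + z := by
    intro x y z h
    refine le_of_mul_le_mul_right ?_ hσ
    have : (wA * x + wB * y + z) * sin (A + B) = wA * sin (A + B) * x + wB * sin (A + B) * y
      + sin (A + B) * z := by ring
    rw [this, ← hwA, ← hwB]
    exact h
  have pw : ∀ θ ∈ Set.Icc a b, 2 * ρ ≤ Φ θ + Ψ θ := by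
    intro θ hθ
    have e1 := p1 θ hθ
    have e2 := q1 θ hθ
    have e3 := dv _ _ _ (hP.side θ (by linarith [hθ.1, c.hBa]) (by linarith [hθ.2, c.hAb, c.ha, c.hab]))
    have e4 := dv _ _ _ (hQ.side θ (by linarith [hθ.1, c.hBa]) (by linarith [hθ.2, c.hAb, c.ha, c.hab]))
    linarith
  have m := intervalIntegral.integral_mono_on (μ := volume) c.hab
    (Continuous.intervalIntegrable (by fun_prop) _ _)
    (Continuous.intervalIntegrable (by fun_prop) _ _) pw
  rw [intervalIntegral.integral_add (hΦ.intervalIntegrable _ _) (hΨ.intervalIntegrable _ _)] at m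
  simp only [intervalIntegral.integral_const, smul_eq_mul] at m
  have u1 := mul_le_mul_of_nonneg_left (dv _ _ _ hP.up1) hsa
  have u2 := mul_le_mul_of_nonneg_left (dv _ _ _ hQ.up1) hsa
  linarith

end Pool.Agent.P.MP_d76e6a_co
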