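import Pool.Agent.P.MP_d76e6a_co.HFin
import Pool.Agent.P.MP_d76e6a_co.GFull

/-!
Reduction of the theorem for all triangles to the zone in which zigzags compete.
-/

namespace Pool.Agent.P.MP_d76e6a_co

open Real EuclideanGeometry

theorem ang_of {X Y Z : ℂ} (hT : AffineIndependent ℝ ![X, Y, Z]) {A B : ℝ} (hA : A = ∠ Y X Z)
    (hB : B = ∠ X Y Z) (h1 : A ≤ B) (h2 : B ≤ ∠ X Z Y) : Ang A B := by
  have hnc : ¬Collinear ℝ {X, Y, Z} := affineIndependent_iff_not_collinear_set.1 hT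
  have a := angle_add_angle_add_angle_eq_pi (p₁ := X) (p₂ := Y) Z (ne₁₂_of_not_collinear hnc).symm
  rw [angle_comm Z X Y, angle_comm Y Z X] at a
  exact ⟨hA ▸ angle_pos_of_not_collinear (by rwa [Set.insert_comm] at hnc), h1, by linarith⟩

theorem cot_le_of {A B : ℝ} (a : Ang A B) (h : 1 ≤ 4 * A * B) : cot B ≤ 4 * A := by
  have A0 := a.h0
  have B0 := A0.trans_le a.h1
  have B1 : B < π / 2 := by linarith [a.h2]
  have c : 0 < cos B := cos_pos_of_mem_Ioo ⟨by linarith, B1⟩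
  have s : 0 < sin B := sin_pos_of_pos_of_lt_pi B0 (by linarith)
  have t := le_tan B0.le B1
  rw [tan_eq_sin_div_cos, le_div_iff₀ c] at t
  rw [cot_eq_cos_div_sin, div_le_iff₀ s]
  nlinarith [mul_le_mul_of_nonneg_left t A0.le, mul_le_mul_of_nonneg_right h c.le]

theorem zone_cot {A B : ℝ} (a : Ang A B) (z : InZ zL A B) : cot B ≤ 4 * A := by
  obtain ⟨t, ht, h1, h2, -⟩ := z
  have k : 436 ≤ t.1 ∧ 656 ≤ t.2.1 := (by decide : ∀ t ∈ zL, 436 ≤ t.1 ∧ 656 ≤ t.2.1) t ht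
  have p1 := (ang_mono k.1).trans h1
  have p2 := (ang_mono k.2).trans h2
  unfold ang at p1 p2
  push_cast at p1 p2
  have := pi_gt_three
  have q1 : 9 / 20 ≤ A := by linarith
  have q2 : 2 / 3 ≤ B := by linarith
  exact cot_le_of a (by linarith [mul_le_mul q1 q2 (by norm_num) a.h0.le])

theorem full_or_core {A B : ℝ} (a : Ang A B)
    (zc : InZ zL A B → (A ≤ ang 768 → GP A B) → ∀ v, Low2 A B v → Core A B v) :
    Full A B ∨ (cot B ≤ 4 * A ∧ ∀ v, Low2 A B v → Core A B v) :=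
  (full_or_zone a.h0 a.h1 a.h2).symm.imp_right fun z =>
    ⟨zone_cot a z, zc z (good_all a.h0 a.h1 a.h2)⟩

end Pool.Agent.P.MP_d76e6a_co
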