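import Pool.Agent.P.MP_d76e6a_co.HZc

/-!
A second certificate for the zigzag with three equal segments, and its check on a box.
-/

namespace Pool.Agent.P.MP_d76e6a_co

open Real

/-- Two early masses, followed by three masses with ordered directions. -/
theorem Half.chainQ (H : Half) {t0 t1 t2 t3 t4 : ℝ} (o0 : H.d t0 ≤ H.d t1) (o2 : H.d t1 ≤ H.d t2)
    (o4 : H.d t1 ≤ H.d t4) (oq : min (H.d t2) (H.d t4) ≤ H.d t3) {ξ N : ℝ} (hξ : ξ ^ 2 * N ≤ 1)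
    {x0 x1 x2 x3 x4 y0 y1 y2 y3 y4 : ℝ}
    (n0 : (x0 + x1 + x2 + x3 + x4) ^ 2 + (y0 + y1 + y2 + y3 + y4) ^ 2 ≤ N)
    (n1 : (x1 + x2 + x3 + x4) ^ 2 + (y1 + y2 + y3 + y4) ^ 2 ≤ N)
    (n2 : (x2 + x3 + x4) ^ 2 + (y2 + y3 + y4) ^ 2 ≤ N) (n3 : (x2 + x3) ^ 2 + (y2 + y3) ^ 2 ≤ N)
    (n4 : (x3 + x4) ^ 2 + (y3 + y4) ^ 2 ≤ N) (n5 : x2 ^ 2 + y2 ^ 2 ≤ N)
    (n6 : x3 ^ 2 + y3 ^ 2 ≤ N) (n7 : x4 ^ 2 + y4 ^ 2 ≤ N) :
    ξ * ((H.X (H.d t0) * x0 + H.Y (H.d t0) * y0) + (H.X (H.d t1) * x1 + H.Y (H.d t1) * y1)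
      + (H.X (H.d t2) * x2 + H.Y (H.d t2) * y2) + (H.X (H.d t3) * x3 + H.Y (H.d t3) * y3)
      + (H.X (H.d t4) * x4 + H.Y (H.d t4) * y4)) ≤ H.len := by
  have := H.sum_le Finset.univ ![H.d t0, H.d t1, H.d t2, H.d t3, H.d t4]
    (fun k => by fin_cases k <;> exact H.hd _) ![ξ * x0, ξ * x1, ξ * x2, ξ * x3, ξ * x4]
    ![ξ * y0, ξ * y1, ξ * y2, ξ * y3, ξ * y4] (fun j => ?_)
  · simp only [Fin.sum_univ_five, Matrix.cons_val] at this
    linarith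
  have k : ∀ {x y}, x ^ 2 + y ^ 2 ≤ N → (ξ * x) ^ 2 + (ξ * y) ^ 2 ≤ 1 := fun h => by
    linarith [mul_le_mul_of_nonneg_left h (sq_nonneg ξ)]
  simp only [Fin.sum_univ_five, Matrix.cons_val]
  split_ifs
  all_goals first
    | (exfalso; omega)
    | (simp only [add_zero, zero_add, ← mul_add]
       first
        | exact k n0
        | exact k n1
        | exact k n2
        | exact k n3
        | exact k n4
        | exact k n5
        | exact k n6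
        | exact k n7)
    | simp

theorem dev_le {q s u v : ℝ} (s0 : 0 ≤ s) (h : 2 * (3 * u + q * v) + s * (u * u + v * v) ≤ 0) :
    (3 + s * u) ^ 2 + (q + s * v) ^ 2 ≤ 9 + q ^ 2 := by
  linarith [mul_le_mul_of_nonneg_left h s0]

theorem sqp {x y u v N : ℝ} (h : u ^ 2 + v ^ 2 ≤ N) (hx : x = u) (hy : y = v) :
    x ^ 2 + y ^ 2 ≤ N := hx ▸ hy ▸ h

theorem sqn {x y u v N : ℝ} (h : u ^ 2 + v ^ 2 ≤ N) (hx : x = u) (hy : y = -v) :
    x ^ 2 + y ^ 2 ≤ N := by rwa [hx, hy, neg_sq]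

theorem b_cert2 {τ γ A B β y : ℝ} {L R : Half} (r1 : RowsT τ (γ * alt A B) L R A B)
    (r2 : RowsT τ (γ * alt A B) R L A B) (hτ : 0 ≤ τ) (an : Ang A B) (b0 : 0 ≤ β) (b1 : β ≤ y)
    (b2 : y ≤ A) (b3 : y - β ≤ τ) (d2 : R.d β < R.d π) (d3 : R.d π ≤ R.d y)
    {p q s m a b ρ e l pL g1 g2 d1 d3' : ℝ} (hp : p = cos A / sin A) (hq : q = cos B / sin B)
    (hs : s = sin β) (hm : cos β = 1 - s * m) (ha : a = 3 - b) (he : e = 2 * q + (ρ - 6) * s)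
    (hl : l = b * (p + q) - e) (hL : pL = a * (p + q) - (2 * q + ρ * s)) (h1 : g1 = b * (q - m))
    (h2 : g2 = b * (1 + q * m)) (h3 : d1 = g1 - e) (h4 : d3' = e * m - (ρ - 6) - g2)
    (k1 : 0 ≤ b) (k2 : b ≤ a) (k3 : 0 ≤ e) (k4 : 0 ≤ l) (k5 : l ≤ 3) (k6 : 0 ≤ pL) (k7 : pL ≤ 3)
    (k8 : 0 ≤ 2 * q + ρ * s) :
    2 * (3 * g1 + q * -(g2 + ρ)) + s * (g1 * g1 + -(g2 + ρ) * -(g2 + ρ)) ≤ 0 →
    2 * (3 * d1 + q * d3') + s * (d1 * d1 + d3' * d3') ≤ 0 →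
    2 * (3 * d1 + q * (ρ - d3')) + s * (d1 * d1 + (ρ - d3') * (ρ - d3')) ≤ 0 →
    (3 + s * g1) ^ 2 + (pL - (q - s * (g2 + ρ))) ^ 2 ≤ 9 + q ^ 2 →
    (3 + s * g1 - a) ^ 2 + (q - s * (g2 + ρ) + a * p) ^ 2 ≤ 9 + q ^ 2 →
    a ^ 2 + (a * p) ^ 2 ≤ 9 + q ^ 2 →
    (a + l * s) ^ 2 + (a * q + l * (1 - s * m)) ^ 2 ≤ 9 + q ^ 2 →
    (3 + s * d1 - l * s) ^ 2 + (q + s * d3' - l * (1 - s * m)) ^ 2 ≤ 9 + q ^ 2 →
    γ * bV B ≤ L.len + R.len := by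
  obtain ⟨sA, sAB, sBC⟩ := an.sins
  have A0 := an.h0
  have A1 := an.h1
  have A2 := an.h2
  have hpi := pi_pos
  have sB : 0 < sin B := by linarith
  have sC : 0 < sin (A + B) := by linarith
  have s0 : 0 ≤ s := hs ▸ sin_nonneg_of_nonneg_of_le_pi b0 (by linarith)
  have e1 : s ^ 2 + (1 - s * m) ^ 2 = 1 := by rw [← hm, hs]; exact sin_sq_add_cos_sq β
  have cB : 0 ≤ cos B := cos_nonneg_of_mem_Icc ⟨by linarith, by linarith⟩
  have q0 : 0 ≤ q := hq ▸ div_nonneg cB sB.le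
  have qp : q ≤ p := by
    rw [hp, hq]
    exact div_le_div₀ (cB.trans (cos_le_cos_of_nonneg_of_le_pi A0.le (by linarith) A1))
      (cos_le_cos_of_nonneg_of_le_pi A0.le (by linarith) A1) sA sAB
  have ex : cos A = p * sin A := by rw [hp]; field_simp
  have ey : cos B = q * sin B := by rw [hq]; field_simp
  have eC : sin (A + B) = (p + q) * (sin A * sin B) := by rw [sin_add, ex, ey]; ring
  have S0 : 0 < p + q := (mul_pos_iff_of_pos_right (mul_pos sA sB)).1 (eC ▸ sC)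
  have eh : alt A B * (p + q) = 1 := by rw [alt, eC]; field_simp
  have a0 : 0 ≤ a := k1.trans k2
  have w := rows4 r1 r2 hτ an (α := 0) (yL := 0) le_rfl le_rfl A0.le (by linarith) b0 b1 b2 b3
    (np := a * (p + q)) (nm := 0) (ea := 0) (la := 0) (eb := e) (lb := l) (να := 0)
    (νβ := b / sin B) (pL := pL) (pR := 2 * q + ρ * s) (by positivity) le_rfl le_rfl le_rfl k3 k4 k6
    k8 (by rw [hL]; ring) (by ring) (by rw [eC, hl]; field_simp; ring)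
  have f0 : alt A B * (a * (p + q)) = a := by linear_combination a * eh
  have f1 : b / sin B * sin (B + β) = b * (1 - s * m + q * s) := by
    rw [sin_add, ey, hm, ← hs]; field_simp
  have f2 : b / sin B * cos (B + β) = b * (q * (1 - s * m) - s) := by
    rw [cos_add, ey, hm, ← hs]; field_simp
  have f3 : b / sin B * (sin B / sin A) * sin (A - β) = b * (1 - s * m - p * s) := by
    rw [sin_sub, ex, hm, ← hs]; field_simp
  have f4 : b / sin B * (sin B / sin A) * cos (A - β) = b * (p * (1 - s * m) + s) := by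
    rw [cos_sub, ex, hm, ← hs]; field_simp
  simp only [part, f0, f1, f2, f3, f4, ← hp, ← hq, ← hs, hm, mul_zero, zero_mul, add_zero, sub_zero,
    zero_add] at w
  have N0 : 0 < 9 + q ^ 2 := by positivity
  have hξ : (1 / √(9 + q ^ 2)) ^ 2 * (9 + q ^ 2) ≤ 1 := by
    rw [div_pow, sq_sqrt N0.le, one_pow, div_mul_cancel₀ _ N0.ne']
  have o1 := L.qc A (π - B - β) π A0.le (by linarith) (by linarith) le_rfl
  have o2 := R.qc y (π - A + β) π (by linarith) (by linarith) (by linarith) le_rfl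
  have o3 := R.qc y B (π - A + β) (by linarith) (by linarith) (by linarith) (by linarith)
  have ev : γ * bV B = 1 / √(9 + q ^ 2) * (γ * alt A B * (a * (p + q) + (e + l))) := by
    rw [bV, cot_eq_cos_div_sin, ← hq, hl, ha]
    linear_combination -3 * γ / √(9 + q ^ 2) * eh
  replace w := mul_le_mul_of_nonneg_left w (show 0 ≤ 1 / √(9 + q ^ 2) by positivity)
  have sq3 : ∀ {u : ℝ}, 0 ≤ u → u ≤ 3 → u ^ 2 ≤ 9 + q ^ 2 := fun u0 u1 => by
    linarith only [pow_le_pow_left₀ u0 u1 2, sq_nonneg q]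
  intro F0 F3 F2 c1 c2 c3 c4 c5
  have bd : ∀ {u r}, 0 ≤ u → u ≤ a → 0 ≤ r → r ≤ p → u ^ 2 * (1 + r ^ 2) ≤ 9 + q ^ 2 :=
    fun {u r} u0 u1 r0 r1 => le_trans (by gcongr : _ ≤ a ^ 2 * (1 + p ^ 2)) (by linarith only [c3])
  have T0 := dev_le s0 F0
  have u1 := L.chainQ (t0 := 0) le_rfl (t2 := A) (by simp [L.d0]) (t4 := π) (by simp [L.d0])
    o1 hξ (x0 := 0) (y0 := 0) (x1 := 0)
    (y1 := 0) (x2 := a) (y2 := a * p) (x3 := b * (1 - s * m + q * s))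
    (y3 := -(b * (q * (1 - s * m) - s))) (x4 := 0) (y4 := -pL)
    (sqn T0 (by rw [h1, ha]; ring) (by rw [h2, hL, ha]; ring))
    (sqn T0 (by rw [h1, ha]; ring) (by rw [h2, hL, ha]; ring))
    (sqn T0 (by rw [h1, ha]; ring) (by rw [h2, hL, ha]; ring))
    (sqp c1 (by rw [h1, ha]; ring) (by rw [h2, hL, ha]; ring))
    (sqn c2 (by rw [h1, ha]; ring) (by rw [h2, hL, ha]; ring)) c3
    (le_of_eq_of_le (by linear_combination b ^ 2 * (1 + q ^ 2) * e1) (bd k1 k2 q0 qp))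
    (le_of_eq_of_le (by ring) (sq3 k6 k7))
  have u2 := R.chainQ d2.le d3 (t4 := π - A + β) (by omega) o3 hξ (x0 := e * s)
    (y0 := e * (1 - s * m)) (x1 := 0) (y1 := -(2 * q + ρ * s)) (x2 := l * s) (y2 := l * (1 - s * m))
    (x3 := a) (y3 := a * q) (x4 := b * (1 - s * m - p * s)) (y4 := -(b * (p * (1 - s * m) + s)))
    (sqp T0 (by rw [h1, hl, ha]; ring) (by rw [h2, hl, ha]; ring))
    (sqn (dev_le s0 F2) (by rw [h3, h1, hl, ha]; ring) (by rw [h4, h2, hl, ha, he]; ring))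
    (sqp (dev_le s0 F3) (by rw [h3, h1, hl, ha]; ring) (by rw [h4, h2, hl, ha, he]; ring))
    (sqp c4 (by ring) (by ring))
    (sqp c5 (by rw [h3, h1, hl, ha]; ring) (by rw [h4, h2, hl, ha, he]; ring))
    (le_of_eq_of_le (by linear_combination l ^ 2 * e1) (sq3 k4 k5))
    (le_of_eq_of_le (by ring) (bd a0 le_rfl q0 qp))
    (le_of_eq_of_le (by linear_combination b ^ 2 * (1 + p ^ 2) * e1) (bd k1 k2 (q0.trans qp) le_rfl))
  linarith only [ev, w, u1, u2]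

def nNT (N x y : T3) : Bool := gT x fun x => gT y fun y => nnT (wsb N ((x.mul x).add (y.mul y)))

theorem nNT_spec {S : Env → Prop} {E : Env} {N s t : T3} {q x y : ℝ} (hN : SM S N (9 + q * q))
    (hx : SM S s x) (hy : SM S t y) (e : S E) (h : nNT N s t = true) : x ^ 2 + y ^ 2 ≤ 9 + q ^ 2 := by
  simp only [nNT, gT_eq] at h
  have := (hN.sub ((hx.mul hx).add (hy.mul hy))).nn e h
  linarith

def dvT (q s u v : T3) : Bool := gT v fun v =>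
  nnT ((PT.nm 2 ((PT.nm 3 u).add (q.mul v))).add (s.mul ((u.mul u).add (v.mul v)))).neg

theorem dvT_spec {S : Env → Prop} {E : Env} {Q T U V : T3} {q s u v : ℝ} (hq : SM S Q q)
    (hs : SM S T s) (hu : SM S U u) (hv : SM S V v) (e : S E) (h : dvT Q T U V = true) :
    2 * (3 * u + q * v) + s * (u * u + v * v) ≤ 0 := by
  simp only [dvT, gT_eq] at h
  have := ((hu.n3.add (hq.mul hv)).n2.add (hs.mul ((hu.mul hu).add (hv.mul hv)))).neg.nn e h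
  linarith

noncomputable def bcK2 (b : Bx) (z th k : ℕ) : Bool :=
  gT (angT z z 0 0 0) fun H => scK H fun sh ch => invK ch fun ic => gT (sh.mul ic) fun m =>
  gT (PT.nm 2 (sh.mul ch)) fun s => gT (cT 3298534883328) fun c3 =>
  gT (wsb (cT (Nat.mul th 12884901888)) ((cT (Nat.mul k 206158430208)).mul s)) fun w =>
  gT (wsb c3 w) fun a => gT (cT (Nat.sub 4398046511104 (Nat.mul th 8589934592))) fun ρ =>
  gT (wsb ρ (cT 6597069766656)) fun ρ6 => gT (PT.nm 2 b.y) fun y2 =>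
  gT (y2.add (ρ6.mul s)) fun e => gT (y2.add (ρ.mul s)) fun pR => gT (b.x.add b.y) fun P =>
  gT (wsb (w.mul P) e) fun l => gT (wsb (a.mul P) pR) fun pL => gT (w.mul (wsb b.y m)) fun g1 =>
  gT (w.mul (oneT.add (b.y.mul m))) fun g2 => gT (wsb g1 e) fun d1 =>
  gT (wsb (wsb (e.mul m) ρ6) g2) fun d3 => gT (g2.add ρ) fun d0 =>
  dvT b.y s g1 d0.neg && dvT b.y s d1 d3 && dvT b.y s d1 (wsb ρ d3) &&
  nnT w && nnT (wsb a w) && nnT e && nnT l && nnT (wsb c3 l) && nnT pL && nnT (wsb c3 pL) &&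
  nnT pR && gT ((cT 9895604649984).add (b.y.mul b.y)) fun N => gT (c3.add (s.mul g1)) fun x0 =>
  gT (wsb b.y (s.mul d0)) fun y0 => gT (a.mul b.x) fun ax => gT (l.mul s) fun ls =>
  gT (l.mul (wsb oneT (s.mul m))) fun lc =>
  nNT N x0 (wsb pL y0) && nNT N (wsb x0 a) (y0.add ax) && nNT N a ax &&
  nNT N (a.add ls) ((a.mul b.y).add lc) &&
  nNT N (wsb (c3.add (s.mul d1)) ls) (wsb (b.y.add (s.mul d3)) lc)

theorem half_id {β : ℝ} (c0 : 0 < cos (β / 2)) : sin β = 2 * (sin (β / 2) * cos (β / 2)) ∧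
    cos β = 1 - sin β * (sin (β / 2) * (1 / cos (β / 2))) := by
  have e1 : sin β = 2 * (sin (β / 2) * cos (β / 2)) := by
    rw [← mul_assoc, ← sin_two_mul]; congr 1; ring
  refine ⟨e1, ?_⟩
  rw [e1, show cos β = cos (2 * (β / 2)) by congr 1; ring, cos_two_mul]
  field_simp
  linear_combination 2 * sin_sq_add_cos_sq (β / 2)

theorem bcK2_spec {a b A B v : ℝ} {E : Env} (e : SB a b E) {x : Bx} (o : BxOK (SB a b) x A B)
    (an : Ang A B) {z th k : ℕ} (h1 : ang z ≤ A) (lo : v ≤ bV B)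
    (h : bcK2 x z th k = true) : BOK A B v z := by
  rintro - τ γ L R hτ hγ r1 r2 ⟨β, yR, b0, b1, b2, b3, d2, d3⟩
  obtain ⟨u, hu, eβ⟩ := ang_coord b0 (b1.trans b2)
  obtain ⟨E, e⟩ := SC.ex e hu (show |(0 : ℝ)| ≤ 1 by simp)
  have o := o.mono (S' := SC a b u 0) fun _ h => h.1
  replace b0 : 0 ≤ β := (ang_nonneg 0).trans b0
  obtain ⟨H, mH, h⟩ := SM.el (S := SC a b u 0) (u := β / 2) (fun E q => SM.cast
    (SM.of (angT_mem E _ _ _ _ _))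
    (by rw [eβ, q.2.1]; simp only [Nat.sub_zero]; push_cast; ring) E rfl) h
  clear eβ
  obtain ⟨sh, ch, msh, mch, h⟩ := mH.scK h
  obtain ⟨c0, ic, mic, h⟩ := mch.invK e h
  obtain ⟨m, mm, h⟩ := (msh.mul mic).el h
  obtain ⟨e1, e2⟩ := half_id c0
  obtain ⟨s, ms, h⟩ := ((msh.mul mch).n2.cast e1.symm).el h
  obtain ⟨c3, m3, h⟩ := ((SM.cst (S := SC a b u 0) _).cast (v := 3) (by norm_num)).el h
  obtain ⟨w, mw, h⟩ := ((SM.cst (Nat.mul th 12884901888)).sub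
    ((SM.cst (Nat.mul k 206158430208)).mul ms)).el h
  obtain ⟨a', ma, h⟩ := (m3.sub mw).el h
  obtain ⟨ρ, mρ, h⟩ := (SM.cst (S := SC a b u 0)
    (Nat.sub 4398046511104 (Nat.mul th 8589934592))).el h
  generalize ((Nat.sub 4398046511104 (Nat.mul th 8589934592) : ℕ) : ℝ) / 1099511627776 = r at mρ
  obtain ⟨ρ6, m6, h⟩ := (mρ.sub ((SM.cst _).cast (v := 6) (by norm_num))).el h
  obtain ⟨y2, my, h⟩ := o.y.n2.el h
  obtain ⟨e', me, h⟩ := (my.add (m6.mul ms)).el h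
  obtain ⟨pR, mR, h⟩ := (my.add (mρ.mul ms)).el h
  obtain ⟨P, mP, h⟩ := (o.x.add o.y).el h
  obtain ⟨l, ml, h⟩ := ((mw.mul mP).sub me).el h
  obtain ⟨pL, mL, h⟩ := ((ma.mul mP).sub mR).el h
  obtain ⟨g1, n1, h⟩ := (mw.mul (o.y.sub mm)).el h
  obtain ⟨g2, n2, h⟩ := (mw.mul (SM.one.add (o.y.mul mm))).el h
  obtain ⟨d1, n3, h⟩ := (n1.sub me).el h
  obtain ⟨d3', n4, h⟩ := (((me.mul mm).sub m6).sub n2).el h
  obtain ⟨d0, n0, h⟩ := (n2.add mρ).el h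
  simp only [Bool.and_eq_true] at h
  obtain ⟨⟨⟨⟨⟨⟨⟨⟨⟨⟨⟨j1, j2⟩, j3⟩, j4⟩, j5⟩, j6⟩, j7⟩, j8⟩, j9⟩, j10⟩, j11⟩, h⟩ := h
  obtain ⟨N, mN, h⟩ := (((SM.cst _).cast (v := 9) (by norm_num)).add (o.y.mul o.y)).el h
  obtain ⟨x0, mx, h⟩ := (m3.add (ms.mul n1)).el h
  obtain ⟨y0, my0, h⟩ := (o.y.sub (ms.mul n0)).el h
  obtain ⟨ax, max', h⟩ := (ma.mul o.x).el h
  obtain ⟨ls, mls, h⟩ := (ml.mul ms).el h
  obtain ⟨lc, mlc, h⟩ := (ml.mul (SM.one.sub (ms.mul mm))).el h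
  simp only [Bool.and_eq_true] at h
  obtain ⟨⟨⟨⟨i1, i2⟩, i3⟩, i4⟩, i5⟩ := h
  exact (mul_le_mul_of_nonneg_left lo hγ).trans (b_cert2 r1 r2 hτ an b0 b1 (b2.trans h1) b3 d2 d3
    rfl rfl rfl e2 rfl rfl rfl rfl rfl rfl rfl rfl (mw.nn e j4)
    (sub_nonneg.1 ((ma.sub mw).nn e j5)) (me.nn e j6) (ml.nn e j7)
    (sub_nonneg.1 ((m3.sub ml).nn e j8)) (mL.nn e j9) (sub_nonneg.1 ((m3.sub mL).nn e j10))
    (mR.nn e j11) (dvT_spec o.y ms n1 n0.neg e j1) (dvT_spec o.y ms n3 n4 e j2)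
    (dvT_spec o.y ms n3 (mρ.sub n4) e j3) (nNT_spec mN mx (mL.sub my0) e i1) (nNT_spec mN (mx.sub ma) (my0.add max') e i2)
    (nNT_spec mN ma max' e i3) (nNT_spec mN (ma.add mls) ((ma.mul o.y).add mlc) e i4)
    (nNT_spec mN ((m3.add (ms.mul n3)).sub mls) ((o.y.add (ms.mul n4)).sub mlc) e i5))

end Pool.Agent.P.MP_d76e6a_co
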