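import Pool.Agent.P.MP_d76e6a_co.WTab
import Pool.Agent.P.MP_d76e6a_co.GDefs

/-!
The four families of zigzags and the candidates for the shortest escape path.
Lengths are in units of the side `c` between the angles `A` and `B`.
-/

namespace Pool.Agent.P.MP_d76e6a_co

open Real

/-- The vertices of the point-symmetric zigzag with slope angles `s`, `-t`, `s`. -/
noncomputable def zPts (A B s t : ℝ) : List ℂ :=
  let H := 1 / (1 / alt A B + cot s + cot t)
  [⟨0, 0⟩, ⟨H * cot s, H⟩, ⟨H * (cot s + cot t), 0⟩, ⟨H * (2 * cot s + cot t), H⟩]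

/-- The height of the end points of the zigzag `vPts`. -/
noncomputable def vy (A B f g : ℝ) : ℝ :=
  (wk B f - 1) / (wk B f / alt A B - sin (g + f - A) / (sin A * sin g))

/-- The vertices of the mirror-symmetric zigzag with slope angles `-g`, `2 f`, `0`, `-2 f`, `g`. -/
noncomputable def vPts (A B f g : ℝ) : List ℂ :=
  let y := vy A B f g
  let x := (1 - y / alt A B) / 2
  let u := y * sin (g + 2 * f) / sin g
  [⟨-x, y⟩, ⟨-(x - y * cot g), 0⟩, ⟨-(x - u * cot f), y + u⟩, ⟨x - u * cot f, y + u⟩,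
    ⟨x - y * cot g, 0⟩, ⟨x, y⟩]

/-- The range of the parameters of `zPts`. -/
def ZVal (A s t : ℝ) : Prop :=
  A ≤ s ∧ s ≤ π / 2 ∧ 1 / 20 ≤ t ∧ t ≤ π / 2 ∧ 1 ≤ sin A * sin s * (cot s + cot t)

/-- The range of the parameters of `vPts`. -/
def VVal (A B f g : ℝ) : Prop :=
  1 / 30 ≤ f ∧ 2 * f ≤ A ∧ A ≤ g + f ∧ g + f ≤ π / 2 ∧
    sin (A - g) ≤ 2 * cos (g + f) * sin f * sin B ∧
    (wk B f - 1) * wk A f
      ≤ (wk A f - 1) * (wk B f - alt A B * sin (g + f - A) / (sin A * sin g)) ∧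
    2 * vy A B f g * sin (g + 2 * f) * cot f ≤ (1 - vy A B f g / alt A B) * sin g

/-- `l` is the list of vertices of a zigzag of one of the four families. -/
def Zig4 (A B : ℝ) (l : List ℂ) : Prop :=
  (cot B ≤ 4 * A ∧ l = bPts B) ∨ (∃ φ, 0 < φ ∧ 2 * φ ≤ A ∧ l = wPts A B φ) ∨
    (∃ s t, ZVal A s t ∧ l = zPts A B s t) ∨ ∃ f g, VVal A B f g ∧ l = vPts A B f g

/-- The candidates, as functions of the altitude: the convex arc and the zigzags. -/
def Cand (A B : ℝ) (η : ℝ → ℝ) (C : ℝ → ℝ → ℂ) : Prop :=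
  C = arc A B η ∨ ∃ l, Zig4 A B l ∧ C = zigzag A B l

end Pool.Agent.P.MP_d76e6a_co
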