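import Mathlib

/-!
The region in which a zigzag is shorter than every symmetric convex arc.
-/

namespace Pool.Agent.P.MP_d76e6a_co

/-- The strips `a ≤ A`, `b ≤ B ≤ c` of the region, in units of one sixteenth of a degree. -/
def zW : List (ℕ × ℕ × ℕ) :=
  [(678, 680, 696), (668, 696, 712), (656, 712, 728), (644, 728, 744), (632, 744, 760),
    (622, 760, 776), (612, 776, 792), (604, 792, 808), (594, 808, 824), (586, 824, 840),
    (578, 840, 856), (568, 856, 872), (560, 872, 888), (550, 888, 904), (542, 904, 920),
    (534, 920, 936), (526, 936, 952), (518, 952, 968), (512, 968, 984), (506, 984, 1000),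
    (500, 1000, 1016), (492, 1016, 1032), (486, 1032, 1048), (480, 1048, 1064),
    (476, 1064, 1080), (472, 1080, 1096), (470, 1096, 1112), (468, 1112, 1128),
    (468, 1128, 1144), (466, 1144, 1160), (464, 1160, 1176), (464, 1176, 1192),
    (464, 1192, 1208), (464, 1208, 1224)]

end Pool.Agent.P.MP_d76e6a_co
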