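import Pool.Agent.P.MP_d76e6a_co.XTab
import Pool.Agent.P.MP_d76e6a_co.HDefs
import Pool.Agent.P.MP_d76e6a_co.GBad
import Pool.Agent.P.MP_d76e6a_co.HZt

/-!
The curves that are given by finitely many equations.
-/

namespace Pool.Agent.P.MP_d76e6a_co

/-- `C` is the curve of a template whose region contains `(A, B)`, or `(A, B)` lies in `zW` and
`C` is a shortest zigzag. -/
def Expl (A B h : ℝ) (C : ℝ → ℝ → ℂ) : Prop :=
  (∃ T x, Region T A B ∧ Sys T A B x ∧ C = curve T A B x) ∨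
    (InZ zW A B ∧ ∃ l, Zig4 A B l ∧ C = zigzag A B l ∧
      ∀ m, Zig4 A B m → pathLength (C h) ≤ pathLength (zigzag A B m h))

end Pool.Agent.P.MP_d76e6a_co
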