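import Pool.Agent.P.MP_d76e6a_co.GArc

/-!
The exact length of the convex arc.
-/

namespace Pool.Agent.P.MP_d76e6a_co

open Real

theorem apt_chord {η : ℝ → ℝ} (h : Monotone η) {a b : ℝ} (hab : a ≤ b) :
    (b - a) * (1 - (η b - η a)) ≤ ‖apt η b - apt η a‖ := by
  have ic := fun x y => mono_ii h continuous_cos x y
  have is := fun x y => mono_ii (f := fun t => -sin t) h continuous_sin.neg x y
  have e1 : (apt η b - apt η a).re = ∫ s in a..b, cos (η s) := by
    rw [Complex.sub_re, apt_re h, apt_re h,
      intervalIntegral.integral_interval_sub_left (ic _ _) (ic _ _)]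
  have e2 : (apt η b - apt η a).im = ∫ s in a..b, -sin (η s) := by
    rw [Complex.sub_im, apt_im h, apt_im h,
      intervalIntegral.integral_interval_sub_left (is _ _) (is _ _)]
  have k : (b - a) * (1 - (η b - η a)) ≤
      cos (η a) * (apt η b - apt η a).re - sin (η a) * (apt η b - apt η a).im := by
    rw [e1, e2, ← intervalIntegral.integral_const_mul, ← intervalIntegral.integral_const_mul,
      ← intervalIntegral.integral_sub ((ic _ _).const_mul _) ((is _ _).const_mul _), ← smul_eq_mul,
      ← intervalIntegral.integral_const]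
    refine intervalIntegral.integral_mono_on hab intervalIntegrable_const
      (((ic _ _).const_mul _).sub ((is _ _).const_mul _)) fun s hs => ?_
    have c := (abs_le.1 (abs_cos_sub_cos_le (η s - η a) 0)).1
    rw [sub_zero, abs_of_nonneg (sub_nonneg.2 (h hs.1)), cos_zero, cos_sub] at c
    linarith [h hs.2]
  refine k.trans ?_
  generalize apt η b - apt η a = z
  refine (abs_le_of_sq_le_sq' ?_ (norm_nonneg z)).2
  rw [Complex.sq_norm, Complex.normSq_apply]
  nlinarith [sq_nonneg (sin (η a) * z.re + cos (η a) * z.im), sin_sq_add_cos_sq (η a)]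

theorem arc_len_eq {A B w : ℝ} {η : ℝ → ℝ} (h : Adm η) (hp : 0 < pay A B η) (hw : 0 ≤ w) :
    pathLength (arc A B η w) = ENNReal.ofReal (2 * w / pay A B η) := by
  refine le_antisymm ((arc_len h.1 hp hw).2.trans (le_of_eq (by congr 1; ring))) ?_
  have c0 : 0 ≤ w / pay A B η := by positivity
  have key : ∀ n : ℕ, 0 < n → ENNReal.ofReal (w / pay A B η * (2 - 2 * π / n)) ≤
      pathLength (arc A B η w) := fun n hn => by
    have n0 : (0 : ℝ) < n := by exact_mod_cast hn
    refine le_trans ?_ (eVariationOn.sum_le_of_monotoneOn_Iic (n := n) (u := fun i => (i : ℝ) / n)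
      (fun i _ j _ hij => div_le_div_of_nonneg_right (by exact_mod_cast hij) n0.le)
      fun i hi => ⟨by positivity, (div_le_one n0).2 (by exact_mod_cast hi)⟩)
    simp only [edist_dist, dist_eq_norm]
    rw [← ENNReal.ofReal_sum_of_nonneg fun _ _ => norm_nonneg _]
    refine ENNReal.ofReal_le_ofReal (le_trans ?_ (Finset.sum_le_sum (f := fun i : ℕ =>
      w / pay A B η * (2 / n * (1 - (η (2 * (((i + 1 : ℕ) : ℝ) / n) - 1) - η (2 * (i / n) - 1)))))
      fun i _ => ?_))
    · rw [← Finset.mul_sum, ← Finset.mul_sum, Finset.sum_sub_distrib,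
        Finset.sum_range_sub fun i : ℕ => η (2 * ((i : ℝ) / n) - 1)]
      refine mul_le_mul_of_nonneg_left ?_ c0
      have a1 := (h.2 (2 * ((n : ℝ) / n) - 1)).2
      have a2 := h.2 (-(2 * (((0 : ℕ) : ℝ) / n) - 1))
      rw [neg_neg] at a2
      have a3 := mul_le_mul_of_nonneg_left (show η (2 * ((n : ℝ) / n) - 1) -
        η (2 * (((0 : ℕ) : ℝ) / n) - 1) ≤ π by linarith [a2.1, a2.2]) (show 0 ≤ 2 / (n : ℝ) by positivity)
      rw [Finset.sum_const, Finset.card_range, nsmul_eq_mul, mul_one, mul_sub,
        div_mul_cancel₀ _ n0.ne']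
      linarith [show 2 / (n : ℝ) * π = 2 * π / n by ring]
    · change _ ≤ ‖(w / pay A B η) • apt η _ - (w / pay A B η) • apt η _‖
      rw [← smul_sub, norm_smul, Real.norm_of_nonneg c0]
      refine mul_le_mul_of_nonneg_left (le_trans (le_of_eq ?_) (apt_chord h.1 ?_)) c0
      · push_cast; ring
      · push_cast
        linarith [show ((i : ℝ) + 1) / n = i / n + 1 / n by ring, one_div_pos.2 n0]
  have t : Filter.Tendsto (fun n : ℕ => ENNReal.ofReal (w / pay A B η * (2 - 2 * π / n)))
      Filter.atTop (nhds (ENNReal.ofReal (w / pay A B η * (2 - 0)))) :=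
    ENNReal.tendsto_ofReal ((tendsto_const_nhds.sub
      (tendsto_const_div_atTop_nhds_zero_nat _)).const_mul _)
  rw [show 2 * w / pay A B η = w / pay A B η * (2 - 0) by ring]
  exact le_of_tendsto t (Filter.eventually_atTop.2 ⟨1, key⟩)

end Pool.Agent.P.MP_d76e6a_co
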