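import Pool.Agent.P.MP_d76e6a_co.HAll
import Pool.Agent.P.MP_d76e6a_co.HLen
import Pool.Agent.P.MP_d76e6a_co.HZd

/-!
In the region `zW` the shortest zigzag is a shortest escape path.
-/

namespace Pool.Agent.P.MP_d76e6a_co

open Real EuclideanGeometry

theorem zW_cot {A B : ℝ} (a : Ang A B) (z : InZ zW A B) : cot B ≤ 4 * A := by
  obtain ⟨t, ht, h1, h2, -⟩ := z
  have k : 436 ≤ t.1 ∧ 656 ≤ t.2.1 := (by decide : ∀ t ∈ zW, 436 ≤ t.1 ∧ 656 ≤ t.2.1) t ht
  have p1 := (ang_mono k.1).trans h1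
  have p2 := (ang_mono k.2).trans h2
  unfold ang at p1 p2
  push_cast at p1 p2
  have := pi_gt_three
  have q1 : 9 / 20 ≤ A := by linarith
  have q2 : 2 / 3 ≤ B := by linarith
  exact cot_le_of a (by linarith [mul_le_mul q1 q2 (by norm_num) a.h0.le])

theorem zig_wins {X Y Z : ℂ} (hT : AffineIndependent ℝ ![X, Y, Z]) {A B h : ℝ}
    (hA : A = ∠ Y X Z) (hB : B = ∠ X Y Z) (hh : h = dist X Z * sin A) (a : Ang A B)
    (H : Full A B ∨ (cot B ≤ 4 * A ∧ ∀ v, Low2 A B v → Core A B v)) (z : InZ zW A B) :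
    ∃ l, Zig4 A B l ∧
      (∀ m, Zig4 A B m → pathLength (zigzag A B l h) ≤ pathLength (zigzag A B m h)) ∧
      escapeLength (convexHull ℝ {X, Y, Z}) = pathLength (zigzag A B l h) ∧
      escapeLength (interior (convexHull ℝ {X, Y, Z})) = pathLength (zigzag A B l h) ∧
      IsEscapePath (interior (convexHull ℝ {X, Y, Z})) (zigzag A B l h) ∧
      ∀ w, h < w → IsEscapePath (convexHull ℝ {X, Y, Z}) (zigzag A B l w) := by
  obtain ⟨⟨η, o⟩, H⟩ := all_of_core hT hA hB hh a H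
  obtain ⟨e, C, c, e1, e2⟩ := H η o
  have le : ∀ m, Zig4 A B m → pathLength (C h) ≤ pathLength (zigzag A B m h) := fun m hm =>
    e2 ▸ iInf₂_le _ (e _ (Or.inr ⟨m, hm, rfl⟩)).1
  rcases id c with rfl | ⟨l, hl, rfl⟩
  swap
  · exact ⟨l, hl, le, e1, e2, e _ c⟩
  exfalso
  have h0 := (std_pair hT hA hB hh).1.hpos
  have k0 := a.alt_pos
  have hp : 0 < pay A B η :=
    o.gval ▸ gval_pos a.h0 (a.h0.trans_le a.h1) (by linarith [a.h0, a.h1, a.h2])
  obtain ⟨l, hl, l1, l2, l3⟩ := a.best4 (zW_cot a z)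
  have c1 : plen l < alt A B * vU A B := by
    by_contra c
    rw [not_lt] at c
    exact lt_irrefl _ (zw_all a z _ ⟨⟨c.trans l1.1, fun φ p q => c.trans (l1.2 φ p q)⟩,
      fun s t q => c.trans (l2 s t q), fun f g q => c.trans (l3 f g q), le_rfl⟩)
  have c2 := (le l hl).trans (poly_len _)
  have p0 : 0 ≤ plen l := Finset.sum_nonneg fun _ _ => norm_nonneg _
  rw [arc_len_eq o.1 hp h0.le, plen_map _ (by positivity),
    ENNReal.ofReal_le_ofReal_iff (by positivity)] at c2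
  rw [vU, o.gval] at c1
  have c3 := mul_lt_mul_of_pos_left c1 (div_pos h0 k0)
  rw [← mul_assoc, div_mul_cancel₀ _ k0.ne'] at c3
  linarith [show 2 * h / pay A B η = h * (2 / pay A B η) by ring]

end Pool.Agent.P.MP_d76e6a_co
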