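import Pool.Agent.P.MP_d76e6a_co.WDefs

/-!
The family of zigzags and the region in which one of them is optimal.
-/

namespace Pool.Agent.P.MP_d76e6a_co

open Real

/-- `l` is the list of vertices and `v` the length of a zigzag, for the side `c = 1`. -/
def Zig (A B : ℝ) (l : List ℂ) (v : ℝ) : Prop :=
  (l = bPts B ∧ v = bV B) ∨ ∃ φ, 0 < φ ∧ 2 * φ ≤ A ∧ l = wPts A B φ ∧ v = wV A B φ

/-- The polygonal path through `l`, scaled to the triangle with altitude `w` onto `c`. -/
noncomputable def zigzag (A B : ℝ) (l : List ℂ) (w : ℝ) : ℝ → ℂ := poly (l.map ((w / alt A B) • ·))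

/-- The trapezoids of the region, as pairs of sections. -/
def wPairs : List ((ℕ × ℕ × ℕ) × (ℕ × ℕ × ℕ)) :=
  [((569, 932, 972), (577, 929, 977)),
    ((577, 902, 1011), (585, 901, 1016)),
    ((585, 907, 1020), (601, 863, 1021)),
    ((601, 815, 1024), (631, 756, 1025)),
    ((631, 754, 1028), (649, 737, 1039)),
    ((649, 725, 1040), (669, 714, 1054)),
    ((669, 715, 1054), (701, 743, 1074)),
    ((701, 742, 1071), (713, 737, 1102)),
    ((713, 730, 1440), (723, 729, 1440)),
    ((723, 0, 1440), (960, 0, 1440))]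

/-- The angles `A ≤ B ≤ C` lie in one of the trapezoids. -/
def InZig (A B : ℝ) : Prop := A ≤ B ∧ A + 2 * B ≤ π ∧ ∃ s ∈ wPairs, InCol s.1 s.2 A B

end Pool.Agent.P.MP_d76e6a_co
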