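import Pool.Agent.P.MP_d76e6a_co.WChk
import Pool.Agent.P.MP_d76e6a_co.WTab

/-!
From the checked cells to the escape length.
-/

namespace Pool.Agent.P.MP_d76e6a_co

open Real EuclideanGeometry

theorem Ang.best {A B : ℝ} (a : Ang A B) : ∃ l v, Zig A B l v ∧ Low A B v := by
  have hpi := pi_pos
  obtain ⟨sA, sAB, -⟩ := a.sins
  obtain ⟨A0, A1, A2⟩ := a
  have sB : 0 < sin B := by linarith
  have cs : ∀ φ ∈ Set.Icc 0 (A / 2), cos φ ≠ 0 := fun φ h =>
    (cos_pos_of_mem_Ioo ⟨by linarith [h.1], by linarith [h.2]⟩).ne'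
  have ck : Continuous (wk B) := by unfold wk; fun_prop
  have cY : ContinuousOn (wY A B) (Set.Icc 0 (A / 2)) :=
    (continuous_const.mul (ck.sub continuous_const)).continuousOn.add
      (continuousOn_tan.mono fun φ h => cs φ h)
  have cg : ContinuousOn (wg A B) (Set.Icc 0 (A / 2)) :=
    (continuous_arctan.comp_continuousOn cY).sup (continuous_const.mul continuous_id).continuousOn
  have cV : ContinuousOn (wV A B) (Set.Icc 0 (A / 2)) :=
    ((continuous_cos.comp_continuousOn cg).add ((continuous_sin.comp_continuousOn cg).mul cY)).div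
      ck.continuousOn fun φ h => (div_pos (sin_pos_of_pos_of_lt_pi (by linarith [h.1])
        (by linarith [h.2])) sB).ne'
  obtain ⟨φ, ⟨f0, f1⟩, hm⟩ := isCompact_Icc.exists_isMinOn (Set.nonempty_Icc.2 (by linarith)) cV
  have hm' : ∀ ψ, 0 < ψ → 2 * ψ ≤ A → wV A B φ ≤ wV A B ψ := fun ψ h1 h2 =>
    hm (show ψ ∈ Set.Icc 0 (A / 2) from ⟨h1.le, by linarith⟩)
  rcases le_or_gt (bV B) (wV A B φ) with c | c
  · exact ⟨_, _, Or.inl ⟨rfl, rfl⟩, le_rfl, fun ψ h1 h2 => c.trans (hm' ψ h1 h2)⟩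
  · refine ⟨_, _, Or.inr ⟨φ, f0.lt_of_ne ?_, by linarith, rfl, rfl⟩, c.le, hm'⟩
    rintro rfl
    have e : wV A B 0 = 1 := by simp [wV, wg, wY, wk, sB.ne']
    have : bV B ≤ 1 := by
      rw [bV, div_le_one (by positivity)]
      exact le_sqrt_of_sq_le (by nlinarith [sq_nonneg (cot B)])
    linarith

theorem Zig.reach {A B v : ℝ} {l : List ℂ} (z : Zig A B l v) (a : Ang A B) (h : π / 6 ≤ A) :
    (Reach (alt A B) A B l ∧ Reach (alt A B) B A l) ∧ plen l = v := by
  rcases z with ⟨rfl, rfl⟩ | ⟨φ, h0, h1, rfl, rfl⟩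
  · have hpi := pi_gt_three
    have A1 := a.h1
    have A2 := a.h2
    have s : 1 / 2 ≤ sin B := by
      rw [← sin_pi_div_six]
      exact sin_le_sin_of_le_of_le_pi_div_two (by linarith) (by linarith) (by linarith)
    have c : 0 < cos B := cos_pos_of_mem_Ioo ⟨by linarith, by linarith⟩
    have c0 : 0 < cot B := by rw [cot_eq_cos_div_sin]; positivity
    have c1 : cot B ≤ 2 := by
      rw [cot_eq_cos_div_sin, div_le_iff₀ (by linarith)]; linarith [cos_le_one B]
    have t : arctan (cot B / 9) ≤ cot B / 9 := by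
      have p := arctan_pos.2 (show 0 < cot B / 9 by positivity)
      have := le_tan p.le (arctan_lt_pi_div_two _)
      rwa [tan_arctan] at this
    exact a.b_path c0 (by linarith) (by linarith)
  · exact a.w_path h0 h1

theorem zig_of_core {X Y Z : ℂ} (hT : AffineIndependent ℝ ![X, Y, Z]) {A B h v : ℝ} {l : List ℂ}
    (hA : A = ∠ Y X Z) (hB : B = ∠ X Y Z) (hh : h = dist X Z * sin A) (a : Ang A B)
    (h6 : π / 6 ≤ A) (z : Zig A B l v) (core : Core A B v) :
    escapeLength (convexHull ℝ {X, Y, Z}) = ENNReal.ofReal (v / alt A B * h) ∧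
    escapeLength (interior (convexHull ℝ {X, Y, Z})) = ENNReal.ofReal (v / alt A B * h) ∧
    IsEscapePath (interior (convexHull ℝ {X, Y, Z})) (zigzag A B l h) ∧
    pathLength (zigzag A B l h) = ENNReal.ofReal (v / alt A B * h) ∧
    ∀ w, h < w → IsEscapePath (convexHull ℝ {X, Y, Z}) (zigzag A B l w) := by
  have s1 : Std X Y Z h A B := by rw [hh, hA, hB]; exact std_of_indep hT
  have hT' : AffineIndependent ℝ ![Y, X, Z] := by
    rw [affineIndependent_iff_not_collinear_set] at hT ⊢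
    rwa [Set.insert_comm]
  have s2 : Std Y X Z h B A := by
    have := std_of_indep hT'
    have e2 : dist Y Z * sin (∠ X Y Z) = h := by
      have l2 := law_sin Y X Z
      rw [angle_comm Z Y X, dist_comm Z Y] at l2
      rw [hh, hA]
      linarith
    rwa [e2, ← hA, ← hB] at this
  obtain ⟨⟨r1, r2⟩, e⟩ := z.reach a h6
  have k0 := a.alt_pos
  have h0 := s1.hpos
  have hσ : 0 < sin (A + B) := by linarith [a.sins.1, a.sins.2.1, a.sins.2.2]
  have v0 : 0 ≤ v := e ▸ Finset.sum_nonneg fun _ _ => norm_nonneg _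
  have ec : ∀ w, w / alt A B * alt A B = w := fun w => div_mul_cancel₀ _ k0.ne'
  have low : ∀ C, IsEscapePath (interior (convexHull ℝ {X, Y, Z})) C →
      ENNReal.ofReal (v / alt A B * h) ≤ pathLength C := fun C hC => by
    rw [show v / alt A B * h = v * (h / alt A B) by ring]
    exact lower_of_crows (by linarith [a.h1, a.h2]) v0 hC.1 (by rw [ec]; exact s1.esc hC)
      (by rw [ec]; exact s2.esc (by rwa [Set.insert_comm])) core
  have mono : ∀ C, IsEscapePath (convexHull ℝ {X, Y, Z}) C →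
      IsEscapePath (interior (convexHull ℝ {X, Y, Z})) C := fun C hC =>
    ⟨hC.1, fun P hP g hg hin => hC.2 P (interior_subset hP) g hg
      fun t ht => interior_subset (hin t ht)⟩
  have len : ∀ w, 0 ≤ w → pathLength (zigzag A B l w) ≤ ENNReal.ofReal (v / alt A B * w) :=
    fun w hw => (poly_len _).trans (by rw [plen_map _ (by positivity), e]; apply le_of_eq; ring_nf)
  have cr : ∀ w F, 0 ≤ w → F ⊆ convexHull ℝ {X, Y, Z} →
      h < w ∨ (h ≤ w ∧ F ⊆ interior (convexHull ℝ {X, Y, Z})) → IsEscapePath F (zigzag A B l w) :=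
    fun w F hw h1 h2 => s1.cross (h' := w / alt A B * alt A B) hσ (r1.scale (by positivity))
      (r2.scale (by positivity)) F h1 (by rwa [ec])
  have op := cr h _ h0.le interior_subset (Or.inr ⟨le_rfl, subset_rfl⟩)
  have cls : ∀ w, h < w → IsEscapePath (convexHull ℝ {X, Y, Z}) (zigzag A B l w) := fun w hw =>
    cr w _ (by linarith) subset_rfl (Or.inl hw)
  refine ⟨le_antisymm ?_ (le_iInf₂ fun C hC => low C (mono C hC)),
    le_antisymm ((iInf₂_le _ op).trans (len h h0.le)) (le_iInf₂ low), op,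
    le_antisymm (len h h0.le) (low _ op), cls⟩
  refine ENNReal.le_of_forall_pos_le_add fun ε hε _ => ?_
  have u0 : 0 ≤ v / alt A B := by positivity
  have e0 : (0 : ℝ) < ε / (v / alt A B + 1) := div_pos (by exact_mod_cast hε) (by linarith)
  refine ((iInf₂_le _ (cls (h + ε / (v / alt A B + 1)) (by linarith))).trans
    (len _ (by linarith))).trans ?_
  rw [mul_add, ENNReal.ofReal_add (mul_nonneg u0 h0.le) (by positivity), ← ENNReal.ofReal_coe_nnreal]
  refine add_le_add le_rfl (ENNReal.ofReal_le_ofReal ?_)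
  rw [← mul_div_assoc, div_le_iff₀ (by linarith)]
  nlinarith [ε.coe_nonneg]

theorem zig_of_cov {s : List (Sec × Sec)} (hs : ∀ t ∈ s, 480 ≤ t.1.1 ∧ 480 ≤ t.2.1)
    (cov : Cov s 480 960 465 1201) {A B : ℝ} (h1 : A ≤ B) (h2 : A + 2 * B ≤ π)
    (h3 : ∃ t ∈ s, InCol t.1 t.2 A B) :
    Ang A B ∧ π / 6 ≤ A ∧ ∃ l v, Zig A B l v ∧ Low A B v ∧ Core A B v := by
  have hpi := pi_pos
  have h6 : π / 6 ≤ A := by
    obtain ⟨t, ht, u, ⟨u0, u1⟩, e, -⟩ := h3
    have k1 : (480 : ℝ) ≤ t.1.1 := by exact_mod_cast (hs t ht).1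
    have k2 : (480 : ℝ) ≤ t.2.1 := by exact_mod_cast (hs t ht).2
    have : 480 ≤ (1 - u) * t.1.1 + u * t.2.1 := by nlinarith
    rw [e]
    nlinarith
  have a : Ang A B := ⟨by linarith, h1, h2⟩
  obtain ⟨l, v, z, lo⟩ := a.best
  refine ⟨a, h6, l, v, z, lo, cov A B v a lo h3 ?_ ?_ ?_ ?_⟩ <;> unfold ang <;> push_cast <;> linarith

end Pool.Agent.P.MP_d76e6a_co
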