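import Pool.Agent.P.MP_d76e6a_co.HReachV
import Pool.Agent.P.MP_d76e6a_co.WFin
import Pool.Agent.P.MP_d76e6a_co.GBad

/-!
The best zigzag and the assembly of the result.
-/

namespace Pool.Agent.P.MP_d76e6a_co

open Real EuclideanGeometry

theorem min_or {K : Set (ℝ × ℝ)} (hK : IsCompact K) {F : ℝ × ℝ → ℝ} (hF : ContinuousOn F K) (v : ℝ) :
    (∀ p ∈ K, v ≤ F p) ∨ ∃ q ∈ K, F q ≤ v ∧ ∀ p ∈ K, F q ≤ F p := by
  by_cases c : ∀ p ∈ K, v ≤ F p
  · exact Or.inl c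
  push Not at c
  obtain ⟨p, hp, c⟩ := c
  obtain ⟨q, hq, m⟩ := hK.exists_isMinOn ⟨p, hp⟩ hF
  exact Or.inr ⟨q, hq, (m hp).trans c.le, fun r hr => m hr⟩

theorem cpt_le {K : Set (ℝ × ℝ)} (hK : IsCompact K) {F G : ℝ × ℝ → ℝ} (hF : ContinuousOn F K)
    (hG : ContinuousOn G K) : IsCompact {p ∈ K | F p ≤ G p} :=
  hK.of_isClosed_subset (hK.isClosed.isClosed_le hF hG) (Set.sep_subset _ _)

theorem cot_cont {K : Set (ℝ × ℝ)} {F : ℝ × ℝ → ℝ} (hF : Continuous F) (h : ∀ p ∈ K, 0 < sin (F p)) :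
    ContinuousOn (fun p => cot (F p)) K := by
  simp only [cot_eq_cos_div_sin]
  exact ContinuousOn.div (by fun_prop) (by fun_prop) fun p hp => (h p hp).ne'

theorem Ang.z_min {A B : ℝ} (a : Ang A B) (v : ℝ) : (∀ s t, ZVal A s t → v ≤ zV A B s t) ∨
    ∃ s t, ZVal A s t ∧ zV A B s t ≤ v ∧ ∀ s' t', ZVal A s' t' → zV A B s t ≤ zV A B s' t' := by
  have hh := a.alt_pos
  have hpi := pi_pos
  have A0 := a.h0
  have k0 : IsCompact (Set.Icc A (π / 2) ×ˢ Set.Icc (1 / 20 : ℝ) (π / 2)) :=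
    isCompact_Icc.prod isCompact_Icc
  have s1 : ∀ p ∈ Set.Icc A (π / 2) ×ˢ Set.Icc (1 / 20 : ℝ) (π / 2), 0 < sin p.1 := fun p h =>
    sin_pos_of_pos_of_lt_pi (by linarith [h.1.1]) (by linarith [h.1.2])
  have s2 : ∀ p ∈ Set.Icc A (π / 2) ×ˢ Set.Icc (1 / 20 : ℝ) (π / 2), 0 < sin p.2 := fun p h =>
    sin_pos_of_pos_of_lt_pi (by linarith [h.2.1]) (by linarith [h.2.2])
  have c1 := cot_cont continuous_fst s1
  have c2 := cot_cont continuous_snd s2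
  have k1 := cpt_le k0 (F := fun _ => 1) (G := fun p => sin A * sin p.1 * (cot p.1 + cot p.2))
    continuousOn_const (ContinuousOn.mul (by fun_prop) (c1.add c2))
  have cF : ContinuousOn (fun p : ℝ × ℝ => zV A B p.1 p.2)
      (Set.Icc A (π / 2) ×ˢ Set.Icc (1 / 20 : ℝ) (π / 2)) := by
    refine ContinuousOn.div (ContinuousOn.add (continuousOn_const.div (by fun_prop) fun p h =>
      (s1 p h).ne') (continuousOn_const.div (by fun_prop) fun p h => (s2 p h).ne'))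
      ((continuousOn_const.add c1).add c2) fun p h => ne_of_gt ?_
    have n : ∀ x, 0 < sin x → 0 ≤ x → x ≤ π / 2 → 0 ≤ cot x := fun x h0 h1 h2 => by
      rw [cot_eq_cos_div_sin]
      exact div_nonneg (cos_nonneg_of_mem_Icc ⟨by linarith, h2⟩) h0.le
    linarith [n _ (s1 p h) (by linarith [h.1.1]) h.1.2, n _ (s2 p h) (by linarith [h.2.1]) h.2.2,
      one_div_pos.2 hh]
  rcases min_or k1 (cF.mono (Set.sep_subset _ _)) v with h | ⟨q, hq, h1, h2⟩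
  · exact Or.inl fun s t z => h (s, t) ⟨⟨⟨z.1, z.2.1⟩, z.2.2.1, z.2.2.2.1⟩, z.2.2.2.2⟩
  · exact Or.inr ⟨q.1, q.2, ⟨hq.1.1.1, hq.1.1.2, hq.1.2.1, hq.1.2.2, hq.2⟩, h1,
      fun s t z => h2 (s, t) ⟨⟨⟨z.1, z.2.1⟩, z.2.2.1, z.2.2.2.1⟩, z.2.2.2.2⟩⟩

theorem Ang.v_min {A B : ℝ} (a : Ang A B) (v : ℝ) : (∀ f g, VVal A B f g → v ≤ vV A B f g) ∨
    ∃ f g, VVal A B f g ∧ vV A B f g ≤ v ∧ ∀ f' g', VVal A B f' g' → vV A B f g ≤ vV A B f' g' := by
  have hh := a.alt_pos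
  have hpi := pi_pos
  have A0 := a.h0
  have A1 := a.h1
  have A2 := a.h2
  have sA := a.sins.1
  have k0 : IsCompact (Set.Icc (1 / 30 : ℝ) (A / 2) ×ˢ Set.Icc (A / 2) (π / 2)) :=
    isCompact_Icc.prod isCompact_Icc
  set K := Set.Icc (1 / 30 : ℝ) (A / 2) ×ˢ Set.Icc (A / 2) (π / 2) with hK
  have s1 : ∀ p ∈ K, 0 < sin p.1 := fun p h =>
    sin_pos_of_pos_of_lt_pi (by linarith [h.1.1]) (by linarith [h.1.2])
  have s2 : ∀ p ∈ K, 0 < sin p.2 := fun p h =>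
    sin_pos_of_pos_of_lt_pi (by linarith [h.2.1]) (by linarith [h.2.2])
  have ck : ∀ B, Continuous fun p : ℝ × ℝ => wk B p.1 := fun B => by unfold wk; fun_prop
  have k1 := cpt_le k0 (F := fun _ => A) (G := fun p => p.2 + p.1) (by fun_prop) (by fun_prop)
  have k2 := cpt_le k1 (F := fun p => p.2 + p.1) (G := fun _ => π / 2) (by fun_prop) (by fun_prop)
  have k3 := cpt_le k2 (F := fun p => sin (A - p.2))
    (G := fun p => 2 * cos (p.2 + p.1) * sin p.1 * sin B) (by fun_prop) (by fun_prop)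
  have k4 := cpt_le k3 (F := fun p => (wk B p.1 - 1) * wk A p.1) (G := fun p => (wk A p.1 - 1) *
    (wk B p.1 - alt A B * sin (p.2 + p.1 - A) / (sin A * sin p.2)))
    (((ck B).sub continuous_const).mul (ck A)).continuousOn
    (((ck A).sub continuous_const).continuousOn.mul ((ck B).continuousOn.sub
      (ContinuousOn.div (by fun_prop) (by fun_prop) fun p h => (mul_pos sA (s2 p h.1.1.1)).ne')))
  obtain ⟨K4, hK4, k4⟩ : ∃ K4, _ = K4 ∧ IsCompact K4 := ⟨_, rfl, k4⟩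
  have m4 : ∀ p ∈ K4, p ∈ K ∧ (wk B p.1 - 1) * wk A p.1 ≤ (wk A p.1 - 1) *
      (wk B p.1 - alt A B * sin (p.2 + p.1 - A) / (sin A * sin p.2)) := fun p h => by
    rw [← hK4] at h; exact ⟨h.1.1.1.1, h.2⟩
  have cy : ContinuousOn (fun p : ℝ × ℝ => vy A B p.1 p.2) K4 := by
    refine ((ck B).sub continuous_const).continuousOn.div (((ck B).div_const _).continuousOn.sub
      (ContinuousOn.div (by fun_prop) (by fun_prop) fun p h => (mul_pos sA (s2 p (m4 p h).1)).ne'))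
      fun p h e => ?_
    obtain ⟨⟨⟨h1, h2⟩, -⟩, h3⟩ := m4 p h
    have j1 := a.wk_gt (φ := p.1) (by linarith) (by linarith)
    have j2 := Ang.wk_gt ⟨A0, le_rfl, by linarith⟩ (φ := p.1) (by linarith) (by linarith)
    have : wk B p.1 - alt A B * sin (p.2 + p.1 - A) / (sin A * sin p.2) = 0 := by
      rw [sub_eq_zero, div_eq_iff hh.ne'] at e
      rw [e]; ring
    rw [this] at h3
    nlinarith
  have k5 := cpt_le k4 (F := fun p => 2 * vy A B p.1 p.2 * sin (p.2 + 2 * p.1) * cot p.1)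
    (G := fun p => (1 - vy A B p.1 p.2 / alt A B) * sin p.2)
    (((continuousOn_const.mul cy).mul (by fun_prop)).mul
      (cot_cont continuous_fst fun p h => s1 p (m4 p h).1))
    ((continuousOn_const.sub (cy.div_const _)).mul (by fun_prop))
  have cF : ContinuousOn (fun p : ℝ × ℝ => vV A B p.1 p.2) K4 :=
    continuousOn_const.sub (cy.mul (continuousOn_const.sub
      (ContinuousOn.div (by fun_prop) (by fun_prop) fun p h => (s2 p (m4 p h).1).ne')))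
  subst hK4
  have m5 : ∀ f g, VVal A B f g → (f, g) ∈ K := fun f g z =>
    ⟨⟨z.1, by linarith [z.2.1]⟩, by linarith [z.2.1, z.2.2.1], by linarith [z.1, z.2.2.2.1]⟩
  rcases min_or k5 (cF.mono (Set.sep_subset _ _)) v with h | ⟨q, hq, h1, h2⟩
  · exact Or.inl fun f g z => h (f, g)
      ⟨⟨⟨⟨⟨m5 f g z, z.2.2.1⟩, z.2.2.2.1⟩, z.2.2.2.2.1⟩, z.2.2.2.2.2.1⟩, z.2.2.2.2.2.2⟩
  · exact Or.inr ⟨q.1, q.2, ⟨hq.1.1.1.1.1.1.1, by linarith [hq.1.1.1.1.1.1.2], hq.1.1.1.1.2,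
      hq.1.1.1.2, hq.1.1.2, hq.1.2, hq.2⟩, h1, fun f g z => h2 (f, g)
      ⟨⟨⟨⟨⟨m5 f g z, z.2.2.1⟩, z.2.2.2.1⟩, z.2.2.2.2.1⟩, z.2.2.2.2.2.1⟩, z.2.2.2.2.2.2⟩⟩

theorem Ang.b_ok {A B : ℝ} (a : Ang A B) (h : cot B ≤ 4 * A) :
    (Reach (alt A B) A B (bPts B) ∧ Reach (alt A B) B A (bPts B)) ∧ plen (bPts B) = bV B := by
  have hpi := pi_lt_d2
  have A0 := a.h0
  have A1 := a.h1
  have A2 := a.h2
  have s : 0 < sin B := by linarith [a.sins.1, a.sins.2.1]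
  have c : 0 < cos B := cos_pos_of_mem_Ioo ⟨by linarith, by linarith⟩
  have c0 : 0 < cot B := by rw [cot_eq_cos_div_sin]; positivity
  have t : arctan (cot B / 9) ≤ cot B / 9 := by
    have p := arctan_pos.2 (show 0 < cot B / 9 by positivity)
    have := le_tan p.le (arctan_lt_pi_div_two _)
    rwa [tan_arctan] at this
  exact a.b_path c0 (by linarith) (by linarith)

theorem Zig4.reach {A B : ℝ} {l : List ℂ} (z : Zig4 A B l) (a : Ang A B) :
    Reach (alt A B) A B l ∧ Reach (alt A B) B A l := by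
  rcases z with ⟨h, rfl⟩ | ⟨φ, h0, h1, rfl⟩ | ⟨s, t, h, rfl⟩ | ⟨f, g, h, rfl⟩
  exacts [(a.b_ok h).1, (a.w_path h0 h1).1, (a.z_path h).1, (a.v_path h).1]

theorem Ang.best4 {A B : ℝ} (a : Ang A B) (h : cot B ≤ 4 * A) : ∃ l, Zig4 A B l ∧ Low A B (plen l) ∧
    (∀ s t, ZVal A s t → plen l ≤ zV A B s t) ∧ ∀ f g, VVal A B f g → plen l ≤ vV A B f g := by
  have lm : ∀ {v w}, Low A B v → w ≤ v → Low A B w := fun h k =>
    ⟨k.trans h.1, fun φ p q => k.trans (h.2 φ p q)⟩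
  obtain ⟨l, z, lo⟩ : ∃ l, Zig4 A B l ∧ Low A B (plen l) := by
    obtain ⟨l, v, ⟨rfl, rfl⟩ | ⟨φ, h0, h1, rfl, rfl⟩, lo⟩ := a.best
    · exact ⟨_, Or.inl ⟨h, rfl⟩, (a.b_ok h).2 ▸ lo⟩
    · exact ⟨_, Or.inr (Or.inl ⟨φ, h0, h1, rfl⟩), (a.w_path h0 h1).2 ▸ lo⟩
  obtain ⟨l, z, lo, lz⟩ : ∃ l, Zig4 A B l ∧ Low A B (plen l) ∧
      ∀ s t, ZVal A s t → plen l ≤ zV A B s t := by
    rcases a.z_min (plen l) with k | ⟨s, t, k1, k2, k3⟩
    · exact ⟨l, z, lo, k⟩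
    · rw [← (a.z_path k1).2] at k2 k3
      exact ⟨_, Or.inr (Or.inr (Or.inl ⟨s, t, k1, rfl⟩)), lm lo k2, k3⟩
  rcases a.v_min (plen l) with k | ⟨f, g, k1, k2, k3⟩
  · exact ⟨l, z, lo, lz, k⟩
  · rw [← (a.v_path k1).2] at k2 k3
    exact ⟨_, Or.inr (Or.inr (Or.inr ⟨f, g, k1, rfl⟩)), lm lo k2,
      fun s t q => k2.trans (lz s t q), k3⟩

theorem all_of_core {X Y Z : ℂ} (hT : AffineIndependent ℝ ![X, Y, Z]) {A B h : ℝ}
    (hA : A = ∠ Y X Z) (hB : B = ∠ X Y Z) (hh : h = dist X Z * sin A) (a : Ang A B)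
    (H : Full A B ∨ (cot B ≤ 4 * A ∧ ∀ v, Low2 A B v → Core A B v)) :
    (∃ η, Opt A B η) ∧ ∀ η, Opt A B η →
      (∀ C, Cand A B η C → IsEscapePath (interior (convexHull ℝ {X, Y, Z})) (C h) ∧
        ∀ w, h < w → IsEscapePath (convexHull ℝ {X, Y, Z}) (C w)) ∧
      ∃ C, Cand A B η C ∧ escapeLength (convexHull ℝ {X, Y, Z}) = pathLength (C h) ∧
        escapeLength (interior (convexHull ℝ {X, Y, Z})) = pathLength (C h) := by
  obtain ⟨s1, s2⟩ := std_pair hT hA hB hh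
  obtain ⟨sA, sAB, sBC⟩ := a.sins
  have k0 := a.alt_pos
  have h0 := s1.hpos
  have A0 := a.h0
  have B0 := A0.trans_le a.h1
  have A2 := a.h2
  have hσ : 0 < sin (A + B) := by linarith
  have ec : ∀ w, w / alt A B * alt A B = w := fun w => div_mul_cancel₀ _ k0.ne'
  refine ⟨exists_opt sA.le (by linarith) hσ.le, fun η o => ?_⟩
  obtain ⟨u1, u2, u3⟩ := o.escape s1 A0 B0 (by linarith)
  have zg : ∀ l, Zig4 A B l → IsEscapePath (interior (convexHull ℝ {X, Y, Z})) (zigzag A B l h) ∧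
      ∀ w, h < w → IsEscapePath (convexHull ℝ {X, Y, Z}) (zigzag A B l w) := fun l z => by
    obtain ⟨r1, r2⟩ := z.reach a
    have cr : ∀ w F, 0 ≤ w → F ⊆ convexHull ℝ {X, Y, Z} →
        h < w ∨ (h ≤ w ∧ F ⊆ interior (convexHull ℝ {X, Y, Z})) →
        IsEscapePath F (zigzag A B l w) :=
      fun w F hw h1 h2 => s1.cross (h' := w / alt A B * alt A B) hσ (r1.scale (by positivity))
        (r2.scale (by positivity)) F h1 (by rwa [ec])
    exact ⟨cr h _ h0.le interior_subset (Or.inr ⟨le_rfl, subset_rfl⟩),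
      fun w hw => cr w _ (by linarith) subset_rfl (Or.inl hw)⟩
  refine ⟨by rintro _ (rfl | ⟨l, z, rfl⟩); exacts [⟨u1, u2⟩, zg l z], ?_⟩
  have v0 := (vU_pos A0 B0 (by linarith)).le
  have fin : ∀ C v, Cand A B η C → 0 ≤ v → IsEscapePath (interior (convexHull ℝ {X, Y, Z})) (C h) →
      (∀ w, h < w → IsEscapePath (convexHull ℝ {X, Y, Z}) (C w)) →
      (∀ w, 0 ≤ w → pathLength (C w) ≤ ENNReal.ofReal (v * w)) →
      (∀ D, IsEscapePath (interior (convexHull ℝ {X, Y, Z})) D →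
        ENNReal.ofReal (v * h) ≤ pathLength D) →
      ∃ C, Cand A B η C ∧ escapeLength (convexHull ℝ {X, Y, Z}) = pathLength (C h) ∧
        escapeLength (interior (convexHull ℝ {X, Y, Z})) = pathLength (C h) :=
    fun C v c p1 p2 p3 p4 p5 => by
      obtain ⟨f1, f2, f3⟩ := five p1 h0.le p2 p3 p4 p5
      exact ⟨C, c, f1.trans f3.symm, f2.trans f3.symm⟩
  rcases H with H | ⟨H1, H⟩
  · exact fin _ _ (Or.inl rfl) v0 u1 u2 u3 fun D hD => lower_of_rows A0 B0 v0 hD.1 (s1.esc hD)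
      (s2.esc (by rwa [Set.insert_comm])) H
  have low : ∀ v, 0 ≤ v → Low2 A B (v * alt A B) → ∀ D,
      IsEscapePath (interior (convexHull ℝ {X, Y, Z})) D → ENNReal.ofReal (v * h) ≤ pathLength D :=
    fun v p lo D hD => by
      rw [show v * h = v * alt A B * (h / alt A B) by field_simp]
      exact lower_of_crows (by linarith [pi_pos, a.h1]) (by positivity) hD.1
        (by rw [ec]; exact s1.esc hD) (by rw [ec]; exact s2.esc (by rwa [Set.insert_comm])) (H _ lo)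
  obtain ⟨l, z, l1, l2, l3⟩ := a.best4 H1
  rcases le_total (plen l) (alt A B * vU A B) with c | c
  · have p0 : 0 ≤ plen l := Finset.sum_nonneg fun _ _ => norm_nonneg _
    refine fin _ (plen l / alt A B) (Or.inr ⟨l, z, rfl⟩) (by positivity) (zg l z).1 (zg l z).2
      (fun w hw => (poly_len _).trans ?_) (low _ (by positivity) (by rw [ec]; exact ⟨l1, l2, l3, c⟩))
    rw [plen_map _ (by positivity)]
    apply le_of_eq
    ring_nf
  · refine fin _ _ (Or.inl rfl) v0 u1 u2 u3 (low _ v0 ?_)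
    rw [mul_comm]
    exact ⟨⟨c.trans l1.1, fun φ p q => c.trans (l1.2 φ p q)⟩, fun s t q => c.trans (l2 s t q),
      fun f g q => c.trans (l3 f g q), le_rfl⟩

end Pool.Agent.P.MP_d76e6a_co
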