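import Pool.Agent.P.MP_d76e6a_co.WMode

/-!
The certificate for the zigzag with three equal segments.
-/

namespace Pool.Agent.P.MP_d76e6a_co

open Real

theorem b_cert {τ γ A B ω β yR : ℝ} {L R : Half} (r1 : RowsT τ (γ * alt A B) L R A B)
    (r2 : RowsT τ (γ * alt A B) R L A B) (hτ : 0 ≤ τ) (hγ : 0 ≤ γ) (a : Ang A B) (b0 : 0 ≤ β)
    (b1 : β ≤ yR) (b2 : yR ≤ A) (b3 : yR - β ≤ τ) (d2 : R.d β < R.d π) (d3 : R.d π ≤ R.d yR)
    (bz : B + β < π / 2) (w0 : β ≤ ω) (w1 : ω + β ≤ π / 2) {n ν : ℝ} (hn : n = 4 * sin ω * cos β)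
    (hν : ν * sin (B + β) = cos (ω - β) - alt A B * n)
    (eω : cos (B + 2 * β - ω) * sin (A + B) = n * sin B * sin (A + B + β))
    (l0 : 2 * sin ω * sin A ≤ ν * sin (A + B))
    (c1 : (alt A B * n) ^ 2 + (alt A B * n * (cos A / sin A)) ^ 2 ≤ 1)
    (c2 : (cos (ω - β) - alt A B * n) ^ 2 + (alt A B * n * (cos A / sin A) + sin (ω - β)) ^ 2 ≤ 1)
    (c3 : ν * (sin B / sin A) ≤ 2 * sin (A - β - (ω + β))) (c4 : ν * (sin B / sin A) ≤ 1)
    (c5 : ν * sin (A + B) / sin A - 2 * sin ω ≤ 2 * sin (β + (ω + β))) :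
    γ * (cos β * wF A B β ω) ≤ L.len + R.len := by
  obtain ⟨sA, sAB, sBC⟩ := a.sins
  have hh := a.alt_pos
  have A0 := a.h0
  have A1 := a.h1
  have A2 := a.h2
  have hpi := pi_pos
  have sB : 0 < sin B := by linarith
  have sC : 0 < sin (A + B) := by linarith
  have sn : ∀ t, 0 ≤ t → t ≤ π / 2 → 0 ≤ sin t := fun t h1 h2 =>
    sin_nonneg_of_nonneg_of_le_pi h1 (by linarith)
  have cn : ∀ t, 0 ≤ t → t ≤ π / 2 → 0 ≤ cos t := fun t h1 h2 =>
    cos_nonneg_of_mem_Icc ⟨by linarith, h2⟩
  have sω := sn ω (by linarith) (by linarith)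
  have sβ := sn β b0 (by linarith)
  have cβ : 0 < cos β := cos_pos_of_mem_Ioo ⟨by linarith, by linarith⟩
  have sg := sn (ω - β) (by linarith) (by linarith)
  have sg' := sn (ω + β) (by linarith) w1
  have sK : 0 < sin (B + β) := sin_pos_of_pos_of_lt_pi (by linarith) (by linarith)
  have cK := cn (B + β) (by linarith) bz.le
  have cA := cn A A0.le (by linarith)
  have cB := cn B (by linarith) (by linarith)
  have p3 := sn (A - β) (by linarith) (by linarith)
  have p4 := cn (A - β) (by linarith) (by linarith)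
  have n0 : 0 ≤ n := by rw [hn]; positivity
  have v0 : 0 ≤ ν := nonneg_of_mul_nonneg_left (le_trans (by positivity) l0) sC
  set l := ν * sin (A + B) / sin A - 2 * sin ω with hl
  have l1 : 0 ≤ l := by rw [hl, sub_nonneg, le_div_iff₀ sA]; exact l0
  have en : n = 2 * sin (ω - β) + 2 * sin (ω + β) := by rw [hn, sin_add, sin_sub]; ring
  have ey : ν * cos (B + β) = alt A B * n * (cos A / sin A) - sin (ω - β) := by
    refine mul_right_cancel₀ sK.ne' ?_
    have i1 : cos (B + 2 * β - ω) = cos (B + β) * cos (ω - β) + sin (B + β) * sin (ω - β) := by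
      rw [← cos_sub]; congr 1; ring
    have i2 : sin (A + B + β) = sin A * cos (B + β) + cos A * sin (B + β) := by
      rw [← sin_add, add_assoc]
    have i3 : cos (B + 2 * β - ω)
        = alt A B * n * (cos (B + β) + cos A / sin A * sin (B + β)) := by
      refine mul_right_cancel₀ sC.ne' ?_
      rw [eω, i2, alt]; field_simp
    linear_combination cos (B + β) * hν - i1 + i3
  have w := rows4 r1 r2 hτ a (α := 0) (yL := 0) le_rfl le_rfl A0.le (by linarith) b0 b1 b2 b3
    (np := n) (nm := 0) (ea := 0) (la := 0) (eb := 2 * sin ω) (lb := l) (να := 0) (νβ := ν)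
    (pL := 2 * sin (ω - β)) (pR := 2 * sin (ω + β)) n0 le_rfl le_rfl le_rfl (by positivity) l1
    (by positivity) (by positivity) (by linarith) (by ring) (by rw [hl]; field_simp; ring)
  have T := (cos_sq_add_sin_sq (ω - β)).le
  have a2 : 0 ≤ alt A B * n := by positivity
  have a4 : 0 ≤ ν * sin (B + β) := by positivity
  have b4 : 0 ≤ ν * cos (B + β) := by positivity
  have u1 : part L A B 0 0 β 0 0 n 0 0 ν (2 * sin (ω - β)) ≤ L.len := by
    have := L.robust3 (L.hd A) (L.hd (π - B - β)) (L.hd π) (u1 := alt A B * n)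
      (v1 := alt A B * n * (cos A / sin A)) (u2 := ν * sin (B + β)) (v2 := -(ν * cos (B + β)))
      (u3 := 0) (v3 := -(2 * sin (ω - β)))
      (box_le T (by linarith) (by linarith) (by linarith) (by linarith))
      (box_le T (by linarith) (by linarith) (by linarith) (by linarith))
      (box_le c1 (by linarith) (by linarith) (by linarith) (by linarith))
      (box_le c2 (by linarith) (by linarith) (by linarith) (by linarith)) c1
      (box_le c2 (by linarith) (by linarith) (by linarith) (by linarith))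
      (box_le c2 (by linarith) (by linarith) (by linarith) (by linarith))
    simp only [part, mul_zero, zero_mul, add_zero, sub_zero, zero_add]
    linarith
  have f1 : l * sin β + ν * (sin B / sin A) * sin (A - β) = ν * sin (B + β) - 2 * sin ω * sin β := by
    rw [hl]; field_simp
    simp only [sin_add, sin_sub]; ring
  have f2 : l * cos β - ν * (sin B / sin A) * cos (A - β) = ν * cos (B + β) - 2 * sin ω * cos β := by
    rw [hl]; field_simp
    simp only [sin_add, cos_add, cos_sub]; ring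
  have f3 : alt A B * n * (cos A / sin A) + alt A B * n * (cos B / sin B) = n := by
    rw [alt]; field_simp
    simp only [sin_add]; ring
  have f4 : cos (ω + β) + 2 * sin ω * sin β = cos (ω - β) := by rw [cos_add, cos_sub]; ring
  have f5 : sin (ω + β) + sin (ω - β) = 2 * sin ω * cos β := by rw [sin_add, sin_sub]; ring
  have T' := (cos_sq_add_sin_sq (ω + β)).le
  have w5 : 0 ≤ ν * (sin B / sin A) := by positivity
  have n4 := shift_le w5 c3
  have q2 : (cos (ω + β) - l * sin β) ^ 2 + (sin (ω + β) - l * cos β) ^ 2 ≤ 1 := by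
    rw [sin_add β] at c5
    nlinarith [mul_le_mul_of_nonneg_left c5 l1, congrArg (l ^ 2 * ·) (sin_sq_add_cos_sq β)]
  have u2 : part R A B β yR 0 (2 * sin ω) l 0 n ν 0 (2 * sin (ω + β)) ≤ R.len := by
    refine R.zig (c := cos (ω + β)) (s := sin (ω + β)) (by linarith) b2 A1 (by linarith)
      (by linarith) (by linarith) d2 d3 (by positivity) (by simp) a2 (by simp) (by positivity)
      (by positivity) (by simp) (by positivity) (by simp) (by positivity) (by linarith)
      (by linarith) sg' T' ?_ (by linarith) (by simpa using n4) n4 ?_ q2 (by simpa using q2) ?_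
    · rw [f4, show sin (ω + β) - 2 * sin (ω + β) + 2 * sin ω * cos β = sin (ω - β) by linarith]
      exact T
    · have := mul_nonneg w5 p4
      linarith
    · nlinarith [congrArg ((ν * (sin B / sin A)) ^ 2 * ·) (sin_sq_add_cos_sq (A - β))]
  refine le_trans ?_ (w.trans (add_le_add u1 u2))
  rw [mul_assoc γ]
  refine mul_le_mul_of_nonneg_left (le_of_eq ?_) hγ
  have k1 : 0 < wk B β := div_pos sK sB
  have k2 : sin B * wk B β = sin (B + β) := by rw [wk]; field_simp
  have j7 : alt A B * (n + 0 + (0 + 0) + (2 * sin ω + l)) = alt A B * n + ν * sin B := by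
    rw [hl, alt]; field_simp; ring
  rw [j7, wF, ← mul_div_assoc, div_eq_iff k1.ne', wY]
  rw [cos_sub] at hν
  linear_combination -ν * k2 - hν - alt A B * (wk B β - 1) * hn + sin ω * tan_mul_cos cβ.ne'

theorem b_alg {T s t δ ε Y : ℝ} (T0 : 0 ≤ T) (t0 : 0 ≤ t) (δ0 : 0 ≤ δ) (e3 : ε ≤ 3)
    (et : t = s - δ * T) (hY : T * (3 - ε) ≤ Y)
    (h : (1 + s ^ 2) * (2 * t * ε + 9 * T * s ^ 2) ≤ δ * (t + s - 6 * T * (1 + s ^ 2))) :
    (1 + 3 * s * T) ^ 2 * (1 + t ^ 2) ≤ (1 + t * Y) ^ 2 * (1 + s ^ 2) := by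
  have p0 : 0 ≤ t * (T * (3 - ε)) := mul_nonneg t0 (mul_nonneg T0 (by linarith))
  have p1 : t * (T * (3 - ε)) ≤ t * Y := mul_le_mul_of_nonneg_left hY t0
  have p2 : 1 + 2 * (t * (T * (3 - ε))) ≤ (1 + t * Y) ^ 2 := by nlinarith
  have dT := mul_nonneg δ0 T0
  have s0 : 0 ≤ s := by linarith
  have p3 : t ^ 2 ≤ s ^ 2 := by nlinarith
  have p4 := mul_le_mul_of_nonneg_left p3 (show 0 ≤ 6 * s * T + 9 * s ^ 2 * T ^ 2 by positivity)
  have p5 := mul_le_mul_of_nonneg_left h T0
  have p6 := mul_le_mul_of_nonneg_right p2 (show 0 ≤ 1 + s ^ 2 by positivity)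
  have p7 : s = t + δ * T := by linarith
  refine le_trans ?_ p6
  rw [p7] at p4 p5 ⊢
  linarith

/-- The angle of the certificate. -/
noncomputable def bw (A B β : ℝ) : ℝ :=
  arctan ((cos B / sin B * (1 - tan β ^ 2) - 2 * tan β) /
    (3 + tan β ^ 2 + tan β * (4 * (cos (A + B) / sin (A + B)) - 2 * (cos B / sin B))))

theorem b_facts {A B β : ℝ} (a : Ang A B) (b0 : 0 ≤ β) (bz : B + β < π / 2)
    (T1 : tan β ≤ 1 / 20) (h1 : 3 / 20 ≤ cos B / sin B) (h2 : cos A / sin A ≤ 3 / 2)
    (h3 : cos B / sin B ≤ 1) (h4 : cos (A + B) / sin (A + B) ≤ 0)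
    (h5 : -(3 / 5) ≤ cos (A + B) / sin (A + B))
    (hv : (1 + (cos B / sin B / 3) ^ 2) * (2 * (cos B / sin B / 3) *
        (2 * kap A B + 2 * (1 - cos β) + 2 * alt A B * tan β) + 9 * tan β * (cos B / sin B / 3) ^ 2)
      * (3 * (3 + tan β ^ 2)) ≤ 2 * (3 - (cos B / sin B) ^ 2
        + 2 * (cos B / sin B) * (cos (A + B) / sin (A + B)))
        * (2 * (cos B / sin B / 3) - tan β - 6 * tan β * (1 + (cos B / sin B / 3) ^ 2))) :
    (cos B / sin B / 3 - tan β ≤ tan (bw A B β) ∧ tan (bw A B β) ≤ cos B / sin B / 3) ∧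
    cos (B + 2 * β - bw A B β) * sin (A + B)
      = 4 * sin (bw A B β) * cos β * sin B * sin (A + B + β) ∧
    2 * sin (bw A B β) * sin A * sin (B + β)
      ≤ (cos (bw A B β - β) - alt A B * (4 * sin (bw A B β) * cos β)) * sin (A + B) ∧
    bV B ≤ cos β * wF A B β (bw A B β) := by
  obtain ⟨sA, sAB, sBC⟩ := a.sins
  have hh := a.alt_pos
  have A0 := a.h0
  have A1 := a.h1
  have A2 := a.h2
  have hpi := pi_pos
  have sB : 0 < sin B := by linarith
  have sC : 0 < sin (A + B) := by linarith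
  have cβ : 0 < cos β := cos_pos_of_mem_Ioo ⟨by linarith, by linarith⟩
  have T0 : 0 ≤ tan β := tan_nonneg_of_nonneg_of_le_pi_div_two b0 (by linarith)
  have sβ : sin β = tan β * cos β := (tan_mul_cos cβ.ne').symm
  have qβ : cos β ^ 2 * (1 + tan β ^ 2) = 1 := by
    have := sin_sq_add_cos_sq β
    rw [sβ] at this; linarith
  set T := tan β with hT
  set x := cos A / sin A with hx
  set y := cos B / sin B with hy
  set z := cos (A + B) / sin (A + B) with hz
  have ex : cos A = x * sin A := by rw [hx]; field_simp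
  have ey : cos B = y * sin B := by rw [hy]; field_simp
  have ez : cos (A + B) = z * sin (A + B) := by rw [hz]; field_simp
  have eC : sin (A + B) = (x + y) * (sin A * sin B) := by rw [sin_add, ex, ey]; ring
  have S0 : 0 < x + y := (mul_pos_iff_of_pos_right (mul_pos sA sB)).1 (eC ▸ sC)
  have eh : alt A B * (x + y) = 1 := by rw [alt, eC]; field_simp
  have ezz : z * (x + y) = x * y - 1 := by
    refine mul_right_cancel₀ (mul_pos sA sB).ne' ?_
    rw [mul_assoc, ← eC, ← ez, cos_add, ex, ey]; ring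
  have ek : kap A B * (x + y) = x - y := by
    rw [kap, eC, sin_sub, ex, ey]; field_simp
  have k0 : 0 ≤ kap A B :=
    div_nonneg (sin_nonneg_of_nonneg_of_le_pi (by linarith) (by linarith)) sC.le
  have xy : y ≤ x := by linarith only [mul_nonneg k0 S0.le, ek]
  have TT : T ^ 2 ≤ T / 20 := by linarith only [mul_le_mul_of_nonneg_left T1 T0]
  set D := 3 + T ^ 2 + T * (4 * z - 2 * y) with hD
  have D0 : 5 / 2 ≤ D := by
    linarith only [hD, sq_nonneg T, T1,
      mul_le_mul_of_nonneg_left (show -(22 / 5) ≤ 4 * z - 2 * y by linarith) T0]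
  have D1 : D ≤ 3 + T ^ 2 := by
    linarith only [hD, mul_le_mul_of_nonneg_left (show 4 * z - 2 * y ≤ 0 by linarith) T0]
  set t := (y * (1 - T ^ 2) - 2 * T) / D with ht
  have etD : t * D = y * (1 - T ^ 2) - 2 * T := div_mul_cancel₀ _ (by linarith)
  have eω : bw A B β = arctan t := rfl
  set ω := arctan t with hω
  have cω : 0 < cos ω := cos_arctan_pos t
  have tω : tan ω = t := tan_arctan t
  have sω : sin ω = t * cos ω := by rw [← tω, tan_mul_cos cω.ne']
  set δ := 2 * (3 - y ^ 2 + 2 * y * z + 2 * y * T) / (3 * D) with hδ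
  clear_value δ ω t D z y x T
  have eδ : δ * (3 * D) = 2 * (3 - y ^ 2 + 2 * y * z + 2 * y * T) := by
    rw [hδ]; exact div_mul_cancel₀ _ (by linarith)
  have et : t = y / 3 - δ * T := by
    refine mul_right_cancel₀ (show 3 * D ≠ 0 by linarith) ?_
    linear_combination 3 * etD + T * eδ - y * hD
  have y0 : 0 < y := by linarith only [h1]
  have N1 : 0 < 3 - y ^ 2 + 2 * y * z := by
    linarith only [mul_le_mul_of_nonneg_left h3 y0.le, mul_le_mul_of_nonneg_left h5 y0.le, h3]
  have N0 := N1.le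
  have yT : 0 ≤ y * T := by positivity
  have δ0 : 0 ≤ δ := by rw [hδ]; exact div_nonneg (by linarith) (by linarith)
  have δ1 : δ ≤ 1 := by
    rw [hδ, div_le_one (by linarith)]
    linarith only [D0, sq_nonneg y, mul_le_mul_of_nonneg_left h4 y0.le, T1,
      mul_le_mul_of_nonneg_left h3 T0]
  have dT0 := mul_nonneg δ0 T0
  have dT1 := mul_le_mul_of_nonneg_right δ1 T0
  have t0 : 0 ≤ t := by linarith
  rw [eω, tω]
  refine ⟨⟨by linarith, by linarith⟩, ?_, ?_, ?_⟩
  · rw [sin_add (A + B), ez, cos_sub, cos_add B, sin_add B, cos_two_mul, sin_two_mul, ey, sω, sβ]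
    linear_combination (-sin (A + B) * cos ω * sin B * cos β ^ 2) * etD
      + sin (A + B) * cos ω * sin B * (y + t) * qβ
      + sin (A + B) * cos ω * sin B * cos β ^ 2 * t * hD
  · have J : 0 ≤ 3 * (x - y) + T * (8 + 3 * x * y - 3 * y ^ 2) + T ^ 2 * (9 * y - x)
        + T ^ 3 * (y ^ 2 - x * y) := by
      have j0 : 0 ≤ x - y := by linarith only [xy]
      have j1 : 0 ≤ T * (y * (x - y)) := by positivity
      have j3 : y * (x - y) ≤ 1 * (3 / 2) := mul_le_mul h3 (by linarith) j0 zero_le_one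
      have j2 : T ^ 2 * (y * (x - y)) ≤ 1 / 2 * (1 * (3 / 2)) :=
        mul_le_mul (by linarith) j3 (by positivity) (by norm_num)
      linarith only [mul_le_mul_of_nonneg_left j2 T0, j1, j0, T0, TT,
        mul_le_mul_of_nonneg_left (show -1 ≤ 9 * y - x by linarith) (sq_nonneg T)]
    have key : (2 * (1 + y * T) + 4) * t ≤ (x + y) * (1 + t * T) := by
      refine le_of_mul_le_mul_right ?_ (show 0 < D by linarith)
      linear_combination J + (6 + 2 * y * T - (x + y) * T) * etD - 4 * T * ezz - (x + y) * hD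
    have := mul_le_mul_of_nonneg_left key
      (show 0 ≤ cos ω * cos β * (sin A * sin B) by positivity)
    rw [sin_add B, cos_sub, eC, ey, sω, sβ]
    linear_combination this + 4 * t * cos ω * cos β * (sin A * sin B) * eh
  · set ε := 2 * kap A B + 2 * (1 - cos β) + 2 * alt A B * T with hε
    clear_value ε
    have c1 := cos_le_one β
    have e0 : 0 ≤ ε := by have := mul_nonneg hh.le T0; linarith
    have ek' : wk B β = cos β * (1 + y * T) := by rw [wk, sin_add, ey, sβ]; field_simp
    have eτ : 2 * alt A B * y = 1 - kap A B := by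
      refine mul_right_cancel₀ S0.ne' ?_
      linear_combination 2 * y * eh + ek
    have c2 : 1 - cos β ≤ T ^ 2 / 2 := by
      refine le_of_mul_le_mul_left ?_ (pow_pos cβ 2)
      linarith only [qβ, mul_nonneg (sq_nonneg (1 - cos β)) (show 0 ≤ 1 + 2 * cos β by linarith)]
    have hY : T * (3 - ε) ≤ wY A B β := by
      rw [wY, ek', ← hT]
      have i1 := mul_le_mul_of_nonneg_left c2 hh.le
      have i2 : 0 ≤ T * (kap A B * (1 - cos β)) := mul_nonneg T0 (mul_nonneg k0 (by linarith))
      linear_combination 4 * i1 + 2 * i2 - 2 * T * cos β * eτ - T * hε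
    have h1' : alt A B ≤ 4 := by
      linarith only [eh, mul_le_mul_of_nonneg_left (show 1 / 4 ≤ x + y by linarith) hh.le]
    have k1 : kap A B ≤ 1 := by linarith only [mul_nonneg hh.le y0.le, eτ]
    have e3 : ε ≤ 3 := by
      linarith only [hε, k1, c2, TT, T1, mul_le_mul_of_nonneg_right h1' T0]
    have R0 : 0 ≤ (1 + (y / 3) ^ 2) * (2 * (y / 3) * ε + 9 * T * (y / 3) ^ 2) := by positivity
    have main := b_alg (s := y / 3) T0 t0 δ0 e3 et hY (by
      have m1 : (1 + (y / 3) ^ 2) * (2 * t * ε + 9 * T * (y / 3) ^ 2)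
          ≤ (1 + (y / 3) ^ 2) * (2 * (y / 3) * ε + 9 * T * (y / 3) ^ 2) := by
        gcongr; linarith
      have m2 : 0 ≤ 2 * (y / 3) - T - 6 * T * (1 + (y / 3) ^ 2) :=
        nonneg_of_mul_nonneg_right ((mul_nonneg R0 (by positivity)).trans hv) (by linarith)
      have m3 : 2 * (3 - y ^ 2 + 2 * y * z) ≤ δ * (3 * (3 + T ^ 2)) := by
        linarith only [mul_le_mul_of_nonneg_left D1 δ0, eδ, yT]
      have m4 := hv.trans (mul_le_mul_of_nonneg_right m3 m2)
      have m5 : (1 + (y / 3) ^ 2) * (2 * (y / 3) * ε + 9 * T * (y / 3) ^ 2)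
          ≤ δ * (2 * (y / 3) - T - 6 * T * (1 + (y / 3) ^ 2)) := by
        refine le_of_mul_le_mul_right ?_ (show 0 < 3 * (3 + T ^ 2) by positivity)
        linarith
      refine m1.trans (m5.trans (mul_le_mul_of_nonneg_left (by linarith) δ0)))
    have Y0 : 0 ≤ wY A B β := le_trans (mul_nonneg T0 (by linarith)) hY
    have e1 : cos β * wF A B β ω = cos ω * (1 + t * wY A B β) / (1 + y * T) := by
      rw [wF, ek', sω]; field_simp
    have e2 : cos ω ^ 2 * (1 + t ^ 2) = 1 := by
      have := sin_sq_add_cos_sq ω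
      rw [sω] at this; linarith
    rw [e1, bV, cot_eq_cos_div_sin, ← hy, le_div_iff₀ (by positivity), div_mul_eq_mul_div,
      div_le_iff₀ (by positivity)]
    refine abs_le_of_sq_le_sq' ?_ (by positivity) |>.2
    rw [mul_pow _ (√_), sq_sqrt (by positivity)]
    have := mul_le_mul_of_nonneg_left main (sq_nonneg (cos ω))
    linear_combination 9 * this - 9 * (1 + y * T) ^ 2 * e2

end Pool.Agent.P.MP_d76e6a_co
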