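import Pool.Agent.P.MP_d76e6a_co.WTM
import Pool.Agent.P.MP_d76e6a_co.WBMode

/-!
Checks of the analytic certificates on cells.
-/

namespace Pool.Agent.P.MP_d76e6a_co

open Real

structure Bx where
  A : T3
  B : T3
  sA : T3
  cA : T3
  sB : T3
  cB : T3
  sC : T3
  h : T3
  ka : T3
  k2 : T3
  rC : T3
  rB : T3
  x : T3
  y : T3

structure BxOK (S : Env → Prop) (b : Bx) (A B : ℝ) : Prop where
  A' : SM S b.A A
  B' : SM S b.B B
  sA : SM S b.sA (sin A)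
  cA : SM S b.cA (cos A)
  sB : SM S b.sB (sin B)
  cB : SM S b.cB (cos B)
  sC : SM S b.sC (sin (A + B))
  h : SM S b.h (alt A B)
  ka : SM S b.ka (kap A B)
  k2 : SM S b.k2 (kap A B * kap A B)
  rC : SM S b.rC (sin (A + B) / sin A)
  rB : SM S b.rB (sin B / sin A)
  x : SM S b.x (cos A / sin A)
  y : SM S b.y (cos B / sin B)

theorem BxOK.mono {S S' : Env → Prop} {b : Bx} {A B : ℝ} (h : BxOK S b A B) (e : ∀ E, S' E → S E) :
    BxOK S' b A B :=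
  ⟨h.A'.mono e, h.B'.mono e, h.sA.mono e, h.cA.mono e, h.sB.mono e, h.cB.mono e, h.sC.mono e,
    h.h.mono e, h.ka.mono e, h.k2.mono e, h.rC.mono e, h.rB.mono e, h.x.mono e, h.y.mono e⟩

theorem BxOK.at {S : Env → Prop} {b : Bx} {A B : ℝ} (h : BxOK S b A B) {E : Env} (q : S E) :
    BxOK (· = E) b A B := h.mono fun _ e => e ▸ q

def SB (a b : ℝ) (E : Env) : Prop := E.xi 0 = a ∧ E.xi 1 = b
def SC (a b u v : ℝ) (E : Env) : Prop := SB a b E ∧ E.e1 = u ∧ E.e2 = v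

theorem SB.set {a b : ℝ} (E : Env) (ξ : ℝ) (h : SB a b E) : SB a b (E.set ξ) := h
theorem SC.set {a b u v : ℝ} (E : Env) (ξ : ℝ) (h : SC a b u v E) : SC a b u v (E.set ξ) := h

theorem SC.ex {a b u v : ℝ} {E : Env} (h : SB a b E) (hu : |u| ≤ 1) (hv : |v| ≤ 1) :
    ∃ E, SC a b u v E := ⟨⟨u, v, E.xi, hu, hv, E.hx⟩, h, rfl, rfl⟩

noncomputable def bxK (a0 a1 b0 b1 : ℕ) (k : Bx → Bool) : Bool :=
  gT (angT (Nat.mul 2 (Nat.add a0 a1)) 0 0 (Nat.mul 2 (Nat.sub a1 a0)) 0) fun A =>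
  gT (angT (Nat.mul 2 (Nat.add b0 b1)) 0 0 0 (Nat.mul 2 (Nat.sub b1 b0))) fun B =>
  scK A fun sA cA => scK B fun sB cB => gT (sA.mul cB) fun u => gT (cA.mul sB) fun v =>
  gT (u.add v) fun sC => invK sC fun iC => invK sA fun iA => invK sB fun iB =>
  gT ((sA.mul sB).mul iC) fun h => gT ((wsb v u).mul iC) fun ka => gT (ka.mul ka) fun k2 =>
  gT (sC.mul iA) fun rC => gT (sB.mul iA) fun rB => gT (cA.mul iA) fun x => gT (cB.mul iB) fun y =>
  k ⟨A, B, sA, cA, sB, cB, sC, h, ka, k2, rC, rB, x, y⟩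

theorem bxK_spec {a0 a1 b0 b1 : ℕ} {k : Bx → Bool} (h : bxK a0 a1 b0 b1 k = true) {A B : ℝ}
    (h1 : ang a0 ≤ A) (h2 : A ≤ ang a1) (h3 : ang b0 ≤ B) (h4 : B ≤ ang b1) :
    ∃ a b E x, SB a b E ∧ BxOK (SB a b) x A B ∧ k x = true := by
  obtain ⟨a, ha, eA⟩ := ang_coord h1 h2
  obtain ⟨b, hb, eB⟩ := ang_coord h3 h4
  obtain ⟨E, q⟩ : ∃ E, SB a b E := ⟨⟨0, 0, fun i => if i = 0 then a else b, by simp, by simp,
    fun i => by split_ifs <;> assumption⟩, rfl, rfl⟩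
  obtain ⟨tA, mA, h⟩ := SM.el (S := SB a b) (u := A) (fun E q => SM.cast (SM.of (angT_mem E _ _ _ _ _))
    (by rw [eA, q.1]; simp only [Nat.mul_eq, Nat.add_eq, Nat.sub_eq]; push_cast; ring) E rfl) h
  obtain ⟨tB, mB, h⟩ := SM.el (S := SB a b) (u := B) (fun E q => SM.cast (SM.of (angT_mem E _ _ _ _ _))
    (by rw [eB, q.2]; simp only [Nat.mul_eq, Nat.add_eq, Nat.sub_eq]; push_cast; ring) E rfl) h
  obtain ⟨sA, cA, msA, mcA, h⟩ := mA.scK h
  obtain ⟨sB, cB, msB, mcB, h⟩ := mB.scK h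
  obtain ⟨u, mu, h⟩ := (msA.mul mcB).el h
  obtain ⟨v, mv, h⟩ := (mcA.mul msB).el h
  obtain ⟨sC, msC, h⟩ := ((mu.add mv).cast (sin_add A B).symm).el h
  obtain ⟨-, iC, miC, h⟩ := msC.invK q h
  obtain ⟨-, iA, miA, h⟩ := msA.invK q h
  obtain ⟨-, iB, miB, h⟩ := msB.invK q h
  obtain ⟨_, m1, h⟩ := (((msA.mul msB).mul miC).cast (v := alt A B) (by rw [alt]; ring)).el h
  obtain ⟨_, m2, h⟩ := (((mv.sub mu).mul miC).cast (v := kap A B) (by rw [kap, sin_sub]; ring)).el h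
  obtain ⟨_, m3, h⟩ := (m2.mul m2).el h
  obtain ⟨_, m4, h⟩ := ((msC.mul miA).cast (mul_one_div _ _)).el h
  obtain ⟨_, m5, h⟩ := ((msB.mul miA).cast (mul_one_div _ _)).el h
  obtain ⟨_, m6, h⟩ := ((mcA.mul miA).cast (mul_one_div _ _)).el h
  obtain ⟨_, m7, h⟩ := ((mcB.mul miB).cast (mul_one_div _ _)).el h
  exact ⟨a, b, E, _, q, ⟨mA, mB, msA, mcA, msB, mcB, msC, m1, m2, m3, m4, m5, m6, m7⟩, h⟩

def yT (b : Bx) (s c t : T3) : T3 := (PT.nm 4 (b.h.mul ((wsb c oneT).add (b.y.mul s)))).add t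

theorem wk_eq {B φ : ℝ} (h : 0 < sin B) : wk B φ = cos φ + cos B / sin B * sin φ := by
  rw [wk, sin_add]; field_simp

theorem yT_spec {S : Env → Prop} {b : Bx} {A B φ : ℝ} (o : BxOK S b A B) (a : Ang A B) {s c t : T3}
    (hs : SM S s (sin φ)) (hc : SM S c (cos φ)) (ht : SM S t (tan φ)) :
    SM S (yT b s c t) (wY A B φ) :=
  ((o.h.mul ((hc.sub SM.one).add (o.y.mul hs))).n4.add ht).cast (by
    rw [wY, wk_eq (by linarith [a.sins.1, a.sins.2.1])]; ring)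

structure Cn where
  P : T3
  s : T3
  c : T3
  t : T3
  Y : T3

structure CnOK (S : Env → Prop) (n : Cn) (A B φ : ℝ) : Prop where
  P : SM S n.P φ
  s : SM S n.s (sin φ)
  c : SM S n.c (cos φ)
  t : SM S n.t (tan φ)
  Y : SM S n.Y (wY A B φ)

noncomputable def cnK (b : Bx) (p : ℕ) (k : Cn → Bool) : Bool :=
  gT (angT (Nat.mul 4 p) 0 0 0 0) fun P => scK P fun s c => invK c fun i => gT (s.mul i) fun t =>
    gT (yT b s c t) fun Y => k ⟨P, s, c, t, Y⟩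

theorem cnK_spec {S : Env → Prop} {E : Env} (q : S E) {b : Bx} {A B : ℝ} (o : BxOK S b A B)
    (a : Ang A B) {p : ℕ} {k : Cn → Bool} (h : cnK b p k = true) :
    ∃ n, CnOK S n A B (ang p) ∧ k n = true := by
  obtain ⟨P, mP, h⟩ := SM.el (S := S) (u := ang p) (fun E _ => SM.cast (SM.of (angT_mem E _ _ _ _ _))
    (by simp only [Nat.mul_eq, ang]; push_cast; ring) E rfl) h
  obtain ⟨s, c, ms, mc, h⟩ := mP.scK h
  obtain ⟨-, i, mi, h⟩ := mc.invK q h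
  obtain ⟨t, mt, h⟩ := ((ms.mul mi).cast (v := tan (ang p)) (by
    rw [tan_eq_sin_div_cos, mul_one_div])).el h
  obtain ⟨Y, mY, h⟩ := (yT_spec o a ms mc mt).el h
  exact ⟨_, ⟨mP, ms, mc, mt, mY⟩, h⟩

noncomputable def dsK (b : Bx) (n : Cn) (sg : Bool) (md g0 r : ℕ) : Bool :=
  gK n.Y n.P n.P md g0 r fun s c => gT (wsb c (PT.nm 4 (s.mul b.h))) fun K => nnT K &&
    gT (s.mul ((b.sB.mul n.c).add (b.cB.mul n.s))) fun u =>
    gT (((K.add (s.mul n.t)).mul (wsb (b.cB.mul n.c) (b.sB.mul n.s))).mul (n.c.mul n.c)) fun v =>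
      nnT (Bool.rec (wsb v u) (wsb u v) sg)

theorem wg_max (A B φ : ℝ) : max (max (arctan (wY A B φ)) (2 * φ)) (2 * φ) = wg A B φ :=
  max_eq_left (le_max_right _ _)

theorem dsK_spec {a b A B φ : ℝ} {E : Env} (q : SB a b E) {x : Bx} (o : BxOK (SB a b) x A B) {n : Cn}
    (on : CnOK (SB a b) n A B φ) (h0 : 0 ≤ φ) {sg : Bool} {md g0 r : ℕ}
    (h : dsK x n sg md g0 r = true) :
    (if sg then 0 ≤ dS A B φ else dS A B φ ≤ 0) ∧ 4 * sin (wg A B φ) * alt A B ≤ cos (wg A B φ) := by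
  obtain ⟨-, E, s, c, q, ms, mc, h⟩ := gK_spec SB.set q on.Y on.P on.P h0 h0 h
  rw [wg_max] at ms mc
  have o := o.at q
  obtain ⟨K, mK, h⟩ := (mc.sub (ms.mul o.h).n4).el h
  rw [Bool.and_eq_true] at h
  have k0 := mK.nn rfl h.1
  obtain ⟨u, mu, h⟩ := (ms.mul ((o.sB.mul (on.c.at q)).add (o.cB.mul (on.s.at q)))).el h.2
  obtain ⟨v, mv, h⟩ := (((mK.add (ms.mul (on.t.at q))).mul ((o.cB.mul (on.c.at q)).sub
    (o.sB.mul (on.s.at q)))).mul ((on.c.at q).mul (on.c.at q))).el h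
  refine ⟨?_, by linarith⟩
  rw [dS, sin_add, cos_add]
  cases sg
  · have := (mv.sub mu).nn rfl h
    simp only [Bool.false_eq_true, if_false]
    linarith
  · have := (mu.sub mv).nn rfl h
    simp only [if_true]
    linarith

def sideK (b : Bx) (s c sx cx e nx nz sZ cZ Q : T3) : Bool :=
  gT (wsb (nx.mul b.rC) e) fun l => nnT l && nnT (wsb (PT.nm 2 ((sx.mul c).add (cx.mul s))) l) &&
  gT (nx.mul b.rB) fun w => gT (wsb (b.sA.mul cx) (b.cA.mul sx)) fun sA =>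
  gT ((b.cA.mul cx).add (b.sA.mul sx)) fun cA =>
  nnT (wsb (PT.nm 2 (wsb (sA.mul c) (cA.mul s))) w) &&
  gT (nz.mul cZ) fun y4 => gT (w.mul cA) fun y5 => gT (y4.add y5) fun Z =>
  gT (wsb c ((nz.mul sZ).add (w.mul sA))) fun u => gT (s.add Z) fun v =>
  nnT (wsb oneT ((u.mul u).add (v.mul v))) && nnT (wsb (s.add y5) y4) &&
  gT (Z.mul Z) fun z => gT ((wsb (PT.nm 2 oneT) (z.add (z.mul z))).mul b.ka) fun r =>
  gT (PT.nm 2 Q) fun Q => nnT (wsb oneT z) && nnT (wsb r Q) && nnT (r.add Q)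

theorem sq_aux {k z Q : ℝ} (k0 : 0 < k) (z0 : 0 ≤ z) (z1 : z ≤ 1)
    (h1 : 2 * Q ≤ (2 - (z + z * z)) * k) (h2 : -(2 * Q) ≤ (2 - (z + z * z)) * k) :
    (Q / k) ^ 2 + z ≤ 1 := by
  have a : Q / k ≤ (2 - (z + z * z)) / 2 := by rw [div_le_iff₀ k0]; linarith
  have b : -((2 - (z + z * z)) / 2) ≤ Q / k := by rw [le_div_iff₀ k0]; linarith
  have c := sq_le_sq' b a
  have d := mul_nonneg (mul_nonneg z0 z0) (mul_nonneg (sub_nonneg.2 z1) (show 0 ≤ z + 3 by linarith))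
  nlinarith

theorem sideK_spec {E : Env} {b : Bx} {A B g x z q : ℝ} (o : BxOK (· = E) b A B) (k0 : 0 < kap A B)
    {s c sx cx e nx nz sZ cZ Q : T3} (ms : SM (· = E) s (sin g)) (mc : SM (· = E) c (cos g))
    (msx : SM (· = E) sx (sin x)) (mcx : SM (· = E) cx (cos x)) (me : SM (· = E) e (eE g x z))
    (mx : SM (· = E) nx (nuN A B g x z q)) (mz : SM (· = E) nz (nuN A B g z x (-q)))
    (msZ : SM (· = E) sZ (sin (B + z))) (mcZ : SM (· = E) cZ (cos (B + z)))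
    (mQ : SM (· = E) Q (kap A B * (cos g - 2 * (sin g * alt A B)) - alt A B * q))
    (h : sideK b s c sx cx e nx nz sZ cZ Q = true) : SideOK A B g x z q := by
  obtain ⟨l, ml, h⟩ := (((mx.mul o.rC).sub me).cast (v := lL A B g x z q) (by rw [lL]; ring)).el h
  simp only [Bool.and_eq_true] at h
  obtain ⟨⟨h1, h2⟩, h⟩ := h
  obtain ⟨w, mw, h⟩ := (mx.mul o.rB).el h
  obtain ⟨sA, msA, h⟩ := (((o.sA.mul mcx).sub (o.cA.mul msx)).cast (sin_sub A x).symm).el h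
  obtain ⟨cA, mcA, h⟩ := (((o.cA.mul mcx).add (o.sA.mul msx)).cast (cos_sub A x).symm).el h
  rw [Bool.and_eq_true] at h
  obtain ⟨h3, h⟩ := h
  obtain ⟨y4, m4, h⟩ := (mz.mul mcZ).el h
  obtain ⟨y5, m5, h⟩ := (mw.mul mcA).el h
  obtain ⟨Z, mZ, h⟩ := (m4.add m5).el h
  obtain ⟨u, mu, h⟩ := (mc.sub ((mz.mul msZ).add (mw.mul msA))).el h
  obtain ⟨v, mv, h⟩ := (ms.add mZ).el h
  rw [Bool.and_eq_true, Bool.and_eq_true] at h
  obtain ⟨⟨h4, h5⟩, h⟩ := h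
  obtain ⟨z2, m2, h⟩ := (mZ.mul mZ).el h
  obtain ⟨r, mr, h⟩ := ((SM.one.n2.sub (m2.add (m2.mul m2))).mul o.ka).el h
  obtain ⟨Q2, mQ2, h⟩ := mQ.n2.el h
  simp only [Bool.and_eq_true] at h
  have a2 := (((msx.mul mc).add (mcx.mul ms)).n2.sub ml).nn rfl h2
  have a3 := (((msA.mul mc).sub (mcA.mul ms)).n2.sub mw).nn rfl h3
  have a4 := (SM.one.sub ((mu.mul mu).add (mv.mul mv))).nn rfl h4
  have a5 := ((ms.add m5).sub m4).nn rfl h5
  have a6 := (SM.one.sub m2).nn rfl h.1.1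
  have a7 := (mr.sub mQ2).nn rfl h.1.2
  have a8 := (mr.add mQ2).nn rfl h.2
  refine ⟨ml.nn rfl h1, by rw [sin_add]; linarith, by rw [sin_sub (A - x)]; linarith, by linarith,
    by linarith, ?_⟩
  have e : cos g - alt A B * (2 * sin g + q / kap A B)
      = (kap A B * (cos g - 2 * (sin g * alt A B)) - alt A B * q) / kap A B := by
    field_simp; ring
  rw [e, sq (_ + _)]
  exact sq_aux k0 (mul_self_nonneg _) (by linarith) (by linarith) (by linarith)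

noncomputable def sel3 {α : Type} (md : ℕ) (a b c : α) : α :=
  Nat.rec a (fun j _ => Nat.rec b (fun _ _ => c) j) md

def subK (f : ℕ → ℕ → Bool) (c : ℕ) : ℕ → ℕ → Bool :=
  Nat.rec (fun _ _ => false) (fun _ ih t n => gN (Nat.land n 15) fun u =>
    Nat.ble t u && f t u && (Nat.beq u 8 || gN (Nat.shiftRight n 4) fun n => ih u n)) c

theorem subK_spec {τ : ℝ} (h8 : τ ≤ 8) (c : ℕ) : ∀ t n : ℕ, (t : ℝ) ≤ τ → ∃ (t0 t1 : ℕ) (e : ℝ),
    |e| ≤ 1 ∧ ∀ f, subK f c t n = true →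
      f t0 t1 = true ∧ 2 * τ = (t0 + t1 : ℕ) + (t1 - t0 : ℕ) * e := by
  induction c with
  | zero => exact fun _ _ _ => ⟨0, 0, 0, by simp, fun _ h => by cases h⟩
  | succ c ih =>
    intro t n ht
    have key : ∀ f, subK f (c + 1) t n = true → t ≤ Nat.land n 15 ∧ f t (Nat.land n 15) = true ∧
        (Nat.land n 15 = 8 ∨ subK f c (Nat.land n 15) (Nat.shiftRight n 4) = true) := by
      intro f h
      replace h : gN (Nat.land n 15) (fun u => Nat.ble t u && f t u &&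
        (Nat.beq u 8 || gN (Nat.shiftRight n 4) fun n => subK f c u n)) = true := h
      simp only [gN_eq, Bool.and_eq_true, Bool.or_eq_true, Nat.ble_eq, Nat.beq_eq] at h
      exact ⟨h.1.1, h.1.2, h.2⟩
    generalize Nat.land n 15 = u at key
    rcases le_or_gt τ u with c1 | c1
    · rcases (ht.trans c1).eq_or_lt with c2 | c2
      · refine ⟨t, u, 0, by simp, fun f h => ⟨(key f h).2.1, ?_⟩⟩
        push_cast; linarith
      · have c3 := sub_pos.2 c2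
        refine ⟨t, u, (2 * τ - (t + u)) / (u - t), ?_, fun f h => ⟨(key f h).2.1, ?_⟩⟩
        · rw [abs_div, abs_of_pos c3, div_le_one c3, abs_le]
          constructor <;> linarith
        · rw [Nat.cast_sub (key f h).1]
          push_cast; field_simp; ring
    · obtain ⟨t0, t1, e, he, H⟩ := ih u (Nat.shiftRight n 4) c1.le
      refine ⟨t0, t1, e, he, fun f h => H f ((key f h).2.2.resolve_left ?_)⟩
      rintro rfl
      push_cast at c1
      linarith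

/-- A trapezoid of pairs of crossing angles with the data of its certificate. -/
structure Bnd where
  s0 : ℕ
  s1 : ℕ
  da : ℕ
  db : ℕ
  md : ℕ
  gm : ℕ
  g0 : ℕ
  r : ℕ
  ts : ℕ

noncomputable def bandK (b : Bx) (P Q : Cn) (w : Bnd) : Bool :=
  gT (angT (Nat.add w.s0 w.s1) (Nat.sub w.s1 w.s0) 0 0 0) fun M =>
  gT (wsb (angT (Nat.add w.da w.db) (Nat.sub w.db w.da) 0 0 0) (angT 0 (Nat.sub w.da w.db) 0 0 0))
    fun W =>
  scK M fun sm cm => invK (sm.mul cm) fun iP =>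
  gT ((sm.mul sm).mul iP) fun tm => gT (sel3 w.md (yT b sm cm tm) P.Y Q.Y) fun Y =>
  gK Y (sel3 w.md M P.P Q.P) M w.gm w.g0 w.r fun s c =>
  gT (s.mul b.h) fun sh => gT (wsb c (PT.nm 4 sh)) fun K =>
  gT ((K.add (s.mul tm)).mul (cT 566935683072)) fun G => gT (PT.nm 2 (s.mul b.ka)) fun sk =>
  nnT K && gT (s.mul iP) fun si =>
  gT ((b.sB.mul cm).add (b.cB.mul sm)) fun sb => gT (wsb (b.cB.mul cm) (b.sB.mul sm)) fun cb =>
  invK (PT.nm 2 (sb.mul cb)) fun iD => gT ((sb.mul cm).add (cb.mul sm)) fun S2 =>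
  gT (b.ka.mul (wsb c (PT.nm 2 sh))) fun kq => subK (fun t0 t1 =>
  gT (W.mul (affT (Nat.mul (Nat.add t0 t1) 68719476736) 0 (Nat.mul (Nat.sub t1 t0) 68719476736)
    0 0 0)) fun D => scK D fun sd cd =>
  gT (sm.mul cd) fun a1 => gT (cm.mul sd) fun a2 => gT (cm.mul cd) fun a3 => gT (sm.mul sd) fun a4 =>
  gT (a1.add a2) fun sx => gT (wsb a1 a2) fun sz => gT (wsb a3 a4) fun cx => gT (a3.add a4) fun cz =>
  gT (G.mul sd) fun q => nnT (wsb cd (cT 1032881223133)) && nnT (wsb sk q) && nnT (sk.add q) &&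
  gT (si.mul sz) fun ex => gT (si.mul sx) fun ez =>
  gT (sb.mul cd) fun b1 => gT (cb.mul sd) fun b2 => gT (cb.mul cd) fun b3 => gT (sb.mul sd) fun b4 =>
  gT (b1.add b2) fun sX => gT (wsb b1 b2) fun sZ => gT (wsb b3 b4) fun cX => gT (b3.add b4) fun cZ =>
  gT (((wsb (K.mul cZ) ((s.add q).mul sZ)).add (ex.mul S2)).mul iD) fun nx =>
  gT (((wsb (K.mul cX) ((wsb s q).mul sX)).add (ez.mul S2)).mul iD) fun nz =>
  gT (b.h.mul q) fun hq => (gT (wsb kq hq) fun Q => sideK b s c sx cx ex nx nz sZ cZ Q) &&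
  gT (kq.add hq) fun Q => sideK b s c sz cz ez nz nx sX cX Q) 8 0 w.ts

theorem bandK_spec {a b A B p q α β u τ : ℝ} {E : Env} (e : SB a b E) {x : Bx}
    (o : BxOK (SB a b) x A B) (an : Ang A B) (k0 : 0 < kap A B) {P Q : Cn}
    (oP : CnOK (SB a b) P A B p) (oQ : CnOK (SB a b) Q A B q) (p0 : 0 ≤ p) (q0 : 0 ≤ q) {w : Bnd}
    (h : bandK x P Q w = true) (hu : |u| ≤ 1) (t0 : 0 ≤ τ) (t1 : τ ≤ 8) (m0 : 0 ≤ (α + β) / 2)
    (eα : α + β = ((w.s0 + w.s1 : ℕ) + (w.s1 - w.s0 : ℕ) * u) * (π / 5760))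
    (eβ : α - β = (w.da + w.db + (w.db - w.da) * u) * (π / 5760) * (τ / 8)) {g : ℝ}
    (hg : g = max (wg A B (sel3 w.md ((α + β) / 2) p q)) (2 * ((α + β) / 2))) :
    g < π / 2 ∧ 4 * sin g * alt A B ≤ cos g ∧ 31 / 33 ≤ cos ((α - β) / 2) ∧
      |qQ A B g α β| ≤ 2 * sin g * kap A B ∧ SideOK A B g α β (qQ A B g α β) ∧
      SideOK A B g β α (qQ A B g β α) := by
  obtain ⟨i, j, v, hv, H⟩ := subK_spec t1 8 0 w.ts (by simpa using t0)
  obtain ⟨E, e⟩ := SC.ex e hu hv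
  have o := o.mono (S' := SC a b u v) fun _ h => h.1
  obtain ⟨M, mM, h⟩ := SM.el (S := SC a b u v) (u := (α + β) / 2) (fun E q => SM.cast
    (SM.of (angT_mem E _ _ _ _ _)) (by
      rw [eα, q.2.1]; simp only [Nat.add_eq, Nat.sub_eq]; push_cast; ring) E rfl) h
  obtain ⟨W, mW, h⟩ := SM.el (S := SC a b u v)
    (u := (w.da + w.db + (w.db - w.da) * u) * (π / 11520)) (fun E q => SM.cast
    ((SM.of (angT_mem E _ _ _ _ _)).sub (SM.of (angT_mem E _ _ _ _ _))) (by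
      have : ((w.db - w.da : ℕ) : ℝ) - (w.da - w.db : ℕ) = w.db - w.da := by
        rcases le_total w.da w.db with c | c
        · rw [Nat.cast_sub c, Nat.sub_eq_zero_of_le c]; simp
        · rw [Nat.cast_sub c, Nat.sub_eq_zero_of_le c]; simp
      rw [← this, q.2.1]; simp only [Nat.add_eq, Nat.sub_eq]; push_cast; ring) E rfl) h
  clear eα
  obtain ⟨m, hm⟩ : ∃ m, m = (α + β) / 2 := ⟨_, rfl⟩
  obtain ⟨d, hd⟩ : ∃ d, d = (α - β) / 2 := ⟨_, rfl⟩
  rw [← hm] at mM hg m0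
  have e1 : m + d = α := by linarith
  have e2 : m - d = β := by linarith
  have e3 : α + β = 2 * m := by linarith
  obtain ⟨sm, cm, msm, mcm, h⟩ := mM.scK h
  obtain ⟨p1, iP, miP, h⟩ := (msm.mul mcm).invK e h
  have s0 : sin m ≠ 0 := left_ne_zero_of_mul p1.ne'
  have c0 : cos m ≠ 0 := right_ne_zero_of_mul p1.ne'
  obtain ⟨tm, mtm, h⟩ := (((msm.mul msm).mul miP).cast (v := tan m) (by
    rw [tan_eq_sin_div_cos]; field_simp)).el h
  obtain ⟨Y, mY, h⟩ := SM.el (S := SC a b u v) (u := wY A B (sel3 w.md m p q)) (by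
    generalize w.md = md
    rcases md with _ | _ | md
    · exact yT_spec o an msm mcm mtm
    · exact oP.Y.mono fun _ h => h.1
    · exact oQ.Y.mono fun _ h => h.1) h
  obtain ⟨g1, E, s, c, e, ms, mc, h⟩ := gK_spec SC.set e mY (φ := sel3 w.md m p q) (by
    generalize w.md = md
    rcases md with _ | _ | md
    · exact mM
    · exact oP.P.mono fun _ h => h.1
    · exact oQ.P.mono fun _ h => h.1) mM (by
    generalize w.md = md
    rcases md with _ | _ | md <;> assumption) m0 h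
  rw [← wg, ← hg] at g1 ms mc
  have o := o.at e
  replace msm := msm.at e
  replace mcm := mcm.at e
  replace miP := miP.at e
  replace mtm := mtm.at e
  obtain ⟨sh, msh, h⟩ := (ms.mul o.h).el h
  obtain ⟨K, mK, h⟩ := (mc.sub msh.n4).el h
  obtain ⟨G, mG, h⟩ := ((mK.add (ms.mul mtm)).mul (SM.cst _)).el h
  obtain ⟨sk, msk, h⟩ := (ms.mul o.ka).n2.el h
  rw [Bool.and_eq_true] at h
  obtain ⟨h1, h⟩ := h
  obtain ⟨si, msi, h⟩ := (ms.mul miP).el h
  obtain ⟨sb, msb, h⟩ := (((o.sB.mul mcm).add (o.cB.mul msm)).cast (sin_add B m).symm).el h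
  obtain ⟨cb, mcb, h⟩ := (((o.cB.mul mcm).sub (o.sB.mul msm)).cast (cos_add B m).symm).el h
  obtain ⟨-, iD, miD, h⟩ := ((msb.mul mcb).n2.cast (v := sin (2 * B + (α + β))) (by
    rw [e3, ← mul_add, sin_two_mul, mul_assoc])).invK rfl h
  obtain ⟨S2, mS2, h⟩ := (((msb.mul mcm).add (mcb.mul msm)).cast (v := sin (B + (α + β))) (by
    rw [e3, two_mul, ← add_assoc, sin_add (B + m)])).el h
  obtain ⟨kq, mkq, h⟩ := (o.ka.mul (mc.sub msh.n2)).el h
  obtain ⟨h, eτ⟩ := H _ h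
  obtain ⟨D, mD, h⟩ := (((mW.at e).mul (SM.of (affT_mem E _ _ _ _ _ _))).cast (v := d) (by
    rw [hd, eβ, e.2.2, show τ = 2 * τ / 2 by ring, eτ]
    simp only [Nat.add_eq, Nat.sub_eq, Nat.mul_eq]; push_cast; ring)).el h
  obtain ⟨sd, cd, msd, mcd, h⟩ := mD.scK h
  obtain ⟨a1, ma1, h⟩ := (msm.mul mcd).el h
  obtain ⟨a2, ma2, h⟩ := (mcm.mul msd).el h
  obtain ⟨a3, ma3, h⟩ := (mcm.mul mcd).el h
  obtain ⟨a4, ma4, h⟩ := (msm.mul msd).el h
  obtain ⟨sx, msx, h⟩ := ((ma1.add ma2).cast (v := sin α) (by rw [← e1, sin_add])).el h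
  obtain ⟨sz, msz, h⟩ := ((ma1.sub ma2).cast (v := sin β) (by rw [← e2, sin_sub])).el h
  obtain ⟨cx, mcx, h⟩ := ((ma3.sub ma4).cast (v := cos α) (by rw [← e1, cos_add])).el h
  obtain ⟨cz, mcz, h⟩ := ((ma3.add ma4).cast (v := cos β) (by rw [← e2, cos_sub])).el h
  obtain ⟨tq, mq, h⟩ := ((mG.mul msd).cast (v := qQ A B g α β) (by
    rw [qQ, ← hm, ← hd]; push_cast; ring)).el h
  simp only [Bool.and_eq_true] at h
  obtain ⟨⟨⟨h2, h3⟩, h4⟩, h⟩ := h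
  obtain ⟨ex, mex, h⟩ := ((msi.mul msz).cast (v := eE g α β) (by
    rw [eE, e3, sin_two_mul]; field_simp)).el h
  obtain ⟨ez, mez, h⟩ := ((msi.mul msx).cast (v := eE g β α) (by
    rw [eE, add_comm β, e3, sin_two_mul]; field_simp)).el h
  obtain ⟨c1, mb1, h⟩ := (msb.mul mcd).el h
  obtain ⟨c2, mb2, h⟩ := (mcb.mul msd).el h
  obtain ⟨c3, mb3, h⟩ := (mcb.mul mcd).el h
  obtain ⟨c4, mb4, h⟩ := (msb.mul msd).el h
  obtain ⟨sX, msX, h⟩ := ((mb1.add mb2).cast (v := sin (B + α)) (by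
    rw [← e1, ← add_assoc, sin_add (B + m)])).el h
  obtain ⟨sZ, msZ, h⟩ := ((mb1.sub mb2).cast (v := sin (B + β)) (by
    rw [← e2, ← add_sub_assoc, sin_sub])).el h
  obtain ⟨cX, mcX, h⟩ := ((mb3.sub mb4).cast (v := cos (B + α)) (by
    rw [← e1, ← add_assoc, cos_add (B + m)])).el h
  obtain ⟨cZ, mcZ, h⟩ := ((mb3.add mb4).cast (v := cos (B + β)) (by
    rw [← e2, ← add_sub_assoc, cos_sub])).el h
  obtain ⟨nx, mnx, h⟩ := (((((mK.mul mcZ).sub ((ms.add mq).mul msZ)).add (mex.mul mS2)).mul miD).cast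
    (v := nuN A B g α β (qQ A B g α β)) (by rw [nuN]; ring)).el h
  obtain ⟨nz, mnz, h⟩ := (((((mK.mul mcX).sub ((ms.sub mq).mul msX)).add (mez.mul mS2)).mul miD).cast
    (v := nuN A B g β α (-qQ A B g α β)) (by rw [nuN, add_comm β]; ring)).el h
  obtain ⟨hq, mhq, h⟩ := (o.h.mul mq).el h
  rw [Bool.and_eq_true] at h
  obtain ⟨Q1, mQ1, k1⟩ := (mkq.sub mhq).el h.1
  obtain ⟨Q2, mQ2, k2⟩ := (mkq.add mhq).el h.2
  have t1 := mK.nn rfl h1
  have t2 := (mcd.sub (SM.cst _)).nn rfl h2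
  have t3 := (msk.sub mq).nn rfl h3
  have t4 := (msk.add mq).nn rfl h4
  push_cast at t2
  refine ⟨g1, by linarith, by rw [← hd]; linarith, abs_le.2 ⟨by linarith, by linarith⟩,
    sideK_spec o k0 ms mc msx mcx mex mnx mnz msZ mcZ mQ1 k1, ?_⟩
  rw [qQ_swap]
  exact sideK_spec o k0 ms mc msz mcz mez mnz (mnx.cast (by rw [neg_neg])) msX mcX
    (mQ2.cast (by ring)) k2

/-- `v` is at most the length of every zigzag of the family. -/
def Low (A B v : ℝ) : Prop := v ≤ bV B ∧ ∀ φ, 0 < φ → 2 * φ ≤ A → v ≤ wV A B φ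

/-- The contact index passes that of the bottom between the directions `lo` and `hi`. -/
def Cr (H : Half) (τ : ℝ) (lo hi : ℕ) : Prop :=
  ∃ x y, ang lo ≤ x ∧ x ≤ y ∧ y ≤ ang hi ∧ y - x ≤ τ ∧ H.d x < H.d π ∧ H.d π ≤ H.d y

theorem ang_lt {x y : ℕ} (h : x + y < 1440) : ang x + ang y < π / 2 := by
  have h' : (x : ℝ) + y < 1440 := by exact_mod_cast h
  have := mul_lt_mul_of_pos_right h' (show 0 < π / 2880 by positivity)
  unfold ang
  linarith

theorem ang_pos {x : ℕ} (h : 1 ≤ x) : 0 < ang x := mul_pos (by exact_mod_cast h) (by positivity)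

theorem ang_two (x : ℕ) : ang (2 * x) = 2 * ang x := by rw [two_mul, ang_add, two_mul]

/-- The contact index passes that of the bottom at `x`. -/
def Cx (H : Half) (τ A x : ℝ) : Prop :=
  0 ≤ x ∧ ∃ y, x ≤ y ∧ y ≤ A ∧ y - x ≤ τ ∧ H.d x < H.d π ∧ H.d π ≤ H.d y

def Bnd.In (w : Bnd) (X Z : ℝ) : Prop := w.s0 ≤ X + Z ∧ X + Z ≤ w.s1 ∧
  |X - Z| * (w.s1 - w.s0) ≤ w.da * (w.s1 - (X + Z)) + w.db * (X + Z - w.s0)

def Bnd.OK (A B v : ℝ) (w : Bnd) : Prop := ∀ τ γ L R X Z, 0 ≤ τ → 0 ≤ γ →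
  RowsT τ (γ * alt A B) L R A B → RowsT τ (γ * alt A B) R L A B → Cx L τ A (X * (π / 2880)) →
    Cx R τ A (Z * (π / 2880)) → w.In X Z → γ * v ≤ L.len + R.len

def BOK (A B v : ℝ) (b : ℕ) : Prop := 1 ≤ b → ∀ τ γ L R, 0 ≤ τ → 0 ≤ γ →
  RowsT τ (γ * alt A B) L R A B → RowsT τ (γ * alt A B) R L A B → Cr R τ 0 b →
    γ * v ≤ L.len + R.len

def PQ (A B : ℝ) (sg : Bool) (p : ℕ) : Prop := 1 ≤ p → 2 * ang p ≤ A ∧ B + ang p < π / 2 ∧
  (if sg then 0 ≤ dS A B (ang p) else dS A B (ang p) ≤ 0) ∧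
    4 * sin (wg A B (ang p)) * alt A B ≤ cos (wg A B (ang p))

noncomputable def celK (b : Bx) (P Q : Cn) (p q a0 a1 b0 b1 : ℕ) (c : Bnd) : Bool :=
  Nat.blt a1 b0 && Nat.ble 1 c.s0 && Nat.blt c.s0 c.s1 && Nat.ble c.s1 a0 &&
  Nat.blt (Nat.add (Nat.add (Nat.mul 2 b1) c.s1) (Nat.add c.da (Nat.sub c.db c.da))) 2880 &&
  sel3 c.md true (Nat.ble c.s1 (Nat.mul 2 p) && Nat.ble 1 p)
    (Nat.ble (Nat.mul 2 q) c.s0 && Nat.ble 1 q) && bandK b P Q c

theorem celK_spec {a b A B v : ℝ} {E : Env} (e : SB a b E) {x : Bx} (o : BxOK (SB a b) x A B)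
    (an : Ang A B) {p q a0 a1 b0 b1 : ℕ} {P Q : Cn} (oP : CnOK (SB a b) P A B (ang p))
    (oQ : CnOK (SB a b) Q A B (ang q)) (hp : PQ A B false p) (hq : PQ A B true q) (h1 : ang a0 ≤ A)
    (h2 : A ≤ ang a1) (h3 : ang b0 ≤ B) (h4 : B ≤ ang b1) (lo : Low A B v) {c : Bnd}
    (h : celK x P Q p q a0 a1 b0 b1 c = true) : c.OK A B v := by
  simp only [celK, Bool.and_eq_true, Nat.ble_eq, Nat.blt_eq, Nat.add_eq, Nat.mul_eq, Nat.sub_eq] at h
  obtain ⟨⟨⟨⟨⟨⟨k1, k2⟩, k3⟩, k4⟩, k5⟩, k6⟩, h⟩ := h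
  intro τ γ L R X Z hτ hγ r1 r2 c1 c2 i
  wlog hXZ : Z ≤ X generalizing L R X Z
  · rw [add_comm]
    exact this R L Z X r2 r1 c2 c1 (by rwa [Bnd.In, add_comm Z, abs_sub_comm]) (not_le.1 hXZ).le
  obtain ⟨i1, i2, i3⟩ := i
  rw [abs_of_nonneg (sub_nonneg.2 hXZ)] at i3
  have hU : 0 < π / 2880 := by positivity
  have n3 : ang c.s0 ≤ X * (π / 2880) + Z * (π / 2880) := by
    rw [← add_mul]; exact mul_le_mul_of_nonneg_right i1 hU.le
  have n4 : X * (π / 2880) + Z * (π / 2880) ≤ ang c.s1 := by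
    rw [← add_mul]; exact mul_le_mul_of_nonneg_right i2 hU.le
  obtain ⟨u, hu, eα⟩ := ang_coord n3 n4
  have k3' : (0 : ℝ) < c.s1 - c.s0 := sub_pos.2 (by exact_mod_cast k3)
  have eS : 2 * (X + Z) = c.s0 + c.s1 + (c.s1 - c.s0) * u := by
    rw [Nat.cast_sub k3.le] at eα
    refine mul_right_cancel₀ hU.ne' ?_
    push_cast at eα
    linarith
  have i4 : 2 * (X - Z) ≤ c.da + c.db + (c.db - c.da) * u := by
    refine le_of_mul_le_mul_right ?_ k3'
    linear_combination 2 * i3 + (c.db - c.da) * eS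
  obtain ⟨t, t0, t1, eβ⟩ : ∃ t : ℝ, 0 ≤ t ∧ t ≤ 8 ∧ X * (π / 2880) - Z * (π / 2880)
      = (c.da + c.db + (c.db - c.da) * u) * (π / 5760) * (t / 8) := by
    generalize c.da + c.db + (c.db - c.da) * u = D at i4
    rcases (show 0 ≤ D by linarith).eq_or_lt with w | w
    · exact ⟨0, le_rfl, by norm_num, by rw [show X = Z by linarith]; ring⟩
    · exact ⟨16 * (X - Z) / D, div_nonneg (by linarith) w.le, by rw [div_le_iff₀ w]; linarith,
        by field_simp; ring⟩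
  have n5 : 2 * B + 2 * (X * (π / 2880)) < π := by
    have j1 : ((2 * b1 + c.s1 + (c.da + (c.db - c.da)) : ℕ) : ℝ) < 2880 := by exact_mod_cast k5
    have j2 : (c.db : ℝ) ≤ (c.da + (c.db - c.da) : ℕ) := by exact_mod_cast le_add_tsub
    have j3 : (c.da : ℝ) ≤ (c.da + (c.db - c.da) : ℕ) := by exact_mod_cast Nat.le_add_right _ _
    rw [Nat.cast_add] at j1
    generalize ((c.da + (c.db - c.da) : ℕ) : ℝ) = D at j1 j2 j3
    push_cast at j1
    have j4 := mul_le_mul_of_nonneg_right j2 (show 0 ≤ 1 + u by linarith [(abs_le.1 hu).1])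
    have j5 := mul_le_mul_of_nonneg_right j3 (show 0 ≤ 1 - u by linarith [(abs_le.1 hu).2])
    have j6 := mul_lt_mul_of_pos_right (show 2 * (b1 : ℝ) + 2 * X < 2880 by linarith) hU
    unfold ang at h4
    linarith
  have n6 := mul_le_mul_of_nonneg_right hXZ hU.le
  generalize X * (π / 2880) = α at *
  generalize Z * (π / 2880) = β at *
  obtain ⟨a0', yL, a1', a2, a3, d0, d1⟩ := c1
  obtain ⟨b0', yR, b1', b2, b3, d2, d3⟩ := c2
  have hpi := pi_pos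
  have AB : A < B := by
    have := ang_pos (x := b0 - a1) (by omega)
    have e := ang_add a1 (b0 - a1)
    rw [Nat.add_sub_cancel' k1.le] at e
    linarith
  have A0 := an.h0
  have A2 := an.h2
  have k0 : 0 < kap A B := div_pos (sin_pos_of_pos_of_lt_pi (by linarith) (by linarith))
    (sin_pos_of_pos_of_lt_pi (by linarith) (by linarith))
  obtain ⟨g1, g2, g3, g4, g5, g6⟩ := bandK_spec e o an k0 oP oQ (ang_nonneg p) (ang_nonneg q) h hu
    t0 t1 (by linarith) eα eβ rfl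
  have n1 := ang_pos k2
  have n2 := ang_mono k4
  refine le_trans (mul_le_mul_of_nonneg_left ?_ hγ) (w_mode r1 r2 hτ hγ an AB a0' a1'
    a2 a3 b0' b1' b2 b3 d0 d1 d2 d3 (by linarith)
    (le_trans (by linarith) (le_max_right _ _)) g1 (by linarith) (by linarith) g2 g3 g4 g5 g6)
  have m0 : 0 < (α + β) / 2 := by linarith
  have m1 : 2 * ((α + β) / 2) ≤ A := by linarith
  have m2 : B + (α + β) / 2 < π / 2 := by linarith
  generalize c.md = md at k6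
  rcases md with _ | _ | md
  · change v ≤ wF A B _ (max (wg A B ((α + β) / 2)) _)
    rw [max_eq_left (an.wg_facts m0 m1).1]
    exact lo.2 _ m0 m1
  · change (_ && _) = true at k6
    simp only [Bool.and_eq_true, Nat.ble_eq] at k6
    obtain ⟨t1, t2, t3, t4⟩ := hp k6.2
    have t5 := ang_mono k6.1
    have t6 := ang_pos k6.2
    rw [ang_two] at t5
    change v ≤ wF A B _ (max (wg A B (ang p)) _)
    obtain ⟨f1, f2, -⟩ := an.wg_facts t6 t1
    rw [max_eq_left (by linarith)]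
    have s0 : 0 ≤ sin (wg A B (ang p)) := sin_nonneg_of_nonneg_of_le_pi (by linarith) (by linarith)
    have := mul_nonneg s0 (tan_nonneg_of_nonneg_of_le_pi_div_two t6.le (by linarith))
    simp only [Bool.false_eq_true, if_false, dS] at t3
    exact (lo.2 _ t6 t1).trans ((wF_mono (by linarith) m0.le (by linarith) t2 s0).2 (by linarith)
      (by linarith))
  · change (_ && _) = true at k6
    simp only [Bool.and_eq_true, Nat.ble_eq] at k6
    obtain ⟨t1, t2, t3, t4⟩ := hq k6.2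
    have t5 := ang_mono k6.1
    have t6 := ang_pos k6.2
    rw [ang_two] at t5
    obtain ⟨φ, f1, f2, f3⟩ := wF_ge an m0 m1 m2 le_rfl t6.le t6 t1 t2 (Or.inl rfl) ⟨t3, t4⟩
    rw [min_eq_right (by linarith), max_eq_right t6.le] at f3
    exact (lo.2 _ f1 f2).trans f3

noncomputable def bcK (b : Bx) (z g0 r : ℕ) : Bool :=
  gT (angT (Nat.mul 2 z) (Nat.mul 2 z) 0 0 0) fun Be => scK Be fun sb cb => invK cb fun ic =>
  gT (sb.mul ic) fun T => gT (T.mul T) fun T2 => invK b.sC fun iC =>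
  gT ((wsb (b.cA.mul b.cB) (b.sA.mul b.sB)).mul iC) fun zc =>
  nnT (wsb (cT 54975581388) T) && nnT (wsb b.y (cT 164926744167)) &&
  nnT (wsb (cT 1649267441664) b.x) && nnT (wsb oneT b.y) && nnT zc.neg &&
  nnT (zc.add (cT 659706976665)) &&
  gT (b.y.mul b.y) fun y2 => gT ((cT 9895604649984).add y2) fun w =>
  gT ((cT 3298534883328).add T2) fun T3 =>
  gT (PT.nm 2 ((b.ka.add (wsb oneT cb)).add (b.h.mul T))) fun ep =>
  gT ((wsb (cT 3298534883328) y2).add (PT.nm 2 (b.y.mul zc))) fun N =>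
  gT (wsb (PT.nm 2 b.y) ((PT.nm 3 T).add (PT.nm 2 (T.mul w)))) fun F =>
  gT (w.mul ((PT.nm 2 (b.y.mul ep)).add (PT.nm 3 (T.mul y2)))) fun H =>
  nnT (wsb (PT.nm 6 (N.mul F)) (H.mul T3)) &&
  invK (T3.add (T.mul (wsb (PT.nm 4 zc) (PT.nm 2 b.y)))) fun iD =>
  gT ((wsb (wsb b.y (b.y.mul T2)) (PT.nm 2 T)).mul iD) fun Y =>
  atanK Y g0 r fun O so co => nnT (wsb O Be) && nnT (wsb (cT 1649267441664) (O.add Be)) &&
  gT (b.h.mul (PT.nm 4 (so.mul cb))) fun hn => gT (hn.mul b.x) fun hx =>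
  gT (wsb ((co.mul cb).add (so.mul sb)) hn) fun u =>
  gT (hx.add (wsb (so.mul cb) (co.mul sb))) fun v =>
  invK ((b.sB.mul cb).add (b.cB.mul sb)) fun iK => gT (u.mul iK) fun nu =>
  gT (nu.mul b.rB) fun w5 => gT (O.add (PT.nm 2 Be)) fun O2 => gT (wsb b.A O2) fun O3 =>
  nnT (wsb oneT ((hn.mul hn).add (hx.mul hx))) && nnT (wsb oneT ((u.mul u).add (v.mul v))) &&
  nnT (wsb (PT.nm 2 O3.sc.1) w5) && nnT (wsb oneT w5) &&
  nnT (wsb (PT.nm 2 (O2.sc.1.add so)) (nu.mul b.rC))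

theorem bcK_spec {a b A B v : ℝ} {E : Env} (e : SB a b E) {x : Bx} (o : BxOK (SB a b) x A B)
    (an : Ang A B) {z g0 r : ℕ} (h1 : ang z ≤ A) (h2 : B + ang z < π / 2) (lo : Low A B v)
    (h : bcK x z g0 r = true) : BOK A B v z := by
  rintro - τ γ L R hτ hγ r1 r2 ⟨β, yR, b0, b1, b2, b3, d2, d3⟩
  obtain ⟨u, hu, eβ⟩ := ang_coord b0 (b1.trans b2)
  obtain ⟨E, e⟩ := SC.ex e hu (show |(0 : ℝ)| ≤ 1 by simp)
  have o := o.mono (S' := SC a b u 0) fun _ h => h.1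
  replace b0 : 0 ≤ β := (ang_nonneg 0).trans b0
  obtain ⟨Be, mB, h⟩ := SM.el (S := SC a b u 0) (u := β) (fun E q => SM.cast
    (SM.of (angT_mem E _ _ _ _ _))
    (by rw [eβ, q.2.1]; simp only [Nat.mul_eq, Nat.sub_zero]; push_cast; ring) E rfl) h
  clear eβ
  obtain ⟨sb, cb, msb, mcb, h⟩ := mB.scK h
  obtain ⟨-, ic, mic, h⟩ := mcb.invK e h
  obtain ⟨T, mT, h⟩ := ((msb.mul mic).cast (v := tan β) (by
    rw [tan_eq_sin_div_cos, mul_one_div])).el h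
  obtain ⟨T2, mT2, h⟩ := (mT.mul mT).el h
  obtain ⟨-, iC, miC, h⟩ := o.sC.invK e h
  obtain ⟨zc, mz, h⟩ := ((((o.cA.mul o.cB).sub (o.sA.mul o.sB)).mul miC).cast
    (v := cos (A + B) / sin (A + B)) (by rw [cos_add, mul_one_div])).el h
  simp only [Bool.and_eq_true] at h
  obtain ⟨⟨⟨⟨⟨⟨k1, k2⟩, k3⟩, k4⟩, k5⟩, k6⟩, h⟩ := h
  obtain ⟨y2, my2, h⟩ := (o.y.mul o.y).el h
  obtain ⟨w, mw, h⟩ := (((SM.cst _).cast (v := 9) (by norm_num)).add my2).el h
  obtain ⟨T3, mT3, h⟩ := (((SM.cst _).cast (v := 3) (by norm_num)).add mT2).el h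
  obtain ⟨ep, mep, h⟩ := ((o.ka.add (SM.one.sub mcb)).add (o.h.mul mT)).n2.el h
  obtain ⟨N, mN, h⟩ := ((((SM.cst _).cast (v := 3) (by norm_num)).sub my2).add (o.y.mul mz).n2).el h
  obtain ⟨F, mF, h⟩ := (o.y.n2.sub (mT.n3.add (mT.mul mw).n2)).el h
  obtain ⟨H, mH, h⟩ := (mw.mul ((o.y.mul mep).n2.add (mT.mul my2).n3)).el h
  rw [Bool.and_eq_true] at h
  have t1 := ((SM.cst _).sub mT).nn e k1
  have t2 := (o.y.sub (SM.cst _)).nn e k2
  have t3 := ((SM.cst _).sub o.x).nn e k3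
  have t4 := (SM.one.sub o.y).nn e k4
  have t5 := mz.neg.nn e k5
  have t6 := (mz.add (SM.cst _)).nn e k6
  have t7 := ((mN.mul mF).n6.sub (mH.mul mT3)).nn e h.1
  push_cast at t1 t2 t3 t6
  have bz : B + β < π / 2 := by linarith
  obtain ⟨-, f2, f3, f4⟩ := b_facts an b0 bz (by linarith) (by linarith) (by linarith) (by linarith)
    (by linarith) (by linarith) (by linarith)
  obtain ⟨-, iD, miD, h⟩ := (mT3.add (mT.mul (mz.n4.sub o.y.n2))).invK e h.2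
  obtain ⟨Y, mY, h⟩ := (((o.y.sub (o.y.mul mT2)).sub mT.n2).mul miD).el h
  obtain ⟨E, O, so, co, e, mO, mso, mco, h⟩ := atanK_spec SC.set e (mY.cast (by
    rw [mul_one_div, ← sq, ← mul_one_sub])) h
  rw [← bw] at mO mso mco
  have o := o.at e
  replace mB := mB.at e
  replace msb := msb.at e
  replace mcb := mcb.at e
  generalize bw A B β = ω at *
  simp only [Bool.and_eq_true] at h
  obtain ⟨⟨j1, j2⟩, h⟩ := h
  obtain ⟨hn, mhn, h⟩ := ((o.h.mul (mso.mul mcb).n4).cast (v := alt A B * (4 * sin ω * cos β))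
    (by ring)).el h
  obtain ⟨hx, mhx, h⟩ := (mhn.mul o.x).el h
  obtain ⟨u, mu, h⟩ := ((((mco.mul mcb).add (mso.mul msb)).cast (cos_sub ω β).symm).sub mhn).el h
  obtain ⟨v, mv, h⟩ := (mhx.add (((mso.mul mcb).sub (mco.mul msb)).cast (sin_sub ω β).symm)).el h
  obtain ⟨sK, iK, miK, h⟩ := (((o.sB.mul mcb).add (o.cB.mul msb)).cast (sin_add B β).symm).invK rfl h
  obtain ⟨nu, mnu, h⟩ := (mu.mul miK).el h
  obtain ⟨w5, mw5, h⟩ := (mnu.mul o.rB).el h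
  obtain ⟨O2, mO2, h⟩ := ((mO.add mB.n2).cast (v := β + (ω + β)) (by ring)).el h
  obtain ⟨O3, mO3, h⟩ := ((o.A'.sub mO2).cast (v := A - β - (ω + β)) (by ring)).el h
  simp only [Bool.and_eq_true] at h
  obtain ⟨⟨⟨⟨j3, j4⟩, j5⟩, j6⟩, j7⟩ := h
  have s1 := (mO.sub mB).nn rfl j1
  have s2 := ((SM.cst _).sub (mO.add mB)).nn rfl j2
  have s3 := (SM.one.sub ((mhn.mul mhn).add (mhx.mul mhx))).nn rfl j3
  have s4 := (SM.one.sub ((mu.mul mu).add (mv.mul mv))).nn rfl j4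
  have s5 := (mO3.sin.n2.sub mw5).nn rfl j5
  have s6 := (SM.one.sub mw5).nn rfl j6
  have s7 := ((mO2.sin.add mso).n2.sub (mnu.mul o.rC)).nn rfl j7
  push_cast at s2
  refine le_trans (mul_le_mul_of_nonneg_left (lo.1.trans f4) hγ) (b_cert r1 r2 hτ hγ an b0 b1
    (by linarith) b3 d2 d3 bz (by linarith) (by linarith [pi_gt_three]) rfl
    (ν := (cos (ω - β) - alt A B * (4 * sin ω * cos β)) * (1 / sin (B + β))) (by field_simp) f2 ?_
    (by linarith) (by linarith) (by linarith) (by linarith) (by rw [mul_div_assoc]; linarith))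
  refine le_of_mul_le_mul_right ?_ sK
  refine f3.trans (le_of_eq ?_)
  field_simp

noncomputable def upK (b : Bx) (f U md g0 r : ℕ) : Bool :=
  nnT (wsb (PT.nm 6 b.h) oneT) && Bool.rec
    (cnK b f fun n => gK n.Y n.P n.P md g0 r fun s c =>
      nnT (wsb ((cT U).mul (n.c.add (b.y.mul n.s))) (c.add (s.mul n.Y))))
    (nnT (wsb (((cT U).mul (cT U)).mul ((cT 9895604649984).add (b.y.mul b.y))) (cT 9895604649984)))
    (Nat.beq f 0)

theorem upK_spec {a b A B v : ℝ} {E : Env} (e : SB a b E) {x : Bx} (o : BxOK (SB a b) x A B)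
    (an : Ang A B) {f U md g0 r : ℕ} (h1 : 2 * ang f ≤ A) (lo : Low A B v)
    (h : upK x f U md g0 r = true) : 1 / 6 ≤ alt A B ∧ v ≤ U / 1099511627776 := by
  rw [upK, Bool.and_eq_true] at h
  refine ⟨by linarith [(o.h.n6.sub SM.one).nn e h.1], ?_⟩
  replace h := h.2
  cases hb : Nat.beq f 0 <;> rw [hb] at h
  · have f0 : 0 < ang f := ang_pos (Nat.pos_of_ne_zero (Nat.ne_of_beq_eq_false hb))
    obtain ⟨n, on, h⟩ := cnK_spec e o an h
    obtain ⟨-, E, s, c, e, ms, mc, h⟩ := gK_spec SB.set e on.Y on.P on.P f0.le f0.le h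
    rw [wg_max] at ms mc
    have := (((SM.cst _).mul ((on.c.at e).add ((o.y.at e).mul (on.s.at e)))).sub
      (mc.add (ms.mul (on.Y.at e)))).nn rfl h
    refine (lo.2 _ f0 h1).trans ?_
    rw [wV, div_le_iff₀ (by linarith [an.wk_gt f0 h1]),
      wk_eq (by linarith [an.sins.1, an.sins.2.1])]
    linarith
  · have c9 : SM (SB a b) (cT 9895604649984) 9 := (SM.cst _).cast (by norm_num)
    have := ((((SM.cst U).mul (SM.cst U)).mul (c9.add (o.y.mul o.y))).sub c9).nn e h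
    refine lo.1.trans ?_
    rw [bV, cot_eq_cos_div_sin, div_le_iff₀ (by positivity)]
    refine abs_le_of_sq_le_sq' ?_ (by positivity) |>.2
    rw [mul_pow, sq_sqrt (by positivity)]
    linarith

end Pool.Agent.P.MP_d76e6a_co
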