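import Pool.Agent.P.MP_d76e6a_co.HDefs
import Pool.Agent.P.MP_d76e6a_co.WCell
import Pool.Agent.P.MP_d76e6a_co.GOpt

/-!
The lengths of the new zigzags and the upper bounds known for the candidate value.
-/

namespace Pool.Agent.P.MP_d76e6a_co

open Real

/-- The length of `zPts`. -/
noncomputable def zV (A B s t : ℝ) : ℝ := (2 / sin s + 1 / sin t) / (1 / alt A B + cot s + cot t)

/-- The length of `vPts`. -/
noncomputable def vV (A B f g : ℝ) : ℝ :=
  1 - vy A B f g * (1 / alt A B - 2 * (1 - cos (g + 2 * f)) / sin g)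

/-- `v` is at most the length of every candidate. -/
structure Low2 (A B v : ℝ) : Prop where
  w : Low A B v
  z : ∀ s t, ZVal A s t → v ≤ zV A B s t
  v5 : ∀ f g, VVal A B f g → v ≤ vV A B f g
  u : v ≤ alt A B * vU A B

end Pool.Agent.P.MP_d76e6a_co
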