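import Pool.Agent.P.MP_d76e6a_co.HLow

/-!
The point-symmetric zigzags are escape paths; their lengths.
-/

namespace Pool.Agent.P.MP_d76e6a_co

open Real

theorem sin_le_mid {a x : ℝ} (h0 : 0 ≤ a) (h1 : a ≤ x) (h2 : a + x ≤ π) : sin a ≤ sin x := by
  have := sin_sub_sin x a
  have p1 : 0 ≤ sin ((x - a) / 2) := sin_nonneg_of_nonneg_of_le_pi (by linarith) (by linarith)
  have p2 : 0 ≤ cos ((x + a) / 2) := cos_nonneg_of_mem_Icc ⟨by linarith [pi_pos], by linarith⟩
  nlinarith [mul_nonneg p1 p2]

theorem zono {ι : Type} [Fintype ι] [Nonempty ι] (c φ : ι → ℝ) {ρ : ℝ} (hρ : 0 < ρ)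
    (h : ∀ j, ρ ≤ ∑ k, c k * |sin (φ j - φ k)|) (θ : ℝ) : ρ ≤ ∑ k, c k * |sin (θ - φ k)| := by
  have hp := pi_pos
  have ex : ∀ k, ∃ a, 0 ≤ θ - a ∧ θ - a < π ∧ (∀ x, |sin (x - φ k)| = |sin (x - a)|) ∧
      ∀ x, |sin (φ k - x)| = |sin (a - x)| := fun k => by
    have m := toIcoMod_mem_Ico hp 0 (θ - φ k)
    have d := toIcoMod_add_toIcoDiv_zsmul hp 0 (θ - φ k)
    rw [zsmul_eq_mul] at d
    refine ⟨φ k + toIcoDiv hp 0 (θ - φ k) * π, by linarith [m.1], by linarith [m.2], fun x => ?_,
      fun x => ?_⟩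
    · rw [← sub_sub, sin_sub_int_mul_pi, abs_mul, abs_zpow, abs_neg, abs_one, one_zpow, one_mul]
    · rw [add_sub_right_comm, sin_add_int_mul_pi, abs_mul, abs_zpow, abs_neg, abs_one, one_zpow,
        one_mul]
  choose a a0 a1 a2 a3 using ex
  replace h : ∀ j, ρ ≤ ∑ k, c k * |sin (a j - a k)| := fun j => by
    simpa only [a2, a3] using h j
  simp only [a2]
  obtain ⟨i, hi⟩ := Finite.exists_max a
  obtain ⟨j, hj⟩ := Finite.exists_min a
  have e1 : ∀ k, |sin (θ - a k)| = sin (θ - a k) := fun k =>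
    abs_of_nonneg (sin_nonneg_of_nonneg_of_le_pi (a0 k) (a1 k).le)
  have e2 : ∀ k, |sin (a i - a k)| = sin (a i - a k) := fun k =>
    abs_of_nonneg (sin_nonneg_of_nonneg_of_le_pi (by linarith [hi k]) (by linarith [a0 i, a1 k]))
  have e3 : ∀ k, |sin (a j - a k)| = sin (a k - a j) := fun k => by
    rw [← neg_sub, sin_neg, abs_neg]
    exact abs_of_nonneg
      (sin_nonneg_of_nonneg_of_le_pi (by linarith [hj k]) (by linarith [a0 k, a1 j]))
  have hi' := h i
  have hj' := h j
  simp only [e1, e2, e3] at hi' hj' ⊢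
  rcases (hj i).eq_or_lt with q | q
  · rw [Finset.sum_eq_zero fun k _ => by
      rw [show a i - a k = 0 by linarith [hi k, hj k], sin_zero, mul_zero]] at hi'
    linarith
  have s1 : 0 < sin (a i - a j) := sin_pos_of_pos_of_lt_pi (by linarith) (by linarith [a0 i, a1 j])
  have s2 : 0 ≤ sin (θ - a j) := sin_nonneg_of_nonneg_of_le_pi (a0 j) (a1 j).le
  have s3 : 0 ≤ sin (θ - a i) := sin_nonneg_of_nonneg_of_le_pi (a0 i) (a1 i).le
  have e : sin (a i - a j) * ∑ k, c k * sin (θ - a k) = sin (θ - a j) * ∑ k, c k * sin (a i - a k)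
      + sin (θ - a i) * ∑ k, c k * sin (a k - a j) := by
    simp only [Finset.mul_sum, ← Finset.sum_add_distrib]
    refine Finset.sum_congr rfl fun k _ => ?_
    simp only [sin_sub]
    ring
  have s4 : sin (a i - a j) ≤ sin (θ - a j) + sin (θ - a i) := by
    rw [show a i - a j = (θ - a j) - (θ - a i) by ring, sin_sub (θ - a j)]
    nlinarith [cos_le_one (θ - a i), neg_one_le_cos (θ - a j)]
  refine le_of_mul_le_mul_left ?_ s1
  rw [e]
  nlinarith [mul_le_mul_of_nonneg_left hi' s2, mul_le_mul_of_nonneg_left hj' s3]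

/-- The weighted widths of a segment. -/
noncomputable def segW (P Q x : ℝ) : ℝ :=
  sin Q * |sin (x + P)| + sin P * |sin (x - Q)| + sin (P + Q) * |sin x|

theorem segW_ge {P Q : ℝ} (hP : 0 ≤ sin P) (hQ : 0 ≤ sin Q) (hR : 0 ≤ sin (P + Q)) (x : ℝ) :
    2 * (sin Q * |sin (x + P)|) ≤ segW P Q x ∧ 2 * (sin P * |sin (x - Q)|) ≤ segW P Q x ∧
      2 * (sin (P + Q) * |sin x|) ≤ segW P Q x := by
  have e : sin Q * sin (x + P) + sin P * sin (x - Q) = sin (P + Q) * sin x := by
    simp only [sin_add, sin_sub]; ring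
  have e1 : sin Q * |sin (x + P)| = |sin Q * sin (x + P)| := by rw [abs_mul, abs_of_nonneg hQ]
  have e2 : sin P * |sin (x - Q)| = |sin P * sin (x - Q)| := by rw [abs_mul, abs_of_nonneg hP]
  have e3 : sin (P + Q) * |sin x| = |sin (P + Q) * sin x| := by rw [abs_mul, abs_of_nonneg hR]
  rw [segW, e1, e2, e3, ← e]
  generalize sin Q * sin (x + P) = u
  generalize sin P * sin (x - Q) = v
  have k1 := abs_add_le u v
  have k2 := abs_sub (u + v) v
  have k3 := abs_sub (u + v) u
  rw [add_sub_cancel_right] at k2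
  rw [add_sub_cancel_left] at k3
  exact ⟨by linarith, by linarith, by linarith⟩

theorem par_reach {P Q D e s ρ : ℝ} (hρ : 0 < ρ) {l : List ℂ}
    (m0 : (⟨0, 0⟩ : ℂ) ∈ l) (m1 : (⟨e * cos s, e * sin s⟩ : ℂ) ∈ l) (m2 : (⟨D, 0⟩ : ℂ) ∈ l)
    (m3 : (⟨D + e * cos s, e * sin s⟩ : ℂ) ∈ l)
    (k : ∀ x ∈ [0, -P, Q], 2 * ρ ≤ D * segW P Q x + e * segW P Q (x - s) ∧
      2 * ρ ≤ D * segW P Q (x + s) + e * segW P Q x) (θ : ℝ) : Rw ρ P Q l θ := by
  have sup : ∀ ψ, ∃ p ∈ l, 2 * ip (p - ⟨(D + e * cos s) / 2, e * sin s / 2⟩) (ψ + π / 2)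
      = D * |sin ψ| + e * |sin (ψ - s)| := fun ψ => by
    rcases abs_cases (sin ψ) with c | c <;> rcases abs_cases (sin (ψ - s)) with d | d <;>
      rw [c.1, d.1]
    · refine ⟨_, m0, ?_⟩
      simp only [ip, Complex.sub_re, Complex.sub_im, cos_add_pi_div_two, sin_add_pi_div_two, sin_sub]
      ring
    · refine ⟨_, m1, ?_⟩
      simp only [ip, Complex.sub_re, Complex.sub_im, cos_add_pi_div_two, sin_add_pi_div_two, sin_sub]
      ring
    · refine ⟨_, m2, ?_⟩
      simp only [ip, Complex.sub_re, Complex.sub_im, cos_add_pi_div_two, sin_add_pi_div_two, sin_sub]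
      ring
    · refine ⟨_, m3, ?_⟩
      simp only [ip, Complex.sub_re, Complex.sub_im, cos_add_pi_div_two, sin_add_pi_div_two, sin_sub]
      ring
  have sm : ∀ x, ∑ k, ![D * sin (P + Q), D * sin Q, D * sin P, e * sin (P + Q), e * sin Q, e * sin P] k
      * |sin (x - ![0, -P, Q, s, s - P, s + Q] k)| = D * segW P Q x + e * segW P Q (x - s) := fun x => by
    simp only [Fin.sum_univ_six, Matrix.cons_val, segW, sub_zero, sub_neg_eq_add]
    rw [show x - (s - P) = x - s + P by ring, show x - (s + Q) = x - s - Q by ring]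
    ring
  have z := zono (ρ := 2 * ρ) _ ![0, -P, Q, s, s - P, s + Q] (by linarith) (fun j => by
    rw [sm]
    have k1 := k 0 (by simp)
    have k2 := k (-P) (by simp)
    have k3 := k Q (by simp)
    fin_cases j
    · exact k1.1
    · exact k2.1
    · exact k3.1
    · simpa using k1.2
    · simpa [show -P + s = s - P by ring] using k2.2
    · simpa [add_comm Q s] using k3.2) (θ - π / 2)
  rw [sm] at z
  obtain ⟨p, hp, e1⟩ := sup (θ - π / 2 + P + π)
  obtain ⟨q, hq, e2⟩ := sup (θ - π / 2 - Q + π)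
  obtain ⟨r, hr, e3⟩ := sup (θ - π / 2)
  refine ⟨p, hp, q, hq, r, hr, ?_⟩
  rw [← rowv_sub P Q p q r ⟨(D + e * cos s) / 2, e * sin s / 2⟩, rowv]
  rw [show θ - π / 2 + P + π - s = θ - π / 2 - s + P + π by ring, sin_add_pi, sin_add_pi, abs_neg,
    abs_neg, show θ - π / 2 + P + π + π / 2 = θ + π + P by ring] at e1
  rw [show θ - π / 2 - Q + π - s = θ - π / 2 - s - Q + π by ring, sin_add_pi, sin_add_pi, abs_neg,
    abs_neg, show θ - π / 2 - Q + π + π / 2 = θ + π - Q by ring] at e2
  rw [sub_add_cancel] at e3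
  simp only [segW] at z
  linear_combination 1 / 2 * z - sin Q / 2 * e1 - sin P / 2 * e2 - sin (P + Q) / 2 * e3

theorem Ang.z_path {A B s t : ℝ} (a : Ang A B) (z : ZVal A s t) :
    (Reach (alt A B) A B (zPts A B s t) ∧ Reach (alt A B) B A (zPts A B s t)) ∧
      plen (zPts A B s t) = zV A B s t := by
  obtain ⟨sA, sAB, sBC⟩ := a.sins
  have hh := a.alt_pos
  obtain ⟨A0, A1, A2⟩ := a
  obtain ⟨z1, z2, z3, z4, z5⟩ := z
  have hpi := pi_pos
  have sB : 0 < sin B := by linarith
  have sC : 0 < sin (A + B) := by linarith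
  have s1 : sin A ≤ sin s := sin_le_sin_of_le_of_le_pi_div_two (by linarith) z2 z1
  have s0 : 0 < sin s := by linarith
  have t0 : 0 < sin t := sin_pos_of_pos_of_lt_pi (by linarith) (by linarith)
  have D0 : 0 < cot s + cot t := by
    by_contra c
    have := mul_nonpos_of_nonneg_of_nonpos (mul_pos sA s0).le (not_lt.1 c)
    linarith
  have I0 : 0 < 1 / alt A B + cot s + cot t := by have := one_div_pos.2 hh; linarith
  set H := 1 / (1 / alt A B + cot s + cot t) with hH
  have H0 : 0 < H := one_div_pos.2 I0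
  have el : zPts A B s t =
    [⟨0, 0⟩, ⟨H * cot s, H⟩, ⟨H * (cot s + cot t), 0⟩, ⟨H * (2 * cot s + cot t), H⟩] := rfl
  have cs : cot s * sin s = cos s := by rw [cot_eq_cos_div_sin]; field_simp
  have ct : cot t * sin t = cos t := by rw [cot_eq_cos_div_sin]; field_simp
  constructor
  · set D := H * (cot s + cot t) with hD
    set e := H / sin s with he
    have E2 : e * sin s = H := div_mul_cancel₀ _ s0.ne'
    have E3 : e * cos s = H * cot s := by rw [← cs, ← E2]; ring
    have E1 : H * sin (A + B) + D * (sin A * sin B) = sin A * sin B := by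
      have : H * (1 / alt A B + cot s + cot t) = 1 := by rw [hH]; exact one_div_mul_cancel I0.ne'
      rw [alt, one_div_div] at this
      field_simp at this
      linear_combination this
    have e0 : 0 < e := div_pos H0 s0
    have d0 : 0 < D := mul_pos H0 D0
    have E4 : e ≤ sin A * D := by
      refine le_of_mul_le_mul_right ?_ s0
      have := mul_le_mul_of_nonneg_left z5 H0.le
      linarith
    have c1 := sin_le_one (A + B)
    have c2 := sin_le_one s
    have H1 : H ≤ sin A * D := by linarith only [E2, E4, mul_le_mul_of_nonneg_left c2 e0.le]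
    have H2 : sin A * D ≤ sin B * D := by gcongr
    have H3 : e * sin (A + B) ≤ sin A * D := by
      linarith only [E4, mul_le_mul_of_nonneg_left c1 e0.le]
    have H4 : e ≤ D := by linarith only [E4, mul_le_mul_of_nonneg_right (sin_le_one A) d0.le]
    have K2 : sin A * sin B ≤ D * (sin (A + B) * sin A) + e * (sin B * sin s) := by
      linarith [mul_le_mul_of_nonneg_left H1 (sub_nonneg.2 sBC), congrArg (sin B * ·) E2]
    have K3 : sin A * sin B ≤ D * (sin (A + B) * sin B) + e * (sin A * sin s) := by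
      linarith [mul_le_mul_of_nonneg_left (H1.trans H2) (sub_nonneg.2 (sAB.trans sBC)),
        congrArg (sin A * ·) E2]
    have K1 : sin A * sin B ≤ D * (sin A * sin B) + e * (sin (A + B) * sin s) := by
      linarith [congrArg (sin (A + B) * ·) E2]
    have K4 : sin A * sin B ≤ D * (sin (A + B) * sin s) + e * (sin A * sin B) := by
      have : sin A * sin B ≤ sin (A + B) * sin s := by rw [mul_comm]; gcongr
      linarith [mul_le_mul_of_nonneg_left H4 (sub_nonneg.2 this), congrArg (sin (A + B) * ·) E2]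
    have K5 : sin A * sin B ≤ D * (sin B * sin s) + e * (sin (A + B) * sin A) := by
      linarith [mul_le_mul_of_nonneg_left (H3.trans H2) (sub_nonneg.2 s1),
        congrArg (sin (A + B) * ·) E2]
    have K6 : ∀ X, sin A * sin s ≤ X → (s ≤ B → sin A * sin B ≤ X) →
        sin A * sin B ≤ D * X + e * (sin (A + B) * sin B) := fun X x1 x2 => by
      rcases le_total s B with c | c
      · have := sin_le_sin_of_le_of_le_pi_div_two (by linarith) (by linarith) c
        linarith [mul_le_mul_of_nonneg_left (x2 c) d0.le, congrArg (sin (A + B) * ·) E2,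
          mul_le_mul_of_nonneg_left this (mul_pos e0 sC).le]
      · have := sin_le_sin_of_le_of_le_pi_div_two (by linarith) z2 c
        linarith [mul_le_mul_of_nonneg_left x1 d0.le, congrArg (sin (A + B) * ·) E2,
          mul_le_mul_of_nonneg_left H3 (sub_nonneg.2 this)]
    have eh : alt A B * sin (A + B) = sin A * sin B := by rw [alt]; field_simp
    have m0 : (⟨0, 0⟩ : ℂ) ∈ zPts A B s t := by simp [el]
    have m1 : (⟨e * cos s, e * sin s⟩ : ℂ) ∈ zPts A B s t := by simp [el, E2, E3]
    have m2 : (⟨D, 0⟩ : ℂ) ∈ zPts A B s t := by simp [el]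
    have m3 : (⟨D + e * cos s, e * sin s⟩ : ℂ) ∈ zPts A B s t := by
      rw [el, E2, E3, show D + H * cot s = H * (2 * cot s + cot t) by rw [hD]; ring]; simp
    have cmb : ∀ {u v U V : ℝ}, sin A * sin B ≤ D * u + e * v → 2 * u ≤ U → 2 * v ≤ V →
        2 * (sin A * sin B) ≤ D * U + e * V := fun h1 h2 h3 => by
      linarith [mul_le_mul_of_nonneg_left h2 d0.le, mul_le_mul_of_nonneg_left h3 e0.le]
    have aA := abs_of_pos sA
    have aB := abs_of_pos sB
    have as := abs_of_pos s0
    constructor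
    · intro θ
      rw [eh]
      have T := segW_ge sA.le sB.le sC.le
      refine par_reach (mul_pos sA sB) m0 m1 m2 m3 ?_ θ
      simp only [List.mem_cons, List.not_mem_nil, or_false, forall_eq_or_imp, forall_eq]
      refine ⟨⟨cmb K1 ?_ ?_, cmb K4 ?_ ?_⟩, ⟨cmb K2 ?_ ?_, cmb K5 ?_ ?_⟩, cmb K3 ?_ ?_,
        cmb (K6 (segW A B (B + s) / 2) ?_ fun c => ?_) (by linarith) ?_⟩
      · simpa [aB] using (T 0).2.1
      · simpa [as] using (T (0 - s)).2.2
      · simpa [as] using (T (0 + s)).2.2
      · simpa [aB] using (T 0).2.1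
      · simpa [aA] using (T (-A)).2.2
      · simpa [as, show -A - s + A = -s by ring] using (T (-A - s)).1
      · simpa [as] using (T (-A + s)).1
      · simpa [aA] using (T (-A)).2.2
      · simpa [aB] using (T B).2.2
      · simpa [as] using (T (B - s)).2.1
      · have := (T (B + s)).2.1
        rw [add_sub_cancel_left, as] at this
        linarith
      · have := sin_le_mid (x := B + s) A0.le (by linarith) (by linarith)
        have k := (T (B + s)).2.2
        rw [abs_of_nonneg (sA.le.trans this)] at k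
        linarith only [k, mul_le_mul this sBC sB.le (sA.le.trans this)]
      · simpa [aB] using (T B).2.2
    · intro θ
      rw [add_comm B A, eh, ← add_comm B A]
      have T := segW_ge sB.le sA.le (by rw [add_comm]; exact sC.le)
      rw [add_comm B A] at T
      refine par_reach (mul_pos sA sB) m0 m1 m2 m3 ?_ θ
      simp only [List.mem_cons, List.not_mem_nil, or_false, forall_eq_or_imp, forall_eq]
      refine ⟨⟨cmb K1 ?_ ?_, cmb K4 ?_ ?_⟩, ⟨cmb K3 ?_ ?_,
        cmb (K6 (segW B A (-B + s) / 2) ?_ fun c => ?_) (by linarith) ?_⟩, cmb K2 ?_ ?_, cmb K5 ?_ ?_⟩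
      · simpa [aB] using (T 0).1
      · simpa [as] using (T (0 - s)).2.2
      · simpa [as] using (T (0 + s)).2.2
      · simpa [aB] using (T 0).1
      · simpa [aB] using (T (-B)).2.2
      · simpa [as, show -B - s + B = -s by ring] using (T (-B - s)).1
      · have := (T (-B + s)).1
        rw [neg_add_cancel_comm, as] at this
        linarith
      · have := sin_le_mid (x := A + B - s) A0.le (by linarith) (by linarith)
        have k := (T (-B + s)).2.1
        rw [show -B + s - A = -(A + B - s) by ring, sin_neg, abs_neg,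
          abs_of_nonneg (sA.le.trans this)] at k
        linarith only [k, mul_le_mul_of_nonneg_left this sB.le]
      · simpa [aB] using (T (-B)).2.2
      · simpa [aA] using (T A).2.2
      · simpa [as] using (T (A - s)).2.1
      · simpa [as] using (T (A + s)).2.1
      · simpa [aA] using (T A).2.2
  · have n1 : ‖(⟨H * cot s, H⟩ : ℂ) - ⟨0, 0⟩‖ = H / sin s :=
      norm_slope s0 H0.le (Or.inl (by linear_combination H * cs)) _ (Or.inl (by ring))
    have n2 : ‖(⟨H * (cot s + cot t), 0⟩ : ℂ) - ⟨H * cot s, H⟩‖ = H / sin t :=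
      norm_slope t0 H0.le (Or.inl (by linear_combination H * ct)) _ (Or.inr (by ring))
    have n3 : ‖(⟨H * (2 * cot s + cot t), H⟩ : ℂ) - ⟨H * (cot s + cot t), 0⟩‖ = H / sin s :=
      norm_slope s0 H0.le (Or.inl (by linear_combination H * cs)) _ (Or.inl (by ring))
    rw [el]
    simp only [plen, List.length_cons, List.length_nil, Finset.sum_range_succ, Nat.reduceAdd,
      Nat.add_one_sub_one, Finset.range_zero, Finset.sum_empty, List.getD_cons_succ,
      List.getD_cons_zero, zero_add, n1, n2, n3, zV]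
    rw [hH]
    ring

end Pool.Agent.P.MP_d76e6a_co
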