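import Pool.Agent.P.MP_d76e6a_co.HReach

/-!
The zigzags `vPts` are escape paths; their lengths.
-/

namespace Pool.Agent.P.MP_d76e6a_co

open Real

theorem Rw.mir {ρ P Q θ : ℝ} {l : List ℂ} (ms : ∀ p ∈ l, (⟨-p.re, p.im⟩ : ℂ) ∈ l)
    (h : Rw ρ P Q l θ) : Rw ρ Q P l (π - θ) := by
  obtain ⟨p, hp, q, hq, r, hr, h⟩ := h
  refine ⟨_, ms q hq, _, ms p hp, _, ms r hr, h.trans (le_of_eq ?_)⟩
  simp only [rowv, ip, cos_add, sin_add, cos_sub, sin_sub, cos_pi, sin_pi]
  ring

/-- The placements in which one end lies in the wedge with angle `P`. -/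
def Wedge (ρ P Q : ℝ) (l : List ℂ) : Prop := ∀ η, 0 ≤ η → η ≤ P → Rw ρ P Q l (π / 2 - η)

theorem reachW {l : List ℂ} {ρ P Q R : ℝ} (ms : ∀ p ∈ l, (⟨-p.re, p.im⟩ : ℂ) ∈ l)
    (e : P + Q + R = π) (wPQ : Wedge ρ P Q l) (wQP : Wedge ρ Q P l) (wRP : Wedge ρ R P l)
    (wPR : Wedge ρ P R l) (wQR : Wedge ρ Q R l) (wRQ : Wedge ρ R Q l) (θ : ℝ) : Rw ρ P Q l θ := by
  have hpi := pi_pos
  have gen : ∀ {P Q : ℝ}, Wedge ρ P Q l → Wedge ρ Q P l → ∀ θ, π / 2 - P ≤ θ → θ ≤ π / 2 + Q →
      Rw ρ P Q l θ := fun {P Q} w1 w2 θ t1 t2 => by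
    rcases le_total θ (π / 2) with c | c
    · simpa using w1 (π / 2 - θ) (by linarith) (by linarith)
    · have := (w2 (θ - π / 2) (by linarith) (by linarith)).mir ms
      rwa [show π - (π / 2 - (θ - π / 2)) = θ by ring] at this
  have cb : ∀ θ, Rw ρ R P l (θ + π + P) → Rw ρ P Q l θ := fun θ h => h.cyc e
  have ca : ∀ θ, Rw ρ Q R l (θ + π - Q) → Rw ρ P Q l θ := fun θ h =>
    cb θ (Rw.cyc (R := Q) (by linarith) (h.per 1 (by push_cast; linarith)))
  obtain ⟨k, t, e1, t1, t2⟩ : ∃ (k : ℤ) (t : ℝ), θ = t + k * (2 * π) ∧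
      -(3 * π / 2) + Q ≤ t ∧ t ≤ π / 2 + Q := by
    have p2 : 0 < 2 * π := by positivity
    have m := toIcoMod_mem_Ico p2 (-(3 * π / 2) + Q) θ
    have d := toIcoMod_add_toIcoDiv_zsmul p2 (-(3 * π / 2) + Q) θ
    refine ⟨toIcoDiv p2 (-(3 * π / 2) + Q) θ, _, ?_, m.1, by linarith [m.2]⟩
    rw [zsmul_eq_mul] at d
    linarith
  refine Rw.per ?_ k e1
  rcases le_total (π / 2 - P) t with d1 | d1
  · exact gen wPQ wQP t d1 t2
  rcases le_total (-(π / 2)) t with d2 | d2
  · exact ca _ (gen wQR wRQ _ (by linarith) (by linarith))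
  · exact cb _ (gen wRP wPR _ (by linarith) (by linarith))

section
variable {l : List ℂ} {x y u f g ρ P Q : ℝ}

theorem hex_val (x y a b c d P Q η : ℝ) :
    rowv P Q ⟨x - a, y - b⟩ ⟨-x, y⟩ ⟨x - c, y + d⟩ (π / 2 - η) = 2 * x * sin P * sin (Q + η)
      + sin Q * (b * cos (P - η) - a * sin (P - η)) + sin (P + Q) * (d * cos η - c * sin η) := by
  simp only [rowv, ip, cos_add, sin_add, cos_sub, sin_sub, cos_pi, sin_pi, cos_pi_div_two,
    sin_pi_div_two]
  ring

structure Hex (l : List ℂ) (x y u f g : ℝ) : Prop where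
  m1 : (⟨x - 0, y - 0⟩ : ℂ) ∈ l
  m2 : (⟨-x, y⟩ : ℂ) ∈ l
  m3 : (⟨x - y * cot g, y - y⟩ : ℂ) ∈ l
  m4 : (⟨x - u * cot f, y + u⟩ : ℂ) ∈ l
  m5 : (⟨x - 0, y + 0⟩ : ℂ) ∈ l
  sf : 0 < sin f
  sg : 0 < sin g

theorem cot_comb {g : ℝ} (h : 0 < sin g) (y t : ℝ) :
    y * cos t - y * cot g * sin t = y * sin (g - t) / sin g := by
  rw [cot_eq_cos_div_sin, sin_sub]; field_simp

theorem Hex.low (H : Hex l x y u f g) (hρ : 0 ≤ ρ) (hP : P < π) {m η : ℝ} (m0 : 0 ≤ m) (h1 : m ≤ η)
    (h2 : η ≤ P) (k1 : ρ ≤ 2 * x * sin P * sin (Q + m) + sin Q * (y * sin (g - (P - m)) / sin g))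
    (k2 : ρ ≤ 2 * x * sin P * sin (P + Q) + sin Q * y) : Rw ρ P Q l (π / 2 - η) := by
  refine ⟨_, H.m3, _, H.m2, _, H.m5, rowv_between (a := π / 2 - P) (b := π / 2 - m) hρ (by linarith)
    (by linarith) (by linarith) ?_ ?_⟩
  · rw [hex_val, add_comm Q P]; simpa using k2
  · rw [hex_val, cot_comb H.sg]; simpa using k1

theorem Hex.w1 (H : Hex l x y u f g) (hρ : 0 ≤ ρ) (hP : P < π) (f0 : 0 ≤ f) (f1 : f < π)
    (k0 : ρ ≤ 2 * x * sin P * sin Q + sin Q * (y * sin (g - P) / sin g) + sin (P + Q) * u)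
    (k1 : ρ ≤ 2 * x * sin P * sin (Q + f) + sin Q * (y * sin (g - (P - f)) / sin g))
    (k2 : ρ ≤ 2 * x * sin P * sin (P + Q) + sin Q * y) : Wedge ρ P Q l := by
  intro η h0 h1
  rcases le_total η f with c | c
  · refine ⟨_, H.m3, _, H.m2, _, H.m4, rowv_between (a := π / 2 - f) (b := π / 2 - 0) hρ
      (by linarith) (by linarith) (by linarith) ?_ ?_⟩
    · rw [hex_val, cot_comb H.sg, cot_comb H.sf]; simpa using k1
    · rw [hex_val, cot_comb H.sg]; simpa using k0
  · exact H.low hρ hP f0 c h1 k1 k2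

theorem Hex.w2 (H : Hex l x y u f g) (hρ : 0 ≤ ρ) (hP : P < π) (f0 : 0 ≤ f) (g0 : 0 ≤ g)
    (fg : g + f ≤ π) (P0 : 0 ≤ P) (y0 : 0 ≤ y) (sQ : 0 ≤ sin Q)
    (k0 : ρ ≤ 2 * x * sin P * sin Q + sin (P + Q) * u) (k1 : ρ ≤ 2 * x * sin P * sin (Q + f))
    (k3 : f ≤ P - g → ρ ≤ 2 * x * sin P * sin (Q + (P - g)))
    (k2 : ρ ≤ 2 * x * sin P * sin (P + Q) + sin Q * y) : Wedge ρ P Q l := by
  intro η h0 h1
  have f1 : f < π := by
    rcases (show f ≤ π by linarith).eq_or_lt with c | c
    · have := H.sf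
      rw [c, sin_pi] at this
      exact absurd this (lt_irrefl _)
    · exact c
  rcases le_total η f with c | c
  · refine ⟨_, H.m1, _, H.m2, _, H.m4, rowv_between (a := π / 2 - f) (b := π / 2 - 0) hρ
      (by linarith) (by linarith) (by linarith) ?_ ?_⟩
    · rw [hex_val, cot_comb H.sf]; simpa using k1
    · rw [hex_val]; simpa using k0
  rcases le_total f (P - g) with d | d
  · rcases le_total η (P - g) with e | e
    · refine ⟨_, H.m1, _, H.m2, _, H.m5, rowv_between (a := π / 2 - (P - g)) (b := π / 2 - f) hρ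
        (by linarith) (by linarith) (by linarith) ?_ ?_⟩
      · rw [hex_val]; simpa using k3 d
      · rw [hex_val]; simpa using k1
    · exact H.low hρ hP (by linarith) e h1 (by simpa using k3 d) k2
  · refine H.low hρ hP f0 c h1 (k1.trans (le_add_of_nonneg_right ?_)) k2
    have := sin_nonneg_of_nonneg_of_le_pi (x := g - (P - f)) (by linarith) (by linarith)
    have := H.sg
    positivity

end

theorem Ang.v_path {A B f g : ℝ} (a : Ang A B) (v : VVal A B f g) :
    (Reach (alt A B) A B (vPts A B f g) ∧ Reach (alt A B) B A (vPts A B f g)) ∧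
      plen (vPts A B f g) = vV A B f g := by
  obtain ⟨sA, sAB, sBC⟩ := a.sins
  have hh := a.alt_pos
  obtain ⟨v1, v2, v3, v4, v5, v6, v7⟩ := v
  have f0 : 0 < f := by linarith
  have k1 := a.wk_gt f0 v2
  obtain ⟨A0, A1, A2⟩ := a
  have k2 := Ang.wk_gt ⟨A0, le_rfl, by linarith⟩ f0 v2
  have hpi := pi_pos
  have sB : 0 < sin B := by linarith
  have sC : 0 < sin (A + B) := by linarith
  have sf : 0 < sin f := sin_pos_of_pos_of_lt_pi f0 (by linarith)
  have sg : 0 < sin g := sin_pos_of_pos_of_lt_pi (by linarith) (by linarith)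
  have sd : 0 ≤ sin (g + f - A) := sin_nonneg_of_nonneg_of_le_pi (by linarith) (by linarith)
  have cG : 0 ≤ cos (g + f) := cos_nonneg_of_mem_Icc ⟨by linarith, v4⟩
  set N := wk B f - alt A B * sin (g + f - A) / (sin A * sin g) with hN
  have N0 : 0 < N := by
    by_contra c
    have := mul_nonpos_of_nonneg_of_nonpos (sub_nonneg.2 k2.le) (not_lt.1 c)
    nlinarith
  set y := vy A B f g with hy
  have ey : y * N = alt A B * (wk B f - 1) := by
    have : wk B f / alt A B - sin (g + f - A) / (sin A * sin g) = N / alt A B := by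
      rw [hN]; field_simp
    rw [hy, vy, this]; field_simp
  have y0 : 0 < y := (mul_pos_iff_of_pos_right N0).1 (ey ▸ mul_pos hh (by linarith))
  set x := (1 - y / alt A B) / 2 with hx
  set u := y * sin (g + 2 * f) / sin g with hu
  have el : vPts A B f g = [⟨-x, y⟩, ⟨-(x - y * cot g), 0⟩, ⟨-(x - u * cot f), y + u⟩,
    ⟨x - u * cot f, y + u⟩, ⟨x - y * cot g, 0⟩, ⟨x, y⟩] := rfl
  clear_value x u y N
  have eh : alt A B * sin (A + B) = sin A * sin B := by rw [alt]; field_simp
  have ex : 2 * x * alt A B = alt A B - y := by rw [hx]; field_simp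
  have eu : u - y = 2 * y * cos (g + f) * sin f / sin g := by
    rw [hu, show g + 2 * f = g + f + f by ring, sin_add (g + f)]
    have : sin g = sin (g + f) * cos f - cos (g + f) * sin f := by rw [← sin_sub]; congr 1; ring
    field_simp
    linear_combination -this
  have uy : y ≤ u := by
    have : 0 ≤ 2 * y * cos (g + f) * sin f / sin g := by positivity
    linarith
  constructor
  · have E0 : 2 * x * sin A * sin B + sin (A + B) * y = sin A * sin B := by
      refine mul_right_cancel₀ hh.ne' ?_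
      linear_combination sin A * sin B * ex + y * eh
    have E1 : 2 * x * sin A * sin (B + f) + sin B * (y * sin (g - (A - f)) / sin g)
        = sin A * sin B := by
      have e1 : wk B f * sin B = sin (B + f) := by rw [wk]; field_simp
      have e2 : N * (sin A * sin g) = wk B f * (sin A * sin g) - alt A B * sin (g + f - A) := by
        rw [hN]; field_simp
      rw [show g - (A - f) = g + f - A by ring]
      refine mul_right_cancel₀ (mul_pos hh sg).ne' ?_
      linear_combination sin A * sin (B + f) * sin g * ex - (alt A B - y) * sin A * sin g * e1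
        + sin B * alt A B * div_mul_cancel₀ (y * sin (g + f - A)) sg.ne' + y * sin B * e2
        - sin A * sin B * sin g * ey
    have E2 : sin A ≤ 2 * x * sin (A + f) := by
      have e1 : wk A f * sin A = sin (A + f) := by rw [wk]; field_simp
      have : 1 ≤ 2 * x * wk A f := by
        refine le_of_mul_le_mul_right ?_ (mul_pos hh N0)
        linarith [mul_le_mul_of_nonneg_left v6 hh.le, congrArg (wk A f * N * ·) ex,
          congrArg (wk A f * ·) ey]
      rw [← e1]
      linarith [mul_le_mul_of_nonneg_right this sA.le]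
    have sAf : 0 < sin (A + f) := sin_pos_of_pos_of_lt_pi (by linarith) (by linarith)
    have x0 : 1 ≤ 4 * x := by
      have s1 : sin f ≤ sin A := sin_le_sin_of_le_of_le_pi_div_two (by linarith) (by linarith)
        (by linarith)
      have s2 : sin (A + f) ≤ 2 * sin A := by
        rw [sin_add]
        linarith [mul_le_mul_of_nonneg_left (cos_le_one f) sA.le,
          mul_le_mul_of_nonneg_right (cos_le_one A) sf.le]
      have s3 : 0 ≤ 2 * x := nonneg_of_mul_nonneg_left (sA.le.trans E2) sAf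
      refine le_of_mul_le_mul_right ?_ sA
      linarith [mul_le_mul_of_nonneg_left s2 s3]
    have yA : y ≤ 2 * x * sin A := by
      have h1 : alt A B ≤ sin A := by
        refine le_of_mul_le_mul_right ?_ sC
        rw [eh]; gcongr
      linarith [mul_le_mul_of_nonneg_right x0 hh.le, mul_le_mul_of_nonneg_right x0 sA.le]
    have yB : y ≤ 2 * x * sin B := yA.trans (by gcongr; linarith)
    have GB : sin A * sin B ≤ 2 * x * sin A * sin (A + B) + sin B * y := by
      linarith [mul_le_mul_of_nonneg_left yA (sub_nonneg.2 sBC)]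
    have GA : sin A * sin B ≤ 2 * x * sin B * sin (A + B) + sin A * y := by
      linarith [mul_le_mul_of_nonneg_left yB (sub_nonneg.2 (sAB.trans sBC))]
    have H : Hex (vPts A B f g) x y u f g := ⟨by simp [el], by simp [el], by simp [el],
      by simp [el], by simp [el], sf, sg⟩
    set C := π - (A + B) with hC
    have eC : sin C = sin (A + B) := sin_pi_sub _
    have eAC : sin (A + C) = sin B := by rw [show A + C = π - B by linarith, sin_pi_sub]
    have eBC : sin (B + C) = sin A := by rw [show B + C = π - A by linarith, sin_pi_sub]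
    have p0 : 0 ≤ sin A * sin B := by positivity
    have ch : ∀ s t, sin B ≤ s → A + f ≤ t → A + f + t ≤ π → sin A * sin B ≤ 2 * x * s * sin t :=
      fun s t h1 h2 h3 => by
        have h4 := sin_le_mid (by linarith) h2 h3
        have h5 : sin B * sin (A + f) ≤ s * sin t := mul_le_mul h1 h4 sAf.le (by linarith)
        linarith [mul_le_mul_of_nonneg_left h5 (show 0 ≤ 2 * x by linarith),
          mul_le_mul_of_nonneg_left E2 sB.le]
    have top : ∀ s t, 0 ≤ t → t * sin B ≤ s → s * y ≤ t * (y * sin (g - A) / sin g) + s * u :=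
      fun s t t0 h1 => by
        have h2 : 0 ≤ 2 * cos (g + f) * sin f := by positivity
        have h3 : t * sin (A - g) ≤ s * (2 * cos (g + f) * sin f) := by
          linarith [mul_le_mul_of_nonneg_left v5 t0, mul_le_mul_of_nonneg_left h1 h2]
        have h4 := mul_le_mul_of_nonneg_left h3 (div_pos y0 sg).le
        rw [← neg_sub A g, sin_neg]
        linear_combination h4 - s * eu
    have c1 := sin_le_one B
    have c2 := sin_le_one (A + B)
    have wAB : Wedge (sin A * sin B) A B (vPts A B f g) := H.w1 p0 (by linarith) f0.le (by linarith)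
      (by linarith [top (sin (A + B)) (sin B) sB.le (by nlinarith)]) E1.ge GB
    have wAC : Wedge (sin A * sin B) A C (vPts A B f g) := H.w1 p0 (by linarith) f0.le (by linarith)
      (by rw [eC, eAC]; linarith [top (sin B) (sin (A + B)) sC.le (by nlinarith)])
      (by
        have h1 := sin_le_mid (a := B + f) (x := C + f) (by linarith) (by linarith) (by linarith)
        have h2 : 0 ≤ y * sin (g - (A - f)) / sin g := by
          rw [show g - (A - f) = g + f - A by ring]; positivity
        rw [eC]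
        linarith [mul_le_mul_of_nonneg_right sBC h2,
          mul_le_mul_of_nonneg_left h1 (show 0 ≤ 2 * x * sin A by nlinarith)])
      (by rw [eC, eAC]; exact E0.ge)
    have g0 : 0 ≤ g := by linarith
    have wBA : Wedge (sin A * sin B) B A (vPts A B f g) := H.w2 p0 (by linarith) f0.le g0
      (by linarith) (by linarith) y0.le sA.le
      (by rw [add_comm B A]; linarith [mul_le_mul_of_nonneg_left uy sC.le])
      (ch _ _ le_rfl le_rfl (by linarith)) (fun _ => ch _ _ le_rfl (by linarith) (by linarith))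
      (by rw [add_comm B A]; exact GA)
    have wBC : Wedge (sin A * sin B) B C (vPts A B f g) := H.w2 p0 (by linarith) f0.le g0
      (by linarith) (by linarith) y0.le (eC ▸ sC.le)
      (by rw [eBC, eC]; linarith [mul_le_mul_of_nonneg_left uy sA.le])
      (ch _ _ le_rfl (by linarith) (by linarith)) (fun _ => ch _ _ le_rfl (by linarith) (by linarith))
      (by rw [eBC, eC]; linarith)
    have wCA : Wedge (sin A * sin B) C A (vPts A B f g) := H.w2 p0 (by linarith) f0.le g0
      (by linarith) (by linarith) y0.le sA.le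
      (by rw [add_comm C A, eAC, eC]; linarith [mul_le_mul_of_nonneg_left uy sB.le])
      (ch _ _ (eC ▸ sBC) le_rfl (by linarith))
      (fun _ => ch _ _ (eC ▸ sBC) (by linarith) (by linarith))
      (by rw [add_comm C A, eAC, eC]; linarith)
    have wCB : Wedge (sin A * sin B) C B (vPts A B f g) := H.w2 p0 (by linarith) f0.le g0
      (by linarith) (by linarith) y0.le sB.le
      (by rw [add_comm C B, eBC, eC]; linarith [mul_le_mul_of_nonneg_left uy sA.le])
      (ch _ _ (eC ▸ sBC) (by linarith) (by linarith))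
      (fun _ => ch _ _ (eC ▸ sBC) (by linarith) (by linarith))
      (by rw [add_comm C B, eBC, eC]; linarith)
    have ms : ∀ p ∈ vPts A B f g, (⟨-p.re, p.im⟩ : ℂ) ∈ vPts A B f g := by simp [el]
    constructor
    · intro θ
      rw [eh]
      exact reachW (R := C) ms (by linarith) wAB wBA wCA wAC wBC wCB θ
    · intro θ
      rw [add_comm B A, eh, ← add_comm B A]
      exact reachW (R := C) ms (by linarith) wBA wAB wCB wBC wAC wCA θ
  · have s2 : 0 < sin (2 * f) := sin_pos_of_pos_of_lt_pi (by linarith) (by linarith)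
    have cg : cot g * sin g = cos g := by rw [cot_eq_cos_div_sin]; field_simp
    have cf : cot f * sin f = cos f := by rw [cot_eq_cos_div_sin]; field_simp
    have ug : u * sin g = y * sin (g + 2 * f) := hu ▸ div_mul_cancel₀ _ sg.ne'
    have t0 : 0 ≤ x - u * cot f := by
      refine nonneg_of_mul_nonneg_left ?_ sg
      linear_combination 1 / 2 * v7 + cot f * ug - sin g * hx
    have e2 : (u * cot f - y * cot g) * sin (2 * f) = (y + u) * cos (2 * f) := by
      refine mul_right_cancel₀ sg.ne' ?_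
      have q := sin_sq_add_cos_sq f
      rw [sin_add] at ug
      rw [sin_two_mul, cos_two_mul] at ug ⊢
      linear_combination 2 * u * cos f * sin g * cf - 2 * y * sin f * cos f * cg + ug
    have n1 : ‖(⟨-(x - y * cot g), 0⟩ : ℂ) - ⟨-x, y⟩‖ = y / sin g :=
      norm_slope sg y0.le (Or.inl (by linear_combination y * cg)) _ (Or.inr (by ring))
    have n2 : ‖(⟨-(x - u * cot f), y + u⟩ : ℂ) - ⟨-(x - y * cot g), 0⟩‖ = (y + u) / sin (2 * f) :=
      norm_slope s2 (by linarith) (Or.inl (by linear_combination e2)) _ (Or.inl (by ring))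
    have n3 : ‖(⟨x - u * cot f, y + u⟩ : ℂ) - ⟨-(x - u * cot f), y + u⟩‖ = 2 * (x - u * cot f) := by
      generalize x - u * cot f = t at t0
      rw [show (⟨t, y + u⟩ : ℂ) - ⟨-t, y + u⟩ = ((2 * t : ℝ) : ℂ) from
        Complex.ext (by simp; ring) (by simp), Complex.norm_real, Real.norm_of_nonneg (by linarith)]
    have n4 : ‖(⟨x - y * cot g, 0⟩ : ℂ) - ⟨x - u * cot f, y + u⟩‖ = (y + u) / sin (2 * f) :=
      norm_slope s2 (by linarith) (Or.inl (by linear_combination e2)) _ (Or.inr (by ring))
    have n5 : ‖(⟨x, y⟩ : ℂ) - ⟨x - y * cot g, 0⟩‖ = y / sin g :=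
      norm_slope sg y0.le (Or.inl (by linear_combination y * cg)) _ (Or.inl (by ring))
    rw [el]
    simp only [plen, List.length_cons, List.length_nil, Finset.sum_range_succ, Nat.reduceAdd,
      Nat.add_one_sub_one, Finset.range_zero, Finset.sum_empty, List.getD_cons_succ,
      List.getD_cons_zero, zero_add, n1, n2, n3, n4, n5, vV, ← hy]
    have e3 : (y + u) / sin (2 * f) - u * cot f = -(y * cos (g + 2 * f) / sin g) := by
      have q := sin_sq_add_cos_sq (2 * f)
      have e4 : (y + u) / sin (2 * f) * sin (2 * f) = y + u := div_mul_cancel₀ _ s2.ne'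
      have e5 : cot f * sin (2 * f) = 1 + cos (2 * f) := by
        rw [sin_two_mul, cos_two_mul]; linear_combination 2 * cos f * cf
      refine mul_right_cancel₀ (mul_pos s2 sg).ne' ?_
      rw [sin_add] at ug
      rw [cos_add]
      field_simp
      linear_combination -u * sin g * e5 - cos (2 * f) * ug - y * sin g * q
    rw [hx]
    linear_combination 2 * e3

end Pool.Agent.P.MP_d76e6a_co
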