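import Pool.Agent.P.MP_d76e6a_co.WCell

/-!
The checker for the zigzag region: decision trees, boxes, and the subdivision.
-/

namespace Pool.Agent.P.MP_d76e6a_co

open Real

noncomputable section

def gB (b : Bool) (k : Bool → Bool) : Bool := Bool.rec (k false) (k true) b

theorem gB_eq (b : Bool) (k : Bool → Bool) : gB b k = k b := by cases b <;> rfl

/-- Read `w` bits. -/
def rd (w n : ℕ) (k : ℕ → ℕ → Bool) : Bool :=
  gN (Nat.mod n (Nat.shiftLeft 1 w)) fun v => gN (Nat.shiftRight n w) fun n => k v n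

theorem rd_ex {w n : ℕ} {k : ℕ → ℕ → Bool} (h : rd w n k = true) : ∃ v m, k v m = true := by
  obtain ⟨v, h⟩ := gN_ex h
  obtain ⟨m, h⟩ := gN_ex h
  exact ⟨v, m, h⟩

def rowsK (c : ℕ) : ℕ → (List Row → Bool) → Bool :=
  Nat.rec (fun _ k => k []) (fun _ ih n k => gN (Nat.land n 8191) fun t =>
    gB (Nat.beq (Nat.land n 8192) 0) fun o => gB (Nat.beq (Nat.land n 16384) 0) fun s =>
    gN (Nat.land (Nat.shiftRight n 15) 262143) fun w => gN (Nat.shiftRight n 33) fun n =>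
    ih n fun l => k (⟨t, o, s, w⟩ :: l)) c

theorem rowsK_ex (c : ℕ) : ∀ n k, rowsK c n k = true → ∃ l, k l = true := by
  induction c with
  | zero => exact fun _ _ h => ⟨_, h⟩
  | succ c ih =>
    intro n k h
    dsimp only [rowsK] at h
    obtain ⟨_, h⟩ := gN_ex h
    rw [gB_eq, gB_eq] at h
    obtain ⟨_, h⟩ := gN_ex h
    obtain ⟨_, h⟩ := gN_ex h
    obtain ⟨_, h⟩ := ih _ _ h
    exact ⟨_, h⟩

def Bnd.t (w : Bnd) (s v : ℕ) : Bool := Nat.ble (Nat.mul v (Nat.sub w.s1 w.s0))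
  (Nat.add (Nat.mul w.da (Nat.sub w.s1 s)) (Nat.mul w.db (Nat.sub s w.s0)))

def Bnd.hf (w : Bnd) (lo hi x z : ℕ) : Bool := gN (Nat.add x z) fun c =>
  (Nat.blt c lo || w.t lo (Nat.sub lo (Nat.mul 2 z)) &&
    gN (Nat.sub c (Nat.sub c hi)) fun s => w.t s (Nat.sub s (Nat.mul 2 z))) &&
  (Nat.blt hi c || w.t hi (Nat.sub (Nat.mul 2 x) hi) &&
    gN (Nat.add c (Nat.sub lo c)) fun s => w.t s (Nat.sub (Nat.mul 2 x) s))

theorem Bnd.t_spec {w : Bnd} {s a b : ℕ} (h : w.t s (a - b) = true) (h0 : w.s0 ≤ s) (h1 : s ≤ w.s1) :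
    ((a : ℝ) - b) * (w.s1 - w.s0) ≤ w.da * (w.s1 - s) + w.db * (s - w.s0) := by
  simp only [Bnd.t, Nat.ble_eq, Nat.add_eq, Nat.mul_eq, Nat.sub_eq] at h
  have h' := (Nat.cast_le (α := ℝ)).2 h
  have e : (a : ℝ) - b ≤ (a - b : ℕ) := by
    rw [sub_le_iff_le_add]; exact_mod_cast le_tsub_add
  rw [Nat.cast_add, Nat.cast_mul, Nat.cast_mul, Nat.cast_mul, Nat.cast_sub (h0.trans h1),
    Nat.cast_sub h0, Nat.cast_sub h1] at h'
  exact (mul_le_mul_of_nonneg_right e (sub_nonneg.2 (by exact_mod_cast h0.trans h1))).trans h'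

theorem lin_between {a b p q s : ℝ} (h1 : 0 ≤ a + b * p) (h2 : 0 ≤ a + b * q) (h3 : p ≤ s)
    (h4 : s ≤ q) : 0 ≤ a + b * s := by
  rcases le_total 0 b with c | c
  · linarith [mul_le_mul_of_nonneg_left h3 c]
  · linarith [mul_le_mul_of_nonpos_left h4 c]

theorem Bnd.hf_spec {w : Bnd} {lo hi x z : ℕ} (h : w.hf lo hi x z = true) (h0 : w.s0 ≤ lo)
    (h1 : hi ≤ w.s1) {X Z : ℝ} (hX : X ≤ x) (hZ : z ≤ Z) (l0 : lo ≤ X + Z) (l1 : X + Z ≤ hi) :
    (X - Z) * (w.s1 - w.s0) ≤ w.da * (w.s1 - (X + Z)) + w.db * (X + Z - w.s0) := by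
  simp only [Bnd.hf, gN_eq, Bool.and_eq_true, Bool.or_eq_true, Nat.blt_eq, Nat.add_eq, Nat.mul_eq,
    Nat.sub_eq] at h
  have lh : lo ≤ hi := by exact_mod_cast l0.trans l1
  have d0 : (0 : ℝ) ≤ w.s1 - w.s0 := sub_nonneg.2 (by exact_mod_cast h0.trans (lh.trans h1))
  rcases le_total (X + Z) (x + z : ℕ) with c | c
  · have c' : lo ≤ x + z := by exact_mod_cast l0.trans c
    obtain ⟨k1, k2⟩ := h.1.resolve_left (by omega)
    have m : X + Z ≤ (x + z - (x + z - hi) : ℕ) := by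
      rcases le_total (x + z) hi with e | e
      · rwa [Nat.sub_eq_zero_of_le e, Nat.sub_zero]
      · rwa [Nat.sub_sub_self e]
    have j1 := Bnd.t_spec k1 h0 (by omega)
    have j2 := Bnd.t_spec k2 (by omega) (by omega)
    have := lin_between (a := w.da * w.s1 - w.db * w.s0 + 2 * z * (w.s1 - w.s0))
      (b := w.db - w.da - (w.s1 - w.s0)) (by push_cast at j1; linarith)
      (by push_cast [-Nat.cast_sub] at j2; linarith) l0 m
    linarith [mul_le_mul_of_nonneg_right hZ d0]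
  · have c' : x + z ≤ hi := by exact_mod_cast c.trans l1
    obtain ⟨k1, k2⟩ := h.2.resolve_left (by omega)
    have m : ((x + z + (lo - (x + z)) : ℕ) : ℝ) ≤ X + Z := by
      rcases le_total lo (x + z) with e | e
      · rwa [Nat.sub_eq_zero_of_le e, Nat.add_zero]
      · rwa [Nat.add_sub_cancel' e]
    have j1 := Bnd.t_spec k1 (by omega) h1
    have j2 := Bnd.t_spec k2 (by omega) (by omega)
    generalize x + z + (lo - (x + z)) = s at m j2
    have := lin_between (a := w.da * w.s1 - w.db * w.s0 - 2 * x * (w.s1 - w.s0))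
      (b := w.db - w.da + (w.s1 - w.s0)) (by push_cast at j2; linarith)
      (by push_cast at j1; linarith) m l1
    linarith [mul_le_mul_of_nonneg_right hX d0]

def covK (x0 x1 z0 z1 : ℕ) (l : List Bnd) : ℕ → Bool :=
  List.rec (fun _ => false) (fun w _ ih s => Bool.rec (ih s)
    (Nat.ble (Nat.add x1 z1) w.s1 || ih w.s1) (Nat.ble w.s0 s && Nat.ble s w.s1 &&
      gN (Nat.sub w.s1 (Nat.sub w.s1 (Nat.add x1 z1))) fun hi => w.hf s hi x1 z0 && w.hf s hi z1 x0)) l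

theorem and_el {a b : Bool} (h : (a && b) = true) : a = true ∧ b = true := by simpa using h

theorem covK_spec {x0 x1 z0 z1 : ℕ} {X Z : ℝ} (h1 : x0 ≤ X) (h2 : X ≤ x1) (h3 : z0 ≤ Z)
    (h4 : Z ≤ z1) (l : List Bnd) : ∀ s, covK x0 x1 z0 z1 l s = true → s ≤ X + Z →
      ∃ w ∈ l, w.In X Z := by
  induction l with
  | nil => intro s h; cases h
  | cons w l ih =>
    intro s h hs
    have nx : ∀ s, covK x0 x1 z0 z1 l s = true → s ≤ X + Z → ∃ v ∈ w :: l, v.In X Z := fun s a b =>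
      (ih s a b).imp fun _ c => ⟨List.mem_cons_of_mem _ c.1, c.2⟩
    replace h : Bool.rec (covK x0 x1 z0 z1 l s) (Nat.ble (Nat.add x1 z1) w.s1 ||
      covK x0 x1 z0 z1 l w.s1) (Nat.ble w.s0 s && Nat.ble s w.s1 &&
      gN (Nat.sub w.s1 (Nat.sub w.s1 (Nat.add x1 z1))) fun hi =>
        w.hf s hi x1 z0 && w.hf s hi z1 x0) = true := h
    generalize hb : (Nat.ble w.s0 s && Nat.ble s w.s1 && _) = b at h
    cases b
    · exact nx s h hs
    rcases le_or_gt (X + Z) w.s1 with c | c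
    · simp only [gN_eq, Bool.and_eq_true, Nat.ble_eq, Nat.add_eq, Nat.sub_eq] at hb
      obtain ⟨⟨k1, k2⟩, k3, k4⟩ := hb
      have m : X + Z ≤ (w.s1 - (w.s1 - (x1 + z1)) : ℕ) := by
        rcases le_total w.s1 (x1 + z1) with e | e
        · rwa [Nat.sub_eq_zero_of_le e, Nat.sub_zero]
        · rw [Nat.sub_sub_self e]; push_cast; linarith
      refine ⟨w, List.mem_cons_self, le_trans (by exact_mod_cast k1) hs, c, ?_⟩
      rcases abs_cases (X - Z) with e | e <;> rw [e.1]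
      · exact Bnd.hf_spec k3 k1 (Nat.sub_le _ _) h2 h3 hs m
      · have := Bnd.hf_spec k4 k1 (Nat.sub_le _ _) h4 h1 (by linarith) (by linarith)
        linarith
    · replace h : (Nat.ble (Nat.add x1 z1) w.s1 || covK x0 x1 z0 z1 l w.s1) = true := h
      rw [Bool.or_eq_true, Nat.ble_eq] at h
      refine nx _ (h.resolve_left fun e => ?_) c.le
      have : ((x1 + z1 : ℕ) : ℝ) ≤ w.s1 := by exact_mod_cast e
      push_cast at this
      linarith

/-- The data of a box. -/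
structure Bo where
  a : ℕ
  b : ℕ
  c : ℕ
  sa : ℕ
  sb : ℕ
  sc : ℕ
  U : ℕ
  cs : List Bnd
  z : ℕ

def upd (y x p : ℕ) : ℕ := Bool.rec p x (Nat.beq y 2880)

def goK (o : Bo) (f : ℕ) : ℕ → List Dec → List Dec → ℕ → ℕ → ℕ → ℕ → (ℕ → Bool) → Bool :=
  Nat.rec (fun _ _ _ _ _ _ _ _ => false) (fun _ ih n dL dR pL qL pR qR k => rd 2 n fun t n =>
    Nat.rec (rd 5 n fun c n => rd (Nat.mul c 33) n fun d n =>
        (rowsK c d fun l => chk o.a o.b o.c o.sa o.sb o.sc o.U (.leaf l) dL dR) && k n)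
      (fun t _ => Nat.rec (Nat.ble pL qL && Nat.ble qL o.a && Nat.ble pR qR && Nat.ble qR o.a &&
          covK pL qL pR qR o.cs (Nat.add pL pR) && k n)
        (fun t _ => Nat.rec (Nat.ble 1 o.z && Nat.ble pR qR && Nat.ble qR o.z && k n)
          (fun _ _ => rd 1 n fun h n => rd 12 n fun x n => rd 12 n fun y n =>
            Nat.blt x y && Nat.ble y 2880 && Bool.rec
              (gN (upd y x pL) fun p => gN (upd y x qL) fun q =>
                ih n (⟨x, y, false⟩ :: dL) dR p qL pR qR fun n =>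
                  ih n (⟨x, y, true⟩ :: dL) dR pL q pR qR k)
              (gN (upd y x pR) fun p => gN (upd y x qR) fun q =>
                ih n dL (⟨x, y, false⟩ :: dR) pL qL p qR fun n =>
                  ih n dL (⟨x, y, true⟩ :: dR) pL qL pR q k) (Nat.beq h 0)) t) t) t) f

theorem goK_k (o : Bo) (f : ℕ) : ∀ n dL dR pL qL pR qR k, goK o f n dL dR pL qL pR qR k = true →
    ∃ m, k m = true := by
  induction f with
  | zero => intro _ _ _ _ _ _ _ _ h; cases h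
  | succ f ih =>
    intro n dL dR pL qL pR qR k h
    obtain ⟨t, n, h⟩ := rd_ex h
    rcases t with _ | _ | _ | t
    · obtain ⟨_, _, h⟩ := rd_ex h
      obtain ⟨_, _, h⟩ := rd_ex h
      exact ⟨_, (and_el h).2⟩
    · exact ⟨_, (and_el h).2⟩
    · exact ⟨_, (and_el h).2⟩
    · obtain ⟨b, _, h⟩ := rd_ex h
      obtain ⟨_, _, h⟩ := rd_ex h
      obtain ⟨_, _, h⟩ := rd_ex h
      replace h := (and_el h).2
      cases hb : Nat.beq b 0 <;> rw [hb] at h
      all_goals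
        obtain ⟨_, h⟩ := gN_ex h
        obtain ⟨_, h⟩ := gN_ex h
        obtain ⟨_, h⟩ := ih _ _ _ _ _ _ _ _ h
        exact ih _ _ _ _ _ _ _ _ h

/-- What is known about the two halves. -/
structure Ctx (τ γ A B : ℝ) (a b : ℕ) (L R : Half) : Prop where
  r1 : RowsT τ (γ * alt A B) L R A B
  r2 : RowsT τ (γ * alt A B) R L A B
  r3 : Rows (γ * alt (ang a) (ang b)) L.h R.h (ang a) (ang b)
  r4 : Rows (γ * alt (ang a) (ang b)) R.h L.h (ang a) (ang b)
  n1 : NoTie L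
  n2 : NoTie R

theorem Ctx.swap {τ γ A B : ℝ} {a b : ℕ} {L R : Half} (h : Ctx τ γ A B a b L R) :
    Ctx τ γ A B a b R L := ⟨h.r2, h.r1, h.r4, h.r3, h.n2, h.n1⟩

/-- What is known about the box. -/
structure Bo.OK (o : Bo) (A B v : ℝ) : Prop where
  a : ang o.a ≤ A
  c : o.c = o.a + o.b
  c1 : o.a + o.b ≤ 2880
  sa : o.sa = sn o.a
  sb : o.sb = sn o.b
  sc : o.sc = sn (o.a + o.b)
  h0 : 0 ≤ alt (ang o.a) (ang o.b)
  U : v ≤ alt (ang o.a) (ang o.b) * (o.U / 2 ^ 32)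
  cs : ∀ c ∈ o.cs, c.OK A B v
  z : BOK A B v o.z

def Inv (H : Half) (ds : List Dec) (p q : ℕ) : Prop :=
  Holds H ds ∧ H.d (ang p) < H.d π ∧ H.d π ≤ H.d (ang q)

theorem Inv.cr {H : Half} {ds : List Dec} {p q lo hi : ℕ} {τ : ℝ} (h : Inv H ds p q) (hτ : 0 < τ)
    (h1 : lo ≤ p) (h2 : p ≤ q) (h3 : q ≤ hi) : Cr H τ lo hi := by
  obtain ⟨x, y, a1, a2, a3, a4⟩ := H.crossing (ang_mono h2) hτ h.2.1 h.2.2
  exact ⟨x, y, (ang_mono h1).trans a1, a2, a3.trans (ang_mono h3), a4⟩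

theorem Inv.cx {H : Half} {ds : List Dec} {p q : ℕ} {τ A : ℝ} (h : Inv H ds p q) (hτ : 0 < τ)
    (h2 : p ≤ q) (h3 : ang q ≤ A) : ∃ X : ℝ, p ≤ X ∧ X ≤ q ∧ Cx H τ A (X * (π / 2880)) := by
  obtain ⟨x, y, a1, a2, a3, a4⟩ := h.cr hτ le_rfl h2 le_rfl
  have hU : 0 < π / 2880 := by positivity
  refine ⟨x / (π / 2880), (le_div_iff₀ hU).2 a1, (div_le_iff₀ hU).2 (a2.trans a3), ?_⟩
  rw [div_mul_cancel₀ _ hU.ne']
  exact ⟨(ang_nonneg p).trans a1, y, a2, a3.trans h3, a4⟩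

theorem Inv.cons {H : Half} {ds : List Dec} {p q x y : ℕ} (h : Inv H ds p q) (n : NoTie H)
    (h1 : x < y) (h2 : y ≤ 2880) : Inv H (⟨x, y, false⟩ :: ds) (upd y x p) q ∨
      Inv H (⟨x, y, true⟩ :: ds) p (upd y x q) := by
  have key : ∀ (P : ℕ → Prop) (r : ℕ), P r → (y = 2880 → P x) → P (upd y x r) := by
    intro P r c d
    unfold upd
    cases hb : Nat.beq y 2880
    · exact c
    · exact d (Nat.eq_of_beq_eq_true hb)
  rcases h.1.cons h1 h2 n with c | c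
  · refine Or.inl ⟨c, key (fun r => H.d (ang r) < H.d π) p h.2.1 ?_, h.2.2⟩
    rintro rfl
    simpa [ang_pi] using (c _ List.mem_cons_self).2.2
  · refine Or.inr ⟨c, h.2.1, key (fun r => H.d π ≤ H.d (ang r)) q h.2.2 ?_⟩
    rintro rfl
    simpa [ang_pi] using (show H.d (ang 2880) < _ from (c _ List.mem_cons_self).2.2).le

theorem goK_spec {o : Bo} {A B v τ γ : ℝ} (ok : o.OK A B v) (hτ : 0 < τ) (hγ : 0 ≤ γ) {L R : Half}
    (x : Ctx τ γ A B o.a o.b L R) (f : ℕ) : ∀ n dL dR pL qL pR qR k,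
      goK o f n dL dR pL qL pR qR k = true → Inv L dL pL qL → Inv R dR pR qR →
      γ * v ≤ L.len + R.len := by
  induction f with
  | zero => intro _ _ _ _ _ _ _ _ h; cases h
  | succ f ih =>
    intro n dL dR pL qL pR qR k h iL iR
    obtain ⟨t, n, h⟩ := rd_ex h
    rcases t with _ | _ | _ | t
    · obtain ⟨_, _, h⟩ := rd_ex h
      obtain ⟨_, _, h⟩ := rd_ex h
      obtain ⟨l, h⟩ := rowsK_ex _ _ _ (and_el h).1
      rw [ok.c, ok.sa, ok.sb, ok.sc] at h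
      refine le_trans ?_ (chk_spec ok.c1 (mul_nonneg hγ ok.h0) x.r3 x.r4 x.n1 x.n2 _ _ _ iL.1 iR.1 h)
      rw [mul_assoc]
      exact mul_le_mul_of_nonneg_left ok.U hγ
    · replace h := (and_el h).1
      simp only [Bool.and_eq_true, Nat.ble_eq, Nat.add_eq] at h
      obtain ⟨⟨⟨⟨h1, h2⟩, h3⟩, h4⟩, h5⟩ := h
      obtain ⟨X, a1, a2, a3⟩ := iL.cx hτ h1 ((ang_mono h2).trans ok.a)
      obtain ⟨Z, b1, b2, b3⟩ := iR.cx hτ h3 ((ang_mono h4).trans ok.a)
      obtain ⟨w, hw, i⟩ := covK_spec a1 a2 b1 b2 _ _ h5 (by push_cast; linarith)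
      exact ok.cs w hw τ γ L R X Z hτ.le hγ x.r1 x.r2 a3 b3 i
    · replace h := (and_el h).1
      simp only [Bool.and_eq_true, Nat.ble_eq] at h
      exact ok.z h.1.1 τ γ L R hτ.le hγ x.r1 x.r2 (iR.cr hτ (Nat.zero_le _) h.1.2 h.2)
    · obtain ⟨b, _, h⟩ := rd_ex h
      obtain ⟨s, _, h⟩ := rd_ex h
      obtain ⟨y, _, h⟩ := rd_ex h
      obtain ⟨h1, h⟩ := and_el h
      simp only [Bool.and_eq_true, Nat.ble_eq, Nat.blt_eq] at h1
      cases hb : Nat.beq b 0 <;> rw [hb] at h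
      · replace h := (gN_eq _ _).symm.trans h
        replace h := (gN_eq _ _).symm.trans h
        rcases iL.cons x.n1 h1.1 h1.2 with c | c
        · exact ih _ _ _ _ _ _ _ _ h c iR
        · obtain ⟨_, h⟩ := goK_k _ _ _ _ _ _ _ _ _ _ h
          exact ih _ _ _ _ _ _ _ _ h c iR
      · replace h := (gN_eq _ _).symm.trans h
        replace h := (gN_eq _ _).symm.trans h
        rcases iR.cons x.n2 h1.1 h1.2 with c | c
        · exact ih _ _ _ _ _ _ _ _ h iL c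
        · obtain ⟨_, h⟩ := goK_k _ _ _ _ _ _ _ _ _ _ h
          exact ih _ _ _ _ _ _ _ _ h iL c

def chainK (o : Bo) (f : ℕ) : ℕ → ℕ → (ℕ → Bool) → Bool :=
  Nat.rec (fun _ _ _ => false) (fun _ ih n x k => rd 8 n fun s n => Bool.rec
    (gN (Nat.add x s) fun y => Nat.blt y 2880 &&
      goK o 64 n [⟨x, 2880, false⟩] [⟨y, 2880, true⟩, ⟨x, 2880, false⟩] x 2880 x y fun n => ih n y k)
    (goK o 64 n [⟨x, 2880, false⟩] [⟨x, 2880, false⟩] x 2880 x 2880 k) (Nat.beq s 0)) f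

theorem chainK_k (o : Bo) (f : ℕ) : ∀ n x k, chainK o f n x k = true → ∃ m, k m = true := by
  induction f with
  | zero => intro _ _ _ h; cases h
  | succ f ih =>
    intro n x k h
    obtain ⟨s, n, h⟩ := rd_ex h
    cases hb : Nat.beq s 0 <;> rw [hb] at h
    · obtain ⟨_, h⟩ := gN_ex h
      obtain ⟨_, h⟩ := goK_k _ _ _ _ _ _ _ _ _ _ (and_el h).2
      exact ih _ _ _ h
    · exact goK_k _ _ _ _ _ _ _ _ _ _ h

theorem inv_early {H : Half} {x : ℕ} (hx : x < 2880) (h : H.d (ang x) < H.d π) :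
    Inv H [⟨x, 2880, false⟩] x 2880 := by
  refine ⟨fun d hd => ?_, h, by rw [ang_pi]⟩
  rw [List.mem_singleton.1 hd]
  exact ⟨hx.le, le_rfl, by simpa [ang_pi] using h⟩

theorem inv_late {H : Half} (n : NoTie H) {x y : ℕ} (hx : x < 2880) (hy : y < 2880)
    (h : H.d (ang x) < H.d π) (h' : ¬H.d (ang y) < H.d π) :
    Inv H [⟨y, 2880, true⟩, ⟨x, 2880, false⟩] x y := by
  refine ⟨fun d hd => ?_, h, not_lt.1 h'⟩
  rcases List.mem_cons.1 hd with rfl | hd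
  · have := n y 2880 hy le_rfl
    rw [ang_pi] at this
    refine ⟨hy.le, le_rfl, ?_⟩
    simp only [if_true, ang_pi]
    omega
  · exact (inv_early hx h).1 d hd

theorem chainK_spec {o : Bo} {A B v τ γ : ℝ} (ok : o.OK A B v) (hτ : 0 < τ) (hγ : 0 ≤ γ)
    {L R : Half} (c : Ctx τ γ A B o.a o.b L R) (f : ℕ) : ∀ n x k, chainK o f n x k = true →
      x < 2880 → L.d (ang x) < L.d π → R.d (ang x) < R.d π → γ * v ≤ L.len + R.len := by
  induction f with
  | zero => intro _ _ _ h; cases h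
  | succ f ih =>
    intro n x k h hx e1 e2
    obtain ⟨s, n, h⟩ := rd_ex h
    cases hb : Nat.beq s 0 <;> rw [hb] at h
    · obtain ⟨y, h⟩ := gN_ex h
      obtain ⟨hy, h⟩ := and_el h
      rw [Nat.blt_eq] at hy
      by_cases c1 : R.d (ang y) < R.d π
      · by_cases c2 : L.d (ang y) < L.d π
        · obtain ⟨_, h⟩ := goK_k _ _ _ _ _ _ _ _ _ _ h
          exact ih _ _ _ h hy c2 c1
        · rw [add_comm]
          exact goK_spec ok hτ hγ c.swap _ _ _ _ _ _ _ _ _ h (inv_early hx e2)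
            (inv_late c.n1 hx hy e1 c2)
      · exact goK_spec ok hτ hγ c _ _ _ _ _ _ _ _ _ h (inv_early hx e1) (inv_late c.n2 hx hy e2 c1)
    · exact goK_spec ok hτ hγ c _ _ _ _ _ _ _ _ _ h (inv_early hx e1) (inv_early hx e2)

/-- The lower bound for the family of zigzags. -/
def Core (A B v : ℝ) : Prop :=
  ∀ τ γ, 0 < τ → 0 ≤ γ → ∀ L R : Half, CRows τ γ L R A B → γ * v ≤ L.len + R.len

def boxK (a0 a1 b0 b1 : ℕ) (cs : List Bnd) (z n : ℕ) (k : ℕ → Bool) : Bool :=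
  rd 36 n fun U n => rd 9 n fun f n => rd 1 n fun md n => rd 31 n fun g0 n => rd 25 n fun r n =>
  gN (Nat.add a0 b0) fun c => gN (sn a0) fun sa => gN (sn b0) fun sb => gN (sn c) fun sc =>
  gN (Nat.div (Nat.mul (Nat.sub sa 10) (Nat.sub sb 10)) (Nat.add sc 10)) fun h =>
  Nat.ble 1 a0 && Nat.ble 1 b0 && Nat.blt c 2880 && Nat.ble 4294967296 (Nat.mul 6 h) &&
  Nat.ble (Nat.mul 2 f) a0 &&
  (gN (Nat.div (Nat.mul h U) 16777216) fun V => bxK a0 a1 b0 b1 fun x => upK x f V md g0 r) &&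
  chainK ⟨a0, b0, c, sa, sb, sc, U, cs, z⟩ 64 n 0 k

theorem boxK_k {a0 a1 b0 b1 : ℕ} {cs : List Bnd} {z n : ℕ} {k : ℕ → Bool}
    (h : boxK a0 a1 b0 b1 cs z n k = true) : ∃ m, k m = true := by
  iterate 5 obtain ⟨_, _, h⟩ := rd_ex h
  iterate 5 obtain ⟨_, h⟩ := gN_ex h
  exact chainK_k _ _ _ _ _ (and_el h).2

theorem sn_sub {k : ℕ} (hk : k ≤ 2880) : ((sn k - 10 : ℕ) : ℝ) ≤ 2 ^ 32 * sin (ang k) := by
  rcases le_total 10 (sn k) with q | q
  · rw [Nat.cast_sub q]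
    have := (abs_le.1 (sn_spec hk)).2
    push_cast; linarith
  · rw [Nat.sub_eq_zero_of_le q]
    have := sin_nonneg_of_nonneg_of_le_pi (ang_nonneg k) (ang_le hk)
    push_cast; positivity

theorem boxK_spec {a0 a1 b0 b1 : ℕ} {cs : List Bnd} {z n : ℕ} {k : ℕ → Bool}
    (h : boxK a0 a1 b0 b1 cs z n k = true) {A B v : ℝ} (an : Ang A B) (h1 : ang a0 ≤ A)
    (h2 : A ≤ ang a1) (h3 : ang b0 ≤ B) (h4 : B ≤ ang b1) (lo : Low A B v)
    (hc : ∀ c ∈ cs, c.OK A B v) (hz : BOK A B v z) : Core A B v := by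
  obtain ⟨U, _, h⟩ := rd_ex h
  obtain ⟨f, _, h⟩ := rd_ex h
  iterate 3 obtain ⟨_, _, h⟩ := rd_ex h
  simp only [gN_eq, Bool.and_eq_true, Nat.ble_eq, Nat.blt_eq, Nat.add_eq, Nat.mul_eq, Nat.sub_eq] at h
  obtain ⟨⟨⟨⟨⟨⟨k1, k2⟩, k3⟩, k4⟩, k5⟩, k6⟩, h⟩ := h
  obtain ⟨a, b, E, x, e, o, k6⟩ := bxK_spec k6 h1 h2 h3 h4
  obtain ⟨u1, u2⟩ := upK_spec e o an (by rw [← ang_two]; exact (ang_mono k5).trans h1) lo k6
  set w := Nat.div ((sn a0 - 10) * (sn b0 - 10)) (sn (a0 + b0) + 10) with hw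
  have s1 := sn_sub (k := a0) (by omega)
  have s2 := sn_sub (k := b0) (by omega)
  have s3 := (abs_le.1 (sn_spec k3.le)).1
  have s4 : 0 < sin (ang (a0 + b0)) := sin_pos_of_pos_of_lt_pi (ang_pos (by omega)) (by
    have := ang_pos (x := 2880 - (a0 + b0)) (by omega)
    have e := ang_add (a0 + b0) (2880 - (a0 + b0))
    rw [Nat.add_sub_cancel' k3.le, ang_pi] at e
    linarith)
  have w1 : (w : ℝ) ≤ 2 ^ 32 * alt (ang a0) (ang b0) := by
    have i1 : ((w * (sn (a0 + b0) + 10) : ℕ) : ℝ) ≤ ((sn a0 - 10) * (sn b0 - 10) : ℕ) :=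
      Nat.cast_le.2 (Nat.div_mul_le_self _ _)
    have i2 := mul_le_mul s1 s2 (Nat.cast_nonneg _) ((Nat.cast_nonneg _).trans s1)
    have i3 := mul_le_mul_of_nonneg_left (show 2 ^ 32 * sin (ang (a0 + b0)) ≤ sn (a0 + b0) + 10 by
      linarith) (Nat.cast_nonneg (α := ℝ) w)
    push_cast [-Nat.cast_sub] at i1
    rw [alt, ← ang_add, ← mul_div_assoc, le_div_iff₀ s4]
    linarith
  have w2 : (4294967296 : ℝ) ≤ 6 * w := by exact_mod_cast k4
  have w3 : ((Nat.div (w * U) 16777216 : ℕ) : ℝ) ≤ w * U / 16777216 := by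
    have := Nat.cast_div_le (α := ℝ) (m := w * U) (n := 16777216)
    push_cast at this
    exact this
  have w4 := mul_le_mul_of_nonneg_right w1 (Nat.cast_nonneg (α := ℝ) U)
  intro τ γ hτ hγ L R cr
  obtain ⟨L', e1, e2, n1⟩ := L.refine'
  obtain ⟨R', f1, f2, n2⟩ := R.refine'
  replace cr := cr.refine e1 f1
  obtain ⟨r1, r2⟩ := cr A B an.h0 le_rfl (an.h0.trans_le an.h1) le_rfl u1
  obtain ⟨r3, r4⟩ := cr _ _ (ang_pos k1) h1 (ang_pos k2) h3 (by linarith)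
  have z0 : ∀ H : Half, NoTie H → H.d (ang 0) < H.d π := fun H n => by
    have := n 0 2880 (by norm_num) le_rfl
    have e : ang 0 = 0 := by simp [ang]
    rw [ang_pi, e, H.d0] at this
    rw [e, H.d0]
    omega
  rw [← e2, ← f2]
  exact chainK_spec (o := ⟨a0, b0, a0 + b0, _, _, _, U, cs, z⟩)
    ⟨h1, rfl, k3.le, rfl, rfl, rfl, by linarith, by linarith, hc, hz⟩ hτ hγ
    ⟨r1, r2, r3.rows hτ.le, r4.rows hτ.le, n1, n2⟩ _ _ _ _ h (by norm_num) (z0 _ n1) (z0 _ n2)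

def celsK (c : ℕ) : ℕ → (List Bnd → ℕ → Bool) → Bool :=
  Nat.rec (fun n k => k [] n) (fun _ ih n k => rd 9 n fun x0 n => rd 9 n fun x1 n =>
    rd 9 n fun z0 n => rd 9 n fun z1 n => rd 2 n fun md n => rd 2 n fun gm n => rd 31 n fun g0 n =>
    rd 25 n fun r n => rd 32 n fun t n => ih n fun l n =>
      k (⟨x0, x1, z0, z1, md, gm, g0, r, t⟩ :: l) n) c

theorem celsK_ex (c : ℕ) : ∀ n k, celsK c n k = true → ∃ l m, k l m = true := by
  induction c with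
  | zero => exact fun _ _ h => ⟨_, _, h⟩
  | succ c ih =>
    intro n k h
    iterate 9 obtain ⟨_, _, h⟩ := rd_ex h
    obtain ⟨_, _, h⟩ := ih _ _ h
    exact ⟨_, _, h⟩

def allK (f : Bnd → Bool) (l : List Bnd) : Bool := List.rec true (fun a _ ih => f a && ih) l

theorem allK_spec {f : Bnd → Bool} {l : List Bnd} (h : allK f l = true) : ∀ c ∈ l, f c = true := by
  induction l with
  | nil => simp
  | cons a l ih =>
    intro c hc
    rcases List.mem_cons.1 hc with rfl | hc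
    · exact (and_el h).1
    · exact ih (and_el h).2 c hc

def pqK (x : Bx) (n : Cn) (sg : Bool) (p a0 b1 md g0 r : ℕ) : Bool :=
  Nat.beq p 0 || Nat.ble (Nat.mul 2 p) a0 && Nat.blt (Nat.add b1 p) 1440 && dsK x n sg md g0 r

theorem pqK_spec {a b A B : ℝ} {E : Env} (q : SB a b E) {x : Bx} (o : BxOK (SB a b) x A B) {n : Cn}
    {sg : Bool} {p a0 b1 md g0 r : ℕ} (on : CnOK (SB a b) n A B (ang p)) (h1 : ang a0 ≤ A)
    (h4 : B ≤ ang b1) (h : pqK x n sg p a0 b1 md g0 r = true) : PQ A B sg p := by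
  intro hp
  simp only [pqK, Bool.or_eq_true, Bool.and_eq_true, Nat.ble_eq, Nat.blt_eq, Nat.beq_eq, Nat.add_eq,
    Nat.mul_eq] at h
  obtain ⟨⟨k1, k2⟩, k3⟩ := h.resolve_left (by omega)
  exact ⟨by rw [← ang_two]; exact (ang_mono k1).trans h1, by linarith [ang_lt k2],
    dsK_spec q o on (ang_nonneg p) k3⟩

def macK (a0 a1 b0 b1 n : ℕ) (k : List Bnd → ℕ → ℕ → Bool) : Bool :=
  rd 9 n fun p n => rd 1 n fun m1 n => rd 31 n fun g1 n => rd 25 n fun r1 n =>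
  rd 9 n fun q n => rd 1 n fun m2 n => rd 31 n fun g2 n => rd 25 n fun r2 n =>
  rd 9 n fun z n => rd 31 n fun g3 n => rd 25 n fun r3 n => rd 7 n fun c n => celsK c n fun l n =>
  (bxK a0 a1 b0 b1 fun x => cnK x p fun P => cnK x q fun Q => pqK x P false p a0 b1 m1 g1 r1 &&
    pqK x Q true q a0 b1 m2 g2 r2 && allK (celK x P Q p q a0 a1 b0 b1) l &&
    (Nat.beq z 0 || Nat.ble z a0 && Nat.blt (Nat.add b1 z) 1440 && bcK x z g3 r3)) && k l z n

theorem macK_spec {a0 a1 b0 b1 n : ℕ} {k : List Bnd → ℕ → ℕ → Bool}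
    (h : macK a0 a1 b0 b1 n k = true) : ∃ l z m, k l z m = true ∧ ∀ A B v : ℝ, Ang A B →
      ang a0 ≤ A → A ≤ ang a1 → ang b0 ≤ B → B ≤ ang b1 → Low A B v →
      (∀ c ∈ l, c.OK A B v) ∧ BOK A B v z := by
  iterate 8 obtain ⟨_, _, h⟩ := rd_ex h
  obtain ⟨z, _, h⟩ := rd_ex h
  iterate 3 obtain ⟨_, _, h⟩ := rd_ex h
  obtain ⟨l, m, h⟩ := celsK_ex _ _ _ h
  refine ⟨l, z, m, (and_el h).2, fun A B v an h1 h2 h3 h4 lo => ?_⟩
  obtain ⟨a, b, E, x, e, o, h⟩ := bxK_spec (and_el h).1 h1 h2 h3 h4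
  obtain ⟨P, oP, h⟩ := cnK_spec e o an h
  obtain ⟨Q, oQ, h⟩ := cnK_spec e o an h
  simp only [Bool.or_eq_true, Bool.and_eq_true, Nat.ble_eq, Nat.blt_eq, Nat.beq_eq, Nat.add_eq] at h
  obtain ⟨⟨⟨k1, k2⟩, k3⟩, k4⟩ := h
  refine ⟨fun c hc => celK_spec e o an oP oQ (pqK_spec e o oP h1 h4 k1) (pqK_spec e o oQ h1 h4 k2)
    h1 h2 h3 h4 lo (allK_spec k3 c hc), fun hz => ?_⟩
  obtain ⟨⟨k5, k6⟩, k7⟩ := k4.resolve_left (by omega)
  exact bcK_spec e o an ((ang_mono k5).trans h1) (by linarith [ang_lt k6]) lo k7 hz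

abbrev Sec := ℕ × ℕ × ℕ

/-- The point `(X, y)` lies strictly below the line through `(p, c)` and `(q, d)`. -/
def below (p c q d X y : ℕ) : Bool :=
  Nat.blt (Nat.add (Nat.add (Nat.mul y q) (Nat.mul p d)) (Nat.mul X c))
    (Nat.add (Nat.add (Nat.mul q c) (Nat.mul X d)) (Nat.mul y p))

/-- The point `(X, y)` lies strictly above the line through `(p, c)` and `(q, d)`. -/
def above (p c q d X y : ℕ) : Bool :=
  Nat.blt (Nat.add (Nat.add (Nat.mul q c) (Nat.mul X d)) (Nat.mul y p))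
    (Nat.add (Nat.add (Nat.mul y q) (Nat.mul p d)) (Nat.mul X c))

def outK (a0 a1 b0 b1 : ℕ) (l : List (Sec × Sec)) : Bool :=
  List.rec true (fun s _ ih => (Nat.blt a1 s.1.1 || Nat.blt s.2.1 a0 ||
    below s.1.1 s.1.2.1 s.2.1 s.2.2.1 a0 b1 && below s.1.1 s.1.2.1 s.2.1 s.2.2.1 a1 b1 ||
    above s.1.1 s.1.2.2 s.2.1 s.2.2.2 a0 b0 && above s.1.1 s.1.2.2 s.2.1 s.2.2.2 a1 b0) &&
    Nat.ble s.1.1 s.2.1 && ih) l

theorem outK_spec {a0 a1 b0 b1 : ℕ} {l : List (Sec × Sec)} (h : outK a0 a1 b0 b1 l = true)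
    {A B : ℝ} (h1 : ang a0 ≤ A) (h2 : A ≤ ang a1) (h3 : ang b0 ≤ B) (h4 : B ≤ ang b1) :
    ∀ s ∈ l, ¬InCol s.1 s.2 A B := by
  induction l with
  | nil => simp
  | cons s l ih =>
    obtain ⟨h, h'⟩ := and_el h
    intro t ht
    rcases List.mem_cons.1 ht with rfl | ht
    swap
    · exact ih h' t ht
    obtain ⟨⟨p, c, c'⟩, q, d, d'⟩ := t
    rintro ⟨u, ⟨u0, u1⟩, e, l1, l2⟩
    have hp : 0 < π / 2880 := by positivity
    unfold ang at h1 h2 h3 h4
    rw [e] at h1 h2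
    replace h1 := le_of_mul_le_mul_right h1 hp
    replace h2 := le_of_mul_le_mul_right h2 hp
    replace l1 := le_of_mul_le_mul_right (l1.trans h4) hp
    replace l2 := le_of_mul_le_mul_right (h3.trans l2) hp
    simp only [below, above, Bool.or_eq_true, Bool.and_eq_true, Nat.ble_eq, Nat.blt_eq, Nat.add_eq,
      Nat.mul_eq] at h h1 h2 l1 l2
    obtain ⟨h, pq⟩ := h
    have pq' : (0 : ℝ) ≤ q - p := sub_nonneg.2 (by exact_mod_cast pq)
    rcases h with ((h | h) | ⟨h, k⟩) | ⟨h, k⟩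
    · have : (a1 : ℝ) < p := by exact_mod_cast h
      nlinarith
    · have : (q : ℝ) < a0 := by exact_mod_cast h
      nlinarith
    · have h : (b1 : ℝ) * q + p * d + a0 * c < q * c + a0 * d + b1 * p := by exact_mod_cast h
      have k : (b1 : ℝ) * q + p * d + a1 * c < q * c + a1 * d + b1 * p := by exact_mod_cast k
      have := mul_le_mul_of_nonneg_right l1 pq'
      rcases le_total (c : ℝ) d with w | w
      · nlinarith [mul_le_mul_of_nonneg_right h1 (sub_nonneg.2 w)]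
      · nlinarith [mul_le_mul_of_nonneg_right h2 (sub_nonneg.2 w)]
    · have h : (q : ℝ) * c' + a0 * d' + b0 * p < b0 * q + p * d' + a0 * c' := by exact_mod_cast h
      have k : (q : ℝ) * c' + a1 * d' + b0 * p < b0 * q + p * d' + a1 * c' := by exact_mod_cast k
      have := mul_le_mul_of_nonneg_right l2 pq'
      rcases le_total (c' : ℝ) d' with w | w
      · nlinarith [mul_le_mul_of_nonneg_right h2 (sub_nonneg.2 w)]
      · nlinarith [mul_le_mul_of_nonneg_right h1 (sub_nonneg.2 w)]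

def kdK (l : List (Sec × Sec)) (f : ℕ) :
    ℕ → ℕ → ℕ → ℕ → List Bnd → ℕ → ℕ → (ℕ → Bool) → Bool :=
  Nat.rec (fun _ _ _ _ _ _ _ _ => false) (fun _ ih a0 a1 b0 b1 cs z n k => rd 3 n fun t n =>
    Nat.rec (rd 12 n fun m n => ih a0 m b0 b1 cs z n fun n => ih m a1 b0 b1 cs z n k)
      (fun t _ => Nat.rec (rd 12 n fun m n => ih a0 a1 b0 m cs z n fun n => ih a0 a1 m b1 cs z n k)
        (fun t _ => Nat.rec ((Nat.blt b1 a0 || Nat.blt 2880 (Nat.add a0 (Nat.mul 2 b0)) ||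
            outK a0 a1 b0 b1 l) && k n)
          (fun t _ => Nat.rec (macK a0 a1 b0 b1 n fun cs z n => ih a0 a1 b0 b1 cs z n k)
            (fun _ _ => boxK a0 a1 b0 b1 cs z n k) t) t) t) t) f

theorem kdK_k (l : List (Sec × Sec)) (f : ℕ) : ∀ a0 a1 b0 b1 cs z n k,
    kdK l f a0 a1 b0 b1 cs z n k = true → ∃ m, k m = true := by
  induction f with
  | zero => intro _ _ _ _ _ _ _ _ h; cases h
  | succ f ih =>
    intro a0 a1 b0 b1 cs z n k h
    obtain ⟨t, n, h⟩ := rd_ex h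
    rcases t with _ | _ | _ | _ | t
    · obtain ⟨_, _, h⟩ := rd_ex h
      obtain ⟨_, h⟩ := ih _ _ _ _ _ _ _ _ h
      exact ih _ _ _ _ _ _ _ _ h
    · obtain ⟨_, _, h⟩ := rd_ex h
      obtain ⟨_, h⟩ := ih _ _ _ _ _ _ _ _ h
      exact ih _ _ _ _ _ _ _ _ h
    · exact ⟨_, (and_el h).2⟩
    · obtain ⟨_, _, _, h, -⟩ := macK_spec h
      exact ih _ _ _ _ _ _ _ _ h
    · exact boxK_k h

theorem kdK_spec {l : List (Sec × Sec)} {A B v : ℝ} (an : Ang A B) (lo : Low A B v)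
    (hl : ∃ s ∈ l, InCol s.1 s.2 A B) (f : ℕ) : ∀ a0 a1 b0 b1 cs z n k,
      kdK l f a0 a1 b0 b1 cs z n k = true → ang a0 ≤ A → A ≤ ang a1 → ang b0 ≤ B → B ≤ ang b1 →
      (∀ c ∈ cs, c.OK A B v) → BOK A B v z → Core A B v := by
  induction f with
  | zero => intro _ _ _ _ _ _ _ _ h; cases h
  | succ f ih =>
    intro a0 a1 b0 b1 cs z n k h h1 h2 h3 h4 hc hz
    obtain ⟨t, n, h⟩ := rd_ex h
    rcases t with _ | _ | _ | _ | t
    · obtain ⟨m, _, h⟩ := rd_ex h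
      rcases le_total A (ang m) with c | c
      · exact ih _ _ _ _ _ _ _ _ h h1 c h3 h4 hc hz
      · obtain ⟨_, h⟩ := kdK_k _ _ _ _ _ _ _ _ _ _ h
        exact ih _ _ _ _ _ _ _ _ h c h2 h3 h4 hc hz
    · obtain ⟨m, _, h⟩ := rd_ex h
      rcases le_total B (ang m) with c | c
      · exact ih _ _ _ _ _ _ _ _ h h1 h2 h3 c hc hz
      · obtain ⟨_, h⟩ := kdK_k _ _ _ _ _ _ _ _ _ _ h
        exact ih _ _ _ _ _ _ _ _ h h1 h2 c h4 hc hz
    · exfalso
      replace h := (and_el h).1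
      simp only [Bool.or_eq_true, Nat.blt_eq, Nat.add_eq, Nat.mul_eq] at h
      rcases h with (h | h) | h
      · have := ang_pos (x := a0 - b1) (by omega)
        have e := ang_add b1 (a0 - b1)
        rw [Nat.add_sub_cancel' h.le] at e
        linarith [an.h1]
      · have := ang_pos (x := a0 + 2 * b0 - 2880) (by omega)
        have e := ang_add 2880 (a0 + 2 * b0 - 2880)
        rw [Nat.add_sub_cancel' h.le, ang_add, ang_two, ang_pi] at e
        linarith [an.h2]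
      · obtain ⟨s, hs, hs'⟩ := hl
        exact outK_spec h h1 h2 h3 h4 s hs hs'
    · obtain ⟨_, _, _, h, h'⟩ := macK_spec h
      obtain ⟨c1, c2⟩ := h' A B v an h1 h2 h3 h4 lo
      exact ih _ _ _ _ _ _ _ _ h h1 h2 h3 h4 c1 c2
    · exact boxK_spec h an h1 h2 h3 h4 lo hc hz

/-- The part of the region in a rectangle has been checked. -/
def Cov (l : List (Sec × Sec)) (a0 a1 b0 b1 : ℕ) : Prop :=
  ∀ A B v, Ang A B → Low A B v → (∃ s ∈ l, InCol s.1 s.2 A B) → ang a0 ≤ A → A ≤ ang a1 →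
    ang b0 ≤ B → B ≤ ang b1 → Core A B v

def topK (l : List (Sec × Sec)) (a0 a1 b0 b1 n : ℕ) : Bool :=
  kdK l 64 a0 a1 b0 b1 [] 0 n fun _ => true

theorem Cov.of {l : List (Sec × Sec)} {a0 a1 b0 b1 n : ℕ} (h : topK l a0 a1 b0 b1 n = true) :
    Cov l a0 a1 b0 b1 := fun _ _ _ an lo hl h1 h2 h3 h4 =>
  kdK_spec an lo hl _ _ _ _ _ _ _ _ _ h h1 h2 h3 h4 (by simp) fun h => absurd h (by simp)

theorem Cov.sa {l : List (Sec × Sec)} {a0 m a1 b0 b1 : ℕ} (h : Cov l a0 m b0 b1)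
    (h' : Cov l m a1 b0 b1) : Cov l a0 a1 b0 b1 := fun A B v an lo hl h1 h2 h3 h4 =>
  (le_total A (ang m)).elim (fun c => h A B v an lo hl h1 c h3 h4)
    fun c => h' A B v an lo hl c h2 h3 h4

theorem Cov.sb {l : List (Sec × Sec)} {a0 a1 b0 m b1 : ℕ} (h : Cov l a0 a1 b0 m)
    (h' : Cov l a0 a1 m b1) : Cov l a0 a1 b0 b1 := fun A B v an lo hl h1 h2 h3 h4 =>
  (le_total B (ang m)).elim (fun c => h A B v an lo hl h1 h2 h3 c)
    fun c => h' A B v an lo hl h1 h2 c h4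

end

end Pool.Agent.P.MP_d76e6a_co
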