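import Pool.Agent.P.MP_d76e6a_co.HLow
import Pool.Agent.P.MP_d76e6a_co.WChk
import Pool.Agent.P.MP_d76e6a_co.GChk

/-!
An upper bound for the value on a box from a polygon that works at the lower corner.
-/

namespace Pool.Agent.P.MP_d76e6a_co

open Real

noncomputable def setU (b : Bx) (U : T3) (a0 b0 n : ℕ) (k : ℕ → Bool) : Bool :=
  rd 5 n fun m n => rd 8 n fun c n => rd (Nat.mul 96 (Nat.succ m)) n fun P n =>
    rd (Nat.mul 32 c) n fun I n => ubK a0 b0 m c P I &&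
      (gN (Nat.mul (mass P m) 131072) fun u => nnT (wsb U (b.h.mul (cT u)))) && k n

theorem setU_spec {b : Bx} {U : T3} {a0 b0 n : ℕ} {k : ℕ → Bool} (h : setU b U a0 b0 n k = true) :
    (∃ m, k m = true) ∧ ∀ (α β A B v u : ℝ) (E : Env), SB α β E → BxOK (SB α β) b A B →
      SM (SB α β) U u → Ang A B → ang a0 ≤ A → ang b0 ≤ B → Low2 A B v → v ≤ u := by
  obtain ⟨m, _, h⟩ := rd_ex h
  obtain ⟨_, _, h⟩ := rd_ex h
  obtain ⟨P, _, h⟩ := rd_ex h
  obtain ⟨_, _, h⟩ := rd_ex h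
  simp only [Bool.and_eq_true, gN_eq] at h
  refine ⟨⟨_, h.2⟩, fun α β A B v u E e o mU a h1 h2 lo => ?_⟩
  have A0 := a.h0
  have k1 := ubK_spec h.1.1 h1 h2 A0 (A0.trans_le a.h1) (by linarith [a.h1, a.h2])
  have k2 := (mU.sub (o.h.mul (SM.cst _))).nn e h.1.2
  rw [Nat.mul_eq] at k2
  push_cast at k2
  linarith [lo.u, mul_le_mul_of_nonneg_left k1 a.alt_pos.le]

end Pool.Agent.P.MP_d76e6a_co
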