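import Pool.Agent.P.MP_d76e6a_co.HZm

/-!
The check of the certificate for the point-symmetric zigzag on a box.
-/

namespace Pool.Agent.P.MP_d76e6a_co

open Real

def ZOK (A B v : ℝ) (z : ℕ) : Prop := 1 ≤ z → ∀ τ γ (L R : Half) β y, 0 ≤ τ → 0 ≤ γ →
  RowsT τ (γ * alt A B) L R A B → RowsT τ (γ * alt A B) R L A B → L.d A ≤ L.d π → 0 ≤ β → β ≤ y →
    y ≤ ang z → y - β ≤ τ → R.d β < R.d π → R.d π ≤ R.d y → R.d (π - A + β) ≤ R.d y →
    γ * v ≤ L.len + R.len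

/-- A model `c + k (h - h0) + r xi2` without remainder. -/
def rtK (h : T3) (c k r : ℕ) (f : T3 → Bool) : Bool :=
  gT h.cen fun u => gT (PT.lin (Nat.add 2199023255552 (Nat.mul c 4096))
    (Nat.mul k 1048576) 2199023255552 2199023255552 u u u 0 0) fun t =>
  gT (PT.raw 3 (Nat.sub t.p (Nat.mul cM0 4486007441326080))
    (Nat.add (Nat.sub t.x (Nat.mul (cM1 3) 4486007441326080)) (Nat.mul (Nat.mul r 1024) (sl 30)))) f

theorem rtK_spec (E : Env) {h : T3} {c k r : ℕ} {f : T3 → Bool} (e : rtK h c k r f = true) :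
    ∃ (G : T3) (g : ℝ → ℝ), Continuous g ∧ (∀ ξ, SM (· = E.set ξ) G (g ξ)) ∧ f G = true := by
  obtain ⟨_, e⟩ := gT_ex e
  obtain ⟨t, e⟩ := gT_ex e
  rw [gT_eq] at e
  obtain ⟨g, gc, hg⟩ := PT.raw_mem 3 (Nat.sub t.p (Nat.mul cM0 4486007441326080))
    (Nat.add (Nat.sub t.x (Nat.mul (cM1 3) 4486007441326080)) (Nat.mul (Nat.mul r 1024) (sl 30)))
    E.e1 E.e2
  refine ⟨_, fun ξ => g (E.set ξ).xi, gc.comp (continuous_pi fun i => ?_),
    fun ξ => SM.of (hg (E.set ξ) rfl rfl), e⟩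
  simp only [Env.set]
  split_ifs <;> fun_prop

theorem dom_root (E : Env) {t : T3} {f : ℝ → ℝ} (hf : Continuous f)
    (m : ∀ ξ, SM (· = E.set ξ) t (f ξ)) (h : t.dom 2 = true) : ∃ ξ, f ξ = 0 := by
  have d := fun ξ => PT.dom_sound (by norm_num) (by norm_num) h (m ξ _ rfl)
  obtain ⟨ξ, -, e⟩ := intermediate_value_Icc (a := -1) (b := 1) (by norm_num) hf.continuousOn
    (show 0 ∈ Set.Icc _ _ from ⟨(d (-1)).2 (E.set_two (by simp)), (d 1).1 (E.set_two (by simp))⟩)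
  exact ⟨ξ, e⟩

def n1T (x y : T3) : Bool := gT x fun x => gT y fun y => nnT (wsb oneT ((x.mul x).add (y.mul y)))

theorem n1T_spec {S : Env → Prop} {E : Env} {s t : T3} {x y : ℝ} (hx : SM S s x)
    (hy : SM S t y) (q : S E) (h : n1T s t = true) : x ^ 2 + y ^ 2 ≤ 1 := by
  simp only [n1T, gT_eq] at h
  have := (SM.one.sub ((hx.mul hx).add (hy.mul hy))).nn q h
  linarith

noncomputable def zcK (b : Bx) (z c k r : ℕ) : Bool :=
  gT (angT (Nat.mul 2 z) (Nat.mul 2 z) 0 0 0) fun Be => scK Be fun sb cb => invK cb fun ic =>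
  gT (sb.mul ic) fun t => rtK b.h c k r fun G => gT (G.mul G) fun a =>
  gT (wsb (PT.nm 9 (b.h.mul b.h)) (a.mul (wsb (cT 5497558138880) (PT.nm 2 a)))) fun X =>
  gT (wsb (X.mul X) (PT.nm 4 ((a.mul a).mul ((wsb oneT a).mul (wsb (cT 4398046511104) a)))))
    (PT.dom 2) &&
  gT (G.mul (cT 549755813888)) fun κ => gT (b.x.add b.y) fun s => gT (κ.mul s) fun ν =>
  invK ν fun i => gT (((PT.nm 4 ν).add (PT.nm 3 i)).mul (cT 137438953472)) fun σ =>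
  gT (PT.nm 2 (wsb ν σ)) fun S => nnT (wsb S (cT 54975581389)) &&
  nnT (wsb (PT.nm 2 (b.sA.mul (κ.mul ν))) S) && nnT (wsb b.y t) &&
  gT (b.y.mul t) fun u => gT (wsb oneT u) fun M => gT (κ.mul (oneT.add u)) fun P =>
  gT (κ.mul M) fun Q => gT (P.mul cb) fun Pc => gT (Pc.mul M) fun K =>
  gT (wsb σ (Pc.mul (b.y.add t))) fun l => nnT l && nnT (wsb (Q.mul s) l) &&
  nnT (wsb ((P.mul s).add ((Q.mul cb).mul (wsb b.y t))) σ) &&
  n1T (K.add P) (wsb (P.mul b.x) σ) && n1T (K.add Q) (wsb σ (Q.mul b.x)) &&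
  nnT (wsb (PT.nm 2 (wsb oneT (b.y.mul (wsb b.x b.y))))
    ((u.mul u).mul ((PT.nm 2 (b.y.mul b.y)).add (s.mul s))))

theorem zcK_spec {a b A B v : ℝ} {E : Env} (e : SB a b E) {x : Bx} (o : BxOK (SB a b) x A B)
    (an : Ang A B) {z c k r : ℕ} (h1 : ang z ≤ A) (lo : Low2 A B v)
    (h : zcK x z c k r = true) : ZOK A B v z := by
  intro _ τ γ L R β y hτ hγ r1 r2 dA b0 b1 b2 b3 d2 d3 d4
  obtain ⟨u, hu, eβ⟩ := ang_coord (lo := 0) (by simpa [ang] using b0) (b1.trans b2)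
  obtain ⟨E, e⟩ := SC.ex e hu (show |(0 : ℝ)| ≤ 1 by simp)
  have o := o.mono (S' := SC a b u 0) fun _ h => h.1
  obtain ⟨Be, mB, h⟩ := SM.el (S := SC a b u 0) (u := β) (fun E q => SM.cast
    (SM.of (angT_mem E _ _ _ _ _))
    (by rw [eβ, q.2.1]; simp only [Nat.mul_eq, Nat.sub_zero]; push_cast; ring) E rfl) h
  clear eβ
  obtain ⟨sb, cb, msb, mcb, h⟩ := mB.scK h
  obtain ⟨-, ic, mic, h⟩ := mcb.invK e h
  obtain ⟨t, mt, h⟩ := ((msb.mul mic).cast (v := tan β) (by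
    rw [tan_eq_sin_div_cos, mul_one_div])).el h
  obtain ⟨G, g, gc, mG, h⟩ := rtK_spec E h
  rw [gT_eq, gT_eq, gT_eq] at h
  obtain ⟨hd, h⟩ := Bool.and_eq_true_iff.1 h
  obtain ⟨ξ, eg⟩ := dom_root E (f := fun ξ => (9 * (alt A B * alt A B) - g ξ * g ξ
      * (5 - 2 * (g ξ * g ξ))) ^ 2 - 4 * (g ξ * g ξ * (g ξ * g ξ) * ((1 - g ξ * g ξ) * (4 - g ξ * g ξ))))
    (by fun_prop) (fun ξ => by
      have ma := (mG ξ).mul (mG ξ)
      have mh := o.h.at (e.set E ξ)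
      have mX := ((mh.mul mh).nm (n := 9) (by norm_num)).sub (ma.mul ((SM.cst 5497558138880).sub ma.n2))
      exact ((mX.mul mX).sub ((ma.mul ma).mul ((SM.one.sub ma).mul
        ((SM.cst 4398046511104).sub ma))).n4).cast (by push_cast; ring)) hd
  have o := o.at (e.set E ξ)
  replace mG := mG ξ
  replace mcb := mcb.at (e.set E ξ)
  replace mt := mt.at (e.set E ξ)
  generalize E.set ξ = E' at *
  generalize g ξ = lam at *
  obtain ⟨κ', mκ, h⟩ := ((mG.mul (SM.cst _)).cast (v := lam / 2) (by push_cast; ring)).el h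
  obtain ⟨κ, rfl⟩ : ∃ κ, lam = 2 * κ := ⟨lam / 2, by ring⟩
  rw [mul_div_cancel_left₀ _ two_ne_zero] at mκ
  set p := cos A / sin A with hp
  set q := cos B / sin B with hq
  obtain ⟨s, ms, h⟩ := (o.x.add o.y).el h
  obtain ⟨ν, mν, h⟩ := (mκ.mul ms).el h
  obtain ⟨ν0, i, mi, h⟩ := mν.invK rfl h
  obtain ⟨σ', mσ, h⟩ := (((mν.n4.add mi.n3).mul (SM.cst _)).cast
    (v := κ * (p + q) / 2 + 3 / (8 * (κ * (p + q)))) (by push_cast; field_simp; ring)).el h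
  obtain ⟨sA, sAB, sBC⟩ := an.sins
  have hh := an.alt_pos
  have eh : alt A B * (p + q) = 1 := by
    have sB : 0 < sin B := by linarith
    have sC : 0 < sin (A + B) := by linarith
    rw [alt, hp, hq, div_mul_eq_mul_div, div_eq_one_iff_eq sC.ne', sin_add]; field_simp; ring
  have s0 : 0 < p + q := (mul_pos_iff_of_pos_left hh).1 (by linarith)
  have k0 : 0 < κ := (mul_pos_iff_of_pos_right s0).1 ν0
  have ed : κ / alt A B = κ * (p + q) := by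
    rw [div_eq_iff hh.ne']; linear_combination -κ * eh
  obtain ⟨σ, hσ⟩ : ∃ σ, σ = κ * (p + q) / 2 + 3 / (8 * (κ * (p + q))) := ⟨_, rfl⟩
  rw [← hσ] at mσ
  have σ0 : 0 < σ := by rw [hσ]; positivity
  have eσ : 8 * (κ * (p + q)) * σ = 4 * (κ * (p + q)) ^ 2 + 3 := by rw [hσ]; field_simp; ring
  have n1 : σ ^ 2 + κ ^ 2 = 1 := by
    refine mul_left_cancel₀ (show (64 * κ ^ 2 * alt A B ^ 2 : ℝ) ≠ 0 by positivity) ?_
    have e1 : 8 * κ * alt A B * σ = 4 * κ ^ 2 + 3 * alt A B ^ 2 := by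
      linear_combination alt A B ^ 2 * eσ
        + (4 * κ ^ 2 * (alt A B * (p + q) + 1) - 8 * κ * alt A B * σ) * eh
    linear_combination 1 / 9 * eg + (8 * κ * alt A B * σ + 4 * κ ^ 2 + 3 * alt A B ^ 2) * e1
  obtain ⟨S, mS, h⟩ := (mν.sub mσ).n2.el h
  simp only [Bool.and_eq_true] at h
  obtain ⟨⟨⟨j1, j2⟩, j3⟩, h⟩ := h
  obtain ⟨w, mw, h⟩ := (o.y.mul mt).el h
  obtain ⟨M, mM, h⟩ := (SM.one.sub mw).el h
  obtain ⟨P, mP, h⟩ := (mκ.mul (SM.one.add mw)).el h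
  obtain ⟨Q, mQ, h⟩ := (mκ.mul mM).el h
  obtain ⟨Pc, mPc, h⟩ := (mP.mul mcb).el h
  obtain ⟨K, mK, h⟩ := ((mPc.mul mM).cast (v := κ * cos β * (1 - (q * tan β) ^ 2)) (by ring)).el h
  obtain ⟨l, ml, h⟩ := (mσ.sub (mPc.mul (o.y.add mt))).el h
  simp only [Bool.and_eq_true] at h
  obtain ⟨⟨⟨⟨⟨j4, j5⟩, j6⟩, j7⟩, j8⟩, j9⟩ := h
  have t1 := (mS.sub (SM.cst _)).nn rfl j1
  have t2 := ((o.sA.mul (mκ.mul mν)).n2.sub mS).nn rfl j2
  have t3 := (o.y.sub mt).nn rfl j3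
  have t4 := ml.nn rfl j4
  have t5 := ((mQ.mul ms).sub ml).nn rfl j5
  have t6 := (((mP.mul ms).add ((mQ.mul mcb).mul (o.y.sub mt))).sub mσ).nn rfl j6
  have t7 := n1T_spec (mK.add mP) ((mP.mul o.x).sub mσ) rfl j7
  have t8 := n1T_spec (mK.add mQ) (mσ.sub (mQ.mul o.x)) rfl j8
  have t9 := ((SM.one.sub (o.y.mul (o.x.sub o.y))).n2.sub
    ((mw.mul mw).mul ((o.y.mul o.y).n2.add (ms.mul ms)))).nn rfl j9
  push_cast at t1
  have n2 : (2 * (κ * (p + q)) - 2 * σ) ^ 2 + 4 * κ ^ 2 = 1 := by linear_combination 4 * n1 - eσ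
  refine le_trans (mul_le_mul_of_nonneg_left (z_star an lo k0.le σ0 n1 n2 (by rw [ed])
    (by linarith) (by linarith)) hγ) (z_cert r1 r2 hτ an dA b0 b1 (b2.trans h1) b3 d2 d3 d4 hp hq
      rfl rfl k0.le n1.le n2.le rfl ?_ (by linarith) (by linarith) (by linarith) (by linarith) t7 t8
      (by linarith))
  have : 0 ≤ κ * (p + q) * (1 - q * tan β) := by linarith
  linarith [nonneg_of_mul_nonneg_right this ν0]

end Pool.Agent.P.MP_d76e6a_co
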