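import Pool.Agent.P.MP_d76e6a_co.HLow

/-!
The certificate for the point-symmetric zigzag.
-/

namespace Pool.Agent.P.MP_d76e6a_co

open Real

/-- Three masses in a known order, followed by two masses in any order. -/
theorem Half.chain5 (H : Half) {t0 t1 t2 t3 t4 : ℝ} (o0 : H.d t0 ≤ H.d t1) (o1 : H.d t1 ≤ H.d t2)
    (o2 : H.d t2 ≤ H.d t3) (o3 : H.d t2 ≤ H.d t4) {x0 x1 x2 x3 x4 y0 y1 y2 y3 y4 : ℝ}
    (n0 : (x0 + x1 + x2 + x3 + x4) ^ 2 + (y0 + y1 + y2 + y3 + y4) ^ 2 ≤ 1)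
    (n1 : (x1 + x2 + x3 + x4) ^ 2 + (y1 + y2 + y3 + y4) ^ 2 ≤ 1)
    (n2 : (x2 + x3 + x4) ^ 2 + (y2 + y3 + y4) ^ 2 ≤ 1) (n3 : (x3 + x4) ^ 2 + (y3 + y4) ^ 2 ≤ 1)
    (n4 : x3 ^ 2 + y3 ^ 2 ≤ 1) (n5 : x4 ^ 2 + y4 ^ 2 ≤ 1) :
    (H.X (H.d t0) * x0 + H.Y (H.d t0) * y0) + (H.X (H.d t1) * x1 + H.Y (H.d t1) * y1)
      + (H.X (H.d t2) * x2 + H.Y (H.d t2) * y2) + (H.X (H.d t3) * x3 + H.Y (H.d t3) * y3)
      + (H.X (H.d t4) * x4 + H.Y (H.d t4) * y4) ≤ H.len := by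
  have := H.sum_le Finset.univ ![H.d t0, H.d t1, H.d t2, H.d t3, H.d t4]
    (fun k => by fin_cases k <;> exact H.hd _) ![x0, x1, x2, x3, x4] ![y0, y1, y2, y3, y4]
    (fun j => ?_)
  · simp only [Fin.sum_univ_five, Matrix.cons_val] at this
    linarith
  simp only [Fin.sum_univ_five, Matrix.cons_val]
  split_ifs
  all_goals first
    | (exfalso; omega)
    | simpa using n0
    | simpa using n1
    | simpa using n2
    | simpa using n3
    | simpa using n4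
    | simpa using n5

theorem rot_le {x y a b c s : ℝ} (h : s ^ 2 + c ^ 2 = 1) (hx : x = a * c + b * s)
    (hy : y = b * c - a * s) (n : a ^ 2 + b ^ 2 ≤ 1) : x ^ 2 + y ^ 2 ≤ 1 := by
  rw [hx, hy]; linear_combination n + (a ^ 2 + b ^ 2) * h

theorem z_alg {κ S p q t c : ℝ} (c0 : 0 ≤ c) (e : c ^ 2 * (1 + t ^ 2) = 1) (t0 : 0 ≤ t)
    (q0 : 0 ≤ q) (p0 : 0 ≤ p) (n : S ^ 2 + 4 * κ ^ 2 ≤ 1)
    (h : 2 * (q * (p - q)) + t ^ 2 * q ^ 2 * (2 * q ^ 2 + (p + q) ^ 2) ≤ 2) :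
    (κ * c * (1 - (q * t) ^ 2) * c + (κ * (p + q) * (q * t) - S / 2) * (t * c)
      + κ * c * (1 - (q * t) ^ 2)) ^ 2 + ((κ * (p + q) * (q * t) - S / 2) * c
      - κ * c * (1 - (q * t) ^ 2) * (t * c) - (S / 2 + κ * (p + q) * (q * t))) ^ 2 ≤ 1 := by
  have c1 : c ≤ 1 := by nlinarith [mul_nonneg (sq_nonneg c) (sq_nonneg t)]
  set u := (q * t) ^ 2 with hu
  set D := (p + q) * (q * t) with hD
  have D0 : 0 ≤ D := by positivity
  have a1 : (c * (1 - u)) ^ 2 * (1 + c) ≤ (c * (1 - u)) ^ 2 * 2 :=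
    mul_le_mul_of_nonneg_left (by linarith) (sq_nonneg _)
  have a2 : 0 ≤ c ^ 2 * t * D * u := by positivity
  have a3 : D ^ 2 * (1 - c) ≤ D ^ 2 * (t ^ 2 * c ^ 2) :=
    mul_le_mul_of_nonneg_left (by nlinarith) (sq_nonneg _)
  have a4 := mul_le_mul_of_nonneg_left h (show 0 ≤ c ^ 2 * t ^ 2 by positivity)
  have a5 : (c * (1 - u)) ^ 2 * (1 + c) + 2 * (c * (1 - u)) * (t * c) * D + D ^ 2 * (1 - c) ≤ 2 := by
    have : (c * (1 - u)) ^ 2 * 2 + 2 * c ^ 2 * t * D + D ^ 2 * (t ^ 2 * c ^ 2) = 2 * c ^ 2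
        + c ^ 2 * t ^ 2 * (2 * (q * (p - q)) + t ^ 2 * q ^ 2 * (2 * q ^ 2 + (p + q) ^ 2)) := by
      rw [hu, hD]; ring
    linarith
  have a6 := mul_le_mul_of_nonneg_left a5 (show 0 ≤ 2 * κ ^ 2 by positivity)
  have a7 : 0 ≤ S ^ 2 * (1 - c) := mul_nonneg (sq_nonneg _) (by linarith)
  rw [mul_assoc κ (p + q), ← hD]
  linear_combination n + a6 + 1 / 2 * a7
    + ((κ * c * (1 - u)) ^ 2 + (κ * D - S / 2) ^ 2) * e

theorem z_cert {τ γ A B β y : ℝ} {L R : Half} (r1 : RowsT τ (γ * alt A B) L R A B)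
    (r2 : RowsT τ (γ * alt A B) R L A B) (hτ : 0 ≤ τ) (a : Ang A B)
    (dA : L.d A ≤ L.d π) (b0 : 0 ≤ β) (b1 : β ≤ y) (b2 : y ≤ A) (b3 : y - β ≤ τ)
    (d2 : R.d β < R.d π) (d3 : R.d π ≤ R.d y) (d4 : R.d (π - A + β) ≤ R.d y)
    {κ σ S p q t c : ℝ} (hp : p = cos A / sin A) (hq : q = cos B / sin B) (ht : t = tan β)
    (hc : c = cos β) (k0 : 0 ≤ κ) (n1 : σ ^ 2 + κ ^ 2 ≤ 1) (n2 : S ^ 2 + 4 * κ ^ 2 ≤ 1)
    (eS : S = 2 * (κ * (p + q)) - 2 * σ) (w0 : q * t ≤ 1) (tq : t ≤ q)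
    (l0 : κ * c * (1 + q * t) * (q + t) ≤ σ)
    (e0 : σ - κ * c * (1 + q * t) * (q + t) ≤ κ * (p + q) * (1 - q * t))
    (p0 : σ - κ * c * (1 - q * t) * (q - t) ≤ κ * (p + q) * (1 + q * t))
    (c1 : (κ * c * (1 - (q * t) ^ 2) + κ * (1 + q * t)) ^ 2 + (κ * (1 + q * t) * p - σ) ^ 2 ≤ 1)
    (c2 : (κ * c * (1 - (q * t) ^ 2) + κ * (1 - q * t)) ^ 2 + (σ - κ * (1 - q * t) * p) ^ 2 ≤ 1)
    (c3 : 2 * (q * (p - q)) + t ^ 2 * q ^ 2 * (2 * q ^ 2 + (p + q) ^ 2) ≤ 2) :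
    γ * (2 * κ) ≤ L.len + R.len := by
  obtain ⟨sA, sAB, sBC⟩ := a.sins
  have A0 := a.h0
  have A1 := a.h1
  have A2 := a.h2
  have hpi := pi_pos
  have sB : 0 < sin B := by linarith
  have sC : 0 < sin (A + B) := by linarith
  have c0 : 0 < c := hc ▸ cos_pos_of_mem_Ioo ⟨by linarith, by linarith⟩
  have t0 : 0 ≤ t := ht ▸ tan_nonneg_of_nonneg_of_le_pi_div_two b0 (by linarith)
  have es : sin β = t * c := by rw [ht, hc]; exact (tan_mul_cos (hc ▸ c0).ne').symm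
  have e1 : (t * c) ^ 2 + c ^ 2 = 1 := by rw [← es, hc]; exact sin_sq_add_cos_sq β
  have q0 : 0 ≤ q := t0.trans tq
  have pp : 0 ≤ p := hp ▸ div_nonneg (cos_nonneg_of_mem_Icc ⟨by linarith, by linarith⟩) sA.le
  have ex : cos A = p * sin A := by rw [hp]; field_simp
  have ey : cos B = q * sin B := by rw [hq]; field_simp
  have eC : sin (A + B) = (p + q) * (sin A * sin B) := by rw [sin_add, ex, ey]; ring
  have S0 : 0 < p + q := (mul_pos_iff_of_pos_right (mul_pos sA sB)).1 (eC ▸ sC)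
  have eh : alt A B * (p + q) = 1 := by rw [alt, eC]; field_simp
  have qt := mul_nonneg q0 t0
  have w1 : 0 ≤ 1 - q * t := by linarith
  have j1 : 0 ≤ κ * c * (1 + q * t) * (q + t) := by positivity
  have j2 : 0 ≤ κ * c * (1 - q * t) * (q - t) := by have := sub_nonneg.2 tq; positivity
  have j3 : κ * c * (1 - q * t) * (q - t) ≤ κ * c * (1 + q * t) * (q + t) := by
    have := sub_nonneg.2 tq
    gcongr <;> linarith
  have k1 : 0 ≤ κ * c * (1 - (q * t) ^ 2) := by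
    rw [show 1 - (q * t) ^ 2 = (1 - q * t) * (1 + q * t) by ring]; positivity
  have k2 : κ * c * (1 - (q * t) ^ 2) ≤ κ := by
    have : c ≤ 1 := hc ▸ cos_le_one β
    nlinarith [mul_nonneg (mul_nonneg k0 c0.le) (sq_nonneg (q * t)), mul_nonneg k0 (sub_nonneg.2 this)]
  have n1' : κ ^ 2 + σ ^ 2 ≤ 1 := by linarith
  set l := σ - κ * c * (1 + q * t) * (q + t) with hl
  set pL := σ - κ * c * (1 - q * t) * (q - t) with hL
  have w := rows4 r1 r2 hτ a (α := 0) (yL := 0) le_rfl le_rfl A0.le (by linarith) b0 b1 b2 b3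
    (np := κ * (p + q) * (1 + q * t)) (nm := 0) (ea := 0) (la := 0)
    (eb := κ * (p + q) * (1 - q * t) - l) (lb := l) (να := 0) (νβ := κ * (1 - q * t) / sin B)
    (pL := pL) (pR := κ * (p + q) * (1 + q * t) - pL) (by positivity) le_rfl le_rfl le_rfl
    (by linarith) (by linarith) (by linarith) (by linarith) (by ring) (by ring)
    (by rw [eC]; field_simp; ring)
  have f0 : alt A B * (κ * (p + q) * (1 + q * t)) = κ * (1 + q * t) := by
    linear_combination κ * (1 + q * t) * eh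
  have f1 : κ * (1 - q * t) / sin B * sin (B + β) = κ * c * (1 - (q * t) ^ 2) := by
    rw [sin_add, ey, es, ← hc]; field_simp; ring
  have f2 : κ * (1 - q * t) / sin B * cos (B + β) = σ - pL := by
    rw [cos_add, ey, es, ← hc, hL]; field_simp; ring
  have f3 : κ * (1 - q * t) / sin B * (sin B / sin A) * sin (A - β)
      = κ * (1 - q * t) * (c - p * (t * c)) := by
    rw [sin_sub, ex, es, ← hc]; field_simp
  have f4 : κ * (1 - q * t) / sin B * (sin B / sin A) * cos (A - β)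
      = κ * (1 - q * t) * (p * c + t * c) := by
    rw [cos_sub, ex, es, ← hc]; field_simp
  simp only [part, f0, f1, f2, f3, f4, ← hp, ← hq, es, ← hc, mul_zero, zero_mul, add_zero, sub_zero,
    zero_add] at w
  have o1 := L.qc A (π - B - β) π A0.le (by linarith) (by linarith) le_rfl
  have u1 := L.chain5 (t0 := A) le_rfl le_rfl (t3 := π - B - β) (by omega) dA
    (x0 := κ * (1 + q * t)) (y0 := κ * (1 + q * t) * p) (x1 := 0) (y1 := 0) (x2 := 0) (y2 := 0)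
    (x3 := κ * c * (1 - (q * t) ^ 2)) (y3 := -(σ - pL)) (x4 := 0) (y4 := -pL)
    (by linear_combination c1) (box_le n1' (by linarith) (by linarith) (by linarith) (by linarith))
    (box_le n1' (by linarith) (by linarith) (by linarith) (by linarith))
    (box_le n1' (by linarith) (by linarith) (by linarith) (by linarith))
    (box_le n1' (by linarith) (by linarith) (by linarith) (by linarith))
    (box_le n1' (by linarith) (by linarith) (by linarith) (by linarith))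
  have o2 := R.qc y (π - A + β) π (by linarith) (by linarith) (by linarith) le_rfl
  have o3 := R.qc y B (π - A + β) (by linarith) (by linarith) (by linarith) (by linarith)
  have u2 := R.chain5 d2.le (t2 := π - A + β) (by omega) (t3 := B) (by omega) d4
    (x0 := (κ * (p + q) * (1 - q * t) - l) * (t * c)) (y0 := (κ * (p + q) * (1 - q * t) - l) * c)
    (x1 := 0) (y1 := -(κ * (p + q) * (1 + q * t) - pL))
    (x2 := κ * (1 - q * t) * (c - p * (t * c))) (y2 := -(κ * (1 - q * t) * (p * c + t * c)))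
    (x3 := κ * (1 + q * t)) (y3 := κ * (1 + q * t) * q) (x4 := l * (t * c)) (y4 := l * c)
    (le_of_eq_of_le (by rw [hL]; ring) c1)
    (le_of_eq_of_le ?_ (z_alg c0.le (by linarith) t0 q0 pp n2 c3))
    (rot_le e1 ?_ ?_ c2)
    (rot_le e1 ?_ ?_ (box_le n1' k1 k2 (y := σ) (by linarith) le_rfl))
    (rot_le e1 ?_ ?_ (box_le n1' k1 k2 (y := σ - l) (by linarith) (by linarith)))
    (rot_le e1 (a := 0) (b := l) (by ring) (by ring)
      (box_le n1' le_rfl k0 (by linarith) (by linarith)))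
  · have : γ * (2 * κ) = γ * alt A B * (κ * (p + q) * (1 + q * t) + κ * (p + q) * (1 - q * t)) := by
      linear_combination -2 * γ * κ * eh
    linarith
  · congr 2
    · rw [hl, eS]; linear_combination -κ * (1 + q * t) * e1
    · rw [hl, hL, eS]; linear_combination -κ * (1 + q * t) * q * e1
  · rw [hl]; linear_combination -κ * (1 + q * t) * e1
  · rw [hl]; linear_combination -κ * (1 + q * t) * q * e1
  · rw [hl]; linear_combination -κ * (1 + q * t) * e1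
  · rw [hl]; linear_combination -κ * (1 + q * t) * q * e1
  · rw [hl]; linear_combination -κ * (1 + q * t) * e1
  · rw [hl]; linear_combination -κ * (1 + q * t) * q * e1

/-- The optimal member of the family. -/
theorem z_star {A B v κ σ S : ℝ} (a : Ang A B) (lo : Low2 A B v) (k0 : 0 ≤ κ) (s0 : 0 < σ)
    (n1 : σ ^ 2 + κ ^ 2 = 1) (n2 : S ^ 2 + 4 * κ ^ 2 = 1) (eS : S = 2 * (κ / alt A B) - 2 * σ)
    (S0 : 1 / 20 ≤ S) (h : S ≤ sin A * κ * (S + 2 * σ)) : v ≤ 2 * κ := by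
  have hh := a.alt_pos
  have k1 : 2 * κ ≤ 1 := by nlinarith
  have c1 : cos (arccos κ) = κ := cos_arccos (by linarith) (by linarith)
  have c2 : cos (arccos (2 * κ)) = 2 * κ := cos_arccos (by linarith) k1
  have s1 : sin (arccos κ) = σ := by
    rw [sin_arccos, show 1 - κ ^ 2 = σ ^ 2 by linarith, sqrt_sq s0.le]
  have s2 : sin (arccos (2 * κ)) = S := by
    rw [sin_arccos, show 1 - (2 * κ) ^ 2 = S ^ 2 by linarith, sqrt_sq (by linarith)]
  have S1 : 0 < S := by linarith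
  refine (lo.z (arccos κ) (arccos (2 * κ)) ⟨?_, arccos_le_pi_div_two.2 k0, ?_,
    arccos_le_pi_div_two.2 (by linarith), ?_⟩).trans (le_of_eq ?_)
  · have := arccos_le_arccos (show κ ≤ cos (π / 3) by rw [cos_pi_div_three]; linarith)
    rw [arccos_cos (by positivity) (by linarith [pi_pos])] at this
    linarith [a.h1, a.h2]
  · exact S0.trans (s2 ▸ sin_le (arccos_nonneg _))
  · rw [cot_eq_cos_div_sin, cot_eq_cos_div_sin, c1, c2, s1, s2,
      show sin A * σ * (κ / σ + 2 * κ / S) = sin A * κ * (S + 2 * σ) / S by field_simp,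
      le_div_iff₀ S1, one_mul]
    exact h
  · rw [zV, cot_eq_cos_div_sin, cot_eq_cos_div_sin, c1, c2, s1, s2, div_eq_iff (by positivity)]
    have : 2 * κ * (1 / alt A B) = S + 2 * σ := by rw [eS]; ring
    rw [mul_add, mul_add, this]
    field_simp
    linear_combination -2 * S * n1 - σ * n2

end Pool.Agent.P.MP_d76e6a_co
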