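import Pool.Agent.P.MP_d76e6a_co.ZLeaf
import Pool.Agent.P.MP_d76e6a_co.GBad

/-!
The check that a zigzag is shorter than the convex arc.
-/

namespace Pool.Agent.P.MP_d76e6a_co

open Real

noncomputable section

/-- Some zigzag is shorter than the arc. -/
def ZW (A B : ℝ) : Prop := ∀ v, Low2 A B v → v < alt A B * vU A B

def zwK (a0 a1 b0 b1 n : ℕ) (k : ℕ → Bool) : Bool :=
  rd 25 n fun m n => rd 5 n fun r n => rd (Nat.mul 40 r) n fun D n =>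
    Nat.blt (Nat.add a1 b1) 2880 && dualK a1 b1 (Nat.succ m) r D && bxK a0 a1 b0 b1 fun x =>
      gT (x.h.mul (cT (Nat.mul m 131072))) fun U => ubK2 x U n k

theorem zwK_k {a0 a1 b0 b1 n : ℕ} {k : ℕ → Bool} (h : zwK a0 a1 b0 b1 n k = true) :
    ∃ m, k m = true := by
  iterate 3 obtain ⟨_, _, h⟩ := rd_ex h
  obtain ⟨_, h⟩ := zu_bx (and_el h).2
  obtain ⟨_, h⟩ := gT_ex h
  exact (ubK2_spec h).1

theorem zwK_spec {a0 a1 b0 b1 n : ℕ} {k : ℕ → Bool} (h : zwK a0 a1 b0 b1 n k = true) {A B : ℝ}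
    (a : Ang A B) (h1 : ang a0 ≤ A) (h2 : A ≤ ang a1) (h3 : ang b0 ≤ B) (h4 : B ≤ ang b1) :
    ZW A B := by
  obtain ⟨m, _, h⟩ := rd_ex h
  iterate 2 obtain ⟨_, _, h⟩ := rd_ex h
  obtain ⟨k, h⟩ := and_el h
  obtain ⟨k1, k2⟩ := and_el k
  have A0 := a.h0
  have B0 := A0.trans_le a.h1
  have g := dualK_spec k2 (Nat.blt_eq.mp k1) A0 B0 h2 h4
  have g0 := gval_pos A0 B0 (by linarith [a.h2])
  obtain ⟨α, β, E, x, e, o, h⟩ := bxK_spec h h1 h2 h3 h4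
  obtain ⟨U, mU, h⟩ := (o.h.mul (SM.cst _)).el h
  intro v lo
  refine ((ubK2_spec h).2 α β A B v _ E e o mU a lo).trans_lt
    (mul_lt_mul_of_pos_left ?_ a.alt_pos)
  rw [vU, lt_div_iff₀ g0, Nat.mul_eq]
  push_cast at g ⊢
  linarith

def kdW (z : List (ℕ × ℕ × ℕ)) (f : ℕ) : ℕ → ℕ → ℕ → ℕ → ℕ → (ℕ → Bool) → Bool :=
  Nat.rec (fun _ _ _ _ _ _ => false) (fun _ ih a0 a1 b0 b1 n k => rd 2 n fun t n =>
    Nat.rec (rd 12 n fun m n => ih a0 m b0 b1 n fun n => ih m a1 b0 b1 n k)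
      (fun t _ => Nat.rec (rd 12 n fun m n => ih a0 a1 b0 m n fun n => ih a0 a1 m b1 n k)
        (fun t _ => Nat.rec ((Nat.ble b1 a0 || Nat.blt 2880 (Nat.add a0 (Nat.mul 2 b0)) ||
          notZ a1 b0 b1 z) && k n) (fun _ _ => zwK a0 a1 b0 b1 n k) t) t) t) f

theorem kdW_k (z : List (ℕ × ℕ × ℕ)) (f : ℕ) :
    ∀ a0 a1 b0 b1 n k, kdW z f a0 a1 b0 b1 n k = true → ∃ m, k m = true := by
  induction f with
  | zero => intro _ _ _ _ _ _ h; cases h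
  | succ f ih =>
    intro a0 a1 b0 b1 n k h
    obtain ⟨t, n, h⟩ := rd_ex h
    rcases t with _ | _ | _ | t
    · obtain ⟨_, _, h⟩ := rd_ex h
      obtain ⟨_, h⟩ := ih _ _ _ _ _ _ h
      exact ih _ _ _ _ _ _ h
    · obtain ⟨_, _, h⟩ := rd_ex h
      obtain ⟨_, h⟩ := ih _ _ _ _ _ _ h
      exact ih _ _ _ _ _ _ h
    · exact ⟨_, (and_el h).2⟩
    · exact zwK_k h

/-- The part of the region `z` in a half-open rectangle has been checked. -/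
def CovW (z : List (ℕ × ℕ × ℕ)) (a0 a1 b0 b1 : ℕ) : Prop :=
  ∀ A B, Ang A B → InZ z A B → ang a0 ≤ A → A < ang a1 → ang b0 ≤ B → B < ang b1 → ZW A B

theorem CovW.sa {z : List (ℕ × ℕ × ℕ)} {a0 m a1 b0 b1 : ℕ} (h : CovW z a0 m b0 b1)
    (h' : CovW z m a1 b0 b1) : CovW z a0 a1 b0 b1 := fun A B a i h1 h2 h3 h4 =>
  (lt_or_ge A (ang m)).elim (fun c => h A B a i h1 c h3 h4) fun c => h' A B a i c h2 h3 h4

theorem CovW.sb {z : List (ℕ × ℕ × ℕ)} {a0 a1 b0 m b1 : ℕ} (h : CovW z a0 a1 b0 m)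
    (h' : CovW z a0 a1 m b1) : CovW z a0 a1 b0 b1 := fun A B a i h1 h2 h3 h4 =>
  (lt_or_ge B (ang m)).elim (fun c => h A B a i h1 h2 h3 c) fun c => h' A B a i h1 h2 c h4

theorem kdW_spec (z : List (ℕ × ℕ × ℕ)) (f : ℕ) :
    ∀ a0 a1 b0 b1 n k, kdW z f a0 a1 b0 b1 n k = true → CovW z a0 a1 b0 b1 := by
  induction f with
  | zero => intro _ _ _ _ _ _ h; cases h
  | succ f ih =>
    intro a0 a1 b0 b1 n k h
    obtain ⟨t, n, h⟩ := rd_ex h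
    rcases t with _ | _ | _ | t
    · obtain ⟨_, _, h⟩ := rd_ex h
      obtain ⟨_, h'⟩ := kdW_k _ _ _ _ _ _ _ _ h
      exact (ih _ _ _ _ _ _ h).sa (ih _ _ _ _ _ _ h')
    · obtain ⟨_, _, h⟩ := rd_ex h
      obtain ⟨_, h'⟩ := kdW_k _ _ _ _ _ _ _ _ h
      exact (ih _ _ _ _ _ _ h).sb (ih _ _ _ _ _ _ h')
    · intro A B a i h1 h2 h3 h4
      replace h := (and_el h).1
      simp only [Bool.or_eq_true, Nat.ble_eq, Nat.blt_eq, Nat.add_eq, Nat.mul_eq] at h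
      rcases h with (h | h) | h
      · linarith [ang_mono h, a.h1]
      · have e := ang_mono (show 2880 + 1 ≤ a0 + (b0 + b0) by omega)
        rw [ang_add, ang_add, ang_add, ang_pi] at e
        linarith [a.h2, ang_pos (x := 1) le_rfl]
      · exact (notZ_spec h h2 h3 h4 i).elim
    · exact fun A B a _ h1 h2 h3 h4 => zwK_spec h a h1 h2.le h3 h4.le

end

end Pool.Agent.P.MP_d76e6a_co
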