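import Pool.Agent.P.MP_d76e6a_co.Const
import Pool.Agent.P.MP_d76e6a_co.Fit
import Pool.Agent.P.MP_d76e6a_co.Good
import Pool.Agent.P.MP_d76e6a_co.Bad
import Pool.Agent.P.MP_d76e6a_co.Structure

/-!
The lower bound in the Zalgaller regime.
-/

namespace Pool.Agent.P.MP_d76e6a_co

open Real Filter Topology

theorem le_of_cot {x y : ℝ} (hx : x < π) (hy : 0 ≤ y) (h : cos y * sin x ≤ cos x * sin y) :
    x ≤ y := by
  by_contra c
  push Not at c
  have := sin_pos_of_pos_of_lt_pi (x := x - y) (by linarith) (by linarith)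
  rw [sin_sub] at this
  linarith

theorem le_of_cos {x y : ℝ} (hx : x ≤ π) (hy : 0 ≤ y) (h : cos y ≤ cos x) : x ≤ y := by
  by_contra c
  push Not at c
  have := cos_lt_cos_of_nonneg_of_le_pi hy hx c
  linarith

theorem exists_angle (s c : ℝ) (hs : 0 < s) (hc : 0 < c) (h : s ^ 2 + c ^ 2 = 1) :
    ∃ x, 0 < x ∧ x < π / 2 ∧ sin x = s ∧ cos x = c := by
  refine ⟨arcsin s, arcsin_pos.2 hs, arcsin_lt_pi_div_two.2 (by nlinarith),
    sin_arcsin (by linarith) (by nlinarith), ?_⟩
  rw [cos_arcsin, show 1 - s ^ 2 = c ^ 2 by linarith, sqrt_sq hc.le]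

theorem core {A B ρ : ℝ} (hρ : 0 ≤ ρ) (hA : 0 < A) (hAB : A ≤ B) (hπ : A + B < π)
    (z1 : 2 * sin A * sin B * cos psi ≤ sin psi * sin (A + B))
    (z2 : sin A * sin (2 * psi) ≤ 2 * sin (A + B) * sin (2 * psi - B)) (L R : Half)
    (hP : ∀ A' B', A ≤ A' → B ≤ B' → A' + B' ≤ π / 2 →
      Pl ρ L.h R.h A' B' ∧ Pl ρ R.h L.h A' B') : ρ * zeta ≤ L.len + R.len := by
  have hpi := pi_pos
  obtain ⟨-, c1, c2, p1, p2⟩ := phi_facts
  obtain ⟨k1, k2⟩ := cos_phi_bounds
  obtain ⟨k3, k4⟩ := sin_two_psi_bounds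
  have q1 := psi_pos
  have q2 := psi_lt
  have q3 := sin_psi_pos
  have q4 := two_psi_le
  have sA : 0 < sin A := sin_pos_of_pos_of_lt_pi hA (by linarith)
  have sB : 0 < sin B := sin_pos_of_pos_of_lt_pi (by linarith) (by linarith)
  have σ : 0 < sin (A + B) := sin_pos_of_pos_of_lt_pi (by linarith) hπ
  have hBa : B ≤ 2 * psi := by
    by_contra c
    push Not at c
    have a1 : 0 ≤ sin (B - 2 * psi) := sin_nonneg_of_nonneg_of_le_pi (by linarith) (by linarith)
    rw [← neg_sub B, sin_neg] at z2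
    nlinarith [mul_pos sA (show 0 < sin (2 * psi) by linarith), mul_nonneg σ.le a1]
  have hAψ : A ≤ psi := by
    apply le_of_cot (by linarith) q1.le
    have a1 : 0 ≤ sin (B - A) := sin_nonneg_of_nonneg_of_le_pi (by linarith) (by linarith)
    rw [sin_sub] at a1
    rw [sin_add] at z1
    refine le_of_mul_le_mul_left ?_ sB
    nlinarith [mul_nonneg q3.le a1]
  have hq : psi ≤ π / 6 := by
    apply le_of_cos (by linarith) (by linarith)
    rw [cos_pi_div_six]
    have : √3 < 1.772 := by rw [sqrt_lt' (by norm_num)]; norm_num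
    linarith [cos_psi_gt]
  have hAB2 : A + B ≤ π / 2 := by linarith
  have hgood : L.d B < L.d π → R.d B < R.d π → ρ * zeta ≤ L.len + R.len := by
    intro hL hR
    have s1 : sin A ≤ sin (A + B) :=
      sin_le_sin_of_le_of_le_pi_div_two (by linarith) hAB2 (by linarith)
    have s2 : sin B ≤ sin (A + B) :=
      sin_le_sin_of_le_of_le_pi_div_two (by linarith) hAB2 (by linarith)
    have cal : Cal (2 * psi) (π / 2 - phi) A B (sin B / sin (A + B)) (sin A / sin (A + B)) :=
      { ha := by linarith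
        hab := q4
        hb := by linarith
        hD := by linarith [gap_le]
        hcb := by rw [cos_pi_div_two_sub]; linarith
        hcos := by rw [cos_pi_div_two_sub, cos_two_psi]
        hA := hA.le
        hAB := hAB
        hAb := by linarith [psi_le]
        hBa := hBa
        wA0 := by positivity
        wA1 := (div_le_one σ).2 s2
        wB0 := by positivity
        wB1 := (div_le_one σ).2 s1
        ws := by ring
        wc := by field_simp; rw [sin_add]; ring }
    obtain ⟨hp, hq⟩ := hP A B le_rfl le_rfl hAB2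
    rw [zeta_eq]
    refine good cal ?_ ?_ σ (by field_simp) (by field_simp) L R hL hR hp hq
    · have e : sin (2 * psi) * (sin B / sin (A + B) * sin A + sin A / sin (A + B) * sin B) =
          2 * sin psi * (2 * sin A * sin B * cos psi / sin (A + B)) := by
        rw [sin_two_mul]; ring
      have e2 : 2 * sin A * sin B * cos psi / sin (A + B) ≤ sin psi := (div_le_iff₀ σ).2 z1
      rw [e, cos_two_mul, cos_sq']
      nlinarith
    · rw [← mul_div_assoc, div_le_iff₀ σ]
      linarith
  have hbad : ∀ A' B', A ≤ A' → B ≤ B' → A' + B' ≤ π / 2 →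
      (∀ L R : Half, Pl ρ L.h R.h A' B' → Pl ρ R.h L.h A' B' → L.d π ≤ L.d B' →
        ρ * (23 / 10) ≤ L.len + R.len) → ρ * zeta ≤ L.len + R.len := by
    intro A' B' h1 h2 h3 bad
    obtain ⟨hp, hq⟩ := hP A' B' h1 h2 h3
    have z := mul_le_mul_of_nonneg_left zeta_le hρ
    rcases le_or_gt (L.d π) (L.d B) with c | c
    · linarith [bad L R hp hq (L.tb (by linarith) h2 (by linarith) c)]
    rcases le_or_gt (R.d π) (R.d B) with c' | c'
    · linarith [bad R L hq hp (R.tb (by linarith) h2 (by linarith) c')]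
    exact hgood c c'
  obtain ⟨A1, a1, a2, a3, a4⟩ := exists_angle (5 / 13) (12 / 13) (by norm_num) (by norm_num)
    (by norm_num)
  rcases le_total A A1 with c | c
  · obtain ⟨B1, b1, b2, b3, b4⟩ := exists_angle (153 / 185) (104 / 185) (by norm_num)
      (by norm_num) (by norm_num)
    have e1 : A1 + B1 ≤ π / 2 := le_of_cos (by linarith) (by linarith) (by
      rw [cos_pi_div_two, cos_add, a3, a4, b3, b4]; norm_num)
    have e2 : 2 * psi ≤ B1 := le_of_cos (by linarith) b1.le (by rw [b4, cos_two_psi]; linarith)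
    have e3 : A1 ≤ B1 := le_of_cos (by linarith) b1.le (by rw [b4, a4]; norm_num)
    exact hbad A1 B1 c (by linarith) e1 fun L R hp hq h =>
      bad1 L R hρ a3 a4 b3 b4 a1.le e3 (by linarith) hp hq h
  · obtain ⟨A2, d1, d2, d3, d4⟩ := exists_angle (8 / 17) (15 / 17) (by norm_num)
      (by norm_num) (by norm_num)
    obtain ⟨B1, b1, b2, b3, b4⟩ := exists_angle (3 / 5) (4 / 5) (by norm_num)
      (by norm_num) (by norm_num)
    have e1 : A2 + B1 ≤ π / 2 := le_of_cos (by linarith) (by linarith) (by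
      rw [cos_pi_div_two, cos_add, d3, d4, b3, b4]; norm_num)
    have e2 : psi ≤ A2 := le_of_cos (by linarith) d1.le (by rw [d4]; linarith [cos_psi_gt])
    have e3 : A2 ≤ B1 := le_of_cos (by linarith) b1.le (by rw [b4, d4]; norm_num)
    have e4 : B ≤ B1 := by
      apply le_of_cot (by linarith) b1.le
      rw [b3, b4]
      have f1 : 0 ≤ sin (A - A1) := sin_nonneg_of_nonneg_of_le_pi (by linarith) (by linarith)
      rw [sin_sub, a3, a4] at f1
      rw [sin_add, cos_psi_eq] at z1
      have f2 : 4 * cos phi * (sin A * sin B) ≤ sin A * cos B + cos A * sin B :=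
        le_of_mul_le_mul_left (by linarith) q3
      have f3 := mul_pos sA sB
      refine le_of_mul_le_mul_left ?_ sA
      nlinarith [mul_nonneg f1 sB.le]
    exact hbad A2 B1 (by linarith) e4 e1 fun L R hp hq h =>
      bad2 L R hρ d3 d4 b3 b4 d1.le e3 (by linarith) hp hq h

theorem lower_of_esc {A B h : ℝ} (hA : 0 < A) (hAB : A ≤ B) (hπ : A + B < π)
    (z1 : 2 * sin A * sin B * cos psi ≤ sin psi * sin (A + B))
    (z2 : sin A * sin (2 * psi) ≤ 2 * sin (A + B) * sin (2 * psi - B)) {C : ℝ → ℂ}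
    (hC : IsPath C) (e1 : ∀ V, Esc (Bd C V) h A B) (e2 : ∀ V, Esc (Bd C V) h B A) :
    ENNReal.ofReal (zeta * h) ≤ pathLength C := by
  have hpi := pi_pos
  set L := (pathLength C).toReal with hL
  have hL0 : 0 ≤ L := ENNReal.toReal_nonneg
  have hL1 : pathLength C = ENNReal.ofReal L := (ENNReal.ofReal_toReal hC.2).symm
  rw [hL1]
  apply ENNReal.ofReal_le_ofReal
  have key : ∀ M : ℕ, 2 ≤ M → (h - 3 * (L * (π / M))) * zeta ≤ L := by
    intro M hM
    rcases le_total 0 (h - 3 * (L * (π / M))) with c | c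
    · obtain ⟨ω, V, H1, H2, hl, hb⟩ := exists_halves C hC.1 L hL0 hL1.le M hM
      refine le_trans (core c hA hAB hπ z1 z2 H1 H2 fun A' B' h1 h2 h3 => ?_) hl
      exact pl_pair ((e1 V).mono hA (by linarith) h1 h2 (by linarith))
        ((e2 V).mono (by linarith) hA h2 h1 (by linarith)) (by linarith) (by linarith) h3
        (by positivity) hb
    · nlinarith [zeta_pos]
  have lim : Tendsto (fun M : ℕ => (h - 3 * (L * (π / M))) * zeta) atTop
      (𝓝 ((h - 3 * (L * 0)) * zeta)) :=
    (((tendsto_const_div_atTop_nhds_zero_nat π).const_mul L).const_mul 3 |>.const_sub h).mul_const _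
  have := le_of_tendsto lim (eventually_atTop.2 ⟨2, key⟩)
  linarith

end Pool.Agent.P.MP_d76e6a_co
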