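import Mathlib

/-!
Fixed point values of the sine and cosine of multiples of `π / 2880`, scale `2 ^ 32`.
-/

namespace Pool.Agent.P.MP_d76e6a_co

open Real

/-- Evaluate a natural number before passing it on. -/
def forceN {α : Type} (n : ℕ) (f : ℕ → α) : α :=
  match n with
  | 0 => f 0
  | k + 1 => f (Nat.succ k)

/-- Evaluate an integer before passing it on. -/
def forceZ {α : Type} (z : ℤ) (f : ℤ → α) : α :=
  match z with
  | Int.ofNat n => forceN n fun m => f (Int.ofNat m)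
  | Int.negSucc n => forceN n fun m => f (Int.negSucc m)

@[simp] theorem forceN_eq {α : Type} (n : ℕ) (f : ℕ → α) : forceN n f = f n := by
  cases n <;> rfl

@[simp] theorem forceZ_eq {α : Type} (z : ℤ) (f : ℤ → α) : forceZ z f = f z := by
  cases z <;> simp [forceZ]

/-- The angle with index `k`. -/
noncomputable def ang (k : ℕ) : ℝ := k * (π / 2880)

/-- Sine of an angle of the first quadrant. -/
def snQ (k : ℕ) : ℕ :=
  forceN (Nat.div (Nat.mul k 3454217652357) 2880) fun x =>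
  forceN (Nat.mul x x) fun y =>
  forceN (Nat.mul y y) fun z =>
  Nat.div (Nat.sub
    (Nat.mul x (Nat.add (Nat.shiftLeft 6227020800 480) (Nat.mul z (Nat.add (Nat.shiftLeft 51891840 320)
      (Nat.mul z (Nat.add (Nat.shiftLeft 17160 160) z))))))
    (Nat.mul (Nat.mul x y) (Nat.add (Nat.shiftLeft 1037836800 400) (Nat.mul z
      (Nat.add (Nat.shiftLeft 1235520 240) (Nat.mul z (Nat.shiftLeft 156 80)))))))
    (Nat.shiftLeft 6227020800 488)

theorem sin_taylor {x : ℝ} (h0 : 0 ≤ x) (h1 : x ≤ 8 / 5) :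
    |sin x - (x - x ^ 3 / 6 + x ^ 5 / 120 - x ^ 7 / 5040 + x ^ 9 / 362880 - x ^ 11 / 39916800
      + x ^ 13 / 6227020800)| ≤ 2 / 10 ^ 9 := by
  have nx : ‖(x : ℂ) * Complex.I‖ = x := by simp [abs_of_nonneg h0]
  have b := Complex.exp_bound' (x := x * Complex.I) (n := 15) (by rw [nx]; push_cast; linarith)
  have i := (Complex.abs_im_le_norm _).trans b
  rw [Complex.sub_im, Complex.exp_ofReal_mul_I_im, nx] at i
  have e : (∑ m ∈ Finset.range 15, ((x : ℂ) * Complex.I) ^ m / (m.factorial : ℂ)).im =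
      x - x ^ 3 / 6 + x ^ 5 / 120 - x ^ 7 / 5040 + x ^ 9 / 362880 - x ^ 11 / 39916800
      + x ^ 13 / 6227020800 := by
    simp only [Finset.sum_range_succ, Finset.sum_range_zero, Complex.add_im, Complex.div_natCast_im,
      Nat.factorial]
    simp only [pow_succ, pow_zero, Complex.mul_im, Complex.mul_re, Complex.ofReal_re,
      Complex.ofReal_im, Complex.I_re, Complex.I_im, Complex.one_re, Complex.one_im, Complex.zero_im]
    norm_num
    ring
  rw [e] at i
  refine i.trans ?_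
  have : x ^ 15 ≤ (8 / 5) ^ 15 := pow_le_pow_left₀ h0 h1 15
  norm_num [Nat.factorial] at this ⊢
  linarith

theorem snQ_spec {k : ℕ} (hk : k ≤ 1440) : |(snQ k : ℝ) - 2 ^ 32 * sin (ang k)| ≤ 10 := by
  have p1 := pi_gt_d20
  have p2 := pi_lt_d20
  set X : ℕ := k * 3454217652357 / 2880 with hX
  have hk' : (k : ℝ) ≤ 1440 := by exact_mod_cast hk
  have k0 : (0 : ℝ) ≤ k := Nat.cast_nonneg k
  have x1 : (X : ℝ) ≤ k * 3454217652357 / 2880 := by
    have := Nat.cast_div_le (α := ℝ) (m := k * 3454217652357) (n := 2880)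
    push_cast at this
    exact this
  have x2 : (k : ℝ) * 3454217652357 / 2880 < X + 1 := by
    have : k * 3454217652357 < (X + 1) * 2880 := by omega
    rw [div_lt_iff₀ (by norm_num)]
    exact_mod_cast this
  set x : ℝ := X / 2 ^ 40 with hx
  have hXx : (X : ℝ) = 2 ^ 40 * x := by rw [hx]; field_simp
  have x0 : 0 ≤ x := by positivity
  have x3 : x ≤ 8 / 5 := by rw [hx, div_le_iff₀ (by positivity)]; nlinarith
  have dx : |x - ang k| ≤ 2 / 2 ^ 40 := by
    rw [abs_le, ang]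
    constructor <;> nlinarith
  have t := sin_taylor x0 x3
  have l := (abs_sin_sub_sin_le x (ang k)).trans dx
  set T := x - x ^ 3 / 6 + x ^ 5 / 120 - x ^ 7 / 5040 + x ^ 9 / 362880 - x ^ 11 / 39916800
      + x ^ 13 / 6227020800 with hT
  set P : ℕ := X * (6227020800 * 2 ^ 480 + X * X * (X * X) * (51891840 * 2 ^ 320
      + X * X * (X * X) * (17160 * 2 ^ 160 + X * X * (X * X)))) with hP
  set Q : ℕ := X * (X * X) * (1037836800 * 2 ^ 400 + X * X * (X * X) * (1235520 * 2 ^ 240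
      + X * X * (X * X) * (156 * 2 ^ 80))) with hQ
  have e : snQ k = (P - Q) / (6227020800 * 2 ^ 488) := by
    simp only [snQ, forceN_eq, Nat.shiftLeft_eq', Nat.shiftLeft_eq, Nat.mul_eq, Nat.add_eq,
      Nat.sub_eq]
    rfl
  have ePQ : (P : ℝ) - Q = 6227020800 * 2 ^ 488 * (2 ^ 32 * T) := by
    have q : (2 : ℝ) ^ 488 * 2 ^ 32 = (2 ^ 40) ^ 13 := by rw [← pow_add, ← pow_mul]
    have q1 : (2 : ℝ) ^ 480 = (2 ^ 40) ^ 12 := by rw [← pow_mul]
    have q2 : (2 : ℝ) ^ 320 = (2 ^ 40) ^ 8 := by rw [← pow_mul]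
    have q3 : (2 : ℝ) ^ 160 = (2 ^ 40) ^ 4 := by rw [← pow_mul]
    have q4 : (2 : ℝ) ^ 400 = (2 ^ 40) ^ 10 := by rw [← pow_mul]
    have q5 : (2 : ℝ) ^ 240 = (2 ^ 40) ^ 6 := by rw [← pow_mul]
    have q6 : (2 : ℝ) ^ 80 = (2 ^ 40) ^ 2 := by rw [← pow_mul]
    rw [show (6227020800 : ℝ) * 2 ^ 488 * (2 ^ 32 * T) = 6227020800 * (2 ^ 488 * 2 ^ 32) * T by
      generalize (2 : ℝ) ^ 488 = u; ring, q, hP, hQ, hT]
    simp only [Nat.cast_mul, Nat.cast_add, Nat.cast_pow, Nat.cast_ofNat]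
    rw [hXx, q1, q2, q3, q4, q5, q6]
    generalize (2 : ℝ) ^ 40 = u
    ring
  have s0 : 0 ≤ sin (ang k) := sin_nonneg_of_nonneg_of_le_pi (by unfold ang; positivity)
    (by unfold ang; nlinarith)
  rw [abs_le] at t l ⊢
  have D0 : (0 : ℝ) < 6227020800 * 2 ^ 488 := by positivity
  rcases le_total Q P with c | c
  · have d1 : ((snQ k : ℕ) : ℝ) ≤ 2 ^ 32 * T := by
      rw [e]
      refine (Nat.cast_div_le).trans ?_
      rw [Nat.cast_sub c, ePQ]
      push_cast
      rw [mul_div_cancel_left₀ _ D0.ne']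
    have d2 : 2 ^ 32 * T < (snQ k : ℝ) + 1 := by
      have := Nat.lt_mul_div_succ (P - Q) (b := 6227020800 * 2 ^ 488) (by positivity)
      rw [← e] at this
      have h : ((P - Q : ℕ) : ℝ) < (6227020800 * 2 ^ 488 : ℕ) * ((snQ k : ℝ) + 1) := by
        exact_mod_cast this
      rw [Nat.cast_sub c, ePQ] at h
      push_cast at h
      exact lt_of_mul_lt_mul_left h D0.le
    clear ePQ D0 e hP hQ c
    constructor <;> linarith [t.1, t.2, l.1, l.2]
  · have z : snQ k = 0 := by rw [e, Nat.sub_eq_zero_of_le c, Nat.zero_div]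
    have c' : (P : ℝ) - Q ≤ 0 := by rw [sub_nonpos]; exact_mod_cast c
    rw [ePQ] at c'
    have : 2 ^ 32 * T ≤ 0 := nonpos_of_mul_nonpos_right c' D0
    rw [z]
    clear ePQ D0 e hP hQ c c'
    constructor <;> push_cast <;> linarith [t.1, t.2, l.1, l.2]

/-- Sine of an angle of the upper half circle. -/
def sn (k : ℕ) : ℕ := cond (Nat.ble k 1440) (snQ k) (snQ (Nat.sub 2880 k))

/-- Cosine of an angle of the upper half circle. -/
def cn (k : ℕ) : ℤ :=
  cond (Nat.ble k 1440) (Int.ofNat (snQ (Nat.sub 1440 k))) (Int.neg (Int.ofNat (snQ (Nat.sub k 1440))))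

theorem sn_spec {k : ℕ} (hk : k ≤ 2880) : |(sn k : ℝ) - 2 ^ 32 * sin (ang k)| ≤ 10 := by
  unfold sn
  rcases le_or_gt k 1440 with c | c
  · rw [Nat.ble_eq_true_of_le c, cond_true]; exact snQ_spec c
  · have : Nat.ble k 1440 = false := by
      rw [← Bool.not_eq_true, Nat.ble_eq]; omega
    rw [this, cond_false, Nat.sub_eq]
    have e : ang (2880 - k) = π - ang k := by
      unfold ang; rw [Nat.cast_sub hk]; push_cast; ring
    have := snQ_spec (k := 2880 - k) (by omega)
    rwa [e, sin_pi_sub] at this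

theorem cn_spec {k : ℕ} (hk : k ≤ 2880) : |(cn k : ℝ) - 2 ^ 32 * cos (ang k)| ≤ 10 := by
  unfold cn
  rcases le_or_gt k 1440 with c | c
  · rw [Nat.ble_eq_true_of_le c, cond_true, Nat.sub_eq]
    have e : ang (1440 - k) = π / 2 - ang k := by
      unfold ang; rw [Nat.cast_sub c]; push_cast; ring
    have := snQ_spec (k := 1440 - k) (by omega)
    rw [e, sin_pi_div_two_sub] at this
    simpa using this
  · have : Nat.ble k 1440 = false := by
      rw [← Bool.not_eq_true, Nat.ble_eq]; omega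
    rw [this, cond_false, Nat.sub_eq]
    have e : ang (k - 1440) = ang k - π / 2 := by
      unfold ang; rw [Nat.cast_sub c.le]; push_cast; ring
    have := snQ_spec (k := k - 1440) (by omega)
    rw [e, sin_sub_pi_div_two] at this
    rw [← abs_neg]
    convert this using 2
    have : ((Int.neg (Int.ofNat (snQ (k - 1440))) : ℤ) : ℝ) = -(snQ (k - 1440) : ℝ) := by
      change (((-(snQ (k - 1440) : ℤ) : ℤ)) : ℝ) = _
      push_cast; rfl
    rw [this]; ring

end Pool.Agent.P.MP_d76e6a_co
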