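import Pool.Agent.P.MP_d76e6a_co.NRows
import Pool.Agent.P.MP_d76e6a_co.NTrig

/-!
A checker for atomic dual certificates on a decision tree of contact orders.
-/

namespace Pool.Agent.P.MP_d76e6a_co

open Real

/-- A mass `w * sin (ang k)` in direction `ang e`, with fixed point coordinates. -/
structure At where
  e : ℕ
  k : ℕ
  w : ℕ
  x : ℕ
  y : ℤ

/-- A placement with index `t`, orientation `o`, choice `s` of the bottom contact, weight `w`. -/
structure Row where
  t : ℕ
  o : Bool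
  s : Bool
  w : ℕ

/-- A decision: `a < b` are directions; `f` says that `b` is met first. -/
structure Dec where
  a : ℕ
  b : ℕ
  f : Bool

/-- Decision trees; `h` says that the decision concerns the left half. -/
inductive Tr where
  | leaf (rows : List Row) : Tr
  | node (h : Bool) (a b : ℕ) (l r : Tr) : Tr

def excl (prev lo hi next : ℕ) : List Dec → Bool
  | [] => false
  | d :: r => cond (cond d.f (Nat.ble d.b hi && Nat.ble d.a prev) (Nat.ble lo d.a && Nat.ble next d.b))
      true (excl prev lo hi next r)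

def small (X : ℕ) (Y : ℤ) (q : ℕ) : Bool :=
  Nat.ble (Nat.add (Nat.mul X X) (Nat.mul (Int.natAbs Y) (Int.natAbs Y))) q

def inner (ds : List Dec) (q prev lo : ℕ) : List At → ℕ → ℕ → ℤ → Bool
  | [], e, X, Y => small X Y q || excl prev lo e 2881 ds
  | a :: r, e, X, Y => (Nat.beq a.e e || small X Y q || excl prev lo e a.e ds) &&
      forceN (Nat.add X a.x) fun X' => forceZ (Int.add Y a.y) fun Y' => inner ds q prev lo r a.e X' Y'

def outer (ds : List Dec) (q : ℕ) : List At → ℕ → Bool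
  | [], _ => true
  | a :: r, prev => (Nat.beq a.e prev || inner ds q prev a.e r a.e a.x a.y) && outer ds q r a.e

def insK (a : At) : List At → (List At → Bool) → Bool
  | [], f => f [a]
  | b :: r, f => cond (Nat.ble a.e b.e) (f (a :: b :: r)) (insK a r fun r' => f (b :: r'))

def mkAt (e k sk w : ℕ) (f : At → Bool) : Bool :=
  forceN (Nat.mul w sk) fun m => forceN (Nat.mul m (sn e)) fun x =>
    forceZ (Int.mul (Int.ofNat m) (cn e)) fun y => f ⟨e, k, w, x, y⟩

def put2 (h : Bool) (e k sk w : ℕ) (L R : List At) (f : List At → List At → Bool) : Bool :=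
  mkAt e k sk w fun a => cond h (insK a L fun L' => f L' R) (insK a R fun R' => f L R')

def put (G : ℕ) (s o : Bool) (k sk w : ℕ) (L R : List At) (f : List At → List At → Bool) : Bool :=
  forceN (Nat.mod G 5760) fun g =>
    cond (Nat.ble g 2879 || (Nat.beq g 2880 && s)) (put2 (!o) g k sk w L R f)
      (forceN (Nat.sub 5760 g) fun e => put2 o e k sk w L R f)

def build (a b c sa sb sc : ℕ) (f : List At → List At → ℕ → Bool) :
    List Row → List At → List At → ℕ → Bool
  | [], L, R, W => f L R W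
  | r :: rs, L, R, W =>
    put (Nat.add (Nat.add r.t 2880) a) r.s r.o b sb r.w L R fun L R =>
    put (Nat.sub (Nat.add r.t 2880) b) r.s r.o a sa r.w L R fun L R =>
    put r.t r.s r.o c sc r.w L R fun L R =>
    forceN (Nat.add W r.w) fun W' => build a b c sa sb sc f rs L R W'

def fin (sc U : ℕ) (dL dR : List Dec) (L R : List At) (W : ℕ) : Bool :=
  forceN (Nat.div (Nat.shiftLeft (Nat.mul (Nat.sub sc 10) W) 64) U) fun t =>
  forceN (Nat.mul 541165879296 W) fun z =>
  forceN (Nat.mul (Nat.sub t z) (Nat.sub t z)) fun q =>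
    Nat.ble 1 W && Nat.ble z t && outer dL q L 0 && outer dR q R 0

def chk (a b c sa sb sc U : ℕ) : Tr → List Dec → List Dec → Bool
  | .leaf rows, dL, dR => build a b c sa sb sc (fin sc U dL dR) rows [] [] 0
  | .node h x y l r, dL, dR => Nat.ble (Nat.succ x) y && Nat.ble y 2880 &&
      cond h (chk a b c sa sb sc U l (⟨x, y, false⟩ :: dL) dR && chk a b c sa sb sc U r (⟨x, y, true⟩ :: dL) dR)
        (chk a b c sa sb sc U l dL (⟨x, y, false⟩ :: dR) && chk a b c sa sb sc U r dL (⟨x, y, true⟩ :: dR))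

/-- The check of one table entry; angles in units of `π / 2880`, bound `U / 2 ^ 32`. -/
def badCheck (a b g U : ℕ) (t : Tr) : Bool :=
  forceN (Nat.add a b) fun c => forceN (sn a) fun sa => forceN (sn b) fun sb => forceN (sn c) fun sc =>
    Nat.ble c 2880 && Nat.ble 1 g && Nat.ble g 2879 && chk a b c sa sb sc U t [⟨g, 2880, true⟩] []

/-- Meaning of a decision for the set `P` of directions not yet met. -/
def Dec.Ok (P : ℕ → Prop) (d : Dec) : Prop :=
  d.b ≤ 2880 ∧ if d.f then ∀ x, d.b ≤ x → x ≤ 2880 → P x → P d.a else ∀ x, x ≤ d.a → P x → P d.b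

theorem excl_false {P : ℕ → Prop} (cv : ∀ x y z, x ≤ y → y ≤ z → z ≤ 2880 → P x → P z → P y)
    {prev lo hi next : ℕ} (hp : ¬P prev) (hlo : P lo) (hhi : P hi) (h1 : prev ≤ lo) (h2 : lo ≤ hi)
    (h3 : hi ≤ 2880) (hn : next = 2881 ∨ (hi ≤ next ∧ ¬P next)) {ds : List Dec}
    (hd : ∀ d ∈ ds, d.Ok P) : excl prev lo hi next ds = false := by
  induction ds with
  | nil => rfl
  | cons d r ih =>
    obtain ⟨b, o⟩ := hd d (by simp)
    rw [excl, ih fun d h => hd d (by simp [h])]
    have key : cond d.f (Nat.ble d.b hi && Nat.ble d.a prev) (Nat.ble lo d.a && Nat.ble next d.b)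
        = false := by
      rw [← Bool.not_eq_true]
      cases hf : d.f
      · simp only [hf, Bool.false_eq_true, if_false] at o
        simp only [cond_false, Bool.and_eq_true, Nat.ble_eq]
        rintro ⟨c1, c2⟩
        rcases hn with rfl | ⟨n1, n2⟩
        · omega
        · exact n2 (cv hi next d.b n1 c2 b hhi (o lo c1 hlo))
      · simp only [hf, if_true] at o
        simp only [cond_true, Bool.and_eq_true, Nat.ble_eq]
        rintro ⟨c1, c2⟩
        exact hp (cv d.a prev lo c2 h1 (by omega) (o hi c1 h3 hhi) hlo)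
    rw [key, cond_false]

open Classical in
/-- Sum of the first coordinates over the directions in `P`. -/
noncomputable def sx (P : ℕ → Prop) (L : List At) : ℝ :=
  (L.map fun a => if P a.e then (a.x : ℝ) else 0).sum

open Classical in
/-- Sum of the second coordinates over the directions in `P`. -/
noncomputable def sy (P : ℕ → Prop) (L : List At) : ℝ :=
  (L.map fun a => if P a.e then (a.y : ℝ) else 0).sum

theorem small_spec {X q : ℕ} {Y : ℤ} (h : small X Y q = true) :
    (X : ℝ) ^ 2 + (Y : ℝ) ^ 2 ≤ q := by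
  simp only [small, Nat.ble_eq, Nat.add_eq, Nat.mul_eq] at h
  have h' : ((X * X + Y.natAbs * Y.natAbs : ℕ) : ℝ) ≤ q := by exact_mod_cast h
  push_cast at h'
  rw [Nat.cast_natAbs, Int.cast_abs, abs_mul_abs_self] at h'
  linarith

theorem s_zero {P : ℕ → Prop} {L : List At} (h : ∀ a ∈ L, ¬P a.e) : sx P L = 0 ∧ sy P L = 0 := by
  constructor <;> refine List.sum_eq_zero fun x hx => ?_ <;>
  · obtain ⟨a, ha, rfl⟩ := List.mem_map.1 hx
    rw [if_neg (h a ha)]

theorem inner_spec {P : ℕ → Prop} (cv : ∀ x y z, x ≤ y → y ≤ z → z ≤ 2880 → P x → P z → P y)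
    {ds : List Dec} (hd : ∀ d ∈ ds, d.Ok P) {q prev lo : ℕ} (hp : ¬P prev) (hlo : P lo)
    (h1 : prev ≤ lo) (L : List At) : ∀ (e X : ℕ) (Y : ℤ), P e → lo ≤ e → e ≤ 2880 →
      (∀ a ∈ L, e ≤ a.e ∧ a.e ≤ 2880) → L.Pairwise (fun a b => a.e ≤ b.e) →
      inner ds q prev lo L e X Y = true → (X + sx P L) ^ 2 + (Y + sy P L) ^ 2 ≤ q := by
  induction L with
  | nil =>
    intro e X Y he h2 h3 _ _ h
    rw [inner, excl_false cv hp hlo he h1 h2 h3 (Or.inl rfl) hd, Bool.or_false] at h
    simpa [sx, sy] using small_spec h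
  | cons a r ih =>
    intro e X Y he h2 h3 hb hs h
    obtain ⟨b1, b2⟩ := hb a (by simp)
    rw [List.pairwise_cons] at hs
    simp only [inner, forceN_eq, forceZ_eq, Bool.and_eq_true, Bool.or_eq_true] at h
    by_cases c : P a.e
    · have := ih a.e _ _ c (h2.trans b1) b2 (fun x hx => ⟨hs.1 x hx, (hb x (by simp [hx])).2⟩)
        hs.2 h.2
      simp only [sx, sy, List.map_cons, List.sum_cons, if_pos c] at this ⊢
      have e1 : ((Nat.add X a.x : ℕ) : ℝ) = X + a.x := Nat.cast_add _ _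
      have e2 : ((Int.add Y a.y : ℤ) : ℝ) = Y + a.y := Int.cast_add _ _
      rw [e1, e2] at this
      simpa only [add_assoc] using this
    · obtain ⟨z1, z2⟩ := s_zero (P := P) (L := a :: r) (by
        intro x hx hPx
        rcases List.mem_cons.1 hx with rfl | hx'
        · exact c hPx
        · exact c (cv e a.e x.e b1 (hs.1 x hx') (hb x hx).2 he hPx))
      rw [z1, z2, add_zero, add_zero]
      rcases h.1 with (h0 | h0) | h0
      · rw [Nat.beq_eq] at h0; exact absurd (h0 ▸ he) c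
      · exact small_spec h0
      · rw [excl_false cv hp hlo he h1 h2 h3 (Or.inr ⟨b1, c⟩) hd] at h0
        exact absurd h0 (by simp)

theorem outer_spec {P : ℕ → Prop} (cv : ∀ x y z, x ≤ y → y ≤ z → z ≤ 2880 → P x → P z → P y)
    {ds : List Dec} (hd : ∀ d ∈ ds, d.Ok P) {q : ℕ} (L : List At) : ∀ prev : ℕ, ¬P prev →
      (∀ a ∈ L, prev ≤ a.e ∧ a.e ≤ 2880) → L.Pairwise (fun a b => a.e ≤ b.e) →
      outer ds q L prev = true → sx P L ^ 2 + sy P L ^ 2 ≤ q := by
  induction L with
  | nil => intro _ _ _ _ _; simp [sx, sy]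
  | cons a r ih =>
    intro prev hp hb hs h
    obtain ⟨b1, b2⟩ := hb a (by simp)
    rw [List.pairwise_cons] at hs
    simp only [outer, Bool.and_eq_true, Bool.or_eq_true] at h
    have hr : ∀ x ∈ r, a.e ≤ x.e ∧ x.e ≤ 2880 := fun x hx => ⟨hs.1 x hx, (hb x (by simp [hx])).2⟩
    by_cases c : P a.e
    · rcases h.1 with h0 | h0
      · rw [Nat.beq_eq] at h0; exact absurd (h0 ▸ c) hp
      · have := inner_spec cv hd hp c b1 r a.e a.x a.y c le_rfl b2 hr hs.2 h0
        simpa only [sx, sy, List.map_cons, List.sum_cons, if_pos c] using this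
    · have := ih a.e c hr hs.2 h.2
      simpa only [sx, sy, List.map_cons, List.sum_cons, if_neg c, zero_add] using this

/-- The fixed point coordinates are accurate. -/
def At.Wf (a : At) : Prop :=
  a.e ≤ 2880 ∧ |(a.x : ℝ) - 2 ^ 64 * (a.w * sin (ang a.k) * sin (ang a.e))| ≤ 21 * 2 ^ 32 * (a.w : ℝ) ∧
    |(a.y : ℝ) - 2 ^ 64 * (a.w * sin (ang a.k) * cos (ang a.e))| ≤ 21 * 2 ^ 32 * (a.w : ℝ)

/-- The value of a list of masses on a half structure. -/
noncomputable def val (H : Half) (L : List At) : ℝ :=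
  (L.map fun a => a.w * sin (ang a.k) * H.h (ang a.e)).sum

/-- The total weight. -/
noncomputable def tw (L : List At) : ℝ := (L.map fun a => (a.w : ℝ)).sum

theorem tel (X : ℕ → ℝ) (X0 : X 0 = 0) {i r : ℕ} (h : i ≤ r) :
    X i = ∑ j ∈ Finset.range r, if j < i then X (j + 1) - X j else 0 := by
  rw [← Finset.sum_filter]
  have : (Finset.range r).filter (· < i) = Finset.range i := by
    ext j; simp only [Finset.mem_filter, Finset.mem_range]; omega
  rw [this, Finset.sum_range_sub, X0, sub_zero]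

theorem val_le (H : Half) (L : List At) (hw : ∀ a ∈ L, a.Wf) :
    2 ^ 64 * val H L ≤ ∑ j ∈ Finset.range H.r,
      ((H.X (j + 1) - H.X j) * sx (fun e => j < H.d (ang e)) L
        + (H.Y (j + 1) - H.Y j) * sy (fun e => j < H.d (ang e)) L
        + 21 * 2 ^ 32 * tw L * (|H.X (j + 1) - H.X j| + |H.Y (j + 1) - H.Y j|)) := by
  induction L with
  | nil => simp [val, sx, sy, tw]
  | cons a r ih =>
    obtain ⟨-, w1, w2⟩ := hw a (by simp)
    have i := ih fun x hx => hw x (by simp [hx])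
    have one : 2 ^ 64 * (a.w * sin (ang a.k) * H.h (ang a.e)) ≤ ∑ j ∈ Finset.range H.r,
        ((H.X (j + 1) - H.X j) * (if j < H.d (ang a.e) then (a.x : ℝ) else 0)
          + (H.Y (j + 1) - H.Y j) * (if j < H.d (ang a.e) then (a.y : ℝ) else 0)
          + 21 * 2 ^ 32 * a.w * (|H.X (j + 1) - H.X j| + |H.Y (j + 1) - H.Y j|)) := by
      rw [Half.h, tel H.X H.X0 (H.hd _), tel H.Y H.Y0 (H.hd _), Finset.sum_mul, Finset.sum_mul,
        ← Finset.sum_add_distrib, Finset.mul_sum, Finset.mul_sum]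
      refine Finset.sum_le_sum fun j _ => ?_
      split_ifs with c
      · set u := H.X (j + 1) - H.X j
        set v := H.Y (j + 1) - H.Y j
        have k1 := (neg_abs_le _).trans' (neg_le_neg (mul_le_mul_of_nonneg_left w1 (abs_nonneg u))
          |>.trans_eq (by rw [← abs_mul]))
        have k2 := (neg_abs_le _).trans' (neg_le_neg (mul_le_mul_of_nonneg_left w2 (abs_nonneg v))
          |>.trans_eq (by rw [← abs_mul]))
        linarith
      · simp only [zero_mul, mul_zero, add_zero, zero_add]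
        positivity
    simp only [val, sx, sy, tw, List.map_cons, List.sum_cons] at i ⊢
    rw [mul_add]
    refine (add_le_add one i).trans (le_of_eq ?_)
    rw [← Finset.sum_add_distrib]
    refine Finset.sum_congr rfl fun j _ => ?_
    ring_nf

/-- The decisions hold for the half structure. -/
def Holds (H : Half) (ds : List Dec) : Prop :=
  ∀ d ∈ ds, d.a ≤ d.b ∧ d.b ≤ 2880 ∧
    if d.f then H.d (ang d.b) < H.d (ang d.a) else H.d (ang d.a) < H.d (ang d.b)

theorem ang_nonneg (k : ℕ) : 0 ≤ ang k := by unfold ang; positivity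

theorem ang_mono {x y : ℕ} (h : x ≤ y) : ang x ≤ ang y :=
  mul_le_mul_of_nonneg_right (by exact_mod_cast h) (by positivity)

theorem ang_pi : ang 2880 = π := by unfold ang; push_cast; ring

theorem ang_le {x : ℕ} (h : x ≤ 2880) : ang x ≤ π := ang_pi ▸ ang_mono h

theorem half_bound (H : Half) {ds : List Dec} (hd : Holds H ds) {L : List At} (hw : ∀ a ∈ L, a.Wf)
    (hs : L.Pairwise fun a b => a.e ≤ b.e) {p : ℕ} (h : outer ds (p * p) L 0 = true) :
    2 ^ 64 * val H L ≤ (p + 42 * 2 ^ 32 * tw L) * H.len := by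
  have qc : ∀ x y z : ℕ, x ≤ y → y ≤ z → z ≤ 2880 →
      min (H.d (ang x)) (H.d (ang z)) ≤ H.d (ang y) := fun x y z h1 h2 h3 =>
    H.qc _ _ _ (ang_nonneg x) (ang_mono h1) (ang_mono h2) (ang_le h3)
  have t0 : 0 ≤ tw L := List.sum_nonneg fun x hx => by
    obtain ⟨a, -, rfl⟩ := List.mem_map.1 hx
    positivity
  refine (val_le H L hw).trans ?_
  have e : H.len = ∑ j ∈ Finset.range H.r, (H.l (j + 1) - H.l j) := by
    rw [Finset.sum_range_sub, H.l0, sub_zero, Half.len]
  rw [e, Finset.mul_sum]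
  refine Finset.sum_le_sum fun j _ => ?_
  have n := outer_spec (P := fun e => j < H.d (ang e)) (fun x y z h1 h2 h3 p1 p2 => by
    have := qc x y z h1 h2 h3
    omega) (ds := ds) (fun d hd' => by
      obtain ⟨d1, d2, d3⟩ := hd d hd'
      refine ⟨d2, ?_⟩
      split_ifs at d3 ⊢
      · intro x h1 h2 p1
        have := qc d.a d.b x d1 h1 h2
        omega
      · intro x h1 p1
        have := qc x d.a d.b h1 d1 d2
        omega) L 0 (by simp [ang, H.d0]) (fun a ha => ⟨Nat.zero_le _, (hw a ha).1⟩) hs h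
  have st := H.step j
  set u := H.X (j + 1) - H.X j
  set v := H.Y (j + 1) - H.Y j
  set x := sx (fun e => j < H.d (ang e)) L
  set y := sy (fun e => j < H.d (ang e)) L
  have r0 : 0 ≤ √(u ^ 2 + v ^ 2) := sqrt_nonneg _
  have a1 : |u| ≤ √(u ^ 2 + v ^ 2) := abs_le_sqrt (by nlinarith [sq_nonneg v])
  have a2 : |v| ≤ √(u ^ 2 + v ^ 2) := abs_le_sqrt (by nlinarith [sq_nonneg u])
  have a3 : u * x + v * y ≤ p * √(u ^ 2 + v ^ 2) := by
    push_cast at n
    have p0 : (0 : ℝ) ≤ p := Nat.cast_nonneg p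
    refine le_trans (le_abs_self _) (abs_le_of_sq_le_sq' ?_ (by positivity) |> abs_le.2)
    rw [mul_pow, sq_sqrt (by positivity)]
    nlinarith [sq_nonneg (u * y - v * x), mul_le_mul_of_nonneg_left n
      (show 0 ≤ u ^ 2 + v ^ 2 by positivity)]
  have a4 := mul_le_mul_of_nonneg_left (add_le_add a1 a2) (show 0 ≤ 21 * 2 ^ 32 * tw L by positivity)
  have a5 := mul_le_mul_of_nonneg_left st (show 0 ≤ p + 42 * 2 ^ 32 * tw L by positivity)
  linarith

/-- Sorted insertion. -/
def ins (a : At) : List At → List At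
  | [] => [a]
  | b :: r => if a.e ≤ b.e then a :: b :: r else b :: ins a r

theorem insK_eq (a : At) (L : List At) : ∀ f, insK a L f = f (ins a L) := by
  induction L with
  | nil => intro f; rfl
  | cons b r ih =>
    intro f
    rw [insK, ins, ih]
    by_cases c : a.e ≤ b.e
    · rw [Nat.ble_eq_true_of_le c, cond_true, if_pos c]
    · have : Nat.ble a.e b.e = false := by rw [← Bool.not_eq_true, Nat.ble_eq]; exact c
      rw [this, cond_false, if_neg c]

theorem ins_perm (a : At) (L : List At) : (ins a L).Perm (a :: L) := by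
  induction L with
  | nil => rfl
  | cons b r ih =>
    rw [ins]
    split_ifs
    · rfl
    · exact (ih.cons b).trans (List.Perm.swap a b r)

theorem ins_sorted (a : At) {L : List At} (h : L.Pairwise fun a b => a.e ≤ b.e) :
    (ins a L).Pairwise fun a b => a.e ≤ b.e := by
  induction L with
  | nil => simp [ins]
  | cons b r ih =>
    rw [ins]
    rw [List.pairwise_cons] at h
    split_ifs with c
    · refine List.pairwise_cons.2 ⟨fun x hx => ?_, List.pairwise_cons.2 h⟩
      rcases List.mem_cons.1 hx with rfl | hx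
      · exact c
      · exact c.trans (h.1 x hx)
    · refine List.pairwise_cons.2 ⟨fun x hx => ?_, ih h.2⟩
      rcases List.mem_cons.1 ((ins_perm a r).subset hx) with rfl | hx
      · omega
      · exact h.1 x hx

/-- Well formed sorted lists. -/
def Gd (L : List At) : Prop := (∀ a ∈ L, a.Wf) ∧ L.Pairwise fun a b => a.e ≤ b.e

theorem Gd.ins {L : List At} (h : Gd L) {a : At} (ha : a.Wf) (H : Half) :
    Gd (ins a L) ∧ val H (ins a L) = a.w * sin (ang a.k) * H.h (ang a.e) + val H L ∧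
      tw (ins a L) = a.w + tw L := by
  refine ⟨⟨fun x hx => ?_, ins_sorted a h.2⟩, ?_, ?_⟩
  · rcases List.mem_cons.1 ((ins_perm a L).subset hx) with rfl | hx
    · exact ha
    · exact h.1 x hx
  · rw [val, ((ins_perm a L).map _).sum_eq]; simp [val]
  · rw [tw, ((ins_perm a L).map _).sum_eq]; simp [tw]

theorem prod_err {s t p q w : ℝ} (hs : |s - 2 ^ 32 * p| ≤ 10) (ht : |t - 2 ^ 32 * q| ≤ 10)
    (hp : |p| ≤ 1) (hq : |q| ≤ 1) (hw : 0 ≤ w) :
    |w * s * t - 2 ^ 64 * (w * p * q)| ≤ 21 * 2 ^ 32 * w := by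
  have e : w * s * t - 2 ^ 64 * (w * p * q) = w * ((s - 2 ^ 32 * p) * (t - 2 ^ 32 * q)
      + 2 ^ 32 * ((s - 2 ^ 32 * p) * q + (t - 2 ^ 32 * q) * p)) := by ring
  rw [e, abs_mul, abs_of_nonneg hw, mul_comm]
  refine mul_le_mul_of_nonneg_right ?_ hw
  have a1 : |(s - 2 ^ 32 * p) * (t - 2 ^ 32 * q)| ≤ 10 * 10 := by
    rw [abs_mul]; exact mul_le_mul hs ht (abs_nonneg _) (by norm_num)
  have a2 : |(s - 2 ^ 32 * p) * q| ≤ 10 * 1 := by
    rw [abs_mul]; exact mul_le_mul hs hq (abs_nonneg _) (by norm_num)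
  have a3 : |(t - 2 ^ 32 * q) * p| ≤ 10 * 1 := by
    rw [abs_mul]; exact mul_le_mul ht hp (abs_nonneg _) (by norm_num)
  rw [abs_le] at a1 a2 a3 ⊢
  constructor <;> linarith [a1.1, a1.2, a2.1, a2.2, a3.1, a3.2]

theorem put2_spec {h : Bool} {e k w : ℕ} (he : e ≤ 2880) (hk : k ≤ 2880) {L R : List At}
    (hL : Gd L) (hR : Gd R) (HL HR : Half) {f : List At → List At → Bool}
    (hf : put2 h e k (sn k) w L R f = true) :
    ∃ L' R', f L' R' = true ∧ Gd L' ∧ Gd R' ∧ tw L' + tw R' = w + (tw L + tw R) ∧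
      val HL L' + val HR R' = w * sin (ang k) * (cond h HL.h HR.h (ang e))
        + (val HL L + val HR R) := by
  simp only [put2, mkAt, forceN_eq, forceZ_eq, insK_eq] at hf
  set a : At := ⟨e, k, w, Nat.mul (Nat.mul w (sn k)) (sn e),
    Int.mul (Int.ofNat (Nat.mul w (sn k))) (cn e)⟩ with ha
  have wf : a.Wf := by
    refine ⟨he, ?_, ?_⟩
    · have := prod_err (sn_spec hk) (sn_spec he) (abs_sin_le_one _) (abs_sin_le_one _)
        (Nat.cast_nonneg w)
      convert this using 3
      simp only [ha, Nat.mul_eq]; push_cast; rfl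
    · have := prod_err (sn_spec hk) (cn_spec he) (abs_sin_le_one _) (abs_cos_le_one _)
        (Nat.cast_nonneg w)
      convert this using 3
      change (((((w * sn k : ℕ) : ℤ) * cn e : ℤ)) : ℝ) = _
      push_cast; rfl
  cases h
  · obtain ⟨g1, g2, g3⟩ := hR.ins wf HR
    exact ⟨_, _, hf, hL, g1, by rw [g3]; ring, by rw [g2, cond_false]; ring⟩
  · obtain ⟨g1, g2, g3⟩ := hL.ins wf HL
    exact ⟨_, _, hf, g1, hR, by rw [g3]; ring, by rw [g2, cond_true]; ring⟩

theorem put_spec {G : ℕ} {s o : Bool} {k w : ℕ} (hk : k ≤ 2880) {L R : List At}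
    (hL : Gd L) (hR : Gd R) (HL HR : Half) {f : List At → List At → Bool}
    (hf : put G s o k (sn k) w L R f = true) :
    ∃ L' R' c, f L' R' = true ∧ Gd L' ∧ Gd R' ∧ tw L' + tw R' = w + (tw L + tw R) ∧
      val HL L' + val HR R' = w * sin (ang k) * c + (val HL L + val HR R) ∧
      Sup (cond o HR.h HL.h) (cond o HL.h HR.h) (ang G) c := by
  simp only [put, forceN_eq] at hf
  have em : Nat.mod G 5760 = G % 5760 := rfl
  rw [em, Nat.sub_eq] at hf
  set g := G % 5760 with hg
  have g1 : g < 5760 := Nat.mod_lt _ (by norm_num)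
  have eG : ang G = ang g + ((G / 5760 : ℕ) : ℤ) * (2 * π) := by
    have : (G : ℝ) = g + 5760 * (G / 5760 : ℕ) := by exact_mod_cast (Nat.mod_add_div G 5760).symm
    unfold ang
    rw [this, Int.cast_natCast]; ring
  cases c : (Nat.ble g 2879 || (Nat.beq g 2880 && s))
  · rw [c, cond_false] at hf
    have g2 : 2880 ≤ g := by
      have : ¬Nat.ble g 2879 = true := by
        intro q; rw [q] at c; simp at c
      rw [Nat.ble_eq] at this; omega
    obtain ⟨L', R', a1, a2, a3, a4, a5⟩ := put2_spec (by omega) hk hL hR HL HR hf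
    refine ⟨L', R', _, a1, a2, a3, a4, a5, ?_⟩
    refine Sup.right _ _ (((G / 5760 : ℕ) : ℤ) + 1) (ang_nonneg _) (ang_le (by omega)) ?_
    rw [eG]
    unfold ang
    rw [Nat.cast_sub g1.le]; push_cast; ring
  · rw [c, cond_true] at hf
    have g2 : g ≤ 2880 := by
      simp only [Bool.or_eq_true, Bool.and_eq_true, Nat.ble_eq, Nat.beq_eq] at c
      omega
    obtain ⟨L', R', a1, a2, a3, a4, a5⟩ := put2_spec g2 hk hL hR HL HR hf
    refine ⟨L', R', _, a1, a2, a3, a4, a5, ?_⟩
    have : cond (!o) HL.h HR.h = cond o HR.h HL.h := by cases o <;> rfl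
    rw [this]
    exact Sup.left _ _ _ (ang_nonneg _) (ang_le g2) eG

theorem ang_add (x y : ℕ) : ang (x + y) = ang x + ang y := by unfold ang; push_cast; ring

theorem build_spec {a b : ℕ} (hc : a + b ≤ 2880) {ρ : ℝ} {HL HR : Half}
    (r1 : Rows ρ HL.h HR.h (ang a) (ang b)) (r2 : Rows ρ HR.h HL.h (ang a) (ang b))
    {f : List At → List At → ℕ → Bool} (rows : List Row) : ∀ (L R : List At) (W : ℕ), Gd L → Gd R →
      tw L + tw R = 3 * W → W * (ρ * sin (ang (a + b))) ≤ val HL L + val HR R →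
      build a b (a + b) (sn a) (sn b) (sn (a + b)) f rows L R W = true →
      ∃ (L R : List At) (W : ℕ), Gd L ∧ Gd R ∧ tw L + tw R = 3 * W ∧
        W * (ρ * sin (ang (a + b))) ≤ val HL L + val HR R ∧ f L R W = true := by
  induction rows with
  | nil => intro L R W g1 g2 g3 g4 h; exact ⟨L, R, W, g1, g2, g3, g4, h⟩
  | cons r rs ih =>
    intro L R W g1 g2 g3 g4 h
    rw [build] at h
    obtain ⟨L1, R1, c1, h, a1, a2, a3, a4, a5⟩ := put_spec (by omega) g1 g2 HL HR h
    obtain ⟨L2, R2, c2, h, b1, b2, b3, b4, b5⟩ := put_spec (by omega) a1 a2 HL HR h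
    obtain ⟨L3, R3, c3, h, d1, d2, d3, d4, d5⟩ := put_spec hc b1 b2 HL HR h
    rw [forceN_eq] at h
    have eW : ((Nat.add W r.w : ℕ) : ℝ) = W + r.w := Nat.cast_add _ _
    refine ih L3 R3 _ d1 d2 (by rw [eW]; linarith) ?_ h
    have rr : Rows ρ (cond r.o HR.h HL.h) (cond r.o HL.h HR.h) (ang a) (ang b) := by
      cases r.o
      · exact r1
      · exact r2
    have e1 : ang (Nat.add (Nat.add r.t 2880) a) = ang r.t + π + ang a := by
      rw [Nat.add_eq, Nat.add_eq, ang_add, ang_add, ang_pi]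
    have e2 : ang (Nat.sub (Nat.add r.t 2880) b) = ang r.t + π - ang b := by
      rw [Nat.sub_eq, Nat.add_eq, ← ang_pi, ← ang_add, eq_sub_iff_add_eq, ← ang_add]
      congr 1; omega
    rw [e1] at a5
    rw [e2] at b5
    have := mul_le_mul_of_nonneg_left (rr _ _ _ _ a5 b5 d5) (Nat.cast_nonneg (α := ℝ) r.w)
    rw [← ang_add] at this
    rw [eW]
    linarith

theorem tw_nonneg (L : List At) : 0 ≤ tw L := List.sum_nonneg fun x hx => by
  obtain ⟨a, -, rfl⟩ := List.mem_map.1 hx
  positivity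

theorem fin_spec {c U : ℕ} (hc : c ≤ 2880) {ρ : ℝ} (hρ : 0 ≤ ρ) {HL HR : Half} {dL dR : List Dec}
    (hL : Holds HL dL) (hR : Holds HR dR) {L R : List At} {W : ℕ} (g1 : Gd L) (g2 : Gd R)
    (g3 : tw L + tw R = 3 * W) (g4 : W * (ρ * sin (ang c)) ≤ val HL L + val HR R)
    (h : fin (sn c) U dL dR L R W = true) : ρ * (U / 2 ^ 32) ≤ HL.len + HR.len := by
  simp only [fin, forceN_eq, Bool.and_eq_true, Nat.ble_eq, Nat.mul_eq, Nat.sub_eq] at h
  obtain ⟨⟨⟨h1, h2⟩, h3⟩, h4⟩ := h
  set t := Nat.div (Nat.shiftLeft ((sn c - 10) * W) 64) U with ht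
  have b1 := half_bound HL hL g1.1 g1.2 h3
  have b2 := half_bound HR hR g2.1 g2.2 h4
  rw [Nat.cast_sub h2] at b1 b2
  push_cast at b1 b2
  have l1 := HL.len_nonneg
  have l2 := HR.len_nonneg
  have t1 := tw_nonneg L
  have t2 := tw_nonneg R
  have W1 : (1 : ℝ) ≤ W := by exact_mod_cast h1
  have t0 : (541165879296 : ℝ) * W ≤ t := by exact_mod_cast h2
  have k1 : 2 ^ 64 * (W * (ρ * sin (ang c))) ≤ t * (HL.len + HR.len) := by
    nlinarith [mul_nonneg l1 t2, mul_nonneg l2 t1]
  have k2 : (U : ℝ) * t ≤ (sn c - 10 : ℕ) * W * 2 ^ 64 := by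
    have : U * t ≤ (sn c - 10) * W * 2 ^ 64 := by
      rw [ht, Nat.shiftLeft_eq', Nat.shiftLeft_eq]
      exact Nat.mul_div_le _ _
    exact_mod_cast this
  have s0 : 0 ≤ sin (ang c) := sin_nonneg_of_nonneg_of_le_pi (ang_nonneg c) (ang_le hc)
  have k3 : ((sn c - 10 : ℕ) : ℝ) ≤ 2 ^ 32 * sin (ang c) := by
    rcases le_total 10 (sn c) with q | q
    · rw [Nat.cast_sub q]
      have := (abs_le.1 (sn_spec hc)).2
      push_cast; linarith
    · rw [Nat.sub_eq_zero_of_le q]; push_cast; positivity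
  have k4 : (U : ℝ) * t ≤ 2 ^ 32 * sin (ang c) * W * 2 ^ 64 :=
    k2.trans (by gcongr)
  have k5 := mul_le_mul_of_nonneg_left k4 hρ
  refine le_of_mul_le_mul_left ?_ (show (0 : ℝ) < t by linarith)
  linarith

/-- No ties between different grid directions. -/
def NoTie (H : Half) : Prop := ∀ x y : ℕ, x < y → y ≤ 2880 → H.d (ang x) ≠ H.d (ang y)

theorem Holds.cons {H : Half} {ds : List Dec} (h : Holds H ds) {x y : ℕ} (h1 : x < y)
    (h2 : y ≤ 2880) (n : NoTie H) : Holds H (⟨x, y, false⟩ :: ds) ∨ Holds H (⟨x, y, true⟩ :: ds) := by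
  rcases lt_or_gt_of_ne (n x y h1 h2) with c | c
  · left
    intro d hd
    rcases List.mem_cons.1 hd with rfl | hd
    · exact ⟨h1.le, h2, by simpa using c⟩
    · exact h d hd
  · right
    intro d hd
    rcases List.mem_cons.1 hd with rfl | hd
    · exact ⟨h1.le, h2, by simpa using c⟩
    · exact h d hd

theorem chk_spec {a b U : ℕ} (hc : a + b ≤ 2880) {ρ : ℝ} (hρ : 0 ≤ ρ) {HL HR : Half}
    (r1 : Rows ρ HL.h HR.h (ang a) (ang b)) (r2 : Rows ρ HR.h HL.h (ang a) (ang b))
    (n1 : NoTie HL) (n2 : NoTie HR) (t : Tr) : ∀ dL dR, Holds HL dL → Holds HR dR →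
      chk a b (a + b) (sn a) (sn b) (sn (a + b)) U t dL dR = true →
      ρ * (U / 2 ^ 32) ≤ HL.len + HR.len := by
  induction t with
  | leaf rows =>
    intro dL dR hL hR h
    rw [chk] at h
    have g0 : Gd [] := ⟨by simp, by simp⟩
    obtain ⟨L, R, W, g1, g2, g3, g4, h⟩ := build_spec hc r1 r2 rows [] [] 0 g0 g0 (by simp [tw])
      (by simp [val]) h
    exact fin_spec hc hρ hL hR g1 g2 g3 g4 h
  | node h x y l r ihl ihr =>
    intro dL dR hL hR k
    rw [chk] at k
    simp only [Bool.and_eq_true, Nat.ble_eq] at k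
    obtain ⟨⟨k1, k2⟩, k3⟩ := k
    cases h
    · rw [cond_false, Bool.and_eq_true] at k3
      rcases hR.cons k1 k2 n2 with c | c
      · exact ihl _ _ hL c k3.1
      · exact ihr _ _ hL c k3.2
    · rw [cond_true, Bool.and_eq_true] at k3
      rcases hL.cons k1 k2 n1 with c | c
      · exact ihl _ _ c hR k3.1
      · exact ihr _ _ c hR k3.2

theorem Half.refine (H : Half) {g : ℕ} (g1 : 1 ≤ g) (g2 : g < 2880) :
    ∃ K : Half, K.h = H.h ∧ K.len = H.len ∧ NoTie K ∧
      (H.d π ≤ H.d (ang g) → K.d π ≤ K.d (ang g)) := by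
  classical
  have hpi := pi_pos
  obtain ⟨p, p0, p1, pm, pg⟩ : ∃ p, 0 ≤ p ∧ p ≤ π ∧ (∀ x, 0 ≤ x → x ≤ π → H.d x ≤ H.d p) ∧
      (H.d π ≤ H.d (ang g) → p < π) := by
    have ex : ∃ n, ∀ x, 0 ≤ x → x ≤ π → H.d x ≤ n := ⟨H.r, fun x _ _ => H.hd x⟩
    have : ∃ p, 0 ≤ p ∧ p ≤ π ∧ ∀ x, 0 ≤ x → x ≤ π → H.d x ≤ H.d p := by
      by_contra c
      push Not at c
      have : ∀ n : ℕ, ∃ x, 0 ≤ x ∧ x ≤ π ∧ n ≤ H.d x := by
        intro n
        induction n with
        | zero => exact ⟨0, le_rfl, hpi.le, Nat.zero_le _⟩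
        | succ n ih =>
          obtain ⟨x, x0, x1, x2⟩ := ih
          obtain ⟨y, y0, y1, y2⟩ := c x x0 x1
          exact ⟨y, y0, y1, by omega⟩
      obtain ⟨x, -, -, x2⟩ := this (H.r + 1)
      have := H.hd x
      omega
    obtain ⟨p, p0, p1, pm⟩ := this
    have gp : ang g < π := by
      rw [← ang_pi]
      exact mul_lt_mul_of_pos_right (by exact_mod_cast g2) (by positivity)
    by_cases c : H.d p ≤ H.d (ang g)
    · exact ⟨ang g, ang_nonneg g, gp.le, fun x x0 x1 => (pm x x0 x1).trans c, fun _ => gp⟩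
    · refine ⟨p, p0, p1, pm, fun q => lt_of_le_of_ne p1 ?_⟩
      rintro rfl
      exact c q
  let idx : ℝ → ℕ := fun η => min 2880 ⌊η / (π / 2880)⌋₊
  have im : ∀ x y, x ≤ y → idx x ≤ idx y := fun x y h =>
    min_le_min_left _ (Nat.floor_mono (div_le_div_of_nonneg_right h (by positivity)))
  have ib : ∀ x, idx x ≤ 2880 := fun x => min_le_left _ _
  have ia : ∀ x : ℕ, x ≤ 2880 → idx (ang x) = x := fun x hx => by
    simp only [idx, ang]
    rw [mul_div_cancel_right₀ _ (by positivity), Nat.floor_natCast, min_eq_right hx]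
  let tb : ℝ → ℕ := fun η => if η ≤ p then 2 * idx η else 2 * (2880 - idx η) + 1
  have tl : ∀ η, tb η < 5762 := fun η => by
    have := ib η
    simp only [tb]; split_ifs <;> omega
  have dv : ∀ η, (5762 * H.d η + tb η) / 5762 = H.d η := fun η => by
    have := tl η
    omega
  refine ⟨⟨fun j => H.X (j / 5762), fun j => H.Y (j / 5762), fun j => H.l (j / 5762),
    fun η => 5762 * H.d η + tb η, 5762 * H.r + 5761, H.X0, H.Y0, H.l0, fun j => ?_, fun η => ?_, ?_,
    fun x y z x0 h1 h2 h3 => ?_⟩, ?_, ?_, fun x y h1 h2 => ?_, fun h => ?_⟩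
  · rcases (show (j + 1) / 5762 = j / 5762 ∨ (j + 1) / 5762 = j / 5762 + 1 by omega) with c | c
    · simp [c]
    · rw [c]; exact H.step _
  · have := tl η
    have := H.hd η
    omega
  · have := ia 0 (by norm_num)
    simp only [ang, Nat.cast_zero, zero_mul] at this
    simp only [tb, H.d0, if_pos p0, this]
  · rcases le_or_gt y p with c | c
    · have a1 := H.qc x y p x0 h1 c p1
      have a2 := pm x x0 (by linarith)
      have a3 := im x y h1
      refine (min_le_left _ _).trans ?_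
      simp only [tb, if_pos c, if_pos (h1.trans c)]
      omega
    · have a1 := H.qc p y z p0 c.le h2 h3
      have a2 := pm z (by linarith) h3
      have a3 := im y z h2
      refine (min_le_right _ _).trans ?_
      simp only [tb, if_neg (not_le.2 c), if_neg (not_le.2 (c.trans_le h2))]
      omega
  · funext η
    simp only [Half.h, dv]
  · simp only [Half.len]
    congr 1
    omega
  · intro e
    have a1 := tl (ang x)
    have a2 := tl (ang y)
    have a3 : tb (ang x) = tb (ang y) := by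
      simp only at e
      omega
    simp only [tb, ia x (by omega), ia y h2] at a3
    split_ifs at a3 <;> omega
  · have a1 := ia 2880 le_rfl
    rw [ang_pi] at a1
    have a2 : tb π = 1 := by simp only [tb, if_neg (not_le.2 (pg h)), a1]
    have a3 : 1 ≤ tb (ang g) := by
      simp only [tb, ia g g2.le]
      split_ifs <;> omega
    simp only
    omega

theorem badCheck_sound {a b g U : ℕ} {t : Tr} (h : badCheck a b g U t = true) :
    BadOK (ang a) (ang b) (ang g) (U / 2 ^ 32) := by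
  simp only [badCheck, forceN_eq, Bool.and_eq_true, Nat.ble_eq, Nat.add_eq] at h
  obtain ⟨⟨⟨h1, h2⟩, h3⟩, h4⟩ := h
  intro ρ hρ L R r1 r2 hb
  obtain ⟨L', e1, e2, n1, e3⟩ := L.refine h2 (by omega)
  obtain ⟨R', f1, f2, n2, -⟩ := R.refine h2 (by omega)
  rw [← e2, ← f2]
  refine chk_spec h1 hρ (by rw [e1, f1]; exact r1) (by rw [e1, f1]; exact r2) n1 n2 t _ _ ?_
    (fun d hd => by simp at hd) h4
  intro d hd
  rw [List.mem_singleton] at hd
  subst hd
  refine ⟨by simp only; omega, le_rfl, ?_⟩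
  have := n1 g 2880 (by omega) le_rfl
  have := e3 hb
  simp only [if_true, ang_pi] at *
  omega

end Pool.Agent.P.MP_d76e6a_co
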