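import Pool.Agent.P.MP_d76e6a_co.NBad

/-!
Tables of checked lower bounds.
-/

namespace Pool.Agent.P.MP_d76e6a_co

/-- One entry of a table. -/
structure Ent where
  a : ℕ
  b : ℕ
  g : ℕ
  U : ℕ
  t : Tr

/-- The meaning of an entry. -/
def Ent.Ok (e : Ent) : Prop := BadOK (ang e.a) (ang e.b) (ang e.g) (e.U / 2 ^ 32)

def tabCheck : List Ent → Bool
  | [] => true
  | e :: r => badCheck e.a e.b e.g e.U e.t && tabCheck r

theorem tabCheck_sound {l : List Ent} (h : tabCheck l = true) : ∀ e ∈ l, e.Ok := by
  induction l with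
  | nil => simp
  | cons a r ih =>
    simp only [tabCheck, Bool.and_eq_true] at h
    intro e he
    rcases List.mem_cons.1 he with rfl | he
    · exact badCheck_sound h.1
    · exact ih h.2 e he

end Pool.Agent.P.MP_d76e6a_co
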