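import Pool.Agent.P.MP_d76e6a_co.XGood
import Pool.Agent.P.MP_d76e6a_co.Lower
import Pool.Agent.P.MP_d76e6a_co.Upper

/-!
The Zalgaller curve as the curve of a template.
-/

namespace Pool.Agent.P.MP_d76e6a_co

open Real Finset EuclideanGeometry

def zT0 : Tmpl :=
  ⟨false, [⟨0, 0, 0, 0, 0, 0⟩, ⟨0, 1, 2, -1, 2, -1⟩, ⟨0, 0, 0, 0, 0, 0⟩], [⟨0, 1, 0, 1, 0, -1⟩]⟩

noncomputable def zSol : Sol :=
  ⟨fun j => if j = 0 then 0 else if j = 1 then 2 * psi else if j = 2 then π / 2 - phi else π,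
    fun j => if j = 1 then tan psi else if j = 2 then tan phi else 0, fun _ => sin (2 * psi)⟩

theorem zal_n : zT0.n = 2 := rfl

theorem zal_rad0 (A B : ℝ) : rad zT0 A B 0 = 0 := by simp [rad, zT0, Tmpl.J]

theorem zal_rad1 (A B : ℝ) : rad zT0 A B 1 = 1 := by simp [rad, zT0, Tmpl.J, wt]

theorem zal_rad2 (A B : ℝ) : rad zT0 A B 2 = 0 := by simp [rad, zT0, Tmpl.J]

theorem zal_eta0 : zSol.η 0 = 0 := rfl

theorem zal_eta1 : zSol.η 1 = 2 * psi := rfl

theorem zal_eta2 : zSol.η 2 = π / 2 - phi := rfl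

theorem zal_eta3 : zSol.η 3 = π := rfl

theorem zal_l0 : zSol.l 0 = 0 := rfl

theorem zal_l1 : zSol.l 1 = tan psi := rfl

theorem zal_l2 : zSol.l 2 = tan phi := rfl

theorem zal_half0 (A B : ℝ) : half zT0 A B zSol (2 * (0 : ℕ) + 1) = 0 := by
  rw [half_one, zal_l0]
  simp

theorem zal_pnt0 (A B e : ℝ) : pnt zT0 A B zSol 0 e = 0 := by
  rw [pnt, zal_half0, zal_rad0]
  simp

theorem zal_pnt1 (A B e : ℝ) : pnt zT0 A B zSol 1 e = ⟨-tan psi + sin e, -1 + cos e⟩ := by
  have h := half_succ zT0 A B zSol (j := 0) (by rw [zal_n]; norm_num)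
  have tpsi : tan psi * cos psi = sin psi := tan_mul_cos cos_psi_pos.ne'
  rw [zal_pnt0, zero_add, zero_add, zal_l1, zal_eta1] at h
  rw [pnt, h, zal_rad1, zal_eta1]
  apply Complex.ext
  · simp only [tt, uu, Complex.add_re, Complex.re_ofReal_mul, Complex.sub_re, sin_two_mul,
      cos_two_mul]
    linear_combination 2 * cos psi * tpsi
  · simp only [tt, uu, Complex.add_im, Complex.im_ofReal_mul, Complex.sub_im, sin_two_mul,
      cos_two_mul]
    linear_combination -2 * sin_sq_add_cos_sq psi - 2 * sin psi * tpsi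

theorem zal_half2 (A B : ℝ) : half zT0 A B zSol (2 * (2 : ℕ) + 1) = ⟨tan psi, -1⟩ := by
  have h := half_succ zT0 A B zSol (j := 1) (by rw [zal_n])
  have c0 := cos_phi_bounds.1
  have tphi : tan phi * cos phi = sin phi := tan_mul_cos (by linarith)
  have t2 : tan psi * (2 * cos phi) = 1 := by
    rw [tan_psi]; field_simp
  rw [zal_pnt1, show 1 + 1 = 2 from rfl, zal_l2, zal_eta2] at h
  rw [h]
  apply Complex.ext
  · simp only [tt, Complex.add_re, Complex.re_ofReal_mul, sin_pi_div_two_sub, cos_pi_div_two_sub]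
    apply mul_left_cancel₀ (show cos phi ≠ 0 by linarith)
    linear_combination sin_sq_add_cos_sq phi - t2 + sin phi * tphi
  · simp only [tt, Complex.add_im, Complex.im_ofReal_mul, sin_pi_div_two_sub, cos_pi_div_two_sub]
    linear_combination -tphi

theorem zal_pnt2 (A B e : ℝ) : pnt zT0 A B zSol 2 e = ⟨tan psi, -1⟩ := by
  rw [pnt, zal_half2, zal_rad2]
  simp

theorem zal_push {A B : ℝ} (hA : 0 < A) (hB : 0 < B) (hπ : A + B < π) (e : ℝ) :
    (zT0.J 1).push A B 2 e = uu (-1 * e + π) := by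
  have h1 := wt_sum hA hB hπ 0 e ⟨1, 0⟩
  have h2 := wt_sum hA hB hπ 0 e ⟨0, 1⟩
  have e0 : off A B 0 = 0 := by simp [off]
  have w0 : wt A B 0 = 1 := by simp [wt]
  have eJ : zT0.J 1 = ⟨0, 1, 2, -1, 2, -1⟩ := rfl
  rw [e0, w0] at h1 h2
  simp only [hs, one_mul, zero_mul, add_zero, zero_add] at h1 h2
  rw [eJ]
  simp only [Plc.push, Plc.dir, if_true, e0, Int.cast_one, Int.cast_neg, one_mul, sub_zero,
    neg_mul, zero_add]
  apply Complex.ext
  · simp only [uu, Complex.add_re, Complex.re_ofReal_mul, sin_neg, sin_add_pi]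
    linarith
  · simp only [uu, Complex.add_im, Complex.im_ofReal_mul, cos_neg, cos_add_pi]
    linarith

theorem zal_sys {A B : ℝ} (hA : 0 < A) (hB : 0 < B) (hπ : A + B < π) : Sys zT0 A B zSol := by
  have p1 := phi_facts.2.2.2.1
  have p2 := phi_facts.2.2.2.2
  have c0 := cos_phi_bounds.1
  have e0 : off A B 0 = 0 := by simp [off]
  have w0 : wt A B 0 = 1 := by simp [wt]
  refine ⟨rfl, rfl, fun j hj => ?_, fun p hp => ?_, fun j hj hs e _ => ?_, rfl,
    fun j h1 h2 hs => ?_, ?_⟩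
  · rw [zal_n] at hj
    interval_cases j
    · rw [zal_l0, zal_eta0, zero_add, zal_eta1]
      exact ⟨le_rfl, by linarith [psi_pos]⟩
    · rw [zal_l1, zal_eta1, show 1 + 1 = 2 from rfl, zal_eta2]
      exact ⟨by rw [tan_psi]; positivity, two_psi_le⟩
    · rw [zal_l2, zal_eta2, show 2 + 1 = 3 from rfl, zal_eta3]
      exact ⟨(tan_pos_of_pos_of_lt_pi_div_two p1 p2).le, by linarith [pi_pos]⟩
  · have hp0 : p = 0 := by
      have : zT0.atoms.length = 1 := rfl
      omega
    subst hp0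
    refine ⟨by linarith [sin_two_psi_bounds.1, show zSol.m 0 = sin (2 * psi) from rfl], ?_⟩
    have eA : zT0.At 0 = ⟨0, 1, 0, 1, 0, -1⟩ := rfl
    rw [eA, zal_n]
    simp only [Plc.Fits, Plc.dir, zal_pnt2, zal_half0, e0, w0, add_zero]
    simp [hs, mir]
  · rw [zal_n] at hj
    interval_cases j
    · exact absurd rfl hs
    · have h1 := wt_sum hA hB hπ 0 e ⟨-tan psi, -1⟩
      have eJ : zT0.J 1 = ⟨0, 1, 2, -1, 2, -1⟩ := rfl
      rw [eJ]
      simp only [Plc.Fits, Plc.dir, zal_pnt1, zal_half2, e0, w0, add_zero, Int.cast_one, one_mul,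
        sub_zero, mir, Int.cast_neg, neg_mul]
      rw [e0, w0, add_zero, one_mul] at h1
      simp only [Pool.Agent.P.MP_d76e6a_co.hs] at h1 ⊢
      linear_combination h1 + sin_sq_add_cos_sq e
    · exact absurd rfl hs
  · rw [zal_n] at h2
    have hj : j = 1 := by omega
    subst hj
    exact absurd hs (by decide)
  · have eA : zT0.At 0 = ⟨0, 1, 0, 1, 0, -1⟩ := rfl
    have eL : zT0.atoms.length = 1 := rfl
    have em : zSol.m 0 = sin (2 * psi) := rfl
    have hi : ∫ e in (2 * psi)..(π / 2 - phi), (zT0.J 1).push A B 2 e =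
        ((-1 : ℝ) : ℂ) * (tt (-1 * (2 * psi) + π) - tt (-1 * (π / 2 - phi) + π)) := by
      rw [← integral_uu (Or.inr rfl)]
      exact intervalIntegral.integral_congr fun e _ => zal_push hA hB hπ e
    rw [load, zal_n, eL, sum_range_one, sum_range_one, sum_range_succ, sum_range_succ,
      sum_range_one, zal_rad0, zal_rad1, zal_rad2, zal_eta1, show 1 + 1 = 2 from rfl, zal_eta2, hi,
      eA, em]
    simp only [Plc.push, w0, OfNat.zero_ne_ofNat, if_false, add_zero, mul_zero, Complex.ofReal_zero,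
      zero_mul, zero_add, Complex.ofReal_one, one_mul, mul_one, neg_mul]
    apply Complex.ext
    · simp only [tt, uu, Complex.add_re, Complex.re_ofReal_mul, Complex.sub_re, cos_add_pi,
        cos_neg, cos_pi_div_two_sub, sin_pi, cos_two_psi]
      ring
    · simp only [tt, uu, Complex.add_im, Complex.im_ofReal_mul, Complex.sub_im, sin_add_pi,
        sin_neg, sin_pi_div_two_sub, cos_pi]
      ring

theorem zal_len (A B : ℝ) : len zT0 A B zSol = zeta := by
  rw [len, zal_n, sum_range_succ, sum_range_succ, sum_range_one, zal_rad0, zal_rad1, zal_rad2,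
    zal_l0, zal_l1, zal_l2, zal_eta1, show 1 + 1 = 2 from rfl, zal_eta2, zeta]
  ring

theorem zal_on_end (A B : ℝ) : OnC zT0 A B zSol ⟨tan psi, -1⟩ :=
  ⟨2, le_rfl, 0, ⟨le_rfl, zero_le_one⟩, 1, Or.inl rfl, by
    rw [zal_pnt2]
    simp [mir]⟩

theorem zal_half_wide (A B : ℝ) {u v : ℝ} (hu : 0 ≤ u) (hv : 0 ≤ v) (h : u ^ 2 + v ^ 2 = 1) :
    ∃ p, OnC zT0 A B zSol p ∧ 1 ≤ u * (p.re + tan psi) + v * (p.im + 1) := by
  have hpi := pi_pos
  have c0 := cos_phi_bounds.1
  have p1 := phi_facts.2.2.2.1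
  have p2 := phi_facts.2.2.2.2
  obtain ⟨θ, h0, h1, rfl, rfl⟩ : ∃ θ, 0 ≤ θ ∧ θ ≤ π / 2 ∧ u = sin θ ∧ v = cos θ :=
    ⟨arcsin u, arcsin_nonneg.2 hu, arcsin_le_pi_div_two u,
      (sin_arcsin (by linarith) (by nlinarith)).symm, by
        rw [cos_arcsin, show 1 - u ^ 2 = v ^ 2 by linarith, sqrt_sq hv]⟩
  rcases le_or_gt θ (2 * psi) with c | c
  · refine ⟨0, ⟨0, Nat.zero_le _, 0, ⟨le_rfl, zero_le_one⟩, 1, Or.inl rfl, ?_⟩, ?_⟩
    · rw [zal_pnt0]
      apply Complex.ext <;> simp [mir]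
    · have a1 : cos psi ≤ cos (θ - psi) := by
        rw [← cos_abs (θ - psi)]
        exact cos_le_cos_of_nonneg_of_le_pi (abs_nonneg _) (by linarith [psi_lt])
          (abs_le.2 ⟨by linarith, by linarith⟩)
      have tpsi : tan psi * cos psi = sin psi := tan_mul_cos cos_psi_pos.ne'
      rw [cos_sub, ← tpsi] at a1
      rw [Complex.zero_re, Complex.zero_im]
      refine le_of_mul_le_mul_left ?_ cos_psi_pos
      linarith
  rcases le_total θ (π / 2 - phi) with c' | c'
  · have hd : 0 < π / 2 - phi - 2 * psi := by linarith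
    refine ⟨⟨-tan psi + sin θ, -1 + cos θ⟩, ⟨1, by rw [zal_n]; norm_num,
      (θ - 2 * psi) / (π / 2 - phi - 2 * psi),
      ⟨div_nonneg (by linarith) hd.le, (div_le_one hd).2 (by linarith)⟩, 1, Or.inl rfl, ?_⟩, ?_⟩
    · rw [zal_pnt1, zal_eta1, show 1 + 1 = 2 from rfl, zal_eta2, div_mul_cancel₀ _ hd.ne',
        add_sub_cancel]
      simp [mir]
    · simp only
      linarith
  · refine ⟨_, zal_on_end A B, ?_⟩
    have a1 : sin (π / 2 - phi) ≤ sin θ := sin_le_sin_of_le_of_le_pi_div_two (by linarith) h1 c'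
    rw [sin_pi_div_two_sub] at a1
    have t0 : 0 ≤ tan psi := by rw [tan_psi]; positivity
    have t2 : tan psi * (2 * cos phi) = 1 := by rw [tan_psi]; field_simp
    simp only
    nlinarith

theorem zal_wide {A B : ℝ} (hA : 0 < A) (hB : 0 < B) (hπ : A + B < π) :
    Wide A B (OnC zT0 A B zSol) := by
  intro θ
  have e0 : off A B 0 = 0 := by simp [off]
  have w0 : wt A B 0 = 1 := by simp [wt]
  have key : ∀ p q, OnC zT0 A B zSol p → OnC zT0 A B zSol q → 1 ≤ hs p θ - hs q θ →
      ∃ p0 p1 p2, OnC zT0 A B zSol p0 ∧ OnC zT0 A B zSol p1 ∧ OnC zT0 A B zSol p2 ∧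
        1 ≤ wt A B 0 * hs p0 (θ + off A B 0) + wt A B 1 * hs p1 (θ + off A B 1)
          + wt A B 2 * hs p2 (θ + off A B 2) := by
    intro p q hp hq h
    have h1 := wt_sum hA hB hπ 0 θ q
    refine ⟨p, q, q, hp, hq, hq, ?_⟩
    rw [e0, w0, add_zero, one_mul, zero_add, zero_add] at h1
    rw [e0, w0, add_zero, one_mul]
    linarith
  obtain ⟨p, hp, k⟩ := zal_half_wide A B (abs_nonneg (sin θ)) (abs_nonneg (cos θ))
    (by simp only [sq_abs]; exact sin_sq_add_cos_sq θ)
  have hE := zal_on_end A B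
  rcases le_total 0 (sin θ) with hu | hu <;> rcases le_total 0 (cos θ) with hv | hv
  · rw [abs_of_nonneg hu, abs_of_nonneg hv] at k
    refine key _ _ hp hE.mirror ?_
    simp only [hs, mir, Int.cast_neg, Int.cast_one]
    linarith
  · rw [abs_of_nonneg hu, abs_of_nonpos hv] at k
    refine key _ _ hE hp.mirror ?_
    simp only [hs, mir, Int.cast_neg, Int.cast_one]
    linarith
  · rw [abs_of_nonpos hu, abs_of_nonneg hv] at k
    refine key _ _ hp.mirror hE ?_
    simp only [hs, mir, Int.cast_neg, Int.cast_one]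
    linarith
  · rw [abs_of_nonpos hu, abs_of_nonpos hv] at k
    refine key _ _ hE.mirror hp ?_
    simp only [hs, mir, Int.cast_neg, Int.cast_one]
    linarith

theorem zal_result {X Y Z : ℂ} (hT : AffineIndependent ℝ ![X, Y, Z]) {A B h : ℝ}
    (hA : A = ∠ Y X Z) (hB : B = ∠ X Y Z) (hh : h = dist X Z * sin A) (hAB : A ≤ B)
    (z1 : 2 * cot psi ≤ cot A + cot B)
    (z2 : 1 + cot B ^ 2 ≤ 2 * (cot A + cot B) * (cot B - cot (2 * psi))) :
    Sys zT0 A B zSol ∧
    escapeLength (convexHull ℝ {X, Y, Z}) = ENNReal.ofReal (len zT0 A B zSol * h) ∧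
    escapeLength (interior (convexHull ℝ {X, Y, Z})) = ENNReal.ofReal (len zT0 A B zSol * h) ∧
    IsEscapePath (interior (convexHull ℝ {X, Y, Z})) (curve zT0 A B zSol h) ∧
    pathLength (curve zT0 A B zSol h) = ENNReal.ofReal (len zT0 A B zSol * h) ∧
    ∀ w, h < w → IsEscapePath (convexHull ℝ {X, Y, Z}) (curve zT0 A B zSol w) := by
  have s1 : Std X Y Z h A B := by rw [hh, hA, hB]; exact std_of_indep hT
  have hT' : AffineIndependent ℝ ![Y, X, Z] := by
    rw [affineIndependent_iff_not_collinear_set] at hT ⊢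
    rwa [Set.insert_comm]
  have hnc : ¬Collinear ℝ {X, Y, Z} := affineIndependent_iff_not_collinear_set.1 hT
  have s2 : Std Y X Z h B A := by
    have := std_of_indep hT'
    have e2 : dist Y Z * sin (∠ X Y Z) = h := by
      have l2 := law_sin Y X Z
      rw [angle_comm Z Y X, dist_comm Z Y] at l2
      rw [hh, hA]
      linarith
    rwa [e2, ← hA, ← hB] at this
  have sA := s1.sA
  have sB := s1.sB
  have A0 : 0 < A := by
    rcases eq_or_lt_of_le (hA ▸ angle_nonneg Y X Z : 0 ≤ A) with c | c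
    · rw [← c, sin_zero] at sA; exact absurd sA (lt_irrefl _)
    · exact c
  have B0 : 0 < B := A0.trans_le hAB
  have hπ : A + B < π := by
    have a := angle_add_angle_add_angle_eq_pi (p₁ := X) (p₂ := Y) Z (ne₁₂_of_not_collinear hnc).symm
    have b := angle_pos_of_not_collinear (p₁ := Y) (p₂ := Z) (p₃ := X) (by
      rwa [Set.insert_comm X, Set.pair_comm X] at hnc)
    rw [angle_comm Z X Y] at a
    linarith
  have p1 := sin_psi_pos
  have p2 := sin_two_psi_bounds.1
  have z1' : 2 * sin A * sin B * cos psi ≤ sin psi * sin (A + B) := by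
    simp only [cot_eq_cos_div_sin] at z1
    rw [div_add_div _ _ sA.ne' sB.ne', ← mul_div_assoc, div_le_div_iff₀ p1 (mul_pos sA sB)] at z1
    rw [sin_add]
    linarith
  have z2' : sin A * sin (2 * psi) ≤ 2 * sin (A + B) * sin (2 * psi - B) := by
    simp only [cot_eq_cos_div_sin] at z2
    have p3 : 0 < sin (2 * psi) := by linarith
    have e1 : 1 + (cos B / sin B) ^ 2 =
        sin A * sin (2 * psi) / (sin A * sin B ^ 2 * sin (2 * psi)) := by
      field_simp
      exact sin_sq_add_cos_sq B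
    have e2 : 2 * (cos A / sin A + cos B / sin B) *
        (cos B / sin B - cos (2 * psi) / sin (2 * psi)) =
        2 * sin (A + B) * sin (2 * psi - B) / (sin A * sin B ^ 2 * sin (2 * psi)) := by
      rw [sin_add, sin_sub]
      field_simp
      ring
    rwa [e1, e2, div_le_div_iff_of_pos_right (by positivity)] at z2
  have hσ : 0 < sin (A + B) := sin_pos_of_pos_of_lt_pi (by linarith) hπ
  have sys := zal_sys A0 B0 hπ
  have wide := zal_wide A0 B0 hπ
  have hs := sys.sgn
  have hr := rad_nonneg zT0 A0 B0 hπ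
  have hv : 0 < len zT0 A B zSol := by
    rw [zal_len]
    exact zeta_pos
  have hpos := s1.hpos
  have low : ∀ C, IsEscapePath (interior (convexHull ℝ {X, Y, Z})) C →
      ENNReal.ofReal (len zT0 A B zSol * h) ≤ pathLength C := fun C hC => by
    rw [zal_len]
    exact lower_of_esc A0 hAB hπ z1' z2' hC.1 (s1.esc hC) (s2.esc (by rwa [Set.insert_comm]))
  have mono : ∀ C, IsEscapePath (convexHull ℝ {X, Y, Z}) C →
      IsEscapePath (interior (convexHull ℝ {X, Y, Z})) C := fun C hC =>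
    ⟨hC.1, fun P hP g hg hin => hC.2 P (interior_subset hP) g hg
      fun t ht => interior_subset (hin t ht)⟩
  have op : IsEscapePath (interior (convexHull ℝ {X, Y, Z})) (curve zT0 A B zSol h) :=
    s1.esc_open hσ (fun _ hp => hp.mirror) wide (curve_len hs hr hpos.le).1
      fun _ hp => hp.curve h
  have cls : ∀ w, h < w → IsEscapePath (convexHull ℝ {X, Y, Z}) (curve zT0 A B zSol w) :=
    fun w hw => s1.esc_closed hσ (fun _ hp => hp.mirror) wide
      (curve_len hs hr (hpos.trans hw).le).1 hw fun _ hp => hp.curve w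
  refine ⟨sys, le_antisymm ?_ (le_iInf₂ fun C hC => low C (mono C hC)),
    le_antisymm ((iInf₂_le _ op).trans (curve_len hs hr hpos.le).2) (le_iInf₂ low),
    op, le_antisymm (curve_len hs hr hpos.le).2 (low _ op), cls⟩
  refine ENNReal.le_of_forall_pos_le_add fun ε hε _ => ?_
  have e0 : (0 : ℝ) < ε / len zT0 A B zSol := div_pos (by exact_mod_cast hε) hv
  refine ((iInf₂_le _ (cls (h + ε / len zT0 A B zSol) (by linarith))).trans
    (curve_len hs hr (by linarith)).2).trans (le_of_eq ?_)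
  rw [mul_add, ENNReal.ofReal_add (mul_nonneg hv.le hpos.le) (by positivity),
    mul_div_cancel₀ _ hv.ne', ENNReal.ofReal_coe_nnreal]

end Pool.Agent.P.MP_d76e6a_co
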