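import Pool.Agent.P.MP_d76e6a_co.WEsc

/-!
The zigzags are escape paths; their lengths.
-/

namespace Pool.Agent.P.MP_d76e6a_co

open Real

theorem Ang.wk_gt {A B φ : ℝ} (a : Ang A B) (h0 : 0 < φ) (h1 : 2 * φ ≤ A) : 1 < wk B φ := by
  obtain ⟨sA, sAB, -⟩ := a.sins
  obtain ⟨a0, a1, a2⟩ := a
  rw [wk, one_lt_div (by linarith)]
  have := sin_sub_sin (B + φ) B
  have p1 : 0 < sin ((B + φ - B) / 2) := sin_pos_of_pos_of_lt_pi (by linarith) (by linarith)
  have p2 : 0 < cos ((B + φ + B) / 2) := cos_pos_of_mem_Ioo ⟨by linarith, by linarith⟩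
  nlinarith [mul_pos p1 p2]

theorem Ang.alt_pos {A B : ℝ} (a : Ang A B) : 0 < alt A B := by
  obtain ⟨sA, sAB, sBC⟩ := a.sins
  exact div_pos (mul_pos sA (by linarith)) (by linarith)

theorem Ang.thin {A B φ : ℝ} (a : Ang A B) (h0 : 0 < φ) (h1 : 2 * φ ≤ A) :
    2 * alt A B * (wk B φ - 1) ≤ tan φ := by
  obtain ⟨sA, sAB, sBC⟩ := a.sins
  have hh := a.alt_pos
  obtain ⟨a0, a1, a2⟩ := a
  have sB : 0 < sin B := by linarith
  have sC : 0 < sin (A + B) := by linarith
  have sφ : 0 < sin φ := sin_pos_of_pos_of_lt_pi h0 (by linarith)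
  have cφ : 0 < cos φ := cos_pos_of_mem_Ioo ⟨by linarith, by linarith⟩
  have e1 : sin φ ≤ tan φ := by
    rw [tan_eq_sin_div_cos, le_div_iff₀ cφ]
    nlinarith [cos_le_one φ]
  have e2 : wk B φ - 1 ≤ cos B * sin φ / sin B := by
    rw [wk, sin_add, le_div_iff₀ sB, sub_mul, div_mul_cancel₀ _ sB.ne']
    nlinarith [cos_le_one φ]
  have e3 : 2 * alt A B * (cos B * sin φ / sin B) ≤ sin φ := by
    have : 2 * alt A B * (cos B * sin φ / sin B) = 2 * sin A * cos B / sin (A + B) * sin φ := by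
      rw [alt]; field_simp
    rw [this]
    refine mul_le_of_le_one_left sφ.le ((div_le_one sC).2 ?_)
    have : 0 ≤ sin (B - A) := sin_nonneg_of_nonneg_of_le_pi (by linarith) (by linarith)
    rw [sin_sub] at this
    rw [sin_add]
    linarith
  have := mul_le_mul_of_nonneg_left e2 (show 0 ≤ 2 * alt A B by positivity)
  linarith

theorem Ang.wg_facts {A B φ : ℝ} (a : Ang A B) (h0 : 0 < φ) (h1 : 2 * φ ≤ A) :
    2 * φ ≤ wg A B φ ∧ wg A B φ < π / 2 ∧ wY A B φ ≤ tan (wg A B φ) ∧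
      tan (wg A B φ) ≤ 3 * tan φ ∧ (tan (wg A B φ) = wY A B φ ∨ wg A B φ = 2 * φ) := by
  have th := a.thin h0 h1
  obtain ⟨a0, a1, a2⟩ := a
  have l1 : arctan (wY A B φ) ≤ wg A B φ := le_max_left _ _
  have l2 : 2 * φ ≤ wg A B φ := le_max_right _ _
  have l3 : wg A B φ < π / 2 := max_lt (arctan_lt_pi_div_two _) (by linarith)
  have cs : tan (wg A B φ) = wY A B φ ∨ wg A B φ = 2 * φ := by
    rcases max_choice (arctan (wY A B φ)) (2 * φ) with c | c
    · left; rw [wg, c, tan_arctan]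
    · right; exact c
  refine ⟨l2, l3, ?_, ?_, cs⟩
  · rw [← tan_arctan (wY A B φ)]
    exact strictMonoOn_tan.monotoneOn (arctan_mem_Ioo _) ⟨by linarith, l3⟩ l1
  · rcases cs with c | c
    · rw [c, wY]; linarith
    · have t0 : 0 < tan φ := tan_pos_of_pos_of_lt_pi_div_two h0 (by linarith)
      have t1 : tan φ ≤ tan (π / 6) :=
        strictMonoOn_tan.monotoneOn ⟨by linarith, by linarith⟩ ⟨by linarith, by linarith⟩
          (by linarith)
      have t2 : tan φ ^ 2 ≤ 1 / 3 := by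
        have := pow_le_pow_left₀ t0.le t1 2
        rwa [tan_pi_div_six, div_pow, sq_sqrt (by norm_num), one_pow] at this
      rw [c, tan_two_mul, div_le_iff₀ (by linarith)]
      nlinarith

theorem norm_slope {a b g : ℝ} (hg : 0 < sin g) (hb : 0 ≤ b) (h : a * sin g = b * cos g ∨
    a * sin g = -(b * cos g)) (e : ℝ) (he : e = b ∨ e = -b) : ‖(⟨a, e⟩ : ℂ)‖ = b / sin g := by
  rw [← sq_eq_sq₀ (norm_nonneg _) (by positivity), Complex.sq_norm, Complex.normSq_apply, div_pow,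
    eq_div_iff (by positivity)]
  have h2 : (a * sin g) ^ 2 = (b * cos g) ^ 2 := by rcases h with h | h <;> rw [h] <;> ring
  have h3 : e ^ 2 = b ^ 2 := by rcases he with h | h <;> rw [h] <;> ring
  linear_combination h2 + sin g ^ 2 * h3 + b ^ 2 * sin_sq_add_cos_sq g

theorem Ang.w_path {A B φ : ℝ} (a : Ang A B) (h0 : 0 < φ) (h1 : 2 * φ ≤ A) :
    (Reach (alt A B) A B (wPts A B φ) ∧ Reach (alt A B) B A (wPts A B φ)) ∧
      plen (wPts A B φ) = wV A B φ := by
  obtain ⟨g1, g2, g3, g4, g5⟩ := a.wg_facts h0 h1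
  have k1 := a.wk_gt h0 h1
  have hh := a.alt_pos
  have a2 := a.h2
  have a1 := a.h1
  set g := wg A B φ with hg
  set k := wk B φ with hk
  set x := 1 / (2 * k) with hx
  set y := alt A B * (k - 1) / k with hy
  set w := 2 * y / (tan g - tan φ) with hw
  set p := x - y / tan g with hp
  have el : wPts A B φ =
    [⟨-x, y⟩, ⟨-p, 0⟩, ⟨w - x, y + w * tan φ⟩, ⟨x - w, y + w * tan φ⟩, ⟨p, 0⟩, ⟨x, y⟩] := rfl
  have sφ : 0 < sin φ := sin_pos_of_pos_of_lt_pi h0 (by linarith)
  have cφ : 0 < cos φ := cos_pos_of_mem_Ioo ⟨by linarith, by linarith⟩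
  have sg : 0 < sin g := sin_pos_of_pos_of_lt_pi (by linarith) (by linarith)
  have cg : 0 < cos g := cos_pos_of_mem_Ioo ⟨by linarith, g2⟩
  have tφ : tan φ * cos φ = sin φ := tan_mul_cos cφ.ne'
  have tg : tan g * cos g = sin g := tan_mul_cos cg.ne'
  have t0 : 0 < tan φ := tan_pos_of_pos_of_lt_pi_div_two h0 (by linarith)
  have t1 : tan φ < tan g := tan_lt_tan_of_nonneg_of_lt_pi_div_two h0.le g2 (by linarith)
  have y0 : 0 < y := div_pos (mul_pos hh (by linarith)) (by linarith)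
  have ew : w * (tan g - tan φ) = 2 * y := div_mul_cancel₀ _ (by linarith)
  have w0 : 0 < w := div_pos (by linarith) (by linarith)
  have ep : (x - p) * tan g = y := by
    rw [hp, sub_sub_cancel]; exact div_mul_cancel₀ _ (by linarith)
  have xp : 0 < x - p := by rw [hp, sub_sub_cancel]; exact div_pos y0 (by linarith)
  have eY : x * (wY A B φ - tan φ) = 2 * y := by
    rw [wY, ← hk, hx, hy]; field_simp; ring
  have x0 : 0 < x := by positivity
  have wx : w ≤ x := by
    refine le_of_mul_le_mul_right ?_ (show 0 < tan g - tan φ by linarith)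
    nlinarith
  have hy1 : y ≤ w * tan φ := by nlinarith
  have hy2 : (x - p) * sin φ ≤ y * cos φ := by
    rw [← ep, ← tφ]
    have := mul_le_mul_of_nonneg_left t1.le (mul_pos xp cφ).le
    linarith
  constructor
  · rw [el]
    refine a.reach (ψ := 0) h0 h1 ⟨⟨0, y⟩, ⟨-x, y⟩, by simp, ⟨x, y⟩, by simp,
      ⟨w - x, y + w * tan φ⟩, by simp, ⟨x - w, y + w * tan φ⟩, by simp, ?_, ?_, ?_, ?_, ?_, ?_⟩
      ⟨⟨0, y⟩, ⟨x, y⟩, by simp, ⟨-x, y⟩, by simp, ⟨p, 0⟩, by simp, ⟨-p, 0⟩, by simp,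
        ?_, ?_, ?_, ?_, ?_, ?_⟩
    all_goals
      simp only [ip, Complex.sub_re, Complex.sub_im, cos_add, sin_add, cos_sub, sin_sub, cos_pi,
        sin_pi, cos_pi_div_two, sin_pi_div_two, cos_zero, sin_zero, ← hk, ← hx, ← hy]
    · intro θ; ring
    · intro θ; ring
    · linear_combination (exp := 1) -w * tφ
    · linarith
    · linear_combination (exp := 1) -w * tφ
    · linarith
    · intro θ; ring
    · intro θ; ring
    · linarith
    · linarith
    · linarith
    · linarith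
  · have v0 : 0 ≤ y + w * tan φ := by positivity
    have e1 : (x - p) * sin g = y * cos g := by rw [← ep, ← tg]; ring
    have e2 : (w - x + p) * sin g = (y + w * tan φ) * cos g := by
      linear_combination cos g * ew - e1 - w * tg
    have n1 : ‖(⟨-p, 0⟩ : ℂ) - ⟨-x, y⟩‖ = y / sin g :=
      norm_slope sg y0.le (Or.inl (by linarith)) _ (Or.inr (by ring))
    have n2 : ‖(⟨w - x, y + w * tan φ⟩ : ℂ) - ⟨-p, 0⟩‖ = (y + w * tan φ) / sin g :=
      norm_slope sg v0 (Or.inl (by linarith)) _ (Or.inl (by ring))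
    have n3 : ‖(⟨x - w, y + w * tan φ⟩ : ℂ) - ⟨w - x, y + w * tan φ⟩‖ = 2 * (x - w) := by
      rw [show (⟨x - w, y + w * tan φ⟩ : ℂ) - ⟨w - x, y + w * tan φ⟩ = ((2 * (x - w) : ℝ) : ℂ) from
        Complex.ext (by simp; ring) (by simp), Complex.norm_real, Real.norm_of_nonneg (by linarith)]
    have n4 : ‖(⟨p, 0⟩ : ℂ) - ⟨x - w, y + w * tan φ⟩‖ = (y + w * tan φ) / sin g :=
      norm_slope sg v0 (Or.inl (by linarith)) _ (Or.inr (by ring))
    have n5 : ‖(⟨x, y⟩ : ℂ) - ⟨p, 0⟩‖ = y / sin g :=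
      norm_slope sg y0.le (Or.inl (by linarith)) _ (Or.inl (by ring))
    have e3 : plen (wPts A B φ) = 2 * w / cos g + 2 * (x - w) := by
      rw [el]
      simp only [plen, List.length_cons, List.length_nil, Finset.sum_range_succ, Nat.reduceAdd,
        Nat.add_one_sub_one, Finset.range_zero, Finset.sum_empty, List.getD_cons_succ,
        List.getD_cons_zero, zero_add, n1, n2, n3, n4, n5]
      field_simp
      linear_combination -2 * cos g * ew + 2 * w * tg
    have ek : 2 * x * k = 1 := by rw [hx]; field_simp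
    rw [e3, wV, ← hg, ← hk, eq_div_iff (by linarith)]
    have key : (x - w) * (cos g + sin g * tan φ - 1) = 0 := by
      rcases g5 with c | c
      · have : (x - w) * (tan g - tan φ) = 0 := by rw [← c] at eY; linarith
        rw [(mul_eq_zero.1 this).resolve_right (by linarith), zero_mul]
      · rw [c, cos_two_mul, sin_two_mul]
        linear_combination (x - w) * (2 * sin φ * tφ + 2 * sin_sq_add_cos_sq φ)
    refine mul_left_cancel₀ (mul_pos x0 cg).ne' ?_
    linear_combination x * k * div_mul_cancel₀ (2 * w) cg.ne' + (w + cos g * (x - w)) * ek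
      - cos g * key - cos g * sin g * eY
      + cos g * sin g * ew - w * sin g * tg - w * sin_sq_add_cos_sq g

theorem Ang.b_path {A B : ℝ} (a : Ang A B) (h0 : 0 < cot B) (h1 : cot B ≤ 5)
    (h2 : 2 * arctan (cot B / 9) ≤ A) :
    (Reach (alt A B) A B (bPts B) ∧ Reach (alt A B) B A (bPts B)) ∧ plen (bPts B) = bV B := by
  obtain ⟨sA, sAB, -⟩ := a.sins
  have sB : 0 < sin B := by linarith
  set t := cot B with ht
  set ψ := arctan (t / 9) with hψ
  have p0 : 0 < ψ := arctan_pos.2 (by positivity)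
  have th := a.thin p0 h2
  have k1 := a.wk_gt p0 h2
  have cψ : 0 < cos ψ := cos_arctan_pos _
  have tψ : sin ψ = t / 9 * cos ψ := by rw [← tan_arctan (t / 9), tan_mul_cos cψ.ne']
  have sq1 := sin_sq_add_cos_sq ψ
  have ek : wk B ψ = (9 + t ^ 2) / 9 * cos ψ := by
    rw [wk, sin_add, tψ, ht, cot_eq_cos_div_sin]; field_simp
  set x := 3 / (9 + t ^ 2) with hx
  set y := t / (9 + t ^ 2) with hy
  set u := 1 / (2 * wk B ψ) with hu
  have el : bPts B = [⟨0, 0⟩, ⟨x, y⟩, ⟨2 * x, 0⟩, ⟨3 * x, y⟩] := rfl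
  have x0 : 0 < x := by positivity
  have ey : 3 * y = t * x := by rw [hx, hy]; field_simp
  have e1 : u * cos ψ = 3 * x / 2 := by
    rw [hu, ek, hx]; field_simp; norm_num
  have e2 : u * sin ψ = y / 2 := by rw [tψ]; linear_combination t / 9 * e1 - 1 / 6 * ey
  have c1 : 3 * x / 2 * cos ψ + y / 2 * sin ψ = u := by
    rw [← e1, ← e2]; linear_combination u * sq1
  have c2 : 3 * x / 2 * sin ψ = y / 2 * cos ψ := by rw [← e1, ← e2]; ring
  have sψ : 0 < sin ψ := by rw [tψ]; positivity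
  have f0 : y * sin ψ ≤ x * cos ψ := by
    have : 0 ≤ x * cos ψ * (27 - t ^ 2) := mul_nonneg (by positivity) (by nlinarith)
    rw [tψ]
    linear_combination 1 / 27 * this + t / 27 * cos ψ * ey
  have f1 : u * sin ψ ≤ x * sin ψ * cos ψ + y / 2 * (cos ψ ^ 2 - sin ψ ^ 2) := by
    have := mul_le_mul_of_nonneg_left f0 sψ.le
    linear_combination this + e2 - y / 2 * sq1
  have f2 : alt A B * (wk B ψ - 1) / wk B ψ ≤ x / 2 * sin ψ + y / 2 * cos ψ := by
    have b1 : alt A B * (wk B ψ - 1) / wk B ψ ≤ u * tan ψ := by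
      rw [hu, div_le_iff₀ (by linarith)]
      field_simp
      linarith
    refine b1.trans (le_of_mul_le_mul_right ?_ cψ)
    have := mul_le_mul_of_nonneg_left f0 sψ.le
    linear_combination 1 / 2 * this + u * tan_mul_cos cψ.ne' + e2 - y / 2 * sq1
  constructor
  · rw [el]
    refine a.reach (ψ := ψ) p0 h2 ⟨⟨3 * x / 2, y / 2⟩, ⟨0, 0⟩, by simp, ⟨3 * x, y⟩, by simp,
      ⟨x, y⟩, by simp, ⟨x, y⟩, by simp, ?_, ?_, ?_, ?_, ?_, ?_⟩
      ⟨⟨3 * x / 2, y / 2⟩, ⟨3 * x, y⟩, by simp, ⟨0, 0⟩, by simp, ⟨2 * x, 0⟩, by simp, ⟨2 * x, 0⟩,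
        by simp, ?_, ?_, ?_, ?_, ?_, ?_⟩
    all_goals
      simp only [ip, Complex.sub_re, Complex.sub_im, cos_add, sin_add, cos_sub, sin_sub, cos_pi,
        sin_pi, cos_pi_div_two, sin_pi_div_two, ← hu]
    · intro θ; linear_combination -cos θ * c1 + sin θ * c2
    · intro θ; linear_combination cos θ * c1 - sin θ * c2
    · linarith
    · linarith
    · linear_combination (exp := 1) e2 - y / 2 * sq1
    · linarith
    · intro θ; linear_combination -cos θ * c1 + sin θ * c2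
    · intro θ; linear_combination cos θ * c1 - sin θ * c2
    · linarith
    · linarith
    · linear_combination (exp := 1) e2 - y / 2 * sq1
    · linarith
  · have D0 : 0 < 9 + t ^ 2 := by positivity
    have n : ∀ e : ℝ, e ^ 2 = y ^ 2 → ‖(⟨x, e⟩ : ℂ)‖ = 1 / √(9 + t ^ 2) := fun e he => by
      rw [← sq_eq_sq₀ (norm_nonneg _) (by positivity), Complex.sq_norm, Complex.normSq_apply,
        div_pow, sq_sqrt D0.le, ← sq, ← sq, he, hx, hy]
      field_simp
      norm_num
    have n1 : (⟨x, y⟩ : ℂ) - ⟨0, 0⟩ = ⟨x, y⟩ := Complex.ext (by simp) (by simp)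
    have n2 : (⟨2 * x, 0⟩ : ℂ) - ⟨x, y⟩ = ⟨x, -y⟩ := Complex.ext (by simp; ring) (by simp)
    have n3 : (⟨3 * x, y⟩ : ℂ) - ⟨2 * x, 0⟩ = ⟨x, y⟩ := Complex.ext (by simp; ring) (by simp)
    rw [el]
    simp only [plen, List.length_cons, List.length_nil, Finset.sum_range_succ, Nat.reduceAdd,
      Nat.add_one_sub_one, Finset.range_zero, Finset.sum_empty, List.getD_cons_succ,
      List.getD_cons_zero, zero_add, n1, n2, n3, n y rfl, n (-y) (by ring), bV, ← ht]
    ring

end Pool.Agent.P.MP_d76e6a_co
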