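import Pool.Agent.P.MP_d76e6a_co.WRows
import Pool.Agent.P.MP_d76e6a_co.WUp

/-!
Dual certificates adapted to the crossing angles of the two halves.
-/

namespace Pool.Agent.P.MP_d76e6a_co

open Real

theorem SupT.left {τ : ℝ} (L R : Half) {ψ η η' : ℝ} (k : ℤ) (h0 : 0 ≤ η') (h1 : η' ≤ π)
    (h : |η - η'| ≤ τ) (e : ψ = η + k * (2 * π)) : SupT τ L R ψ (L.hh η η') :=
  ⟨η, η', k, h0, h1, h, Or.inl ⟨e, rfl⟩⟩

theorem SupT.right {τ : ℝ} (L R : Half) {ψ η η' : ℝ} (k : ℤ) (h0 : 0 ≤ η') (h1 : η' ≤ π)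
    (h : |η - η'| ≤ τ) (e : ψ = -η + k * (2 * π)) : SupT τ L R ψ (R.hh η η') :=
  ⟨η, η', k, h0, h1, h, Or.inr ⟨e, rfl⟩⟩

theorem RowsT.top {τ ρ A B x y : ℝ} {L R : Half} (r : RowsT τ ρ L R A B) (hτ : 0 ≤ τ) (hB : 0 ≤ B)
    (hAB : A + B ≤ π) (x0 : 0 ≤ x) (x1 : x ≤ A) (y0 : 0 ≤ y) (y1 : y ≤ π) (h : |x - y| ≤ τ) :
    ρ * sin (A + B) ≤ sin B * R.hh (π - A + x) (π - A + x) + sin A * L.hh (π - B - x) (π - B - x)
      + sin (A + B) * R.hh x y :=
  r (-x) _ _ _ (SupT.right L R 1 (by linarith) (by linarith) (by simpa using hτ) (by push_cast; ring))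
    (SupT.left L R 0 (by linarith) (by linarith) (by simpa using hτ) (by push_cast; ring))
    (SupT.right L R 0 y0 y1 h (by push_cast; ring))

theorem RowsT.bot {τ ρ A B : ℝ} {L R : Half} (r : RowsT τ ρ L R A B) (hτ : 0 ≤ τ) (hA : 0 ≤ A)
    (hB : 0 ≤ B) (hAB : A + B ≤ π) : ρ * sin (A + B) ≤ sin B * L.hh A A + sin A * R.hh B B
      + sin (A + B) * min (L.hh π π) (R.hh π π) := by
  have hpi := pi_pos
  have a1 := SupT.left L R (ψ := π + π + A) (η := A) 1 hA (by linarith) (by simpa using hτ)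
    (by push_cast; ring)
  have a2 := SupT.right L R (ψ := π + π - B) (η := B) 1 hB (by linarith) (by simpa using hτ)
    (by push_cast; ring)
  rcases min_choice (L.hh π π) (R.hh π π) with c | c <;> rw [c]
  · exact r π _ _ _ a1 a2 (SupT.left L R 0 hpi.le le_rfl (by simpa using hτ) (by push_cast; ring))
  · exact r π _ _ _ a1 a2 (SupT.right L R 1 hpi.le le_rfl (by simpa using hτ) (by push_cast; ring))

/-- The masses of the certificate on one half. -/
noncomputable def part (H : Half) (A B x y z e l n1 n2 ν1 ν2 p : ℝ) : ℝ :=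
  (H.X (H.d x) * (e * sin x) + H.Y (H.d x) * (e * cos x))
    + (H.X (H.d y) * (l * sin x) + H.Y (H.d y) * (l * cos x))
    + (H.X (H.d A) * (alt A B * n1) + H.Y (H.d A) * (alt A B * n1 * (cos A / sin A)))
    + (H.X (H.d B) * (alt A B * n2) + H.Y (H.d B) * (alt A B * n2 * (cos B / sin B)))
    + (H.X (H.d (π - B - z)) * (ν2 * sin (B + z)) - H.Y (H.d (π - B - z)) * (ν2 * cos (B + z)))
    + (H.X (H.d (π - A + x)) * (ν1 * (sin B / sin A) * sin (A - x))
      - H.Y (H.d (π - A + x)) * (ν1 * (sin B / sin A) * cos (A - x)))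
    - H.Y (H.d π) * p

theorem rows4 {τ ρ A B α β yL yR : ℝ} {L R : Half} (r1 : RowsT τ ρ L R A B)
    (r2 : RowsT τ ρ R L A B) (hτ : 0 ≤ τ) (a : Ang A B) (a0 : 0 ≤ α) (a1 : α ≤ yL) (a2 : yL ≤ A)
    (a3 : yL - α ≤ τ) (b0 : 0 ≤ β) (b1 : β ≤ yR) (b2 : yR ≤ A) (b3 : yR - β ≤ τ)
    {np nm ea la eb lb να νβ pL pR : ℝ} (w1 : 0 ≤ np) (w2 : 0 ≤ nm) (w3 : 0 ≤ ea) (w4 : 0 ≤ la)
    (w5 : 0 ≤ eb) (w6 : 0 ≤ lb) (w7 : 0 ≤ pL) (w8 : 0 ≤ pR) (e1 : np + nm = pL + pR)
    (e2 : (ea + la) * sin A = να * sin (A + B)) (e3 : (eb + lb) * sin A = νβ * sin (A + B)) :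
    ρ * (np + nm + (ea + la) + (eb + lb)) ≤
      part L A B α yL β ea la np nm να νβ pL + part R A B β yR α eb lb nm np νβ να pR := by
  obtain ⟨sA, sAB, sBC⟩ := a.sins
  obtain ⟨A0, A1, A2⟩ := a
  have hpi := pi_pos
  have sB : 0 < sin B := by linarith
  have sC : 0 < sin (A + B) := by linarith
  have k1 := mul_le_mul_of_nonneg_left (r1.bot hτ A0.le (by linarith) (by linarith)) w1
  have k2 := mul_le_mul_of_nonneg_left (r2.bot hτ A0.le (by linarith) (by linarith)) w2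
  have k3 := mul_le_mul_of_nonneg_left (r2.top (y := α) hτ (by linarith) (by linarith) a0
    (by linarith) a0 (by linarith) (by simpa using hτ)) w3
  have k4 := mul_le_mul_of_nonneg_left (r2.top (y := yL) hτ (by linarith) (by linarith) a0
    (by linarith) (by linarith) (by linarith) (abs_le.2 ⟨by linarith, by linarith⟩)) w4
  have k5 := mul_le_mul_of_nonneg_left (r1.top (y := β) hτ (by linarith) (by linarith) b0
    (by linarith) b0 (by linarith) (by simpa using hτ)) w5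
  have k6 := mul_le_mul_of_nonneg_left (r1.top (y := yR) hτ (by linarith) (by linarith) b0
    (by linarith) (by linarith) (by linarith) (abs_le.2 ⟨by linarith, by linarith⟩)) w6
  rw [min_comm] at k2
  have k7 := mul_le_mul_of_nonneg_left (min_le_left (L.hh π π) (R.hh π π)) (mul_nonneg w7 sC.le)
  have k8 := mul_le_mul_of_nonneg_left (min_le_right (L.hh π π) (R.hh π π)) (mul_nonneg w8 sC.le)
  generalize min (L.hh π π) (R.hh π π) = μ at *
  have k9 : μ * sin (A + B) * (np + nm) = μ * sin (A + B) * (pL + pR) := by rw [e1]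
  have key : ∀ (H : Half) (x y z e l n1 n2 ν1 ν2 p w : ℝ), (e + l) * sin A = ν1 * sin (A + B) →
      w * sin A = ν2 * sin (A + B) → sin (A + B) * part H A B x y z e l n1 n2 ν1 ν2 p =
        e * (sin (A + B) * H.hh x x) + l * (sin (A + B) * H.hh x y) + n1 * (sin B * H.hh A A)
        + n2 * (sin A * H.hh B B) + w * (sin A * H.hh (π - B - z) (π - B - z))
        + (e + l) * (sin B * H.hh (π - A + x) (π - A + x)) + p * sin (A + B) * H.hh π π := by
    intro H x y z e l n1 n2 ν1 ν2 p w h1 h2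
    have f1 : ν1 = (e + l) * sin A / sin (A + B) := by rw [h1]; field_simp
    have f2 : ν2 = w * sin A / sin (A + B) := by rw [h2]; field_simp
    have f3 : sin (π - B - z) = sin (B + z) := by rw [sub_sub, sin_pi_sub]
    have f4 : cos (π - B - z) = -cos (B + z) := by rw [sub_sub, cos_pi_sub]
    have f5 : sin (π - A + x) = sin (A - x) := by rw [show π - A + x = π - (A - x) by ring, sin_pi_sub]
    have f6 : cos (π - A + x) = -cos (A - x) := by rw [show π - A + x = π - (A - x) by ring, cos_pi_sub]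
    simp only [part, Half.hh, alt, f3, f4, f5, f6, sin_pi, cos_pi]
    rw [f1, f2]
    field_simp
    ring
  refine le_of_mul_le_mul_left ?_ sC
  rw [mul_add (sin (A + B)), key L _ _ _ _ _ _ _ _ _ _ _ e2 e3, key R _ _ _ _ _ _ _ _ _ _ _ e3 e2]
  linarith

end Pool.Agent.P.MP_d76e6a_co
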