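import Pool.Agent.P.MP_d76e6a_co.Defs

/-!
Zigzag paths. Lengths are in units of the side `c` between the angles `A` and `B`.
-/

namespace Pool.Agent.P.MP_d76e6a_co

open Real

/-- The polygonal path through the points of a list, parametrised by `[0, 1]`. -/
noncomputable def poly (l : List ℂ) (t : ℝ) : ℂ :=
  l.getD 0 0 + ∑ i ∈ Finset.range (l.length - 1),
    max 0 (min 1 (((l.length - 1 : ℕ) : ℝ) * t - i)) • (l.getD (i + 1) 0 - l.getD i 0)

/-- The altitude onto the side `c = 1`. -/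
noncomputable def alt (A B : ℝ) : ℝ := sin A * sin B / sin (A + B)

/-- The reciprocal of the distance between the end points of the zigzag. -/
noncomputable def wk (B φ : ℝ) : ℝ := sin (B + φ) / sin B

noncomputable def wY (A B φ : ℝ) : ℝ := 4 * alt A B * (wk B φ - 1) + tan φ

/-- The slope angle of the zigzag. -/
noncomputable def wg (A B φ : ℝ) : ℝ := max (arctan (wY A B φ)) (2 * φ)

/-- The length of the zigzag. -/
noncomputable def wV (A B φ : ℝ) : ℝ :=
  (cos (wg A B φ) + sin (wg A B φ) * wY A B φ) / wk B φ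

/-- The vertices of the symmetric zigzag with parameter `φ`. -/
noncomputable def wPts (A B φ : ℝ) : List ℂ :=
  let x := 1 / (2 * wk B φ)
  let y := alt A B * (wk B φ - 1) / wk B φ
  let w := 2 * y / (tan (wg A B φ) - tan φ)
  let p := x - y / tan (wg A B φ)
  [⟨-x, y⟩, ⟨-p, 0⟩, ⟨w - x, y + w * tan φ⟩, ⟨x - w, y + w * tan φ⟩, ⟨p, 0⟩, ⟨x, y⟩]

/-- The length of the zigzag with three equal segments. -/
noncomputable def bV (B : ℝ) : ℝ := 3 / √(9 + cot B ^ 2)

/-- The vertices of the zigzag with three equal segments. -/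
noncomputable def bPts (B : ℝ) : List ℂ :=
  let x := 3 / (9 + cot B ^ 2)
  let y := cot B / (9 + cot B ^ 2)
  [⟨0, 0⟩, ⟨x, y⟩, ⟨2 * x, 0⟩, ⟨3 * x, y⟩]

/-- `(A, B)` lies in the trapezoid between the sections `p` and `q`; a section `(a, b, c)` is the
segment `A = a`, `b ≤ B ≤ c`, in units of one sixteenth of a degree. -/
def InCol (p q : ℕ × ℕ × ℕ) (A B : ℝ) : Prop :=
  ∃ u ∈ Set.Icc (0 : ℝ) 1, A = ((1 - u) * p.1 + u * q.1) * (π / 2880) ∧
    ((1 - u) * p.2.1 + u * q.2.1) * (π / 2880) ≤ B ∧ B ≤ ((1 - u) * p.2.2 + u * q.2.2) * (π / 2880)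

end Pool.Agent.P.MP_d76e6a_co
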