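import Pool.Agent.P.MP_d76e6a_co.WPoly

/-!
Thin sets with a long chord reach across the triangle.
-/

namespace Pool.Agent.P.MP_d76e6a_co

open Real

/-- The value of a placement at three points. -/
noncomputable def rowv (P Q : ℝ) (p q r : ℂ) (θ : ℝ) : ℝ :=
  sin Q * ip p (θ + π + P) + sin P * ip q (θ + π - Q) + sin (P + Q) * ip r θ

theorem rowv_sub (P Q : ℝ) (p q r M : ℂ) (θ : ℝ) :
    rowv P Q (p - M) (q - M) (r - M) θ = rowv P Q p q r θ := by
  simp only [rowv, ip, cos_add, sin_add, cos_sub, sin_sub, cos_pi, sin_pi, Complex.sub_re,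
    Complex.sub_im]
  ring

theorem rowv_between {P Q ρ θ a b : ℝ} {p q r : ℂ} (hρ : 0 ≤ ρ) (h1 : a ≤ θ) (h2 : θ ≤ b)
    (h3 : b < a + π) (ha : ρ ≤ rowv P Q p q r a) (hb : ρ ≤ rowv P Q p q r b) :
    ρ ≤ rowv P Q p q r θ := by
  rcases eq_or_lt_of_le (h1.trans h2) with c | c
  · rwa [show θ = a by linarith]
  have s1 : 0 < sin (b - a) := sin_pos_of_pos_of_lt_pi (by linarith) (by linarith)
  have s2 : 0 ≤ sin (b - θ) := sin_nonneg_of_nonneg_of_le_pi (by linarith) (by linarith)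
  have s3 : 0 ≤ sin (θ - a) := sin_nonneg_of_nonneg_of_le_pi (by linarith) (by linarith)
  have e : sin (b - a) * rowv P Q p q r θ
      = sin (b - θ) * rowv P Q p q r a + sin (θ - a) * rowv P Q p q r b := by
    simp only [rowv, ip, cos_add, sin_add, cos_sub, sin_sub, cos_pi, sin_pi]
    ring
  have s4 : sin (b - a) ≤ sin (b - θ) + sin (θ - a) := by
    rw [show b - a = (b - θ) + (θ - a) by ring, sin_add]
    nlinarith [cos_le_one (θ - a), cos_le_one (b - θ)]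
  refine le_of_mul_le_mul_left ?_ s1
  rw [e]
  nlinarith [mul_le_mul_of_nonneg_left ha s2, mul_le_mul_of_nonneg_left hb s3]

/-- Some three points of `l` have value at least `ρ`. -/
def Rw (ρ P Q : ℝ) (l : List ℂ) (θ : ℝ) : Prop :=
  ∃ p ∈ l, ∃ q ∈ l, ∃ r ∈ l, ρ ≤ rowv P Q p q r θ

theorem Rw.per {ρ P Q θ θ' : ℝ} {l : List ℂ} (h : Rw ρ P Q l θ) (k : ℤ)
    (e : θ' = θ + k * (2 * π)) : Rw ρ P Q l θ' := by
  obtain ⟨p, hp, q, hq, r, hr, h⟩ := h
  refine ⟨p, hp, q, hq, r, hr, ?_⟩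
  rw [e, rowv, show θ + k * (2 * π) + π + P = θ + π + P + k * (2 * π) by ring,
    show θ + k * (2 * π) + π - Q = θ + π - Q + k * (2 * π) by ring, ip_add_int, ip_add_int,
    ip_add_int]
  exact h

theorem Rw.cyc {ρ P Q R θ : ℝ} {l : List ℂ} (e : P + Q + R = π) (h : Rw ρ R P l (θ + π + P)) :
    Rw ρ P Q l θ := by
  obtain ⟨p, hp, q, hq, r, hr, h⟩ := h
  refine ⟨r, hr, p, hp, q, hq, ?_⟩
  rw [rowv, show θ + π + P + π + R = θ + π - Q + 2 * π by linarith,
    show θ + π + P + π - P = θ + 2 * π by ring, ip_add_two_pi, ip_add_two_pi,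
    show R + P = π - Q by linarith, show R = π - (P + Q) by linarith, sin_pi_sub, sin_pi_sub] at h
  rw [rowv]
  linarith

/-- A chord of length `2 x` in direction `ψ` and points above it. -/
structure Cap (l : List ℂ) (x y φ ψ : ℝ) : Prop where
  ex : ∃ M : ℂ, ∃ E ∈ l, ∃ F ∈ l, ∃ S ∈ l, ∃ T ∈ l,
    (∀ θ, ip (E - M) (θ + ψ) = -x * cos θ) ∧ (∀ θ, ip (F - M) (θ + ψ) = x * cos θ) ∧
    x * sin φ ≤ ip (S - M) (π / 2 + φ + ψ) ∧ y ≤ ip (S - M) (π / 2 + ψ) ∧
    x * sin φ ≤ ip (T - M) (π / 2 - φ + ψ) ∧ y ≤ ip (T - M) (π / 2 + ψ)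

theorem Cap.fam {l : List ℂ} {x y φ ψ ρ P Q : ℝ} (c : Cap l x y φ ψ) (hρ : 0 ≤ ρ) (h0 : 0 ≤ φ)
    (h1 : 2 * φ ≤ P) (h2 : P < π) (hs : 0 ≤ sin (P + Q))
    (k1 : ρ ≤ 2 * x * sin P * sin (Q + φ)) (k2 : ρ ≤ 2 * x * sin P * sin (P + Q - φ))
    (k3 : ρ ≤ 2 * x * sin Q * sin (P + φ)) (k4 : ρ ≤ sin (P + Q) * y + 2 * x * sin P * sin Q)
    {θ : ℝ} (t1 : π / 2 - P + φ ≤ θ) (t2 : θ ≤ π / 2 + φ) : Rw ρ P Q l (θ + ψ) := by
  obtain ⟨M, E, hE, F, hF, S, hS, T, hT, e1, e2, s1, s2, s3, s4⟩ := c.ex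
  have val : ∀ (r : ℂ) (η : ℝ), rowv P Q F E r (π / 2 - η + ψ) =
      x * (sin Q * sin (P - η) + sin P * sin (Q + η)) + sin (P + Q) * ip (r - M) (π / 2 - η + ψ) := by
    intro r η
    rw [← rowv_sub P Q F E r M, rowv,
      show π / 2 - η + ψ + π + P = (π / 2 - η + π + P) + ψ by ring,
      show π / 2 - η + ψ + π - Q = (π / 2 - η + π - Q) + ψ by ring, e1, e2]
    simp only [cos_add, sin_add, cos_sub, sin_sub, cos_pi, sin_pi, cos_pi_div_two, sin_pi_div_two]
    ring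
  have id1 : ∀ η, sin Q * sin (P - η) + sin (P + Q) * sin η = sin P * sin (Q + η) := fun η => by
    simp only [sin_add, sin_sub]; ring
  have id2 : sin P * sin (Q + -φ) + sin (P + Q) * sin φ = sin Q * sin (P + φ) := by
    simp only [sin_add, sin_neg, cos_neg]; ring
  have end1 : ∀ η, rowv P Q F E F (π / 2 - η + ψ) = 2 * x * sin P * sin (Q + η) := fun η => by
    rw [val, e2, cos_pi_div_two_sub]
    linear_combination x * id1 η
  have mid : ∀ r, y ≤ ip (r - M) (π / 2 + ψ) → ρ ≤ rowv P Q F E r (π / 2 + ψ) := fun r hr => by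
    have := val r 0
    simp only [sub_zero, add_zero] at this
    rw [this]
    nlinarith [mul_le_mul_of_nonneg_left hr hs]
  rcases le_total θ (π / 2 - φ) with c1 | c1
  · refine ⟨F, hF, E, hE, F, hF, rowv_between (a := π / 2 - (P - φ) + ψ) (b := π / 2 - φ + ψ) hρ
      (by linarith) (by linarith) (by linarith) ?_ ?_⟩
    · rw [end1, show Q + (P - φ) = P + Q - φ by ring]; exact k2
    · rw [end1]; exact k1
  rcases le_total θ (π / 2) with c2 | c2
  · refine ⟨F, hF, E, hE, T, hT, rowv_between (a := π / 2 - φ + ψ) (b := π / 2 + ψ) hρ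
      (by linarith) (by linarith) (by linarith) ?_ (mid T s4)⟩
    rw [val]
    nlinarith [mul_le_mul_of_nonneg_left s3 hs, congrArg (x * ·) (id1 φ)]
  · refine ⟨F, hF, E, hE, S, hS, rowv_between (a := π / 2 + ψ) (b := π / 2 - -φ + ψ) hρ
      (by linarith) (by linarith) (by linarith) (mid S s2) ?_⟩
    rw [val, sub_neg_eq_add, sub_neg_eq_add]
    nlinarith [mul_le_mul_of_nonneg_left s1 hs, congrArg (x * ·) id2]

theorem reach6 {l : List ℂ} {x y φ ψ ρ P Q R : ℝ} (c1 : Cap l x y φ ψ) (c2 : Cap l x y φ (ψ + π))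
    (hρ : 0 ≤ ρ) (h0 : 0 < φ) (e : P + Q + R = π) (hP : 2 * φ ≤ P) (hQ : 2 * φ ≤ Q)
    (hR : 2 * φ ≤ R)
    (kPQ : ρ ≤ 2 * x * sin P * sin (Q + φ)) (kPR : ρ ≤ 2 * x * sin P * sin (R + φ))
    (kQP : ρ ≤ 2 * x * sin Q * sin (P + φ)) (kQR : ρ ≤ 2 * x * sin Q * sin (R + φ))
    (kRP : ρ ≤ 2 * x * sin R * sin (P + φ)) (kRQ : ρ ≤ 2 * x * sin R * sin (Q + φ))
    (mR : ρ ≤ sin R * y + 2 * x * sin P * sin Q) (mQ : ρ ≤ sin Q * y + 2 * x * sin R * sin P)
    (mP : ρ ≤ sin P * y + 2 * x * sin Q * sin R) (θ : ℝ) : Rw ρ P Q l θ := by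
  have hpi := pi_pos
  have gen : ∀ {P Q R ψ : ℝ}, Cap l x y φ ψ → P + Q + R = π → 2 * φ ≤ P → 2 * φ ≤ Q → 2 * φ ≤ R →
      ρ ≤ 2 * x * sin P * sin (Q + φ) → ρ ≤ 2 * x * sin P * sin (R + φ) →
      ρ ≤ 2 * x * sin Q * sin (P + φ) → ρ ≤ sin R * y + 2 * x * sin P * sin Q →
      ∀ θ, π / 2 - P + φ ≤ θ → θ ≤ π / 2 + φ → Rw ρ P Q l (θ + ψ) := by
    intro P Q R ψ c e hP hQ hR k1 k2 k3 k4 θ t1 t2
    have e1 : sin (P + Q) = sin R := by rw [show P + Q = π - R by linarith, sin_pi_sub]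
    have e2 : sin (P + Q - φ) = sin (R + φ) := by
      rw [show P + Q - φ = π - (R + φ) by linarith, sin_pi_sub]
    exact c.fam hρ h0.le hP (by linarith)
      (sin_nonneg_of_nonneg_of_le_pi (by linarith) (by linarith)) k1 (e2 ▸ k2) k3 (e1 ▸ k4) t1 t2
  have gc := fun {ψ} (c : Cap l x y φ ψ) => gen c e hP hQ hR kPQ kPR kQP mR
  have gb := fun {ψ} (c : Cap l x y φ ψ) =>
    gen (P := R) (Q := P) (R := Q) c (by linarith) hR hP hQ kRP kRQ kPR mQ
  have ga := fun {ψ} (c : Cap l x y φ ψ) =>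
    gen (P := Q) (Q := R) (R := P) c (by linarith) hQ hR hP kQR kQP kRQ mP
  have cb : ∀ θ, Rw ρ R P l (θ + π + P) → Rw ρ P Q l θ := fun θ h => h.cyc e
  have ca : ∀ θ, Rw ρ Q R l (θ + π - Q) → Rw ρ P Q l θ := fun θ h =>
    cb θ (Rw.cyc (R := Q) (by linarith) (h.per 1 (by push_cast; linarith)))
  obtain ⟨k, t, e1, t1, t2⟩ : ∃ (k : ℤ) (t : ℝ), θ = t + ψ + k * (2 * π) ∧
      -(3 * π / 2) + φ ≤ t ∧ t ≤ π / 2 + φ := by
    have p2 : 0 < 2 * π := by positivity
    have m := toIcoMod_mem_Ico p2 (-(3 * π / 2) + φ) (θ - ψ)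
    have d := toIcoMod_add_toIcoDiv_zsmul p2 (-(3 * π / 2) + φ) (θ - ψ)
    refine ⟨toIcoDiv p2 (-(3 * π / 2) + φ) (θ - ψ), _, ?_, m.1, by linarith [m.2]⟩
    rw [zsmul_eq_mul] at d
    linarith
  refine Rw.per ?_ k e1
  rcases le_total (π / 2 - P + φ) t with d1 | d1
  · exact gc c1 t d1 t2
  rcases le_total (Q - π / 2 + φ) t with d2 | d2
  · exact cb _ ((gb c2 (t + P) (by linarith) (by linarith)).per 0 (by push_cast; ring))
  rcases le_total (-(π / 2) + φ) t with d3 | d3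
  · exact ca _ ((ga c1 (t + π - Q) (by linarith) (by linarith)).per 0 (by push_cast; ring))
  rcases le_total (-(π / 2) - P + φ) t with d4 | d4
  · exact (gc c2 (t + π) (by linarith) (by linarith)).per (-1) (by push_cast; ring)
  rcases le_total (Q - 3 * π / 2 + φ) t with d5 | d5
  · exact cb _ ((gb c1 (t + π + P) (by linarith) (by linarith)).per 0 (by push_cast; ring))
  · exact ca _ ((ga c2 (t + 2 * π - Q) (by linarith) (by linarith)).per (-1) (by push_cast; ring))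

/-- The angles of a triangle in increasing order. -/
structure Ang (A B : ℝ) : Prop where
  h0 : 0 < A
  h1 : A ≤ B
  h2 : A + 2 * B ≤ π

theorem Ang.sins {A B : ℝ} (a : Ang A B) : 0 < sin A ∧ sin A ≤ sin B ∧ sin B ≤ sin (A + B) := by
  obtain ⟨h0, h1, h2⟩ := a
  refine ⟨sin_pos_of_pos_of_lt_pi h0 (by linarith),
    sin_le_sin_of_le_of_le_pi_div_two (by linarith) (by linarith) h1, ?_⟩
  have := sin_sub_sin (A + B) B
  have p1 : 0 ≤ sin ((A + B - B) / 2) := sin_nonneg_of_nonneg_of_le_pi (by linarith) (by linarith)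
  have p2 : 0 ≤ cos ((A + B + B) / 2) := cos_nonneg_of_mem_Icc ⟨by linarith, by linarith⟩
  nlinarith [mul_nonneg p1 p2]

theorem Ang.reach {A B φ ψ : ℝ} (a : Ang A B) (h0 : 0 < φ) (h1 : 2 * φ ≤ A) {l : List ℂ}
    (c1 : Cap l (1 / (2 * wk B φ)) (alt A B * (wk B φ - 1) / wk B φ) φ ψ)
    (c2 : Cap l (1 / (2 * wk B φ)) (alt A B * (wk B φ - 1) / wk B φ) φ (ψ + π)) :
    Reach (alt A B) A B l ∧ Reach (alt A B) B A l := by
  obtain ⟨sA, sAB, sBC⟩ := a.sins
  obtain ⟨a0, a1, a2⟩ := a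
  have sB : 0 < sin B := by linarith
  have sC : 0 < sin (A + B) := by linarith
  have sφ : 0 < sin φ := sin_pos_of_pos_of_lt_pi h0 (by linarith)
  have sK : 0 < sin (B + φ) := sin_pos_of_pos_of_lt_pi (by linarith) (by linarith)
  set R := π - (A + B) with hR
  have eR : sin R = sin (A + B) := sin_pi_sub _
  set u := sin B / sin (B + φ) with hu
  have u0 : 0 < u := by positivity
  have eu : u * sin (B + φ) = sin B := by rw [hu]; field_simp
  have ex : 2 * (1 / (2 * wk B φ)) = u := by rw [hu, wk]; field_simp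
  have ey : alt A B * (wk B φ - 1) / wk B φ = alt A B * (1 - u) := by rw [hu, wk]; field_simp
  have eh : alt A B * sin (A + B) = sin A * sin B := by rw [alt]; field_simp
  have u2 : 1 / 2 ≤ u := by
    rw [hu, le_div_iff₀ sK, sin_add]
    have := sin_le_sin_of_le_of_le_pi_div_two (x := φ) (y := B) (by linarith) (by linarith)
      (by linarith)
    nlinarith [cos_le_one φ, cos_le_one B]
  have f1 : sin A * sin (B + φ) ≤ sin B * sin (A + φ) := by
    have : 0 ≤ sin (B - A) := sin_nonneg_of_nonneg_of_le_pi (by linarith) (by linarith)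
    have := mul_nonneg this sφ.le
    simp only [sin_add, sin_sub] at this ⊢
    linarith
  have f2 : sin (B + φ) ≤ sin (R + φ) := by
    have := sin_sub_sin (R + φ) (B + φ)
    have p1 : 0 ≤ sin ((R + φ - (B + φ)) / 2) :=
      sin_nonneg_of_nonneg_of_le_pi (by linarith) (by linarith)
    have p2 : 0 ≤ cos ((R + φ + (B + φ)) / 2) := cos_nonneg_of_mem_Icc ⟨by linarith, by linarith⟩
    nlinarith [mul_nonneg p1 p2]
  have sAφ : 0 < sin (A + φ) := sin_pos_of_pos_of_lt_pi (by linarith) (by linarith)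
  have base : ∀ s t : ℝ, sin A * sin (B + φ) ≤ s * t → sin A * sin B ≤ u * s * t := fun s t h => by
    have := mul_le_mul_of_nonneg_left h u0.le
    linear_combination this - sin A * eu
  have kAB := base (sin A) (sin (B + φ)) le_rfl
  have kAR := base (sin A) (sin (R + φ)) (by gcongr)
  have kBA := base (sin B) (sin (A + φ)) f1
  have kBR := base (sin B) (sin (R + φ)) (by gcongr)
  have kRA := base (sin R) (sin (A + φ)) (f1.trans (by rw [eR]; gcongr))
  have kRB := base (sin R) (sin (B + φ)) (by rw [eR]; gcongr; linarith)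
  have mm : ∀ s t : ℝ, 0 < s → 0 < t → s ≤ sin (A + B) → s * t = sin A * sin B →
      sin A * sin B ≤ s * (alt A B * (1 - u)) + u * sin (A + B) * t := fun s t hs ht h e => by
    refine le_of_mul_le_mul_left ?_ sC
    have k : 0 ≤ t * ((sin (A + B) - s) * (u * (sin (A + B) + s) - s)) :=
      mul_nonneg ht.le (mul_nonneg (by linarith) (by nlinarith))
    linear_combination k - s * (1 - u) * eh + (s * (1 - u) - sin (A + B)) * e
  have mR : sin A * sin B ≤ sin R * (alt A B * (1 - u)) + u * sin A * sin B := by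
    rw [eR]; linear_combination -(1 - u) * eh
  have mB := mm (sin B) (sin A) sB sA sBC (mul_comm _ _)
  have mA := mm (sin A) (sin B) sA sB (by linarith) rfl
  rw [← eR, ← ey, ← ex] at mB mA
  rw [← ey] at mR
  rw [← ex] at kAB kAR kBA kBR kRA kRB
  have p0 : 0 ≤ sin A * sin B := by positivity
  constructor
  · intro θ
    rw [eh]
    exact reach6 (R := R) c1 c2 p0 h0 (by linarith) h1 (by linarith) (by linarith) kAB kAR kBA kBR
      kRA kRB (by rw [ex]; exact mR) mB (by linarith) θ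
  · intro θ
    rw [add_comm B A, eh, ← add_comm B A]
    exact reach6 (R := R) c1 c2 p0 h0 (by linarith) (by linarith) h1 (by linarith) kBA kBR kAB kAR
      kRB kRA (by rw [ex]; linarith) mA (by linarith) θ

end Pool.Agent.P.MP_d76e6a_co
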