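import Pool.Agent.P.MP_d76e6a_co.WAna

/-!
The certificate for the symmetric zigzag.
-/

namespace Pool.Agent.P.MP_d76e6a_co

open Real

noncomputable def kap (A B : ℝ) : ℝ := sin (B - A) / sin (A + B)

noncomputable def eE (g x z : ℝ) : ℝ := 2 * sin g * (sin z / sin (x + z))

noncomputable def nuN (A B g x z q : ℝ) : ℝ :=
  ((cos g - 4 * sin g * alt A B) * cos (B + z) - (sin g + q) * sin (B + z)
    + eE g x z * sin (B + (x + z))) / sin (2 * B + (x + z))

noncomputable def lL (A B g x z q : ℝ) : ℝ := nuN A B g x z q * sin (A + B) / sin A - eE g x z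

/-- The inequalities needed on one half. -/
structure SideOK (A B g x z q : ℝ) : Prop where
  l0 : 0 ≤ lL A B g x z q
  q2 : lL A B g x z q ≤ 2 * sin (x + g)
  n4 : nuN A B g x z q * (sin B / sin A) ≤ 2 * sin (A - x - g)
  n3 : (cos g - nuN A B g z x (-q) * sin (B + z) - nuN A B g x z q * (sin B / sin A) * sin (A - x)) ^ 2
    + (sin g + nuN A B g z x (-q) * cos (B + z)
      + nuN A B g x z q * (sin B / sin A) * cos (A - x)) ^ 2 ≤ 1
  c3 : nuN A B g z x (-q) * cos (B + z) ≤ sin g + nuN A B g x z q * (sin B / sin A) * cos (A - x)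
  qq : (cos g - alt A B * (2 * sin g + q / kap A B)) ^ 2 + (nuN A B g z x (-q) * cos (B + z)
      + nuN A B g x z q * (sin B / sin A) * cos (A - x)) ^ 2 ≤ 1

theorem eE_eqs {g x z : ℝ} (h : sin (x + z) ≠ 0) : eE g x z * sin x = eE g z x * sin z ∧
    eE g x z * cos x + eE g z x * cos z = 2 * sin g := by
  simp only [eE, add_comm z x]
  constructor
  · ring
  · field_simp
    rw [sin_add]; ring

theorem nu_eqs {A B g x z q : ℝ} (h : sin (x + z) ≠ 0) (hD : sin (2 * B + (x + z)) ≠ 0) :
    nuN A B g x z q * sin (B + x) + nuN A B g z x (-q) * sin (B + z)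
      = cos g - 4 * sin g * alt A B + eE g x z * sin x ∧
    nuN A B g x z q * cos (B + x) - nuN A B g z x (-q) * cos (B + z)
      = eE g x z * cos x - sin g - q := by
  obtain ⟨h1, h2⟩ := eE_eqs (g := g) h
  have eD : sin (2 * B + (x + z)) = sin (B + x) * cos (B + z) + cos (B + x) * sin (B + z) := by
    rw [← sin_add]; congr 1; ring
  have s1 : sin (B + (x + z)) = sin x * cos (B + z) + cos x * sin (B + z) := by
    rw [← sin_add]; congr 1; ring
  have s2 : sin (B + (x + z)) = sin z * cos (B + x) + cos z * sin (B + x) := by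
    rw [← sin_add]; congr 1; ring
  have n1 : nuN A B g x z q * sin (2 * B + (x + z)) =
      (cos g - 4 * sin g * alt A B + eE g x z * sin x) * cos (B + z)
        + (eE g x z * cos x - sin g - q) * sin (B + z) := by
    rw [nuN, div_mul_cancel₀ _ hD, s1]; ring
  have n2 : nuN A B g z x (-q) * sin (2 * B + (x + z)) =
      (cos g - 4 * sin g * alt A B + eE g x z * sin x) * cos (B + x)
        - (eE g x z * cos x - sin g - q) * sin (B + x) := by
    rw [nuN, add_comm z x, div_mul_cancel₀ _ hD, s2]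
    linear_combination -cos (B + x) * h1 + sin (B + x) * h2
  constructor
  · refine mul_right_cancel₀ hD ?_
    linear_combination sin (B + x) * n1 + sin (B + z) * n2
      - (cos g - 4 * sin g * alt A B + eE g x z * sin x) * eD
  · refine mul_right_cancel₀ hD ?_
    linear_combination cos (B + x) * n1 - cos (B + z) * n2 - (eE g x z * cos x - sin g - q) * eD

theorem shift_le {g t w : ℝ} (w0 : 0 ≤ w) (h : w ≤ 2 * sin (t - g)) :
    (cos g - w * sin t) ^ 2 + (sin g + w * cos t) ^ 2 ≤ 1 := by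
  rw [sin_sub] at h
  nlinarith [mul_le_mul_of_nonneg_left h w0, sin_sq_add_cos_sq g,
    congrArg (w ^ 2 * ·) (sin_sq_add_cos_sq t)]

theorem side_le {A B g x y z q : ℝ} (H : Half) (a : Ang A B) (hAB : A < B) (x0 : 0 ≤ x) (z0 : 0 ≤ z)
    (xz : 0 < x + z) (g0 : x + z ≤ g) (g1 : g < π / 2) (xy : x ≤ y) (yA : y ≤ A)
    (bx : B + x < π / 2) (bz : B + z < π / 2) (hq : |q| ≤ 2 * sin g * kap A B)
    (s1 : SideOK A B g x z q) (s2 : 0 ≤ lL A B g z x (-q)) (d0 : H.d x < H.d π)
    (d1 : H.d π ≤ H.d y) :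
    part H A B x y z (eE g x z) (lL A B g x z q) (2 * sin g + q / kap A B)
      (2 * sin g - q / kap A B) (nuN A B g x z q) (nuN A B g z x (-q)) (2 * sin g) ≤ H.len := by
  obtain ⟨sA, sAB, sBC⟩ := a.sins
  have hh := a.alt_pos
  obtain ⟨A0, A1, A2⟩ := a
  have hpi := pi_pos
  have sB : 0 < sin B := by linarith
  have sC : 0 < sin (A + B) := by linarith
  have sn : ∀ t, 0 ≤ t → t ≤ π / 2 → 0 ≤ sin t := fun t h1 h2 =>
    sin_nonneg_of_nonneg_of_le_pi h1 (by linarith)
  have cn : ∀ t, 0 ≤ t → t ≤ π / 2 → 0 ≤ cos t := fun t h1 h2 =>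
    cos_nonneg_of_mem_Icc ⟨by linarith, h2⟩
  have sM : 0 < sin (x + z) := sin_pos_of_pos_of_lt_pi xz (by linarith)
  have sD : 0 < sin (2 * B + (x + z)) := sin_pos_of_pos_of_lt_pi (by linarith) (by linarith)
  have k0 : 0 < kap A B := div_pos (sin_pos_of_pos_of_lt_pi (by linarith) (by linarith)) sC
  have sg := sn g (by linarith) g1.le
  have sx := sn x x0 (by linarith)
  have sz := sn z z0 (by linarith)
  have cx := cn x x0 (by linarith)
  have e0 : 0 ≤ eE g x z := by unfold eE; positivity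
  have e0' : 0 ≤ eE g z x := by unfold eE; rw [add_comm]; positivity
  have pos : ∀ {x z q}, 0 ≤ eE g x z → 0 ≤ lL A B g x z q → 0 ≤ nuN A B g x z q := by
    intro x z q h1 h2
    have : 0 ≤ nuN A B g x z q * sin (A + B) / sin A := by unfold lL at h2; linarith
    rw [le_div_iff₀ sA, zero_mul] at this
    exact nonneg_of_mul_nonneg_left this sC
  have v1 := pos e0 s1.l0
  have v2 := pos e0' s2
  obtain ⟨E1, E2⟩ := nu_eqs (A := A) (g := g) (q := q) sM.ne' sD.ne'
  have q1 : |q / kap A B| ≤ 2 * sin g := by rwa [abs_div, abs_of_pos k0, div_le_iff₀ k0]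
  have n1 : 0 ≤ 2 * sin g + q / kap A B := by linarith [(abs_le.1 q1).1]
  have n2 : 0 ≤ 2 * sin g - q / kap A B := by linarith [(abs_le.1 q1).2]
  have cA := cn A A0.le (by linarith)
  have cB := cn B (by linarith) (by linarith)
  have p1 := sn (B + z) (by linarith) bz.le
  have p2 := cn (B + z) (by linarith) bz.le
  have p3 := sn (A - x) (by linarith) (by linarith)
  have p4 := cn (A - x) (by linarith) (by linarith)
  have l0 := s1.l0
  have f1 : lL A B g x z q * sin x + nuN A B g x z q * (sin B / sin A) * sin (A - x)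
      = nuN A B g x z q * sin (B + x) - eE g x z * sin x := by
    rw [lL]; field_simp
    simp only [sin_add, sin_sub]; ring
  have f2 : lL A B g x z q * cos x - nuN A B g x z q * (sin B / sin A) * cos (A - x)
      = nuN A B g x z q * cos (B + x) - eE g x z * cos x := by
    rw [lL]; field_simp
    simp only [sin_add, cos_add, cos_sub]; ring
  have f3 : alt A B * (2 * sin g + q / kap A B) * (cos A / sin A)
      + alt A B * (2 * sin g - q / kap A B) * (cos B / sin B) = 2 * sin g + q := by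
    have t : sin (B - A) ≠ 0 := (sin_pos_of_pos_of_lt_pi (by linarith) (by linarith)).ne'
    rw [alt, kap]; field_simp
    simp only [sin_add, sin_sub]; ring
  have T := (cos_sq_add_sin_sq g).le
  have qq := s1.qq
  have a1 : 0 ≤ lL A B g x z q * sin x := by positivity
  have a2 : 0 ≤ alt A B * (2 * sin g + q / kap A B) := by positivity
  have a3 : 0 ≤ alt A B * (2 * sin g - q / kap A B) := by positivity
  have a4 : 0 ≤ nuN A B g z x (-q) * sin (B + z) := by positivity
  have a5 : 0 ≤ nuN A B g x z q * (sin B / sin A) * sin (A - x) := by positivity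
  have b1 : 0 ≤ lL A B g x z q * cos x := by positivity
  have b2 : 0 ≤ alt A B * (2 * sin g + q / kap A B) * (cos A / sin A) := by positivity
  have b3 : 0 ≤ alt A B * (2 * sin g - q / kap A B) * (cos B / sin B) := by positivity
  have b4 : 0 ≤ nuN A B g z x (-q) * cos (B + z) := by positivity
  have b5 : 0 ≤ nuN A B g x z q * (sin B / sin A) * cos (A - x) := by positivity
  refine H.zig (c := cos g) (s := sin g) (by linarith) yA A1 (by linarith) (by linarith)
    (by linarith) d0 d1 a1 a2 a3 a4 a5 b1 b2 b3 b4 b5 (by linarith) (by linarith) sg T ?_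
    (by linarith) s1.n3 ?_ s1.c3 ?_ ?_ ?_
  · have : eE g x z ≤ 2 * sin (g - x) := by
      rw [eE, ← mul_div_assoc, div_le_iff₀ sM]
      have c1 := cos_sub_cos (g - z - 2 * x) (g - z)
      have c2 : 0 ≤ sin ((g - z - 2 * x + (g - z)) / 2) := sn _ (by linarith) (by linarith)
      rw [show (g - z - 2 * x - (g - z)) / 2 = -x by ring, sin_neg] at c1
      have c3 : cos (g - z - 2 * x) = cos (g - x) * cos (x + z) + sin (g - x) * sin (x + z) := by
        rw [← cos_sub]; congr 1; ring
      have c4 : cos (g + z) = cos (g - x) * cos (x + z) - sin (g - x) * sin (x + z) := by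
        rw [← cos_add]; congr 1; ring
      rw [cos_sub g z] at c1
      rw [cos_add g z] at c4
      nlinarith [mul_nonneg c2 sx]
    rw [sin_sub] at this
    nlinarith [mul_le_mul_of_nonneg_left this e0, congrArg (eE g x z ^ 2 * ·) (sin_sq_add_cos_sq x)]
  · exact shift_le (by positivity) s1.n4
  · have := s1.q2
    rw [sin_add] at this
    nlinarith [mul_le_mul_of_nonneg_left this l0,
      congrArg (lL A B g x z q ^ 2 * ·) (sin_sq_add_cos_sq x)]
  · rcases le_total (lL A B g x z q * cos x + alt A B * (2 * sin g + q / kap A B) * (cos A / sin A))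
      (2 * sin g) with c | c
    · exact box_le T (by linarith) (by linarith) (by linarith) (by linarith)
    · exact box_le qq (by linarith) (by linarith) (by linarith) (by linarith)
  · exact box_le qq (by linarith) (by linarith) (by linarith) (by linarith)

/-- The value of the certificate on the diagonal. -/
noncomputable def wF (A B m g : ℝ) : ℝ := (cos g + sin g * wY A B m) / wk B m

/-- The signed excess weight. -/
noncomputable def qQ (A B g x z : ℝ) : ℝ :=
  33 / 64 * (cos g - 4 * sin g * alt A B + sin g * tan ((x + z) / 2)) * sin ((x - z) / 2)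

theorem qQ_swap (A B g x z : ℝ) : qQ A B g z x = -qQ A B g x z := by
  rw [qQ, qQ, add_comm z x, show (z - x) / 2 = -((x - z) / 2) by ring, sin_neg]; ring

theorem w_mode {τ γ A B g α β yL yR : ℝ} {L R : Half} (r1 : RowsT τ (γ * alt A B) L R A B)
    (r2 : RowsT τ (γ * alt A B) R L A B) (hτ : 0 ≤ τ) (hγ : 0 ≤ γ) (a : Ang A B) (hAB : A < B)
    (a0 : 0 ≤ α) (a1 : α ≤ yL) (a2 : yL ≤ A) (a3 : yL - α ≤ τ) (b0 : 0 ≤ β) (b1 : β ≤ yR)
    (b2 : yR ≤ A) (b3 : yR - β ≤ τ) (d0 : L.d α < L.d π) (d1 : L.d π ≤ L.d yL)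
    (d2 : R.d β < R.d π) (d3 : R.d π ≤ R.d yR) (xz : 0 < α + β) (g0 : α + β ≤ g) (g1 : g < π / 2)
    (bx : B + α < π / 2) (bz : B + β < π / 2) (hK : 4 * sin g * alt A B ≤ cos g)
    (hd : 31 / 33 ≤ cos ((α - β) / 2)) (hq : |qQ A B g α β| ≤ 2 * sin g * kap A B)
    (s1 : SideOK A B g α β (qQ A B g α β)) (s2 : SideOK A B g β α (qQ A B g β α)) :
    γ * wF A B ((α + β) / 2) g ≤ L.len + R.len := by
  obtain ⟨sA, sAB, sBC⟩ := a.sins
  have hh := a.alt_pos
  have A0 := a.h0
  have A2 := a.h2
  have hpi := pi_pos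
  have sB : 0 < sin B := by linarith
  have sC : 0 < sin (A + B) := by linarith
  rw [qQ_swap] at s2
  set q := qQ A B g α β with hqq
  have u1 := side_le L a hAB a0 b0 xz g0 g1 a1 a2 bx bz hq s1 s2.l0 d0 d1
  have u2 := side_le R a hAB b0 a0 (by linarith) (by linarith) g1 b1 b2 bz bx (by rwa [abs_neg]) s2
    (by rw [neg_neg]; exact s1.l0) d2 d3
  rw [neg_neg, neg_div, ← sub_eq_add_neg, sub_neg_eq_add] at u2
  have sM : 0 < sin (α + β) := sin_pos_of_pos_of_lt_pi xz (by linarith)
  have sD : 0 < sin (2 * B + (α + β)) := sin_pos_of_pos_of_lt_pi (by linarith) (by linarith)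
  have k0 : 0 < kap A B := div_pos (sin_pos_of_pos_of_lt_pi (by linarith) (by linarith)) sC
  have sg : 0 ≤ sin g := sin_nonneg_of_nonneg_of_le_pi (by linarith) (by linarith)
  have sa : 0 ≤ sin α := sin_nonneg_of_nonneg_of_le_pi a0 (by linarith)
  have sb : 0 ≤ sin β := sin_nonneg_of_nonneg_of_le_pi b0 (by linarith)
  have q1 : |q / kap A B| ≤ 2 * sin g := by rwa [abs_div, abs_of_pos k0, div_le_iff₀ k0]
  have w := rows4 r1 r2 hτ a a0 a1 a2 a3 b0 b1 b2 b3 (np := 2 * sin g + q / kap A B)
    (nm := 2 * sin g - q / kap A B) (ea := eE g α β) (la := lL A B g α β q) (eb := eE g β α)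
    (lb := lL A B g β α (-q)) (να := nuN A B g α β q) (νβ := nuN A B g β α (-q))
    (pL := 2 * sin g) (pR := 2 * sin g) (by linarith [(abs_le.1 q1).1])
    (by linarith [(abs_le.1 q1).2]) (by unfold eE; positivity) s1.l0
    (by unfold eE; rw [add_comm]; positivity) s2.l0 (by positivity) (by positivity) (by ring)
    (by rw [lL]; field_simp; ring) (by rw [lL]; field_simp; ring)
  refine le_trans ?_ (w.trans (add_le_add u1 u2))
  rw [mul_assoc]
  refine mul_le_mul_of_nonneg_left ?_ hγ
  obtain ⟨E1, E2⟩ := nu_eqs (A := A) (g := g) (q := q) sM.ne' sD.ne'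
  set m := (α + β) / 2 with hm
  set d := (α - β) / 2 with hd'
  have ea : α = m + d := by rw [hm, hd']; ring
  have eb : β = m - d := by rw [hm, hd']; ring
  have cm : 0 < cos m := cos_pos_of_mem_Ioo ⟨by linarith, by linarith⟩
  have sm : 0 < sin m := sin_pos_of_pos_of_lt_pi (by linarith) (by linarith)
  have sK : 0 < sin (B + m) := sin_pos_of_pos_of_lt_pi (by linarith) (by linarith)
  have tm := tan_mul_cos cm.ne'
  have j1 : sin (B + m) = sin (B + α) * cos d - cos (B + α) * sin d := by
    rw [← sin_sub]; congr 1; linarith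
  have j2 : sin (B + m) = sin (B + β) * cos d + cos (B + β) * sin d := by
    rw [← sin_add]; congr 1; linarith
  have j3 : sin m = sin α * cos d - cos α * sin d := by rw [← sin_sub]; congr 1; linarith
  have j4 : eE g α β * sin m + sin g * sin d = sin g * tan m * cos d := by
    refine mul_right_cancel₀ cm.ne' ?_
    have i1 : eE g α β * sin (α + β) = 2 * sin g * sin β := by rw [eE]; field_simp
    rw [show α + β = 2 * m by linarith, sin_two_mul, eb, sin_sub, ← eb] at i1
    linear_combination 1 / 2 * i1 - sin g * cos d * tm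
  set G := cos g - 4 * sin g * alt A B + sin g * tan m with hG
  have G0 : 0 ≤ G := by
    have := mul_nonneg sg (tan_nonneg_of_nonneg_of_le_pi_div_two (x := m) (by linarith) (by linarith))
    linarith
  have j5 : (nuN A B g α β q + nuN A B g β α (-q)) * sin (B + m) = G * cos d + q * sin d := by
    linear_combination nuN A B g α β q * j1 + nuN A B g β α (-q) * j2 + cos d * E1 - sin d * E2
      - eE g α β * j3 + j4
  have j6 : G ≤ G * cos d + q * sin d := by
    have e : q * sin d = 33 / 64 * G * (1 - cos d ^ 2) := by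
      rw [hqq, qQ, ← hm, ← hd', ← hG]; linear_combination 33 / 64 * G * sin_sq_add_cos_sq d
    have := mul_nonneg G0 (mul_nonneg (sub_nonneg.2 (cos_le_one d)) (sub_nonneg.2 hd))
    rw [e]
    linarith
  have j7 : alt A B * (2 * sin g + q / kap A B + (2 * sin g - q / kap A B)
      + (eE g α β + lL A B g α β q) + (eE g β α + lL A B g β α (-q)))
      = 4 * sin g * alt A B + (nuN A B g α β q + nuN A B g β α (-q)) * sin B := by
    rw [lL, lL, alt]; field_simp; ring
  have k1 : 0 < wk B m := div_pos sK sB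
  have k2 : sin B * wk B m = sin (B + m) := by rw [wk]; field_simp
  rw [j7, wF, div_le_iff₀ k1, wY]
  linear_combination j6 - j5 - (nuN A B g α β q + nuN A B g β α (-q)) * k2

theorem wF_eq {A B m g : ℝ} (h : 0 < wk B m) : wF A B m g = 4 * sin g * alt A B
    + (cos g - 4 * sin g * alt A B + sin g * tan m) / wk B m := by
  rw [wF, wY]; field_simp; ring

theorem wF_mono {A B φ m g : ℝ} (B0 : 0 < B) (h0 : 0 ≤ φ) (h1 : φ ≤ m) (h2 : B + m < π / 2)
    (sg : 0 ≤ sin g) :
    (0 ≤ cos g - 4 * sin g * alt A B + sin g * tan φ →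
      (cos g - 4 * sin g * alt A B + sin g * tan φ) * cos (B + φ) * cos φ ^ 2 ≤ sin g * sin (B + φ) →
      wF A B φ g ≤ wF A B m g) ∧
    (0 ≤ cos g - 4 * sin g * alt A B + sin g * tan m →
      sin g * sin (B + m) ≤ (cos g - 4 * sin g * alt A B + sin g * tan m) * cos (B + m) * cos m ^ 2 →
      wF A B m g ≤ wF A B φ g) := by
  have hpi := pi_pos
  have sB : 0 < sin B := sin_pos_of_pos_of_lt_pi B0 (by linarith)
  have s1 : 0 < sin (B + φ) := sin_pos_of_pos_of_lt_pi (by linarith) (by linarith)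
  have s2 : 0 < sin (B + m) := sin_pos_of_pos_of_lt_pi (by linarith) (by linarith)
  have c1 : 0 < cos φ := cos_pos_of_mem_Ioo ⟨by linarith, by linarith⟩
  have c2 : 0 < cos m := cos_pos_of_mem_Ioo ⟨by linarith, by linarith⟩
  have c3 : cos m ≤ cos φ := cos_le_cos_of_nonneg_of_le_pi h0 (by linarith) h1
  have sd : 0 ≤ sin (m - φ) := sin_nonneg_of_nonneg_of_le_pi (by linarith) (by linarith)
  have et : (tan m - tan φ) * (cos m * cos φ) = sin (m - φ) := by
    rw [sin_sub]
    linear_combination cos φ * tan_mul_cos c2.ne' - cos m * tan_mul_cos c1.ne'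
  have t0 : 0 ≤ tan m - tan φ := nonneg_of_mul_nonneg_left (et ▸ sd) (mul_pos c2 c1)
  have t1 : sin (m - φ) ≤ (tan m - tan φ) * cos φ ^ 2 := by
    rw [← et]; exact mul_le_mul_of_nonneg_left (by nlinarith) t0
  have t2 : (tan m - tan φ) * cos m ^ 2 ≤ sin (m - φ) := by
    rw [← et]; exact mul_le_mul_of_nonneg_left (by nlinarith) t0
  have u1 : sin (B + m) - sin (B + φ) ≤ cos (B + φ) * sin (m - φ) := by
    rw [show B + m = (B + φ) + (m - φ) by ring, sin_add (B + φ)]
    nlinarith [cos_le_one (m - φ)]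
  have u2 : cos (B + m) * sin (m - φ) ≤ sin (B + m) - sin (B + φ) := by
    rw [show B + φ = (B + m) - (m - φ) by ring, sin_sub (B + m)]
    nlinarith [cos_le_one (m - φ)]
  have d1 : 0 < cos (B + φ) := cos_pos_of_mem_Ioo ⟨by linarith, by linarith⟩
  have d2 : 0 < cos (B + m) := cos_pos_of_mem_Ioo ⟨by linarith, by linarith⟩
  rw [wF_eq (div_pos s1 sB), wF_eq (div_pos s2 sB)]
  simp only [add_le_add_iff_left, wk, div_div_eq_mul_div]
  set K := cos g - 4 * sin g * alt A B
  constructor
  · intro G0 h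
    rw [div_le_div_iff₀ s1 s2]
    have a1 := mul_le_mul_of_nonneg_left u1 G0
    have a2 := mul_le_mul_of_nonneg_left t1 (mul_nonneg G0 d1.le)
    have a3 := mul_le_mul_of_nonneg_left h t0
    have : (K + sin g * tan φ) * sin (B + m) ≤ (K + sin g * tan m) * sin (B + φ) := by linarith
    nlinarith [mul_le_mul_of_nonneg_left this sB.le]
  · intro G0 h
    rw [div_le_div_iff₀ s2 s1]
    have a1 := mul_le_mul_of_nonneg_left u2 G0
    have a2 := mul_le_mul_of_nonneg_left t2 (mul_nonneg sg s2.le)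
    have a3 := mul_le_mul_of_nonneg_left h sd
    have a4 : sin g * sin (B + m) * (tan m - tan φ)
        ≤ (K + sin g * tan m) * cos (B + m) * sin (m - φ) := by
      refine le_of_mul_le_mul_right ?_ (pow_pos c2 2)
      linarith
    have : (K + sin g * tan m) * sin (B + φ) ≤ (K + sin g * tan φ) * sin (B + m) := by linarith
    nlinarith [mul_le_mul_of_nonneg_left this sB.le]

theorem slope_mono {Y g g' : ℝ} : (0 ≤ g → g ≤ g' → g' ≤ arctan Y →
    cos g + sin g * Y ≤ cos g' + sin g' * Y) ∧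
    (arctan Y ≤ g → g ≤ g' → g' ≤ π / 2 → cos g' + sin g' * Y ≤ cos g + sin g * Y) := by
  have c0 := cos_arctan_pos Y
  have l1 := arctan_lt_pi_div_two Y
  have l2 := neg_pi_div_two_lt_arctan Y
  have e : ∀ t, (cos t + sin t * Y) * cos (arctan Y) = cos (t - arctan Y) := fun t => by
    have := tan_mul_cos c0.ne'
    rw [tan_arctan] at this
    rw [cos_sub]; linear_combination sin t * this
  constructor
  · intro h1 h2 h3
    refine le_of_mul_le_mul_right ?_ c0
    rw [e, e, ← cos_neg (g - _), ← cos_neg (g' - _)]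
    exact cos_le_cos_of_nonneg_of_le_pi (by linarith) (by linarith [pi_pos]) (by linarith)
  · intro h1 h2 h3
    refine le_of_mul_le_mul_right ?_ c0
    rw [e, e]
    exact cos_le_cos_of_nonneg_of_le_pi (by linarith) (by linarith) (by linarith)

/-- The sign of the derivative of the value at `φ`. -/
noncomputable def dS (A B φ : ℝ) : ℝ := sin (wg A B φ) * sin (B + φ)
  - (cos (wg A B φ) - 4 * sin (wg A B φ) * alt A B + sin (wg A B φ) * tan φ) * cos (B + φ) * cos φ ^ 2

theorem wF_ge {A B m p q : ℝ} (a : Ang A B) (m0 : 0 < m) (m1 : 2 * m ≤ A) (m2 : B + m < π / 2)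
    (p0 : 0 ≤ p) (pq : p ≤ q) (q0 : 0 < q) (q1 : 2 * q ≤ A) (q2 : B + q < π / 2)
    (hp : p = 0 ∨ (dS A B p ≤ 0 ∧ 4 * sin (wg A B p) * alt A B ≤ cos (wg A B p)))
    (hq : 0 ≤ dS A B q ∧ 4 * sin (wg A B q) * alt A B ≤ cos (wg A B q)) :
    ∃ φ, 0 < φ ∧ 2 * φ ≤ A ∧
      wV A B φ ≤ wF A B m (max (wg A B (max p (min m q))) (2 * m)) := by
  have B0 : 0 < B := a.h0.trans_le a.h1
  have hpi := pi_pos
  have gG : ∀ φ, 0 < φ → 2 * φ ≤ A → 4 * sin (wg A B φ) * alt A B ≤ cos (wg A B φ) →
      0 ≤ sin (wg A B φ) ∧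
      0 ≤ cos (wg A B φ) - 4 * sin (wg A B φ) * alt A B + sin (wg A B φ) * tan φ := by
    intro φ h0 h1 h2
    obtain ⟨g1, g2, -⟩ := a.wg_facts h0 h1
    have s0 : 0 ≤ sin (wg A B φ) := sin_nonneg_of_nonneg_of_le_pi (by linarith) (by linarith)
    have := mul_nonneg s0 (tan_nonneg_of_nonneg_of_le_pi_div_two h0.le (by linarith))
    exact ⟨s0, by linarith⟩
  rcases le_total m q with c | c
  · rw [min_eq_left c]
    rcases le_total p m with d | d
    · rw [max_eq_right d, max_eq_left (a.wg_facts m0 m1).1]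
      exact ⟨m, m0, m1, le_rfl⟩
    · have p1 : 0 < p := m0.trans_le d
      obtain ⟨h1, h2⟩ := hp.resolve_left p1.ne'
      obtain ⟨s0, G0⟩ := gG p p1 (by linarith) h2
      rw [max_eq_left d, max_eq_left (by linarith [(a.wg_facts p1 (by linarith)).1])]
      exact ⟨p, p1, by linarith, (wF_mono B0 m0.le d (by linarith) s0).2 G0
        (by unfold dS at h1; linarith)⟩
  · rw [min_eq_right c, max_eq_right pq]
    obtain ⟨s0, G0⟩ := gG q q0 q1 hq.2
    have b : wV A B q ≤ wF A B m (wg A B q) :=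
      (wF_mono B0 q0.le c m2 s0).1 G0 (by have := hq.1; unfold dS at this; linarith)
    rcases le_total (2 * m) (wg A B q) with d | d
    · rw [max_eq_left d]; exact ⟨q, q0, q1, b⟩
    rw [max_eq_right d]
    rcases le_total (arctan (wY A B m)) (2 * m) with e | e
    · exact ⟨m, m0, m1, by rw [wV, wg, max_eq_right e]; exact le_rfl⟩
    · refine ⟨q, q0, q1, b.trans (div_le_div_of_nonneg_right ?_ (by linarith [a.wk_gt m0 m1]))⟩
      exact slope_mono.1 (by linarith [(a.wg_facts q0 q1).1]) d e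

end Pool.Agent.P.MP_d76e6a_co
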