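import Pool.Agent.P.MP_d76e6a_co.WDefs
import Pool.Agent.P.MP_d76e6a_co.Fit

/-!
Polygonal paths and a criterion for escape.
-/

namespace Pool.Agent.P.MP_d76e6a_co

open Real

/-- The sum of the side lengths. -/
noncomputable def plen (l : List ℂ) : ℝ :=
  ∑ i ∈ Finset.range (l.length - 1), ‖l.getD (i + 1) 0 - l.getD i 0‖

theorem poly_cont (l : List ℂ) : Continuous (poly l) := by
  unfold poly
  fun_prop

theorem poly_len (l : List ℂ) : pathLength (poly l) ≤ ENNReal.ofReal (plen l) := by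
  set n := l.length - 1 with hn
  let r : ℕ → ℝ → ℝ := fun i t => max 0 (min 1 ((n : ℝ) * t - i))
  let f : ℝ → ℝ := fun t => ∑ i ∈ Finset.range n, r i t * ‖l.getD (i + 1) 0 - l.getD i 0‖
  have rm : ∀ i, Monotone (r i) := fun i s t h => by
    have := mul_le_mul_of_nonneg_left h (Nat.cast_nonneg (α := ℝ) n)
    exact max_le_max le_rfl (min_le_min le_rfl (by linarith))
  have fm : Monotone f := fun s t h =>
    Finset.sum_le_sum fun i _ => mul_le_mul_of_nonneg_right (rm i h) (norm_nonneg _)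
  have key : ∀ s t, s ≤ t → dist (poly l t) (poly l s) ≤ f t - f s := by
    intro s t h
    rw [dist_eq_norm, poly, poly, add_sub_add_left_eq_sub, ← Finset.sum_sub_distrib,
      ← Finset.sum_sub_distrib]
    refine (norm_sum_le _ _).trans (Finset.sum_le_sum fun i _ => le_of_eq ?_)
    rw [← sub_smul, norm_smul, ← sub_mul, Real.norm_of_nonneg (sub_nonneg.2 (rm i h))]
  have a1 : eVariationOn (poly l) (Set.Icc 0 1) ≤ eVariationOn f (Set.Icc 0 1) := by
    refine iSup_mono fun p => Finset.sum_le_sum fun i _ => ?_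
    have m := p.2.2.1 (Nat.le_succ i)
    rw [edist_dist, edist_dist, Real.dist_eq, abs_of_nonneg (sub_nonneg.2 (fm m))]
    exact ENNReal.ofReal_le_ofReal (key _ _ m)
  have a2 := (fm.monotoneOn (Set.Icc (0 : ℝ) 1)).eVariationOn_eq (a := 0) (b := 1)
    (by simp) (by simp)
  rw [Set.inter_self] at a2
  refine (a1.trans a2.le).trans (ENNReal.ofReal_le_ofReal ?_)
  have b1 : 0 ≤ f 0 := Finset.sum_nonneg fun i _ => mul_nonneg (le_max_left _ _) (norm_nonneg _)
  have b2 : f 1 ≤ plen l := Finset.sum_le_sum fun i _ =>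
    mul_le_of_le_one_left (norm_nonneg _) (max_le zero_le_one (min_le_left _ _))
  linarith

theorem poly_isPath (l : List ℂ) : IsPath (poly l) :=
  ⟨(poly_cont l).continuousOn, ne_top_of_le_ne_top ENNReal.ofReal_ne_top (poly_len l)⟩

theorem poly_mem {l : List ℂ} {p : ℂ} (hp : p ∈ l) : ∃ t ∈ Set.Icc (0 : ℝ) 1, poly l t = p := by
  obtain ⟨j, hj, rfl⟩ := List.getElem_of_mem hp
  set n := l.length - 1 with hn
  have jn : j ≤ n := by omega
  have e : (n : ℝ) * (j / n) = j := by
    rcases Nat.eq_zero_or_pos n with c | c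
    · have : j = 0 := by omega
      simp [this]
    · have : (n : ℝ) ≠ 0 := by positivity
      field_simp
  refine ⟨j / n, ⟨by positivity, div_le_one_of_le₀ (by exact_mod_cast jn) (Nat.cast_nonneg _)⟩, ?_⟩
  rw [poly, ← hn, e, ← Finset.sum_subset (Finset.range_mono jn)]
  · rw [Finset.sum_congr rfl (g := fun i => l.getD (i + 1) 0 - l.getD i 0),
      Finset.sum_range_sub (fun i => l.getD i 0), add_sub_cancel, List.getD_eq_getElem]
    intro i hi
    have : (i : ℝ) + 1 ≤ j := by exact_mod_cast Finset.mem_range.1 hi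
    rw [min_eq_left (by linarith), max_eq_right zero_le_one, one_smul]
  · intro i _ hi
    have : (j : ℝ) ≤ i := by exact_mod_cast not_lt.1 (mt Finset.mem_range.2 hi)
    rw [max_eq_left (min_le_of_right_le (by linarith)), zero_smul]

theorem plen_map (c : ℝ) (hc : 0 ≤ c) (l : List ℂ) : plen (l.map (c • ·)) = c * plen l := by
  have e : ∀ i, (l.map (c • ·)).getD i 0 = c • l.getD i 0 := fun i => by
    simpa using List.getD_map l (0 : ℂ) (n := i) (c • ·)
  simp only [plen, List.length_map, e, ← smul_sub, norm_smul, Real.norm_of_nonneg hc,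
    Finset.mul_sum]

/-- In every position with one orientation the points of `l` reach across the triangle. -/
def Reach (h A B : ℝ) (l : List ℂ) : Prop :=
  ∀ θ, ∃ p ∈ l, ∃ q ∈ l, ∃ r ∈ l, h * sin (A + B) ≤
    sin B * ip p (θ + π + A) + sin A * ip q (θ + π - B) + sin (A + B) * ip r θ

theorem Reach.scale {h A B c : ℝ} {l : List ℂ} (r : Reach h A B l) (hc : 0 ≤ c) :
    Reach (c * h) A B (l.map (c • ·)) := by
  intro θ
  obtain ⟨p, hp, q, hq, s, hs, e⟩ := r θ
  refine ⟨_, List.mem_map_of_mem hp, _, List.mem_map_of_mem hq, _, List.mem_map_of_mem hs, ?_⟩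
  have := mul_le_mul_of_nonneg_left e hc
  simp only [ip, Complex.smul_re, Complex.smul_im, smul_eq_mul] at this ⊢
  linarith

theorem iso_ip (G : ℂ ≃ᵢ ℂ) : ∃ ω : ℝ, (∀ z θ, ip (G z) θ = ip z (θ + ω) + ip (G 0) θ) ∨
    (∀ z θ, ip (G z) θ = ip z (ω - θ) + ip (G 0) θ) := by
  obtain ⟨a, ha⟩ := linear_isometry_complex G.toRealLinearIsometryEquiv
  have e : ∀ z, G z = G.toRealLinearIsometryEquiv z + G 0 := fun z => by
    rw [IsometryEquiv.toRealLinearIsometryEquiv_apply]; ring
  have n : (a : ℂ) ≠ 0 := Circle.coe_ne_zero a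
  have c1 : (a : ℂ).re = cos (Complex.arg a) := by rw [Complex.cos_arg n, Circle.norm_coe, div_one]
  have c2 : (a : ℂ).im = sin (Complex.arg a) := by rw [Complex.sin_arg, Circle.norm_coe, div_one]
  rcases ha with ha | ha
  · refine ⟨-Complex.arg a, Or.inl fun z θ => ?_⟩
    rw [e z, ha]
    simp only [ip, rotation_apply, Complex.add_re, Complex.add_im, Complex.mul_re, Complex.mul_im,
      c1, c2, cos_add, sin_add, cos_neg, sin_neg]
    ring
  · refine ⟨Complex.arg a, Or.inr fun z θ => ?_⟩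
    rw [e z, ha]
    simp only [ip, rotation_apply, Complex.add_re, Complex.add_im, Complex.mul_re, Complex.mul_im,
      c1, c2, cos_sub, sin_sub, LinearIsometryEquiv.trans_apply, Complex.conjLIE_apply,
      Complex.conj_re, Complex.conj_im]
    ring

theorem Std.sides {X Y Z : ℂ} {h A B : ℝ} (s : Std X Y Z h A B) : ∃ (g : ℂ ≃ᵢ ℂ) (e : ℝ),
    sin A * e = h * sin (A + B) ∧
    (∀ z ∈ convexHull ℝ {X, Y, Z}, ip (g z) (-(π / 2) + π + A) ≤ 0 ∧
      ip (g z) (-(π / 2) + π - B) ≤ e ∧ ip (g z) (-(π / 2)) ≤ 0) ∧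
    (∀ z ∈ interior (convexHull ℝ {X, Y, Z}), ip (g z) (-(π / 2)) < 0) := by
  obtain ⟨hpos, sA, sB, g, c, p, c0, k1, k2, hg⟩ := s
  have i1 : ∀ w : ℂ, ip w (-(π / 2) + π + A) = w.im * cos A - w.re * sin A := fun w => by
    rw [show -(π / 2) + π + A = A + π / 2 by ring, ip, cos_add_pi_div_two, sin_add_pi_div_two]
    ring
  have i2 : ∀ w : ℂ, ip w (-(π / 2) + π - B) = w.im * cos B + w.re * sin B := fun w => by
    rw [show -(π / 2) + π - B = π / 2 - B by ring, ip, cos_pi_div_two_sub, sin_pi_div_two_sub]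
    ring
  have i3 : ∀ w : ℂ, ip w (-(π / 2)) = -w.im := fun w => by simp [ip]
  have cv : ∀ θ e : ℝ, Convex ℝ (g.symm ⁻¹' {w : ℂ | ip w θ ≤ e}) := fun θ e => by
    have c1 : Convex ℝ {w : ℂ | ip w θ ≤ e} := by
      refine convex_halfSpace_le ⟨fun x y => ?_, fun c x => ?_⟩ e
      · simp only [ip, Complex.add_re, Complex.add_im]; ring
      · simp only [ip, Complex.smul_re, Complex.smul_im, smul_eq_mul]; ring
    exact c1.affine_preimage g.symm.toRealAffineIsometryEquiv.toAffineEquiv.toAffineMap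
  have e1 := hg 1 0 0 (by ring)
  have e2 := hg 0 1 0 (by ring)
  have e3 := hg 0 0 1 (by ring)
  simp only [one_smul, zero_smul, add_zero, zero_add, zero_mul, one_mul] at e1 e2 e3
  have hc : sin A * (c * sin B) = h * sin (A + B) := by
    rw [sin_add]; linear_combination sin B * k1 + sin A * k2
  have sub : ∀ θ e : ℝ, ip ⟨0, 0⟩ θ ≤ e → ip ⟨c, 0⟩ θ ≤ e → ip ⟨p, h⟩ θ ≤ e →
      ∀ z ∈ convexHull ℝ {X, Y, Z}, ip (g.symm z) θ ≤ e := fun θ e a1 a2 a3 =>
    convexHull_min (t := g.symm ⁻¹' {w : ℂ | ip w θ ≤ e}) (by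
      rintro z (rfl | rfl | rfl)
      · rw [← e1]; simpa using a1
      · rw [← e2]; simpa using a2
      · rw [← e3]; simpa using a3) (cv θ e)
  have p1 := mul_pos c0 sA
  have p2 := mul_pos c0 sB
  refine ⟨g.symm, c * sin B, hc, fun z hz => ⟨sub _ _ ?_ ?_ ?_ z hz, sub _ _ ?_ ?_ ?_ z hz,
    sub _ _ ?_ ?_ ?_ z hz⟩, fun z hz => ?_⟩
  any_goals (first | rw [i1] | rw [i2] | rw [i3]); simp only; linarith
  have sb : convexHull ℝ {X, Y, Z} ⊆ g.symm ⁻¹' (Complex.im ⁻¹' Set.Ici 0) := fun z hz => by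
    have := sub (-(π / 2)) 0 (by rw [i3]; simp) (by rw [i3]; simp) (by rw [i3]; simp [hpos.le]) z hz
    rw [i3] at this
    simpa using this
  have := interior_mono sb hz
  rw [← g.symm.coe_toHomeomorph, ← Homeomorph.preimage_interior, Complex.interior_preimage_im,
    interior_Ici] at this
  rw [i3]
  simpa using this

theorem Std.cross {X Y Z : ℂ} {h h' A B : ℝ} (s : Std X Y Z h A B) (hσ : 0 < sin (A + B))
    {l : List ℂ} (r1 : Reach h' A B l) (r2 : Reach h' B A l) (F : Set ℂ)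
    (hF : F ⊆ convexHull ℝ {X, Y, Z})
    (hh : h < h' ∨ (h ≤ h' ∧ F ⊆ interior (convexHull ℝ {X, Y, Z}))) :
    IsEscapePath F (poly l) := by
  refine ⟨poly_isPath l, fun P _ g _ hin => ?_⟩
  obtain ⟨g0, e, he, h1, h2⟩ := s.sides
  have sA := s.sA
  have sB := s.sB
  have inF : ∀ p ∈ l, g p ∈ F := fun p hp => by
    obtain ⟨t, ht, rfl⟩ := poly_mem hp
    exact hin t ht
  have z : ∀ w : ℂ, sin B * ip w (-(π / 2) + π + A) + sin A * ip w (-(π / 2) + π - B)
      + sin (A + B) * ip w (-(π / 2)) = 0 := fun w => by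
    simp only [ip, cos_add, sin_add, cos_sub, sin_sub, cos_pi, sin_pi, cos_neg, sin_neg,
      cos_pi_div_two, sin_pi_div_two]
    ring
  have key : ∀ p ∈ l, ∀ q ∈ l, ∀ r ∈ l, sin B * ip (g0 (g p)) (-(π / 2) + π + A)
      + sin A * ip (g0 (g q)) (-(π / 2) + π - B) + sin (A + B) * ip (g0 (g r)) (-(π / 2))
      < h' * sin (A + B) := by
    intro p hp q hq r hr
    have a1 := mul_le_mul_of_nonneg_left (h1 _ (hF (inF p hp))).1 sB.le
    have a2 := mul_le_mul_of_nonneg_left (h1 _ (hF (inF q hq))).2.1 sA.le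
    rcases hh with c | c
    · have a3 := mul_le_mul_of_nonneg_left (h1 _ (hF (inF r hr))).2.2 hσ.le
      have a4 := mul_lt_mul_of_pos_right c hσ
      linarith
    · have a3 := mul_lt_mul_of_pos_left (h2 _ (c.2 (inF r hr))) hσ
      have a4 := mul_le_mul_of_nonneg_right c.1 hσ.le
      linarith
  obtain ⟨ω, e | e⟩ := iso_ip (g.trans g0)
  · obtain ⟨p, hp, q, hq, r, hr, k⟩ := r1 (-(π / 2) + ω)
    have := key p hp q hq r hr
    simp only [IsometryEquiv.trans_apply] at e
    rw [e p, e q, e r, show -(π / 2) + π + A + ω = -(π / 2) + ω + π + A by ring,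
      show -(π / 2) + π - B + ω = -(π / 2) + ω + π - B by ring] at this
    linarith [z (g0 (g 0))]
  · obtain ⟨p, hp, q, hq, r, hr, k⟩ := r2 (ω - -(π / 2))
    have := key q hq p hp r hr
    simp only [IsometryEquiv.trans_apply] at e
    rw [e p, e q, e r, show ω - (-(π / 2) + π + A) = ω - -(π / 2) + π - A - 2 * π by ring,
      show ω - (-(π / 2) + π - B) = ω - -(π / 2) + π + B - 2 * π by ring, ip_sub_two_pi,
      ip_sub_two_pi] at this
    rw [add_comm B A] at k
    linarith [z (g0 (g 0))]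

end Pool.Agent.P.MP_d76e6a_co
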