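import Pool.Agent.P.MP_d76e6a_co.NBad
import Pool.Agent.P.MP_d76e6a_co.WDefs

/-!
Escape inequalities with contact points of nearby directions, with the base kept fixed.
-/

namespace Pool.Agent.P.MP_d76e6a_co

open Real Filter Topology

/-- The value in direction `η` of the contact point of direction `η'`. -/
noncomputable def Half.hh (H : Half) (η η' : ℝ) : ℝ := H.X (H.d η') * sin η + H.Y (H.d η') * cos η

def SupT (τ : ℝ) (L R : Half) (ψ c : ℝ) : Prop :=
  ∃ (η η' : ℝ) (k : ℤ), 0 ≤ η' ∧ η' ≤ π ∧ |η - η'| ≤ τ ∧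
    ((ψ = η + k * (2 * π) ∧ c = L.hh η η') ∨ (ψ = -η + k * (2 * π) ∧ c = R.hh η η'))

def RowsT (τ ρ : ℝ) (L R : Half) (A B : ℝ) : Prop := Esc (SupT τ L R) ρ A B

theorem RowsT.rows {τ ρ A B : ℝ} {L R : Half} (r : RowsT τ ρ L R A B) (hτ : 0 ≤ τ) :
    Rows ρ L.h R.h A B := by
  have key : ∀ ψ c, Sup L.h R.h ψ c → SupT τ L R ψ c := by
    rintro ψ c ⟨η, k, h0, h1, h⟩
    exact ⟨η, η, k, h0, h1, by simpa using hτ, h⟩
  exact fun θ c1 c2 c3 b1 b2 b3 => r θ c1 c2 c3 (key _ _ b1) (key _ _ b2) (key _ _ b3)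

/-- All placements of all triangles with smaller base angles and base `γ`. -/
def CRows (τ γ : ℝ) (L R : Half) (A B : ℝ) : Prop :=
  ∀ A' B', 0 < A' → A' ≤ A → 0 < B' → B' ≤ B → 1 / 6 ≤ alt A' B' →
    RowsT τ (γ * alt A' B') L R A' B' ∧ RowsT τ (γ * alt A' B') R L A' B'

theorem CRows.swap {τ γ A B : ℝ} {L R : Half} (h : CRows τ γ L R A B) : CRows τ γ R L A B :=
  fun A' B' h1 h2 h3 h4 h5 => (h A' B' h1 h2 h3 h4 h5).symm

theorem Esc.of_key {U S : ℝ → ℝ → Prop} {h h' A B ε ω : ℝ} (e : Esc U h A B)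
    (key : ∀ ψ c, S ψ c → U (ω + ψ) (c + ε)) (hA : 0 < A) (hB : 0 < B)
    (hAB : A + B ≤ 5 * π / 6) (hε : 0 ≤ ε) (hh : h' ≤ h - 5 * ε) : Esc S h' A B := by
  have hpi := pi_pos
  intro θ c1 c2 c3 b1 b2 b3
  have := e (ω + θ) _ _ _ (by simpa only [add_assoc] using key _ _ b1)
    (by simpa only [add_assoc, add_sub_assoc] using key _ _ b2) (key _ _ b3)
  have s0 : 0 ≤ sin (A + B) := sin_nonneg_of_nonneg_of_le_pi (by linarith) (by linarith)
  have s : sin A + sin B ≤ 4 * sin (A + B) := by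
    rcases le_total (A + B) (π / 2) with c | c
    · have s1 : sin A ≤ sin (A + B) :=
        sin_le_sin_of_le_of_le_pi_div_two (by linarith) c (by linarith)
      have s2 : sin B ≤ sin (A + B) :=
        sin_le_sin_of_le_of_le_pi_div_two (by linarith) c (by linarith)
      have s3 : 0 ≤ sin A := sin_nonneg_of_nonneg_of_le_pi hA.le (by linarith)
      linarith
    · have s1 : sin (π / 6) ≤ sin (π - (A + B)) :=
        sin_le_sin_of_le_of_le_pi_div_two (by linarith) (by linarith) (by linarith)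
      rw [sin_pi_sub, sin_pi_div_six] at s1
      linarith [sin_le_one A, sin_le_one B]
  nlinarith [mul_le_mul_of_nonneg_left s hε, mul_le_mul_of_nonneg_right hh s0]

theorem Half.lin_le (H : Half) (η : ℝ) {u v : ℝ} (h : u ^ 2 + v ^ 2 ≤ 1) :
    u * H.X (H.d η) + v * H.Y (H.d η) ≤ H.len := by
  have a := H.seg (Nat.zero_le (H.d η)) h
  have b := H.mono (H.hd η)
  rw [H.X0, H.Y0, H.l0] at a
  unfold Half.len
  linarith

theorem Half.h_le_len (H : Half) (η : ℝ) : H.h η ≤ H.len := by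
  have := H.lin_le η (sin_sq_add_cos_sq η).le
  unfold Half.h
  linarith

theorem Half.h_le_hh (H : Half) {η η' τ : ℝ} (hτ : 0 < τ) (h : |η - η'| ≤ τ) :
    H.h η' ≤ H.hh η η' + τ * H.len := by
  have h1 : (sin η' - sin η) ^ 2 + (cos η' - cos η) ^ 2 ≤ τ ^ 2 := by
    have a := one_sub_sq_div_two_le_cos (x := η - η')
    have b := sq_le_sq' (abs_le.1 h).1 (abs_le.1 h).2
    rw [cos_sub] at a
    nlinarith [sin_sq_add_cos_sq η, sin_sq_add_cos_sq η']
  have := H.lin_le η' (u := (sin η' - sin η) / τ) (v := (cos η' - cos η) / τ) (by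
    rw [div_pow, div_pow, ← add_div, div_le_one (by positivity)]; exact h1)
  have := mul_le_mul_of_nonneg_left this hτ.le
  rw [mul_add, ← mul_assoc, ← mul_assoc, mul_div_cancel₀ _ hτ.ne', mul_div_cancel₀ _ hτ.ne'] at this
  unfold Half.h Half.hh
  linarith

theorem norm_le_of_ip {z : ℂ} {ω r : ℝ} (h1 : ip z (ω + 0) ≤ r) (h2 : ip z (ω + π) ≤ r)
    (h3 : ip z (ω + π / 2) ≤ r) (h4 : ip z (ω - π / 2) ≤ r) : ‖z‖ ≤ 2 * r := by
  simp only [ip, add_zero, cos_add_pi, sin_add_pi, cos_add_pi_div_two, sin_add_pi_div_two,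
    cos_sub_pi_div_two, sin_sub_pi_div_two] at h1 h2 h3 h4
  have a1 := sq_le_sq' (a := z.re * cos ω + z.im * sin ω) (b := r) (by linarith) h1
  have a2 := sq_le_sq' (a := z.re * -sin ω + z.im * cos ω) (b := r) (by linarith) h3
  refine abs_le_of_sq_le_sq' ?_ (by linarith) |>.2
  rw [Complex.sq_norm, Complex.normSq_apply]
  nlinarith [congrArg ((z.re ^ 2 + z.im ^ 2) * ·) (sin_sq_add_cos_sq ω), sq_nonneg r]

/-- Reduction of the lower bound to half structures, in units of the base. -/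
theorem lower_of_crows {A B c v : ℝ} (hAB : A + B ≤ 5 * π / 6) (hv : 0 ≤ v) {C : ℝ → ℂ}
    (hC : IsPath C) (e1 : ∀ V, Esc (Bd C V) (c * alt A B) A B)
    (e2 : ∀ V, Esc (Bd C V) (c * alt A B) B A)
    (core : ∀ τ γ, 0 < τ → 0 ≤ γ → ∀ L R : Half, CRows τ γ L R A B → γ * v ≤ L.len + R.len) :
    ENNReal.ofReal (v * c) ≤ pathLength C := by
  have hpi := pi_pos
  set L := (pathLength C).toReal with hL
  have hL0 : 0 ≤ L := ENNReal.toReal_nonneg
  have hL1 : pathLength C = ENNReal.ofReal L := (ENNReal.ofReal_toReal hC.2).symm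
  rw [hL1]
  apply ENNReal.ofReal_le_ofReal
  have key : ∀ M : ℕ, 2 ≤ M → (c - 240 * (L * (π / M))) * v ≤ L := by
    intro M hM
    rcases le_total 0 (c - 240 * (L * (π / M))) with c0 | c0
    swap
    · nlinarith
    obtain ⟨ω, V, H1, H2, hl, hb⟩ := exists_halves C hC.1 L hL0 hL1.le M hM
    have M2 : (2 : ℝ) ≤ M := by exact_mod_cast hM
    set τ := π / M with hτ
    have t0 : 0 < τ := by positivity
    have t2 : τ ≤ 2 := by rw [hτ, div_le_iff₀ (by linarith)]; linarith [pi_le_four]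
    have l1 := H1.len_nonneg
    have l2 := H2.len_nonneg
    have e0 : 0 ≤ L * τ := by positivity
    have nb : ∀ t ∈ Set.Icc (0 : ℝ) 1, ‖C t - V‖ ≤ 6 * L := fun t ht => by
      have b : L * τ ≤ 2 * L := by nlinarith
      have := norm_le_of_ip (z := C t - V) (ω := ω) (r := 3 * L)
        (by linarith [(hb 0 ⟨le_rfl, hpi.le⟩ t ht).1, H1.h_le_len 0])
        (by linarith [(hb π ⟨hpi.le, le_rfl⟩ t ht).1, H1.h_le_len π])
        (by linarith [(hb (π / 2) ⟨by linarith, by linarith⟩ t ht).1, H1.h_le_len (π / 2)])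
        (by linarith [(hb (π / 2) ⟨by linarith, by linarith⟩ t ht).2, H2.h_le_len (π / 2)])
      linarith
    have k1 : ∀ η η', 0 ≤ η' → η' ≤ π → |η - η'| ≤ τ → ∀ t ∈ Set.Icc (0 : ℝ) 1,
        ip (C t - V) (ω + η) ≤ H1.hh η η' + 8 * (L * τ) ∧
          ip (C t - V) (ω - η) ≤ H2.hh η η' + 8 * (L * τ) := by
      intro η η' h0 h1 h2 t ht
      have a1 := ip_lip (C t - V) (ω + η) (ω + η')
      have a2 := ip_lip (C t - V) (ω - η) (ω - η')
      rw [add_sub_add_left_eq_sub] at a1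
      rw [sub_sub_sub_cancel_left, abs_sub_comm] at a2
      have a3 : ‖C t - V‖ * |η - η'| ≤ 6 * L * τ :=
        mul_le_mul (nb t ht) h2 (abs_nonneg _) (by linarith)
      have a4 := hb η' ⟨h0, h1⟩ t ht
      have a5 := H1.h_le_hh t0 h2
      have a6 := H2.h_le_hh t0 h2
      have a7 : τ * H1.len ≤ τ * L := mul_le_mul_of_nonneg_left (by linarith) t0.le
      have a8 : τ * H2.len ≤ τ * L := mul_le_mul_of_nonneg_left (by linarith) t0.le
      constructor <;> linarith [a4.1, a4.2]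
    refine le_trans (core τ _ t0 c0 H1 H2 fun A' B' h1 h2 h3 h4 h5 => ?_) hl
    have sA : 0 < sin A := sin_pos_of_pos_of_lt_pi (by linarith) (by linarith)
    have sB : 0 < sin B := sin_pos_of_pos_of_lt_pi (by linarith) (by linarith)
    have sC : 0 < sin (A + B) := sin_pos_of_pos_of_lt_pi (by linarith) (by linarith)
    have sC' : 0 < sin (A' + B') := sin_pos_of_pos_of_lt_pi (by linarith) (by linarith)
    have m : c * alt A' B' * sin (A' + B') * (sin A * sin B)
        ≤ c * alt A B * sin (A + B) * (sin A' * sin B') := by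
      apply le_of_eq
      simp only [alt]
      field_simp
    have hh : (c - 240 * (L * τ)) * alt A' B' ≤ c * alt A' B' - 5 * (8 * (L * τ)) := by nlinarith
    constructor
    · refine ((e1 V).monoC h1 h3 h2 h4 (by linarith) m).of_key (ω := ω) ?_ h1 h3 (by linarith)
        (by positivity) hh
      rintro ψ c ⟨η, η', k, p0, p1, p2, ⟨rfl, rfl⟩ | ⟨rfl, rfl⟩⟩ t ht
      · rw [← add_assoc, ip_add_int]; exact (k1 η η' p0 p1 p2 t ht).1
      · rw [← add_assoc, ip_add_int]; exact (k1 η η' p0 p1 p2 t ht).2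
    · refine ((e2 V).monoC (h' := c * alt A' B') h3 h1 h4 h2 (by linarith)
        (by rw [add_comm B', add_comm B]; linarith)).mirror.of_key (ω := -ω) ?_ h1 h3 (by linarith)
        (by positivity) hh
      rintro ψ c ⟨η, η', k, p0, p1, p2, ⟨rfl, rfl⟩ | ⟨rfl, rfl⟩⟩ t ht
      · rw [show -(-ω + (η + k * (2 * π))) = ω - η + ((-k : ℤ) : ℝ) * (2 * π) by push_cast; ring,
          ip_add_int]
        exact (k1 η η' p0 p1 p2 t ht).2
      · rw [show -(-ω + (-η + k * (2 * π))) = ω + η + ((-k : ℤ) : ℝ) * (2 * π) by push_cast; ring,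
          ip_add_int]
        exact (k1 η η' p0 p1 p2 t ht).1
  have lim : Tendsto (fun M : ℕ => (c - 240 * (L * (π / M))) * v) atTop
      (𝓝 ((c - 240 * (L * 0)) * v)) :=
    (((tendsto_const_div_atTop_nhds_zero_nat π).const_mul L).const_mul 240 |>.const_sub c).mul_const _
  have := le_of_tendsto lim (eventually_atTop.2 ⟨2, key⟩)
  linarith

theorem Half.refine' (H : Half) : ∃ K : Half, K.hh = H.hh ∧ K.len = H.len ∧ NoTie K := by
  classical
  have hpi := pi_pos
  obtain ⟨p, p0, p1, pm⟩ : ∃ p, 0 ≤ p ∧ p ≤ π ∧ ∀ x, 0 ≤ x → x ≤ π → H.d x ≤ H.d p := by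
    by_contra c
    push Not at c
    have : ∀ n : ℕ, ∃ x, 0 ≤ x ∧ x ≤ π ∧ n ≤ H.d x := by
      intro n
      induction n with
      | zero => exact ⟨0, le_rfl, hpi.le, Nat.zero_le _⟩
      | succ n ih =>
        obtain ⟨x, x0, x1, x2⟩ := ih
        obtain ⟨y, y0, y1, y2⟩ := c x x0 x1
        exact ⟨y, y0, y1, by omega⟩
    obtain ⟨x, -, -, x2⟩ := this (H.r + 1)
    have := H.hd x
    omega
  let idx : ℝ → ℕ := fun η => min 2880 ⌊η / (π / 2880)⌋₊
  have im : ∀ x y, x ≤ y → idx x ≤ idx y := fun x y h =>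
    min_le_min_left _ (Nat.floor_mono (div_le_div_of_nonneg_right h (by positivity)))
  have ib : ∀ x, idx x ≤ 2880 := fun x => min_le_left _ _
  have ia : ∀ x : ℕ, x ≤ 2880 → idx (ang x) = x := fun x hx => by
    simp only [idx, ang]
    rw [mul_div_cancel_right₀ _ (by positivity), Nat.floor_natCast, min_eq_right hx]
  let tb : ℝ → ℕ := fun η => if η ≤ p then 2 * idx η else 2 * (2880 - idx η) + 1
  have tl : ∀ η, tb η < 5762 := fun η => by
    have := ib η
    simp only [tb]; split_ifs <;> omega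
  have dv : ∀ η, (5762 * H.d η + tb η) / 5762 = H.d η := fun η => by
    have := tl η
    omega
  refine ⟨⟨fun j => H.X (j / 5762), fun j => H.Y (j / 5762), fun j => H.l (j / 5762),
    fun η => 5762 * H.d η + tb η, 5762 * H.r + 5761, H.X0, H.Y0, H.l0, fun j => ?_, fun η => ?_, ?_,
    fun x y z x0 h1 h2 h3 => ?_⟩, ?_, ?_, fun x y h1 h2 => ?_⟩
  · rcases (show (j + 1) / 5762 = j / 5762 ∨ (j + 1) / 5762 = j / 5762 + 1 by omega) with c | c
    · simp [c]
    · rw [c]; exact H.step _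
  · have := tl η
    have := H.hd η
    omega
  · have := ia 0 (by norm_num)
    simp only [ang, Nat.cast_zero, zero_mul] at this
    simp only [tb, H.d0, if_pos p0, this]
  · rcases le_or_gt y p with c | c
    · have a1 := H.qc x y p x0 h1 c p1
      have a2 := pm x x0 (by linarith)
      have a3 := im x y h1
      refine (min_le_left _ _).trans ?_
      simp only [tb, if_pos c, if_pos (h1.trans c)]
      omega
    · have a1 := H.qc p y z p0 c.le h2 h3
      have a2 := pm z (by linarith) h3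
      have a3 := im y z h2
      refine (min_le_right _ _).trans ?_
      simp only [tb, if_neg (not_le.2 c), if_neg (not_le.2 (c.trans_le h2))]
      omega
  · funext η η'
    simp only [Half.hh, dv]
  · simp only [Half.len]
    congr 1
    omega
  · intro e
    have a1 := tl (ang x)
    have a2 := tl (ang y)
    have a3 : tb (ang x) = tb (ang y) := by
      simp only at e
      omega
    simp only [tb, ia x (by omega), ia y h2] at a3
    split_ifs at a3 <;> omega

theorem CRows.refine {τ γ A B : ℝ} {L R L' R' : Half} (h : CRows τ γ L R A B) (e1 : L'.hh = L.hh)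
    (e2 : R'.hh = R.hh) : CRows τ γ L' R' A B := by
  intro A' B' h1 h2 h3 h4 h5
  have := h A' B' h1 h2 h3 h4 h5
  simpa only [RowsT, Esc, SupT, e1, e2] using this

/-- The place where the contact index passes that of the bottom. -/
theorem Half.crossing (H : Half) {p q τ : ℝ} (hpq : p ≤ q) (hτ : 0 < τ) (hp : H.d p < H.d π)
    (hq : H.d π ≤ H.d q) :
    ∃ x y, p ≤ x ∧ x ≤ y ∧ y ≤ q ∧ y - x ≤ τ ∧ H.d x < H.d π ∧ H.d π ≤ H.d y := by
  by_contra c
  push Not at c
  have : ∀ n : ℕ, H.d (min q (p + n * τ)) < H.d π := by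
    intro n
    induction n with
    | zero => simpa [hpq] using hp
    | succ n ih =>
      have n0 : 0 ≤ (n : ℝ) * τ := by positivity
      refine c _ _ (le_min hpq (by linarith)) (min_le_min le_rfl (by push_cast; linarith))
        (min_le_left _ _) ?_ ih
      push_cast
      rcases le_total q (p + n * τ) with e | e
      · rw [min_eq_left e, min_eq_left (by linarith)]; linarith
      · rw [min_eq_right e]; linarith [min_le_right q (p + (n + 1) * τ)]
  obtain ⟨n, hn⟩ := exists_nat_ge ((q - p) / τ)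
  rw [div_le_iff₀ hτ] at hn
  have := this n
  rw [min_eq_left (by linarith)] at this
  omega

theorem Half.sum_le (H : Half) {ι : Type} (s : Finset ι) (i : ι → ℕ) (hi : ∀ k, i k ≤ H.r)
    (u v : ι → ℝ) (h : ∀ j, (∑ k ∈ s, if j < i k then u k else 0) ^ 2
      + (∑ k ∈ s, if j < i k then v k else 0) ^ 2 ≤ 1) :
    ∑ k ∈ s, (H.X (i k) * u k + H.Y (i k) * v k) ≤ H.len := by
  have e : H.len = ∑ j ∈ Finset.range H.r, (H.l (j + 1) - H.l j) := by
    rw [Finset.sum_range_sub, H.l0, sub_zero, Half.len]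
  have e2 : ∀ k ∈ s, H.X (i k) * u k + H.Y (i k) * v k = ∑ j ∈ Finset.range H.r,
      ((if j < i k then u k else 0) * (H.X (j + 1) - H.X j)
        + (if j < i k then v k else 0) * (H.Y (j + 1) - H.Y j)) := fun k _ => by
    rw [tel H.X H.X0 (hi k), tel H.Y H.Y0 (hi k), Finset.sum_mul, Finset.sum_mul,
      ← Finset.sum_add_distrib]
    refine Finset.sum_congr rfl fun j _ => ?_
    split_ifs <;> ring
  rw [e, Finset.sum_congr rfl e2, Finset.sum_comm]
  refine Finset.sum_le_sum fun j _ => ?_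
  rw [Finset.sum_add_distrib, ← Finset.sum_mul, ← Finset.sum_mul]
  exact H.seg (Nat.le_succ j) (h j)

theorem box_le {x y X Y : ℝ} (h : X ^ 2 + Y ^ 2 ≤ 1) (h1 : 0 ≤ x) (h2 : x ≤ X) (h3 : -Y ≤ y)
    (h4 : y ≤ Y) : x ^ 2 + y ^ 2 ≤ 1 := by
  have := sq_le_sq' h3 h4
  nlinarith

/-- One early mass, five late masses and a mass at the bottom. -/
theorem Half.zig (H : Half) {t0 t1 t2 t3 t4 t5 : ℝ} (o0 : 0 ≤ t1) (o1 : t1 ≤ t2) (o2 : t2 ≤ t3)
    (o3 : t3 ≤ t4) (o4 : t4 ≤ t5) (o5 : t5 ≤ π) (d0 : H.d t0 < H.d π) (d1 : H.d π ≤ H.d t1)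
    {x0 y0 x1 y1 x2 y2 x3 y3 x4 y4 x5 y5 p c s : ℝ} (a1 : 0 ≤ x1) (a2 : 0 ≤ x2) (a3 : 0 ≤ x3)
    (a4 : 0 ≤ x4) (a5 : 0 ≤ x5) (b1 : 0 ≤ y1) (b2 : 0 ≤ y2) (b3 : 0 ≤ y3) (b4 : 0 ≤ y4)
    (b5 : 0 ≤ y5) (ec : x1 + x2 + x3 + x4 + x5 = c) (es : y1 + y2 + y3 - y4 - y5 = s)
    (s0 : 0 ≤ s) (nT : c ^ 2 + s ^ 2 ≤ 1) (n0 : (c + x0) ^ 2 + (s - p + y0) ^ 2 ≤ 1)
    (n1 : c ^ 2 + (s - p) ^ 2 ≤ 1) (n3 : (c - x4 - x5) ^ 2 + (s + y4 + y5) ^ 2 ≤ 1)
    (n4 : (c - x5) ^ 2 + (s + y5) ^ 2 ≤ 1) (c3 : y4 ≤ s + y5)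
    (q2 : (c - x1) ^ 2 + (s - y1) ^ 2 ≤ 1)
    (q3 : (c - x1 - x2) ^ 2 + (s - y1 - y2) ^ 2 ≤ 1) (q4 : (x4 + x5) ^ 2 + (y4 + y5) ^ 2 ≤ 1) :
    (H.X (H.d t0) * x0 + H.Y (H.d t0) * y0) + (H.X (H.d t1) * x1 + H.Y (H.d t1) * y1)
      + (H.X (H.d t2) * x2 + H.Y (H.d t2) * y2) + (H.X (H.d t3) * x3 + H.Y (H.d t3) * y3)
      + (H.X (H.d t4) * x4 - H.Y (H.d t4) * y4) + (H.X (H.d t5) * x5 - H.Y (H.d t5) * y5)
      - H.Y (H.d π) * p ≤ H.len := by
  have := H.sum_le Finset.univ ![H.d t0, H.d t1, H.d t2, H.d t3, H.d t4, H.d t5, H.d π]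
    (fun k => by fin_cases k <;> exact H.hd _) ![x0, x1, x2, x3, x4, x5, 0]
    ![y0, y1, y2, y3, -y4, -y5, -p] (fun j => ?_)
  · simp only [Fin.sum_univ_seven, Matrix.cons_val] at this
    linarith
  simp only [Fin.sum_univ_seven, Matrix.cons_val]
  have l2 := H.tb o0 o1 (by linarith) d1
  have l3 := H.tb o0 (o1.trans o2) (by linarith) d1
  have l4 := H.tb o0 (show t1 ≤ t4 by linarith) (by linarith) d1
  have l5 := H.tb o0 (show t1 ≤ t5 by linarith) o5 d1
  have m1 := H.qc t1 t2 t3 o0 o1 o2 (by linarith)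
  have m2 := H.qc t1 t2 t4 o0 o1 (by linarith) (by linarith)
  have m3 := H.qc t1 t2 t5 o0 o1 (by linarith) o5
  have m4 := H.qc t1 t3 t4 o0 (by linarith) o3 (by linarith)
  have m5 := H.qc t1 t3 t5 o0 (by linarith) (by linarith) o5
  have m6 := H.qc t1 t4 t5 o0 (by linarith) o4 o5
  have m7 := H.qc t2 t3 t4 (by linarith) o2 o3 (by linarith)
  have m8 := H.qc t2 t3 t5 (by linarith) o2 (by linarith) o5
  have m9 := H.qc t2 t4 t5 (by linarith) (by linarith) o4 o5
  have m10 := H.qc t3 t4 t5 (by linarith) o3 o4 o5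
  by_cases h6 : j < H.d π
  · rw [if_pos (show j < H.d t1 by omega), if_pos (show j < H.d t2 by omega),
      if_pos (show j < H.d t3 by omega), if_pos (show j < H.d t4 by omega),
      if_pos (show j < H.d t5 by omega), if_pos h6, if_pos (show j < H.d t1 by omega),
      if_pos (show j < H.d t2 by omega), if_pos (show j < H.d t3 by omega),
      if_pos (show j < H.d t4 by omega), if_pos (show j < H.d t5 by omega), if_pos h6]
    split_ifs
    · convert n0 using 3 <;> linarith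
    · convert n1 using 3 <;> linarith
  · rw [if_neg (show ¬j < H.d t0 by omega), if_neg h6, if_neg (show ¬j < H.d t0 by omega), if_neg h6]
    split_ifs
    all_goals first
      | (exfalso; omega)
      | exact box_le nT (by linarith) (by linarith) (by linarith) (by linarith)
      | exact box_le n3 (by linarith) (by linarith) (by linarith) (by linarith)
      | exact box_le n4 (by linarith) (by linarith) (by linarith) (by linarith)
      | exact box_le q4 (by linarith) (by linarith) (by linarith) (by linarith)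
      | (refine le_of_eq_of_le ?_ q2; congr 2 <;> linarith)
      | (refine le_of_eq_of_le ?_ q3; congr 2 <;> linarith)

end Pool.Agent.P.MP_d76e6a_co
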