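import Pool.Agent.P.MP_d76e6a_co.XPT

/-!
Linear combinations of packed Taylor models.
-/

namespace Pool.Agent.P.MP_d76e6a_co

open Finset

variable {N : ℕ}

def linV (M k1 k2 k3 a b c : ℕ) : ℕ :=
  Nat.land (Nat.shiftRight (Nat.sub
    (Nat.add (Nat.add (Nat.add (Nat.mul k1 a) (Nat.mul k2 b)) (Nat.mul k3 c))
      (Nat.mul M 34662321099990647697175478272))
    (Nat.add (Nat.shiftLeft (Nat.add (Nat.add a b) c) 41)
      (Nat.mul (Nat.add (Nat.add k1 k2) k3) (bia M)))) 40) (ful M)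

def absK (k : ℕ) : ℕ := Nat.add (Nat.sub k 2199023255552) (Nat.sub 2199023255552 k)

/-- The combination `(c0 + k1 s + k2 t + k3 w) / 2 ^ 40`, all four numbers being given with the
shift `2 ^ 41`, with additional error `ex` and overflow flag `fl`. -/
def PT.lin (c0 k1 k2 k3 : ℕ) (s t w : PT N) (ex fl : ℕ) : PT N :=
  ⟨Nat.sub (Nat.add (linV cM0 k1 k2 k3 s.p t.p w.p) c0) 2199023255552,
    linV (cM1 N) k1 k2 k3 s.x t.x w.x,
    Nat.add (Nat.shiftRight (Nat.add (Nat.add (Nat.mul (absK k1) s.r) (Nat.mul (absK k2) t.r))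
      (Nat.mul (absK k3) w.r)) 40) (Nat.add (Nat.add 11 (Nat.mul 3 N)) ex),
    Nat.add (Nat.add (Nat.mul 2 (Nat.add (Nat.add s.m t.m) w.m)) (Nat.add c0 2199023255553))
      (Nat.shiftLeft fl 52)⟩

theorem lin_pat (p : ℕ → Bool) (n : ℕ) :
    ((pat p n : ℕ) : ℤ) = ∑ k ∈ range n, cond (p k) (1 : ℤ) 0 * 2 ^ (96 * k) := by
  unfold pat pk
  push_cast
  refine Finset.sum_congr rfl fun k _ => ?_
  cases p k <;> simp

theorem lin_bound {k1 k2 k3 : ℕ} {x y w : ℤ} {a b c : ℕ} (h1 : k1 ≤ 4398046511104)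
    (h2 : k2 ≤ 4398046511104) (h3 : k3 ≤ 4398046511104) (hx : |x| ≤ a) (hy : |y| ≤ b)
    (hw : |w| ≤ c) :
    |((k1 : ℤ) - 2199023255552) * x + (k2 - 2199023255552) * y + (k3 - 2199023255552) * w|
      ≤ 2199023255552 * (a + b + c) := by
  have e : ∀ {k : ℕ} {x : ℤ} {a : ℕ}, k ≤ 4398046511104 → |x| ≤ a →
      |((k : ℤ) - 2199023255552) * x| ≤ 2199023255552 * a := by
    intro k x a hk hx
    rw [abs_mul]
    refine mul_le_mul ?_ hx (abs_nonneg _) (by norm_num)
    rw [abs_le]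
    constructor <;> omega
  have a1 := e h1 hx
  have a2 := e h2 hy
  have a3 := e h3 hw
  rw [abs_le] at a1 a2 a3 ⊢
  constructor <;> linarith [a1.1, a1.2, a2.1, a2.2, a3.1, a3.2]

theorem lin_shl (a k : ℕ) : Nat.shiftLeft a k = a * 2 ^ k := Nat.shiftLeft_eq a k

theorem lin_cast (M k1 k2 k3 a b c : ℕ) {S : ℤ} (nn : 0 ≤ S)
    (key : (k1 : ℤ) * a + k2 * b + k3 * c + M * 34662321099990647697175478272
      - ((a + b + c) * 2199023255552 + (k1 + k2 + k3) * (M * 4503599627370496)) = S) :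
    ∃ v : ℕ, (v : ℤ) = S ∧ linV M k1 k2 k3 a b c = Nat.land (Nat.shiftRight v 40) (ful M) := by
  refine ⟨Nat.sub (Nat.add (Nat.add (Nat.add (Nat.mul k1 a) (Nat.mul k2 b)) (Nat.mul k3 c))
      (Nat.mul M 34662321099990647697175478272))
    (Nat.add (Nat.shiftLeft (Nat.add (Nat.add a b) c) 41)
      (Nat.mul (Nat.add (Nat.add k1 k2) k3) (bia M))), ?_, by rw [linV]⟩
  have e1 : Nat.shiftLeft (Nat.add (Nat.add a b) c) 41 = (a + b + c) * 2199023255552 :=
    (lin_shl (a + b + c) 41).trans (by norm_num)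
  have e2 : bia M = M * 4503599627370496 := (lin_shl M 52).trans (by norm_num)
  rw [e1, e2]
  simp only [Nat.add_eq, Nat.mul_eq, Nat.sub_eq]
  rw [Nat.cast_sub]
  · push_cast
    exact key
  · zify
    linarith

theorem lin_rep {n k1 k2 k3 a b c : ℕ} {p : ℕ → Bool} {x y w : ℕ → ℤ} (ha : Rep a p n x)
    (hb : Rep b p n y) (hc : Rep c p n w)
    (hd : ∀ k, |((k1 : ℤ) - 2199023255552) * x k + (k2 - 2199023255552) * y k
      + (k3 - 2199023255552) * w k| < 2 ^ 92) :
    Rep (linV (pat p n) k1 k2 k3 a b c) p n fun k =>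
      (((k1 : ℤ) - 2199023255552) * x k + (k2 - 2199023255552) * y k
        + (k3 - 2199023255552) * w k) / 2 ^ 40 := by
  have nn : (0 : ℤ) ≤ ∑ k ∈ range n, ((((k1 : ℤ) - 2199023255552) * x k
      + (k2 - 2199023255552) * y k + (k3 - 2199023255552) * w k)
        + cond (p k) (2 ^ 92) 0) * 2 ^ (96 * k) := by
    refine Finset.sum_nonneg fun k _ => mul_nonneg ?_ (by positivity)
    cases hp : p k
    · have z : ¬(k < n ∧ p k = true) := by simp [hp]
      simp [ha.zero k z, hb.zero k z, hc.zero k z]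
    · have := (abs_lt.1 (hd k)).1
      simp only [cond_true]
      linarith
  obtain ⟨v, hv, e⟩ := lin_cast (pat p n) k1 k2 k3 a b c nn (by
    rw [ha.eq, hb.eq, hc.eq, lin_pat]
    simp only [Finset.mul_sum, Finset.sum_mul, add_mul, ← Finset.sum_add_distrib,
      ← Finset.sum_sub_distrib]
    refine Finset.sum_congr rfl fun k _ => ?_
    cases p k <;> simp only [cond_true, cond_false] <;> ring)
  rw [e]
  refine rep_shift p hv (fun k z => ?_) hd
  simp [ha.zero k z, hb.zero k z, hc.zero k z]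

theorem lin_div {d : ℤ} {m : ℕ} (h : |d| ≤ 2199023255552 * (m : ℤ)) :
    |d / 2 ^ 40| ≤ 2 * (m : ℤ) := by
  rw [abs_le] at h ⊢
  obtain ⟨h1, h2⟩ := h
  constructor <;> omega

theorem lin_round {n : ℕ} {p : ℕ → Bool} {d : ℕ → ℤ} {f : ℕ → ℝ} (hf : ∀ k, |f k| ≤ 1)
    (hz : ∀ k, ¬(k < n ∧ p k = true) → d k = 0) :
    |(∑ k ∈ range n, (d k : ℝ) * f k) / 1099511627776
      - ∑ k ∈ range n, ((d k / 2 ^ 40 : ℤ) : ℝ) * f k|
      ≤ ((∑ k ∈ range n, cond (p k) 1 0 : ℕ) : ℝ) := by
  rw [Finset.sum_div, ← Finset.sum_sub_distrib]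
  push_cast [Nat.cast_sum]
  refine (Finset.abs_sum_le_sum_abs _ _).trans (Finset.sum_le_sum fun k _ => ?_)
  cases hp : p k
  · have z : ¬(k < n ∧ p k = true) := by simp [hp]
    simp [hz k z]
  · have e1 : (d k / 1099511627776) * 1099511627776 ≤ d k := by omega
    have e2 : d k ≤ (d k / 1099511627776) * 1099511627776 + 1099511627776 := by omega
    have f1 : ((d k / 1099511627776 : ℤ) : ℝ) * 1099511627776 ≤ d k := by exact_mod_cast e1
    have f2 : (d k : ℝ) ≤ ((d k / 1099511627776 : ℤ) : ℝ) * 1099511627776 + 1099511627776 := by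
      exact_mod_cast e2
    have e : (d k : ℝ) * f k / 1099511627776 - ((d k / 1099511627776 : ℤ) : ℝ) * f k
        = ((d k : ℝ) / 1099511627776 - ((d k / 1099511627776 : ℤ) : ℝ)) * f k := by ring
    have g : |(d k : ℝ) / 1099511627776 - ((d k / 1099511627776 : ℤ) : ℝ)| ≤ 1 := by
      rw [abs_le]
      constructor <;> linarith
    simp only [cond_true, Nat.cast_one]
    rw [e, abs_mul]
    exact mul_le_one₀ g (abs_nonneg _) (hf k)

theorem lin_monP (E : Env) (k : ℕ) : |monP E.e1 E.e2 k| ≤ 1 := by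
  unfold monP
  rw [abs_mul, abs_pow, abs_pow]
  exact mul_le_one₀ (pow_le_one₀ (abs_nonneg _) E.h1) (by positivity)
    (pow_le_one₀ (abs_nonneg _) E.h2)

theorem lin_cntP : (∑ k ∈ range 43, cond (keepP k) 1 0 : ℕ) = 10 := by decide +kernel

theorem lin_cntX (N : ℕ) : (∑ k ∈ range (15 * N), cond (keepX k) 1 0 : ℕ) = 3 * N := by
  induction N with
  | zero => simp
  | succ N ih =>
    rw [Nat.mul_succ, Finset.sum_range_add, ih]
    have e : ∀ k ∈ range 15, (cond (keepX (15 * N + k)) 1 0 : ℕ) = cond (keepX k) 1 0 := by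
      intro k _
      unfold keepX
      rw [Nat.mul_add_mod]
    rw [Finset.sum_congr rfl e]
    have : (∑ k ∈ range 15, cond (keepX k) 1 0 : ℕ) = 3 := by decide +kernel
    rw [this, Nat.mul_succ]

theorem lin_absK (k : ℕ) : |(k : ℝ) - 2199023255552| = absK k := by
  have e : |(k : ℤ) - 2199023255552| = absK k := by
    unfold absK
    simp only [Nat.add_eq, Nat.sub_eq]
    rcases le_total k 2199023255552 with h | h
    · rw [abs_of_nonpos (by omega)]; omega
    · rw [abs_of_nonneg (by omega)]; omega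
  exact_mod_cast e

theorem lin_shift (a : ℕ) : (a : ℝ) / 1099511627776 ≤ (Nat.shiftRight a 40 : ℕ) + 1 := by
  have e : a ≤ (Nat.shiftRight a 40 + 1) * 1099511627776 := by
    simp only [Nat.shiftRight_eq, Nat.shiftRight_eq_div_pow]
    omega
  rw [div_le_iff₀ (by norm_num)]
  exact_mod_cast e

theorem lin_addc {v c0 m : ℕ} {c : ℕ → ℤ} (h : Rep v keepP 43 c) (hc : ∀ k, |c k| ≤ m)
    (hm : m + 2199023255552 ≤ 4503599627370496) :
    Rep (Nat.sub (Nat.add v c0) 2199023255552) keepP 43 fun k =>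
      c k + if k = 0 then (c0 : ℤ) - 2199023255552 else 0 := by
  have nn : (2199023255552 : ℤ) ≤ v := by
    rw [h.eq, Finset.sum_range_succ']
    have a : (0 : ℤ) ≤ ∑ k ∈ range 42,
        (c (k + 1) + cond (keepP (k + 1)) 4503599627370496 0) * 2 ^ (96 * (k + 1)) := by
      refine Finset.sum_nonneg fun k _ => mul_nonneg ?_ (by positivity)
      cases hp : keepP (k + 1)
      · simp [h.zero (k + 1) (by simp [hp])]
      · have := (abs_le.1 (hc (k + 1))).1
        simp only [cond_true]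
        omega
    have b := (abs_le.1 (hc 0)).1
    have k0 : keepP 0 = true := by decide
    simp only [k0, cond_true, Nat.mul_zero, pow_zero, mul_one]
    omega
  constructor
  · have e : ((Nat.sub (Nat.add v c0) 2199023255552 : ℕ) : ℤ) = v + (c0 - 2199023255552) := by
      simp only [Nat.add_eq, Nat.sub_eq]
      omega
    rw [e, h.eq]
    simp only [Finset.sum_range_succ' _ 42, Nat.add_one_ne_zero, if_false, if_true, add_zero,
      Nat.mul_zero, pow_zero, mul_one]
    ring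
  · intro k z
    have k0 : k ≠ 0 := by
      rintro rfl
      exact z ⟨by norm_num, by decide⟩
    simp [h.zero k z, k0]

theorem lin_valP (e1 e2 : ℝ) (c : ℕ → ℤ) (a : ℤ) :
    valP e1 e2 (fun k => c k + if k = 0 then a else 0)
      = ∑ k ∈ range 43, (c k : ℝ) * monP e1 e2 k + a := by
  unfold valP
  have m0 : monP e1 e2 0 = 1 := by simp [monP]
  rw [Finset.sum_range_succ' _ 42, Finset.sum_range_succ' (fun k => (c k : ℝ) * monP e1 e2 k) 42,
    m0]
  simp only [Nat.add_one_ne_zero, if_false, if_true, add_zero, Int.cast_add]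
  ring

theorem lin_r (a b c d e f n x : ℕ) :
    ((Nat.add (Nat.shiftRight (Nat.add (Nat.add (Nat.mul a b) (Nat.mul c d)) (Nat.mul e f)) 40)
      (Nat.add (Nat.add 11 (Nat.mul 3 n)) x) : ℕ) : ℝ)
      = (Nat.shiftRight (a * b + c * d + e * f) 40 : ℕ) + (11 + 3 * n + x) := by
  simp only [Nat.add_eq, Nat.mul_eq]
  push_cast
  ring

theorem lin_m (a b c d e f : ℕ) :
    Nat.add (Nat.add (Nat.mul 2 (Nat.add (Nat.add a b) c)) (Nat.add d e)) (Nat.shiftLeft f 52)
      = 2 * (a + b + c) + (d + e) + f * 2 ^ 52 := by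
  rw [lin_shl]
  rfl

theorem PT.lin_mem {E : Env} {s t w : PT N} {u v y z : ℝ} {c0 k1 k2 k3 ex fl : ℕ}
    (hs : s.Mem E u) (ht : t.Mem E v) (hw : w.Mem E y) (h1 : k1 ≤ 4398046511104)
    (h2 : k2 ≤ 4398046511104) (h3 : k3 ≤ 4398046511104)
    (h : fl = 0 → s.m < 4503599627370496 → N ≤ 1000 →
      |z * 1099511627776 - ((c0 - 2199023255552) + (k1 - 2199023255552) * u
        + (k2 - 2199023255552) * v + (k3 - 2199023255552) * y)| ≤ ex) :
    (PT.lin c0 k1 k2 k3 s t w ex fl).Mem E z := by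
  intro hm hN
  have m0 : (PT.lin c0 k1 k2 k3 s t w ex fl).m
      = 2 * (s.m + t.m + w.m) + (c0 + 2199023255553) + fl * 2 ^ 52 := by
    unfold PT.lin
    dsimp only
    exact lin_m s.m t.m w.m c0 2199023255553 fl
  have hm' : 2 * (s.m + t.m + w.m) + (c0 + 2199023255553) + fl * 2 ^ 52 < 4503599627370496 := by
    omega
  have hfl : fl = 0 := by omega
  obtain ⟨c1, d1, H1⟩ := hs (by omega) hN
  obtain ⟨c2, d2, H2⟩ := ht (by omega) hN
  obtain ⟨c3, d3, H3⟩ := hw (by omega) hN
  have hz := h hfl (by omega) hN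
  have bP := fun k => lin_bound h1 h2 h3 (H1.bp k) (H2.bp k) (H3.bp k)
  have bX := fun k => lin_bound h1 h2 h3 (H1.bx k) (H2.bx k) (H3.bx k)
  have rP := lin_rep (k1 := k1) (k2 := k2) (k3 := k3) H1.hp H2.hp H3.hp
    fun k => (bP k).trans_lt (by omega)
  have rX := lin_rep (k1 := k1) (k2 := k2) (k3 := k3) H1.hx H2.hx H3.hx
    fun k => (bX k).trans_lt (by omega)
  have dP := fun k => lin_div (m := s.m + t.m + w.m) ((bP k).trans_eq (by push_cast; ring))
  have dX := fun k => lin_div (m := s.m + t.m + w.m) ((bX k).trans_eq (by push_cast; ring))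
  rw [← cM0_eq] at rP
  rw [← cM1_eq] at rX
  have mz : ((PT.lin c0 k1 k2 k3 s t w ex fl).m : ℤ)
      = 2 * ((s.m + t.m + w.m : ℕ) : ℤ) + (c0 + 2199023255553) := by
    omega
  have qP := lin_addc (c0 := c0) (m := 2 * (s.m + t.m + w.m)) rP
    (fun k => (dP k).trans_eq (by push_cast; ring)) (by omega)
  have p0 : (PT.lin c0 k1 k2 k3 s t w ex fl).p
      = Nat.sub (Nat.add (linV cM0 k1 k2 k3 s.p t.p w.p) c0) 2199023255552 := by
    unfold PT.lin
    dsimp only
  have x0 : (PT.lin c0 k1 k2 k3 s t w ex fl).x = linV (cM1 N) k1 k2 k3 s.x t.x w.x := by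
    unfold PT.lin
    dsimp only
  rw [← p0] at qP
  rw [← x0] at rX
  refine ⟨_, _, qP, rX, fun k => ?_, fun k => ?_, ?_⟩
  · have := abs_le.1 (dP k)
    rw [mz, abs_le]
    split_ifs <;> constructor <;> omega
  · have := dX k
    rw [mz]
    omega
  · have RP := lin_round (n := 43) (p := keepP) (f := monP E.e1 E.e2)
      (d := fun k => ((k1 : ℤ) - 2199023255552) * c1 k + (k2 - 2199023255552) * c2 k
        + (k3 - 2199023255552) * c3 k) (lin_monP E)
      (fun k z => by simp [H1.hp.zero k z, H2.hp.zero k z, H3.hp.zero k z])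
    have RX := lin_round (n := 15 * N) (p := keepX)
      (f := fun k => E.xi (k / 15) * monP E.e1 E.e2 (k % 15))
      (d := fun k => ((k1 : ℤ) - 2199023255552) * d1 k + (k2 - 2199023255552) * d2 k
        + (k3 - 2199023255552) * d3 k)
      (fun k => by
        rw [abs_mul]
        exact mul_le_one₀ (E.hx _) (abs_nonneg _) (lin_monP E _))
      (fun k z => by simp [H1.hx.zero k z, H2.hx.zero k z, H3.hx.zero k z])
    rw [lin_cntP] at RP
    rw [lin_cntX] at RX
    have SP : ∑ k ∈ range 43, ((((k1 : ℤ) - 2199023255552) * c1 k + (k2 - 2199023255552) * c2 k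
        + (k3 - 2199023255552) * c3 k : ℤ) : ℝ) * monP E.e1 E.e2 k
        = (k1 - 2199023255552) * valP E.e1 E.e2 c1 + (k2 - 2199023255552) * valP E.e1 E.e2 c2
          + (k3 - 2199023255552) * valP E.e1 E.e2 c3 := by
      unfold valP
      simp only [Finset.mul_sum, ← Finset.sum_add_distrib]
      refine Finset.sum_congr rfl fun k _ => ?_
      push_cast
      ring
    have SX : ∑ k ∈ range (15 * N), ((((k1 : ℤ) - 2199023255552) * d1 k
        + (k2 - 2199023255552) * d2 k + (k3 - 2199023255552) * d3 k : ℤ) : ℝ)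
          * (E.xi (k / 15) * monP E.e1 E.e2 (k % 15))
        = (k1 - 2199023255552) * valX E.e1 E.e2 E.xi N d1
          + (k2 - 2199023255552) * valX E.e1 E.e2 E.xi N d2
          + (k3 - 2199023255552) * valX E.e1 E.e2 E.xi N d3 := by
      unfold valX
      simp only [Finset.mul_sum, ← Finset.sum_add_distrib]
      refine Finset.sum_congr rfl fun k _ => ?_
      push_cast
      ring
    rw [SP] at RP
    rw [SX] at RX
    have VP := lin_valP E.e1 E.e2 (fun k => (((k1 : ℤ) - 2199023255552) * c1 k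
        + (k2 - 2199023255552) * c2 k + (k3 - 2199023255552) * c3 k) / 2 ^ 40)
      ((c0 : ℤ) - 2199023255552)
    have rz : ((PT.lin c0 k1 k2 k3 s t w ex fl).r : ℝ)
        = (Nat.shiftRight (absK k1 * s.r + absK k2 * t.r + absK k3 * w.r) 40 : ℕ)
          + (11 + 3 * N + ex) := by
      unfold PT.lin
      dsimp only
      exact lin_r (absK k1) s.r (absK k2) t.r (absK k3) w.r N ex
    have sh := lin_shift (absK k1 * s.r + absK k2 * t.r + absK k3 * w.r)
    have e : ∀ {k r : ℕ} {x : ℝ}, |x| ≤ r → |((k : ℝ) - 2199023255552) * x| ≤ absK k * r := by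
      intro k r x hx
      rw [abs_mul, lin_absK]
      exact mul_le_mul_of_nonneg_left hx (Nat.cast_nonneg _)
    have a1 := abs_le.1 (e (k := k1) H1.err)
    have a2 := abs_le.1 (e (k := k2) H2.err)
    have a3 := abs_le.1 (e (k := k3) H3.err)
    rw [VP, rz]
    unfold valX at a1 a2 a3 RX ⊢
    rw [abs_le] at hz RP RX ⊢
    push_cast at sh RP RX ⊢
    constructor <;> linarith [a1.1, a1.2, a2.1, a2.2, a3.1, a3.2, hz.1, hz.2, RP.1, RP.2,
      RX.1, RX.2]

end Pool.Agent.P.MP_d76e6a_co
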