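import Mathlib

/-!
Sine and cosine of a fixed point number, with natural numbers only.
-/

namespace Pool.Agent.P.MP_d76e6a_co

open Real

/-- `2 ^ 41 + 2 ^ 40 cos (y / 2 ^ 40)` for `w = y ^ 2`, `v = w ^ 2`. -/
def cos0 (w v : ℕ) : ℕ :=
  Nat.div (Nat.sub (Nat.add (Nat.shiftLeft 62768369664000 640) (Nat.mul v
    (Nat.add (Nat.shiftLeft 871782912000 480) (Nat.mul v (Nat.add (Nat.shiftLeft 518918400 320)
      (Nat.mul v (Nat.add (Nat.shiftLeft 43680 160) v)))))))
    (Nat.mul w (Nat.add (Nat.shiftLeft 10461394944000 560) (Nat.mul v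
      (Nat.add (Nat.shiftLeft 29059430400 400) (Nat.mul v (Nat.add (Nat.shiftLeft 5765760 240)
        (Nat.mul v (Nat.shiftLeft 240 80)))))))))
    (Nat.shiftLeft 20922789888000 600)

/-- `2 ^ 41 + 2 ^ 40 sin (y / 2 ^ 40)` for `w = y ^ 2`, `v = w ^ 2`. -/
def sin0 (y w v : ℕ) : ℕ :=
  Nat.div (Nat.sub (Nat.add (Nat.shiftLeft 711374856192000 680) (Nat.mul y
    (Nat.add (Nat.shiftLeft 355687428096000 640) (Nat.mul v
    (Nat.add (Nat.shiftLeft 2964061900800 480) (Nat.mul v (Nat.add (Nat.shiftLeft 980179200 320)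
      (Nat.mul v (Nat.add (Nat.shiftLeft 57120 160) v)))))))))
    (Nat.mul (Nat.mul y w) (Nat.add (Nat.shiftLeft 59281238016000 560) (Nat.mul v
      (Nat.add (Nat.shiftLeft 70572902400 400) (Nat.mul v (Nat.add (Nat.shiftLeft 8910720 240)
        (Nat.mul v (Nat.shiftLeft 272 80)))))))))
    (Nat.shiftLeft 355687428096000 640)

theorem sc_shl (a k m : ℕ) (h : m = 40 * k) :
    ((Nat.shiftLeft a m : ℕ) : ℝ) = a * (1099511627776 : ℝ) ^ k := by
  have e : Nat.shiftLeft a m = a * 2 ^ m := Nat.shiftLeft_eq a m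
  have e2 : (1099511627776 : ℝ) = 2 ^ 40 := by norm_num
  rw [e, h, e2, ← pow_mul, Nat.cast_mul, Nat.cast_pow, Nat.cast_ofNat]

theorem sc_div {A B d : ℕ} {r : ℝ} (hd : (0 : ℝ) < d) (hr : (A : ℝ) - B = r * d) (h0 : 0 ≤ r) :
    |r - (Nat.div (Nat.sub A B) d : ℕ)| ≤ 1 := by
  have hBA : B ≤ A := by
    have : (B : ℝ) ≤ A := by nlinarith [mul_nonneg h0 hd.le]
    exact_mod_cast this
  have e : Nat.div (Nat.sub A B) d = (A - B) / d := rfl
  have hd' : 0 < d := by exact_mod_cast hd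
  have h1 : ((((A - B) / d : ℕ) : ℝ)) * d ≤ r * d := by
    rw [← hr, ← Nat.cast_sub hBA]
    exact_mod_cast Nat.div_mul_le_self _ _
  have h2 : r * d < ((((A - B) / d : ℕ) : ℝ) + 1) * d := by
    rw [← hr, ← Nat.cast_sub hBA, add_mul, one_mul]
    exact_mod_cast Nat.lt_div_mul_add (a := A - B) hd'
  have h3 := le_of_mul_le_mul_right h1 hd
  have h4 := lt_of_mul_lt_mul_right h2 hd.le
  rw [e, abs_le]
  constructor <;> linarith

theorem sc_div2 {A B d : ℕ} {t : ℝ} (p : ℝ) (ht : -1 ≤ t)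
    (hp : |t - p| ≤ 12 / 10 / 1099511627776) (hd : (0 : ℝ) < d)
    (hr : (A : ℝ) - B = (p * 1099511627776 + 2 * 1099511627776) * d) :
    |t * 1099511627776 + 2199023255552 - (Nat.div (Nat.sub A B) d : ℕ)| ≤ 5 / 2 := by
  have a1 := abs_le.1 hp
  have a2 := abs_le.1 (sc_div hd hr (by linarith [a1.1, a1.2]))
  rw [abs_le]
  constructor <;> linarith [a1.1, a1.2, a2.1, a2.2]

theorem sc_taylor {x : ℝ} (hx : |x| ≤ 15708 / 10000) :
    |sin x - (x - x ^ 3 / 6 + x ^ 5 / 120 - x ^ 7 / 5040 + x ^ 9 / 362880 - x ^ 11 / 39916800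
      + x ^ 13 / 6227020800 - x ^ 15 / 1307674368000 + x ^ 17 / 355687428096000)| ≤
        12 / 10 / 1099511627776 ∧
      |cos x - (1 - x ^ 2 / 2 + x ^ 4 / 24 - x ^ 6 / 720 + x ^ 8 / 40320 - x ^ 10 / 3628800
        + x ^ 12 / 479001600 - x ^ 14 / 87178291200 + x ^ 16 / 20922789888000)| ≤
        12 / 10 / 1099511627776 := by
  have hn : ‖(x : ℂ) * Complex.I‖ = |x| := by simp
  have h := Complex.exp_bound' (x := (x : ℂ) * Complex.I) (n := 18) (by
    rw [hn, div_le_iff₀ (by positivity)]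
    push_cast
    linarith)
  have hs : ∑ m ∈ Finset.range 18, ((x : ℂ) * Complex.I) ^ m / (m.factorial : ℂ) =
      ((1 - x ^ 2 / 2 + x ^ 4 / 24 - x ^ 6 / 720 + x ^ 8 / 40320 - x ^ 10 / 3628800
        + x ^ 12 / 479001600 - x ^ 14 / 87178291200 + x ^ 16 / 20922789888000 : ℝ) : ℂ) +
        ((x - x ^ 3 / 6 + x ^ 5 / 120 - x ^ 7 / 5040 + x ^ 9 / 362880 - x ^ 11 / 39916800
          + x ^ 13 / 6227020800 - x ^ 15 / 1307674368000 + x ^ 17 / 355687428096000 : ℝ) : ℂ) *
          Complex.I := by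
    simp only [Finset.sum_range_succ, Finset.sum_range_zero, Nat.factorial, mul_pow]
    have i2 : Complex.I ^ 2 = -1 := Complex.I_sq
    have i3 : Complex.I ^ 3 = -Complex.I := by rw [pow_succ, i2]; ring
    have i4 : Complex.I ^ 4 = 1 := Complex.I_pow_four
    have i5 : Complex.I ^ 5 = Complex.I := by rw [pow_succ, i4]; ring
    have i6 : Complex.I ^ 6 = -1 := by rw [show 6 = 4 + 2 by rfl, pow_add, i4, i2]; ring
    have i7 : Complex.I ^ 7 = -Complex.I := by rw [pow_succ, i6]; ring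
    have i8 : Complex.I ^ 8 = 1 := by rw [show 8 = 4 + 4 by rfl, pow_add, i4]; ring
    have i9 : Complex.I ^ 9 = Complex.I := by rw [pow_succ, i8]; ring
    have i10 : Complex.I ^ 10 = -1 := by rw [show 10 = 8 + 2 by rfl, pow_add, i8, i2]; ring
    have i11 : Complex.I ^ 11 = -Complex.I := by rw [pow_succ, i10]; ring
    have i12 : Complex.I ^ 12 = 1 := by rw [show 12 = 8 + 4 by rfl, pow_add, i8, i4]; ring
    have i13 : Complex.I ^ 13 = Complex.I := by rw [pow_succ, i12]; ring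
    have i14 : Complex.I ^ 14 = -1 := by rw [show 14 = 12 + 2 by rfl, pow_add, i12, i2]; ring
    have i15 : Complex.I ^ 15 = -Complex.I := by rw [pow_succ, i14]; ring
    have i16 : Complex.I ^ 16 = 1 := by rw [show 16 = 12 + 4 by rfl, pow_add, i12, i4]; ring
    have i17 : Complex.I ^ 17 = Complex.I := by rw [pow_succ, i16]; ring
    rw [i2, i3, i4, i5, i6, i7, i8, i9, i10, i11, i12, i13, i14, i15, i16, i17]
    push_cast
    ring
  have hb : |x| ^ 18 / (Nat.factorial 18 : ℝ) * 2 ≤ 12 / 10 / 1099511627776 := by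
    have h1 : |x| ^ 18 ≤ (15708 / 10000) ^ 18 := pow_le_pow_left₀ (abs_nonneg _) hx 18
    have h2 : (Nat.factorial 18 : ℝ) = 6402373705728000 := by norm_num [Nat.factorial]
    have h3 : ((15708 : ℝ) / 10000) ^ 18 ≤ 3400 := by norm_num
    rw [h2]
    linarith
  rw [hn, hs, Complex.exp_mul_I] at h
  have h' := h.trans hb
  constructor
  · refine le_trans (le_of_eq ?_) ((Complex.abs_im_le_norm _).trans h')
    congr 1
    simp only [Complex.sub_im, Complex.add_im, Complex.mul_im, Complex.I_re, Complex.I_im,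
      Complex.ofReal_re, Complex.ofReal_im, Complex.cos_ofReal_im, Complex.sin_ofReal_im,
      Complex.sin_ofReal_re]
    ring
  · refine le_trans (le_of_eq ?_) ((Complex.abs_re_le_norm _).trans h')
    congr 1
    simp only [Complex.sub_re, Complex.add_re, Complex.mul_re, Complex.I_re, Complex.I_im,
      Complex.ofReal_re, Complex.ofReal_im, Complex.cos_ofReal_re, Complex.sin_ofReal_im,
      Complex.sin_ofReal_re]
    ring

theorem sc_cos_id (x T y : ℝ) (hy : y = x * T) :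
    (62768369664000 * T ^ 16 + y * y * (y * y) * (871782912000 * T ^ 12 + y * y * (y * y) *
      (518918400 * T ^ 8 + y * y * (y * y) * (43680 * T ^ 4 + y * y * (y * y))))) -
      y * y * (10461394944000 * T ^ 14 + y * y * (y * y) * (29059430400 * T ^ 10 +
        y * y * (y * y) * (5765760 * T ^ 6 + y * y * (y * y) * (240 * T ^ 2)))) =
      ((1 - x ^ 2 / 2 + x ^ 4 / 24 - x ^ 6 / 720 + x ^ 8 / 40320 - x ^ 10 / 3628800
        + x ^ 12 / 479001600 - x ^ 14 / 87178291200 + x ^ 16 / 20922789888000) * T + 2 * T) *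
        (20922789888000 * T ^ 15) := by
  subst hy
  ring

theorem sc_sin_id (x T y : ℝ) (hy : y = x * T) :
    (711374856192000 * T ^ 17 + y * (355687428096000 * T ^ 16 + y * y * (y * y) *
      (2964061900800 * T ^ 12 + y * y * (y * y) * (980179200 * T ^ 8 + y * y * (y * y) *
        (57120 * T ^ 4 + y * y * (y * y)))))) -
      y * (y * y) * (59281238016000 * T ^ 14 + y * y * (y * y) * (70572902400 * T ^ 10 +
        y * y * (y * y) * (8910720 * T ^ 6 + y * y * (y * y) * (272 * T ^ 2)))) =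
      ((x - x ^ 3 / 6 + x ^ 5 / 120 - x ^ 7 / 5040 + x ^ 9 / 362880 - x ^ 11 / 39916800
        + x ^ 13 / 6227020800 - x ^ 15 / 1307674368000 + x ^ 17 / 355687428096000) * T + 2 * T) *
        (355687428096000 * T ^ 16) := by
  subst hy
  ring

theorem sin0_cos0 {y : ℕ} (hy : y ≤ 1727108826819) :
    |sin (y / 1099511627776) * 1099511627776 + 2199023255552
      - sin0 y (Nat.mul y y) (Nat.mul (Nat.mul y y) (Nat.mul y y))| ≤ 5 / 2 ∧
    |cos (y / 1099511627776) * 1099511627776 + 2199023255552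
      - cos0 (Nat.mul y y) (Nat.mul (Nat.mul y y) (Nat.mul y y))| ≤ 5 / 2 := by
  have hy' : (y : ℝ) ≤ 1727108826819 := by exact_mod_cast hy
  have hy0 : (0 : ℝ) ≤ y := Nat.cast_nonneg y
  obtain ⟨h1, h2⟩ := sc_taylor (x := (y : ℝ) / 1099511627776) (by
    rw [abs_of_nonneg (by positivity), div_le_iff₀ (by norm_num)]
    linarith)
  have hx : (y : ℝ) = y / 1099511627776 * 1099511627776 := by ring
  generalize (y : ℝ) / 1099511627776 = x at h1 h2 hx ⊢
  have cA : ∀ a b : ℕ, ((Nat.add a b : ℕ) : ℝ) = a + b := fun a b => Nat.cast_add a b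
  have cM : ∀ a b : ℕ, ((Nat.mul a b : ℕ) : ℝ) = a * b := fun a b => Nat.cast_mul a b
  constructor
  · unfold sin0
    refine sc_div2 _ (neg_one_le_sin x) h1 ?_ ?_
    · rw [sc_shl _ 16 640 rfl]
      positivity
    · simp only [cA, cM]
      rw [sc_shl _ 17 680 rfl, sc_shl _ 16 640 rfl, sc_shl _ 12 480 rfl, sc_shl _ 8 320 rfl,
        sc_shl _ 4 160 rfl, sc_shl _ 14 560 rfl, sc_shl _ 10 400 rfl, sc_shl _ 6 240 rfl,
        sc_shl _ 2 80 rfl]
      simp only [Nat.cast_ofNat]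
      exact sc_sin_id x _ _ hx
  · unfold cos0
    refine sc_div2 _ (neg_one_le_cos x) h2 ?_ ?_
    · rw [sc_shl _ 15 600 rfl]
      positivity
    · simp only [cA, cM]
      rw [sc_shl _ 16 640 rfl, sc_shl _ 12 480 rfl, sc_shl _ 8 320 rfl,
        sc_shl _ 4 160 rfl, sc_shl _ 14 560 rfl, sc_shl _ 10 400 rfl, sc_shl _ 6 240 rfl,
        sc_shl _ 2 80 rfl, sc_shl _ 15 600 rfl]
      simp only [Nat.cast_ofNat]
      exact sc_cos_id x _ _ hx

def redA (c : ℕ) : ℕ := Nat.sub (Nat.shiftLeft c 32) 18868069054629524472700352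
def redN (c : ℕ) : ℕ := Nat.div (redA c) 7417875925070973790601
def redY (c : ℕ) : ℕ := Nat.shiftRight (Nat.mod (redA c) 7417875925070973790601) 32

/-- Shifted sine and cosine of `(c - 2 ^ 52) / 2 ^ 40`. -/
noncomputable def pSC (c : ℕ) : ℕ × ℕ :=
  let y := redY c
  let w := Nat.mul y y
  let v := Nat.mul w w
  let s := sin0 y w v
  let k := cos0 w v
  Bool.rec
    (Bool.rec (Nat.sub 4398046511104 k, s) (Nat.sub 4398046511104 s, Nat.sub 4398046511104 k)
      (Nat.beq (Nat.mod (redN c) 4) 2))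
    (Bool.rec (k, Nat.sub 4398046511104 s) (s, k) (Nat.beq (Nat.mod (redN c) 4) 0))
    (Nat.ble (Nat.mod (redN c) 4) 1)

theorem sc_redY (c : ℕ) : redY c = redA c % 7417875925070973790601 / 4294967296 := by
  have e : redY c = (redA c % 7417875925070973790601) >>> 32 := rfl
  rw [e, Nat.shiftRight_eq_div_pow]

theorem sc_redY_le (c : ℕ) : redY c ≤ 1727108826819 := by
  rw [sc_redY]
  omega

theorem sc_pick (n s k : ℕ) (q : ℕ × ℕ) (e : q = Bool.rec
      (Bool.rec (Nat.sub 4398046511104 k, s) (Nat.sub 4398046511104 s, Nat.sub 4398046511104 k)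
        (Nat.beq (Nat.mod n 4) 2))
      (Bool.rec (k, Nat.sub 4398046511104 s) (s, k) (Nat.beq (Nat.mod n 4) 0))
      (Nat.ble (Nat.mod n 4) 1)) :
    (n % 4 = 0 ∧ q = (s, k)) ∨ (n % 4 = 1 ∧ q = (k, 4398046511104 - s)) ∨
      (n % 4 = 2 ∧ q = (4398046511104 - s, 4398046511104 - k)) ∨
      (n % 4 = 3 ∧ q = (4398046511104 - k, s)) := by
  have em : Nat.mod n 4 = n % 4 := rfl
  have es : ∀ a b : ℕ, Nat.sub a b = a - b := fun _ _ => rfl
  rw [e, em, es, es]
  rcases (by omega : n % 4 = 0 ∨ n % 4 = 1 ∨ n % 4 = 2 ∨ n % 4 = 3) with h | h | h | h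
  · exact Or.inl ⟨h, by rw [h]; rfl⟩
  · exact Or.inr (Or.inl ⟨h, by rw [h]; rfl⟩)
  · exact Or.inr (Or.inr (Or.inl ⟨h, by rw [h]; rfl⟩))
  · exact Or.inr (Or.inr (Or.inr ⟨h, by rw [h]; rfl⟩))

theorem sc_gen (N : ℕ → ℕ) (f : ℕ → ℕ × ℕ) (hf : f = fun c =>
    let y := redY c
    let w := Nat.mul y y
    let v := Nat.mul w w
    let s := sin0 y w v
    let k := cos0 w v
    Bool.rec
      (Bool.rec (Nat.sub 4398046511104 k, s) (Nat.sub 4398046511104 s, Nat.sub 4398046511104 k)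
        (Nat.beq (Nat.mod (N c) 4) 2))
      (Bool.rec (k, Nat.sub 4398046511104 s) (s, k) (Nat.beq (Nat.mod (N c) 4) 0))
      (Nat.ble (Nat.mod (N c) 4) 1)) (c s k : ℕ)
    (hs : s = sin0 (redY c) (Nat.mul (redY c) (redY c))
      (Nat.mul (Nat.mul (redY c) (redY c)) (Nat.mul (redY c) (redY c))))
    (hk : k = cos0 (Nat.mul (redY c) (redY c))
      (Nat.mul (Nat.mul (redY c) (redY c)) (Nat.mul (redY c) (redY c)))) :
    (N c % 4 = 0 ∧ f c = (s, k)) ∨ (N c % 4 = 1 ∧ f c = (k, 4398046511104 - s)) ∨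
      (N c % 4 = 2 ∧ f c = (4398046511104 - s, 4398046511104 - k)) ∨
      (N c % 4 = 3 ∧ f c = (4398046511104 - k, s)) := by
  refine sc_pick _ _ _ _ ?_
  rw [hs, hk, hf]

theorem sc_cases (c s k : ℕ)
    (hs : s = sin0 (redY c) (Nat.mul (redY c) (redY c))
      (Nat.mul (Nat.mul (redY c) (redY c)) (Nat.mul (redY c) (redY c))))
    (hk : k = cos0 (Nat.mul (redY c) (redY c))
      (Nat.mul (Nat.mul (redY c) (redY c)) (Nat.mul (redY c) (redY c)))) :
    (redN c % 4 = 0 ∧ pSC c = (s, k)) ∨ (redN c % 4 = 1 ∧ pSC c = (k, 4398046511104 - s)) ∨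
      (redN c % 4 = 2 ∧ pSC c = (4398046511104 - s, 4398046511104 - k)) ∨
      (redN c % 4 = 3 ∧ pSC c = (4398046511104 - k, s)) :=
  sc_gen redN pSC rfl c s k hs hk

theorem sc_le {t : ℝ} {s : ℕ} (ht : t ≤ 1) (h : |t * 1099511627776 + 2199023255552 - s| ≤ 5 / 2) :
    s ≤ 4398046511104 := by
  have : (s : ℝ) ≤ 4398046511104 := by linarith [(abs_le.1 h).1]
  exact_mod_cast this

theorem pSC_le (c : ℕ) : (pSC c).1 ≤ 4398046511104 ∧ (pSC c).2 ≤ 4398046511104 := by
  obtain ⟨h1, h2⟩ := sin0_cos0 (sc_redY_le c)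
  have b1 := sc_le (sin_le_one _) h1
  have b2 := sc_le (cos_le_one _) h2
  rcases sc_cases c _ _ rfl rfl with ⟨-, e⟩ | ⟨-, e⟩ | ⟨-, e⟩ | ⟨-, e⟩ <;> rw [e]
  · exact ⟨b1, b2⟩
  · exact ⟨b2, Nat.sub_le _ _⟩
  · exact ⟨Nat.sub_le _ _, Nat.sub_le _ _⟩
  · exact ⟨Nat.sub_le _ _, b1⟩

theorem sc_red {c : ℕ} (h : |(c : ℝ) - 4503599627370496| ≤ 70368744177664) :
    |((c : ℝ) - 4503599627370496) / 1099511627776 -
      ((redY c : ℝ) / 1099511627776 + ((redN c : ℝ) - 64) * (π / 2))| ≤ 3 / 2 / 1099511627776 := by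
  have hc := abs_le.1 h
  have c1 : 4433230883192832 ≤ c := by
    have : (4433230883192832 : ℝ) ≤ c := by linarith [hc.1]
    exact_mod_cast this
  have c2 : c ≤ 4573968371548160 := by
    have : (c : ℝ) ≤ 4573968371548160 := by linarith [hc.2]
    exact_mod_cast this
  have eA : redA c = c * 4294967296 - 18868069054629524472700352 := by
    have e : ∀ a b : ℕ, Nat.sub (Nat.shiftLeft a 32) b = a * 4294967296 - b := fun a b => by
      have : Nat.shiftLeft a 32 = a * 2 ^ 32 := Nat.shiftLeft_eq a 32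
      rw [this]
      rfl
    unfold redA
    exact e _ _
  have eN : redN c = redA c / 7417875925070973790601 := by
    have e : ∀ a b : ℕ, Nat.div a b = a / b := fun _ _ => rfl
    unfold redN
    exact e _ _
  have eY := sc_redY c
  generalize redY c = y at eY ⊢
  generalize redN c = n at eN ⊢
  generalize redA c = a at eA eN eY
  have n1 : n ≤ 128 := by omega
  have d0 : a + 18868069054629524472700352 = c * 4294967296 := by omega
  have d1 := Nat.div_add_mod a 7417875925070973790601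
  have d2 := Nat.div_add_mod (a % 7417875925070973790601) 4294967296
  have d3 := Nat.mod_lt (a % 7417875925070973790601) (show 0 < 4294967296 by norm_num)
  rw [← eN] at d1
  rw [← eY] at d2
  clear eA eN eY
  generalize a % 7417875925070973790601 = r at d1 d2 d3
  generalize r % 4294967296 = q at d2 d3
  have d0' : (a : ℝ) + 18868069054629524472700352 = c * 4294967296 := by exact_mod_cast d0
  have d1' : (7417875925070973790601 : ℝ) * n + r = a := by exact_mod_cast d1
  have d2' : (4294967296 : ℝ) * y + q = r := by exact_mod_cast d2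
  have d3' : (q : ℝ) < 4294967296 := by exact_mod_cast d3
  have d4' : (0 : ℝ) ≤ q := Nat.cast_nonneg q
  have hn : |(n : ℝ) - 64| ≤ 64 := by
    have : (n : ℝ) ≤ 128 := by exact_mod_cast n1
    have : (0 : ℝ) ≤ n := Nat.cast_nonneg n
    rw [abs_le]
    constructor <;> linarith
  have hp : |7417875925070973790601 - π / 2 * 4722366482869645213696| ≤ (100 : ℝ) := by
    have := pi_gt_d20
    have := pi_lt_d20
    rw [abs_le]
    constructor <;> linarith
  have hm : |((n : ℝ) - 64) * (7417875925070973790601 - π / 2 * 4722366482869645213696)| ≤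
      64 * 100 := by
    rw [abs_mul]
    exact mul_le_mul hn hp (abs_nonneg _) (by norm_num)
  have hm' := abs_le.1 hm
  rw [abs_le]
  constructor <;> linarith [hm'.1, hm'.2]

theorem pSC_spec {c : ℕ} (h : |(c : ℝ) - 4503599627370496| ≤ 70368744177664) :
    |sin ((c - 4503599627370496) / 1099511627776) * 1099511627776 + 2199023255552 - (pSC c).1| ≤ 4 ∧
    |cos ((c - 4503599627370496) / 1099511627776) * 1099511627776 + 2199023255552 - (pSC c).2|
      ≤ 4 := by
  obtain ⟨h1, h2⟩ := sin0_cos0 (sc_redY_le c)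
  have b1 := sc_le (sin_le_one _) h1
  have b2 := sc_le (cos_le_one _) h2
  have hd := sc_red h
  have hc := sc_cases c _ _ rfl rfl
  generalize sin0 _ _ _ = s at h1 b1 hc
  generalize cos0 _ _ = k at h2 b2 hc
  generalize (redY c : ℝ) / 1099511627776 = x at h1 h2 hd
  generalize ((c : ℝ) - 4503599627370496) / 1099511627776 = u at hd ⊢
  generalize redN c = n at hd hc
  have hn : ∀ m : ℕ, n % 4 = m → x + ((n : ℝ) - 64) * (π / 2) =
      x + m * (π / 2) + (((n / 4 : ℕ) : ℤ) - 16 : ℤ) * (2 * π) := fun m hm => by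
    have : (n : ℝ) = m + 4 * ((n / 4 : ℕ) : ℝ) := by
      exact_mod_cast (by omega : n = m + 4 * (n / 4))
    rw [Int.cast_sub, Int.cast_natCast, Int.cast_ofNat]
    linear_combination (π / 2) * this
  have a1 := abs_le.1 ((abs_sin_sub_sin_le _ _).trans hd)
  have a2 := abs_le.1 ((abs_cos_sub_cos_le _ _).trans hd)
  have a3 := abs_le.1 h1
  have a4 := abs_le.1 h2
  have cs : ((4398046511104 - s : ℕ) : ℝ) = 4398046511104 - s := by
    rw [Nat.cast_sub b1, Nat.cast_ofNat]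
  have ck : ((4398046511104 - k : ℕ) : ℝ) = 4398046511104 - k := by
    rw [Nat.cast_sub b2, Nat.cast_ofNat]
  rcases hc with ⟨m, e⟩ | ⟨m, e⟩ | ⟨m, e⟩ | ⟨m, e⟩ <;> rw [e] <;> dsimp only <;>
    rw [hn _ m, sin_add_int_mul_two_pi] at a1 <;> rw [hn _ m, cos_add_int_mul_two_pi] at a2
  · have e1 : x + ((0 : ℕ) : ℝ) * (π / 2) = x := by push_cast; ring
    rw [e1] at a1 a2
    constructor <;> rw [abs_le] <;> constructor <;>
      linarith [a1.1, a1.2, a2.1, a2.2, a3.1, a3.2, a4.1, a4.2]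
  · have e1 : x + ((1 : ℕ) : ℝ) * (π / 2) = x + π / 2 := by push_cast; ring
    rw [e1, sin_add_pi_div_two] at a1
    rw [e1, cos_add_pi_div_two] at a2
    rw [cs]
    constructor <;> rw [abs_le] <;> constructor <;>
      linarith [a1.1, a1.2, a2.1, a2.2, a3.1, a3.2, a4.1, a4.2]
  · have e1 : x + ((2 : ℕ) : ℝ) * (π / 2) = x + π := by push_cast; ring
    rw [e1, sin_add_pi] at a1
    rw [e1, cos_add_pi] at a2
    rw [cs, ck]
    constructor <;> rw [abs_le] <;> constructor <;>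
      linarith [a1.1, a1.2, a2.1, a2.2, a3.1, a3.2, a4.1, a4.2]
  · have e1 : x + ((3 : ℕ) : ℝ) * (π / 2) = x + π / 2 + π := by push_cast; ring
    rw [e1, sin_add_pi, sin_add_pi_div_two] at a1
    rw [e1, cos_add_pi, cos_add_pi_div_two] at a2
    rw [ck]
    constructor <;> rw [abs_le] <;> constructor <;>
      linarith [a1.1, a1.2, a2.1, a2.2, a3.1, a3.2, a4.1, a4.2]

end Pool.Agent.P.MP_d76e6a_co
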