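import Pool.Agent.P.MP_d76e6a_co.XMul
import Pool.Agent.P.MP_d76e6a_co.XLin
import Pool.Agent.P.MP_d76e6a_co.XSc

/-!
Sine and cosine of packed Taylor models.
-/

namespace Pool.Agent.P.MP_d76e6a_co

open Real

variable {N : ℕ}

def absB (c : ℕ) : ℕ := Nat.add (Nat.sub c 4503599627370496) (Nat.sub 4503599627370496 c)

/-- The model with its constant term removed. -/
def PT.cen (t : PT N) : PT N := ⟨Nat.sub (Nat.add t.p 4503599627370496) t.cb, t.x, t.r, t.m⟩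

def PT.rad (t : PT N) : ℕ := Nat.sub (Nat.add t.nn t.r) (absB t.cb)

/-- Sine and cosine. -/
noncomputable def PT.sc (t : PT N) : PT N × PT N :=
  let q := pSC t.cb
  let d := t.cen
  let d2 := d.mul d
  let d3 := d2.mul d
  let ρ := t.rad
  let ex := Nat.add (Nat.div (Nat.shiftRight (Nat.mul (Nat.mul ρ ρ) (Nat.mul ρ ρ)) 120) 19) 15
  let fl := Nat.add (Nat.shiftRight ρ 40) (Nat.shiftRight t.n0 46)
  (PT.lin q.1 q.2 (Nat.div (Nat.sub 6597069766656 q.1) 2) (Nat.div (Nat.sub 15393162788864 q.2) 6)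
      d d2 d3 ex fl,
    PT.lin q.2 (Nat.sub 4398046511104 q.1) (Nat.div (Nat.sub 6597069766656 q.2) 2)
      (Nat.div (Nat.add 10995116277760 q.1) 6) d d2 d3 ex fl)

theorem fs_rem {A B d : ℝ} (hAB : A ^ 2 + B ^ 2 = 1) (hd : |d| ≤ 1) :
    |A * cos d + B * sin d - (A * (1 - d ^ 2 / 2) + B * (d - d ^ 3 / 6))| ≤ |d| ^ 4 * (5 / 96) := by
  have hn : ‖(d : ℂ) * Complex.I‖ = |d| := by simp
  have h := Complex.exp_bound (x := (d : ℂ) * Complex.I) (n := 4) (by rw [hn]; exact hd)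
    (by norm_num)
  have hs : ∑ m ∈ Finset.range 4, ((d : ℂ) * Complex.I) ^ m / (m.factorial : ℂ) =
      ((1 - d ^ 2 / 2 : ℝ) : ℂ) + ((d - d ^ 3 / 6 : ℝ) : ℂ) * Complex.I := by
    simp only [Finset.sum_range_succ, Finset.sum_range_zero, Nat.factorial, mul_pow]
    have i2 : Complex.I ^ 2 = -1 := Complex.I_sq
    have i3 : Complex.I ^ 3 = -Complex.I := by rw [pow_succ, i2]; ring
    rw [i2, i3]
    push_cast
    ring
  have e : Complex.exp ((d : ℂ) * Complex.I) -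
      (((1 - d ^ 2 / 2 : ℝ) : ℂ) + ((d - d ^ 3 / 6 : ℝ) : ℂ) * Complex.I) =
      ((cos d - (1 - d ^ 2 / 2) : ℝ) : ℂ) + ((sin d - (d - d ^ 3 / 6) : ℝ) : ℂ) * Complex.I := by
    rw [Complex.exp_mul_I]
    push_cast
    ring
  have c : ((Nat.succ 4 : ℕ) : ℝ) * (((Nat.factorial 4 : ℕ) : ℝ) * ((4 : ℕ) : ℝ))⁻¹ = 5 / 96 := by
    norm_num [Nat.factorial]
  rw [hn, hs, e, c, Complex.norm_add_mul_I] at h
  generalize cos d = x at *
  generalize sin d = y at *
  refine le_trans (Real.abs_le_sqrt ?_) h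
  nlinarith [sq_nonneg (A * (y - (d - d ^ 3 / 6)) - B * (x - (1 - d ^ 2 / 2)))]

theorem fs_div (a : ℕ) {b : ℕ} (hb : 0 < b) :
    ∃ e : ℝ, 0 ≤ e ∧ e ≤ 1 ∧ ((Nat.div a b : ℕ) : ℝ) = a / b - e := by
  have h1 : ((a / b : ℕ) : ℝ) ≤ a / b := Nat.cast_div_le
  have hb' : (0 : ℝ) < b := by exact_mod_cast hb
  have h2 : (a : ℝ) < ((a / b : ℕ) : ℝ) * b + b := by exact_mod_cast Nat.lt_div_mul_add hb
  have h3 : (a : ℝ) / b ≤ ((a / b : ℕ) : ℝ) + 1 := by
    rw [div_le_iff₀ hb']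
    linarith
  exact ⟨a / b - ((a / b : ℕ) : ℝ), by linarith, by linarith, by
    show ((a / b : ℕ) : ℝ) = _
    ring⟩

theorem fs_core {A B d a b k2 k3 e2 e3 : ℝ} {ρ : ℕ} (hAB : A ^ 2 + B ^ 2 = 1)
    (ha : |A * 1099511627776 - a| ≤ 4) (hb : |B * 1099511627776 - b| ≤ 4)
    (h2 : |e2| ≤ 1) (h3 : |e3| ≤ 1) (q2 : k2 = -a / 2 - e2) (q3 : k3 = -b / 6 - e3)
    (hd : |d| * 1099511627776 ≤ ρ) (hρ : ρ < 1099511627776) :
    |(A * cos d + B * sin d) * 1099511627776 - (a + b * d + k2 * (d * d) + k3 * (d * d * d))| ≤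
      (Nat.add (Nat.div (Nat.shiftRight (Nat.mul (Nat.mul ρ ρ) (Nat.mul ρ ρ)) 120) 19) 15 : ℕ) := by
  have hρ' : (ρ : ℝ) ≤ 1099511627776 := by exact_mod_cast hρ.le
  have t1 : |d| ≤ 1 := by linarith
  have m : ∀ {x y s t : ℝ}, |x| ≤ s → |y| ≤ t → |x * y| ≤ s * t := fun hx hy => by
    rw [abs_mul]
    exact mul_le_mul hx hy (abs_nonneg _) ((abs_nonneg _).trans hx)
  have t2 := m t1 t1
  have t3 := m t2 t1
  have r := abs_le.1 (fs_rem hAB t1)
  have m0 := abs_le.1 ha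
  have m1 := abs_le.1 (m hb t1)
  have m2 := abs_le.1 (m ha t2)
  have m3 := abs_le.1 (m hb t3)
  have m4 := abs_le.1 (m h2 t2)
  have m5 := abs_le.1 (m h3 t3)
  have e0 : Nat.add (Nat.div (Nat.shiftRight (Nat.mul (Nat.mul ρ ρ) (Nat.mul ρ ρ)) 120) 19) 15 =
      ρ * ρ * (ρ * ρ) / (2 ^ 120 * 19) + 15 := by
    rw [← Nat.div_div_eq_div_mul, ← Nat.shiftRight_eq_div_pow]
    rfl
  have p1 : (|d| * 1099511627776) ^ 4 ≤ (ρ : ℝ) ^ 4 := pow_le_pow_left₀ (by positivity) hd 4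
  have p2 : ((ρ * ρ * (ρ * ρ) : ℕ) : ℝ) <
      ((ρ * ρ * (ρ * ρ) / (2 ^ 120 * 19) : ℕ) : ℝ) * (2 ^ 120 * 19) + 2 ^ 120 * 19 := by
    exact_mod_cast Nat.lt_div_mul_add (a := ρ * ρ * (ρ * ρ)) (b := 2 ^ 120 * 19) (by norm_num)
  rw [e0, Nat.cast_add]
  generalize ρ * ρ * (ρ * ρ) / (2 ^ 120 * 19) = Q at p2
  push_cast at p2 ⊢
  have p0 : 0 ≤ |d| ^ 4 := by positivity
  have p3 : |d| ^ 4 * (5 / 96) * 1099511627776 ≤ Q + 1 := by
    rw [mul_pow] at p1
    have : (ρ : ℝ) ^ 4 = ρ * ρ * (ρ * ρ) := by ring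
    linarith
  have key : (A * cos d + B * sin d) * 1099511627776
      - (a + b * d + k2 * (d * d) + k3 * (d * d * d)) =
      (A * cos d + B * sin d - (A * (1 - d ^ 2 / 2) + B * (d - d ^ 3 / 6))) * 1099511627776
        + (A * 1099511627776 - a) + (B * 1099511627776 - b) * d
        - (A * 1099511627776 - a) * (d * d) / 2 - (B * 1099511627776 - b) * (d * d * d) / 6
        + e2 * (d * d) + e3 * (d * d * d) := by
    rw [q2, q3]
    ring
  rw [key, abs_le]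
  constructor <;>
    linarith [r.1, r.2, m0.1, m0.2, m1.1, m1.2, m2.1, m2.2, m3.1, m3.2, m4.1, m4.2, m5.1, m5.2]

theorem fs_cen {E : Env} {t : PT N} {u : ℝ} (h : t.Mem E u) :
    t.cen.Mem E (u - ((t.cb : ℝ) - 4503599627370496) / 1099511627776) := by
  intro hm hN
  obtain ⟨c, d, hc⟩ := h hm hN
  have hcb := (hc.norms hm hN).2.2.2
  have hle : t.cb ≤ t.p := Nat.and_le_left
  have hsum : ∀ (f g : ℕ → ℝ), (∀ k, k ≠ 0 → f k = g k) →
      ∑ k ∈ Finset.range 43, f k = ∑ k ∈ Finset.range 43, g k + (f 0 - g 0) := fun f g hfg => by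
    rw [Finset.sum_range_succ' f, Finset.sum_range_succ' g,
      Finset.sum_congr rfl fun k _ => hfg (k + 1) (Nat.succ_ne_zero k)]
    ring
  refine ⟨Function.update c 0 0, d, ⟨⟨?_, fun k hk => ?_⟩, hc.hx, fun k => ?_, hc.bx, ?_⟩⟩
  · have e1 : ((t.cen.p : ℕ) : ℤ) = t.p - c 0 := by
      show ((t.p + 4503599627370496 - t.cb : ℕ) : ℤ) = _
      omega
    rw [e1, hc.hp.eq, Finset.sum_range_succ', Finset.sum_range_succ' _ 42]
    simp only [Function.update_self, Function.update_of_ne (Nat.succ_ne_zero _)]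
    ring
  · by_cases h0 : k = 0
    · subst h0
      simp
    · rw [Function.update_of_ne h0]
      exact hc.hp.zero k hk
  · by_cases h0 : k = 0
    · subst h0
      simp
    · rw [Function.update_of_ne h0]
      exact hc.bp k
  · have e1 : valP E.e1 E.e2 (Function.update c 0 0) = valP E.e1 E.e2 c - c 0 := by
      unfold valP
      rw [hsum _ (fun k => c k * monP E.e1 E.e2 k) fun k hk => by rw [Function.update_of_ne hk]]
      simp [monP, sub_eq_add_neg]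
    have e2 : (t.cb : ℝ) = c 0 + 4503599627370496 := by exact_mod_cast hcb
    rw [e1, e2]
    refine le_of_eq_of_le ?_ hc.err
    congr 1
    ring

theorem PT.sc_mem {E : Env} {t : PT N} {u : ℝ} (h : t.Mem E u) :
    t.sc.1.Mem E (sin u) ∧ t.sc.2.Mem E (cos u) := by
  have h1 := fs_cen h
  have h2 := PT.mul_mem h1 h1
  have h3 := PT.mul_mem h2 h1
  obtain ⟨l1, l2⟩ := pSC_le t.cb
  have base : Nat.add (Nat.shiftRight t.rad 40) (Nat.shiftRight t.n0 46) = 0 →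
      t.m < 4503599627370496 → N ≤ 1000 →
      |(t.cb : ℝ) - 4503599627370496| ≤ 70368744177664 ∧ t.rad < 1099511627776 ∧
        |u - ((t.cb : ℝ) - 4503599627370496) / 1099511627776| * 1099511627776 ≤ t.rad := by
    intro hf hm hN
    obtain ⟨c, d, hc⟩ := h hm hN
    obtain ⟨n0, -, -, hcb⟩ := hc.norms hm hN
    have a2 := (hc.abs_le hm hN).2.1
    have s1 : Nat.shiftRight t.rad 40 = t.rad / 2 ^ 40 := Nat.shiftRight_eq_div_pow _ _
    have s2 : Nat.shiftRight t.n0 46 = t.n0 / 2 ^ 46 := Nat.shiftRight_eq_div_pow _ _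
    rw [s1, s2, Nat.add_eq] at hf
    have c0 : |c 0| ≤ (t.n0 : ℤ) := by
      rw [n0]
      exact Finset.single_le_sum (f := fun k => |c k|) (fun k _ => abs_nonneg _)
        (Finset.mem_range.2 (by norm_num))
    have e2 : (t.cb : ℝ) = c 0 + 4503599627370496 := by exact_mod_cast hcb
    have e3 : ((t.nn : ℤ) + t.r - |c 0|) ≤ (t.rad : ℤ) := by
      show _ ≤ ((t.nn + t.r - (t.cb - 4503599627370496 + (4503599627370496 - t.cb)) : ℕ) : ℤ)
      rcases abs_cases (c 0) with ⟨q, _⟩ | ⟨q, _⟩ <;> rw [q] <;> omega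
    have e4 : ((t.nn : ℝ) + t.r - |(c 0 : ℝ)|) ≤ (t.rad : ℝ) := by exact_mod_cast e3
    refine ⟨?_, by omega, ?_⟩
    · have : |c 0| ≤ 70368744177664 := by omega
      rw [e2, add_sub_cancel_right]
      exact_mod_cast this
    · rw [e2, add_sub_cancel_right,
        ← abs_of_pos (show (0 : ℝ) < 1099511627776 by norm_num), ← abs_mul,
        abs_of_pos (show (0 : ℝ) < 1099511627776 by norm_num), sub_mul,
        div_mul_cancel₀ _ (by norm_num)]
      linarith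
  have hu : u = ((t.cb : ℝ) - 4503599627370496) / 1099511627776
      + (u - ((t.cb : ℝ) - 4503599627370496) / 1099511627776) := by ring
  have sp := pSC_spec (c := t.cb)
  generalize u - ((t.cb : ℝ) - 4503599627370496) / 1099511627776 = δ at *
  generalize ((t.cb : ℝ) - 4503599627370496) / 1099511627776 = x at *
  have dv : ∀ a b : ℕ, Nat.div a b = a / b := fun _ _ => rfl
  have ab : ∀ {e : ℝ}, 0 ≤ e → e ≤ 1 → |e| ≤ 1 := fun h0 h1 => by rwa [abs_of_nonneg h0]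
  unfold PT.sc
  dsimp only
  generalize (pSC t.cb).1 = s at *
  generalize (pSC t.cb).2 = k at *
  have cs : ∀ {a b : ℕ}, b ≤ a → ((Nat.sub a b : ℕ) : ℝ) = a - b := fun hab => Nat.cast_sub hab
  constructor
  · refine PT.lin_mem h1 h2 h3 l2 (by rw [dv, Nat.sub_eq]; omega) (by rw [dv, Nat.sub_eq]; omega)
      fun hf hm hN => ?_
    obtain ⟨b1, b2, b3⟩ := base hf hm hN
    obtain ⟨p1, p2⟩ := sp b1
    obtain ⟨e2, g0, g1, g⟩ := fs_div (Nat.sub 6597069766656 s) (b := 2) (by norm_num)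
    obtain ⟨e3, f0, f1, f⟩ := fs_div (Nat.sub 15393162788864 k) (b := 6) (by norm_num)
    rw [cs (by omega)] at g f
    rw [hu, sin_add]
    refine fs_core (sin_sq_add_cos_sq x) ?_ ?_ (ab g0 g1) (ab f0 f1) ?_ ?_ b3 b2
    · convert p1 using 2
      ring
    · convert p2 using 2
      ring
    · rw [g]
      push_cast
      ring
    · rw [f]
      push_cast
      ring
  · refine PT.lin_mem h1 h2 h3 (by rw [Nat.sub_eq]; omega) (by rw [dv, Nat.sub_eq]; omega)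
      (by rw [dv, Nat.add_eq]; omega) fun hf hm hN => ?_
    obtain ⟨b1, b2, b3⟩ := base hf hm hN
    obtain ⟨p1, p2⟩ := sp b1
    obtain ⟨e2, g0, g1, g⟩ := fs_div (Nat.sub 6597069766656 k) (b := 2) (by norm_num)
    obtain ⟨e3, f0, f1, f⟩ := fs_div (Nat.add 10995116277760 s) (b := 6) (by norm_num)
    rw [cs (by omega)] at g
    rw [hu, cos_add, sub_eq_add_neg (cos x * cos δ), ← neg_mul]
    refine fs_core (by rw [neg_sq]; exact cos_sq_add_sin_sq x) ?_ ?_ (ab g0 g1) (ab f0 f1) ?_ ?_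
      b3 b2
    · convert p2 using 2
      ring
    · rw [← abs_neg, cs l1]
      convert p1 using 2
      push_cast
      ring
    · rw [g]
      push_cast
      ring
    · rw [f, cs l1, Nat.add_eq]
      push_cast
      ring

end Pool.Agent.P.MP_d76e6a_co
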