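import Pool.Agent.P.MP_d76e6a_co.XFn
import Pool.Agent.P.MP_d76e6a_co.XFs
import Pool.Agent.P.MP_d76e6a_co.NBad

/-!
Taylor models with three extra variables: angles, and enclosures of the slope angle.
-/

namespace Pool.Agent.P.MP_d76e6a_co

open Real

abbrev T3 := PT 3

def gN (n : ℕ) (k : ℕ → Bool) : Bool := Nat.rec (k 0) (fun m _ => k (Nat.succ m)) n
def gT (t : T3) (k : T3 → Bool) : Bool :=
  gN t.p fun p => gN t.x fun x => gN t.r fun r => gN t.m fun m => k ⟨p, x, r, m⟩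
def wsb (s t : T3) : T3 := s.add t.neg
def nnT (t : T3) : Bool := gT t PT.nonneg
def cT (a : ℕ) : T3 := PT.cst 3 a
def oneT : T3 := cT 1099511627776
noncomputable def scK (t : T3) (k : T3 → T3 → Bool) : Bool := gT t.sc.1 fun s => gT t.sc.2 fun c => k s c
def invK (t : T3) (k : T3 → Bool) : Bool := gT t fun t => t.invOK && gT t.inv k

theorem gN_eq (n : ℕ) (k : ℕ → Bool) : gN n k = k n := by cases n <;> rfl
theorem gT_eq (t : T3) (k : T3 → Bool) : gT t k = k t := by simp only [gT, gN_eq]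
theorem gN_ex {n : ℕ} {k : ℕ → Bool} (h : gN n k = true) : ∃ m, k m = true := ⟨n, gN_eq n k ▸ h⟩
theorem gT_ex {t : T3} {k : T3 → Bool} (h : gT t k = true) : ∃ s, k s = true := ⟨t, gT_eq t k ▸ h⟩

/-- The model encloses `u` for all values of the variables in `S`. -/
def SM (S : Env → Prop) (t : T3) (u : ℝ) : Prop := ∀ E, S E → t.Mem E u

section
variable {S : Env → Prop} {s t : T3} {u v : ℝ}

theorem SM.cast (h : SM S t u) (e : u = v) : SM S t v := e ▸ h
theorem SM.mono {S' : Env → Prop} (h : SM S t u) (e : ∀ E, S' E → S E) : SM S' t u :=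
  fun E q => h E (e E q)
theorem SM.add (a : SM S s u) (b : SM S t v) : SM S (s.add t) (u + v) :=
  fun E q => PT.add_mem (a E q) (b E q)
theorem SM.neg (a : SM S s u) : SM S s.neg (-u) := fun E q => PT.neg_mem (a E q)
theorem SM.sub (a : SM S s u) (b : SM S t v) : SM S (wsb s t) (u - v) :=
  (a.add b.neg).cast (sub_eq_add_neg u v).symm
theorem SM.mul (a : SM S s u) (b : SM S t v) : SM S (s.mul t) (u * v) :=
  fun E q => PT.mul_mem (a E q) (b E q)
theorem SM.at {E : Env} (h : SM S t u) (q : S E) : SM (· = E) t u := fun _ e => e ▸ h E q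
theorem SM.of {E : Env} (h : t.Mem E u) : SM (· = E) t u := fun _ e => e ▸ h
theorem SM.nm {n : ℕ} (h : 1 ≤ n) (a : SM S s u) : SM S (PT.nm n s) (n * u) :=
  fun E q => pt_nm_mem h (a E q)
theorem SM.n2 (a : SM S s u) : SM S (PT.nm 2 s) (2 * u) := (a.nm (by norm_num)).cast (by simp)
theorem SM.n3 (a : SM S s u) : SM S (PT.nm 3 s) (3 * u) := (a.nm (by norm_num)).cast (by simp)
theorem SM.n4 (a : SM S s u) : SM S (PT.nm 4 s) (4 * u) := (a.nm (by norm_num)).cast (by simp)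
theorem SM.n6 (a : SM S s u) : SM S (PT.nm 6 s) (6 * u) := (a.nm (by norm_num)).cast (by simp)
theorem SM.cst (a : ℕ) : SM S (cT a) (a / 1099511627776) := fun E _ => PT.cst_mem E a
theorem SM.one : SM S oneT 1 := (SM.cst _).cast (by norm_num)
theorem SM.sin (a : SM S s u) : SM S s.sc.1 (sin u) := fun E q => (PT.sc_mem (a E q)).1
theorem SM.cos (a : SM S s u) : SM S s.sc.2 (cos u) := fun E q => (PT.sc_mem (a E q)).2

theorem SM.el {k : T3 → Bool} (a : SM S t u) (h : gT t k = true) : ∃ s, SM S s u ∧ k s = true :=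
  ⟨t, a, gT_eq t k ▸ h⟩

theorem SM.nn {E : Env} (a : SM S t u) (q : S E) (h : nnT t = true) : 0 ≤ u :=
  PT.nonneg_sound (by norm_num) ((gT_eq t _).symm.trans h) (a E q)

theorem SM.scK {k : T3 → T3 → Bool} (a : SM S t u) (h : scK t k = true) :
    ∃ s c, SM S s (Real.sin u) ∧ SM S c (Real.cos u) ∧ k s c = true := by
  obtain ⟨s, h1, h⟩ := a.sin.el h
  obtain ⟨c, h2, h⟩ := a.cos.el h
  exact ⟨s, c, h1, h2, h⟩

theorem SM.invK {E : Env} {k : T3 → Bool} (a : SM S t u) (q : S E) (h : invK t k = true) :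
    0 < u ∧ ∃ s, SM S s (1 / u) ∧ k s = true := by
  obtain ⟨s, h1, h⟩ := a.el h
  rw [Bool.and_eq_true] at h
  exact ⟨(PT.inv_mem (by norm_num) h.1 (h1 E q)).1,
    SM.el (fun E q => (PT.inv_mem (by norm_num) h.1 (h1 E q)).2) h.2⟩

end

def affT (c a b d e f : ℕ) : T3 :=
  ⟨Nat.add (bia cM0) (Nat.add c (Nat.add (Nat.mul a (sl 1)) (Nat.mul b (sl 7)))),
    Nat.add (bia (cM1 3)) (Nat.add d (Nat.add (Nat.mul e (sl 15)) (Nat.mul f (sl 30)))), 0,
    Nat.add (Nat.add c (Nat.add a b)) (Nat.add d (Nat.add e f))⟩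

theorem three_sum {R : Type} [CommRing R] (c a b : ℤ) {i j n : ℕ} (h0 : 0 < n) (hi : i < n)
    (hj : j < n) (w : ℕ → R) : ∑ k ∈ Finset.range n, (((if k = 0 then c else 0)
      + (if k = i then a else 0) + (if k = j then b else 0) : ℤ) : R) * w k
      = c * w 0 + a * w i + b * w j := by
  simp [add_mul, Finset.sum_add_distrib, apply_ite (Int.cast : ℤ → R), ite_mul, h0, hi, hj]

theorem three_rep (c a b : ℕ) {i j n : ℕ} {p : ℕ → Bool} (h0 : 0 < n ∧ p 0 = true)
    (hi : i < n ∧ p i = true) (hj : j < n ∧ p j = true) :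
    Rep (Nat.add (bia (pat p n)) (Nat.add c (Nat.add (Nat.mul a (sl i)) (Nat.mul b (sl j))))) p n
      fun k => (if k = 0 then (c : ℤ) else 0) + (if k = i then (a : ℤ) else 0)
        + (if k = j then (b : ℤ) else 0) := by
  refine pt_mk ?_ fun k hk => ?_
  · have := three_sum c a b h0.1 hi.1 hj.1 fun k => (2 : ℤ) ^ (96 * k)
    simp only [Int.cast_id] at this
    rw [pt_W, this]
    simp only [Nat.add_eq, Nat.mul_eq, Nat.cast_add, Nat.cast_mul, fn_sl, mul_zero, pow_zero]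
    ring
  · rw [if_neg (by rintro rfl; exact hk h0), if_neg (by rintro rfl; exact hk hi),
      if_neg (by rintro rfl; exact hk hj)]
    rfl

theorem affT_mem (E : Env) (c a b d e f : ℕ) : (affT c a b d e f).Mem E
    ((c + a * E.e1 + b * E.e2 + d * E.xi 0 + e * E.xi 1 + f * E.xi 2) / 1099511627776) := by
  intro _ _
  have r1 := three_rep c a b (i := 1) (j := 7) (n := 43) (p := keepP) (by decide) (by decide)
    (by decide)
  have r2 := three_rep d e f (i := 15) (j := 30) (n := 15 * 3) (p := keepX) (by decide) (by decide)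
    (by decide)
  rw [← cM0_eq] at r1
  rw [← cM1_eq] at r2
  refine ⟨_, _, r1, r2, fun k => ?_, fun k => ?_, ?_⟩
  · simp only [affT, Nat.add_eq, abs_le]
    constructor <;> split_ifs <;> omega
  · simp only [affT, Nat.add_eq, abs_le]
    constructor <;> split_ifs <;> omega
  · rw [valP, valX, three_sum _ _ _ (by norm_num) (by norm_num) (by norm_num),
      three_sum _ _ _ (by norm_num) (by norm_num) (by norm_num)]
    simp [monP, affT, add_assoc]

def kU : T3 := ⟨Nat.add (bia cM0) 614083138197, bia (cM1 3), 1, 614083138197⟩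

theorem kU_mem (E : Env) : kU.Mem E (π * 2048 / 11520) := by
  intro _ _
  refine ⟨_, _, pt_const E ((614083138197 : ℕ) : ℤ) (pt_rep_c0 _) rfl (le_of_eq (abs_of_nonneg (Nat.cast_nonneg _))) ?_⟩
  have h1 := pi_gt_d20
  have h2 := pi_lt_d20
  have e : (kU.r : ℝ) = 1 := Nat.cast_one
  rw [e, abs_le]
  push_cast
  constructor <;> linarith

/-- The angle `(c + a e1 + b e2 + d xi0 + e xi1) π / 11520`. -/
def angT (c a b d e : ℕ) : T3 :=
  kU.mul (affT (Nat.mul c 536870912) (Nat.mul a 536870912) (Nat.mul b 536870912)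
    (Nat.mul d 536870912) (Nat.mul e 536870912) 0)

theorem angT_mem (E : Env) (c a b d e : ℕ) : (angT c a b d e).Mem E
    ((c + a * E.e1 + b * E.e2 + d * E.xi 0 + e * E.xi 1) * (π / 11520)) := by
  have := PT.mul_mem (kU_mem E) (affT_mem E (Nat.mul c 536870912) (Nat.mul a 536870912)
    (Nat.mul b 536870912) (Nat.mul d 536870912) (Nat.mul e 536870912) 0)
  refine SM.cast (SM.of this) ?_ E rfl
  simp only [Nat.mul_eq]
  push_cast
  ring

theorem ang_coord {lo hi : ℕ} {x : ℝ} (h0 : ang lo ≤ x) (h1 : x ≤ ang hi) : ∃ e : ℝ, |e| ≤ 1 ∧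
    x = ((lo + hi : ℕ) + (hi - lo : ℕ) * e) * (π / 5760) := by
  have hp : 0 < π / 2880 := by positivity
  have hl : lo ≤ hi := by
    have := le_of_mul_le_mul_right (h0.trans h1) hp
    exact_mod_cast this
  rw [Nat.cast_sub hl]
  unfold ang at h0 h1
  rcases hl.eq_or_lt with rfl | c
  · exact ⟨0, by simp, by push_cast; linarith⟩
  · have c' : (0 : ℝ) < hi - lo := sub_pos.2 (by exact_mod_cast c)
    refine ⟨(x / (π / 5760) - (lo + hi)) / (hi - lo), ?_, ?_⟩
    · rw [abs_div, abs_of_pos c', div_le_one c', abs_le, le_sub_iff_add_le, sub_le_iff_le_add,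
        le_div_iff₀ (by positivity), div_le_iff₀ (by positivity)]
      constructor <;> linarith
    · push_cast; field_simp; ring

/-- Change of the third extra variable. -/
noncomputable def Env.set (E : Env) (ξ : ℝ) : Env :=
  ⟨E.e1, E.e2, fun i => if i = 2 then max (-1) (min 1 ξ) else E.xi i, E.h1, E.h2, fun i => by
    split_ifs
    · exact abs_le.2 ⟨le_max_left _ _, max_le (by norm_num) (min_le_left _ _)⟩
    · exact E.hx i⟩

theorem Env.set_two (E : Env) {ξ : ℝ} (h : |ξ| ≤ 1) : (E.set ξ).xi 2 = ξ := by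
  simp only [Env.set, if_true]
  rw [min_eq_right (abs_le.1 h).2, max_eq_right (abs_le.1 h).1]

noncomputable def atanK (Y : T3) (g0 r : ℕ) (k : T3 → T3 → T3 → Bool) : Bool :=
  gN (Nat.sub Y.cb 4503599627370496) fun y => gN (Nat.shiftRight (Nat.mul y y) 40) fun y2 =>
  gN (Nat.div 1208925819614629174706176 (Nat.add 1099511627776 y2)) fun k1 =>
  gN (Nat.shiftRight (Nat.mul k1 k1) 40) fun k2 => gN (Nat.shiftRight (Nat.mul k1 k2) 40) fun k3 =>
  gT Y.cen fun u => gT (u.mul u) fun u2 => gT (u2.mul u) fun u3 =>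
  gT (PT.lin (Nat.add 2199023255552 (Nat.mul g0 1024)) (Nat.add 2199023255552 k1)
    (Nat.sub 2199023255552 (Nat.shiftRight (Nat.mul y k2) 40))
    (Nat.sub (Nat.add 2199023255552 (Nat.shiftRight (Nat.mul y2 k3) 40)) (Nat.div k3 3))
    u u2 u3 0 0) fun t =>
  gT (PT.raw 3 (Nat.sub t.p (Nat.mul cM0 4486007441326080))
    (Nat.add (Nat.sub t.x (Nat.mul (cM1 3) 4486007441326080)) (Nat.mul (Nat.mul r 1024) (sl 30))))
    fun G => scK G fun s c => gT (wsb s (Y.mul c)) (PT.dom 2) && nnT G &&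
      nnT (wsb (cT 1649267441664) G) && k G s c

theorem tan_cmp {G y : ℝ} (h0 : 0 ≤ G) (h1 : G ≤ 3 / 2) (h : y * cos G ≤ sin G) : arctan y ≤ G := by
  have hp := pi_gt_three
  have hp' := pi_gt_d2
  have c : 0 < cos G := cos_pos_of_mem_Ioo ⟨by linarith, by linarith⟩
  rw [← arctan_tan (x := G) (by linarith) (by linarith)]
  refine arctan_strictMono.monotone ?_
  rwa [tan_eq_sin_div_cos, le_div_iff₀ c]

theorem atanK_spec {S : Env → Prop} (hS : ∀ E ξ, S E → S (E.set ξ)) {E : Env} (q : S E) {Y : T3}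
    {y : ℝ} (hY : SM S Y y) {g0 r : ℕ} {k : T3 → T3 → T3 → Bool} (h : atanK Y g0 r k = true) :
    ∃ E G s c, S E ∧ SM (· = E) G (arctan y) ∧ SM (· = E) s (sin (arctan y)) ∧
      SM (· = E) c (cos (arctan y)) ∧ k G s c = true := by
  obtain ⟨_, h⟩ := gN_ex h
  obtain ⟨_, h⟩ := gN_ex h
  obtain ⟨_, h⟩ := gN_ex h
  obtain ⟨_, h⟩ := gN_ex h
  obtain ⟨_, h⟩ := gN_ex h
  obtain ⟨_, h⟩ := gT_ex h
  obtain ⟨_, h⟩ := gT_ex h
  obtain ⟨_, h⟩ := gT_ex h
  obtain ⟨t, h⟩ := gT_ex h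
  rw [gT_eq] at h
  obtain ⟨f, fc, hf⟩ := PT.raw_mem 3 (Nat.sub t.p (Nat.mul cM0 4486007441326080))
    (Nat.add (Nat.sub t.x (Nat.mul (cM1 3) 4486007441326080)) (Nat.mul (Nat.mul r 1024) (sl 30)))
    E.e1 E.e2
  generalize PT.raw 3 _ _ = G at h hf
  simp only [scK, gT_eq, Bool.and_eq_true] at h
  obtain ⟨⟨⟨h1, h2⟩, h3⟩, h4⟩ := h
  have mG : ∀ ξ, SM (· = E.set ξ) G (f (E.set ξ).xi) := fun ξ => SM.of (hf (E.set ξ) rfl rfl)
  have mY : ∀ ξ, SM (· = E.set ξ) Y y := fun ξ => hY.at (hS _ _ q)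
  have d := fun ξ => PT.dom_sound (by norm_num) (by norm_num) h1
    (((mG ξ).sin.sub ((mY ξ).mul (mG ξ).cos)) _ rfl)
  have cF : Continuous fun ξ => f (E.set ξ).xi := fc.comp (continuous_pi fun i => by
    simp only [Env.set]
    split_ifs <;> fun_prop)
  obtain ⟨ξ, -, e⟩ := intermediate_value_Icc (a := -1) (b := 1) (by norm_num)
    (f := fun ξ => sin (f (E.set ξ).xi) - y * cos (f (E.set ξ).xi))
    ((continuous_sin.comp cF).sub (continuous_const.mul (continuous_cos.comp cF))).continuousOn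
    (show 0 ∈ Set.Icc _ _ from ⟨(d (-1)).2 (E.set_two (by simp)), (d 1).1 (E.set_two (by simp))⟩)
  have a1 := (mG ξ).nn rfl h2
  have a2 := ((SM.cst _).sub (mG ξ)).nn rfl h3
  have hp := pi_gt_d2
  have e' : f (E.set ξ).xi = arctan y := by
    beta_reduce at e
    push_cast at a2
    have c : 0 < cos (f (E.set ξ).xi) := cos_pos_of_mem_Ioo ⟨by linarith, by linarith⟩
    rw [← arctan_tan (x := f (E.set ξ).xi) (by linarith) (by linarith), tan_eq_sin_div_cos]
    refine congrArg arctan (Eq.symm ?_)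
    rw [eq_div_iff c.ne']
    exact (sub_eq_zero.1 e).symm
  exact ⟨E.set ξ, G, _, _, hS _ _ q, (mG ξ).cast e', ((mG ξ).cast e').sin, ((mG ξ).cast e').cos, h4⟩

noncomputable def gC (Y P M : T3) (r : ℕ) (k : T3 → T3 → Bool) : Bool :=
  gT (M.add (cT (Nat.mul r 2048))) fun G => nnT (wsb G.sc.1 (Y.mul G.sc.2)) && nnT (wsb G P) &&
    nnT (wsb (cT 1649267441664) G) &&
    gT (M.add (affT (Nat.mul r 1024) 0 0 0 0 (Nat.mul r 1024))) fun G => scK G k

theorem gC_spec {S : Env → Prop} (hS : ∀ E ξ, S E → S (E.set ξ)) {E : Env} (q : S E) {Y P M : T3}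
    {y φ m : ℝ} (hY : SM S Y y) (hP : SM S P φ) (hM : SM S M m) (m0 : 0 ≤ m) {r : ℕ}
    {k : T3 → T3 → Bool} (h : gC Y P M r k = true) :
    max (max (arctan y) φ) m < π / 2 ∧ ∃ E s c, S E ∧ SM (· = E) s (sin (max (max (arctan y) φ) m)) ∧
      SM (· = E) c (cos (max (max (arctan y) φ) m)) ∧ k s c = true := by
  obtain ⟨G, hG, h⟩ := (hM.add (SM.cst _)).el h
  simp only [Bool.and_eq_true] at h
  obtain ⟨⟨⟨h1, h2⟩, h3⟩, h⟩ := h
  have a1 := (hG.sin.sub (hY.mul hG.cos)).nn q h1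
  have a2 := (hG.sub hP).nn q h2
  have a3 := ((SM.cst _).sub hG).nn q h3
  simp only [Nat.mul_eq] at a1 a2 a3
  push_cast at a1 a2 a3
  have r0 : (0 : ℝ) ≤ r := Nat.cast_nonneg r
  have a4 := tan_cmp (by positivity) (by linarith) (sub_nonneg.1 a1)
  set g := max (max (arctan y) φ) m with hg
  have g0 : m ≤ g := le_max_right _ _
  have g1 : g ≤ m + r * 2048 / 1099511627776 := max_le (max_le a4 (by linarith)) (by linarith)
  obtain ⟨ξ, x1, x2⟩ : ∃ ξ : ℝ, |ξ| ≤ 1 ∧ g = m + (r * 1024 + r * 1024 * ξ) / 1099511627776 := by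
    rcases r0.eq_or_lt with c | c
    · exact ⟨0, by simp, by rw [← c] at g1 ⊢; linarith⟩
    · refine ⟨(g - m) * 1073741824 / r - 1, ?_, by field_simp; ring⟩
      rw [abs_le, le_sub_iff_add_le, sub_le_iff_le_add, le_div_iff₀ c, div_le_iff₀ c]
      constructor <;> linarith
  have mG : SM (· = E.set ξ) (M.add (affT (Nat.mul r 1024) 0 0 0 0 (Nat.mul r 1024))) g :=
    ((hM.at (hS _ _ q)).add (SM.of (affT_mem (E.set ξ) _ _ _ _ _ _))).cast (by
      rw [E.set_two x1, x2]; simp)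
  obtain ⟨G', hG', h⟩ := mG.el h
  obtain ⟨s, c, hs, hc, h⟩ := hG'.scK h
  exact ⟨by linarith [pi_gt_d2], _, s, c, hS _ _ q, hs, hc, h⟩

noncomputable def gK (Y P M : T3) (md g0 r : ℕ) (k : T3 → T3 → Bool) : Bool :=
  gT (PT.nm 2 M) fun M2 => gT (PT.nm 2 P) fun P2 => Nat.rec
    (atanK Y g0 r fun G s c => nnT (wsb G P2) && nnT (wsb G M2) && k s c)
    (fun j _ => Nat.rec (gC Y P2 M2 r k) (fun _ _ => gC Y M2 P2 r k) j) md

theorem gK_spec {S : Env → Prop} (hS : ∀ E ξ, S E → S (E.set ξ)) {E : Env} (q : S E) {Y P M : T3}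
    {y φ m : ℝ} (hY : SM S Y y) (hP : SM S P φ) (hM : SM S M m) (p0 : 0 ≤ φ) (m0 : 0 ≤ m)
    {md g0 r : ℕ} {k : T3 → T3 → Bool} (h : gK Y P M md g0 r k = true) :
    max (max (arctan y) (2 * φ)) (2 * m) < π / 2 ∧ ∃ E s c, S E ∧
      SM (· = E) s (sin (max (max (arctan y) (2 * φ)) (2 * m))) ∧
      SM (· = E) c (cos (max (max (arctan y) (2 * φ)) (2 * m))) ∧ k s c = true := by
  obtain ⟨M2, hM2, h⟩ := hM.n2.el h
  obtain ⟨P2, hP2, h⟩ := hP.n2.el h
  rcases md with _ | _ | md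
  · obtain ⟨E', G, s, c, q', hG, hs, hc, h⟩ := atanK_spec hS q hY h
    simp only [Bool.and_eq_true] at h
    have a1 := (hG.sub (hP2.at q')).nn rfl h.1.1
    have a2 := (hG.sub (hM2.at q')).nn rfl h.1.2
    rw [max_eq_left (sub_nonneg.1 a1), max_eq_left (sub_nonneg.1 a2)]
    exact ⟨arctan_lt_pi_div_two y, E', s, c, q', hs, hc, h.2⟩
  · exact gC_spec hS q hY hP2 hM2 (by linarith) h
  · rw [max_right_comm]
    exact gC_spec hS q hY hM2 hP2 (by linarith) h

end Pool.Agent.P.MP_d76e6a_co
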