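import Pool.Agent.P.MP_d76e6a_co.XKd

/-!
Assembly of checked cells into strips and chains of strips.
-/

namespace Pool.Agent.P.MP_d76e6a_co

def bN (a b g U : ℕ) : Bad := ⟨a, b, g, U⟩

theorem ok1 {a b g U : ℕ} (t : Tr) (h : badCheck a b g U t = true) : (bN a b g U).Ok :=
  bad_of_tab (l := [⟨a, b, g, U, t⟩]) (by simp only [tabCheck, h, Bool.and_self]) _
    List.mem_cons_self

theorem okn : ∀ bd ∈ ([] : List Bad), bd.Ok := fun _ h => absurd h List.not_mem_nil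

theorem okc {a : Bad} {l : List Bad} (ha : a.Ok) (hl : ∀ bd ∈ l, bd.Ok) :
    ∀ bd ∈ a :: l, bd.Ok := fun bd h => (List.mem_cons.1 h).elim (fun e => e ▸ ha) (hl bd)

def CG (T : Tmpl) (p q : ℕ × ℕ × ℕ) (u0 u1 v0 v1 : ℤ) : Prop :=
  ∀ u v A B : ℝ, (u0 : ℝ) ≤ 512 * u → 512 * u ≤ u1 → (v0 : ℝ) ≤ 512 * v → 512 * v ≤ v1 →
    4096 * A = (1 - u) * p.1 + u * q.1 →
    4096 * B = (1 - v) * ((1 - u) * p.2.1 + u * q.2.1) + v * ((1 - u) * p.2.2 + u * q.2.2) →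
    0 < A → 0 < B → ∃ x, Good T A B x

noncomputable def Tmpl.fine (T : Tmpl) : Bool := T.wf && Nat.ble T.N 1000

theorem cg_kd {T : Tmpl} {bds : List Bad} {p q : ℕ × ℕ × ℕ} {u0 u1 v0 v1 : ℤ}
    (hT : T.fine = true) (hb : ∀ bd ∈ bds, bd.Ok) (pls : List ℕ) (t : KD)
    (h : kdOK T pls bds p q t u0 u1 v0 v1 = true) : CG T p q u0 u1 v0 v1 := by
  unfold Tmpl.fine at hT
  rw [Bool.and_eq_true, Nat.ble_eq] at hT
  exact fun _ _ _ _ h1 h2 h3 h4 h5 h6 h7 h8 => kdOK_sound hT.1 hT.2 hb h h1 h2 h3 h4 h5 h6 h7 h8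

theorem cg_u {T : Tmpl} {p q : ℕ × ℕ × ℕ} {u0 m u1 v0 v1 : ℤ} (l : CG T p q u0 m v0 v1)
    (r : CG T p q m u1 v0 v1) : CG T p q u0 u1 v0 v1 := fun u v A B h1 h2 =>
  (le_total (512 * u) (m : ℝ)).elim (fun h => l u v A B h1 h) fun h => r u v A B h h2

theorem cg_v {T : Tmpl} {p q : ℕ × ℕ × ℕ} {u0 u1 v0 m v1 : ℤ} (l : CG T p q u0 u1 v0 m)
    (r : CG T p q u0 u1 m v1) : CG T p q u0 u1 v0 v1 := fun u v A B h1 h2 h3 h4 =>
  (le_total (512 * v) (m : ℝ)).elim (fun h => l u v A B h1 h2 h3 h) fun h => r u v A B h1 h2 h h4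

theorem cg_strip {T : Tmpl} {p q : ℕ × ℕ × ℕ} (h : CG T p q 0 512 0 512) {A B : ℝ}
    (hs : InStrip p q A B) (hA : 0 < A) (hB : 0 < B) : ∃ x, Good T A B x := by
  obtain ⟨u, ⟨u0, u1⟩, e, l, r⟩ := hs
  set lo : ℝ := (1 - u) * p.2.1 + u * q.2.1 with hlo
  set hi : ℝ := (1 - u) * p.2.2 + u * q.2.2 with hhi
  rcases eq_or_lt_of_le (l.trans r) with c | c
  · refine h u 0 A B (by push_cast; linarith) (by push_cast; linarith) (by simp) (by simp) e ?_ hA hB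
    rw [← hlo, ← hhi]
    linarith
  · have d : 0 < hi - lo := sub_pos.2 c
    have v0 : 0 ≤ (4096 * B - lo) / (hi - lo) := div_nonneg (by linarith) d.le
    have v1 : (4096 * B - lo) / (hi - lo) ≤ 1 := (div_le_one d).2 (by linarith)
    refine h u ((4096 * B - lo) / (hi - lo)) A B (by push_cast; linarith) (by push_cast; linarith)
      (by push_cast; linarith) (by push_cast; linarith) e ?_ hA hB
    rw [← hlo, ← hhi]
    field_simp
    ring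

def CH (T : Tmpl) (c : List (ℕ × ℕ × ℕ)) : Prop :=
  ∀ p q, [p, q] <:+: c → CG T p q 0 512 0 512

theorem ch_one {T : Tmpl} {p : ℕ × ℕ × ℕ} : CH T [p] := fun _ _ h => by
  have := h.length_le
  simp at this

theorem ch_cons {T : Tmpl} {p q : ℕ × ℕ × ℕ} {c : List (ℕ × ℕ × ℕ)} (h : CG T p q 0 512 0 512)
    (r : CH T (q :: c)) : CH T (p :: q :: c) := fun p' q' hi => by
  rcases List.infix_cons_iff.1 hi with k | k
  · obtain ⟨t, ht⟩ := k
    simp only [List.cons_append, List.nil_append, List.cons.injEq] at ht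
    rw [ht.1, ht.2.1]
    exact h
  · exact r p' q' k

theorem tb_nil : ∀ e ∈ ([] : List (Tmpl × List (ℕ × ℕ × ℕ))), CH e.1 e.2 :=
  fun _ h => absurd h List.not_mem_nil

theorem tb_cons {T : Tmpl} {c : List (ℕ × ℕ × ℕ)} {l : List (Tmpl × List (ℕ × ℕ × ℕ))}
    (h : CH T c) (hl : ∀ e ∈ l, CH e.1 e.2) : ∀ e ∈ (T, c) :: l, CH e.1 e.2 :=
  fun e k => (List.mem_cons.1 k).elim (fun a => a ▸ h) (hl e)

end Pool.Agent.P.MP_d76e6a_co
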