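import Pool.Agent.P.MP_d76e6a_co.XSem2
import Pool.Agent.P.MP_d76e6a_co.XEsc

/-!
The curve of a certificate reaches across the triangle in every position.
-/

namespace Pool.Agent.P.MP_d76e6a_co

open Real Finset

variable {T : Tmpl} {A B : ℝ} {x : Sol} {c : Cfg ℝ}

theorem sinusoid {u v a b θ : ℝ} (hab : b - a ≤ 3) (h1 : a ≤ θ) (h2 : θ ≤ b)
    (ha : 1 ≤ u * sin a + v * cos a) (hb : 1 ≤ u * sin b + v * cos b) :
    1 ≤ u * sin θ + v * cos θ := by
  rcases eq_or_lt_of_le (h1.trans h2) with e | hlt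
  · have : θ = a := le_antisymm (e ▸ h2) h1
    rw [this]
    exact ha
  have hpi := Real.pi_gt_three
  have s0 : 0 < sin (b - a) := sin_pos_of_pos_of_lt_pi (by linarith) (by linarith)
  have s1 : 0 ≤ sin (b - θ) := sin_nonneg_of_nonneg_of_le_pi (by linarith) (by linarith)
  have s2 : 0 ≤ sin (θ - a) := sin_nonneg_of_nonneg_of_le_pi (by linarith) (by linarith)
  have key : sin (b - a) * (u * sin θ + v * cos θ) =
      sin (b - θ) * (u * sin a + v * cos a) + sin (θ - a) * (u * sin b + v * cos b) := by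
    simp only [sin_sub]
    ring
  have e : sin (b - a) = sin (b - θ) * cos (θ - a) + cos (b - θ) * sin (θ - a) := by
    rw [← sin_add]
    congr 1
    ring
  have t1 := mul_le_mul_of_nonneg_left ha s1
  have t2 := mul_le_mul_of_nonneg_left hb s2
  have t3 := mul_le_mul_of_nonneg_left (cos_le_one (θ - a)) s1
  have t4 := mul_le_mul_of_nonneg_left (cos_le_one (b - θ)) s2
  refine le_of_mul_le_mul_left ?_ s0
  rw [key]
  linarith

/-- The weighted support sum starting with side `r`. -/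
noncomputable def prTri (A B θ : ℝ) (r : ℕ) (p q w : ℂ) : ℝ :=
  wt A B r * hs p (θ + off A B r) + wt A B (r + 1) * hs q (θ + off A B (r + 1))
    + wt A B (r + 2) * hs w (θ + off A B (r + 2))

theorem pr_mod (A B : ℝ) {r r' : ℕ} (h : r % 3 = r' % 3) :
    wt A B r = wt A B r' ∧ off A B r = off A B r' := by
  unfold wt off
  rw [h]
  exact ⟨rfl, rfl⟩

theorem pr_per (p : ℂ) (θ : ℝ) (k : ℤ) : hs p (θ + k * (2 * π)) = hs p θ := by
  unfold hs
  rw [sin_add_int_mul_two_pi, cos_add_int_mul_two_pi]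

theorem pr_tri_per (A B θ : ℝ) (k : ℤ) (r : ℕ) (p q w : ℂ) :
    prTri A B (θ + k * (2 * π)) r p q w = prTri A B θ r p q w := by
  unfold prTri
  simp only [add_right_comm θ (k * (2 * π)), pr_per]

theorem pr_mir_neg (s : ℤ) (p : ℂ) (φ : ℝ) : hs (mir (-1 * s) p) (-φ) = hs (mir s p) φ := by
  simp [hs, mir]

theorem pr_mir_sgn {s : ℤ} (hs' : s = 1 ∨ s = -1) (p : ℂ) (e : ℝ) :
    hs (mir s p) (s * e) = hs p e := by
  rcases hs' with rfl | rfl <;> simp [hs, mir]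

theorem pr_mOK {P : Plc} {m : ℤ} (h : P.mOK m = true) :
    m = 1 ∨ (m = -1 ∧ P.r % 3 = 0 ∧ P.j1 = P.j2 ∧ P.s1 = P.s2) := by
  have h' : m = 1 ∨ (m = -1 ∧ Nat.mod P.r 3 = 0 ∧ P.j1 = P.j2 ∧ P.s1 = P.s2) := by
    simpa [Plc.mOK, and_assoc] using h
  exact h'

theorem pr_ncor {j : ℕ} (h : (!T.cor j) = true) : (T.J j).s ≠ 0 := by
  intro e
  have : T.cor j = true := (ieq_iff _ _).2 e
  rw [this] at h
  exact absurd h (by decide)

theorem pr_off0 (A B : ℝ) {r : ℕ} (h : r % 3 = 0) : wt A B r = 1 ∧ off A B r = 0 := by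
  unfold wt off
  rw [if_pos h, if_pos h]
  exact ⟨rfl, rfl⟩

/-- An exact fit, possibly mirrored. -/
theorem pr_fit (h : Sem T A B x c) {P : Plc} {m : ℤ} (hm : P.mOK m = true) {j : ℕ} {e : ℝ}
    (hf : P.Fits T A B x j e) (k : ℤ) :
    prTri A B (m * (P.s * e - off A B P.r) + k * (2 * π)) P.r (mir (m * P.s) (pnt T A B x j e))
      (mir (m * P.s1) (half T A B x (2 * P.j1 + 1)))
      (mir (m * P.s2) (half T A B x (2 * P.j2 + 1))) = 1 := by
  rw [pr_tri_per]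
  unfold Plc.Fits Plc.dir at hf
  rw [add_zero] at hf
  rcases pr_mOK hm with rfl | ⟨rfl, h0, h1, h2⟩
  · simpa [prTri] using hf
  · obtain ⟨e1, e2⟩ := pr_off0 A B h0
    have w1 := wt_sum h.A0 h.B0 h.AB P.r (P.s * e - off A B P.r)
      (mir P.s1 (half T A B x (2 * P.j1 + 1)))
    have w2 := wt_sum h.A0 h.B0 h.AB P.r (((-1 : ℤ) : ℝ) * (P.s * e - off A B P.r))
      (mir (-1 * P.s1) (half T A B x (2 * P.j1 + 1)))
    unfold prTri
    rw [← h1, ← h2] at hf ⊢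
    rw [e2] at hf w1 w2 ⊢
    rw [e1] at hf w1 w2 ⊢
    have e3 : ((-1 : ℤ) : ℝ) * (P.s * e - 0) + 0 = -(P.s * e - 0 + 0) := by push_cast; ring
    rw [e3, pr_mir_neg] at w2 ⊢
    linarith

theorem pr_sel (A B θ : ℝ) (f : Anc → ℂ) (a0 a1 a2 : Anc) (r : ℕ) :
    prTri A B θ 0 (f a0) (f a1) (f a2) = prTri A B θ r (f (sel a0 a1 a2 r))
      (f (sel a0 a1 a2 (r + 1))) (f (sel a0 a1 a2 (r + 2))) := by
  have h3 : r % 3 = 0 ∨ r % 3 = 1 ∨ r % 3 = 2 := by omega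
  unfold prTri sel
  have m0 : Nat.mod r 3 = r % 3 := rfl
  have m1 : Nat.mod (r + 1) 3 = (r + 1) % 3 := rfl
  have m2 : Nat.mod (r + 2) 3 = (r + 2) % 3 := rfl
  rw [m0, m1, m2]
  rcases h3 with h | h | h
  · have h1 : (r + 1) % 3 = 1 := by omega
    have h2 : (r + 2) % 3 = 2 := by omega
    rw [h, h1, h2, (pr_mod A B (r' := 0) h).1, (pr_mod A B (r' := 0) h).2,
      (pr_mod A B (r' := 1) h1).1, (pr_mod A B (r' := 1) h1).2, (pr_mod A B (r' := 2) h2).1,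
      (pr_mod A B (r' := 2) h2).2]
    rfl
  · have h1 : (r + 1) % 3 = 2 := by omega
    have h2 : (r + 2) % 3 = 0 := by omega
    rw [h, h1, h2, (pr_mod A B (r' := 1) h).1, (pr_mod A B (r' := 1) h).2,
      (pr_mod A B (r' := 2) h1).1, (pr_mod A B (r' := 2) h1).2, (pr_mod A B (r' := 0) h2).1,
      (pr_mod A B (r' := 0) h2).2]
    change _ = wt A B 1 * hs (f a1) _ + wt A B 2 * hs (f a2) _ + wt A B 0 * hs (f a0) _
    ring
  · have h1 : (r + 1) % 3 = 0 := by omega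
    have h2 : (r + 2) % 3 = 1 := by omega
    rw [h, h1, h2, (pr_mod A B (r' := 2) h).1, (pr_mod A B (r' := 2) h).2,
      (pr_mod A B (r' := 0) h1).1, (pr_mod A B (r' := 0) h1).2, (pr_mod A B (r' := 1) h2).1,
      (pr_mod A B (r' := 1) h2).2]
    change _ = wt A B 2 * hs (f a2) _ + wt A B 0 * hs (f a0) _ + wt A B 1 * hs (f a1) _
    ring

theorem pr_rot (A B θ : ℝ) (r : ℕ) {S : ℂ → Prop} {p q w : ℂ} (hp : S p) (hq : S q) (hw : S w) :
    ∃ p0 p1 p2, S p0 ∧ S p1 ∧ S p2 ∧ prTri A B θ 0 p0 p1 p2 = prTri A B θ r p q w := by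
  have h3 : r % 3 = 0 ∨ r % 3 = 1 ∨ r % 3 = 2 := by omega
  unfold prTri
  rcases h3 with h | h | h
  · have h1 : (r + 1) % 3 = 1 := by omega
    have h2 : (r + 2) % 3 = 2 := by omega
    refine ⟨p, q, w, hp, hq, hw, ?_⟩
    rw [(pr_mod A B (r' := 0) h).1, (pr_mod A B (r' := 0) h).2,
      (pr_mod A B (r' := 1) h1).1, (pr_mod A B (r' := 1) h1).2, (pr_mod A B (r' := 2) h2).1,
      (pr_mod A B (r' := 2) h2).2]
  · have h1 : (r + 1) % 3 = 2 := by omega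
    have h2 : (r + 2) % 3 = 0 := by omega
    refine ⟨w, p, q, hw, hp, hq, ?_⟩
    rw [(pr_mod A B (r' := 1) h).1, (pr_mod A B (r' := 1) h).2,
      (pr_mod A B (r' := 2) h1).1, (pr_mod A B (r' := 2) h1).2, (pr_mod A B (r' := 0) h2).1,
      (pr_mod A B (r' := 0) h2).2]
    ring
  · have h1 : (r + 1) % 3 = 0 := by omega
    have h2 : (r + 2) % 3 = 1 := by omega
    refine ⟨q, w, p, hq, hw, hp, ?_⟩
    rw [(pr_mod A B (r' := 2) h).1, (pr_mod A B (r' := 2) h).2,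
      (pr_mod A B (r' := 0) h1).1, (pr_mod A B (r' := 0) h1).2, (pr_mod A B (r' := 1) h2).1,
      (pr_mod A B (r' := 1) h2).2]
    ring

theorem pr_pnt0 (T : Tmpl) (A B : ℝ) (x : Sol) (j : ℕ) :
    pnt T A B x j (x.η j) = half T A B x (2 * j + 1) := by
  simp [pnt]

theorem pr_cor {j : ℕ} (h : (T.J j).s = 0) (e : ℝ) :
    pnt T A B x j e = half T A B x (2 * j + 1) := by
  simp [pnt, rad, h]

/-- The end points of segment `j`. -/
def PrEdge (T : Tmpl) (A B : ℝ) (x : Sol) (j : ℕ) (p : ℂ) : Prop :=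
  ∃ i ≤ T.n, (i = j ∨ i + 1 = j) ∧ p = pnt T A B x i (x.η j)

theorem pr_edge {j : ℕ} {p q : ℂ} (hp : PrEdge T A B x j p) (hq : PrEdge T A B x j q) :
    hs p (x.η j) = hs q (x.η j) := by
  have key : ∀ i, i + 1 ≤ T.n → hs (pnt T A B x (i + 1) (x.η (i + 1))) (x.η (i + 1)) =
      hs (pnt T A B x i (x.η (i + 1))) (x.η (i + 1)) := by
    intro i hi
    rw [pr_pnt0, half_succ T A B x hi]
    simp only [hs, tt, Complex.add_re, Complex.add_im, Complex.mul_re, Complex.mul_im,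
      Complex.ofReal_re, Complex.ofReal_im]
    ring
  obtain ⟨i, hi, h1, rfl⟩ := hp
  obtain ⟨i', hi', h1', rfl⟩ := hq
  rcases h1 with rfl | rfl <;> rcases h1' with h | h
  · rw [h]
  · subst h
    exact key _ hi
  · subst h
    exact (key _ hi').symm
  · have : i' = i := by omega
    rw [this]

theorem pr_onEdge {a : Anc} (ha : a.j ≤ T.n) {j : ℕ} (h : a.onEdge T j = true) :
    PrEdge T A B x j (pnt T A B x a.j (x.η a.j + a.t / 8 * (x.η (a.j + 1) - x.η a.j))) := by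
  have h' : (a.j = j ∧ a.t = 0) ∨ (a.j + 1 = j ∧ (a.t = 8 ∨ (T.J a.j).s = 0)) := by
    simpa [Anc.onEdge, Tmpl.cor] using h
  rcases h' with ⟨rfl, h2⟩ | ⟨rfl, h2 | h2⟩
  · exact ⟨a.j, ha, Or.inl rfl, by rw [h2]; simp⟩
  · refine ⟨a.j, ha, Or.inr rfl, ?_⟩
    rw [h2]
    congr 1
    push_cast
    ring
  · exact ⟨a.j, ha, Or.inr rfl, by rw [pr_cor h2, pr_cor h2]⟩

theorem pr_ok {a : Anc} (h : a.ok T = true) : a.j ≤ T.n ∧ a.t ≤ 8 ∧ (a.s = 1 ∨ a.s = -1) := by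
  simpa [Anc.ok, pm, and_assoc] using h

theorem pr_eq {a b : Anc} (h : a.eq b = true) : a = b := by
  have h' : (a.j = b.j ∧ a.t = b.t) ∧ a.s = b.s := by simpa [Anc.eq] using h
  cases a
  cases b
  simp only [Anc.mk.injEq]
  exact ⟨h'.1.1, h'.1.2, h'.2⟩

theorem pr_sel_ok {a0 a1 a2 : Anc} (o0 : a0.ok T = true) (o1 : a1.ok T = true)
    (o2 : a2.ok T = true) (r : ℕ) : (sel a0 a1 a2 r).ok T = true := by
  unfold sel
  rw [cnd_eq, cnd_eq]
  split_ifs <;> assumption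

theorem pr_cand (h : Sem T A B x c) (s : Sys T A B x) {i : ℕ} (hi : (cand T i).2.2 = true) :
    (cand T i).1.wf T = true ∧ ∃ jj ≤ T.n, (jj = (cand T i).2.1 ∨ jj + 1 = (cand T i).2.1) ∧
      (cand T i).1.Fits T A B x jj (x.η (cand T i).2.1) := by
  obtain ⟨-, -, -, w1, w2⟩ := Tmpl.wf_spec h.wf
  unfold cand at hi ⊢
  rw [cnd_eq] at hi ⊢
  by_cases hlt : Nat.blt i T.na = true
  · rw [if_pos hlt]
    have hlt' : i < T.na := by simpa using hlt
    refine ⟨(w2 i hlt').1, T.n, le_rfl, Or.inr rfl, ?_⟩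
    simp only [h.en]
    exact (s.atom i hlt').2
  · rw [if_neg hlt] at hi ⊢
    have hi' : (i - T.na) / 2 ≤ T.n ∧ (T.J ((i - T.na) / 2)).s ≠ 0 := by
      simp only [Bool.and_eq_true] at hi
      exact ⟨by simpa using hi.1, pr_ncor hi.2⟩
    refine ⟨(w1 _ hi'.1 hi'.2).1, (i - T.na) / 2, hi'.1, by simp only; omega, ?_⟩
    refine s.arc _ hi'.1 hi'.2 _ ?_
    have hm := (s.sgn _ hi'.1).2
    rcases Nat.mod_two_eq_zero_or_one (i - T.na) with e | e <;> simp only [e, add_zero]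
    · exact ⟨le_rfl, hm⟩
    · exact ⟨hm, le_rfl⟩

theorem pr_corner_pt (h : Sem T A B x c) {j : ℕ} (hj : j ≤ T.n) (σ : ℤ) :
    toC (pt T c ⟨j, 0, σ⟩) = mir σ (half T A B x (2 * j + 1)) := by
  rw [h.pt (a := ⟨j, 0, σ⟩) hj, ← pr_pnt0]
  simp

theorem pr_anti (h : Sem T A B x c) (s : Sys T A B x) {th : AE} {a0 a1 a2 : Anc}
    (he : antiAt T th a0 a1 a2 = true) :
    vdot (MP_d76e6a_co.Wv T c a0 a1 a2) (sin (ae c th), cos (ae c th)) = 1 := by
  unfold antiAt at he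
  simp only [Bool.and_eq_true, Nat.beq_eq, Nat.blt_eq] at he
  obtain ⟨⟨⟨⟨⟨⟨⟨⟨h1, hr⟩, hth⟩, e0⟩, j1⟩, e2⟩, j2⟩, e1⟩, e1'⟩ := he
  obtain ⟨-, -, cn, -, w2⟩ := Tmpl.wf_spec h.wf
  have hs1 := (w2 1 h1).2
  have hf := (s.atom 1 h1).2
  obtain ⟨k, -, hk⟩ := ae_same c hth
  rw [sem2_addPi, h.thE, hs1, hr, h.en] at hk
  unfold Plc.Fits Plc.dir at hf
  rw [hs1, hr, j1, j2, pr_cor cn] at hf
  have a1e : a1 = ⟨0, 0, a1.s⟩ := by
    cases a1
    simp only [Anc.mk.injEq, and_true]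
    exact ⟨e1, e1'⟩
  rw [h.Wv, pr_eq e0, pr_eq e2, a1e, pr_corner_pt h le_rfl, pr_corner_pt h (Nat.zero_le _),
    pr_corner_pt h (Nat.zero_le _), hk]
  generalize half T A B x (2 * (T.n : ℝ) + 1) = E at hf ⊢
  generalize half T A B x (2 * ((0 : ℕ) : ℝ) + 1) = V at hf ⊢
  have b1 := sem_base h.A0 h.B0 h.AB (π - A) (mir (T.At 1).s2 V)
  have b2 := sem_base h.A0 h.B0 h.AB (-A) (mir (T.At 1).s1 E)
  have o0 : off A B 0 = 0 := by simp [off]
  have o1 : off A B 1 = π + A := by simp [off]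
  have o2 : off A B 2 = π - B := by simp [off]
  have o3 : off A B (1 + 2) = 0 := by simp [off]
  have w0 : wt A B 0 = 1 := by simp [wt]
  have w1 : wt A B 1 = sin B / sin (A + B) := by simp [wt]
  have w2' : wt A B 2 = sin A / sin (A + B) := by simp [wt]
  have w3 : wt A B (1 + 2) = 1 := by simp [wt]
  rw [show (1 + 0 : ℕ) = 1 from rfl, show (1 + 1 : ℕ) = 2 from rfl, o1, o2, o3, w1, w2', w3] at hf
  rw [o0, o1, o2, w0, w1, w2']
  have t0 : ((1 : ℤ) : ℝ) * π - (π + A) + ((1 : ℤ) : ℝ) * π + k * (2 * π) = π - A + k * (2 * π) := by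
    push_cast; ring
  rw [t0]
  simp only [add_right_comm (π - A) (k * (2 * π)), pr_per]
  have t1 : π - A + (π + A) = 2 * π := by ring
  have t2 : ((1 : ℤ) : ℝ) * π - (π + A) = -A := by push_cast; ring
  have t3 : -A + (π + A) = π := by ring
  rw [t2, t3] at hf
  rw [t3] at b2
  rw [t1] at b1 ⊢
  simp only [hs, mir, add_zero, sin_two_pi, cos_two_pi, sin_pi, cos_pi, sin_pi_sub, cos_pi_sub,
    sin_neg, cos_neg] at hf b1 b2 ⊢
  linarith

theorem Sem.exact (h : Sem T A B x c) (s : Sys T A B x) {th : AE} {a0 a1 a2 : Anc} {k : ℤ}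
    (o0 : a0.ok T = true) (o1 : a1.ok T = true) (o2 : a2.ok T = true)
    (he : isExact T th a0 a1 a2 k = true) :
    vdot (MP_d76e6a_co.Wv T c a0 a1 a2) (sin (ae c th), cos (ae c th)) = 1 := by
  unfold isExact at he
  rw [cnd_eq] at he
  split_ifs at he with h15
  · exact pr_anti h s he
  rw [Bool.and_eq_true] at he
  obtain ⟨hw, jj, hjj, hj, hf⟩ := pr_cand h s he.1
  have he2 := he.2
  generalize (cand T (k.natAbs - 1)).1 = P at hw hf he2
  generalize (cand T (k.natAbs - 1)).2.1 = j at hj hf he2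
  generalize k.sign = m at he2
  unfold exactAt at he2
  simp only [Bool.and_eq_true, Bool.or_eq_true, ieq_iff, Nat.beq_eq] at he2
  obtain ⟨⟨⟨⟨⟨hm, hth⟩, e1⟩, e2⟩, e3⟩, e4⟩ := he2
  obtain ⟨s0, -, -, j1, j2, -, -⟩ := Plc.wf_spec hw
  have hm' : m = 1 ∨ m = -1 := by
    rcases pr_mOK hm with h1 | h1
    · exact Or.inl h1
    · exact Or.inr h1.1
  obtain ⟨k', -, hk'⟩ := ae_same c hth
  rw [ae_mul c hm', h.thE] at hk'
  have hfit := pr_fit h hm hf k'
  rw [← hk'] at hfit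
  rw [h.Wv]
  change prTri A B (ae c th) 0 (toC (MP_d76e6a_co.pt T c a0)) (toC (MP_d76e6a_co.pt T c a1))
    (toC (MP_d76e6a_co.pt T c a2)) = 1
  rw [pr_sel A B (ae c th) (fun a => toC (MP_d76e6a_co.pt T c a)) a0 a1 a2 P.r, pr_eq e1, pr_eq e2,
    pr_corner_pt h j1, pr_corner_pt h j2, isg_eq hm', isg_eq hm']
  refine Eq.trans ?_ hfit
  unfold prTri
  congr 3
  obtain ⟨b1, -, b3⟩ := pr_ok (pr_sel_ok o0 o1 o2 P.r)
  have hms : m * P.s = 1 ∨ m * P.s = -1 := by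
    rcases hm' with rfl | rfl <;> rcases s0 with e | e <;> rw [e] <;> simp
  have hang : ae c th + off A B P.r = ((m * P.s : ℤ) : ℝ) * x.η j + k' * (2 * π) := by
    rw [hk']
    rcases pr_mOK hm with rfl | ⟨rfl, h0, -⟩
    · push_cast; ring
    · rw [(pr_off0 A B h0).2]; push_cast; ring
  have hE := pr_edge (pr_onEdge (A := A) (B := B) (x := x) b1 e3) ⟨jj, hjj, hj, rfl⟩
  rw [h.pt b1, hang, pr_per, pr_per, pr_mir_sgn hms, ← hE]
  rcases e4 with e4 | e4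
  · rw [e4, isg_eq hm', pr_mir_sgn hms]
  · rw [e4, h.en]
    rcases hms with e | e <;> rw [e] <;> simp [hs, mir]

theorem pr_p {P : Plc} {j : ℕ} (hs : P.s ≠ 0) (h0 : j ≠ 0) (hn : j ≠ T.n + 1) (m : ℤ) :
    ((MP_d76e6a_co.thE T P j).mul m).p = isg m (if P.r % 3 = 0 then 0 else -1) := by
  have e : AE.nrm T.n ⟨P.s, j, 0, 0, 0, 0⟩ = ⟨P.s, j, 0, 0, 0, 0⟩ := by
    unfold AE.nrm
    rw [cnd_eq, cnd_eq, if_neg (by simp [hs, h0]), if_neg (by simp [hn])]
  unfold MP_d76e6a_co.thE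
  rw [e]
  unfold AE.addOff AE.mul
  have m0 : Nat.mod P.r 3 = P.r % 3 := rfl
  rw [cnd_eq, cnd_eq, m0]
  by_cases h : P.r % 3 = 0
  · simp [h]
  · rw [if_neg (by simpa using h), if_neg h]
    split_ifs <;> simp

theorem pr_onC {j : ℕ} (hj : j ≤ T.n) {e : ℝ} (he : e ∈ Set.Icc (x.η j) (x.η (j + 1))) {σ : ℤ}
    (hσ : σ = 1 ∨ σ = -1) : OnC T A B x (mir σ (pnt T A B x j e)) := by
  rcases eq_or_lt_of_le (he.1.trans he.2) with h | h
  · refine ⟨j, hj, 0, ⟨le_rfl, zero_le_one⟩, σ, hσ, ?_⟩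
    have : e = x.η j := le_antisymm (h ▸ he.2) he.1
    rw [this]
    simp
  · have hd : 0 < x.η (j + 1) - x.η j := sub_pos.2 h
    refine ⟨j, hj, (e - x.η j) / (x.η (j + 1) - x.η j),
      ⟨div_nonneg (sub_nonneg.2 he.1) hd.le, (div_le_one hd).2 (by linarith [he.2])⟩, σ, hσ, ?_⟩
    rw [div_mul_cancel₀ _ hd.ne']
    simp

theorem pr_onC0 {j : ℕ} (hj : j ≤ T.n) {σ : ℤ} (hσ : σ = 1 ∨ σ = -1) :
    OnC T A B x (mir σ (half T A B x (2 * j + 1))) :=
  ⟨j, hj, 0, ⟨le_rfl, zero_le_one⟩, σ, hσ, by rw [← pr_pnt0]; simp⟩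

theorem Sem.arc (h : Sem T A B x c) (s : Sys T A B x) {a b : AE} {j : ℕ} {m : ℤ}
    (ha : arcOK T a b j m = true) {θ : ℝ} (h1 : ae c a ≤ θ) (h2 : θ ≤ ae c b) :
    ∃ p0 p1 p2, OnC T A B x p0 ∧ OnC T A B x p1 ∧ OnC T A B x p2 ∧
      1 ≤ wt A B 0 * hs p0 (θ + off A B 0) + wt A B 1 * hs p1 (θ + off A B 1)
        + wt A B 2 * hs p2 (θ + off A B 2) := by
  unfold arcOK at ha
  simp only [Bool.and_eq_true] at ha
  obtain ⟨⟨⟨hj, hc⟩, hm⟩, hab⟩ := ha
  have hj' : j ≤ T.n := by simpa using hj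
  have hc' : (T.J j).s ≠ 0 := pr_ncor hc
  obtain ⟨-, w0, wn, w1, -⟩ := Tmpl.wf_spec h.wf
  obtain ⟨s0, s1, s2, j1, j2, -, -⟩ := Plc.wf_spec (w1 j hj' hc').1
  have hm' : m = 1 ∨ m = -1 := by
    rcases pr_mOK hm with h1 | h1
    · exact Or.inl h1
    · exact Or.inr h1.1
  have n0 : j ≠ 0 := fun e => hc' (e ▸ w0)
  have nn : j ≠ T.n := fun e => hc' (e ▸ wn)
  have p1 := pr_p (T := T) hc' n0 (by omega) m
  have p2 := pr_p (T := T) (j := j + 1) hc' (by omega) (by omega) m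
  have sg : ∀ {σ : ℤ}, σ = 1 ∨ σ = -1 → m * σ = 1 ∨ m * σ = -1 := fun {σ} hσ => by
    rcases hm' with rfl | rfl <;> rcases hσ with rfl | rfl <;> simp
  have key : ∃ e ∈ Set.Icc (x.η j) (x.η (j + 1)), ∃ k : ℤ,
      θ = m * ((T.J j).s * e - off A B (T.J j).r) + k * (2 * π) := by
    rw [cnd_eq, isg_eq hm'] at hab
    by_cases hs : m * (T.J j).s = 1
    · rw [if_pos ((ieq_iff _ _).2 hs)] at hab
      simp only [Bool.and_eq_true, ieq_iff] at hab
      obtain ⟨k, k1, k2⟩ := ae_same c hab.1.1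
      obtain ⟨k', k1', k2'⟩ := ae_same c hab.1.2
      have hk : k' = k := by have := hab.2; omega
      rw [ae_mul c hm', h.thE] at k2 k2'
      rw [hk] at k2'
      have hs' : (m : ℝ) * (T.J j).s = 1 := by exact_mod_cast hs
      refine ⟨θ - k * (2 * π) + m * off A B (T.J j).r, ⟨?_, ?_⟩, k, ?_⟩
      · have : (m : ℝ) * ((T.J j).s * x.η j) = x.η j := by rw [← mul_assoc, hs', one_mul]
        linarith
      · have : (m : ℝ) * ((T.J j).s * x.η (j + 1)) = x.η (j + 1) := by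
          rw [← mul_assoc, hs', one_mul]
        linarith
      · linear_combination (-(θ - k * (2 * π) + m * off A B (T.J j).r)) * hs'
    · rw [if_neg fun e => hs ((ieq_iff _ _).1 e)] at hab
      simp only [Bool.and_eq_true, ieq_iff] at hab
      obtain ⟨k, k1, k2⟩ := ae_same c hab.1.1
      obtain ⟨k', k1', k2'⟩ := ae_same c hab.1.2
      have hk : k' = k := by have := hab.2; omega
      rw [ae_mul c hm', h.thE] at k2 k2'
      rw [hk] at k2'
      have hs' : (m : ℝ) * (T.J j).s = -1 := by exact_mod_cast (sg s0).resolve_left hs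
      refine ⟨-(θ - k * (2 * π) + m * off A B (T.J j).r), ⟨?_, ?_⟩, k, ?_⟩
      · have : (m : ℝ) * ((T.J j).s * x.η j) = -x.η j := by rw [← mul_assoc, hs', neg_one_mul]
        linarith
      · have : (m : ℝ) * ((T.J j).s * x.η (j + 1)) = -x.η (j + 1) := by
          rw [← mul_assoc, hs', neg_one_mul]
        linarith
      · linear_combination (θ - k * (2 * π) + m * off A B (T.J j).r) * hs'
  obtain ⟨e, he, k, hθ⟩ := key
  have hfit := pr_fit h hm (s.arc j hj' hc' e he) k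
  rw [← hθ] at hfit
  obtain ⟨p0, q0, r0, c0, c1, c2, hE⟩ := pr_rot A B θ (T.J j).r (S := OnC T A B x)
    (pr_onC hj' he (sg s0)) (pr_onC0 j1 (sg s1)) (pr_onC0 j2 (sg s2))
  exact ⟨p0, q0, r0, c0, c1, c2, (hE.trans hfit).ge⟩

theorem pr_neg : ¬(0 : ℝ) ≤ Ar.num (-1) := by
  rw [num_real]
  norm_num

theorem pr_end (h : Sem T A B x c) (s : Sys T A B x) {th : AE} {a0 a1 a2 : Anc} {k : ℤ}
    (o0 : a0.ok T = true) (o1 : a1.ok T = true) (o2 : a2.ok T = true)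
    (hp : ∀ v ∈ endI T c th a0 a1 a2 k, 0 ≤ v) :
    1 ≤ (Wv T c a0 a1 a2).1 * sin (ae c th) + (Wv T c a0 a1 a2).2 * cos (ae c th) := by
  unfold endI at hp
  rw [cnd_eq, cnd_eq] at hp
  split_ifs at hp with h1 h2
  · have := hp _ List.mem_cons_self
    simp only [sub, vdot, one, num_real, sc_real] at this
    norm_num at this
    linarith
  · exact (h.exact s o0 o1 o2 h2).ge
  · exact absurd (hp _ List.mem_cons_self) pr_neg

theorem pr_anc (h : Sem T A B x c) {a : Anc} (o : a.ok T = true) :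
    OnC T A B x (toC (pt T c a)) := by
  obtain ⟨b1, b2, b3⟩ := pr_ok o
  have b4 : (a.t : ℝ) ≤ 8 := by exact_mod_cast b2
  exact ⟨a.j, b1, a.t / 8, ⟨by positivity, by linarith⟩, a.s, b3, h.pt b1⟩

theorem pr_ind (h : Sem T A B x c) (s : Sys T A B x) (iv : List Iv) :
    ∀ a : AE, (∀ v ∈ primI T c a iv, 0 ≤ v) → ∀ θ : ℝ, ae c a ≤ θ → θ < 3 * π →
      ∃ p0 p1 p2, OnC T A B x p0 ∧ OnC T A B x p1 ∧ OnC T A B x p2 ∧
        1 ≤ prTri A B θ 0 p0 p1 p2 := by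
  induction iv with
  | nil =>
    intro a hp θ h1 h2
    have := hp _ List.mem_cons_self
    rw [dif_eq] at this
    have e : ae c ⟨0, 0, 3, 0, 0, 0⟩ = 3 * π := by simp [ae]
    linarith
  | cons I iv ih =>
    obtain ⟨m, arc, a0, a1, a2, hl, hr, e⟩ := I
    intro a hp θ h1 h2
    unfold primI at hp
    rcases le_total θ (ae c e) with h3 | h3
    swap
    · exact ih e (fun v hv => hp v (List.mem_append_right _ hv)) θ h3 h2
    have hq := fun v hv => hp v (List.mem_append_left _ hv)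
    rw [cnd_eq, cnd_eq, cnd_eq] at hq
    split_ifs at hq with c1 c2 c3
    · simp only [Bool.and_eq_true] at c2
      obtain ⟨⟨o0, o1⟩, o2⟩ := c2
      have g : (0 : ℝ) ≤ sub (Ar.num 12884901888) (dif c e a) :=
        hq _ (List.mem_append_left _ (by simp [gap]))
      have g' : ae c e - ae c a ≤ 3 := by
        rw [dif_eq] at g
        simp only [sub, num_real] at g
        norm_num at g
        linarith
      have l1 := pr_end h s o0 o1 o2 fun v hv =>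
        hq v (List.mem_append_right _ (List.mem_append_left _ hv))
      have l2 := pr_end h s o0 o1 o2 fun v hv =>
        hq v (List.mem_append_right _ (List.mem_append_right _ hv))
      have l3 := sinusoid g' h1 h3 l1 l2
      exact ⟨_, _, _, pr_anc h o0, pr_anc h o1, pr_anc h o2, l3.trans (h.Wv a0 a1 a2 θ).le⟩
    · exact absurd (hq _ List.mem_cons_self) pr_neg
    · exact h.arc s c3 h1 h3
    · exact absurd (hq _ List.mem_cons_self) pr_neg

theorem Sem.wide (h : Sem T A B x c) (s : Sys T A B x) {iv : List Iv}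
    (hp : ∀ v ∈ primI T c ⟨0, 0, 1, 0, 0, 0⟩ iv, 0 ≤ v) : Wide A B (OnC T A B x) := by
  intro θ
  have h2 : (0 : ℝ) < 2 * π := by positivity
  have hm := toIcoMod_mem_Ico h2 π θ
  have e : ae c ⟨0, 0, 1, 0, 0, 0⟩ = π := by simp [ae]
  obtain ⟨p0, p1, p2, c0, c1, c2, hE⟩ := pr_ind h s iv _ hp (toIcoMod h2 π θ)
    (by rw [e]; exact hm.1) (by linarith [hm.2])
  refine ⟨p0, p1, p2, c0, c1, c2, ?_⟩
  have e2 : θ = toIcoMod h2 π θ + (toIcoDiv h2 π θ : ℤ) * (2 * π) := by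
    rw [← zsmul_eq_mul, toIcoMod_add_toIcoDiv_zsmul]
  rw [← pr_tri_per A B _ (toIcoDiv h2 π θ), ← e2] at hE
  exact hE

end Pool.Agent.P.MP_d76e6a_co
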