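import Pool.Agent.P.MP_d76e6a_co.XSys

/-!
For a solution of the system the total mass of the atoms is the total length of the segments.
-/

namespace Pool.Agent.P.MP_d76e6a_co

open Real Finset

/-- The real inner product with `p`, as a continuous linear map. -/
noncomputable def val_L (p : ℂ) : ℂ →L[ℝ] ℝ := p.re • Complex.reCLM + p.im • Complex.imCLM

theorem val_L_apply (p q : ℂ) : val_L p q = p.re * q.re + p.im * q.im := by
  simp [val_L]

theorem val_L_mul (p q : ℂ) (r : ℝ) : val_L p ((r : ℂ) * q) = r * val_L p q := by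
  rw [val_L_apply, val_L_apply]
  simp only [Complex.re_ofReal_mul, Complex.im_ofReal_mul]
  ring

theorem val_mir {s : ℤ} (hs1 : s = 1 ∨ s = -1) (p : ℂ) (e : ℝ) :
    hs (mir s p) e = val_L p (uu (s * e)) := by
  rw [val_L_apply]
  rcases hs1 with rfl | rfl <;> simp [hs, mir, uu]

theorem val_push_cont (P : Plc) (A B : ℝ) (j : ℕ) : Continuous (fun e => P.push A B j e) := by
  have h1 := xc_uu_cont
  unfold Plc.push Plc.dir
  refine Continuous.add ?_ ?_
  · split_ifs
    · fun_prop
    · fun_prop
  · split_ifs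
    · fun_prop
    · fun_prop

theorem val_push_zero {T : Tmpl} {P : Plc} (hP : P.wf T = true) (A B : ℝ) {j : ℕ}
    (hj : (T.J j).s ≠ 0) (e : ℝ) : P.push A B j e = 0 := by
  obtain ⟨-, -, -, -, -, h1, h2⟩ := Plc.wf_spec hP
  unfold Plc.push
  have n1 : ¬ P.j1 = j := fun h => hj (h ▸ h1)
  have n2 : ¬ P.j2 = j := fun h => hj (h ▸ h2)
  rw [if_neg n1, if_neg n2, add_zero]

theorem val_fits {T : Tmpl} {P : Plc} (hP : P.wf T = true) {A B : ℝ} {x : Sol} {j : ℕ} {e : ℝ}
    (hF : P.Fits T A B x j e) :
    wt A B P.r * val_L (pnt T A B x j e) (uu e)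
      + ∑ i ∈ range (T.n + 1), val_L (half T A B x (2 * i + 1)) (P.push A B i e) = 1 := by
  obtain ⟨h0, h1, h2, k1, k2, -, -⟩ := Plc.wf_spec hP
  unfold Plc.Fits at hF
  rw [val_mir h0, val_mir h1, val_mir h2] at hF
  have e0 : (P.s : ℝ) * P.dir A B e 0 = e := by
    unfold Plc.dir
    rcases h0 with h0 | h0 <;> rw [h0] <;> simp
  rw [e0] at hF
  have e1 : ∀ i : ℕ, val_L (half T A B x (2 * i + 1)) (P.push A B i e)
      = (if P.j1 = i then wt A B (P.r + 1) *
          val_L (half T A B x (2 * i + 1)) (uu (P.s1 * P.dir A B e 1)) else 0)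
        + if P.j2 = i then wt A B (P.r + 2) *
          val_L (half T A B x (2 * i + 1)) (uu (P.s2 * P.dir A B e 2)) else 0 := by
    intro i
    unfold Plc.push
    rw [map_add]
    congr 1
    · split_ifs
      · rw [val_L_mul]
      · rw [map_zero]
    · split_ifs
      · rw [val_L_mul]
      · rw [map_zero]
  simp only [e1]
  rw [Finset.sum_add_distrib, Finset.sum_ite_eq, Finset.sum_ite_eq,
    if_pos (mem_range.2 (by omega)), if_pos (mem_range.2 (by omega))]
  linarith

theorem val_rad_zero {T : Tmpl} (A B : ℝ) {j : ℕ} (hj : (T.J j).s = 0) : rad T A B j = 0 := by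
  unfold rad
  rw [hj]
  simp

theorem val_int_uu (a b : ℝ) : ∫ e in a..b, uu e = tt a - tt b := by
  have h := integral_uu (σ := 1) (Or.inl rfl) 0 a b
  simpa using h

theorem val_pnt (T : Tmpl) (A B : ℝ) (x : Sol) (k : ℕ) (e : ℝ) :
    val_L (pnt T A B x k e) (uu e)
      = val_L (half T A B x (2 * k + 1)) (uu e) + rad T A B k * (1 - cos (e - x.η k)) := by
  rw [val_L_apply, val_L_apply, cos_sub]
  simp only [pnt, uu, Complex.add_re, Complex.add_im, Complex.re_ofReal_mul,
    Complex.im_ofReal_mul, Complex.sub_re, Complex.sub_im]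
  have h := sin_sq_add_cos_sq e
  linear_combination (rad T A B k) * h

theorem val_arc {T : Tmpl} {A B : ℝ} {x : Sol} (s : Sys T A B x) (hT : T.wf = true) (hA : 0 < A)
    (hB : 0 < B) (h : A + B < π) {k : ℕ} (hk : k ≤ T.n) (hs0 : (T.J k).s ≠ 0) :
    ∑ i ∈ range (T.n + 1), val_L (half T A B x (2 * i + 1))
        ((rad T A B k : ℝ) * ∫ e in x.η k..x.η (k + 1), (T.J k).push A B i e)
      = rad T A B k * sin (x.η (k + 1) - x.η k)
        - val_L (half T A B x (2 * k + 1)) (tt (x.η k) - tt (x.η (k + 1))) := by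
  obtain ⟨-, -, -, harc, -⟩ := Tmpl.wf_spec hT
  have hP := (harc k hk hs0).1
  have hw := wt_pos hA hB h (T.J k).r
  have hr : rad T A B k * wt A B (T.J k).r = 1 := by
    unfold rad
    rw [div_mul_cancel₀ _ hw.ne']
    rcases (Plc.wf_spec hP).1 with h1 | h1 <;> rw [h1] <;> simp
  have hle := (s.sgn k hk).2
  have hu := xc_uu_cont
  have e1 : ∀ i : ℕ, val_L (half T A B x (2 * i + 1))
        ((rad T A B k : ℝ) * ∫ e in x.η k..x.η (k + 1), (T.J k).push A B i e)
      = ∫ e in x.η k..x.η (k + 1),
        rad T A B k * val_L (half T A B x (2 * i + 1)) ((T.J k).push A B i e) := by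
    intro i
    rw [val_L_mul, intervalIntegral.integral_const_mul,
      ContinuousLinearMap.intervalIntegral_comp_comm _
        ((val_push_cont (T.J k) A B i).intervalIntegrable _ _)]
  simp only [e1]
  rw [← intervalIntegral.integral_finsetSum (fun i _ => by
    have := val_push_cont (T.J k) A B i
    exact Continuous.intervalIntegrable (by fun_prop) _ _)]
  have e2 : ∀ e ∈ Set.uIcc (x.η k) (x.η (k + 1)), ∑ i ∈ range (T.n + 1),
        rad T A B k * val_L (half T A B x (2 * i + 1)) ((T.J k).push A B i e)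
      = rad T A B k * cos (e - x.η k) - val_L (half T A B x (2 * k + 1)) (uu e) := by
    intro e he
    rw [Set.uIcc_of_le hle] at he
    have hF := val_fits hP (s.arc k hk hs0 e he)
    rw [val_pnt] at hF
    rw [← Finset.mul_sum]
    linear_combination (rad T A B k) * hF
      - (val_L (half T A B x (2 * k + 1)) (uu e) + rad T A B k * (1 - cos (e - x.η k))) * hr
  rw [intervalIntegral.integral_congr e2, intervalIntegral.integral_sub
    (Continuous.intervalIntegrable (by fun_prop) _ _)
    (Continuous.intervalIntegrable (by fun_prop) _ _), intervalIntegral.integral_const_mul,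
    ContinuousLinearMap.intervalIntegral_comp_comm _ (hu.intervalIntegrable _ _), val_int_uu,
    intervalIntegral.integral_comp_sub_right (fun e => cos e), integral_cos]
  simp

theorem val_load_zero {T : Tmpl} (hT : T.wf = true) (A B : ℝ) (x : Sol) {j : ℕ}
    (hj : (T.J j).s ≠ 0) : load T A B x j = 0 := by
  obtain ⟨-, -, -, harc, hat⟩ := Tmpl.wf_spec hT
  unfold load
  rw [Finset.sum_eq_zero, Finset.sum_eq_zero, add_zero]
  · intro k hk
    by_cases hs0 : (T.J k).s = 0
    · rw [val_rad_zero A B hs0]
      simp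
    · have hP := (harc k (Nat.lt_succ_iff.1 (mem_range.1 hk)) hs0).1
      simp [val_push_zero hP A B hj]
  · intro p hp
    rw [val_push_zero (hat p (mem_range.1 hp)).1 A B hj, mul_zero]

theorem val_tele (T : Tmpl) (A B : ℝ) (x : Sol) {k : ℕ} (hk : k ≤ T.n) :
    ∑ i ∈ range k, (val_L (half T A B x (2 * i + 1)) (tt (x.η i) - tt (x.η (i + 1)))
        - rad T A B i * sin (x.η (i + 1) - x.η i))
      + val_L (half T A B x (2 * k + 1)) (tt (x.η k)) = ∑ i ∈ range (k + 1), x.l i := by
  induction k with
  | zero =>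
    rw [half_one, val_L_apply]
    simp only [range_zero, sum_empty, zero_add, range_one, sum_singleton, tt,
      Complex.re_ofReal_mul, Complex.im_ofReal_mul]
    have h := sin_sq_add_cos_sq (x.η 0)
    linear_combination (x.l 0) * h
  | succ k ih =>
    rw [Finset.sum_range_succ, Finset.sum_range_succ _ (k + 1), ← ih (by omega),
      half_succ T A B x hk, map_sub, sin_sub]
    simp only [val_L_apply, pnt, uu, tt, Complex.add_re, Complex.add_im, Complex.re_ofReal_mul,
      Complex.im_ofReal_mul, Complex.sub_re, Complex.sub_im]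
    have h := sin_sq_add_cos_sq (x.η (k + 1))
    linear_combination (x.l (k + 1)) * h

theorem Sys.val {T : Tmpl} {A B : ℝ} {x : Sol} (s : Sys T A B x) (hT : T.wf = true) (hA : 0 < A)
    (hB : 0 < B) (h : A + B < π) :
    ∑ p ∈ range T.atoms.length, x.m p = ∑ j ∈ range (T.n + 1), x.l j := by
  obtain ⟨hn, hJ0, hJn, -, hat⟩ := Tmpl.wf_spec hT
  set X : ℕ → ℂ := fun i => half T A B x (2 * i + 1) with hX
  set g : ℕ → ℝ := fun i => val_L (X i) (tt (x.η i) - tt (x.η (i + 1)))
    - rad T A B i * sin (x.η (i + 1) - x.η i) with hg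
  have hatom : ∀ p ∈ range T.atoms.length, x.m p
      = x.m p * wt A B (T.At p).r * val_L (X T.n) (uu π)
        + ∑ i ∈ range (T.n + 1), val_L (X i) ((x.m p : ℝ) * (T.At p).push A B i π) := by
    intro p hp
    have hF := val_fits (hat p (mem_range.1 hp)).1 (s.atom p (mem_range.1 hp)).2
    rw [val_pnt, val_rad_zero A B hJn] at hF
    simp only [val_L_mul]
    rw [← Finset.mul_sum]
    simp only [hX]
    linear_combination (-(x.m p)) * hF
  have harc : ∀ k ∈ range (T.n + 1), ∑ i ∈ range (T.n + 1), val_L (X i)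
        ((rad T A B k : ℝ) * ∫ e in x.η k..x.η (k + 1), (T.J k).push A B i e)
      = -(if (T.J k).s = 0 then 0 else g k) := by
    intro k hk
    by_cases hs0 : (T.J k).s = 0
    · rw [if_pos hs0, val_rad_zero A B hs0]
      simp
    · rw [if_neg hs0, val_arc s hT hA hB h (Nat.lt_succ_iff.1 (mem_range.1 hk)) hs0]
      simp only [hg, hX]
      ring
  have hload : ∑ i ∈ range (T.n + 1), val_L (X i) (load T A B x i)
      = ∑ p ∈ range T.atoms.length, ∑ i ∈ range (T.n + 1),
          val_L (X i) ((x.m p : ℝ) * (T.At p).push A B i π)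
        - ∑ k ∈ range (T.n + 1), (if (T.J k).s = 0 then 0 else g k) := by
    unfold load
    simp only [map_add, map_sum]
    rw [Finset.sum_add_distrib, Finset.sum_comm, Finset.sum_comm (s := range (T.n + 1))
      (t := range (T.n + 1)), Finset.sum_congr rfl harc, Finset.sum_neg_distrib]
    ring
  have hc : ∀ i ∈ range T.n, val_L (X i) (load T A B x i) + (if (T.J i).s = 0 then 0 else g i)
      = g i := by
    intro i hi
    by_cases hs0 : (T.J i).s = 0
    · rw [if_pos hs0, add_zero]
      simp only [hg]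
      rw [val_rad_zero A B hs0, zero_mul, sub_zero]
      rcases Nat.eq_zero_or_pos i with rfl | hi0
      · have hap := s.apex
        simp only [hX]
        rw [half_one, s.first, val_L_apply, val_L_apply]
        simp only [tt, Complex.re_ofReal_mul, Complex.im_ofReal_mul, Complex.sub_re,
          Complex.sub_im, cos_zero, sin_zero, neg_zero, mul_zero, zero_mul, add_zero, mul_one,
          zero_add]
        split_ifs at hap
        · linear_combination (x.l 0) * hap
        · rw [hap, zero_mul, zero_mul]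
      · rw [s.corner i hi0 (mem_range.1 hi) hs0]
    · rw [if_neg hs0, val_load_zero hT A B x hs0, map_zero, zero_add]
  have htip : val_L (X T.n) (load T A B x T.n)
      + (∑ p ∈ range T.atoms.length, x.m p * wt A B (T.At p).r) * val_L (X T.n) (uu π)
      = val_L (X T.n) (tt (x.η T.n)) := by
    rw [← s.tip, map_add, val_L_mul]
  have htel := val_tele T A B x (le_refl T.n)
  have hsum := Finset.sum_congr rfl hc
  rw [Finset.sum_add_distrib] at hsum
  rw [Finset.sum_range_succ, Finset.sum_range_succ (fun k => if (T.J k).s = 0 then 0 else g k),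
    if_pos hJn] at hload
  rw [Finset.sum_congr rfl hatom, Finset.sum_add_distrib, ← Finset.sum_mul, ← htel]
  change _ = ∑ i ∈ range T.n, g i + val_L (X T.n) (tt (x.η T.n))
  linarith

end Pool.Agent.P.MP_d76e6a_co
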