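import Pool.Agent.P.MP_d76e6a_co.XPhi2
import Pool.Agent.P.MP_d76e6a_co.XVal
import Pool.Agent.P.MP_d76e6a_co.XPrimal
import Pool.Agent.P.MP_d76e6a_co.NTab

/-!
A valid certificate gives a shortest escape path.
-/

namespace Pool.Agent.P.MP_d76e6a_co

open Real Finset EuclideanGeometry

def Bad.Ok (bd : Bad) : Prop := BadOK (ang bd.a) (ang bd.b) (ang bd.g) (bd.U / 4294967296)

def Ent.bad (e : Ent) : Bad := ⟨e.a, e.b, e.g, e.U⟩

theorem bad_of_tab {l : List Ent} (h : tabCheck l = true) : ∀ bd ∈ l.map Ent.bad, bd.Ok := by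
  intro bd hbd
  obtain ⟨e, he, rfl⟩ := List.mem_map.1 hbd
  have k := tabCheck_sound h e he
  unfold Ent.Ok at k
  unfold Bad.Ok Ent.bad
  have e1 : ((e.U : ℤ) : ℝ) / 4294967296 = (e.U : ℝ) / 2 ^ 32 := by
    rw [Int.cast_natCast]
    norm_num
  simp only
  rw [e1]
  exact k

theorem good_sum (n : ℕ) (f : ℕ → ℝ) : lsum ((List.range n).map f) = ∑ j ∈ range n, f j := by
  rw [lsum_eq]
  induction n with
  | zero => simp
  | succ n ih => rw [List.range_succ, List.map_append, List.sum_append, ih, sum_range_succ]; simp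

theorem good_ang (a : ℕ) : (((a : ℤ) * 4685082 : ℤ) : ℝ) / 4294967296 ≤ ang a := by
  have p1 := pi_gt_d20
  have a0 : (0 : ℝ) ≤ a := Nat.cast_nonneg a
  unfold ang
  push_cast
  rw [mul_div_assoc]
  exact mul_le_mul_of_nonneg_left (by linarith) a0

theorem good_arc {T : Tmpl} {A B : ℝ} {x : Sol} {c : Cfg ℝ} (h : Sem T A B x c) :
    arcSum T (fun j => rho c (T.J j).r * del c j)
      = ∑ j ∈ range (T.n + 1), rad T A B j * (x.η (j + 1) - x.η j) := by
  unfold arcSum
  rw [good_sum]
  refine sum_congr rfl fun j hj => ?_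
  have hj' : j ≤ T.n := Nat.lt_succ_iff.1 (mem_range.1 hj)
  rw [cnd_eq]
  by_cases hs : (T.J j).s = 0
  · rw [if_pos (by simpa [Tmpl.cor] using hs)]
    simp [rad, hs]
  · rw [if_neg (by simpa [Tmpl.cor] using hs)]
    beta_reduce
    rw [(h.rho hj' hs).1, del, sub, h.eta, sub_eq_add_neg]

structure Good (T : Tmpl) (A B : ℝ) (x : Sol) : Prop where
  sys : Sys T A B x
  AB : A + B < π
  wide : Wide A B (OnC T A B x)
  low : ∀ ρ, 0 ≤ ρ → ∀ L R : Half, AllRows ρ L R A B → ρ * len T A B x ≤ L.len + R.len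

theorem Sem.good {T : Tmpl} {A B : ℝ} {x : Sol} {c : Cfg ℝ} {pl : Plan} {bd : Bad}
    (h : Sem T A B x c) (he : ∀ v ∈ eqs T c (cons T pl c), v = 0)
    (hi : ∀ v ∈ ineqs T pl bd c (cons T pl c), 0 ≤ v) (hb : bd.Ok) : Good T A B x := by
  have hs : ∀ v ∈ signI T c (cons T pl c), 0 ≤ v := fun v hv =>
    hi v (List.mem_append_left _ hv)
  have hbI : ∀ v ∈ badI T pl bd c (cons T pl c), 0 ≤ v := fun v hv =>
    hi v (List.mem_append_right _ (List.mem_append_left _ hv))
  have hd : ∀ v ∈ dualI T pl c (cons T pl c), 0 ≤ v := fun v hv =>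
    hi v (List.mem_append_right _ (List.mem_append_right _ (List.mem_append_left _ hv)))
  have hp : ∀ v ∈ primI T c ⟨0, 0, 1, 0, 0, 0⟩ pl.iv, 0 ≤ v := fun v hv =>
    hi v (List.mem_append_right _ (List.mem_append_right _ (List.mem_append_right _ hv)))
  have s := h.sys he hs hd
  refine ⟨s, h.AB, h.wide s hp, fun ρ hρ L R r => ?_⟩
  have ok := h.its_ok s hd
  have val := s.val h.wf h.A0 h.B0 h.AB
  have elen : len T A B x = 2 * (∑ p ∈ range T.atoms.length, x.m p
      + ∑ j ∈ range (T.n + 1), rad T A B j * (x.η (j + 1) - x.η j)) := by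
    rw [len, sum_add_distrib, val]
  have d2 := h.d2 ok hbI
  have hb' := hbI
  unfold badI at hb'
  simp only [List.forall_mem_cons] at hb'
  obtain ⟨-, b1, b2, b3, b4, b5, -⟩ := hb'
  rw [sub, num_real, h.hA] at b1
  rw [sub, num_real, h.hB] at b2
  rw [sub, num_real, zm_real, good_arc h, good_sum, h.m, Tmpl.na] at b3
  rw [num_real, le_div_iff₀ (by norm_num), zero_mul] at b4 b5
  have b4' : (bd.a : ℝ) + bd.b ≤ 2400 := by
    push_cast at b4
    linarith
  have b5' : bd.g ≤ 2880 := by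
    have : (bd.g : ℝ) ≤ 2880 := by
      push_cast at b5
      linarith
    exact_mod_cast this
  have hA : A ≤ ang bd.a := by linarith [good_ang bd.a]
  have hB : B ≤ ang bd.b := by linarith [good_ang bd.b]
  have hab : ang bd.a + ang bd.b ≤ 5 * π / 6 := by
    have := mul_le_mul_of_nonneg_right b4' (show 0 ≤ π / 2880 by positivity)
    unfold ang
    linarith
  have hv : len T A B x ≤ bd.U / 4294967296 := by
    rw [elen]
    push_cast at b3
    linarith
  refine BadOK.use hb hA hB hab (ang_nonneg bd.g) le_rfl (ang_le b5') hv hρ r fun p q => ?_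
  rw [mul_div_assoc] at d2
  have phi := h.phi s hs hd
  have bal := (h.nu_cos s ok).le
  have l1 := half_le ok (ang_nonneg bd.g) (ang_le b5') phi bal d2 L p
  have l2 := half_le ok (ang_nonneg bd.g) (ang_le b5') phi bal d2 R q
  obtain ⟨r1, r2⟩ := r A B le_rfl le_rfl (by linarith)
  have l3 := h.rows s ok r1 r2
  rw [elen]
  linarith

theorem Good.result {T : Tmpl} {A B h : ℝ} {x : Sol} (g : Good T A B x) {X Y Z : ℂ}
    (hT : AffineIndependent ℝ ![X, Y, Z]) (hA : A = ∠ Y X Z) (hB : B = ∠ X Y Z)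
    (hh : h = dist X Z * sin A) :
    escapeLength (convexHull ℝ {X, Y, Z}) = ENNReal.ofReal (len T A B x * h) ∧
    escapeLength (interior (convexHull ℝ {X, Y, Z})) = ENNReal.ofReal (len T A B x * h) ∧
    IsEscapePath (interior (convexHull ℝ {X, Y, Z})) (curve T A B x h) ∧
    pathLength (curve T A B x h) = ENNReal.ofReal (len T A B x * h) ∧
    ∀ w, h < w → IsEscapePath (convexHull ℝ {X, Y, Z}) (curve T A B x w) := by
  have s1 : Std X Y Z h A B := by rw [hh, hA, hB]; exact std_of_indep hT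
  have hT' : AffineIndependent ℝ ![Y, X, Z] := by
    rw [affineIndependent_iff_not_collinear_set] at hT ⊢
    rwa [Set.insert_comm]
  have s2 : Std Y X Z h B A := by
    have := std_of_indep hT'
    have e2 : dist Y Z * sin (∠ X Y Z) = h := by
      have l2 := law_sin Y X Z
      rw [angle_comm Z Y X, dist_comm Z Y] at l2
      rw [hh, hA]
      linarith
    rwa [e2, ← hA, ← hB] at this
  have sA := s1.sA
  have sB := s1.sB
  have A0 : 0 < A := by
    rcases eq_or_lt_of_le (hA ▸ angle_nonneg Y X Z : 0 ≤ A) with c | c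
    · rw [← c, sin_zero] at sA; exact absurd sA (lt_irrefl _)
    · exact c
  have B0 : 0 < B := by
    rcases eq_or_lt_of_le (hB ▸ angle_nonneg X Y Z : 0 ≤ B) with c | c
    · rw [← c, sin_zero] at sB; exact absurd sB (lt_irrefl _)
    · exact c
  have hπ := g.AB
  have hσ : 0 < sin (A + B) := sin_pos_of_pos_of_lt_pi (by linarith) hπ
  have hs := g.sys.sgn
  have hr := rad_nonneg T A0 B0 hπ
  have hv : 0 ≤ len T A B x := by
    refine mul_nonneg zero_le_two (sum_nonneg fun j hj => ?_)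
    obtain ⟨k1, k2⟩ := hs j (Nat.lt_succ_iff.1 (mem_range.1 hj))
    exact add_nonneg k1 (mul_nonneg (hr j) (sub_nonneg.2 k2))
  have hpos := s1.hpos
  have low : ∀ C, IsEscapePath (interior (convexHull ℝ {X, Y, Z})) C →
      ENNReal.ofReal (len T A B x * h) ≤ pathLength C := fun C hC =>
    lower_of_rows A0 B0 hv hC.1 (s1.esc hC) (s2.esc (by rwa [Set.insert_comm])) g.low
  have mono : ∀ C, IsEscapePath (convexHull ℝ {X, Y, Z}) C →
      IsEscapePath (interior (convexHull ℝ {X, Y, Z})) C := fun C hC =>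
    ⟨hC.1, fun P hP g hg hin => hC.2 P (interior_subset hP) g hg
      fun t ht => interior_subset (hin t ht)⟩
  have op : IsEscapePath (interior (convexHull ℝ {X, Y, Z})) (curve T A B x h) :=
    s1.esc_open hσ (fun _ hp => hp.mirror) g.wide (curve_len hs hr hpos.le).1
      fun _ hp => hp.curve h
  have cls : ∀ w, h < w → IsEscapePath (convexHull ℝ {X, Y, Z}) (curve T A B x w) :=
    fun w hw => s1.esc_closed hσ (fun _ hp => hp.mirror) g.wide
      (curve_len hs hr (hpos.trans hw).le).1 hw fun _ hp => hp.curve w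
  refine ⟨le_antisymm ?_ (le_iInf₂ fun C hC => low C (mono C hC)),
    le_antisymm ((iInf₂_le _ op).trans (curve_len hs hr hpos.le).2) (le_iInf₂ low),
    op, le_antisymm (curve_len hs hr hpos.le).2 (low _ op), cls⟩
  refine ENNReal.le_of_forall_pos_le_add fun ε hε _ => ?_
  have e0 : (0 : ℝ) < ε / (len T A B x + 1) := div_pos (by exact_mod_cast hε) (by linarith)
  refine ((iInf₂_le _ (cls (h + ε / (len T A B x + 1)) (by linarith))).trans
    (curve_len hs hr (by linarith)).2).trans ?_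
  rw [mul_add, ENNReal.ofReal_add (mul_nonneg hv hpos.le) (by positivity)]
  refine add_le_add le_rfl ?_
  rw [← ENNReal.ofReal_coe_nnreal]
  refine ENNReal.ofReal_le_ofReal ?_
  have e1 : (len T A B x + 1) * (ε / (len T A B x + 1)) = ε := mul_div_cancel₀ _ (by linarith)
  nlinarith

end Pool.Agent.P.MP_d76e6a_co
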