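import Pool.Agent.P.MP_456758_an.Brouwer

/-!
The Poincare-Miranda theorem on a cube.
-/

namespace Pool.Agent.P.MP_d76e6a_co

theorem miranda_cube {n : ℕ} (F : Fin n → (Fin n → ℝ) → ℝ) (hF : ∀ k, Continuous (F k))
    (h : ∀ k ξ, (∀ i, |ξ i| ≤ 1) → (ξ k = 1 → 0 ≤ F k ξ) ∧ (ξ k = -1 → F k ξ ≤ 0)) :
    ∃ ξ, (∀ i, |ξ i| ≤ 1) ∧ ∀ k, F k ξ = 0 := by
  let c : (Fin n → ℝ) → Fin n → ℝ := fun x k => max (-1) (min (x k) 1)
  have hc : Continuous c := continuous_pi fun k => by simp only [c]; fun_prop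
  have hc1 : ∀ x i, |c x i| ≤ 1 := fun x i =>
    abs_le.2 ⟨le_max_left _ _, max_le (by norm_num) (min_le_right _ _)⟩
  let t : (Fin n → ℝ) → ℝ := fun x => min 1 (max 0 (‖x‖ - 1))
  have ht : Continuous t := by simp only [t]; fun_prop
  have ht0 : ∀ x, 0 ≤ t x := fun x => le_min zero_le_one (le_max_left _ _)
  have ht1 : ∀ x, t x ≤ 1 := fun x => min_le_left _ _
  obtain ⟨x, hx⟩ := Pool.Agent.P.MP_456758_an.miranda
    (G := fun x k => t x * x k + (1 - t x) * (F k (c x) + (x k - c x k)))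
    (continuous_pi fun k => (ht.mul (continuous_apply k)).add ((continuous_const.sub ht).mul
      (((hF k).comp hc).add ((continuous_apply k).sub ((continuous_apply k).comp hc)))))
    (R := 2) two_pos fun x hx => by
      have e : t x = 1 := min_eq_left (le_max_of_le_right (by linarith))
      funext k
      simp [e]
  have hk : ∀ k, t x * x k + (1 - t x) * (F k (c x) + (x k - c x k)) = 0 := fun k => congrFun hx k
  have hb : ∀ i, |x i| ≤ 1 := by
    intro i
    have a0 := ht0 x
    have a1 := ht1 x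
    have a2 := hk i
    refine abs_le.2 ⟨not_lt.1 fun hi => ?_, not_lt.1 fun hi => ?_⟩
    · have e : c x i = -1 := max_eq_left (min_le_of_left_le hi.le)
      have a3 := (h i (c x) (hc1 x)).2 e
      rw [e] at a2
      nlinarith [mul_nonneg (sub_nonneg.2 a1) (neg_nonneg.2 a3)]
    · have e : c x i = 1 := by
        simp only [c]; rw [min_eq_right hi.le]; norm_num
      have a3 := (h i (c x) (hc1 x)).1 e
      rw [e] at a2
      nlinarith [mul_nonneg (sub_nonneg.2 a1) a3]
  have e1 : c x = x := funext fun i => by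
    simp only [c]
    rw [min_eq_left (abs_le.1 (hb i)).2, max_eq_right (abs_le.1 (hb i)).1]
  have e2 : t x = 0 := by
    have : ‖x‖ ≤ 1 := (pi_norm_le_iff_of_nonneg zero_le_one).2 hb
    simp only [t]
    rw [max_eq_left (by linarith)]; norm_num
  refine ⟨x, hb, fun k => ?_⟩
  have := hk k
  rw [e1, e2] at this
  simpa using this

end Pool.Agent.P.MP_d76e6a_co
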