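import Pool.Agent.P.MP_d76e6a_co.XChk
import Pool.Agent.P.MP_d76e6a_co.XGood
import Pool.Agent.P.MP_d76e6a_co.XMir

/-!
Soundness of the checker.
-/

namespace Pool.Agent.P.MP_d76e6a_co

open Real

theorem clo_PT (N : ℕ) (E : Env) : Clo fun (t : PT N) (u : ℝ) => t.Mem E u where
  add h1 h2 := PT.add_mem h1 h2
  neg h := PT.neg_mem h
  mul h1 h2 := PT.mul_mem h1 h2
  num n := PT.num_mem E n
  zm k _ _ h := PT.zm_mem k h
  pi := PT.pi_mem E
  sc1 h := (PT.sc_mem h).1
  sc2 h := (PT.sc_mem h).2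
  ps h := PT.ps_mem h

theorem clo_P0 (E : Env) : Clo fun (t : P0) (u : ℝ) => t.Mem E u where
  add h1 h2 := P0.add_mem h1 h2
  neg h := P0.neg_mem h
  mul h1 h2 := P0.mul_mem h1 h2
  num n := P0.num_mem E n
  zm k _ _ h := P0.zm_mem k h
  pi := P0.pi_mem E
  sc1 h := (P0.sc_mem h).1
  sc2 h := (P0.sc_mem h).2
  ps h := P0.ps_mem h

theorem cell_fN {β : Type} (n : ℕ) (k : ℕ → β) : fN n k = k n := by cases n <;> rfl

theorem cell_fI {β : Type} (n : ℤ) (k : ℤ → β) : fI n k = k n := by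
  cases n with
  | ofNat a => exact cell_fN a fun a => k (Int.ofNat a)
  | negSucc a => exact cell_fN a fun a => k (Int.negSucc a)

theorem cell_fB {β : Type} (b : Bool) (k : Bool → β) : fB b k = k b := by cases b <;> rfl

theorem cell_fT {β : Type} {N : ℕ} (t : PT N) (k : PT N → β) : fT t k = k t := by
  simp only [fT, cell_fN]

theorem cell_fO {β : Type} (t : P0) (k : P0 → β) : fO t k = k t := by
  simp only [fO, cell_fN]

theorem cell_fP {β α : Type} {f : α → (α → β) → β} (hf : ∀ a k, f a k = k a) (p : α × α)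
    (k : α × α → β) : fP f p k = k p := by
  simp only [fP, hf]

theorem cell_fL {β γ : Type} {f : γ → (γ → β) → β} (hf : ∀ a k, f a k = k a) (l : List γ)
    (k : List γ → β) : fL f l k = k l := by
  induction l generalizing k with
  | nil => rfl
  | cons a l ih =>
    change f a (fun t => fL f l fun l => k (t :: l)) = _
    rw [hf, ih]

theorem cell_fAE {β : Type} (x : AE) (k : AE → β) : fAE x k = k x := by
  simp only [fAE, cell_fN, cell_fI]

theorem cell_fC {β α : Type} {f : α → (α → β) → β} (hf : ∀ a k, f a k = k a) (x : Con α)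
    (k : Con α → β) : fC f x k = k x := by
  simp only [fC, cell_fN, cell_fB, cell_fAE, hf, cell_fP hf]

theorem cell_nth {γ : Type} (l : List γ) (j : ℕ) (d : γ) : nth l j d = l.getD j d := by
  induction l generalizing j with
  | nil => rfl
  | cons a l ih =>
    cases j with
    | zero => rfl
    | succ j => exact ih j

theorem memo_eq {β γ : Type} {f : γ → (γ → β) → β} (hf : ∀ a k, f a k = k a) (n : ℕ) (g : ℕ → γ)
    (k : (ℕ → γ) → β) : memo f n g k = k g := by
  unfold memo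
  rw [cell_fL hf]
  congr 1
  funext j
  rw [cell_nth]
  by_cases hj : j < n
  · rw [List.getD_eq_getElem _ _ (by simpa using hj)]
    simp
  · rw [List.getD_eq_default _ _ (by simpa using hj)]

theorem cfgK_eq {β α : Type} [Add α] [Neg α] [Mul α] [Ar α] {f : α → (α → β) → β}
    (hf : ∀ a k, f a k = k a) (T : Tmpl) (A B wA wB r1 : α) (z : ℕ → α) (k : Cfg α → β) :
    cfgK f T A B wA wB r1 z k = k (cfg T A B wA wB r1 z) := by
  unfold cfgK
  rw [memo_eq hf, memo_eq hf, memo_eq (cell_fP hf), memo_eq (cell_fP hf), cell_fP hf, cell_fP hf]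
  rfl

theorem eqs_length {α : Type} [Add α] [Neg α] [Mul α] [Ar α] (T : Tmpl) (c : Cfg α)
    (C : List (Con α)) : (eqs T c C).length = T.N := by
  unfold eqs Tmpl.N
  cases T.top <;> simp [List.length_flatMap, mul_comm, add_assoc]

/-- Pointwise arithmetic of real functions. -/
noncomputable abbrev cell_ar (X : Type) : Ar (X → ℝ) where
  num n := fun _ => Ar.num n
  zm k f := fun x => Ar.zm k (f x)
  pi := fun _ => Ar.pi
  sc f := (fun x => sin (f x), fun x => cos (f x))
  ps f := fun x => max (f x) 0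

theorem cell_clo {X : Type} [TopologicalSpace X] (ξ : X) :
    @Clo (X → ℝ) ℝ _ _ _ (cell_ar X) _ _ _ _ fun f v => Continuous f ∧ f ξ = v :=
  @Clo.mk (X → ℝ) ℝ _ _ _ (cell_ar X) _ _ _ _ _
    (fun h1 h2 => ⟨h1.1.add h2.1, by rw [← h1.2, ← h2.2]; rfl⟩)
    (fun h => ⟨h.1.neg, by rw [← h.2]; rfl⟩)
    (fun h1 h2 => ⟨h1.1.mul h2.1, by rw [← h1.2, ← h2.2]; rfl⟩)
    (fun _ => ⟨continuous_const, rfl⟩)
    (fun _ _ _ h => ⟨continuous_const.mul h.1, by rw [← h.2]; rfl⟩)
    ⟨continuous_const, rfl⟩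
    (fun h => ⟨continuous_sin.comp h.1, by rw [← h.2]; rfl⟩)
    (fun h => ⟨continuous_cos.comp h.1, by rw [← h.2]; rfl⟩)
    (fun h => ⟨h.1.max continuous_const, by rw [← h.2]; rfl⟩)

theorem cell_getD {α β : Type} {R : α → β → Prop} {l : List α} {m : List β}
    (h : List.Forall₂ R l m) {a : α} {b : β} (hab : R a b) (k : ℕ) :
    R (l.getD k a) (m.getD k b) := by
  induction h generalizing k with
  | nil => exact hab
  | cons h1 _ ih =>
    cases k with
    | zero => exact h1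
    | succ k => exact ih k

/-- The left-hand sides of the equations depend continuously on the unknowns. -/
theorem eqs_cont (T : Tmpl) (pl : Plan) (A B wA wB r1 : ℝ) {X : Type} [TopologicalSpace X]
    {z : ℕ → X → ℝ} (hz : ∀ i, Continuous (z i)) (k : ℕ) : Continuous fun ξ : X =>
      (eqs T (cfg T A B wA wB r1 fun i => z i ξ)
        (cons T pl (cfg T A B wA wB r1 fun i => z i ξ))).getD k 0 := by
  let _ := cell_ar X
  have key : ∀ ξ : X, Continuous ((eqs T (cfg T (fun _ => A) (fun _ => B) (fun _ => wA)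
      (fun _ => wB) (fun _ => r1) z) (cons T pl (cfg T (fun _ => A) (fun _ => B) (fun _ => wA)
      (fun _ => wB) (fun _ => r1) z))).getD k fun _ : X => (0 : ℝ)) ∧
      ((eqs T (cfg T (fun _ => A) (fun _ => B) (fun _ => wA)
      (fun _ => wB) (fun _ => r1) z) (cons T pl (cfg T (fun _ => A) (fun _ => B) (fun _ => wA)
      (fun _ => wB) (fun _ => r1) z))).getD k fun _ : X => (0 : ℝ)) ξ =
      (eqs T (cfg T A B wA wB r1 fun i => z i ξ)
        (cons T pl (cfg T A B wA wB r1 fun i => z i ξ))).getD k 0 := by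
    intro ξ
    have hc := cfg_rel (cell_clo ξ) T (A := fun _ => A) (B := fun _ => B) (wA := fun _ => wA)
      (wB := fun _ => wB) (r1 := fun _ => r1) (z := z) (z' := fun i => z i ξ)
      ⟨continuous_const, rfl⟩ ⟨continuous_const, rfl⟩ ⟨continuous_const, rfl⟩
      ⟨continuous_const, rfl⟩ ⟨continuous_const, rfl⟩ fun i => ⟨hz i, rfl⟩
    exact cell_getD (eqs_rel (cell_clo ξ) T hc (cons_rel (cell_clo ξ) T pl hc))
      ⟨continuous_const, rfl⟩ k
  rw [continuous_iff_continuousAt]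
  intro ξ
  rw [← funext fun ξ => (key ξ).2]
  exact (key ξ).1.continuousAt

theorem cell_all2 {γ : Type} (d : ℕ → γ → Bool) (P : ℕ → ℝ → Prop) {R : γ → ℝ → Prop}
    (hR : ∀ a u k, R a u → d k a = true → P k u) {l : List γ} {m : List ℝ}
    (h : List.Forall₂ R l m) {k : ℕ}
    (hd : List.rec (motive := fun _ => ℕ → Bool) (fun _ => true)
      (fun e _ ih k => Bool.rec false (ih (Nat.succ k)) (d k e)) l k = true)
    {i : ℕ} (hi : i < l.length) : P (k + i) (m.getD i 0) := by
  induction h generalizing k i with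
  | nil => simp at hi
  | @cons a b l m h1 _ ih =>
    dsimp only at hd
    cases ha : d k a with
    | false => rw [ha] at hd; exact absurd hd (by simp)
    | true =>
      rw [ha] at hd
      cases i with
      | zero => exact hR _ _ _ h1 ha
      | succ i =>
        rw [show k + (i + 1) = Nat.succ k + i by omega]
        exact ih hd (by simpa using hi)

theorem cell_dom {N : ℕ} (hN : N ≤ 1000) {E : Env} {l : List (PT N)} {m : List ℝ}
    (h : List.Forall₂ (fun (t : PT N) (u : ℝ) => t.Mem E u) l m) {k : ℕ}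
    (hd : allDom l k = true) {i : ℕ} (hi : i < l.length) (hk : k + i < N) :
    (E.xi (k + i) = 1 → 0 ≤ m.getD i 0) ∧ (E.xi (k + i) = -1 → m.getD i 0 ≤ 0) :=
  cell_all2 PT.dom
    (fun k u => k < N → (E.xi k = 1 → 0 ≤ u) ∧ (E.xi k = -1 → u ≤ 0))
    (fun _ _ _ h1 h2 h3 => PT.dom_sound hN h3 h2 h1) h hd hi hk

theorem cell_all1 {γ : Type} (d : γ → Bool) {R : γ → ℝ → Prop}
    (hR : ∀ a u, R a u → d a = true → 0 ≤ u) {l : List γ} {m : List ℝ} (h : List.Forall₂ R l m)
    (hd : List.rec (motive := fun _ => Bool) true (fun e _ ih => Bool.rec false ih (d e)) l = true) :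
    ∀ v ∈ m, 0 ≤ v := by
  induction h with
  | nil => simp
  | @cons a b l m h1 _ ih =>
    dsimp only at hd
    cases ha : d a with
    | false => rw [ha] at hd; exact absurd hd (by simp)
    | true =>
      rw [ha] at hd
      intro v hv
      rcases List.mem_cons.1 hv with rfl | hv
      · exact hR _ _ h1 ha
      · exact ih hd v hv

theorem cell_nn {E : Env} {l : List P0} {m : List ℝ}
    (h : List.Forall₂ (fun (t : P0) (u : ℝ) => t.Mem E u) l m) (hd : allNN l = true) :
    ∀ v ∈ m, 0 ≤ v :=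
  cell_all1 P0.nonneg (fun _ _ h1 h2 => P0.nonneg_sound h2 h1) h hd

theorem cell_AB {T : Tmpl} {pl : Plan} {bd : Bad} {c : Cfg ℝ} {C : List (Con ℝ)}
    (hi : ∀ v ∈ ineqs T pl bd c C, 0 ≤ v) : c.A + c.B < π := by
  have a1 := hi (sub (Ar.num (bd.a * 4685082)) c.A) (by simp [ineqs, badI])
  have a2 := hi (sub (Ar.num (bd.b * 4685082)) c.B) (by simp [ineqs, badI])
  have a3 := hi (Ar.num (2400 - bd.a - bd.b)) (by simp [ineqs, badI])
  simp only [sub, num_real] at a1 a2 a3
  push_cast at a1 a2 a3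
  linarith [pi_gt_three]

theorem cellOK_sound {T : Tmpl} {pl : Plan} {bd : Bad} {AT BT : PT 0} {n : ℕ} (hT : T.wf = true)
    (hN : T.N ≤ 1000) (hb : bd.Ok) (h : cellOK T T.N pl bd AT BT n = true) {e1 e2 A B : ℝ}
    (h1 : |e1| ≤ 1) (h2 : |e2| ≤ 1)
    (hm : ∀ E : Env, E.e1 = e1 → E.e2 = e2 → AT.Mem E A ∧ BT.Mem E B) (hA : 0 < A) (hB : 0 < B) :
    ∃ x, Good T A B x := by
  unfold cellOK at h
  simp only [cell_fT, cell_fO, memo_eq cell_fT, memo_eq cell_fO, cfgK_eq cell_fT, cfgK_eq cell_fO,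
    cell_fL (cell_fC cell_fT), cell_fL (cell_fC cell_fO), Bool.and_eq_true] at h
  obtain ⟨⟨o1, o2⟩, hd, hn⟩ := h
  choose f hf hfm using fun i =>
    PT.raw_mem T.N (decP (decZ T.N n i)) (decX T.N (Nat.mod n 32) (decZ T.N n i)) e1 e2
  have hw : ∀ E : Env, E.e1 = e1 → E.e2 = e2 →
      ((Ar.sc BT).1 * (Ar.sc (AT + BT)).1.inv).Mem E (wt A B 1) ∧
      ((Ar.sc AT).1 * (Ar.sc (AT + BT)).1.inv).Mem E (wt A B 2) ∧
      ((Ar.sc (AT + BT)).1 * (Ar.sc BT).1.inv).Mem E (1 / wt A B 1) := by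
    intro E q1 q2
    obtain ⟨mA, mB⟩ := hm E q1 q2
    have sS := (PT.sc_mem (PT.add_mem mA mB)).1
    have sA := (PT.sc_mem mA).1
    have sB := (PT.sc_mem mB).1
    have iS := (PT.inv_mem (Nat.zero_le _) o1 sS).2
    have iB := (PT.inv_mem (Nat.zero_le _) o2 sB).2
    have w1 : wt A B 1 = sin B * (1 / sin (A + B)) := by simp [wt, div_eq_mul_inv]
    have w2 : wt A B 2 = sin A * (1 / sin (A + B)) := by simp [wt, div_eq_mul_inv]
    have w3 : 1 / wt A B 1 = sin (A + B) * (1 / sin B) := by simp [wt, div_eq_mul_inv]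
    rw [w3, w2, w1]
    exact ⟨PT.mul_mem sB iS, PT.mul_mem sA iS, PT.mul_mem sS iB⟩
  let ext : (Fin T.N → ℝ) → ℕ → ℝ := fun ξ i => if h : i < T.N then ξ ⟨i, h⟩ else 0
  have hext : Continuous ext := continuous_pi fun i => by
    by_cases hi : i < T.N
    · simp only [ext, dif_pos hi]; exact continuous_apply _
    · simp only [ext, dif_neg hi]; exact continuous_const
  let env : (ξ : Fin T.N → ℝ) → (∀ i, |ξ i| ≤ 1) → Env := fun ξ hξ =>
    ⟨e1, e2, ext ξ, h1, h2, fun i => by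
      by_cases hi : i < T.N
      · simp only [ext, dif_pos hi]; exact hξ _
      · simp only [ext, dif_neg hi]; simp⟩
  let cf : (Fin T.N → ℝ) → Cfg ℝ := fun ξ =>
    cfg T A B (wt A B 1) (wt A B 2) (1 / wt A B 1) fun i => f i (ext ξ)
  obtain ⟨ξ, hξ, hz⟩ := miranda_cube
    (fun (k : Fin T.N) ξ => (eqs T (cf ξ) (cons T pl (cf ξ))).getD k 0)
    (fun k => eqs_cont T pl A B _ _ _ (z := fun i ξ => f i (ext ξ))
      (fun i => (hf i).comp hext) k)
    fun k ξ hξ => by
      obtain ⟨mA, mB⟩ := hm (env ξ hξ) rfl rfl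
      obtain ⟨m1, m2, m3⟩ := hw (env ξ hξ) rfl rfl
      have cl := clo_PT T.N (env ξ hξ)
      have hc := cfg_rel cl T (PT.lift_mem mA) (PT.lift_mem mB) (PT.lift_mem m1) (PT.lift_mem m2)
        (PT.lift_mem m3) (z := zT T.N n) (z' := fun i => f i (ext ξ))
        fun i => hfm i (env ξ hξ) rfl rfl
      have := cell_dom hN (eqs_rel cl T hc (cons_rel cl T pl hc)) hd (i := k)
        (by rw [eqs_length]; exact k.2) (by rw [zero_add]; exact k.2)
      have e : (env ξ hξ).xi (0 + k) = ξ k := by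
        rw [zero_add]
        exact dif_pos k.2
      rw [e] at this
      exact this
  obtain ⟨mA, mB⟩ := hm (env ξ hξ) rfl rfl
  obtain ⟨m1, m2, m3⟩ := hw (env ξ hξ) rfl rfl
  have cl := clo_P0 (env ξ hξ)
  have hc := cfg_rel cl T (PT.low_mem (Nat.zero_le _) mA) (PT.low_mem (Nat.zero_le _) mB)
    (PT.low_mem (Nat.zero_le _) m1) (PT.low_mem (Nat.zero_le _) m2)
    (PT.low_mem (Nat.zero_le _) m3) (z := fun i => (zT T.N n i).low) (z' := fun i => f i (ext ξ))
    fun i => PT.low_mem hN (hfm i (env ξ hξ) rfl rfl)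
  have hi := cell_nn (ineqs_rel cl T pl bd hc (cons_rel cl T pl hc)) hn
  have hAB : A + B < π := cell_AB hi
  refine ⟨_, (sem_cfg hT hA hB hAB fun i => f i (ext ξ)).good (pl := pl) ?_ hi hb⟩
  intro v hv
  obtain ⟨i, hi', rfl⟩ := List.getElem_of_mem hv
  have := hz ⟨i, by rwa [eqs_length] at hi'⟩
  rwa [List.getD_eq_getElem _ _ hi'] at this

end Pool.Agent.P.MP_d76e6a_co
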