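import Pool.Agent.P.MP_d76e6a_co.XPoly

/-!
Relations between two arithmetics are preserved by the equations and inequalities.
-/

namespace Pool.Agent.P.MP_d76e6a_co

open Ar

variable {α β : Type} [Add α] [Neg α] [Mul α] [Ar α] [Add β] [Neg β] [Mul β] [Ar β]

structure Clo (R : α → β → Prop) : Prop where
  add : ∀ {a b x y}, R a x → R b y → R (a + b) (x + y)
  neg : ∀ {a x}, R a x → R (-a) (-x)
  mul : ∀ {a b x y}, R a x → R b y → R (a * b) (x * y)
  num : ∀ n, R (num n) (num n)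
  zm : ∀ k {a x}, R a x → R (zm k a) (zm k x)
  pi : R pi pi
  sc1 : ∀ {a x}, R a x → R (sc a).1 (sc x).1
  sc2 : ∀ {a x}, R a x → R (sc a).2 (sc x).2
  ps : ∀ {a x}, R a x → R (ps a) (ps x)

def R2 (R : α → β → Prop) (p : α × α) (q : β × β) : Prop := R p.1 q.1 ∧ R p.2 q.2

structure CfgR (R : α → β → Prop) (c : Cfg α) (d : Cfg β) : Prop where
  A : R c.A d.A
  B : R c.B d.B
  wA : R c.wA d.wA
  wB : R c.wB d.wB
  r1 : R c.r1 d.r1
  eta : ∀ j, R (c.eta j) (d.eta j)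
  l : ∀ j, R (c.l j) (d.l j)
  m : ∀ j, R (c.m j) (d.m j)
  U : ∀ j, R2 R (c.U j) (d.U j)
  X : ∀ j, R2 R (c.X j) (d.X j)
  rot1 : R2 R c.rot1 d.rot1
  rot2 : R2 R c.rot2 d.rot2

structure ConR (R : α → β → Prop) (x : Con α) (y : Con β) : Prop where
  z : x.z = y.z
  band : x.band = y.band
  lo : x.lo = y.lo
  hi : x.hi = y.hi
  d : R x.d y.d
  v : R2 R x.v y.v

variable {R : α → β → Prop}

theorem rel_cnd {γ δ : Type} {S : γ → δ → Prop} (b : Bool) {x y : γ} {x' y' : δ}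
    (h1 : S x x') (h2 : S y y') : S (cnd b x y) (cnd b x' y') := by
  cases b
  · exact h2
  · exact h1

theorem rel_sub (h : Clo R) {a b : α} {x y : β} (h1 : R a x) (h2 : R b y) :
    R (sub a b) (sub x y) := h.add h1 (h.neg h2)

theorem rel_sc (h : Clo R) {a : α} {x : β} (h1 : R a x) : R2 R (sc a) (sc x) :=
  ⟨h.sc1 h1, h.sc2 h1⟩

theorem rel_vadd (h : Clo R) {p q : α × α} {p' q' : β × β} (h1 : R2 R p p') (h2 : R2 R q q') :
    R2 R (vadd p q) (vadd p' q') := ⟨h.add h1.1 h2.1, h.add h1.2 h2.2⟩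

theorem rel_vsub (h : Clo R) {p q : α × α} {p' q' : β × β} (h1 : R2 R p p') (h2 : R2 R q q') :
    R2 R (vsub p q) (vsub p' q') := ⟨rel_sub h h1.1 h2.1, rel_sub h h1.2 h2.2⟩

theorem rel_vsm (h : Clo R) {a : α} {x : β} {p : α × α} {p' : β × β} (h1 : R a x)
    (h2 : R2 R p p') : R2 R (vsm a p) (vsm x p') := ⟨h.mul h1 h2.1, h.mul h1 h2.2⟩

theorem rel_vmul (h : Clo R) {p q : α × α} {p' q' : β × β} (h1 : R2 R p p') (h2 : R2 R q q') :
    R2 R (vmul p q) (vmul p' q') :=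
  ⟨rel_sub h (h.mul h1.1 h2.1) (h.mul h1.2 h2.2), h.add (h.mul h1.1 h2.2) (h.mul h1.2 h2.1)⟩

theorem rel_vdot (h : Clo R) {p q : α × α} {p' q' : β × β} (h1 : R2 R p p') (h2 : R2 R q q') :
    R (vdot p q) (vdot p' q') := h.add (h.mul h1.1 h2.1) (h.mul h1.2 h2.2)

theorem rel_vt (h : Clo R) {p : α × α} {p' : β × β} (h1 : R2 R p p') : R2 R (vt p) (vt p') :=
  ⟨h1.2, h.neg h1.1⟩

theorem rel_lsum (h : Clo R) {l : List α} {l' : List β} (hl : List.Forall₂ R l l') :
    R (lsum l) (lsum l') := by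
  induction hl with
  | nil => exact h.num 0
  | cons h1 _ ih => exact h.add h1 ih

theorem rel_map {γ δ ι : Type} {S : γ → δ → Prop} (l : List ι) {f : ι → γ} {g : ι → δ}
    (hfg : ∀ i, S (f i) (g i)) : List.Forall₂ S (l.map f) (l.map g) := by
  induction l with
  | nil => exact .nil
  | cons i l ih => exact .cons (hfg i) ih

theorem rel_append {γ δ : Type} {S : γ → δ → Prop} {a b : List γ} {x y : List δ}
    (h1 : List.Forall₂ S a x) (h2 : List.Forall₂ S b y) : List.Forall₂ S (a ++ b) (x ++ y) := by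
  induction h1 with
  | nil => exact h2
  | cons h1 _ ih => exact .cons h1 ih

theorem rel_flatMap {γ δ ι : Type} {S : γ → δ → Prop} (l : List ι) {f : ι → List γ}
    {g : ι → List δ} (hfg : ∀ i, List.Forall₂ S (f i) (g i)) :
    List.Forall₂ S (l.flatMap f) (l.flatMap g) := by
  induction l with
  | nil => exact .nil
  | cons i l ih =>
    rw [List.flatMap_cons, List.flatMap_cons]
    exact rel_append (hfg i) ih

omit [Add α] [Neg α] [Mul α] [Ar α] [Add β] [Neg β] [Mul β] [Ar β] in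
theorem rel_filterMap {C : List (Con α)} {D : List (Con β)} (hC : List.Forall₂ (ConR R) C D)
    (z : ℕ) {f : Con α → α} {g : Con β → β} (hfg : ∀ x y, ConR R x y → R (f x) (g y)) :
    List.Forall₂ R ((C.filter fun x => Nat.beq x.z z).map f)
      ((D.filter fun x => Nat.beq x.z z).map g) := by
  induction hC with
  | nil => exact .nil
  | @cons x y C D h1 _ ih =>
    rw [List.filter_cons, List.filter_cons, h1.z]
    split
    · exact .cons (hfg x y h1) ih
    · exact ih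

theorem rel_ae (h : Clo R) {c : Cfg α} {d : Cfg β} (hc : CfgR R c d) (x : AE) :
    R (ae c x) (ae d x) :=
  h.add (h.zm _ (hc.eta _)) (h.add (h.zm _ h.pi) (h.add (h.zm _ hc.A)
    (h.add (h.zm _ hc.B) (h.num _))))

theorem rel_dif (h : Clo R) {c : Cfg α} {d : Cfg β} (hc : CfgR R c d) (x y : AE) :
    R (dif c x y) (dif d x y) :=
  rel_cnd _ (rel_ae h hc _) (h.add (rel_ae h hc _) (h.zm _ (hc.eta _)))

theorem rel_wm (h : Clo R) {c : Cfg α} {d : Cfg β} (hc : CfgR R c d) (r : ℕ) {x : α} {y : β}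
    (hx : R x y) : R (wm c r x) (wm d r y) :=
  rel_cnd _ hx (rel_cnd _ (h.mul hc.wA hx) (h.mul hc.wB hx))

theorem rel_rm (h : Clo R) {a : α} {x : β} (ha : R a x) (r : ℕ) {p : α × α} {p' : β × β}
    (hp : R2 R p p') : R2 R (rm a r p) (rm x r p') :=
  rel_cnd (S := R2 R) _ hp (rel_vsm h ha hp)

theorem rel_etaF (h : Clo R) (T : Tmpl) {z : ℕ → α} {z' : ℕ → β} (hz : ∀ i, R (z i) (z' i))
    (j : ℕ) : R (etaF T z j) (etaF T z' j) :=
  rel_cnd _ (h.num 0) (rel_cnd _ (hz _) h.pi)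

theorem rel_lF (h : Clo R) (T : Tmpl) {z : ℕ → α} {z' : ℕ → β} (hz : ∀ i, R (z i) (z' i))
    (j : ℕ) : R (lF T z j) (lF T z' j) :=
  rel_cnd _ (rel_cnd _ (hz _) (h.num 0)) (hz _)

theorem rel_XF (h : Clo R) (T : Tmpl) {r1 : α} {r1' : β} (hr : R r1 r1') {l : ℕ → α} {l' : ℕ → β}
    (hl : ∀ i, R (l i) (l' i)) {U : ℕ → α × α} {U' : ℕ → β × β} (hU : ∀ i, R2 R (U i) (U' i))
    (j : ℕ) : R2 R (XF T r1 l U j) (XF T r1' l' U' j) := by
  induction j with
  | zero => exact ⟨hl 0, h.num 0⟩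
  | succ j ih =>
    exact rel_vadd h (rel_cnd (S := R2 R) _ ih
      (rel_vadd h ih (rel_rm h hr _ (rel_vsub h (hU _) (hU _)))))
      (rel_vsm h (hl _) (rel_vt h (hU _)))

theorem rel_del (h : Clo R) {c : Cfg α} {d : Cfg β} (hc : CfgR R c d) (j : ℕ) :
    R (del c j) (del d j) := rel_sub h (hc.eta _) (hc.eta _)

theorem rel_pt0 (h : Clo R) (T : Tmpl) {c : Cfg α} {d : Cfg β} (hc : CfgR R c d) (j t : ℕ) :
    R2 R (pt0 T c j t) (pt0 T d j t) :=
  rel_cnd (S := R2 R) _ (hc.X _) (rel_vadd h (hc.X _) (rel_rm h hc.r1 _ (rel_vsub h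
    (rel_cnd (S := R2 R) _ (hc.U _)
      (rel_sc h (h.add (hc.eta _) (h.mul (h.num _) (rel_del h hc _))))) (hc.U _))))

theorem rel_pt (h : Clo R) (T : Tmpl) {c : Cfg α} {d : Cfg β} (hc : CfgR R c d) (a : Anc) :
    R2 R (pt T c a) (pt T d a) :=
  ⟨h.zm _ (rel_pt0 h T hc _ _).1, (rel_pt0 h T hc _ _).2⟩

theorem rel_Wv (h : Clo R) (T : Tmpl) {c : Cfg α} {d : Cfg β} (hc : CfgR R c d)
    (a0 a1 a2 : Anc) : R2 R (Wv T c a0 a1 a2) (Wv T d a0 a1 a2) :=
  rel_cnd (S := R2 R) _ (rel_vsub h (rel_pt h T hc _) (rel_pt h T hc _))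
    (rel_vsub h (rel_vsub h (rel_pt h T hc _) (rel_vmul h hc.rot1 (rel_pt h T hc _)))
      (rel_vmul h hc.rot2 (rel_pt h T hc _)))

theorem rel_WP (h : Clo R) (T : Tmpl) {c : Cfg α} {d : Cfg β} (hc : CfgR R c d) (P : Plc)
    (j : ℕ) : R2 R (WP T c P j) (WP T d P j) :=
  rel_cnd (S := R2 R) _ (rel_Wv h T hc _ _ _)
    (rel_cnd (S := R2 R) _ (rel_Wv h T hc _ _ _) (rel_Wv h T hc _ _ _))

theorem rel_atomC (h : Clo R) {c : Cfg α} {d : Cfg β} (hc : CfgR R c d) (z : ℕ) (e : AE)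
    {x : α} {y : β} (hx : R x y) : ConR R (atomC c z e x) (atomC d z e y) :=
  ⟨rfl, rfl, rfl, rfl, hx, rel_vsm h hx (rel_sc h (rel_ae h hc _))⟩

theorem rel_bandC (h : Clo R) {c : Cfg α} {d : Cfg β} (hc : CfgR R c d) (z : ℕ) (up : Bool)
    (e0 e1 : AE) {x : α} {y : β} (hx : R x y) :
    ConR R (bandC c z up e0 e1 x) (bandC d z up e0 e1 y) :=
  ⟨rfl, rfl, rfl, rfl, hx, rel_vsm h hx (rel_vt h
    (rel_vsub h (rel_sc h (rel_ae h hc _)) (rel_sc h (rel_ae h hc _))))⟩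

theorem rel_rho (h : Clo R) {c : Cfg α} {d : Cfg β} (hc : CfgR R c d) (r : ℕ) :
    R (rho c r) (rho d r) := rel_cnd _ (h.num _) hc.r1

theorem rel_ld (h : Clo R) (z : ℕ) {C : List (Con α)} {D : List (Con β)}
    (hC : List.Forall₂ (ConR R) C D) : R2 R (ld z C) (ld z D) := by
  induction hC with
  | nil => exact ⟨h.num 0, h.num 0⟩
  | @cons x y C D h1 _ ih =>
    rw [ld, ld, h1.z]
    exact rel_cnd (S := R2 R) _ (rel_vadd h h1.v ih) ih

theorem rel_g0 (h : Clo R) (T : Tmpl) {c : Cfg α} {d : Cfg β} (hc : CfgR R c d) :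
    R (g0 T c) (g0 T d) := rel_lsum h (rel_map _ fun _ => rel_wm h hc _ (hc.m _))

theorem rel_one (h : Clo R) : R one one := h.num _

theorem rel_eqJ (h : Clo R) (T : Tmpl) {c : Cfg α} {d : Cfg β} (hc : CfgR R c d)
    {C : List (Con α)} {D : List (Con β)} (hC : List.Forall₂ (ConR R) C D) (j : ℕ) :
    R2 R (eqJ T c C j) (eqJ T d D j) :=
  rel_cnd (S := R2 R) _
    (rel_vsub h (rel_ld h _ hC) (rel_cnd (S := R2 R) _
      (rel_vadd h (rel_vt h (hc.U _)) ⟨h.num 0, rel_g0 h T hc⟩)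
      (rel_vt h (rel_vsub h (hc.U _) (hc.U _)))))
    (rel_vsub h (rel_WP h T hc _ _) (rel_sc h (rel_ae h hc _)))

theorem rel_apexV (h : Clo R) {c : Cfg α} {d : Cfg β} (hc : CfgR R c d)
    {C : List (Con α)} {D : List (Con β)} (hC : List.Forall₂ (ConR R) C D) :
    R (apexV c C) (apexV d D) :=
  rel_sub h (rel_one h) (h.add (rel_ld h _ hC).1 (hc.U _).2)

theorem rel_term (h : Clo R) {c : Cfg α} {d : Cfg β} (hc : CfgR R c d) (g : AE) {x : Con α}
    {y : Con β} (hx : ConR R x y) : R (term c g x) (term d g y) := by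
  rw [term, term, hx.band, hx.lo, hx.hi]
  exact rel_cnd _
    (h.mul hx.d (rel_sub h (h.sc2 (h.ps (rel_dif h hc _ _))) (h.sc2 (h.ps (rel_dif h hc _ _)))))
    (h.mul hx.d (h.ps (h.sc1 (rel_dif h hc _ _))))

theorem rel_terms (h : Clo R) {c : Cfg α} {d : Cfg β} (hc : CfgR R c d) (z : ℕ) (g : AE)
    {C : List (Con α)} {D : List (Con β)} (hC : List.Forall₂ (ConR R) C D) :
    R (terms c z g C) (terms d z g D) := by
  induction hC with
  | nil => exact h.num 0
  | @cons x y C D h1 _ ih =>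
    rw [terms, terms, h1.z]
    exact rel_cnd _ (h.add (rel_term h hc g h1) ih) ih

theorem rel_psiZ (h : Clo R) (T : Tmpl) {c : Cfg α} {d : Cfg β} (hc : CfgR R c d)
    {C : List (Con α)} {D : List (Con β)} (hC : List.Forall₂ (ConR R) C D) (z : ℕ) (g : AE) :
    R (psiZ T c C z g) (psiZ T d D z g) :=
  h.add (rel_cnd _ (h.mul (rel_g0 h T hc) (h.sc1 (rel_ae h hc _))) (h.sc2 (rel_dif h hc _ _)))
    (rel_terms h hc z g hC)

theorem rel_gap (h : Clo R) {c : Cfg α} {d : Cfg β} (hc : CfgR R c d) (a b : AE) :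
    List.Forall₂ R (gap c a b) (gap d a b) :=
  .cons (rel_dif h hc _ _) (.cons (rel_sub h (h.num _) (rel_dif h hc _ _)) .nil)

theorem rel_steps (h : Clo R) (T : Tmpl) {c : Cfg α} {d : Cfg β} (hc : CfgR R c d)
    {C : List (Con α)} {D : List (Con β)} (hC : List.Forall₂ (ConR R) C D) (z : ℕ)
    (st : List (AE × AE)) : ∀ (f : Bool) (a : AE),
    List.Forall₂ R (steps T c C z f a st) (steps T d D z f a st) := by
  induction st with
  | nil =>
    intro f a
    rw [steps, steps]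
    refine .cons (rel_dif h hc _ _) (rel_filterMap hC z fun x y hx => ?_)
    rw [hx.hi]
    exact rel_dif h hc _ _
  | cons mb st ih =>
    intro f a
    obtain ⟨mu, b⟩ := mb
    rw [steps, steps]
    refine rel_append (rel_gap h hc _ _) (rel_append ?_ (rel_append ?_ (ih _ _)))
    · exact rel_cnd (S := List.Forall₂ R) _
        (.cons (rel_dif h hc _ _) (.cons (h.add (rel_dif h hc _ _) (rel_dif h hc _ _)) .nil))
        (.cons (rel_sub h (h.sc2 (rel_dif h hc _ _)) (rel_psiZ h T hc hC _ _)) .nil)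
    · exact rel_cnd (S := List.Forall₂ R) _
        (.cons (rel_dif h hc _ _) (.cons (h.add (rel_dif h hc _ _) (rel_dif h hc _ _)) .nil))
        (.cons (rel_sub h (h.sc2 (rel_dif h hc _ _)) (rel_psiZ h T hc hC _ _)) .nil)

theorem rel_zoneI (h : Clo R) (T : Tmpl) {c : Cfg α} {d : Cfg β} (hc : CfgR R c d)
    {C : List (Con α)} {D : List (Con β)} (hC : List.Forall₂ (ConR R) C D) (z : ℕ) (Z : Zone) :
    List.Forall₂ R (zoneI T c C z Z) (zoneI T d D z Z) := by
  refine rel_cnd (S := List.Forall₂ R) _ (.cons (rel_dif h hc _ _) (rel_append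
    (rel_cnd (S := List.Forall₂ R) _ (.cons (rel_sub h (h.num _) (rel_ae h hc _)) .nil) .nil)
    (rel_append (rel_filterMap hC z fun x y hx => ?_) (rel_steps h T hc hC z _ _ _))))
    (.cons (rel_del h hc _) .nil)
  rw [hx.lo]
  exact rel_dif h hc _ _

theorem rel_endI (h : Clo R) (T : Tmpl) {c : Cfg α} {d : Cfg β} (hc : CfgR R c d) (th : AE)
    (a0 a1 a2 : Anc) (k : ℤ) :
    List.Forall₂ R (endI T c th a0 a1 a2 k) (endI T d th a0 a1 a2 k) :=
  rel_cnd (S := List.Forall₂ R) _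
    (.cons (rel_sub h (rel_vdot h (rel_Wv h T hc _ _ _) (rel_sc h (rel_ae h hc _))) (rel_one h))
      .nil)
    (rel_cnd (S := List.Forall₂ R) _ .nil (.cons (h.num _) .nil))

theorem rel_primI (h : Clo R) (T : Tmpl) {c : Cfg α} {d : Cfg β} (hc : CfgR R c d)
    (iv : List Iv) : ∀ a : AE, List.Forall₂ R (primI T c a iv) (primI T d a iv) := by
  induction iv with
  | nil =>
    intro a
    rw [primI, primI]
    exact .cons (rel_dif h hc _ _) .nil
  | cons i iv ih =>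
    intro a
    obtain ⟨m, arc, a0, a1, a2, hl, hr, e⟩ := i
    rw [primI, primI]
    refine rel_append (rel_cnd (S := List.Forall₂ R) _ ?_ ?_) (ih _)
    · exact rel_cnd (S := List.Forall₂ R) _ (rel_append (rel_gap h hc _ _)
        (rel_append (rel_endI h T hc _ _ _ _ _) (rel_endI h T hc _ _ _ _ _)))
        (.cons (h.num _) .nil)
    · exact rel_cnd (S := List.Forall₂ R) _ .nil (.cons (h.num _) .nil)

theorem rel_massC (h : Clo R) {c : Cfg α} {d : Cfg β} (hc : CfgR R c d) {x : Con α}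
    {y : Con β} (hx : ConR R x y) : R (massC c x) (massC d y) := by
  rw [massC, massC, hx.band, hx.lo, hx.hi]
  exact rel_cnd _ (h.mul hx.d (rel_dif h hc _ _)) hx.d

theorem rel_lowI (h : Clo R) {c : Cfg α} {d : Cfg β} (hc : CfgR R c d) (g : ℕ)
    {C : List (Con α)} {D : List (Con β)} (hC : List.Forall₂ (ConR R) C D) :
    ∀ L : List Bool, List.Forall₂ R (lowI c g C L) (lowI d g D L) := by
  induction hC with
  | nil => intro L; exact .nil
  | @cons x y C D h1 _ ih =>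
    intro L
    rcases L with _ | ⟨_ | _, L⟩
    · exact .nil
    · exact ih L
    · rw [lowI, lowI, h1.hi]
      exact .cons (rel_sub h (h.num _) (rel_ae h hc _)) (ih L)

theorem rel_highM (h : Clo R) {c : Cfg α} {d : Cfg β} (hc : CfgR R c d)
    {C : List (Con α)} {D : List (Con β)} (hC : List.Forall₂ (ConR R) C D) :
    ∀ L : List Bool, R (highM c C L) (highM d D L) := by
  induction hC with
  | nil => intro L; exact h.num 0
  | @cons x y C D h1 _ ih =>
    intro L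
    rcases L with _ | ⟨_ | _, L⟩
    · exact h.add (rel_massC h hc h1) (ih [])
    · exact h.add (rel_massC h hc h1) (ih L)
    · exact ih L

theorem rel_arcSum (h : Clo R) (T : Tmpl) {f : ℕ → α} {g : ℕ → β} (hf : ∀ j, R (f j) (g j)) :
    R (arcSum T f) (arcSum T g) :=
  rel_lsum h (rel_map _ fun j => rel_cnd _ (h.num 0) (hf j))


theorem cfg_rel (h : Clo R) (T : Tmpl) {A B wA wB r1 : α} {z : ℕ → α} {A' B' wA' wB' r1' : β}
    {z' : ℕ → β} (hA : R A A') (hB : R B B') (hwA : R wA wA') (hwB : R wB wB') (hr : R r1 r1')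
    (hz : ∀ i, R (z i) (z' i)) :
    CfgR R (cfg T A B wA wB r1 z) (cfg T A' B' wA' wB' r1' z') :=
  ⟨hA, hB, hwA, hwB, hr, rel_etaF h T hz, rel_lF h T hz, fun _ => hz _,
    fun j => rel_sc h (rel_etaF h T hz j),
    rel_XF h T hr (rel_lF h T hz) fun j => rel_sc h (rel_etaF h T hz j),
    rel_vsm h hwA ⟨h.sc2 hA, h.sc1 hA⟩, rel_vsm h hwB ⟨h.sc2 hB, h.neg (h.sc1 hB)⟩⟩

theorem cons_rel (h : Clo R) (T : Tmpl) (pl : Plan) {c : Cfg α} {d : Cfg β} (hc : CfgR R c d) :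
    List.Forall₂ (ConR R) (cons T pl c) (cons T pl d) := by
  refine rel_append (rel_flatMap _ fun p => ?_) (rel_flatMap _ fun j => ?_)
  · exact .cons (rel_atomC h hc _ _ (rel_wm h hc _ (hc.m _)))
      (.cons (rel_atomC h hc _ _ (rel_wm h hc _ (hc.m _))) .nil)
  · exact rel_cnd (S := List.Forall₂ (ConR R)) _ .nil
      (.cons (rel_bandC h hc _ _ _ _ (rel_wm h hc _ (rel_rho h hc _)))
        (.cons (rel_bandC h hc _ _ _ _ (rel_wm h hc _ (rel_rho h hc _))) .nil))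

theorem eqs_rel (h : Clo R) (T : Tmpl) {c : Cfg α} {d : Cfg β} (hc : CfgR R c d)
    {C : List (Con α)} {D : List (Con β)} (hC : List.Forall₂ (ConR R) C D) :
    List.Forall₂ R (eqs T c C) (eqs T d D) := by
  refine rel_append (rel_flatMap _ fun j => ?_) (rel_append (rel_map _ fun p => ?_) ?_)
  · exact .cons (rel_eqJ h T hc hC _).1 (.cons (rel_eqJ h T hc hC _).2 .nil)
  · exact rel_sub h (rel_vdot h (rel_WP h T hc _ _) (rel_sc h (rel_ae h hc _))) (rel_one h)
  · exact rel_cnd (S := List.Forall₂ R) _ (.cons (rel_apexV h hc hC) .nil) .nil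

theorem ineqs_rel (h : Clo R) (T : Tmpl) (pl : Plan) (bd : Bad) {c : Cfg α} {d : Cfg β}
    (hc : CfgR R c d) {C : List (Con α)} {D : List (Con β)} (hC : List.Forall₂ (ConR R) C D) :
    List.Forall₂ R (ineqs T pl bd c C) (ineqs T pl bd d D) := by
  refine rel_append ?_ (rel_append ?_ (rel_append ?_ (rel_primI h T hc _ _)))
  · exact rel_append (rel_map _ hc.l) (rel_append (rel_map _ hc.m)
      (.cons (rel_sub h (rel_one h) (rel_g0 h T hc))
        (rel_cnd (S := List.Forall₂ R) _ .nil (.cons (rel_apexV h hc hC) .nil))))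
  · exact .cons
      (rel_sub h (rel_one h) (h.add (rel_arcSum h T (rel_del h hc)) (rel_highM h hc hC _)))
      (.cons (rel_sub h (h.num _) hc.A) (.cons (rel_sub h (h.num _) hc.B)
        (.cons (rel_sub h (h.num _) (h.zm _ (h.add (rel_lsum h (rel_map _ hc.m))
          (rel_arcSum h T fun _ => h.mul (rel_rho h hc _) (rel_del h hc _)))))
          (.cons (h.num _) (.cons (h.num _) (rel_lowI h hc _ hC _))))))
  · exact rel_flatMap _ fun z => rel_zoneI h T hc hC z _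

end Pool.Agent.P.MP_d76e6a_co
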