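import Pool.Agent.P.MP_d76e6a_co.XP0
import Pool.Agent.P.MP_d76e6a_co.XRel

/-!
The checker: evaluation of the equations and inequalities in Taylor models on a cell.
-/

namespace Pool.Agent.P.MP_d76e6a_co

open Ar

instance (N : ℕ) : Add (PT N) := ⟨PT.add⟩
instance (N : ℕ) : Neg (PT N) := ⟨PT.neg⟩
instance (N : ℕ) : Mul (PT N) := ⟨PT.mul⟩
noncomputable instance (N : ℕ) : Ar (PT N) := ⟨PT.num N, PT.zm, PT.pi N, PT.sc, PT.ps⟩

instance : Add P0 := ⟨P0.add⟩
instance : Neg P0 := ⟨P0.neg⟩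
instance : Mul P0 := ⟨P0.mul⟩
noncomputable instance : Ar P0 := ⟨P0.num, P0.zm, P0.pi, P0.sc, P0.ps⟩

noncomputable section
variable {β : Type} {N : ℕ}

def fN (n : ℕ) (k : ℕ → β) : β := Nat.rec (k 0) (fun m _ => k (Nat.succ m)) n
def fI (n : ℤ) (k : ℤ → β) : β :=
  Int.rec (fun a => fN a fun a => k (Int.ofNat a)) (fun a => fN a fun a => k (Int.negSucc a)) n
def fB (b : Bool) (k : Bool → β) : β := Bool.rec (k false) (k true) b
def fT (t : PT N) (k : PT N → β) : β :=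
  fN t.p fun p => fN t.x fun x => fN t.r fun r => fN t.m fun m => k ⟨p, x, r, m⟩
def fO (t : P0) (k : P0 → β) : β := fN t.p fun p => fN t.r fun r => fN t.m fun m => k ⟨p, r, m⟩
def fP {α : Type} (f : α → (α → β) → β) (p : α × α) (k : α × α → β) : β :=
  f p.1 fun a => f p.2 fun b => k (a, b)

def fL {γ : Type} (f : γ → (γ → β) → β) (l : List γ) : (List γ → β) → β :=
  List.rec (fun k => k []) (fun t _ ih k => f t fun t => ih fun l => k (t :: l)) l

def nth {γ : Type} (l : List γ) : ℕ → γ → γ :=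
  List.rec (fun _ d => d) (fun a _ ih j d => Nat.rec a (fun i _ => ih i d) j) l

def memo {γ : Type} (f : γ → (γ → β) → β) (n : ℕ) (g : ℕ → γ) (k : (ℕ → γ) → β) : β :=
  fL f ((List.range n).map g) fun L => k fun j => nth L j (g j)

def cfgK {α : Type} [Add α] [Neg α] [Mul α] [Ar α] (f : α → (α → β) → β) (T : Tmpl)
    (A B wA wB r1 : α) (z : ℕ → α) (k : Cfg α → β) : β :=
  memo f (T.n + 2) (etaF T z) fun eta => memo f (T.n + 1) (lF T z) fun l =>
    memo (fP f) (T.n + 2) (fun j => sc (eta j)) fun U => memo (fP f) (T.n + 1) (XF T r1 l U) fun X =>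
      fP f (vsm wA ((sc A).2, (sc A).1)) fun rot1 => fP f (vsm wB ((sc B).2, -(sc B).1)) fun rot2 =>
        k ⟨A, B, wA, wB, r1, eta, l, fun p => z (2 * T.n + p), U, X, rot1, rot2⟩

def fAE (x : AE) (k : AE → β) : β :=
  fI x.sl fun sl => fN x.j fun j => fI x.p fun p => fI x.a fun a => fI x.b fun b => fI x.q fun q =>
    k ⟨sl, j, p, a, b, q⟩

def fC {α : Type} (f : α → (α → β) → β) (x : Con α) (k : Con α → β) : β :=
  fN x.z fun z => fB x.band fun bd => fAE x.lo fun lo => fAE x.hi fun hi =>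
    f x.d fun d => fP f x.v fun v => k ⟨z, bd, lo, hi, d, v⟩

/-! ### Decoding of data -/

def rdN (m : ℕ) (n : ℕ) (k : ℕ → ℕ → β) : β :=
  fN (Nat.mod n m) fun v => fN (Nat.div n m) fun n => k v n

def rdI (m h : ℕ) (n : ℕ) (k : ℤ → ℕ → β) : β :=
  fI (Int.subNatNat (Nat.mod n m) h) fun v => fN (Nat.div n m) fun n => k v n

def rdL {γ : Type} (rd : ℕ → (γ → ℕ → β) → β) (c : ℕ) : ℕ → (List γ → ℕ → β) → β :=
  Nat.rec (fun n k => k [] n) (fun _ ih n k => rd n fun v n => ih n fun l n => k (v :: l) n) c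

def rdLL {γ : Type} (rd : ℕ → (γ → ℕ → β) → β) (n : ℕ) (k : List γ → ℕ → β) : β :=
  rdN 64 n fun c n => rdL rd c n k

def rdQ (n : ℕ) (k : ℤ → ℕ → β) : β :=
  rdN 2 n fun f n => Bool.rec (rdI 16777216 8388608 n fun q n =>
    fI (Int.mul q 2048) fun q => k q n) (k 0 n) (Nat.beq f 0)

def rdAE (n : ℕ) (k : AE → ℕ → β) : β :=
  rdI 4 2 n fun sl n => rdN 8 n fun j n => rdI 16 8 n fun p n => rdI 8 4 n fun a n =>
    rdI 8 4 n fun b n => rdQ n fun q n => k ⟨sl, j, p, a, b, q⟩ n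

def rdAnc (n : ℕ) (k : Anc → ℕ → β) : β :=
  rdN 8 n fun j n => rdN 16 n fun t n => rdI 4 2 n fun s n => k ⟨j, t, s⟩ n

def rdIv (n : ℕ) (k : Iv → ℕ → β) : β :=
  rdI 4 2 n fun m n => rdN 8 n fun arc n => rdAnc n fun a0 n => rdAnc n fun a1 n =>
    rdAnc n fun a2 n => rdI 32 16 n fun hl n => rdI 32 16 n fun hr n => rdAE n fun e n =>
      k ⟨m, arc, a0, a1, a2, hl, hr, e⟩ n

def rdZone (n : ℕ) (k : Zone → ℕ → β) : β :=
  rdAE n fun g n => rdLL (fun n k => rdAE n fun a n => rdAE n fun b n => k (a, b) n) n fun st n =>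
    k ⟨g, st⟩ n

def rdK (n : ℕ) (k : ℤ × ℤ → ℕ → β) : β := rdI 8 4 n fun a n => rdI 8 4 n fun b n => k (a, b) n

def rdPlan (n : ℕ) (k : Plan → β) : β :=
  rdLL rdK n fun ka n => rdLL rdK n fun kj n =>
    rdLL (fun n k => rdN 2 n fun f n => fB (Nat.beq f 1) fun f => k f n) n fun low n =>
      rdLL rdZone n fun zs n => rdLL rdIv n fun iv _ => k ⟨ka, kj, low, zs, iv⟩

/-- The field of `w` bits at position `i` of `n`, scaled by `2 ^ 8` and put at the place `k`. -/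
def fld (n i w k : ℕ) : ℕ :=
  Nat.mul (Nat.sub (Nat.add (Nat.shiftLeft (Nat.mod (Nat.shiftRight n i) (Nat.shiftLeft 1 w)) 8)
    17592186044416) (Nat.shiftLeft 128 w)) (sl k)

def decP (n : ℕ) : ℕ :=
  Nat.add (Nat.add (Nat.add (fld n 0 36 0) (fld n 36 32 1)) (Nat.add (fld n 68 32 7) (fld n 100 28 2)))
    (Nat.add (Nat.add (Nat.add (fld n 128 28 8) (fld n 156 28 14))
      (Nat.add (fld n 184 24 3) (fld n 208 24 9))) (Nat.add (fld n 232 24 15) (fld n 256 24 21)))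

def decX (N e n : ℕ) : ℕ :=
  Nat.rec (Nat.mul (cM1 N) 17592186044416) (fun i a => Nat.sub (Nat.add a (Nat.mul
    (Nat.shiftLeft (Nat.mod (Nat.shiftRight n (Nat.add 280 (Nat.mul 14 i))) 16384) e)
      (sl (Nat.mul 15 i)))) (Nat.mul (Nat.shiftLeft 8192 e) (sl (Nat.mul 15 i)))) N

def decZ (N n i : ℕ) : ℕ :=
  Nat.mod (Nat.shiftRight n (Nat.add 5 (Nat.mul i (Nat.add 280 (Nat.mul 14 N)))))
    (Nat.shiftLeft 1 (Nat.add 280 (Nat.mul 14 N)))

/-- The model of the unknown number `i`. -/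
def zT (N n i : ℕ) : PT N := PT.raw N (decP (decZ N n i)) (decX N (Nat.mod n 32) (decZ N n i))

def allDom (l : List (PT N)) : ℕ → Bool :=
  List.rec (fun _ => true) (fun e _ ih k => Bool.rec false (ih (Nat.succ k)) (e.dom k)) l

def allNN (l : List P0) : Bool :=
  List.rec true (fun e _ ih => Bool.rec false ih e.nonneg) l

/-- The check of one cell. -/
def cellOK (T : Tmpl) (N : ℕ) (pl : Plan) (bd : Bad) (A B : PT 0) (n : ℕ) : Bool :=
  fT (sc (A + B)).1 fun sS => fT (sc B).1 fun sB => sS.invOK && sB.invOK &&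
    fT sS.inv fun iS => fT (sB * iS) fun wA => fT ((sc A).1 * iS) fun wB =>
      fT (sS * sB.inv) fun r1 => memo fT N (zT N n) fun z =>
        cfgK fT T (A.lift N) (B.lift N) (wA.lift N) (wB.lift N) (r1.lift N) z
          (fun c => fL (fC fT) (cons T pl c) fun C => allDom (eqs T c C) 0) &&
        memo fO N (fun i => (z i).low) fun w => fO A.low fun A => fO B.low fun B =>
          fO wA.low fun wA => fO wB.low fun wB => fO r1.low fun r1 => cfgK fO T A B wA wB r1 w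
            fun c => fL (fC fO) (cons T pl c) fun C => allNN (ineqs T pl bd c C)

/-- A subdivision of a trapezoid in the coordinates `u`, `v` with unit `1 / 512`. -/
inductive KD where
  | leaf (pl bd dat : ℕ) : KD
  | su (m : ℤ) (l r : KD) : KD
  | sv (m : ℤ) (l r : KD) : KD

def cellA (p q : ℕ × ℕ × ℕ) (u0 u1 : ℤ) : PT 0 :=
  PT.bil (262144 * (1024 * p.1 + (u0 + u1) * (q.1 - p.1))) (262144 * ((u1 - u0) * (q.1 - p.1))) 0 0

def cellB (p q : ℕ × ℕ × ℕ) (u0 u1 v0 v1 : ℤ) : PT 0 :=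
  fI ((q.2.1 : ℤ) - p.2.1) fun dl => fI ((q.2.2 : ℤ) - p.2.2 - dl) fun dd =>
    fI (1024 * ((p.2.2 : ℤ) - p.2.1) + (u0 + u1) * dd) fun g =>
      PT.bil (256 * (1024 * (1024 * p.2.1 + (u0 + u1) * dl) + (v0 + v1) * g))
        (256 * ((u1 - u0) * (1024 * dl + (v0 + v1) * dd))) (256 * ((v1 - v0) * g))
        (256 * ((u1 - u0) * (v1 - v0) * dd))

def kdOK (T : Tmpl) (pls : List ℕ) (bds : List Bad) (p q : ℕ × ℕ × ℕ) (t : KD) :
    ℤ → ℤ → ℤ → ℤ → Bool :=
  KD.rec (fun pl bd dat u0 u1 v0 v1 => Nat.blt bd bds.length && fN T.N fun N =>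
      rdPlan (nth pls pl 0) fun pl => fT (cellA p q u0 u1) fun A =>
        fT (cellB p q u0 u1 v0 v1) fun B => cellOK T N pl (nth bds bd ⟨0, 0, 0, 0⟩) A B dat)
    (fun m _ _ l r u0 u1 v0 v1 => l u0 m v0 v1 && r m u1 v0 v1)
    (fun m _ _ l r u0 u1 v0 v1 => l u0 u1 v0 m && r u0 u1 m v1) t

end

end Pool.Agent.P.MP_d76e6a_co
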