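import Pool.Agent.P.MP_d76e6a_co.XDefs

/-!
The curve of a template: its points and its length.
-/

namespace Pool.Agent.P.MP_d76e6a_co

open Real Finset

theorem xc_cl_zero {y : ℝ} (h : y ≤ 0) : cl y = 0 := by
  unfold cl
  exact max_eq_left (le_trans (min_le_right _ _) h)

theorem xc_cl_one {y : ℝ} (h : 1 ≤ y) : cl y = 1 := by
  unfold cl
  rw [min_eq_left h]
  exact max_eq_right zero_le_one

theorem xc_cl_id {y : ℝ} (h0 : 0 ≤ y) (h1 : y ≤ 1) : cl y = y := by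
  unfold cl
  rw [min_eq_right h1]
  exact max_eq_right h0

theorem xc_cl_mono : Monotone cl := fun _ _ h =>
  max_le_max le_rfl (min_le_min le_rfl h)

theorem xc_cl_cont : Continuous cl := by
  unfold cl
  fun_prop

theorem xc_uu_cont : Continuous uu := by
  have : uu = fun e : ℝ => ((sin e : ℝ) : ℂ) + ((cos e : ℝ) : ℂ) * Complex.I := by
    funext e
    apply Complex.ext <;> simp [uu, -Complex.ofReal_sin, -Complex.ofReal_cos]
  rw [this]
  fun_prop

theorem xc_half_zero (T : Tmpl) (A B : ℝ) (x : Sol) : half T A B x 0 = 0 := by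
  unfold half
  refine Finset.sum_eq_zero fun k _ => ?_
  have hk : (0 : ℝ) ≤ k := Nat.cast_nonneg k
  rw [xc_cl_zero (y := 0 - 2 * (k : ℝ)) (by linarith),
    xc_cl_zero (y := 0 - 2 * (k : ℝ) - 1) (by linarith)]
  simp

theorem xc_half_seg (T : Tmpl) (A B : ℝ) (x : Sol) {j : ℕ} (hj : j ≤ T.n) :
    half T A B x (2 * j + 1) = half T A B x (2 * j) + (x.l j : ℝ) * tt (x.η j) := by
  have hmem : j ∈ range (T.n + 1) := mem_range.2 (by omega)
  have h1 : ((x.l j : ℝ) : ℂ) * tt (x.η j)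
      = ∑ k ∈ range (T.n + 1), if k = j then ((x.l j : ℝ) : ℂ) * tt (x.η j) else 0 := by
    rw [Finset.sum_ite_eq' (range (T.n + 1)) j, if_pos hmem]
  rw [h1]
  unfold half
  rw [← Finset.sum_add_distrib]
  refine Finset.sum_congr rfl fun k _ => ?_
  rcases lt_trichotomy k j with h | h | h
  · have hk : (k : ℝ) + 1 ≤ j := by exact_mod_cast h
    rw [if_neg h.ne, xc_cl_one (y := 2 * (j : ℝ) + 1 - 2 * k) (by linarith),
      xc_cl_one (y := 2 * (j : ℝ) + 1 - 2 * k - 1) (by linarith),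
      xc_cl_one (y := 2 * (j : ℝ) - 2 * k) (by linarith),
      xc_cl_one (y := 2 * (j : ℝ) - 2 * k - 1) (by linarith), add_zero]
  · subst h
    rw [if_pos rfl, xc_cl_one (y := 2 * (k : ℝ) + 1 - 2 * k) (by linarith),
      xc_cl_zero (y := 2 * (k : ℝ) + 1 - 2 * k - 1) (by linarith),
      xc_cl_zero (y := 2 * (k : ℝ) - 2 * k) (by linarith),
      xc_cl_zero (y := 2 * (k : ℝ) - 2 * k - 1) (by linarith)]
    simp
  · have hk : (j : ℝ) + 1 ≤ k := by exact_mod_cast h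
    rw [if_neg h.ne', xc_cl_zero (y := 2 * (j : ℝ) + 1 - 2 * k) (by linarith),
      xc_cl_zero (y := 2 * (j : ℝ) + 1 - 2 * k - 1) (by linarith),
      xc_cl_zero (y := 2 * (j : ℝ) - 2 * k) (by linarith),
      xc_cl_zero (y := 2 * (j : ℝ) - 2 * k - 1) (by linarith), add_zero]

theorem xc_half_arc (T : Tmpl) (A B : ℝ) (x : Sol) {j : ℕ} (hj : j ≤ T.n) {t : ℝ}
    (h0 : 0 ≤ t) (h1 : t ≤ 1) :
    half T A B x (2 * j + 1 + t) = pnt T A B x j (x.η j + t * (x.η (j + 1) - x.η j)) := by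
  have hmem : j ∈ range (T.n + 1) := mem_range.2 (by omega)
  unfold pnt
  have h2 : ((rad T A B j : ℝ) : ℂ) * (uu (x.η j + t * (x.η (j + 1) - x.η j)) - uu (x.η j))
      = ∑ k ∈ range (T.n + 1), if k = j then ((rad T A B j : ℝ) : ℂ) *
        (uu (x.η j + t * (x.η (j + 1) - x.η j)) - uu (x.η j)) else 0 := by
    rw [Finset.sum_ite_eq' (range (T.n + 1)) j, if_pos hmem]
  rw [h2]
  unfold half
  rw [← Finset.sum_add_distrib]
  refine Finset.sum_congr rfl fun k _ => ?_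
  rcases lt_trichotomy k j with h | h | h
  · have hk : (k : ℝ) + 1 ≤ j := by exact_mod_cast h
    rw [if_neg h.ne, xc_cl_one (y := 2 * (j : ℝ) + 1 + t - 2 * k) (by linarith),
      xc_cl_one (y := 2 * (j : ℝ) + 1 + t - 2 * k - 1) (by linarith),
      xc_cl_one (y := 2 * (j : ℝ) + 1 - 2 * k) (by linarith),
      xc_cl_one (y := 2 * (j : ℝ) + 1 - 2 * k - 1) (by linarith), add_zero]
  · subst h
    have e : 2 * (k : ℝ) + 1 + t - 2 * k - 1 = t := by ring
    rw [if_pos rfl, e, xc_cl_one (y := 2 * (k : ℝ) + 1 + t - 2 * k) (by linarith),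
      xc_cl_id h0 h1,
      xc_cl_one (y := 2 * (k : ℝ) + 1 - 2 * k) (by linarith),
      xc_cl_zero (y := 2 * (k : ℝ) + 1 - 2 * k - 1) (by linarith)]
    simp
  · have hk : (j : ℝ) + 1 ≤ k := by exact_mod_cast h
    rw [if_neg h.ne', xc_cl_zero (y := 2 * (j : ℝ) + 1 + t - 2 * k) (by linarith),
      xc_cl_zero (y := 2 * (j : ℝ) + 1 + t - 2 * k - 1) (by linarith),
      xc_cl_zero (y := 2 * (j : ℝ) + 1 - 2 * k) (by linarith),
      xc_cl_zero (y := 2 * (j : ℝ) + 1 - 2 * k - 1) (by linarith), add_zero]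

theorem half_one (T : Tmpl) (A B : ℝ) (x : Sol) :
    half T A B x (2 * (0 : ℕ) + 1) = (x.l 0 : ℝ) * tt (x.η 0) := by
  rw [xc_half_seg T A B x (Nat.zero_le _)]
  have : (2 : ℝ) * ((0 : ℕ) : ℝ) = 0 := by simp
  rw [this, xc_half_zero, zero_add]

theorem half_succ (T : Tmpl) (A B : ℝ) (x : Sol) {j : ℕ} (hj : j + 1 ≤ T.n) :
    half T A B x (2 * (j + 1 : ℕ) + 1)
      = pnt T A B x j (x.η (j + 1)) + (x.l (j + 1) : ℝ) * tt (x.η (j + 1)) := by
  rw [xc_half_seg T A B x hj]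
  have e1 : (2 : ℝ) * ((j + 1 : ℕ) : ℝ) = 2 * j + 1 + 1 := by push_cast; ring
  have e2 : x.η j + 1 * (x.η (j + 1) - x.η j) = x.η (j + 1) := by ring
  rw [e1, xc_half_arc T A B x (by omega) zero_le_one le_rfl, e2]

/-- The points of the joints of the curve, on both halves. -/
def OnC (T : Tmpl) (A B : ℝ) (x : Sol) (p : ℂ) : Prop :=
  ∃ j ≤ T.n, ∃ τ ∈ Set.Icc (0 : ℝ) 1, ∃ s : ℤ, (s = 1 ∨ s = -1) ∧
    p = mir s (pnt T A B x j (x.η j + τ * (x.η (j + 1) - x.η j)))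

theorem OnC.mirror {T : Tmpl} {A B : ℝ} {x : Sol} {p : ℂ} (h : OnC T A B x p) :
    OnC T A B x (mir (-1) p) := by
  obtain ⟨j, hj, τ, hτ, s, hs, rfl⟩ := h
  refine ⟨j, hj, τ, hτ, -s, by omega, ?_⟩
  apply Complex.ext <;> simp [mir]

theorem OnC.curve {T : Tmpl} {A B : ℝ} {x : Sol} {p : ℂ} (h : OnC T A B x p) (w : ℝ) :
    ∃ t ∈ Set.Icc (0 : ℝ) 1, curve T A B x w t = w * p := by
  obtain ⟨j, hj, τ, hτ, s, hs, rfl⟩ := h
  rw [← xc_half_arc T A B x hj hτ.1 hτ.2]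
  have hjn : (j : ℝ) ≤ T.n := by exact_mod_cast hj
  have hj0 : (0 : ℝ) ≤ j := Nat.cast_nonneg j
  have hN : (0 : ℝ) < 2 * T.n + 2 := by linarith
  set σ : ℝ := 2 * j + 1 + τ with hσ
  have hσ0 : 0 < σ := by have := hτ.1; linarith
  have hσ1 : σ ≤ 2 * T.n + 2 := by have := hτ.2; linarith
  have hq0 : 0 < σ / (2 * T.n + 2) := div_pos hσ0 hN
  have hq1 : σ / (2 * T.n + 2) ≤ 1 := (div_le_one hN).2 hσ1
  rcases hs with rfl | rfl
  · refine ⟨1 / 2 + σ / (2 * T.n + 2) / 2, ⟨by linarith, by linarith⟩, ?_⟩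
    unfold MP_d76e6a_co.curve
    have e : 2 * (1 / 2 + σ / (2 * T.n + 2) / 2) - 1 = σ / (2 * T.n + 2) := by ring
    rw [if_neg (by linarith), e, abs_of_pos hq0, div_mul_cancel₀ _ hN.ne']
  · refine ⟨1 / 2 - σ / (2 * T.n + 2) / 2, ⟨by linarith, by linarith⟩, ?_⟩
    unfold MP_d76e6a_co.curve
    have e : 2 * (1 / 2 - σ / (2 * T.n + 2) / 2) - 1 = -(σ / (2 * T.n + 2)) := by ring
    rw [if_pos (by linarith), e, abs_neg, abs_of_pos hq0, div_mul_cancel₀ _ hN.ne']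

theorem xc_norm_tt (e : ℝ) : ‖tt e‖ = 1 := by
  have h : ‖tt e‖ ^ 2 = 1 := by
    rw [Complex.sq_norm, Complex.normSq_apply]
    simp only [tt]
    nlinarith [sin_sq_add_cos_sq e]
  have h0 := norm_nonneg (tt e)
  nlinarith

theorem xc_uu_lip (a b : ℝ) : ‖uu a - uu b‖ ≤ |a - b| := by
  have h : ‖uu a - uu b‖ ^ 2 ≤ |a - b| ^ 2 := by
    rw [Complex.sq_norm, Complex.normSq_apply, sq_abs]
    simp only [uu, Complex.sub_re, Complex.sub_im]
    have h1 := sin_sq_add_cos_sq a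
    have h2 := sin_sq_add_cos_sq b
    have h3 := cos_sub a b
    have h4 := one_sub_sq_div_two_le_cos (x := a - b)
    nlinarith
  exact (pow_le_pow_iff_left₀ (norm_nonneg _) (abs_nonneg _) two_ne_zero).1 h

theorem xc_norm_mir (s : ℤ) (hs : s = 1 ∨ s = -1) (p : ℂ) : ‖mir s p‖ = ‖p‖ := by
  rw [Complex.norm_def, Complex.norm_def, Complex.normSq_apply, Complex.normSq_apply]
  rcases hs with rfl | rfl <;> simp [mir]

theorem xc_mir_sub (s : ℤ) (p q : ℂ) : mir s p - mir s q = mir s (p - q) := by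
  apply Complex.ext <;> simp [mir, mul_sub]

theorem xc_mir_cont (s : ℤ) : Continuous (mir s) := by
  have : mir s = fun p : ℂ => (((s : ℝ) * p.re : ℝ) : ℂ) + ((p.im : ℝ) : ℂ) * Complex.I := by
    funext p
    apply Complex.ext <;> simp [mir]
  rw [this]
  fun_prop

/-- Arc length along the right half. -/
noncomputable def xcLam (T : Tmpl) (A B : ℝ) (x : Sol) (τ : ℝ) : ℝ :=
  ∑ j ∈ range (T.n + 1), (cl (τ - 2 * j) * x.l j
    + rad T A B j * (cl (τ - 2 * j - 1) * (x.η (j + 1) - x.η j)))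

theorem xc_lam_zero (T : Tmpl) (A B : ℝ) (x : Sol) : xcLam T A B x 0 = 0 := by
  unfold xcLam
  refine Finset.sum_eq_zero fun k _ => ?_
  have hk : (0 : ℝ) ≤ k := Nat.cast_nonneg k
  rw [xc_cl_zero (y := 0 - 2 * (k : ℝ)) (by linarith),
    xc_cl_zero (y := 0 - 2 * (k : ℝ) - 1) (by linarith)]
  simp

theorem xc_lam_top (T : Tmpl) (A B : ℝ) (x : Sol) :
    2 * xcLam T A B x (2 * T.n + 2) = len T A B x := by
  unfold xcLam len
  congr 1
  refine Finset.sum_congr rfl fun k hk => ?_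
  have hk' : (k : ℝ) ≤ T.n := by exact_mod_cast Nat.lt_succ_iff.1 (mem_range.1 hk)
  rw [xc_cl_one (y := 2 * (T.n : ℝ) + 2 - 2 * k) (by linarith),
    xc_cl_one (y := 2 * (T.n : ℝ) + 2 - 2 * k - 1) (by linarith), one_mul, one_mul]

theorem xc_half_dist {T : Tmpl} {A B : ℝ} {x : Sol}
    (hs : ∀ j ≤ T.n, 0 ≤ x.l j ∧ x.η j ≤ x.η (j + 1)) (hr : ∀ j, 0 ≤ rad T A B j) {a b : ℝ}
    (hab : a ≤ b) :
    ‖half T A B x b - half T A B x a‖ ≤ xcLam T A B x b - xcLam T A B x a := by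
  unfold half xcLam
  rw [← Finset.sum_sub_distrib, ← Finset.sum_sub_distrib]
  refine (norm_sum_le _ _).trans (Finset.sum_le_sum fun k hk => ?_)
  obtain ⟨hl, hη⟩ := hs k (Nat.lt_succ_iff.1 (mem_range.1 hk))
  have c1 : cl (a - 2 * k) ≤ cl (b - 2 * k) := xc_cl_mono (by linarith)
  have c2 : cl (a - 2 * k - 1) ≤ cl (b - 2 * k - 1) := xc_cl_mono (by linarith)
  set p1 := cl (a - 2 * k)
  set q1 := cl (b - 2 * k)
  set p2 := cl (a - 2 * k - 1)
  set q2 := cl (b - 2 * k - 1)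
  set D := x.η (k + 1) - x.η k with hD
  have hD0 : 0 ≤ D := by linarith
  have e : ((q1 * x.l k : ℝ) : ℂ) * tt (x.η k) + (rad T A B k : ℝ) *
        (uu (x.η k + q2 * D) - uu (x.η k)) - (((p1 * x.l k : ℝ) : ℂ) * tt (x.η k) +
        (rad T A B k : ℝ) * (uu (x.η k + p2 * D) - uu (x.η k)))
      = (((q1 - p1) * x.l k : ℝ) : ℂ) * tt (x.η k) + (rad T A B k : ℝ) *
        (uu (x.η k + q2 * D) - uu (x.η k + p2 * D)) := by
    push_cast
    ring
  rw [e]
  refine (norm_add_le _ _).trans ?_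
  rw [norm_mul, norm_mul, xc_norm_tt, mul_one, Complex.norm_real, Complex.norm_real,
    Real.norm_of_nonneg (mul_nonneg (sub_nonneg.2 c1) hl), Real.norm_of_nonneg (hr k)]
  have h1 := xc_uu_lip (x.η k + q2 * D) (x.η k + p2 * D)
  have e2 : x.η k + q2 * D - (x.η k + p2 * D) = (q2 - p2) * D := by ring
  rw [e2, abs_of_nonneg (mul_nonneg (sub_nonneg.2 c2) hD0)] at h1
  have h2 := mul_le_mul_of_nonneg_left h1 (hr k)
  nlinarith

theorem xc_half_cont (T : Tmpl) (A B : ℝ) (x : Sol) : Continuous (half T A B x) := by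
  unfold half
  have h1 := xc_cl_cont
  have h2 := xc_uu_cont
  refine continuous_finsetSum _ fun k _ => ?_
  fun_prop

theorem xc_curve_cont (T : Tmpl) (A B : ℝ) (x : Sol) (w : ℝ) : Continuous (curve T A B x w) := by
  have h1 := xc_half_cont T A B x
  have h2 := xc_mir_cont (-1)
  have h3 := xc_mir_cont 1
  have e : curve T A B x w = fun t : ℝ => if t ≤ 1 / 2 then
      (w : ℂ) * mir (-1) (half T A B x (|2 * t - 1| * (2 * T.n + 2)))
      else (w : ℂ) * mir 1 (half T A B x (|2 * t - 1| * (2 * T.n + 2))) := by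
    funext t
    unfold curve
    split_ifs <;> rfl
  rw [e]
  refine Continuous.if_le (by fun_prop) (by fun_prop) continuous_id continuous_const ?_
  intro t ht
  have : |2 * t - 1| * (2 * (T.n : ℝ) + 2) = 0 := by
    have ht' : t = 1 / 2 := ht
    rw [ht']
    norm_num
  rw [this, xc_half_zero]
  congr 1
  apply Complex.ext <;> simp [mir]

/-- Signed arc length along the whole curve. -/
noncomputable def xcG (T : Tmpl) (A B : ℝ) (x : Sol) (w t : ℝ) : ℝ :=
  w * ((if t ≤ 1 / 2 then -1 else 1) * xcLam T A B x (|2 * t - 1| * (2 * T.n + 2)))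

theorem xc_curve_dist {T : Tmpl} {A B : ℝ} {x : Sol}
    (hs : ∀ j ≤ T.n, 0 ≤ x.l j ∧ x.η j ≤ x.η (j + 1)) (hr : ∀ j, 0 ≤ rad T A B j) {w : ℝ}
    (hw : 0 ≤ w) {s t : ℝ} (hst : s ≤ t) :
    ‖curve T A B x w t - curve T A B x w s‖ ≤ xcG T A B x w t - xcG T A B x w s := by
  unfold curve xcG
  have hN : (0 : ℝ) ≤ 2 * T.n + 2 := by positivity
  rw [← mul_sub, ← mul_sub, norm_mul, Complex.norm_real, Real.norm_of_nonneg hw]
  refine mul_le_mul_of_nonneg_left ?_ hw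
  have hz : ∀ c : ℝ, 0 ≤ c → ‖half T A B x c‖ ≤ xcLam T A B x c := fun c hc => by
    have := xc_half_dist hs hr hc
    rwa [xc_half_zero, xc_lam_zero, sub_zero, sub_zero] at this
  by_cases h1 : t ≤ 1 / 2
  · have h2 : s ≤ 1 / 2 := hst.trans h1
    rw [if_pos h1, if_pos h2, if_pos h1, if_pos h2, xc_mir_sub, xc_norm_mir _ (Or.inr rfl),
      norm_sub_rev]
    have hle : |2 * t - 1| * (2 * (T.n : ℝ) + 2) ≤ |2 * s - 1| * (2 * T.n + 2) := by
      refine mul_le_mul_of_nonneg_right ?_ hN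
      rw [abs_of_nonpos (by linarith), abs_of_nonpos (by linarith)]
      linarith
    have := xc_half_dist hs hr hle
    linarith
  · by_cases h2 : s ≤ 1 / 2
    · rw [if_neg h1, if_pos h2, if_neg h1, if_pos h2]
      refine (norm_sub_le _ _).trans ?_
      rw [xc_norm_mir _ (Or.inl rfl), xc_norm_mir _ (Or.inr rfl)]
      have a1 := hz _ (mul_nonneg (abs_nonneg (2 * t - 1)) hN)
      have a2 := hz _ (mul_nonneg (abs_nonneg (2 * s - 1)) hN)
      linarith
    · rw [if_neg h1, if_neg h2, if_neg h1, if_neg h2, xc_mir_sub, xc_norm_mir _ (Or.inl rfl)]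
      have hle : |2 * s - 1| * (2 * (T.n : ℝ) + 2) ≤ |2 * t - 1| * (2 * T.n + 2) := by
        refine mul_le_mul_of_nonneg_right ?_ hN
        rw [abs_of_nonneg (by linarith [not_le.1 h2]), abs_of_nonneg (by linarith [not_le.1 h1])]
        linarith
      have := xc_half_dist hs hr hle
      linarith

theorem curve_len {T : Tmpl} {A B : ℝ} {x : Sol} (hs : ∀ j ≤ T.n, 0 ≤ x.l j ∧ x.η j ≤ x.η (j + 1))
    (hr : ∀ j, 0 ≤ rad T A B j) {w : ℝ} (hw : 0 ≤ w) :
    IsPath (curve T A B x w) ∧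
      pathLength (curve T A B x w) ≤ ENNReal.ofReal (len T A B x * w) := by
  have hmono : Monotone (xcG T A B x w) := fun s t hst => by
    have := xc_curve_dist hs hr hw hst
    linarith [norm_nonneg (curve T A B x w t - curve T A B x w s)]
  have hle : pathLength (curve T A B x w) ≤ ENNReal.ofReal (len T A B x * w) := by
    have h1 : eVariationOn (curve T A B x w) (Set.Icc 0 1)
        ≤ eVariationOn (xcG T A B x w) (Set.Icc 0 1) := by
      unfold eVariationOn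
      refine iSup_mono fun p => Finset.sum_le_sum fun i _ => ?_
      have hi : p.2.1 i ≤ p.2.1 (i + 1) := p.2.2.1 (Nat.le_succ i)
      rw [edist_dist, edist_dist, dist_eq_norm, Real.dist_eq]
      exact ENNReal.ofReal_le_ofReal ((xc_curve_dist hs hr hw hi).trans (le_abs_self _))
    have h2 := ((hmono.monotoneOn Set.univ).eVariationOn_eq (Set.mem_univ 0) (Set.mem_univ 1)).le
    rw [Set.univ_inter] at h2
    have h3 : xcG T A B x w 1 - xcG T A B x w 0 = len T A B x * w := by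
      unfold xcG
      rw [← xc_lam_top, if_neg (by norm_num), if_pos (by norm_num)]
      have e1 : |2 * (1 : ℝ) - 1| = 1 := by norm_num
      have e0 : |2 * (0 : ℝ) - 1| = 1 := by norm_num
      rw [e1, e0, one_mul (2 * (T.n : ℝ) + 2)]
      ring
    rw [h3] at h2
    exact h1.trans h2
  exact ⟨⟨(xc_curve_cont T A B x w).continuousOn, ne_top_of_le_ne_top ENNReal.ofReal_ne_top hle⟩,
    hle⟩

end Pool.Agent.P.MP_d76e6a_co
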