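import Pool.Agent.P.MP_d76e6a_co.Defs

/-!
Symmetric convex curves made of segments and circular arcs, and the systems of equations that
determine them. Lengths are measured in units of the altitude onto the side `c = XY`.
-/

namespace Pool.Agent.P.MP_d76e6a_co

open Real Finset

/-- The unit vector at angle `e` clockwise from the upward direction. -/
noncomputable def uu (e : ℝ) : ℂ := ⟨sin e, cos e⟩

/-- The clockwise unit tangent of a curve with outer normal `uu e`. -/
noncomputable def tt (e : ℝ) : ℂ := ⟨cos e, -sin e⟩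

/-- The inner product of `p` with `uu e`. -/
noncomputable def hs (p : ℂ) (e : ℝ) : ℝ := p.re * sin e + p.im * cos e

/-- `p` for `s = 1`, its mirror image in the vertical axis for `s = -1`. -/
def mir (s : ℤ) (p : ℂ) : ℂ := ⟨s * p.re, p.im⟩

/-- Angle from the outer normal of side `0 = XY` to that of side `r` (`1 = XZ`, `2 = YZ`). -/
noncomputable def off (A B : ℝ) (r : ℕ) : ℝ :=
  if r % 3 = 0 then 0 else if r % 3 = 1 then π + A else π - B

/-- Length of side `r` divided by the length of side `0`. -/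
noncomputable def wt (A B : ℝ) (r : ℕ) : ℝ :=
  if r % 3 = 0 then 1 else if r % 3 = 1 then sin B / sin (A + B) else sin A / sin (A + B)

/-- A type of placement of the triangle around the curve: side `r` touches half `s` of the curve,
sides `r + 1`, `r + 2` pass through joint `j1` of half `s1` and joint `j2` of half `s2`. -/
structure Plc where
  r : ℕ
  s : ℤ
  j1 : ℕ
  s1 : ℤ
  j2 : ℕ
  s2 : ℤ

/-- A template: joint `j` is a corner if `s = 0` and otherwise an arc along which side `r` rolls;
`atoms` are the placements with side `r` on the line through both end points of the curve. -/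
structure Tmpl where
  top : Bool
  joints : List Plc
  atoms : List Plc

/-- Unknowns: normal angles `η j` and lengths `l j` of the segments, masses `m p` of the atoms. -/
structure Sol where
  η : ℕ → ℝ
  l : ℕ → ℝ
  m : ℕ → ℝ

/-- Index of the last joint, the end point of the curve. -/
def Tmpl.n (T : Tmpl) : ℕ := T.joints.length - 1

/-- Joint number `j`. -/
def Tmpl.J (T : Tmpl) (j : ℕ) : Plc := T.joints.getD j ⟨0, 0, 0, 0, 0, 0⟩

/-- Atom number `p`. -/
def Tmpl.At (T : Tmpl) (p : ℕ) : Plc := T.atoms.getD p ⟨0, 0, 0, 0, 0, 0⟩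

/-- Radius of joint `j`: zero at a corner, the altitude onto side `r` for an arc. -/
noncomputable def rad (T : Tmpl) (A B : ℝ) (j : ℕ) : ℝ := (T.J j).s ^ 2 / wt A B (T.J j).r

/-- `x` cut off to `[0, 1]`. -/
noncomputable def cl (x : ℝ) : ℝ := max 0 (min 1 x)

/-- The right half of the curve: segment `j` for `τ ∈ [2j, 2j+1]`, then joint `j`. -/
noncomputable def half (T : Tmpl) (A B : ℝ) (x : Sol) (τ : ℝ) : ℂ :=
  ∑ j ∈ range (T.n + 1), ((cl (τ - 2 * j) * x.l j : ℝ) * tt (x.η j) + (rad T A B j : ℝ) *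
    (uu (x.η j + cl (τ - 2 * j - 1) * (x.η (j + 1) - x.η j)) - uu (x.η j)))

/-- The whole curve, both halves, scaled by `w`. -/
noncomputable def curve (T : Tmpl) (A B : ℝ) (x : Sol) (w t : ℝ) : ℂ :=
  w * mir (if t ≤ 1 / 2 then -1 else 1) (half T A B x (|2 * t - 1| * (2 * T.n + 2)))

/-- The length of the curve at scale one. -/
noncomputable def len (T : Tmpl) (A B : ℝ) (x : Sol) : ℝ :=
  2 * ∑ j ∈ range (T.n + 1), (x.l j + rad T A B j * (x.η (j + 1) - x.η j))

/-- The point of joint `j` with outer normal `uu e`. -/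
noncomputable def pnt (T : Tmpl) (A B : ℝ) (x : Sol) (j : ℕ) (e : ℝ) : ℂ :=
  half T A B x (2 * j + 1) + (rad T A B j : ℝ) * (uu e - uu (x.η j))

/-- Normal angle of side `r + i` when side `r` touches half `s` at normal angle `e`. -/
noncomputable def Plc.dir (P : Plc) (A B e : ℝ) (i : ℕ) : ℝ :=
  P.s * e - off A B P.r + off A B (P.r + i)

/-- The triangle of altitude one fits exactly: its three sides pass through the point of joint
`j` with normal `e` and through the joints `j1`, `j2`. -/
def Plc.Fits (P : Plc) (T : Tmpl) (A B : ℝ) (x : Sol) (j : ℕ) (e : ℝ) : Prop :=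
  wt A B P.r * hs (mir P.s (pnt T A B x j e)) (P.dir A B e 0)
    + wt A B (P.r + 1) * hs (mir P.s1 (half T A B x (2 * P.j1 + 1))) (P.dir A B e 1)
    + wt A B (P.r + 2) * hs (mir P.s2 (half T A B x (2 * P.j2 + 1))) (P.dir A B e 2) = 1

/-- Weighted normals of the sides `r + 1`, `r + 2` that pass through joint `j`, reflected to the
right half. -/
noncomputable def Plc.push (P : Plc) (A B : ℝ) (j : ℕ) (e : ℝ) : ℂ :=
  (if P.j1 = j then (wt A B (P.r + 1) : ℝ) * uu (P.s1 * P.dir A B e 1) else 0)
    + if P.j2 = j then (wt A B (P.r + 2) : ℝ) * uu (P.s2 * P.dir A B e 2) else 0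

/-- The total load on joint `j`. -/
noncomputable def load (T : Tmpl) (A B : ℝ) (x : Sol) (j : ℕ) : ℂ :=
  ∑ p ∈ range T.atoms.length, (x.m p : ℝ) * (T.At p).push A B j π
    + ∑ k ∈ range (T.n + 1), (rad T A B k : ℝ) * ∫ e in x.η k..x.η (k + 1), (T.J k).push A B j e

/-- The system of the template: signs, exact fits, and balance of loads and tensions. -/
structure Sys (T : Tmpl) (A B : ℝ) (x : Sol) : Prop where
  first : x.η 0 = 0
  final : x.η (T.n + 1) = π
  sgn : ∀ j ≤ T.n, 0 ≤ x.l j ∧ x.η j ≤ x.η (j + 1)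
  atom : ∀ p < T.atoms.length, 0 ≤ x.m p ∧ (T.At p).Fits T A B x T.n π
  arc : ∀ j ≤ T.n, (T.J j).s ≠ 0 → ∀ e ∈ Set.Icc (x.η j) (x.η (j + 1)), (T.J j).Fits T A B x j e
  apex : if T.top then (load T A B x 0).re + cos (x.η 1) = 1 else x.l 0 = 0
  corner : ∀ j, 1 ≤ j → j < T.n → (T.J j).s = 0 →
    load T A B x j = tt (x.η j) - tt (x.η (j + 1))
  tip : load T A B x T.n + (∑ p ∈ range T.atoms.length, x.m p * wt A B (T.At p).r : ℝ) * uu π
    = tt (x.η T.n)

/-- `(A, B)` lies in the trapezoid between the sections `4096 A = a`, `b ≤ 4096 B ≤ c` given by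
the triples `p = (a, b, c)` and `q`. -/
def InStrip (p q : ℕ × ℕ × ℕ) (A B : ℝ) : Prop :=
  ∃ u ∈ Set.Icc (0 : ℝ) 1, 4096 * A = (1 - u) * p.1 + u * q.1 ∧
    (1 - u) * p.2.1 + u * q.2.1 ≤ 4096 * B ∧ 4096 * B ≤ (1 - u) * p.2.2 + u * q.2.2

end Pool.Agent.P.MP_d76e6a_co
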