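import Pool.Agent.P.MP_d76e6a_co.XMul
import Pool.Agent.P.MP_d76e6a_co.XLin

/-!
Elementary functions, tests and inputs for packed Taylor models.
-/

namespace Pool.Agent.P.MP_d76e6a_co

open Real

variable {N : ℕ}

theorem fn_monP (E : Env) (k : ℕ) : |monP E.e1 E.e2 k| ≤ 1 := by
  unfold monP
  rw [abs_mul, abs_pow, abs_pow]
  exact mul_le_one₀ (pow_le_one₀ (abs_nonneg _) E.h1) (by positivity)
    (pow_le_one₀ (abs_nonneg _) E.h2)

theorem fn_term {c y : ℝ} (h : |y| ≤ 1) : -|c| ≤ c * y ∧ c * y ≤ |c| := by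
  rw [← abs_le, abs_mul]
  exact mul_le_of_le_one_right (abs_nonneg _) h

theorem fn_monX (E : Env) (k : ℕ) : |E.xi (k / 15) * monP E.e1 E.e2 (k % 15)| ≤ 1 := by
  rw [abs_mul]
  exact mul_le_one₀ (E.hx _) (abs_nonneg _) (fn_monP E _)

theorem fn_lt {c : ℕ → ℤ} {m : ℕ} (h : ∀ k, |c k| ≤ m) (hm : m < 4503599627370496) (k : ℕ) :
    |c k| < 4503599627370496 := by
  have := h k
  omega

theorem fn_valP (E : Env) (c : ℕ → ℤ) :
    ((2 * c 0 + ∑ k ∈ Finset.range 43, cond (k == 2 || k == 14) (max (c k) 0) 0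
      - ∑ k ∈ Finset.range 43, |c k| : ℤ) : ℝ) ≤ valP E.e1 E.e2 c := by
  have h0 : 2 * c 0 = ∑ k ∈ Finset.range 43, if k = 0 then 2 * c k else 0 := by
    rw [Finset.sum_ite_eq']
    simp
  rw [h0, ← Finset.sum_add_distrib, ← Finset.sum_sub_distrib, Int.cast_sum]
  refine Finset.sum_le_sum fun k _ => ?_
  have h1 := fn_monP E k
  have h2 := (fn_term (c := (c k : ℝ)) h1).1
  have sq : 0 ≤ monP E.e1 E.e2 k →
      ((max (c k) 0 - |c k| : ℤ) : ℝ) ≤ c k * monP E.e1 E.e2 k := by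
    intro h3
    rcases le_total 0 (c k) with h | h
    · rw [max_eq_left h, abs_of_nonneg h, sub_self, Int.cast_zero]
      exact mul_nonneg (by exact_mod_cast h) h3
    · rw [max_eq_right h]
      push_cast
      linarith
  by_cases k0 : k = 0
  · subst k0
    have := le_abs_self (c 0 : ℝ)
    have h3 : ((0 : ℕ) == 2 || (0 : ℕ) == 14) = false := rfl
    rw [h3]
    simp only [monP, if_true, cond_false]
    norm_num
    linarith
  by_cases k2 : k = 2
  · subst k2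
    have := sq (by unfold monP; norm_num; positivity)
    simpa using this
  by_cases k14 : k = 14
  · subst k14
    have := sq (by unfold monP; norm_num; positivity)
    simpa using this
  have : (k == 2 || k == 14) = false := by simp [k2, k14]
  rw [this, if_neg k0]
  simpa using h2

/-- Test for nonnegativity. -/
def PT.nonneg (t : PT N) : Bool :=
  Nat.ble (Nat.add 9007199254740992 (Nat.add t.nn t.r))
    (Nat.add (Nat.mul 2 t.cb) (Nat.mod (posp t.p cEV) cBM)) && Nat.ble t.m 4503599627370495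

theorem PT.nonneg_sound {E : Env} {t : PT N} {u : ℝ} (hN : N ≤ 1000) (hn : t.nonneg = true)
    (h : t.Mem E u) : 0 ≤ u := by
  unfold PT.nonneg at hn
  rw [Bool.and_eq_true, Nat.ble_eq, Nat.ble_eq] at hn
  obtain ⟨h1, h2⟩ := hn
  have hm : t.m < 4503599627370496 := by omega
  obtain ⟨c, d, hc⟩ := h hm hN
  obtain ⟨n0, -, -, n3⟩ := hc.norms hm hN
  obtain ⟨-, -, a3⟩ := hc.abs_le hm hN
  have h3 := hc.hp.posp (fn_lt hc.bp hm) (by norm_num) fun k => k == 2 || k == 14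
  rw [← cEV_eq] at h3
  have h4 := fn_valP E c
  rw [← h3, ← n0] at h4
  have h5 : (t.n0 : ℤ) + t.n1 + t.r ≤ 2 * c 0 + (Nat.mod (posp t.p cEV) cBM : ℕ) := by
    simp only [PT.nn, Nat.add_eq, Nat.mul_eq] at h1
    generalize Nat.mod (posp t.p cEV) cBM = z at h1 ⊢
    omega
  generalize Nat.mod (posp t.p cEV) cBM = z at h4 h5
  have h6 : (t.n0 : ℝ) + t.n1 + t.r ≤ 2 * c 0 + z := by exact_mod_cast h5
  have h7 := (abs_le.1 hc.err).1
  have h8 := (abs_le.1 a3).1
  push_cast at h4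
  linarith

theorem fn_rec {α : Type} (P : α → Prop) (b : Bool) (x y : α) (h0 : b = false → P x)
    (h1 : b = true → P y) : P (Bool.rec x y b) := by
  cases b
  · exact h0 rfl
  · exact h1 rfl

theorem fn_ps {u : ℝ} {a r : ℕ} (h : |u * 1099511627776| ≤ a + r) :
    |max u 0 * 1099511627776 - (((Nat.add (Nat.div (Nat.add a r) 4) 2199023255552 : ℕ) -
      2199023255552) + ((2748779069440 : ℕ) - 2199023255552) * u +
      ((2199023255552 : ℕ) - 2199023255552) * u + ((2199023255552 : ℕ) - 2199023255552) * u)| ≤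
      (Nat.add (Nat.div (Nat.add a r) 4) 2 : ℕ) := by
  have h3 : a + r ≤ 4 * Nat.div (Nat.add a r) 4 + 3 := by
    change _ ≤ 4 * ((a + r) / 4) + 3
    omega
  generalize Nat.div (Nat.add a r) 4 = q at h3 ⊢
  have h4 : (a : ℝ) + r ≤ 4 * q + 3 := by exact_mod_cast h3
  have h5 : (0 : ℝ) ≤ q := Nat.cast_nonneg q
  obtain ⟨a2, a3⟩ := abs_le.1 h
  simp only [Nat.add_eq]
  push_cast
  rw [abs_le]
  rcases le_total u 0 with hu | hu
  · rw [max_eq_right hu]
    constructor <;> linarith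
  · rw [max_eq_left hu]
    constructor <;> linarith

/-- Positive part. -/
noncomputable def PT.ps (t : PT N) : PT N :=
  Bool.rec (Bool.rec
    (PT.lin (Nat.add (Nat.div (Nat.add t.nn t.r) 4) 2199023255552) 2748779069440 2199023255552
      2199023255552 t t t (Nat.add (Nat.div (Nat.add t.nn t.r) 4) 2) 0)
    (PT.cst N 0) t.neg.nonneg) t t.nonneg

/-- The positive part for an arbitrary test. -/
noncomputable def fn_psG (f : PT N → Bool) : PT N → PT N := fun t =>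
  Bool.rec (Bool.rec
    (PT.lin (Nat.add (Nat.div (Nat.add t.nn t.r) 4) 2199023255552) 2748779069440 2199023255552
      2199023255552 t t t (Nat.add (Nat.div (Nat.add t.nn t.r) 4) 2) 0)
    (PT.cst N 0) (f t.neg)) t (f t)

theorem fn_ps_eq : @PT.ps N = fn_psG PT.nonneg := by
  delta PT.ps fn_psG
  with_reducible rfl

theorem fn_psG_mem {E : Env} {t : PT N} {u : ℝ} (f : PT N → Bool)
    (hf : ∀ (s : PT N) (v : ℝ), N ≤ 1000 → f s = true → s.Mem E v → 0 ≤ v) (h : t.Mem E u) :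
    (fn_psG f t).Mem E (max u 0) := by
  refine fn_rec (fun s => PT.Mem E s (max u 0)) _ _ _ (fun _ => ?_) fun h1 hm hN => ?_
  · refine fn_rec (fun s => PT.Mem E s (max u 0)) _ _ _ (fun _ => ?_) fun h2 hm hN => ?_
    · refine PT.lin_mem h h h (by norm_num) (by norm_num) (by norm_num) fun _ hm hN => ?_
      obtain ⟨c, d, hc⟩ := h hm hN
      exact fn_ps (hc.abs_le hm hN).1
    · have h3 := hf _ _ hN h2 (PT.neg_mem h)
      have h4 := PT.cst_mem (N := N) E 0
      rw [Nat.cast_zero, zero_div] at h4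
      rw [max_eq_right (by linarith)]
      exact h4 hm hN
  · rw [max_eq_left (hf _ _ hN h1 h)]
    exact h hm hN

theorem PT.ps_mem {E : Env} {t : PT N} {u : ℝ} (h : t.Mem E u) : t.ps.Mem E (max u 0) := by
  rw [fn_ps_eq]
  exact fn_psG_mem _ (fun _ _ hN h1 h2 => PT.nonneg_sound hN h1 h2) h

theorem fn_widen {E : Env} {t : PT N} {u v : ℝ} {x : ℕ} (h : t.Mem E u)
    (hv : |v * 1099511627776 - u * 1099511627776| ≤ x) :
    PT.Mem E (⟨t.p, t.x, Nat.add t.r x, t.m⟩ : PT N) v := by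
  intro hm hN
  obtain ⟨c, d, hc⟩ := h hm hN
  refine ⟨c, d, hc.hp, hc.hx, hc.bp, hc.bx, ?_⟩
  have h1 := abs_le.1 hc.err
  have h2 := abs_le.1 hv
  simp only [Nat.add_eq]
  push_cast
  rw [abs_le]
  constructor <;> linarith [h1.1, h1.2, h2.1, h2.2]

theorem fn_geom {e : ℝ} {ρ : ℕ} (h : |e * 1099511627776| ≤ ρ) (hρ : ρ ≤ 549755813888) :
    |1 / (1 - e) * 1099511627776 - (1 + e * (1 + e * (1 + e))) * 1099511627776| ≤
      (Nat.succ (Nat.shiftRight (Nat.mul (Nat.mul ρ ρ) (Nat.mul ρ ρ)) 119) : ℕ) := by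
  have h1 : (ρ : ℝ) ≤ 549755813888 := by exact_mod_cast hρ
  obtain ⟨h2, h3⟩ := abs_le.1 h
  have h4 : 1 / 2 ≤ 1 - e := by linarith
  have h5 : 1 / (1 - e) * 1099511627776 - (1 + e * (1 + e * (1 + e))) * 1099511627776 =
      e ^ 4 * 1099511627776 / (1 - e) := by
    field_simp
    ring
  have h6 : (e * 1099511627776) ^ 4 ≤ (ρ : ℝ) ^ 4 := by
    have := pow_le_pow_left₀ (abs_nonneg _) h 4
    rwa [Even.pow_abs (by decide)] at this
  have h7 : ρ * ρ * (ρ * ρ) < 2 ^ 119 * (ρ * ρ * (ρ * ρ) / 2 ^ 119 + 1) :=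
    Nat.lt_mul_div_succ _ (by positivity)
  have h8 : Nat.succ (Nat.shiftRight (Nat.mul (Nat.mul ρ ρ) (Nat.mul ρ ρ)) 119) =
      ρ * ρ * (ρ * ρ) / 2 ^ 119 + 1 := congrArg Nat.succ (Nat.shiftRight_eq_div_pow _ 119)
  rw [h8, h5]
  generalize ρ * ρ * (ρ * ρ) / 2 ^ 119 + 1 = q at h7 ⊢
  have h9 : (ρ : ℝ) * ρ * (ρ * ρ) < 2 ^ 119 * q := by exact_mod_cast h7
  have hq : (0 : ℝ) ≤ q := Nat.cast_nonneg q
  rw [abs_of_nonneg (by positivity), div_le_iff₀ (by linarith)]
  have h10 : (q : ℝ) * (1 / 2) ≤ q * (1 - e) := mul_le_mul_of_nonneg_left h4 hq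
  rw [mul_pow] at h6
  have h11 : (ρ : ℝ) ^ 4 = ρ * ρ * (ρ * ρ) := by ring
  norm_num at h6 h9
  linarith

def PT.invA (t : PT N) : ℕ := Nat.div 1208925819614629174706176 (Nat.sub t.cb 4503599627370496)
def PT.invE (t : PT N) : PT N := (PT.cst N 1099511627776).add ((PT.cst N t.invA).mul t).neg

def PT.invOK (t : PT N) : Bool :=
  Nat.ble 1 t.invA && Nat.ble t.invE.m 4503599627370495 &&
    Nat.ble (Nat.add t.invE.nn t.invE.r) 549755813888

/-- Reciprocal. -/
def PT.inv (t : PT N) : PT N :=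
  let e := t.invE
  let ρ := Nat.add e.nn e.r
  let o := PT.cst N 1099511627776
  let v := o.add (e.mul (o.add (e.mul (o.add e))))
  PT.mul ⟨v.p, v.x, Nat.add v.r (Nat.succ (Nat.shiftRight (Nat.mul (Nat.mul ρ ρ) (Nat.mul ρ ρ)) 119)),
    v.m⟩ (PT.cst N t.invA)

theorem PT.inv_mem {E : Env} {t : PT N} {u : ℝ} (hN : N ≤ 1000) (ho : t.invOK = true)
    (h : t.Mem E u) : 0 < u ∧ t.inv.Mem E (1 / u) := by
  unfold PT.invOK at ho
  rw [Bool.and_eq_true, Bool.and_eq_true, Nat.ble_eq, Nat.ble_eq, Nat.ble_eq] at ho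
  obtain ⟨⟨h1, h2⟩, h3⟩ := ho
  have ho : (PT.cst N 1099511627776).Mem E 1 := by
    have := PT.cst_mem (N := N) E 1099511627776
    rwa [Nat.cast_ofNat, div_self (by norm_num)] at this
  have he : t.invE.Mem E (1 + -((t.invA : ℝ) / 1099511627776 * u)) :=
    PT.add_mem ho (PT.neg_mem (PT.mul_mem (PT.cst_mem E t.invA) h))
  have hm : t.invE.m < 4503599627370496 := by omega
  obtain ⟨c, d, hc⟩ := he hm hN
  obtain ⟨a1, -, -⟩ := hc.abs_le hm hN
  have ha : (1 : ℝ) ≤ t.invA := by exact_mod_cast h1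
  have a2 : |(1 + -((t.invA : ℝ) / 1099511627776 * u)) * 1099511627776| ≤
      (Nat.add t.invE.nn t.invE.r : ℕ) := by
    simpa only [Nat.add_eq, Nat.cast_add] using a1
  have a3 : ((Nat.add t.invE.nn t.invE.r : ℕ) : ℝ) ≤ 549755813888 := by exact_mod_cast h3
  have a4 : 0 < (t.invA : ℝ) * u := by linarith [(abs_le.1 a2).2]
  have hu : 0 < u := (mul_pos_iff_of_pos_left (by linarith)).1 a4
  refine ⟨hu, ?_⟩
  have hv := PT.add_mem ho (PT.mul_mem he (PT.add_mem ho (PT.mul_mem he (PT.add_mem ho he))))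
  have hw := PT.mul_mem (fn_widen hv (fn_geom a2 h3)) (PT.cst_mem E t.invA)
  have h4 : 1 / (1 - (1 + -((t.invA : ℝ) / 1099511627776 * u))) *
      ((t.invA : ℝ) / 1099511627776) = 1 / u := by
    have h5 : (t.invA : ℝ) ≠ 0 := by linarith
    have h6 : 1 - (1 + -((t.invA : ℝ) / 1099511627776 * u)) = t.invA / 1099511627776 * u := by
      ring
    rw [h6]
    field_simp
  rw [h4] at hw
  exact hw

theorem fn_valX (E : Env) (d : ℕ → ℤ) {k : ℕ} (hk : k < N) :
    (E.xi k = 1 → ((2 * d (15 * k) - ∑ j ∈ Finset.range (15 * N), |d j| : ℤ) : ℝ) ≤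
      valX E.e1 E.e2 E.xi N d) ∧
    (E.xi k = -1 → valX E.e1 E.e2 E.xi N d ≤
      ((∑ j ∈ Finset.range (15 * N), |d j| - 2 * d (15 * k) : ℤ) : ℝ)) := by
  have h0 : 2 * d (15 * k) =
      ∑ j ∈ Finset.range (15 * N), if j = 15 * k then 2 * d j else 0 := by
    rw [Finset.sum_ite_eq', if_pos (Finset.mem_range.2 (by omega))]
  have h1 : 15 * k / 15 = k := by omega
  have h2 : monP E.e1 E.e2 (15 * k % 15) = 1 := by simp [monP]
  have h3 := le_abs_self (d (15 * k) : ℝ)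
  rw [h0, ← Finset.sum_sub_distrib, ← Finset.sum_sub_distrib, Int.cast_sum, Int.cast_sum]
  constructor <;> intro hx <;> refine Finset.sum_le_sum fun j _ => ?_
  · by_cases hj : j = 15 * k
    · subst hj
      rw [if_pos rfl, h1, h2, hx]
      push_cast
      linarith
    · rw [if_neg hj]
      simpa using (fn_term (c := (d j : ℝ)) (fn_monX E j)).1
  · by_cases hj : j = 15 * k
    · subst hj
      rw [if_pos rfl, h1, h2, hx]
      push_cast
      linarith
    · rw [if_neg hj]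
      simpa using (fn_term (c := (d j : ℝ)) (fn_monX E j)).2

theorem fn_absP (E : Env) (c : ℕ → ℤ) :
    |valP E.e1 E.e2 c| ≤ ((∑ k ∈ Finset.range 43, |c k| : ℤ) : ℝ) := by
  rw [Int.cast_sum]
  refine (Finset.abs_sum_le_sum_abs _ _).trans (Finset.sum_le_sum fun k _ => ?_)
  rw [Int.cast_abs]
  exact abs_le.2 (fn_term (fn_monP E k))

/-- The coefficient of `xi k` dominates everything else. -/
def PT.dom (k : ℕ) (t : PT N) : Bool :=
  Nat.ble (Nat.add 9007199254740992 (Nat.add t.nn t.r))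
    (Nat.mul 2 (Nat.land (Nat.shiftRight t.x (Nat.mul 96 (Nat.mul 15 k))) cBM)) &&
    Nat.ble t.m 4503599627370495

theorem PT.dom_sound {E : Env} {k : ℕ} {t : PT N} {u : ℝ} (hN : N ≤ 1000) (hk : k < N)
    (hd : t.dom k = true) (h : t.Mem E u) : (E.xi k = 1 → 0 ≤ u) ∧ (E.xi k = -1 → u ≤ 0) := by
  unfold PT.dom at hd
  rw [Bool.and_eq_true, Nat.ble_eq, Nat.ble_eq] at hd
  obtain ⟨h1, h2⟩ := hd
  have hm : t.m < 4503599627370496 := by omega
  obtain ⟨c, d, hc⟩ := h hm hN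
  obtain ⟨n0, n1, -, -⟩ := hc.norms hm hN
  have hd := fn_lt hc.bx hm
  have h3 := pk_digit (f := fun j => cond (keepX j) (d j + 4503599627370496).toNat 0)
    (n := 15 * N) (k := Nat.mul 15 k) (fun j _ => by
      have := abs_lt.1 (hd j)
      cases keepX j
      · simp
      · simp only [cond_true]
        omega) (by simp only [Nat.mul_eq]; omega)
  rw [← hc.hx.pk hd] at h3
  have h4 : keepX (Nat.mul 15 k) = true := by
    unfold keepX
    rw [Nat.mul_eq, Nat.mul_mod_right]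
    rfl
  rw [h3, h4] at h1
  have h5 : (t.n0 : ℤ) + t.n1 + t.r ≤ 2 * d (15 * k) := by
    have := abs_lt.1 (hd (15 * k))
    simp only [PT.nn, Nat.add_eq, Nat.mul_eq, cond_true] at h1
    omega
  have h6 : (t.n0 : ℝ) + t.n1 + t.r ≤ 2 * d (15 * k) := by exact_mod_cast h5
  have h7 := abs_le.1 hc.err
  have h8 := abs_le.1 (fn_absP E c)
  obtain ⟨h9, h10⟩ := fn_valX E d hk
  rw [← n1] at h9 h10
  rw [← n0] at h8
  push_cast at h8 h9 h10
  exact ⟨fun hx => by linarith [h9 hx, h7.1, h8.1], fun hx => by linarith [h10 hx, h7.2, h8.2]⟩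

theorem fn_valX_zero (e1 e2 : ℝ) (xi : ℕ → ℝ) (N : ℕ) : valX e1 e2 xi N (fun _ => 0) = 0 := by
  simp [valX]

theorem fn_rep_zero : Rep 0 keepX (15 * 0) fun _ => 0 := ⟨by simp, fun _ _ => rfl⟩

theorem fn_pat (p : ℕ → Bool) (n : ℕ) (b : ℤ) :
    (pat p n : ℤ) * b = ∑ k ∈ Finset.range n, cond (p k) b 0 * 2 ^ (96 * k) := by
  unfold pat pk
  rw [Nat.cast_sum, Finset.sum_mul]
  refine Finset.sum_congr rfl fun k _ => ?_
  beta_reduce
  cases p k
  · simp
  · simp [mul_comm]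

theorem fn_bia (M : ℕ) : (bia M : ℤ) = M * 4503599627370496 := by
  have : bia M = M * 2 ^ 52 := Nat.shiftLeft_eq M 52
  rw [this]
  push_cast
  rfl

/-- Forget the dependence on the variables `xi`. -/
def PT.lump (t : PT N) : PT 0 := ⟨t.p, 0, Nat.add t.r t.n1, t.m⟩

theorem PT.lump_mem {E : Env} {t : PT N} {u : ℝ} (hN : N ≤ 1000) (h : t.Mem E u) :
    t.lump.Mem E u := by
  intro hm _
  obtain ⟨c, d, hc⟩ := h hm hN
  obtain ⟨-, -, a3⟩ := hc.abs_le hm hN
  refine ⟨c, fun _ => 0, hc.hp, fn_rep_zero, hc.bp, fun _ => by simp, ?_⟩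
  have h1 := abs_le.1 hc.err
  have h2 := abs_le.1 a3
  rw [fn_valX_zero]
  simp only [PT.lump, Nat.add_eq]
  push_cast
  rw [abs_le]
  constructor <;> linarith [h1.1, h1.2, h2.1, h2.2]

def PT.lift (N : ℕ) (t : PT 0) : PT N := ⟨t.p, bia (cM1 N), t.r, t.m⟩

theorem PT.lift_mem {E : Env} {t : PT 0} {u : ℝ} (h : t.Mem E u) : (t.lift N).Mem E u := by
  intro hm _
  obtain ⟨c, d, hc⟩ := h hm (by norm_num)
  refine ⟨c, fun _ => 0, hc.hp, ⟨?_, fun _ _ => rfl⟩, hc.bp, fun _ => by simp, ?_⟩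
  · change (bia (cM1 N) : ℤ) = _
    rw [fn_bia, cM1_eq, fn_pat]
    simp only [zero_add]
  · have h1 := hc.err
    rw [fn_valX_zero]
    have h2 : valX E.e1 E.e2 E.xi 0 d = 0 := by simp [valX]
    rw [h2] at h1
    exact h1

theorem fn_digits (a n : ℕ) : a % 2 ^ (96 * n) = pk (fun k => a / 2 ^ (96 * k) % 2 ^ 96) n := by
  unfold pk
  induction n with
  | zero => simp [Nat.mod_one]
  | succ n ih =>
    rw [Finset.sum_range_succ, ← ih, pow_mul, Nat.mod_pow_succ, ← pow_mul, mul_comm (_ % 2 ^ 96)]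

theorem fn_mask_lt (p : ℕ → Bool) (n : ℕ) : pat p n * (2 ^ 45 - 1) < 2 ^ (96 * n) := by
  unfold pat pk
  induction n with
  | zero => simp
  | succ n ih =>
    rw [Finset.sum_range_succ, add_mul, mul_add, pow_add]
    have h1 : cond (p n) 1 0 ≤ 1 := by cases p n <;> simp
    have h2 := Nat.mul_le_mul_right (2 ^ (96 * n)) h1
    have h3 := Nat.mul_le_mul_right (2 ^ 45 - 1) h2
    refine lt_of_lt_of_le (add_lt_add_of_lt_of_le ih h3) ?_
    generalize 2 ^ (96 * n) = Y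
    omega

theorem fn_raw (a n : ℕ) (p : ℕ → Bool) : ∃ c : ℕ → ℤ, (∀ k, |c k| ≤ (17592186044416 : ℕ)) ∧
    Rep (Nat.add (Nat.land a (Nat.mul (pat p n) 35184372088831))
      (Nat.mul (pat p n) 4486007441326080)) p n c := by
  have h1 : Nat.land a (Nat.mul (pat p n) (2 ^ 45 - 1)) =
      Nat.land (Nat.shiftRight (a % 2 ^ (96 * n)) 0) (Nat.mul (pat p n) (2 ^ 45 - 1)) := by
    change a &&& (pat p n * (2 ^ 45 - 1)) = (a % 2 ^ (96 * n)) &&& (pat p n * (2 ^ 45 - 1))
    have h2 := fn_mask_lt p n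
    generalize pat p n * (2 ^ 45 - 1) = M at h2 ⊢
    rw [← Nat.mod_eq_of_lt (lt_of_le_of_lt (Nat.and_le_right (n := a)) h2), Nat.and_mod_two_pow,
      Nat.mod_eq_of_lt h2]
  rw [fn_digits, pk_shift p (fun k _ => Nat.mod_lt _ (by positivity)) (by norm_num)] at h1
  obtain ⟨g, hg, h2⟩ : ∃ g : ℕ → ℕ, (∀ k, g k < 35184372088832) ∧
      Nat.land a (Nat.mul (pat p n) 35184372088831) = pk (fun k => cond (p k) (g k) 0) n :=
    ⟨_, fun k => Nat.mod_lt _ (by norm_num), h1⟩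
  refine ⟨fun k => if k < n ∧ p k = true then g k - 17592186044416 else 0, fun k => ?_, ?_,
    fun k hk => if_neg hk⟩
  · have := hg k
    beta_reduce
    rw [abs_le]
    constructor <;> split_ifs <;> omega
  · rw [h2, Nat.add_eq, Nat.mul_eq, Nat.cast_add, Nat.cast_mul, fn_pat]
    unfold pk
    rw [Nat.cast_sum, ← Finset.sum_add_distrib]
    refine Finset.sum_congr rfl fun k hk => ?_
    rw [Finset.mem_range] at hk
    beta_reduce
    cases hp : p k
    · simp
    · simp only [cond_true, hk, and_self, if_true]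
      push_cast
      ring

/-- The model whose coefficients are read from two arbitrary numbers. -/
def PT.raw (N a b : ℕ) : PT N :=
  ⟨Nat.add (Nat.land a (Nat.mul cM0 35184372088831)) (Nat.mul cM0 4486007441326080),
    Nat.add (Nat.land b (Nat.mul (cM1 N) 35184372088831)) (Nat.mul (cM1 N) 4486007441326080),
    0, 17592186044416⟩

theorem PT.raw_mem (N a b : ℕ) (e1 e2 : ℝ) : ∃ f : (ℕ → ℝ) → ℝ, Continuous f ∧
    ∀ E : Env, E.e1 = e1 → E.e2 = e2 → (PT.raw N a b).Mem E (f E.xi) := by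
  obtain ⟨c, h1, h2⟩ := fn_raw a 43 keepP
  obtain ⟨d, h3, h4⟩ := fn_raw b (15 * N) keepX
  rw [← cM0_eq] at h2
  rw [← cM1_eq] at h4
  refine ⟨fun xi => (valP e1 e2 c + valX e1 e2 xi N d) / 1099511627776, ?_, ?_⟩
  · unfold valX
    fun_prop
  · rintro E rfl rfl _ _
    refine ⟨c, d, h2, h4, h1, h3, ?_⟩
    rw [div_mul_cancel₀ _ (by norm_num), sub_self, abs_zero]
    exact Nat.cast_nonneg _

theorem fn_sl (k : ℕ) : (sl k : ℤ) = 2 ^ (96 * k) := by
  have : sl k = 1 * 2 ^ (96 * k) := Nat.shiftLeft_eq 1 (96 * k)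
  rw [this]
  push_cast
  rw [one_mul]

theorem fn_four {R : Type} [CommRing R] (c a b d : ℤ) (w : ℕ → R) :
    ∑ k ∈ Finset.range 43, (((if k = 0 then c else 0) + (if k = 1 then a else 0) +
      (if k = 7 then b else 0) + (if k = 8 then d else 0) : ℤ) : R) * w k =
      c * w 0 + a * w 1 + b * w 7 + d * w 8 := by
  simp [add_mul, Finset.sum_add_distrib, apply_ite (Int.cast : ℤ → R), ite_mul]

/-- The model `(c + a e1 + b e2 + d e1 e2) / 2 ^ 40`. -/
def PT.bil (c a b d : ℤ) : PT 0 :=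
  ⟨Int.toNat (bia cM0 + c + a * sl 1 + b * sl 7 + d * sl 8), 0, 0,
    c.natAbs + a.natAbs + b.natAbs + d.natAbs⟩

theorem PT.bil_mem (E : Env) (c a b d : ℤ) :
    (PT.bil c a b d).Mem E ((c + a * E.e1 + b * E.e2 + d * (E.e1 * E.e2)) / 1099511627776) := by
  intro hm _
  have hm' : c.natAbs + a.natAbs + b.natAbs + d.natAbs < 4503599627370496 := hm
  let f : ℕ → ℤ := fun k => (if k = 0 then c else 0) + (if k = 1 then a else 0) +
    (if k = 7 then b else 0) + (if k = 8 then d else 0)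
  have h1 : ∀ k, |f k| ≤ (c.natAbs + a.natAbs + b.natAbs + d.natAbs : ℕ) := by
    intro k
    rw [abs_le]
    simp only [f]
    constructor <;> split_ifs <;> omega
  have h2 : ∀ k, ¬(k < 43 ∧ keepP k = true) → f k = 0 := by
    intro k hk
    have k0 : k ≠ 0 := by rintro rfl; exact hk (by decide)
    have k1 : k ≠ 1 := by rintro rfl; exact hk (by decide)
    have k7 : k ≠ 7 := by rintro rfl; exact hk (by decide)
    have k8 : k ≠ 8 := by rintro rfl; exact hk (by decide)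
    simp [f, k0, k1, k7, k8]
  have h3 : (bia cM0 : ℤ) + c + a * sl 1 + b * sl 7 + d * sl 8 =
      ∑ k ∈ Finset.range 43, (f k + cond (keepP k) 4503599627370496 0) * 2 ^ (96 * k) := by
    have h4 := fn_four c a b d fun k => (2 : ℤ) ^ (96 * k)
    simp only [Int.cast_id, mul_zero, pow_zero, mul_one c] at h4
    simp only [add_mul (f _), Finset.sum_add_distrib]
    rw [h4, ← fn_pat, ← cM0_eq, ← fn_bia, ← fn_sl, ← fn_sl, ← fn_sl]
    generalize (bia cM0 : ℤ) = X
    generalize (sl 1 : ℤ) = Y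
    generalize (sl 7 : ℤ) = Z
    generalize (sl 8 : ℤ) = W
    ring
  refine ⟨f, fun _ => 0, ⟨?_, h2⟩, fn_rep_zero, h1, fun _ => by simp, ?_⟩
  · change ((Int.toNat _ : ℕ) : ℤ) = _
    rw [h3]
    refine Int.toNat_of_nonneg (Finset.sum_nonneg fun k hk => mul_nonneg ?_ (by positivity))
    cases hp : keepP k
    · rw [h2 k (by simp [hp])]
      simp
    · have := (abs_le.1 (h1 k)).1
      simp only [cond_true]
      omega
  · have h4 : valP E.e1 E.e2 f = c + a * E.e1 + b * E.e2 + d * (E.e1 * E.e2) := by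
      unfold valP
      rw [fn_four]
      simp [monP]
    rw [fn_valX_zero, h4, div_mul_cancel₀ _ (by norm_num), add_zero, sub_self, abs_zero]
    exact Nat.cast_nonneg _

end Pool.Agent.P.MP_d76e6a_co
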