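import Pool.Agent.P.MP_d76e6a_co.XSys
import Pool.Agent.P.MP_d76e6a_co.XDual
import Pool.Agent.P.MP_d76e6a_co.NRows

/-!
The atoms and bands of directions of a certificate.
-/

namespace Pool.Agent.P.MP_d76e6a_co

open Real Finset MeasureTheory

noncomputable def Con.it (c : Cfg ℝ) (y : Con ℝ) : It := ⟨y.band, ae c y.lo, ae c y.hi, y.d⟩

/-- The contacts with corners, the arcs (density one) and the bottom line. -/
noncomputable def its (T : Tmpl) (pl : Plan) (c : Cfg ℝ) : List It :=
  (cons T pl c).map (Con.it c) ++ ((List.range (T.n + 1)).map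
    (fun j => ⟨true, c.eta j, c.eta (j + 1), cond (T.cor j) 0 1⟩) ++ [⟨false, π, π, g0 T c⟩])

/-- The weighted sum of `f` over the three folded contact directions. -/
noncomputable def Plc.tri (P : Plc) (A B : ℝ) (k : ℤ × ℤ) (f : ℝ → ℝ) (e : ℝ) : ℝ :=
  wt A B P.r * f e + wt A B (P.r + 1) * f (P.s1 * P.dir A B e 1 + k.1 * (2 * π))
    + wt A B (P.r + 2) * f (P.s2 * P.dir A B e 2 + k.2 * (2 * π))

variable {T : Tmpl} {A B : ℝ} {x : Sol} {c : Cfg ℝ} {pl : Plan}

theorem its_cor (T : Tmpl) (j : ℕ) : T.cor j = true ↔ (T.J j).s = 0 := ieq_iff _ _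

theorem its_steps (h : Sem T A B x c) (C : List (Con ℝ)) (z : ℕ) {y : Con ℝ} (hy : y ∈ C)
    (hz : y.z = z) (st : List (AE × AE)) : ∀ (f : Bool) (a : AE),
      (∀ v ∈ steps T c C z f a st, 0 ≤ v) → ae c y.hi ≤ x.η (z + 1) := by
  induction st with
  | nil =>
    intro f a hv
    simp only [steps] at hv
    have h1 := hv _ List.mem_cons_self
    have h2 := hv (dif c a y.hi) (List.mem_cons_of_mem _ (List.mem_map.2
      ⟨y, List.mem_filter.2 ⟨hy, by simp [hz]⟩, rfl⟩))
    rw [dif_eq, h.etaE] at h1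
    rw [dif_eq] at h2
    linarith
  | cons p st ih =>
    intro f a hv
    obtain ⟨mu, b⟩ := p
    simp only [steps] at hv
    exact ih false b fun v hm => hv v (List.mem_append_right _ (List.mem_append_right _
      (List.mem_append_right _ hm)))

theorem its_range (h : Sem T A B x c) {C : List (Con ℝ)} (hd : ∀ v ∈ dualI T pl c C, 0 ≤ v)
    {y : Con ℝ} (hy : y ∈ C) (hz : y.z ≤ T.n) (hs : (T.J y.z).s = 0) :
    x.η y.z ≤ ae c y.lo ∧ ae c y.hi ≤ x.η (y.z + 1) := by
  have hZ : ∀ v ∈ zoneI T c C y.z (pl.zs.getD y.z ⟨⟨0, 0, 0, 0, 0, 0⟩, []⟩), 0 ≤ v :=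
    fun v hv => hd v (List.mem_flatMap.2 ⟨y.z, List.mem_range.2 (Nat.lt_succ_of_le hz), hv⟩)
  generalize pl.zs.getD y.z ⟨⟨0, 0, 0, 0, 0, 0⟩, []⟩ = Z at hZ
  unfold zoneI at hZ
  rw [(its_cor T y.z).2 hs, cnd_true] at hZ
  have h1 := hZ _ List.mem_cons_self
  have h2 := hZ (dif c y.lo Z.g) (List.mem_cons_of_mem _ (List.mem_append_right _
    (List.mem_append_left _ (List.mem_map.2 ⟨y, List.mem_filter.2 ⟨hy, by simp⟩, rfl⟩))))
  rw [dif_eq, h.etaE] at h1
  rw [dif_eq] at h2
  refine ⟨by linarith, its_steps h C y.z hy rfl Z.st true Z.g fun v hv => hZ v ?_⟩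
  exact List.mem_cons_of_mem _ (List.mem_append_right _ (List.mem_append_right _ hv))

theorem its_atom (c : Cfg ℝ) (z : ℕ) (e : AE) (d : ℝ) :
    toC (atomC c z e d).v = (d : ℝ) * uu (ae c e) := by
  apply Complex.ext <;> simp [toC, atomC, vsm, uu]

theorem its_band (c : Cfg ℝ) (z : ℕ) (up : Bool) (e0 e1 : AE) (d : ℝ) :
    toC (bandC c z up e0 e1 d).v = (d : ℝ) *
      (tt (ae c (bandC c z up e0 e1 d).lo) - tt (ae c (bandC c z up e0 e1 d).hi)) := by
  apply Complex.ext <;> simp [toC, bandC, vsm, vt, vsub, sub, tt] <;> left <;> ring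

theorem its_band_le (h : Sem T A B x c) {P : Plc} {j i z : ℕ} {σ : ℤ} (k : ℤ) (d : ℝ)
    (hP : P.s = 1 ∨ P.s = -1) (hσ : σ = 1 ∨ σ = -1) (hm : x.η j ≤ x.η (j + 1)) :
    ae c (bandC c z (ieq P.s σ) (dirE T P j i σ k) (dirE T P (j + 1) i σ k) d).lo ≤
      ae c (bandC c z (ieq P.s σ) (dirE T P j i σ k) (dirE T P (j + 1) i σ k) d).hi := by
  simp only [bandC, cnd_eq, ieq_iff]
  split_ifs with he
  · rw [h.dirE P j i hσ, h.dirE P (j + 1) i hσ]
    unfold Plc.dir
    rw [he]
    rcases hσ with rfl | rfl <;> push_cast <;> linarith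
  · rw [h.dirE P j i hσ, h.dirE P (j + 1) i hσ]
    unfold Plc.dir
    rcases hσ with rfl | rfl <;> rcases hP with hP | hP <;> first
      | exact absurd hP he
      | (rw [hP]; push_cast; linarith)

/-- Every contact lies in the range of normals of its corner. -/
theorem Sem.zone (h : Sem T A B x c) (s : Sys T A B x)
    (hd : ∀ v ∈ dualI T pl c (cons T pl c), 0 ≤ v) {y : Con ℝ} (hy : y ∈ cons T pl c) :
    y.z ≤ T.n ∧ (T.J y.z).s = 0 ∧ x.η y.z ≤ ae c y.lo ∧ ae c y.lo ≤ ae c y.hi ∧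
      ae c y.hi ≤ x.η (y.z + 1) ∧ 0 ≤ y.d ∧
      toC y.v = (y.d : ℝ) * (if y.band then tt (ae c y.lo) - tt (ae c y.hi) else uu (ae c y.lo)) ∧
      (y.band = false → y.hi = y.lo) := by
  have key : y.z ≤ T.n ∧ (T.J y.z).s = 0 ∧ ae c y.lo ≤ ae c y.hi ∧ 0 ≤ y.d ∧
      toC y.v = (y.d : ℝ) * (if y.band then tt (ae c y.lo) - tt (ae c y.hi) else uu (ae c y.lo)) ∧
      (y.band = false → y.hi = y.lo) := by
    obtain ⟨-, -, -, wj, wa⟩ := Tmpl.wf_spec h.wf
    have hw := fun r => (wt_pos h.A0 h.B0 h.AB r).le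
    rcases List.mem_append.1 hy with hy | hy
    · obtain ⟨p, hp, hy⟩ := List.mem_flatMap.1 hy
      have hp := List.mem_range.1 hp
      obtain ⟨-, -, -, a1, a2, a3, a4⟩ := Plc.wf_spec (wa p hp).1
      have hm : 0 ≤ c.m p := by rw [h.m]; exact (s.atom p hp).1
      simp only [atomCs, List.mem_cons, List.not_mem_nil, or_false] at hy
      rcases hy with rfl | rfl
      · exact ⟨a1, a3, le_rfl, by
          change 0 ≤ MP_d76e6a_co.wm c _ _
          rw [h.wm]; exact mul_nonneg (hw _) hm, its_atom _ _ _ _, fun _ => rfl⟩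
      · exact ⟨a2, a4, le_rfl, by
          change 0 ≤ MP_d76e6a_co.wm c _ _
          rw [h.wm]; exact mul_nonneg (hw _) hm, its_atom _ _ _ _, fun _ => rfl⟩
    · obtain ⟨j, hj, hy⟩ := List.mem_flatMap.1 hy
      have hj : j ≤ T.n := Nat.lt_succ_iff.1 (List.mem_range.1 hj)
      unfold bandCs at hy
      cases hc : T.cor j with
      | true => rw [hc, cnd_true] at hy; exact absurd hy List.not_mem_nil
      | false =>
        rw [hc, cnd_false] at hy
        have hs : (T.J j).s ≠ 0 := fun h0 => by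
          rw [(its_cor T j).2 h0] at hc; exact absurd hc (by decide)
        obtain ⟨b0, b1, b2, a1, a2, a3, a4⟩ := Plc.wf_spec (wj j hj hs).1
        have hr : 0 ≤ MP_d76e6a_co.rho c (T.J j).r := by
          rw [(h.rho hj hs).1]; exact rad_nonneg T h.A0 h.B0 h.AB j
        have hm := (s.sgn j hj).2
        simp only [List.mem_cons, List.not_mem_nil, or_false] at hy
        rcases hy with rfl | rfl
        · exact ⟨a1, a3, its_band_le h _ _ b0 b1 hm, by
            change 0 ≤ MP_d76e6a_co.wm c _ _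
            rw [h.wm]; exact mul_nonneg (hw _) hr, its_band _ _ _ _ _ _,
            fun hb => absurd hb (by simp [bandC])⟩
        · exact ⟨a2, a4, its_band_le h _ _ b0 b2 hm, by
            change 0 ≤ MP_d76e6a_co.wm c _ _
            rw [h.wm]; exact mul_nonneg (hw _) hr, its_band _ _ _ _ _ _,
            fun hb => absurd hb (by simp [bandC])⟩
  obtain ⟨k1, k2, k3, k4, k5, k6⟩ := key
  obtain ⟨r1, r2⟩ := its_range h hd hy k1 k2
  exact ⟨k1, k2, r1, k3, r2, k4, k5, k6⟩

theorem Sys.eta_mono (s : Sys T A B x) {i j : ℕ} (hij : i ≤ j) (hj : j ≤ T.n + 1) :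
    x.η i ≤ x.η j := by
  induction j, hij using Nat.le_induction with
  | base => exact le_rfl
  | succ j _ ih => exact (ih (by omega)).trans (s.sgn j (by omega)).2

theorem Sem.its_ok (h : Sem T A B x c) (s : Sys T A B x)
    (hd : ∀ v ∈ dualI T pl c (cons T pl c), 0 ≤ v) : ∀ y ∈ its T pl c, y.ok := by
  have e0 : ∀ j ≤ T.n + 1, 0 ≤ x.η j := fun j hj => by
    rw [← s.first]; exact s.eta_mono (Nat.zero_le _) hj
  have e1 : ∀ j ≤ T.n + 1, x.η j ≤ π := fun j hj => by
    rw [← s.final]; exact s.eta_mono hj le_rfl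
  intro y hy
  rcases List.mem_append.1 hy with hy | hy
  · obtain ⟨w, hw, rfl⟩ := List.mem_map.1 hy
    obtain ⟨k1, -, k2, k3, k4, k5, -⟩ := h.zone s hd hw
    exact ⟨(e0 _ (by omega)).trans k2, k3, k4.trans (e1 _ (by omega)), k5⟩
  · rcases List.mem_append.1 hy with hy | hy
    · obtain ⟨j, hj, rfl⟩ := List.mem_map.1 hy
      have hj : j ≤ T.n := Nat.lt_succ_iff.1 (List.mem_range.1 hj)
      refine ⟨?_, ?_, ?_, ?_⟩
      · change 0 ≤ c.eta j
        rw [h.eta]; exact e0 j (by omega)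
      · change c.eta j ≤ c.eta (j + 1)
        rw [h.eta]; exact (s.sgn j hj).2
      · change c.eta (j + 1) ≤ π
        rw [h.eta]; exact e1 _ (by omega)
      · change (0 : ℝ) ≤ cond (T.cor j) 0 1
        cases T.cor j <;> simp
    · rw [List.mem_singleton.1 hy]
      refine ⟨pi_pos.le, le_rfl, le_rfl, ?_⟩
      change 0 ≤ MP_d76e6a_co.g0 T c
      rw [h.g0]
      exact sum_nonneg fun p hp => mul_nonneg (s.atom p (mem_range.1 hp)).1
        (wt_pos h.A0 h.B0 h.AB _).le

theorem its_nu_append (L M : List It) (f : ℝ → ℝ) : nu (L ++ M) f = nu L f + nu M f := by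
  simp [nu]

theorem its_ev_le {y : It} (hy : y.ok) {S : Set ℝ} (hS : MeasurableSet S) :
    y.ev (Set.indicator S 1) ≤ if y.band then y.d * (y.hi - y.lo) else y.d := by
  obtain ⟨h1, h2, h3, h4⟩ := hy
  have hi : ∀ e, Set.indicator S (1 : ℝ → ℝ) e ≤ 1 := fun e => by
    by_cases he : e ∈ S
    · rw [Set.indicator_of_mem he, Pi.one_apply]
    · rw [Set.indicator_of_notMem he]; exact zero_le_one
  unfold It.ev
  split_ifs
  · refine mul_le_mul_of_nonneg_left ?_ h4
    have := intervalIntegral.integral_mono_on (μ := volume) h2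
      (xd_good_ind hS continuous_one _ _ h1 h2 h3)
      ((continuous_const (y := (1 : ℝ))).intervalIntegrable _ _) fun e _ => hi e
    simpa using this
  · simpa using mul_le_mul_of_nonneg_left (hi y.lo) h4

theorem its_ev_zero {y : It} (hy : y.ok) {g : ℝ} (hg : y.hi ≤ g) :
    y.ev (Set.indicator (Set.Ioo g π) 1) = 0 := by
  obtain ⟨-, h2, -, -⟩ := hy
  have hi : ∀ e, e ≤ y.hi → Set.indicator (Set.Ioo g π) (1 : ℝ → ℝ) e = 0 := fun e he =>
    Set.indicator_of_notMem (fun hm => absurd hm.1 (not_lt.2 (he.trans hg))) _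
  unfold It.ev
  split_ifs
  · rw [intervalIntegral.integral_congr (g := fun _ => (0 : ℝ))]
    · simp
    · intro e he
      rw [Set.uIcc_of_le h2] at he
      exact hi e he.2
  · rw [hi _ h2, mul_zero]

theorem its_high (c : Cfg ℝ) (g : ℕ) (C : List (Con ℝ)) : ∀ (L : List Bool),
    (∀ y ∈ C, (y.it c).ok) → (∀ v ∈ lowI c g C L, 0 ≤ v) →
      nu (C.map (Con.it c)) (Set.indicator (Set.Ioo (g * π / 2880) π) 1) ≤ highM c C L := by
  induction C with
  | nil => intro L _ _; simp [nu, highM]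
  | cons y C ih =>
    intro L ok hv
    have oy := ok y List.mem_cons_self
    have oC : ∀ w ∈ C, (w.it c).ok := fun w hw => ok w (List.mem_cons_of_mem _ hw)
    have hm : (y.it c).ev (Set.indicator (Set.Ioo (g * π / 2880) π) 1) ≤ massC c y := by
      refine (its_ev_le oy measurableSet_Ioo).trans (le_of_eq ?_)
      unfold massC
      rw [cnd_eq, dif_eq]
      rfl
    rw [List.map_cons, xd_nu_cons]
    match L with
    | [] =>
      have := ih [] oC (by cases C <;> simp [lowI])
      simp only [highM]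
      linarith
    | false :: L =>
      simp only [lowI] at hv
      have := ih L oC hv
      simp only [highM]
      linarith
    | true :: L =>
      simp only [lowI] at hv
      have h1 := ih L oC fun v hw => hv v (List.mem_cons_of_mem _ hw)
      have h2 := hv _ List.mem_cons_self
      simp only [sub, num_real] at h2
      push_cast at h2
      have h3 : (y.it c).hi ≤ g * π / 2880 := by
        change ae c y.hi ≤ _
        have hp := Real.pi_gt_d20
        have : (g : ℝ) * (4685082 / 4294967296) ≤ g * (π / 2880) :=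
          mul_le_mul_of_nonneg_left (by linarith) (Nat.cast_nonneg g)
        linarith
      rw [its_ev_zero oy h3]
      simp only [highM]
      linarith

theorem Sem.d2 (h : Sem T A B x c) (ok : ∀ y ∈ its T pl c, y.ok) {bd : Bad}
    (hb : ∀ v ∈ badI T pl bd c (cons T pl c), 0 ≤ v) :
    nu (its T pl c) (Set.indicator (Set.Ioo (bd.g * π / 2880) π) 1) ≤ 1 := by
  have _ := h.wf
  unfold badI at hb
  have h1 := hb _ List.mem_cons_self
  have h2 := its_high c bd.g (cons T pl c) pl.low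
    (fun y hy => ok _ (List.mem_append_left _ (List.mem_map.2 ⟨y, hy, rfl⟩)))
    fun v hv => hb v (by simp only [List.mem_cons]; tauto)
  have h3 : nu ((List.range (T.n + 1)).map
      (fun j => (⟨true, c.eta j, c.eta (j + 1), cond (T.cor j) 0 1⟩ : It)))
      (Set.indicator (Set.Ioo (bd.g * π / 2880) π) 1) ≤ arcSum T (del c) := by
    unfold arcSum nu
    rw [lsum_eq, List.map_map]
    refine List.sum_le_sum fun j hj => ?_
    have oj := ok _ (List.mem_append_right _ (List.mem_append_left _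
      (List.mem_map.2 ⟨j, hj, rfl⟩)))
    refine (its_ev_le oj measurableSet_Ioo).trans (le_of_eq ?_)
    cases T.cor j <;> simp [del, sub, sub_eq_add_neg]
  have h4 : nu [(⟨false, π, π, MP_d76e6a_co.g0 T c⟩ : It)]
      (Set.indicator (Set.Ioo (bd.g * π / 2880) π) 1) = 0 := by
    simp [nu, It.ev]
  unfold its
  rw [its_nu_append, its_nu_append, h4]
  simp only [sub, one, num_real] at h1
  push_cast at h1
  linarith

end Pool.Agent.P.MP_d76e6a_co
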