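import Pool.Agent.P.MP_d76e6a_co.XIts

/-!
Integration over the families of placements.
-/

namespace Pool.Agent.P.MP_d76e6a_co

open Real Finset MeasureTheory

variable {T : Tmpl} {A B : ℝ} {x : Sol} {c : Cfg ℝ} {pl : Plan}

theorem its2_aff {σ κ a b : ℝ} (hσ : σ = 1 ∨ σ = -1) {f : ℝ → ℝ} (hf : XdGood f) (hab : a ≤ b)
    (ha : 0 ≤ σ * a + κ ∧ σ * a + κ ≤ π) (hb : 0 ≤ σ * b + κ ∧ σ * b + κ ≤ π) :
    IntervalIntegrable (fun e => f (σ * e + κ)) volume a b := by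
  rcases hσ with rfl | rfl
  · have := (hf (a + κ) (b + κ) (by linarith [ha.1]) (by linarith) (by linarith [hb.2])).comp_add_right κ
    simpa using this
  · have := (hf (κ - b) (κ - a) (by linarith [hb.1]) (by linarith) (by linarith [ha.2])).comp_sub_left κ
    have e : (fun e => f (-1 * e + κ)) = fun e => f (κ - e) := by
      funext e; congr 1; ring
    rw [e]
    simpa using this.symm

theorem its2_dir (P : Plc) (A B : ℝ) (i : ℕ) (s k : ℤ) (e : ℝ) :
    s * P.dir A B e i + k * (2 * π) =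
      ((s * P.s : ℤ) : ℝ) * e + (s * (off A B (P.r + i) - off A B P.r) + k * (2 * π)) := by
  unfold Plc.dir
  push_cast
  ring

theorem its2_sg {s t : ℤ} (hs : s = 1 ∨ s = -1) (ht : t = 1 ∨ t = -1) :
    ((s * t : ℤ) : ℝ) = 1 ∨ ((s * t : ℤ) : ℝ) = -1 := by
  rcases hs with rfl | rfl <;> rcases ht with rfl | rfl <;> norm_num

theorem its2_between {σ κ a b e : ℝ} (hσ : σ = 1 ∨ σ = -1) (h1 : a ≤ e) (h2 : e ≤ b)
    (ha : 0 ≤ σ * a + κ ∧ σ * a + κ ≤ π) (hb : 0 ≤ σ * b + κ ∧ σ * b + κ ≤ π) :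
    0 ≤ σ * e + κ ∧ σ * e + κ ≤ π := by
  rcases hσ with rfl | rfl
  · constructor <;> linarith [ha.1, hb.2]
  · constructor <;> linarith [ha.2, hb.1]

theorem its2_band_ok {z : ℕ} {up : Bool} {e0 e1 : AE} {d : ℝ}
    (h : (Con.it c (bandC c z up e0 e1 d)).ok) :
    (0 ≤ ae c e0 ∧ ae c e0 ≤ π) ∧ (0 ≤ ae c e1 ∧ ae c e1 ≤ π) := by
  obtain ⟨h1, h2, h3, _⟩ := h
  cases up
  · simp only [Con.it, bandC, cnd_false] at h1 h2 h3
    exact ⟨⟨by linarith, h3⟩, h1, by linarith⟩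
  · simp only [Con.it, bandC, cnd_true] at h1 h2 h3
    exact ⟨⟨h1, by linarith⟩, by linarith, h3⟩

theorem its2_cor {j : ℕ} (hs : (T.J j).s ≠ 0) : T.cor j = false := by
  cases h : T.cor j
  · rfl
  · exact absurd ((ieq_iff _ _).1 h) hs

theorem its2_cor' {j : ℕ} (hs : (T.J j).s = 0) : T.cor j = true := (ieq_iff _ _).2 hs

theorem its2_mem_band {j : ℕ} (hj : j ≤ T.n) {y : Con ℝ}
    (hy : y ∈ bandCs T c j (pl.kj.getD j (0, 0))) : Con.it c y ∈ its T pl c :=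
  List.mem_append_left _ (List.mem_map_of_mem (List.mem_append_right _
    (List.mem_flatMap.2 ⟨j, List.mem_range.2 (Nat.lt_succ_of_le hj), hy⟩)))

theorem its2_mem_atom {p : ℕ} (hp : p < T.na) {y : Con ℝ}
    (hy : y ∈ atomCs T c p (pl.ka.getD p (0, 0))) : Con.it c y ∈ its T pl c :=
  List.mem_append_left _ (List.mem_map_of_mem (List.mem_append_left _
    (List.mem_flatMap.2 ⟨p, List.mem_range.2 hp, hy⟩)))

theorem its2_wfJ (h : Sem T A B x c) {j : ℕ} (hj : j ≤ T.n) (hs : (T.J j).s ≠ 0) :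
    ((T.J j).s = 1 ∨ (T.J j).s = -1) ∧ ((T.J j).s1 = 1 ∨ (T.J j).s1 = -1) ∧
      ((T.J j).s2 = 1 ∨ (T.J j).s2 = -1) := by
  obtain ⟨a, b, d, _⟩ := Plc.wf_spec ((Tmpl.wf_spec h.wf).2.2.2.1 j hj hs).1
  exact ⟨a, b, d⟩

theorem its2_wfA (h : Sem T A B x c) {p : ℕ} (hp : p < T.na) :
    ((T.At p).s = 1 ∨ (T.At p).s = -1) ∧ ((T.At p).s1 = 1 ∨ (T.At p).s1 = -1) ∧
      ((T.At p).s2 = 1 ∨ (T.At p).s2 = -1) := by
  obtain ⟨a, b, d, _⟩ := Plc.wf_spec ((Tmpl.wf_spec h.wf).2.2.2.2 p hp).1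
  exact ⟨a, b, d⟩

/-- The folded directions at both ends of an arc lie in the half circle. -/
theorem its2_ends (h : Sem T A B x c) (ok : ∀ y ∈ its T pl c, y.ok) {j : ℕ} (hj : j ≤ T.n)
    (hs : (T.J j).s ≠ 0) {i : ℕ} (hi : i = j ∨ i = j + 1) :
    (0 ≤ (T.J j).s1 * (T.J j).dir A B (x.η i) 1 + (pl.kj.getD j (0, 0)).1 * (2 * π) ∧
      (T.J j).s1 * (T.J j).dir A B (x.η i) 1 + (pl.kj.getD j (0, 0)).1 * (2 * π) ≤ π) ∧
    (0 ≤ (T.J j).s2 * (T.J j).dir A B (x.η i) 2 + (pl.kj.getD j (0, 0)).2 * (2 * π) ∧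
      (T.J j).s2 * (T.J j).dir A B (x.η i) 2 + (pl.kj.getD j (0, 0)).2 * (2 * π) ≤ π) := by
  obtain ⟨_, w1, w2⟩ := its2_wfJ h hj hs
  have a1 := its2_band_ok (ok _ (its2_mem_band (pl := pl) hj (by
    rw [bandCs, its2_cor hs, cnd_false]; exact List.mem_cons_self)))
  have a2 := its2_band_ok (ok _ (its2_mem_band (pl := pl) hj (by
    rw [bandCs, its2_cor hs, cnd_false]; exact List.mem_cons_of_mem _ List.mem_cons_self)))
  rw [h.dirE _ _ _ w1, h.dirE _ _ _ w1] at a1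
  rw [h.dirE _ _ _ w2, h.dirE _ _ _ w2] at a2
  rcases hi with rfl | rfl
  · exact ⟨a1.1, a2.1⟩
  · exact ⟨a1.2, a2.2⟩

theorem its2_atom_rng (h : Sem T A B x c) (ok : ∀ y ∈ its T pl c, y.ok) {p : ℕ} (hp : p < T.na) :
    (0 ≤ (T.At p).s1 * (T.At p).dir A B π 1 + (pl.ka.getD p (0, 0)).1 * (2 * π) ∧
      (T.At p).s1 * (T.At p).dir A B π 1 + (pl.ka.getD p (0, 0)).1 * (2 * π) ≤ π) ∧
    (0 ≤ (T.At p).s2 * (T.At p).dir A B π 2 + (pl.ka.getD p (0, 0)).2 * (2 * π) ∧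
      (T.At p).s2 * (T.At p).dir A B π 2 + (pl.ka.getD p (0, 0)).2 * (2 * π) ≤ π) := by
  obtain ⟨_, w1, w2⟩ := its2_wfA h hp
  obtain ⟨a1, _, a2, _⟩ := ok _ (its2_mem_atom (pl := pl) hp (by
    rw [atomCs]; exact List.mem_cons_self))
  obtain ⟨b1, _, b2, _⟩ := ok _ (its2_mem_atom (pl := pl) hp (by
    rw [atomCs]; exact List.mem_cons_of_mem _ List.mem_cons_self))
  simp only [Con.it, atomC] at a1 a2 b1 b2
  rw [h.dirE _ _ _ w1, h.en] at a1 a2
  rw [h.dirE _ _ _ w2, h.en] at b1 b2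
  exact ⟨⟨a1, a2⟩, b1, b2⟩

theorem its2_eta (s : Sys T A B x) {j : ℕ} (hj : j ≤ T.n) :
    0 ≤ x.η j ∧ x.η j ≤ x.η (j + 1) ∧ x.η (j + 1) ≤ π :=
  ⟨s.first ▸ s.eta_mono (Nat.zero_le j) (by omega), (s.sgn j hj).2,
    s.final ▸ s.eta_mono (by omega) le_rfl⟩

theorem its2_int12 (h : Sem T A B x c) (s : Sys T A B x) (ok : ∀ y ∈ its T pl c, y.ok)
    {f : ℝ → ℝ} (hf : XdGood f) {j : ℕ} (hj : j ≤ T.n) (hs : (T.J j).s ≠ 0) :
    IntervalIntegrable (fun e => f ((T.J j).s1 * (T.J j).dir A B e 1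
      + (pl.kj.getD j (0, 0)).1 * (2 * π))) volume (x.η j) (x.η (j + 1)) ∧
    IntervalIntegrable (fun e => f ((T.J j).s2 * (T.J j).dir A B e 2
      + (pl.kj.getD j (0, 0)).2 * (2 * π))) volume (x.η j) (x.η (j + 1)) := by
  obtain ⟨w0, w1, w2⟩ := its2_wfJ h hj hs
  obtain ⟨a1, a2⟩ := its2_ends h ok hj hs (Or.inl rfl)
  obtain ⟨b1, b2⟩ := its2_ends h ok hj hs (Or.inr rfl)
  simp only [its2_dir] at a1 a2 b1 b2 ⊢
  exact ⟨its2_aff (its2_sg w1 w0) hf (s.sgn j hj).2 a1 b1,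
    its2_aff (its2_sg w2 w0) hf (s.sgn j hj).2 a2 b2⟩

theorem Sem.tri_int (h : Sem T A B x c) (s : Sys T A B x) (ok : ∀ y ∈ its T pl c, y.ok)
    {f : ℝ → ℝ} (hf : ∀ a b, 0 ≤ a → a ≤ b → b ≤ π → IntervalIntegrable f volume a b) {j : ℕ}
    (hj : j ≤ T.n) (hs : (T.J j).s ≠ 0) :
    IntervalIntegrable ((T.J j).tri A B (pl.kj.getD j (0, 0)) f) volume (x.η j) (x.η (j + 1)) := by
  obtain ⟨i1, i2⟩ := its2_int12 h s ok hf hj hs
  obtain ⟨e0, e1, e2⟩ := its2_eta s hj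
  exact (((hf _ _ e0 e1 e2).const_mul _).add (i1.const_mul _)).add (i2.const_mul _)

theorem its2_nu_app (L M : List It) (f : ℝ → ℝ) : nu (L ++ M) f = nu L f + nu M f := by
  simp [nu]

theorem its2_nu_flat (g : ℕ → List (Con ℝ)) (n : ℕ) (f : ℝ → ℝ) :
    nu (((List.range n).flatMap g).map (Con.it c)) f = ∑ i ∈ range n, nu ((g i).map (Con.it c)) f := by
  induction n with
  | zero => simp [nu]
  | succ n ih =>
    rw [List.range_succ, List.flatMap_append, List.map_append, its2_nu_app, ih, sum_range_succ]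
    simp

theorem its2_nu_map (g : ℕ → It) (n : ℕ) (f : ℝ → ℝ) :
    nu ((List.range n).map g) f = ∑ i ∈ range n, (g i).ev f := by
  induction n with
  | zero => simp [nu]
  | succ n ih =>
    rw [List.range_succ, List.map_append, its2_nu_app, ih, sum_range_succ]
    simp [nu]

theorem its2_band_ev (h : Sem T A B x c) (P : Plc) (w0 : P.s = 1 ∨ P.s = -1) {s : ℤ}
    (w : s = 1 ∨ s = -1) (z j i : ℕ) (k : ℤ) (d : ℝ) (f : ℝ → ℝ) :
    (Con.it c (bandC c z (ieq P.s s) (dirE T P j i s k) (dirE T P (j + 1) i s k) d)).ev f =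
      d * ∫ e in x.η j..x.η (j + 1), f (s * P.dir A B e i + k * (2 * π)) := by
  simp only [its2_dir]
  generalize hκ : s * (off A B (P.r + i) - off A B P.r) + k * (2 * π) = κ
  have e0 : ∀ j, ae c (dirE T P j i s k) = ((s * P.s : ℤ) : ℝ) * x.η j + κ := fun j => by
    rw [h.dirE _ _ _ w, its2_dir, hκ]
  cases hu : ieq P.s s
  · have hne : P.s ≠ s := fun e => by rw [(ieq_iff _ _).2 e] at hu; exact absurd hu (by simp)
    have hσ : ((s * P.s : ℤ) : ℝ) = -1 := by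
      rcases w with rfl | rfl <;> rcases w0 with e | e <;> simp_all
    simp only [Con.it, bandC, It.ev, cnd_false, e0, hσ, if_true]
    have e : (fun e => f (-1 * e + κ)) = fun e => f (κ - e) := by
      funext e; congr 1; ring
    rw [e, intervalIntegral.integral_comp_sub_left]
    congr 2 <;> ring
  · have he : P.s = s := (ieq_iff _ _).1 hu
    have hσ : ((s * P.s : ℤ) : ℝ) = 1 := by
      rcases w with rfl | rfl <;> simp [he]
    simp only [Con.it, bandC, It.ev, cnd_true, e0, hσ, if_true, one_mul]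
    rw [intervalIntegral.integral_comp_add_right]

theorem its2_rad0 {j : ℕ} (hs : (T.J j).s = 0) : rad T A B j = 0 := by
  simp [rad, hs]

theorem Sem.nu_its (h : Sem T A B x c) (s : Sys T A B x) (ok : ∀ y ∈ its T pl c, y.ok)
    {f : ℝ → ℝ} (hf : ∀ a b, 0 ≤ a → a ≤ b → b ≤ π → IntervalIntegrable f volume a b) :
    nu (its T pl c) f =
      ∑ p ∈ range T.atoms.length, x.m p * (T.At p).tri A B (pl.ka.getD p (0, 0)) f π
        + ∑ j ∈ range (T.n + 1), rad T A B j *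
          ∫ e in x.η j..x.η (j + 1), (T.J j).tri A B (pl.kj.getD j (0, 0)) f e := by
  have e1 : ∀ p ∈ range T.atoms.length, x.m p * (T.At p).tri A B (pl.ka.getD p (0, 0)) f π =
      nu ((atomCs T c p (pl.ka.getD p (0, 0))).map (Con.it c)) f
        + x.m p * wt A B (T.At p).r * f π := fun p hp => by
    obtain ⟨_, w1, w2⟩ := its2_wfA h (p := p) (mem_range.1 hp)
    simp only [atomCs, List.map_cons, List.map_nil, nu, List.sum_cons, List.sum_nil, Con.it, atomC,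
      It.ev, h.dirE _ _ _ w1, h.dirE _ _ _ w2, h.en, h.wm, h.m, Plc.tri]
    simp only [Bool.false_eq_true, if_false]
    ring
  have e2 : ∀ j ∈ range (T.n + 1), rad T A B j *
      ∫ e in x.η j..x.η (j + 1), (T.J j).tri A B (pl.kj.getD j (0, 0)) f e =
      nu ((bandCs T c j (pl.kj.getD j (0, 0))).map (Con.it c)) f
        + It.ev ⟨true, c.eta j, c.eta (j + 1), cond (T.cor j) 0 1⟩ f := fun j hj => by
    have hj' : j ≤ T.n := Nat.lt_succ_iff.1 (mem_range.1 hj)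
    by_cases hs : (T.J j).s = 0
    · simp [its2_rad0 hs, bandCs, its2_cor' hs, nu, It.ev]
    · obtain ⟨w0, w1, w2⟩ := its2_wfJ h hj' hs
      obtain ⟨i1, i2⟩ := its2_int12 h s ok hf hj' hs
      obtain ⟨t0, t1, t2⟩ := its2_eta s hj'
      obtain ⟨q1, q2⟩ := h.rho hj' hs
      have i0 := hf _ _ t0 t1 t2
      rw [bandCs, its2_cor hs, cnd_false, List.map_cons, List.map_cons, List.map_nil, xd_nu_cons,
        xd_nu_cons, its2_band_ev h _ w0 w1, its2_band_ev h _ w0 w2, h.wm, h.wm, q1]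
      unfold Plc.tri
      rw [intervalIntegral.integral_add ((i0.const_mul _).add (i1.const_mul _)) (i2.const_mul _),
        intervalIntegral.integral_add (i0.const_mul _) (i1.const_mul _),
        intervalIntegral.integral_const_mul, intervalIntegral.integral_const_mul,
        intervalIntegral.integral_const_mul]
      simp only [nu, It.ev, h.eta, List.map_nil, List.sum_nil, if_true, cond_false]
      linear_combination (∫ e in x.η j..x.η (j + 1), f e) * q2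
  rw [sum_congr rfl e1, sum_congr rfl e2, sum_add_distrib, sum_add_distrib, its, cons,
    List.map_append, its2_nu_app, its2_nu_app, its2_nu_app, its2_nu_flat, its2_nu_flat,
    its2_nu_map, ← sum_mul, ← h.g0]
  simp only [nu, It.ev, List.map_cons, List.map_nil, List.sum_cons, List.sum_nil,
    Bool.false_eq_true, if_false, Tmpl.na]
  ring

theorem its2_cos_sg {s : ℤ} (hs : s = 1 ∨ s = -1) (y : ℝ) : cos (s * y) = cos y := by
  rcases hs with rfl | rfl <;> simp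

theorem its2_tri_cos (h : Sem T A B x c) {P : Plc} (w0 : P.s = 1 ∨ P.s = -1)
    (w1 : P.s1 = 1 ∨ P.s1 = -1) (w2 : P.s2 = 1 ∨ P.s2 = -1) (k : ℤ × ℤ) (e : ℝ) :
    P.tri A B k cos e = 0 := by
  have := wt_sum h.A0 h.B0 h.AB P.r (P.s * e - off A B P.r) Complex.I
  simp only [hs, Complex.I_re, Complex.I_im, zero_mul, one_mul, zero_add, sub_add_cancel,
    its2_cos_sg w0] at this
  simp only [Plc.tri, cos_add_int_mul_two_pi, its2_cos_sg w1, its2_cos_sg w2, Plc.dir]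
  exact this

theorem Sem.nu_cos (h : Sem T A B x c) (s : Sys T A B x) (ok : ∀ y ∈ its T pl c, y.ok) :
    nu (its T pl c) cos = 0 := by
  rw [h.nu_its s ok (xd_good_cont continuous_cos), sum_eq_zero, sum_eq_zero, add_zero]
  · intro j hj
    by_cases hs : (T.J j).s = 0
    · rw [its2_rad0 hs, zero_mul]
    · obtain ⟨w0, w1, w2⟩ := its2_wfJ h (Nat.lt_succ_iff.1 (mem_range.1 hj)) hs
      simp [its2_tri_cos h w0 w1 w2]
  · intro p hp
    obtain ⟨w0, w1, w2⟩ := its2_wfA h (p := p) (mem_range.1 hp)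
    rw [its2_tri_cos h w0 w1 w2, mul_zero]

theorem its2_row {ρ : ℝ} {f g : ℝ → ℝ} (hA : 0 < A) (hB : 0 < B) (hAB : A + B < π)
    (R : Rows ρ f g A B) (r : ℕ) {θ c0 c1 c2 : ℝ} (h0 : Sup f g (θ + off A B r) c0)
    (h1 : Sup f g (θ + off A B (r + 1)) c1) (h2 : Sup f g (θ + off A B (r + 2)) c2) :
    ρ ≤ wt A B r * c0 + wt A B (r + 1) * c1 + wt A B (r + 2) * c2 := by
  have hp : 0 < sin (A + B) := sin_pos_of_pos_of_lt_pi (by linarith) hAB
  have key : ∀ u v w, Sup f g (θ + (π + A)) u → Sup f g (θ + (π - B)) v → Sup f g (θ + 0) w →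
      ρ ≤ sin B / sin (A + B) * u + sin A / sin (A + B) * v + 1 * w := fun u v w a b d => by
    have := R θ u v w (by rwa [add_assoc]) (by rwa [add_sub_assoc]) (by rwa [add_zero] at d)
    rw [← mul_le_mul_iff_left₀ hp]
    have e : (sin B / sin (A + B) * u + sin A / sin (A + B) * v + 1 * w) * sin (A + B) =
        sin B * u + sin A * v + sin (A + B) * w := by
      field_simp
    rw [e]
    exact this
  rcases (by omega : r % 3 = 0 ∨ r % 3 = 1 ∨ r % 3 = 2) with e | e | e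
  · have e1 : (r + 1) % 3 = 1 := by omega
    have e2 : (r + 2) % 3 = 2 := by omega
    simp only [off, wt, e, e1, e2] at h0 h1 h2 ⊢
    norm_num at h0 h1 h2 ⊢
    have := key _ _ _ h1 h2 (by rwa [add_zero])
    linarith
  · have e1 : (r + 1) % 3 = 2 := by omega
    have e2 : (r + 2) % 3 = 0 := by omega
    simp only [off, wt, e, e1, e2] at h0 h1 h2 ⊢
    norm_num at h0 h1 h2 ⊢
    have := key _ _ _ h0 h1 (by rwa [add_zero])
    linarith
  · have e1 : (r + 1) % 3 = 0 := by omega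
    have e2 : (r + 2) % 3 = 1 := by omega
    simp only [off, wt, e, e1, e2] at h0 h1 h2 ⊢
    norm_num at h0 h1 h2 ⊢
    have := key _ _ _ h2 h0 (by rwa [add_zero])
    linarith

theorem its2_sup (f g : ℝ → ℝ) {s : ℤ} (hs : s = 1 ∨ s = -1) (k : ℤ) {ψ η : ℝ}
    (e : η = s * ψ + k * (2 * π)) (h : 0 ≤ η ∧ η ≤ π) :
    ∃ u v, Sup f g ψ u ∧ Sup g f ψ v ∧ u + v = f η + g η := by
  rcases hs with rfl | rfl
  · exact ⟨_, _, Sup.left f g (-k) h.1 h.2 (by rw [e]; push_cast; ring),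
      Sup.left g f (-k) h.1 h.2 (by rw [e]; push_cast; ring), rfl⟩
  · exact ⟨_, _, Sup.right f g k h.1 h.2 (by rw [e]; push_cast; ring),
      Sup.right g f k h.1 h.2 (by rw [e]; push_cast; ring), add_comm _ _⟩

theorem its2_tri_row (h : Sem T A B x c) {P : Plc} (w0 : P.s = 1 ∨ P.s = -1)
    (w1 : P.s1 = 1 ∨ P.s1 = -1) (w2 : P.s2 = 1 ∨ P.s2 = -1) (k : ℤ × ℤ) {e ρ : ℝ}
    {f g : ℝ → ℝ} (r1 : Rows ρ f g A B) (r2 : Rows ρ g f A B) (h0 : 0 ≤ e ∧ e ≤ π)
    (h1 : 0 ≤ P.s1 * P.dir A B e 1 + k.1 * (2 * π) ∧ P.s1 * P.dir A B e 1 + k.1 * (2 * π) ≤ π)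
    (h2 : 0 ≤ P.s2 * P.dir A B e 2 + k.2 * (2 * π) ∧ P.s2 * P.dir A B e 2 + k.2 * (2 * π) ≤ π) :
    2 * ρ ≤ P.tri A B k f e + P.tri A B k g e := by
  obtain ⟨u0, v0, a0, b0, d0⟩ := its2_sup f g w0 0
    (ψ := P.s * e - off A B P.r + off A B P.r) (η := e)
    (by rcases w0 with q | q <;> rw [q] <;> push_cast <;> ring) h0
  obtain ⟨u1, v1, a1, b1, d1⟩ := its2_sup f g w1 k.1 rfl h1
  obtain ⟨u2, v2, a2, b2, d2⟩ := its2_sup f g w2 k.2 rfl h2
  have p1 := its2_row h.A0 h.B0 h.AB r1 P.r a0 a1 a2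
  have p2 := its2_row h.A0 h.B0 h.AB r2 P.r b0 b1 b2
  unfold Plc.tri
  linear_combination p1 + p2 + wt A B P.r * d0 + wt A B (P.r + 1) * d1 + wt A B (P.r + 2) * d2

theorem Sem.rows (h : Sem T A B x c) (s : Sys T A B x) (ok : ∀ y ∈ its T pl c, y.ok) {ρ : ℝ}
    {L R : Half} (r1 : Rows ρ L.h R.h A B) (r2 : Rows ρ R.h L.h A B) :
    ρ * (2 * (∑ p ∈ range T.atoms.length, x.m p
      + ∑ j ∈ range (T.n + 1), rad T A B j * (x.η (j + 1) - x.η j)))
      ≤ nu (its T pl c) L.h + nu (its T pl c) R.h := by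
  have gL : ∀ a b, 0 ≤ a → a ≤ b → b ≤ π → IntervalIntegrable L.h volume a b :=
    fun _ _ => L.h_int
  have gR : ∀ a b, 0 ≤ a → a ≤ b → b ≤ π → IntervalIntegrable R.h volume a b :=
    fun _ _ => R.h_int
  rw [h.nu_its s ok gL, h.nu_its s ok gR, add_add_add_comm, ← sum_add_distrib, ← sum_add_distrib,
    ← mul_assoc, mul_add, mul_sum, mul_sum]
  refine add_le_add (sum_le_sum fun p hp => ?_) (sum_le_sum fun j hj => ?_)
  · obtain ⟨w0, w1, w2⟩ := its2_wfA h (p := p) (mem_range.1 hp)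
    obtain ⟨a1, a2⟩ := its2_atom_rng h ok (p := p) (mem_range.1 hp)
    have := mul_le_mul_of_nonneg_left (its2_tri_row h w0 w1 w2 _ r1 r2 ⟨pi_pos.le, le_rfl⟩ a1 a2)
      (s.atom p (mem_range.1 hp)).1
    linarith
  · have hj' : j ≤ T.n := Nat.lt_succ_iff.1 (mem_range.1 hj)
    by_cases hs : (T.J j).s = 0
    · simp [its2_rad0 hs]
    · obtain ⟨w0, w1, w2⟩ := its2_wfJ h hj' hs
      obtain ⟨t0, t1, t2⟩ := its2_eta s hj'
      obtain ⟨a1, a2⟩ := its2_ends h ok hj' hs (Or.inl rfl)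
      obtain ⟨b1, b2⟩ := its2_ends h ok hj' hs (Or.inr rfl)
      have iL := h.tri_int s ok gL hj' hs
      have iR := h.tri_int s ok gR hj' hs
      have m := intervalIntegral.integral_mono_on t1 (intervalIntegrable_const (c := 2 * ρ))
        (iL.add iR) fun e he => its2_tri_row h w0 w1 w2 _ r1 r2
          ⟨t0.trans he.1, he.2.trans t2⟩
          (by
            rw [its2_dir] at a1 b1 ⊢
            exact its2_between (its2_sg w1 w0) he.1 he.2 a1 b1)
          (by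
            rw [its2_dir] at a2 b2 ⊢
            exact its2_between (its2_sg w2 w0) he.1 he.2 a2 b2)
      rw [intervalIntegral.integral_add iL iR, intervalIntegral.integral_const, smul_eq_mul] at m
      have := mul_le_mul_of_nonneg_left m (rad_nonneg T h.A0 h.B0 h.AB j)
      linarith

end Pool.Agent.P.MP_d76e6a_co
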