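import Pool.Agent.P.MP_d76e6a_co.XCell

/-!
Soundness of the subdivision.
-/

namespace Pool.Agent.P.MP_d76e6a_co

open Real

section
variable {β γ : Type}

theorem kd_fN (n : ℕ) (k : ℕ → β) : fN n k = k n := by cases n <;> rfl

theorem kd_fI (n : ℤ) (k : ℤ → β) : fI n k = k n := by
  cases n with
  | ofNat a => exact kd_fN a fun a => k (Int.ofNat a)
  | negSucc a => exact kd_fN a fun a => k (Int.negSucc a)

theorem kd_fB (b : Bool) (k : Bool → β) : fB b k = k b := by cases b <;> rfl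

theorem kd_fT {N : ℕ} (t : PT N) (k : PT N → β) : fT t k = k t := by
  simp only [fT, kd_fN]

/-- A reader which only calls its continuation. -/
def kd_Calls (rd : ℕ → (γ → ℕ → β) → β) : Prop := ∀ n k, ∃ v m, rd n k = k v m

theorem kd_rdN (m : ℕ) : kd_Calls (β := β) (rdN m) := fun n k =>
  ⟨Nat.mod n m, Nat.div n m, by simp only [rdN, kd_fN]⟩

theorem kd_rdI (m h : ℕ) : kd_Calls (β := β) (rdI m h) := fun n k =>
  ⟨Int.subNatNat (Nat.mod n m) h, Nat.div n m, by simp only [rdI, kd_fI, kd_fN]⟩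

theorem kd_rdL {rd : ℕ → (γ → ℕ → β) → β} (h : kd_Calls rd) (c : ℕ) : kd_Calls (rdL rd c) := by
  induction c with
  | zero => exact fun n k => ⟨[], n, rfl⟩
  | succ c ih =>
    intro n k
    obtain ⟨v, m, e⟩ := h n fun v n => rdL rd c n fun l n => k (v :: l) n
    obtain ⟨l, m', e'⟩ := ih m fun l n => k (v :: l) n
    exact ⟨v :: l, m', e.trans e'⟩

theorem kd_rdLL {rd : ℕ → (γ → ℕ → β) → β} (h : kd_Calls rd) : kd_Calls (rdLL rd) := by
  intro n k
  obtain ⟨c, m, e⟩ := kd_rdN 64 n fun c n => rdL rd c n k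
  obtain ⟨l, m', e'⟩ := kd_rdL h c m k
  exact ⟨l, m', e.trans e'⟩

theorem kd_rdQ : kd_Calls (β := β) rdQ := by
  intro n k
  simp only [rdQ, rdN, rdI, kd_fN, kd_fI]
  cases Nat.beq (Nat.mod n 2) 0
  · exact ⟨_, _, rfl⟩
  · exact ⟨_, _, rfl⟩

theorem kd_rdAE : kd_Calls (β := β) rdAE := by
  intro n k
  simp only [rdAE, rdN, rdI, kd_fN, kd_fI]
  obtain ⟨q, m, e⟩ := kd_rdQ (β := β) _ _
  exact ⟨_, _, e⟩

theorem kd_rdAnc : kd_Calls (β := β) rdAnc := by
  intro n k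
  simp only [rdAnc, rdN, rdI, kd_fN, kd_fI]
  exact ⟨_, _, rfl⟩

theorem kd_rdIv : kd_Calls (β := β) rdIv := by
  intro n k
  simp only [rdIv, rdAnc, rdN, rdI, kd_fN, kd_fI]
  obtain ⟨q, m, e⟩ := kd_rdAE (β := β) _ _
  exact ⟨_, _, e⟩

theorem kd_rdPair : kd_Calls (β := β) fun n (k : AE × AE → ℕ → β) =>
    rdAE n fun a n => rdAE n fun b n => k (a, b) n := by
  intro n k
  obtain ⟨a, m, e⟩ := kd_rdAE n fun a n => rdAE n fun b n => k (a, b) n
  obtain ⟨b, m', e'⟩ := kd_rdAE m fun b n => k (a, b) n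
  exact ⟨(a, b), m', e.trans e'⟩

theorem kd_rdZone : kd_Calls (β := β) rdZone := by
  intro n k
  obtain ⟨g, m, e⟩ := kd_rdAE n fun g n => rdLL (fun n k => rdAE n fun a n => rdAE n fun b n =>
    k (a, b) n) n fun st n => k ⟨g, st⟩ n
  obtain ⟨st, m', e'⟩ := kd_rdLL kd_rdPair m fun st n => k ⟨g, st⟩ n
  exact ⟨⟨g, st⟩, m', e.trans e'⟩

theorem kd_rdK : kd_Calls (β := β) rdK := by
  intro n k
  simp only [rdK, rdI, kd_fN, kd_fI]
  exact ⟨_, _, rfl⟩

theorem kd_rdBit : kd_Calls (β := β) fun n (k : Bool → ℕ → β) =>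
    rdN 2 n fun f n => fB (Nat.beq f 1) fun f => k f n := by
  intro n k
  simp only [rdN, kd_fN, kd_fB]
  exact ⟨_, _, rfl⟩

theorem kd_nth_mem (l : List γ) (j : ℕ) (d : γ) (h : j < l.length) : nth l j d ∈ l := by
  induction l generalizing j with
  | nil => simp at h
  | cons a l ih =>
    cases j with
    | zero => exact List.mem_cons_self
    | succ j => exact List.mem_cons_of_mem _ (ih j (by simpa using h))

end

theorem rdPlan_ex (n : ℕ) (k : Plan → Bool) : ∃ pl, rdPlan n k = k pl := by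
  unfold rdPlan
  obtain ⟨ka, n1, e1⟩ := kd_rdLL (β := Bool) kd_rdK n _
  rw [e1]
  obtain ⟨kj, n2, e2⟩ := kd_rdLL (β := Bool) kd_rdK n1 _
  rw [e2]
  obtain ⟨low, n3, e3⟩ := kd_rdLL (β := Bool) kd_rdBit n2 _
  rw [e3]
  obtain ⟨zs, n4, e4⟩ := kd_rdLL (β := Bool) kd_rdZone n3 _
  rw [e4]
  obtain ⟨iv, n5, e5⟩ := kd_rdLL (β := Bool) kd_rdIv n4 _
  rw [e5]
  exact ⟨_, rfl⟩

theorem kd_coord {a b w : ℝ} (h0 : a ≤ 512 * w) (h1 : 512 * w ≤ b) :
    ∃ e : ℝ, |e| ≤ 1 ∧ 1024 * w = (a + b) + (b - a) * e := by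
  rcases (h0.trans h1).eq_or_lt with h | h
  · exact ⟨0, by simp, by linarith⟩
  · have hp : 0 < b - a := sub_pos.2 h
    refine ⟨(1024 * w - (a + b)) / (b - a), ?_, ?_⟩
    · rw [abs_div, abs_of_pos hp, div_le_one hp, abs_le]
      constructor <;> linarith
    · field_simp
      ring

theorem kdOK_sound {T : Tmpl} {pls : List ℕ} {bds : List Bad} {p q : ℕ × ℕ × ℕ} {t : KD}
    (hT : T.wf = true) (hN : T.N ≤ 1000) (hb : ∀ bd ∈ bds, bd.Ok) {u0 u1 v0 v1 : ℤ}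
    (h : kdOK T pls bds p q t u0 u1 v0 v1 = true) {u v A B : ℝ} (hu0 : u0 ≤ 512 * u)
    (hu1 : 512 * u ≤ u1) (hv0 : v0 ≤ 512 * v) (hv1 : 512 * v ≤ v1)
    (eA : 4096 * A = (1 - u) * p.1 + u * q.1)
    (eB : 4096 * B = (1 - v) * ((1 - u) * p.2.1 + u * q.2.1) + v * ((1 - u) * p.2.2 + u * q.2.2))
    (hA : 0 < A) (hB : 0 < B) : ∃ x, Good T A B x := by
  induction t generalizing u0 u1 v0 v1 with
  | leaf pl bd dat =>
    have h' : (Nat.blt bd bds.length && fN T.N fun N =>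
      rdPlan (nth pls pl 0) fun pl => fT (cellA p q u0 u1) fun A =>
        fT (cellB p q u0 u1 v0 v1) fun B =>
          cellOK T N pl (nth bds bd ⟨0, 0, 0, 0⟩) A B dat) = true := h
    rw [Bool.and_eq_true, kd_fN] at h'
    obtain ⟨h1, h2⟩ := h'
    obtain ⟨pl', e⟩ := rdPlan_ex (nth pls pl 0) fun pl => fT (cellA p q u0 u1) fun A =>
      fT (cellB p q u0 u1 v0 v1) fun B => cellOK T T.N pl (nth bds bd ⟨0, 0, 0, 0⟩) A B dat
    rw [e, kd_fT, kd_fT] at h2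
    obtain ⟨e1, b1, c1⟩ := kd_coord hu0 hu1
    obtain ⟨e2, b2, c2⟩ := kd_coord hv0 hv1
    refine cellOK_sound hT hN (hb _ (kd_nth_mem _ _ _ (Nat.blt_eq ▸ h1))) h2 b1 b2
      (fun E s1 s2 => ⟨?_, ?_⟩) hA hB
    · unfold cellA
      convert PT.bil_mem E _ _ _ _ using 1
      rw [s1, s2]
      push_cast
      linear_combination (1 / 4096 : ℝ) * eA + ((q.1 : ℝ) - p.1) / 4194304 * c1
    · simp only [cellB, kd_fI]
      convert PT.bil_mem E _ _ _ _ using 1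
      rw [s1, s2]
      push_cast
      have hu : u = ((u0 + u1) + (u1 - u0) * e1) / 1024 := by linarith
      have hv : v = ((v0 + v1) + (v1 - v0) * e2) / 1024 := by linarith
      have hB' : B = ((1 - v) * ((1 - u) * p.2.1 + u * q.2.1)
        + v * ((1 - u) * p.2.2 + u * q.2.2)) / 4096 := by linarith
      rw [hB', hu, hv]
      ring
  | su m l r ihl ihr =>
    have h' : (kdOK T pls bds p q l u0 m v0 v1 && kdOK T pls bds p q r m u1 v0 v1) = true := h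
    rw [Bool.and_eq_true] at h'
    rcases le_total (512 * u) m with hm | hm
    · exact ihl h'.1 hu0 hm hv0 hv1
    · exact ihr h'.2 hm hu1 hv0 hv1
  | sv m l r ihl ihr =>
    have h' : (kdOK T pls bds p q l u0 u1 v0 m && kdOK T pls bds p q r u0 u1 m v1) = true := h
    rw [Bool.and_eq_true] at h'
    rcases le_total (512 * v) m with hm | hm
    · exact ihl h'.1 hu0 hu1 hv0 hm
    · exact ihr h'.2 hu0 hu1 hm hv1

theorem strip_sound {T : Tmpl} {pls : List ℕ} {bds : List Bad} {p q : ℕ × ℕ × ℕ} {t : KD}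
    (hT : T.wf = true) (hN : T.N ≤ 1000) (hb : ∀ bd ∈ bds, bd.Ok)
    (h : kdOK T pls bds p q t 0 512 0 512 = true) {A B : ℝ} (hs : InStrip p q A B) (hA : 0 < A)
    (hB : 0 < B) : ∃ x, Good T A B x := by
  obtain ⟨u, ⟨hu0, hu1⟩, eA, hl, hr⟩ := hs
  have hv : ∃ v ∈ Set.Icc (0 : ℝ) 1, 4096 * B = (1 - v) * ((1 - u) * p.2.1 + u * q.2.1)
      + v * ((1 - u) * p.2.2 + u * q.2.2) := by
    generalize ((1 - u) * p.2.1 + u * q.2.1 : ℝ) = a at hl ⊢
    generalize ((1 - u) * p.2.2 + u * q.2.2 : ℝ) = b at hr ⊢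
    rcases (hl.trans hr).eq_or_lt with e | e
    · exact ⟨0, ⟨le_rfl, zero_le_one⟩, by linarith⟩
    · have hp : 0 < b - a := sub_pos.2 e
      refine ⟨(4096 * B - a) / (b - a), ⟨div_nonneg (by linarith) hp.le,
        (div_le_one hp).2 (by linarith)⟩, ?_⟩
      field_simp
      ring
  obtain ⟨v, ⟨hv0, hv1⟩, eB⟩ := hv
  exact kdOK_sound hT hN hb h (u := u) (v := v) (by push_cast; linarith) (by push_cast; linarith)
    (by push_cast; linarith) (by push_cast; linarith) eA eB hA hB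

end Pool.Agent.P.MP_d76e6a_co
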