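import Pool.Agent.P.MP_d76e6a_co.XPT

/-!
Products of packed Taylor models.
-/

namespace Pool.Agent.P.MP_d76e6a_co

open Finset

variable {N : ℕ}

def cK0 : ℕ := Nat.add (Nat.mul (bia cM0) (bia cM0)) (Nat.shiftLeft cA0 92)
def cK1 (N : ℕ) : ℕ :=
  Nat.add (Nat.mul 2 (Nat.mul (bia cML) (bia (cM1 N)))) (Nat.shiftLeft (cA1 N) 92)
def PT.lw (s : PT N) : ℕ := Nat.land s.p (ful cML)
def hiM (m : ℕ) : ℕ := Nat.shiftLeft (Nat.shiftRight m 52) 52

def mulP (a b : ℕ) : ℕ :=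
  Nat.land (Nat.shiftRight (Nat.sub (Nat.add (Nat.mul a b) cK0)
    (Nat.mul (bia cM0) (Nat.add a b))) 40) (ful cA0)

def mulX (N : ℕ) (a b x y : ℕ) : ℕ :=
  Nat.land (Nat.shiftRight (Nat.sub (Nat.add (Nat.add (Nat.mul a y) (Nat.mul b x)) (cK1 N))
    (Nat.add (Nat.mul (bia (cM1 N)) (Nat.add a b)) (Nat.mul (bia cML) (Nat.add x y)))) 40)
    (ful (cA1 N))

def PT.mul (s t : PT N) : PT N :=
  let U0 := mulP s.p t.p
  let U1 := mulX N s.lw t.lw s.x t.x
  ⟨Nat.land U0 (ful cM0), Nat.land U1 (ful (cM1 N)),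
    Nat.add (Nat.add (asum (Nat.land U0 (ful cD0)) cD0 148618787703226368)
      (asum (Nat.land U1 (ful (cD1 N))) (cD1 N) (Nat.mul 54043195528445952 N)))
      (Nat.add (Nat.add 44 (Nat.mul 15 N)) (Nat.shiftRight (Nat.add
        (Nat.add (Nat.mul s.n1 (Nat.add t.n1 t.n2)) (Nat.mul s.n2 t.n1))
        (Nat.add (Nat.mul s.r (Nat.add t.nn t.r)) (Nat.mul t.r s.nn))) 40)),
    Nat.add (Nat.succ (Nat.shiftRight (Nat.mul s.nn t.nn) 40)) (hiM (Nat.add s.m t.m))⟩

def mul_conv (n1 n2 : ℕ) (a b : ℕ → ℤ) (k : ℕ) : ℤ :=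
  ∑ p ∈ range n1 ×ˢ range n2, if p.1 + p.2 = k then a p.1 * b p.2 else 0

theorem mul_conv_sum {R : Type*} [CommRing R] {n1 n2 n3 : ℕ} {a b : ℕ → ℤ} (w1 w2 w3 : ℕ → R)
    (h : ∀ i j, a i ≠ 0 → b j ≠ 0 → i + j < n3 ∧ w3 (i + j) = w1 i * w2 j) :
    ∑ k ∈ range n3, (mul_conv n1 n2 a b k : R) * w3 k
      = (∑ i ∈ range n1, (a i : R) * w1 i) * ∑ j ∈ range n2, (b j : R) * w2 j := by
  rw [sum_mul_sum, ← sum_product']
  simp only [mul_conv, Int.cast_sum, sum_mul]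
  rw [sum_comm]
  refine sum_congr rfl fun p _ => ?_
  by_cases ha : a p.1 = 0
  · simp [ha]
  by_cases hb : b p.2 = 0
  · simp [hb]
  obtain ⟨h1, h2⟩ := h _ _ ha hb
  rw [sum_eq_single (p.1 + p.2)]
  · rw [if_pos rfl, h2]; push_cast; ring
  · intro k _ hk
    rw [if_neg (Ne.symm hk)]; simp
  · intro hk
    exact absurd (mem_range.2 h1) hk

theorem mul_conv_zero {n1 n2 n3 : ℕ} {a b : ℕ → ℤ}
    (h : ∀ i j, a i ≠ 0 → b j ≠ 0 → i + j < n3) {k : ℕ} (hk : ¬k < n3) :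
    mul_conv n1 n2 a b k = 0 := by
  refine sum_eq_zero fun p _ => ?_
  split_ifs with hp
  · by_contra hne
    exact hk (hp ▸ h _ _ (left_ne_zero_of_mul hne) (right_ne_zero_of_mul hne))
  · rfl

theorem mul_conv_abs (n1 n2 : ℕ) (a b : ℕ → ℤ) (k : ℕ) :
    |mul_conv n1 n2 a b k| ≤ (∑ i ∈ range n1, |a i|) * ∑ j ∈ range n2, |b j| := by
  rw [sum_mul_sum, ← sum_product']
  refine (abs_sum_le_sum_abs _ _).trans (sum_le_sum fun p _ => ?_)
  split_ifs
  · exact (abs_mul _ _).le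
  · rw [abs_zero]; positivity

theorem mul_sl (a b : ℕ) : Nat.shiftLeft a b = a * 2 ^ b := Nat.shiftLeft_eq a b
theorem mul_sr (a b : ℕ) : Nat.shiftRight a b = a / 2 ^ b := Nat.shiftRight_eq_div_pow a b

theorem mul_bia (M : ℕ) : bia M = M * 2 ^ 52 := by
  delta bia; exact mul_sl _ _

theorem mul_hiM (m : ℕ) : hiM m = m / 2 ^ 52 * 2 ^ 52 := by
  delta hiM; rw [mul_sl, mul_sr]

theorem mul_shl (p : ℕ → Bool) (n s : ℕ) :
    ((pat p n * 2 ^ s : ℕ) : ℤ)
      = ∑ k ∈ range n, (cond (p k) (2 ^ s) 0 : ℤ) * 2 ^ (96 * k) := by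
  rw [pat, pk]
  push_cast
  rw [sum_mul]
  refine sum_congr rfl fun k _ => ?_
  cases p k <;> simp [mul_comm]

theorem mul_rep {v n : ℕ} {p : ℕ → Bool} {c : ℕ → ℤ} (h : Rep v p n c) :
    (v : ℤ) = ∑ k ∈ range n, c k * 2 ^ (96 * k) + (bia (pat p n) : ℕ) := by
  rw [h.eq, mul_bia, mul_shl, ← sum_add_distrib]
  refine sum_congr rfl fun k _ => ?_
  rw [add_mul]
  norm_num

theorem mul_core {A B n : ℕ} {d : ℕ → ℤ}
    (h : (A : ℤ) - B = ∑ k ∈ range n, d k * 2 ^ (96 * k)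
      + (Nat.shiftLeft (pat (fun _ => true) n) 92 : ℕ))
    (hz : ∀ k, ¬k < n → d k = 0) (hd : ∀ k, |d k| < 2 ^ 92) :
    Rep (Nat.land (Nat.shiftRight (Nat.sub A B) 40) (ful (pat (fun _ => true) n))) (fun _ => true) n
      fun k => d k / 2 ^ 40 := by
  rw [mul_sl, mul_shl, ← sum_add_distrib] at h
  simp only [← add_mul] at h
  have h0 : (0 : ℤ) ≤ (A : ℤ) - B := by
    rw [h]
    refine sum_nonneg fun k _ => mul_nonneg ?_ (by positivity)
    have := (abs_lt.1 (hd k)).1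
    simp only [cond_true]
    linarith
  refine rep_shift (fun _ => true) ?_ (fun k hk => hz k fun h => hk ⟨h, rfl⟩) hd
  rw [← h, Nat.sub_eq]
  omega

theorem mul_keepP {i : ℕ} (h : keepP i = true) : i % 7 + i / 7 ≤ 3 := by
  simpa [keepP, sdeg] using h

theorem mul_lowP {i : ℕ} (h : lowP i = true) : i % 7 + i / 7 ≤ 1 := by
  simpa [lowP, sdeg] using h

theorem mul_supp {v n : ℕ} {p : ℕ → Bool} {c : ℕ → ℤ} (h : Rep v p n c) {i : ℕ} (hi : c i ≠ 0) :
    i < n ∧ p i = true := by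
  by_contra hn
  exact hi (h.zero i hn)

theorem mul_monP (e1 e2 : ℝ) {i j : ℕ} (h : i % 7 + j % 7 ≤ 6) :
    monP e1 e2 (i + j) = monP e1 e2 i * monP e1 e2 j := by
  have h1 : (i + j) % 7 = i % 7 + j % 7 := by omega
  have h2 : (i + j) / 7 = i / 7 + j / 7 := by omega
  simp only [monP, h1, h2, pow_add]; ring

theorem mul_P {a b : ℕ} {c c' : ℕ → ℤ} (ha : Rep a keepP 43 c) (hb : Rep b keepP 43 c')
    (hd : ∀ k, |mul_conv 43 43 c c' k| < 2 ^ 92) :
    Rep (mulP a b) (fun _ => true) 43 fun k => mul_conv 43 43 c c' k / 2 ^ 40 := by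
  have hs : ∀ i j, c i ≠ 0 → c' j ≠ 0 → i + j < 43 := fun i j hi hj => by
    have h1 := mul_keepP (mul_supp ha hi).2
    have h2 := mul_keepP (mul_supp hb hj).2
    omega
  have key := mul_conv_sum (R := ℤ) (n1 := 43) (n2 := 43) (n3 := 43) (a := c) (b := c')
    (fun k => 2 ^ (96 * k)) (fun k => 2 ^ (96 * k)) (fun k => 2 ^ (96 * k))
    (fun i j hi hj => ⟨hs i j hi hj, by rw [mul_add, pow_add]⟩)
  have e1 := mul_rep ha
  have e2 := mul_rep hb
  rw [← cM0_eq] at e1 e2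
  have hr := mul_core (A := Nat.add (Nat.mul a b) cK0) (B := Nat.mul (bia cM0) (Nat.add a b))
    (n := 43) (d := mul_conv 43 43 c c') ?_ (fun k hk => mul_conv_zero hs hk) hd
  · rw [← cA0_eq] at hr
    exact hr
  · simp only [Int.cast_id] at key
    rw [key, ← cA0_eq]
    delta cK0
    generalize Nat.shiftLeft cA0 92 = A
    generalize bia cM0 = β at *
    simp only [Nat.add_eq, Nat.mul_eq, Nat.cast_add, Nat.cast_mul]
    rw [e1, e2]
    ring

theorem mul_X {a b x y : ℕ} {l l' d d' : ℕ → ℤ} (ha : Rep a lowP 43 l) (hb : Rep b lowP 43 l')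
    (hx : Rep x keepX (15 * N) d) (hy : Rep y keepX (15 * N) d')
    (hd : ∀ k, |mul_conv 43 (15 * N) l d' k + mul_conv 43 (15 * N) l' d k| < 2 ^ 92) :
    Rep (mulX N a b x y) (fun _ => true) (15 * N)
      fun k => (mul_conv 43 (15 * N) l d' k + mul_conv 43 (15 * N) l' d k) / 2 ^ 40 := by
  have hs : ∀ {a y : ℕ} {l d' : ℕ → ℤ}, Rep a lowP 43 l → Rep y keepX (15 * N) d' →
      ∀ i j, l i ≠ 0 → d' j ≠ 0 → i + j < 15 * N := fun ha hy i j hi hj => by
    have h1 := mul_lowP (mul_supp ha hi).2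
    have h2 := mul_lowP (mul_supp hy hj).2
    have h3 := (mul_supp hy hj).1
    omega
  have key := mul_conv_sum (R := ℤ) (n1 := 43) (n2 := 15 * N) (n3 := 15 * N) (a := l) (b := d')
    (fun k => 2 ^ (96 * k)) (fun k => 2 ^ (96 * k)) (fun k => 2 ^ (96 * k))
    (fun i j hi hj => ⟨hs ha hy i j hi hj, by rw [mul_add, pow_add]⟩)
  have key' := mul_conv_sum (R := ℤ) (n1 := 43) (n2 := 15 * N) (n3 := 15 * N) (a := l') (b := d)
    (fun k => 2 ^ (96 * k)) (fun k => 2 ^ (96 * k)) (fun k => 2 ^ (96 * k))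
    (fun i j hi hj => ⟨hs hb hx i j hi hj, by rw [mul_add, pow_add]⟩)
  have e1 := mul_rep ha
  have e2 := mul_rep hb
  have e4 := mul_rep hx
  have e5 := mul_rep hy
  rw [← cML_eq] at e1 e2
  rw [← cM1_eq] at e4 e5
  have hr := mul_core (A := Nat.add (Nat.add (Nat.mul a y) (Nat.mul b x)) (cK1 N))
    (B := Nat.add (Nat.mul (bia (cM1 N)) (Nat.add a b)) (Nat.mul (bia cML) (Nat.add x y)))
    (n := 15 * N) (d := fun k => mul_conv 43 (15 * N) l d' k + mul_conv 43 (15 * N) l' d k)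
    ?_ (fun k hk => by
      rw [mul_conv_zero (hs ha hy) hk, mul_conv_zero (hs hb hx) hk, add_zero]) hd
  · rw [← cA1_eq] at hr
    exact hr
  · simp only [add_mul, sum_add_distrib]
    simp only [Int.cast_id] at key key'
    rw [key, key', ← cA1_eq]
    delta cK1
    generalize Nat.shiftLeft (cA1 N) 92 = A
    generalize bia cML = β at *
    generalize bia (cM1 N) = γ at *
    simp only [Nat.add_eq, Nat.mul_eq, Nat.cast_add, Nat.cast_mul, Nat.cast_ofNat]
    rw [e1, e2, e4, e5]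
    ring

theorem mul_abs_sum {n : ℕ} (a : ℕ → ℤ) {w : ℕ → ℝ} (hw : ∀ k, |w k| ≤ 1) :
    |∑ k ∈ range n, (a k : ℝ) * w k| ≤ ((∑ k ∈ range n, |a k| : ℤ) : ℝ) := by
  push_cast
  refine (abs_sum_le_sum_abs _ _).trans (sum_le_sum fun k _ => ?_)
  rw [abs_mul]
  exact mul_le_of_le_one_right (abs_nonneg _) (hw k)

theorem mul_round {n : ℕ} (e : ℕ → ℤ) (p : ℕ → Bool) {w : ℕ → ℝ} (hw : ∀ k, |w k| ≤ 1) :
    |(∑ k ∈ range n, (e k : ℝ) * w k) / 1099511627776
        - ∑ k ∈ range n, ((cond (p k) (e k / 2 ^ 40) 0 : ℤ) : ℝ) * w k|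
      ≤ n + ((∑ k ∈ range n, |cond (!p k) (e k / 2 ^ 40) 0| : ℤ) : ℝ) := by
  have h1 : (n : ℝ) = ∑ _k ∈ range n, (1 : ℝ) := by simp
  rw [sum_div, ← sum_sub_distrib, h1, Int.cast_sum, ← sum_add_distrib]
  refine (abs_sum_le_sum_abs _ _).trans (sum_le_sum fun k _ => ?_)
  have h2 : (e k : ℝ) * w k / 1099511627776 - ((cond (p k) (e k / 2 ^ 40) 0 : ℤ) : ℝ) * w k
      = (((e k : ℝ) / 1099511627776 - ((e k / 2 ^ 40 : ℤ) : ℝ))
        + ((cond (!p k) (e k / 2 ^ 40) 0 : ℤ) : ℝ)) * w k := by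
    cases p k
    · simp only [cond_false, Bool.not_false, cond_true, Int.cast_zero]; ring
    · simp only [cond_false, Bool.not_true, cond_true, Int.cast_zero]; ring
  rw [h2, abs_mul]
  refine (mul_le_of_le_one_right (abs_nonneg _) (hw k)).trans ((abs_add_le _ _).trans ?_)
  rw [Int.cast_abs]
  refine add_le_add ?_ le_rfl
  generalize hq : e k / 2 ^ 40 = q
  have h3 : 1099511627776 * q ≤ e k ∧ e k ≤ 1099511627776 * q + 1099511627776 := by omega
  have h4 : (1099511627776 : ℝ) * q ≤ e k := by exact_mod_cast h3.1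
  have h5 : (e k : ℝ) ≤ 1099511627776 * q + 1099511627776 := by exact_mod_cast h3.2
  rw [abs_le]
  constructor <;> linarith

theorem mul_monP_le (E : Env) (k : ℕ) : |monP E.e1 E.e2 k| ≤ 1 := by
  rw [monP, abs_mul, abs_pow, abs_pow]
  exact mul_le_one₀ (pow_le_one₀ (abs_nonneg _) E.h1) (by positivity)
    (pow_le_one₀ (abs_nonneg _) E.h2)

theorem mul_monX_le (E : Env) (k : ℕ) : |E.xi (k / 15) * monP E.e1 E.e2 (k % 15)| ≤ 1 := by
  rw [abs_mul]
  exact mul_le_one₀ (E.hx _) (abs_nonneg _) (mul_monP_le E _)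

theorem mul_card (N : ℕ) :
    ((range (15 * N)).filter fun k => (!keepX k) = true).card = 12 * N := by
  rw [card_filter]
  induction N with
  | zero => simp
  | succ N ih =>
    rw [mul_add, mul_one, sum_range_add, ih]
    have : ∀ x, keepX (15 * N + x) = keepX x := fun x => by
      simp only [keepX, Nat.mul_add_mod]
    simp only [this]
    have h2 : (∑ x ∈ range 15, if (!keepX x) = true then 1 else 0) = 12 := by decide
    rw [h2]; ring

theorem mul_valX (E : Env) {a y : ℕ} {l d' : ℕ → ℤ} (ha : Rep a lowP 43 l)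
    (hy : Rep y keepX (15 * N) d') :
    valX E.e1 E.e2 E.xi N (mul_conv 43 (15 * N) l d')
      = valP E.e1 E.e2 l * valX E.e1 E.e2 E.xi N d' := by
  refine mul_conv_sum (R := ℝ) (monP E.e1 E.e2)
    (fun k => E.xi (k / 15) * monP E.e1 E.e2 (k % 15))
    (fun k => E.xi (k / 15) * monP E.e1 E.e2 (k % 15)) fun i j hi hj => ?_
  have h1 := mul_lowP (mul_supp ha hi).2
  have h2 := mul_lowP (mul_supp hy hj).2
  have h3 := (mul_supp hy hj).1
  refine ⟨by omega, ?_⟩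
  have h4 : (i + j) / 15 = j / 15 := by omega
  have h5 : (i + j) % 15 = i + j % 15 := by omega
  simp only [h4, h5]
  rw [mul_monP _ _ (by omega)]
  ring

theorem mul_split (E : Env) (c : ℕ → ℤ) :
    |valP E.e1 E.e2 c - valP E.e1 E.e2 fun k => cond (lowP k) (c k) 0|
      ≤ ((∑ k ∈ range 43, cond (lowP k) 0 |c k| : ℤ) : ℝ) := by
  have h := mul_abs_sum (n := 43) (fun k => cond (lowP k) 0 (c k)) (mul_monP_le E)
  have h1 : ∑ k ∈ range 43, |cond (lowP k) 0 (c k)| = ∑ k ∈ range 43, cond (lowP k) 0 |c k| :=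
    sum_congr rfl fun k _ => by cases lowP k <;> simp
  rw [h1] at h
  refine le_of_eq_of_le ?_ h
  rw [valP, valP, ← sum_sub_distrib]
  congr 1
  refine sum_congr rfl fun k _ => ?_
  cases lowP k <;> simp

theorem mul_final {u v P X L P' X' L' A B r r' n0 n1 n2 n0' n1' n2' ea eb : ℝ}
    (h : |u * 1099511627776 - (P + X)| ≤ r) (h' : |v * 1099511627776 - (P' + X')| ≤ r')
    (hP : |P| ≤ n0) (hX : |X| ≤ n1) (hL : |P - L| ≤ n2)
    (hP' : |P'| ≤ n0') (hX' : |X'| ≤ n1') (hL' : |P' - L'| ≤ n2')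
    (hA : |P * P' / 1099511627776 - A| ≤ ea)
    (hB : |(L * X' + L' * X) / 1099511627776 - B| ≤ eb) :
    |u * v * 1099511627776 - (A + B)| ≤ ea + eb
      + (n1 * (n1' + n2') + n2 * n1' + (r * (n0' + n1' + r') + r' * (n0 + n1))) / 1099511627776 := by
  have e : u * v * 1099511627776 - (A + B) = (P * P' / 1099511627776 - A)
      + ((L * X' + L' * X) / 1099511627776 - B)
      + (X * (X' + (P' - L')) + (P - L) * X'
        + ((u * 1099511627776 - (P + X)) * (P' + X' + (v * 1099511627776 - (P' + X')))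
          + (v * 1099511627776 - (P' + X')) * (P + X))) / 1099511627776 := by ring
  rw [e]
  refine (abs_add_le _ _).trans (add_le_add ((abs_add_le _ _).trans (add_le_add hA hB)) ?_)
  rw [abs_div, abs_of_pos (by norm_num : (0 : ℝ) < 1099511627776)]
  refine div_le_div_of_nonneg_right ?_ (by norm_num)
  have m : ∀ {a b x y : ℝ}, |a| ≤ x → |b| ≤ y → |a * b| ≤ x * y := fun ha hb => by
    rw [abs_mul]
    exact mul_le_mul ha hb (abs_nonneg _) ((abs_nonneg _).trans ha)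
  have s : ∀ {a b x y : ℝ}, |a| ≤ x → |b| ≤ y → |a + b| ≤ x + y := fun ha hb =>
    (abs_add_le _ _).trans (add_le_add ha hb)
  exact s (s (m hX (s hX' hL')) (m hL hX')) (s (m h (s (s hP' hX') h')) (m h' (s hP hX)))

theorem mul_div_le {e : ℤ} {M : ℕ} (h : |e| ≤ M) :
    |e / 2 ^ 40| ≤ ((M / 2 ^ 40 + 1 : ℕ) : ℤ) := by
  rw [abs_le] at h ⊢
  omega

theorem mul_cond_le {p : Bool} {a b : ℤ} (h : |a| ≤ b) : |cond p a 0| ≤ b := by
  cases p
  · exact le_trans (by simp) h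
  · exact h

theorem PT.mul_mem {E : Env} {s t : PT N} {u v : ℝ} (hs : s.Mem E u) (ht : t.Mem E v) :
    (s.mul t).Mem E (u * v) := by
  intro hm hN
  have hmeq : (s.mul t).m = s.nn * t.nn / 2 ^ 40 + 1 + (s.m + t.m) / 2 ^ 52 * 2 ^ 52 := by
    have h1 : (s.mul t).m = Nat.add (Nat.succ (Nat.shiftRight (Nat.mul s.nn t.nn) 40))
        (hiM (Nat.add s.m t.m)) := by
      delta PT.mul; dsimp only
    rw [h1, mul_hiM, mul_sr]
    simp only [Nat.add_eq, Nat.mul_eq, Nat.succ_eq_add_one]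
  generalize hM : s.nn * t.nn = M at hmeq
  have hsm : s.m < 4503599627370496 := by omega
  have htm : t.m < 4503599627370496 := by omega
  have hMm : M / 2 ^ 40 + 1 ≤ (s.mul t).m := by omega
  have hM92 : (M : ℤ) < 2 ^ 92 := by omega
  obtain ⟨c, d, hc⟩ := hs hsm hN
  obtain ⟨c', d', hc'⟩ := ht htm hN
  obtain ⟨s0, s1, s2, -⟩ := hc.norms hsm hN
  obtain ⟨t0, t1, t2, -⟩ := hc'.norms htm hN
  have bc : ∀ k, |c k| < 4503599627370496 := fun k => by have := hc.bp k; omega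
  have bc' : ∀ k, |c' k| < 4503599627370496 := fun k => by have := hc'.bp k; omega
  have lk : ∀ k, lowP k = true → keepP k = true := fun k hk => by
    have := mul_lowP hk
    simp only [keepP, sdeg, Nat.ble_eq]
    omega
  have hl := hc.hp.mask bc lowP lk
  have hl' := hc'.hp.mask bc' lowP lk
  rw [← cML_eq] at hl hl'
  have hMz : (M : ℤ) = (s.n0 + s.n1) * (t.n0 + t.n1) := by
    rw [← hM]; simp only [PT.nn, Nat.add_eq, Nat.cast_mul, Nat.cast_add]
  have ns0 : (0 : ℤ) ≤ s.n0 := Nat.cast_nonneg _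
  have ns1 : (0 : ℤ) ≤ s.n1 := Nat.cast_nonneg _
  have nt0 : (0 : ℤ) ≤ t.n0 := Nat.cast_nonneg _
  have nt1 : (0 : ℤ) ≤ t.n1 := Nat.cast_nonneg _
  have be : ∀ k, |mul_conv 43 43 c c' k| ≤ M := fun k => by
    have := mul_conv_abs 43 43 c c' k
    rw [← s0, ← t0] at this
    rw [hMz]
    nlinarith [mul_nonneg ns0 nt1, mul_nonneg ns1 nt0, mul_nonneg ns1 nt1]
  have low : ∀ c : ℕ → ℤ, ∑ k ∈ range 43, |cond (lowP k) (c k) 0| ≤ ∑ k ∈ range 43, |c k| :=
    fun c => sum_le_sum fun k _ => mul_cond_le le_rfl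
  have bg : ∀ k, |mul_conv 43 (15 * N) (fun k => cond (lowP k) (c k) 0) d' k
      + mul_conv 43 (15 * N) (fun k => cond (lowP k) (c' k) 0) d k| ≤ M := fun k => by
    have h1 := mul_conv_abs 43 (15 * N) (fun k => cond (lowP k) (c k) 0) d' k
    have h2 := mul_conv_abs 43 (15 * N) (fun k => cond (lowP k) (c' k) 0) d k
    have h3 := low c
    have h4 := low c'
    rw [← t1] at h1
    rw [← s1] at h2
    rw [← s0] at h3
    rw [← t0] at h4
    have h5 := h1.trans (mul_le_mul_of_nonneg_right h3 nt1)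
    have h6 := h2.trans (mul_le_mul_of_nonneg_right h4 ns1)
    refine (abs_add_le _ _).trans ?_
    rw [hMz]
    nlinarith [mul_nonneg ns0 nt0, mul_nonneg ns1 nt1]
  have hU0 := mul_P hc.hp hc'.hp fun k => (be k).trans_lt hM92
  have hU1 := mul_X hl hl' hc.hx hc'.hx fun k => (bg k).trans_lt hM92
  have bf : ∀ {e : ℤ}, |e| ≤ M → |e / 2 ^ 40| ≤ ((s.mul t).m : ℤ) := fun h =>
    (mul_div_le h).trans (Nat.cast_le.2 hMm)
  have bf' : ∀ {e : ℤ}, |e| ≤ M → |e / 2 ^ 40| < 4503599627370496 := fun h => by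
    have := bf h
    omega
  have kP := hU0.mask (fun k => bf' (be k)) keepP fun _ _ => rfl
  have dP := hU0.mask (fun k => bf' (be k)) (fun k => !keepP k) fun _ _ => rfl
  have kX := hU1.mask (fun k => bf' (bg k)) keepX fun _ _ => rfl
  have dX := hU1.mask (fun k => bf' (bg k)) (fun k => !keepX k) fun _ _ => rfl
  have aP := dP.asum (a := 148618787703226368)
    (fun k => (mul_cond_le le_rfl).trans_lt (bf' (be k))) (by norm_num) (by decide)
  have aX := dX.asum (a := Nat.mul 54043195528445952 N)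
    (fun k => (mul_cond_le le_rfl).trans_lt (bf' (bg k))) (by omega)
    (by rw [mul_card, Nat.mul_eq]; omega)
  rw [← cM0_eq] at kP
  rw [← cD0_eq] at dP aP
  rw [← cM1_eq] at kX
  rw [← cD1_eq] at dX aX
  refine ⟨_, _, kP, kX, fun k => mul_cond_le (bf (be k)), fun k => mul_cond_le (bf (bg k)), ?_⟩
  have rP := mul_round (n := 43) (mul_conv 43 43 c c') keepP (mul_monP_le E)
  have rX := mul_round (n := 15 * N)
    (fun k => mul_conv 43 (15 * N) (fun k => cond (lowP k) (c k) 0) d' k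
      + mul_conv 43 (15 * N) (fun k => cond (lowP k) (c' k) 0) d k) keepX (mul_monX_le E)
  rw [← aP] at rP
  rw [← aX] at rX
  have vP : ∑ k ∈ range 43, (mul_conv 43 43 c c' k : ℝ) * monP E.e1 E.e2 k
      = valP E.e1 E.e2 c * valP E.e1 E.e2 c' := by
    refine mul_conv_sum (R := ℝ) _ _ _ fun i j hi hj => ?_
    have h1 := mul_keepP (mul_supp hc.hp hi).2
    have h2 := mul_keepP (mul_supp hc'.hp hj).2
    exact ⟨by omega, mul_monP _ _ (by omega)⟩
  have vX : ∑ k ∈ range (15 * N), ((mul_conv 43 (15 * N) (fun k => cond (lowP k) (c k) 0) d' k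
      + mul_conv 43 (15 * N) (fun k => cond (lowP k) (c' k) 0) d k : ℤ) : ℝ)
        * (E.xi (k / 15) * monP E.e1 E.e2 (k % 15))
      = valP E.e1 E.e2 (fun k => cond (lowP k) (c k) 0) * valX E.e1 E.e2 E.xi N d'
        + valP E.e1 E.e2 (fun k => cond (lowP k) (c' k) 0) * valX E.e1 E.e2 E.xi N d := by
    rw [← mul_valX E hl hc'.hx, ← mul_valX E hl' hc.hx, valX, valX, ← sum_add_distrib]
    refine sum_congr rfl fun k _ => ?_
    rw [Int.cast_add, add_mul]
  rw [vP] at rP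
  rw [vX] at rX
  have p0 := mul_abs_sum (n := 43) c (mul_monP_le E)
  have p1 := mul_abs_sum (n := 15 * N) d (mul_monX_le E)
  have p2 := mul_split E c
  have q0 := mul_abs_sum (n := 43) c' (mul_monP_le E)
  have q1 := mul_abs_sum (n := 15 * N) d' (mul_monX_le E)
  have q2 := mul_split E c'
  rw [← s0] at p0
  rw [← s1] at p1
  rw [← s2] at p2
  rw [← t0] at q0
  rw [← t1] at q1
  rw [← t2] at q2
  have fin := mul_final hc.err hc'.err p0 p1 p2 q0 q1 q2 rP rX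
  refine fin.trans ?_
  generalize hZ : Nat.add (Nat.add (Nat.mul s.n1 (Nat.add t.n1 t.n2)) (Nat.mul s.n2 t.n1))
        (Nat.add (Nat.mul s.r (Nat.add t.nn t.r)) (Nat.mul t.r s.nn)) = Z
  have hr : (s.mul t).r = asum (Nat.land (mulP s.p t.p) (ful cD0)) cD0 148618787703226368
      + asum (Nat.land (mulX N (Nat.land s.p (ful cML)) (Nat.land t.p (ful cML)) s.x t.x)
        (ful (cD1 N))) (cD1 N) (Nat.mul 54043195528445952 N) + (44 + 15 * N + Z / 2 ^ 40) := by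
    have h1 : (s.mul t).r = Nat.add (Nat.add
      (asum (Nat.land (mulP s.p t.p) (ful cD0)) cD0 148618787703226368)
      (asum (Nat.land (mulX N (Nat.land s.p (ful cML)) (Nat.land t.p (ful cML)) s.x t.x)
        (ful (cD1 N))) (cD1 N) (Nat.mul 54043195528445952 N)))
      (Nat.add (Nat.add 44 (Nat.mul 15 N)) (Nat.shiftRight (Nat.add
        (Nat.add (Nat.mul s.n1 (Nat.add t.n1 t.n2)) (Nat.mul s.n2 t.n1))
        (Nat.add (Nat.mul s.r (Nat.add t.nn t.r)) (Nat.mul t.r s.nn))) 40)) := by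
      delta PT.mul PT.lw; dsimp only
    rw [h1, hZ, mul_sr]
    simp only [Nat.add_eq, Nat.mul_eq]
  rw [hr]
  generalize asum (Nat.land (mulP s.p t.p) (ful cD0)) cD0 148618787703226368 = A1
  generalize asum (Nat.land (mulX N (Nat.land s.p (ful cML)) (Nat.land t.p (ful cML)) s.x t.x)
        (ful (cD1 N))) (cD1 N) (Nat.mul 54043195528445952 N) = A2
  have hZr : (Z : ℝ) = s.n1 * (t.n1 + t.n2) + s.n2 * t.n1
      + (s.r * (t.n0 + t.n1 + t.r) + t.r * (s.n0 + s.n1)) := by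
    rw [← hZ]; simp only [PT.nn, Nat.add_eq, Nat.mul_eq, Nat.cast_mul, Nat.cast_add]
  simp only [Int.cast_natCast]
  rw [← hZr]
  generalize hq : Z / 2 ^ 40 = q
  have h3 : Z ≤ 1099511627776 * q + 1099511627776 := by omega
  have h4 : (Z : ℝ) ≤ 1099511627776 * q + 1099511627776 := by exact_mod_cast h3
  push_cast
  linarith

end Pool.Agent.P.MP_d76e6a_co
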