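import Pool.Agent.P.MP_d76e6a_co.XFn
import Pool.Agent.P.MP_d76e6a_co.XFs

/-!
Packed Taylor models without the variables `xi`.
-/

namespace Pool.Agent.P.MP_d76e6a_co

structure P0 where
  p : ℕ
  r : ℕ
  m : ℕ

def P0.up (t : P0) : PT 0 := ⟨t.p, 0, t.r, t.m⟩
def P0.Mem (E : Env) (t : P0) (u : ℝ) : Prop := t.up.Mem E u

def P0.n0 (t : P0) : ℕ := asum t.p cM0 45035996273704960
def P0.cb (t : P0) : ℕ := Nat.land t.p cBM
def P0.cst (a : ℕ) : P0 := ⟨Nat.add (bia cM0) a, 0, a⟩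
noncomputable def P0.num (n : ℤ) : P0 :=
  Int.rec (fun a => P0.cst (Nat.mul a 256)) (fun a =>
    ⟨Nat.sub (bia cM0) (Nat.mul (Nat.succ a) 256), 0, Nat.mul (Nat.succ a) 256⟩) n
def P0.add (s t : P0) : P0 :=
  ⟨Nat.sub (Nat.add s.p t.p) (bia cM0), Nat.add s.r t.r, Nat.add s.m t.m⟩
def P0.neg (s : P0) : P0 := ⟨Nat.sub (Nat.mul 2 (bia cM0)) s.p, s.r, s.m⟩
def P0.nm (a : ℕ) (s : P0) : P0 :=
  ⟨Nat.sub (Nat.add (Nat.mul a s.p) (bia cM0)) (Nat.mul a (bia cM0)), Nat.mul a s.r, Nat.mul a s.m⟩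
noncomputable def P0.zn (a : ℕ) (s : P0) : P0 := Bool.rec (P0.nm a s) s (Nat.beq a 1)
noncomputable def P0.zm (k : ℤ) (s : P0) : P0 :=
  Int.rec (fun a => Bool.rec (P0.zn a s) (P0.cst 0) (Nat.beq a 0))
    (fun a => (P0.zn (Nat.succ a) s).neg) k
def P0.pi : P0 := ⟨Nat.add (bia cM0) 3454217652358, 1, 3454217652358⟩

def P0.mul (s t : P0) : P0 :=
  let U0 := mulP s.p t.p
  ⟨Nat.land U0 (ful cM0),
    Nat.add (Nat.add (asum (Nat.land U0 (ful cD0)) cD0 148618787703226368) 44) (Nat.shiftRight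
        (Nat.add (Nat.mul s.r (Nat.add t.n0 t.r)) (Nat.mul t.r s.n0)) 40),
    Nat.add (Nat.succ (Nat.shiftRight (Nat.mul s.n0 t.n0) 40)) (hiM (Nat.add s.m t.m))⟩

def P0.lin (c0 k1 k2 k3 : ℕ) (s t w : P0) (ex fl : ℕ) : P0 :=
  ⟨Nat.sub (Nat.add (linV cM0 k1 k2 k3 s.p t.p w.p) c0) 2199023255552,
    Nat.add (Nat.shiftRight (Nat.add (Nat.add (Nat.mul (absK k1) s.r) (Nat.mul (absK k2) t.r))
      (Nat.mul (absK k3) w.r)) 40) (Nat.add 11 ex),
    Nat.add (Nat.add (Nat.mul 2 (Nat.add (Nat.add s.m t.m) w.m)) (Nat.add c0 2199023255553))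
      (Nat.shiftLeft fl 52)⟩

noncomputable def P0.sc (t : P0) : P0 × P0 :=
  let q := pSC t.cb
  let d : P0 := ⟨Nat.sub (Nat.add t.p 4503599627370496) t.cb, t.r, t.m⟩
  let d2 := d.mul d
  let d3 := d2.mul d
  let ρ := Nat.sub (Nat.add t.n0 t.r) (absB t.cb)
  let ex := Nat.add (Nat.div (Nat.shiftRight (Nat.mul (Nat.mul ρ ρ) (Nat.mul ρ ρ)) 120) 19) 15
  let fl := Nat.add (Nat.shiftRight ρ 40) (Nat.shiftRight t.n0 46)
  (P0.lin q.1 q.2 (Nat.div (Nat.sub 6597069766656 q.1) 2) (Nat.div (Nat.sub 15393162788864 q.2) 6)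
      d d2 d3 ex fl,
    P0.lin q.2 (Nat.sub 4398046511104 q.1) (Nat.div (Nat.sub 6597069766656 q.2) 2)
      (Nat.div (Nat.add 10995116277760 q.1) 6) d d2 d3 ex fl)

def P0.nonneg (t : P0) : Bool :=
  Nat.ble (Nat.add 9007199254740992 (Nat.add t.n0 t.r))
    (Nat.add (Nat.mul 2 t.cb) (Nat.mod (posp t.p cEV) cBM)) && Nat.ble t.m 4503599627370495

noncomputable def P0.ps (t : P0) : P0 :=
  Bool.rec (Bool.rec
    (P0.lin (Nat.add (Nat.div (Nat.add t.n0 t.r) 4) 2199023255552) 2748779069440 2199023255552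
      2199023255552 t t t (Nat.add (Nat.div (Nat.add t.n0 t.r) 4) 2) 0)
    (P0.cst 0) t.neg.nonneg) t t.nonneg

def PT.low {N : ℕ} (t : PT N) : P0 := ⟨t.p, Nat.add t.r t.n1, t.m⟩

theorem p0_cM1 : cM1 0 = 0 := by decide +kernel
theorem p0_cA1 : cA1 0 = 0 := by decide +kernel
theorem p0_cD1 : cD1 0 = 0 := by decide +kernel
theorem p0_bia : bia 0 = 0 := by decide +kernel
theorem p0_ful : ful 0 = 0 := by decide +kernel
theorem p0_asum : asum 0 0 0 = 0 := by decide +kernel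
theorem p0_land (a : ℕ) : Nat.land a 0 = 0 := Nat.and_zero a

theorem p0_ext {N : ℕ} {s t : PT N} (h1 : s.p = t.p) (h2 : s.x = t.x) (h3 : s.r = t.r)
    (h4 : s.m = t.m) : s = t := by
  cases s
  cases t
  simp only at h1 h2 h3 h4
  subst h1 h2 h3 h4
  rfl

theorem p0_n0 (t : P0) : t.up.n0 = t.n0 := rfl
theorem p0_cb (t : P0) : t.up.cb = t.cb := rfl

theorem p0_n1 (t : P0) : t.up.n1 = 0 := by
  change asum 0 (cM1 0) 0 = 0
  rw [p0_cM1, p0_asum]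

theorem p0_nn (t : P0) : t.up.nn = t.n0 := by
  unfold PT.nn
  rw [p0_n1, p0_n0]
  rfl

theorem p0_bcM : bia (cM1 0) = 0 := by rw [p0_cM1, p0_bia]

theorem p0_cst (a : ℕ) : (P0.cst a).up = PT.cst 0 a := p0_ext rfl p0_bcM.symm rfl rfl

theorem p0_num (n : ℤ) : (P0.num n).up = PT.num 0 n := by
  cases n with
  | ofNat a => exact p0_cst _
  | negSucc a => exact p0_ext rfl p0_bcM.symm rfl rfl

theorem p0_add (s t : P0) : (s.add t).up = s.up.add t.up := by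
  simp only [P0.add, P0.up, PT.add, p0_bcM]

theorem p0_neg (s : P0) : s.neg.up = s.up.neg := by
  simp only [P0.neg, P0.up, PT.neg, p0_bcM]

theorem p0_nm (a : ℕ) (s : P0) : (P0.nm a s).up = PT.nm a s.up := by
  refine p0_ext rfl ?_ rfl rfl
  change 0 = Nat.sub (Nat.add (Nat.mul a 0) (bia (cM1 0))) (Nat.mul a (bia (cM1 0)))
  rw [p0_bcM]
  rfl

theorem p0_zn (a : ℕ) (s : P0) : (P0.zn a s).up = PT.zn a s.up := by
  unfold P0.zn PT.zn
  cases Nat.beq a 1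
  · exact p0_nm a s
  · rfl

theorem p0_zm (k : ℤ) (s : P0) : (P0.zm k s).up = PT.zm k s.up := by
  cases k with
  | ofNat a =>
    change P0.up (Bool.rec (P0.zn a s) (P0.cst 0) (Nat.beq a 0)) =
      Bool.rec (PT.zn a s.up) (PT.cst 0 0) (Nat.beq a 0)
    cases Nat.beq a 0
    · exact p0_zn a s
    · exact p0_cst 0
  | negSucc a =>
    change (P0.zn (Nat.succ a) s).neg.up = (PT.zn (Nat.succ a) s.up).neg
    rw [p0_neg, p0_zn]

theorem p0_pi : P0.pi.up = PT.pi 0 := p0_ext rfl p0_bcM.symm rfl rfl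

theorem p0_mk (a b c : ℕ) {x y : ℕ} (hx : x = 0) (hy : y = b) :
    P0.up ⟨a, b, c⟩ = ⟨a, x, y, c⟩ := by
  rw [hx, hy, P0.up]

theorem p0_p (t : P0) : t.up.p = t.p := by rw [P0.up]
theorem p0_r (t : P0) : t.up.r = t.r := by rw [P0.up]
theorem p0_m (t : P0) : t.up.m = t.m := by rw [P0.up]

theorem p0_mul_aux (a n k z : ℕ) :
    Nat.add (Nat.add a (asum 0 0 (Nat.mul 54043195528445952 0))) (Nat.add (Nat.add 44 (Nat.mul 15 0))
      (Nat.shiftRight (Nat.add (Nat.add (Nat.mul 0 n) (Nat.mul k 0)) z) 40))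
      = Nat.add (Nat.add a 44) (Nat.shiftRight z 40) := by
  have e : asum 0 0 (Nat.mul 54043195528445952 0) = 0 := p0_asum
  have e2 : Nat.add (Nat.add (Nat.mul 0 n) (Nat.mul k 0)) z = z := by simp
  rw [e, e2]
  generalize Nat.shiftRight z 40 = y
  simp only [Nat.add_eq, Nat.mul_eq]
  omega

theorem p0_mul (s t : P0) : (s.mul t).up = s.up.mul t.up := by
  rw [P0.mul, PT.mul, p0_n1, p0_n1, p0_nn, p0_nn, p0_cD1, p0_cM1, p0_ful, p0_land, p0_mul_aux,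
    p0_p, p0_p, p0_r, p0_r, p0_m, p0_m, P0.up]

theorem p0_lin (c0 k1 k2 k3 : ℕ) (s t w : P0) (ex fl : ℕ) :
    (P0.lin c0 k1 k2 k3 s t w ex fl).up = PT.lin c0 k1 k2 k3 s.up t.up w.up ex fl := by
  have e : ∀ a b c, linV 0 k1 k2 k3 a b c = 0 := fun a b c => by
    rw [linV, p0_ful, p0_land]
  have e2 : Nat.add 11 (Nat.mul 3 0) = 11 := rfl
  delta PT.lin P0.lin
  rewrite [p0_cM1, e, e2, p0_p, p0_p, p0_p, p0_r, p0_r, p0_r, p0_m, p0_m, p0_m]
  exact p0_mk _ _ _ rfl rfl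

theorem p0_rad (t : P0) : t.up.rad = Nat.sub (Nat.add t.n0 t.r) (absB t.cb) := by
  unfold PT.rad
  rw [p0_nn]
  rfl

theorem p0_sc (t : P0) : t.sc.1.up = t.up.sc.1 ∧ t.sc.2.up = t.up.sc.2 := by
  have e : t.up.cen = P0.up ⟨Nat.sub (Nat.add t.p 4503599627370496) t.cb, t.r, t.m⟩ := rfl
  simp only [P0.sc, PT.sc, p0_lin, p0_mul, p0_rad, e, p0_n0, p0_cb, and_self]

theorem p0_nonneg (t : P0) : t.nonneg = t.up.nonneg := by
  unfold PT.nonneg
  rw [p0_nn]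
  rfl

theorem p0_rec (a b c : P0) (x y : Bool) :
    P0.up (Bool.rec (Bool.rec a b x) c y) = Bool.rec (Bool.rec a.up b.up x) c.up y := by
  cases x <;> cases y <;> rfl

theorem p0_ps_aux (n : P0 → Bool) (n' : PT 0 → Bool) (hn : ∀ t, n t = n' t.up) (f : P0 → P0)
    (g : PT 0 → PT 0)
    (hf : f = fun t => Bool.rec (Bool.rec
      (P0.lin (Nat.add (Nat.div (Nat.add t.n0 t.r) 4) 2199023255552) 2748779069440 2199023255552
        2199023255552 t t t (Nat.add (Nat.div (Nat.add t.n0 t.r) 4) 2) 0)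
      (P0.cst 0) (n t.neg)) t (n t))
    (hg : g = fun t => Bool.rec (Bool.rec
      (PT.lin (Nat.add (Nat.div (Nat.add t.nn t.r) 4) 2199023255552) 2748779069440 2199023255552
        2199023255552 t t t (Nat.add (Nat.div (Nat.add t.nn t.r) 4) 2) 0)
      (PT.cst 0 0) (n' t.neg)) t (n' t)) (t : P0) : (f t).up = g t.up := by
  subst hf hg
  beta_reduce
  rewrite [p0_rec, p0_lin, p0_cst, ← p0_neg, ← hn, ← hn, p0_nn, p0_r]
  exact Eq.refl _

theorem p0_ps (t : P0) : t.ps.up = t.up.ps :=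
  p0_ps_aux P0.nonneg PT.nonneg p0_nonneg P0.ps PT.ps rfl rfl t

theorem P0.num_mem (E : Env) (n : ℤ) : (P0.num n).Mem E (n / 4294967296) := by
  unfold P0.Mem
  rw [p0_num]
  exact PT.num_mem E n

theorem P0.add_mem {E : Env} {s t : P0} {u v : ℝ} (hs : s.Mem E u) (ht : t.Mem E v) :
    (s.add t).Mem E (u + v) := by
  unfold P0.Mem
  rw [p0_add]
  exact PT.add_mem hs ht

theorem P0.neg_mem {E : Env} {s : P0} {u : ℝ} (hs : s.Mem E u) : s.neg.Mem E (-u) := by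
  unfold P0.Mem
  rw [p0_neg]
  exact PT.neg_mem hs

theorem P0.zm_mem {E : Env} (k : ℤ) {s : P0} {u : ℝ} (hs : s.Mem E u) :
    (P0.zm k s).Mem E (k * u) := by
  unfold P0.Mem
  rw [p0_zm]
  exact PT.zm_mem k hs

theorem P0.pi_mem (E : Env) : P0.pi.Mem E Real.pi := by
  unfold P0.Mem
  rw [p0_pi]
  exact PT.pi_mem E

theorem P0.mul_mem {E : Env} {s t : P0} {u v : ℝ} (hs : s.Mem E u) (ht : t.Mem E v) :
    (s.mul t).Mem E (u * v) := by
  unfold P0.Mem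
  rw [p0_mul]
  exact PT.mul_mem hs ht

theorem P0.sc_mem {E : Env} {t : P0} {u : ℝ} (h : t.Mem E u) :
    t.sc.1.Mem E (Real.sin u) ∧ t.sc.2.Mem E (Real.cos u) := by
  unfold P0.Mem
  rw [(p0_sc t).1, (p0_sc t).2]
  exact PT.sc_mem h

theorem P0.nonneg_sound {E : Env} {t : P0} {u : ℝ} (hn : t.nonneg = true) (h : t.Mem E u) :
    0 ≤ u := by
  rw [p0_nonneg] at hn
  exact PT.nonneg_sound (by norm_num) hn h

theorem P0.ps_mem {E : Env} {t : P0} {u : ℝ} (h : t.Mem E u) : t.ps.Mem E (max u 0) := by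
  unfold P0.Mem
  rw [p0_ps]
  exact PT.ps_mem h

theorem PT.low_mem {N : ℕ} {E : Env} {t : PT N} {u : ℝ} (hN : N ≤ 1000) (h : t.Mem E u) :
    t.low.Mem E u := by
  exact PT.lump_mem hN h

end Pool.Agent.P.MP_d76e6a_co
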