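import Pool.Agent.P.MP_d76e6a_co.XRep

/-!
Arithmetic of packed Taylor models.
-/

namespace Pool.Agent.P.MP_d76e6a_co

open Finset

structure PT (N : ℕ) where
  p : ℕ
  x : ℕ
  r : ℕ
  m : ℕ

def monP (e1 e2 : ℝ) (k : ℕ) : ℝ := e1 ^ (k % 7) * e2 ^ (k / 7)
def valP (e1 e2 : ℝ) (c : ℕ → ℤ) : ℝ := ∑ k ∈ range 43, c k * monP e1 e2 k
def valX (e1 e2 : ℝ) (xi : ℕ → ℝ) (N : ℕ) (d : ℕ → ℤ) : ℝ :=
  ∑ k ∈ range (15 * N), d k * (xi (k / 15) * monP e1 e2 (k % 15))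

variable {N : ℕ}

/-- The coefficients `c`, `d` of the model `t`, which encloses `u`. -/
structure PT.Co (E : Env) (t : PT N) (u : ℝ) (c d : ℕ → ℤ) : Prop where
  hp : Rep t.p keepP 43 c
  hx : Rep t.x keepX (15 * N) d
  bp : ∀ k, |c k| ≤ t.m
  bx : ∀ k, |d k| ≤ t.m
  err : |u * 1099511627776 - (valP E.e1 E.e2 c + valX E.e1 E.e2 E.xi N d)| ≤ t.r

/-- The real number `u` is enclosed by the model `t`, unless an overflow has been recorded. -/
def PT.Mem (E : Env) (t : PT N) (u : ℝ) : Prop :=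
  t.m < 4503599627370496 → N ≤ 1000 → ∃ c d, t.Co E u c d

def PT.n0 (t : PT N) : ℕ := asum t.p cM0 45035996273704960
def PT.n1 (t : PT N) : ℕ := asum t.x (cM1 N) (Nat.mul 13510798882111488 N)
def PT.n2 (t : PT N) : ℕ := asum (Nat.land t.p (ful cMH)) cMH 31525197391593472
def PT.nn (t : PT N) : ℕ := Nat.add t.n0 t.n1
def PT.cb (t : PT N) : ℕ := Nat.land t.p cBM

/-- The value of the digit vector `c`. -/
def pt_W (n : ℕ) (c : ℕ → ℤ) : ℤ := ∑ k ∈ range n, c k * 2 ^ (96 * k)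

theorem pt_bia (p : ℕ → Bool) (n : ℕ) :
    (bia (pat p n) : ℤ) = ∑ k ∈ range n, (cond (p k) 4503599627370496 0 : ℤ) * 2 ^ (96 * k) := by
  have h : bia (pat p n) = pat p n * 2 ^ 52 := Nat.shiftLeft_eq _ _
  rw [h, pat, pk]
  push_cast
  rw [sum_mul]
  refine sum_congr rfl fun k _ => ?_
  cases p k
  · simp
  · simp only [cond_true, Nat.cast_one]
    ring

theorem pt_split (p : ℕ → Bool) (n : ℕ) (c : ℕ → ℤ) :
    ∑ k ∈ range n, (c k + cond (p k) 4503599627370496 0) * 2 ^ (96 * k) =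
      pt_W n c + bia (pat p n) := by
  rw [pt_bia, pt_W, ← sum_add_distrib]
  exact sum_congr rfl fun k _ => add_mul _ _ _

theorem pt_eq {v n : ℕ} {p : ℕ → Bool} {c : ℕ → ℤ} (h : Rep v p n c) :
    (v : ℤ) = pt_W n c + bia (pat p n) := h.eq.trans (pt_split p n c)

theorem pt_mk {v n : ℕ} {p : ℕ → Bool} {c : ℕ → ℤ} (h : (v : ℤ) = pt_W n c + bia (pat p n))
    (hz : ∀ k, ¬(k < n ∧ p k = true) → c k = 0) : Rep v p n c :=
  ⟨h.trans (pt_split p n c).symm, hz⟩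

theorem pt_sub {a b n : ℕ} {p : ℕ → Bool} {c : ℕ → ℤ}
    (h : (a : ℤ) - b = pt_W n c + bia (pat p n))
    (hz : ∀ k, ¬(k < n ∧ p k = true) → c k = 0) (hc : ∀ k, |c k| ≤ 4503599627370496) :
    Rep (Nat.sub a b) p n c := by
  have h0 : 0 ≤ pt_W n c + bia (pat p n) := by
    rw [← pt_split]
    refine sum_nonneg fun k hk => mul_nonneg ?_ (by positivity)
    have h1 := abs_le.1 (hc k)
    cases hp : p k
    · rw [hz k (by simp [hp])]; simp
    · simp only [cond_true]; omega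
  refine pt_mk ?_ hz
  rw [← h]
  exact Nat.cast_sub (by omega)

theorem pt_W_add (n : ℕ) (c d : ℕ → ℤ) : pt_W n (fun k => c k + d k) = pt_W n c + pt_W n d := by
  simp only [pt_W, add_mul, sum_add_distrib]

theorem pt_W_mul (n : ℕ) (a : ℤ) (c : ℕ → ℤ) : pt_W n (fun k => a * c k) = a * pt_W n c := by
  simp only [pt_W, mul_sum, mul_assoc]

theorem pt_W_zero (n : ℕ) : pt_W n (fun _ => 0) = 0 := by simp [pt_W]

/-- The constant coefficient vector. -/
def pt_c0 (z : ℤ) : ℕ → ℤ := fun k => if k = 0 then z else 0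

theorem pt_W_c0 (z : ℤ) : pt_W 43 (pt_c0 z) = z := by
  rw [pt_W, sum_range_succ']
  simp [pt_c0]

theorem pt_c0_zero (z : ℤ) (k : ℕ) (h : ¬(k < 43 ∧ keepP k = true)) : pt_c0 z k = 0 := by
  refine if_neg ?_
  rintro rfl
  exact h ⟨by norm_num, rfl⟩

theorem pt_c0_abs (z : ℤ) (k : ℕ) : |pt_c0 z k| ≤ |z| := by
  unfold pt_c0
  split_ifs <;> simp

theorem pt_mon0 (e1 e2 : ℝ) : monP e1 e2 0 = 1 := by simp [monP]

theorem pt_valP_c0 (e1 e2 : ℝ) (z : ℤ) : valP e1 e2 (pt_c0 z) = z := by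
  rw [valP, sum_range_succ']
  simp [pt_c0, pt_mon0]

theorem pt_valX_zero (e1 e2 : ℝ) (xi : ℕ → ℝ) (N : ℕ) : valX e1 e2 xi N (fun _ => 0) = 0 := by
  simp [valX]

theorem pt_valP_add (e1 e2 : ℝ) (c d : ℕ → ℤ) :
    valP e1 e2 (fun k => c k + d k) = valP e1 e2 c + valP e1 e2 d := by
  simp only [valP, Int.cast_add, add_mul, sum_add_distrib]

theorem pt_valX_add (e1 e2 : ℝ) (xi : ℕ → ℝ) (N : ℕ) (c d : ℕ → ℤ) :
    valX e1 e2 xi N (fun k => c k + d k) = valX e1 e2 xi N c + valX e1 e2 xi N d := by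
  simp only [valX, Int.cast_add, add_mul, sum_add_distrib]

theorem pt_valP_mul (e1 e2 : ℝ) (a : ℤ) (c : ℕ → ℤ) :
    valP e1 e2 (fun k => a * c k) = a * valP e1 e2 c := by
  simp only [valP, Int.cast_mul, mul_sum, mul_assoc]

theorem pt_valX_mul (e1 e2 : ℝ) (xi : ℕ → ℝ) (N : ℕ) (a : ℤ) (c : ℕ → ℤ) :
    valX e1 e2 xi N (fun k => a * c k) = a * valX e1 e2 xi N c := by
  simp only [valX, Int.cast_mul, mul_sum, mul_assoc]

theorem pt_rep_zero (p : ℕ → Bool) (n : ℕ) : Rep (bia (pat p n)) p n fun _ => 0 :=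
  pt_mk (by rw [pt_W_zero, zero_add]) fun _ _ => rfl

theorem pt_mon_le (E : Env) (k : ℕ) : |monP E.e1 E.e2 k| ≤ 1 := by
  rw [monP, abs_mul, abs_pow, abs_pow]
  exact mul_le_one₀ (pow_le_one₀ (abs_nonneg _) E.h1) (by positivity)
    (pow_le_one₀ (abs_nonneg _) E.h2)

theorem pt_sum_le (s : Finset ℕ) (c : ℕ → ℤ) (w : ℕ → ℝ) (hw : ∀ k, |w k| ≤ 1) :
    |∑ k ∈ s, (c k : ℝ) * w k| ≤ ∑ k ∈ s, |(c k : ℝ)| := by
  refine (abs_sum_le_sum_abs _ _).trans (sum_le_sum fun k _ => ?_)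
  rw [abs_mul]
  exact mul_le_of_le_one_right (abs_nonneg _) (hw k)

theorem pt_cardX (N : ℕ) : ((range (15 * N)).filter fun k => keepX k = true).card = 3 * N := by
  rw [card_filter]
  induction N with
  | zero => rfl
  | succ N ih =>
    rw [Nat.mul_succ, sum_range_add, ih]
    have h : ∀ x, keepX (15 * N + x) = keepX x := fun x => by
      unfold keepX
      rw [Nat.mul_add_mod]
    simp only [h]
    have h2 : ∑ x ∈ range 15, (if keepX x = true then 1 else 0) = 3 := by decide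
    omega

theorem pt_lt {c : ℕ → ℤ} {m : ℕ} (h : ∀ k, |c k| ≤ m) (hm : m < 4503599627370496) (k : ℕ) :
    |c k| < 4503599627370496 := by
  have := h k
  omega

theorem PT.Co.norms {E : Env} {t : PT N} {u : ℝ} {c d : ℕ → ℤ} (h : t.Co E u c d)
    (hm : t.m < 4503599627370496) (hN : N ≤ 1000) :
    (t.n0 : ℤ) = ∑ k ∈ range 43, |c k| ∧ (t.n1 : ℤ) = ∑ k ∈ range (15 * N), |d k| ∧
      (t.n2 : ℤ) = ∑ k ∈ range 43, cond (lowP k) 0 |c k| ∧ (t.cb : ℤ) = c 0 + 4503599627370496 := by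
  have hc := pt_lt h.bp hm
  have hd := pt_lt h.bx hm
  refine ⟨?_, ?_, ?_, ?_⟩
  · rw [PT.n0, cM0_eq]
    exact h.hp.asum hc (by norm_num) (by decide +kernel)
  · rw [PT.n1, cM1_eq]
    refine h.hx.asum hd (by omega) ?_
    rw [pt_cardX, Nat.mul_eq]
    omega
  · rw [PT.n2, cMH_eq]
    have h1 := h.hp.mask hc (fun k => keepP k && !lowP k) fun k hk => by
      rw [Bool.and_eq_true] at hk; exact hk.1
    rw [h1.asum (fun k => ?_) (by norm_num) (by decide +kernel)]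
    · refine sum_congr rfl fun k _ => ?_
      cases h2 : lowP k
      · cases h3 : keepP k
        · rw [h.hp.zero k (by simp [h3])]; simp
        · simp
      · simp
    · cases (keepP k && !lowP k)
      · simp
      · exact hc k
  · have h1 := h.hp.pk hc
    have h2 := pk_digit (f := fun k => cond (keepP k) (c k + 4503599627370496).toNat 0) (n := 43)
      (k := 0) (fun k _ => by
        have := abs_lt.1 (hc k)
        cases keepP k
        · simp
        · simp only [cond_true]; omega) (by norm_num)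
    rw [← h1] at h2
    have h3 : t.cb = (c 0 + 4503599627370496).toNat := h2
    have := abs_lt.1 (hc 0)
    omega

theorem PT.Co.abs_le {E : Env} {t : PT N} {u : ℝ} {c d : ℕ → ℤ} (h : t.Co E u c d)
    (hm : t.m < 4503599627370496) (hN : N ≤ 1000) :
    |u * 1099511627776| ≤ t.nn + t.r ∧ |u * 1099511627776 - c 0| + |(c 0 : ℝ)| ≤ t.nn + t.r ∧
      |valX E.e1 E.e2 E.xi N d| ≤ t.n1 := by
  obtain ⟨h0, h1, -, -⟩ := h.norms hm hN
  have r0 : (t.n0 : ℝ) = ∑ k ∈ range 43, |(c k : ℝ)| := by exact_mod_cast h0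
  have r1 : (t.n1 : ℝ) = ∑ k ∈ range (15 * N), |(d k : ℝ)| := by exact_mod_cast h1
  have rn : (t.nn : ℝ) = t.n0 + t.n1 := by rw [PT.nn, Nat.add_eq]; push_cast; rfl
  have hX : |valX E.e1 E.e2 E.xi N d| ≤ t.n1 := by
    rw [r1]
    refine pt_sum_le _ d _ fun k => ?_
    rw [abs_mul]
    exact mul_le_one₀ (E.hx _) (abs_nonneg _) (pt_mon_le E _)
  have hP : |valP E.e1 E.e2 c - c 0| + |(c 0 : ℝ)| ≤ t.n0 := by
    rw [r0, valP, sum_range_succ' (fun k => |(c k : ℝ)|), sum_range_succ' _ 42, pt_mon0, mul_one,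
      add_sub_cancel_right]
    have := pt_sum_le (range 42) (fun k => c (k + 1)) (fun k => monP E.e1 E.e2 (k + 1))
      fun k => pt_mon_le E _
    linarith
  have he := h.err
  have h2 : |u * 1099511627776 - c 0| + |(c 0 : ℝ)| ≤ t.nn + t.r := by
    have h3 : u * 1099511627776 - c 0 =
        (u * 1099511627776 - (valP E.e1 E.e2 c + valX E.e1 E.e2 E.xi N d)) +
          (valP E.e1 E.e2 c - c 0) + valX E.e1 E.e2 E.xi N d := by ring
    have h4 := abs_add_three (u * 1099511627776 - (valP E.e1 E.e2 c + valX E.e1 E.e2 E.xi N d))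
      (valP E.e1 E.e2 c - c 0) (valX E.e1 E.e2 E.xi N d)
    rw [← h3] at h4
    linarith
  refine ⟨le_trans ?_ h2, h2, hX⟩
  have h5 := abs_add_le (u * 1099511627776 - c 0) (c 0 : ℝ)
  rwa [sub_add_cancel] at h5

theorem pt_const (E : Env) {t : PT N} {u : ℝ} (z : ℤ) (hp : Rep t.p keepP 43 (pt_c0 z))
    (hx : t.x = bia (cM1 N)) (hm : |z| ≤ t.m) (hr : |u * 1099511627776 - z| ≤ t.r) :
    t.Co E u (pt_c0 z) fun _ => 0 := by
  refine ⟨hp, ?_, fun k => (pt_c0_abs z k).trans hm, fun k => by simp, ?_⟩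
  · rw [hx, cM1_eq]; exact pt_rep_zero _ _
  · rwa [pt_valP_c0, pt_valX_zero, add_zero]

theorem pt_rep_c0 (a : ℕ) : Rep (Nat.add (bia cM0) a) keepP 43 (pt_c0 a) := by
  refine pt_mk ?_ (pt_c0_zero _)
  rw [pt_W_c0, ← cM0_eq, Nat.add_eq, Nat.cast_add, add_comm]

def PT.cst (N : ℕ) (a : ℕ) : PT N := ⟨Nat.add (bia cM0) a, bia (cM1 N), 0, a⟩

theorem PT.cst_mem (E : Env) (a : ℕ) : (PT.cst N a).Mem E (a / 1099511627776) := by
  intro _ _
  refine ⟨_, _, pt_const E (a : ℤ) (pt_rep_c0 a) rfl (by simp [PT.cst]) ?_⟩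
  simp [PT.cst]

noncomputable def PT.num (N : ℕ) (n : ℤ) : PT N :=
  Int.rec (fun a => PT.cst N (Nat.mul a 256)) (fun a =>
    ⟨Nat.sub (bia cM0) (Nat.mul (Nat.succ a) 256), bia (cM1 N), 0, Nat.mul (Nat.succ a) 256⟩) n

theorem PT.num_mem (E : Env) (n : ℤ) : (PT.num N n).Mem E (n / 4294967296) := by
  cases n with
  | ofNat a =>
    have h := PT.cst_mem (N := N) E (Nat.mul a 256)
    have e : ((Nat.mul a 256 : ℕ) : ℝ) / 1099511627776 = ((Int.ofNat a : ℤ) : ℝ) / 4294967296 := by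
      rw [Nat.mul_eq, Int.ofNat_eq_natCast]
      push_cast
      ring
    rw [e] at h
    exact h
  | negSucc a =>
    intro hm _
    have hm' : Nat.mul (Nat.succ a) 256 < 4503599627370496 := hm
    have ha : |(-((Nat.mul (Nat.succ a) 256 : ℕ) : ℤ))| = ((Nat.mul (Nat.succ a) 256 : ℕ) : ℤ) := by
      rw [abs_neg, Nat.abs_cast]
    refine ⟨_, _, pt_const E (-((Nat.mul (Nat.succ a) 256 : ℕ) : ℤ)) ?_ rfl ha.le ?_⟩
    · refine pt_sub (a := bia cM0) (b := Nat.mul (Nat.succ a) 256) ?_ (pt_c0_zero _) fun k => ?_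
      · rw [pt_W_c0, ← cM0_eq]; ring
      · refine (pt_c0_abs _ k).trans ?_
        rw [ha]
        omega
    · have e : ((Int.negSucc a : ℤ) : ℝ) / 4294967296 * 1099511627776 -
          ((-((Nat.mul (Nat.succ a) 256 : ℕ) : ℤ) : ℤ) : ℝ) = 0 := by
        rw [Nat.mul_eq, Int.cast_negSucc]
        push_cast
        ring
      rw [e, abs_zero]
      exact Nat.cast_nonneg _

theorem pt_rep_add {v w n M : ℕ} {p : ℕ → Bool} {c d : ℕ → ℤ} (hM : M = pat p n)
    (h : Rep v p n c) (h' : Rep w p n d) (hb : ∀ k, |c k + d k| ≤ 4503599627370496) :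
    Rep (Nat.sub (Nat.add v w) (bia M)) p n fun k => c k + d k := by
  subst hM
  refine pt_sub ?_ (fun k hk => by rw [h.zero k hk, h'.zero k hk, add_zero]) hb
  rw [pt_W_add, Nat.add_eq, Nat.cast_add, pt_eq h, pt_eq h']
  ring

theorem pt_rep_neg {v n M : ℕ} {p : ℕ → Bool} {c : ℕ → ℤ} (hM : M = pat p n) (h : Rep v p n c)
    (hb : ∀ k, |-1 * c k| ≤ 4503599627370496) :
    Rep (Nat.sub (Nat.mul 2 (bia M)) v) p n fun k => -1 * c k := by
  subst hM
  refine pt_sub ?_ (fun k hk => by rw [h.zero k hk, mul_zero]) hb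
  rw [pt_W_mul, Nat.mul_eq, Nat.cast_mul, pt_eq h]
  push_cast
  ring

theorem pt_rep_nm {v n M : ℕ} {p : ℕ → Bool} {c : ℕ → ℤ} (hM : M = pat p n) (a : ℕ)
    (h : Rep v p n c) (hb : ∀ k, |(a : ℤ) * c k| ≤ 4503599627370496) :
    Rep (Nat.sub (Nat.add (Nat.mul a v) (bia M)) (Nat.mul a (bia M))) p n
      fun k => (a : ℤ) * c k := by
  subst hM
  refine pt_sub ?_ (fun k hk => by rw [h.zero k hk, mul_zero]) hb
  rw [pt_W_mul, Nat.add_eq, Nat.mul_eq, Nat.mul_eq, Nat.cast_add, Nat.cast_mul, Nat.cast_mul,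
    pt_eq h]
  ring

def PT.add (s t : PT N) : PT N :=
  ⟨Nat.sub (Nat.add s.p t.p) (bia cM0), Nat.sub (Nat.add s.x t.x) (bia (cM1 N)),
    Nat.add s.r t.r, Nat.add s.m t.m⟩

theorem PT.add_mem {E : Env} {s t : PT N} {u v : ℝ} (hs : s.Mem E u) (ht : t.Mem E v) :
    (s.add t).Mem E (u + v) := by
  intro hm hN
  have hm' : s.m + t.m < 4503599627370496 := hm
  obtain ⟨c, d, h⟩ := hs (by omega) hN
  obtain ⟨c', d', h'⟩ := ht (by omega) hN
  have ep : (s.add t).p = Nat.sub (Nat.add s.p t.p) (bia cM0) := by simp only [PT.add]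
  have ex : (s.add t).x = Nat.sub (Nat.add s.x t.x) (bia (cM1 N)) := by simp only [PT.add]
  have em : ((s.add t).m : ℤ) = s.m + t.m := Nat.cast_add _ _
  have er : ((s.add t).r : ℝ) = s.r + t.r := Nat.cast_add _ _
  have bp : ∀ k, |c k + c' k| ≤ (s.m : ℤ) + t.m := fun k =>
    (abs_add_le _ _).trans (add_le_add (h.bp k) (h'.bp k))
  have bx : ∀ k, |d k + d' k| ≤ (s.m : ℤ) + t.m := fun k =>
    (abs_add_le _ _).trans (add_le_add (h.bx k) (h'.bx k))
  refine ⟨fun k => c k + c' k, fun k => d k + d' k, ?_, ?_, fun k => em ▸ bp k,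
    fun k => em ▸ bx k, ?_⟩
  · rw [ep]
    exact pt_rep_add cM0_eq h.hp h'.hp fun k => (bp k).trans (by omega)
  · rw [ex]
    exact pt_rep_add (cM1_eq N) h.hx h'.hx fun k => (bx k).trans (by omega)
  · rw [er, pt_valP_add, pt_valX_add]
    refine le_trans (le_of_eq (congrArg abs ?_))
      ((abs_add_le _ _).trans (add_le_add h.err h'.err))
    ring

def PT.neg (s : PT N) : PT N :=
  ⟨Nat.sub (Nat.mul 2 (bia cM0)) s.p, Nat.sub (Nat.mul 2 (bia (cM1 N))) s.x, s.r, s.m⟩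

theorem PT.neg_mem {E : Env} {s : PT N} {u : ℝ} (hs : s.Mem E u) : s.neg.Mem E (-u) := by
  intro hm hN
  have hm' : s.m < 4503599627370496 := hm
  obtain ⟨c, d, h⟩ := hs hm' hN
  have ep : s.neg.p = Nat.sub (Nat.mul 2 (bia cM0)) s.p := by simp only [PT.neg]
  have ex : s.neg.x = Nat.sub (Nat.mul 2 (bia (cM1 N))) s.x := by simp only [PT.neg]
  have bp : ∀ k, |-1 * c k| ≤ (s.m : ℤ) := fun k => by rw [neg_one_mul, abs_neg]; exact h.bp k
  have bx : ∀ k, |-1 * d k| ≤ (s.m : ℤ) := fun k => by rw [neg_one_mul, abs_neg]; exact h.bx k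
  refine ⟨fun k => -1 * c k, fun k => -1 * d k, ?_, ?_, bp, bx, ?_⟩
  · rw [ep]
    exact pt_rep_neg cM0_eq h.hp fun k => (bp k).trans (by omega)
  · rw [ex]
    exact pt_rep_neg (cM1_eq N) h.hx fun k => (bx k).trans (by omega)
  · rw [pt_valP_mul, pt_valX_mul, ← abs_neg]
    refine le_trans (le_of_eq (congrArg abs ?_)) h.err
    push_cast
    ring

def PT.nm (a : ℕ) (s : PT N) : PT N :=
  ⟨Nat.sub (Nat.add (Nat.mul a s.p) (bia cM0)) (Nat.mul a (bia cM0)),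
    Nat.sub (Nat.add (Nat.mul a s.x) (bia (cM1 N))) (Nat.mul a (bia (cM1 N))),
    Nat.mul a s.r, Nat.mul a s.m⟩

noncomputable def PT.zn (a : ℕ) (s : PT N) : PT N :=
  Bool.rec (PT.nm a s) s (Nat.beq a 1)

noncomputable def PT.zm (k : ℤ) (s : PT N) : PT N :=
  Int.rec (fun a => Bool.rec (PT.zn a s) (PT.cst N 0) (Nat.beq a 0))
    (fun a => (PT.zn (Nat.succ a) s).neg) k

theorem pt_nm_mem {E : Env} {a : ℕ} (ha : 1 ≤ a) {s : PT N} {u : ℝ} (hs : s.Mem E u) :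
    (PT.nm a s).Mem E (a * u) := by
  intro hm hN
  have hm' : a * s.m < 4503599627370496 := hm
  obtain ⟨c, d, h⟩ := hs (lt_of_le_of_lt (Nat.le_mul_of_pos_left _ ha) hm') hN
  have ep : (PT.nm a s).p = Nat.sub (Nat.add (Nat.mul a s.p) (bia cM0)) (Nat.mul a (bia cM0)) := by
    simp only [PT.nm]
  have ex : (PT.nm a s).x =
      Nat.sub (Nat.add (Nat.mul a s.x) (bia (cM1 N))) (Nat.mul a (bia (cM1 N))) := by
    simp only [PT.nm]
  have em : ((PT.nm a s).m : ℤ) = a * s.m := Nat.cast_mul _ _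
  have er : ((PT.nm a s).r : ℝ) = a * s.r := Nat.cast_mul _ _
  have hm2 : (a : ℤ) * s.m ≤ 4503599627370496 := by exact_mod_cast hm'.le
  have bp : ∀ k, |(a : ℤ) * c k| ≤ (a : ℤ) * s.m := fun k => by
    rw [abs_mul, Nat.abs_cast]
    exact mul_le_mul_of_nonneg_left (h.bp k) (Nat.cast_nonneg _)
  have bx : ∀ k, |(a : ℤ) * d k| ≤ (a : ℤ) * s.m := fun k => by
    rw [abs_mul, Nat.abs_cast]
    exact mul_le_mul_of_nonneg_left (h.bx k) (Nat.cast_nonneg _)
  refine ⟨fun k => a * c k, fun k => a * d k, ?_, ?_, fun k => em ▸ bp k, fun k => em ▸ bx k, ?_⟩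
  · rw [ep]
    exact pt_rep_nm cM0_eq a h.hp fun k => (bp k).trans hm2
  · rw [ex]
    exact pt_rep_nm (cM1_eq N) a h.hx fun k => (bx k).trans hm2
  · rw [er, pt_valP_mul, pt_valX_mul]
    refine le_trans (le_of_eq ?_) (mul_le_mul_of_nonneg_left h.err (Nat.cast_nonneg a))
    rw [← Nat.abs_cast (R := ℝ) a, ← abs_mul, Nat.abs_cast]
    refine congrArg abs ?_
    push_cast
    ring

theorem pt_zn_mem {E : Env} {a : ℕ} (ha : 1 ≤ a) {s : PT N} {u : ℝ} (hs : s.Mem E u) :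
    (PT.zn a s).Mem E (a * u) := by
  unfold PT.zn
  cases h : Nat.beq a 1
  · exact pt_nm_mem ha hs
  · rw [Nat.eq_of_beq_eq_true h, Nat.cast_one, one_mul]
    exact hs

theorem PT.zm_mem {E : Env} (k : ℤ) {s : PT N} {u : ℝ} (hs : s.Mem E u) :
    (PT.zm k s).Mem E (k * u) := by
  cases k with
  | ofNat a =>
    show (Bool.rec (PT.zn a s) (PT.cst N 0) (Nat.beq a 0) : PT N).Mem E (((a : ℤ) : ℝ) * u)
    cases h : Nat.beq a 0
    · rw [Int.cast_natCast]
      exact pt_zn_mem (Nat.pos_of_ne_zero (Nat.ne_of_beq_eq_false h)) hs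
    · have h0 := PT.cst_mem (N := N) E 0
      rw [Nat.eq_of_beq_eq_true h]
      simpa using h0
  | negSucc a =>
    have h := PT.neg_mem (pt_zn_mem (Nat.succ_pos a) hs)
    rw [Int.cast_negSucc, neg_mul]
    exact h

def PT.pi (N : ℕ) : PT N := ⟨Nat.add (bia cM0) 3454217652358, bia (cM1 N), 1, 3454217652358⟩

theorem PT.pi_mem (E : Env) : (PT.pi N).Mem E Real.pi := by
  intro _ _
  refine ⟨_, _, pt_const E ((3454217652358 : ℕ) : ℤ) (pt_rep_c0 _) rfl (by simp [PT.pi]) ?_⟩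
  have h1 := Real.pi_gt_d20
  have h2 := Real.pi_lt_d20
  have e : ((PT.pi N).r : ℝ) = 1 := Nat.cast_one
  rw [e, abs_le]
  push_cast
  constructor <;> linarith

end Pool.Agent.P.MP_d76e6a_co
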