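import Pool.Agent.P.MP_d76e6a_co.XIts2

/-!
The calibration of a certificate has norm at most one.
-/

namespace Pool.Agent.P.MP_d76e6a_co

open Real Finset MeasureTheory

variable {T : Tmpl} {A B : ℝ} {x : Sol} {c : Cfg ℝ} {pl : Plan}

theorem phi_good (g : ℝ) : XdGood fun e => max (sin (e - g)) 0 := xd_good_cont (by fun_prop)

/-- Sublinearity: the bound between two break points. -/
theorem nu_between {L : List It} (hL : ∀ y ∈ L, y.ok) {a b μ γ : ℝ} (hab : b - a ≤ 3)
    (h1 : a ≤ γ) (h2 : γ ≤ b) (ha : nu L (fun e => max (sin (e - a)) 0) ≤ cos (a - μ))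
    (hb : nu L (fun e => max (sin (e - b)) 0) ≤ cos (b - μ)) :
    nu L (fun e => max (sin (e - γ)) 0) ≤ 1 := by
  rcases (h1.trans h2).eq_or_lt with hE | hE
  · have : γ = a := le_antisymm (hE ▸ h2) h1
    rw [this]
    exact ha.trans (cos_le_one _)
  have hp := pi_gt_three
  have s0 : 0 < sin (b - a) := sin_pos_of_pos_of_lt_pi (by linarith) (by linarith)
  have s1 : 0 ≤ sin (b - γ) / sin (b - a) :=
    div_nonneg (sin_nonneg_of_nonneg_of_le_pi (by linarith) (by linarith)) s0.le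
  have s2 : 0 ≤ sin (γ - a) / sin (b - a) :=
    div_nonneg (sin_nonneg_of_nonneg_of_le_pi (by linarith) (by linarith)) s0.le
  have e1 : ∀ e, sin (e - γ) = sin (b - γ) / sin (b - a) * sin (e - a)
      + sin (γ - a) / sin (b - a) * sin (e - b) := by
    intro e
    field_simp
    simp only [sin_sub]
    ring
  have e2 : cos (γ - μ) = sin (b - γ) / sin (b - a) * cos (a - μ)
      + sin (γ - a) / sin (b - a) * cos (b - μ) := by
    field_simp
    simp only [sin_sub, cos_sub]
    ring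
  have e3 := xd_nu_mono hL (phi_good γ) (xd_good_lin (phi_good a) (phi_good b)
    (sin (b - γ) / sin (b - a)) (sin (γ - a) / sin (b - a))) fun e _ _ => by
      refine max_le ?_ (add_nonneg (mul_nonneg s1 (le_max_right _ _))
        (mul_nonneg s2 (le_max_right _ _)))
      rw [e1 e]
      exact add_le_add (mul_le_mul_of_nonneg_left (le_max_left _ _) s1)
        (mul_le_mul_of_nonneg_left (le_max_left _ _) s2)
  rw [xd_nu_lin hL (phi_good a) (phi_good b)] at e3
  have e4 := mul_le_mul_of_nonneg_left ha s1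
  have e5 := mul_le_mul_of_nonneg_left hb s2
  linarith [cos_le_one (γ - μ)]

theorem phi_nu_append (L M : List It) (f : ℝ → ℝ) : nu (L ++ M) f = nu L f + nu M f := by
  simp [nu]

theorem phi_nu_range (n : ℕ) (g : ℕ → It) (f : ℝ → ℝ) :
    nu ((List.range n).map g) f = ∑ j ∈ range n, (g j).ev f := by
  induction n with
  | zero => simp [nu]
  | succ n ih =>
    rw [List.range_succ, List.map_append, phi_nu_append, ih, sum_range_succ]
    simp [nu]

theorem phi_filter_cons (c : Cfg ℝ) (y : Con ℝ) (C : List (Con ℝ)) (j : ℕ) (f : ℝ → ℝ) :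
    nu (((y :: C).filter fun y => Nat.beq y.z j).map (Con.it c)) f =
      (if y.z = j then (y.it c).ev f else 0) +
        nu ((C.filter fun y => Nat.beq y.z j).map (Con.it c)) f := by
  by_cases h : y.z = j
  · rw [List.filter_cons_of_pos (by simpa using h), List.map_cons, xd_nu_cons, if_pos h]
  · rw [List.filter_cons_of_neg (by simpa using h), if_neg h, zero_add]

theorem phi_split (c : Cfg ℝ) {n : ℕ} {C : List (Con ℝ)} (hC : ∀ y ∈ C, y.z ≤ n) (f : ℝ → ℝ) :
    nu (C.map (Con.it c)) f =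
      ∑ j ∈ range (n + 1), nu ((C.filter fun y => Nat.beq y.z j).map (Con.it c)) f := by
  induction C with
  | nil => simp [nu]
  | cons y C ih =>
    simp only [phi_filter_cons]
    rw [List.map_cons, xd_nu_cons, sum_add_distrib,
      ih fun y hy => hC y (List.mem_cons_of_mem _ hy), sum_ite_eq,
      if_pos (mem_range.2 (Nat.lt_succ_of_le (hC y List.mem_cons_self)))]

theorem phi_ld (c : Cfg ℝ) {j : ℕ} {C : List (Con ℝ)} {f : ℝ → ℝ} {p q : ℝ}
    (hC : ∀ y ∈ C, y.z = j → (y.it c).ev f = y.v.1 * p + y.v.2 * q) :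
    nu ((C.filter fun y => Nat.beq y.z j).map (Con.it c)) f =
      (ld j C).1 * p + (ld j C).2 * q := by
  induction C with
  | nil => simp [nu, ld]
  | cons y C ih =>
    rw [phi_filter_cons, ih fun y hy => hC y (List.mem_cons_of_mem _ hy), ld, cnd_eq]
    by_cases h : y.z = j
    · rw [if_pos h, if_pos (by simpa using h), hC y List.mem_cons_self h]
      simp only [vadd]
      ring
    · rw [if_neg h, if_neg (by simpa using h), zero_add]

theorem phi_int_hi {a b γ : ℝ} (h1 : γ ≤ a) (h2 : a ≤ b) (h3 : b - γ ≤ π) :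
    ∫ e in a..b, max (sin (e - γ)) 0 = cos (a - γ) - cos (b - γ) := by
  rw [intervalIntegral.integral_congr (g := fun e => sin (e - γ))]
  · rw [intervalIntegral.integral_comp_sub_right (fun e => sin e), integral_sin]
  · intro e he
    rw [Set.uIcc_of_le h2] at he
    exact max_eq_left (sin_nonneg_of_nonneg_of_le_pi (by linarith [he.1]) (by linarith [he.2]))

theorem phi_lo {e γ : ℝ} (h1 : e ≤ γ) (h3 : γ - e ≤ π) : max (sin (e - γ)) 0 = 0 :=
  max_eq_right (sin_nonpos_of_nonpos_of_neg_pi_le (by linarith) (by linarith))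

theorem phi_int_lo {a b γ : ℝ} (h1 : b ≤ γ) (h2 : a ≤ b) (h3 : γ - a ≤ π) :
    ∫ e in a..b, max (sin (e - γ)) 0 = 0 := by
  rw [intervalIntegral.integral_congr (g := fun _ => (0 : ℝ))]
  · simp
  · intro e he
    rw [Set.uIcc_of_le h2] at he
    exact phi_lo (by linarith [he.2]) (by linarith [he.1])

theorem phi_int_mid {a b γ : ℝ} (h1 : a ≤ γ) (h2 : γ ≤ b) (h3 : b - a ≤ π) :
    ∫ e in a..b, max (sin (e - γ)) 0 = 1 - cos (b - γ) := by
  have hc : Continuous fun e => max (sin (e - γ)) 0 := by fun_prop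
  rw [← intervalIntegral.integral_add_adjacent_intervals (b := γ) (hc.intervalIntegrable _ _)
    (hc.intervalIntegrable _ _), phi_int_lo le_rfl h1 (by linarith),
    phi_int_hi le_rfl h2 (by linarith), sub_self, cos_zero, zero_add]

theorem phi_cor_iff (T : Tmpl) (j : ℕ) : T.cor j = true ↔ (T.J j).s = 0 := ieq_iff _ _

/-- The contribution of the contacts and of the arc of joint `j`. -/
noncomputable def phi_part (T : Tmpl) (pl : Plan) (c : Cfg ℝ) (γ : ℝ) (j : ℕ) : ℝ :=
  nu (((cons T pl c).filter fun y => Nat.beq y.z j).map (Con.it c))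
      (fun e => max (sin (e - γ)) 0) +
    cond (T.cor j) 0 1 * ∫ e in c.eta j..c.eta (j + 1), max (sin (e - γ)) 0

theorem phi_range (s : Sys T A B x) {j : ℕ} (hj : j ≤ T.n + 1) : 0 ≤ x.η j ∧ x.η j ≤ π :=
  ⟨s.first ▸ s.eta_mono (Nat.zero_le j) hj, s.final ▸ s.eta_mono hj le_rfl⟩

theorem phi_total (h : Sem T A B x c) (s : Sys T A B x)
    (hd : ∀ v ∈ dualI T pl c (cons T pl c), 0 ≤ v) {γ : ℝ} (h1 : 0 ≤ γ) (h2 : γ ≤ π) :
    nu (its T pl c) (fun e => max (sin (e - γ)) 0) =
      ∑ j ∈ range (T.n + 1), phi_part T pl c γ j + g0 T c * sin γ := by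
  rw [its, phi_nu_append, phi_nu_append, phi_nu_range,
    phi_split c (n := T.n) fun y hy => (h.zone s hd hy).1, ← add_assoc, ← sum_add_distrib]
  congr 1
  simp only [nu, It.ev, List.map_cons, List.map_nil, List.sum_cons, List.sum_nil, add_zero]
  rw [if_neg (by simp), sin_pi_sub, max_eq_left (sin_nonneg_of_nonneg_of_le_pi h1 h2)]

theorem phi_part_lo (h : Sem T A B x c) (s : Sys T A B x)
    (hd : ∀ v ∈ dualI T pl c (cons T pl c), 0 ≤ v) {j : ℕ} (hj : j ≤ T.n) {γ : ℝ}
    (h1 : x.η (j + 1) ≤ γ) (h2 : γ ≤ π) : phi_part T pl c γ j = 0 := by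
  have r0 := (phi_range s (j := j) (by omega)).1
  rw [phi_part, h.eta, phi_int_lo h1 (s.sgn j hj).2 (by linarith), mul_zero, add_zero,
    phi_ld c (p := 0) (q := 0)]
  · ring
  · intro y hy hz
    obtain ⟨-, -, z1, z2, z3, -⟩ := h.zone s hd hy
    rw [hz] at z1 z3
    simp only [It.ev, Con.it]
    rw [phi_int_lo (z3.trans h1) z2 (by linarith), phi_lo (by linarith) (by linarith)]
    simp

theorem phi_load (h : Sem T A B x c) (s : Sys T A B x)
    (hd : ∀ v ∈ dualI T pl c (cons T pl c), 0 ≤ v) {j : ℕ} (hj : j ≤ T.n) {γ : ℝ}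
    (h1 : γ ≤ x.η j) (h2 : 0 ≤ γ) :
    nu (((cons T pl c).filter fun y => Nat.beq y.z j).map (Con.it c))
      (fun e => max (sin (e - γ)) 0) =
      (load T A B x j).re * cos γ + (load T A B x j).im * -sin γ := by
  have r0 := (phi_range s (j := j + 1) (by omega)).2
  rw [← h.ld pl j]
  refine phi_ld c fun y hy hz => ?_
  obtain ⟨-, -, z1, z2, z3, -, z4, -⟩ := h.zone s hd hy
  rw [hz] at z1 z3
  have a1 : y.v.1 = (toC y.v).re := rfl
  have a2 : y.v.2 = (toC y.v).im := rfl
  rw [a1, a2, z4]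
  simp only [It.ev, Con.it]
  rw [phi_int_hi (h1.trans z1) z2 (by linarith),
    max_eq_left (sin_nonneg_of_nonneg_of_le_pi (by linarith) (by linarith))]
  by_cases hb : y.band = true
  · simp only [hb, tt, Complex.re_ofReal_mul, Complex.im_ofReal_mul, Complex.sub_re,
      Complex.sub_im, cos_sub, if_true]
    ring
  · simp only [hb, uu, Complex.re_ofReal_mul, Complex.im_ofReal_mul, sin_sub, Bool.false_eq_true,
      if_false]
    ring

theorem phi_none (h : Sem T A B x c) (s : Sys T A B x)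
    (hd : ∀ v ∈ dualI T pl c (cons T pl c), 0 ≤ v) {j : ℕ} (hs : (T.J j).s ≠ 0) (f : ℝ → ℝ) :
    nu (((cons T pl c).filter fun y => Nat.beq y.z j).map (Con.it c)) f = 0 := by
  rw [phi_ld c (p := 0) (q := 0)]
  · ring
  · intro y hy hz
    exact absurd (hz ▸ (h.zone s hd hy).2.1) hs

theorem phi_part_hi (h : Sem T A B x c) (s : Sys T A B x)
    (hd : ∀ v ∈ dualI T pl c (cons T pl c), 0 ≤ v) {j : ℕ} (j1 : 1 ≤ j) (hj : j < T.n) {γ : ℝ}
    (h1 : γ ≤ x.η j) (h2 : 0 ≤ γ) :
    phi_part T pl c γ j = cos (x.η j - γ) - cos (x.η (j + 1) - γ) := by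
  have r0 := (phi_range s (j := j + 1) (by omega)).2
  rw [phi_part]
  by_cases hs : (T.J j).s = 0
  · rw [phi_load h s hd hj.le h1 h2, s.corner j j1 hj hs, (phi_cor_iff T j).2 hs]
    simp only [tt, Complex.sub_re, Complex.sub_im, cos_sub, cond_true]
    ring
  · have hc : T.cor j = false := Bool.eq_false_iff.2 fun e => hs ((phi_cor_iff T j).1 e)
    rw [phi_none h s hd hs, hc, h.eta, phi_int_hi h1 (s.sgn j hj.le).2 (by linarith)]
    simp

theorem phi_part_tip (h : Sem T A B x c) (s : Sys T A B x)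
    (hd : ∀ v ∈ dualI T pl c (cons T pl c), 0 ≤ v) {γ : ℝ} (h1 : γ ≤ x.η T.n) (h2 : 0 ≤ γ) :
    phi_part T pl c γ T.n + g0 T c * sin γ = cos (x.η T.n - γ) := by
  have ht := s.tip
  rw [← h.g0] at ht
  have t1 := congrArg Complex.re ht
  have t2 := congrArg Complex.im ht
  simp only [tt, uu, Complex.add_re, Complex.add_im, Complex.re_ofReal_mul, Complex.im_ofReal_mul,
    sin_pi, cos_pi] at t1 t2
  rw [phi_part, phi_load h s hd le_rfl h1 h2, (phi_cor_iff T T.n).2 (Tmpl.wf_spec h.wf).2.2.1,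
    cos_sub, ← t1]
  simp only [cond_true]
  linear_combination (-sin γ) * t2

theorem phi_main (h : Sem T A B x c) (s : Sys T A B x)
    (hd : ∀ v ∈ dualI T pl c (cons T pl c), 0 ≤ v) {z : ℕ} (hz : z ≤ T.n)
    {γ : ℝ} (h1 : x.η z ≤ γ) (h2 : γ ≤ x.η (z + 1)) :
    nu (its T pl c) (fun e => max (sin (e - γ)) 0) =
      (if z = T.n then g0 T c * sin γ else cos (x.η (z + 1) - γ)) + phi_part T pl c γ z := by
  have g1 : 0 ≤ γ := (phi_range s (j := z) (by omega)).1.trans h1
  have g2 : γ ≤ π := h2.trans (phi_range s (j := z + 1) (by omega)).2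
  have lo : ∑ j ∈ range z, phi_part T pl c γ j = 0 := sum_eq_zero fun j hj => by
    have := mem_range.1 hj
    exact phi_part_lo h s hd (by omega) ((s.eta_mono (by omega) (by omega)).trans h1) g2
  rw [phi_total h s hd g1 g2]
  split_ifs with hn
  · rw [← hn, sum_range_succ, lo]
    ring
  obtain ⟨k, hk⟩ : ∃ k, T.n = z + 1 + k := ⟨T.n - (z + 1), by omega⟩
  have tip := phi_part_tip (pl := pl) h s hd (h2.trans (s.eta_mono (by omega) (by omega))) g1
  have mid : ∑ i ∈ range k, phi_part T pl c γ (z + 1 + i) =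
      cos (x.η (z + 1) - γ) - cos (x.η (z + 1 + k) - γ) := by
    rw [← sum_range_sub' (fun i => cos (x.η (z + 1 + i) - γ)) k]
    refine sum_congr rfl fun i hi => ?_
    have := mem_range.1 hi
    exact phi_part_hi h s hd (by omega) (by omega)
      (h2.trans (s.eta_mono (by omega) (by omega))) g1
  rw [sum_range_succ, add_assoc, tip, hk, sum_range_add, mid, sum_range_succ, lo]
  ring

/-- On an arc the calibration has norm one. -/
theorem Sem.phi_arc (h : Sem T A B x c) (s : Sys T A B x)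
    (hd : ∀ v ∈ dualI T pl c (cons T pl c), 0 ≤ v) {z : ℕ} (hz : z ≤ T.n) (hs : (T.J z).s ≠ 0)
    {γ : ℝ} (h1 : x.η z ≤ γ) (h2 : γ ≤ x.η (z + 1)) :
    nu (its T pl c) (fun e => max (sin (e - γ)) 0) = 1 := by
  have hn : z ≠ T.n := fun e => hs (e ▸ (Tmpl.wf_spec h.wf).2.2.1)
  have hc : T.cor z = false := Bool.eq_false_iff.2 fun e => hs ((phi_cor_iff T z).1 e)
  have r0 := (phi_range s (j := z) (by omega)).1
  have r1 := (phi_range s (j := z + 1) (by omega)).2
  rw [phi_main h s hd hz h1 h2, if_neg hn, phi_part, phi_none h s hd hs, hc, h.eta,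
    phi_int_mid h1 h2 (by linarith)]
  simp

/-- The formula at a corner. -/
theorem Sem.phi_cor (h : Sem T A B x c) (s : Sys T A B x)
    (hd : ∀ v ∈ dualI T pl c (cons T pl c), 0 ≤ v) {z : ℕ} (hz : z ≤ T.n) (hs : (T.J z).s = 0)
    {γ : ℝ} (h1 : x.η z ≤ γ) (h2 : γ ≤ x.η (z + 1)) :
    nu (its T pl c) (fun e => max (sin (e - γ)) 0) =
      (if z = T.n then MP_d76e6a_co.g0 T c * sin γ else cos (x.η (z + 1) - γ)) +
        nu (((cons T pl c).filter fun y => Nat.beq y.z z).map (Con.it c))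
          (fun e => max (sin (e - γ)) 0) := by
  rw [phi_main h s hd hz h1 h2, phi_part, (phi_cor_iff T z).2 hs]
  simp

end Pool.Agent.P.MP_d76e6a_co
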