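import Pool.Agent.P.MP_d76e6a_co.XPhi

/-!
The calibration of a certificate has norm at most one, second part.
-/

namespace Pool.Agent.P.MP_d76e6a_co

open Real Finset MeasureTheory

variable {T : Tmpl} {A B : ℝ} {x : Sol} {c : Cfg ℝ} {pl : Plan}

theorem phi2_pos {a b γ : ℝ} (h1 : γ ≤ a) (h2 : a ≤ b) (h3 : b ≤ γ + π) :
    ∫ e in a..b, max (sin (e - γ)) 0 = cos (a - γ) - cos (b - γ) := by
  rw [intervalIntegral.integral_congr (g := fun e => sin (e - γ)) fun e he => by
    rw [Set.uIcc_of_le h2] at he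
    exact max_eq_left (sin_nonneg_of_nonneg_of_le_pi (by linarith [he.1]) (by linarith [he.2])),
    intervalIntegral.integral_comp_sub_right (fun e => sin e), integral_sin]

theorem phi2_max0 {e γ : ℝ} (h1 : γ - π ≤ e) (h2 : e ≤ γ) : max (sin (e - γ)) 0 = 0 :=
  max_eq_right (sin_nonpos_of_nonpos_of_neg_pi_le (by linarith) (by linarith))

theorem phi2_neg {a b γ : ℝ} (h1 : γ - π ≤ a) (h2 : a ≤ b) (h3 : b ≤ γ) :
    ∫ e in a..b, max (sin (e - γ)) 0 = 0 := by
  rw [intervalIntegral.integral_congr (g := fun _ => (0 : ℝ)) fun e he => by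
    rw [Set.uIcc_of_le h2] at he
    exact phi2_max0 (by linarith [he.1]) (by linarith [he.2])]
  simp

theorem phi2_int {a b γ : ℝ} (h1 : γ - π ≤ a) (h2 : a ≤ b) (h3 : b ≤ γ + π) :
    ∫ e in a..b, max (sin (e - γ)) 0 = cos (max (a - γ) 0) - cos (max (b - γ) 0) := by
  rcases le_total γ a with h | h
  · rw [phi2_pos h h2 h3, max_eq_left (by linarith), max_eq_left (by linarith)]
  rcases le_total b γ with h' | h'
  · rw [phi2_neg h1 h2 h', max_eq_right (by linarith), max_eq_right (by linarith), sub_self]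
  have hc : Continuous fun e => max (sin (e - γ)) 0 := by fun_prop
  rw [← intervalIntegral.integral_add_adjacent_intervals (hc.intervalIntegrable a γ)
    (hc.intervalIntegrable γ b), phi2_neg h1 h le_rfl, phi2_pos le_rfl h' h3,
    max_eq_right (by linarith), max_eq_left (by linarith), sub_self, zero_add]

theorem phi2_terms {z : ℕ} {g : AE} (g0 : 0 ≤ ae c g) (g1 : ae c g ≤ π) (C : List (Con ℝ))
    (hC : ∀ y ∈ C, (y.it c).ok) :
    nu ((C.filter fun y => Nat.beq y.z z).map (Con.it c)) (fun e => max (sin (e - ae c g)) 0) =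
      terms c z g C := by
  induction C with
  | nil => simp [nu, terms]
  | cons y C ih =>
    have ih' := ih fun w hw => hC w (List.mem_cons_of_mem _ hw)
    obtain ⟨k1, k2, k3, -⟩ := hC y List.mem_cons_self
    simp only [Con.it] at k1 k2 k3
    rw [terms, List.filter_cons]
    cases hb : Nat.beq y.z z
    · simpa using ih'
    · simp only [if_true, List.map_cons, cnd_true, xd_nu_cons, ih']
      congr 1
      unfold It.ev term
      simp only [Con.it]
      cases y.band
      · simp [dif_eq]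
      · simp only [if_true, cnd_true, dif_eq, sc_real, ps_real, sub]
        rw [phi2_int (by linarith) k2 (by linarith), sub_eq_add_neg]

theorem phi2_ld {z : ℕ} {f : ℝ → ℝ} {u v : ℝ} (C : List (Con ℝ))
    (hC : ∀ y ∈ C, y.z = z → (y.it c).ev f = y.v.1 * u + y.v.2 * v) :
    nu ((C.filter fun y => Nat.beq y.z z).map (Con.it c)) f =
      (ld z C).1 * u + (ld z C).2 * v := by
  induction C with
  | nil => simp [nu, ld]
  | cons y C ih =>
    have ih' := ih fun w hw => hC w (List.mem_cons_of_mem _ hw)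
    rw [ld, List.filter_cons]
    cases hb : Nat.beq y.z z
    · simpa using ih'
    · simp only [if_true, List.map_cons, cnd_true, xd_nu_cons, ih', vadd]
      rw [hC y List.mem_cons_self (Nat.eq_of_beq_eq_true hb)]
      ring

theorem phi2_congr {L : List It} {f k : ℝ → ℝ}
    (h : ∀ y ∈ L, y.lo ≤ y.hi ∧ (y.d = 0 ∨ ∀ e, y.lo ≤ e → e ≤ y.hi → f e = k e)) :
    nu L f = nu L k := by
  unfold nu
  congr 1
  refine List.map_congr_left fun y hy => ?_
  obtain ⟨h1, h2 | h2⟩ := h y hy
  · simp [It.ev, h2]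
  · unfold It.ev
    rw [h2 _ le_rfl h1, intervalIntegral.integral_congr (g := k) fun e he => by
      rw [Set.uIcc_of_le h1] at he
      exact h2 e he.1 he.2]

theorem phi2_mem {y : Con ℝ} (hy : y ∈ cons T pl c) : y.it c ∈ its T pl c :=
  List.mem_append_left _ (List.mem_map_of_mem hy)

theorem phi2_range (s : Sys T A B x) {z : ℕ} (hz : z ≤ T.n) : 0 ≤ x.η z ∧ x.η (z + 1) ≤ π :=
  ⟨s.first ▸ s.eta_mono (Nat.zero_le z) (by omega), s.final ▸ s.eta_mono (by omega) le_rfl⟩

theorem Sem.psiZ (h : Sem T A B x c) (s : Sys T A B x)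
    (hd : ∀ v ∈ dualI T pl c (cons T pl c), 0 ≤ v) {z : ℕ} (hz : z ≤ T.n) (hs : (T.J z).s = 0)
    {g : AE} (h1 : x.η z ≤ ae c g) (h2 : ae c g ≤ x.η (z + 1)) :
    nu (its T pl c) (fun e => max (sin (e - ae c g)) 0) = psiZ T c (cons T pl c) z g := by
  have r := phi2_range s hz
  rw [h.phi_cor s hd hz hs h1 h2, phi2_terms (r.1.trans h1) (h2.trans r.2) _
    fun y hy => h.its_ok s hd _ (phi2_mem hy), MP_d76e6a_co.psiZ, cnd_eq, dif_eq, h.etaE]
  simp only [Nat.beq_eq, sc_real]

/-- The formula before the first contact, in terms of the load. -/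
theorem phi2_load (h : Sem T A B x c) (s : Sys T A B x)
    (hd : ∀ v ∈ dualI T pl c (cons T pl c), 0 ≤ v) {z : ℕ} (hz : z ≤ T.n) (hs : (T.J z).s = 0)
    {γ : ℝ} (h1 : x.η z ≤ γ) (h2 : γ ≤ x.η (z + 1))
    (h4 : ∀ y ∈ cons T pl c, y.z = z → γ ≤ ae c y.lo) :
    nu (its T pl c) (fun e => max (sin (e - γ)) 0) =
      (if z = T.n then g0 T c * sin γ else cos (x.η (z + 1) - γ)) +
        ((load T A B x z).re * cos γ + (load T A B x z).im * -sin γ) := by
  have r := phi2_range s hz
  rw [h.phi_cor s hd hz hs h1 h2, ← h.ld pl z, phi2_ld (u := cos γ) (v := -sin γ)]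
  · rfl
  intro y hy hyz
  obtain ⟨-, -, -, k2, -, -, k5, -⟩ := h.zone s hd hy
  have k3 : ae c y.hi ≤ π := (h.its_ok s hd _ (phi2_mem hy)).2.2.1
  have k6 := h4 y hy hyz
  have e1 := congrArg Complex.re k5
  have e2 := congrArg Complex.im k5
  unfold It.ev
  simp only [Con.it]
  cases hb : y.band
  · simp only [hb, toC, uu, Bool.false_eq_true, if_false, Complex.re_ofReal_mul,
      Complex.im_ofReal_mul] at e1 e2 ⊢
    rw [max_eq_left (sin_nonneg_of_nonneg_of_le_pi (by linarith) (by linarith)), e1, e2, sin_sub]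
    ring
  · simp only [hb, toC, tt, if_true, Complex.re_ofReal_mul, Complex.im_ofReal_mul,
      Complex.sub_re, Complex.sub_im] at e1 e2 ⊢
    rw [phi2_pos k6 k2 (by linarith), e1, e2, cos_sub, cos_sub]
    ring

/-- Before the first contact of a corner. -/
theorem Sem.phi_first (h : Sem T A B x c) (s : Sys T A B x)
    (hs' : ∀ v ∈ signI T c (cons T pl c), 0 ≤ v)
    (hd : ∀ v ∈ dualI T pl c (cons T pl c), 0 ≤ v) {z : ℕ} (hz : z ≤ T.n) (hs : (T.J z).s = 0)
    {γ : ℝ} (h1 : x.η z ≤ γ) (h2 : γ ≤ x.η (z + 1)) (h3 : z = 0 → γ ≤ 3 / 2)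
    (h4 : ∀ y ∈ cons T pl c, y.z = z → γ ≤ ae c y.lo) :
    nu (its T pl c) (fun e => max (sin (e - γ)) 0) ≤ cos (γ - x.η z) := by
  have hn := (Tmpl.wf_spec h.wf).1
  rcases Nat.eq_zero_or_pos z with rfl | hz0
  · have ok := h.its_ok s hd
    have e0 := s.first
    rw [e0] at h1
    have key : ∀ δ, 0 ≤ δ → δ ≤ γ → nu (its T pl c) (fun e => max (sin (e - δ)) 0) =
        cos δ * nu (its T pl c) sin := by
      intro δ d0 d1
      have l1 := xd_nu_lin ok (xd_good_cont continuous_sin) (xd_good_cont continuous_cos)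
        (cos δ) (-sin δ)
      rw [h.nu_cos s ok, mul_zero, add_zero] at l1
      rw [← l1]
      refine phi2_congr fun y hy => ⟨(ok y hy).2.1, ?_⟩
      have k3 := (ok y hy).2.2.1
      have main : γ ≤ y.lo → ∀ e, y.lo ≤ e → e ≤ y.hi →
          max (sin (e - δ)) 0 = cos δ * sin e + -sin δ * cos e := fun k e k1 k2 => by
        rw [max_eq_left (sin_nonneg_of_nonneg_of_le_pi (by linarith) (by linarith)), sin_sub]
        ring
      rcases List.mem_append.1 hy with hy | hy
      · obtain ⟨w, hw, rfl⟩ := List.mem_map.1 hy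
        refine Or.inr (main ?_)
        rcases Nat.eq_zero_or_pos w.z with hw0 | hw0
        · exact h4 w hw hw0
        · obtain ⟨k1, -, k2, -⟩ := h.zone s hd hw
          exact h2.trans ((s.eta_mono hw0 (by omega)).trans k2)
      rcases List.mem_append.1 hy with hy | hy
      · obtain ⟨j, hj, rfl⟩ := List.mem_map.1 hy
        rcases Nat.eq_zero_or_pos j with rfl | hj0
        · left
          have : T.cor 0 = true := (ieq_iff _ _).2 hs
          simp [this]
        · refine Or.inr (main ?_)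
          rw [List.mem_range] at hj
          simp only [h.eta]
          exact h2.trans (s.eta_mono hj0 (by omega))
      · rw [List.mem_singleton] at hy
        subst hy
        exact Or.inr (main (h2.trans (phi2_range s hz).2))
    have k0 := phi2_load h s hd hz hs (γ := 0) e0.le (h1.trans h2)
      fun y hy hy0 => h1.trans (h4 y hy hy0)
    rw [key 0 le_rfl h1, if_neg (by omega)] at k0
    simp only [cos_zero, sin_zero, one_mul, mul_one, neg_zero, mul_zero, add_zero, sub_zero,
      zero_add] at k0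
    have k1 : nu (its T pl c) sin ≤ 1 := by
      have ap := s.apex
      cases ht : T.top
      · have := hs' (apexV c (cons T pl c)) (by simp [signI, ht])
        have e1 := congrArg Complex.re (h.ld pl 0)
        simp only [apexV, sub, one, num_real, h.U, toC] at this e1
        rw [e1] at this
        norm_num at this
        linarith
      · rw [ht, if_pos rfl] at ap
        linarith
    have k2 : 0 ≤ cos γ := cos_nonneg_of_neg_pi_div_two_le_of_le (by linarith [pi_pos])
      (by linarith [h3 rfl, pi_gt_three])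
    rw [key γ h1 le_rfl, e0, sub_zero]
    exact mul_le_of_le_one_right k2 k1
  · rw [phi2_load h s hd hz hs h1 h2 h4]
    refine le_of_eq ?_
    split_ifs with hzn
    · subst hzn
      have e1 := congrArg Complex.re s.tip
      have e2 := congrArg Complex.im s.tip
      rw [← h.g0] at e1 e2
      simp only [uu, tt, Complex.add_re, Complex.add_im, Complex.re_ofReal_mul,
        Complex.im_ofReal_mul, sin_pi, cos_pi] at e1 e2
      rw [cos_sub]
      linear_combination cos γ * e1 - sin γ * e2
    · rw [s.corner z hz0 (by omega) hs, cos_sub, cos_sub]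
      simp only [tt, Complex.sub_re, Complex.sub_im]
      ring

theorem phi2_cos {u v : ℝ} (h1 : u ≤ v) (h2 : -u ≤ v) (h3 : v ≤ π) : cos v ≤ cos u := by
  rw [← cos_abs u]
  exact cos_le_cos_of_nonneg_of_le_pi (abs_nonneg u) h3 (abs_le'.2 ⟨h1, h2⟩)

theorem phi2_top (h : Sem T A B x c) {C : List (Con ℝ)} {z : ℕ} (st : List (AE × AE)) :
    ∀ (f : Bool) (a : AE), (∀ v ∈ steps T c C z f a st, 0 ≤ v) → ae c a ≤ x.η (z + 1) := by
  induction st with
  | nil =>
    intro f a hv
    have := hv _ (by rw [steps]; exact List.mem_cons_self)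
    rw [dif_eq, h.etaE] at this
    linarith
  | cons m st ih =>
    obtain ⟨mu, b⟩ := m
    intro f a hv
    rw [steps] at hv
    have h1 := hv (dif c b a) (by simp [gap])
    have h2 := ih false b fun v hv' => hv v (by simp [hv'])
    rw [dif_eq] at h1
    linarith

/-- After the last contact of a corner. -/
theorem phi2_last (h : Sem T A B x c) (s : Sys T A B x)
    (hd : ∀ v ∈ dualI T pl c (cons T pl c), 0 ≤ v) {z : ℕ} (hz : z ≤ T.n) (hs : (T.J z).s = 0)
    {f : Bool} {a : AE} (hv : ∀ v ∈ steps T c (cons T pl c) z f a [], 0 ≤ v)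
    {γ : ℝ} (h0 : x.η z ≤ γ) (h1 : ae c a ≤ γ) (h2 : γ ≤ x.η (z + 1)) :
    nu (its T pl c) (fun e => max (sin (e - γ)) 0) =
      if z = T.n then g0 T c * sin γ else cos (x.η (z + 1) - γ) := by
  have r := phi2_range s hz
  rw [h.phi_cor s hd hz hs h0 h2, phi2_congr (k := fun _ => 0), xd_nu_zero, add_zero]
  intro y hy
  obtain ⟨w, hw, rfl⟩ := List.mem_map.1 hy
  obtain ⟨k1, k2, -⟩ := h.its_ok s hd _ (phi2_mem (List.mem_filter.1 hw).1)
  have k3 := hv (dif c a w.hi) (by
    rw [steps]
    exact List.mem_cons_of_mem _ (List.mem_map_of_mem hw))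
  rw [dif_eq] at k3
  refine ⟨k2, Or.inr fun e e1 e2 => phi2_max0 (by linarith) ?_⟩
  simp only [Con.it] at e2
  linarith

theorem phi2_steps (h : Sem T A B x c) (s : Sys T A B x)
    (hs' : ∀ v ∈ signI T c (cons T pl c), 0 ≤ v)
    (hd : ∀ v ∈ dualI T pl c (cons T pl c), 0 ≤ v) {z : ℕ} (hz : z ≤ T.n) (hs : (T.J z).s = 0)
    {γ : ℝ} (h2 : γ ≤ x.η (z + 1)) (st : List (AE × AE)) :
    ∀ (f : Bool) (a : AE), (∀ v ∈ steps T c (cons T pl c) z f a st, 0 ≤ v) → x.η z ≤ ae c a →
      (f = true → nu (its T pl c) (fun e => max (sin (e - ae c a)) 0) ≤ cos (ae c a - x.η z)) →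
      ae c a ≤ γ → nu (its T pl c) (fun e => max (sin (e - γ)) 0) ≤ 1 := by
  have r := phi2_range s hz
  induction st with
  | nil =>
    intro f a hv a0 _ a1
    rw [phi2_last h s hd hz hs hv (a0.trans a1) a1 h2]
    split_ifs
    · have k := hs' (sub one (g0 T c)) (by simp [signI])
      simp only [sub, one, num_real] at k
      norm_num at k
      have k1 := sin_nonneg_of_nonneg_of_le_pi (r.1.trans (a0.trans a1)) (h2.trans r.2)
      exact (mul_le_of_le_one_left k1 (by linarith)).trans (sin_le_one γ)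
    · exact cos_le_one _
  | cons m st ih =>
    obtain ⟨mu, b⟩ := m
    intro f a hv a0 hf a1
    have a2 := phi2_top h _ f a hv
    rw [steps] at hv
    have g1 := hv (dif c b a) (by simp [gap])
    have g2 := hv (sub (Ar.num 12884901888) (dif c b a)) (by simp [gap])
    have hv' : ∀ v ∈ steps T c (cons T pl c) z false b st, 0 ≤ v := fun v hv' => hv v (by simp [hv'])
    have b2 := phi2_top h _ false b hv'
    simp only [dif_eq, sub, num_real] at g1 g2
    norm_num at g2
    rcases le_total (ae c b) γ with hb | hb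
    · exact ih false b hv' (by linarith) (fun e => absurd e (by simp)) hb
    refine nu_between (h.its_ok s hd) (μ := ae c mu) (by linarith) a1 hb ?_ ?_
    · cases f
      · have k := hv (sub (Ar.sc (dif c a mu)).2 (psiZ T c (cons T pl c) z a)) (by simp)
        rw [h.psiZ s hd hz hs a0 a2]
        simp only [dif_eq, sub, sc_real] at k
        linarith
      · have k1 := hv (dif c mu (etaE T z)) (by simp)
        have k2 := hv (dif c a (etaE T z) + dif c a mu) (by simp)
        simp only [dif_eq, h.etaE] at k1 k2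
        exact (hf rfl).trans (phi2_cos (by linarith) (by linarith) (by linarith))
    · cases he : (st.isEmpty && !Nat.beq z T.n)
      · have k := hv (sub (Ar.sc (dif c b mu)).2 (psiZ T c (cons T pl c) z b)) (by simp [he])
        rw [h.psiZ s hd hz hs (by linarith) b2]
        simp only [dif_eq, sub, sc_real] at k
        linarith
      · have k1 := hv (dif c (etaE T (z + 1)) mu) (by simp [he])
        have k2 := hv (dif c (etaE T (z + 1)) b + dif c mu b) (by simp [he])
        simp only [dif_eq, h.etaE] at k1 k2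
        rw [Bool.and_eq_true, List.isEmpty_iff] at he
        obtain ⟨rfl, he⟩ := he
        have hzn : z ≠ T.n := fun e => by simp [e] at he
        rw [phi2_last h s hd hz hs hv' (by linarith) le_rfl b2, if_neg hzn]
        exact phi2_cos (by linarith) (by linarith) (by linarith)

theorem phi2_find {η : ℕ → ℝ} {γ : ℝ} (h0 : η 0 ≤ γ) (n : ℕ) (h1 : γ ≤ η (n + 1)) :
    ∃ z ≤ n, η z ≤ γ ∧ γ ≤ η (z + 1) := by
  induction n with
  | zero => exact ⟨0, le_rfl, h0, h1⟩
  | succ n ih =>
    rcases le_total γ (η (n + 1)) with h | h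
    · obtain ⟨z, hz, k⟩ := ih h
      exact ⟨z, by omega, k⟩
    · exact ⟨n + 1, le_rfl, h, h1⟩

theorem Sem.phi (h : Sem T A B x c) (s : Sys T A B x)
    (hs : ∀ v ∈ signI T c (cons T pl c), 0 ≤ v) (hd : ∀ v ∈ dualI T pl c (cons T pl c), 0 ≤ v) :
    ∀ γ ∈ Set.Icc 0 π, nu (its T pl c) (fun e => max (sin (e - γ)) 0) ≤ 1 := by
  intro γ hγ
  obtain ⟨z, hz, h1, h2⟩ := phi2_find (η := x.η) (s.first ▸ hγ.1) T.n (s.final ▸ hγ.2)
  by_cases hc : (T.J z).s = 0
  swap
  · exact (h.phi_arc s hd hz hc h1 h2).le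
  set Z := pl.zs.getD z ⟨⟨0, 0, 0, 0, 0, 0⟩, []⟩ with hZ
  have hv : ∀ v ∈ zoneI T c (cons T pl c) z Z, 0 ≤ v := fun v hv =>
    hd v (List.mem_flatMap.2 ⟨z, List.mem_range.2 (by omega), hv⟩)
  have hcor : T.cor z = true := (ieq_iff _ _).2 hc
  rw [zoneI, hcor, cnd_true] at hv
  have k1 := hv _ List.mem_cons_self
  rw [dif_eq, h.etaE] at k1
  have k2 : z = 0 → ae c Z.g ≤ 3 / 2 := by
    rintro rfl
    have k := hv (sub (Ar.num 6442450944) (ae c Z.g)) (by simp)
    simp only [sub, num_real] at k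
    norm_num at k
    linarith
  have k3 : ∀ y ∈ cons T pl c, y.z = z → ae c Z.g ≤ ae c y.lo := by
    intro y hy hyz
    have k := hv (dif c y.lo Z.g) (List.mem_cons_of_mem _ (List.mem_append_right _
      (List.mem_append_left _ (List.mem_map_of_mem (List.mem_filter.2 ⟨hy, by simp [hyz]⟩)))))
    rw [dif_eq] at k
    linarith
  have k4 : ∀ v ∈ steps T c (cons T pl c) z true Z.g Z.st, 0 ≤ v := fun v hv' =>
    hv v (List.mem_cons_of_mem _ (List.mem_append_right _ (List.mem_append_right _ hv')))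
  rcases le_total γ (ae c Z.g) with hg | hg
  · exact (h.phi_first s hs hd hz hc h1 h2 (fun e => hg.trans (k2 e))
      fun y hy e => hg.trans (k3 y hy e)).trans (cos_le_one _)
  · exact phi2_steps h s hs hd hz hc h2 Z.st true Z.g k4 (by linarith)
      (fun _ => h.phi_first s hs hd hz hc (by linarith) (hg.trans h2) k2 k3) hg

end Pool.Agent.P.MP_d76e6a_co
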