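import Mathlib

/-!
Packed Taylor models: the coefficients of a polynomial of degree three in `e1, e2` and of terms
`xi i * (linear in e1, e2)` are the digits of two natural numbers in base `2 ^ 96`, each digit
shifted by `2 ^ 52`; the scale of the fixed point numbers is `2 ^ 40`.
-/

namespace Pool.Agent.P.MP_d76e6a_co

/-- Values of the noise variables. -/
structure Env where
  e1 : ℝ
  e2 : ℝ
  xi : ℕ → ℝ
  h1 : |e1| ≤ 1
  h2 : |e2| ≤ 1
  hx : ∀ i, |xi i| ≤ 1

/-- The number with digits `f 0, ..., f (n - 1)` in base `2 ^ 96`. -/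
def pk (f : ℕ → ℕ) (n : ℕ) : ℕ := ∑ k ∈ Finset.range n, f k * 2 ^ (96 * k)

/-- The pattern with digit one at the places `k < n` with `p k`. -/
def pat (p : ℕ → Bool) (n : ℕ) : ℕ := pk (fun k => cond (p k) 1 0) n

def sdeg (k : ℕ) : ℕ := k % 7 + k / 7
def keepP (k : ℕ) : Bool := Nat.ble (sdeg k) 3
def lowP (k : ℕ) : Bool := Nat.ble (sdeg k) 1
def keepX (k : ℕ) : Bool := lowP (k % 15)

def sl (k : ℕ) : ℕ := Nat.shiftLeft 1 (Nat.mul 96 k)
def cBM : ℕ := 79228162514264337593543950335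
def cB : ℕ := 4503599627370496
def cML : ℕ := Nat.add 1 (Nat.add (sl 1) (sl 7))
def cEV : ℕ := Nat.add (sl 2) (sl 14)
def cMH : ℕ :=
  Nat.add cEV (Nat.add (sl 3) (Nat.add (sl 8) (Nat.add (sl 9) (Nat.add (sl 15) (sl 21)))))
def cM0 : ℕ := Nat.add cML cMH
def cA0 : ℕ := Nat.div (Nat.sub (sl 43) 1) cBM
def cD0 : ℕ := Nat.sub cA0 cM0
def rep (N : ℕ) : ℕ := Nat.div (Nat.sub (sl (Nat.mul 15 N)) 1) (Nat.sub (sl 15) 1)
def cM1 (N : ℕ) : ℕ := Nat.mul cML (rep N)
def cA1 (N : ℕ) : ℕ := Nat.div (Nat.sub (sl (Nat.mul 15 N)) 1) cBM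
def cD1 (N : ℕ) : ℕ := Nat.sub (cA1 N) (cM1 N)
/-- Full digit masks. -/
def ful (M : ℕ) : ℕ := Nat.mul M 9007199254740991
/-- The shift of all digits. -/
def bia (M : ℕ) : ℕ := Nat.shiftLeft M 52

/-- The positive parts of the coefficients at the places of `M`. -/
def posp (v M : ℕ) : ℕ :=
  Nat.land v (Nat.mul (Nat.land (Nat.shiftRight v 52) M) 4503599627370495)

/-- The sum of the absolute values of the coefficients; `c` is `2 ^ 52` times their number. -/
def asum (v M c : ℕ) : ℕ :=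
  Nat.sub (Nat.add (Nat.mul 2 (Nat.mod (posp v M) cBM)) c) (Nat.mod v cBM)

/-- `v` has the digits `c k + 2 ^ 52` at the places `k < n` with `p k` and zero elsewhere. -/
structure Rep (v : ℕ) (p : ℕ → Bool) (n : ℕ) (c : ℕ → ℤ) : Prop where
  eq : (v : ℤ) = ∑ k ∈ Finset.range n, (c k + cond (p k) 4503599627370496 0) * 2 ^ (96 * k)
  zero : ∀ k, ¬(k < n ∧ p k = true) → c k = 0

theorem cML_eq : cML = pat lowP 43 := by decide +kernel
theorem cML_eq' : cML = pat lowP 15 := by decide +kernel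
theorem cM0_eq : cM0 = pat keepP 43 := by decide +kernel
theorem cMH_eq : cMH = pat (fun k => keepP k && !lowP k) 43 := by decide +kernel
theorem cEV_eq : cEV = pat (fun k => k == 2 || k == 14) 43 := by decide +kernel
theorem cA0_eq : cA0 = pat (fun _ => true) 43 := by decide +kernel
theorem cD0_eq : cD0 = pat (fun k => !keepP k) 43 := by decide +kernel

theorem pk_succ (f : ℕ → ℕ) (n : ℕ) : pk f (n + 1) = 2 ^ (96 * n) * f n + pk f n := by
  unfold pk
  rw [Finset.sum_range_succ]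
  ring

theorem pk_sl (k : ℕ) : sl k = (2 ^ 96) ^ k := by
  show 1 <<< (96 * k) = _
  rw [Nat.shiftLeft_eq, one_mul, pow_mul]

theorem pk_cBM : cBM = 2 ^ 96 - 1 := by decide +kernel

theorem pk_lt {f : ℕ → ℕ} {n : ℕ} (hf : ∀ k < n, f k < 2 ^ 96) : pk f n < 2 ^ (96 * n) := by
  induction n with
  | zero => simp [pk]
  | succ n ih =>
    have h1 := ih fun k hk => hf k (by omega)
    have h2 : f n + 1 ≤ 2 ^ 96 := hf n (by omega)
    have h3 := Nat.mul_le_mul_left (2 ^ (96 * n)) h2
    rw [pk_succ, Nat.mul_succ, pow_add]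
    rw [mul_add, mul_one] at h3
    omega

theorem pk_testBit {f : ℕ → ℕ} {n : ℕ} (hf : ∀ k < n, f k < 2 ^ 96) (j : ℕ) :
    (pk f n).testBit j = (decide (j / 96 < n) && (f (j / 96)).testBit (j % 96)) := by
  induction n with
  | zero => simp [pk]
  | succ n ih =>
    have h0 : ∀ k < n, f k < 2 ^ 96 := fun k hk => hf k (by omega)
    rw [pk_succ, Nat.testBit_two_pow_mul_add _ (pk_lt h0)]
    by_cases h1 : j < 96 * n
    · rw [if_pos h1, ih h0, decide_eq_true (by omega : j / 96 < n),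
        decide_eq_true (by omega : j / 96 < n + 1)]
    · rw [if_neg h1]
      by_cases h2 : j / 96 = n
      · rw [h2, decide_eq_true (by omega : n < n + 1), Bool.true_and]
        congr 1
        omega
      · rw [decide_eq_false (by omega : ¬j / 96 < n + 1), Bool.false_and]
        exact Nat.testBit_lt_two_pow ((hf n (by omega)).trans_le
          (Nat.pow_le_pow_right (by norm_num) (by omega)))

theorem pk_rep (N : ℕ) : rep N = ∑ b ∈ Finset.range N, ((2 ^ 96) ^ 15) ^ b := by
  rw [Nat.geomSum_eq (by decide +kernel)]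
  show (sl (15 * N) - 1) / (sl 15 - 1) = _
  rw [pk_sl, pk_sl, pow_mul]

theorem pk_block (m : ℕ) (p : ℕ → Bool) (N : ℕ) :
    pat p m * ∑ b ∈ Finset.range N, ((2 ^ 96) ^ m) ^ b = pat (fun k => p (k % m)) (m * N) := by
  induction N with
  | zero => simp [pat, pk]
  | succ N ih =>
    rw [Finset.sum_range_succ, mul_add, ih, Nat.mul_succ]
    unfold pat pk
    rw [Finset.sum_range_add, Finset.sum_mul]
    refine congrArg _ (Finset.sum_congr rfl fun i hi => ?_)
    have h1 : (m * N + i) % m = i := by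
      rw [Nat.mul_add_mod, Nat.mod_eq_of_lt (Finset.mem_range.1 hi)]
    have h2 : 96 * i + 96 * (m * N) = 96 * (m * N + i) := by ring
    beta_reduce
    rw [h1, ← pow_mul, ← pow_mul, mul_assoc, ← pow_add, h2]

theorem cM1_eq (N : ℕ) : cM1 N = pat keepX (15 * N) := by
  show cML * rep N = _
  rw [pk_rep, cML_eq']
  exact pk_block 15 lowP N

theorem cA1_eq (N : ℕ) : cA1 N = pat (fun _ => true) (15 * N) := by
  show (sl (15 * N) - 1) / cBM = _
  rw [pk_sl, pk_cBM, ← Nat.geomSum_eq (by decide +kernel)]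
  unfold pat pk
  exact Finset.sum_congr rfl fun i _ => by rw [pow_mul]; simp

theorem cD1_eq (N : ℕ) : cD1 N = pat (fun k => !keepX k) (15 * N) := by
  show cA1 N - cM1 N = _
  rw [cA1_eq, cM1_eq]
  refine Nat.sub_eq_of_eq_add ?_
  unfold pat pk
  rw [← Finset.sum_add_distrib]
  refine Finset.sum_congr rfl fun i _ => ?_
  beta_reduce
  cases keepX i <;> simp

/-- Digitwise action of a mask. -/
theorem pk_land {f g : ℕ → ℕ} {n : ℕ} (hf : ∀ k < n, f k < 2 ^ 96) (hg : ∀ k < n, g k < 2 ^ 96) :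
    Nat.land (pk f n) (pk g n) = pk (fun k => Nat.land (f k) (g k)) n := by
  have h : ∀ k < n, Nat.land (f k) (g k) < 2 ^ 96 := fun k hk =>
    lt_of_le_of_lt (Nat.and_le_left (n := f k) (m := g k)) (hf k hk)
  refine Nat.eq_of_testBit_eq fun j => ?_
  rw [pk_testBit h]
  show (pk f n &&& pk g n).testBit j = (_ && (f (j / 96) &&& g (j / 96)).testBit (j % 96))
  rw [Nat.testBit_and, Nat.testBit_and, pk_testBit hf, pk_testBit hg]
  cases decide (j / 96 < n) <;> simp

/-- Digitwise action of a shift followed by a mask. -/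
theorem pk_shift {f : ℕ → ℕ} {n s w : ℕ} (p : ℕ → Bool) (hf : ∀ k < n, f k < 2 ^ 96)
    (h : s + w ≤ 96) : Nat.land (Nat.shiftRight (pk f n) s) (Nat.mul (pat p n) (2 ^ w - 1))
      = pk (fun k => cond (p k) (f k / 2 ^ s % 2 ^ w) 0) n := by
  have hw : 2 ^ w ≤ 2 ^ 96 := Nat.pow_le_pow_right (by norm_num) (by omega)
  have hp : 0 < 2 ^ w := by positivity
  have h1 : pat p n * (2 ^ w - 1) = pk (fun k => cond (p k) (2 ^ w - 1) 0) n := by
    unfold pat pk
    rw [Finset.sum_mul]
    refine Finset.sum_congr rfl fun i _ => ?_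
    beta_reduce
    cases p i <;> simp [mul_comm]
  have h2 : ∀ k < n, cond (p k) (2 ^ w - 1) 0 < 2 ^ 96 := fun k _ => by
    cases p k
    · exact Nat.two_pow_pos 96
    · show 2 ^ w - 1 < _
      omega
  have h3 : ∀ k < n, cond (p k) (f k / 2 ^ s % 2 ^ w) 0 < 2 ^ 96 := fun k _ => by
    cases p k
    · exact Nat.two_pow_pos 96
    · exact (Nat.mod_lt _ hp).trans_le hw
  refine Nat.eq_of_testBit_eq fun j => ?_
  show (pk f n >>> s &&& pat p n * (2 ^ w - 1)).testBit j = _
  rw [h1, Nat.testBit_and, Nat.testBit_shiftRight, pk_testBit hf, pk_testBit h2, pk_testBit h3]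
  cases p (j / 96)
  · simp
  · simp only [cond_true, Nat.testBit_two_pow_sub_one, Nat.testBit_mod_two_pow,
      Nat.testBit_div_two_pow]
    by_cases h4 : j % 96 < w
    · have e1 : (s + j) / 96 = j / 96 := by omega
      have e2 : (s + j) % 96 = j % 96 + s := by omega
      rw [e1, e2, decide_eq_true h4]
      cases decide (j / 96 < n) <;> simp
    · rw [decide_eq_false h4]
      simp

theorem pk_mod {f : ℕ → ℕ} {n : ℕ} (h : ∑ k ∈ Finset.range n, f k < cBM) :
    Nat.mod (pk f n) cBM = ∑ k ∈ Finset.range n, f k := by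
  have h1 : 2 ^ 96 ≡ 1 [MOD cBM] := by decide +kernel
  have h2 : ∀ m, pk f m ≡ ∑ k ∈ Finset.range m, f k [MOD cBM] := by
    intro m
    induction m with
    | zero => simp [pk, Nat.ModEq]
    | succ m ih =>
      rw [pk_succ, Finset.sum_range_succ, add_comm, pow_mul]
      have h3 := (h1.pow m).mul_right (f m)
      rw [one_pow, one_mul] at h3
      exact ih.add h3
  show pk f n % cBM = _
  rw [h2 n, Nat.mod_eq_of_lt h]

theorem pk_digit {f : ℕ → ℕ} {n k : ℕ} (hf : ∀ k < n, f k < 2 ^ 96) (hk : k < n) :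
    Nat.land (Nat.shiftRight (pk f n) (Nat.mul 96 k)) cBM = f k := by
  refine Nat.eq_of_testBit_eq fun j => ?_
  show (pk f n >>> (96 * k) &&& cBM).testBit j = _
  rw [pk_cBM, Nat.testBit_and, Nat.testBit_shiftRight, pk_testBit hf,
    Nat.testBit_two_pow_sub_one]
  by_cases h4 : j < 96
  · have e1 : (96 * k + j) / 96 = k := by omega
    have e2 : (96 * k + j) % 96 = j := by omega
    rw [e1, e2, decide_eq_true h4, decide_eq_true hk]
    simp
  · rw [decide_eq_false h4, Bool.and_false]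
    exact (Nat.testBit_lt_two_pow ((hf k hk).trans_le
      (Nat.pow_le_pow_right (by norm_num) (by omega)))).symm

end Pool.Agent.P.MP_d76e6a_co
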