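import Pool.Agent.P.MP_d76e6a_co.XDefs

/-!
The equations and the inequalities of a certificate, over an arbitrary arithmetic.
-/

namespace Pool.Agent.P.MP_d76e6a_co

/-- Constants `n / 2 ^ 32`, integer multiples, `π`, the pair (sine, cosine), the positive part. -/
class Ar (α : Type) where
  num : ℤ → α
  zm : ℤ → α → α
  pi : α
  sc : α → α × α
  ps : α → α

open Ar

/-- The angle `sl * η j + p * π + a * A + b * B + q / 2 ^ 32`. -/
structure AE where
  sl : ℤ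
  j : ℕ
  p : ℤ
  a : ℤ
  b : ℤ
  q : ℤ

/-- The point at the fraction `t / 8` of joint `j` on half `s`. -/
structure Anc where
  j : ℕ
  t : ℕ
  s : ℤ

/-- An interval of placements ending at `e`: three fixed anchors if `m = 0`, else the arc `arc`,
mirrored if `m = -1`; `hl`, `hr` are hints for exact end points. -/
structure Iv where
  m : ℤ
  arc : ℕ
  a0 : Anc
  a1 : Anc
  a2 : Anc
  hl : ℤ
  hr : ℤ
  e : AE

/-- Break points of a corner: the first one, then pairs (comparison angle, next break point). -/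
structure Zone where
  g : AE
  st : List (AE × AE)

structure Plan where
  ka : List (ℤ × ℤ)
  kj : List (ℤ × ℤ)
  low : List Bool
  zs : List Zone
  iv : List Iv

/-- An entry of the table of the bad case. -/
structure Bad where
  a : ℕ
  b : ℕ
  g : ℕ
  U : ℤ

structure Cfg (α : Type) where
  A : α
  B : α
  wA : α
  wB : α
  r1 : α
  eta : ℕ → α
  l : ℕ → α
  m : ℕ → α
  U : ℕ → α × α
  X : ℕ → α × α
  rot1 : α × α
  rot2 : α × α

/-- A contact with corner `z`: directions `lo` to `hi`, mass or density `d`, total vector `v`. -/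
structure Con (α : Type) where
  z : ℕ
  band : Bool
  lo : AE
  hi : AE
  d : α
  v : α × α

noncomputable section

/-- Fast versions of `if`, of `&&`, and of equality and arithmetic of integers. -/
def cnd {γ : Type} (b : Bool) (x y : γ) : γ := Bool.rec y x b
def ieq (a b : ℤ) : Bool :=
  Int.rec (fun m => Int.rec (fun n => Nat.beq m n) (fun _ => false) b)
    (fun m => Int.rec (fun _ => false) (fun n => Nat.beq m n) b) a
def snn (m n : ℕ) : ℤ :=
  Bool.rec (Int.negSucc (Nat.sub (Nat.sub n m) 1)) (Int.ofNat (Nat.sub m n)) (Nat.ble n m)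
def iadd (a b : ℤ) : ℤ :=
  Int.rec (fun m => Int.rec (fun n => Int.ofNat (Nat.add m n)) (fun n => snn m (Nat.succ n)) b)
    (fun m => Int.rec (fun n => snn n (Nat.succ m))
      (fun n => Int.negSucc (Nat.succ (Nat.add m n))) b) a
def isub (a b : ℤ) : ℤ :=
  Int.rec (fun m => Int.rec (fun n => snn m n) (fun n => Int.ofNat (Nat.succ (Nat.add m n))) b)
    (fun m => Int.rec (fun n => Int.negSucc (Nat.add m n)) (fun n => snn n m) b) a
def ineg (a : ℤ) : ℤ := Int.rec (fun m => snn 0 m) (fun m => Int.ofNat (Nat.succ m)) a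
/-- The product of a sign and an integer. -/
def isg (s a : ℤ) : ℤ := Int.rec (fun _ => a) (fun _ => ineg a) s

@[simp] theorem cnd_true {γ : Type} (x y : γ) : cnd true x y = x := rfl
@[simp] theorem cnd_false {γ : Type} (x y : γ) : cnd false x y = y := rfl
theorem cnd_eq {γ : Type} (b : Bool) (x y : γ) : cnd b x y = if b = true then x else y := by
  cases b <;> rfl
@[simp] theorem ieq_iff (a b : ℤ) : ieq a b = true ↔ a = b := by
  cases a <;> cases b <;> simp [ieq, Int.negSucc_eq] <;> omega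
theorem snn_eq (m n : ℕ) : snn m n = m - n := by
  unfold snn
  cases h : Nat.ble n m
  · have : ¬n ≤ m := by rw [← Nat.ble_eq, h]; simp
    simp only [Int.negSucc_eq, Nat.sub_eq]
    omega
  · have : n ≤ m := by rw [← Nat.ble_eq, h]
    simp only [Int.ofNat_eq_natCast, Nat.sub_eq]
    omega
@[simp] theorem iadd_eq (a b : ℤ) : iadd a b = a + b := by
  cases a <;> cases b <;> simp [iadd, snn_eq, Int.negSucc_eq] <;> omega
@[simp] theorem isub_eq (a b : ℤ) : isub a b = a - b := by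
  cases a <;> cases b <;> simp [isub, snn_eq, Int.negSucc_eq] <;> omega
@[simp] theorem ineg_eq (a : ℤ) : ineg a = -a := by
  cases a <;> simp [ineg, snn_eq, Int.negSucc_eq]
theorem isg_eq {s : ℤ} (h : s = 1 ∨ s = -1) (a : ℤ) : isg s a = s * a := by
  rcases h with rfl | rfl
  · exact (one_mul a).symm
  · exact (ineg_eq a).trans (neg_one_mul a).symm

def pm (s : ℤ) : Bool := ieq s 1 || ieq s (-1)
def Tmpl.cor (T : Tmpl) (j : ℕ) : Bool := ieq (T.J j).s 0
def Tmpl.na (T : Tmpl) : ℕ := T.atoms.length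
def Tmpl.N (T : Tmpl) : ℕ := 2 * T.n + T.na + cnd T.top 1 0

def Plc.wf (T : Tmpl) (P : Plc) : Bool :=
  pm P.s && pm P.s1 && pm P.s2 && Nat.ble P.j1 T.n && Nat.ble P.j2 T.n && T.cor P.j1 && T.cor P.j2

def Tmpl.wf (T : Tmpl) : Bool :=
  Nat.ble 1 T.n && T.cor 0 && T.cor T.n &&
    (List.range (T.n + 1)).all (fun j => T.cor j || ((T.J j).wf T && !Nat.beq (Nat.mod (T.J j).r 3) 2)) &&
    (List.range T.na).all fun p => (T.At p).wf T && ieq (T.At p).s 1

def AE.nrm (n : ℕ) (x : AE) : AE :=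
  cnd (ieq x.sl 0 || Nat.beq x.j 0) ⟨0, 0, x.p, x.a, x.b, x.q⟩
    (cnd (Nat.beq x.j (n + 1)) ⟨0, 0, iadd x.p x.sl, x.a, x.b, x.q⟩ x)

def AE.mul (k : ℤ) (x : AE) : AE := 
  ⟨isg k x.sl, x.j, isg k x.p, isg k x.a, isg k x.b, isg k x.q⟩

def AE.addOff (x : AE) (k : ℤ) (r : ℕ) : AE :=
  cnd (Nat.beq (Nat.mod r 3) 0) x (cnd (Nat.beq (Nat.mod r 3) 1) 
    ⟨x.sl, x.j, iadd x.p k, iadd x.a k, x.b, x.q⟩
    ⟨x.sl, x.j, iadd x.p k, x.a, isub x.b k, x.q⟩)

def AE.addPi (x : AE) (k : ℤ) : AE := ⟨x.sl, x.j, iadd x.p k, x.a, x.b, x.q⟩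

/-- Equality up to a multiple of `2 π`. -/
def AE.same (x y : AE) : Bool :=
  ieq x.sl y.sl && Nat.beq x.j y.j && ieq x.a y.a && ieq x.b y.b && ieq x.q y.q &&
    Nat.beq (Nat.mod (isub x.p y.p).natAbs 2) 0

def etaE (T : Tmpl) (j : ℕ) : AE := AE.nrm T.n ⟨1, j, 0, 0, 0, 0⟩

/-- The normal angle of side `0`. -/
def thE (T : Tmpl) (P : Plc) (j : ℕ) : AE := (AE.nrm T.n ⟨P.s, j, 0, 0, 0, 0⟩).addOff (-1) P.r

/-- The folded direction of the contact of side `P.r + i`. -/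
def dirE (T : Tmpl) (P : Plc) (j i : ℕ) (s k : ℤ) : AE :=
  (((thE T P j).addOff 1 (P.r + i)).mul s).addPi (iadd k k)

def Anc.eq (x y : Anc) : Bool := Nat.beq x.j y.j && Nat.beq x.t y.t && ieq x.s y.s
def Anc.ok (T : Tmpl) (x : Anc) : Bool := Nat.ble x.j T.n && Nat.ble x.t 8 && pm x.s

def Anc.onEdge (T : Tmpl) (x : Anc) (j : ℕ) : Bool :=
  (Nat.beq x.j j && Nat.beq x.t 0) || (Nat.beq (x.j + 1) j && (Nat.beq x.t 8 || T.cor x.j))

def sel (a0 a1 a2 : Anc) (r : ℕ) : Anc :=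
  cnd (Nat.beq (Nat.mod r 3) 0) a0 (cnd (Nat.beq (Nat.mod r 3) 1) a1 a2)

def Plc.mOK (P : Plc) (m : ℤ) : Bool :=
  ieq m 1 || (ieq m (-1) && Nat.beq (Nat.mod P.r 3) 0 && Nat.beq P.j1 P.j2 && ieq P.s1 P.s2)

/-- Placements that fit exactly: index `< na` atoms, then both ends of every joint. -/
def cand (T : Tmpl) (i : ℕ) : Plc × ℕ × Bool :=
  cnd (Nat.blt i T.na) (T.At i, T.n + 1, true)
    (T.J ((i - T.na) / 2), (i - T.na) / 2 + (i - T.na) % 2,
      Nat.ble ((i - T.na) / 2) T.n && !T.cor ((i - T.na) / 2))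

def exactAt (T : Tmpl) (th : AE) (a0 a1 a2 : Anc) (P : Plc) (j : ℕ) (m : ℤ) : Bool :=
  P.mOK m && th.same ((thE T P j).mul m) && (sel a0 a1 a2 (P.r + 1)).eq ⟨P.j1, 0, isg m P.s1⟩ &&
    (sel a0 a1 a2 (P.r + 2)).eq ⟨P.j2, 0, isg m P.s2⟩ && (sel a0 a1 a2 P.r).onEdge T j &&
    (ieq (sel a0 a1 a2 P.r).s (isg m P.s) || Nat.beq j (T.n + 1))

/-- The placement opposite to the atom number one, when that atom measures a width. -/
def antiAt (T : Tmpl) (th : AE) (a0 a1 a2 : Anc) : Bool :=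
  Nat.blt 1 T.na && Nat.beq (T.At 1).r 1 && th.same ((thE T (T.At 1) (T.n + 1)).addPi 1) &&
    a0.eq ⟨T.n, 0, (T.At 1).s1⟩ && Nat.beq (T.At 1).j1 T.n && a2.eq ⟨0, 0, (T.At 1).s2⟩ &&
    Nat.beq (T.At 1).j2 0 && Nat.beq a1.j 0 && Nat.beq a1.t 0

def isExact (T : Tmpl) (th : AE) (a0 a1 a2 : Anc) (h : ℤ) : Bool :=
  cnd (ieq h 15) (antiAt T th a0 a1 a2) ((cand T (h.natAbs - 1)).2.2 &&
    exactAt T th a0 a1 a2 (cand T (h.natAbs - 1)).1 (cand T (h.natAbs - 1)).2.1 h.sign)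

def arcOK (T : Tmpl) (a b : AE) (j : ℕ) (m : ℤ) : Bool :=
  Nat.ble j T.n && !T.cor j && (T.J j).mOK m &&
    cnd (ieq (isg m (T.J j).s) 1)
      (a.same ((thE T (T.J j) j).mul m) && b.same ((thE T (T.J j) (j + 1)).mul m) && ieq a.p b.p)
      (a.same ((thE T (T.J j) (j + 1)).mul m) && b.same ((thE T (T.J j) j).mul m) && ieq a.p b.p)

variable {α : Type} [Add α] [Neg α] [Mul α] [Ar α]

def sub (a b : α) : α := a + -b
def vadd (p q : α × α) : α × α := (p.1 + q.1, p.2 + q.2)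
def vsub (p q : α × α) : α × α := (sub p.1 q.1, sub p.2 q.2)
def vsm (a : α) (p : α × α) : α × α := (a * p.1, a * p.2)
def vmul (p q : α × α) : α × α := (sub (p.1 * q.1) (p.2 * q.2), p.1 * q.2 + p.2 * q.1)
def vdot (p q : α × α) : α := p.1 * q.1 + p.2 * q.2
def vt (u : α × α) : α × α := (u.2, -u.1)
def lsum : List α → α
  | [] => num 0
  | a :: l => a + lsum l

def ae (c : Cfg α) (x : AE) : α :=
  zm x.sl (c.eta x.j) + (zm x.p pi + (zm x.a c.A + (zm x.b c.B + num x.q)))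

def dif (c : Cfg α) (x y : AE) : α :=
  cnd (ieq x.sl y.sl && Nat.beq x.j y.j)
    (ae c ⟨0, 0, isub x.p y.p, isub x.a y.a, isub x.b y.b, isub x.q y.q⟩)
    (ae c ⟨x.sl, x.j, isub x.p y.p, isub x.a y.a, isub x.b y.b, isub x.q y.q⟩ + zm (ineg y.sl) (c.eta y.j))

def wm (c : Cfg α) (r : ℕ) (x : α) : α :=
  cnd (Nat.beq (Nat.mod r 3) 0) x (cnd (Nat.beq (Nat.mod r 3) 1) (c.wA * x) (c.wB * x))

def rm (r1 : α) (r : ℕ) (p : α × α) : α × α := cnd (Nat.beq (Nat.mod r 3) 0) p (vsm r1 p)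

def etaF (T : Tmpl) (z : ℕ → α) (j : ℕ) : α :=
  cnd (Nat.beq j 0) (num 0) (cnd (Nat.ble j T.n) (z (2 * j - 2)) pi)

def lF (T : Tmpl) (z : ℕ → α) (j : ℕ) : α :=
  cnd (Nat.beq j 0) (cnd T.top (z (2 * T.n + T.na)) (num 0)) (z (2 * j - 1))

def XF (T : Tmpl) (r1 : α) (l : ℕ → α) (U : ℕ → α × α) : ℕ → α × α
  | 0 => (l 0, num 0)
  | j + 1 => vadd (cnd (T.cor j) (XF T r1 l U j)
      (vadd (XF T r1 l U j) (rm r1 (T.J j).r (vsub (U (j + 1)) (U j)))))
      (vsm (l (j + 1)) (vt (U (j + 1))))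

def cfg (T : Tmpl) (A B wA wB r1 : α) (z : ℕ → α) : Cfg α where
  A := A
  B := B
  wA := wA
  wB := wB
  r1 := r1
  eta := etaF T z
  l := lF T z
  m := fun p => z (2 * T.n + p)
  U := fun j => sc (etaF T z j)
  X := XF T r1 (lF T z) fun j => sc (etaF T z j)
  rot1 := vsm wA ((sc A).2, (sc A).1)
  rot2 := vsm wB ((sc B).2, -(sc B).1)

def del (c : Cfg α) (j : ℕ) : α := sub (c.eta (j + 1)) (c.eta j)

def pt0 (T : Tmpl) (c : Cfg α) (j t : ℕ) : α × α :=
  cnd (Nat.beq t 0 || T.cor j) (c.X j) (vadd (c.X j) (rm c.r1 (T.J j).r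
    (vsub (cnd (Nat.beq t 8) (c.U (j + 1)) (sc (c.eta j + num (t * 536870912) * del c j))) (c.U j))))

def pt (T : Tmpl) (c : Cfg α) (a : Anc) : α × α :=
  (zm a.s (pt0 T c a.j a.t).1, (pt0 T c a.j a.t).2)

def Wv (T : Tmpl) (c : Cfg α) (a0 a1 a2 : Anc) : α × α :=
  cnd (a1.eq a2) (vsub (pt T c a0) (pt T c a1))
    (vsub (vsub (pt T c a0) (vmul c.rot1 (pt T c a1))) (vmul c.rot2 (pt T c a2)))

def WP (T : Tmpl) (c : Cfg α) (P : Plc) (j : ℕ) : α × α :=
  cnd (Nat.beq (Nat.mod P.r 3) 0) (Wv T c ⟨j, 0, P.s⟩ ⟨P.j1, 0, P.s1⟩ ⟨P.j2, 0, P.s2⟩)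
    (cnd (Nat.beq (Nat.mod P.r 3) 1) (Wv T c ⟨P.j2, 0, P.s2⟩ ⟨j, 0, P.s⟩ ⟨P.j1, 0, P.s1⟩)
      (Wv T c ⟨P.j1, 0, P.s1⟩ ⟨P.j2, 0, P.s2⟩ ⟨j, 0, P.s⟩))

def atomC (c : Cfg α) (z : ℕ) (e : AE) (d : α) : Con α := ⟨z, false, e, e, d, vsm d (sc (ae c e))⟩

def bandC (c : Cfg α) (z : ℕ) (up : Bool) (e0 e1 : AE) (d : α) : Con α :=
  ⟨z, true, cnd up e0 e1, cnd up e1 e0, d,
    vsm d (vt (vsub (sc (ae c (cnd up e0 e1))) (sc (ae c (cnd up e1 e0)))))⟩

def rho (c : Cfg α) (r : ℕ) : α := cnd (Nat.beq (Nat.mod r 3) 0) (num 4294967296) c.r1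

def atomCs (T : Tmpl) (c : Cfg α) (p : ℕ) (k : ℤ × ℤ) : List (Con α) :=
  [atomC c (T.At p).j1 (dirE T (T.At p) (T.n + 1) 1 (T.At p).s1 k.1) (wm c ((T.At p).r + 1) (c.m p)),
    atomC c (T.At p).j2 (dirE T (T.At p) (T.n + 1) 2 (T.At p).s2 k.2) (wm c ((T.At p).r + 2) (c.m p))]

def bandCs (T : Tmpl) (c : Cfg α) (j : ℕ) (k : ℤ × ℤ) : List (Con α) :=
  cnd (T.cor j) []
    [bandC c (T.J j).j1 (ieq (T.J j).s (T.J j).s1) (dirE T (T.J j) j 1 (T.J j).s1 k.1)
        (dirE T (T.J j) (j + 1) 1 (T.J j).s1 k.1) (wm c ((T.J j).r + 1) (rho c (T.J j).r)),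
      bandC c (T.J j).j2 (ieq (T.J j).s (T.J j).s2) (dirE T (T.J j) j 2 (T.J j).s2 k.2)
        (dirE T (T.J j) (j + 1) 2 (T.J j).s2 k.2) (wm c ((T.J j).r + 2) (rho c (T.J j).r))]

def cons (T : Tmpl) (pl : Plan) (c : Cfg α) : List (Con α) :=
  (List.range T.na).flatMap (fun p => atomCs T c p (pl.ka.getD p (0, 0))) ++
    (List.range (T.n + 1)).flatMap fun j => bandCs T c j (pl.kj.getD j (0, 0))

def ld (z : ℕ) : List (Con α) → α × α
  | [] => (num 0, num 0)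
  | x :: C => cnd (Nat.beq x.z z) (vadd x.v (ld z C)) (ld z C)

def g0 (T : Tmpl) (c : Cfg α) : α := lsum ((List.range T.na).map fun p => wm c (T.At p).r (c.m p))

def one : α := num 4294967296

def eqJ (T : Tmpl) (c : Cfg α) (C : List (Con α)) (j : ℕ) : α × α :=
  cnd (T.cor j)
    (vsub (ld j C) (cnd (Nat.beq j T.n) (vadd (vt (c.U j)) (num 0, g0 T c))
      (vt (vsub (c.U j) (c.U (j + 1))))))
    (vsub (WP T c (T.J j) j) (sc (ae c (thE T (T.J j) j))))

def apexV (c : Cfg α) (C : List (Con α)) : α := sub one ((ld 0 C).1 + (c.U 1).2)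

/-- The left-hand sides of the square system. -/
def eqs (T : Tmpl) (c : Cfg α) (C : List (Con α)) : List α :=
  (List.range T.n).flatMap (fun j => [(eqJ T c C (j + 1)).1, (eqJ T c C (j + 1)).2]) ++
    ((List.range T.na).map (fun p =>
      sub (vdot (WP T c (T.At p) T.n) (sc (ae c (thE T (T.At p) (T.n + 1))))) one) ++
    cnd T.top [apexV c C] [])

def term (c : Cfg α) (g : AE) (x : Con α) : α :=
  cnd x.band (x.d * sub (sc (ps (dif c x.lo g))).2 (sc (ps (dif c x.hi g))).2)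
    (x.d * ps (sc (dif c x.lo g)).1)

def terms (c : Cfg α) (z : ℕ) (g : AE) : List (Con α) → α
  | [] => num 0
  | x :: C => cnd (Nat.beq x.z z) (term c g x + terms c z g C) (terms c z g C)

def psiZ (T : Tmpl) (c : Cfg α) (C : List (Con α)) (z : ℕ) (g : AE) : α :=
  cnd (Nat.beq z T.n) (g0 T c * (sc (ae c g)).1) (sc (dif c (etaE T (z + 1)) g)).2 + terms c z g C

def gap (c : Cfg α) (a b : AE) : List α := [dif c b a, sub (num 12884901888) (dif c b a)]

def steps (T : Tmpl) (c : Cfg α) (C : List (Con α)) (z : ℕ) : Bool → AE → List (AE × AE) → List α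
  | _, a, [] => dif c (etaE T (z + 1)) a ::
      (C.filter fun x => Nat.beq x.z z).map fun x => dif c a x.hi
  | f, a, (mu, b) :: st => gap c a b ++
      (cnd f [dif c mu (etaE T z), dif c a (etaE T z) + dif c a mu]
        [sub (sc (dif c a mu)).2 (psiZ T c C z a)] ++
      (cnd (st.isEmpty && !Nat.beq z T.n)
        [dif c (etaE T (z + 1)) mu, dif c (etaE T (z + 1)) b + dif c mu b]
        [sub (sc (dif c b mu)).2 (psiZ T c C z b)] ++ steps T c C z false b st))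

def zoneI (T : Tmpl) (c : Cfg α) (C : List (Con α)) (z : ℕ) (Z : Zone) : List α :=
  cnd (T.cor z) (dif c Z.g (etaE T z) :: (cnd (Nat.beq z 0) [sub (num 6442450944) (ae c Z.g)] [] ++
    ((C.filter fun x => Nat.beq x.z z).map (fun x => dif c x.lo Z.g) ++ steps T c C z true Z.g Z.st)))
    [del c z]

def endI (T : Tmpl) (c : Cfg α) (th : AE) (a0 a1 a2 : Anc) (h : ℤ) : List α :=
  cnd (ieq h 0) [sub (vdot (Wv T c a0 a1 a2) (sc (ae c th))) one]
    (cnd (isExact T th a0 a1 a2 h) [] [num (-1)])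

def primI (T : Tmpl) (c : Cfg α) : AE → List Iv → List α
  | a, [] => [dif c a ⟨0, 0, 3, 0, 0, 0⟩]
  | a, ⟨m, arc, a0, a1, a2, hl, hr, e⟩ :: iv => cnd (ieq m 0)
      (cnd (a0.ok T && a1.ok T && a2.ok T)
        (gap c a e ++ (endI T c a a0 a1 a2 hl ++ endI T c e a0 a1 a2 hr)) [num (-1)])
      (cnd (arcOK T a e arc m) [] [num (-1)]) ++ primI T c e iv

def massC (c : Cfg α) (x : Con α) : α := cnd x.band (x.d * dif c x.hi x.lo) x.d

def lowI (c : Cfg α) (g : ℕ) : List (Con α) → List Bool → List α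
  | x :: C, true :: L => sub (num (g * 4685082)) (ae c x.hi) :: lowI c g C L
  | _ :: C, false :: L => lowI c g C L
  | _, _ => []

def highM (c : Cfg α) : List (Con α) → List Bool → α
  | [], _ => num 0
  | _ :: C, true :: L => highM c C L
  | x :: C, false :: L => massC c x + highM c C L
  | x :: C, [] => massC c x + highM c C []

def arcSum (T : Tmpl) (f : ℕ → α) : α :=
  lsum ((List.range (T.n + 1)).map fun j => cnd (T.cor j) (num 0) (f j))

def signI (T : Tmpl) (c : Cfg α) (C : List (Con α)) : List α :=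
  (List.range (T.n + 1)).map c.l ++ ((List.range T.na).map c.m ++
    (sub one (g0 T c) :: cnd T.top [] [apexV c C]))

def dualI (T : Tmpl) (pl : Plan) (c : Cfg α) (C : List (Con α)) : List α :=
  (List.range (T.n + 1)).flatMap fun z => zoneI T c C z (pl.zs.getD z ⟨⟨0, 0, 0, 0, 0, 0⟩, []⟩)

def badI (T : Tmpl) (pl : Plan) (bd : Bad) (c : Cfg α) (C : List (Con α)) : List α :=
  sub one (arcSum T (del c) + highM c C pl.low) ::
    sub (num (bd.a * 4685082)) c.A :: sub (num (bd.b * 4685082)) c.B ::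
    sub (num bd.U) (zm 2 (lsum ((List.range T.na).map c.m)
      + arcSum T fun j => rho c (T.J j).r * del c j)) ::
    num (2400 - bd.a - bd.b) :: num (2880 - bd.g) :: lowI c bd.g C pl.low

/-- All inequalities of a certificate: every entry has to be nonnegative. -/
def ineqs (T : Tmpl) (pl : Plan) (bd : Bad) (c : Cfg α) (C : List (Con α)) : List α :=
  signI T c C ++ (badI T pl bd c C ++ (dualI T pl c C ++ primI T c ⟨0, 0, 1, 0, 0, 0⟩ pl.iv))

instance : Ar ℝ where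
  num n := n / 4294967296
  zm k x := k * x
  pi := Real.pi
  sc x := (Real.sin x, Real.cos x)
  ps x := max x 0

@[simp] theorem num_real (n : ℤ) : (num n : ℝ) = n / 4294967296 := rfl
@[simp] theorem zm_real (k : ℤ) (x : ℝ) : zm k x = k * x := rfl
@[simp] theorem pi_real : (pi : ℝ) = Real.pi := rfl
@[simp] theorem sc_real (x : ℝ) : sc x = (Real.sin x, Real.cos x) := rfl
@[simp] theorem ps_real (x : ℝ) : ps x = max x 0 := rfl

end

end Pool.Agent.P.MP_d76e6a_co
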