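import Pool.Agent.P.MP_d76e6a_co.XPk

/-!
Operations on represented coefficient vectors.
-/

namespace Pool.Agent.P.MP_d76e6a_co

theorem rep_congr {f g : ℕ → ℕ} {n : ℕ} (h : ∀ k < n, f k = g k) : pk f n = pk g n :=
  Finset.sum_congr rfl fun k hk => by rw [h k (Finset.mem_range.1 hk)]

theorem rep_mul (f : ℕ → ℕ) (n a : ℕ) : Nat.mul (pk f n) a = pk (fun k => f k * a) n := by
  change pk f n * a = _
  unfold pk
  rw [Finset.sum_mul]
  exact Finset.sum_congr rfl fun k _ => by ring

theorem rep_cast (f : ℕ → ℕ) (n : ℕ) :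
    (pk f n : ℤ) = ∑ k ∈ Finset.range n, (f k : ℤ) * 2 ^ (96 * k) := by
  unfold pk; push_cast; rfl

theorem rep_land53 (x : ℕ) : Nat.land x 9007199254740991 = x % 9007199254740992 :=
  Nat.and_two_pow_sub_one_eq_mod x 53

theorem rep_land52 (x : ℕ) : Nat.land x 4503599627370495 = x % 4503599627370496 :=
  Nat.and_two_pow_sub_one_eq_mod x 52

theorem rep_land0 (x : ℕ) : Nat.land x 0 = 0 := Nat.and_zero x

theorem rep_sum_lt {f : ℕ → ℕ} {n : ℕ} (hn : n ≤ 1000000)
    (h : ∀ k < n, f k ≤ 9007199254740992) : ∑ k ∈ Finset.range n, f k < cBM := by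
  have := Finset.sum_le_card_nsmul (Finset.range n) f 9007199254740992
    fun k hk => h k (Finset.mem_range.1 hk)
  rw [Finset.card_range, smul_eq_mul] at this
  unfold cBM
  exact lt_of_le_of_lt this (by omega)

theorem rep_digit {c : ℕ → ℤ} (p : ℕ → Bool) (hc : ∀ k, |c k| < 4503599627370496) (k : ℕ) :
    cond (p k) (c k + 4503599627370496).toNat 0 < 9007199254740992 := by
  have := abs_lt.1 (hc k)
  cases p k
  · simp
  · simp only [cond_true]; omega

theorem rep_posp {f : ℕ → ℕ} {n : ℕ} (hf : ∀ k < n, f k < 2 ^ 96) (q : ℕ → Bool) :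
    posp (pk f n) (pat q n) = pk (fun k => Nat.land (f k)
      (cond (q k) (f k / 2 ^ 52 % 2 ^ 1) 0 * 4503599627370495)) n := by
  have h1 := pk_shift (s := 52) (w := 1) q hf (by norm_num)
  have h2 : Nat.mul (pat q n) (2 ^ 1 - 1) = pat q n := Nat.mul_one _
  rw [h2] at h1
  unfold posp
  rw [h1, rep_mul, pk_land hf]
  intro k _
  cases q k
  · simp
  · simp only [cond_true]; omega

theorem Rep.pk {v n : ℕ} {p : ℕ → Bool} {c : ℕ → ℤ} (h : Rep v p n c)
    (hc : ∀ k, |c k| < 4503599627370496) :
    v = pk (fun k => cond (p k) (c k + 4503599627370496).toNat 0) n := by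
  have h1 := h.eq
  refine Int.natCast_inj.1 (h1.trans ?_)
  rw [rep_cast]
  refine Finset.sum_congr rfl fun k _ => ?_
  have h2 := abs_lt.1 (hc k)
  have h3 := h.zero k
  congr 1
  cases hp : p k
  · simpa [hp] using h3
  · simp only [cond_true]; omega

/-- Restriction to a subset of the places. -/
theorem Rep.mask {v n : ℕ} {p : ℕ → Bool} {c : ℕ → ℤ} (h : Rep v p n c)
    (hc : ∀ k, |c k| < 4503599627370496) (q : ℕ → Bool) (hq : ∀ k, q k = true → p k = true) :
    Rep (Nat.land v (ful (pat q n))) q n fun k => cond (q k) (c k) 0 := by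
  refine ⟨?_, fun k hk => ?_⟩
  · have h1 := rep_digit p hc
    rw [h.pk hc, ful, pat, rep_mul, pk_land (fun k _ => (h1 k).trans (by norm_num))
      (fun k _ => by cases q k <;> simp), rep_cast]
    refine Finset.sum_congr rfl fun k _ => ?_
    have h2 := abs_lt.1 (hc k)
    congr 1
    cases hp : q k
    · simp
    · simp only [hq k hp, cond_true, one_mul, rep_land53]; omega
  · cases hp : q k
    · rfl
    · exact h.zero k fun h1 => hk ⟨h1.1, hp⟩

theorem Rep.posp {v n : ℕ} {p : ℕ → Bool} {c : ℕ → ℤ} (h : Rep v p n c)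
    (hc : ∀ k, |c k| < 4503599627370496) (hn : n ≤ 1000000) (q : ℕ → Bool) :
    (Nat.mod (posp v (pat q n)) cBM : ℤ) = ∑ k ∈ Finset.range n, cond (q k) (max (c k) 0) 0 := by
  have h1 := rep_digit p hc
  have h2 : ∀ k < n, Nat.land (cond (p k) (c k + 4503599627370496).toNat 0)
      (cond (q k) (cond (p k) (c k + 4503599627370496).toNat 0 / 2 ^ 52 % 2 ^ 1) 0 *
        4503599627370495) = cond (q k) (c k).toNat 0 := by
    intro k _
    have h3 := abs_lt.1 (hc k)
    have h4 := h.zero k
    cases q k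
    · simp
    · cases hp : p k
      · have h5 : c k = 0 := by simpa [hp] using h4
        simp [h5]
      · simp only [cond_true]
        rcases le_or_gt 0 (c k) with h5 | h5
        · have h6 : (c k + 4503599627370496).toNat / 2 ^ 52 % 2 ^ 1 = 1 := by omega
          rw [h6, one_mul, rep_land52]; omega
        · have h6 : (c k + 4503599627370496).toNat / 2 ^ 52 % 2 ^ 1 = 0 := by omega
          rw [h6, zero_mul, rep_land0]; omega
  rw [h.pk hc, rep_posp (fun k _ => (h1 k).trans (by norm_num)), rep_congr h2, pk_mod]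
  · push_cast
    refine Finset.sum_congr rfl fun k _ => ?_
    cases q k
    · rfl
    · simp only [cond_true]; omega
  · refine rep_sum_lt hn fun k _ => ?_
    have h3 := abs_lt.1 (hc k)
    cases q k
    · simp
    · simp only [cond_true]; omega

theorem Rep.asum {v n a : ℕ} {p : ℕ → Bool} {c : ℕ → ℤ} (h : Rep v p n c)
    (hc : ∀ k, |c k| < 4503599627370496) (hn : n ≤ 1000000)
    (ha : a = 4503599627370496 * ((Finset.range n).filter fun k => p k = true).card) :
    (asum v (pat p n) a : ℤ) = ∑ k ∈ Finset.range n, |c k| := by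
  have h1 := h.posp hc hn p
  have h2 : (Nat.mod v cBM : ℤ) =
      ∑ k ∈ Finset.range n, (c k + cond (p k) 4503599627370496 0) := by
    rw [h.pk hc, pk_mod (rep_sum_lt hn fun k _ => (rep_digit p hc k).le)]
    push_cast
    refine Finset.sum_congr rfl fun k _ => ?_
    have h2 := abs_lt.1 (hc k)
    have h3 := h.zero k
    cases hp : p k
    · simpa [hp] using (by simpa [hp] using h3 : c k = 0).symm
    · simp only [cond_true]; omega
  have h3 : (a : ℤ) = ∑ k ∈ Finset.range n, cond (p k) (4503599627370496 : ℤ) 0 := by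
    rw [ha, Finset.card_filter]
    push_cast
    rw [Finset.mul_sum]
    refine Finset.sum_congr rfl fun k _ => ?_
    cases p k <;> simp
  have h4 : 2 * (Nat.mod (MP_d76e6a_co.posp v (pat p n)) cBM : ℤ) + a - (Nat.mod v cBM : ℤ) =
      ∑ k ∈ Finset.range n, |c k| := by
    rw [h1, h2, h3, Finset.mul_sum, ← Finset.sum_add_distrib, ← Finset.sum_sub_distrib]
    refine Finset.sum_congr rfl fun k _ => ?_
    have h5 := h.zero k
    cases hp : p k
    · have h6 : c k = 0 := by simpa [hp] using h5
      simp [h6]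
    · simp only [cond_true]
      rcases le_total 0 (c k) with h6 | h6
      · rw [abs_of_nonneg h6]; omega
      · rw [abs_of_nonpos h6]; omega
  have h5 : 0 ≤ ∑ k ∈ Finset.range n, |c k| := Finset.sum_nonneg fun k _ => abs_nonneg _
  change ((2 * Nat.mod (MP_d76e6a_co.posp v (pat p n)) cBM + a - Nat.mod v cBM : ℕ) : ℤ) = _
  omega

/-- Rounding: division of all coefficients by `2 ^ 40`. -/
theorem rep_shift {v n : ℕ} {d : ℕ → ℤ} (p : ℕ → Bool)
    (h : (v : ℤ) = ∑ k ∈ Finset.range n, (d k + cond (p k) (2 ^ 92) 0) * 2 ^ (96 * k))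
    (hz : ∀ k, ¬(k < n ∧ p k = true) → d k = 0) (hd : ∀ k, |d k| < 2 ^ 92) :
    Rep (Nat.land (Nat.shiftRight v 40) (ful (pat p n))) p n fun k => d k / 2 ^ 40 := by
  have h1 : v = pk (fun k => cond (p k) (d k + 2 ^ 92).toNat 0) n := by
    refine Int.natCast_inj.1 (h.trans ?_)
    rw [rep_cast]
    refine Finset.sum_congr rfl fun k _ => ?_
    have h2 := abs_lt.1 (hd k)
    have h3 := hz k
    congr 1
    cases hp : p k
    · simpa [hp] using h3
    · simp only [cond_true]; omega
  have h2 := pk_shift (f := fun k => cond (p k) (d k + 2 ^ 92).toNat 0) (n := n) (s := 40)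
    (w := 53) p (fun k _ => by
      have h2 := abs_lt.1 (hd k)
      cases p k
      · simp
      · simp only [cond_true]; omega) (by norm_num)
  refine ⟨?_, fun k hk => by rw [hz k hk]; rfl⟩
  have h3 : ful (pat p n) = Nat.mul (pat p n) (2 ^ 53 - 1) := rfl
  rw [h1, h3, h2, rep_cast]
  refine Finset.sum_congr rfl fun k _ => ?_
  have h4 := abs_lt.1 (hd k)
  have h5 := hz k
  congr 1
  cases hp : p k
  · have h6 : d k = 0 := by simpa [hp] using h5
    simp [h6]
  · simp only [cond_true]; omega

end Pool.Agent.P.MP_d76e6a_co
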