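import Pool.Agent.P.MP_d76e6a_co.XPoly
import Pool.Agent.P.MP_d76e6a_co.XCurve

/-!
The meaning of the quantities of a certificate over the real numbers.
-/

namespace Pool.Agent.P.MP_d76e6a_co

open Real Finset

def toC (p : ℝ × ℝ) : ℂ := ⟨p.1, p.2⟩

/-- The configuration `c` describes the curve of `x`. -/
structure Sem (T : Tmpl) (A B : ℝ) (x : Sol) (c : Cfg ℝ) : Prop where
  wf : T.wf = true
  A0 : 0 < A
  B0 : 0 < B
  AB : A + B < π
  hA : c.A = A
  hB : c.B = B
  wA : c.wA = wt A B 1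
  wB : c.wB = wt A B 2
  r1 : c.r1 = 1 / wt A B 1
  eta : c.eta = x.η
  l : c.l = x.l
  m : c.m = x.m
  e0 : x.η 0 = 0
  en : x.η (T.n + 1) = π
  l0 : T.top = false → x.l 0 = 0
  U : ∀ j, c.U j = (sin (x.η j), cos (x.η j))
  X : ∀ j ≤ T.n, toC (c.X j) = half T A B x (2 * j + 1)
  rot1 : c.rot1 = (wt A B 1 * cos A, wt A B 1 * sin A)
  rot2 : c.rot2 = (wt A B 2 * cos B, -(wt A B 2 * sin B))

theorem wt_pos {A B : ℝ} (hA : 0 < A) (hB : 0 < B) (h : A + B < π) (r : ℕ) : 0 < wt A B r := by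
  have h0 : 0 < sin (A + B) := sin_pos_of_pos_of_lt_pi (by linarith) h
  have h1 : 0 < sin A := sin_pos_of_pos_of_lt_pi hA (by linarith)
  have h2 : 0 < sin B := sin_pos_of_pos_of_lt_pi hB (by linarith)
  unfold wt
  split_ifs
  · exact one_pos
  · exact div_pos h2 h0
  · exact div_pos h1 h0

theorem rad_nonneg (T : Tmpl) {A B : ℝ} (hA : 0 < A) (hB : 0 < B) (h : A + B < π) (j : ℕ) :
    0 ≤ rad T A B j := by
  unfold rad
  exact div_nonneg (sq_nonneg _) (wt_pos hA hB h _).le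

theorem sem_base {A B : ℝ} (hA : 0 < A) (hB : 0 < B) (h : A + B < π) (θ : ℝ) (p : ℂ) :
    1 * hs p (θ + 0) + sin B / sin (A + B) * hs p (θ + (π + A))
      + sin A / sin (A + B) * hs p (θ + (π - B)) = 0 := by
  have h0 : sin (A + B) ≠ 0 := (sin_pos_of_pos_of_lt_pi (by linarith) h).ne'
  have e1 : θ + (π + A) = θ + A + π := by ring
  have e2 : θ + (π - B) = θ - B + π := by ring
  unfold hs
  rw [e1, e2, add_zero, sin_add_pi, cos_add_pi, sin_add_pi, cos_add_pi]
  field_simp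
  rw [sin_add A B, sin_add θ A, cos_add θ A, sin_sub θ B, cos_sub θ B]
  ring

/-- The weighted outer normals of the three sides add up to zero. -/
theorem wt_sum {A B : ℝ} (hA : 0 < A) (hB : 0 < B) (h : A + B < π) (r : ℕ) (θ : ℝ) (p : ℂ) :
    wt A B r * hs p (θ + off A B r) + wt A B (r + 1) * hs p (θ + off A B (r + 1))
      + wt A B (r + 2) * hs p (θ + off A B (r + 2)) = 0 := by
  have hb := sem_base hA hB h θ p
  unfold wt off
  have h3 : r % 3 = 0 ∨ r % 3 = 1 ∨ r % 3 = 2 := by omega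
  rcases h3 with h3 | h3 | h3
  · have a1 : (r + 1) % 3 = 1 := by omega
    have a2 : (r + 2) % 3 = 2 := by omega
    simp only [h3, a1, a2, if_true, if_false, one_ne_zero, OfNat.ofNat_ne_zero,
      OfNat.ofNat_ne_one]
    linarith
  · have a1 : (r + 1) % 3 = 2 := by omega
    have a2 : (r + 2) % 3 = 0 := by omega
    simp only [h3, a1, a2, if_true, if_false, one_ne_zero, OfNat.ofNat_ne_zero,
      OfNat.ofNat_ne_one]
    linarith
  · have a1 : (r + 1) % 3 = 0 := by omega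
    have a2 : (r + 2) % 3 = 1 := by omega
    simp only [h3, a1, a2, if_true, if_false, one_ne_zero, OfNat.ofNat_ne_zero,
      OfNat.ofNat_ne_one]
    linarith

theorem Tmpl.wf_spec {T : Tmpl} (h : T.wf = true) :
    1 ≤ T.n ∧ (T.J 0).s = 0 ∧ (T.J T.n).s = 0 ∧
      (∀ j ≤ T.n, (T.J j).s ≠ 0 → (T.J j).wf T = true ∧ (T.J j).r % 3 ≠ 2) ∧
      ∀ p < T.na, (T.At p).wf T = true ∧ (T.At p).s = 1 := by
  unfold Tmpl.wf Tmpl.cor at h
  simp only [Bool.and_eq_true, Nat.ble_eq, ieq_iff, List.all_eq_true, List.mem_range,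
    Bool.or_eq_true, Bool.not_eq_true'] at h
  obtain ⟨⟨⟨⟨h1, h2⟩, h3⟩, h4⟩, h5⟩ := h
  refine ⟨h1, h2, h3, fun j hj hs => ?_, h5⟩
  rcases h4 j (by omega) with h6 | ⟨h6, h7⟩
  · exact absurd h6 hs
  · refine ⟨h6, fun h8 => ?_⟩
    have h9 : Nat.beq (Nat.mod (T.J j).r 3) 2 = true := Nat.beq_eq ▸ h8
    rw [h9] at h7
    exact absurd h7 (by decide)

theorem Plc.wf_spec {T : Tmpl} {P : Plc} (h : P.wf T = true) :
    (P.s = 1 ∨ P.s = -1) ∧ (P.s1 = 1 ∨ P.s1 = -1) ∧ (P.s2 = 1 ∨ P.s2 = -1) ∧ P.j1 ≤ T.n ∧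
      P.j2 ≤ T.n ∧ (T.J P.j1).s = 0 ∧ (T.J P.j2).s = 0 := by
  unfold Plc.wf pm Tmpl.cor at h
  simp only [Bool.and_eq_true, Nat.ble_eq, ieq_iff, Bool.or_eq_true] at h
  obtain ⟨⟨⟨⟨⟨⟨h1, h2⟩, h3⟩, h4⟩, h5⟩, h6⟩, h7⟩ := h
  exact ⟨h1, h2, h3, h4, h5, h6, h7⟩

theorem sem_eta_zero (T : Tmpl) (z : ℕ → ℝ) : etaF T z 0 = 0 := by
  show (Ar.num 0 : ℝ) = 0
  simp

theorem sem_XF {T : Tmpl} (hT : T.wf = true) {A B : ℝ} (x : Sol) (h0 : x.η 0 = 0) (j : ℕ)
    (hj : j ≤ T.n) :
    toC (XF T (1 / wt A B 1) x.l (fun k => (sin (x.η k), cos (x.η k))) j)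
      = half T A B x (2 * j + 1) := by
  obtain ⟨-, -, -, h4, -⟩ := Tmpl.wf_spec hT
  induction j with
  | zero =>
    rw [half_one, h0]
    apply Complex.ext <;> simp [toC, XF, tt]
  | succ j ih =>
    have ih' := ih (by omega)
    rw [half_succ T A B x hj]
    unfold pnt
    rw [← ih']
    by_cases hs : (T.J j).s = 0
    · have hc : T.cor j = true := by
        unfold Tmpl.cor
        exact (ieq_iff _ _).2 hs
      have hr : rad T A B j = 0 := by
        unfold rad
        rw [hs]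
        simp
      rw [hr]
      simp only [XF, hc, cnd_true]
      apply Complex.ext <;> simp [toC, tt, vadd, vsm, vt]
    · have hc : T.cor j = false := by
        unfold Tmpl.cor
        rw [Bool.eq_false_iff]
        exact fun h => hs ((ieq_iff _ _).1 h)
      obtain ⟨h5, h6⟩ := h4 j (by omega) hs
      have h7 : ((T.J j).s : ℝ) ^ 2 = 1 := by
        rcases (Plc.wf_spec h5).1 with h | h <;> rw [h] <;> norm_num
      simp only [XF, hc, cnd_false]
      by_cases h8 : (T.J j).r % 3 = 0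
      · have h9 : Nat.beq (Nat.mod (T.J j).r 3) 0 = true := Nat.beq_eq ▸ h8
        have hr : rad T A B j = 1 := by
          unfold rad wt
          rw [h7, if_pos h8, div_one]
        rw [hr]
        simp only [rm, h9, cnd_true]
        apply Complex.ext <;> simp [toC, tt, uu, vadd, vsm, vt, vsub, sub, sub_eq_add_neg]
      · have h9 : Nat.beq (Nat.mod (T.J j).r 3) 0 = false := by
          rw [Bool.eq_false_iff]
          exact fun h => h8 (Nat.eq_of_beq_eq_true h)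
        have hr : rad T A B j = 1 / wt A B 1 := by
          have h10 : (T.J j).r % 3 = 1 := by omega
          unfold rad wt
          rw [h7, if_neg h8, if_pos h10, if_neg (by norm_num), if_pos (by norm_num)]
        rw [hr]
        simp only [rm, h9, cnd_false]
        generalize 1 / wt A B 1 = ρ
        apply Complex.ext <;> simp [toC, tt, uu, vadd, vsm, vt, vsub, sub, sub_eq_add_neg]

theorem sem_cfg {T : Tmpl} (hT : T.wf = true) {A B : ℝ} (hA : 0 < A) (hB : 0 < B) (h : A + B < π)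
    (z : ℕ → ℝ) : Sem T A B ⟨etaF T z, lF T z, fun p => z (2 * T.n + p)⟩
      (cfg T A B (wt A B 1) (wt A B 2) (1 / wt A B 1) z) := by
  refine ⟨hT, hA, hB, h, rfl, rfl, rfl, rfl, rfl, rfl, rfl, rfl, sem_eta_zero T z, ?_, ?_,
    fun _ => rfl, fun j hj => ?_, rfl, ?_⟩
  · show etaF T z (T.n + 1) = π
    have h1 : Nat.ble (T.n + 1) T.n = false := by
      rw [Bool.eq_false_iff]
      exact fun h => absurd (Nat.le_of_ble_eq_true h) (by omega)
    unfold etaF
    rw [h1]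
    rfl
  · intro ht
    show lF T z 0 = 0
    unfold lF
    rw [ht]
    show (Ar.num 0 : ℝ) = 0
    simp
  · exact sem_XF hT ⟨etaF T z, lF T z, fun p => z (2 * T.n + p)⟩ (sem_eta_zero T z) j hj
  · show (wt A B 2 * cos B, wt A B 2 * -sin B) = _
    rw [mul_neg]

theorem dif_eq (c : Cfg ℝ) (a b : AE) : dif c a b = ae c a - ae c b := by
  unfold dif
  rw [cnd_eq]
  split_ifs with h
  · simp only [Bool.and_eq_true, ieq_iff, Nat.beq_eq] at h
    unfold ae
    simp only [zm_real, pi_real, num_real, isub_eq, h.1, h.2]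
    push_cast
    ring
  · unfold ae
    simp only [zm_real, pi_real, num_real, isub_eq, ineg_eq]
    push_cast
    ring

theorem ae_mul (c : Cfg ℝ) {k : ℤ} (hk : k = 1 ∨ k = -1) (a : AE) :
    ae c (a.mul k) = k * ae c a := by
  unfold ae AE.mul
  simp only [zm_real, pi_real, num_real, isg_eq hk]
  push_cast
  ring

theorem ae_same (c : Cfg ℝ) {a b : AE} (h : a.same b = true) :
    ∃ k : ℤ, a.p - b.p = 2 * k ∧ ae c a = ae c b + k * (2 * π) := by
  unfold AE.same at h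
  simp only [Bool.and_eq_true, ieq_iff, Nat.beq_eq, isub_eq] at h
  obtain ⟨⟨⟨⟨⟨h1, h2⟩, h3⟩, h4⟩, h5⟩, h6⟩ := h
  have h7 : (a.p - b.p).natAbs % 2 = 0 := h6
  have h8 : a.p - b.p = 2 * ((a.p - b.p) / 2) := by omega
  refine ⟨(a.p - b.p) / 2, h8, ?_⟩
  generalize (a.p - b.p) / 2 = k at h8
  have h9 : (a.p : ℝ) = b.p + 2 * k := by
    have : a.p = b.p + 2 * k := by omega
    exact_mod_cast this
  unfold ae
  simp only [zm_real, pi_real, num_real, h1, h2, h3, h4, h5, h9]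
  ring

theorem lsum_eq (l : List ℝ) : lsum l = l.sum := by
  induction l with
  | nil =>
    show (Ar.num 0 : ℝ) = 0
    simp
  | cons a l ih =>
    show a + lsum l = _
    rw [ih, List.sum_cons]

end Pool.Agent.P.MP_d76e6a_co
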