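import Pool.Agent.P.MP_d76e6a_co.XSem

/-!
Angles, points and support vectors of a configuration.
-/

namespace Pool.Agent.P.MP_d76e6a_co

open Real Finset

section
variable {T : Tmpl} {A B : ℝ} {x : Sol} {c : Cfg ℝ}

theorem sem2_cnd {γ : Type} (r i : ℕ) (u v : γ) :
    cnd (Nat.beq (Nat.mod r 3) i) u v = if r % 3 = i then u else v := by
  rw [cnd_eq]
  exact if_congr Nat.beq_eq.to_iff rfl rfl

theorem sem2_nrm (h : Sem T A B x c) (s : ℤ) (j : ℕ) :
    ae c (AE.nrm T.n ⟨s, j, 0, 0, 0, 0⟩) = s * x.η j := by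
  unfold AE.nrm
  simp only [cnd_eq, Bool.or_eq_true, ieq_iff, Nat.beq_eq]
  split_ifs with h1 h2
  · rcases h1 with h1 | h1 <;> simp [ae, h1, h.e0]
  · simp [ae, h2, h.en]
  · simp [ae, h.eta]

theorem sem2_addOff (h : Sem T A B x c) (y : AE) (k : ℤ) (r : ℕ) :
    ae c (y.addOff k r) = ae c y + k * off A B r := by
  unfold AE.addOff off
  simp only [sem2_cnd]
  split_ifs
  · simp
  · simp only [ae, zm_real, pi_real, iadd_eq, h.hA]; push_cast; ring
  · simp only [ae, zm_real, pi_real, iadd_eq, isub_eq, h.hB]; push_cast; ring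

theorem sem2_addPi (y : AE) (k : ℤ) : ae c (y.addPi k) = ae c y + k * π := by
  simp only [AE.addPi, ae, zm_real, pi_real, iadd_eq]; push_cast; ring

theorem sem2_sum (f : ℕ → ℝ) (n : ℕ) : ((List.range n).map f).sum = ∑ i ∈ range n, f i := by
  induction n with
  | zero => simp
  | succ n ih => rw [List.range_succ, List.map_append, List.sum_append, ih, sum_range_succ]; simp

theorem sem2_wt (A B : ℝ) (r : ℕ) : wt A B r = wt A B (r % 3) := by
  unfold wt; rw [Nat.mod_mod]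

theorem sem2_off (A B : ℝ) (r : ℕ) : off A B r = off A B (r % 3) := by
  unfold off; rw [Nat.mod_mod]

theorem Sem.etaE (h : Sem T A B x c) (j : ℕ) : ae c (etaE T j) = x.η j := by
  rw [MP_d76e6a_co.etaE, sem2_nrm h]; simp

theorem Sem.thE (h : Sem T A B x c) (P : Plc) (j : ℕ) :
    ae c (thE T P j) = P.s * x.η j - off A B P.r := by
  rw [MP_d76e6a_co.thE, sem2_addOff h, sem2_nrm h]; push_cast; ring

theorem Sem.dirE (h : Sem T A B x c) (P : Plc) (j i : ℕ) {s : ℤ} (hs : s = 1 ∨ s = -1) (k : ℤ) :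
    ae c (dirE T P j i s k) = s * P.dir A B (x.η j) i + k * (2 * π) := by
  rw [MP_d76e6a_co.dirE, sem2_addPi, ae_mul c hs, sem2_addOff h, h.thE, Plc.dir, iadd_eq]
  push_cast; ring

theorem Sem.wm (h : Sem T A B x c) (r : ℕ) (y : ℝ) : wm c r y = wt A B r * y := by
  rw [MP_d76e6a_co.wm, sem2_cnd, sem2_cnd, h.wA, h.wB, sem2_wt A B r]
  split_ifs with h0 h1
  · rw [h0]; simp [wt]
  · rw [h1]
  · rw [show r % 3 = 2 by omega]

theorem Sem.rho (h : Sem T A B x c) {j : ℕ} (hj : j ≤ T.n) (hs : (T.J j).s ≠ 0) :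
    rho c (T.J j).r = rad T A B j ∧ wt A B (T.J j).r * rad T A B j = 1 := by
  obtain ⟨h1, h2⟩ := (Tmpl.wf_spec h.wf).2.2.2.1 j hj hs
  have h3 : (((T.J j).s : ℤ) : ℝ) ^ 2 = 1 := by
    rcases (Plc.wf_spec h1).1 with h4 | h4 <;> rw [h4] <;> norm_num
  have h4 := wt_pos h.A0 h.B0 h.AB (T.J j).r
  unfold rad
  rw [h3]
  refine ⟨?_, by field_simp⟩
  rw [MP_d76e6a_co.rho, sem2_cnd, sem2_wt A B (T.J j).r]
  split_ifs with h0
  · rw [h0]; simp [wt]
  · rw [show (T.J j).r % 3 = 1 by omega, h.r1]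

theorem Sem.g0 (h : Sem T A B x c) :
    g0 T c = ∑ p ∈ range T.atoms.length, x.m p * wt A B (T.At p).r := by
  rw [MP_d76e6a_co.g0, lsum_eq, sem2_sum]
  exact sum_congr rfl fun p _ => by rw [h.wm, h.m, mul_comm]

theorem sem2_pt0 (h : Sem T A B x c) {j : ℕ} (hj : j ≤ T.n) (t : ℕ) : toC (pt0 T c j t) =
    pnt T A B x j (x.η j + t / 8 * (x.η (j + 1) - x.η j)) := by
  unfold pt0 pnt
  simp only [cnd_eq, Bool.or_eq_true, Nat.beq_eq, Tmpl.cor, ieq_iff]
  by_cases h1 : t = 0 ∨ (T.J j).s = 0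
  · rw [if_pos h1, h.X j hj]
    rcases h1 with h1 | h1
    · simp [h1]
    · simp [rad, h1]
  · rw [if_neg h1, ← h.X j hj]
    have h2 := (h.rho hj fun h3 => h1 (Or.inr h3)).1
    have h3 : ∀ p : ℝ × ℝ, rm c.r1 (T.J j).r p = vsm (rad T A B j) p := by
      intro p
      rw [← h2]
      unfold rm MP_d76e6a_co.rho
      simp only [sem2_cnd]
      split_ifs
      · simp [vsm]
      · rfl
    have h4 : (if t = 8 then c.U (j + 1) else
        Ar.sc (c.eta j + Ar.num (t * 536870912) * del c j)) =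
        (sin (x.η j + t / 8 * (x.η (j + 1) - x.η j)),
          cos (x.η j + t / 8 * (x.η (j + 1) - x.η j))) := by
      split_ifs with h5
      · have : x.η j + (t : ℝ) / 8 * (x.η (j + 1) - x.η j) = x.η (j + 1) := by
          rw [h5]; push_cast; ring
        rw [h.U, this]
      · have : c.eta j + Ar.num (t * 536870912) * del c j =
            x.η j + (t : ℝ) / 8 * (x.η (j + 1) - x.η j) := by
          simp only [num_real, del, sub, h.eta]; push_cast; ring
        rw [this, sc_real]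
    rw [h3, h4, h.U]
    apply Complex.ext <;> simp [toC, vadd, vsm, vsub, sub, uu, sub_eq_add_neg]

theorem Sem.pt (h : Sem T A B x c) {a : Anc} (ha : a.j ≤ T.n) : toC (pt T c a) =
    mir a.s (pnt T A B x a.j (x.η a.j + a.t / 8 * (x.η (a.j + 1) - x.η a.j))) := by
  rw [← sem2_pt0 h ha]
  rfl

theorem Sem.Wv (h : Sem T A B x c) (a0 a1 a2 : Anc) (θ : ℝ) :
    vdot (Wv T c a0 a1 a2) (sin θ, cos θ) =
      wt A B 0 * hs (toC (MP_d76e6a_co.pt T c a0)) (θ + off A B 0)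
      + wt A B 1 * hs (toC (MP_d76e6a_co.pt T c a1)) (θ + off A B 1)
      + wt A B 2 * hs (toC (MP_d76e6a_co.pt T c a2)) (θ + off A B 2) := by
  have w0 : wt A B 0 = 1 := by simp [wt]
  have o0 : off A B 0 = 0 := by simp [off]
  have o1 : off A B 1 = π + A := by simp [off]
  have o2 : off A B 2 = π - B := by simp [off]
  rw [MP_d76e6a_co.Wv, cnd_eq]
  split_ifs with h1
  · have h2 : a2 = a1 := by
      simp only [Anc.eq, Bool.and_eq_true, Nat.beq_eq, ieq_iff] at h1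
      cases a1; cases a2
      simp only at h1
      simp [h1.1.1, h1.1.2, h1.2]
    have h3 := wt_sum h.A0 h.B0 h.AB 0 θ (toC (MP_d76e6a_co.pt T c a1))
    rw [h2]
    simp only [zero_add, w0, o0, add_zero, one_mul] at h3 ⊢
    have h4 : vdot (vsub (MP_d76e6a_co.pt T c a0) (MP_d76e6a_co.pt T c a1)) (sin θ, cos θ) =
        hs (toC (MP_d76e6a_co.pt T c a0)) θ - hs (toC (MP_d76e6a_co.pt T c a1)) θ := by
      simp only [vdot, vsub, sub, hs, toC]; ring
    linarith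
  · rw [w0, o0, o1, o2, h.rot1, h.rot2]
    simp only [vdot, vsub, vmul, sub, hs, toC, add_zero, sin_add, cos_add, sin_sub, cos_sub,
      sin_pi, cos_pi]
    ring

theorem sem2_pt (h : Sem T A B x c) {j : ℕ} (hj : j ≤ T.n) (s : ℤ) :
    toC (pt T c ⟨j, 0, s⟩) = mir s (half T A B x (2 * j + 1)) := by
  rw [h.pt (a := ⟨j, 0, s⟩) hj]
  simp [pnt]

theorem Sem.WP (h : Sem T A B x c) {P : Plc} {j : ℕ} (hj : j ≤ T.n) (h1 : P.j1 ≤ T.n)
    (h2 : P.j2 ≤ T.n) (θ : ℝ) : vdot (WP T c P j) (sin θ, cos θ) =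
      wt A B P.r * hs (mir P.s (half T A B x (2 * j + 1))) (θ + off A B P.r)
      + wt A B (P.r + 1) * hs (mir P.s1 (half T A B x (2 * P.j1 + 1))) (θ + off A B (P.r + 1))
      + wt A B (P.r + 2) * hs (mir P.s2 (half T A B x (2 * P.j2 + 1))) (θ + off A B (P.r + 2)) := by
  rw [MP_d76e6a_co.WP, sem2_cnd, sem2_cnd, sem2_wt A B P.r, sem2_wt A B (P.r + 1),
    sem2_wt A B (P.r + 2), sem2_off A B P.r, sem2_off A B (P.r + 1), sem2_off A B (P.r + 2)]
  split_ifs with g0 g1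
  · rw [h.Wv, sem2_pt h hj, sem2_pt h h1, sem2_pt h h2, g0, show (P.r + 1) % 3 = 1 by omega,
      show (P.r + 2) % 3 = 2 by omega]
  · rw [h.Wv, sem2_pt h hj, sem2_pt h h1, sem2_pt h h2, g1, show (P.r + 1) % 3 = 2 by omega,
      show (P.r + 2) % 3 = 0 by omega]
    ring
  · rw [h.Wv, sem2_pt h hj, sem2_pt h h1, sem2_pt h h2, show P.r % 3 = 2 by omega,
      show (P.r + 1) % 3 = 0 by omega, show (P.r + 2) % 3 = 1 by omega]
    ring

end

end Pool.Agent.P.MP_d76e6a_co
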