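import Pool.Agent.P.MP_d76e6a_co.XSem2

/-!
From the equations and inequalities of a certificate to the system of the template.
-/

namespace Pool.Agent.P.MP_d76e6a_co

open Real Finset

variable {T : Tmpl} {A B : ℝ} {x : Sol} {c : Cfg ℝ}

theorem sys_tt_deriv (e : ℝ) : HasDerivAt tt (-uu e) e := by
  have h1 : tt = fun e : ℝ => ((cos e : ℝ) : ℂ) - ((sin e : ℝ) : ℂ) * Complex.I := by
    funext e
    apply Complex.ext <;> simp [tt, -Complex.ofReal_sin, -Complex.ofReal_cos]
  have h2 : -uu e = ((-sin e : ℝ) : ℂ) - ((cos e : ℝ) : ℂ) * Complex.I := by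
    apply Complex.ext <;> simp [uu, -Complex.ofReal_sin, -Complex.ofReal_cos]
  rw [h1, h2]
  exact (hasDerivAt_cos e).ofReal_comp.sub ((hasDerivAt_sin e).ofReal_comp.mul_const _)

theorem integral_uu {σ : ℝ} (hσ : σ = 1 ∨ σ = -1) (k a b : ℝ) :
    ∫ e in a..b, uu (σ * e + k) = (σ : ℂ) * (tt (σ * a + k) - tt (σ * b + k)) := by
  have hd : ∀ e : ℝ, HasDerivAt (fun e : ℝ => -(σ : ℂ) * tt (σ * e + k)) (uu (σ * e + k)) e := by
    intro e
    have h1 : HasDerivAt (fun e : ℝ => σ * e + k) σ e := by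
      simpa using ((hasDerivAt_id e).const_mul σ).add_const k
    have h2 := ((sys_tt_deriv (σ * e + k)).scomp e h1).const_mul (-(σ : ℂ))
    have h3 : -(σ : ℂ) * (σ • -uu (σ * e + k)) = uu (σ * e + k) := by
      rcases hσ with rfl | rfl <;> simp
    rw [h3] at h2
    exact h2
  have hc : Continuous fun e : ℝ => uu (σ * e + k) := xc_uu_cont.comp (by fun_prop)
  rw [intervalIntegral.integral_eq_sub_of_hasDerivAt (fun e _ => hd e) (hc.intervalIntegrable a b)]
  ring

theorem sys_ld_nil (j : ℕ) : toC (ld j ([] : List (Con ℝ))) = 0 := by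
  apply Complex.ext <;> simp [ld, toC]

theorem sys_ld_cons (j : ℕ) (y : Con ℝ) (C : List (Con ℝ)) :
    toC (ld j (y :: C)) = (if y.z = j then toC y.v else 0) + toC (ld j C) := by
  by_cases h : y.z = j
  · have : Nat.beq y.z j = true := Nat.beq_eq ▸ h
    rw [if_pos h, ld, this, cnd_true]
    apply Complex.ext <;> simp [toC, vadd]
  · have : Nat.beq y.z j = false := by
      cases h' : Nat.beq y.z j
      · rfl
      · exact absurd (Nat.eq_of_beq_eq_true h') h
    rw [if_neg h, ld, this, cnd_false, zero_add]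

theorem sys_ld_append (j : ℕ) (C D : List (Con ℝ)) :
    toC (ld j (C ++ D)) = toC (ld j C) + toC (ld j D) := by
  induction C with
  | nil => rw [List.nil_append, sys_ld_nil, zero_add]
  | cons y C ih => rw [List.cons_append, sys_ld_cons, sys_ld_cons, ih, add_assoc]

theorem sys_ld_flat (j n : ℕ) (f : ℕ → List (Con ℝ)) :
    toC (ld j ((List.range n).flatMap f)) = ∑ p ∈ range n, toC (ld j (f p)) := by
  induction n with
  | zero => simp [sys_ld_nil]
  | succ n ih =>
    rw [List.range_succ, List.flatMap_append, sys_ld_append, ih, sum_range_succ]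
    simp

theorem sys_uu_per (a : ℝ) (k : ℤ) : uu (a + k * (2 * π)) = uu a := by
  simp only [uu, sin_add_int_mul_two_pi, cos_add_int_mul_two_pi]

theorem sys_tt_per (a : ℝ) (k : ℤ) : tt (a + k * (2 * π)) = tt a := by
  simp only [tt, sin_add_int_mul_two_pi, cos_add_int_mul_two_pi]

theorem sys_atomC (z : ℕ) (e : AE) (d : ℝ) : toC (atomC c z e d).v = (d : ℂ) * uu (ae c e) := by
  apply Complex.ext <;> simp [atomC, toC, vsm, uu]

theorem sys_bandC (z : ℕ) (up : Bool) (e0 e1 : AE) (d : ℝ) : toC (bandC c z up e0 e1 d).v =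
    (d : ℂ) * ((if up = true then 1 else -1) * (tt (ae c e0) - tt (ae c e1))) := by
  cases up <;> apply Complex.ext <;> simp [bandC, toC, vsm, vt, vsub, sub, tt] <;> left <;> ring

theorem sys_cor_iff (j : ℕ) : T.cor j = true ↔ (T.J j).s = 0 := ieq_iff _ _

theorem sys_rad_zero {j : ℕ} (h : (T.J j).s = 0) : rad T A B j = 0 := by
  simp [rad, h]

/-- The integral of one folded normal over an arc. -/
theorem sys_band_int (P : Plc) (hs : P.s = 1 ∨ P.s = -1) {s : ℤ} (hs' : s = 1 ∨ s = -1) (i : ℕ)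
    (a b : ℝ) : ∫ e in a..b, uu (s * P.dir A B e i) =
      (if ieq P.s s = true then 1 else -1) * (tt (s * P.dir A B a i) - tt (s * P.dir A B b i)) := by
  have key : ∀ e : ℝ, (s : ℝ) * P.dir A B e i =
      ((s : ℝ) * P.s) * e + s * (off A B (P.r + i) - off A B P.r) := fun e => by
    unfold Plc.dir; ring
  have hσ : (s : ℝ) * P.s = 1 ∨ (s : ℝ) * P.s = -1 := by
    rcases hs with h | h <;> rcases hs' with h' | h' <;> simp [h, h']
  simp only [key]
  rw [integral_uu hσ]
  congr 1
  rcases hs with h | h <;> rcases hs' with h' | h' <;> simp [h, h']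

theorem sys_dir_cont (P : Plc) (s : ℤ) (i : ℕ) :
    Continuous fun e : ℝ => uu (s * P.dir A B e i) :=
  xc_uu_cont.comp (by unfold Plc.dir; fun_prop)

theorem sys_push_int (P : Plc) (j : ℕ) (a b : ℝ) : ∫ e in a..b, P.push A B j e =
    (if P.j1 = j then (wt A B (P.r + 1) : ℝ) * ∫ e in a..b, uu (P.s1 * P.dir A B e 1) else 0)
      + if P.j2 = j then (wt A B (P.r + 2) : ℝ) * ∫ e in a..b, uu (P.s2 * P.dir A B e 2)
        else 0 := by
  unfold Plc.push
  have c1 := sys_dir_cont (A := A) (B := B) P P.s1 1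
  have c2 := sys_dir_cont (A := A) (B := B) P P.s2 2
  rw [intervalIntegral.integral_add]
  · congr 1 <;> split_ifs <;> simp [intervalIntegral.integral_const_mul]
  · split_ifs
    · exact (continuous_const.mul c1).intervalIntegrable a b
    · exact continuous_const.intervalIntegrable a b
  · split_ifs
    · exact (continuous_const.mul c2).intervalIntegrable a b
    · exact continuous_const.intervalIntegrable a b

theorem Sem.ld (h : Sem T A B x c) (pl : Plan) (j : ℕ) :
    toC (ld j (cons T pl c)) = load T A B x j := by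
  obtain ⟨-, -, -, hJ, hA⟩ := Tmpl.wf_spec h.wf
  unfold cons load
  rw [sys_ld_append, sys_ld_flat, sys_ld_flat]
  congr 1
  · refine sum_congr rfl fun p hp => ?_
    obtain ⟨-, h1, h2, -⟩ := Plc.wf_spec (hA p (mem_range.1 hp)).1
    unfold atomCs Plc.push
    rw [sys_ld_cons, sys_ld_cons, sys_ld_nil, add_zero, sys_atomC, sys_atomC, h.dirE _ _ _ h1,
      h.dirE _ _ _ h2, sys_uu_per, sys_uu_per, h.wm, h.wm, h.m, h.en, mul_add]
    simp only [atomC]
    congr 1 <;> split_ifs <;> push_cast <;> ring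
  · refine sum_congr rfl fun k hk => ?_
    have hk' : k ≤ T.n := Nat.lt_succ_iff.1 (mem_range.1 hk)
    unfold bandCs
    by_cases hs : (T.J k).s = 0
    · rw [(sys_cor_iff k).2 hs, cnd_true, sys_ld_nil, sys_rad_zero hs]
      simp
    · have hc : T.cor k = false := by
        cases h' : T.cor k
        · rfl
        · exact absurd ((sys_cor_iff k).1 h') hs
      obtain ⟨h0, h1, h2, -⟩ := Plc.wf_spec (hJ k hk' hs).1
      rw [hc, cnd_false, sys_ld_cons, sys_ld_cons, sys_ld_nil, add_zero, sys_bandC, sys_bandC,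
        h.dirE _ _ _ h1, h.dirE _ _ _ h1, h.dirE _ _ _ h2, h.dirE _ _ _ h2, sys_tt_per, sys_tt_per,
        sys_tt_per, sys_tt_per, h.wm, h.wm, (h.rho hk' hs).1, sys_push_int,
        sys_band_int _ h0 h1, sys_band_int _ h0 h2, mul_add]
      simp only [bandC]
      congr 1 <;> split_ifs <;> push_cast <;> ring

theorem sys_steps (h : Sem T A B x c) (C : List (Con ℝ)) (z : ℕ) (st : List (AE × AE)) :
    ∀ (f : Bool) (a : AE), (∀ v ∈ steps T c C z f a st, 0 ≤ v) → ae c a ≤ x.η (z + 1) := by
  induction st with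
  | nil =>
    intro f a hv
    have := hv _ (by rw [steps]; exact List.mem_cons_self)
    rw [dif_eq, h.etaE] at this
    linarith
  | cons q st ih =>
    obtain ⟨mu, b⟩ := q
    intro f a hv
    rw [steps] at hv
    have h1 := hv (dif c b a) (List.mem_append_left _ (by simp [gap]))
    have h2 := ih false b fun v hv' =>
      hv v (List.mem_append_right _ (List.mem_append_right _ (List.mem_append_right _ hv')))
    rw [dif_eq] at h1
    linarith

theorem Sem.mono (h : Sem T A B x c) {pl : Plan} {C : List (Con ℝ)}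
    (hd : ∀ v ∈ dualI T pl c C, 0 ≤ v) {j : ℕ} (hj : j ≤ T.n) : x.η j ≤ x.η (j + 1) := by
  have hz : ∀ v ∈ zoneI T c C j (pl.zs.getD j ⟨⟨0, 0, 0, 0, 0, 0⟩, []⟩), 0 ≤ v := fun v hv =>
    hd v (List.mem_flatMap.2 ⟨j, List.mem_range.2 (by omega), hv⟩)
  generalize pl.zs.getD j ⟨⟨0, 0, 0, 0, 0, 0⟩, []⟩ = Z at hz
  unfold zoneI at hz
  cases hc : T.cor j
  · rw [hc, cnd_false] at hz
    have := hz _ List.mem_cons_self
    simp only [del, sub, h.eta] at this
    linarith
  · rw [hc, cnd_true] at hz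
    have h1 := hz _ List.mem_cons_self
    have h2 := sys_steps h C j Z.st true Z.g fun v hv =>
      hz v (List.mem_cons_of_mem _ (List.mem_append_right _ (List.mem_append_right _ hv)))
    rw [dif_eq, h.etaE] at h1
    linarith

theorem sys_eqJ {C : List (Con ℝ)} (he : ∀ v ∈ eqs T c C, v = 0) {j : ℕ} (h1 : 1 ≤ j)
    (hn : j ≤ T.n) : (eqJ T c C j).1 = 0 ∧ (eqJ T c C j).2 = 0 := by
  obtain ⟨i, rfl⟩ : ∃ i, j = i + 1 := ⟨j - 1, by omega⟩
  constructor <;>
    exact he _ (List.mem_append_left _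
      (List.mem_flatMap.2 ⟨i, List.mem_range.2 (by omega), by simp⟩))

theorem sys_one : (one : ℝ) = 1 := by
  simp [one]

theorem Sem.sys (h : Sem T A B x c) {pl : Plan} (he : ∀ v ∈ eqs T c (cons T pl c), v = 0)
    (hs : ∀ v ∈ signI T c (cons T pl c), 0 ≤ v) (hd : ∀ v ∈ dualI T pl c (cons T pl c), 0 ≤ v) :
    Sys T A B x := by
  obtain ⟨hn, h0, hN, hJ, hA⟩ := Tmpl.wf_spec h.wf
  have hld := h.ld pl
  refine ⟨h.e0, h.en, fun j hj => ⟨?_, h.mono hd hj⟩, fun p hp => ⟨?_, ?_⟩,
    fun j hj hsj e _ => ?_, ?_, fun j h1 h2 hsj => ?_, ?_⟩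
  · rw [← h.l]
    exact hs _ (List.mem_append_left _ (List.mem_map.2 ⟨j, List.mem_range.2 (by omega), rfl⟩))
  · rw [← h.m]
    exact hs _ (List.mem_append_right _ (List.mem_append_left _
      (List.mem_map.2 ⟨p, List.mem_range.2 hp, rfl⟩)))
  · obtain ⟨-, -, -, a1, a2, -⟩ := Plc.wf_spec (hA p hp).1
    have := he _ (List.mem_append_right _ (List.mem_append_left _
      (List.mem_map.2 ⟨p, List.mem_range.2 hp, rfl⟩)))
    rw [sc_real, sub, h.WP le_rfl a1 a2, h.thE, h.en, sys_one] at this
    unfold Plc.Fits Plc.dir pnt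
    rw [sys_rad_zero hN]
    simp only [Complex.ofReal_zero, zero_mul, add_zero]
    linarith
  · have hj1 : 1 ≤ j := by
      rcases Nat.eq_zero_or_pos j with rfl | h'
      · exact absurd h0 hsj
      · exact h'
    have hc : T.cor j = false := by
      cases h' : T.cor j
      · rfl
      · exact absurd ((sys_cor_iff j).1 h') hsj
    obtain ⟨b0, -, -, a1, a2, -⟩ := Plc.wf_spec (hJ j hj hsj).1
    obtain ⟨e1, e2⟩ := sys_eqJ he hj1 hj
    unfold eqJ at e1 e2
    rw [hc, cnd_false] at e1 e2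
    simp only [vsub, sub, sc_real, h.thE] at e1 e2
    have hW := h.WP hj a1 a2 ((T.J j).s * e - off A B (T.J j).r)
    have hr := (h.rho hj hsj).2
    have hc' : cos (((T.J j).s * e - off A B (T.J j).r) -
        ((T.J j).s * x.η j - off A B (T.J j).r)) = cos (e - x.η j) := by
      rcases b0 with b | b
      · rw [b]; congr 1; push_cast; ring
      · rw [b, ← cos_neg]; congr 1; push_cast; ring
    rw [cos_sub] at hc'
    have hv : vdot (MP_d76e6a_co.WP T c (T.J j) j) (sin ((T.J j).s * e - off A B (T.J j).r),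
        cos ((T.J j).s * e - off A B (T.J j).r)) = cos (e - x.η j) := by
      unfold vdot
      rw [add_neg_eq_zero.1 e1, add_neg_eq_zero.1 e2, ← hc']
      ring
    have hm : MP_d76e6a_co.hs (mir (T.J j).s (pnt T A B x j e))
        ((T.J j).s * e - off A B (T.J j).r + off A B (T.J j).r) =
        MP_d76e6a_co.hs (mir (T.J j).s (half T A B x (2 * j + 1)))
          ((T.J j).s * e - off A B (T.J j).r + off A B (T.J j).r)
          + rad T A B j * (1 - cos (e - x.η j)) := by
      rw [sub_add_cancel, cos_sub]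
      have := sin_sq_add_cos_sq e
      rcases b0 with b | b <;> simp [b, MP_d76e6a_co.hs, mir, pnt, uu] <;>
        linear_combination rad T A B j * this
    unfold Plc.Fits Plc.dir
    rw [add_zero, hm]
    linear_combination hv - hW + (1 - cos (e - x.η j)) * hr
  · cases ht : T.top
    · simpa using h.l0 ht
    · have := he (apexV c (cons T pl c))
        (List.mem_append_right _ (List.mem_append_right _ (by rw [ht]; simp)))
      simp only [apexV, sub, sys_one, h.U] at this
      rw [if_pos rfl, ← hld 0]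
      simp only [toC]
      linarith
  · obtain ⟨e1, e2⟩ := sys_eqJ he h1 h2.le
    have hb : Nat.beq j T.n = false := by
      cases h' : Nat.beq j T.n
      · rfl
      · exact absurd (Nat.eq_of_beq_eq_true h') h2.ne
    unfold eqJ at e1 e2
    rw [(sys_cor_iff j).2 hsj, cnd_true, hb, cnd_false] at e1 e2
    simp only [vsub, sub, vt, h.U] at e1 e2
    rw [← hld j]
    apply Complex.ext <;> simp only [toC, tt, Complex.sub_re, Complex.sub_im] <;> linarith
  · obtain ⟨e1, e2⟩ := sys_eqJ he hn le_rfl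
    unfold eqJ at e1 e2
    rw [(sys_cor_iff _).2 hN, cnd_true, Nat.beq_refl, cnd_true] at e1 e2
    simp only [vsub, vadd, sub, vt, h.U, h.g0, num_real] at e1 e2
    rw [← hld T.n]
    generalize ∑ p ∈ range T.atoms.length, x.m p * wt A B (T.At p).r = g at e1 e2 ⊢
    apply Complex.ext <;> simp [toC, tt, uu] <;> simp at e1 e2 <;> linarith

end Pool.Agent.P.MP_d76e6a_co
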