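import Pool.Agent.P.MP_d76e6a_co.XTm

/-!
The regions of the templates: chains of sections `(a, b, c)`, that is `4096 A = a` and
`b ≤ 4096 B ≤ c` (angles in radians); two consecutive sections span a trapezoid.
-/

namespace Pool.Agent.P.MP_d76e6a_co

open Real

def c1 : List (ℕ × ℕ × ℕ) :=
  [(58, 3917, 3958), (343, 3779, 4074), (628, 3648, 4191), (913, 3524, 4309),
    (1198, 3406, 4430), (1299, 3366, 4472), (1300, 3366, 4464), (1309, 3362, 4466),
    (1363, 3344, 4386), (1601, 3948, 4042)]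

def c2 : List (ℕ × ℕ × ℕ) :=
  [(1371, 3329, 3334), (1450, 2990, 3532), (1537, 2708, 3752), (1624, 2492, 3977),
    (1625, 2490, 3969), (1630, 2479, 3980), (1690, 2359, 3593), (1764, 2234, 3206),
    (1841, 2125, 2878), (1924, 2025, 2590), (1979, 1972, 2428), (1980, 1980, 2426),
    (2069, 2069, 2201), (2094, 2094, 2145)]

def c3 : List (ℕ × ℕ × ℕ) :=
  [(129, 3998, 4080), (414, 4114, 4265), (643, 4208, 4416), (853, 4295, 4522),
    (1095, 4397, 4612), (1258, 4467, 4658)]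

def c4 : List (ℕ × ℕ × ℕ) :=
  [(60, 5257, 6335), (98, 5260, 6342), (195, 5269, 6314), (480, 5291, 6183),
    (765, 5309, 6042), (1050, 5327, 5899), (1082, 5329, 5880), (1367, 5341, 5422),
    (1401, 5343, 5368)]

def c5 : List (ℕ × ℕ × ℕ) :=
  [(115, 5183, 5243), (386, 5013, 5248), (671, 5011, 5257), (956, 5015, 5272),
    (1241, 5027, 5298), (1400, 5083, 5324), (1438, 5100, 5328), (1482, 5120, 5307),
    (1508, 5134, 5217)]

def c6 : List (ℕ × ℕ × ℕ) :=
  [(179, 5254, 5257), (464, 5261, 5280), (749, 5271, 5298), (1034, 5288, 5313),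
    (1318, 5319, 5326), (1343, 5324, 5327)]

def c7 : List (ℕ × ℕ × ℕ) :=
  [(315, 4316, 4389), (390, 4304, 4527), (418, 4301, 4589), (445, 4300, 4602),
    (640, 4426, 4666), (819, 4518, 4716), (1023, 4599, 4766), (1236, 4663, 4812)]

def c8 : List (ℕ × ℕ × ℕ) :=
  [(1656, 4059, 4059), (1746, 3560, 3988), (1788, 3370, 3953), (2073, 3217, 3712),
    (2358, 3069, 3469), (2643, 2920, 3236), (2817, 2833, 3102), (2915, 2931, 3027),
    (2938, 2954, 2964)]

def c9 : List (ℕ × ℕ × ℕ) :=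
  [(1680, 4053, 4118), (1852, 3913, 4471), (1996, 3791, 4721), (2281, 3547, 4097),
    (2423, 3427, 3810), (2562, 3313, 3556), (2847, 3092, 3144), (2901, 3052, 3063),
    (2907, 3047, 3047)]

def c10 : List (ℕ × ℕ × ℕ) :=
  [(2045, 3020, 3049), (2163, 2765, 2983), (2296, 2533, 2914), (2375, 2416, 2875),
    (2380, 2414, 2873), (2388, 2404, 2869), (2673, 2689, 2739), (2687, 2703, 2733)]

def c11 : List (ℕ × ℕ × ℕ) :=
  [(1859, 3255, 3313), (2035, 3068, 3220), (2319, 2915, 3073), (2604, 2782, 2924),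
    (2711, 2735, 2868), (2713, 2740, 2867), (2722, 2738, 2863), (2780, 2796, 2832)]

def c12 : List (ℕ × ℕ × ℕ) :=
  [(1459, 4326, 4376), (1568, 4178, 4472), (1647, 4072, 4523), (1728, 4423, 4563),
    (1751, 4512, 4572)]

def c13 : List (ℕ × ℕ × ℕ) :=
  [(1344, 4618, 4686), (1433, 4366, 4757), (1542, 4465, 4826), (1591, 4500, 4847),
    (1694, 4559, 4830), (1773, 4594, 4815), (1815, 4744, 4807)]

def c14 : List (ℕ × ℕ × ℕ) :=
  [(1688, 4158, 4207), (1790, 4371, 4611), (1802, 4395, 4650), (1929, 4629, 4699),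
    (1973, 4701, 4718)]

def c15 : List (ℕ × ℕ × ℕ) :=
  [(1130, 5827, 5858), (1415, 5371, 5716), (1420, 5362, 5713), (1421, 5365, 5713),
    (1442, 5340, 5681), (1557, 5298, 5451), (1615, 5288, 5335)]

/-- The templates with their chains of sections. -/
def table : List (Tmpl × List (ℕ × ℕ × ℕ)) :=
  [(t1, c1), (t2, c2), (t3, c3), (t4, c4), (t5, c5), (t6, c6),
    (t7, c7), (t8, c8), (t9, c9), (t10, c10), (t11, c11), (t12, c12),
    (t13, c13), (t14, c14), (t15, c15)]

/-- The angles `(A, B)` lie in the region of the template `T`. -/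
def Region (T : Tmpl) (A B : ℝ) : Prop :=
  (T = tZ ∧ A ≤ B ∧ 2 * cot psi ≤ cot A + cot B ∧
    1 + cot B ^ 2 ≤ 2 * (cot A + cot B) * (cot B - cot (2 * psi))) ∨
  ∃ c, (T, c) ∈ table ∧ ∃ p q, [p, q] <:+: c ∧ InStrip p q A B

end Pool.Agent.P.MP_d76e6a_co
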