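import Pool.Agent.P.MP_d76e6a_co.XDefs

/-!
The templates. A joint `⟨0, 0, 0, 0, 0, 0⟩` is a corner.
-/

namespace Pool.Agent.P.MP_d76e6a_co

/-- A corner. -/
def co : Plc := ⟨0, 0, 0, 0, 0, 0⟩

def tZ : Tmpl :=
  ⟨false, [co, ⟨0, 1, 2, -1, 2, -1⟩, co],
    [⟨0, 1, 0, 1, 0, -1⟩]⟩

def t1 : Tmpl :=
  ⟨false, [co, co, ⟨0, 1, 3, -1, 3, -1⟩, co],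
    [⟨0, 1, 0, 1, 1, -1⟩]⟩

def t2 : Tmpl :=
  ⟨true, [co, ⟨0, 1, 2, -1, 2, -1⟩, co],
    [⟨0, 1, 0, 1, 0, -1⟩]⟩

def t3 : Tmpl :=
  ⟨false, [co, co, ⟨0, 1, 3, -1, 3, -1⟩, co],
    [⟨0, 1, 0, 1, 1, -1⟩, ⟨2, 1, 1, 1, 3, -1⟩]⟩

def t4 : Tmpl :=
  ⟨false, [co, ⟨0, -1, 3, 1, 0, 1⟩, ⟨0, 1, 3, -1, 3, 1⟩, co],
    [⟨0, 1, 0, 1, 3, -1⟩]⟩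

def t5 : Tmpl :=
  ⟨false, [co, ⟨0, -1, 4, 1, 0, 1⟩, ⟨0, 1, 4, -1, 4, 1⟩, co, co],
    [⟨0, 1, 0, 1, 3, -1⟩, ⟨2, 1, 3, 1, 4, -1⟩]⟩

def t6 : Tmpl :=
  ⟨false, [co, ⟨0, -1, 4, 1, 0, 1⟩, ⟨0, 1, 4, -1, 4, 1⟩, co, co],
    [⟨0, 1, 0, 1, 3, -1⟩]⟩

def t7 : Tmpl :=
  ⟨false, [co, ⟨0, -1, 4, 1, 2, 1⟩, co, ⟨0, 1, 4, -1, 4, -1⟩, co],
    [⟨0, 1, 0, 1, 2, -1⟩, ⟨2, 1, 2, 1, 4, -1⟩]⟩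

def t8 : Tmpl :=
  ⟨true, [co, ⟨1, -1, 2, -1, 0, 1⟩, co],
    [⟨0, 1, 0, 1, 0, -1⟩]⟩

def t9 : Tmpl :=
  ⟨true, [co, ⟨1, -1, 2, -1, 0, 1⟩, co],
    [⟨0, 1, 0, 1, 0, -1⟩, ⟨1, 1, 2, 1, 0, -1⟩]⟩

def t10 : Tmpl :=
  ⟨true, [co, ⟨0, 1, 0, -1, 2, -1⟩, co],
    [⟨0, 1, 0, 1, 0, -1⟩]⟩

def t11 : Tmpl :=
  ⟨true, [co, ⟨0, 1, 0, -1, 3, -1⟩, ⟨1, -1, 3, -1, 0, 1⟩, co],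
    [⟨0, 1, 0, 1, 0, -1⟩]⟩

def t12 : Tmpl :=
  ⟨false, [co, co, ⟨1, -1, 3, -1, 1, 1⟩, co],
    [⟨0, 1, 0, 1, 1, -1⟩]⟩

def t13 : Tmpl :=
  ⟨false, [co, co, ⟨1, -1, 3, -1, 1, 1⟩, co],
    [⟨0, 1, 0, 1, 1, -1⟩, ⟨2, 1, 1, 1, 3, -1⟩]⟩

def t14 : Tmpl :=
  ⟨true, [co, co, ⟨1, -1, 3, -1, 1, 1⟩, co],
    [⟨0, 1, 0, 1, 1, -1⟩, ⟨1, 1, 3, 1, 0, -1⟩]⟩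

def t15 : Tmpl :=
  ⟨false, [co, ⟨0, -1, 3, 1, 0, 1⟩, ⟨0, 1, 3, -1, 3, 1⟩, co],
    [⟨0, 1, 0, 1, 3, -1⟩, ⟨2, 1, 3, 1, 3, -1⟩]⟩

end Pool.Agent.P.MP_d76e6a_co
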