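import Pool.Agent.P.MP_d76e6a_co.XTab
import Pool.Agent.P.MP_d76e6a_co.YD1
import Pool.Agent.P.MP_d76e6a_co.YD2
import Pool.Agent.P.MP_d76e6a_co.YD3
import Pool.Agent.P.MP_d76e6a_co.YD4
import Pool.Agent.P.MP_d76e6a_co.YD5
import Pool.Agent.P.MP_d76e6a_co.YD6
import Pool.Agent.P.MP_d76e6a_co.YD7
import Pool.Agent.P.MP_d76e6a_co.YD8
import Pool.Agent.P.MP_d76e6a_co.YD9
import Pool.Agent.P.MP_d76e6a_co.YD10
import Pool.Agent.P.MP_d76e6a_co.YD11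
import Pool.Agent.P.MP_d76e6a_co.YD12
import Pool.Agent.P.MP_d76e6a_co.YD13
import Pool.Agent.P.MP_d76e6a_co.YD14

namespace Pool.Agent.P.MP_d76e6a_co

set_option maxRecDepth 100000

theorem ysc1_0 : CG t1 (58, 3917, 3958) (343, 3779, 4074) 0 512 0 512 :=
  (cg_u (cg_u (cg_v yd0 yd1) yd2) (cg_u (cg_v yd3 yd4) yd5))
theorem ysc1_1 : CG t1 (343, 3779, 4074) (628, 3648, 4191) 0 512 0 512 :=
  (cg_u yd6 (cg_u yd7 yd8))
theorem ysc1_2 : CG t1 (628, 3648, 4191) (913, 3524, 4309) 0 512 0 512 :=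
  (cg_u yd9 (cg_u yd10 yd11))
theorem ysc1_3 : CG t1 (913, 3524, 4309) (1198, 3406, 4430) 0 512 0 512 :=
  (cg_u yd12 (cg_u yd13 yd14))
theorem ysc1_4 : CG t1 (1198, 3406, 4430) (1299, 3366, 4472) 0 512 0 512 :=
  (cg_v yd15 (cg_v yd16 (cg_v yd17 yd18)))
theorem ysc1_5 : CG t1 (1299, 3366, 4472) (1300, 3366, 4464) 0 512 0 512 :=
  yd19
theorem ysc1_6 : CG t1 (1300, 3366, 4464) (1309, 3362, 4466) 0 512 0 512 :=
  (cg_v yd20 yd21)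
theorem ysc1_7 : CG t1 (1309, 3362, 4466) (1363, 3344, 4386) 0 512 0 512 :=
  yd22
theorem ysc1_8 : CG t1 (1363, 3344, 4386) (1601, 3948, 4042) 0 512 0 512 :=
  (cg_u (cg_u (cg_v yd23 (cg_v yd24 yd25)) yd26) (cg_u (cg_v yd27 (cg_v yd28 (cg_v yd29 (cg_u yd30 yd31)))) (cg_u (cg_v yd32 yd33) (cg_v yd34 (cg_v yd35 (cg_u yd36 yd37))))))
theorem yc1 : CH t1 c1 :=
  (ch_cons ysc1_0 (ch_cons ysc1_1 (ch_cons ysc1_2 (ch_cons ysc1_3 (ch_cons ysc1_4 (ch_cons ysc1_5 (ch_cons ysc1_6 (ch_cons ysc1_7 (ch_cons ysc1_8 ch_one)))))))))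
theorem ysc2_0 : CG t2 (1371, 3329, 3334) (1450, 2990, 3532) 0 512 0 512 :=
  (cg_u (cg_u (cg_v yd38 yd39) yd40) yd41)
theorem ysc2_1 : CG t2 (1450, 2990, 3532) (1537, 2708, 3752) 0 512 0 512 :=
  (cg_u yd42 (cg_u yd43 yd44))
theorem ysc2_2 : CG t2 (1537, 2708, 3752) (1624, 2492, 3977) 0 512 0 512 :=
  (cg_u yd45 (cg_u yd46 (cg_v yd47 yd48)))
theorem ysc2_3 : CG t2 (1624, 2492, 3977) (1625, 2490, 3969) 0 512 0 512 :=
  yd49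
theorem ysc2_4 : CG t2 (1625, 2490, 3969) (1630, 2479, 3980) 0 512 0 512 :=
  (cg_v yd50 yd51)
theorem ysc2_5 : CG t2 (1630, 2479, 3980) (1690, 2359, 3593) 0 512 0 512 :=
  (cg_u (cg_u (cg_v yd52 yd53) yd54) (cg_u yd55 yd56))
theorem ysc2_6 : CG t2 (1690, 2359, 3593) (1764, 2234, 3206) 0 512 0 512 :=
  (cg_u (cg_u (cg_v yd57 yd58) (cg_v yd59 yd60)) (cg_u yd61 yd62))
theorem ysc2_7 : CG t2 (1764, 2234, 3206) (1841, 2125, 2878) 0 512 0 512 :=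
  (cg_u (cg_v yd63 yd64) (cg_u yd65 yd66))
theorem ysc2_8 : CG t2 (1841, 2125, 2878) (1924, 2025, 2590) 0 512 0 512 :=
  (cg_u (cg_v yd67 yd68) (cg_u yd69 yd70))
theorem ysc2_9 : CG t2 (1924, 2025, 2590) (1979, 1972, 2428) 0 512 0 512 :=
  (cg_u yd71 yd72)
theorem ysc2_10 : CG t2 (1979, 1972, 2428) (1980, 1980, 2426) 0 512 0 512 :=
  yd73
theorem ysc2_11 : CG t2 (1980, 1980, 2426) (2069, 2069, 2201) 0 512 0 512 :=
  (cg_u (cg_v yd74 yd75) (cg_u yd76 yd77))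
theorem ysc2_12 : CG t2 (2069, 2069, 2201) (2094, 2094, 2145) 0 512 0 512 :=
  (cg_v yd78 yd79)
theorem yc2 : CH t2 c2 :=
  (ch_cons ysc2_0 (ch_cons ysc2_1 (ch_cons ysc2_2 (ch_cons ysc2_3 (ch_cons ysc2_4 (ch_cons ysc2_5 (ch_cons ysc2_6 (ch_cons ysc2_7 (ch_cons ysc2_8 (ch_cons ysc2_9 (ch_cons ysc2_10 (ch_cons ysc2_11 (ch_cons ysc2_12 ch_one)))))))))))))
theorem ysc3_0 : CG t3 (129, 3998, 4080) (414, 4114, 4265) 0 512 0 512 :=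
  (cg_u (cg_u (cg_u yd80 yd81) yd82) (cg_u yd83 yd84))
theorem ysc3_1 : CG t3 (414, 4114, 4265) (643, 4208, 4416) 0 512 0 512 :=
  (cg_u yd85 yd86)
theorem ysc3_2 : CG t3 (643, 4208, 4416) (853, 4295, 4522) 0 512 0 512 :=
  (cg_u yd87 yd88)
theorem ysc3_3 : CG t3 (853, 4295, 4522) (1095, 4397, 4612) 0 512 0 512 :=
  (cg_u yd89 yd90)
theorem ysc3_4 : CG t3 (1095, 4397, 4612) (1258, 4467, 4658) 0 512 0 512 :=
  (cg_u yd91 yd92)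
theorem yc3 : CH t3 c3 :=
  (ch_cons ysc3_0 (ch_cons ysc3_1 (ch_cons ysc3_2 (ch_cons ysc3_3 (ch_cons ysc3_4 ch_one)))))
theorem ysc4_0 : CG t4 (60, 5257, 6335) (98, 5260, 6342) 0 512 0 512 :=
  (cg_v yd93 yd94)
theorem ysc4_1 : CG t4 (98, 5260, 6342) (195, 5269, 6314) 0 512 0 512 :=
  (cg_v (cg_v (cg_v yd95 yd96) yd97) (cg_v yd98 (cg_v yd99 (cg_v yd100 yd101))))
theorem ysc4_2 : CG t4 (195, 5269, 6314) (480, 5291, 6183) 0 512 0 512 :=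
  (cg_u (cg_v (cg_v yd102 yd103) yd104) (cg_u yd105 (cg_v yd106 yd107)))
theorem ysc4_3 : CG t4 (480, 5291, 6183) (765, 5309, 6042) 0 512 0 512 :=
  (cg_u yd108 (cg_u (cg_v yd109 yd110) yd111))
theorem ysc4_4 : CG t4 (765, 5309, 6042) (1050, 5327, 5899) 0 512 0 512 :=
  (cg_u yd112 (cg_u yd113 yd114))
theorem ysc4_5 : CG t4 (1050, 5327, 5899) (1082, 5329, 5880) 0 512 0 512 :=
  yd115
theorem ysc4_6 : CG t4 (1082, 5329, 5880) (1367, 5341, 5422) 0 512 0 512 :=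
  (cg_u (cg_u (cg_v yd116 yd117) (cg_v yd118 yd119)) (cg_u (cg_v yd120 yd121) (cg_u yd122 yd123)))
theorem ysc4_7 : CG t4 (1367, 5341, 5422) (1401, 5343, 5368) 0 512 0 512 :=
  yd124
theorem yc4 : CH t4 c4 :=
  (ch_cons ysc4_0 (ch_cons ysc4_1 (ch_cons ysc4_2 (ch_cons ysc4_3 (ch_cons ysc4_4 (ch_cons ysc4_5 (ch_cons ysc4_6 (ch_cons ysc4_7 ch_one))))))))
theorem ysc5_0 : CG t5 (115, 5183, 5243) (386, 5013, 5248) 0 512 0 512 :=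
  (cg_u (cg_u (cg_u (cg_v yd125 yd126) (cg_v yd127 yd128)) (cg_v (cg_u yd129 yd130) (cg_u yd131 yd132))) (cg_u (cg_v yd133 yd134) (cg_v yd135 yd136)))
theorem ysc5_1 : CG t5 (386, 5013, 5248) (671, 5011, 5257) 0 512 0 512 :=
  (cg_u (cg_u yd137 yd138) yd139)
theorem ysc5_2 : CG t5 (671, 5011, 5257) (956, 5015, 5272) 0 512 0 512 :=
  (cg_u yd140 yd141)
theorem ysc5_3 : CG t5 (956, 5015, 5272) (1241, 5027, 5298) 0 512 0 512 :=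
  (cg_u (cg_u yd142 yd143) (cg_u yd144 yd145))
theorem ysc5_4 : CG t5 (1241, 5027, 5298) (1400, 5083, 5324) 0 512 0 512 :=
  (cg_u yd146 yd147)
theorem ysc5_5 : CG t5 (1400, 5083, 5324) (1438, 5100, 5328) 0 512 0 512 :=
  yd148
theorem ysc5_6 : CG t5 (1438, 5100, 5328) (1482, 5120, 5307) 0 512 0 512 :=
  yd149
theorem ysc5_7 : CG t5 (1482, 5120, 5307) (1508, 5134, 5217) 0 512 0 512 :=
  (cg_u yd150 (cg_v yd151 yd152))
theorem yc5 : CH t5 c5 :=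
  (ch_cons ysc5_0 (ch_cons ysc5_1 (ch_cons ysc5_2 (ch_cons ysc5_3 (ch_cons ysc5_4 (ch_cons ysc5_5 (ch_cons ysc5_6 (ch_cons ysc5_7 ch_one))))))))
theorem ysc6_0 : CG t6 (179, 5254, 5257) (464, 5261, 5280) 0 512 0 512 :=
  (cg_u yd153 yd154)
theorem ysc6_1 : CG t6 (464, 5261, 5280) (749, 5271, 5298) 0 512 0 512 :=
  yd155
theorem ysc6_2 : CG t6 (749, 5271, 5298) (1034, 5288, 5313) 0 512 0 512 :=
  yd156
theorem ysc6_3 : CG t6 (1034, 5288, 5313) (1318, 5319, 5326) 0 512 0 512 :=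
  (cg_u yd157 yd158)
theorem ysc6_4 : CG t6 (1318, 5319, 5326) (1343, 5324, 5327) 0 512 0 512 :=
  yd159
theorem yc6 : CH t6 c6 :=
  (ch_cons ysc6_0 (ch_cons ysc6_1 (ch_cons ysc6_2 (ch_cons ysc6_3 (ch_cons ysc6_4 ch_one)))))
theorem ysc7_0 : CG t7 (315, 4316, 4389) (390, 4304, 4527) 0 512 0 512 :=
  (cg_u (cg_v yd160 (cg_u yd161 yd162)) (cg_v yd163 (cg_v yd164 yd165)))
theorem ysc7_1 : CG t7 (390, 4304, 4527) (418, 4301, 4589) 0 512 0 512 :=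
  (cg_v yd166 yd167)
theorem ysc7_2 : CG t7 (418, 4301, 4589) (445, 4300, 4602) 0 512 0 512 :=
  yd168
theorem ysc7_3 : CG t7 (445, 4300, 4602) (640, 4426, 4666) 0 512 0 512 :=
  (cg_u yd169 (cg_u yd170 yd171))
theorem ysc7_4 : CG t7 (640, 4426, 4666) (819, 4518, 4716) 0 512 0 512 :=
  (cg_u yd172 yd173)
theorem ysc7_5 : CG t7 (819, 4518, 4716) (1023, 4599, 4766) 0 512 0 512 :=
  (cg_u yd174 (cg_u yd175 (cg_v yd176 (cg_v yd177 (cg_u yd178 yd179)))))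
theorem ysc7_6 : CG t7 (1023, 4599, 4766) (1236, 4663, 4812) 0 512 0 512 :=
  (cg_u yd180 (cg_u (cg_v yd181 yd182) (cg_v yd183 (cg_v yd184 (cg_u yd185 (cg_v yd186 (cg_u yd187 yd188)))))))
theorem yc7 : CH t7 c7 :=
  (ch_cons ysc7_0 (ch_cons ysc7_1 (ch_cons ysc7_2 (ch_cons ysc7_3 (ch_cons ysc7_4 (ch_cons ysc7_5 (ch_cons ysc7_6 ch_one)))))))
theorem ysc8_0 : CG t8 (1656, 4059, 4059) (1746, 3560, 3988) 0 512 0 512 :=
  (cg_u (cg_u (cg_u yd189 yd190) yd191) (cg_u yd192 yd193))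
theorem ysc8_1 : CG t8 (1746, 3560, 3988) (1788, 3370, 3953) 0 512 0 512 :=
  (cg_u yd194 yd195)
theorem ysc8_2 : CG t8 (1788, 3370, 3953) (2073, 3217, 3712) 0 512 0 512 :=
  (cg_u (cg_v yd196 yd197) (cg_u yd198 yd199))
theorem ysc8_3 : CG t8 (2073, 3217, 3712) (2358, 3069, 3469) 0 512 0 512 :=
  (cg_u yd200 yd201)
theorem ysc8_4 : CG t8 (2358, 3069, 3469) (2643, 2920, 3236) 0 512 0 512 :=
  (cg_u yd202 yd203)
theorem ysc8_5 : CG t8 (2643, 2920, 3236) (2817, 2833, 3102) 0 512 0 512 :=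
  yd204
theorem ysc8_6 : CG t8 (2817, 2833, 3102) (2915, 2931, 3027) 0 512 0 512 :=
  (cg_u yd205 yd206)
theorem ysc8_7 : CG t8 (2915, 2931, 3027) (2938, 2954, 2964) 0 512 0 512 :=
  yd207
theorem yc8 : CH t8 c8 :=
  (ch_cons ysc8_0 (ch_cons ysc8_1 (ch_cons ysc8_2 (ch_cons ysc8_3 (ch_cons ysc8_4 (ch_cons ysc8_5 (ch_cons ysc8_6 (ch_cons ysc8_7 ch_one))))))))
theorem ysc9_0 : CG t9 (1680, 4053, 4118) (1852, 3913, 4471) 0 512 0 512 :=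
  (cg_u (cg_u yd208 yd209) (cg_u yd210 (cg_u yd211 yd212)))
theorem ysc9_1 : CG t9 (1852, 3913, 4471) (1996, 3791, 4721) 0 512 0 512 :=
  (cg_u (cg_u yd213 yd214) (cg_u yd215 yd216))
theorem ysc9_2 : CG t9 (1996, 3791, 4721) (2281, 3547, 4097) 0 512 0 512 :=
  (cg_u (cg_u (cg_u (cg_v yd217 yd218) (cg_v yd219 yd220)) (cg_u (cg_v yd221 yd222) (cg_v yd223 yd224))) (cg_u (cg_u (cg_v yd225 yd226) (cg_v yd227 yd228)) (cg_u (cg_v yd229 yd230) (cg_v yd231 yd232))))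
theorem ysc9_3 : CG t9 (2281, 3547, 4097) (2423, 3427, 3810) 0 512 0 512 :=
  (cg_u (cg_u (cg_v yd233 yd234) (cg_v yd235 yd236)) (cg_u (cg_v yd237 yd238) yd239))
theorem ysc9_4 : CG t9 (2423, 3427, 3810) (2562, 3313, 3556) 0 512 0 512 :=
  (cg_u (cg_u yd240 (cg_v yd241 yd242)) (cg_u yd243 yd244))
theorem ysc9_5 : CG t9 (2562, 3313, 3556) (2847, 3092, 3144) 0 512 0 512 :=
  (cg_u (cg_u yd245 (cg_u (cg_v yd246 (cg_v yd247 yd248)) yd249)) (cg_u yd250 (cg_u (cg_v yd251 (cg_v yd252 yd253)) yd254)))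
theorem ysc9_6 : CG t9 (2847, 3092, 3144) (2901, 3052, 3063) 0 512 0 512 :=
  yd255
theorem ysc9_7 : CG t9 (2901, 3052, 3063) (2907, 3047, 3047) 0 512 0 512 :=
  yd256
theorem yc9 : CH t9 c9 :=
  (ch_cons ysc9_0 (ch_cons ysc9_1 (ch_cons ysc9_2 (ch_cons ysc9_3 (ch_cons ysc9_4 (ch_cons ysc9_5 (ch_cons ysc9_6 (ch_cons ysc9_7 ch_one))))))))
theorem ysc10_0 : CG t10 (2045, 3020, 3049) (2163, 2765, 2983) 0 512 0 512 :=
  (cg_u (cg_u (cg_u (cg_u yd257 yd258) yd259) yd260) (cg_u yd261 yd262))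
theorem ysc10_1 : CG t10 (2163, 2765, 2983) (2296, 2533, 2914) 0 512 0 512 :=
  (cg_u (cg_u (cg_v (cg_v (cg_u yd263 yd264) yd265) yd266) yd267) (cg_u yd268 yd269))
theorem ysc10_2 : CG t10 (2296, 2533, 2914) (2375, 2416, 2875) 0 512 0 512 :=
  (cg_u (cg_v yd270 yd271) yd272)
theorem ysc10_3 : CG t10 (2375, 2416, 2875) (2380, 2414, 2873) 0 512 0 512 :=
  yd273
theorem ysc10_4 : CG t10 (2380, 2414, 2873) (2388, 2404, 2869) 0 512 0 512 :=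
  yd274
theorem ysc10_5 : CG t10 (2388, 2404, 2869) (2673, 2689, 2739) 0 512 0 512 :=
  (cg_u (cg_u (cg_v yd275 yd276) yd277) (cg_u yd278 (cg_u yd279 yd280)))
theorem ysc10_6 : CG t10 (2673, 2689, 2739) (2687, 2703, 2733) 0 512 0 512 :=
  yd281
theorem yc10 : CH t10 c10 :=
  (ch_cons ysc10_0 (ch_cons ysc10_1 (ch_cons ysc10_2 (ch_cons ysc10_3 (ch_cons ysc10_4 (ch_cons ysc10_5 (ch_cons ysc10_6 ch_one)))))))
theorem ysc11_0 : CG t11 (1859, 3255, 3313) (2035, 3068, 3220) 0 512 0 512 :=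
  (cg_u (cg_u (cg_u (cg_v (cg_u yd282 yd283) (cg_v (cg_u (cg_v yd284 yd285) yd286) (cg_u yd287 yd288))) (cg_v (cg_u yd289 yd290) (cg_v (cg_u yd291 yd292) (cg_u yd293 yd294)))) (cg_v (cg_u (cg_v yd295 yd296) (cg_v yd297 yd298)) (cg_u (cg_v yd299 yd300) (cg_v yd301 yd302)))) (cg_u (cg_v (cg_u yd303 yd304) (cg_u (cg_v (cg_v yd305 yd306) yd307) (cg_v yd308 (cg_v yd309 yd310)))) (cg_u (cg_v (cg_u yd311 yd312) (cg_v (cg_u yd313 yd314) yd315)) (cg_v yd316 (cg_v (cg_u yd317 yd318) (cg_u yd319 yd320))))))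
theorem ysc11_1 : CG t11 (2035, 3068, 3220) (2319, 2915, 3073) 0 512 0 512 :=
  (cg_u (cg_u (cg_v yd321 (cg_v yd322 yd323)) (cg_u (cg_v yd324 (cg_v yd325 yd326)) (cg_v yd327 yd328))) (cg_u (cg_v yd329 yd330) (cg_u yd331 yd332)))
theorem ysc11_2 : CG t11 (2319, 2915, 3073) (2604, 2782, 2924) 0 512 0 512 :=
  (cg_u (cg_u (cg_v yd333 yd334) (cg_u yd335 (cg_v yd336 yd337))) (cg_u (cg_v yd338 yd339) (cg_u (cg_v yd340 yd341) yd342)))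
theorem ysc11_3 : CG t11 (2604, 2782, 2924) (2711, 2735, 2868) 0 512 0 512 :=
  (cg_u yd343 (cg_u yd344 yd345))
theorem ysc11_4 : CG t11 (2711, 2735, 2868) (2713, 2740, 2867) 0 512 0 512 :=
  yd346
theorem ysc11_5 : CG t11 (2713, 2740, 2867) (2722, 2738, 2863) 0 512 0 512 :=
  yd347
theorem ysc11_6 : CG t11 (2722, 2738, 2863) (2780, 2796, 2832) 0 512 0 512 :=
  (cg_u (cg_v (cg_v (cg_u yd348 yd349) yd350) yd351) (cg_v (cg_u yd352 yd353) yd354))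
theorem yc11 : CH t11 c11 :=
  (ch_cons ysc11_0 (ch_cons ysc11_1 (ch_cons ysc11_2 (ch_cons ysc11_3 (ch_cons ysc11_4 (ch_cons ysc11_5 (ch_cons ysc11_6 ch_one)))))))
theorem ysc12_0 : CG t12 (1459, 4326, 4376) (1568, 4178, 4472) 0 512 0 512 :=
  (cg_u (cg_v yd355 yd356) (cg_u yd357 yd358))
theorem ysc12_1 : CG t12 (1568, 4178, 4472) (1647, 4072, 4523) 0 512 0 512 :=
  (cg_u yd359 yd360)
theorem ysc12_2 : CG t12 (1647, 4072, 4523) (1728, 4423, 4563) 0 512 0 512 :=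
  (cg_u (cg_u yd361 yd362) (cg_u yd363 (cg_u yd364 yd365)))
theorem ysc12_3 : CG t12 (1728, 4423, 4563) (1751, 4512, 4572) 0 512 0 512 :=
  (cg_u yd366 yd367)
theorem yc12 : CH t12 c12 :=
  (ch_cons ysc12_0 (ch_cons ysc12_1 (ch_cons ysc12_2 (ch_cons ysc12_3 ch_one))))
theorem ysc13_0 : CG t13 (1344, 4618, 4686) (1433, 4366, 4757) 0 512 0 512 :=
  (cg_u (cg_u (cg_v yd368 yd369) yd370) (cg_u (cg_v yd371 yd372) yd373))
theorem ysc13_1 : CG t13 (1433, 4366, 4757) (1542, 4465, 4826) 0 512 0 512 :=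
  (cg_u yd374 yd375)
theorem ysc13_2 : CG t13 (1542, 4465, 4826) (1591, 4500, 4847) 0 512 0 512 :=
  yd376
theorem ysc13_3 : CG t13 (1591, 4500, 4847) (1694, 4559, 4830) 0 512 0 512 :=
  (cg_u yd377 yd378)
theorem ysc13_4 : CG t13 (1694, 4559, 4830) (1773, 4594, 4815) 0 512 0 512 :=
  (cg_u yd379 yd380)
theorem ysc13_5 : CG t13 (1773, 4594, 4815) (1815, 4744, 4807) 0 512 0 512 :=
  (cg_u (cg_v (cg_v (cg_u yd381 yd382) yd383) yd384) (cg_v yd385 yd386))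
theorem yc13 : CH t13 c13 :=
  (ch_cons ysc13_0 (ch_cons ysc13_1 (ch_cons ysc13_2 (ch_cons ysc13_3 (ch_cons ysc13_4 (ch_cons ysc13_5 ch_one))))))
theorem ysc14_0 : CG t14 (1688, 4158, 4207) (1790, 4371, 4611) 0 512 0 512 :=
  (cg_u (cg_u yd387 yd388) (cg_u yd389 yd390))
theorem ysc14_1 : CG t14 (1790, 4371, 4611) (1802, 4395, 4650) 0 512 0 512 :=
  yd391
theorem ysc14_2 : CG t14 (1802, 4395, 4650) (1929, 4629, 4699) 0 512 0 512 :=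
  (cg_u (cg_u yd392 yd393) (cg_u yd394 (cg_u yd395 yd396)))
theorem ysc14_3 : CG t14 (1929, 4629, 4699) (1973, 4701, 4718) 0 512 0 512 :=
  yd397
theorem yc14 : CH t14 c14 :=
  (ch_cons ysc14_0 (ch_cons ysc14_1 (ch_cons ysc14_2 (ch_cons ysc14_3 ch_one))))
theorem ysc15_0 : CG t15 (1130, 5827, 5858) (1415, 5371, 5716) 0 512 0 512 :=
  (cg_u (cg_u (cg_u yd398 yd399) yd400) (cg_u yd401 (cg_u yd402 yd403)))
theorem ysc15_1 : CG t15 (1415, 5371, 5716) (1420, 5362, 5713) 0 512 0 512 :=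
  yd404
theorem ysc15_2 : CG t15 (1420, 5362, 5713) (1421, 5365, 5713) 0 512 0 512 :=
  yd405
theorem ysc15_3 : CG t15 (1421, 5365, 5713) (1442, 5340, 5681) 0 512 0 512 :=
  yd406
theorem ysc15_4 : CG t15 (1442, 5340, 5681) (1557, 5298, 5451) 0 512 0 512 :=
  (cg_u (cg_u yd407 yd408) (cg_u yd409 yd410))
theorem ysc15_5 : CG t15 (1557, 5298, 5451) (1615, 5288, 5335) 0 512 0 512 :=
  (cg_u yd411 (cg_v yd412 yd413))
theorem yc15 : CH t15 c15 :=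
  (ch_cons ysc15_0 (ch_cons ysc15_1 (ch_cons ysc15_2 (ch_cons ysc15_3 (ch_cons ysc15_4 (ch_cons ysc15_5 ch_one))))))
theorem table_ok : ∀ e ∈ table, CH e.1 e.2 :=
  (tb_cons yc1 (tb_cons yc2 (tb_cons yc3 (tb_cons yc4 (tb_cons yc5 (tb_cons yc6 (tb_cons yc7 (tb_cons yc8 (tb_cons yc9 (tb_cons yc10 (tb_cons yc11 (tb_cons yc12 (tb_cons yc13 (tb_cons yc14 (tb_cons yc15 tb_nil)))))))))))))))

end Pool.Agent.P.MP_d76e6a_co
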