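import Pool.Agent.P.MP_d76e6a_co.XAsm
import Pool.Agent.P.MP_d76e6a_co.XTm

namespace Pool.Agent.P.MP_d76e6a_co

set_option maxRecDepth 100000

theorem ft1 : t1.fine = true := by decide +kernel
theorem ft2 : t2.fine = true := by decide +kernel
theorem ft3 : t3.fine = true := by decide +kernel
theorem ft4 : t4.fine = true := by decide +kernel
theorem ft5 : t5.fine = true := by decide +kernel
theorem ft6 : t6.fine = true := by decide +kernel
theorem ft7 : t7.fine = true := by decide +kernel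
theorem ft8 : t8.fine = true := by decide +kernel
theorem ft9 : t9.fine = true := by decide +kernel
theorem ft10 : t10.fine = true := by decide +kernel
theorem ft11 : t11.fine = true := by decide +kernel
theorem ft12 : t12.fine = true := by decide +kernel
theorem ft13 : t13.fine = true := by decide +kernel
theorem ft14 : t14.fine = true := by decide +kernel
theorem ft15 : t15.fine = true := by decide +kernel
theorem yo196 : (bN 472 1016 472 9084391335).Ok := ok1 (.node true 8 2640 (.node true 32 2880 (.node true 48 2640 (.node true 56 2880 (.node true 72 2664 (.node true 80 2880 (.node false 8 2872 (.leaf [⟨5680, true, false, 5588957⟩, ⟨2880, false, true, 2095121⟩, ⟨2880, false, false, 5141109⟩, ⟨2880, true, false, 3250717⟩, ⟨0, false, false, 701312⟩]) (.leaf [⟨2880, false, true, 4727481⟩, ⟨5680, true, false, 4889644⟩, ⟨5752, false, false, 3643982⟩, ⟨2880, false, false, 3516109⟩])) (.leaf [⟨5680, true, false, 2836982⟩, ⟨2880, true, true, 4043652⟩, ⟨5688, true, false,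 2994896⟩, ⟨5704, true, false, 2781831⟩, ⟨2880, false, true, 3404128⟩, ⟨2880, false, false, 715726⟩])) (.node true 64 2552 (.leaf [⟨2880, true, true, 4125105⟩, ⟨5688, true, false, 2869998⟩, ⟨5696, true, false, 2969232⟩, ⟨5704, true, false, 2751159⟩, ⟨2880, false, true, 3409928⟩, ⟨2880, false, false, 651793⟩]) (.leaf [⟨5704, true, false, 5664346⟩, ⟨2880, true, true, 4205499⟩, ⟨5696, true, false, 2901959⟩, ⟨2880, false, true, 3417200⟩, ⟨2880, false, false, 588211⟩]))) (.node false 240 2872 (.node false 360 2880 (.node false 424 2760 (.node false 456 2824 (.node false 472 2856 (.leaf [⟨5704, true, false, 1971849⟩, ⟨2880, true, false, 4287202⟩, ⟨5712, true, false, 1752842⟩, ⟨5728, true, false, 2891980⟩, ⟨2856, true, false, 1824152⟩, ⟨2880, false, false, 4049191⟩]) (.leaf [⟨2880, true, true, 5216388⟩, ⟨2768, true, false, 6648678⟩, ⟨2880, true, false, 3228847⟩, ⟨5728, true, false, 1683303⟩])) (.leaf [⟨2880, true, true, 5199497⟩, ⟨2880, true, false, 3267853⟩, ⟨2760, true,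 false, 6673868⟩, ⟨5728, true, false, 1635998⟩])) (.leaf [⟨2880, true, true, 5216388⟩, ⟨2768, true, false, 6648678⟩, ⟨2880, true, false, 3228847⟩, ⟨5728, true, false, 1683303⟩])) (.leaf [⟨5704, true, false, 4405897⟩, ⟨2872, true, false, 3298873⟩, ⟨5520, false, false, 3246493⟩, ⟨2880, true, false, 2222106⟩, ⟨5728, true, false, 1157211⟩, ⟨2880, true, true, 2446635⟩])) (.leaf [⟨5704, true, false, 4438442⟩, ⟨2880, true, true, 4211722⟩, ⟨0, false, false, 4299336⟩, ⟨2880, true, false, 3827716⟩]))) (.node true 40 2520 (.node false 240 2872 (.node false 360 2880 (.node false 424 2760 (.node false 456 2824 (.node false 472 2856 (.leaf [⟨5712, true, false, 2163513⟩, ⟨2880, true, false, 4225310⟩, ⟨5720, true, false, 1785924⟩, ⟨5728, true, false, 2768771⟩, ⟨2856, true, false, 2016966⟩, ⟨2880, false, false, 3816732⟩]) (.leaf [⟨2880, true, true, 5216388⟩, ⟨2880, true, false, 3228847⟩, ⟨2768, true, false, 6648678⟩, ⟨5728, true, false, 1683303⟩])) (.leaf [⟨2880, true, true, 5199497⟩,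 ⟨2880, true, false, 3267853⟩, ⟨2760, true, false, 6673868⟩, ⟨5728, true, false, 1635998⟩])) (.leaf [⟨2880, true, true, 5216388⟩, ⟨2768, true, false, 6648678⟩, ⟨2880, true, false, 3228847⟩, ⟨5728, true, false, 1683303⟩])) (.leaf [⟨5712, true, false, 4410105⟩, ⟨2872, true, false, 3291401⟩, ⟨5520, false, false, 3270626⟩, ⟨2880, true, false, 2031043⟩, ⟨2880, true, true, 2685146⟩, ⟨5728, true, false, 1088895⟩])) (.leaf [⟨5712, true, false, 4466768⟩, ⟨2880, true, true, 4198091⟩, ⟨0, false, false, 4269542⟩, ⟨2880, true, false, 3842815⟩])) (.node false 240 2872 (.node false 360 2880 (.node false 424 2760 (.node false 456 2824 (.node false 472 2856 (.leaf [⟨5728, true, false, 4202524⟩, ⟨5720, true, false, 3735848⟩, ⟨2880, true, true, 1780840⟩, ⟨2880, true, false, 3481602⟩, ⟨2856, true, false, 1543101⟩, ⟨2880, false, false, 2033300⟩]) (.leaf [⟨2880, true, true, 5216388⟩, ⟨2880, true, false, 3228847⟩, ⟨2768, true, false, 6648678⟩, ⟨5728, true, false, 1683303⟩])) (.leaf [⟨2880,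 true, true, 5199497⟩, ⟨2880, true, false, 3267853⟩, ⟨2760, true, false, 6673868⟩, ⟨5728, true, false, 1635998⟩])) (.leaf [⟨2880, true, true, 5216388⟩, ⟨2768, true, false, 6648678⟩, ⟨2880, true, false, 3228847⟩, ⟨5728, true, false, 1683303⟩])) (.leaf [⟨5720, true, false, 4414408⟩, ⟨2872, true, false, 3283977⟩, ⟨2880, true, false, 2264924⟩, ⟨2880, true, true, 2499281⟩, ⟨5520, false, false, 3295520⟩, ⟨5728, true, false, 1019108⟩])) (.leaf [⟨5720, true, false, 4452538⟩, ⟨2880, true, true, 4195109⟩, ⟨0, false, false, 4268922⟩, ⟨2880, true, false, 3860648⟩])))) (.node true 16 2880 (.node true 24 2640 (.node false 240 2872 (.node false 360 2880 (.node false 424 2824 (.node false 456 2880 (.leaf [⟨5728, true, false, 3877752⟩, ⟨2880, true, true, 4450749⟩, ⟨2880, true, false, 1917110⟩, ⟨5736, true, false, 2147718⟩, ⟨5744, true, false, 1724224⟩, ⟨2880, false, true, 1637920⟩, ⟨2864, true, false, 1021744⟩]) (.leaf [⟨2880, true, true, 2194648⟩, ⟨5728, true, false, 3515383⟩, ⟨2880,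 true, false, 2917717⟩, ⟨2824, true, false, 5938739⟩, ⟨5744, true, false, 2210729⟩])) (.leaf [⟨2880, true, true, 5293107⟩, ⟨2768, true, false, 6579548⟩, ⟨2880, true, false, 3181881⟩, ⟨5744, true, false, 1722679⟩])) (.leaf [⟨5728, true, false, 4406805⟩, ⟨2872, true, false, 3273494⟩, ⟨2880, true, false, 2482793⟩, ⟨5520, false, false, 3332262⟩, ⟨2880, true, true, 2350649⟩, ⟨5744, true, false, 931212⟩])) (.leaf [⟨5728, true, false, 4352216⟩, ⟨0, false, false, 4327841⟩, ⟨2880, true, true, 4213951⟩, ⟨2880, true, false, 3883208⟩])) (.node false 240 2872 (.node false 360 2880 (.node false 424 2824 (.node false 456 2880 (.leaf [⟨5736, true, false, 3861956⟩, ⟨5744, true, false, 3803891⟩, ⟨2880, true, true, 2818249⟩, ⟨2880, true, false, 3615510⟩, ⟨2864, true, false, 1051014⟩, ⟨2880, false, false, 1626596⟩]) (.leaf [⟨2880, true, true, 2156563⟩, ⟨5736, true, false, 3503898⟩, ⟨2880, true, false, 3005659⟩, ⟨2824, true, false, 5954884⟩, ⟨5744, true, false, 2156211⟩])) (.leaf [⟨2880,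 true, true, 5293107⟩, ⟨2768, true, false, 6579548⟩, ⟨2880, true, false, 3181881⟩, ⟨5744, true, false, 1722679⟩])) (.leaf [⟨5736, true, false, 4253134⟩, ⟨2880, true, false, 3904893⟩, ⟨2880, true, true, 4232549⟩, ⟨0, false, false, 4386639⟩])) (.leaf [⟨5736, true, false, 4253134⟩, ⟨0, false, false, 4386639⟩, ⟨2880, true, true, 4232549⟩, ⟨2880, true, false, 3904893⟩]))) (.node false 240 2872 (.node false 360 2880 (.node false 424 2880 (.node false 456 2640 (.node false 456 2856 (.node true 16 2240 (.node true 16 2248 (.node true 16 2256 (.node true 16 2264 (.node true 16 2272 (.node true 16 2312 (.leaf [⟨5744, true, false, 3913016⟩, ⟨2880, true, true, 4886801⟩, ⟨96, true, false, 2592696⟩, ⟨2880, false, true, 3681053⟩, ⟨0, true, false, 1703651⟩]) (.leaf [⟨5744, true, false, 6591605⟩, ⟨2880, true, true, 4255085⟩, ⟨2880, true, false, 2362190⟩, ⟨5752, true, false, 1849987⟩, ⟨136, true, false, 1718350⟩])) (.leaf [⟨5744, true, false, 6538353⟩, ⟨2880, true, true, 4274257⟩, ⟨2880,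 true, false, 2361813⟩, ⟨5752, true, false, 1986233⟩, ⟨144, true, false, 1616559⟩])) (.leaf [⟨5744, true, false, 6525754⟩, ⟨2880, true, true, 4300146⟩, ⟨2880, true, false, 2378109⟩, ⟨5752, true, false, 1922301⟩, ⟨152, true, false, 1650906⟩])) (.leaf [⟨5744, true, false, 6512200⟩, ⟨2880, true, true, 4327093⟩, ⟨2880, true, false, 2395034⟩, ⟨5752, true, false, 1856528⟩, ⟨160, true, false, 1686362⟩])) (.node false 472 2880 (.leaf [⟨5744, true, false, 5146511⟩, ⟨2880, true, true, 5167293⟩, ⟨2880, true, false, 3152427⟩, ⟨5752, true, false, 2433668⟩, ⟨0, true, false, 877317⟩]) (.leaf [⟨2880, true, true, 4776649⟩, ⟨5744, true, false, 5967078⟩, ⟨2880, true, false, 1256840⟩, ⟨0, true, false, 4776649⟩]))) (.node false 472 2880 (.leaf [⟨2880, true, true, 5167255⟩, ⟨5744, true, false, 5146549⟩, ⟨2880, true, false, 3152381⟩, ⟨5752, true, false, 2433714⟩, ⟨0, true, false, 877318⟩]) (.leaf [⟨2880, true, true, 4776649⟩, ⟨5744, true, false, 5967078⟩, ⟨2880, true, false, 1256840⟩, ⟨0,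 true, false, 4776649⟩]))) (.leaf [⟨2880, true, true, 5516339⟩, ⟨2832, true, false, 6303360⟩, ⟨2880, true, false, 2827352⟩, ⟨0, true, false, 2130165⟩])) (.leaf [⟨2832, true, false, 10883284⟩, ⟨2880, true, false, 4914493⟩, ⟨0, true, false, 979438⟩])) (.leaf [⟨2880, true, true, 5373549⟩, ⟨2768, true, false, 6506757⟩, ⟨2880, true, false, 3132386⟩, ⟨0, true, false, 1764523⟩])) (.leaf [⟨5744, true, false, 4155445⟩, ⟨2880, true, false, 3925713⟩, ⟨2880, true, true, 4250869⟩, ⟨0, false, false, 4445189⟩])) (.leaf [⟨0, false, false, 4445189⟩, ⟨2880, true, false, 3925713⟩, ⟨5744, true, false, 4155445⟩, ⟨2880, true, true, 4250869⟩])))) (.node false 240 2872 (.node false 360 2880 (.node false 424 2880 (.node true 8 2160 (.node true 8 2232 (.node true 8 2240 (.node true 8 2248 (.node true 8 2288 (.leaf [⟨5752, true, false, 3766004⟩, ⟨2880, true, true, 1586888⟩, ⟨2880, true, false, 3659957⟩, ⟨0, true, false, 2520396⟩, ⟨2880, false, false, 3418672⟩, ⟨120, true, false, 1825299⟩]) (.leaf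 [⟨5752, true, false, 6421345⟩, ⟨2880, true, true, 4303330⟩, ⟨2880, true, false, 2408706⟩, ⟨0, true, false, 2278152⟩, ⟨160, true, false, 1365682⟩])) (.leaf [⟨5752, true, false, 6356146⟩, ⟨2880, true, true, 4312356⟩, ⟨2880, true, false, 2395569⟩, ⟨0, true, false, 2512096⟩, ⟨168, true, false, 1201050⟩])) (.leaf [⟨5752, true, false, 5995474⟩, ⟨2880, true, true, 4094563⟩, ⟨2880, true, false, 2923391⟩, ⟨0, true, false, 2390083⟩, ⟨176, true, false, 657609⟩, ⟨0, false, false, 716097⟩])) (.node false 456 2856 (.node false 472 2880 (.leaf [⟨2880, true, true, 5187181⟩, ⟨5752, true, false, 5122627⟩, ⟨0, true, false, 3237070⟩, ⟨2880, true, false, 3230338⟩]) (.leaf [⟨2880, true, true, 4761851⟩, ⟨5752, true, false, 5966145⟩, ⟨0, true, false, 4761851⟩, ⟨2880, true, false, 1287370⟩])) (.leaf [⟨2880, true, true, 5516339⟩, ⟨2832, true, false, 6303360⟩, ⟨2880, true, false, 2827352⟩, ⟨0, true, false, 2130165⟩]))) (.node false 456 2856 (.node false 472 2880 (.leaf [⟨2880, true, true, 5187274⟩,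 ⟨5752, true, false, 5122533⟩, ⟨0, true, false, 3236957⟩, ⟨2880, true, false, 3230451⟩]) (.leaf [⟨2880, true, true, 4761851⟩, ⟨5752, true, false, 5966145⟩, ⟨0, true, false, 4761851⟩, ⟨2880, true, false, 1287370⟩])) (.leaf [⟨2880, true, true, 5516339⟩, ⟨2832, true, false, 6303361⟩, ⟨2880, true, false, 2827352⟩, ⟨0, true, false, 2130165⟩]))) (.leaf [⟨2880, true, true, 5373549⟩, ⟨2768, true, false, 6506757⟩, ⟨0, true, false, 1764523⟩, ⟨2880, true, false, 3132386⟩])) (.leaf [⟨5752, true, false, 4059291⟩, ⟨2880, true, false, 3945678⟩, ⟨2880, true, true, 4268878⟩, ⟨0, false, false, 4503369⟩])) (.leaf [⟨0, false, false, 4503369⟩, ⟨2880, true, false, 3945678⟩, ⟨2880, true, true, 4268878⟩, ⟨5752, true, false, 4059291⟩]))) (by decide +kernel)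
theorem yo191 : (bN 608 744 608 8997335936).Ok := ok1 (.node true 72 2728 (.node true 104 2816 (.node true 120 2880 (.node false 8 2816 (.node false 48 2880 (.leaf [⟨2880, false, true, 6249989⟩, ⟨2880, false, false, 2516817⟩, ⟨5640, true, false, 3024877⟩, ⟨5712, false, false, 2599207⟩, ⟨2880, true, true, 2386326⟩]) (.leaf [⟨2880, false, true, 4721459⟩, ⟨2880, false, false, 4719301⟩, ⟨0, false, false, 4721459⟩, ⟨5712, false, false, 2614996⟩])) (.leaf [⟨2880, false, false, 4755391⟩, ⟨0, false, false, 4755391⟩, ⟨2880, false, true, 4755391⟩, ⟨5752, false, false, 2511044⟩])) (.node true 112 2880 (.leaf [⟨2880, true, false, 5844768⟩, ⟨0, false, false, 2964565⟩, ⟨5648, true, false, 2160859⟩, ⟨2880, false, false, 4328273⟩, ⟨5640, true, false, 1478751⟩]) (.node false 720 2816 (.node false 8 2880 (.node false 48 2880 (.node false 64 2880 (.node false 72 2880 (.node false 80 2880 (.node false 112 2880 (.node false 128 2880 (.node false 136 2880 (.node false 152 2880 (.node false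 160 2880 (.node false 168 2880 (.node false 192 2880 (.node false 200 2880 (.node false 208 2880 (.node false 224 2880 (.node false 232 2880 (.node false 240 2880 (.node false 264 2880 (.node false 272 2880 (.node false 280 2880 (.node false 384 2880 (.node false 432 2880 (.node false 696 2880 (.node true 56 2880 (.leaf [⟨5704, true, false, 4911535⟩, ⟨2880, false, true, 6167365⟩, ⟨2880, true, true, 5698315⟩]) (.leaf [⟨2880, true, true, 3154663⟩, ⟨5704, true, false, 4258641⟩, ⟨2880, true, false, 4681956⟩, ⟨0, true, false, 4681956⟩])) (.leaf [⟨0, true, false, 5261425⟩, ⟨2880, true, true, 5261425⟩, ⟨2880, false, true, 5261425⟩, ⟨2816, true, false, 992940⟩])) (.leaf [⟨2880, true, true, 4704558⟩, ⟨2880, true, false, 4704558⟩, ⟨0, true, false, 4704558⟩, ⟨2816, true, false, 2663543⟩])) (.leaf [⟨2880, true, true, 4704558⟩, ⟨2880, true, false, 4704558⟩, ⟨0, true, false, 4704558⟩, ⟨2816, true, false, 2663543⟩])) (.leaf [⟨2880, true, true, 4704558⟩, ⟨2880, true, false, 4704558⟩,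 ⟨0, true, false, 4704558⟩, ⟨2816, true, false, 2663543⟩])) (.leaf [⟨2880, true, true, 4704558⟩, ⟨2880, true, false, 4704558⟩, ⟨0, true, false, 4704558⟩, ⟨2816, true, false, 2663543⟩])) (.leaf [⟨2880, true, true, 4704558⟩, ⟨2880, true, false, 4704558⟩, ⟨0, true, false, 4704558⟩, ⟨2816, true, false, 2663543⟩])) (.leaf [⟨2880, true, true, 4704558⟩, ⟨2880, true, false, 4704558⟩, ⟨0, true, false, 4704558⟩, ⟨2816, true, false, 2663543⟩])) (.leaf [⟨2880, true, true, 4704558⟩, ⟨2880, true, false, 4704558⟩, ⟨0, true, false, 4704558⟩, ⟨2816, true, false, 2663543⟩])) (.leaf [⟨2880, true, true, 4704558⟩, ⟨2880, true, false, 4704558⟩, ⟨0, true, false, 4704558⟩, ⟨2816, true, false, 2663543⟩])) (.leaf [⟨2880, true, true, 4704558⟩, ⟨2880, true, false, 4704558⟩, ⟨0, true, false, 4704558⟩, ⟨2816, true, false, 2663543⟩])) (.leaf [⟨2880, true, true, 4704558⟩, ⟨2880, true, false, 4704558⟩, ⟨0, true, false, 4704558⟩, ⟨2816, true, false, 2663543⟩])) (.leaf [⟨2880, true, true, 4704558⟩,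 ⟨2880, true, false, 4704558⟩, ⟨0, true, false, 4704558⟩, ⟨2816, true, false, 2663543⟩])) (.leaf [⟨2880, true, true, 4704558⟩, ⟨2880, true, false, 4704558⟩, ⟨0, true, false, 4704558⟩, ⟨2816, true, false, 2663543⟩])) (.leaf [⟨2880, true, true, 4704558⟩, ⟨2880, true, false, 4704558⟩, ⟨0, true, false, 4704558⟩, ⟨2816, true, false, 2663543⟩])) (.leaf [⟨2880, true, true, 4704558⟩, ⟨2880, true, false, 4704558⟩, ⟨0, true, false, 4704558⟩, ⟨2816, true, false, 2663543⟩])) (.leaf [⟨2880, true, true, 4704558⟩, ⟨2880, true, false, 4704558⟩, ⟨0, true, false, 4704558⟩, ⟨2816, true, false, 2663543⟩])) (.leaf [⟨2880, true, true, 4704558⟩, ⟨2880, true, false, 4704558⟩, ⟨0, true, false, 4704558⟩, ⟨2816, true, false, 2663543⟩])) (.leaf [⟨2880, true, true, 4704558⟩, ⟨2880, true, false, 4704558⟩, ⟨0, true, false, 4704558⟩, ⟨2816, true, false, 2663543⟩])) (.leaf [⟨2816, true, false, 2663543⟩, ⟨2880, true, true, 4704558⟩, ⟨2880, true, false, 4704558⟩, ⟨0, true, false, 4704558⟩])) (.leaf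 [⟨2816, true, false, 2663543⟩, ⟨2880, true, true, 4704558⟩, ⟨2880, true, false, 4704558⟩, ⟨0, true, false, 4704558⟩])) (.leaf [⟨5696, false, false, 3734362⟩, ⟨2880, false, false, 5143732⟩, ⟨2880, false, true, 3547528⟩, ⟨5712, false, false, 4351594⟩])) (.leaf [⟨5712, false, false, 2794651⟩, ⟨5752, false, false, 4660973⟩, ⟨2880, false, false, 4793175⟩, ⟨2880, false, true, 4528417⟩])) (.leaf [⟨5752, false, false, 929789⟩, ⟨2880, false, true, 5282476⟩, ⟨2880, false, false, 5282476⟩, ⟨0, true, false, 5282476⟩])) (.node false 8 2816 (.node false 48 2880 (.node false 64 2880 (.node false 72 2880 (.node false 80 2880 (.node false 112 2880 (.node false 128 2880 (.node false 136 2880 (.node false 152 2880 (.node false 160 2880 (.node false 168 2880 (.node false 192 2880 (.node false 200 2880 (.node false 208 2880 (.node false 224 2880 (.node false 232 2880 (.node false 240 2880 (.leaf [⟨2880, true, true, 1502140⟩, ⟨0, true, false, 4882684⟩, ⟨2880, true, false, 4994048⟩, ⟨2880,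 false, false, 4186340⟩, ⟨5520, false, false, 474757⟩, ⟨5648, true, false, 737248⟩]) (.leaf [⟨2880, true, true, 5759266⟩, ⟨2880, true, false, 4397036⟩, ⟨0, true, false, 4194850⟩, ⟨5648, true, false, 1513701⟩, ⟨5528, false, false, 912362⟩])) (.leaf [⟨2880, true, true, 5827077⟩, ⟨2880, true, false, 4387947⟩, ⟨0, true, false, 4133246⟩, ⟨5648, true, false, 1424854⟩, ⟨5536, false, false, 1004092⟩])) (.leaf [⟨2880, true, true, 5954295⟩, ⟨2880, true, false, 4374988⟩, ⟨0, true, false, 3995407⟩, ⟨5648, true, false, 1252535⟩, ⟨5552, false, false, 1199991⟩])) (.leaf [⟨2880, true, true, 6013399⟩, ⟨2880, true, false, 4371269⟩, ⟨0, true, false, 3918643⟩, ⟨5560, false, false, 1304615⟩, ⟨5648, true, false, 1169291⟩])) (.leaf [⟨2880, true, true, 6007417⟩, ⟨2880, true, false, 4380313⟩, ⟨0, true, false, 3877309⟩, ⟨5568, false, false, 1345968⟩, ⟨5648, true, false, 1166209⟩])) (.leaf [⟨2880, true, true, 5899535⟩, ⟨2880, true, false, 4424685⟩, ⟨0, true, false, 3803637⟩, ⟨5592, false, false,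 1381608⟩, ⟨5648, true, false, 1267750⟩])) (.leaf [⟨2880, true, true, 5862997⟩, ⟨2880, true, false, 4439937⟩, ⟨0, true, false, 3777129⟩, ⟨5600, false, false, 1395539⟩, ⟨5648, true, false, 1301615⟩])) (.leaf [⟨2880, true, true, 5826366⟩, ⟨2880, true, false, 4455427⟩, ⟨0, true, false, 3749256⟩, ⟨5608, false, false, 1410992⟩, ⟨5648, true, false, 1335175⟩])) (.leaf [⟨2880, true, true, 5751413⟩, ⟨2880, true, false, 4487440⟩, ⟨0, true, false, 3689952⟩, ⟨5624, false, false, 1445351⟩, ⟨5648, true, false, 1403060⟩])) (.leaf [⟨2880, true, true, 5712880⟩, ⟨2880, true, false, 4504046⟩, ⟨0, true, false, 3658387⟩, ⟨5632, false, false, 1464327⟩, ⟨5648, true, false, 1437577⟩])) (.leaf [⟨2880, true, true, 5632833⟩, ⟨2880, true, false, 4538708⟩, ⟨0, true, false, 3591414⟩, ⟨5648, false, false, 1505579⟩, ⟨5648, true, false, 1508683⟩])) (.leaf [⟨2880, true, true, 5452982⟩, ⟨2880, true, false, 4615236⟩, ⟨5680, false, false, 1592745⟩, ⟨0, true, false, 3447425⟩, ⟨5648, true, false, 1668828⟩]))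 (.leaf [⟨2880, false, false, 5254649⟩, ⟨2880, false, true, 5254649⟩, ⟨5680, false, false, 1013268⟩, ⟨0, true, false, 5254649⟩])) (.leaf [⟨2880, false, false, 4956448⟩, ⟨5688, false, false, 3085566⟩, ⟨2880, false, true, 3830523⟩, ⟨5696, false, false, 4904679⟩])) (.leaf [⟨2880, false, false, 4902588⟩, ⟨5696, false, false, 2961550⟩, ⟨2880, false, true, 4055437⟩, ⟨5712, false, false, 4857641⟩])) (.leaf [⟨5712, false, false, 2614996⟩, ⟨2880, false, true, 4721459⟩, ⟨0, false, false, 4721459⟩, ⟨2880, false, false, 4719301⟩])) (.leaf [⟨5752, false, false, 2511044⟩, ⟨2880, false, false, 4755391⟩, ⟨0, false, false, 4755391⟩, ⟨2880, false, true, 4755391⟩]))))) (.node true 80 2816 (.node true 88 2880 (.leaf [⟨2880, true, false, 5774794⟩, ⟨0, false, false, 2465969⟩, ⟨5672, true, false, 2665507⟩, ⟨2880, false, false, 4363538⟩, ⟨5656, true, false, 1507408⟩]) (.node true 40 2880 (.leaf [⟨5720, true, false, 4777553⟩, ⟨2880, false, false, 4565226⟩, ⟨0, false, false, 402027⟩, ⟨2880,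 true, false, 5430491⟩, ⟨5672, true, false, 1601918⟩]) (.leaf [⟨2816, false, false, 5091873⟩, ⟨5720, true, false, 3425459⟩, ⟨2880, false, false, 2753295⟩, ⟨2880, false, true, 2753295⟩, ⟨0, false, false, 2753295⟩]))) (.node true 40 2816 (.node true 56 2880 (.leaf [⟨5704, true, false, 4885500⟩, ⟨2880, true, false, 4914166⟩, ⟨2880, true, true, 3948134⟩, ⟨5680, true, false, 3029416⟩]) (.leaf [⟨2880, true, true, 3154663⟩, ⟨0, true, false, 4681956⟩, ⟨2880, true, false, 4681956⟩, ⟨5704, true, false, 4258641⟩])) (.leaf [⟨2880, true, false, 4704585⟩, ⟨0, true, false, 4704585⟩, ⟨2880, true, true, 3058672⟩, ⟨5720, true, false, 4309374⟩])))) (.node true 8 2816 (.node true 16 2880 (.node true 24 2880 (.node true 48 2584 (.node true 56 2880 (.leaf [⟨5704, true, false, 4875884⟩, ⟨2880, true, false, 4938386⟩, ⟨2880, true, true, 3942947⟩, ⟨5688, true, false, 3020000⟩]) (.leaf [⟨5736, true, false, 5280083⟩, ⟨2880, false, true, 5396766⟩, ⟨2880, true, true, 4557377⟩, ⟨5704, true, false,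 1542990⟩])) (.leaf [⟨5736, true, false, 5233821⟩, ⟨2880, false, false, 4317321⟩, ⟨2880, true, false, 5256341⟩, ⟨5712, true, false, 1969734⟩])) (.leaf [⟨5744, true, false, 5316462⟩, ⟨2880, true, true, 4377387⟩, ⟨2880, false, true, 5348308⟩, ⟨5736, true, false, 1735059⟩])) (.node true 8 2880 (.leaf [⟨5752, true, false, 5353907⟩, ⟨2880, true, true, 4233270⟩, ⟨2880, false, true, 5279765⟩, ⟨5744, true, false, 1910274⟩]) (.leaf [⟨5752, true, false, 2075638⟩, ⟨0, true, false, 5279143⟩, ⟨2880, false, true, 5279143⟩, ⟨2880, true, true, 4143293⟩]))) (.leaf [⟨0, true, false, 4869668⟩, ⟨2880, true, false, 4938623⟩, ⟨5752, true, false, 3382078⟩, ⟨2880, true, true, 3586846⟩]))) (by decide +kernel)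
theorem yo194 : (bN 576 792 576 9005491365).Ok := ok1 (.node true 240 2400 (.node true 256 2640 (.node true 264 2832 (.node false 8 2640 (.node false 48 2880 (.leaf [⟨5712, false, false, 3718298⟩, ⟨2880, false, false, 3179841⟩, ⟨2832, false, false, 3421420⟩, ⟨2880, true, false, 2948734⟩, ⟨5496, true, false, 1982603⟩, ⟨2880, true, true, 1526321⟩]) (.leaf [⟨2880, false, true, 5000482⟩, ⟨2880, false, false, 5000482⟩, ⟨5656, false, false, 1775770⟩, ⟨0, true, false, 5000482⟩])) (.leaf [⟨2880, false, false, 4118373⟩, ⟨2880, false, true, 4584386⟩, ⟨0, false, false, 4584386⟩, ⟨5752, false, false, 3490072⟩])) (.node true 128 2832 (.node false 56 2832 (.node false 80 2880 (.node false 96 2880 (.node false 104 2880 (.node false 144 2880 (.leaf [⟨2832, false, false, 5424972⟩, ⟨2880, true, true, 3352462⟩, ⟨5632, true, false, 3042018⟩, ⟨5616, false, false, 2190677⟩, ⟨2880, false, false, 1695555⟩, ⟨5504, true, false, 406077⟩, ⟨2880, true, false, 665456⟩]) (.leaf [⟨2880, true, true,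 5682210⟩, ⟨2832, false, false, 4848423⟩, ⟨5656, false, false, 3559035⟩, ⟨5632, true, false, 1880211⟩, ⟨2880, true, false, 807337⟩])) (.leaf [⟨2880, false, false, 4352180⟩, ⟨2832, false, false, 5346593⟩, ⟨5656, false, false, 2583943⟩, ⟨5664, false, false, 2436408⟩, ⟨5632, true, false, 2058091⟩])) (.leaf [⟨2880, true, true, 5647391⟩, ⟨5680, false, false, 3761904⟩, ⟨2832, false, false, 4737864⟩, ⟨2880, true, false, 996910⟩, ⟨5632, true, false, 1633147⟩])) (.leaf [⟨2880, false, false, 3957579⟩, ⟨2880, false, true, 4647691⟩, ⟨5680, false, false, 3524254⟩, ⟨0, false, false, 4647691⟩])) (.leaf [⟨2880, false, false, 5000482⟩, ⟨2880, false, true, 5000482⟩, ⟨5656, false, false, 1775770⟩, ⟨0, true, false, 5000482⟩])) (.node true 64 2688 (.node true 96 2832 (.node true 112 2880 (.leaf [⟨2880, false, true, 6708990⟩, ⟨5664, true, false, 5158037⟩, ⟨2880, false, false, 3550572⟩, ⟨5632, true, false, 1359617⟩]) (.leaf [⟨5648, true, false, 4405230⟩, ⟨2880, true, true, 3926643⟩, ⟨0,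 true, false, 3691539⟩, ⟨2880, true, false, 3691539⟩, ⟨2832, false, false, 669855⟩, ⟨5664, true, false, 392409⟩])) (.leaf [⟨5664, true, false, 5136599⟩, ⟨0, true, false, 4115183⟩, ⟨2880, true, true, 3410251⟩, ⟨2880, true, false, 4115183⟩])) (.leaf [⟨5680, true, false, 5182748⟩, ⟨0, true, false, 4142802⟩, ⟨2880, true, true, 3308865⟩, ⟨2880, true, false, 4142802⟩])))) (.node true 248 2640 (.node true 128 2832 (.node false 56 2832 (.node false 80 2880 (.node false 96 2880 (.node false 104 2880 (.node false 144 2880 (.leaf [⟨2832, false, false, 5421045⟩, ⟨2880, true, true, 3344821⟩, ⟨5632, true, false, 3045914⟩, ⟨5616, false, false, 2183005⟩, ⟨2880, false, false, 1705401⟩, ⟨5512, true, false, 408406⟩, ⟨2880, true, false, 668625⟩]) (.leaf [⟨2880, true, true, 5422118⟩, ⟨2832, false, false, 4130945⟩, ⟨5656, false, false, 2984064⟩, ⟨5632, true, false, 2515499⟩, ⟨2880, false, true, 1724589⟩])) (.leaf [⟨2880, false, false, 4352180⟩, ⟨2832, false, false, 5346593⟩, ⟨5656, false,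 false, 2583943⟩, ⟨5664, false, false, 2436408⟩, ⟨5632, true, false, 2058091⟩])) (.leaf [⟨2880, true, true, 5647391⟩, ⟨5680, false, false, 3761904⟩, ⟨2832, false, false, 4737864⟩, ⟨2880, true, false, 996910⟩, ⟨5632, true, false, 1633147⟩])) (.leaf [⟨2880, false, false, 3957579⟩, ⟨2880, false, true, 4647691⟩, ⟨5680, false, false, 3524254⟩, ⟨0, false, false, 4647691⟩])) (.leaf [⟨2880, false, false, 5000482⟩, ⟨2880, false, true, 5000482⟩, ⟨5656, false, false, 1775770⟩, ⟨0, true, false, 5000482⟩])) (.node true 64 2688 (.node true 96 2832 (.node true 112 2880 (.leaf [⟨2880, false, true, 6708990⟩, ⟨5664, true, false, 5158037⟩, ⟨2880, false, false, 3550572⟩, ⟨5632, true, false, 1359617⟩]) (.leaf [⟨5648, true, false, 4405230⟩, ⟨2880, true, true, 3926643⟩, ⟨0, true, false, 3691539⟩, ⟨2880, true, false, 3691539⟩, ⟨2832, false, false, 669855⟩, ⟨5664, true, false, 392409⟩])) (.leaf [⟨5664, true, false, 5136599⟩, ⟨0, true, false, 4115183⟩, ⟨2880, true, true, 3410251⟩, ⟨2880, true,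 false, 4115183⟩])) (.leaf [⟨5680, true, false, 5182748⟩, ⟨0, true, false, 4142802⟩, ⟨2880, true, true, 3308865⟩, ⟨2880, true, false, 4142802⟩]))) (.node true 120 2640 (.node true 184 2832 (.node false 56 2832 (.node false 80 2880 (.leaf [⟨2832, false, false, 4343903⟩, ⟨2880, true, true, 2318599⟩, ⟨5680, false, false, 2994587⟩, ⟨5576, true, false, 2654376⟩, ⟨2880, false, false, 2546729⟩, ⟨2880, true, false, 1919023⟩]) (.leaf [⟨2880, false, false, 3957579⟩, ⟨2880, false, true, 4647691⟩, ⟨0, false, false, 4647691⟩, ⟨5680, false, false, 3524254⟩])) (.leaf [⟨2880, false, false, 5000482⟩, ⟨2880, false, true, 5000482⟩, ⟨5656, false, false, 1775770⟩, ⟨0, true, false, 5000482⟩])) (.node true 136 2832 (.node false 56 2832 (.node false 80 2880 (.node true 144 2880 (.leaf [⟨2880, false, false, 5041749⟩, ⟨2880, false, true, 2705162⟩, ⟨2880, true, false, 3322051⟩, ⟨5680, false, false, 1842173⟩, ⟨5664, true, false, 3866082⟩]) (.node false 96 2880 (.leaf [⟨2832, false, false, 4593004⟩,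 ⟨2880, true, true, 3809636⟩, ⟨5664, false, false, 2145770⟩, ⟨5664, true, false, 2854790⟩, ⟨2880, false, false, 936913⟩, ⟨2880, true, false, 1228646⟩, ⟨5616, true, false, 1208456⟩]) (.leaf [⟨2880, true, true, 5627604⟩, ⟨5680, false, false, 3787160⟩, ⟨2880, true, false, 1009054⟩, ⟨2832, false, false, 4735965⟩, ⟨5624, true, false, 1617432⟩]))) (.leaf [⟨2880, false, false, 3957579⟩, ⟨2880, false, true, 4647691⟩, ⟨5680, false, false, 3524254⟩, ⟨0, false, false, 4647691⟩])) (.leaf [⟨2880, false, false, 3957579⟩, ⟨2880, false, true, 4647691⟩, ⟨5680, false, false, 3524254⟩, ⟨0, false, false, 4647691⟩])) (.node true 128 2832 (.node false 56 2832 (.node false 80 2880 (.node false 96 2880 (.leaf [⟨2832, false, false, 4477466⟩, ⟨2880, true, true, 4564416⟩, ⟨5664, true, false, 2733253⟩, ⟨5664, false, false, 2076524⟩, ⟨5624, true, false, 1788386⟩, ⟨2880, true, false, 1137171⟩]) (.leaf [⟨2880, true, true, 5647392⟩, ⟨5680, false, false, 3761904⟩, ⟨2880, true, false, 996910⟩, ⟨2832,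 false, false, 4737863⟩, ⟨5632, true, false, 1633147⟩])) (.leaf [⟨2880, false, false, 3957579⟩, ⟨2880, false, true, 4647691⟩, ⟨5680, false, false, 3524254⟩, ⟨0, false, false, 4647691⟩])) (.leaf [⟨2880, false, false, 3957579⟩, ⟨2880, false, true, 4647691⟩, ⟨5680, false, false, 3524254⟩, ⟨0, false, false, 4647691⟩])) (.node true 64 2832 (.node true 96 2880 (.leaf [⟨5696, true, false, 4321006⟩, ⟨2880, false, false, 3236310⟩, ⟨5632, true, false, 4063826⟩, ⟨2880, true, false, 5156074⟩]) (.leaf [⟨5664, true, false, 5136599⟩, ⟨2880, true, true, 3410251⟩, ⟨0, true, false, 4115183⟩, ⟨2880, true, false, 4115183⟩])) (.leaf [⟨5680, true, false, 5182748⟩, ⟨0, true, false, 4142802⟩, ⟨2880, true, true, 3308865⟩, ⟨2880, true, false, 4142802⟩]))))) (.node true 8 2832 (.node true 56 2880 (.leaf [⟨5704, true, false, 4645548⟩, ⟨2880, false, true, 5568590⟩, ⟨5640, true, false, 2857903⟩, ⟨2880, true, true, 3705175⟩]) (.leaf [⟨5672, true, false, 5159434⟩, ⟨0, true, false, 4128979⟩, ⟨2880,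 true, false, 4128979⟩, ⟨2880, true, true, 3359824⟩])) (.leaf [⟨5752, true, false, 4658970⟩, ⟨0, true, false, 4142179⟩, ⟨2880, true, false, 4527593⟩, ⟨2880, true, true, 3448474⟩]))))) (.node true 8 2400 (.node true 48 2640 (.node true 64 2880 (.node false 56 2832 (.node false 80 2880 (.leaf [⟨2880, false, true, 5999791⟩, ⟨5696, true, false, 4100799⟩, ⟨2880, false, false, 1980108⟩, ⟨2880, true, true, 3148256⟩, ⟨5704, false, false, 1548261⟩]) (.leaf [⟨2880, false, true, 5906273⟩, ⟨2880, false, false, 4365658⟩, ⟨5696, true, false, 3752318⟩, ⟨0, false, false, 1392788⟩, ⟨5624, false, false, 1360180⟩])) (.leaf [⟨2880, false, true, 4871975⟩, ⟨2880, false, false, 4198172⟩, ⟨5656, false, false, 3168503⟩, ⟨0, false, false, 3104524⟩, ⟨5696, true, false, 1434042⟩])) (.node true 56 2880 (.leaf [⟨5712, true, false, 5352337⟩, ⟨2880, true, true, 4555829⟩, ⟨5696, true, false, 1693757⟩, ⟨2880, false, true, 5175292⟩]) (.node true 24 2880 (.leaf [⟨5736, true, false, 5269184⟩, ⟨2880, false,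 false, 4658053⟩, ⟨2880, true, false, 4963469⟩, ⟨5704, true, false, 1886511⟩]) (.leaf [⟨5712, true, false, 5066284⟩, ⟨0, true, false, 4165479⟩, ⟨2880, true, false, 4274514⟩, ⟨2880, true, true, 3270939⟩])))) (.node true 16 2640 (.node true 24 2880 (.leaf [⟨5736, true, false, 5291864⟩, ⟨2880, false, true, 5058169⟩, ⟨2880, true, true, 4755369⟩, ⟨5712, true, false, 1671814⟩]) (.node true 8 2880 (.leaf [⟨5752, true, false, 5359847⟩, ⟨5736, true, false, 2011727⟩, ⟨2880, true, true, 4489041⟩, ⟨2880, false, true, 4916601⟩]) (.leaf [⟨5752, true, false, 4658970⟩, ⟨0, true, false, 4142179⟩, ⟨2880, true, true, 3448474⟩, ⟨2880, true, false, 4527593⟩]))) (.node true 8 2640 (.node true 8 2880 (.leaf [⟨5752, true, false, 4513648⟩, ⟨2880, true, false, 4581216⟩, ⟨5744, true, false, 3704367⟩, ⟨2880, true, true, 3977985⟩]) (.leaf [⟨0, true, false, 4142179⟩, ⟨5752, true, false, 4658970⟩, ⟨2880, true, false, 4527593⟩, ⟨2880, true, true, 3448474⟩])) (.leaf [⟨5752, true, false, 4658970⟩,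 ⟨0, true, false, 4142179⟩, ⟨2880, true, false, 4527593⟩, ⟨2880, true, true, 3448474⟩])))) (.leaf [⟨0, true, false, 5397057⟩, ⟨5752, true, false, 2184419⟩, ⟨2880, false, true, 4853754⟩, ⟨2880, true, true, 4341986⟩]))) (by decide +kernel)
theorem yo189 : (bN 600 752 600 9021687168).Ok := ok1 (.node true 64 2744 (.node true 96 2816 (.node true 112 2880 (.node false 8 2816 (.node false 72 2880 (.leaf [⟨2880, false, true, 6171865⟩, ⟨2880, false, false, 2399761⟩, ⟨5648, true, false, 3522641⟩, ⟨5688, false, false, 2141639⟩, ⟨2880, true, true, 2541311⟩]) (.leaf [⟨2880, false, true, 4723724⟩, ⟨2880, false, false, 4534120⟩, ⟨0, false, false, 4723724⟩, ⟨5688, false, false, 2795647⟩])) (.leaf [⟨2880, false, true, 4681644⟩, ⟨2880, false, false, 4646015⟩, ⟨0, false, false, 4681644⟩, ⟨5752, false, false, 2767912⟩])) (.node true 104 2880 (.leaf [⟨2880, true, false, 5783448⟩, ⟨2880, false, false, 4312407⟩, ⟨0, false, false, 2691363⟩, ⟨5656, true, false, 2454308⟩, ⟨5648, true, false,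 1535689⟩]) (.node false 720 2816 (.node false 8 2880 (.node false 72 2880 (.node false 104 2880 (.node false 120 2880 (.node false 128 2880 (.node false 152 2880 (.node false 160 2880 (.node false 168 2880 (.node false 184 2880 (.node false 192 2880 (.node false 200 2880 (.node false 224 2880 (.node false 232 2880 (.node false 240 2880 (.node false 264 2880 (.node false 272 2880 (.node false 280 2880 (.node false 384 2880 (.node false 432 2880 (.node false 456 2880 (.node false 712 2880 (.node true 48 2880 (.leaf [⟨5712, true, false, 5413138⟩, ⟨2880, false, true, 5945037⟩, ⟨2880, false, false, 2426863⟩, ⟨2880, true, true, 2992178⟩]) (.leaf [⟨2880, true, true, 3043685⟩, ⟨5712, true, false, 4548725⟩, ⟨2880, true, false, 4592403⟩, ⟨0, true, false, 4592403⟩])) (.leaf [⟨2880, true, true, 5902948⟩, ⟨0, true, false, 5220509⟩, ⟨2880, false, true, 5220509⟩, ⟨2736, true, false, 433250⟩])) (.leaf [⟨2880, true, true, 6404236⟩, ⟨2880, true, false, 4595376⟩, ⟨0, true, false, 4595376⟩,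 ⟨2712, true, false, 1182228⟩])) (.leaf [⟨2880, true, true, 4601260⟩, ⟨2880, true, false, 4601261⟩, ⟨0, true, false, 4601261⟩, ⟨2816, true, false, 2973435⟩])) (.leaf [⟨2880, true, true, 4601260⟩, ⟨2880, true, false, 4601261⟩, ⟨0, true, false, 4601261⟩, ⟨2816, true, false, 2973435⟩])) (.leaf [⟨2880, true, true, 4601260⟩, ⟨2880, true, false, 4601261⟩, ⟨0, true, false, 4601261⟩, ⟨2816, true, false, 2973435⟩])) (.leaf [⟨2880, true, true, 4601260⟩, ⟨2880, true, false, 4601261⟩, ⟨0, true, false, 4601261⟩, ⟨2816, true, false, 2973435⟩])) (.leaf [⟨2880, true, true, 4601260⟩, ⟨2880, true, false, 4601260⟩, ⟨0, true, false, 4601261⟩, ⟨2816, true, false, 2973435⟩])) (.leaf [⟨2880, true, true, 4601260⟩, ⟨2880, true, false, 4601261⟩, ⟨0, true, false, 4601261⟩, ⟨2816, true, false, 2973435⟩])) (.leaf [⟨2880, true, true, 4601260⟩, ⟨2880, true, false, 4601261⟩, ⟨0, true, false, 4601261⟩, ⟨2816, true, false, 2973434⟩])) (.leaf [⟨2880, true, true, 4601260⟩, ⟨2880, true, false, 4601260⟩,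 ⟨0, true, false, 4601261⟩, ⟨2816, true, false, 2973435⟩])) (.leaf [⟨2880, true, true, 4601261⟩, ⟨2880, true, false, 4601260⟩, ⟨0, true, false, 4601261⟩, ⟨2816, true, false, 2973434⟩])) (.leaf [⟨2880, true, true, 4601260⟩, ⟨2880, true, false, 4601260⟩, ⟨0, true, false, 4601261⟩, ⟨2816, true, false, 2973435⟩])) (.leaf [⟨2880, true, true, 4601260⟩, ⟨2880, true, false, 4601260⟩, ⟨0, true, false, 4601261⟩, ⟨2816, true, false, 2973435⟩])) (.leaf [⟨2880, true, true, 4601261⟩, ⟨2880, true, false, 4601260⟩, ⟨0, true, false, 4601261⟩, ⟨2816, true, false, 2973434⟩])) (.leaf [⟨2880, true, true, 4601260⟩, ⟨2880, true, false, 4601260⟩, ⟨0, true, false, 4601261⟩, ⟨2816, true, false, 2973435⟩])) (.leaf [⟨2880, true, true, 4601260⟩, ⟨2880, true, false, 4601260⟩, ⟨0, true, false, 4601261⟩, ⟨2816, true, false, 2973435⟩])) (.leaf [⟨2880, true, true, 4601261⟩, ⟨2880, true, false, 4601260⟩, ⟨0, true, false, 4601261⟩, ⟨2816, true, false, 2973434⟩])) (.leaf [⟨2880, true, true, 4601261⟩,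 ⟨2880, true, false, 4601260⟩, ⟨0, true, false, 4601261⟩, ⟨2816, true, false, 2973434⟩])) (.leaf [⟨2816, true, false, 2973435⟩, ⟨2880, true, true, 4601260⟩, ⟨2880, true, false, 4601260⟩, ⟨0, true, false, 4601261⟩])) (.leaf [⟨2816, true, false, 2973434⟩, ⟨0, true, false, 4601261⟩, ⟨2880, true, false, 4601261⟩, ⟨2880, true, true, 4601261⟩])) (.leaf [⟨5752, false, false, 1051795⟩, ⟨2880, false, true, 5241805⟩, ⟨0, true, false, 5241808⟩, ⟨2880, false, false, 5241808⟩])) (.leaf [⟨0, true, false, 4436801⟩, ⟨2880, true, true, 2290925⟩, ⟨2880, true, false, 4945968⟩, ⟨5656, true, false, 1939312⟩, ⟨2880, false, false, 2655043⟩, ⟨0, false, false, 509167⟩])))) (.node true 72 2816 (.node true 80 2880 (.leaf [⟨2880, false, true, 5947463⟩, ⟨5680, true, false, 2830965⟩, ⟨0, false, false, 2438362⟩, ⟨2880, true, true, 4552841⟩, ⟨5664, true, false, 1007585⟩]) (.node true 40 2880 (.leaf [⟨5720, true, false, 5168799⟩, ⟨2880, false, true, 3949851⟩, ⟨2880, true, true, 4504735⟩, ⟨2880, true,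 false, 1271118⟩, ⟨5680, true, false, 1882714⟩]) (.leaf [⟨2816, false, false, 5149283⟩, ⟨5720, true, false, 3441281⟩, ⟨2880, false, false, 2643942⟩, ⟨0, false, false, 2771355⟩, ⟨2880, false, true, 2771355⟩]))) (.node true 32 2816 (.node true 48 2880 (.leaf [⟨5712, true, false, 5061170⟩, ⟨2880, true, false, 2602798⟩, ⟨2880, true, true, 4262473⟩, ⟨2880, false, true, 2464015⟩, ⟨5688, true, false, 2386761⟩]) (.leaf [⟨2880, true, true, 3043685⟩, ⟨0, true, false, 4592403⟩, ⟨2880, true, false, 4592403⟩, ⟨5712, true, false, 4548725⟩])) (.leaf [⟨2880, true, false, 4616457⟩, ⟨0, true, false, 4616457⟩, ⟨2880, true, true, 2942660⟩, ⟨5728, true, false, 4601643⟩])))) (.node true 8 2400 (.node true 16 2816 (.node true 24 2880 (.node true 40 2584 (.node true 48 2880 (.leaf [⟨5712, true, false, 4776621⟩, ⟨2880, true, false, 4912189⟩, ⟨2880, true, true, 4020408⟩, ⟨5696, true, false, 3067999⟩]) (.leaf [⟨5736, true, false, 5269357⟩, ⟨2880, true, false, 5161986⟩, ⟨2880, false, false, 4296201⟩,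 ⟨5712, true, false, 2049673⟩])) (.leaf [⟨5736, true, false, 5314280⟩, ⟨2880, false, true, 5326350⟩, ⟨2880, true, true, 4517944⟩, ⟨5720, true, false, 1618641⟩])) (.node true 8 2880 (.node true 16 2880 (.leaf [⟨5744, true, false, 5350577⟩, ⟨2880, true, true, 4366589⟩, ⟨2880, false, true, 5263295⟩, ⟨5736, true, false, 1796754⟩]) (.leaf [⟨5744, true, false, 3460159⟩, ⟨2816, false, false, 4134064⟩, ⟨5752, true, false, 3061075⟩, ⟨2880, false, true, 3194350⟩, ⟨2880, false, false, 2927567⟩])) (.leaf [⟨5752, true, false, 2124657⟩, ⟨2880, true, true, 4175246⟩, ⟨0, true, false, 5238657⟩, ⟨2880, false, true, 5238657⟩]))) (.node true 8 2816 (.node true 8 2880 (.leaf [⟨5752, true, false, 5352099⟩, ⟨2880, true, false, 4988530⟩, ⟨5744, true, false, 2562769⟩, ⟨2880, false, false, 3873819⟩]) (.leaf [⟨5752, true, false, 4685342⟩, ⟨2880, true, true, 2786111⟩, ⟨0, true, false, 4652882⟩, ⟨2880, true, false, 4652882⟩])) (.leaf [⟨5752, true, false, 4685344⟩, ⟨2880, true, false, 4652882⟩,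 ⟨0, true, false, 4652882⟩, ⟨2880, true, true, 2786108⟩]))) (.leaf [⟨0, true, false, 4808375⟩, ⟨2880, true, true, 3644163⟩, ⟨5752, true, false, 3449217⟩, ⟨2880, true, false, 4875462⟩]))) (by decide +kernel)
theorem yo188 : (bN 592 784 592 8924575345).Ok := ok1 (.node true 64 2728 (.node true 96 2880 (.node false 64 2824 (.node false 96 2880 (.leaf [⟨2880, false, true, 2739301⟩, ⟨5664, true, false, 3716448⟩, ⟨2880, false, false, 5109438⟩, ⟨5664, false, false, 1927747⟩, ⟨2880, true, false, 3284282⟩]) (.node false 72 2880 (.leaf [⟨2880, false, true, 4629732⟩, ⟨2880, false, false, 4592636⟩, ⟨5664, false, false, 2924561⟩, ⟨5688, false, false, 2614621⟩, ⟨5664, true, false, 2015665⟩]) (.leaf [⟨2880, false, true, 4595335⟩, ⟨2880, false, false, 4218154⟩, ⟨0, false, false, 4595335⟩, ⟨5688, false, false, 3368392⟩]))) (.leaf [⟨2880, false, true, 4588747⟩, ⟨2880, false, false, 4235803⟩, ⟨0, false, false, 4588747⟩, ⟨5696, false, false, 3363919⟩])) (.node true 72 2880 (.node false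 64 2824 (.node false 96 2880 (.node true 80 2584 (.node true 88 2880 (.leaf [⟨5672, true, false, 3705741⟩, ⟨2880, false, true, 5610720⟩, ⟨2880, true, true, 4780466⟩, ⟨5664, false, false, 1630452⟩, ⟨5664, true, false, 1049837⟩]) (.leaf [⟨2880, true, false, 5389979⟩, ⟨5688, true, false, 3914388⟩, ⟨2880, false, false, 4657285⟩, ⟨5672, true, false, 1540082⟩, ⟨5664, false, false, 1275482⟩])) (.leaf [⟨5688, true, false, 3924094⟩, ⟨2880, true, true, 4794096⟩, ⟨5680, true, false, 1137942⟩, ⟨2880, false, true, 5554383⟩, ⟨5664, false, false, 1366701⟩])) (.leaf [⟨2880, false, true, 4751721⟩, ⟨2880, false, false, 2978492⟩, ⟨5688, true, false, 2795118⟩, ⟨5664, false, false, 2708634⟩, ⟨5664, true, false, 2464646⟩, ⟨0, false, false, 1078605⟩])) (.leaf [⟨5696, false, false, 3363919⟩, ⟨2880, false, true, 4588747⟩, ⟨2880, false, false, 4235803⟩, ⟨0, false, false, 4588747⟩])) (.node true 32 2880 (.node false 720 2640 (.node false 64 2880 (.node false 96 2880 (.node false 112 2880 (.node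 false 120 2880 (.node false 160 2880 (.node false 176 2880 (.node false 184 2880 (.node false 192 2880 (.node false 232 2880 (.node false 248 2880 (.node false 256 2880 (.node false 264 2880 (.node false 376 2880 (.node false 432 2880 (.node false 456 2880 (.node false 472 2880 (.node false 720 2816 (.node false 720 2880 (.leaf [⟨5728, true, false, 5186291⟩, ⟨2880, false, false, 5343625⟩, ⟨2880, true, false, 4579176⟩, ⟨2880, false, true, 933891⟩, ⟨5688, true, false, 734234⟩]) (.leaf [⟨5728, true, false, 4952927⟩, ⟨2880, true, false, 5484390⟩, ⟨2880, false, false, 5640813⟩, ⟨2760, true, false, 699086⟩])) (.leaf [⟨5728, true, false, 4903768⟩, ⟨2880, true, false, 5436432⟩, ⟨2880, false, false, 5390842⟩, ⟨2760, true, false, 1046174⟩])) (.leaf [⟨2880, true, true, 5583027⟩, ⟨2880, true, false, 4625429⟩, ⟨5728, true, false, 4086258⟩, ⟨2744, true, false, 2482502⟩])) (.leaf [⟨2880, true, true, 5632174⟩, ⟨2880, true, false, 4604747⟩, ⟨5728, true, false, 4064142⟩, ⟨2720, true,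 false, 2476153⟩])) (.leaf [⟨2880, true, true, 7387088⟩, ⟨2880, true, false, 3713062⟩, ⟨5728, true, false, 3121253⟩, ⟨5472, false, false, 2555813⟩])) (.leaf [⟨2880, true, true, 7344894⟩, ⟨2880, true, false, 3764591⟩, ⟨5728, true, false, 2967876⟩, ⟨5496, false, false, 2699855⟩])) (.leaf [⟨2880, true, true, 7329561⟩, ⟨2880, true, false, 3782997⟩, ⟨5728, true, false, 2912742⟩, ⟨5504, false, false, 2751916⟩])) (.leaf [⟨2880, true, true, 7313528⟩, ⟨2880, true, false, 3802083⟩, ⟨5728, true, false, 2855395⟩, ⟨5512, false, false, 2806210⟩])) (.leaf [⟨2880, true, true, 7279180⟩, ⟨2880, true, false, 3842470⟩, ⟨5728, true, false, 2733489⟩, ⟨5528, false, false, 2922076⟩])) (.leaf [⟨2880, true, true, 7177426⟩, ⟨2880, true, false, 3958890⟩, ⟨5728, true, false, 2378467⟩, ⟨5568, false, false, 3262433⟩])) (.leaf [⟨2880, true, true, 7153810⟩, ⟨2880, true, false, 3985354⟩, ⟨5728, true, false, 2297129⟩, ⟨5576, false, false, 3340923⟩])) (.leaf [⟨2880, true, true, 4814011⟩, ⟨2880, true,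 false, 4353190⟩, ⟨5728, true, false, 3588083⟩, ⟨5688, true, false, 3005556⟩, ⟨5584, false, false, 1016377⟩])) (.leaf [⟨2880, true, true, 4780586⟩, ⟨2880, true, false, 4375664⟩, ⟨5728, true, false, 3538126⟩, ⟨5688, true, false, 3024609⟩, ⟨5600, false, false, 1058231⟩])) (.leaf [⟨2880, true, true, 4682828⟩, ⟨2880, true, false, 4440785⟩, ⟨5728, true, false, 3392202⟩, ⟨5688, true, false, 3079619⟩, ⟨5640, false, false, 1181781⟩])) (.leaf [⟨2880, true, true, 4660335⟩, ⟨2880, true, false, 4455666⟩, ⟨5688, true, false, 3092146⟩, ⟨5728, true, false, 3358655⟩, ⟨5648, false, false, 1210414⟩])) (.leaf [⟨5688, true, false, 4643742⟩, ⟨2880, true, false, 3583050⟩, ⟨2880, true, true, 3145673⟩, ⟨5728, true, false, 3695385⟩, ⟨5648, false, false, 1709367⟩])) (.leaf [⟨5688, true, false, 4624513⟩, ⟨2880, true, false, 3573027⟩, ⟨2880, true, true, 3172945⟩, ⟨5728, true, false, 3721848⟩, ⟨5664, false, false, 1684882⟩])) (.leaf [⟨5688, true, false, 3602302⟩, ⟨5696, false, false, 3739184⟩,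 ⟨2880, false, true, 3596442⟩, ⟨5728, true, false, 3194121⟩, ⟨2880, false, false, 2645167⟩])) (.leaf [⟨2880, true, false, 3256877⟩, ⟨2880, true, true, 4416126⟩, ⟨5728, true, false, 2848648⟩, ⟨5688, true, false, 2557538⟩, ⟨0, false, false, 1892402⟩, ⟨2880, false, true, 1805626⟩])) (.leaf [⟨0, true, false, 4375595⟩, ⟨2880, true, true, 3260823⟩, ⟨2880, true, false, 4375595⟩, ⟨5728, true, false, 4765204⟩])))) (.node true 8 2400 (.node true 16 2728 (.node true 24 2880 (.node true 40 2496 (.node true 48 2880 (.leaf [⟨5712, true, false, 3774045⟩, ⟨2880, true, true, 4290759⟩, ⟨2880, true, false, 2448861⟩, ⟨5696, true, false, 2456415⟩, ⟨2880, false, true, 2667136⟩, ⟨0, false, false, 1139999⟩]) (.leaf [⟨5736, true, false, 5044400⟩, ⟨2880, true, false, 1164908⟩, ⟨2880, true, true, 4641187⟩, ⟨5712, true, false, 2082254⟩, ⟨2880, false, true, 3844466⟩])) (.leaf [⟨5736, true, false, 5043636⟩, ⟨2880, true, false, 5016507⟩, ⟨2880, false, false, 3837673⟩, ⟨5720, true, false, 2096089⟩,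 ⟨2880, true, true, 783311⟩])) (.node true 8 2880 (.node true 16 2880 (.leaf [⟨5744, true, false, 4554483⟩, ⟨2880, true, true, 4005289⟩, ⟨2880, true, false, 4650762⟩, ⟨5736, true, false, 3566682⟩]) (.leaf [⟨2880, true, false, 4479668⟩, ⟨5752, true, false, 4346024⟩, ⟨5744, true, false, 4650393⟩, ⟨2880, true, true, 3301130⟩])) (.leaf [⟨5752, true, false, 4620598⟩, ⟨0, true, false, 4378245⟩, ⟨2880, true, true, 3291201⟩, ⟨2880, true, false, 4487172⟩]))) (.node true 8 2728 (.node true 8 2880 (.leaf [⟨5752, true, false, 4562022⟩, ⟨2880, true, false, 4641073⟩, ⟨5744, true, false, 3632035⟩, ⟨2880, true, true, 3942086⟩]) (.leaf [⟨5752, true, false, 4620598⟩, ⟨0, true, false, 4378245⟩, ⟨2880, true, true, 3291201⟩, ⟨2880, true, false, 4487172⟩])) (.leaf [⟨5752, true, false, 4620598⟩, ⟨0, true, false, 4378245⟩, ⟨2880, true, false, 4487172⟩, ⟨2880, true, true, 3291201⟩]))) (.leaf [⟨0, true, false, 4569777⟩, ⟨2880, true, true, 3878713⟩, ⟨5752, true, false, 3696778⟩, ⟨2880, true,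 false, 4631947⟩]))) (by decide +kernel)
theorem yo149 : (bN 476 1008 476 9055621506).Ok := ok1 (.node true 4 2640 (.node true 28 2880 (.node true 40 2640 (.node true 44 2880 (.node true 48 2660 (.node true 60 2876 (.node true 68 2880 (.node true 72 2672 (.node false 4 2876 (.node false 40 2880 (.leaf [⟨5692, true, false, 5690650⟩, ⟨2880, false, true, 1978829⟩, ⟨2880, false, false, 5285325⟩, ⟨2880, true, false, 3281124⟩, ⟨5720, false, false, 541287⟩]) (.leaf [⟨2880, false, true, 4661021⟩, ⟨5720, false, false, 3937475⟩, ⟨5692, true, false, 4642931⟩, ⟨2880, false, false, 3535790⟩])) (.leaf [⟨2880, false, true, 4688908⟩, ⟨5756, false, false, 3684071⟩, ⟨5692, true, false, 4784523⟩, ⟨2880, false, false, 3619715⟩])) (.leaf [⟨5692, true, false, 5918028⟩, ⟨5688, true, false, 2301723⟩, ⟨2880, false, false, 4813020⟩, ⟨2880, true, false, 3744445⟩])) (.leaf [⟨2880, true, true, 4323143⟩, ⟨5692, true, false, 3022400⟩, ⟨5700, true, false, 2825390⟩, ⟨5716, true, false, 2768120⟩, ⟨2880,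 false, true, 3380979⟩, ⟨2880, false, false, 457184⟩])) (.leaf [⟨5700, true, false, 3085464⟩, ⟨2880, true, true, 1094098⟩, ⟨5716, true, false, 5493375⟩, ⟨2880, true, false, 3380171⟩, ⟨2880, false, false, 3724108⟩])) (.leaf [⟨5716, true, false, 5745474⟩, ⟨5712, true, false, 2012954⟩, ⟨2880, true, false, 3963437⟩, ⟨2880, false, false, 5055350⟩])) (.leaf [⟨5716, true, false, 3254306⟩, ⟨2880, true, true, 4791849⟩, ⟨5720, true, false, 2580113⟩, ⟨5732, true, false, 2586694⟩, ⟨2880, false, true, 3435227⟩, ⟨28, false, false, 129027⟩])) (.node true 32 2520 (.node true 36 2880 (.leaf [⟨5724, true, false, 5383482⟩, ⟨5720, true, false, 3132067⟩, ⟨2880, true, true, 1205151⟩, ⟨2880, true, false, 3420195⟩, ⟨2880, false, false, 3636321⟩]) (.leaf [⟨5724, true, false, 3838295⟩, ⟨2880, true, true, 1983258⟩, ⟨2880, true, false, 3677120⟩, ⟨5732, true, false, 3946354⟩, ⟨2880, false, false, 2452811⟩, ⟨28, false, false, 879379⟩])) (.leaf [⟨5728, true, false, 3241524⟩, ⟨5732, true, false,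 5178305⟩, ⟨2880, true, true, 4837793⟩, ⟨2880, false, true, 3447661⟩, ⟨28, false, false, 71933⟩]))) (.node true 8 2880 (.node true 12 2640 (.node true 16 2880 (.node true 20 2644 (.node true 24 2880 (.leaf [⟨5732, true, false, 3947435⟩, ⟨2880, true, true, 4371874⟩, ⟨5736, true, false, 3669686⟩, ⟨2880, true, false, 1510056⟩, ⟨2880, false, true, 2250196⟩, ⟨24, false, false, 1027968⟩]) (.node false 240 2876 (.node false 360 2880 (.leaf [⟨2880, true, true, 2301445⟩, ⟨5736, true, false, 4059619⟩, ⟨5740, true, false, 1942410⟩, ⟨2880, true, false, 3827202⟩, ⟨5744, true, false, 1455386⟩, ⟨2880, false, false, 2027307⟩, ⟨16, false, false, 1163847⟩]) (.leaf [⟨5736, true, false, 4360010⟩, ⟨2876, true, false, 3293944⟩, ⟨2880, true, false, 2379500⟩, ⟨5520, false, false, 3308569⟩, ⟨2880, true, true, 2506992⟩, ⟨5744, true, false, 928201⟩])) (.leaf [⟨5736, true, false, 4303379⟩, ⟨0, false, false, 4293773⟩, ⟨2880, true, true, 4236298⟩, ⟨2880, true, false, 3943767⟩]))) (.leaf [⟨5740,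 true, false, 4064766⟩, ⟨2880, true, true, 4327118⟩, ⟨5744, true, false, 3364495⟩, ⟨2880, true, false, 1834241⟩, ⟨2880, false, true, 2014694⟩, ⟨16, false, false, 1171902⟩])) (.node false 240 2876 (.node false 360 2880 (.node false 420 2820 (.node false 452 2876 (.leaf [⟨5744, true, false, 3823080⟩, ⟨2880, true, true, 3763532⟩, ⟨2880, true, false, 1903216⟩, ⟨5748, true, false, 1984563⟩, ⟨5752, true, false, 1892202⟩, ⟨2856, true, false, 1659056⟩, ⟨2880, false, true, 1751567⟩]) (.leaf [⟨2880, true, true, 2321821⟩, ⟨5744, true, false, 3433146⟩, ⟨2880, true, false, 2933784⟩, ⟨5752, true, false, 2142674⟩, ⟨2820, true, false, 5945790⟩])) (.leaf [⟨2880, true, true, 5408314⟩, ⟨2764, true, false, 6388426⟩, ⟨2880, true, false, 3144021⟩, ⟨5752, true, false, 1836455⟩])) (.leaf [⟨5744, true, false, 4358356⟩, ⟨2876, true, false, 3285966⟩, ⟨2880, true, false, 2677646⟩, ⟨5520, false, false, 3342012⟩, ⟨5752, true, false, 846116⟩, ⟨2880, true, true, 2267120⟩])) (.leaf [⟨0, false, false,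 4355028⟩, ⟨2880, true, false, 3964358⟩, ⟨2880, true, true, 4256290⟩, ⟨5744, true, false, 4201540⟩]))) (.leaf [⟨5748, true, false, 4124136⟩, ⟨2880, true, true, 4281979⟩, ⟨5752, true, false, 3032836⟩, ⟨2880, true, false, 2154290⟩, ⟨8, false, false, 1349776⟩, ⟨2880, false, true, 1834199⟩])) (.node false 240 2876 (.node false 360 2880 (.node false 420 2880 (.leaf [⟨5752, true, false, 3794828⟩, ⟨2880, true, true, 2743693⟩, ⟨2880, true, false, 3708757⟩, ⟨5756, true, false, 1904293⟩, ⟨0, true, false, 1934267⟩, ⟨2880, false, false, 1801122⟩, ⟨2824, true, false, 890255⟩]) (.leaf [⟨2880, true, true, 5450948⟩, ⟨2764, true, false, 6349592⟩, ⟨2880, true, false, 3117864⟩, ⟨0, true, false, 1858813⟩])) (.leaf [⟨5752, true, false, 4357892⟩, ⟨2880, true, false, 2495491⟩, ⟨2876, true, false, 3278388⟩, ⟨2880, true, true, 2506400⟩, ⟨5520, false, false, 3375547⟩, ⟨0, true, false, 763499⟩])) (.leaf [⟨0, false, false, 4415894⟩, ⟨2880, true, false, 3984060⟩, ⟨5752, true, false, 4101329⟩,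 ⟨2880, true, true, 4275934⟩])))) (.node false 240 2876 (.node false 360 2880 (.node false 420 2880 (.leaf [⟨5756, true, false, 3784050⟩, ⟨2880, true, true, 4540639⟩, ⟨0, true, false, 3803750⟩, ⟨2880, true, false, 1944299⟩, ⟨2880, false, true, 1796322⟩, ⟨2824, true, false, 908157⟩]) (.leaf [⟨2880, true, true, 5450948⟩, ⟨2764, true, false, 6349592⟩, ⟨2880, true, false, 3117864⟩, ⟨0, true, false, 1858813⟩])) (.leaf [⟨5756, true, false, 4051879⟩, ⟨2880, true, false, 3993583⟩, ⟨2880, true, true, 4285614⟩, ⟨0, false, false, 4446140⟩])) (.leaf [⟨0, false, false, 4446140⟩, ⟨2880, true, false, 3993583⟩, ⟨2880, true, true, 4285614⟩, ⟨5756, true, false, 4051879⟩]))) (by decide +kernel)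
theorem yo148 : (bN 468 1028 468 9064948200).Ok := ok1 (.node true 4 2640 (.node true 8 2880 (.node true 12 2644 (.node true 44 2876 (.node true 60 2880 (.node true 68 2668 (.node true 72 2880 (.leaf [⟨5688, true, false, 6042262⟩, ⟨2880, false, true, 5144025⟩, ⟨2880, false, false, 2218883⟩, ⟨2880, true, true, 3047528⟩, ⟨0, false, false, 324517⟩]) (.leaf [⟨2880, true, true, 4043598⟩, ⟨5688, true, false, 2766682⟩, ⟨5700, true, false, 5761199⟩, ⟨2880, false, true, 3423096⟩, ⟨2880, false, false, 782641⟩])) (.leaf [⟨5700, true, false, 5757067⟩, ⟨2880, true, true, 4046130⟩, ⟨5692, true, false, 2764297⟩, ⟨2880, false, true, 3433327⟩, ⟨2880, false, false, 776395⟩])) (.node true 48 2880 (.leaf [⟨5712, true, false, 5613561⟩, ⟨5700, true, false, 2866484⟩, ⟨2880, true, true, 4258199⟩, ⟨2880, false, true, 3414446⟩, ⟨2880, false, false, 624526⟩]) (.node false 240 2880 (.node false 360 2764 (.node false 420 2880 (.leaf [⟨2880, true, true, 3462944⟩, ⟨5716, true, false, 4607094⟩,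 ⟨2880, true, false, 1415802⟩, ⟨2876, false, false, 4004419⟩, ⟨2832, true, false, 1545164⟩, ⟨2880, false, false, 1741792⟩]) (.leaf [⟨2880, true, true, 5618140⟩, ⟨5712, true, false, 1420072⟩, ⟨2880, true, false, 2930433⟩, ⟨5520, false, false, 6808571⟩])) (.leaf [⟨2880, true, true, 5618140⟩, ⟨5712, true, false, 1420072⟩, ⟨5520, false, false, 6808571⟩, ⟨2880, true, false, 2930433⟩])) (.leaf [⟨5712, true, false, 4477718⟩, ⟨2880, true, true, 4183981⟩, ⟨0, false, false, 4328897⟩, ⟨2880, true, false, 3786620⟩])))) (.node true 16 2876 (.node true 20 2880 (.node true 24 2648 (.node true 32 2880 (.node true 36 2652 (.leaf [⟨5716, true, false, 3564758⟩, ⟨2880, true, true, 1745419⟩, ⟨2880, true, false, 3584740⟩, ⟨5728, true, false, 4317641⟩, ⟨2880, false, false, 2876774⟩, ⟨0, false, false, 687884⟩]) (.leaf [⟨5728, true, false, 5002825⟩, ⟨5724, true, false, 3198099⟩, ⟨2880, true, true, 4804405⟩, ⟨2880, false, true, 3506453⟩, ⟨32, false, false, 265433⟩])) (.node true 28 2880 (.leaf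 [⟨5732, true, false, 5007376⟩, ⟨5728, true, false, 3197641⟩, ⟨2880, true, true, 4836732⟩, ⟨2880, false, true, 3502967⟩, ⟨28, false, false, 232500⟩]) (.leaf [⟨5732, true, false, 3939944⟩, ⟨2880, true, true, 4385234⟩, ⟨2880, true, false, 1538757⟩, ⟨2880, false, true, 2266148⟩, ⟨5740, true, false, 3482316⟩, ⟨20, false, false, 1164817⟩]))) (.leaf [⟨5736, true, false, 3965208⟩, ⟨2880, true, true, 4355692⟩, ⟨5740, true, false, 3403393⟩, ⟨2880, true, false, 1618313⟩, ⟨2880, false, true, 2221811⟩, ⟨20, false, false, 1212799⟩])) (.node false 240 2880 (.node false 360 2880 (.node false 420 2824 (.leaf [⟨2880, true, true, 2368279⟩, ⟨5740, true, false, 3677208⟩, ⟨2880, true, false, 3557836⟩, ⟨5744, true, false, 2104134⟩, ⟨5752, true, false, 1915524⟩, ⟨2880, false, false, 2389426⟩, ⟨5400, false, false, 764808⟩]) (.leaf [⟨2880, true, true, 5263682⟩, ⟨2772, true, false, 6730262⟩, ⟨2880, true, false, 3160153⟩, ⟨5752, true, false, 1623119⟩])) (.leaf [⟨2880, true, true, 5612952⟩, ⟨5520,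 false, false, 6830197⟩, ⟨5740, true, false, 1377045⟩, ⟨2880, true, false, 2957022⟩])) (.leaf [⟨0, false, false, 4524031⟩, ⟨5740, true, false, 4144307⟩, ⟨2880, true, true, 4243131⟩, ⟨2880, true, false, 3865747⟩]))) (.node false 240 2880 (.node false 360 2880 (.node false 420 2824 (.leaf [⟨5744, true, false, 3689693⟩, ⟨2880, true, true, 2389863⟩, ⟨2880, true, false, 3578003⟩, ⟨5748, true, false, 2078564⟩, ⟨5752, true, false, 1897979⟩, ⟨2880, false, false, 2362753⟩, ⟨5400, false, false, 780361⟩]) (.leaf [⟨2880, true, true, 5263682⟩, ⟨2772, true, false, 6730262⟩, ⟨2880, true, false, 3160153⟩, ⟨5752, true, false, 1623119⟩])) (.leaf [⟨2880, true, true, 5612199⟩, ⟨5744, true, false, 1371208⟩, ⟨5520, false, false, 6833137⟩, ⟨2880, true, false, 2960672⟩])) (.leaf [⟨0, false, false, 4551727⟩, ⟨5744, true, false, 4097917⟩, ⟨2880, true, false, 3876221⟩, ⟨2880, true, true, 4251352⟩])))) (.leaf [⟨5748, true, false, 4111412⟩, ⟨2880, true, true, 4294106⟩, ⟨2880, true, false, 2058572⟩,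 ⟨5752, true, false, 2984408⟩, ⟨8, false, false, 1408352⟩, ⟨2880, false, true, 1920367⟩])) (.node false 240 2880 (.node false 360 2880 (.node false 420 2824 (.node false 452 2880 (.leaf [⟨5752, true, false, 3876013⟩, ⟨2880, true, true, 4368866⟩, ⟨2880, true, false, 2326457⟩, ⟨0, true, false, 3429089⟩, ⟨2864, true, false, 1314262⟩, ⟨2880, false, true, 1462529⟩]) (.leaf [⟨2880, true, true, 2403932⟩, ⟨2824, true, false, 6079574⟩, ⟨5752, true, false, 3522405⟩, ⟨2880, true, false, 2886314⟩, ⟨0, true, false, 1884991⟩])) (.leaf [⟨2880, true, true, 5301851⟩, ⟨2772, true, false, 6695891⟩, ⟨0, true, false, 1642975⟩, ⟨2880, true, false, 3136499⟩])) (.leaf [⟨2880, true, true, 5610686⟩, ⟨5752, true, false, 1359749⟩, ⟨2880, true, false, 2967867⟩, ⟨5520, false, false, 6838914⟩])) (.leaf [⟨0, false, false, 4606848⟩, ⟨2880, true, false, 3896555⟩, ⟨2880, true, true, 4267587⟩, ⟨5752, true, false, 4006226⟩]))) (.node false 240 2880 (.node false 360 2880 (.leaf [⟨5756, true, false, 4196089⟩,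 ⟨2880, true, true, 4215744⟩, ⟨2880, true, false, 2459622⟩, ⟨0, true, false, 2577920⟩, ⟨0, false, false, 1637824⟩, ⟨2880, false, true, 1690017⟩]) (.leaf [⟨2880, true, true, 5609926⟩, ⟨5756, true, false, 1354128⟩, ⟨5520, false, false, 6841751⟩, ⟨2880, true, false, 2971412⟩])) (.leaf [⟨0, false, false, 4634247⟩, ⟨2880, true, false, 3906419⟩, ⟨2880, true, true, 4275595⟩, ⟨5756, true, false, 3960955⟩]))) (by decide +kernel)
theorem yo142 : (bN 452 1060 452 9125098973).Ok := ok1 (.node true 4 2640 (.node true 16 2880 (.node true 24 2652 (.node true 28 2876 (.node true 52 2880 (.node true 64 2668 (.node true 68 2876 (.node true 72 2880 (.leaf [⟨5688, true, false, 6495233⟩, ⟨2880, false, true, 4900994⟩, ⟨2880, false, false, 2431069⟩, ⟨2880, true, true, 2949920⟩]) (.leaf [⟨2880, true, true, 4051649⟩, ⟨5688, true, false, 2516141⟩, ⟨2880, false, true, 3459133⟩, ⟨5708, true, false, 5781932⟩, ⟨2880, false, false, 968361⟩])) (.leaf [⟨2880, true, true, 4053893⟩, ⟨5692, true, false,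 2514397⟩, ⟨2880, false, true, 3468490⟩, ⟨5708, true, false, 5777976⟩, ⟨2880, false, false, 962461⟩])) (.leaf [⟨5708, true, false, 5774017⟩, ⟨2880, true, true, 4056122⟩, ⟨5696, true, false, 2512668⟩, ⟨2880, false, true, 3477833⟩, ⟨2880, false, false, 956576⟩])) (.node true 32 2880 (.node true 36 2664 (.node true 40 2880 (.leaf [⟨5720, true, false, 5633883⟩, ⟨5708, true, false, 2611838⟩, ⟨2880, true, true, 771216⟩, ⟨2880, true, false, 3471068⟩, ⟨2880, false, false, 4289211⟩]) (.leaf [⟨5720, true, false, 2654592⟩, ⟨2880, true, true, 4333676⟩, ⟨5724, true, false, 2984482⟩, ⟨5728, true, false, 2575933⟩, ⟨2880, false, true, 3485919⟩, ⟨2880, false, false, 742614⟩])) (.leaf [⟨5728, true, false, 5534044⟩, ⟨5724, true, false, 2670012⟩, ⟨2880, true, true, 875578⟩, ⟨2880, true, false, 3490938⟩, ⟨2880, false, false, 4206644⟩])) (.node false 240 2880 (.node false 360 2772 (.leaf [⟨2880, true, true, 1940342⟩, ⟨5728, true, false, 3421199⟩, ⟨5732, true, false, 2458462⟩, ⟨2880, true,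 false, 3590369⟩, ⟨5744, true, false, 1734060⟩, ⟨2880, false, false, 2853990⟩, ⟨5520, false, false, 778794⟩]) (.leaf [⟨2880, true, true, 5334321⟩, ⟨5520, false, false, 8184103⟩, ⟨2880, true, false, 3258792⟩])) (.leaf [⟨0, false, false, 4790918⟩, ⟨5728, true, false, 4111541⟩, ⟨2880, true, true, 4166253⟩, ⟨2880, true, false, 3708504⟩])))) (.node false 240 2880 (.node false 360 2772 (.leaf [⟨2880, true, true, 1968042⟩, ⟨5732, true, false, 3442228⟩, ⟨5736, true, false, 2433021⟩, ⟨2880, true, false, 3608066⟩, ⟨5744, true, false, 1709783⟩, ⟨2880, false, false, 2819636⟩, ⟨5520, false, false, 796441⟩]) (.leaf [⟨2880, true, true, 5334321⟩, ⟨5520, false, false, 8184103⟩, ⟨2880, true, false, 3258792⟩])) (.leaf [⟨0, false, false, 4814493⟩, ⟨5732, true, false, 4070797⟩, ⟨2880, true, true, 4172202⟩, ⟨2880, true, false, 3719725⟩]))) (.node true 20 2536 (.node false 240 2880 (.leaf [⟨2880, true, true, 2067843⟩, ⟨5736, true, false, 3884371⟩, ⟨5740, true, false, 2213613⟩, ⟨2880, true,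 false, 3918119⟩, ⟨5744, true, false, 1023016⟩, ⟨2880, false, false, 2310290⟩, ⟨16, false, false, 1359964⟩]) (.leaf [⟨5736, true, false, 4030308⟩, ⟨0, false, false, 4838028⟩, ⟨2880, true, true, 4178112⟩, ⟨2880, true, false, 3730767⟩])) (.node false 240 2880 (.leaf [⟨5740, true, false, 3935249⟩, ⟨5744, true, false, 3114033⟩, ⟨2880, true, false, 3959826⟩, ⟨2880, true, true, 2116924⟩, ⟨2880, false, false, 2227799⟩, ⟨16, false, false, 1423384⟩]) (.leaf [⟨5740, true, false, 3990086⟩, ⟨2880, true, true, 4183983⟩, ⟨0, false, false, 4861514⟩, ⟨2880, true, false, 3741632⟩])))) (.node true 8 2880 (.node true 12 2652 (.node false 240 2880 (.node false 360 2772 (.node false 420 2880 (.leaf [⟨2880, true, true, 4355664⟩, ⟨5744, true, false, 3827606⟩, ⟨2880, true, false, 2035621⟩, ⟨5748, true, false, 2204474⟩, ⟨2848, true, false, 1420595⟩, ⟨5752, true, false, 1253086⟩, ⟨2880, false, true, 1680169⟩]) (.leaf [⟨2880, true, true, 2069798⟩, ⟨5744, true, false, 4010083⟩, ⟨2880, true, false,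 3104044⟩, ⟨2772, true, false, 6180697⟩, ⟨5752, true, false, 1412594⟩])) (.leaf [⟨2880, true, true, 5334321⟩, ⟨5520, false, false, 8184103⟩, ⟨2880, true, false, 3258792⟩])) (.leaf [⟨0, false, false, 4884943⟩, ⟨5744, true, false, 3950141⟩, ⟨2880, true, false, 3752320⟩, ⟨2880, true, true, 4189812⟩])) (.node false 240 2880 (.node false 360 2880 (.leaf [⟨5752, true, false, 3763164⟩, ⟨5748, true, false, 3677415⟩, ⟨2880, true, true, 4545308⟩, ⟨2880, true, false, 1560160⟩, ⟨2880, false, true, 2125901⟩, ⟨2788, true, false, 1105269⟩]) (.leaf [⟨2880, true, true, 5334321⟩, ⟨5520, false, false, 8184103⟩, ⟨2880, true, false, 3258792⟩])) (.leaf [⟨0, false, false, 4908304⟩, ⟨5748, true, false, 3910482⟩, ⟨2880, true, true, 4195597⟩, ⟨2880, true, false, 3762833⟩]))) (.node false 240 2880 (.node false 360 2880 (.leaf [⟨5752, true, false, 3738795⟩, ⟨2880, true, true, 4504734⟩, ⟨2880, true, false, 1728717⟩, ⟨5756, true, false, 2213584⟩, ⟨0, true, false, 1412809⟩, ⟨2880, false, true, 1998063⟩,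 ⟨2788, true, false, 1180514⟩]) (.leaf [⟨2880, true, true, 5334321⟩, ⟨5520, false, false, 8184103⟩, ⟨2880, true, false, 3258792⟩])) (.leaf [⟨0, false, false, 4931590⟩, ⟨2880, true, false, 3773170⟩, ⟨2880, true, true, 4201336⟩, ⟨5752, true, false, 3871120⟩])))) (.node false 240 2880 (.node false 360 2880 (.leaf [⟨5756, true, false, 3751677⟩, ⟨2880, true, true, 4492407⟩, ⟨0, true, false, 3581737⟩, ⟨2880, true, false, 1781156⟩, ⟨2880, false, true, 1970161⟩, ⟨2788, true, false, 1200078⟩]) (.leaf [⟨2880, true, true, 5334321⟩, ⟨5520, false, false, 8184103⟩, ⟨2880, true, false, 3258792⟩])) (.leaf [⟨0, false, false, 4954791⟩, ⟨2880, true, false, 3783333⟩, ⟨5756, true, false, 3832064⟩, ⟨2880, true, true, 4207027⟩]))) (by decide +kernel)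
theorem yo139 : (bN 492 972 492 9030984537).Ok := ok1 (.node true 8 2632 (.node true 12 2880 (.node true 16 2636 (.node true 44 2880 (.node true 60 2400 (.node true 68 2656 (.node true 72 2880 (.node false 8 2872 (.node false 12 2880 (.node false 16 2880 (.node false 44 2880 (.leaf [⟨5688, true, false, 4907062⟩, ⟨2880, false, true, 5522939⟩, ⟨2880, false, false, 1520560⟩, ⟨2880, true, true, 3693812⟩, ⟨5716, false, false, 1132843⟩]) (.leaf [⟨2880, false, true, 4926103⟩, ⟨5716, false, false, 3255026⟩, ⟨5688, true, false, 4889672⟩, ⟨2880, false, false, 3706415⟩])) (.leaf [⟨2880, false, true, 4929732⟩, ⟨5744, false, false, 3156258⟩, ⟨2880, false, false, 3755863⟩, ⟨5688, true, false, 4935363⟩])) (.leaf [⟨2880, false, true, 4930147⟩, ⟨5748, false, false, 3142843⟩, ⟨2880, false, false, 3762631⟩, ⟨5688, true, false, 4941595⟩])) (.leaf [⟨2880, false, true, 4930537⟩, ⟨5752, false, false, 3129593⟩, ⟨2880, false, false, 3769328⟩, ⟨5688, true, false, 4947758⟩])) (.leaf [⟨5688,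 true, false, 3354300⟩, ⟨5716, true, false, 2869903⟩, ⟨2880, true, true, 1224886⟩, ⟨5692, true, false, 2621945⟩, ⟨2880, true, false, 3342833⟩, ⟨2880, false, false, 3363349⟩])) (.node true 64 2656 (.leaf [⟨5692, true, false, 3348909⟩, ⟨2880, true, true, 4600870⟩, ⟨5716, true, false, 2866143⟩, ⟨5696, true, false, 2602561⟩, ⟨2880, false, true, 3358733⟩]) (.node false 488 2872 (.leaf [⟨5716, true, false, 5155118⟩, ⟨2880, false, true, 5209669⟩, ⟨2872, true, false, 5331908⟩, ⟨2880, false, false, 1080521⟩]) (.leaf [⟨5696, true, false, 4147893⟩, ⟨2880, true, true, 4283684⟩, ⟨2880, true, false, 4061955⟩, ⟨0, false, false, 4283684⟩])))) (.node true 48 2640 (.leaf [⟨5700, true, false, 3257958⟩, ⟨2880, true, true, 4675598⟩, ⟨5716, true, false, 2878717⟩, ⟨5712, true, false, 2529646⟩, ⟨2880, false, true, 3435296⟩]) (.leaf [⟨5716, true, false, 5388069⟩, ⟨5712, true, false, 3207928⟩, ⟨2880, true, true, 4688466⟩, ⟨2880, false, true, 3492753⟩]))) (.node true 20 2880 (.node true 24 2640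 (.node true 28 2880 (.node true 36 2644 (.node true 40 2880 (.leaf [⟨5720, true, false, 5357609⟩, ⟨5716, true, false, 3163408⟩, ⟨2880, true, true, 4726335⟩, ⟨2880, false, true, 3529863⟩]) (.node false 488 2872 (.leaf [⟨5732, true, false, 4737954⟩, ⟨5720, true, false, 1424248⟩, ⟨2880, false, true, 4621605⟩, ⟨2872, true, false, 5993410⟩]) (.leaf [⟨5720, true, false, 4248011⟩, ⟨2880, true, true, 4209658⟩, ⟨2880, true, false, 4109888⟩, ⟨0, false, false, 4209659⟩]))) (.node true 32 2644 (.leaf [⟨5724, true, false, 3840677⟩, ⟨2880, true, true, 2117714⟩, ⟨2880, true, false, 3627586⟩, ⟨5732, true, false, 2191614⟩, ⟨5728, true, false, 2048297⟩, ⟨2880, false, false, 2346661⟩, ⟨0, false, false, 604667⟩]) (.leaf [⟨5732, true, false, 5132681⟩, ⟨5728, true, false, 3516924⟩, ⟨2880, true, true, 1717005⟩, ⟨2880, true, false, 3419524⟩, ⟨2880, false, false, 2991083⟩]))) (.node false 488 2872 (.leaf [⟨5732, true, false, 2699050⟩, ⟨2880, true, false, 4121966⟩, ⟨5740, true, false, 4338661⟩,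 ⟨2872, true, false, 2616365⟩, ⟨2880, false, false, 3001173⟩]) (.leaf [⟨5732, true, false, 4296786⟩, ⟨2880, true, true, 4172953⟩, ⟨2880, true, false, 4134524⟩, ⟨0, false, false, 4172953⟩]))) (.node false 488 2872 (.leaf [⟨5740, true, false, 4809731⟩, ⟨5736, true, false, 1708041⟩, ⟨2880, true, true, 4525715⟩, ⟨2872, true, false, 1280724⟩, ⟨2880, false, true, 4453005⟩]) (.leaf [⟨5736, true, false, 4312853⟩, ⟨2880, true, true, 4160767⟩, ⟨2880, true, false, 4142829⟩, ⟨0, false, false, 4160767⟩]))) (.node false 488 2872 (.leaf [⟨5740, true, false, 3203467⟩, ⟨2880, true, false, 3945962⟩, ⟨5748, true, false, 4177822⟩, ⟨2872, true, false, 3052722⟩, ⟨2880, false, false, 2397243⟩]) (.leaf [⟨5740, true, false, 4323523⟩, ⟨2880, true, false, 4151231⟩, ⟨2880, true, true, 4151231⟩, ⟨0, false, false, 4151231⟩])))) (.node false 488 2872 (.leaf [⟨5748, true, false, 4118767⟩, ⟨5744, true, false, 3375811⟩, ⟨2880, true, false, 3893476⟩, ⟨2872, true, false, 3211459⟩, ⟨2880, false, false,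 2177704⟩]) (.leaf [⟨5744, true, false, 4297376⟩, ⟨2880, true, false, 4159947⟩, ⟨2880, true, true, 4159947⟩, ⟨0, false, false, 4159947⟩]))) (.node false 488 2872 (.node true 4 2880 (.leaf [⟨5748, true, false, 3841173⟩, ⟨2880, true, true, 3958864⟩, ⟨2880, true, false, 2085018⟩, ⟨5756, true, false, 4007075⟩, ⟨2872, true, false, 1262701⟩, ⟨2880, false, true, 1622384⟩]) (.leaf [⟨0, true, false, 4180415⟩, ⟨5756, true, false, 4245750⟩, ⟨2880, true, false, 4180415⟩, ⟨2880, false, false, 4170636⟩])) (.leaf [⟨5748, true, false, 4271603⟩, ⟨2880, true, true, 4168538⟩, ⟨2880, true, false, 4168538⟩, ⟨0, false, false, 4168538⟩]))) (.node true 4 2392 (.node false 488 2872 (.leaf [⟨5752, true, false, 3812683⟩, ⟨2880, true, true, 4023117⟩, ⟨2880, true, false, 2032302⟩, ⟨0, true, false, 4023118⟩, ⟨2872, true, false, 1195551⟩, ⟨2880, false, true, 1690445⟩]) (.leaf [⟨5752, true, false, 4246198⟩, ⟨2880, true, true, 4177006⟩, ⟨2880, true, false, 4177006⟩, ⟨0, false, false, 4177006⟩])) (.leaf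 [⟨5756, true, false, 5218794⟩, ⟨2880, true, false, 4015275⟩, ⟨2880, true, true, 3771573⟩, ⟨0, true, false, 2015246⟩, ⟨0, false, false, 1756327⟩]))) (by decide +kernel)
theorem yo95 : (bN 620 736 620 8964079184).Ok := ok1 (.node true 4 2732 (.node true 76 2880 (.node false 72 2808 (.node false 108 2880 (.node true 112 2880 (.leaf [⟨2880, false, true, 4344825⟩, ⟨2880, false, false, 5012095⟩, ⟨5648, true, false, 3647815⟩, ⟨5652, false, false, 1977014⟩, ⟨2880, true, false, 1795468⟩]) (.node true 80 2880 (.node true 84 2880 (.node true 88 2880 (.node true 100 2880 (.leaf [⟨2880, false, true, 4409512⟩, ⟨2880, false, false, 5035776⟩, ⟨5660, true, false, 3807308⟩, ⟨5652, false, false, 1808541⟩, ⟨2880, true, false, 1716079⟩]) (.leaf [⟨5672, true, false, 3847326⟩, ⟨2880, false, false, 4524365⟩, ⟨2880, true, false, 5621128⟩, ⟨5652, false, false, 1330918⟩, ⟨5660, true, false, 1453480⟩])) (.leaf [⟨5676, true, false, 3920331⟩, ⟨2880, false, true, 5742704⟩, ⟨2880, true, true, 4652728⟩,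 ⟨5672, true, false, 1120527⟩, ⟨5652, false, false, 1340926⟩])) (.leaf [⟨5680, true, false, 3983932⟩, ⟨2880, true, true, 4654341⟩, ⟨2880, false, true, 5735985⟩, ⟨5676, true, false, 1133881⟩, ⟨5652, false, false, 1269078⟩])) (.leaf [⟨5684, true, false, 4050543⟩, ⟨2880, true, true, 4656109⟩, ⟨2880, false, true, 5728802⟩, ⟨5680, true, false, 1147351⟩, ⟨5652, false, false, 1194411⟩]))) (.node false 76 2880 (.leaf [⟨2880, false, false, 5079408⟩, ⟨2880, false, true, 4737874⟩, ⟨5684, false, false, 2793569⟩, ⟨5684, true, false, 2131989⟩, ⟨5652, false, false, 2034376⟩]) (.node true 112 2880 (.leaf [⟨2880, false, true, 4823817⟩, ⟨2880, false, false, 4823817⟩, ⟨0, false, false, 4823817⟩, ⟨5684, false, false, 2305765⟩]) (.leaf [⟨2880, false, true, 4823817⟩, ⟨2880, false, false, 4823817⟩, ⟨0, false, false, 4823817⟩, ⟨5684, false, false, 2305766⟩])))) (.leaf [⟨2880, false, false, 4827335⟩, ⟨2880, false, true, 4827335⟩, ⟨0, false, false, 4827335⟩, ⟨5688, false, false, 2295212⟩]))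 (.node true 8 2880 (.node true 12 2880 (.node true 16 2876 (.node true 44 2880 (.node true 60 2508 (.node true 68 2876 (.node true 72 2880 (.node false 240 2640 (.node false 360 2880 (.leaf [⟨5688, true, false, 4545505⟩, ⟨2880, false, true, 5642890⟩, ⟨2880, true, true, 4680456⟩, ⟨5684, true, false, 1172251⟩, ⟨5560, false, false, 736114⟩]) (.leaf [⟨2880, true, false, 5363297⟩, ⟨2880, true, true, 4158441⟩, ⟨5684, true, false, 2487251⟩, ⟨5688, true, false, 2387143⟩, ⟨0, false, false, 2381085⟩])) (.leaf [⟨2880, true, false, 5363297⟩, ⟨2880, true, true, 4158441⟩, ⟨5684, true, false, 2487251⟩, ⟨5688, true, false, 2387143⟩, ⟨0, false, false, 2381085⟩])) (.node false 240 2640 (.node false 360 2880 (.leaf [⟨2880, true, true, 4446411⟩, ⟨2876, false, false, 3591475⟩, ⟨5692, true, false, 3060373⟩, ⟨2880, true, false, 1901941⟩, ⟨5688, true, false, 1772462⟩, ⟨5716, true, false, 1279761⟩, ⟨5648, false, false, 724793⟩]) (.leaf [⟨2880, true, false, 5236150⟩, ⟨2880, true, true, 4285976⟩,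 ⟨5716, true, false, 3078671⟩, ⟨5688, true, false, 2490482⟩, ⟨0, false, false, 1685937⟩])) (.leaf [⟨2880, true, false, 5236150⟩, ⟨2880, true, true, 4285976⟩, ⟨5716, true, false, 3078671⟩, ⟨5688, true, false, 2490482⟩, ⟨0, false, false, 1685937⟩]))) (.node true 64 2876 (.node false 240 2640 (.node false 360 2880 (.leaf [⟨5696, true, false, 4251821⟩, ⟨2880, true, true, 4684459⟩, ⟨2876, false, false, 5711960⟩, ⟨5692, true, false, 1166237⟩, ⟨5644, false, false, 962738⟩]) (.leaf [⟨2880, true, false, 5070276⟩, ⟨2880, true, true, 4103940⟩, ⟨5716, true, false, 4844850⟩, ⟨5692, true, false, 2758149⟩])) (.leaf [⟨2880, true, false, 5070276⟩, ⟨2880, true, true, 4103940⟩, ⟨5716, true, false, 4844850⟩, ⟨5692, true, false, 2758149⟩])) (.leaf [⟨5716, true, false, 4921797⟩, ⟨2880, true, false, 4019241⟩, ⟨2880, true, true, 4182074⟩, ⟨5696, true, false, 2480208⟩, ⟨2880, false, true, 1173896⟩]))) (.leaf [⟨5716, true, false, 4813567⟩, ⟨2880, true, false, 5142423⟩, ⟨2880, true, true, 4089135⟩,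 ⟨5700, true, false, 2732091⟩])) (.node true 20 2880 (.node true 24 2576 (.node true 28 2880 (.leaf [⟨5732, true, false, 5184059⟩, ⟨2880, true, true, 4699831⟩, ⟨2880, false, true, 5570971⟩, ⟨5716, true, false, 1322355⟩]) (.leaf [⟨5740, true, false, 4886599⟩, ⟨2880, true, false, 5058191⟩, ⟨2880, true, true, 3754666⟩, ⟨5732, true, false, 3077760⟩])) (.leaf [⟨5740, true, false, 4907507⟩, ⟨2880, true, false, 5042762⟩, ⟨2880, true, true, 3697226⟩, ⟨5736, true, false, 3129720⟩])) (.leaf [⟨2880, true, true, 3665266⟩, ⟨5740, true, false, 3171197⟩, ⟨2880, true, false, 5036030⟩, ⟨5748, true, false, 4904722⟩]))) (.leaf [⟨5748, true, false, 4925836⟩, ⟨2880, true, false, 5021163⟩, ⟨5744, true, false, 3222789⟩, ⟨2880, true, true, 3607427⟩])) (.leaf [⟨5752, true, false, 4935325⟩, ⟨2880, true, false, 5010505⟩, ⟨5748, true, false, 3269356⟩, ⟨2880, true, true, 3562030⟩])) (.node true 4 2880 (.leaf [⟨5756, true, false, 4944942⟩, ⟨2880, true, false, 5000033⟩, ⟨5752, true, false, 3315737⟩,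 ⟨2880, true, true, 3516504⟩]) (.leaf [⟨0, true, false, 4878396⟩, ⟨2880, true, false, 4878396⟩, ⟨2880, true, true, 3013955⟩, ⟨5756, true, false, 4006469⟩])))) (.leaf [⟨0, true, false, 4954723⟩, ⟨2880, true, false, 4989712⟩, ⟨5756, true, false, 3362000⟩, ⟨2880, true, true, 3470781⟩])) (by decide +kernel)
theorem yo187 : (bN 488 984 488 9019994188).Ok := ok1 (.node true 8 2400 (.node true 24 2872 (.node true 32 2880 (.node true 56 2648 (.node true 72 2872 (.node true 80 2880 (.leaf [⟨2880, false, true, 5711755⟩, ⟨5680, true, false, 4535756⟩, ⟨2880, true, true, 3807962⟩, ⟨2880, false, false, 1230783⟩, ⟨0, false, false, 1490960⟩]) (.leaf [⟨2880, true, true, 4666286⟩, ⟨5688, true, false, 3014963⟩, ⟨5680, true, false, 2433483⟩, ⟨5728, true, false, 1578910⟩, ⟨2880, false, true, 2800479⟩, ⟨2872, false, false, 1429104⟩, ⟨0, false, false, 853991⟩])) (.node true 64 2872 (.leaf [⟨5696, true, false, 5252170⟩, ⟨2880, true, true, 4515560⟩, ⟨5688, true, false, 3241859⟩, ⟨2872, false,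 false, 3508310⟩, ⟨0, false, false, 259317⟩]) (.node false 496 2640 (.node false 256 2880 (.leaf [⟨5696, true, false, 3384375⟩, ⟨2880, true, true, 1818964⟩, ⟨5728, true, false, 2569349⟩, ⟨2880, true, false, 3504250⟩, ⟨5704, true, false, 2219390⟩, ⟨2880, false, false, 2941284⟩, ⟨5512, false, false, 339604⟩]) (.leaf [⟨5696, true, false, 4225995⟩, ⟨2880, true, true, 4277050⟩, ⟨0, false, false, 4277050⟩, ⟨2880, true, false, 3997122⟩])) (.leaf [⟨5696, true, false, 4268397⟩, ⟨2880, true, true, 4248869⟩, ⟨0, false, false, 4248869⟩, ⟨2888, true, false, 4011082⟩])))) (.node true 40 2648 (.node true 48 2880 (.leaf [⟨5712, true, false, 5401166⟩, ⟨5704, true, false, 3329067⟩, ⟨2880, true, true, 4646915⟩, ⟨2880, false, true, 3400069⟩]) (.leaf [⟨5712, true, false, 3258720⟩, ⟨2880, true, true, 4765023⟩, ⟨5720, true, false, 2468345⟩, ⟨5728, true, false, 2851769⟩, ⟨2880, false, true, 3433359⟩])) (.leaf [⟨5728, true, false, 5289974⟩, ⟨5720, true, false, 3205400⟩, ⟨2880, true, true,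 4796164⟩, ⟨2880, false, true, 3485678⟩]))) (.node false 496 2640 (.node false 256 2880 (.node false 384 2880 (.node false 448 2824 (.node false 480 2880 (.leaf [⟨2880, true, true, 5170390⟩, ⟨5736, true, false, 3807649⟩, ⟨5728, true, false, 1244043⟩, ⟨2872, false, false, 2935179⟩, ⟨0, true, false, 843792⟩, ⟨2872, true, false, 991154⟩, ⟨2880, false, true, 1785009⟩]) (.leaf [⟨2880, true, true, 5546445⟩, ⟨2888, true, false, 3112270⟩, ⟨2776, true, false, 5999968⟩, ⟨5736, true, false, 2118533⟩])) (.leaf [⟨2880, true, true, 5711675⟩, ⟨2776, true, false, 5809050⟩, ⟨2880, true, false, 2987020⟩, ⟨0, true, false, 2269472⟩])) (.leaf [⟨2880, true, true, 6602068⟩, ⟨5512, false, false, 7125539⟩, ⟨2880, true, false, 3049609⟩])) (.leaf [⟨5728, true, false, 4361937⟩, ⟨0, false, false, 4177107⟩, ⟨2880, true, true, 4177107⟩, ⟨2880, true, false, 4061064⟩])) (.leaf [⟨2880, true, true, 4506077⟩, ⟨0, false, false, 4898698⟩, ⟨2888, true, false, 3317652⟩, ⟨5728, true, false, 2131913⟩, ⟨2880,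 false, true, 1922877⟩]))) (.node true 16 2632 (.node false 488 2640 (.node false 248 2880 (.node false 368 2880 (.node false 432 2880 (.node false 464 2848 (.node true 8 2880 (.leaf [⟨5736, true, false, 3861059⟩, ⟨2880, true, true, 4544865⟩, ⟨2880, true, false, 1877399⟩, ⟨5752, true, false, 2162662⟩, ⟨5744, true, false, 1904545⟩, ⟨2880, false, true, 1725825⟩, ⟨2848, true, false, 362218⟩, ⟨2824, true, false, 338642⟩]) (.leaf [⟨5752, true, false, 4241364⟩, ⟨0, true, false, 4211119⟩, ⟨2880, true, false, 4113613⟩, ⟨2880, false, false, 4211120⟩])) (.leaf [⟨2880, true, true, 5795388⟩, ⟨2824, true, false, 5682766⟩, ⟨2880, true, false, 2781885⟩, ⟨0, true, false, 2517177⟩])) (.leaf [⟨2880, true, true, 5678797⟩, ⟨2760, true, false, 5856229⟩, ⟨2880, true, false, 3059921⟩, ⟨0, true, false, 2182269⟩])) (.leaf [⟨2880, true, true, 6602067⟩, ⟨5512, false, false, 7125540⟩, ⟨2880, true, false, 3049610⟩])) (.leaf [⟨5736, true, false, 4394930⟩, ⟨2880, true, false, 4077559⟩, ⟨0, false,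 false, 4152364⟩, ⟨2880, true, true, 4152364⟩])) (.leaf [⟨5736, true, false, 4394930⟩, ⟨0, false, false, 4152364⟩, ⟨2880, true, true, 4152364⟩, ⟨2880, true, false, 4077559⟩])) (.node false 488 2640 (.node false 248 2880 (.node false 368 2880 (.node false 432 2880 (.node false 464 2848 (.node false 480 2880 (.leaf [⟨5744, true, false, 3880742⟩, ⟨2880, true, true, 3002895⟩, ⟨2880, true, false, 3700870⟩, ⟨0, true, false, 3841993⟩, ⟨2880, false, false, 1509560⟩, ⟨2872, true, false, 841156⟩]) (.leaf [⟨2880, true, true, 3529898⟩, ⟨0, true, false, 3529898⟩, ⟨2880, true, false, 2854567⟩, ⟨2848, true, false, 6862853⟩])) (.leaf [⟨2880, true, true, 5795388⟩, ⟨2824, true, false, 5682766⟩, ⟨0, true, false, 2517177⟩, ⟨2880, true, false, 2781885⟩])) (.leaf [⟨2880, true, true, 5678797⟩, ⟨2880, true, false, 3059921⟩, ⟨0, true, false, 2182269⟩, ⟨2760, true, false, 5856229⟩])) (.leaf [⟨2880, true, true, 6602067⟩, ⟨5512, false, false, 7125540⟩, ⟨2880, true, false, 3049610⟩])) (.leaf [⟨5744,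 true, false, 4352681⟩, ⟨0, false, false, 4164571⟩, ⟨2880, true, false, 4095392⟩, ⟨2880, true, true, 4164571⟩])) (.leaf [⟨5744, true, false, 4352681⟩, ⟨2880, true, false, 4095392⟩, ⟨0, false, false, 4164571⟩, ⟨2880, true, true, 4164571⟩])))) (.leaf [⟨5752, true, false, 5356717⟩, ⟨2880, true, true, 3811793⟩, ⟨2880, true, false, 3796912⟩, ⟨0, true, false, 2195930⟩, ⟨0, false, false, 1615864⟩])) (by decide +kernel)
theorem yo136 : (bN 508 936 508 9010012800).Ok := ok1 (.node true 4 2624 (.node true 16 2880 (.node true 24 2624 (.node true 28 2864 (.node true 52 2880 (.node false 16 2864 (.node false 24 2880 (.node true 64 2400 (.node true 68 2652 (.node false 28 2880 (.node true 72 2880 (.node false 32 2880 (.node false 36 2880 (.leaf [⟨2880, false, true, 5730431⟩, ⟨5688, true, false, 4109887⟩, ⟨2880, true, true, 4152568⟩, ⟨2880, false, false, 1040510⟩, ⟨5724, false, false, 1743820⟩]) (.leaf [⟨2880, false, true, 5153058⟩, ⟨5724, false, false, 2633268⟩, ⟨2880, false, false,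 3900632⟩, ⟨5688, true, false, 5090257⟩])) (.leaf [⟨2880, false, true, 5153358⟩, ⟨5728, false, false, 2622224⟩, ⟨2880, false, false, 3906246⟩, ⟨5688, true, false, 5095388⟩])) (.leaf [⟨5708, true, false, 5307355⟩, ⟨5688, true, false, 3662788⟩, ⟨2880, true, true, 1684812⟩, ⟨2880, true, false, 3363415⟩, ⟨2880, false, false, 2758846⟩])) (.leaf [⟨2880, false, true, 4986933⟩, ⟨5732, false, false, 2878812⟩, ⟨2880, false, false, 4026764⟩, ⟨5708, true, false, 4884707⟩])) (.leaf [⟨5708, true, false, 5305286⟩, ⟨2880, true, false, 3380995⟩, ⟨2880, false, false, 2778323⟩, ⟨5692, true, false, 3648881⟩, ⟨2880, true, true, 1663732⟩])) (.leaf [⟨5708, true, false, 5303224⟩, ⟨2880, true, false, 3398440⟩, ⟨2880, false, false, 2797682⟩, ⟨5696, true, false, 3635093⟩, ⟨2880, true, true, 1642777⟩])) (.leaf [⟨2880, false, true, 4987475⟩, ⟨5736, false, false, 2866789⟩, ⟨2880, false, false, 4032697⟩, ⟨5708, true, false, 4890256⟩])) (.leaf [⟨2880, false, true, 4988484⟩, ⟨5744, false, false, 2843188⟩,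 ⟨2880, false, false, 4044375⟩, ⟨5708, true, false, 4901169⟩])) (.node true 32 2880 (.node true 36 2640 (.node true 40 2880 (.leaf [⟨5720, true, false, 5381760⟩, ⟨2880, true, true, 4720738⟩, ⟨5708, true, false, 2906564⟩, ⟨2880, false, true, 3768154⟩]) (.leaf [⟨5720, true, false, 3176706⟩, ⟨5728, true, false, 5211402⟩, ⟨2880, true, true, 1381696⟩, ⟨2880, true, false, 3690641⟩, ⟨2880, false, false, 3316771⟩])) (.leaf [⟨5728, true, false, 5167731⟩, ⟨5724, true, false, 3302969⟩, ⟨2880, true, false, 3648446⟩, ⟨2880, true, true, 1525555⟩, ⟨2880, false, false, 3132515⟩])) (.node false 496 2640 (.node false 256 2880 (.node false 384 2880 (.node false 448 2880 (.leaf [⟨2880, true, true, 5080475⟩, ⟨5732, true, false, 3407467⟩, ⟨5728, true, false, 1751906⟩, ⟨2864, false, false, 2486338⟩, ⟨5744, true, false, 1504315⟩, ⟨2880, false, true, 2002612⟩, ⟨2820, true, false, 544102⟩]) (.leaf [⟨2880, true, true, 5832718⟩, ⟨2880, true, false, 3152667⟩, ⟨5744, true, false, 2694527⟩, ⟨2756,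 true, false, 5097304⟩])) (.leaf [⟨2880, true, true, 5982715⟩, ⟨5728, true, false, 3090311⟩, ⟨2880, true, false, 2553057⟩, ⟨5744, true, false, 1936614⟩, ⟨5504, false, false, 3214519⟩])) (.leaf [⟨5728, true, false, 3766624⟩, ⟨2880, true, false, 4336864⟩, ⟨2880, true, true, 4336863⟩, ⟨0, false, false, 4336864⟩])) (.leaf [⟨5728, true, false, 3766623⟩, ⟨2880, true, true, 4336864⟩, ⟨2880, true, false, 4336864⟩, ⟨0, false, false, 4336864⟩])))) (.node false 496 2640 (.node false 256 2880 (.node false 384 2880 (.node false 448 2880 (.leaf [⟨5744, true, false, 4716926⟩, ⟨2880, true, true, 1628691⟩, ⟨5732, true, false, 2769266⟩, ⟨2880, true, false, 4048964⟩, ⟨2880, false, false, 3235377⟩, ⟨2820, true, false, 377991⟩]) (.leaf [⟨2880, true, true, 5832718⟩, ⟨2880, true, false, 3152667⟩, ⟨5744, true, false, 2694527⟩, ⟨2756, true, false, 5097304⟩])) (.leaf [⟨2880, true, true, 6001517⟩, ⟨5732, true, false, 3030937⟩, ⟨5744, true, false, 1918853⟩, ⟨2880, true, false, 2560700⟩, ⟨5504,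 false, false, 3265208⟩])) (.leaf [⟨5732, true, false, 3744258⟩, ⟨2880, true, false, 4344319⟩, ⟨2880, true, true, 4344319⟩, ⟨0, false, false, 4344319⟩])) (.leaf [⟨5732, true, false, 3744258⟩, ⟨2880, true, true, 4344319⟩, ⟨2880, true, false, 4344320⟩, ⟨0, false, false, 4344319⟩]))) (.leaf [⟨5744, true, false, 3552152⟩, ⟨2880, true, true, 4470257⟩, ⟨5736, true, false, 3266059⟩, ⟨2880, true, false, 1638300⟩, ⟨2880, false, true, 2698294⟩, ⟨16, false, false, 1152154⟩])) (.node true 8 2880 (.node true 12 2624 (.leaf [⟨2880, true, true, 4452975⟩, ⟨5744, true, false, 3466983⟩, ⟨2880, true, false, 1930208⟩, ⟨5752, true, false, 3442193⟩, ⟨2880, false, true, 2361163⟩, ⟨8, false, false, 1123695⟩]) (.leaf [⟨5752, true, false, 3466040⟩, ⟨5748, true, false, 3438608⟩, ⟨2880, true, false, 4303938⟩, ⟨2880, true, true, 2052282⟩, ⟨2880, false, false, 2408515⟩, ⟨8, false, false, 1107833⟩])) (.node true 4 2880 (.leaf [⟨5756, true, false, 3639984⟩, ⟨5752, true, false, 3613054⟩, ⟨2880, true,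 false, 4148740⟩, ⟨2880, true, true, 2278827⟩, ⟨2880, false, false, 2200973⟩, ⟨4, false, false, 895638⟩]) (.leaf [⟨5756, true, false, 3616549⟩, ⟨0, true, false, 4386889⟩, ⟨2880, true, true, 4386889⟩, ⟨2880, false, true, 4386889⟩])))) (.leaf [⟨5756, true, false, 3784779⟩, ⟨2880, true, true, 4187796⟩, ⟨0, true, false, 3121768⟩, ⟨2880, true, false, 2310783⟩, ⟨2880, false, true, 1996514⟩, ⟨0, false, false, 1375576⟩])) (by decide +kernel)
theorem yo135 : (bN 632 712 632 9003994543).Ok := ok1 (.node true 88 2720 (.node true 132 2880 (.node false 240 2640 (.node false 360 2880 (.leaf [⟨2880, false, true, 6131332⟩, ⟨2880, false, false, 3112036⟩, ⟨5628, true, false, 4133807⟩, ⟨5476, false, false, 1472625⟩, ⟨2880, true, true, 1927416⟩]) (.node false 4 2880 (.node false 40 2880 (.leaf [⟨2880, false, true, 6320307⟩, ⟨2880, false, false, 4843525⟩, ⟨5720, false, false, 2833154⟩, ⟨5628, true, false, 2780230⟩]) (.leaf [⟨2880, false, false, 5118044⟩, ⟨5756, false, false, 5052192⟩,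 ⟨2880, false, true, 4986242⟩, ⟨5720, false, false, 1620738⟩])) (.leaf [⟨0, false, false, 5100381⟩, ⟨2880, false, false, 5100381⟩, ⟨2880, false, true, 5100381⟩, ⟨5756, false, false, 1476073⟩]))) (.node false 4 2640 (.node false 40 2880 (.leaf [⟨2880, false, true, 6320307⟩, ⟨2880, false, false, 4843525⟩, ⟨5720, false, false, 2833154⟩, ⟨5628, true, false, 2780230⟩]) (.leaf [⟨2880, false, true, 5081902⟩, ⟨2880, false, false, 5081902⟩, ⟨0, false, false, 5081902⟩, ⟨5720, false, false, 1531510⟩])) (.leaf [⟨2880, false, false, 5100381⟩, ⟨0, false, false, 5100381⟩, ⟨2880, false, true, 5100379⟩, ⟨5756, false, false, 1476074⟩]))) (.node true 92 2880 (.node false 240 2640 (.node false 360 2880 (.leaf [⟨2880, false, true, 6157060⟩, ⟨2880, false, false, 5021911⟩, ⟨5668, true, false, 4393373⟩, ⟨5576, false, false, 1204873⟩]) (.node false 4 2880 (.node false 40 2880 (.node true 96 2880 (.node true 100 2876 (.node true 116 2880 (.leaf [⟨2880, false, true, 6293019⟩, ⟨2880, false, false,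 4874152⟩, ⟨5720, false, false, 2611413⟩, ⟨5644, true, false, 2998632⟩]) (.leaf [⟨2880, true, false, 5381343⟩, ⟨2880, true, true, 4751665⟩, ⟨5720, false, false, 2875286⟩, ⟨5664, true, false, 2206040⟩, ⟨5644, true, false, 1562883⟩])) (.leaf [⟨2880, true, false, 5483305⟩, ⟨2880, true, true, 4341610⟩, ⟨5664, true, false, 2698002⟩, ⟨5720, false, false, 2231359⟩, ⟨5660, true, false, 2022941⟩])) (.leaf [⟨2880, true, false, 5486482⟩, ⟨2880, true, true, 4317155⟩, ⟨5668, true, false, 2804459⟩, ⟨5720, false, false, 2113481⟩, ⟨5664, true, false, 2055639⟩])) (.leaf [⟨2880, false, false, 5118044⟩, ⟨5756, false, false, 5052192⟩, ⟨2880, false, true, 4986243⟩, ⟨5720, false, false, 1620737⟩])) (.leaf [⟨5756, false, false, 1476072⟩, ⟨2880, false, true, 5100381⟩, ⟨2880, false, false, 5100381⟩, ⟨0, false, false, 5100381⟩]))) (.node false 4 2640 (.node false 40 2880 (.node false 56 2880 (.leaf [⟨2880, false, true, 6217160⟩, ⟨2880, false, false, 4953113⟩, ⟨5704, false, false, 2022551⟩,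 ⟨5668, true, false, 3584393⟩]) (.leaf [⟨2880, false, false, 5359992⟩, ⟨5720, false, false, 4930097⟩, ⟨2880, false, true, 4264417⟩, ⟨5704, false, false, 2222710⟩])) (.leaf [⟨0, false, false, 5081902⟩, ⟨2880, false, true, 5081902⟩, ⟨2880, false, false, 5081902⟩, ⟨5720, false, false, 1531509⟩])) (.leaf [⟨5756, false, false, 1476072⟩, ⟨2880, false, true, 5100381⟩, ⟨2880, false, false, 5100381⟩, ⟨0, false, false, 5100381⟩]))) (.node true 44 2880 (.node false 240 2640 (.node false 360 2880 (.leaf [⟨5716, true, false, 5202744⟩, ⟨2880, false, true, 5922672⟩, ⟨2880, false, false, 3247100⟩, ⟨2880, true, true, 1627078⟩, ⟨5668, true, false, 569465⟩, ⟨5480, false, false, 208157⟩]) (.leaf [⟨2880, true, false, 5413818⟩, ⟨2880, true, true, 4384992⟩, ⟨5716, true, false, 3454981⟩, ⟨5668, true, false, 2075023⟩, ⟨0, false, false, 1448403⟩])) (.leaf [⟨2880, true, false, 5413818⟩, ⟨2880, true, true, 4384992⟩, ⟨5716, true, false, 3454981⟩, ⟨5668, true, false, 2075023⟩, ⟨0, false, false,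 1448403⟩])) (.leaf [⟨0, true, false, 4301868⟩, ⟨2880, true, true, 4301868⟩, ⟨2880, true, false, 4301868⟩, ⟨5716, true, false, 2487029⟩, ⟨2720, false, false, 1384583⟩])))) (.node true 4 2880 (.node true 40 2876 (.node true 56 2880 (.leaf [⟨5704, true, false, 3757109⟩, ⟨2880, false, true, 5868121⟩, ⟨2880, true, true, 4537183⟩, ⟨0, false, false, 1453247⟩, ⟨5672, true, false, 1161555⟩]) (.leaf [⟨2876, false, false, 4592563⟩, ⟨5720, true, false, 4036498⟩, ⟨2880, true, true, 4442977⟩, ⟨5704, true, false, 1421779⟩, ⟨4, false, false, 1080550⟩, ⟨2880, true, false, 1202848⟩])) (.node true 8 2876 (.node true 12 2880 (.node true 16 2876 (.node true 28 2880 (.leaf [⟨5732, true, false, 5258021⟩, ⟨2880, false, true, 5648030⟩, ⟨2880, true, true, 4372746⟩, ⟨5720, true, false, 1498420⟩]) (.leaf [⟨2880, true, true, 3791500⟩, ⟨2876, false, false, 3180386⟩, ⟨5744, true, false, 3156841⟩, ⟨5732, true, false, 2371142⟩, ⟨5748, true, false, 2097916⟩, ⟨2880, true, false, 2179430⟩])) (.leaf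 [⟨5748, true, false, 5112263⟩, ⟨2880, true, false, 5222771⟩, ⟨2880, true, true, 3437390⟩, ⟨5744, true, false, 3004793⟩])) (.leaf [⟨2880, true, true, 3395689⟩, ⟨5748, true, false, 3055495⟩, ⟨2880, true, false, 5212204⟩, ⟨5756, true, false, 5113829⟩])) (.leaf [⟨5756, true, false, 5135606⟩, ⟨2880, true, false, 5197024⟩, ⟨2880, true, true, 3333759⟩, ⟨5752, true, false, 3110827⟩]))) (.leaf [⟨0, true, false, 5147741⟩, ⟨2880, true, false, 5184251⟩, ⟨5756, true, false, 3164028⟩, ⟨2880, true, true, 3281196⟩]))) (by decide +kernel)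
theorem yo183 : (bN 448 1056 448 9193227941).Ok := ok1 (.node true 16 2640 (.node true 32 2880 (.node true 64 2656 (.node true 80 2880 (.leaf [⟨5680, true, false, 6554367⟩, ⟨2880, false, true, 4889561⟩, ⟨2880, false, false, 2408884⟩, ⟨2880, true, true, 2924404⟩]) (.node false 240 2880 (.leaf [⟨5680, true, false, 3060308⟩, ⟨5696, true, false, 2905914⟩, ⟨2880, true, true, 1483485⟩, ⟨2880, true, false, 3447361⟩, ⟨2880, false, false, 3375160⟩, ⟨5728, true, false, 1975553⟩, ⟨5520, false, false, 529436⟩]) (.leaf [⟨5680, true, false, 4563565⟩, ⟨2880, true, true, 4066116⟩, ⟨0, false, false, 4574442⟩, ⟨2880, true, false, 3573093⟩]))) (.node true 48 2528 (.node false 240 2880 (.node false 368 2656 (.leaf [⟨2880, true, true, 4868804⟩, ⟨5696, true, false, 3121010⟩, ⟨5712, true, false, 2848344⟩, ⟨2880, false, true, 3297783⟩, ⟨5728, true, false, 1914630⟩, ⟨2880, true, false, 191806⟩, ⟨5536, false, false, 534840⟩]) (.leaf [⟨2880, true, true, 5270216⟩, ⟨5520, false, false, 8227046⟩,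 ⟨2880, true, false, 3279954⟩])) (.leaf [⟨5696, true, false, 4439255⟩, ⟨2880, true, true, 4080917⟩, ⟨0, false, false, 4637449⟩, ⟨2880, true, false, 3619595⟩])) (.node false 240 2880 (.node false 368 2656 (.node false 432 2768 (.node false 464 2864 (.leaf [⟨5728, true, false, 4873553⟩, ⟨5712, true, false, 2336190⟩, ⟨2880, true, true, 4476776⟩, ⟨2864, true, false, 1158460⟩, ⟨2880, false, true, 3932238⟩]) (.leaf [⟨2896, true, false, 3760987⟩, ⟨5728, true, false, 6018491⟩, ⟨2880, false, false, 5511023⟩, ⟨5712, true, false, 1486715⟩])) (.leaf [⟨2880, true, true, 5202108⟩, ⟨5712, true, false, 2374608⟩, ⟨5536, false, false, 6360075⟩, ⟨2880, true, false, 2840425⟩])) (.leaf [⟨2880, true, true, 5270216⟩, ⟨5520, false, false, 8227045⟩, ⟨2880, true, false, 3279954⟩])) (.leaf [⟨5712, true, false, 4273658⟩, ⟨2880, true, true, 4104583⟩, ⟨0, false, false, 4730549⟩, ⟨2880, true, false, 3668426⟩])))) (.node false 240 2880 (.node false 368 2768 (.node false 432 2832 (.node false 368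 2880 (.node false 464 2864 (.node true 16 2880 (.leaf [⟨5728, true, false, 3754986⟩, ⟨5744, true, false, 3677075⟩, ⟨2880, true, true, 3522733⟩, ⟨2880, true, false, 1837547⟩, ⟨2864, true, false, 2187610⟩, ⟨2880, false, true, 1797265⟩]) (.leaf [⟨5744, true, false, 3244084⟩, ⟨0, true, false, 4769457⟩, ⟨2880, true, false, 3994218⟩, ⟨2880, false, false, 4769457⟩])) (.leaf [⟨2896, true, false, 4591131⟩, ⟨2880, false, false, 3377144⟩, ⟨0, true, false, 2672456⟩, ⟨2800, true, false, 6136484⟩])) (.leaf [⟨2832, true, false, 6345793⟩, ⟨2880, true, true, 4909613⟩, ⟨2880, true, false, 612197⟩, ⟨0, true, false, 4909613⟩])) (.leaf [⟨2880, true, true, 2202568⟩, ⟨5728, true, false, 3981741⟩, ⟨2768, true, false, 6088373⟩, ⟨2880, true, false, 2939571⟩, ⟨0, true, false, 1564963⟩])) (.leaf [⟨2880, true, true, 5270216⟩, ⟨5520, false, false, 8227046⟩, ⟨2880, true, false, 3279954⟩])) (.leaf [⟨0, false, false, 4823759⟩, ⟨5728, true, false, 4111147⟩, ⟨2880, true, true, 4127845⟩, ⟨2880, true,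 false, 3714464⟩]))) (.node false 240 2640 (.node false 368 2656 (.node false 432 2832 (.node false 240 2880 (.node false 368 2880 (.node false 464 2864 (.node true 224 2160 (.node true 224 2256 (.leaf [⟨5744, true, false, 3902436⟩, ⟨0, true, false, 3306241⟩, ⟨2880, true, false, 2307044⟩, ⟨2880, true, true, 3306241⟩, ⟨2864, true, false, 2485253⟩, ⟨2880, false, true, 1470002⟩]) (.node true 16 2256 (.leaf [⟨5744, true, false, 3902755⟩, ⟨0, true, false, 3367582⟩, ⟨2880, true, true, 3367582⟩, ⟨2880, true, false, 2229301⟩, ⟨2864, true, false, 2395739⟩, ⟨2880, false, true, 1514257⟩]) (.leaf [⟨5744, true, false, 5333825⟩, ⟨0, true, false, 3055002⟩, ⟨2880, true, false, 3054747⟩, ⟨2864, true, false, 5333643⟩]))) (.node true 16 2160 (.node true 16 2256 (.leaf [⟨5744, true, false, 3902666⟩, ⟨0, true, false, 3367840⟩, ⟨2880, true, false, 3743472⟩, ⟨2880, true, true, 1853315⟩, ⟨2864, true, false, 2395398⟩, ⟨2880, false, false, 1514525⟩]) (.leaf [⟨5744, true, false, 5333825⟩, ⟨0,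 true, false, 3055002⟩, ⟨2880, true, false, 3054747⟩, ⟨2864, true, false, 5333643⟩])) (.leaf [⟨5744, true, false, 5333713⟩, ⟨0, true, false, 3054846⟩, ⟨2880, true, false, 3054903⟩, ⟨2864, true, false, 5333754⟩]))) (.leaf [⟨2880, true, true, 4240889⟩, ⟨5744, true, false, 3651989⟩, ⟨2896, true, false, 3339573⟩, ⟨2800, true, false, 3817516⟩, ⟨0, true, false, 1727248⟩])) (.leaf [⟨2832, true, false, 6345793⟩, ⟨2880, true, true, 4909613⟩, ⟨0, true, false, 4909613⟩, ⟨2880, true, false, 612197⟩])) (.leaf [⟨2832, true, false, 6345793⟩, ⟨0, true, false, 4909613⟩, ⟨2880, true, true, 4909613⟩, ⟨2880, true, false, 612197⟩])) (.leaf [⟨0, false, false, 4916478⟩, ⟨2880, true, false, 3757721⟩, ⟨2880, true, true, 4150562⟩, ⟨5744, true, false, 3952455⟩])) (.leaf [⟨2880, true, false, 3757721⟩, ⟨0, false, false, 4916478⟩, ⟨2880, true, true, 4150562⟩, ⟨5744, true, false, 3952455⟩])) (.leaf [⟨0, false, false, 4916478⟩, ⟨5744, true, false, 3952455⟩, ⟨2880, true, true, 4150562⟩, ⟨2880, true,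 false, 3757721⟩]))) (by decide +kernel)
theorem yo77 : (bN 624 732 624 8945523184).Ok := ok1 (.node true 4 2728 (.node true 76 2808 (.node true 112 2880 (.node false 4 2808 (.node false 40 2880 (.node false 56 2880 (.node false 64 2880 (.node false 68 2876 (.node false 72 2880 (.leaf [⟨2880, false, true, 6178064⟩, ⟨5648, true, false, 3299359⟩, ⟨2880, false, false, 3259086⟩, ⟨5688, false, false, 2314197⟩, ⟨2880, true, true, 1726509⟩]) (.leaf [⟨2880, false, false, 5179311⟩, ⟨2880, false, true, 4394370⟩, ⟨5696, false, false, 3696624⟩, ⟨5688, false, false, 2399434⟩, ⟨5648, true, false, 1107476⟩])) (.leaf [⟨2880, false, false, 5185951⟩, ⟨2880, false, true, 4385898⟩, ⟨5696, false, false, 3708570⟩, ⟨5692, false, false, 2402249⟩, ⟨5648, true, false, 1094547⟩])) (.leaf [⟨2880, false, false, 5202907⟩, ⟨2880, false, true, 3933062⟩, ⟨5704, false, false, 4878561⟩, ⟨5696, false, false, 2762686⟩])) (.leaf [⟨2880, false, false, 5144143⟩, ⟨2880, false, true, 4163758⟩, ⟨5720, false,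 false, 4836276⟩, ⟨5704, false, false, 2633039⟩])) (.leaf [⟨2880, false, true, 4904579⟩, ⟨2880, false, false, 4904579⟩, ⟨0, false, false, 4904579⟩, ⟨5720, false, false, 2063480⟩])) (.leaf [⟨2880, false, false, 4929696⟩, ⟨2880, false, true, 4929696⟩, ⟨0, false, false, 4929696⟩, ⟨5756, false, false, 1988128⟩])) (.node true 80 2880 (.node false 4 2880 (.node false 76 2880 (.node true 84 2880 (.node true 88 2880 (.leaf [⟨5672, true, false, 3512350⟩, ⟨2880, true, false, 5678997⟩, ⟨2880, false, false, 4519727⟩, ⟨5684, false, false, 1630066⟩, ⟨5648, true, false, 1436076⟩]) (.leaf [⟨5676, true, false, 3686148⟩, ⟨2880, true, true, 4586745⟩, ⟨2880, false, true, 5815544⟩, ⟨5672, true, false, 1153044⟩, ⟨5684, false, false, 1535735⟩])) (.leaf [⟨5680, true, false, 3772532⟩, ⟨2880, false, true, 5808415⟩, ⟨2880, true, true, 4582657⟩, ⟨5676, true, false, 1171300⟩, ⟨5684, false, false, 1442313⟩])) (.leaf [⟨2880, false, true, 4778388⟩, ⟨2880, false, false, 4912288⟩, ⟨5756, false, false,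 4845384⟩, ⟨5684, false, false, 2241155⟩])) (.leaf [⟨5756, false, false, 1988128⟩, ⟨2880, false, true, 4929696⟩, ⟨0, false, false, 4929696⟩, ⟨2880, false, false, 4929696⟩])) (.node true 40 2880 (.node false 240 2640 (.node false 360 2880 (.node false 420 2880 (.node false 452 2880 (.node false 468 2880 (.node false 476 2880 (.node false 480 2880 (.node false 720 2880 (.leaf [⟨5720, true, false, 5371280⟩, ⟨2880, false, true, 3856542⟩, ⟨2880, false, false, 5377990⟩, ⟨2880, true, false, 2171404⟩]) (.leaf [⟨5720, true, false, 5056963⟩, ⟨2880, true, true, 5213363⟩, ⟨2880, false, true, 5718377⟩, ⟨2736, true, false, 788513⟩])) (.leaf [⟨2880, true, true, 5369133⟩, ⟨2880, true, false, 5234256⟩, ⟨5720, true, false, 4567496⟩, ⟨2732, true, false, 1606331⟩])) (.leaf [⟨2880, true, true, 5380879⟩, ⟨2880, true, false, 5229896⟩, ⟨5720, true, false, 4562705⟩, ⟨2724, true, false, 1603737⟩])) (.leaf [⟨2880, true, true, 5404140⟩, ⟨2880, true, false, 5221102⟩, ⟨5720, true, false, 4553067⟩,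 ⟨2708, true, false, 1598906⟩])) (.leaf [⟨2880, true, true, 4936759⟩, ⟨2880, true, false, 4975832⟩, ⟨5720, true, false, 4305191⟩, ⟨5680, true, false, 1935951⟩, ⟨5456, false, false, 623484⟩])) (.leaf [⟨2880, true, true, 4936760⟩, ⟨2880, true, false, 4975831⟩, ⟨5720, true, false, 4305191⟩, ⟨5680, true, false, 1935950⟩, ⟨5456, false, false, 623484⟩])) (.leaf [⟨2880, true, false, 5246244⟩, ⟨2880, true, true, 4317573⟩, ⟨5720, true, false, 3316695⟩, ⟨5680, true, false, 2428335⟩, ⟨0, false, false, 1468370⟩])) (.leaf [⟨2880, true, false, 5246244⟩, ⟨2880, true, true, 4317573⟩, ⟨5720, true, false, 3316695⟩, ⟨5680, true, false, 2428335⟩, ⟨0, false, false, 1468369⟩])) (.leaf [⟨5720, true, false, 3757011⟩, ⟨2880, true, true, 3256582⟩, ⟨2880, true, false, 4881812⟩, ⟨0, true, false, 4881812⟩])))) (.node true 8 2808 (.node true 12 2880 (.node true 16 2880 (.node true 44 2880 (.leaf [⟨5716, true, false, 3935438⟩, ⟨2880, true, false, 1163450⟩, ⟨2880, true, true, 4524981⟩, ⟨2880, false,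 true, 4493996⟩, ⟨5684, true, false, 1499044⟩, ⟨0, false, false, 1160308⟩]) (.node true 20 2572 (.node true 24 2880 (.leaf [⟨5736, true, false, 5140150⟩, ⟨2880, true, false, 5453392⟩, ⟨2880, false, false, 4446417⟩, ⟨5716, true, false, 1737257⟩]) (.leaf [⟨5744, true, false, 4925786⟩, ⟨2880, true, false, 5081864⟩, ⟨2880, true, true, 3686745⟩, ⟨5736, true, false, 3082822⟩])) (.leaf [⟨5744, true, false, 4946849⟩, ⟨2880, true, false, 5066557⟩, ⟨2880, true, true, 3628072⟩, ⟨5740, true, false, 3135738⟩]))) (.leaf [⟨5748, true, false, 4956747⟩, ⟨2880, true, false, 5055088⟩, ⟨2880, true, true, 3580992⟩, ⟨5744, true, false, 3184390⟩])) (.leaf [⟨0, true, false, 4943497⟩, ⟨2880, true, false, 5051440⟩, ⟨5748, true, false, 3222869⟩, ⟨2880, true, true, 3559409⟩])) (.leaf [⟨0, true, false, 4965297⟩, ⟨2880, true, false, 5036472⟩, ⟨5752, true, false, 3276137⟩, ⟨2880, true, true, 3499311⟩]))) (.leaf [⟨0, true, false, 4987096⟩, ⟨2880, true, false, 5022039⟩, ⟨5756, true, false, 3328821⟩,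 ⟨2880, true, true, 3439260⟩])) (by decide +kernel)
theorem yo178 : (bN 612 752 612 8922824794).Ok := ok1 (.node true 4 2704 (.node true 72 2812 (.node true 104 2880 (.node false 68 2812 (.node false 104 2880 (.leaf [⟨2880, false, true, 3623685⟩, ⟨2880, false, false, 5061167⟩, ⟨5656, true, false, 3659287⟩, ⟨5656, false, false, 1959128⟩, ⟨2880, true, false, 2473949⟩]) (.node false 72 2880 (.leaf [⟨2880, false, false, 4869248⟩, ⟨2880, false, true, 4778201⟩, ⟨5688, false, false, 2936248⟩, ⟨5656, false, false, 2284720⟩, ⟨5656, true, false, 1908798⟩]) (.leaf [⟨2880, false, true, 4674984⟩, ⟨2880, false, false, 4668677⟩, ⟨0, false, false, 4674984⟩, ⟨5688, false, false, 2758570⟩]))) (.leaf [⟨2880, false, false, 4674808⟩, ⟨0, false, false, 4674808⟩, ⟨2880, false, true, 4674808⟩, ⟨5692, false, false, 2752791⟩])) (.node true 76 2880 (.node false 68 2812 (.node false 104 2880 (.leaf [⟨2880, false, true, 3723108⟩, ⟨5684, true, false, 4092238⟩, ⟨2880, false, false, 5130876⟩, ⟨2880,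 true, false, 2314960⟩, ⟨5656, false, false, 1516034⟩]) (.node false 72 2880 (.leaf [⟨2880, true, false, 4983781⟩, ⟨2880, true, true, 4488706⟩, ⟨5688, false, false, 1968001⟩, ⟨5684, true, false, 2783870⟩, ⟨5656, true, false, 2552858⟩]) (.leaf [⟨2880, false, true, 4674984⟩, ⟨5688, false, false, 2758570⟩, ⟨2880, false, false, 4668677⟩, ⟨0, false, false, 4674984⟩]))) (.leaf [⟨5692, false, false, 2752791⟩, ⟨2880, false, true, 4674808⟩, ⟨2880, false, false, 4674808⟩, ⟨0, false, false, 4674808⟩])) (.node true 36 2880 (.node false 720 2812 (.node false 68 2880 (.node false 104 2880 (.node false 120 2880 (.node false 128 2880 (.node false 132 2880 (.node false 136 2880 (.node false 172 2880 (.node false 188 2880 (.node false 196 2880 (.node false 200 2880 (.leaf [⟨5724, true, false, 4777575⟩, ⟨2880, true, false, 5404868⟩, ⟨2880, false, false, 4677465⟩, ⟨5684, true, false, 1574666⟩, ⟨5648, false, false, 342642⟩]) (.leaf [⟨2880, true, false, 5006629⟩, ⟨2880, true, true, 3794060⟩,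 ⟨5724, true, false, 4403739⟩, ⟨2812, true, false, 3572788⟩])) (.leaf [⟨2880, true, false, 5006629⟩, ⟨2880, true, true, 3794060⟩, ⟨5724, true, false, 4403739⟩, ⟨2812, true, false, 3572788⟩])) (.leaf [⟨2880, true, false, 5006629⟩, ⟨2880, true, true, 3794060⟩, ⟨5724, true, false, 4403739⟩, ⟨2812, true, false, 3572788⟩])) (.leaf [⟨2880, true, false, 5006629⟩, ⟨2880, true, true, 3794060⟩, ⟨5724, true, false, 4403739⟩, ⟨2812, true, false, 3572788⟩])) (.leaf [⟨2880, true, false, 5006629⟩, ⟨2880, true, true, 3794060⟩, ⟨5724, true, false, 4403740⟩, ⟨2812, true, false, 3572788⟩])) (.leaf [⟨2880, true, false, 5006629⟩, ⟨2880, true, true, 3794060⟩, ⟨5724, true, false, 4403739⟩, ⟨2812, true, false, 3572788⟩])) (.leaf [⟨2880, true, false, 5006629⟩, ⟨2880, true, true, 3794060⟩, ⟨5724, true, false, 4403740⟩, ⟨2812, true, false, 3572788⟩])) (.leaf [⟨2880, true, false, 5006629⟩, ⟨2880, true, true, 3794060⟩, ⟨5724, true, false, 4403740⟩, ⟨2812, true, false, 3572788⟩])) (.leaf [⟨2880,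 true, false, 5006629⟩, ⟨2812, true, false, 3572788⟩, ⟨2880, true, true, 3794060⟩, ⟨5724, true, false, 4403740⟩])) (.leaf [⟨2812, true, false, 3898626⟩, ⟨5692, false, false, 3573032⟩, ⟨2880, false, true, 3716918⟩, ⟨2880, false, false, 2485192⟩, ⟨5724, true, false, 3103448⟩])) (.leaf [⟨2880, true, false, 5183855⟩, ⟨2880, true, true, 3223181⟩, ⟨5724, true, false, 3206490⟩, ⟨5684, true, false, 2439268⟩, ⟨0, false, false, 1574474⟩, ⟨2880, false, false, 1149948⟩])) (.leaf [⟨5724, true, false, 4131720⟩, ⟨2880, true, false, 4688706⟩, ⟨2880, true, true, 3268084⟩, ⟨0, true, false, 4688706⟩])))) (.node true 8 2812 (.node true 12 2880 (.node true 16 2880 (.node true 44 2876 (.node true 56 2880 (.leaf [⟨2880, true, false, 2211176⟩, ⟨5704, true, false, 3289836⟩, ⟨2880, true, true, 4358642⟩, ⟨5688, true, false, 1905619⟩, ⟨2880, false, true, 3318404⟩, ⟨0, false, false, 1693539⟩]) (.leaf [⟨2880, true, true, 4416632⟩, ⟨5716, true, false, 3280515⟩, ⟨2876, false, false, 3793896⟩, ⟨5704,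 true, false, 1753450⟩, ⟨2880, true, false, 1817503⟩, ⟨16, false, false, 1715219⟩])) (.node true 20 2580 (.node true 24 2876 (.leaf [⟨5736, true, false, 5159306⟩, ⟨2880, true, true, 4756959⟩, ⟨2876, false, false, 5485026⟩, ⟨5716, true, false, 1375925⟩]) (.leaf [⟨5744, true, false, 4777440⟩, ⟨2880, true, false, 4912679⟩, ⟨2880, true, true, 3813291⟩, ⟨5736, true, false, 3273806⟩])) (.leaf [⟨5744, true, false, 4797974⟩, ⟨2880, true, false, 4898389⟩, ⟨2880, true, true, 3758298⟩, ⟨5740, true, false, 3322555⟩]))) (.leaf [⟨5748, true, false, 4805687⟩, ⟨2880, true, false, 4889375⟩, ⟨2880, true, true, 3717361⟩, ⟨5744, true, false, 3364792⟩])) (.leaf [⟨0, true, false, 4787460⟩, ⟨2880, true, false, 4890606⟩, ⟨5748, true, false, 3393537⟩, ⟨2880, true, true, 3705613⟩])) (.leaf [⟨0, true, false, 4808461⟩, ⟨2880, true, false, 4876738⟩, ⟨5752, true, false, 3442260⟩, ⟨2880, true, true, 3649758⟩]))) (.leaf [⟨0, true, false, 4829455⟩, ⟨2880, true, false, 4863355⟩, ⟨5756, true, false,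 3490467⟩, ⟨2880, true, true, 3593940⟩])) (by decide +kernel)
theorem yo175 : (bN 596 764 596 8992903732).Ok := ok1 (.node true 4 2736 (.node true 64 2820 (.node true 92 2880 (.node false 60 2820 (.node false 92 2880 (.leaf [⟨2880, false, true, 6073347⟩, ⟨5668, true, false, 3907541⟩, ⟨2880, false, false, 2319332⟩, ⟨5668, false, false, 1746535⟩, ⟨2880, true, true, 2730461⟩]) (.leaf [⟨2880, false, true, 4839673⟩, ⟨2880, false, false, 4436693⟩, ⟨0, false, false, 4031531⟩, ⟨5668, false, false, 2859599⟩, ⟨5668, true, false, 609720⟩])) (.leaf [⟨2880, false, true, 4668947⟩, ⟨2880, false, false, 4428390⟩, ⟨0, false, false, 4668947⟩, ⟨5700, false, false, 3010932⟩])) (.node true 68 2880 (.leaf [⟨2880, false, true, 5887714⟩, ⟨2880, true, true, 4595747⟩, ⟨5692, true, false, 3021122⟩, ⟨0, false, false, 2228916⟩, ⟨5668, true, false, 1043717⟩]) (.node true 32 2880 (.node false 720 2820 (.node false 60 2880 (.node false 92 2880 (.node false 108 2880 (.node false 116 2880 (.node false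 120 2880 (.node false 156 2880 (.node false 172 2880 (.node false 180 2880 (.node false 184 2880 (.node false 188 2880 (.node false 224 2880 (.leaf [⟨5728, true, false, 4651324⟩, ⟨2880, true, true, 4548993⟩, ⟨2880, false, true, 3912829⟩, ⟨2880, true, false, 1225332⟩, ⟨5692, true, false, 1957798⟩, ⟨5696, true, false, 480941⟩]) (.leaf [⟨2880, true, false, 4799116⟩, ⟨2880, true, true, 3732863⟩, ⟨5728, true, false, 4268590⟩, ⟨2820, true, false, 3976647⟩])) (.leaf [⟨2880, true, false, 4799116⟩, ⟨2880, true, true, 3732864⟩, ⟨5728, true, false, 4268590⟩, ⟨2820, true, false, 3976646⟩])) (.leaf [⟨2880, true, false, 4799116⟩, ⟨2880, true, true, 3732864⟩, ⟨5728, true, false, 4268590⟩, ⟨2820, true, false, 3976646⟩])) (.leaf [⟨2880, true, false, 4799116⟩, ⟨2880, true, true, 3732864⟩, ⟨5728, true, false, 4268590⟩, ⟨2820, true, false, 3976646⟩])) (.leaf [⟨2880, true, false, 4799116⟩, ⟨5728, true, false, 4268590⟩, ⟨2880, true, true, 3732864⟩, ⟨2820, true, false, 3976646⟩])) (.leaf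 [⟨2880, true, false, 4799116⟩, ⟨5728, true, false, 4268590⟩, ⟨2820, true, false, 3976646⟩, ⟨2880, true, true, 3732864⟩])) (.leaf [⟨2880, true, false, 4799116⟩, ⟨2820, true, false, 3976646⟩, ⟨2880, true, true, 3732864⟩, ⟨5728, true, false, 4268590⟩])) (.leaf [⟨2820, true, false, 3976646⟩, ⟨2880, true, false, 4799116⟩, ⟨2880, true, true, 3732864⟩, ⟨5728, true, false, 4268590⟩])) (.leaf [⟨2820, true, false, 3976646⟩, ⟨2880, true, false, 4799116⟩, ⟨2880, true, true, 3732864⟩, ⟨5728, true, false, 4268590⟩])) (.leaf [⟨2820, true, false, 3976646⟩, ⟨2880, true, false, 4799116⟩, ⟨2880, true, true, 3732864⟩, ⟨5728, true, false, 4268590⟩])) (.leaf [⟨2820, true, false, 3704308⟩, ⟨5700, false, false, 3622097⟩, ⟨2880, false, true, 3689053⟩, ⟨5728, true, false, 3151550⟩, ⟨2880, false, false, 2610208⟩])) (.leaf [⟨2880, true, false, 3552493⟩, ⟨2880, true, true, 4338735⟩, ⟨5728, true, false, 4873294⟩, ⟨5692, true, false, 2841946⟩, ⟨2880, false, true, 1170748⟩])) (.leaf [⟨5728, true,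 false, 3805235⟩, ⟨2820, false, false, 3158531⟩, ⟨0, false, false, 3271150⟩, ⟨2880, true, false, 3271150⟩, ⟨2880, true, true, 3271150⟩])))) (.node true 8 2820 (.node true 12 2880 (.node true 16 2584 (.node true 40 2880 (.leaf [⟨5720, true, false, 5064624⟩, ⟨2880, true, false, 1985562⟩, ⟨2880, true, true, 4397402⟩, ⟨5696, true, false, 2276280⟩, ⟨2880, false, true, 3053347⟩]) (.node true 20 2880 (.node true 24 2588 (.node true 28 2880 (.leaf [⟨5732, true, false, 5242617⟩, ⟨2880, true, true, 4741075⟩, ⟨2880, false, true, 5339476⟩, ⟨5720, true, false, 1454047⟩]) (.leaf [⟨5740, true, false, 4689146⟩, ⟨2880, true, false, 4818372⟩, ⟨2880, true, true, 3907874⟩, ⟨5732, true, false, 3361825⟩])) (.leaf [⟨5740, true, false, 4709016⟩, ⟨2880, true, true, 3857356⟩, ⟨2880, true, false, 4804734⟩, ⟨5736, true, false, 3406109⟩])) (.leaf [⟨5748, true, false, 4700550⟩, ⟨2880, true, true, 3837951⟩, ⟨5740, true, false, 3434584⟩, ⟨2880, true, false, 4804131⟩]))) (.leaf [⟨5748, true, false,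 5309935⟩, ⟨2880, true, true, 4461648⟩, ⟨5744, true, false, 1801062⟩, ⟨2880, false, true, 5204571⟩])) (.node true 4 2880 (.leaf [⟨5756, true, false, 5300650⟩, ⟨2880, true, false, 1322992⟩, ⟨5748, true, false, 2750938⟩, ⟨2880, true, true, 3869224⟩, ⟨2880, false, true, 3533412⟩]) (.leaf [⟨2820, false, false, 1287615⟩, ⟨5756, true, false, 5207314⟩, ⟨0, false, false, 5141144⟩, ⟨2880, false, true, 5141144⟩]))) (.node true 4 2820 (.node true 4 2880 (.leaf [⟨5756, true, false, 4732482⟩, ⟨2880, true, false, 4777565⟩, ⟨5752, true, false, 3550678⟩, ⟨2880, true, true, 3716490⟩]) (.leaf [⟨5756, true, false, 4667990⟩, ⟨2880, true, true, 2963282⟩, ⟨0, true, false, 4543831⟩, ⟨2880, true, false, 4602113⟩])) (.leaf [⟨5756, true, false, 4667990⟩, ⟨2880, true, false, 4602113⟩, ⟨0, true, false, 4543831⟩, ⟨2880, true, true, 2963282⟩])))) (.leaf [⟨0, true, false, 4738649⟩, ⟨2880, true, false, 4771016⟩, ⟨5756, true, false, 3586649⟩, ⟨2880, true, true, 3680902⟩])) (by decide +kernel)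
theorem yo174 : (bN 628 716 628 9007830740).Ok := ok1 (.node true 88 2720 (.node true 132 2880 (.node false 240 2640 (.node false 360 2880 (.leaf [⟨2880, false, true, 6255757⟩, ⟨2880, false, false, 4841229⟩, ⟨5628, true, false, 3756340⟩, ⟨5644, false, false, 1923891⟩]) (.node false 4 2880 (.node false 8 2880 (.node false 40 2880 (.leaf [⟨2880, false, true, 6376877⟩, ⟨2880, false, false, 4786230⟩, ⟨5720, false, false, 2718213⟩, ⟨5628, true, false, 2895896⟩]) (.leaf [⟨2880, false, false, 5103477⟩, ⟨5752, false, false, 4971925⟩, ⟨2880, false, true, 4839994⟩, ⟨5720, false, false, 1861819⟩])) (.leaf [⟨2880, false, false, 5086149⟩, ⟨5756, false, false, 5020572⟩, ⟨2880, false, true, 4954899⟩, ⟨5752, false, false, 1715596⟩])) (.leaf [⟨0, false, false, 5051325⟩, ⟨2880, false, false, 5051325⟩, ⟨2880, false, true, 5051324⟩, ⟨5756, false, false, 1623241⟩]))) (.node false 4 2640 (.node false 40 2880 (.leaf [⟨2880, false, true, 6376877⟩, ⟨2880, false, false, 4786230⟩, ⟨5720, false,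 false, 2718213⟩, ⟨5628, true, false, 2895896⟩]) (.leaf [⟨2880, false, false, 5031027⟩, ⟨2880, false, true, 5031026⟩, ⟨0, false, false, 5031027⟩, ⟨5720, false, false, 1684136⟩])) (.leaf [⟨2880, false, false, 5051325⟩, ⟨0, false, false, 5051325⟩, ⟨2880, false, true, 5051325⟩, ⟨5756, false, false, 1623241⟩]))) (.node true 92 2880 (.node false 240 2640 (.node false 360 2880 (.leaf [⟨2880, false, true, 6121130⟩, ⟨2880, false, false, 4994417⟩, ⟨5668, true, false, 4499653⟩, ⟨5572, false, false, 1162015⟩]) (.node false 4 2880 (.node false 40 2876 (.node true 96 2880 (.node true 100 2880 (.leaf [⟨2880, false, true, 5931604⟩, ⟨2876, true, false, 3588120⟩, ⟨5720, false, false, 3112506⟩, ⟨5660, true, false, 2476679⟩, ⟨2880, false, false, 1668307⟩]) (.leaf [⟨2880, true, false, 5439200⟩, ⟨5664, true, false, 2668173⟩, ⟨2876, true, false, 2640784⟩, ⟨5720, false, false, 2220383⟩, ⟨5660, true, false, 2104266⟩, ⟨2880, true, true, 1704410⟩])) (.leaf [⟨2880, true, false, 5435984⟩, ⟨5668,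 true, false, 2742222⟩, ⟨2876, true, false, 2549386⟩, ⟨5720, false, false, 2145160⟩, ⟨5664, true, false, 2107445⟩, ⟨2880, true, true, 1797019⟩])) (.leaf [⟨2880, false, false, 5067222⟩, ⟨5756, false, false, 5001405⟩, ⟨2880, false, true, 4935494⟩, ⟨5720, false, false, 1773095⟩])) (.leaf [⟨5756, false, false, 1623242⟩, ⟨2880, false, true, 5051323⟩, ⟨2880, false, false, 5051325⟩, ⟨0, false, false, 5051325⟩]))) (.node false 4 2640 (.node false 40 2880 (.leaf [⟨2880, false, true, 6289404⟩, ⟨2880, false, false, 4882260⟩, ⟨5720, false, false, 2079514⟩, ⟨5668, true, false, 3526038⟩]) (.leaf [⟨2880, false, true, 5031027⟩, ⟨2880, false, false, 5031027⟩, ⟨0, false, false, 5031027⟩, ⟨5720, false, false, 1684135⟩])) (.leaf [⟨5756, false, false, 1623241⟩, ⟨2880, false, true, 5051325⟩, ⟨2880, false, false, 5051325⟩, ⟨0, false, false, 5051325⟩]))) (.node true 44 2880 (.node false 240 2640 (.node false 360 2880 (.leaf [⟨2880, false, true, 6045685⟩, ⟨5716, true, false, 5328281⟩, ⟨2880,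 false, false, 5076042⟩, ⟨5668, true, false, 77612⟩, ⟨5476, false, false, 249595⟩]) (.leaf [⟨2880, true, false, 5367686⟩, ⟨2880, true, true, 4389126⟩, ⟨5716, true, false, 3274307⟩, ⟨5668, true, false, 2138227⟩, ⟨0, false, false, 1607870⟩])) (.leaf [⟨2880, true, false, 5367686⟩, ⟨2880, true, true, 4389125⟩, ⟨5716, true, false, 3274307⟩, ⟨5668, true, false, 2138227⟩, ⟨0, false, false, 1607870⟩])) (.leaf [⟨0, true, false, 4999515⟩, ⟨2880, true, true, 3102721⟩, ⟨2880, true, false, 4999515⟩, ⟨5716, true, false, 3675464⟩])))) (.node true 4 2720 (.node true 40 2880 (.node true 56 2880 (.leaf [⟨2880, false, true, 5850386⟩, ⟨5704, true, false, 3795921⟩, ⟨2880, true, true, 4543362⟩, ⟨0, false, false, 1425418⟩, ⟨5672, true, false, 1162128⟩]) (.leaf [⟨5720, true, false, 5226619⟩, ⟨2880, false, true, 5708044⟩, ⟨2880, true, true, 4563648⟩, ⟨5704, true, false, 1278905⟩])) (.node true 8 2880 (.node true 12 2564 (.node true 16 2880 (.node true 28 2568 (.node true 32 2880 (.leaf [⟨5728,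 true, false, 5252042⟩, ⟨2880, false, true, 5651436⟩, ⟨2880, true, true, 4450165⟩, ⟨5720, true, false, 1423572⟩]) (.leaf [⟨5744, true, false, 5325020⟩, ⟨2880, false, true, 5510463⟩, ⟨2880, true, true, 4166935⟩, ⟨5728, true, false, 1774798⟩])) (.leaf [⟨5744, true, false, 5325595⟩, ⟨2880, false, true, 5513966⟩, ⟨5732, true, false, 1779538⟩, ⟨2880, true, true, 4158116⟩])) (.leaf [⟨5752, true, false, 5069458⟩, ⟨2880, true, false, 5190674⟩, ⟨5744, true, false, 3041458⟩, ⟨2880, true, true, 3475625⟩])) (.leaf [⟨5752, true, false, 5333949⟩, ⟨2880, true, false, 5296284⟩, ⟨5748, true, false, 2485079⟩, ⟨2880, false, false, 3661904⟩])) (.leaf [⟨0, true, false, 5092261⟩, ⟨5752, true, false, 3144577⟩, ⟨2880, true, false, 5165435⟩, ⟨2880, true, true, 3374943⟩]))) (.leaf [⟨0, true, false, 5114242⟩, ⟨2880, true, false, 5150539⟩, ⟨5756, true, false, 3198817⟩, ⟨2880, true, true, 3313618⟩]))) (by decide +kernel)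
theorem yo171 : (bN 480 992 480 9075377212).Ok := ok1 (.node true 16 2400 (.node true 32 2864 (.node true 64 2880 (.node true 80 2656 (.leaf [⟨2880, false, true, 5405548⟩, ⟨5696, true, false, 3940482⟩, ⟨2880, false, false, 1816419⟩, ⟨2880, true, true, 3386965⟩, ⟨5680, true, false, 1440150⟩, ⟨0, false, false, 787652⟩]) (.leaf [⟨5696, true, false, 5738156⟩, ⟨2880, true, true, 4127047⟩, ⟨5680, true, false, 2830915⟩, ⟨2880, false, true, 3497979⟩, ⟨2880, false, false, 583119⟩])) (.node true 48 2880 (.leaf [⟨5712, true, false, 5480328⟩, ⟨2880, true, true, 4565817⟩, ⟨5696, true, false, 3183022⟩, ⟨2880, false, true, 3374315⟩, ⟨2880, false, false, 173734⟩]) (.node false 240 2640 (.node false 240 2880 (.node false 368 2880 (.node false 432 2816 (.node false 464 2880 (.leaf [⟨2880, true, true, 3533818⟩, ⟨5728, true, false, 3486752⟩, ⟨2864, false, false, 2343210⟩, ⟨5712, true, false, 1920098⟩, ⟨2880, true, false, 2170835⟩, ⟨2864, true, false, 1203752⟩, ⟨0, true, false, 787258⟩,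 ⟨2880, false, false, 1331492⟩]) (.leaf [⟨2880, true, true, 2494356⟩, ⟨2816, true, false, 5711126⟩, ⟨5712, true, false, 3399402⟩, ⟨2880, true, false, 2677975⟩, ⟨0, true, false, 2494356⟩])) (.leaf [⟨2880, true, true, 5522220⟩, ⟨2768, true, false, 6102862⟩, ⟨2880, true, false, 3101505⟩, ⟨0, true, false, 2050629⟩])) (.leaf [⟨2880, true, true, 5836772⟩, ⟨5712, true, false, 992329⟩, ⟨2880, true, false, 3022398⟩, ⟨5520, false, false, 6925718⟩])) (.leaf [⟨5712, true, false, 4296223⟩, ⟨0, false, false, 4256185⟩, ⟨2880, true, true, 4256185⟩, ⟨2880, true, false, 3968623⟩])) (.leaf [⟨5712, true, false, 4296223⟩, ⟨2880, true, true, 4256185⟩, ⟨0, false, false, 4256185⟩, ⟨2880, true, false, 3968623⟩])))) (.node false 240 2640 (.node false 240 2880 (.node false 368 2880 (.node false 432 2880 (.node false 464 2640 (.node false 464 2848 (.node false 480 2864 (.node false 464 2880 (.node true 16 2640 (.node true 16 2880 (.leaf [⟨2880, true, true, 2863147⟩, ⟨5744, true, false, 4020771⟩,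 ⟨5728, true, false, 3431675⟩, ⟨2880, true, false, 3811868⟩, ⟨2880, false, false, 2053043⟩, ⟨2864, true, false, 596712⟩]) (.leaf [⟨0, true, false, 2777015⟩, ⟨2880, true, true, 3125807⟩, ⟨5744, true, false, 2395600⟩, ⟨5728, true, false, 3289174⟩, ⟨2880, true, false, 1933313⟩, ⟨2864, false, false, 3256307⟩])) (.leaf [⟨5744, true, false, 4052678⟩, ⟨0, true, false, 4342001⟩, ⟨2880, true, false, 4040536⟩, ⟨2880, false, false, 4342001⟩])) (.leaf [⟨2864, true, false, 6471594⟩, ⟨2880, true, true, 4276755⟩, ⟨0, true, false, 4276755⟩, ⟨2880, true, false, 1752112⟩])) (.leaf [⟨2880, true, true, 5643705⟩, ⟨2832, true, false, 5922872⟩, ⟨0, true, false, 2392912⟩, ⟨2880, true, false, 2817727⟩])) (.leaf [⟨2880, true, true, 5643705⟩, ⟨2832, true, false, 5922872⟩, ⟨0, true, false, 2392912⟩, ⟨2880, true, false, 2817727⟩])) (.leaf [⟨2832, true, false, 10654812⟩, ⟨2880, true, false, 4863099⟩, ⟨0, true, false, 1259305⟩])) (.leaf [⟨2880, true, true, 5522220⟩, ⟨2768, true, false, 6102862⟩,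 ⟨2880, true, false, 3101505⟩, ⟨0, true, false, 2050629⟩])) (.leaf [⟨2880, true, true, 5834573⟩, ⟨5728, true, false, 975853⟩, ⟨2880, true, false, 3032814⟩, ⟨5520, false, false, 6933976⟩])) (.leaf [⟨5728, true, false, 4364513⟩, ⟨0, false, false, 4206395⟩, ⟨2880, true, true, 4206395⟩, ⟨2880, true, false, 3999914⟩])) (.leaf [⟨5728, true, false, 4364513⟩, ⟨2880, true, true, 4206395⟩, ⟨0, false, false, 4206395⟩, ⟨2880, true, false, 3999914⟩]))) (.node false 240 2640 (.node false 240 2880 (.node false 368 2880 (.node false 432 2880 (.node false 464 2880 (.node false 480 2848 (.node false 480 2864 (.node false 480 2880 (.leaf [⟨2880, true, true, 5111608⟩, ⟨5744, true, false, 4970864⟩, ⟨0, true, false, 3346682⟩, ⟨2880, true, false, 3348062⟩]) (.leaf [⟨2880, true, true, 8319533⟩, ⟨2864, true, false, 3236959⟩, ⟨0, true, false, 2610362⟩, ⟨2880, true, false, 2610362⟩])) (.leaf [⟨2864, true, false, 10541363⟩, ⟨0, true, false, 1482083⟩, ⟨2880, true, false, 4753770⟩])) (.leaf [⟨2864,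 true, false, 10541363⟩, ⟨2880, true, false, 4753770⟩, ⟨0, true, false, 1482083⟩])) (.leaf [⟨2880, true, true, 5643705⟩, ⟨2832, true, false, 5922872⟩, ⟨0, true, false, 2392912⟩, ⟨2880, true, false, 2817727⟩])) (.leaf [⟨2880, true, true, 4730117⟩, ⟨5744, true, false, 5786244⟩, ⟨2880, true, false, 1530739⟩, ⟨0, true, false, 4730117⟩])) (.leaf [⟨2880, true, true, 5832341⟩, ⟨5744, true, false, 960190⟩, ⟨5520, false, false, 6941846⟩, ⟨2880, true, false, 3042840⟩])) (.leaf [⟨5744, true, false, 4431232⟩, ⟨2880, true, false, 4032009⟩, ⟨2880, true, true, 4156987⟩, ⟨0, false, false, 4156987⟩])) (.leaf [⟨5744, true, false, 4431232⟩, ⟨2880, true, true, 4156987⟩, ⟨2880, true, false, 4032009⟩, ⟨0, false, false, 4156987⟩]))) (by decide +kernel)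
theorem yo121 : (bN 644 692 644 9031046518).Ok := ok1 (.node true 120 2720 (.node true 180 2880 (.node false 240 2640 (.node false 120 2688 (.node false 360 2796 (.node false 180 2840 (.node false 200 2880 (.leaf [⟨2880, false, true, 6226328⟩, ⟨2880, false, false, 4942402⟩, ⟨5580, true, false, 3482145⟩, ⟨5560, false, false, 2126340⟩]) (.leaf [⟨2880, false, true, 6161502⟩, ⟨2880, false, false, 5009147⟩, ⟨0, false, false, 4501021⟩, ⟨5580, true, false, 1105546⟩])) (.leaf [⟨2880, false, true, 6161502⟩, ⟨2880, false, false, 5009147⟩, ⟨0, false, false, 4501021⟩, ⟨5580, true, false, 1105546⟩])) (.leaf [⟨2880, false, true, 6161502⟩, ⟨2880, false, false, 5009147⟩, ⟨0, false, false, 4501021⟩, ⟨5580, true, false, 1105546⟩])) (.leaf [⟨2880, false, true, 6161502⟩, ⟨2880, false, false, 5009147⟩, ⟨0, false, false, 4501021⟩, ⟨5580, true, false, 1105546⟩])) (.leaf [⟨2880, false, true, 6161502⟩, ⟨2880, false, false, 5009147⟩, ⟨0, false, false, 4501021⟩, ⟨5580, true, false, 1105546⟩]))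 (.node true 124 2880 (.node false 240 2640 (.node false 360 2880 (.leaf [⟨2880, false, true, 6148884⟩, ⟨2880, false, false, 4919582⟩, ⟨5636, true, false, 4261715⟩, ⟨5580, true, false, 173933⟩, ⟨5488, false, false, 1273102⟩]) (.leaf [⟨2880, false, true, 6131757⟩, ⟨2880, false, false, 5043860⟩, ⟨0, false, false, 4091724⟩, ⟨5636, true, false, 1509876⟩])) (.leaf [⟨2880, false, true, 6131757⟩, ⟨2880, false, false, 5043860⟩, ⟨0, false, false, 4091724⟩, ⟨5636, true, false, 1509876⟩])) (.node true 60 2880 (.node false 240 2640 (.node false 360 2880 (.leaf [⟨2880, false, true, 6013219⟩, ⟨5700, true, false, 5077162⟩, ⟨2880, false, false, 4742942⟩, ⟨5636, true, false, 606244⟩, ⟨5488, false, false, 337648⟩]) (.node false 4 2880 (.node true 92 2880 (.leaf [⟨2880, false, true, 6091475⟩, ⟨5756, false, false, 3566454⟩, ⟨2880, false, false, 5086495⟩, ⟨5668, true, false, 2032793⟩]) (.leaf [⟨2880, true, false, 5788185⟩, ⟨2880, true, true, 3803458⟩, ⟨5700, true, false, 4806112⟩, ⟨5668,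 true, false, 2379462⟩])) (.leaf [⟨5756, false, false, 887190⟩, ⟨2880, false, true, 5296675⟩, ⟨0, false, false, 5296675⟩, ⟨2880, false, false, 5296675⟩]))) (.node false 4 2640 (.node false 40 2880 (.leaf [⟨2880, true, true, 5902832⟩, ⟨2880, true, false, 5277503⟩, ⟨5720, false, false, 4431340⟩, ⟨5700, true, false, 1165541⟩]) (.leaf [⟨2880, false, true, 5285626⟩, ⟨2880, false, false, 5285626⟩, ⟨0, false, false, 5285626⟩, ⟨5720, false, false, 920337⟩])) (.leaf [⟨5756, false, false, 887194⟩, ⟨2880, false, true, 5296671⟩, ⟨2880, false, false, 5296675⟩, ⟨0, false, false, 5296675⟩]))) (.leaf [⟨0, true, false, 4378132⟩, ⟨2880, true, true, 4378132⟩, ⟨2880, true, false, 4378132⟩, ⟨5700, true, false, 2117849⟩, ⟨2720, false, false, 1524971⟩])))) (.node true 4 2796 (.node true 40 2880 (.node false 240 2640 (.node false 360 2880 (.node true 56 2876 (.leaf [⟨2876, false, false, 6037756⟩, ⟨5704, true, false, 4840063⟩, ⟨2880, false, false, 4748337⟩, ⟨5640, true, false, 615761⟩, ⟨5628,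 false, false, 535299⟩]) (.leaf [⟨5720, true, false, 5378324⟩, ⟨2880, false, true, 6026873⟩, ⟨2880, false, false, 4708633⟩, ⟨5704, true, false, 663386⟩])) (.node false 4 2880 (.leaf [⟨2880, true, false, 5502870⟩, ⟨2880, true, true, 4965488⟩, ⟨5756, false, false, 2815040⟩, ⟨5720, true, false, 2421470⟩, ⟨5640, true, false, 1072347⟩]) (.leaf [⟨5756, false, false, 887190⟩, ⟨2880, false, true, 5296675⟩, ⟨0, false, false, 5296675⟩, ⟨2880, false, false, 5296675⟩]))) (.node false 4 2640 (.node false 40 2880 (.leaf [⟨2880, true, false, 5260727⟩, ⟨2880, true, true, 5920533⟩, ⟨5720, true, false, 1382262⟩, ⟨5720, false, false, 4213694⟩]) (.leaf [⟨2880, false, true, 5285626⟩, ⟨2880, false, false, 5285626⟩, ⟨0, false, false, 5285626⟩, ⟨5720, false, false, 920337⟩])) (.leaf [⟨5756, false, false, 887195⟩, ⟨2880, false, true, 5296671⟩, ⟨0, false, false, 5296675⟩, ⟨2880, false, false, 5296675⟩]))) (.node true 8 2880 (.node true 12 2880 (.node true 16 2876 (.node true 28 2880 (.leaf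 [⟨5732, true, false, 5276989⟩, ⟨2880, false, false, 3926231⟩, ⟨2880, true, false, 5634178⟩, ⟨5720, true, false, 1939818⟩]) (.leaf [⟨2880, true, true, 3490829⟩, ⟨5732, true, false, 2629824⟩, ⟨5748, true, false, 5207786⟩, ⟨2880, true, false, 5448777⟩])) (.leaf [⟨5748, true, false, 5273955⟩, ⟨2880, true, false, 5396222⟩, ⟨5744, true, false, 2814038⟩, ⟨2880, true, true, 3293001⟩])) (.leaf [⟨5752, true, false, 5287259⟩, ⟨2880, true, false, 5381296⟩, ⟨5748, true, false, 2873721⟩, ⟨2880, true, true, 3234939⟩])) (.leaf [⟨0, true, false, 5484312⟩, ⟨5752, true, false, 2344289⟩, ⟨2880, false, true, 5484312⟩, ⟨2880, true, true, 3464303⟩]))) (.leaf [⟨0, true, false, 5314479⟩, ⟨2880, true, false, 5352168⟩, ⟨5756, true, false, 2992439⟩, ⟨2880, true, true, 3118130⟩]))) (by decide +kernel)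
theorem yo168 : (bN 652 696 652 8926711146).Ok := ok1 (.node true 92 2712 (.node true 136 2880 (.node false 240 2640 (.node false 120 2792 (.node false 360 2616 (.node false 360 2720 (.node false 240 2800 (.node false 300 2836 (.node false 332 2760 (.node false 332 2848 (.node false 660 2624 (.node false 348 2880 (.leaf [⟨2880, false, true, 6198330⟩, ⟨2880, false, false, 5077424⟩, ⟨5624, true, false, 3763934⟩, ⟨5532, false, false, 1737528⟩]) (.leaf [⟨2880, false, true, 6101960⟩, ⟨5624, true, false, 1284799⟩, ⟨2880, false, false, 5073442⟩, ⟨0, false, false, 4317015⟩])) (.leaf [⟨2880, false, true, 6101960⟩, ⟨5624, true, false, 1284799⟩, ⟨2880, false, false, 5073442⟩, ⟨0, false, false, 4317015⟩])) (.leaf [⟨2880, false, true, 6101960⟩, ⟨2880, false, false, 5073442⟩, ⟨5624, true, false, 1284799⟩, ⟨0, false, false, 4317015⟩])) (.leaf [⟨2880, false, true, 6101960⟩, ⟨2880, false, false, 5073442⟩, ⟨5624, true, false, 1284799⟩, ⟨0, false, false, 4317015⟩])) (.node true 160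 2732 (.leaf [⟨2880, false, true, 6101960⟩, ⟨2880, false, false, 5073442⟩, ⟨0, false, false, 4317015⟩, ⟨5624, true, false, 1284799⟩]) (.node false 4 2880 (.leaf [⟨2880, false, true, 6093958⟩, ⟨2880, false, false, 5080645⟩, ⟨5756, false, false, 4212323⟩, ⟨5624, true, false, 1390290⟩]) (.leaf [⟨5756, false, false, 812221⟩, ⟨2880, false, true, 5321663⟩, ⟨2880, false, false, 5321666⟩, ⟨0, false, false, 5321666⟩])))) (.node false 132 2880 (.leaf [⟨2880, false, true, 5944326⟩, ⟨5628, false, false, 2385472⟩, ⟨2880, false, false, 5200249⟩, ⟨5624, true, false, 3247169⟩]) (.leaf [⟨2880, false, true, 6101960⟩, ⟨2880, false, false, 5073442⟩, ⟨0, false, false, 4317015⟩, ⟨5624, true, false, 1284799⟩]))) (.leaf [⟨2880, false, true, 6101960⟩, ⟨2880, false, false, 5073442⟩, ⟨0, false, false, 4317015⟩, ⟨5624, true, false, 1284799⟩])) (.leaf [⟨2880, false, true, 6101960⟩, ⟨2880, false, false, 5073442⟩, ⟨0, false, false, 4317015⟩, ⟨5624, true, false, 1284799⟩])) (.leaf [⟨2880, false,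 true, 6101960⟩, ⟨2880, false, false, 5073442⟩, ⟨0, false, false, 4317015⟩, ⟨5624, true, false, 1284799⟩])) (.node false 4 2640 (.leaf [⟨2880, false, true, 6101960⟩, ⟨2880, false, false, 5073442⟩, ⟨0, false, false, 4317015⟩, ⟨5624, true, false, 1284799⟩]) (.leaf [⟨2880, false, false, 5321666⟩, ⟨0, false, false, 5321666⟩, ⟨2880, false, true, 5321666⟩, ⟨5756, false, false, 812219⟩]))) (.node true 96 2880 (.node false 240 2640 (.node false 360 2880 (.leaf [⟨2880, false, true, 6004856⟩, ⟨2880, false, false, 4803037⟩, ⟨5664, true, false, 4246498⟩, ⟨5624, true, false, 520015⟩, ⟨5584, false, false, 1202810⟩]) (.node true 100 2880 (.node false 4 2880 (.node true 104 2880 (.node true 120 2880 (.leaf [⟨2880, false, true, 6083850⟩, ⟨2880, false, false, 5092159⟩, ⟨5756, false, false, 4062450⟩, ⟨5640, true, false, 1538757⟩]) (.leaf [⟨5756, false, false, 3876554⟩, ⟨2880, false, false, 5106271⟩, ⟨2880, false, true, 6071130⟩, ⟨5656, true, false, 1723261⟩])) (.leaf [⟨2880, true, false,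 5256158⟩, ⟨2880, true, true, 5389126⟩, ⟨4, true, false, 5322693⟩, ⟨5656, true, false, 809240⟩])) (.leaf [⟨2880, false, false, 5321666⟩, ⟨0, false, false, 5321666⟩, ⟨2880, false, true, 5321663⟩, ⟨5756, false, false, 812221⟩])) (.leaf [⟨2880, true, false, 5291439⟩, ⟨2880, true, true, 5291439⟩, ⟨0, true, false, 5291439⟩, ⟨5660, true, false, 902899⟩]))) (.node false 4 2640 (.node false 40 2880 (.leaf [⟨2880, false, true, 5999746⟩, ⟨2880, false, false, 5173420⟩, ⟨5720, false, false, 2923458⟩, ⟨5664, true, false, 2680592⟩]) (.leaf [⟨2880, false, true, 5311410⟩, ⟨2880, false, false, 5311410⟩, ⟨0, false, false, 5311410⟩, ⟨5720, false, false, 842985⟩])) (.leaf [⟨2880, false, false, 5321666⟩, ⟨2880, false, true, 5321666⟩, ⟨0, false, false, 5321666⟩, ⟨5756, false, false, 812218⟩]))) (.node true 48 2880 (.leaf [⟨2880, true, false, 5668488⟩, ⟨5712, true, false, 5007901⟩, ⟨2880, true, true, 4198451⟩, ⟨5664, true, false, 1902376⟩]) (.leaf [⟨0, true, false, 4499672⟩, ⟨2880, true,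 true, 4499672⟩, ⟨2880, true, false, 4499672⟩, ⟨5712, true, false, 1898671⟩, ⟨2712, false, false, 1379529⟩])))) (.node true 4 2792 (.node true 40 2880 (.leaf [⟨2880, true, false, 5650755⟩, ⟨5720, true, false, 4986387⟩, ⟨2880, true, true, 4316754⟩, ⟨5668, true, false, 1823319⟩]) (.node true 8 2880 (.leaf [⟨2880, true, false, 5361623⟩, ⟨5752, true, false, 5228649⟩, ⟨2880, true, true, 3500263⟩, ⟨5720, true, false, 2686681⟩]) (.leaf [⟨2880, true, false, 5314918⟩, ⟨0, true, false, 5314918⟩, ⟨2880, true, true, 3185706⟩, ⟨5752, true, false, 2961673⟩]))) (.leaf [⟨2880, true, false, 5318820⟩, ⟨0, true, false, 5318820⟩, ⟨2880, true, true, 3166045⟩, ⟨5756, true, false, 2973530⟩]))) (by decide +kernel)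
theorem yo62 : (bN 596 772 596 8957907133).Ok := ok1 (.node true 4 2732 (.node true 64 2880 (.node false 60 2820 (.node false 92 2880 (.node true 92 2876 (.node true 108 2880 (.leaf [⟨2880, false, true, 2984928⟩, ⟨2880, false, false, 5040807⟩, ⟨5652, true, false, 3606166⟩, ⟨5668, false, false, 2053516⟩, ⟨2880, true, false, 3091798⟩]) (.node true 96 2880 (.leaf [⟨5664, true, false, 3741987⟩, ⟨2880, false, false, 5073845⟩, ⟨2880, false, true, 3054941⟩, ⟨2880, true, false, 3005871⟩, ⟨5668, false, false, 1900571⟩]) (.node false 108 2880 (.leaf [⟨2876, false, false, 3283402⟩, ⟨2880, true, true, 4400552⟩, ⟨5668, true, false, 2856294⟩, ⟨5652, false, false, 1199156⟩, ⟨5664, true, false, 2061814⟩, ⟨2880, true, false, 1951707⟩, ⟨5696, true, false, 1024291⟩]) (.leaf [⟨2880, true, true, 4960926⟩, ⟨5664, true, false, 2265402⟩, ⟨2884, true, false, 3128709⟩, ⟨2880, true, false, 1583475⟩, ⟨5668, false, false, 2649802⟩, ⟨5668, true, false, 2188902⟩])))) (.node true 68 2580 (.node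 true 72 2880 (.node true 76 2612 (.node true 84 2880 (.leaf [⟨5676, true, false, 3807363⟩, ⟨2880, false, true, 5632446⟩, ⟨2880, true, true, 4732089⟩, ⟨5668, true, false, 1093192⟩, ⟨5668, false, false, 1512126⟩]) (.leaf [⟨5688, true, false, 3990503⟩, ⟨2880, true, true, 4744822⟩, ⟨5676, true, false, 1154906⟩, ⟨2880, false, true, 5587253⟩, ⟨5668, false, false, 1299733⟩])) (.leaf [⟨5688, true, false, 3993280⟩, ⟨2880, true, true, 4739964⟩, ⟨5684, true, false, 1155070⟩, ⟨2880, false, true, 5594613⟩, ⟨5668, false, false, 1294290⟩])) (.leaf [⟨5696, true, false, 4130860⟩, ⟨2880, true, true, 4750303⟩, ⟨5688, true, false, 1198306⟩, ⟨2880, false, true, 5559399⟩, ⟨5668, false, false, 1138349⟩])) (.leaf [⟨5696, true, false, 4132553⟩, ⟨2880, true, true, 4747799⟩, ⟨5692, true, false, 1198388⟩, ⟨2880, false, true, 5563128⟩, ⟨5668, false, false, 1135348⟩]))) (.node false 68 2880 (.leaf [⟨2880, false, false, 4780417⟩, ⟨2880, false, true, 4457976⟩, ⟨5668, false, false, 2907534⟩, ⟨5692,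 false, false, 2582891⟩, ⟨5696, true, false, 2048398⟩]) (.leaf [⟨2880, false, true, 4633284⟩, ⟨2880, false, false, 4357022⟩, ⟨0, false, false, 4633284⟩, ⟨5692, false, false, 3153625⟩]))) (.leaf [⟨2880, false, true, 4627219⟩, ⟨2880, false, false, 4373396⟩, ⟨0, false, false, 4627219⟩, ⟨5700, false, false, 3149382⟩])) (.node true 8 2880 (.node true 12 2580 (.node true 16 2880 (.node true 40 2584 (.node true 52 2880 (.leaf [⟨5708, true, false, 4778926⟩, ⟨2880, true, true, 3904802⟩, ⟨2880, true, false, 4602216⟩, ⟨5696, true, false, 3491272⟩]) (.node true 44 2880 (.leaf [⟨5716, true, false, 4699543⟩, ⟨2880, true, false, 4691283⟩, ⟨2880, true, true, 3988009⟩, ⟨5708, true, false, 3398381⟩]) (.node true 28 2880 (.leaf [⟨5732, true, false, 5150475⟩, ⟨2880, true, false, 5227631⟩, ⟨2880, false, false, 4682693⟩, ⟨5716, true, false, 1716417⟩]) (.leaf [⟨2880, true, false, 4636142⟩, ⟨5744, true, false, 4369925⟩, ⟨5732, true, false, 4342470⟩, ⟨2880, true, true, 3428678⟩])))) (.node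 true 20 2584 (.node true 24 2880 (.leaf [⟨5736, true, false, 5116740⟩, ⟨2880, true, true, 4549147⟩, ⟨2880, true, false, 1013885⟩, ⟨2880, false, true, 4092810⟩, ⟨5720, true, false, 2004634⟩]) (.leaf [⟨5744, true, false, 5217710⟩, ⟨2880, true, true, 4710565⟩, ⟨2880, false, true, 5251831⟩, ⟨5736, true, false, 1597110⟩])) (.leaf [⟨5744, true, false, 5217664⟩, ⟨2880, true, true, 4704351⟩, ⟨5740, true, false, 1599442⟩, ⟨2880, false, true, 5255759⟩]))) (.node true 12 2880 (.leaf [⟨5748, true, false, 4662567⟩, ⟨2880, true, false, 4727995⟩, ⟨5744, true, false, 3542541⟩, ⟨2880, true, true, 3844114⟩]) (.leaf [⟨2880, true, false, 4580787⟩, ⟨5748, true, false, 4560991⟩, ⟨5752, true, false, 4447960⟩, ⟨2880, true, true, 3187478⟩]))) (.leaf [⟨5752, true, false, 4667606⟩, ⟨2880, true, false, 4722163⟩, ⟨5748, true, false, 3577290⟩, ⟨2880, true, true, 3810158⟩])) (.node true 4 2880 (.leaf [⟨5756, true, false, 4673043⟩, ⟨5752, true, false, 3612498⟩, ⟨2880, true, false, 4716136⟩, ⟨2880,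 true, true, 3775540⟩]) (.leaf [⟨5756, true, false, 4624071⟩, ⟨2880, true, false, 4557723⟩, ⟨0, true, false, 4495018⟩, ⟨2880, true, true, 3100404⟩])))) (.leaf [⟨0, true, false, 4678567⟩, ⟨5756, true, false, 3647576⟩, ⟨2880, true, false, 4710236⟩, ⟨2880, true, true, 3740837⟩])) (by decide +kernel)
theorem yo163 : (bN 528 896 528 8975323913).Ok := ok1 (.node true 4 2616 (.node true 28 2880 (.node false 12 2856 (.node false 16 2880 (.node true 40 2616 (.node true 44 2880 (.node false 20 2880 (.node false 36 2876 (.node true 48 2636 (.node true 56 2880 (.node true 60 2396 (.node true 64 2644 (.node true 68 2880 (.node false 44 2880 (.node true 72 2648 (.node true 108 2880 (.leaf [⟨2880, false, true, 5953829⟩, ⟨5652, true, false, 3461130⟩, ⟨2880, false, false, 644541⟩, ⟨5716, false, false, 2344062⟩, ⟨2880, true, true, 4373653⟩]) (.leaf [⟨2880, true, false, 5014483⟩, ⟨2880, false, false, 4796046⟩, ⟨5692, true, false, 3823559⟩, ⟨5652, true, false, 1574145⟩, ⟨5716, false,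 false, 1568982⟩])) (.leaf [⟨5692, true, false, 3823136⟩, ⟨2880, true, false, 5033144⟩, ⟨5688, true, false, 1627881⟩, ⟨2880, false, false, 4756490⟩, ⟨5716, false, false, 1536565⟩])) (.leaf [⟨2880, false, true, 5389351⟩, ⟨5716, false, false, 2041832⟩, ⟨2880, false, false, 4106764⟩, ⟨5692, true, false, 5239269⟩])) (.leaf [⟨5692, true, false, 4124366⟩, ⟨5704, true, false, 5073959⟩, ⟨2880, true, false, 3444030⟩, ⟨2880, true, true, 2381251⟩, ⟨2880, false, false, 1753610⟩])) (.leaf [⟨5704, true, false, 5072914⟩, ⟨5696, true, false, 4105398⟩, ⟨2880, true, false, 1682500⟩, ⟨2880, true, true, 4134461⟩, ⟨2880, false, true, 1781943⟩])) (.leaf [⟨5704, true, false, 5002020⟩, ⟨2880, true, true, 4063519⟩, ⟨5700, true, false, 4393510⟩, ⟨2880, true, false, 2005745⟩, ⟨2880, false, true, 1312422⟩])) (.leaf [⟨2880, true, false, 3556382⟩, ⟨5716, true, false, 5058947⟩, ⟨5704, true, false, 3838355⟩, ⟨2880, true, true, 2207013⟩, ⟨2880, false, false, 2116519⟩])) (.leaf [⟨5716, true, false,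 5055322⟩, ⟨5712, true, false, 3810705⟩, ⟨2880, true, false, 3590344⟩, ⟨2880, true, true, 2162890⟩, ⟨2880, false, false, 2157955⟩])) (.leaf [⟨2880, false, true, 5183199⟩, ⟨5724, false, false, 2328495⟩, ⟨2880, false, false, 4267034⟩, ⟨5716, true, false, 4998488⟩])) (.leaf [⟨2880, false, true, 5184709⟩, ⟨5740, false, false, 2291781⟩, ⟨2880, false, false, 4285213⟩, ⟨5716, true, false, 5015512⟩])) (.leaf [⟨5732, true, false, 5139675⟩, ⟨2880, true, true, 4673608⟩, ⟨5716, true, false, 3069877⟩, ⟨2880, true, false, 670735⟩, ⟨2880, false, true, 3223321⟩])) (.leaf [⟨5732, true, false, 5137824⟩, ⟨2880, true, true, 1433590⟩, ⟨5720, true, false, 3060189⟩, ⟨2880, true, false, 3907206⟩, ⟨2880, false, false, 3238407⟩])) (.leaf [⟨2880, false, true, 5045705⟩, ⟨5744, false, false, 2475990⟩, ⟨2880, false, false, 4395664⟩, ⟨5732, true, false, 4859857⟩])) (.leaf [⟨2880, false, true, 5046217⟩, ⟨5748, false, false, 2466356⟩, ⟨2880, false, false, 4400324⟩, ⟨5732, true, false, 4864318⟩]))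 (.node true 8 2880 (.node true 12 2616 (.node true 16 2880 (.leaf [⟨5744, true, false, 5204525⟩, ⟨2880, true, true, 868720⟩, ⟨5732, true, false, 2482485⟩, ⟨2880, true, false, 4154406⟩, ⟨2880, false, false, 4067080⟩]) (.leaf [⟨5752, true, false, 5165748⟩, ⟨5744, true, false, 2712504⟩, ⟨2880, true, true, 999124⟩, ⟨2880, true, false, 4080677⟩, ⟨2880, false, false, 3819163⟩])) (.leaf [⟨5752, true, false, 5134025⟩, ⟨2880, true, false, 4035960⟩, ⟨5748, true, false, 2855119⟩, ⟨2880, false, false, 3619082⟩, ⟨2880, true, true, 1133030⟩])) (.node true 4 2880 (.leaf [⟨5756, true, false, 5101601⟩, ⟨5752, true, false, 3033265⟩, ⟨2880, true, true, 1268641⟩, ⟨2880, true, false, 3974032⟩, ⟨2880, false, false, 3399676⟩]) (.leaf [⟨5756, true, false, 2971290⟩, ⟨0, true, false, 4601976⟩, ⟨2880, true, true, 4601973⟩, ⟨2880, false, true, 4601976⟩])))) (.leaf [⟨0, true, false, 5217274⟩, ⟨5756, true, false, 2538003⟩, ⟨2880, true, true, 4864780⟩, ⟨2880, false, true, 4157159⟩])) (by decide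 +kernel)
theorem yo161 : (bN 520 912 520 8986716921).Ok := ok1 (.node true 4 2620 (.node true 24 2880 (.node true 32 2620 (.node true 36 2860 (.node true 40 2880 (.node false 8 2860 (.node false 12 2880 (.node false 28 2876 (.node true 44 2636 (.node true 48 2876 (.node true 60 2880 (.node false 36 2880 (.node true 68 2400 (.node true 72 2648 (.node true 108 2880 (.leaf [⟨2880, false, true, 5951889⟩, ⟨5652, true, false, 3442359⟩, ⟨2880, false, false, 565294⟩, ⟨5724, false, false, 2382531⟩, ⟨2880, true, true, 4435144⟩]) (.leaf [⟨5700, true, false, 3965337⟩, ⟨2880, false, false, 4846152⟩, ⟨2880, true, false, 4917436⟩, ⟨5724, false, false, 1454220⟩, ⟨5652, true, false, 1594070⟩])) (.leaf [⟨5700, true, false, 3926979⟩, ⟨5688, true, false, 1439520⟩, ⟨2880, true, true, 4865924⟩, ⟨2880, false, true, 5046298⟩, ⟨5724, false, false, 1498495⟩])) (.leaf [⟨5700, true, false, 5075713⟩, ⟨2880, true, false, 3142272⟩, ⟨5692, true, false, 4487818⟩, ⟨2880, true, true, 2686189⟩, ⟨2880,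 false, false, 1385223⟩])) (.leaf [⟨2880, false, true, 5215646⟩, ⟨5724, false, false, 2388835⟩, ⟨2880, false, false, 4088487⟩, ⟨5700, true, false, 5084248⟩])) (.leaf [⟨2880, true, true, 4519147⟩, ⟨5700, true, false, 3455654⟩, ⟨5720, true, false, 5185465⟩, ⟨2880, true, false, 785731⟩, ⟨2880, false, true, 2831218⟩])) (.leaf [⟨5720, true, false, 5179658⟩, ⟨5712, true, false, 3419616⟩, ⟨2880, true, false, 3663505⟩, ⟨2880, true, true, 1629946⟩, ⟨2880, false, false, 2884491⟩])) (.leaf [⟨5720, true, false, 5177733⟩, ⟨5716, true, false, 3407810⟩, ⟨2880, true, false, 3678797⟩, ⟨2880, true, true, 1610832⟩, ⟨2880, false, false, 2902044⟩])) (.leaf [⟨2880, false, true, 5044939⟩, ⟨5732, false, false, 2624251⟩, ⟨2880, false, false, 4222615⟩, ⟨5720, true, false, 4885411⟩])) (.leaf [⟨2880, false, true, 5046937⟩, ⟨5748, false, false, 2582432⟩, ⟨2880, false, false, 4243097⟩, ⟨5720, true, false, 4904751⟩])) (.leaf [⟨2880, false, true, 5047385⟩, ⟨5752, false, false, 2572292⟩, ⟨2880, false,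 false, 4248085⟩, ⟨5720, true, false, 4909454⟩])) (.leaf [⟨5736, true, false, 5276587⟩, ⟨2880, true, true, 4878894⟩, ⟨5720, true, false, 2594393⟩, ⟨2880, false, true, 4027342⟩])) (.leaf [⟨5736, true, false, 5274538⟩, ⟨2880, true, true, 4877021⟩, ⟨5724, true, false, 2587399⟩, ⟨2880, false, true, 4038258⟩])) (.leaf [⟨5736, true, false, 5153840⟩, ⟨2880, true, false, 3905438⟩, ⟨5728, true, false, 2954853⟩, ⟨2880, false, false, 3470395⟩, ⟨2880, true, true, 1292689⟩])) (.node true 8 2880 (.node true 12 2424 (.node true 16 2880 (.leaf [⟨5744, true, false, 5021631⟩, ⟨2880, true, true, 1597957⟩, ⟨5736, true, false, 3106407⟩, ⟨2880, true, false, 3880658⟩, ⟨2880, false, false, 3170563⟩]) (.leaf [⟨5752, true, false, 4881448⟩, ⟨5744, true, false, 3283487⟩, ⟨2880, true, true, 1924345⟩, ⟨2880, true, false, 3853438⟩, ⟨2880, false, false, 2834497⟩])) (.leaf [⟨5752, true, false, 4884869⟩, ⟨5748, true, false, 3257346⟩, ⟨2880, true, true, 1886941⟩, ⟨2880, true, false, 3872793⟩, ⟨2880,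 false, false, 2875267⟩])) (.node true 4 2880 (.leaf [⟨5756, true, false, 4897578⟩, ⟨5752, true, false, 3233862⟩, ⟨2880, true, true, 1814596⟩, ⟨2880, true, false, 3884894⟩, ⟨2880, false, false, 2946286⟩]) (.leaf [⟨5756, true, false, 3222979⟩, ⟨0, true, false, 4518079⟩, ⟨2880, true, true, 4518079⟩, ⟨2880, false, true, 4518079⟩])))) (.leaf [⟨5756, true, false, 3422562⟩, ⟨0, true, false, 4858688⟩, ⟨2880, true, true, 4675131⟩, ⟨2880, true, false, 1107045⟩, ⟨2880, false, true, 2713790⟩])) (by decide +kernel)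
theorem yo160 : (bN 496 944 496 9091695936).Ok := ok1 (.node true 8 2632 (.node true 16 2880 (.node true 48 2632 (.node true 64 2880 (.leaf [⟨5696, true, false, 4522005⟩, ⟨2880, false, true, 1838572⟩, ⟨2880, false, false, 5152823⟩, ⟨2880, true, false, 3842677⟩, ⟨0, false, false, 1421139⟩]) (.node true 56 2880 (.leaf [⟨5704, true, false, 5517297⟩, ⟨2880, true, true, 4616240⟩, ⟨2880, false, true, 3641254⟩, ⟨5696, true, false, 3002424⟩]) (.node false 488 2864 (.leaf [⟨5744, true, false, 3732840⟩, ⟨2880, true, false, 4483169⟩, ⟨2880, false, false, 4690141⟩, ⟨5704, true, false, 1569131⟩, ⟨5712, true, false, 1312529⟩, ⟨2864, true, false, 989406⟩]) (.leaf [⟨5704, true, false, 3941665⟩, ⟨2880, true, true, 4312496⟩, ⟨2880, true, false, 4210558⟩, ⟨0, false, false, 4312496⟩])))) (.node true 24 2632 (.node true 32 2880 (.leaf [⟨5728, true, false, 5343400⟩, ⟨2880, true, true, 4850563⟩, ⟨5712, true, false, 2766463⟩, ⟨2880, false, true, 3816790⟩]) (.node false 488 2640 (.node false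 248 2880 (.node false 376 2880 (.node false 440 2880 (.leaf [⟨5744, true, false, 4737980⟩, ⟨2880, true, true, 1520353⟩, ⟨2880, true, false, 4110455⟩, ⟨5728, true, false, 2596495⟩, ⟨2880, false, false, 3385874⟩, ⟨2824, true, false, 426059⟩]) (.leaf [⟨2880, true, true, 5629516⟩, ⟨2880, true, false, 3214663⟩, ⟨5744, true, false, 2498606⟩, ⟨2760, true, false, 5434431⟩])) (.leaf [⟨2880, true, true, 5912549⟩, ⟨5728, true, false, 3070274⟩, ⟨2880, true, false, 2540747⟩, ⟨5512, false, false, 3574249⟩, ⟨5744, true, false, 1679397⟩])) (.leaf [⟨5728, true, false, 4002973⟩, ⟨2880, true, false, 4258081⟩, ⟨2880, true, true, 4258081⟩, ⟨0, false, false, 4258081⟩])) (.leaf [⟨5728, true, false, 4002973⟩, ⟨2880, true, true, 4258081⟩, ⟨2880, true, false, 4258081⟩, ⟨0, false, false, 4258081⟩]))) (.leaf [⟨5744, true, false, 4940437⟩, ⟨5736, true, false, 3541737⟩, ⟨2880, true, true, 2078637⟩, ⟨2880, true, false, 3583378⟩, ⟨2880, false, false, 2633027⟩]))) (.node false 488 2640 (.node false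 248 2880 (.node false 376 2880 (.node false 440 2880 (.node false 472 2880 (.node false 488 2864 (.node true 8 2880 (.leaf [⟨5752, true, false, 4571188⟩, ⟨2880, true, true, 2227140⟩, ⟨5744, true, false, 3304048⟩, ⟨2880, true, false, 3848479⟩, ⟨2880, false, false, 2513493⟩, ⟨2856, true, false, 312868⟩]) (.leaf [⟨5752, true, false, 4340979⟩, ⟨0, true, false, 4211696⟩, ⟨2880, true, false, 4211696⟩, ⟨2880, false, false, 4012845⟩])) (.leaf [⟨2880, true, true, 5744972⟩, ⟨2880, true, false, 2926717⟩, ⟨0, true, false, 2926717⟩, ⟨2856, true, false, 5178809⟩])) (.leaf [⟨2880, true, true, 5827017⟩, ⟨2880, true, false, 2902389⟩, ⟨0, true, false, 2856726⟩, ⟨2824, true, false, 5191084⟩])) (.leaf [⟨2880, true, true, 5740568⟩, ⟨2880, true, false, 3149491⟩, ⟨0, true, false, 2556371⟩, ⟨2760, true, false, 5330786⟩])) (.leaf [⟨2880, true, true, 6037754⟩, ⟨5744, true, false, 2808742⟩, ⟨2880, true, false, 2543003⟩, ⟨0, true, false, 1652018⟩, ⟨5512, false, false, 3735700⟩])) (.leaf [⟨5744,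 true, false, 3909700⟩, ⟨2880, true, false, 4289172⟩, ⟨2880, true, true, 4289172⟩, ⟨0, false, false, 4289172⟩])) (.leaf [⟨5744, true, false, 3909701⟩, ⟨2880, true, true, 4289171⟩, ⟨2880, true, false, 4289172⟩, ⟨0, false, false, 4289172⟩]))) (.leaf [⟨5752, true, false, 3692496⟩, ⟨0, true, false, 3476265⟩, ⟨2880, true, true, 4419906⟩, ⟨2880, true, false, 2127567⟩, ⟨2880, false, true, 2051983⟩, ⟨0, false, false, 1009000⟩])) (by decide +kernel)
theorem yo71 : (bN 572 812 572 8954558591).Ok := ok1 (.node true 4 2640 (.node false 48 2832 (.node false 72 2880 (.node true 52 2880 (.node true 76 2608 (.node true 88 2880 (.node true 92 2632 (.node true 96 2880 (.leaf [⟨2880, false, true, 2302961⟩, ⟨5664, true, false, 3624664⟩, ⟨2880, false, false, 5080657⟩, ⟨2880, true, false, 3709027⟩, ⟨5688, false, false, 2059906⟩]) (.leaf [⟨2880, true, true, 4781219⟩, ⟨2880, false, true, 5569852⟩, ⟨5672, true, false, 3625330⟩, ⟨5664, true, false, 1034017⟩, ⟨5688, false, false, 1766797⟩]))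 (.leaf [⟨5672, true, false, 3625733⟩, ⟨2880, true, true, 4779282⟩, ⟨2880, false, true, 5573417⟩, ⟨5668, true, false, 1033784⟩, ⟨5688, false, false, 1765000⟩])) (.node true 80 2880 (.leaf [⟨2880, true, true, 4789853⟩, ⟨5680, true, false, 3732160⟩, ⟨2880, false, true, 5529170⟩, ⟨5672, true, false, 1091095⟩, ⟨5688, false, false, 1634938⟩]) (.leaf [⟨2880, true, false, 5187918⟩, ⟨5708, true, false, 4216930⟩, ⟨2880, false, false, 4731576⟩, ⟨5680, true, false, 1645397⟩, ⟨5688, false, false, 995395⟩]))) (.leaf [⟨5708, true, false, 4199274⟩, ⟨2880, true, true, 4836467⟩, ⟨5684, true, false, 1318675⟩, ⟨2880, false, true, 5335602⟩, ⟨5688, false, false, 1087198⟩])) (.node true 8 2880 (.node true 12 2592 (.node true 16 2880 (.node true 32 2596 (.node true 40 2880 (.leaf [⟨5720, true, false, 4928838⟩, ⟨2880, true, false, 2407129⟩, ⟨2880, true, true, 4257095⟩, ⟨5708, true, false, 3165348⟩, ⟨2880, false, true, 2018806⟩]) (.node true 36 2880 (.leaf [⟨5724, true, false, 4546776⟩, ⟨2880,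 true, true, 3994879⟩, ⟨2880, true, false, 4270005⟩, ⟨5720, true, false, 3965556⟩]) (.node true 24 2880 (.leaf [⟨5736, true, false, 5099307⟩, ⟨2880, true, true, 4659919⟩, ⟨2880, true, false, 871304⟩, ⟨5724, true, false, 2243449⟩, ⟨2880, false, true, 3903237⟩]) (.leaf [⟨5736, true, false, 4778717⟩, ⟨2880, true, false, 4382175⟩, ⟨5744, true, false, 3935523⟩, ⟨2880, true, true, 3680801⟩])))) (.node true 20 2596 (.node true 24 2880 (.leaf [⟨5736, true, false, 5224535⟩, ⟨2880, true, true, 4824298⟩, ⟨5728, true, false, 1718176⟩, ⟨2880, false, true, 5010207⟩]) (.leaf [⟨5744, true, false, 5194349⟩, ⟨2880, true, false, 4942178⟩, ⟨5736, true, false, 1798250⟩, ⟨2880, false, false, 4842438⟩])) (.leaf [⟨5744, true, false, 4394623⟩, ⟨2880, true, false, 4421447⟩, ⟨5740, true, false, 3845406⟩, ⟨2880, true, true, 4115740⟩]))) (.leaf [⟨5752, true, false, 5171211⟩, ⟨5744, true, false, 2791006⟩, ⟨2880, true, true, 4265353⟩, ⟨2880, true, false, 1086401⟩, ⟨2880, false, true, 3463246⟩]))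 (.leaf [⟨5752, true, false, 4393944⟩, ⟨2880, true, false, 4420973⟩, ⟨5748, true, false, 3893875⟩, ⟨2880, true, true, 4068423⟩])) (.node true 4 2880 (.leaf [⟨5756, true, false, 4393687⟩, ⟨5752, true, false, 3917987⟩, ⟨2880, true, true, 4044682⟩, ⟨2880, true, false, 4420860⟩]) (.leaf [⟨5756, true, false, 4545997⟩, ⟨0, true, false, 3964606⟩, ⟨2880, true, false, 4479611⟩, ⟨2880, true, true, 3787001⟩])))) (.leaf [⟨2880, false, false, 3784460⟩, ⟨2880, false, true, 4575955⟩, ⟨5688, false, false, 3840845⟩, ⟨0, false, false, 4575955⟩])) (.leaf [⟨2880, false, false, 3844490⟩, ⟨2880, false, true, 4552348⟩, ⟨5712, false, false, 3828030⟩, ⟨0, false, false, 4552348⟩])) (.leaf [⟨0, true, false, 4393412⟩, ⟨5756, true, false, 3941902⟩, ⟨2880, true, false, 4420900⟩, ⟨2880, true, true, 4021003⟩])) (by decide +kernel)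
theorem yo166 : (bN 560 836 560 8943432373).Ok := ok1 (.node false 44 2840 (.node false 64 2880 (.node true 4 2840 (.node true 44 2880 (.node true 64 2608 (.node true 76 2880 (.node true 80 2632 (.node true 84 2880 (.node true 104 2396 (.node true 116 2400 (.node true 120 2880 (.leaf [⟨2880, false, true, 6028205⟩, ⟨5644, true, false, 3364543⟩, ⟨2880, false, false, 930731⟩, ⟨2880, true, true, 4085445⟩, ⟨5696, false, false, 2368292⟩]) (.node false 76 2880 (.leaf [⟨2880, false, false, 5160813⟩, ⟨2880, false, true, 2047902⟩, ⟨2880, true, false, 3868231⟩, ⟨5684, false, false, 1874492⟩, ⟨5676, true, false, 3825778⟩]) (.leaf [⟨2880, true, true, 4862706⟩, ⟨2880, true, false, 4245782⟩, ⟨5696, false, false, 3158342⟩, ⟨5640, true, false, 3100876⟩, ⟨5676, true, false, 1409510⟩]))) (.leaf [⟨5676, true, false, 3586230⟩, ⟨2880, false, false, 4678122⟩, ⟨2880, true, false, 5261054⟩, ⟨5696, false, false, 1712376⟩, ⟨5644, true, false, 1539435⟩])) (.leaf [⟨2880, true, false, 5269186⟩,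 ⟨5676, true, false, 3587266⟩, ⟨2880, false, false, 4664802⟩, ⟨5696, false, false, 1701244⟩, ⟨5656, true, false, 1554717⟩])) (.leaf [⟨5684, true, false, 3709828⟩, ⟨2880, true, true, 4828021⟩, ⟨5676, true, false, 1105140⟩, ⟨2880, false, true, 5461037⟩, ⟨5696, false, false, 1673191⟩])) (.leaf [⟨5684, true, false, 3710138⟩, ⟨2880, true, true, 4826106⟩, ⟨5680, true, false, 1104645⟩, ⟨2880, false, true, 5464905⟩, ⟨5696, false, false, 1671423⟩])) (.leaf [⟨5716, true, false, 4343385⟩, ⟨2880, true, true, 4648193⟩, ⟨2880, true, false, 895722⟩, ⟨5684, true, false, 2206585⟩, ⟨2880, false, true, 3910021⟩, ⟨5696, false, false, 773310⟩])) (.leaf [⟨5716, true, false, 4880504⟩, ⟨2880, true, true, 4138233⟩, ⟨5696, true, false, 3750072⟩, ⟨2880, true, false, 2628627⟩, ⟨2880, false, true, 1379779⟩])) (.node true 8 2880 (.node true 12 2600 (.node true 16 2880 (.node true 28 2604 (.node true 36 2880 (.leaf [⟨5732, true, false, 5019192⟩, ⟨2880, true, true, 4550027⟩, ⟨5716, true, false, 2805570⟩,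 ⟨2880, true, false, 1330707⟩, ⟨2880, false, true, 3071720⟩]) (.leaf [⟨5744, true, false, 5132847⟩, ⟨2880, true, true, 4767238⟩, ⟨2880, false, true, 4095874⟩, ⟨5724, true, false, 2277906⟩, ⟨2880, true, false, 503351⟩])) (.leaf [⟨5744, true, false, 5114423⟩, ⟨2880, true, false, 4511985⟩, ⟨5732, true, false, 2525172⟩, ⟨2880, false, false, 3751220⟩, ⟨2880, true, true, 874416⟩])) (.leaf [⟨5752, true, false, 5220508⟩, ⟨2880, true, false, 4783511⟩, ⟨5744, true, false, 1840556⟩, ⟨2880, false, false, 4932641⟩])) (.leaf [⟨5752, true, false, 5218963⟩, ⟨2880, true, false, 4784667⟩, ⟨5748, true, false, 1851794⟩, ⟨2880, false, false, 4921792⟩])) (.node true 4 2880 (.leaf [⟨5756, true, false, 4242745⟩, ⟨5752, true, false, 4101862⟩, ⟨2880, true, false, 4244497⟩, ⟨2880, true, true, 4188112⟩]) (.leaf [⟨5756, true, false, 4327305⟩, ⟨0, true, false, 4090091⟩, ⟨2880, true, true, 4090131⟩, ⟨2880, true, false, 4269690⟩])))) (.leaf [⟨0, true, false, 4231265⟩, ⟨2880, true, false, 4255893⟩,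 ⟨5756, true, false, 4109024⟩, ⟨2880, true, true, 4181035⟩])) (.leaf [⟨2880, false, true, 4832889⟩, ⟨2880, false, false, 4832889⟩, ⟨5688, false, false, 2278548⟩, ⟨0, true, false, 4832889⟩])) (.leaf [⟨2880, false, false, 4819497⟩, ⟨2880, false, true, 4819497⟩, ⟨5676, false, false, 2318726⟩, ⟨0, true, false, 4819497⟩])) (by decide +kernel)
theorem yo94 : (bN 548 856 548 8956574435).Ok := ok1 (.node true 4 2604 (.node true 8 2604 (.node true 40 2880 (.node false 20 2844 (.node false 32 2880 (.node true 56 2608 (.node true 64 2880 (.node false 36 2880 (.node false 40 2880 (.node false 56 2880 (.node true 68 2632 (.node true 72 2636 (.node true 88 2880 (.leaf [⟨2880, false, true, 1872690⟩, ⟨5672, true, false, 3665971⟩, ⟨2880, false, false, 5111969⟩, ⟨2880, true, false, 4066182⟩, ⟨5704, false, false, 2060404⟩]) (.leaf [⟨2880, true, false, 5110914⟩, ⟨5696, true, false, 3902848⟩, ⟨2880, false, false, 4748165⟩, ⟨5672, true, false, 1621048⟩, ⟨5704, false, false, 1394241⟩]))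 (.leaf [⟨5696, true, false, 3906666⟩, ⟨2880, true, false, 5120460⟩, ⟨5688, true, false, 1643317⟩, ⟨2880, false, false, 4729941⟩, ⟨5704, false, false, 1376833⟩])) (.leaf [⟨5696, true, false, 3906666⟩, ⟨2880, true, false, 5120460⟩, ⟨5688, true, false, 1643317⟩, ⟨2880, false, false, 4729940⟩, ⟨5704, false, false, 1376833⟩])) (.leaf [⟨2880, false, true, 5610887⟩, ⟨2880, false, false, 4303977⟩, ⟨5704, false, false, 1488337⟩, ⟨5696, true, false, 5374016⟩])) (.leaf [⟨2880, false, true, 5611137⟩, ⟨2880, false, false, 4315755⟩, ⟨5720, false, false, 1465698⟩, ⟨5696, true, false, 5384626⟩])) (.leaf [⟨2880, false, true, 5611137⟩, ⟨2880, false, false, 4315755⟩, ⟨5720, false, false, 1465698⟩, ⟨5696, true, false, 5384626⟩])) (.leaf [⟨5720, true, false, 4969271⟩, ⟨2880, true, false, 1939335⟩, ⟨2880, true, true, 4297530⟩, ⟨5696, true, false, 3606845⟩, ⟨2880, false, true, 1964234⟩])) (.leaf [⟨5720, true, false, 4969256⟩, ⟨2880, true, true, 4298417⟩, ⟨2880, true, false, 1912499⟩, ⟨5704,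 true, false, 3569597⟩, ⟨2880, false, true, 2027448⟩])) (.leaf [⟨2880, false, true, 5400249⟩, ⟨5728, false, false, 1736775⟩, ⟨2880, false, false, 4486840⟩, ⟨5720, true, false, 5153352⟩])) (.leaf [⟨2880, false, true, 5400640⟩, ⟨5736, false, false, 1723860⟩, ⟨2880, false, false, 4493319⟩, ⟨5720, true, false, 5159397⟩])) (.node true 12 2880 (.node true 16 2608 (.node true 20 2880 (.leaf [⟨5744, true, false, 5186027⟩, ⟨2880, true, true, 4919493⟩, ⟨2880, false, true, 4359884⟩, ⟨2880, true, false, 155182⟩, ⟨5720, true, false, 2156630⟩]) (.leaf [⟨5752, true, false, 5202352⟩, ⟨2880, true, false, 4332499⟩, ⟨5736, true, false, 2593299⟩, ⟨2880, true, true, 715130⟩, ⟨2880, false, false, 3933936⟩])) (.leaf [⟨5752, true, false, 5264138⟩, ⟨2880, true, false, 4684309⟩, ⟨5744, true, false, 1784907⟩, ⟨2880, false, false, 5043862⟩])) (.node true 4 2880 (.node true 8 2880 (.leaf [⟨5752, true, false, 5264138⟩, ⟨2880, true, false, 4684309⟩, ⟨2880, false, false, 5043862⟩, ⟨5744, true, false,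 1784906⟩]) (.leaf [⟨5752, true, false, 2389800⟩, ⟨0, true, false, 4795805⟩, ⟨2880, true, true, 4795805⟩, ⟨2880, false, true, 4795805⟩])) (.leaf [⟨5752, true, false, 2389800⟩, ⟨0, true, false, 4795805⟩, ⟨2880, true, true, 4795805⟩, ⟨2880, false, true, 4795805⟩])))) (.leaf [⟨0, true, false, 5236225⟩, ⟨5752, true, false, 2970638⟩, ⟨2880, true, false, 577001⟩, ⟨2880, true, true, 4390751⟩, ⟨2880, false, true, 3602601⟩])) (.leaf [⟨0, true, false, 5236230⟩, ⟨5752, true, false, 2970373⟩, ⟨2880, true, false, 576768⟩, ⟨2880, true, true, 4390899⟩, ⟨2880, false, true, 3602946⟩])) (by decide +kernel)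
theorem yo92 : (bN 584 788 584 8966547233).Ok := ok1 (.node true 4 2640 (.node true 8 2752 (.node true 56 2880 (.node false 56 2828 (.node false 84 2880 (.node true 80 2588 (.node true 92 2880 (.leaf [⟨2880, false, true, 2757502⟩, ⟨5672, true, false, 3807121⟩, ⟨2880, false, false, 5089614⟩, ⟨5680, false, false, 1850197⟩, ⟨2880, true, false, 3272782⟩]) (.node true 84 2880 (.leaf [⟨5680, true, false, 3913260⟩, ⟨2880, false, false, 1902623⟩, ⟨2880, false, true, 6013227⟩, ⟨2880, true, true, 3214746⟩, ⟨5680, false, false, 1733360⟩]) (.leaf [⟨5704, true, false, 4276115⟩, ⟨2880, true, false, 5277100⟩, ⟨2880, false, false, 4662274⟩, ⟨5672, true, false, 1636122⟩, ⟨5680, false, false, 925605⟩]))) (.leaf [⟨5704, true, false, 4258893⟩, ⟨2880, true, true, 4781297⟩, ⟨2880, false, true, 5436821⟩, ⟨5680, true, false, 1275299⟩, ⟨5680, false, false, 1024906⟩])) (.leaf [⟨2880, false, true, 4770962⟩, ⟨2880, false, false, 4290527⟩, ⟨0, false, false, 3372887⟩, ⟨5672, false, false, 3182820⟩,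 ⟨5704, true, false, 1160021⟩])) (.leaf [⟨2880, false, true, 4603256⟩, ⟨2880, false, false, 4133210⟩, ⟨0, false, false, 4603256⟩, ⟨5704, false, false, 3437495⟩])) (.node true 12 2880 (.node true 16 2592 (.node true 20 2880 (.node true 24 2596 (.node true 28 2880 (.node true 32 2600 (.node true 36 2880 (.leaf [⟨5728, true, false, 5073476⟩, ⟨2880, true, false, 4891071⟩, ⟨2880, true, true, 1041898⟩, ⟨5704, true, false, 2273924⟩, ⟨2880, false, false, 3496848⟩]) (.leaf [⟨5736, true, false, 5183827⟩, ⟨2880, true, false, 5096420⟩, ⟨2880, false, false, 4759600⟩, ⟨5720, true, false, 1737369⟩])) (.leaf [⟨5736, true, false, 5221066⟩, ⟨2880, true, true, 4822000⟩, ⟨2880, false, true, 5180254⟩, ⟨5728, true, false, 1553896⟩])) (.leaf [⟨5744, true, false, 5241923⟩, ⟨2880, true, true, 4746874⟩, ⟨2880, false, true, 5105396⟩, ⟨5728, true, false, 1683023⟩])) (.leaf [⟨5744, true, false, 5241724⟩, ⟨2880, true, true, 4734855⟩, ⟨2880, false, true, 5114093⟩, ⟨5736, true, false, 1686545⟩]))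 (.node true 16 2880 (.leaf [⟨5744, true, false, 5241724⟩, ⟨2880, true, true, 4734854⟩, ⟨2880, false, true, 5114093⟩, ⟨5736, true, false, 1686545⟩]) (.leaf [⟨5744, true, false, 4738162⟩, ⟨5752, true, false, 4240933⟩, ⟨2880, true, false, 4473911⟩, ⟨2880, true, true, 3324210⟩]))) (.leaf [⟨5752, true, false, 4537278⟩, ⟨2880, true, true, 3960604⟩, ⟨5744, true, false, 3667946⟩, ⟨2880, true, false, 4611388⟩])) (.node true 4 2880 (.node true 8 2880 (.leaf [⟨5752, true, false, 4537526⟩, ⟨2880, true, false, 4611131⟩, ⟨5744, true, false, 3668382⟩, ⟨2880, true, true, 3960177⟩]) (.leaf [⟨5752, true, false, 4638629⟩, ⟨0, true, false, 4260691⟩, ⟨2880, true, true, 3371680⟩, ⟨2880, true, false, 4506216⟩])) (.leaf [⟨5752, true, false, 4638629⟩, ⟨0, true, false, 4260691⟩, ⟨2880, true, true, 3371680⟩, ⟨2880, true, false, 4506216⟩])))) (.leaf [⟨0, true, false, 4543662⟩, ⟨2880, true, false, 4603773⟩, ⟨5752, true, false, 3728524⟩, ⟨2880, true, true, 3901258⟩])) (.leaf [⟨0, true, false,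 4543442⟩, ⟨2880, true, false, 4603997⟩, ⟨5752, true, false, 3728141⟩, ⟨2880, true, true, 3901635⟩])) (by decide +kernel)
theorem yo155 : (bN 552 844 552 8977851406).Ok := ok1 (.node true 4 2604 (.node true 40 2880 (.node false 24 2844 (.node false 36 2880 (.node true 56 2604 (.node true 64 2880 (.node true 68 2632 (.node true 72 2880 (.node false 44 2880 (.node true 96 2636 (.node true 108 2880 (.leaf [⟨2880, false, true, 1948680⟩, ⟨5652, true, false, 3329103⟩, ⟨2880, false, false, 4984153⟩, ⟨5716, false, false, 2404327⟩, ⟨2880, true, false, 4110954⟩]) (.leaf [⟨5688, true, false, 3696784⟩, ⟨2880, false, true, 5429942⟩, ⟨2880, true, true, 4810741⟩, ⟨5716, false, false, 1709773⟩, ⟨5652, true, false, 1129976⟩])) (.leaf [⟨5688, true, false, 3706636⟩, ⟨2880, true, false, 5202734⟩, ⟨2880, false, false, 4652579⟩, ⟨5664, true, false, 1638437⟩, ⟨5716, false, false, 1576830⟩])) (.leaf [⟨2880, false, true, 4687383⟩, ⟨2880, false, false, 4066930⟩, ⟨5716, false, false, 3637227⟩,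 ⟨5688, true, false, 2222897⟩, ⟨5724, false, false, 2162779⟩])) (.leaf [⟨2880, true, false, 3666685⟩, ⟨5696, true, false, 4875146⟩, ⟨5688, true, false, 4438861⟩, ⟨2880, true, true, 3395110⟩, ⟨2880, false, false, 401414⟩])) (.leaf [⟨5696, true, false, 4874941⟩, ⟨2880, true, false, 3687522⟩, ⟨5692, true, false, 4417529⟩, ⟨2880, true, true, 3360016⟩, ⟨2880, false, false, 437208⟩])) (.leaf [⟨2880, true, false, 4084323⟩, ⟨5720, true, false, 5008526⟩, ⟨2880, false, false, 2244242⟩, ⟨5696, true, false, 3345382⟩, ⟨2880, true, true, 2094742⟩])) (.leaf [⟨5720, true, false, 5009312⟩, ⟨2880, true, false, 4118968⟩, ⟨2880, false, false, 2310057⟩, ⟨5704, true, false, 3308304⟩, ⟨2880, true, true, 2030576⟩])) (.leaf [⟨2880, false, true, 4990847⟩, ⟨2880, false, false, 3198452⟩, ⟨5724, false, false, 3597069⟩, ⟨0, false, false, 4990847⟩])) (.leaf [⟨2880, false, true, 5086644⟩, ⟨2880, false, false, 3174324⟩, ⟨5736, false, false, 3429606⟩, ⟨0, false, false, 5086643⟩])) (.node true 8 2880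 (.node true 12 2604 (.node true 16 2880 (.node true 28 2608 (.node true 32 2876 (.leaf [⟨2880, true, true, 4929663⟩, ⟨5728, true, false, 791703⟩, ⟨5720, true, false, 1940192⟩, ⟨5744, true, false, 4443927⟩, ⟨2880, false, true, 4671732⟩]) (.leaf [⟨5744, true, false, 5238241⟩, ⟨2880, true, true, 4905489⟩, ⟨2880, false, true, 4660250⟩, ⟨5728, true, false, 1973236⟩])) (.leaf [⟨5744, true, false, 5265811⟩, ⟨2880, true, false, 4759923⟩, ⟨5732, true, false, 1750956⟩, ⟨2880, false, false, 5000526⟩])) (.leaf [⟨5752, true, false, 5286336⟩, ⟨5744, true, false, 1942285⟩, ⟨2880, true, false, 4673726⟩, ⟨2880, false, false, 4874869⟩])) (.leaf [⟨5752, true, false, 4266080⟩, ⟨5748, true, false, 4230152⟩, ⟨2880, true, false, 4122924⟩, ⟨2880, true, true, 4158060⟩])) (.node true 4 2880 (.leaf [⟨5756, true, false, 5285918⟩, ⟨2880, true, true, 4705692⟩, ⟨5752, true, false, 2226862⟩, ⟨2880, false, true, 4558744⟩]) (.leaf [⟨5756, true, false, 4238978⟩, ⟨0, true, false, 4176184⟩, ⟨2880, true,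 false, 4185869⟩, ⟨2880, true, true, 4176185⟩])))) (.leaf [⟨0, true, false, 4201666⟩, ⟨5756, true, false, 4186706⟩, ⟨2880, true, true, 4201659⟩, ⟨2880, true, false, 4187186⟩])) (by decide +kernel)
theorem yo152 : (bN 512 916 512 9045964486).Ok := ok1 (.node true 4 2624 (.node true 20 2876 (.node true 28 2880 (.node true 32 2632 (.node true 40 2864 (.node true 44 2880 (.node false 12 2856 (.node false 16 2880 (.node true 60 2396 (.node true 68 2644 (.node true 72 2880 (.leaf [⟨5688, true, false, 3836136⟩, ⟨2880, false, true, 5848292⟩, ⟨2880, false, false, 896731⟩, ⟨2880, true, true, 4221496⟩, ⟨5744, false, false, 1974560⟩]) (.leaf [⟨5716, true, false, 5373965⟩, ⟨2880, true, true, 1151802⟩, ⟨5688, true, false, 3001288⟩, ⟨2880, true, false, 3753111⟩, ⟨2880, false, false, 3497049⟩])) (.leaf [⟨5716, true, false, 5372045⟩, ⟨2880, false, false, 3511954⟩, ⟨2880, true, false, 3766753⟩, ⟨2880, true, true, 1135314⟩, ⟨5692, true, false, 2991150⟩])) (.leaf [⟨5716, true, false,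 5428572⟩, ⟨2880, true, true, 4704918⟩, ⟨2880, false, true, 3939982⟩, ⟨5700, true, false, 2703744⟩])) (.leaf [⟨2880, false, true, 4977311⟩, ⟨5744, false, false, 2728650⟩, ⟨2880, false, false, 4175497⟩, ⟨5716, true, false, 4895758⟩])) (.leaf [⟨2880, false, true, 4977761⟩, ⟨5748, false, false, 2717874⟩, ⟨2880, false, false, 4180821⟩, ⟨5716, true, false, 4900759⟩])) (.leaf [⟨2880, true, true, 4870310⟩, ⟨5732, true, false, 5320666⟩, ⟨2880, false, true, 4009436⟩, ⟨5716, true, false, 2576804⟩])) (.leaf [⟨5732, true, false, 5318635⟩, ⟨2880, true, true, 4868473⟩, ⟨5720, true, false, 2569714⟩, ⟨2880, false, true, 4020394⟩])) (.leaf [⟨5732, true, false, 5511014⟩, ⟨2880, true, false, 4333827⟩, ⟨5728, true, false, 1879731⟩, ⟨2880, false, false, 5052644⟩])) (.node true 24 2880 (.leaf [⟨5736, true, false, 5286448⟩, ⟨2880, true, true, 4903862⟩, ⟨5732, true, false, 2517438⟩, ⟨2880, false, true, 4069468⟩]) (.leaf [⟨2880, true, true, 5014094⟩, ⟨5740, true, false, 3268409⟩, ⟨5736, true,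 false, 1986706⟩, ⟨2876, false, false, 2376607⟩, ⟨0, true, false, 1374175⟩, ⟨2880, false, true, 2189478⟩, ⟨0, false, false, 567748⟩]))) (.node true 8 2876 (.node true 12 2880 (.leaf [⟨5748, true, false, 4972614⟩, ⟨2880, true, true, 1748173⟩, ⟨5740, true, false, 3137023⟩, ⟨2880, true, false, 3875212⟩, ⟨2880, false, false, 3044195⟩]) (.node true 4 2880 (.leaf [⟨2880, true, true, 4834546⟩, ⟨5748, true, false, 3086326⟩, ⟨5756, true, false, 4936736⟩, ⟨2880, true, false, 816330⟩, ⟨2880, false, true, 3103278⟩]) (.leaf [⟨5752, true, false, 5248471⟩, ⟨2880, true, false, 5117925⟩, ⟨2880, true, true, 2520743⟩, ⟨0, false, false, 3890076⟩]))) (.node true 4 2876 (.leaf [⟨2880, true, true, 4972223⟩, ⟨5756, true, false, 5032647⟩, ⟨5752, true, false, 2689743⟩, ⟨2876, false, false, 3670935⟩, ⟨2880, true, false, 411667⟩]) (.leaf [⟨5756, true, false, 3367039⟩, ⟨0, true, false, 4448292⟩, ⟨2880, true, true, 4448292⟩, ⟨2876, false, false, 4513593⟩])))) (.leaf [⟨0, true, false, 4859319⟩,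 ⟨5756, true, false, 3423019⟩, ⟨2880, true, true, 4685869⟩, ⟨2880, true, false, 1138992⟩, ⟨2880, false, true, 2670017⟩])) (by decide +kernel)
theorem yo86 : (bN 524 908 524 8965135366).Ok := ok1 (.node true 4 2616 (.node true 28 2880 (.node false 28 2856 (.node false 40 2880 (.node true 40 2616 (.node true 48 2880 (.node true 52 2396 (.node true 84 2400 (.node true 100 2880 (.leaf [⟨2880, false, false, 5052216⟩, ⟨5660, true, false, 3486576⟩, ⟨2880, true, false, 4413386⟩, ⟨2880, false, true, 1514055⟩, ⟨5720, false, false, 2310983⟩]) (.node true 88 2640 (.node true 92 2880 (.leaf [⟨5668, true, false, 3467278⟩, ⟨2880, true, true, 4841317⟩, ⟨2880, false, true, 5454871⟩, ⟨5660, true, false, 924310⟩, ⟨5720, false, false, 2089440⟩]) (.leaf [⟨5712, true, false, 3241027⟩, ⟨2880, true, true, 4902836⟩, ⟨2880, false, true, 4998931⟩, ⟨5668, true, false, 1475917⟩, ⟨5720, false, false, 1454073⟩, ⟨5672, true, false, 704432⟩])) (.leaf [⟨5716, true, false, 3281699⟩, ⟨2880, true, false,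 4924801⟩, ⟨5672, true, false, 1577868⟩, ⟨2880, false, false, 4900307⟩, ⟨5720, false, false, 1360593⟩, ⟨5676, true, false, 731948⟩]))) (.leaf [⟨5712, true, false, 4071389⟩, ⟨2880, true, false, 4904742⟩, ⟨2880, false, false, 4920357⟩, ⟨5676, true, false, 1583008⟩, ⟨5720, false, false, 1297721⟩])) (.leaf [⟨5712, true, false, 5053593⟩, ⟨5708, true, false, 4064136⟩, ⟨2880, true, true, 4250181⟩, ⟨2880, true, false, 1477495⟩, ⟨2880, false, true, 1931811⟩])) (.leaf [⟨5732, true, false, 5167939⟩, ⟨2880, true, false, 3830442⟩, ⟨5712, true, false, 3077901⟩, ⟨2880, false, false, 3320531⟩, ⟨2880, true, true, 1380404⟩])) (.leaf [⟨5732, true, false, 5164108⟩, ⟨2880, true, false, 3857299⟩, ⟨2880, true, true, 1347027⟩, ⟨5720, true, false, 3058239⟩, ⟨2880, false, false, 3350542⟩])) (.leaf [⟨2880, false, true, 4989387⟩, ⟨5720, false, false, 2700427⟩, ⟨2880, false, false, 4310583⟩, ⟨5732, true, false, 4776819⟩])) (.leaf [⟨2880, false, true, 4991537⟩, ⟨5732, false, false, 2667032⟩, ⟨2880,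 false, false, 4326515⟩, ⟨5732, true, false, 4792131⟩])) (.node true 8 2880 (.node true 12 2424 (.node true 16 2880 (.leaf [⟨5744, true, false, 5213770⟩, ⟨2880, true, true, 4948758⟩, ⟨5732, true, false, 2511155⟩, ⟨2880, false, true, 4103532⟩]) (.leaf [⟨5752, true, false, 4981746⟩, ⟨5744, true, false, 2963840⟩, ⟨2880, true, true, 1524813⟩, ⟨2880, true, false, 3976743⟩, ⟨2880, false, false, 3330073⟩])) (.leaf [⟨5752, true, false, 4970104⟩, ⟨5748, true, false, 3011980⟩, ⟨2880, true, true, 1559323⟩, ⟨2880, true, false, 3967506⟩, ⟨2880, false, false, 3268304⟩])) (.node true 4 2880 (.leaf [⟨5756, true, false, 5127871⟩, ⟨2880, true, true, 5063217⟩, ⟨5752, true, false, 2387621⟩, ⟨2880, false, true, 4198507⟩]) (.leaf [⟨5756, true, false, 3138076⟩, ⟨0, true, false, 4546380⟩, ⟨2880, true, true, 4546380⟩, ⟨2880, false, true, 4546380⟩])))) (.leaf [⟨5756, true, false, 4566754⟩, ⟨2880, true, false, 4783906⟩, ⟨0, true, false, 1375621⟩, ⟨2880, true, true, 3638427⟩, ⟨0, false, false,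 2412508⟩])) (by decide +kernel)
theorem yo85 : (bN 556 840 556 8956750054).Ok := ok1 (.node false 40 2840 (.node false 60 2880 (.node true 4 2840 (.node true 8 2880 (.node true 44 2880 (.node true 64 2604 (.node true 72 2880 (.node true 76 2632 (.node true 80 2636 (.node true 100 2880 (.leaf [⟨2880, false, false, 5065346⟩, ⟨5664, true, false, 3538671⟩, ⟨2880, false, true, 1993898⟩, ⟨2880, true, false, 4003632⟩, ⟨5704, false, false, 2175670⟩]) (.leaf [⟨5688, true, false, 3753652⟩, ⟨2880, false, true, 5409148⟩, ⟨2880, true, true, 4828927⟩, ⟨5704, false, false, 1637701⟩, ⟨5656, true, false, 1147787⟩])) (.leaf [⟨2880, true, false, 5214984⟩, ⟨5688, true, false, 3759337⟩, ⟨2880, false, false, 4665494⟩, ⟨5680, true, false, 1631079⟩, ⟨5704, false, false, 1506322⟩])) (.leaf [⟨5688, true, false, 3759337⟩, ⟨2880, true, false, 5214984⟩, ⟨5680, true, false, 1631079⟩, ⟨2880, false, false, 4665494⟩, ⟨5704, false, false, 1506322⟩])) (.leaf [⟨5720, true, false, 4388788⟩, ⟨2880, true,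 false, 5020796⟩, ⟨5688, true, false, 1677222⟩, ⟨2880, false, false, 4834787⟩, ⟨5704, false, false, 855623⟩])) (.leaf [⟨5720, true, false, 4958996⟩, ⟨2880, true, false, 2088298⟩, ⟨2880, true, true, 4287121⟩, ⟨5696, true, false, 3449389⟩, ⟨2880, false, true, 1993412⟩])) (.node true 12 2600 (.node true 16 2604 (.node true 20 2880 (.node true 24 2608 (.node true 28 2880 (.leaf [⟨5736, true, false, 5107855⟩, ⟨2880, true, true, 4707139⟩, ⟨2880, true, false, 788913⟩, ⟨5712, true, false, 2482008⟩, ⟨2880, false, true, 3691300⟩]) (.leaf [⟨5744, true, false, 5244418⟩, ⟨2880, true, false, 4788601⟩, ⟨2880, false, false, 4978228⟩, ⟨5728, true, false, 1765968⟩])) (.leaf [⟨5744, true, false, 5238877⟩, ⟨2880, true, false, 4796795⟩, ⟨5736, true, false, 1768679⟩, ⟨2880, false, false, 4972865⟩])) (.leaf [⟨5752, true, false, 5201707⟩, ⟨2880, true, false, 4436911⟩, ⟨5736, true, false, 2575445⟩, ⟨2880, false, false, 3913349⟩, ⟨2880, true, true, 649804⟩])) (.leaf [⟨5752, true, false, 5237296⟩,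 ⟨5744, true, false, 2058670⟩, ⟨2880, true, true, 4819486⟩, ⟨2880, false, true, 4661764⟩])) (.leaf [⟨5752, true, false, 5252720⟩, ⟨2880, true, false, 4729330⟩, ⟨5744, true, false, 1890907⟩, ⟨2880, false, false, 4904260⟩]))) (.leaf [⟨0, true, false, 5236760⟩, ⟨2880, true, false, 4283552⟩, ⟨5752, true, false, 2964672⟩, ⟨2880, false, false, 3556211⟩, ⟨2880, true, true, 736021⟩])) (.leaf [⟨2880, true, false, 5019360⟩, ⟨0, true, false, 2826745⟩, ⟨5752, true, false, 2964114⟩, ⟨2880, false, false, 3556972⟩, ⟨0, false, false, 2410026⟩])) (.leaf [⟨2880, false, true, 4814781⟩, ⟨2880, false, false, 4814781⟩, ⟨5696, false, false, 2332873⟩, ⟨0, true, false, 4814781⟩])) (.leaf [⟨2880, false, false, 4840172⟩, ⟨2880, false, true, 4840172⟩, ⟨5720, false, false, 2256699⟩, ⟨0, true, false, 4840172⟩])) (by decide +kernel)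
theorem yo144 : (bN 448 1060 448 9165085233).Ok := ok1 (.node true 4 2640 (.node true 20 2880 (.node true 28 2656 (.node true 32 2876 (.node true 52 2880 (.node true 64 2672 (.node true 68 2880 (.leaf [⟨5696, true, false, 6420512⟩, ⟨2880, false, false, 5457314⟩, ⟨2880, false, true, 1787192⟩, ⟨2880, true, false, 3112198⟩]) (.leaf [⟨2880, true, true, 4099108⟩, ⟨5692, true, false, 2477020⟩, ⟨2880, false, true, 3485438⟩, ⟨5708, true, false, 5780005⟩, ⟨2880, false, false, 935646⟩])) (.leaf [⟨5708, true, false, 5776100⟩, ⟨2880, true, true, 4101272⟩, ⟨5696, true, false, 2475318⟩, ⟨2880, false, true, 3494647⟩, ⟨2880, false, false, 929878⟩])) (.node true 36 2880 (.leaf [⟨5724, true, false, 5596119⟩, ⟨2880, true, true, 4340755⟩, ⟨5708, true, false, 2607890⟩, ⟨2880, false, true, 3478859⟩, ⟨2880, false, false, 753594⟩]) (.leaf [⟨5724, true, false, 3576946⟩, ⟨2880, true, true, 1856899⟩, ⟨5728, true, false, 2499254⟩, ⟨2880, true, false, 3766074⟩, ⟨5740, true, false, 1346391⟩, ⟨2880,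 false, false, 2723383⟩, ⟨0, false, false, 1008269⟩]))) (.leaf [⟨5728, true, false, 3029159⟩, ⟨2880, true, true, 4923822⟩, ⟨5732, true, false, 2778614⟩, ⟨2880, false, true, 3595059⟩, ⟨5740, true, false, 2078680⟩, ⟨4, false, false, 371881⟩])) (.leaf [⟨5732, true, false, 3758181⟩, ⟨2880, true, true, 4450522⟩, ⟨5740, true, false, 3468997⟩, ⟨2880, true, false, 1403214⟩, ⟨2880, false, true, 2472015⟩, ⟨20, false, false, 1224287⟩])) (.node true 8 2880 (.node true 12 2652 (.node true 16 2880 (.leaf [⟨2880, true, true, 4359284⟩, ⟨5740, true, false, 3898675⟩, ⟨5744, true, false, 3152079⟩, ⟨2880, true, false, 1731549⟩, ⟨2880, false, true, 2239946⟩, ⟨16, false, false, 1395684⟩]) (.leaf [⟨5744, true, false, 4070265⟩, ⟨2880, true, true, 2334185⟩, ⟨2880, true, false, 4066493⟩, ⟨8, false, false, 1587432⟩, ⟨2880, false, false, 1940937⟩, ⟨5752, true, false, 2777904⟩])) (.leaf [⟨5748, true, false, 4094784⟩, ⟨2880, true, true, 4243984⟩, ⟨2880, true, false, 2205387⟩, ⟨5752, true, false,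 2699988⟩, ⟨8, false, false, 1633627⟩, ⟨2880, false, true, 1899446⟩])) (.leaf [⟨5752, true, false, 4486360⟩, ⟨2880, true, true, 3861682⟩, ⟨2880, true, false, 3156230⟩, ⟨5756, true, false, 1755203⟩, ⟨0, false, false, 2277983⟩, ⟨2880, false, true, 1239757⟩]))) (.leaf [⟨5756, true, false, 4153473⟩, ⟨2880, true, true, 4205490⟩, ⟨2880, true, false, 2385516⟩, ⟨0, true, false, 2526608⟩, ⟨0, false, false, 1714547⟩, ⟨2880, false, true, 1791581⟩])) (by decide +kernel)
theorem yo80 : (bN 464 1032 464 9085866422).Ok := ok1 (.node true 8 2640 (.node true 16 2880 (.node true 48 2648 (.node true 64 2872 (.node true 72 2880 (.leaf [⟨5688, true, false, 6482363⟩, ⟨2880, false, true, 4965528⟩, ⟨2880, false, false, 2509915⟩, ⟨2880, true, true, 2819410⟩]) (.leaf [⟨2880, true, true, 4787608⟩, ⟨5696, true, false, 2672050⟩, ⟨5688, true, false, 3201183⟩, ⟨2880, false, true, 3439099⟩, ⟨5744, true, false, 2316449⟩, ⟨0, false, false, 360826⟩])) (.node true 56 2872 (.leaf [⟨5704, true, false,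 5711311⟩, ⟨2880, true, true, 4136366⟩, ⟨5696, true, false, 2752537⟩, ⟨2872, false, false, 3453813⟩, ⟨2880, false, false, 723189⟩]) (.node false 240 2880 (.leaf [⟨5704, true, false, 3422960⟩, ⟨2880, true, true, 1889125⟩, ⟨5712, true, false, 2488430⟩, ⟨5744, true, false, 2078711⟩, ⟨2880, true, false, 3443991⟩, ⟨2880, false, false, 2920111⟩, ⟨5520, false, false, 533887⟩]) (.leaf [⟨5704, true, false, 4533224⟩, ⟨2880, true, true, 4152640⟩, ⟨0, false, false, 4350417⟩, ⟨2880, true, false, 3740934⟩])))) (.node true 24 2528 (.node true 32 2880 (.leaf [⟨5728, true, false, 5444609⟩, ⟨5712, true, false, 2933345⟩, ⟨2880, true, true, 1103999⟩, ⟨2880, true, false, 3419264⟩, ⟨2880, false, false, 3875999⟩]) (.leaf [⟨5728, true, false, 3898781⟩, ⟨2880, true, true, 4415737⟩, ⟨2880, true, false, 1495637⟩, ⟨5736, true, false, 2175433⟩, ⟨5744, true, false, 1347181⟩, ⟨2880, false, true, 2297447⟩, ⟨16, false, false, 1147000⟩])) (.leaf [⟨5736, true, false, 3991151⟩, ⟨2880, true, true, 4355511⟩,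 ⟨5744, true, false, 3286382⟩, ⟨2880, true, false, 1736128⟩, ⟨16, false, false, 1270450⟩, ⟨2880, false, true, 2137595⟩]))) (.node false 240 2880 (.node false 360 2880 (.leaf [⟨5744, true, false, 4183912⟩, ⟨2880, true, true, 4272412⟩, ⟨2880, true, false, 2253821⟩, ⟨5752, true, false, 1862505⟩, ⟨0, false, false, 1505923⟩, ⟨0, true, false, 944841⟩, ⟨2880, false, true, 1753801⟩]) (.leaf [⟨2880, true, true, 5541829⟩, ⟨5744, true, false, 1491208⟩, ⟨5520, false, false, 6795805⟩, ⟨2880, true, false, 2948374⟩])) (.leaf [⟨0, false, false, 4619877⟩, ⟨5744, true, false, 4070935⟩, ⟨2880, true, false, 3854790⟩, ⟨2880, true, true, 4231614⟩]))) (.leaf [⟨5752, true, false, 4195090⟩, ⟨2880, true, true, 4238729⟩, ⟨2880, true, false, 2402385⟩, ⟨0, true, false, 2644813⟩, ⟨0, false, false, 1593917⟩, ⟨2880, false, true, 1702282⟩])) (by decide +kernel)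
theorem yo157 : (bN 592 736 592 9142672058).Ok := ok1 (.node true 240 2400 (.node true 288 2704 (.leaf [⟨0, true, false, 5262378⟩, ⟨2880, false, false, 5311049⟩, ⟨2880, false, true, 4326379⟩, ⟨2880, true, false, 935999⟩, ⟨2576, false, false, 483701⟩, ⟨2688, false, false, 457709⟩]) (.node true 256 2704 (.leaf [⟨0, true, false, 5246365⟩, ⟨2880, false, true, 5246365⟩, ⟨2880, false, false, 4355558⟩, ⟨2880, true, true, 972553⟩, ⟨2544, false, false, 482194⟩, ⟨2688, false, false, 474180⟩]) (.node true 128 2704 (.node true 192 2880 (.leaf [⟨2880, false, true, 6221668⟩, ⟨2880, false, false, 4630998⟩, ⟨0, true, false, 2280631⟩, ⟨5632, true, false, 3643919⟩]) (.leaf [⟨0, true, false, 5084760⟩, ⟨2880, false, false, 5266193⟩, ⟨2880, false, true, 3775770⟩, ⟨2704, false, false, 759747⟩, ⟨2880, true, false, 1308990⟩, ⟨5632, true, false, 298768⟩, ⟨2528, false, false, 282987⟩])) (.leaf [⟨0, true, false, 5294633⟩, ⟨2880, false, true, 2088780⟩, ⟨2880, false, false, 4258966⟩, ⟨2880, true,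 false, 3205853⟩, ⟨5632, true, false, 1928984⟩])))) (.node true 16 2400 (.node true 64 2640 (.node true 80 2880 (.leaf [⟨2880, false, true, 6151753⟩, ⟨5696, true, false, 5914085⟩, ⟨2880, false, false, 4711378⟩]) (.node true 32 2880 (.leaf [⟨2880, false, true, 5991980⟩, ⟨5728, true, false, 5906306⟩, ⟨2880, false, false, 4878929⟩]) (.leaf [⟨2880, false, true, 5206070⟩, ⟨0, true, false, 5206070⟩, ⟨2880, true, true, 3888045⟩, ⟨5696, true, false, 2477030⟩]))) (.node true 32 2640 (.node true 48 2880 (.leaf [⟨5712, true, false, 5910924⟩, ⟨2880, false, true, 6071397⟩, ⟨2880, false, false, 4794895⟩]) (.node true 16 2880 (.leaf [⟨5744, true, false, 5870577⟩, ⟨2880, false, true, 5899316⟩, ⟨2880, false, false, 4792661⟩, ⟨2880, true, true, 214663⟩]) (.leaf [⟨5728, true, false, 4980133⟩, ⟨0, true, false, 4659601⟩, ⟨2880, true, false, 4659601⟩, ⟨2880, true, true, 2477881⟩]))) (.node true 16 2640 (.node true 16 2880 (.leaf [⟨5744, true, false, 5870577⟩, ⟨2880, false, true, 5684653⟩,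 ⟨2880, false, false, 5007323⟩, ⟨2880, true, false, 214663⟩]) (.leaf [⟨5744, true, false, 4963539⟩, ⟨0, true, false, 4674597⟩, ⟨2880, true, false, 4707576⟩, ⟨2880, true, true, 2431504⟩])) (.leaf [⟨5744, true, false, 4963539⟩, ⟨0, true, false, 4674597⟩, ⟨2880, true, false, 4707576⟩, ⟨2880, true, true, 2431504⟩])))) (.leaf [⟨0, true, false, 5439655⟩, ⟨2880, false, false, 3655068⟩, ⟨5744, true, false, 2634519⟩, ⟨2880, true, false, 5047974⟩]))) (by decide +kernel)
theorem yo138 : (bN 588 776 588 8998116814).Ok := ok1 (.node true 4 2640 (.node true 60 2880 (.node false 56 2824 (.node false 84 2880 (.node true 88 2584 (.node true 100 2876 (.leaf [⟨2876, false, false, 4534427⟩, ⟨5660, true, false, 3551959⟩, ⟨2880, false, false, 1921579⟩, ⟨2880, true, true, 3117008⟩, ⟨5676, false, false, 1919452⟩, ⟨2880, false, true, 1542373⟩, ⟨5700, true, false, 190418⟩]) (.leaf [⟨5700, true, false, 4315660⟩, ⟨2880, false, true, 1680776⟩, ⟨2880, false, false, 4908940⟩, ⟨2880, true, false,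 3985000⟩, ⟨5676, false, false, 1110015⟩, ⟨5660, true, false, 776825⟩])) (.leaf [⟨5700, true, false, 4354725⟩, ⟨2880, true, false, 5317131⟩, ⟨2880, false, false, 4599865⟩, ⟨5672, true, false, 1647495⟩, ⟨5676, false, false, 858000⟩])) (.leaf [⟨2880, false, true, 4663837⟩, ⟨2880, false, false, 4203558⟩, ⟨0, false, false, 4663837⟩, ⟨5676, false, false, 3245983⟩])) (.leaf [⟨2880, false, true, 4641804⟩, ⟨2880, false, false, 4262451⟩, ⟨0, false, false, 4641804⟩, ⟨5704, false, false, 3231157⟩])) (.node true 8 2880 (.node true 12 2584 (.node true 16 2876 (.node true 36 2880 (.leaf [⟨5724, true, false, 5117620⟩, ⟨2880, true, true, 4518410⟩, ⟨2880, true, false, 1342670⟩, ⟨2880, false, true, 3665023⟩, ⟨5700, true, false, 2133494⟩]) (.node true 20 2880 (.leaf [⟨5740, true, false, 5277724⟩, ⟨2880, true, true, 4669029⟩, ⟨2880, false, true, 5177038⟩, ⟨5724, true, false, 1653425⟩]) (.leaf [⟨2880, true, true, 4570138⟩, ⟨5744, true, false, 3273473⟩, ⟨2876, false, false, 3067306⟩, ⟨5740,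 true, false, 1773960⟩, ⟨5752, true, false, 2020150⟩, ⟨2880, false, true, 2072189⟩]))) (.leaf [⟨5752, true, false, 5280764⟩, ⟨2880, true, false, 1138215⟩, ⟨5744, true, false, 2655598⟩, ⟨2880, true, true, 4032582⟩, ⟨2880, false, true, 3670056⟩])) (.leaf [⟨5752, true, false, 4641208⟩, ⟨5748, true, false, 3613383⟩, ⟨2880, true, false, 4691145⟩, ⟨2880, true, true, 3831479⟩])) (.node true 4 2880 (.leaf [⟨5756, true, false, 4645628⟩, ⟨5752, true, false, 3645781⟩, ⟨2880, true, false, 4686203⟩, ⟨2880, true, true, 3799604⟩]) (.leaf [⟨5756, true, false, 4639345⟩, ⟨0, true, false, 4378588⟩, ⟨2880, true, false, 4573484⟩, ⟨2880, true, true, 3185800⟩])))) (.leaf [⟨0, true, false, 4650058⟩, ⟨5756, true, false, 3677947⟩, ⟨2880, true, false, 4681439⟩, ⟨2880, true, true, 3767771⟩])) (by decide +kernel)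
theorem yo134 : (bN 552 836 552 9011770650).Ok := ok1 (.node true 4 2604 (.node true 40 2880 (.node false 4 2880 (.node false 40 2880 (.node true 56 2604 (.node true 64 2880 (.node true 68 2632 (.node true 72 2880 (.leaf [⟨2880, false, true, 5963767⟩, ⟨5688, true, false, 3843453⟩, ⟨2880, false, false, 1334280⟩, ⟨2880, true, true, 3776504⟩, ⟨5720, false, false, 1859212⟩]) (.leaf [⟨5696, true, false, 4932387⟩, ⟨2880, true, false, 3793300⟩, ⟨2880, true, true, 3182611⟩, ⟨5688, true, false, 4190729⟩, ⟨2880, false, false, 678189⟩])) (.leaf [⟨5696, true, false, 4932502⟩, ⟨2880, true, true, 3861786⟩, ⟨2880, false, true, 715043⟩, ⟨5692, true, false, 4169482⟩, ⟨2880, true, false, 3098404⟩])) (.leaf [⟨5720, true, false, 5104851⟩, ⟨2880, true, false, 4275298⟩, ⟨2880, false, false, 2832124⟩, ⟨5696, true, false, 2957057⟩, ⟨2880, true, true, 1607886⟩])) (.leaf [⟨5720, true, false, 5340011⟩, ⟨2880, true, false, 4754181⟩, ⟨5704, true, false, 2005526⟩, ⟨2880, false, false, 4677498⟩]))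 (.leaf [⟨2880, false, true, 4757356⟩, ⟨2880, false, false, 3362688⟩, ⟨5720, false, false, 3833630⟩, ⟨5756, false, false, 4823542⟩])) (.leaf [⟨2880, false, true, 5093573⟩, ⟨2880, false, false, 3273823⟩, ⟨5756, false, false, 3316255⟩, ⟨0, false, false, 5093565⟩])) (.node true 8 2880 (.node true 12 2604 (.node true 16 2880 (.node true 28 2608 (.leaf [⟨5744, true, false, 4436970⟩, ⟨2880, true, true, 4808357⟩, ⟨2880, false, true, 4659929⟩, ⟨5720, true, false, 2005981⟩, ⟨5732, true, false, 865979⟩]) (.leaf [⟨5744, true, false, 5319943⟩, ⟨2880, true, false, 4702991⟩, ⟨2880, false, false, 4822894⟩, ⟨5732, true, false, 1931388⟩])) (.leaf [⟨5752, true, false, 5348123⟩, ⟨2880, true, false, 4605958⟩, ⟨5744, true, false, 2156150⟩, ⟨2880, false, false, 4666986⟩])) (.leaf [⟨5752, true, false, 5346929⟩, ⟨5748, true, false, 2169635⟩, ⟨2880, true, false, 4606732⟩, ⟨2880, false, false, 4653920⟩])) (.node true 4 2880 (.leaf [⟨5756, true, false, 4243360⟩, ⟨5752, true, false, 4087537⟩,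 ⟨2880, true, false, 4257479⟩, ⟨2880, true, true, 4188840⟩]) (.leaf [⟨5756, true, false, 4338378⟩, ⟨0, true, false, 4077956⟩, ⟨2880, true, false, 4282925⟩, ⟨2880, true, true, 4077957⟩])))) (.leaf [⟨0, true, false, 5379929⟩, ⟨5756, true, false, 2384827⟩, ⟨2880, false, true, 4509444⟩, ⟨2880, true, true, 4503016⟩])) (by decide +kernel)
theorem yo126 : (bN 456 1024 456 9206454338).Ok := ok1 (.node true 8 2640 (.node true 16 2880 (.node true 24 2648 (.node true 48 2880 (.node true 56 2656 (.node true 64 2880 (.leaf [⟨5696, true, false, 6399024⟩, ⟨2880, false, true, 4952414⟩, ⟨2880, false, false, 2352219⟩, ⟨2880, true, true, 3073560⟩]) (.leaf [⟨2880, true, true, 4429792⟩, ⟨5696, true, false, 2781242⟩, ⟨2880, false, true, 3453424⟩, ⟨5712, true, false, 5611483⟩, ⟨2880, false, false, 501275⟩])) (.leaf [⟨5712, true, false, 5840760⟩, ⟨5704, true, false, 1786597⟩, ⟨2880, true, false, 4004620⟩, ⟨2880, false, false, 5145239⟩])) (.node true 32 2880 (.leaf [⟨5728, true, false, 5427251⟩,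 ⟨2880, true, true, 4685775⟩, ⟨5712, true, false, 2902235⟩, ⟨2880, false, true, 3460158⟩, ⟨2880, false, false, 301796⟩]) (.leaf [⟨5728, true, false, 3801263⟩, ⟨2880, true, true, 4462625⟩, ⟨5736, true, false, 2373595⟩, ⟨2880, true, false, 1490987⟩, ⟨2880, false, true, 2314565⟩, ⟨5744, true, false, 1311231⟩, ⟨16, false, false, 1022950⟩]))) (.leaf [⟨5736, true, false, 3903968⟩, ⟨2880, true, true, 4397489⟩, ⟨5744, true, false, 3437508⟩, ⟨2880, true, false, 1745186⟩, ⟨2880, false, true, 2141912⟩, ⟨16, false, false, 1151153⟩])) (.node false 240 2880 (.node false 360 2880 (.node false 424 2832 (.node false 456 2880 (.leaf [⟨2880, true, true, 5906103⟩, ⟨5744, true, false, 4352846⟩, ⟨2880, true, false, 4178364⟩, ⟨5752, true, false, 1873339⟩, ⟨0, true, false, 466564⟩]) (.leaf [⟨2880, true, true, 2388903⟩, ⟨2832, true, false, 5913936⟩, ⟨5744, true, false, 3470589⟩, ⟨2880, true, false, 2936945⟩, ⟨0, true, false, 2066843⟩])) (.leaf [⟨2880, true, true, 4981698⟩, ⟨2784, true, false,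 6951288⟩, ⟨0, true, false, 1541349⟩, ⟨2880, true, false, 3302882⟩])) (.leaf [⟨2880, true, true, 5409501⟩, ⟨5744, true, false, 1684151⟩, ⟨5520, false, false, 6725854⟩, ⟨2880, true, false, 2957710⟩])) (.leaf [⟨0, false, false, 4684432⟩, ⟨5744, true, false, 4071893⟩, ⟨2880, true, false, 3862681⟩, ⟨2880, true, true, 4158211⟩]))) (.leaf [⟨5752, true, false, 4242300⟩, ⟨2880, true, true, 4188853⟩, ⟨2880, true, false, 2646799⟩, ⟨0, true, false, 2586740⟩, ⟨0, false, false, 1602113⟩, ⟨2880, false, true, 1510411⟩])) (by decide +kernel)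
theorem yo75 : (bN 512 928 512 8991739642).Ok := ok1 (.node true 8 2624 (.node true 24 2880 (.node true 32 2624 (.node true 56 2864 (.node false 8 2856 (.node false 16 2880 (.node true 72 2880 (.leaf [⟨2880, false, true, 5866905⟩, ⟨5688, true, false, 3673466⟩, ⟨2880, true, true, 4357236⟩, ⟨2880, false, false, 767227⟩, ⟨5744, false, false, 2112383⟩]) (.leaf [⟨2880, true, true, 4775507⟩, ⟨5704, true, false, 3139786⟩, ⟨2864, false, false, 2279343⟩, ⟨5688, true, false, 2055926⟩, ⟨5736, true, false, 1327627⟩, ⟨2880, false, true, 2292928⟩, ⟨5744, false, false, 906099⟩])) (.leaf [⟨2880, false, true, 4802704⟩, ⟨5744, false, false, 3063450⟩, ⟨2880, false, false, 4257632⟩, ⟨5736, true, false, 4653430⟩])) (.leaf [⟨2880, false, true, 4804360⟩, ⟨5752, false, false, 3038514⟩, ⟨2880, false, false, 4269465⟩, ⟨5736, true, false, 4664876⟩])) (.node true 40 2864 (.leaf [⟨5720, true, false, 4365799⟩, ⟨2880, true, true, 4560972⟩, ⟨2864, false, false, 3711073⟩, ⟨5704, true, false, 2740956⟩,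 ⟨2880, true, false, 586433⟩, ⟨24, false, false, 811983⟩]) (.leaf [⟨2880, true, true, 4880436⟩, ⟨5736, true, false, 5269430⟩, ⟨5720, true, false, 2696818⟩, ⟨2880, false, true, 3930532⟩]))) (.leaf [⟨5736, true, false, 5265246⟩, ⟨2880, true, true, 4876591⟩, ⟨5728, true, false, 2681527⟩, ⟨2880, false, true, 3953852⟩])) (.node true 16 2880 (.leaf [⟨2880, true, true, 4953681⟩, ⟨5744, true, false, 5208846⟩, ⟨5736, true, false, 2604204⟩, ⟨2880, false, true, 4010485⟩]) (.node false 496 2640 (.node false 256 2880 (.leaf [⟨2880, true, true, 4658111⟩, ⟨5744, true, false, 3394026⟩, ⟨0, true, false, 2852916⟩, ⟨2880, true, false, 1465331⟩, ⟨2880, false, true, 2569384⟩, ⟨5752, true, false, 1304192⟩, ⟨0, false, false, 533257⟩]) (.leaf [⟨5744, true, false, 3542799⟩, ⟨2880, true, false, 4411472⟩, ⟨2880, true, true, 4411472⟩, ⟨0, false, false, 4411472⟩])) (.leaf [⟨5744, true, false, 3542799⟩, ⟨2880, true, false, 4411472⟩, ⟨2880, true, true, 4411472⟩, ⟨0, false, false, 4411472⟩])))) (.leaf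 [⟨0, true, false, 4684799⟩, ⟨5752, true, false, 3749125⟩, ⟨2880, true, true, 4684799⟩, ⟨2880, true, false, 1448863⟩, ⟨2880, false, true, 2209630⟩])) (by decide +kernel)
theorem yo122 : (bN 488 976 488 9038061332).Ok := ok1 (.node true 16 2632 (.node true 24 2872 (.node true 56 2880 (.node true 72 2648 (.leaf [⟨2880, false, true, 5461322⟩, ⟨5704, true, false, 5146557⟩, ⟨2880, false, false, 1731235⟩, ⟨2880, true, true, 3538527⟩, ⟨0, false, false, 899575⟩]) (.leaf [⟨5704, true, false, 5782597⟩, ⟨5688, true, false, 2197921⟩, ⟨2880, false, false, 4867211⟩, ⟨2880, true, false, 3929487⟩])) (.node true 32 2880 (.leaf [⟨5728, true, false, 5313654⟩, ⟨2880, true, true, 4823497⟩, ⟨5704, true, false, 3127764⟩, ⟨2880, false, true, 3512301⟩]) (.node false 488 2640 (.node false 248 2880 (.node false 376 2880 (.node false 440 2880 (.leaf [⟨2880, true, true, 2853062⟩, ⟨5736, true, false, 1967296⟩, ⟨5728, true, false, 3892518⟩, ⟨2880, true, false, 3555634⟩, ⟨0, true, false, 2207972⟩,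 ⟨2832, true, false, 591766⟩, ⟨2880, false, false, 1708969⟩]) (.leaf [⟨2880, true, true, 5671897⟩, ⟨2880, true, false, 3059761⟩, ⟨0, true, false, 2276967⟩, ⟨2768, true, false, 5768591⟩])) (.leaf [⟨2880, true, true, 6589960⟩, ⟨5512, false, false, 7123314⟩, ⟨2880, true, false, 3063942⟩])) (.leaf [⟨5728, true, false, 4285198⟩, ⟨0, false, false, 4198541⟩, ⟨2880, true, true, 4198540⟩, ⟨2880, true, false, 4094937⟩])) (.leaf [⟨5728, true, false, 4285198⟩, ⟨2880, true, true, 4198540⟩, ⟨0, false, false, 4198541⟩, ⟨2880, true, false, 4094937⟩])))) (.node false 488 2640 (.leaf [⟨5736, true, false, 4150760⟩, ⟨2880, true, true, 4334769⟩, ⟨2880, true, false, 2209744⟩, ⟨5744, true, false, 1688596⟩, ⟨0, true, false, 1633773⟩, ⟨0, false, false, 1091746⟩, ⟨2880, false, true, 1667829⟩]) (.leaf [⟨5736, true, false, 4317720⟩, ⟨2880, true, true, 4174124⟩, ⟨0, false, false, 4174124⟩, ⟨2880, true, false, 4111247⟩]))) (.node true 8 2504 (.leaf [⟨5744, true, false, 4209284⟩, ⟨2880, true, true,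 4274412⟩, ⟨2880, true, false, 2522164⟩, ⟨0, true, false, 2991741⟩, ⟨0, false, false, 1282671⟩, ⟨2880, false, true, 1496943⟩]) (.leaf [⟨5752, true, false, 4203225⟩, ⟨2880, true, true, 4233686⟩, ⟨2880, true, false, 2630952⟩, ⟨0, true, false, 2862240⟩, ⟨0, false, false, 1371446⟩, ⟨2880, false, true, 1475667⟩]))) (by decide +kernel)
theorem yo119 : (bN 448 1040 448 9226366393).Ok := ok1 (.node true 16 2640 (.node true 32 2880 (.node true 64 2656 (.node true 80 2880 (.leaf [⟨5680, true, false, 6538181⟩, ⟨2880, false, true, 4907385⟩, ⟨2880, false, false, 2368984⟩, ⟨2880, true, true, 2962666⟩]) (.leaf [⟨2880, true, true, 4311180⟩, ⟨5696, true, false, 3177089⟩, ⟨5680, true, false, 2612262⟩, ⟨2880, false, true, 3449304⟩, ⟨5728, true, false, 2528509⟩, ⟨2880, false, false, 698873⟩])) (.node true 48 2528 (.leaf [⟨5696, true, false, 1620786⟩, ⟨5712, true, false, 2696439⟩, ⟨5728, true, false, 3130404⟩, ⟨2880, true, false, 4055018⟩, ⟨2880, false, false, 5274569⟩]) (.leaf [⟨5728,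 true, false, 5489001⟩, ⟨5712, true, false, 2743183⟩, ⟨2880, true, true, 1102452⟩, ⟨2880, true, false, 3487211⟩, ⟨2880, false, false, 3955368⟩]))) (.node false 240 2880 (.node false 368 2880 (.leaf [⟨5728, true, false, 3645878⟩, ⟨2880, true, true, 2488550⟩, ⟨5744, true, false, 2538453⟩, ⟨2880, true, false, 3620127⟩, ⟨0, true, false, 1457000⟩, ⟨2880, false, false, 2091246⟩, ⟨2800, true, false, 935962⟩]) (.leaf [⟨2880, true, true, 5292522⟩, ⟨5520, false, false, 8201471⟩, ⟨2880, true, false, 3283223⟩])) (.leaf [⟨0, false, false, 4755220⟩, ⟨5728, true, false, 4161762⟩, ⟨2880, true, true, 4101252⟩, ⟨2880, true, false, 3758982⟩]))) (.node false 240 2640 (.node false 368 2656 (.node false 432 2832 (.node false 240 2880 (.leaf [⟨5744, true, false, 4084502⟩, ⟨2880, true, true, 4310288⟩, ⟨0, true, false, 2862211⟩, ⟨2880, true, false, 2251818⟩, ⟨2880, false, true, 1805643⟩, ⟨0, false, false, 1462755⟩]) (.leaf [⟨2832, true, false, 6259174⟩, ⟨0, true, false, 4884019⟩, ⟨2880, true,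 true, 4884019⟩, ⟨2880, true, false, 750004⟩])) (.leaf [⟨0, false, false, 4851270⟩, ⟨2880, true, false, 3801371⟩, ⟨2880, true, true, 4125535⟩, ⟨5744, true, false, 3999040⟩])) (.leaf [⟨2880, true, false, 3801371⟩, ⟨0, false, false, 4851270⟩, ⟨2880, true, true, 4125535⟩, ⟨5744, true, false, 3999040⟩])) (.leaf [⟨0, false, false, 4851270⟩, ⟨5744, true, false, 3999040⟩, ⟨2880, true, true, 4125535⟩, ⟨2880, true, false, 3801371⟩]))) (by decide +kernel)
theorem yo59 : (bN 544 864 544 8957797590).Ok := ok1 (.node true 8 2608 (.node true 40 2880 (.node false 8 2848 (.node false 40 2880 (.node true 56 2608 (.node true 64 2880 (.node true 72 2632 (.node false 56 2880 (.node true 88 2880 (.leaf [⟨5672, true, false, 3687590⟩, ⟨2880, false, false, 5118788⟩, ⟨2880, false, true, 1809339⟩, ⟨2880, true, false, 4110502⟩, ⟨5704, false, false, 2050997⟩]) (.leaf [⟨5696, true, false, 3910133⟩, ⟨2880, true, true, 4862076⟩, ⟨5672, true, false, 1286385⟩, ⟨2880, false, true, 5240683⟩, ⟨5704,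 false, false, 1477938⟩])) (.leaf [⟨2880, false, true, 5560799⟩, ⟨2880, false, false, 4268099⟩, ⟨5704, false, false, 1610489⟩, ⟨5696, true, false, 5337829⟩])) (.leaf [⟨5696, true, false, 3749921⟩, ⟨2880, true, false, 5145329⟩, ⟨5688, true, false, 1650797⟩, ⟨2880, false, false, 4704773⟩, ⟨5720, false, false, 1526395⟩])) (.leaf [⟨5720, true, false, 4978905⟩, ⟨2880, true, true, 4307422⟩, ⟨5696, true, false, 3672357⟩, ⟨2880, true, false, 1851341⟩, ⟨2880, false, true, 1967191⟩])) (.leaf [⟨5720, true, false, 4978389⟩, ⟨2880, true, false, 3855218⟩, ⟨5704, true, false, 3635807⟩, ⟨2880, false, false, 2027584⟩, ⟨2880, true, true, 2280218⟩])) (.leaf [⟨2880, false, true, 5350554⟩, ⟨5720, false, false, 1873654⟩, ⟨2880, false, false, 4443109⟩, ⟨5720, true, false, 5109899⟩])) (.leaf [⟨2880, false, true, 5352326⟩, ⟨5752, false, false, 1818262⟩, ⟨2880, false, false, 4470827⟩, ⟨5720, true, false, 5135801⟩])) (.node true 16 2880 (.leaf [⟨5744, true, false, 5183362⟩, ⟨2880, true, true,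 4916906⟩, ⟨2880, false, true, 4255040⟩, ⟨5720, true, false, 2247713⟩, ⟨2880, true, false, 174195⟩]) (.node true 8 2880 (.leaf [⟨5752, true, false, 5228520⟩, ⟨2880, true, true, 4870050⟩, ⟨5744, true, false, 2221839⟩, ⟨2880, false, true, 4456807⟩]) (.leaf [⟨5752, true, false, 4563693⟩, ⟨0, true, false, 4431086⟩, ⟨2880, true, false, 4431086⟩, ⟨2880, false, false, 3351350⟩])))) (.leaf [⟨0, true, false, 5261666⟩, ⟨5752, true, false, 2393128⟩, ⟨2880, true, true, 4747847⟩, ⟨2880, false, true, 4374574⟩])) (by decide +kernel)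
theorem yo70 : (bN 536 880 536 8962842094).Ok := ok1 (.node true 8 2608 (.node true 40 2880 (.node false 32 2848 (.node false 48 2880 (.node true 56 2608 (.node true 64 2880 (.node true 72 2400 (.node true 80 2640 (.node true 112 2880 (.leaf [⟨2880, false, true, 5984525⟩, ⟨5648, true, false, 3403028⟩, ⟨2880, true, true, 4330646⟩, ⟨2880, false, false, 674945⟩, ⟨5712, false, false, 2384072⟩]) (.leaf [⟨2880, true, false, 5036328⟩, ⟨2880, false, false, 4803850⟩, ⟨5696, true, false, 3870582⟩, ⟨5712, false, false, 1488834⟩, ⟨5648, true, false, 1577621⟩])) (.leaf [⟨5696, true, false, 3873414⟩, ⟨2880, true, false, 5053674⟩, ⟨5680, true, false, 1623037⟩, ⟨2880, false, false, 4768977⟩, ⟨5712, false, false, 1458115⟩])) (.leaf [⟨5696, true, false, 4902801⟩, ⟨2880, true, false, 3222049⟩, ⟨5688, true, false, 4829021⟩, ⟨2880, true, true, 3400199⟩, ⟨2880, false, false, 423145⟩])) (.leaf [⟨2880, true, false, 3656491⟩, ⟨5720, true, false, 5006449⟩, ⟨5696, true, false, 3778426⟩, ⟨2880,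 false, false, 2001201⟩, ⟨2880, true, true, 2334650⟩])) (.leaf [⟨5720, true, false, 5004957⟩, ⟨2880, true, false, 3693586⟩, ⟨5704, true, false, 3743432⟩, ⟨2880, true, true, 2278917⟩, ⟨2880, false, false, 2056323⟩])) (.leaf [⟨2880, false, true, 5249522⟩, ⟨5712, false, false, 2143963⟩, ⟨2880, false, false, 4358534⟩, ⟨5720, true, false, 5025197⟩])) (.leaf [⟨2880, false, true, 5251026⟩, ⟨5728, false, false, 2110084⟩, ⟨2880, false, false, 4375220⟩, ⟨5720, true, false, 5040886⟩])) (.node true 16 2880 (.leaf [⟨5744, true, false, 5223767⟩, ⟨2880, true, true, 4957617⟩, ⟨2880, false, true, 4338049⟩, ⟨5720, true, false, 2257783⟩]) (.node true 8 2880 (.leaf [⟨5752, true, false, 5231927⟩, ⟨2880, true, true, 4878905⟩, ⟨5744, true, false, 2365580⟩, ⟨2880, false, true, 4300805⟩]) (.leaf [⟨5752, true, false, 2742308⟩, ⟨0, true, false, 4678303⟩, ⟨2880, true, true, 4678303⟩, ⟨2880, false, true, 4678303⟩])))) (.leaf [⟨0, true, false, 5265846⟩, ⟨5752, true, false, 2538741⟩, ⟨2880, true,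 true, 4756875⟩, ⟨2880, false, true, 4215755⟩])) (by decide +kernel)
theorem yo116 : (bN 592 744 592 9097521449).Ok := ok1 (.node true 240 2400 (.node true 256 2824 (.leaf [⟨2880, false, true, 5038165⟩, ⟨2880, false, false, 3581693⟩, ⟨0, true, false, 5038165⟩, ⟨2880, true, true, 1609824⟩, ⟨2824, false, false, 875790⟩, ⟨5504, true, false, 633580⟩]) (.node true 248 2712 (.leaf [⟨0, true, false, 5289590⟩, ⟨2880, false, false, 5364029⟩, ⟨2880, false, true, 4013909⟩, ⟨2880, true, false, 1275680⟩, ⟨2712, false, false, 430870⟩, ⟨2536, false, false, 403138⟩]) (.node true 120 2824 (.leaf [⟨2880, false, false, 1717239⟩, ⟨2880, false, true, 3462199⟩, ⟨2824, false, false, 3055689⟩, ⟨0, false, false, 3462199⟩, ⟨5640, true, false, 2035777⟩, ⟨2880, true, true, 3044113⟩]) (.leaf [⟨0, true, false, 4990569⟩, ⟨2880, true, false, 4990569⟩, ⟨2880, false, false, 3984965⟩, ⟨5640, true, false, 2811113⟩])))) (.node true 8 2400 (.node true 48 2640 (.node true 64 2880 (.leaf [⟨2880, false, true,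 5568377⟩, ⟨2880, false, false, 4803127⟩, ⟨5696, true, false, 5842658⟩, ⟨2880, true, false, 563053⟩]) (.node true 56 2880 (.leaf [⟨5704, true, false, 5805502⟩, ⟨2880, true, true, 808670⟩, ⟨2880, false, true, 6074557⟩, ⟨2880, false, false, 4088487⟩]) (.node true 24 2880 (.leaf [⟨5736, true, false, 5749936⟩, ⟨2880, false, true, 4765259⟩, ⟨2880, false, false, 5135707⟩, ⟨2880, true, false, 1126315⟩]) (.leaf [⟨5736, true, false, 4970587⟩, ⟨0, true, false, 4624835⟩, ⟨2880, true, false, 4624835⟩, ⟨2880, true, true, 2556959⟩])))) (.node true 16 2640 (.node true 24 2880 (.leaf [⟨5736, true, false, 5749936⟩, ⟨2880, false, true, 5891573⟩, ⟨2880, false, false, 4009392⟩, ⟨2880, true, true, 1126315⟩]) (.leaf [⟨0, true, false, 5388680⟩, ⟨2880, false, false, 3829561⟩, ⟨5736, true, false, 2525671⟩, ⟨2880, true, false, 5033305⟩])) (.leaf [⟨0, true, false, 5421217⟩, ⟨5744, true, false, 2653270⟩, ⟨2880, false, false, 3713780⟩, ⟨2880, true, false, 4988948⟩]))) (.leaf [⟨2880, false, true,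 4995589⟩, ⟨0, true, false, 5639825⟩, ⟨5752, true, false, 2460758⟩, ⟨2880, true, true, 3681044⟩]))) (by decide +kernel)
theorem yo112 : (bN 464 1008 464 9168302504).Ok := ok1 (.node true 16 2640 (.node true 32 2880 (.node true 48 2640 (.node true 80 2880 (.leaf [⟨5680, true, false, 6520719⟩, ⟨2880, false, true, 4999769⟩, ⟨2880, false, false, 2478501⟩, ⟨2880, true, true, 2778228⟩]) (.node true 64 2880 (.leaf [⟨5696, true, false, 6394749⟩, ⟨2880, true, true, 2982394⟩, ⟨2880, false, true, 4985324⟩, ⟨2880, false, false, 2414748⟩]) (.leaf [⟨5696, true, false, 1736888⟩, ⟨5712, true, false, 2436896⟩, ⟨5728, true, false, 3329069⟩, ⟨2880, true, false, 4077809⟩, ⟨2880, false, false, 5196553⟩]))) (.leaf [⟨5728, true, false, 5362203⟩, ⟨2880, true, true, 1363378⟩, ⟨5712, true, false, 3062870⟩, ⟨2880, true, false, 3437718⟩, ⟨2880, false, false, 3551047⟩])) (.node false 240 2864 (.node false 368 2880 (.node false 432 2832 (.node false 464 2880 (.leaf [⟨2880, true, true, 5785984⟩,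 ⟨5728, true, false, 4362561⟩, ⟨2880, true, false, 4016725⟩, ⟨5744, true, false, 1930146⟩, ⟨0, true, false, 681800⟩]) (.leaf [⟨2880, true, true, 3638653⟩, ⟨2832, true, false, 6807211⟩, ⟨2880, true, false, 2692699⟩, ⟨0, true, false, 3638653⟩])) (.leaf [⟨2880, true, true, 5175984⟩, ⟨2784, true, false, 6605005⟩, ⟨2880, true, false, 3215430⟩, ⟨0, true, false, 1780797⟩])) (.leaf [⟨5728, true, false, 4344053⟩, ⟨2880, true, false, 3890521⟩, ⟨2880, true, true, 4146248⟩, ⟨0, false, false, 4396394⟩])) (.leaf [⟨5728, true, false, 4344053⟩, ⟨0, false, false, 4396394⟩, ⟨2880, true, true, 4146248⟩, ⟨2880, true, false, 3890521⟩]))) (.node false 240 2864 (.node false 368 2880 (.leaf [⟨5744, true, false, 4187220⟩, ⟨2880, true, true, 4287706⟩, ⟨2880, true, false, 2417858⟩, ⟨0, true, false, 2930357⟩, ⟨0, false, false, 1357350⟩, ⟨2880, false, true, 1596726⟩]) (.leaf [⟨5744, true, false, 4154156⟩, ⟨2880, true, false, 3931945⟩, ⟨2880, true, true, 4180682⟩, ⟨0, false, false, 4510432⟩]))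 (.leaf [⟨0, false, false, 4510433⟩, ⟨5744, true, false, 4154156⟩, ⟨2880, true, true, 4180682⟩, ⟨2880, true, false, 3931945⟩]))) (by decide +kernel)
theorem yo69 : (bN 648 696 648 8954723082).Ok := ok1 (.node true 120 2720 (.node true 176 2880 (.node false 240 2640 (.node false 120 2680 (.node false 360 2792 (.node false 184 2832 (.node false 208 2880 (.leaf [⟨2880, false, true, 6251939⟩, ⟨2880, false, false, 4947709⟩, ⟨5584, true, false, 3506868⟩, ⟨5552, false, false, 2070700⟩]) (.leaf [⟨2880, false, true, 6160221⟩, ⟨2880, false, false, 5010902⟩, ⟨0, false, false, 4488608⟩, ⟨5584, true, false, 1117485⟩])) (.leaf [⟨2880, false, true, 6160221⟩, ⟨2880, false, false, 5010902⟩, ⟨0, false, false, 4488608⟩, ⟨5584, true, false, 1117485⟩])) (.leaf [⟨2880, false, true, 6160221⟩, ⟨2880, false, false, 5010902⟩, ⟨0, false, false, 4488608⟩, ⟨5584, true, false, 1117485⟩])) (.leaf [⟨2880, false, true, 6160221⟩, ⟨2880, false, false, 5010902⟩, ⟨0, false, false, 4488608⟩, ⟨5584, true,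 false, 1117485⟩])) (.leaf [⟨2880, false, true, 6160221⟩, ⟨2880, false, false, 5010902⟩, ⟨0, false, false, 4488608⟩, ⟨5584, true, false, 1117485⟩])) (.node true 128 2880 (.leaf [⟨2880, false, true, 6179013⟩, ⟨2880, false, false, 4749231⟩, ⟨0, false, false, 3625083⟩, ⟨5632, true, false, 1857113⟩, ⟨5584, true, false, 366776⟩]) (.node true 64 2880 (.leaf [⟨2880, false, true, 5966316⟩, ⟨2880, false, false, 4833282⟩, ⟨5696, true, false, 2897226⟩, ⟨0, true, false, 2509630⟩, ⟨5632, true, false, 570762⟩]) (.leaf [⟨0, true, false, 4451646⟩, ⟨2880, true, true, 4451646⟩, ⟨2880, true, false, 4451646⟩, ⟨5696, true, false, 2025920⟩, ⟨2720, false, false, 1396358⟩])))) (.node true 8 2880 (.node true 48 2880 (.leaf [⟨2880, false, true, 5970549⟩, ⟨2880, false, false, 4830600⟩, ⟨5712, true, false, 3886401⟩, ⟨0, true, false, 1519500⟩, ⟨5640, true, false, 570166⟩]) (.leaf [⟨5752, true, false, 5169053⟩, ⟨2880, true, false, 5388790⟩, ⟨2880, true, true, 3590881⟩, ⟨5712, true, false, 2628493⟩]))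 (.leaf [⟨0, true, false, 5270857⟩, ⟨2880, true, false, 5329111⟩, ⟨5752, true, false, 2982120⟩, ⟨2880, true, true, 3195128⟩]))) (by decide +kernel)
theorem yo110 : (bN 568 776 568 9134911248).Ok := ok1 (.node true 240 2400 (.node true 248 2704 (.leaf [⟨0, true, false, 5552260⟩, ⟨2880, false, true, 5552260⟩, ⟨2880, false, false, 3559520⟩, ⟨2880, true, true, 1797218⟩, ⟨2560, false, false, 315958⟩]) (.node true 120 2704 (.node true 184 2880 (.leaf [⟨2880, false, true, 2873787⟩, ⟨2880, false, false, 4575635⟩, ⟨0, false, false, 3421094⟩, ⟨5584, true, false, 2329231⟩, ⟨2880, true, false, 3577469⟩]) (.leaf [⟨0, true, false, 5690386⟩, ⟨2880, false, true, 3955397⟩, ⟨2880, false, false, 5178664⟩, ⟨2880, true, false, 1734989⟩, ⟨5568, true, false, 217780⟩])) (.leaf [⟨0, true, false, 4846001⟩, ⟨2880, true, false, 4846001⟩, ⟨5632, true, false, 2836106⟩, ⟨2880, false, false, 4249108⟩]))) (.node true 8 2400 (.node true 16 2488 (.node true 56 2880 (.leaf [⟨2880, false, true, 5845144⟩,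 ⟨5712, true, false, 5852560⟩, ⟨2880, false, false, 3132990⟩, ⟨2880, true, true, 1946521⟩]) (.node true 24 2880 (.node true 32 2600 (.leaf [⟨5744, true, false, 5754156⟩, ⟨2880, false, true, 5437635⟩, ⟨2880, false, false, 2340979⟩, ⟨2880, true, true, 2600340⟩, ⟨5696, true, false, 644106⟩]) (.leaf [⟨5744, true, false, 5607764⟩, ⟨2880, false, true, 4830759⟩, ⟨2880, true, true, 4086682⟩, ⟨5728, true, false, 2252011⟩])) (.node true 8 2880 (.node true 16 2880 (.leaf [⟨5744, true, false, 5607765⟩, ⟨2880, false, true, 4830758⟩, ⟨2880, true, true, 4086681⟩, ⟨5728, true, false, 2252012⟩]) (.leaf [⟨5744, true, false, 4853858⟩, ⟨0, true, false, 4155191⟩, ⟨2880, true, false, 4597330⟩, ⟨2880, true, true, 3170838⟩])) (.leaf [⟨5744, true, false, 4853858⟩, ⟨0, true, false, 4155191⟩, ⟨2880, true, false, 4597330⟩, ⟨2880, true, true, 3170838⟩])))) (.leaf [⟨0, true, false, 5454311⟩, ⟨2880, false, false, 3927864⟩, ⟨5744, true, false, 2640425⟩, ⟨2880, true, false, 4754616⟩])) (.leaf [⟨0,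 true, false, 5454320⟩, ⟨5744, true, false, 2640455⟩, ⟨2880, false, false, 3927841⟩, ⟨2880, true, false, 4754601⟩]))) (by decide +kernel)
theorem yo66 : (bN 632 680 632 9162446723).Ok := ok1 (.node true 136 2640 (.node true 200 2880 (.node false 240 2640 (.leaf [⟨2880, false, true, 6311558⟩, ⟨2880, false, false, 4644446⟩, ⟨0, false, false, 3995017⟩, ⟨5568, true, false, 1464446⟩, ⟨5344, true, false, 361749⟩]) (.leaf [⟨2880, false, true, 5887966⟩, ⟨2880, false, false, 5001285⟩, ⟨0, false, false, 5887966⟩])) (.node true 144 2880 (.leaf [⟨2880, false, true, 6194924⟩, ⟨2880, false, false, 4465522⟩, ⟨0, false, false, 3098261⟩, ⟨5616, true, false, 2401886⟩, ⟨5552, true, false, 616622⟩]) (.node true 64 2880 (.leaf [⟨2880, false, true, 6035735⟩, ⟨5696, true, false, 5507755⟩, ⟨2880, false, false, 4471037⟩, ⟨5616, true, false, 762689⟩]) (.leaf [⟨0, true, false, 5220031⟩, ⟨2880, true, false, 5220031⟩, ⟨2880, true, true, 2670548⟩, ⟨5696, true, false, 3666606⟩])))) (.node true 8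 2704 (.node true 16 2880 (.node true 56 2880 (.leaf [⟨2880, false, true, 6125756⟩, ⟨5712, true, false, 5426940⟩, ⟨2880, false, false, 4685711⟩, ⟨5616, true, false, 538809⟩]) (.node true 24 2560 (.node true 32 2568 (.node true 40 2880 (.leaf [⟨2880, false, true, 5787089⟩, ⟨5728, true, false, 5611225⟩, ⟨2880, false, false, 3984599⟩, ⟨5696, true, false, 1394303⟩]) (.leaf [⟨2880, false, true, 5689752⟩, ⟨5744, true, false, 5654427⟩, ⟨2880, false, false, 3752536⟩, ⟨5712, true, false, 1680501⟩])) (.leaf [⟨5744, true, false, 5699081⟩, ⟨2880, false, true, 5639349⟩, ⟨2880, false, false, 3589498⟩, ⟨5728, true, false, 1849288⟩])) (.leaf [⟨5744, true, false, 5699081⟩, ⟨2880, false, true, 5639349⟩, ⟨2880, false, false, 3589498⟩, ⟨5728, true, false, 1849288⟩]))) (.leaf [⟨2880, false, true, 5503078⟩, ⟨0, true, false, 5783335⟩, ⟨2880, false, false, 3238438⟩, ⟨5744, true, false, 2252365⟩])) (.leaf [⟨2880, false, true, 5502966⟩, ⟨0, true, false, 5783420⟩, ⟨2880, false, false, 3238191⟩,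 ⟨5744, true, false, 2252638⟩]))) (by decide +kernel)
theorem yo67 : (bN 664 672 664 8969031571).Ok := ok1 (.node true 184 2728 (.node false 720 2640 (.node false 480 2880 (.node true 240 2880 (.leaf [⟨2880, false, true, 6479977⟩, ⟨2880, false, false, 4409033⟩, ⟨5520, true, false, 1446637⟩, ⟨2688, true, false, 995963⟩, ⟨5712, true, false, 3445606⟩]) (.node true 192 2880 (.leaf [⟨2880, false, true, 6479897⟩, ⟨2880, false, false, 4408979⟩, ⟨5568, true, false, 2464335⟩, ⟨2688, true, false, 995950⟩, ⟨5744, true, false, 2428054⟩]) (.node true 88 2880 (.leaf [⟨2880, false, true, 6482659⟩, ⟨5680, true, false, 4906223⟩, ⟨2880, false, false, 4585440⟩, ⟨2688, true, false, 802894⟩]) (.leaf [⟨0, true, false, 4632830⟩, ⟨2880, false, true, 4632830⟩, ⟨2880, false, false, 4632830⟩, ⟨2720, false, false, 1523010⟩, ⟨5664, true, false, 1355717⟩])))) (.leaf [⟨2880, false, true, 5559272⟩, ⟨2880, true, true, 5608972⟩, ⟨0, true, false, 5608972⟩])) (.leaf [⟨2880, false, false, 5506948⟩, ⟨0,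 false, false, 5506948⟩, ⟨2880, false, true, 3495356⟩, ⟨2832, false, false, 2267964⟩])) (.node true 8 2728 (.node true 16 2880 (.node true 56 2880 (.node false 240 2640 (.node false 240 2776 (.leaf [⟨2880, false, true, 5928800⟩, ⟨5712, true, false, 4657828⟩, ⟨2880, false, false, 4511740⟩, ⟨5568, true, false, 1110023⟩, ⟨0, false, false, 568825⟩]) (.leaf [⟨2880, false, true, 5641523⟩, ⟨2880, false, false, 5494169⟩, ⟨0, false, false, 5641523⟩])) (.leaf [⟨2880, false, true, 5641523⟩, ⟨2880, false, false, 5494169⟩, ⟨0, false, false, 5641523⟩])) (.leaf [⟨2880, true, false, 5645187⟩, ⟨5744, true, false, 5382188⟩, ⟨2880, true, true, 3626937⟩, ⟨5696, true, false, 2122905⟩])) (.leaf [⟨0, true, false, 5529551⟩, ⟨2880, true, false, 5529551⟩, ⟨2880, true, true, 3097862⟩, ⟨5744, true, false, 2620253⟩])) (.leaf [⟨0, true, false, 5529551⟩, ⟨2880, true, false, 5529551⟩, ⟨2880, true, true, 3097862⟩, ⟨5744, true, false, 2620253⟩]))) (by decide +kernel)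
theorem yo140 : (bN 472 1008 472 9088834252).Ok := ok1 (.node true 8 2640 (.node true 32 2880 (.node true 40 2640 (.node true 48 2880 (.node true 64 2656 (.node true 72 2880 (.leaf [⟨5696, true, false, 6386098⟩, ⟨2880, false, true, 5032861⟩, ⟨2880, false, false, 2491436⟩, ⟨2880, true, true, 2866820⟩]) (.leaf [⟨2880, true, true, 4439918⟩, ⟨5688, true, false, 3024773⟩, ⟨5712, true, false, 5553560⟩, ⟨2880, false, true, 3372227⟩, ⟨2880, false, false, 386738⟩])) (.leaf [⟨5712, true, false, 5798098⟩, ⟨5696, true, false, 1976970⟩, ⟨2880, true, false, 3946692⟩, ⟨2880, false, false, 5055456⟩])) (.leaf [⟨5712, true, false, 3135172⟩, ⟨2880, true, true, 4727783⟩, ⟨5728, true, false, 5353181⟩, ⟨2880, false, true, 3403559⟩, ⟨2880, false, false, 157521⟩])) (.leaf [⟨5728, true, false, 5344798⟩, ⟨2880, true, true, 1303456⟩, ⟨5720, true, false, 3126792⟩, ⟨2880, true, false, 3428136⟩, ⟨2880, false, false, 3574034⟩])) (.node true 16 2880 (.node true 24 2640 (.leaf [⟨2880, true, true,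 4403634⟩, ⟨5728, true, false, 3953861⟩, ⟨5736, true, false, 2118417⟩, ⟨2880, true, false, 1593195⟩, ⟨2880, false, true, 2166001⟩, ⟨5744, true, false, 1519047⟩, ⟨16, false, false, 1023062⟩]) (.leaf [⟨5736, true, false, 4040437⟩, ⟨2880, true, true, 4344835⟩, ⟨5744, true, false, 3400107⟩, ⟨2880, true, false, 1835423⟩, ⟨2880, false, true, 2007049⟩, ⟨16, false, false, 1149366⟩])) (.leaf [⟨5744, true, false, 4162466⟩, ⟨2880, true, true, 4295188⟩, ⟨2880, true, false, 2274545⟩, ⟨5752, true, false, 1799258⟩, ⟨0, false, false, 1353843⟩, ⟨2880, false, true, 1709691⟩, ⟨0, true, false, 1182226⟩]))) (.leaf [⟨5752, true, false, 4197186⟩, ⟨2880, true, true, 4237392⟩, ⟨2880, true, false, 2499461⟩, ⟨0, true, false, 2740505⟩, ⟨0, false, false, 1496887⟩, ⟨2880, false, true, 1605785⟩])) (by decide +kernel)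
theorem yo104 : (bN 536 872 536 8991869017).Ok := ok1 (.node true 8 2608 (.node true 32 2880 (.node false 24 2848 (.node false 32 2880 (.node true 48 2608 (.node true 56 2880 (.node true 72 2632 (.node true 80 2880 (.leaf [⟨2880, false, true, 5917278⟩, ⟨5688, true, false, 3761536⟩, ⟨2880, false, false, 1055431⟩, ⟨2880, true, true, 4072407⟩, ⟨5728, false, false, 1970565⟩]) (.leaf [⟨5704, true, false, 3983255⟩, ⟨2880, true, true, 4838055⟩, ⟨5672, true, false, 1383336⟩, ⟨2880, false, true, 5166483⟩, ⟨5728, false, false, 1406086⟩])) (.leaf [⟨5704, true, false, 4997276⟩, ⟨2880, true, true, 4060164⟩, ⟨5688, true, false, 4215708⟩, ⟨2880, true, false, 2258563⟩, ⟨2880, false, true, 1245506⟩])) (.leaf [⟨5728, true, false, 5144465⟩, ⟨2880, true, false, 4039648⟩, ⟨5704, true, false, 2980159⟩, ⟨2880, true, true, 1459271⟩, ⟨2880, false, false, 3153673⟩])) (.leaf [⟨5728, true, false, 5384226⟩, ⟨2880, true, false, 4561159⟩, ⟨5712, true, false, 1977497⟩, ⟨2880, false, false, 4854335⟩]))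 (.leaf [⟨5728, false, false, 2154897⟩, ⟨2880, false, true, 5181201⟩, ⟨2880, false, false, 4455939⟩, ⟨5728, true, false, 4985179⟩])) (.leaf [⟨2880, false, true, 5177503⟩, ⟨2880, false, false, 4421887⟩, ⟨5696, false, false, 2225041⟩, ⟨5728, true, false, 4952785⟩])) (.node true 16 2880 (.leaf [⟨5744, true, false, 5272987⟩, ⟨2880, true, true, 4885520⟩, ⟨2880, false, true, 4363515⟩, ⟨5728, true, false, 2255194⟩]) (.node true 8 2880 (.leaf [⟨5752, true, false, 5305649⟩, ⟨2880, true, true, 4754369⟩, ⟨5744, true, false, 2424031⟩, ⟨2880, false, true, 4293166⟩]) (.leaf [⟨5752, true, false, 4531025⟩, ⟨0, true, false, 4399320⟩, ⟨2880, true, false, 4399320⟩, ⟨2880, false, false, 3447552⟩])))) (.leaf [⟨0, true, false, 5341455⟩, ⟨5752, true, false, 2596089⟩, ⟨2880, false, true, 4208863⟩, ⟨2880, true, true, 4630808⟩])) (by decide +kernel)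
theorem yo65 : (bN 544 832 544 9090314353).Ok := ok1 (.node true 8 2400 (.node true 40 2640 (.node true 56 2880 (.leaf [⟨5704, true, false, 3996368⟩, ⟨2880, false, false, 5075610⟩, ⟨2880, false, true, 2396119⟩, ⟨2880, true, false, 3592179⟩, ⟨0, false, false, 1716940⟩]) (.node true 48 2880 (.leaf [⟨5712, true, false, 4624245⟩, ⟨2880, true, true, 3938292⟩, ⟨5704, true, false, 4274291⟩, ⟨2880, true, false, 3940389⟩]) (.node true 24 2880 (.leaf [⟨5736, true, false, 5453450⟩, ⟨2880, false, true, 4555096⟩, ⟨2880, true, true, 4608795⟩, ⟨5712, true, false, 2159876⟩]) (.leaf [⟨5736, true, false, 4593522⟩, ⟨0, true, false, 3963481⟩, ⟨2880, true, false, 4256731⟩, ⟨2880, true, true, 3963482⟩])))) (.node true 16 2640 (.node true 24 2880 (.leaf [⟨5736, true, false, 5453053⟩, ⟨2880, false, true, 4567677⟩, ⟨2880, true, true, 4597230⟩, ⟨5720, true, false, 2159256⟩]) (.node true 8 2880 (.leaf [⟨5752, true, false, 5510158⟩, ⟨2880, false, false, 4352785⟩, ⟨5736, true, false, 2507062⟩,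 ⟨2880, true, false, 4407211⟩]) (.leaf [⟨5752, true, false, 4436188⟩, ⟨0, true, false, 4007302⟩, ⟨2880, true, true, 4007303⟩, ⟨2880, true, false, 4326423⟩]))) (.node true 8 2640 (.node true 8 2880 (.leaf [⟨5752, true, false, 5529311⟩, ⟨2880, false, true, 4418087⟩, ⟨2880, true, true, 4334638⟩, ⟨5744, true, false, 2495179⟩]) (.leaf [⟨5752, true, false, 4436187⟩, ⟨0, true, false, 4007303⟩, ⟨2880, true, true, 4007303⟩, ⟨2880, true, false, 4326422⟩])) (.leaf [⟨5752, true, false, 4436187⟩, ⟨0, true, false, 4007303⟩, ⟨2880, true, true, 4007304⟩, ⟨2880, true, false, 4326422⟩])))) (.leaf [⟨0, true, false, 5570356⟩, ⟨2880, false, true, 4338532⟩, ⟨5752, true, false, 2662935⟩, ⟨2880, true, true, 4205393⟩])) (by decide +kernel)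
theorem yo101 : (bN 520 896 520 9043324219).Ok := ok1 (.node true 8 2616 (.node true 24 2880 (.node true 32 2616 (.node true 40 2880 (.node false 24 2856 (.node false 32 2880 (.node true 56 2632 (.node true 64 2880 (.leaf [⟨5696, true, false, 4124486⟩, ⟨2880, false, true, 1744482⟩, ⟨2880, false, false, 5202599⟩, ⟨2880, true, false, 4030238⟩, ⟨5728, false, false, 1675410⟩]) (.leaf [⟨5720, true, false, 5516975⟩, ⟨2880, true, false, 4377962⟩, ⟨2880, false, false, 4859805⟩, ⟨5696, true, false, 2022475⟩])) (.leaf [⟨5720, true, false, 5510147⟩, ⟨2880, true, false, 4386818⟩, ⟨2880, false, false, 4853388⟩, ⟨5704, true, false, 2026863⟩])) (.leaf [⟨2880, false, true, 5047427⟩, ⟨5728, false, false, 2526709⟩, ⟨2880, false, false, 4273629⟩, ⟨5720, true, false, 4929451⟩])) (.leaf [⟨2880, false, true, 5048310⟩, ⟨5736, false, false, 2506813⟩, ⟨2880, false, false, 4283417⟩, ⟨5720, true, false, 4938676⟩])) (.leaf [⟨5736, true, false, 5307466⟩, ⟨2880, true, true, 4918187⟩, ⟨2880, false,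 true, 4162782⟩, ⟨5720, true, false, 2388781⟩])) (.leaf [⟨5736, true, false, 5460478⟩, ⟨2880, true, false, 4437339⟩, ⟨2880, false, false, 5067651⟩, ⟨5728, true, false, 1811748⟩])) (.node true 16 2880 (.leaf [⟨5744, true, false, 5282901⟩, ⟨2880, true, true, 4913520⟩, ⟨2880, false, true, 4184640⟩, ⟨5736, true, false, 2396154⟩]) (.node true 8 2880 (.leaf [⟨5752, true, false, 5434577⟩, ⟨5744, true, false, 1782702⟩, ⟨2880, true, false, 4422392⟩, ⟨2880, false, false, 5137545⟩]) (.leaf [⟨5752, true, false, 3071463⟩, ⟨0, true, false, 4568584⟩, ⟨2880, true, true, 4568584⟩, ⟨2880, false, true, 4568584⟩])))) (.leaf [⟨0, true, false, 5279253⟩, ⟨5752, true, false, 2535897⟩, ⟨2880, true, true, 4822883⟩, ⟨2880, false, true, 4139184⟩])) (by decide +kernel)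
theorem yo131 : (bN 612 728 612 9039810039).Ok := ok1 (.node true 68 2724 (.node true 104 2880 (.leaf [⟨2880, false, true, 6450294⟩, ⟨2880, false, false, 4643990⟩, ⟨5672, true, false, 3704830⟩, ⟨0, false, false, 1978102⟩]) (.node true 72 2880 (.leaf [⟨2880, false, true, 6362553⟩, ⟨2880, false, false, 4733724⟩, ⟨5688, true, false, 4259683⟩, ⟨0, false, false, 1421256⟩]) (.node true 32 2880 (.leaf [⟨5728, true, false, 5675513⟩, ⟨2880, false, true, 6067280⟩, ⟨2880, false, false, 5034423⟩]) (.leaf [⟨0, true, false, 4837609⟩, ⟨2880, true, false, 4837609⟩, ⟨2880, true, true, 2838400⟩, ⟨5728, true, false, 4263598⟩])))) (.node true 4 2756 (.node true 8 2880 (.node true 12 2880 (.node true 16 2880 (.node true 20 2880 (.node true 24 2880 (.leaf [⟨5736, true, false, 5673599⟩, ⟨2880, false, true, 6025523⟩, ⟨2880, false, false, 5078094⟩]) (.leaf [⟨5744, true, false, 5420737⟩, ⟨2880, false, true, 5359469⟩, ⟨2880, true, true, 4078947⟩, ⟨5736, true, false, 1918063⟩])) (.leaf [⟨5744,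 true, false, 5383481⟩, ⟨2880, true, false, 5164144⟩, ⟨5736, true, false, 2504223⟩, ⟨2880, false, false, 3725368⟩])) (.leaf [⟨5752, true, false, 5462859⟩, ⟨2880, false, true, 5291594⟩, ⟨5744, true, false, 2096582⟩, ⟨2880, true, true, 3926181⟩])) (.leaf [⟨5752, true, false, 5462859⟩, ⟨2880, false, true, 5291594⟩, ⟨5744, true, false, 2096582⟩, ⟨2880, true, true, 3926181⟩])) (.leaf [⟨0, true, false, 5426706⟩, ⟨2880, true, false, 5073840⟩, ⟨5752, true, false, 2798162⟩, ⟨2880, false, false, 3478508⟩])) (.leaf [⟨0, true, false, 5426752⟩, ⟨2880, true, false, 5073775⟩, ⟨5752, true, false, 2798309⟩, ⟨2880, false, false, 3478380⟩]))) (by decide +kernel)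
theorem yo98 : (bN 664 664 664 9020620062).Ok := ok1 (.node true 8 2640 (.node true 48 2880 (.node false 240 2640 (.node false 120 2784 (.node false 184 2776 (.node false 216 2816 (.node false 232 2728 (.node false 360 2696 (.node false 296 2736 (.node false 328 2872 (.node false 720 2880 (.leaf [⟨2880, false, true, 6519269⟩, ⟨2880, true, true, 5241671⟩, ⟨48, false, false, 5016277⟩]) (.leaf [⟨48, false, false, 4523513⟩, ⟨2880, false, false, 3716900⟩, ⟨2824, false, false, 2525481⟩, ⟨2880, true, false, 3198160⟩, ⟨2872, true, false, 1882312⟩, ⟨5440, false, false, 930850⟩])) (.leaf [⟨0, false, false, 5592405⟩, ⟨2880, false, false, 5592405⟩, ⟨2880, false, true, 5592405⟩])) (.leaf [⟨0, false, false, 5592405⟩, ⟨2880, false, false, 5592405⟩, ⟨2880, true, false, 5592405⟩])) (.leaf [⟨0, false, false, 5592405⟩, ⟨2880, false, false, 5592405⟩, ⟨2880, false, true, 5592405⟩])) (.leaf [⟨0, false, false, 5592405⟩, ⟨2880, false, false, 5592405⟩, ⟨2880, true, false, 5592405⟩])) (.leaf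 [⟨0, false, false, 5592405⟩, ⟨2880, false, false, 5592405⟩, ⟨2880, false, true, 5592405⟩])) (.leaf [⟨2880, false, false, 5592405⟩, ⟨0, false, false, 5592405⟩, ⟨2880, false, true, 5592405⟩])) (.leaf [⟨0, false, false, 5592405⟩, ⟨2880, false, false, 5592405⟩, ⟨2880, false, true, 5592405⟩])) (.leaf [⟨0, false, false, 5592405⟩, ⟨2880, false, true, 5592405⟩, ⟨2880, false, false, 5592405⟩])) (.leaf [⟨2880, false, true, 5551251⟩, ⟨0, true, false, 5551251⟩, ⟨2880, true, true, 3084968⟩, ⟨48, false, false, 2589746⟩])) (.leaf [⟨2880, true, false, 5585417⟩, ⟨0, true, false, 5585417⟩, ⟨2880, true, true, 2904375⟩, ⟨8, false, false, 2702006⟩])) (by decide +kernel)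
theorem yo143 : (bN 500 952 500 9000600415).Ok := ok1 (.node true 4 2628 (.node true 8 2880 (.node true 16 2628 (.node true 20 2868 (.node true 48 2880 (.node false 12 2868 (.node false 20 2880 (.leaf [⟨5712, true, false, 4680337⟩, ⟨2880, false, true, 1751529⟩, ⟨2880, false, false, 5308265⟩, ⟨2880, true, false, 3823999⟩, ⟨5748, false, false, 1213086⟩]) (.leaf [⟨2880, false, true, 5707293⟩, ⟨2868, true, false, 5014579⟩, ⟨5748, false, false, 2344143⟩, ⟨5712, true, false, 3290016⟩, ⟨2880, false, false, 421185⟩])) (.leaf [⟨2880, true, false, 5884246⟩, ⟨0, false, false, 3501246⟩, ⟨2880, false, false, 5298652⟩, ⟨5712, true, false, 2093072⟩])) (.node true 24 2880 (.leaf [⟨5736, true, false, 5264122⟩, ⟨2880, true, true, 4888125⟩, ⟨5712, true, false, 2873404⟩, ⟨2880, false, true, 3751565⟩]) (.leaf [⟨5736, true, false, 3731880⟩, ⟨2880, true, true, 2259053⟩, ⟨2880, true, false, 3481886⟩, ⟨5752, true, false, 4839692⟩, ⟨2880, false, false, 2464705⟩]))) (.leaf [⟨5740, true, false,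 2692124⟩, ⟨2880, true, true, 5024674⟩, ⟨5752, true, false, 5146295⟩, ⟨2880, false, true, 3914123⟩])) (.leaf [⟨5744, true, false, 4840328⟩, ⟨2880, true, true, 3613653⟩, ⟨2880, true, false, 4619930⟩, ⟨5752, true, false, 1175927⟩, ⟨8, false, false, 2527377⟩])) (.leaf [⟨5752, true, false, 4794955⟩, ⟨2880, true, true, 3649698⟩, ⟨2880, true, false, 4682864⟩, ⟨0, true, false, 1137915⟩, ⟨0, false, false, 2511784⟩])) (.leaf [⟨5756, true, false, 5117657⟩, ⟨2880, true, true, 2553697⟩, ⟨2880, true, false, 5058090⟩, ⟨0, false, false, 4047773⟩])) (by decide +kernel)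
theorem yo68 : (bN 552 848 552 8946881829).Ok := ok1 (.node true 8 2640 (.node true 48 2880 (.node false 8 2840 (.node false 32 2880 (.node true 64 2600 (.node true 72 2880 (.node false 40 2880 (.leaf [⟨2880, false, false, 5134695⟩, ⟨5688, true, false, 3657253⟩, ⟨2880, false, true, 1989059⟩, ⟨2880, true, false, 3976725⟩, ⟨5720, false, false, 2019483⟩]) (.leaf [⟨2880, false, true, 5730299⟩, ⟨2880, false, false, 4295576⟩, ⟨5720, false, false, 1252252⟩, ⟨5688, true, false, 5499089⟩])) (.leaf [⟨5712, true, false, 4907830⟩, ⟨2880, true, true, 4098930⟩, ⟨2880, true, false, 2563040⟩, ⟨5688, true, false, 3964404⟩, ⟨2880, false, true, 1243012⟩])) (.leaf [⟨5712, true, false, 4907859⟩, ⟨2880, true, true, 4100167⟩, ⟨2880, true, false, 2533220⟩, ⟨5696, true, false, 3924076⟩, ⟨2880, false, true, 1311893⟩])) (.leaf [⟨2880, false, true, 5517645⟩, ⟨2880, false, false, 4429651⟩, ⟨5680, false, false, 1597082⟩, ⟨5712, true, false, 5232838⟩])) (.leaf [⟨2880, false, true, 5275392⟩, ⟨2880,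 false, false, 3074144⟩, ⟨5752, false, false, 3152290⟩, ⟨0, false, false, 5275389⟩])) (.node true 16 2880 (.leaf [⟨5744, true, false, 5217739⟩, ⟨2880, true, true, 4951079⟩, ⟨2880, false, true, 4629999⟩, ⟨5712, true, false, 1978400⟩]) (.leaf [⟨0, true, false, 5240665⟩, ⟨2880, true, false, 4298821⟩, ⟨5744, true, false, 2768587⟩, ⟨2880, false, false, 3831299⟩, ⟨2880, true, true, 637844⟩]))) (.leaf [⟨0, true, false, 4215150⟩, ⟨5752, true, false, 4225741⟩, ⟨2880, true, false, 4121174⟩, ⟨2880, true, true, 4215151⟩])) (by decide +kernel)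
theorem yo107 : (bN 448 1024 448 9281865372).Ok := ok1 (.node true 16 2640 (.node true 32 2880 (.node true 48 2656 (.node true 64 2880 (.leaf [⟨5696, true, false, 6387412⟩, ⟨2880, false, false, 2249536⟩, ⟨2880, false, true, 4939369⟩, ⟨2880, true, true, 3200899⟩]) (.leaf [⟨5696, true, false, 1563866⟩, ⟨5712, true, false, 2656051⟩, ⟨5728, true, false, 3159877⟩, ⟨2880, true, false, 4124076⟩, ⟨2880, false, false, 5273345⟩])) (.leaf [⟨5728, true, false, 5759603⟩, ⟨5712, true, false, 1506380⟩, ⟨2880, true, false, 4188831⟩, ⟨2880, false, false, 5322402⟩])) (.node false 240 2880 (.node false 368 2880 (.node false 432 2656 (.node false 432 2832 (.leaf [⟨2880, true, true, 2483171⟩, ⟨5728, true, false, 3607967⟩, ⟨5744, true, false, 2620797⟩, ⟨2880, true, false, 3618585⟩, ⟨0, true, false, 1540735⟩, ⟨2880, false, false, 2134224⟩, ⟨2800, true, false, 771737⟩]) (.leaf [⟨2880, true, true, 5447264⟩, ⟨5392, false, false, 8388059⟩, ⟨2880, true, false, 2941893⟩])) (.leaf [⟨2880, true,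 true, 5493674⟩, ⟨5392, false, false, 8388635⟩, ⟨2880, true, false, 2894907⟩])) (.leaf [⟨0, false, false, 4684433⟩, ⟨2880, true, true, 4073138⟩, ⟨5728, true, false, 4214469⟩, ⟨2880, true, false, 3805176⟩])) (.leaf [⟨0, false, false, 4684433⟩, ⟨5728, true, false, 4214469⟩, ⟨2880, true, true, 4073138⟩, ⟨2880, true, false, 3805176⟩]))) (.leaf [⟨5744, true, false, 4079064⟩, ⟨2880, true, true, 4314905⟩, ⟨0, true, false, 2964302⟩, ⟨2880, true, false, 2322901⟩, ⟨0, false, false, 1365819⟩, ⟨2880, false, true, 1730224⟩])) (by decide +kernel)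
theorem yo96 : (bN 352 736 736 10393417406).Ok := ok1 (.node false 480 2400 (.node false 480 2640 (.node true 544 2640 (.node true 576 2880 (.leaf [⟨2880, false, true, 7072351⟩, ⟨5024, true, false, 4164419⟩, ⟨2880, false, false, 3278586⟩, ⟨2880, true, false, 2261860⟩]) (.node true 240 2880 (.leaf [⟨3104, false, false, 6910665⟩, ⟨2640, false, false, 4623030⟩, ⟨2880, false, true, 5243520⟩]) (.leaf [⟨2880, false, true, 6765177⟩, ⟨2880, false, false, 3974606⟩, ⟨0, true, false, 6037432⟩]))) (.node true 512 2640 (.node true 240 2880 (.leaf [⟨2768, false, false, 9919015⟩, ⟨3072, false, false, 6858201⟩]) (.leaf [⟨2880, false, true, 6765177⟩, ⟨2880, false, false, 3974606⟩, ⟨0, true, false, 6037432⟩])) (.node true 496 2640 (.leaf [⟨3040, false, false, 6892161⟩, ⟨2528, false, false, 5172169⟩, ⟨2880, false, true, 4712886⟩]) (.node true 240 2640 (.leaf [⟨3024, false, false, 5357942⟩, ⟨2528, false, false, 4698698⟩, ⟨2768, false, false, 3168795⟩, ⟨2880, true, false, 1914827⟩, ⟨5264,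 true, false, 1636954⟩]) (.leaf [⟨2880, false, true, 8679780⟩, ⟨0, false, false, 8097436⟩]))))) (.leaf [⟨3008, true, false, 5450104⟩, ⟨2528, true, false, 4001150⟩, ⟨2880, false, false, 3013171⟩, ⟨0, true, false, 1955253⟩, ⟨2880, true, true, 1961943⟩, ⟨2880, false, true, 395594⟩])) (.node false 176 2400 (.node false 272 2640 (.leaf [⟨3008, true, false, 6908419⟩, ⟨2800, true, false, 5106338⟩, ⟨2528, true, false, 4762459⟩]) (.leaf [⟨2880, true, true, 8643216⟩, ⟨0, true, false, 8134000⟩])) (.leaf [⟨2880, true, true, 4129268⟩, ⟨2880, true, false, 4190055⟩, ⟨0, false, false, 8457893⟩]))) (by decide +kernel)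
theorem yo114 : (bN 520 904 520 8999572307).Ok := ok1 (.node true 8 2616 (.node true 24 2880 (.node true 32 2616 (.node true 40 2880 (.node false 16 2856 (.node false 24 2880 (.node true 48 2632 (.node true 56 2880 (.leaf [⟨5712, true, false, 4168407⟩, ⟨2880, false, true, 5730693⟩, ⟨2880, false, false, 1239710⟩, ⟨2880, true, true, 4051191⟩, ⟨5736, false, false, 1587216⟩]) (.leaf [⟨2880, true, false, 4358141⟩, ⟨5720, true, false, 5497190⟩, ⟨5704, true, false, 2085103⟩, ⟨2880, false, false, 4836781⟩])) (.leaf [⟨5720, true, false, 5497190⟩, ⟨2880, true, false, 4358141⟩, ⟨5704, true, false, 2085103⟩, ⟨2880, false, false, 4836781⟩])) (.leaf [⟨2880, false, true, 5046908⟩, ⟨5736, false, false, 2559821⟩, ⟨2880, false, false, 4255801⟩, ⟨5720, true, false, 4914685⟩])) (.leaf [⟨2880, false, true, 5895969⟩, ⟨2880, true, true, 5287189⟩, ⟨0, false, false, 2990622⟩, ⟨5720, true, false, 2603435⟩])) (.leaf [⟨5736, true, false, 5300105⟩, ⟨2880, true, true, 4905980⟩, ⟨2880, false, true,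 4054179⟩, ⟨5704, true, false, 2516952⟩])) (.leaf [⟨5736, true, false, 5288156⟩, ⟨2880, true, true, 4895061⟩, ⟨5728, true, false, 2477334⟩, ⟨2880, false, true, 4116664⟩])) (.leaf [⟨0, true, false, 3806595⟩, ⟨2880, true, true, 1100935⟩, ⟨5736, true, false, 2684628⟩, ⟨2880, true, false, 4053824⟩, ⟨2880, false, false, 3797623⟩, ⟨5752, true, false, 1333611⟩])) (.leaf [⟨0, true, false, 5378851⟩, ⟨2880, true, false, 4456844⟩, ⟨5752, true, false, 1681826⟩, ⟨2880, false, false, 5259694⟩])) (by decide +kernel)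
theorem yo130 : (bN 496 952 496 9044098628).Ok := ok1 (.node true 8 2632 (.node true 16 2880 (.node true 48 2632 (.node true 64 2880 (.leaf [⟨5712, true, false, 4866204⟩, ⟨2880, false, true, 5536957⟩, ⟨2880, false, false, 1595433⟩, ⟨2880, true, true, 3704526⟩, ⟨0, false, false, 1074095⟩]) (.node true 56 2880 (.leaf [⟨5712, true, false, 5448238⟩, ⟨2880, true, true, 4679450⟩, ⟨2880, false, true, 3600209⟩, ⟨5696, true, false, 3049320⟩]) (.leaf [⟨2880, true, true, 4870925⟩, ⟨5704, true, false, 2866771⟩, ⟨5744, true, false, 3265203⟩, ⟨5712, true, false, 2044345⟩, ⟨2880, false, true, 3729973⟩]))) (.node true 24 2632 (.node true 32 2880 (.leaf [⟨5728, true, false, 5329243⟩, ⟨2880, true, true, 4831771⟩, ⟨5712, true, false, 2877944⟩, ⟨2880, false, true, 3738258⟩]) (.leaf [⟨5728, true, false, 3518358⟩, ⟨2880, true, false, 3531317⟩, ⟨2880, true, true, 1988692⟩, ⟨5744, true, false, 4980432⟩, ⟨2880, false, false, 2758417⟩])) (.leaf [⟨5736, true, false, 3713707⟩, ⟨5744, true, false,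 4909513⟩, ⟨2880, true, false, 3474958⟩, ⟨2880, true, true, 2193037⟩, ⟨2880, false, false, 2486001⟩]))) (.leaf [⟨5744, true, false, 3698056⟩, ⟨2880, true, true, 4749559⟩, ⟨2880, true, false, 1086307⟩, ⟨0, true, false, 2750530⟩, ⟨5752, true, false, 2046861⟩, ⟨2880, false, true, 2445903⟩])) (.leaf [⟨5752, true, false, 4791031⟩, ⟨2880, true, true, 3652322⟩, ⟨2880, true, false, 4681541⟩, ⟨0, true, false, 1184961⟩, ⟨0, false, false, 2467361⟩])) (by decide +kernel)
theorem yo172 : (bN 632 708 632 9010752322).Ok := ok1 (.node true 88 2712 (.node true 132 2880 (.leaf [⟨2880, false, true, 6308507⟩, ⟨2880, false, false, 4875973⟩, ⟨0, false, false, 2838666⟩, ⟨5672, true, false, 2754070⟩]) (.node true 92 2880 (.leaf [⟨2880, false, true, 6024738⟩, ⟨2880, false, false, 4912751⟩, ⟨0, true, false, 3363671⟩, ⟨5672, true, false, 2114809⟩, ⟨5628, true, false, 361248⟩]) (.node true 44 2880 (.leaf [⟨5716, true, false, 5184925⟩, ⟨2880, false, false, 4454317⟩, ⟨2880, true, false, 5649900⟩,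 ⟨5668, true, false, 1488075⟩]) (.leaf [⟨0, true, false, 4340832⟩, ⟨2880, true, true, 4340832⟩, ⟨2880, true, false, 4340832⟩, ⟨5672, true, false, 2464453⟩, ⟨2712, false, false, 1290268⟩])))) (.node true 4 2880 (.node true 40 2880 (.leaf [⟨5720, true, false, 5160015⟩, ⟨2880, false, false, 4505817⟩, ⟨2880, true, false, 5681329⟩, ⟨5672, true, false, 1430055⟩]) (.node true 8 2880 (.node true 12 2880 (.leaf [⟨5748, true, false, 5372615⟩, ⟨2880, false, true, 5489632⟩, ⟨5720, true, false, 1923859⟩, ⟨2880, true, true, 3991111⟩]) (.leaf [⟨5752, true, false, 5154831⟩, ⟨2880, true, false, 5242375⟩, ⟨5748, true, false, 3024640⟩, ⟨2880, true, true, 3355370⟩])) (.leaf [⟨5756, true, false, 5166936⟩, ⟨2880, true, false, 5229248⟩, ⟨5752, true, false, 3078234⟩, ⟨2880, true, true, 3302798⟩]))) (.leaf [⟨0, true, false, 5179409⟩, ⟨2880, true, false, 5216131⟩, ⟨5756, true, false, 3132078⟩, ⟨2880, true, true, 3249598⟩]))) (by decide +kernel)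
theorem yo93 : (bN 552 784 552 9221742194).Ok := ok1 (.node true 240 2400 (.leaf [⟨0, true, false, 5461618⟩, ⟨2880, false, true, 3459733⟩, ⟨2880, false, false, 5388222⟩, ⟨2880, true, false, 1934745⟩, ⟨2560, false, false, 532898⟩]) (.node true 8 2400 (.node true 16 2488 (.node true 56 2880 (.leaf [⟨5712, true, false, 5915364⟩, ⟨2880, false, true, 5706719⟩, ⟨2880, false, false, 2808496⟩, ⟨2880, true, true, 2346636⟩]) (.node true 24 2880 (.leaf [⟨5744, true, false, 6018124⟩, ⟨2880, false, true, 3839674⟩, ⟨2880, false, false, 5147919⟩, ⟨2880, true, false, 1771500⟩]) (.node true 8 2880 (.node true 16 2880 (.leaf [⟨5744, true, false, 6018124⟩, ⟨2880, false, true, 3839674⟩, ⟨2880, false, false, 5147919⟩, ⟨2880, true, false, 1771500⟩]) (.leaf [⟨5744, true, false, 4893990⟩, ⟨0, true, false, 3916832⟩, ⟨2880, true, false, 4641644⟩, ⟨2880, true, true, 3324751⟩])) (.leaf [⟨5744, true, false, 4893990⟩, ⟨0, true, false, 3916832⟩, ⟨2880, true, false, 4641644⟩, ⟨2880, true, true,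 3324751⟩])))) (.leaf [⟨0, true, false, 5907273⟩, ⟨2880, false, true, 1712184⟩, ⟨2880, false, false, 4039379⟩, ⟨5744, true, false, 2075832⟩, ⟨2880, true, false, 3042547⟩])) (.leaf [⟨2880, false, true, 1712629⟩, ⟨0, true, false, 5907287⟩, ⟨2880, false, false, 4039611⟩, ⟨5744, true, false, 2075420⟩, ⟨2880, true, false, 3042269⟩]))) (by decide +kernel)
theorem yo118 : (bN 504 928 504 9068162450).Ok := ok1 (.node true 8 2624 (.node true 24 2880 (.node true 32 2624 (.node true 56 2864 (.node true 72 2880 (.leaf [⟨5704, true, false, 4207573⟩, ⟨2880, false, true, 5746978⟩, ⟨2880, false, false, 1157296⟩, ⟨2880, true, true, 4029345⟩, ⟨0, false, false, 1636024⟩]) (.leaf [⟨5704, true, false, 1690839⟩, ⟨5688, true, false, 1879356⟩, ⟨2880, false, false, 5064501⟩, ⟨2880, true, false, 4220558⟩, ⟨5736, true, false, 3921963⟩])) (.leaf [⟨5736, true, false, 3932482⟩, ⟨2880, true, false, 4286007⟩, ⟨2880, false, false, 5137136⟩, ⟨5704, true, false, 1793393⟩, ⟨5728, true, false, 1628198⟩]))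 (.leaf [⟨5736, true, false, 5289205⟩, ⟨2880, true, true, 4916678⟩, ⟨5728, true, false, 2571274⟩, ⟨2880, false, true, 4000059⟩])) (.node true 16 2880 (.leaf [⟨5744, true, false, 5234396⟩, ⟨2880, true, true, 4989602⟩, ⟨5736, true, false, 2496997⟩, ⟨2880, false, true, 4056221⟩]) (.leaf [⟨2880, true, true, 2338437⟩, ⟨5744, true, false, 3582366⟩, ⟨0, true, false, 2930904⟩, ⟨2880, true, false, 3694547⟩, ⟨5752, true, false, 1840898⟩, ⟨2880, false, false, 2390065⟩]))) (.leaf [⟨2880, true, false, 3684073⟩, ⟨0, true, false, 4696079⟩, ⟨5752, true, false, 3700984⟩, ⟨2880, true, true, 2497414⟩, ⟨2880, false, false, 2198665⟩])) (by decide +kernel)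
theorem yo87 : (bN 528 872 528 9057589963).Ok := ok1 (.node true 8 2616 (.node true 16 2608 (.node true 32 2880 (.node true 40 2624 (.node true 48 2632 (.leaf [⟨5728, true, false, 4511142⟩, ⟨2880, false, true, 2008540⟩, ⟨2880, false, false, 5324903⟩, ⟨2880, true, false, 3708762⟩, ⟨0, false, false, 1223869⟩]) (.leaf [⟨5728, true, false, 5456673⟩, ⟨2880, true, false, 4524683⟩, ⟨2880, false, false, 4933770⟩, ⟨5712, true, false, 1862091⟩])) (.leaf [⟨5728, true, false, 5369808⟩, ⟨2880, true, true, 4846523⟩, ⟨2880, false, true, 4345503⟩, ⟨5712, true, false, 2215382⟩])) (.node true 8 2880 (.node true 16 2880 (.leaf [⟨5744, true, false, 5462475⟩, ⟨2880, false, false, 4929953⟩, ⟨2880, true, false, 4446025⟩, ⟨5728, true, false, 1938763⟩]) (.leaf [⟨5744, true, false, 2772980⟩, ⟨0, true, false, 4668079⟩, ⟨2880, true, true, 4668078⟩, ⟨2880, false, true, 4668079⟩])) (.leaf [⟨5744, true, false, 2772980⟩, ⟨0, true, false, 4668079⟩, ⟨2880, true, true, 4668079⟩, ⟨2880, false, true,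 4668079⟩]))) (.leaf [⟨0, true, false, 5521085⟩, ⟨2880, true, false, 4246095⟩, ⟨5744, true, false, 2338858⟩, ⟨2880, false, false, 4671177⟩])) (.leaf [⟨0, true, false, 5521085⟩, ⟨2880, true, false, 4246095⟩, ⟨5744, true, false, 2338858⟩, ⟨2880, false, false, 4671177⟩])) (by decide +kernel)
theorem yo105 : (bN 632 696 632 9074629146).Ok := ok1 (.node true 112 2704 (.node true 168 2880 (.leaf [⟨2880, false, true, 6448844⟩, ⟨2880, false, false, 4804983⟩, ⟨0, false, false, 3787513⟩, ⟨5616, true, false, 1735875⟩]) (.node true 120 2880 (.leaf [⟨2880, false, true, 6439375⟩, ⟨2880, false, false, 4822670⟩, ⟨8, false, false, 3603540⟩, ⟨5648, true, false, 1911631⟩]) (.node true 56 2880 (.leaf [⟨2880, false, true, 6065044⟩, ⟨2880, false, false, 4580830⟩, ⟨5704, true, false, 5498825⟩, ⟨5640, true, false, 632517⟩]) (.leaf [⟨0, true, false, 4930923⟩, ⟨2880, false, false, 4930923⟩, ⟨2880, false, true, 4930923⟩, ⟨2704, false, false, 1259588⟩, ⟨5648, true, false, 724860⟩])))) (.node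 true 8 2744 (.node true 48 2880 (.leaf [⟨2880, false, true, 6041670⟩, ⟨5712, true, false, 5486908⟩, ⟨2880, false, false, 4701994⟩, ⟨5648, true, false, 546644⟩]) (.node true 16 2880 (.leaf [⟨2880, false, true, 5779166⟩, ⟨5744, true, false, 5569960⟩, ⟨2880, false, false, 4265323⟩, ⟨5712, true, false, 1162767⟩]) (.leaf [⟨2880, false, true, 5637749⟩, ⟨0, true, false, 5637749⟩, ⟨2880, false, false, 3896131⟩, ⟨5744, true, false, 1605588⟩]))) (.leaf [⟨0, true, false, 5640621⟩, ⟨2880, false, true, 5640621⟩, ⟨2880, false, false, 3866705⟩, ⟨5752, true, false, 1629270⟩]))) (by decide +kernel)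
theorem yo56 : (bN 560 832 560 8949117609).Ok := ok1 (.node true 16 2832 (.node true 64 2880 (.node false 48 2832 (.node false 80 2880 (.leaf [⟨5696, true, false, 4172565⟩, ⟨2880, false, true, 5848867⟩, ⟨2880, false, false, 1582029⟩, ⟨2880, true, true, 3662627⟩, ⟨5680, false, false, 1511128⟩]) (.leaf [⟨2880, false, true, 4577970⟩, ⟨2880, false, false, 3474508⟩, ⟨5680, false, false, 4146768⟩, ⟨0, false, false, 4577970⟩])) (.leaf [⟨2880, false, true, 4543004⟩, ⟨2880, false, false, 3561320⟩, ⟨5712, false, false, 4129887⟩, ⟨0, false, false, 4543004⟩])) (.node true 32 2880 (.leaf [⟨5728, true, false, 5029822⟩, ⟨2880, true, true, 4493513⟩, ⟨2880, false, true, 2825585⟩, ⟨5696, true, false, 2915835⟩, ⟨2880, true, false, 1512460⟩]) (.node true 16 2880 (.leaf [⟨5744, true, false, 5213021⟩, ⟨2880, true, true, 4925430⟩, ⟨2880, false, true, 4790803⟩, ⟨5728, true, false, 1847963⟩]) (.leaf [⟨5744, true, false, 5298983⟩, ⟨0, false, false, 4770352⟩, ⟨2880, true, true, 1674309⟩, ⟨2880,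 true, false, 5033573⟩])))) (.leaf [⟨0, true, false, 5277014⟩, ⟨5744, true, false, 2186427⟩, ⟨2880, true, true, 4680532⟩, ⟨2880, false, true, 4633244⟩])) (by decide +kernel)
theorem yo73 : (bN 504 944 504 8994103345).Ok := ok1 (.node true 16 2624 (.node true 24 2880 (.node true 56 2632 (.node true 72 2880 (.leaf [⟨2880, false, true, 5883825⟩, ⟨5688, true, false, 3817511⟩, ⟨2880, false, false, 837049⟩, ⟨2880, true, true, 4221108⟩, ⟨0, false, false, 2017722⟩]) (.leaf [⟨5736, true, false, 3457985⟩, ⟨5688, true, false, 2728127⟩, ⟨2880, true, true, 834065⟩, ⟨2880, true, false, 3779478⟩, ⟨2880, false, false, 4009230⟩, ⟨5704, true, false, 1968332⟩])) (.leaf [⟨5736, true, false, 4740287⟩, ⟨5704, true, false, 2374307⟩, ⟨2880, true, true, 4883840⟩, ⟨2880, false, true, 4254136⟩, ⟨24, false, false, 524646⟩])) (.leaf [⟨5736, true, false, 3765845⟩, ⟨2880, true, true, 2351563⟩, ⟨2880, true, false, 3510131⟩, ⟨0, true, false, 2869197⟩, ⟨5744, true, false, 1928181⟩, ⟨2880, false, false,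 2352299⟩])) (.leaf [⟨5744, true, false, 3734518⟩, ⟨2880, true, true, 2377965⟩, ⟨2880, true, false, 3560099⟩, ⟨0, true, false, 4741300⟩, ⟨2880, false, false, 2363334⟩])) (by decide +kernel)
theorem yo79 : (bN 544 848 544 9015646233).Ok := ok1 (.node true 16 2608 (.node true 48 2880 (.node false 48 2880 (.leaf [⟨5712, true, false, 4433307⟩, ⟨2880, false, true, 5776370⟩, ⟨2880, false, false, 1649784⟩, ⟨2880, true, true, 3631839⟩, ⟨5712, false, false, 1285916⟩]) (.leaf [⟨2880, false, true, 5147161⟩, ⟨2880, false, false, 2997020⟩, ⟨5712, false, false, 3485874⟩, ⟨0, false, false, 5147161⟩])) (.node true 32 2880 (.leaf [⟨5728, true, false, 5334059⟩, ⟨2880, true, true, 4806630⟩, ⟨5712, true, false, 2010070⟩, ⟨2880, false, true, 4626457⟩]) (.node true 16 2880 (.leaf [⟨5744, true, false, 5362666⟩, ⟨2880, true, false, 4619919⟩, ⟨2880, false, false, 4872465⟩, ⟨5728, true, false, 1922166⟩]) (.leaf [⟨5744, true, false, 4305795⟩, ⟨0, true, false, 4184804⟩, ⟨2880, true, true, 4184805⟩,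 ⟨2880, true, false, 4101812⟩])))) (.leaf [⟨0, true, false, 5414502⟩, ⟨2880, false, true, 4342383⟩, ⟨5744, true, false, 2525965⟩, ⟨2880, true, true, 4494366⟩])) (by decide +kernel)
theorem yo84 : (bN 572 760 572 9161200731).Ok := ok1 (.node true 240 2400 (.leaf [⟨0, true, false, 5598317⟩, ⟨2880, false, true, 4422772⟩, ⟨2880, false, false, 5246245⟩, ⟨2880, true, false, 1175545⟩, ⟨2496, false, false, 334337⟩]) (.node true 4 2400 (.node true 8 2500 (.node true 44 2880 (.leaf [⟨5752, true, false, 5973139⟩, ⟨2880, false, true, 5740434⟩, ⟨2880, false, false, 4099049⟩, ⟨2880, true, true, 964595⟩]) (.node true 12 2880 (.leaf [⟨5752, true, false, 5973139⟩, ⟨2880, false, true, 5740434⟩, ⟨2880, false, false, 4099049⟩, ⟨2880, true, true, 964595⟩]) (.leaf [⟨0, true, false, 5463458⟩, ⟨2880, false, false, 3818165⟩, ⟨5744, true, false, 2627015⟩, ⟨2880, true, false, 4868579⟩]))) (.leaf [⟨0, false, false, 5348455⟩, ⟨5752, true, false, 3212031⟩, ⟨2880, true, false, 5800148⟩, ⟨2880, false,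 false, 2416582⟩])) (.leaf [⟨0, true, false, 5493716⟩, ⟨5752, true, false, 2746530⟩, ⟨2880, true, false, 4825680⟩, ⟨2880, false, false, 3711291⟩]))) (by decide +kernel)
theorem yo74 : (bN 472 968 472 9212521545).Ok := ok1 (.node true 8 2640 (.node true 16 2880 (.node true 48 2640 (.node true 64 2880 (.leaf [⟨5712, true, false, 6237381⟩, ⟨2880, false, true, 5039484⟩, ⟨2880, false, false, 2329115⟩, ⟨2880, true, true, 3171236⟩]) (.leaf [⟨5696, true, false, 1556134⟩, ⟨5744, true, false, 3617231⟩, ⟨5712, true, false, 2052019⟩, ⟨2880, true, false, 4281785⟩, ⟨2880, false, false, 5270047⟩])) (.leaf [⟨5744, true, false, 5232970⟩, ⟨5712, true, false, 2766440⟩, ⟨2880, true, true, 1367112⟩, ⟨2880, true, false, 3761880⟩, ⟨2880, false, false, 3648813⟩])) (.leaf [⟨5744, true, false, 2460666⟩, ⟨2880, true, true, 5160458⟩, ⟨0, true, false, 5160458⟩, ⟨2880, false, true, 3995633⟩])) (.leaf [⟨5752, true, false, 5204721⟩, ⟨2880, true, true, 2347567⟩, ⟨2880, true, false, 5099483⟩, ⟨0, false,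 false, 4125446⟩])) (by decide +kernel)
theorem yo133 : (bN 512 900 512 9088301573).Ok := ok1 (.node true 16 2624 (.node true 24 2880 (.leaf [⟨5736, true, false, 4968186⟩, ⟨2880, false, true, 5481967⟩, ⟨2880, false, false, 1798963⟩, ⟨2880, true, true, 3682926⟩, ⟨0, false, false, 845174⟩]) (.leaf [⟨0, true, false, 4237387⟩, ⟨5736, true, false, 1747313⟩, ⟨2880, true, false, 4408742⟩, ⟨2880, false, false, 5152610⟩, ⟨5744, true, false, 1231164⟩])) (.leaf [⟨0, true, false, 5463019⟩, ⟨2880, true, false, 4395419⟩, ⟨5744, true, false, 1796099⟩, ⟨2880, false, false, 5122679⟩])) (by decide +kernel)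
theorem yo10 : (bN 256 1408 256 10740192505).Ok := ok1 (.leaf [⟨0, true, false, 6102044⟩, ⟨5504, true, true, 1603316⟩, ⟨5504, true, false, 4602987⟩, ⟨2880, true, true, 4455279⟩, ⟨2624, true, false, 13589⟩]) (by decide +kernel)
theorem yo39 : (bN 448 640 640 9895139495).Ok := ok1 (.leaf [⟨2880, true, false, 4563264⟩, ⟨2880, true, true, 4609255⟩, ⟨0, true, false, 4532201⟩, ⟨640, false, true, 1706620⟩, ⟨2880, false, true, 1365876⟩]) (by decide +kernel)
theorem yo54 : (bN 352 704 704 9786922985).Ok := ok1 (.leaf [⟨2880, true, false, 5521485⟩, ⟨2880, true, true, 2693320⟩, ⟨0, true, false, 4013817⟩, ⟨704, false, true, 2430403⟩, ⟨2880, false, false, 2118191⟩]) (by decide +kernel)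
theorem yo1 : (bN 448 832 448 9880372439).Ok := ok1 (.leaf [⟨2880, false, true, 3889529⟩, ⟨0, true, false, 7199305⟩, ⟨2880, false, false, 4657709⟩, ⟨2880, true, false, 1030673⟩]) (by decide +kernel)
theorem yo6 : (bN 384 1280 384 9169050754).Ok := ok1 (.leaf [⟨2496, false, false, 5940181⟩, ⟨5376, true, true, 1757750⟩, ⟨5376, true, false, 4896855⟩, ⟨5376, false, false, 4182431⟩]) (by decide +kernel)
theorem yo8 : (bN 416 960 416 9788695604).Ok := ok1 (.leaf [⟨0, true, false, 6092810⟩, ⟨2880, false, true, 5038866⟩, ⟨2880, false, false, 1715400⟩, ⟨2880, true, true, 3930140⟩]) (by decide +kernel)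
theorem yo12 : (bN 432 656 656 9786438804).Ok := ok1 (.leaf [⟨2880, true, false, 7843226⟩, ⟨2880, true, true, 2036475⟩, ⟨656, false, false, 2507965⟩, ⟨0, false, false, 4389549⟩]) (by decide +kernel)
theorem yo14 : (bN 432 1008 432 9440358070).Ok := ok1 (.leaf [⟨0, true, false, 5858435⟩, ⟨2880, false, true, 5060347⟩, ⟨2880, false, false, 1697470⟩, ⟨2880, true, true, 4160965⟩]) (by decide +kernel)
theorem yo18 : (bN 432 1056 432 9248051073).Ok := ok1 (.leaf [⟨0, true, false, 5886509⟩, ⟨2880, false, false, 5886509⟩, ⟨2880, false, true, 969059⟩, ⟨2880, true, false, 4035138⟩]) (by decide +kernel)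
theorem yo22 : (bN 448 976 448 9391451982).Ok := ok1 (.leaf [⟨0, true, false, 5851154⟩, ⟨2880, false, true, 5074908⟩, ⟨2880, false, false, 1781012⟩, ⟨2880, true, true, 4070142⟩]) (by decide +kernel)
theorem yo24 : (bN 512 832 512 9326552722).Ok := ok1 (.leaf [⟨0, true, false, 6334664⟩, ⟨2880, false, true, 5269299⟩, ⟨2880, false, false, 3258950⟩, ⟨2880, true, true, 1914302⟩]) (by decide +kernel)
theorem yo27 : (bN 448 896 448 9675459104).Ok := ok1 (.leaf [⟨0, true, false, 6541772⟩, ⟨2880, false, true, 4971072⟩, ⟨2880, false, false, 2599953⟩, ⟨2880, true, true, 2664419⟩]) (by decide +kernel)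
theorem yo29 : (bN 528 816 528 9204121585).Ok := ok1 (.leaf [⟨2880, false, true, 3529228⟩, ⟨0, true, false, 6203016⟩, ⟨2880, false, false, 5185705⟩, ⟨2880, true, false, 1859268⟩]) (by decide +kernel)
theorem yo31 : (bN 464 960 464 9286176960).Ok := ok1 (.leaf [⟨0, true, false, 5851788⟩, ⟨2880, false, true, 5073640⟩, ⟨2880, false, false, 1930627⟩, ⟨2880, true, true, 3921161⟩]) (by decide +kernel)
theorem yo33 : (bN 496 880 496 9285736919).Ok := ok1 (.leaf [⟨0, true, false, 6212520⟩, ⟨2880, false, true, 5105225⟩, ⟨2880, false, false, 2775511⟩, ⟨2880, true, true, 2683960⟩]) (by decide +kernel)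
theorem yo35 : (bN 544 800 544 9187515805).Ok := ok1 (.leaf [⟨2880, false, true, 3759939⟩, ⟨0, true, false, 6084384⟩, ⟨2880, false, false, 5190658⟩, ⟨2880, true, false, 1742235⟩]) (by decide +kernel)
theorem yo45 : (bN 528 848 528 9119252643).Ok := ok1 (.leaf [⟨0, true, false, 5961447⟩, ⟨2880, false, false, 2802951⟩, ⟨2880, false, true, 5315134⟩, ⟨2880, true, true, 2697684⟩]) (by decide +kernel)
theorem yo47 : (bN 448 1008 448 9245886401).Ok := ok1 (.leaf [⟨0, true, false, 5869603⟩, ⟨2880, false, false, 5869603⟩, ⟨2880, false, true, 1060864⟩, ⟨2880, true, false, 3977147⟩]) (by decide +kernel)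
theorem yo49 : (bN 512 864 512 9149021664).Ok := ok1 (.leaf [⟨0, true, false, 6106736⟩, ⟨2880, false, true, 2558370⟩, ⟨2880, false, false, 5470376⟩, ⟨2880, true, false, 2641734⟩]) (by decide +kernel)
theorem yo51 : (bN 480 928 480 9256103714).Ok := ok1 (.leaf [⟨0, true, false, 5874049⟩, ⟨2880, false, false, 2081327⟩, ⟨2880, false, true, 5087812⟩, ⟨2880, true, true, 3734028⟩]) (by decide +kernel)
theorem yo53 : (bN 464 976 464 9191996484).Ok := ok1 (.leaf [⟨0, true, false, 5860551⟩, ⟨2880, false, false, 5860551⟩, ⟨2880, false, true, 1184455⟩, ⟨2880, true, false, 3871660⟩]) (by decide +kernel)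
theorem yo3 : (bN 544 704 544 9570481320).Ok := ok1 (.leaf [⟨2880, false, true, 6031770⟩, ⟨2880, false, false, 4540129⟩, ⟨0, true, false, 6205317⟩]) (by decide +kernel)
theorem yo5 : (bN 576 576 576 9946360295).Ok := ok1 (.leaf [⟨2880, false, true, 7242446⟩, ⟨0, false, false, 5058692⟩, ⟨2880, false, false, 4476078⟩]) (by decide +kernel)
theorem yo15 : (bN 608 640 608 9380814809).Ok := ok1 (.leaf [⟨2880, false, true, 6769651⟩, ⟨2880, false, false, 4820060⟩, ⟨0, true, false, 5187505⟩]) (by decide +kernel)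
theorem yo21 : (bN 560 736 560 9347238736).Ok := ok1 (.leaf [⟨2880, false, true, 5821890⟩, ⟨0, true, false, 6195601⟩, ⟨2880, false, false, 4759724⟩]) (by decide +kernel)
theorem yo36 : (bN 528 784 528 9304778825).Ok := ok1 (.leaf [⟨2880, false, true, 5546580⟩, ⟨0, true, false, 6651238⟩, ⟨2880, false, false, 4579399⟩]) (by decide +kernel)
theorem yo44 : (bN 576 736 576 9230459182).Ok := ok1 (.leaf [⟨2880, false, true, 5864650⟩, ⟨0, true, false, 6033740⟩, ⟨2880, false, false, 4878827⟩]) (by decide +kernel)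

end Pool.Agent.P.MP_d76e6a_co
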