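import Pool.Agent.P.MP_d76e6a_co.XAsm
import Pool.Agent.P.MP_d76e6a_co.XTm

namespace Pool.Agent.P.MP_d76e6a_co

set_option maxRecDepth 100000

theorem yo193 : (bN 616 748 616 8924825387).Ok := ok1 (.node true 4 2736 (.node true 8 2736 (.node true 72 2812 (.node true 104 2880 (.node false 4 2812 (.node false 8 2880 (.node false 44 2880 (.node false 64 2880 (.node false 72 2880 (.node false 76 2880 (.node false 80 2880 (.node false 112 2880 (.leaf [⟨2880, false, false, 5070731⟩, ⟨2880, false, true, 3766073⟩, ⟨5656, true, false, 3710517⟩, ⟨2880, true, false, 2322629⟩, ⟨5648, false, false, 1907267⟩]) (.leaf [⟨2880, false, true, 4991010⟩, ⟨2880, false, false, 4889443⟩, ⟨5680, false, false, 2723723⟩, ⟨5656, true, false, 2241275⟩, ⟨5648, false, false, 1931764⟩])) (.leaf [⟨2880, false, false, 5025424⟩, ⟨2880, false, true, 4403571⟩, ⟨5688, false, false, 3293491⟩, ⟨5680, false, false, 2614313⟩, ⟨5656, true, false, 1440418⟩])) (.leaf [⟨2880, false, false, 5025424⟩, ⟨2880, false,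 true, 4403571⟩, ⟨5688, false, false, 3293491⟩, ⟨5680, false, false, 2614313⟩, ⟨5656, true, false, 1440418⟩])) (.leaf [⟨2880, false, false, 5019082⟩, ⟨2880, false, true, 4389963⟩, ⟨5696, false, false, 3447468⟩, ⟨5688, false, false, 2647062⟩, ⟨5656, true, false, 1273640⟩])) (.leaf [⟨2880, false, false, 4934722⟩, ⟨2880, false, true, 4104558⟩, ⟨5720, false, false, 4781599⟩, ⟨5696, false, false, 2956336⟩])) (.leaf [⟨2880, false, false, 4818758⟩, ⟨5752, false, false, 4688473⟩, ⟨2880, false, true, 4554084⟩, ⟨5712, false, false, 2715901⟩])) (.leaf [⟨0, false, false, 4780699⟩, ⟨2880, false, true, 4780699⟩, ⟨2880, false, false, 4780699⟩, ⟨5752, false, false, 2435120⟩])) (.leaf [⟨0, false, false, 4780699⟩, ⟨2880, false, false, 4780699⟩, ⟨2880, false, true, 4780698⟩, ⟨5752, false, false, 2435121⟩])) (.node true 76 2880 (.node false 4 2880 (.node false 8 2880 (.node false 76 2880 (.node true 80 2880 (.node true 84 2880 (.node true 88 2880 (.node true 92 2880 (.node true 96 2880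 (.node false 112 2880 (.leaf [⟨5664, true, false, 3660150⟩, ⟨2880, false, false, 4579994⟩, ⟨2880, true, false, 5589689⟩, ⟨5648, false, false, 1531655⟩, ⟨5656, true, false, 1415727⟩]) (.leaf [⟨2880, true, false, 5086454⟩, ⟨2880, true, true, 4439721⟩, ⟨5656, true, false, 2466984⟩, ⟨5664, true, false, 2597511⟩, ⟨5688, false, false, 2186547⟩])) (.node false 112 2880 (.leaf [⟨5672, true, false, 3784463⟩, ⟨2880, false, true, 5707399⟩, ⟨2880, true, true, 4719745⟩, ⟨5648, false, false, 1490344⟩, ⟨5664, true, false, 1075265⟩]) (.leaf [⟨2880, true, false, 5102635⟩, ⟨2880, true, true, 4317538⟩, ⟨5664, true, false, 2628094⟩, ⟨5672, true, false, 2816922⟩, ⟨5688, false, false, 1912027⟩]))) (.node false 112 2880 (.leaf [⟨2880, true, false, 5579955⟩, ⟨2880, false, false, 4583694⟩, ⟨5672, true, false, 3767978⟩, ⟨5648, false, false, 1406902⟩, ⟨5664, true, false, 1438686⟩]) (.leaf [⟨2880, true, false, 5102635⟩, ⟨2880, true, true, 4317537⟩, ⟨5664, true, false, 2628094⟩, ⟨5672, true,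 false, 2816922⟩, ⟨5688, false, false, 1912027⟩]))) (.leaf [⟨2880, true, false, 1760480⟩, ⟨5680, true, false, 3533280⟩, ⟨2880, true, true, 4459925⟩, ⟨2880, false, true, 3780539⟩, ⟨5672, true, false, 1723741⟩, ⟨5688, false, false, 1519251⟩])) (.leaf [⟨5680, true, false, 3533287⟩, ⟨2880, true, false, 1760934⟩, ⟨2880, true, true, 4459861⟩, ⟨2880, false, true, 3780026⟩, ⟨5672, true, false, 1723908⟩, ⟨5688, false, false, 1519200⟩])) (.leaf [⟨5688, true, false, 3804322⟩, ⟨2880, true, true, 4642167⟩, ⟨2880, false, true, 5748349⟩, ⟨5680, true, false, 1175378⟩, ⟨5688, false, false, 1407001⟩])) (.leaf [⟨2880, false, true, 3787852⟩, ⟨2880, false, false, 4060897⟩, ⟨5680, false, false, 3684095⟩, ⟨5752, false, false, 3924524⟩, ⟨5656, true, false, 1319848⟩])) (.leaf [⟨5752, false, false, 2435120⟩, ⟨2880, false, true, 4780699⟩, ⟨0, false, false, 4780699⟩, ⟨2880, false, false, 4780699⟩])) (.leaf [⟨5752, false, false, 2435120⟩, ⟨0, false, false, 4780699⟩, ⟨2880, false, true, 4780699⟩,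 ⟨2880, false, false, 4780699⟩])) (.node true 36 2880 (.node false 240 2640 (.node false 360 2880 (.node false 420 2880 (.node false 452 2880 (.node false 468 2880 (.node false 476 2880 (.node false 480 2880 (.node false 720 2880 (.node true 56 2880 (.leaf [⟨5704, true, false, 4873249⟩, ⟨2880, false, true, 6131025⟩, ⟨2880, true, true, 5772942⟩]) (.leaf [⟨2880, true, true, 3981149⟩, ⟨2880, true, false, 5035308⟩, ⟨5728, true, false, 4500042⟩, ⟨5704, true, false, 3260717⟩])) (.leaf [⟨5728, true, false, 4861300⟩, ⟨2880, true, false, 1686547⟩, ⟨2880, true, true, 5403362⟩, ⟨2880, false, true, 3708518⟩, ⟨2744, true, false, 1117490⟩])) (.leaf [⟨2880, true, true, 5509910⟩, ⟨2880, true, false, 5007852⟩, ⟨5728, true, false, 4470655⟩, ⟨2736, true, false, 1788798⟩])) (.leaf [⟨2880, true, true, 5522682⟩, ⟨2880, true, false, 5002902⟩, ⟨5728, true, false, 4465331⟩, ⟨2728, true, false, 1786301⟩])) (.leaf [⟨2880, true, true, 5160852⟩, ⟨2880, true, false, 4686794⟩, ⟨5728, true, false,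 4146171⟩, ⟨5680, true, false, 2005574⟩, ⟨5480, false, false, 777826⟩])) (.leaf [⟨2880, true, true, 4967914⟩, ⟨2880, true, false, 4754599⟩, ⟨5728, true, false, 4214447⟩, ⟨5680, true, false, 2213480⟩, ⟨5464, false, false, 626776⟩])) (.leaf [⟨2880, true, true, 4967914⟩, ⟨2880, true, false, 4754599⟩, ⟨5728, true, false, 4214447⟩, ⟨5680, true, false, 2213479⟩, ⟨5464, false, false, 626777⟩])) (.node false 4 2880 (.node false 8 2880 (.leaf [⟨2880, true, false, 5040957⟩, ⟨2880, true, true, 4354324⟩, ⟨5728, true, false, 3334838⟩, ⟨5680, true, false, 2682210⟩, ⟨5752, false, false, 1364886⟩]) (.leaf [⟨5752, false, false, 2435120⟩, ⟨0, false, false, 4780699⟩, ⟨2880, false, false, 4780699⟩, ⟨2880, false, true, 4780698⟩])) (.leaf [⟨5752, false, false, 2435120⟩, ⟨0, false, false, 4780699⟩, ⟨2880, false, false, 4780699⟩, ⟨2880, false, true, 4780699⟩]))) (.node false 4 2880 (.node false 8 2880 (.leaf [⟨2880, true, false, 5040957⟩, ⟨2880, true, true, 4354324⟩, ⟨5728, true, false, 3334838⟩,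 ⟨5680, true, false, 2682210⟩, ⟨5752, false, false, 1364886⟩]) (.leaf [⟨5752, false, false, 2435120⟩, ⟨2880, false, false, 4780699⟩, ⟨2880, false, true, 4780698⟩, ⟨0, false, false, 4780699⟩])) (.leaf [⟨5752, false, false, 2435120⟩, ⟨0, false, false, 4780699⟩, ⟨2880, false, true, 4780699⟩, ⟨2880, false, false, 4780699⟩]))) (.leaf [⟨5720, true, false, 3985247⟩, ⟨2880, true, false, 4733361⟩, ⟨0, true, false, 4733361⟩, ⟨2880, true, true, 3325247⟩])))) (.node true 12 2812 (.node true 16 2880 (.node true 20 2880 (.node true 24 2880 (.node true 28 2880 (.node true 32 2880 (.node true 36 2504 (.node true 40 2504 (.node true 44 2880 (.node true 48 2504 (.node true 52 2880 (.node true 56 2504 (.node true 60 2880 (.node true 64 2504 (.node false 240 2640 (.node false 360 2880 (.leaf [⟨5704, true, false, 4709921⟩, ⟨2880, true, false, 5454499⟩, ⟨2880, false, false, 4673417⟩, ⟨5688, true, false, 1476545⟩, ⟨5504, false, false, 462834⟩]) (.leaf [⟨2880, true, false, 5220687⟩, ⟨2880,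 true, true, 4168631⟩, ⟨5688, true, false, 2688343⟩, ⟨5704, true, false, 2624655⟩, ⟨0, false, false, 2074900⟩])) (.leaf [⟨2880, true, false, 5220687⟩, ⟨2880, true, true, 4168631⟩, ⟨5688, true, false, 2688343⟩, ⟨5704, true, false, 2624655⟩, ⟨0, false, false, 2074900⟩])) (.leaf [⟨2880, true, false, 5089264⟩, ⟨2880, true, true, 3974973⟩, ⟨5704, true, false, 4030657⟩, ⟨5696, true, false, 2936272⟩, ⟨0, false, false, 746050⟩])) (.leaf [⟨2880, true, false, 4999869⟩, ⟨5712, true, false, 4540638⟩, ⟨2880, true, true, 4016526⟩, ⟨5696, true, false, 2972848⟩, ⟨0, false, false, 247335⟩])) (.leaf [⟨2880, true, false, 4985386⟩, ⟨5712, true, false, 4797070⟩, ⟨2880, true, true, 3984632⟩, ⟨5704, true, false, 3010129⟩])) (.leaf [⟨5720, true, false, 4749868⟩, ⟨2880, true, false, 5008208⟩, ⟨2880, true, true, 4088046⟩, ⟨5704, true, false, 2931094⟩])) (.leaf [⟨5720, true, false, 4761561⟩, ⟨2880, true, false, 5007723⟩, ⟨2880, true, true, 4038361⟩, ⟨5712, true, false, 2969571⟩])) (.leaf [⟨5728,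 true, false, 4978254⟩, ⟨2880, true, false, 2292782⟩, ⟨2880, true, true, 4439866⟩, ⟨5712, true, false, 2103301⟩, ⟨2880, false, true, 2963013⟩])) (.leaf [⟨5728, true, false, 4775825⟩, ⟨2880, true, false, 4986902⟩, ⟨2880, true, true, 3956953⟩, ⟨5720, true, false, 3057536⟩])) (.leaf [⟨5728, true, false, 4775789⟩, ⟨2880, true, false, 4986942⟩, ⟨2880, true, true, 3957029⟩, ⟨5720, true, false, 3057455⟩])) (.leaf [⟨5736, true, false, 4790879⟩, ⟨2880, true, false, 4966385⟩, ⟨2880, true, true, 3874128⟩, ⟨5728, true, false, 3145824⟩])) (.leaf [⟨5736, true, false, 5153742⟩, ⟨2880, true, true, 4751712⟩, ⟨2880, false, true, 5514946⟩, ⟨5728, true, false, 1356816⟩])) (.leaf [⟨5744, true, false, 4806322⟩, ⟨2880, true, false, 4946633⟩, ⟨2880, true, true, 3790802⟩, ⟨5736, true, false, 3233460⟩])) (.leaf [⟨5744, true, false, 4806182⟩, ⟨2880, true, false, 4946783⟩, ⟨2880, true, true, 3791092⟩, ⟨5736, true, false, 3233159⟩])) (.node true 4 2880 (.node true 8 2880 (.leaf [⟨5752, true, false,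 5159334⟩, ⟨2880, true, false, 5248303⟩, ⟨5744, true, false, 2080190⟩, ⟨2880, false, false, 4289389⟩]) (.leaf [⟨5752, true, false, 4086211⟩, ⟨0, true, false, 4776310⟩, ⟨2880, true, true, 3138385⟩, ⟨2880, true, false, 4776310⟩])) (.leaf [⟨5752, true, false, 4086211⟩, ⟨2880, true, true, 3138384⟩, ⟨0, true, false, 4776310⟩, ⟨2880, true, false, 4776310⟩]))) (.node true 4 2812 (.node true 4 2880 (.node true 8 2880 (.leaf [⟨5752, true, false, 4822530⟩, ⟨2880, true, false, 4927246⟩, ⟨2880, true, true, 3706265⟩, ⟨5744, true, false, 3321175⟩]) (.leaf [⟨0, true, false, 4776310⟩, ⟨2880, true, true, 3138384⟩, ⟨2880, true, false, 4776310⟩, ⟨5752, true, false, 4086211⟩])) (.leaf [⟨0, true, false, 4776310⟩, ⟨2880, true, true, 3138384⟩, ⟨2880, true, false, 4776310⟩, ⟨5752, true, false, 4086211⟩])) (.leaf [⟨2880, true, false, 4776310⟩, ⟨0, true, false, 4776310⟩, ⟨2880, true, true, 3138384⟩, ⟨5752, true, false, 4086211⟩])))) (.leaf [⟨0, true, false, 4839540⟩, ⟨2880, true, false, 4908209⟩,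 ⟨5752, true, false, 3408939⟩, ⟨2880, true, true, 3620528⟩])) (.leaf [⟨0, true, false, 4839206⟩, ⟨2880, true, false, 4908553⟩, ⟨5752, true, false, 3408240⟩, ⟨2880, true, true, 3621216⟩])) (by decide +kernel)
theorem yo192 : (bN 584 792 584 8937804815).Ok := ok1 (.node true 56 2720 (.node true 88 2824 (.node true 104 2880 (.node false 64 2824 (.node false 96 2880 (.leaf [⟨2880, false, true, 6014342⟩, ⟨5656, true, false, 3721739⟩, ⟨2880, false, false, 1642033⟩, ⟨5664, false, false, 1964442⟩, ⟨2880, true, true, 3434661⟩]) (.leaf [⟨2880, false, true, 4927392⟩, ⟨2880, false, false, 4152267⟩, ⟨0, false, false, 3538479⟩, ⟨5664, false, false, 3151250⟩, ⟨5656, true, false, 1007829⟩])) (.leaf [⟨2880, false, true, 4591143⟩, ⟨2880, false, false, 4087148⟩, ⟨0, false, false, 4591143⟩, ⟨5696, false, false, 3507782⟩])) (.node true 96 2880 (.node false 64 2824 (.node false 96 2880 (.leaf [⟨2880, false, true, 6001363⟩, ⟨5664, true, false, 3808697⟩, ⟨2880, true, true, 3382813⟩, ⟨5664,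 false, false, 1865638⟩, ⟨2880, false, false, 1718705⟩]) (.leaf [⟨2880, false, true, 4873202⟩, ⟨2880, false, false, 4167852⟩, ⟨5664, false, false, 3210221⟩, ⟨5664, true, false, 988489⟩, ⟨0, false, false, 3537453⟩])) (.leaf [⟨5696, false, false, 3507782⟩, ⟨2880, false, true, 4591143⟩, ⟨2880, false, false, 4087148⟩, ⟨0, false, false, 4591143⟩])) (.node false 720 2824 (.node false 64 2880 (.node false 96 2880 (.node false 112 2880 (.node false 120 2880 (.node false 160 2880 (.node false 176 2880 (.node false 184 2880 (.node false 192 2880 (.node false 232 2880 (.node false 248 2880 (.node false 256 2880 (.node false 264 2880 (.node false 376 2880 (.node false 432 2880 (.node false 696 2880 (.leaf [⟨2880, true, true, 4710222⟩, ⟨2824, false, false, 4655563⟩, ⟨5672, true, false, 3499513⟩, ⟨0, true, false, 1303378⟩, ⟨2880, false, false, 1305162⟩, ⟨2880, true, false, 1303378⟩]) (.leaf [⟨2880, true, true, 5567072⟩, ⟨2824, false, false, 4164928⟩, ⟨0, true, false, 1513073⟩, ⟨5672,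 true, false, 2762548⟩, ⟨2880, true, false, 1513073⟩, ⟨2728, true, false, 1256523⟩])) (.leaf [⟨2880, true, true, 4255366⟩, ⟨2880, true, false, 4255366⟩, ⟨0, true, false, 4255366⟩, ⟨2824, true, false, 4011119⟩])) (.leaf [⟨2880, true, true, 4255366⟩, ⟨2880, true, false, 4255366⟩, ⟨0, true, false, 4255366⟩, ⟨2824, true, false, 4011119⟩])) (.leaf [⟨2880, true, true, 4255366⟩, ⟨2880, true, false, 4255366⟩, ⟨0, true, false, 4255366⟩, ⟨2824, true, false, 4011119⟩])) (.leaf [⟨2880, true, true, 4255366⟩, ⟨2880, true, false, 4255366⟩, ⟨0, true, false, 4255366⟩, ⟨2824, true, false, 4011119⟩])) (.leaf [⟨2880, true, true, 4255366⟩, ⟨2880, true, false, 4255366⟩, ⟨0, true, false, 4255366⟩, ⟨2824, true, false, 4011119⟩])) (.leaf [⟨2880, true, true, 4255366⟩, ⟨2880, true, false, 4255366⟩, ⟨0, true, false, 4255366⟩, ⟨2824, true, false, 4011119⟩])) (.leaf [⟨2880, true, true, 4255366⟩, ⟨2880, true, false, 4255366⟩, ⟨0, true, false, 4255366⟩, ⟨2824, true, false, 4011119⟩])) (.leaf [⟨2880,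 true, true, 4255366⟩, ⟨2880, true, false, 4255366⟩, ⟨0, true, false, 4255366⟩, ⟨2824, true, false, 4011119⟩])) (.leaf [⟨2880, true, true, 4255366⟩, ⟨2880, true, false, 4255366⟩, ⟨0, true, false, 4255366⟩, ⟨2824, true, false, 4011119⟩])) (.leaf [⟨2880, true, true, 4255366⟩, ⟨2880, true, false, 4255366⟩, ⟨0, true, false, 4255366⟩, ⟨2824, true, false, 4011119⟩])) (.leaf [⟨2824, true, false, 4011119⟩, ⟨2880, true, true, 4255366⟩, ⟨2880, true, false, 4255366⟩, ⟨0, true, false, 4255366⟩])) (.leaf [⟨2824, true, false, 4011119⟩, ⟨2880, true, true, 4255366⟩, ⟨2880, true, false, 4255366⟩, ⟨0, true, false, 4255366⟩])) (.leaf [⟨2824, true, false, 4011119⟩, ⟨2880, true, true, 4255366⟩, ⟨2880, true, false, 4255366⟩, ⟨0, true, false, 4255366⟩])) (.leaf [⟨2824, true, false, 4011119⟩, ⟨0, true, false, 4255366⟩, ⟨2880, true, false, 4255366⟩, ⟨2880, true, true, 4255366⟩])) (.node false 64 2824 (.node false 96 2880 (.node false 112 2880 (.leaf [⟨2880, true, true, 5129878⟩, ⟨0, true,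 false, 4412618⟩, ⟨2880, true, false, 1385984⟩, ⟨5664, true, false, 1978559⟩, ⟨2880, false, true, 3347310⟩, ⟨5648, false, false, 522866⟩]) (.leaf [⟨2880, true, true, 4873205⟩, ⟨2880, true, false, 4167852⟩, ⟨5664, true, false, 3210216⟩, ⟨5664, false, false, 988494⟩, ⟨0, true, false, 3537450⟩])) (.leaf [⟨5664, true, false, 3625767⟩, ⟨5664, false, false, 2433007⟩, ⟨2880, true, true, 3572814⟩, ⟨2880, true, false, 3572814⟩, ⟨0, false, false, 3572814⟩])) (.leaf [⟨5696, false, false, 3507782⟩, ⟨2880, false, true, 4591143⟩, ⟨2880, false, false, 4087148⟩, ⟨0, false, false, 4591143⟩]))))) (.node true 64 2824 (.node true 72 2880 (.leaf [⟨2880, true, false, 1510891⟩, ⟨5688, true, false, 2707572⟩, ⟨2880, true, true, 4382798⟩, ⟨0, false, false, 2329265⟩, ⟨2880, false, true, 4053258⟩, ⟨5672, true, false, 1793432⟩]) (.node false 704 2640 (.node false 8 2880 (.node false 48 2880 (.node false 64 2880 (.node false 72 2880 (.node false 80 2880 (.node false 104 2880 (.node false 112 2880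 (.node false 120 2880 (.node false 160 2880 (.node false 176 2880 (.node false 184 2880 (.node false 192 2880 (.node false 232 2880 (.node false 248 2880 (.node false 256 2880 (.node false 264 2880 (.node false 376 2880 (.node false 432 2880 (.node false 456 2880 (.node false 472 2880 (.node false 480 2880 (.node false 704 2880 (.node true 32 2880 (.leaf [⟨5728, true, false, 5376488⟩, ⟨2880, false, true, 5746315⟩, ⟨2880, true, true, 3607209⟩, ⟨2880, false, false, 2047204⟩]) (.leaf [⟨2880, true, true, 3322909⟩, ⟨5728, true, false, 4867946⟩, ⟨2880, true, false, 4335130⟩, ⟨0, true, false, 4251231⟩])) (.leaf [⟨0, true, false, 4872625⟩, ⟨2880, true, true, 2295115⟩, ⟨2880, true, false, 4550658⟩, ⟨2880, false, false, 2577510⟩, ⟨5688, true, false, 2481309⟩])) (.leaf [⟨2880, true, true, 5945740⟩, ⟨2880, true, false, 4240181⟩, ⟨0, true, false, 4240181⟩, ⟨2768, true, false, 2351114⟩])) (.leaf [⟨2880, true, true, 4598121⟩, ⟨2880, true, false, 4068777⟩, ⟨0, true, false, 4598121⟩,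 ⟨5688, true, false, 3512197⟩])) (.leaf [⟨2880, true, true, 4598121⟩, ⟨2880, true, false, 4068777⟩, ⟨0, true, false, 4598121⟩, ⟨5688, true, false, 3512197⟩])) (.leaf [⟨2880, true, true, 4598121⟩, ⟨2880, true, false, 4068777⟩, ⟨0, true, false, 4598121⟩, ⟨5688, true, false, 3512197⟩])) (.leaf [⟨2880, true, true, 4598121⟩, ⟨2880, true, false, 4068777⟩, ⟨0, true, false, 4598121⟩, ⟨5688, true, false, 3512197⟩])) (.leaf [⟨2880, true, true, 4598121⟩, ⟨2880, true, false, 4068777⟩, ⟨0, true, false, 4598121⟩, ⟨5688, true, false, 3512197⟩])) (.leaf [⟨2880, true, true, 4598121⟩, ⟨2880, true, false, 4068777⟩, ⟨0, true, false, 4598121⟩, ⟨5688, true, false, 3512197⟩])) (.leaf [⟨2880, true, true, 4598121⟩, ⟨2880, true, false, 4068777⟩, ⟨0, true, false, 4598121⟩, ⟨5688, true, false, 3512197⟩])) (.leaf [⟨2880, true, true, 4598121⟩, ⟨2880, true, false, 4068777⟩, ⟨0, true, false, 4598121⟩, ⟨5688, true, false, 3512197⟩])) (.leaf [⟨2880, true, true, 4598121⟩, ⟨2880, true, false, 4068777⟩,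 ⟨0, true, false, 4598121⟩, ⟨5688, true, false, 3512197⟩])) (.leaf [⟨2880, true, true, 4598121⟩, ⟨2880, true, false, 4068777⟩, ⟨0, true, false, 4598121⟩, ⟨5688, true, false, 3512197⟩])) (.leaf [⟨2880, true, true, 4598121⟩, ⟨2880, true, false, 4068777⟩, ⟨0, true, false, 4598121⟩, ⟨5688, true, false, 3512197⟩])) (.leaf [⟨2880, true, true, 4598121⟩, ⟨2880, true, false, 4068777⟩, ⟨0, true, false, 4598121⟩, ⟨5688, true, false, 3512197⟩])) (.leaf [⟨2880, true, true, 4598121⟩, ⟨5688, true, false, 3512197⟩, ⟨2880, true, false, 4068777⟩, ⟨0, true, false, 4598121⟩])) (.leaf [⟨5688, true, false, 3512197⟩, ⟨2880, true, true, 4598121⟩, ⟨2880, true, false, 4068777⟩, ⟨0, true, false, 4598121⟩])) (.leaf [⟨5688, true, false, 3512197⟩, ⟨2880, true, true, 4598121⟩, ⟨2880, true, false, 4068777⟩, ⟨0, true, false, 4598121⟩])) (.leaf [⟨2880, true, true, 4416474⟩, ⟨5688, true, false, 3049930⟩, ⟨5680, false, false, 4149110⟩, ⟨2880, true, false, 1962402⟩, ⟨5688, false, false, 3199300⟩])) (.leaf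 [⟨5688, false, false, 4104999⟩, ⟨5688, true, false, 3274040⟩, ⟨5696, false, false, 3137822⟩, ⟨2880, true, true, 4220018⟩, ⟨2880, true, false, 2040338⟩])) (.leaf [⟨5696, false, false, 3363527⟩, ⟨5712, false, false, 4475318⟩, ⟨2880, false, false, 5272589⟩, ⟨2880, true, false, 3665781⟩])) (.leaf [⟨5688, true, false, 1400698⟩, ⟨5752, false, false, 5125636⟩, ⟨2880, true, true, 5258830⟩, ⟨2880, true, false, 4992052⟩])) (.leaf [⟨5752, false, false, 3813559⟩, ⟨2880, false, true, 4321219⟩, ⟨2880, false, false, 4321219⟩, ⟨0, false, false, 4321219⟩])) (.leaf [⟨0, true, false, 4872624⟩, ⟨2880, true, false, 4550658⟩, ⟨2880, true, true, 2295115⟩, ⟨5688, true, false, 2481309⟩, ⟨2880, false, false, 2577510⟩]))) (.node true 32 2824 (.node true 48 2880 (.leaf [⟨5712, true, false, 4708636⟩, ⟨2880, true, false, 4366861⟩, ⟨2880, true, true, 3920219⟩, ⟨5696, true, false, 3781500⟩]) (.leaf [⟨5712, true, false, 4984308⟩, ⟨0, true, false, 4250702⟩, ⟨2880, true, false, 4250702⟩, ⟨2880, true,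 true, 3291505⟩])) (.leaf [⟨5728, true, false, 4867947⟩, ⟨2880, true, false, 4335130⟩, ⟨0, true, false, 4251231⟩, ⟨2880, true, true, 3322909⟩])))) (.node true 8 2400 (.node true 16 2824 (.node true 24 2880 (.leaf [⟨5736, true, false, 5112661⟩, ⟨2880, true, false, 779009⟩, ⟨2880, true, true, 4710980⟩, ⟨2880, false, true, 4189457⟩, ⟨5704, true, false, 1985109⟩]) (.node true 8 2880 (.leaf [⟨5752, true, false, 5210797⟩, ⟨2880, true, false, 4940663⟩, ⟨5736, true, false, 2067128⟩, ⟨2880, false, false, 4558628⟩]) (.leaf [⟨5752, true, false, 4618567⟩, ⟨0, true, false, 4235781⟩, ⟨2880, true, true, 3437167⟩, ⟨2880, true, false, 4485702⟩]))) (.leaf [⟨0, true, false, 5218633⟩, ⟨5744, true, false, 2746462⟩, ⟨2880, true, true, 4133162⟩, ⟨2880, true, false, 1072773⟩, ⟨2880, false, true, 3606186⟩])) (.leaf [⟨0, true, false, 4514024⟩, ⟨5752, true, false, 3758153⟩, ⟨2880, true, false, 4574026⟩, ⟨2880, true, true, 3931012⟩]))) (by decide +kernel)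
theorem yo167 : (bN 632 720 632 8929922508).Ok := ok1 (.node true 88 2712 (.node true 128 2800 (.node true 152 2880 (.leaf [⟨2880, false, true, 6499647⟩, ⟨2880, false, false, 4666394⟩, ⟨0, false, false, 3558268⟩, ⟨5608, true, false, 2052907⟩]) (.node true 136 2880 (.node false 240 2640 (.node false 360 2880 (.leaf [⟨2880, false, true, 6281278⟩, ⟨2880, false, false, 4838003⟩, ⟨5624, true, false, 3549589⟩, ⟨5656, false, false, 2108347⟩]) (.node false 8 2880 (.leaf [⟨2880, false, true, 6454411⟩, ⟨2880, false, false, 4712967⟩, ⟨5752, false, false, 3240446⟩, ⟨5624, true, false, 2369392⟩]) (.leaf [⟨2880, false, false, 5049619⟩, ⟨2880, false, true, 5049618⟩, ⟨0, false, false, 5049619⟩, ⟨5752, false, false, 1628361⟩]))) (.node false 8 2640 (.node false 48 2880 (.leaf [⟨2880, false, true, 6370265⟩, ⟨2880, false, false, 4790638⟩, ⟨5712, false, false, 2686817⟩, ⟨5624, true, false, 2929495⟩]) (.leaf [⟨2880, false, true, 5026449⟩, ⟨2880, false, false, 5026449⟩, ⟨0, false, false,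 5026449⟩, ⟨5712, false, false, 1697868⟩])) (.leaf [⟨2880, false, false, 5049619⟩, ⟨0, false, false, 5049619⟩, ⟨2880, false, true, 5049618⟩, ⟨5752, false, false, 1628361⟩]))) (.node false 240 2640 (.node false 240 2880 (.node false 360 2880 (.node false 424 2880 (.node false 456 2880 (.node true 64 2880 (.leaf [⟨2880, false, true, 6284318⟩, ⟨5696, true, false, 5377097⟩, ⟨2880, false, false, 4763554⟩, ⟨2704, true, false, 352247⟩]) (.leaf [⟨2880, true, true, 3236578⟩, ⟨5696, true, false, 4060858⟩, ⟨2800, false, false, 3006622⟩, ⟨2880, true, false, 3236579⟩, ⟨0, true, false, 3236579⟩])) (.leaf [⟨2880, true, true, 5877500⟩, ⟨2880, true, false, 4983515⟩, ⟨0, true, false, 4983515⟩, ⟨2672, true, false, 932686⟩])) (.leaf [⟨2880, true, true, 2929112⟩, ⟨0, true, false, 4916054⟩, ⟨2880, true, false, 4916054⟩, ⟨2880, false, false, 3267287⟩, ⟨5400, false, false, 748709⟩])) (.leaf [⟨2880, true, true, 6570839⟩, ⟨2880, true, false, 4527627⟩, ⟨0, true, false, 4096808⟩, ⟨5520, false,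 false, 1581941⟩])) (.node false 8 2880 (.node false 48 2880 (.node false 64 2880 (.node false 72 2880 (.node false 80 2880 (.node false 120 2880 (.node false 144 2880 (.leaf [⟨2880, true, true, 6488008⟩, ⟨2880, true, false, 4679264⟩, ⟨0, true, false, 3473025⟩, ⟨5616, false, false, 2136920⟩]) (.node false 128 2880 (.node false 136 2880 (.node true 64 2880 (.leaf [⟨2880, true, true, 6342621⟩, ⟨2880, true, false, 4811904⟩, ⟨5696, true, false, 2507627⟩, ⟨5624, false, false, 3115064⟩]) (.leaf [⟨5696, true, false, 1728213⟩, ⟨2880, true, true, 5016334⟩, ⟨2880, true, false, 5016334⟩, ⟨0, true, false, 5016334⟩])) (.node true 64 2880 (.leaf [⟨2880, true, true, 6329912⟩, ⟨2880, true, false, 4830191⟩, ⟨5696, true, false, 2412678⟩, ⟨5632, false, false, 3204435⟩]) (.leaf [⟨5696, true, false, 1728213⟩, ⟨2880, true, true, 5016334⟩, ⟨2880, true, false, 5016334⟩, ⟨0, true, false, 5016334⟩]))) (.node true 64 2880 (.leaf [⟨2880, true, true, 6315168⟩, ⟨2880, true, false, 4847010⟩, ⟨5696,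 true, false, 2302343⟩, ⟨5640, false, false, 3312695⟩]) (.leaf [⟨5696, true, false, 1728213⟩, ⟨2880, true, true, 5016334⟩, ⟨2880, true, false, 5016334⟩, ⟨0, true, false, 5016334⟩])))) (.node false 88 2880 (.node false 96 2880 (.node false 104 2880 (.node false 112 2880 (.leaf [⟨2880, false, false, 5896326⟩, ⟨2880, true, false, 4428855⟩, ⟨5648, false, false, 2036232⟩, ⟨0, true, false, 3141537⟩, ⟨5640, false, false, 1274266⟩]) (.leaf [⟨2880, false, false, 5282936⟩, ⟨2880, false, true, 4113240⟩, ⟨0, false, false, 3133316⟩, ⟨5648, false, false, 2672827⟩, ⟨5656, false, false, 1574896⟩])) (.leaf [⟨2880, false, false, 4988644⟩, ⟨2880, false, true, 4988644⟩, ⟨5656, false, false, 1811284⟩, ⟨0, false, false, 4988644⟩])) (.leaf [⟨2880, false, false, 5787076⟩, ⟨2880, false, true, 2811871⟩, ⟨5664, false, false, 3858909⟩, ⟨5672, false, false, 4319359⟩])) (.leaf [⟨2880, false, false, 5722307⟩, ⟨2880, false, true, 3025942⟩, ⟨5672, false, false, 3638133⟩, ⟨5680, false, false, 4390833⟩])))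 (.leaf [⟨2880, false, false, 5657191⟩, ⟨5688, false, false, 4461033⟩, ⟨2880, false, true, 3237372⟩, ⟨5680, false, false, 3421620⟩])) (.leaf [⟨2880, false, false, 5591692⟩, ⟨5696, false, false, 4530053⟩, ⟨2880, false, true, 3446343⟩, ⟨5688, false, false, 3209128⟩])) (.leaf [⟨2880, false, false, 5451939⟩, ⟨5712, false, false, 4656264⟩, ⟨2880, false, true, 3847826⟩, ⟨5696, false, false, 2821187⟩])) (.leaf [⟨2880, false, false, 5099097⟩, ⟨5752, false, false, 4966255⟩, ⟨2880, false, true, 4833034⟩, ⟨5712, false, false, 1878830⟩])) (.leaf [⟨0, false, false, 5049619⟩, ⟨2880, false, false, 5049619⟩, ⟨2880, false, true, 5049619⟩, ⟨5752, false, false, 1628360⟩]))) (.node false 8 2880 (.node false 48 2880 (.node false 64 2880 (.node false 72 2880 (.node false 80 2880 (.node false 120 2880 (.node false 144 2880 (.leaf [⟨2880, true, true, 6488007⟩, ⟨2880, true, false, 4679264⟩, ⟨0, true, false, 3473025⟩, ⟨5616, false, false, 2136920⟩]) (.node false 128 2880 (.node false 136 2880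 (.node true 64 2880 (.leaf [⟨2880, true, true, 6342621⟩, ⟨2880, true, false, 4811904⟩, ⟨5696, true, false, 2507627⟩, ⟨5624, false, false, 3115064⟩]) (.leaf [⟨5696, true, false, 1728213⟩, ⟨2880, true, true, 5016334⟩, ⟨2880, true, false, 5016334⟩, ⟨0, true, false, 5016334⟩])) (.node true 64 2880 (.leaf [⟨2880, true, true, 6329912⟩, ⟨2880, true, false, 4830191⟩, ⟨5696, true, false, 2412678⟩, ⟨5632, false, false, 3204435⟩]) (.leaf [⟨5696, true, false, 1728213⟩, ⟨2880, true, true, 5016334⟩, ⟨2880, true, false, 5016334⟩, ⟨0, true, false, 5016334⟩]))) (.node true 64 2880 (.leaf [⟨2880, true, true, 6315168⟩, ⟨2880, true, false, 4847010⟩, ⟨5696, true, false, 2302343⟩, ⟨5640, false, false, 3312695⟩]) (.leaf [⟨5696, true, false, 1728213⟩, ⟨2880, true, true, 5016334⟩, ⟨2880, true, false, 5016334⟩, ⟨0, true, false, 5016334⟩])))) (.node false 88 2880 (.node false 96 2880 (.node false 104 2880 (.leaf [⟨2880, false, false, 5882142⟩, ⟨0, true, false, 3030175⟩, ⟨5656, false, false,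 2147141⟩, ⟨2880, true, false, 4444885⟩, ⟨5640, false, false, 1272874⟩]) (.leaf [⟨2880, false, false, 5545698⟩, ⟨2880, false, true, 4150151⟩, ⟨0, true, false, 2750444⟩, ⟨5656, false, false, 2221888⟩, ⟨5664, false, false, 2109034⟩])) (.leaf [⟨2880, false, false, 5537034⟩, ⟨2880, false, true, 4156731⟩, ⟨0, true, false, 2580817⟩, ⟨5664, false, false, 2226087⟩, ⟨5672, false, false, 2276546⟩])) (.leaf [⟨2880, false, false, 5379992⟩, ⟨2880, false, true, 5379992⟩, ⟨5672, false, false, 637241⟩, ⟨0, true, false, 5379992⟩]))) (.leaf [⟨2880, false, false, 5382126⟩, ⟨2880, false, true, 5382126⟩, ⟨5680, false, false, 630839⟩, ⟨0, true, false, 5382126⟩])) (.leaf [⟨2880, false, false, 5394910⟩, ⟨2880, false, true, 3859308⟩, ⟨5688, false, false, 2582223⟩, ⟨5696, false, false, 4940775⟩])) (.leaf [⟨2880, false, false, 5334908⟩, ⟨2880, false, true, 4094447⟩, ⟨5696, false, false, 2445917⟩, ⟨5712, false, false, 4901944⟩])) (.leaf [⟨2880, false, false, 5099097⟩, ⟨5752, false, false, 4966255⟩,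 ⟨2880, false, true, 4833034⟩, ⟨5712, false, false, 1878830⟩])) (.leaf [⟨0, false, false, 5049619⟩, ⟨2880, false, false, 5049619⟩, ⟨2880, false, true, 5049618⟩, ⟨5752, false, false, 1628361⟩]))))) (.node true 96 2800 (.node true 104 2880 (.node false 240 2640 (.node false 360 2880 (.leaf [⟨2880, false, true, 6179544⟩, ⟨2880, false, false, 4959112⟩, ⟨5656, true, false, 4230314⟩, ⟨5600, false, false, 1408246⟩]) (.node false 8 2880 (.leaf [⟨2880, false, true, 6389229⟩, ⟨2880, false, false, 4783361⟩, ⟨5752, false, false, 2769207⟩, ⟨5656, true, false, 2835420⟩]) (.leaf [⟨5752, false, false, 1628361⟩, ⟨2880, false, false, 5049619⟩, ⟨0, false, false, 5049619⟩, ⟨2880, false, true, 5049617⟩]))) (.node false 8 2640 (.node false 48 2880 (.leaf [⟨5712, false, false, 3605078⟩, ⟨2880, false, false, 5484699⟩, ⟨2880, true, false, 5688251⟩, ⟨5656, true, false, 1999189⟩]) (.leaf [⟨2880, false, true, 5026449⟩, ⟨2880, false, false, 5026449⟩, ⟨0, false, false, 5026449⟩, ⟨5712, false, false,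 1697868⟩])) (.leaf [⟨5752, false, false, 1628360⟩, ⟨2880, false, false, 5049619⟩, ⟨0, false, false, 5049619⟩, ⟨2880, false, true, 5049619⟩]))) (.node true 48 2880 (.leaf [⟨5712, true, false, 4054691⟩, ⟨2880, true, true, 4556368⟩, ⟨2880, false, true, 5805958⟩, ⟨5656, true, false, 1228171⟩, ⟨0, false, false, 1132029⟩]) (.leaf [⟨5712, true, false, 3488259⟩, ⟨0, true, false, 4997484⟩, ⟨2880, true, true, 3293990⟩, ⟨2880, true, false, 4997484⟩]))) (.node true 48 2800 (.node true 72 2880 (.leaf [⟨2880, true, true, 4074193⟩, ⟨2880, true, false, 5463596⟩, ⟨5688, true, false, 3260109⟩, ⟨0, false, false, 1628360⟩, ⟨5664, true, false, 2350958⟩]) (.leaf [⟨0, true, false, 4371109⟩, ⟨2880, true, true, 4371109⟩, ⟨2880, true, false, 4371109⟩, ⟨5688, true, false, 2519400⟩, ⟨2712, false, false, 1144489⟩])) (.leaf [⟨0, true, false, 4997484⟩, ⟨2880, true, true, 3293990⟩, ⟨2880, true, false, 4997484⟩, ⟨5712, true, false, 3488259⟩])))) (.node true 8 2800 (.node true 48 2880 (.leaf [⟨5712,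 true, false, 4913756⟩, ⟨2880, true, false, 5298188⟩, ⟨2880, true, true, 4103406⟩, ⟨5672, true, false, 2461866⟩]) (.node true 16 2880 (.leaf [⟨5744, true, false, 5190772⟩, ⟨2880, true, false, 5434736⟩, ⟨2880, false, false, 4200532⟩, ⟨5712, true, false, 1951176⟩]) (.leaf [⟨0, true, false, 5018041⟩, ⟨2880, true, false, 5166531⟩, ⟨5744, true, false, 3060377⟩, ⟨2880, true, true, 3532268⟩]))) (.leaf [⟨0, true, false, 5062130⟩, ⟨2880, true, false, 5135137⟩, ⟨5752, true, false, 3172817⟩, ⟨2880, true, true, 3407132⟩]))) (by decide +kernel)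
theorem yo195 : (bN 464 1032 464 9112355103).Ok := ok1 (.node true 8 2640 (.node true 16 2880 (.node true 48 2648 (.node true 64 2872 (.node true 72 2880 (.node true 80 2680 (.node true 248 2880 (.leaf [⟨5680, true, false, 6127963⟩, ⟨2880, false, false, 2228594⟩, ⟨2880, false, true, 5123462⟩, ⟨2880, true, true, 2989051⟩, ⟨0, false, false, 308146⟩]) (.node true 104 2880 (.leaf [⟨5680, true, false, 6128374⟩, ⟨2880, false, true, 5123307⟩, ⟨2880, false, false, 2228911⟩, ⟨2880, true, true, 2988775⟩, ⟨0, false, false, 307848⟩]) (.leaf [⟨2880, true, true, 3731800⟩, ⟨5656, true, false, 2390110⟩, ⟨5688, true, false, 5990785⟩, ⟨2880, false, true, 3538060⟩, ⟨2880, false, false, 1126460⟩]))) (.leaf [⟨5688, true, false, 5920760⟩, ⟨2880, true, true, 3836304⟩, ⟨5680, true, false, 2598438⟩, ⟨2880, false, true, 3464003⟩, ⟨2880, false, false, 957711⟩])) (.node false 240 2880 (.node false 360 2768 (.node false 424 2880 (.leaf [⟨2880, true, true, 4995501⟩, ⟨5696, true, false, 4447077⟩,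 ⟨2872, false, false, 4055715⟩, ⟨2840, true, false, 1826212⟩, ⟨2880, false, true, 1452710⟩]) (.leaf [⟨2880, true, true, 5552864⟩, ⟨5688, true, false, 1588297⟩, ⟨2880, true, false, 2888988⟩, ⟨5520, false, false, 6747066⟩])) (.leaf [⟨2880, true, true, 5552864⟩, ⟨5520, false, false, 6747066⟩, ⟨5688, true, false, 1588297⟩, ⟨2880, true, false, 2888988⟩])) (.leaf [⟨5688, true, false, 4479374⟩, ⟨2880, true, true, 4177771⟩, ⟨0, false, false, 4408274⟩, ⟨2880, true, false, 3711798⟩]))) (.node true 56 2872 (.leaf [⟨5704, true, false, 5711311⟩, ⟨2880, true, true, 4136366⟩, ⟨5696, true, false, 2752537⟩, ⟨2872, false, false, 3453813⟩, ⟨2880, false, false, 723189⟩]) (.node false 240 2880 (.node false 360 2768 (.node false 424 2880 (.leaf [⟨5704, true, false, 3721312⟩, ⟨2880, true, false, 3439406⟩, ⟨2880, true, true, 2524546⟩, ⟨5712, true, false, 2396425⟩, ⟨5744, true, false, 1724803⟩, ⟨2880, false, false, 1999633⟩, ⟨2840, true, false, 971091⟩]) (.leaf [⟨2880, true, true, 5549773⟩,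 ⟨5704, true, false, 1558736⟩, ⟨5520, false, false, 6761870⟩, ⟨2880, true, false, 2906837⟩])) (.leaf [⟨2880, true, true, 5549774⟩, ⟨5520, false, false, 6761870⟩, ⟨5704, true, false, 1558736⟩, ⟨2880, true, false, 2906837⟩])) (.leaf [⟨5704, true, false, 4533224⟩, ⟨2880, true, true, 4152640⟩, ⟨0, false, false, 4350417⟩, ⟨2880, true, false, 3740934⟩])))) (.node true 24 2528 (.node true 32 2880 (.node true 40 2536 (.node false 240 2880 (.node false 360 2768 (.node false 424 2880 (.leaf [⟨5712, true, false, 3657491⟩, ⟨2880, true, true, 2406050⟩, ⟨2880, true, false, 3463504⟩, ⟨5720, true, false, 2448774⟩, ⟨5728, true, false, 1750717⟩, ⟨2880, false, false, 2133291⟩, ⟨2840, true, false, 917390⟩]) (.leaf [⟨2880, true, true, 5515033⟩, ⟨5712, true, false, 1687680⟩, ⟨5528, false, false, 6650561⟩, ⟨2880, true, false, 2923943⟩])) (.leaf [⟨2880, true, true, 5515033⟩, ⟨5528, false, false, 6650561⟩, ⟨5712, true, false, 1687680⟩, ⟨2880, true, false, 2923943⟩])) (.leaf [⟨5712, true, false,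 4438767⟩, ⟨2880, true, true, 4168770⟩, ⟨0, false, false, 4404354⟩, ⟨2880, true, false, 3765324⟩])) (.node false 240 2880 (.node false 360 2768 (.node false 424 2880 (.leaf [⟨5728, true, false, 4882340⟩, ⟨2880, true, true, 4979298⟩, ⟨5720, true, false, 2335132⟩, ⟨2880, false, true, 3981997⟩, ⟨2840, true, false, 598449⟩]) (.leaf [⟨2880, true, true, 5546632⟩, ⟨5720, true, false, 1530678⟩, ⟨5520, false, false, 6775948⟩, ⟨2880, true, false, 2923957⟩])) (.leaf [⟨2880, true, true, 5546631⟩, ⟨5520, false, false, 6775948⟩, ⟨5720, true, false, 1530679⟩, ⟨2880, true, false, 2923957⟩])) (.leaf [⟨5720, true, false, 4345177⟩, ⟨2880, true, true, 4184762⟩, ⟨0, false, false, 4458375⟩, ⟨2880, true, false, 3788901⟩]))) (.node false 240 2880 (.node false 360 2768 (.node false 424 2880 (.node false 456 2824 (.node false 472 2856 (.leaf [⟨2880, true, true, 3117747⟩, ⟨5728, true, false, 3824533⟩, ⟨2880, true, false, 3572443⟩, ⟨5736, true, false, 2237958⟩, ⟨5744, true, false, 1574773⟩, ⟨2880,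 false, false, 1732306⟩, ⟨2840, true, false, 717456⟩]) (.leaf [⟨2888, true, false, 4349273⟩, ⟨2880, false, false, 4061292⟩, ⟨5744, true, false, 3548345⟩, ⟨2824, true, false, 4818305⟩])) (.leaf [⟨2840, true, false, 11008826⟩, ⟨2880, true, false, 4957975⟩, ⟨5744, true, false, 810415⟩])) (.leaf [⟨2880, true, true, 5545043⟩, ⟨5728, true, false, 1517184⟩, ⟨2880, true, false, 2932259⟩, ⟨5520, false, false, 6782730⟩])) (.leaf [⟨2880, true, true, 5511818⟩, ⟨5728, true, false, 1657680⟩, ⟨5528, false, false, 6665570⟩, ⟨2880, true, false, 2942148⟩])) (.leaf [⟨5728, true, false, 4332404⟩, ⟨16, false, false, 4435126⟩, ⟨2880, true, false, 3899292⟩, ⟨2880, true, true, 4110394⟩]))) (.node false 240 2880 (.node false 360 2768 (.node false 424 2880 (.node false 456 2824 (.node false 472 2856 (.leaf [⟨2880, true, true, 3080352⟩, ⟨5736, true, false, 3817838⟩, ⟨5744, true, false, 3791380⟩, ⟨2880, true, false, 3610103⟩, ⟨2880, false, false, 1766734⟩, ⟨2824, true, false, 710809⟩]) (.leaf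 [⟨2888, true, false, 4979773⟩, ⟨2880, true, true, 3658063⟩, ⟨5744, true, false, 766489⟩, ⟨2824, true, false, 7372890⟩])) (.leaf [⟨2840, true, false, 11008826⟩, ⟨2880, true, false, 4957975⟩, ⟨5744, true, false, 810415⟩])) (.leaf [⟨2880, true, true, 5543442⟩, ⟨5520, false, false, 6789347⟩, ⟨5736, true, false, 1504031⟩, ⟨2880, true, false, 2940396⟩])) (.leaf [⟨2880, true, true, 5543442⟩, ⟨5520, false, false, 6789347⟩, ⟨5736, true, false, 1504031⟩, ⟨2880, true, false, 2940396⟩])) (.leaf [⟨5736, true, false, 4242680⟩, ⟨16, false, false, 4487310⟩, ⟨2880, true, true, 4126356⟩, ⟨2880, true, false, 3920870⟩])))) (.node false 240 2880 (.node false 360 2880 (.node false 424 2824 (.node false 456 2880 (.leaf [⟨5744, true, false, 3908018⟩, ⟨2880, true, true, 4336201⟩, ⟨2880, true, false, 2329421⟩, ⟨5752, true, false, 2000145⟩, ⟨0, true, false, 1438319⟩, ⟨2872, true, false, 1354945⟩, ⟨2880, false, true, 1410166⟩]) (.leaf [⟨2880, true, true, 2382019⟩, ⟨2824, true, false, 6059956⟩,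 ⟨5744, true, false, 3559741⟩, ⟨0, true, false, 1911867⟩, ⟨2880, true, false, 2863633⟩])) (.leaf [⟨2880, true, true, 5208026⟩, ⟨2776, true, false, 6822268⟩, ⟨0, true, false, 1574014⟩, ⟨2880, true, false, 3172907⟩])) (.leaf [⟨0, false, false, 4619877⟩, ⟨5744, true, false, 4070935⟩, ⟨2880, true, true, 4231614⟩, ⟨2880, true, false, 3854790⟩])) (.leaf [⟨0, false, false, 4619877⟩, ⟨5744, true, false, 4070935⟩, ⟨2880, true, true, 4231614⟩, ⟨2880, true, false, 3854790⟩]))) (.node false 240 2880 (.node false 360 2880 (.node false 424 2824 (.node false 456 2880 (.leaf [⟨2880, true, true, 4316076⟩, ⟨5752, true, false, 3894356⟩, ⟨0, true, false, 3358871⟩, ⟨2880, true, false, 2418759⟩, ⟨2872, true, false, 1399404⟩, ⟨2880, false, true, 1389750⟩]) (.leaf [⟨2880, true, true, 2350199⟩, ⟨2824, true, false, 6075557⟩, ⟨2880, true, false, 2943661⟩, ⟨5752, true, false, 3552894⟩, ⟨0, true, false, 1854904⟩])) (.leaf [⟨2880, true, true, 5208026⟩, ⟨2776, true, false, 6822268⟩, ⟨2880, true,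 false, 3172907⟩, ⟨0, true, false, 1574014⟩])) (.leaf [⟨0, false, false, 4673183⟩, ⟨5752, true, false, 3982106⟩, ⟨2880, true, false, 3875160⟩, ⟨2880, true, true, 4246767⟩])) (.leaf [⟨0, false, false, 4673183⟩, ⟨5752, true, false, 3982106⟩, ⟨2880, true, false, 3875160⟩, ⟨2880, true, true, 4246767⟩]))) (by decide +kernel)
theorem yo198 : (bN 456 1056 456 9111435370).Ok := ok1 (.node true 8 2640 (.node true 16 2880 (.node true 24 2648 (.node true 56 2880 (.node true 72 2656 (.node true 80 2880 (.leaf [⟨5680, true, false, 6566644⟩, ⟨2880, false, false, 2506986⟩, ⟨2880, false, true, 4912506⟩, ⟨2880, true, true, 2791080⟩]) (.leaf [⟨2880, true, true, 3835881⟩, ⟨5688, true, false, 3195295⟩, ⟨5680, true, false, 2461959⟩, ⟨5704, true, false, 2719791⟩, ⟨2880, false, true, 3469414⟩, ⟨2880, false, false, 1094876⟩])) (.leaf [⟨5704, true, false, 5811320⟩, ⟨2880, true, true, 3978914⟩, ⟨5688, true, false, 2538788⟩, ⟨2880, false, true, 3455891⟩, ⟨2880, false, false, 992303⟩])) (.node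 true 32 2880 (.node true 40 2656 (.node true 48 2880 (.node false 240 2880 (.leaf [⟨5712, true, false, 4744952⟩, ⟨2880, true, true, 1506830⟩, ⟨5704, true, false, 3166169⟩, ⟨2880, true, false, 3479786⟩, ⟨2880, false, false, 3314630⟩, ⟨5520, false, false, 564848⟩]) (.leaf [⟨5704, true, false, 4394541⟩, ⟨2880, true, true, 4151518⟩, ⟨0, false, false, 4577438⟩, ⟨2880, true, false, 3653719⟩])) (.node false 240 2880 (.node false 360 2648 (.node false 424 2768 (.node false 456 2856 (.leaf [⟨5712, true, false, 3100629⟩, ⟨5720, true, false, 2359580⟩, ⟨2880, true, false, 3727339⟩, ⟨2848, true, false, 2793489⟩, ⟨5728, true, false, 1916943⟩, ⟨2880, false, false, 2879235⟩]) (.leaf [⟨2880, true, true, 5400520⟩, ⟨5712, true, false, 1852096⟩, ⟨5520, false, false, 6678419⟩, ⟨2880, true, false, 2846182⟩])) (.leaf [⟨2880, true, true, 5336460⟩, ⟨5712, true, false, 2147040⟩, ⟨5536, false, false, 6437249⟩, ⟨2880, true, false, 2856468⟩])) (.leaf [⟨2880, true, true, 5400520⟩, ⟨5520, false,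 false, 6678419⟩, ⟨5712, true, false, 1852096⟩, ⟨2880, true, false, 2846182⟩])) (.leaf [⟨5712, true, false, 4308137⟩, ⟨2880, true, true, 4164630⟩, ⟨0, false, false, 4626172⟩, ⟨2880, true, false, 3678276⟩]))) (.node false 240 2880 (.node false 360 2768 (.node false 424 2880 (.leaf [⟨5728, true, false, 4280950⟩, ⟨5720, true, false, 3410275⟩, ⟨2880, true, true, 1968172⟩, ⟨2880, true, false, 3503575⟩, ⟨2880, false, false, 2820067⟩, ⟨5416, false, false, 794177⟩]) (.leaf [⟨2880, true, true, 5398700⟩, ⟨5720, true, false, 1834827⟩, ⟨5520, false, false, 6687103⟩, ⟨2880, true, false, 2856585⟩])) (.leaf [⟨2880, true, true, 5398700⟩, ⟨5520, false, false, 6687103⟩, ⟨5720, true, false, 1834827⟩, ⟨2880, true, false, 2856585⟩])) (.leaf [⟨5720, true, false, 4222537⟩, ⟨0, false, false, 4674956⟩, ⟨2880, true, true, 4177630⟩, ⟨2880, true, false, 3702093⟩]))) (.node false 240 2880 (.node false 360 2768 (.node false 424 2880 (.leaf [⟨5728, true, false, 3768126⟩, ⟨2880, true, true, 4445553⟩,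 ⟨2880, true, false, 1738549⟩, ⟨5736, true, false, 2295219⟩, ⟨5744, true, false, 1414583⟩, ⟨2848, true, false, 1266809⟩, ⟨2880, false, true, 1848377⟩]) (.leaf [⟨2880, true, true, 5396867⟩, ⟨5728, true, false, 1818003⟩, ⟨5520, false, false, 6695573⟩, ⟨2880, true, false, 2866773⟩])) (.leaf [⟨2880, true, true, 5396867⟩, ⟨5520, false, false, 6695573⟩, ⟨5728, true, false, 1818003⟩, ⟨2880, true, false, 2866773⟩])) (.leaf [⟨5728, true, false, 4214516⟩, ⟨16, false, false, 4647150⟩, ⟨2880, true, true, 4106752⟩, ⟨2880, true, false, 3808798⟩])))) (.node false 240 2880 (.node false 360 2768 (.node false 424 2880 (.leaf [⟨5736, true, false, 3790900⟩, ⟨2880, true, true, 4427333⟩, ⟨5744, true, false, 3628220⟩, ⟨2880, true, false, 1834310⟩, ⟨2848, true, false, 1297901⟩, ⟨2880, false, true, 1798552⟩]) (.leaf [⟨2880, true, true, 5363983⟩, ⟨5528, false, false, 6584691⟩, ⟨5736, true, false, 1945155⟩, ⟨2880, true, false, 2883387⟩])) (.leaf [⟨2880, true, true, 5395020⟩, ⟨5520, false, false,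 6703834⟩, ⟨5736, true, false, 1801609⟩, ⟨2880, true, false, 2876753⟩])) (.leaf [⟨5736, true, false, 4132352⟩, ⟨16, false, false, 4694291⟩, ⟨2880, true, false, 3830772⟩, ⟨2880, true, true, 4119801⟩]))) (.node false 240 2880 (.node false 360 2880 (.node false 424 2648 (.node false 456 2832 (.node false 424 2880 (.leaf [⟨2880, true, true, 3286213⟩, ⟨5744, true, false, 3877947⟩, ⟨2880, true, false, 3713249⟩, ⟨5752, true, false, 2104748⟩, ⟨0, true, false, 1296304⟩, ⟨2832, true, false, 902813⟩, ⟨2880, false, false, 1595941⟩]) (.leaf [⟨2880, true, true, 8754576⟩, ⟨2784, true, false, 3911709⟩, ⟨0, true, false, 2055465⟩, ⟨2880, true, false, 2055465⟩])) (.leaf [⟨2880, true, true, 5044730⟩, ⟨2784, true, false, 7201073⟩, ⟨0, true, false, 1327283⟩, ⟨2880, true, false, 3204130⟩])) (.leaf [⟨2880, true, true, 5044730⟩, ⟨2784, true, false, 7201073⟩, ⟨0, true, false, 1327283⟩, ⟨2880, true, false, 3204130⟩])) (.leaf [⟨0, false, false, 4820749⟩, ⟨5744, true, false, 3971606⟩, ⟨2880, true,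 true, 4215744⟩, ⟨2880, true, false, 3769117⟩])) (.leaf [⟨0, false, false, 4820749⟩, ⟨5744, true, false, 3971606⟩, ⟨2880, true, false, 3769117⟩, ⟨2880, true, true, 4215744⟩]))) (.node false 240 2880 (.node false 360 2880 (.node false 424 2648 (.node false 456 2832 (.node true 8 2160 (.node true 8 2248 (.node true 8 2288 (.leaf [⟨5752, true, false, 3855984⟩, ⟨2880, true, true, 4979087⟩, ⟨2880, true, false, 1309684⟩, ⟨0, true, false, 2487476⟩, ⟨136, true, false, 1107471⟩, ⟨2880, false, true, 2449623⟩, ⟨2784, true, false, 587891⟩]) (.leaf [⟨5752, true, false, 6699746⟩, ⟨2880, true, true, 4372389⟩, ⟨0, true, false, 2416165⟩, ⟨2880, true, false, 1992975⟩, ⟨176, true, false, 1295941⟩])) (.leaf [⟨5752, true, false, 5590051⟩, ⟨2880, true, true, 4441680⟩, ⟨0, true, false, 3347485⟩, ⟨2880, true, false, 2737179⟩, ⟨2784, true, false, 660821⟩])) (.leaf [⟨5752, true, false, 5590123⟩, ⟨2880, true, true, 4441674⟩, ⟨0, true, false, 3347597⟩, ⟨2880, true, false, 2737074⟩, ⟨2784, true,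 false, 660747⟩])) (.leaf [⟨2880, true, true, 5044730⟩, ⟨2784, true, false, 7201073⟩, ⟨2880, true, false, 3204130⟩, ⟨0, true, false, 1327283⟩])) (.leaf [⟨2880, true, true, 5044730⟩, ⟨2784, true, false, 7201073⟩, ⟨2880, true, false, 3204130⟩, ⟨0, true, false, 1327283⟩])) (.leaf [⟨0, false, false, 4868890⟩, ⟨5752, true, false, 3890240⟩, ⟨2880, true, false, 3789996⟩, ⟨2880, true, true, 4228090⟩])) (.leaf [⟨0, false, false, 4868890⟩, ⟨5752, true, false, 3890240⟩, ⟨2880, true, false, 3789996⟩, ⟨2880, true, true, 4228090⟩]))) (by decide +kernel)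
theorem yo197 : (bN 456 1048 456 9136969711).Ok := ok1 (.node true 8 2640 (.node true 16 2880 (.node true 24 2648 (.node true 56 2872 (.node true 72 2880 (.leaf [⟨5688, true, false, 6489463⟩, ⟨2880, false, true, 4923641⟩, ⟨2880, false, false, 2451255⟩, ⟨2880, true, true, 2912857⟩]) (.node true 64 2880 (.leaf [⟨5704, true, false, 5786330⟩, ⟨2880, true, true, 4053283⟩, ⟨5688, true, false, 2581182⟩, ⟨2880, false, true, 3455193⟩, ⟨2880, false, false, 901229⟩]) (.node false 240 2880 (.node false 360 2648 (.node false 424 2768 (.node false 456 2832 (.leaf [⟨5704, true, false, 3485715⟩, ⟨2880, true, true, 4172538⟩, ⟨5696, true, false, 1828833⟩, ⟨2832, true, false, 1714195⟩, ⟨2872, false, false, 1675150⟩, ⟨5744, true, false, 1256317⟩, ⟨2880, false, true, 2644468⟩]) (.leaf [⟨2880, true, true, 5408053⟩, ⟨5696, true, false, 1859268⟩, ⟨5520, false, false, 6665617⟩, ⟨2880, true, false, 2844278⟩])) (.leaf [⟨2880, true, true, 5343028⟩, ⟨5696, true, false, 2155505⟩, ⟨5536, false,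 false, 6424714⟩, ⟨2880, true, false, 2853969⟩])) (.leaf [⟨2880, true, true, 5408053⟩, ⟨5520, false, false, 6665617⟩, ⟨5696, true, false, 1859268⟩, ⟨2880, true, false, 2844278⟩])) (.leaf [⟨5696, true, false, 4512730⟩, ⟨2880, true, true, 4121838⟩, ⟨0, false, false, 4490187⟩, ⟨2880, true, false, 3652461⟩])))) (.node true 32 2872 (.node true 40 2880 (.node true 48 2656 (.node false 240 2880 (.leaf [⟨2880, true, true, 1590705⟩, ⟨5704, true, false, 3204679⟩, ⟨5712, true, false, 2723500⟩, ⟨5720, true, false, 2008146⟩, ⟨2880, true, false, 3480237⟩, ⟨2880, false, false, 3230666⟩, ⟨5520, false, false, 539283⟩]) (.leaf [⟨5704, true, false, 4424481⟩, ⟨2880, true, true, 4135490⟩, ⟨0, false, false, 4539680⟩, ⟨2880, true, false, 3677566⟩])) (.node false 240 2880 (.leaf [⟨5720, true, false, 4656050⟩, ⟨2880, true, true, 1648866⟩, ⟨5712, true, false, 3240656⟩, ⟨2880, true, false, 3503245⟩, ⟨2880, false, false, 3173806⟩, ⟨5520, false, false, 554593⟩]) (.leaf [⟨5712, true, false, 4336932⟩,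 ⟨2880, true, true, 4149050⟩, ⟨0, false, false, 4589312⟩, ⟨2880, true, false, 3701923⟩]))) (.node false 240 2880 (.node false 360 2768 (.node false 424 2880 (.leaf [⟨2880, true, true, 4424595⟩, ⟨5728, true, false, 3832557⟩, ⟨5720, true, false, 1897987⟩, ⟨2880, true, false, 1708966⟩, ⟨2872, false, false, 1820304⟩, ⟨5704, true, false, 1869397⟩, ⟨2848, true, false, 1223410⟩]) (.leaf [⟨2880, true, true, 5402685⟩, ⟨5520, false, false, 6691488⟩, ⟨5720, true, false, 1807739⟩, ⟨2880, true, false, 2875304⟩])) (.leaf [⟨2880, true, true, 5402685⟩, ⟨5520, false, false, 6691488⟩, ⟨5720, true, false, 1807740⟩, ⟨2880, true, false, 2875304⟩])) (.leaf [⟨5720, true, false, 4250198⟩, ⟨0, false, false, 4638993⟩, ⟨2880, true, true, 4162494⟩, ⟨2880, true, false, 3725531⟩]))) (.node false 240 2880 (.node false 360 2768 (.node false 424 2880 (.leaf [⟨5728, true, false, 3758962⟩, ⟨2880, true, true, 4452116⟩, ⟨2880, true, false, 1743284⟩, ⟨5736, true, false, 2335635⟩, ⟨5744, true, false, 1441535⟩,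 ⟨2848, true, false, 1197745⟩, ⟨2880, false, true, 1847940⟩]) (.leaf [⟨2880, true, true, 5400868⟩, ⟨5520, false, false, 6699688⟩, ⟨5728, true, false, 1791437⟩, ⟨2880, true, false, 2885223⟩])) (.leaf [⟨2880, true, true, 5369354⟩, ⟨5528, false, false, 6581374⟩, ⟨5728, true, false, 1934168⟩, ⟨2880, true, false, 2892320⟩])) (.leaf [⟨5728, true, false, 4241401⟩, ⟨16, false, false, 4612050⟩, ⟨2880, true, true, 4091333⟩, ⟨2880, true, false, 3832432⟩])))) (.node false 240 2880 (.node false 360 2768 (.node false 424 2880 (.leaf [⟨2880, true, true, 4434865⟩, ⟨5736, true, false, 3781439⟩, ⟨5744, true, false, 3696613⟩, ⟨2880, true, false, 1838469⟩, ⟨2880, false, true, 1798082⟩, ⟨2848, true, false, 1227747⟩]) (.leaf [⟨2880, true, true, 5334129⟩, ⟨5736, true, false, 2057683⟩, ⟨5536, false, false, 6473476⟩, ⟨2880, true, false, 2911929⟩])) (.leaf [⟨2880, true, true, 5367515⟩, ⟨5528, false, false, 6590013⟩, ⟨5736, true, false, 1916944⟩, ⟨2880, true, false, 2902744⟩])) (.leaf [⟨5736,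 true, false, 4079617⟩, ⟨0, false, false, 4738148⟩, ⟨2880, true, true, 4188942⟩, ⟨2880, true, false, 3770509⟩]))) (.node false 240 2880 (.node false 360 2880 (.node false 424 2648 (.node false 456 2832 (.node false 424 2880 (.leaf [⟨5744, true, false, 3881587⟩, ⟨2880, true, true, 4361787⟩, ⟨2880, true, false, 2148261⟩, ⟨5752, true, false, 2144034⟩, ⟨2848, true, false, 1362450⟩, ⟨0, true, false, 1308714⟩, ⟨2880, false, true, 1570382⟩]) (.leaf [⟨2880, true, true, 8702783⟩, ⟨2784, true, false, 3878120⟩, ⟨0, true, false, 2098156⟩, ⟨2880, true, false, 2098156⟩])) (.leaf [⟨2880, true, true, 5028464⟩, ⟨2784, true, false, 7139109⟩, ⟨0, true, false, 1381011⟩, ⟨2880, true, false, 3228631⟩])) (.leaf [⟨2880, true, true, 5028464⟩, ⟨2784, true, false, 7139109⟩, ⟨0, true, false, 1381011⟩, ⟨2880, true, false, 3228631⟩])) (.leaf [⟨0, false, false, 4787452⟩, ⟨5744, true, false, 3995974⟩, ⟨2880, true, true, 4201905⟩, ⟨2880, true, false, 3791885⟩])) (.leaf [⟨0, false, false, 4787452⟩,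 ⟨5744, true, false, 3995974⟩, ⟨2880, true, false, 3791885⟩, ⟨2880, true, true, 4201905⟩]))) (.node false 240 2880 (.node false 360 2880 (.node false 424 2832 (.node false 456 2880 (.leaf [⟨2880, true, true, 4498646⟩, ⟨5752, true, false, 3919054⟩, ⟨2880, true, false, 3834793⟩, ⟨0, true, false, 3200156⟩, ⟨2880, false, false, 1324567⟩]) (.leaf [⟨2880, true, true, 2105951⟩, ⟨2832, true, false, 6137214⟩, ⟨2880, true, false, 3159668⟩, ⟨5752, true, false, 3635272⟩, ⟨0, true, false, 1739110⟩])) (.leaf [⟨2880, true, true, 5028464⟩, ⟨2784, true, false, 7139109⟩, ⟨2880, true, false, 3228631⟩, ⟨0, true, false, 1381011⟩])) (.leaf [⟨0, false, false, 4836464⟩, ⟨5752, true, false, 3913555⟩, ⟨2880, true, false, 3812528⟩, ⟨2880, true, true, 4214668⟩])) (.leaf [⟨0, false, false, 4836464⟩, ⟨5752, true, false, 3913555⟩, ⟨2880, true, false, 3812528⟩, ⟨2880, true, true, 4214668⟩]))) (by decide +kernel)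
theorem yo190 : (bN 640 712 640 8928543396).Ok := ok1 (.node true 88 2712 (.node true 128 2880 (.node false 240 2640 (.node false 360 2880 (.leaf [⟨2880, false, true, 6146737⟩, ⟨2880, false, false, 5008399⟩, ⟨5632, true, false, 3820963⟩, ⟨5592, false, false, 1801117⟩]) (.node false 8 2880 (.node true 152 2880 (.node true 160 2880 (.node true 168 2880 (.node true 208 2880 (.node true 232 2880 (.node false 48 2880 (.leaf [⟨2880, false, true, 6390015⟩, ⟨5744, false, false, 4085920⟩, ⟨2880, false, false, 4736031⟩, ⟨5528, true, false, 1565251⟩]) (.leaf [⟨2880, false, true, 4910051⟩, ⟨2880, false, false, 5177481⟩, ⟨5752, false, false, 5043958⟩, ⟨5672, false, false, 1645726⟩])) (.node false 48 2880 (.leaf [⟨2880, false, true, 6378875⟩, ⟨2880, false, false, 4771406⟩, ⟨5744, false, false, 3982965⟩, ⟨5552, true, false, 1643971⟩]) (.leaf [⟨2880, false, true, 4910051⟩, ⟨2880, false, false, 5177481⟩, ⟨5752, false, false, 5043958⟩, ⟨5672, false, false, 1645726⟩]))) (.node false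 48 2880 (.leaf [⟨2880, false, true, 6290059⟩, ⟨2880, false, false, 4865260⟩, ⟨5712, false, false, 3245745⟩, ⟨5592, true, false, 2376152⟩]) (.leaf [⟨2880, false, true, 4910051⟩, ⟨2880, false, false, 5177481⟩, ⟨5752, false, false, 5043958⟩, ⟨5672, false, false, 1645726⟩]))) (.node false 48 2880 (.leaf [⟨2880, false, true, 6281938⟩, ⟨2880, false, false, 4875151⟩, ⟨5712, false, false, 3168881⟩, ⟨5600, true, false, 2451246⟩]) (.leaf [⟨2880, false, true, 4910051⟩, ⟨2880, false, false, 5177481⟩, ⟨5752, false, false, 5043958⟩, ⟨5672, false, false, 1645726⟩]))) (.node false 48 2880 (.leaf [⟨2880, false, true, 6273214⟩, ⟨2880, false, false, 4885631⟩, ⟨5712, false, false, 3086957⟩, ⟨5608, true, false, 2531413⟩]) (.leaf [⟨2880, false, true, 4910051⟩, ⟨2880, false, false, 5177481⟩, ⟨5752, false, false, 5043958⟩, ⟨5672, false, false, 1645726⟩]))) (.node false 48 2880 (.leaf [⟨2880, false, true, 6242753⟩, ⟨2880, false, false, 4921276⟩, ⟨5712, false, false, 2805199⟩, ⟨5632, true,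 false, 2807988⟩]) (.leaf [⟨2880, false, false, 5177481⟩, ⟨2880, false, true, 4910051⟩, ⟨5752, false, false, 5043958⟩, ⟨5672, false, false, 1645726⟩]))) (.leaf [⟨0, false, false, 5148075⟩, ⟨2880, false, false, 5148075⟩, ⟨2880, false, true, 5148074⟩, ⟨5752, false, false, 1332992⟩]))) (.node false 8 2880 (.node false 48 2880 (.leaf [⟨2880, false, true, 6242753⟩, ⟨2880, false, false, 4921276⟩, ⟨5712, false, false, 2805198⟩, ⟨5632, true, false, 2807988⟩]) (.leaf [⟨2880, false, false, 5177481⟩, ⟨2880, false, true, 4910051⟩, ⟨5752, false, false, 5043958⟩, ⟨5672, false, false, 1645726⟩])) (.leaf [⟨0, false, false, 5148075⟩, ⟨2880, false, true, 5148075⟩, ⟨2880, false, false, 5148075⟩, ⟨5752, false, false, 1332990⟩]))) (.node true 96 2880 (.node false 240 2640 (.node false 360 2880 (.leaf [⟨2880, false, true, 6105087⟩, ⟨2880, false, false, 5073848⟩, ⟨5664, true, false, 4463218⟩, ⟨5520, false, false, 1135063⟩]) (.node false 8 2880 (.node true 104 2880 (.node true 112 2880 (.node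 true 120 2880 (.node false 48 2880 (.leaf [⟨2880, false, true, 6230895⟩, ⟨2880, false, false, 4934829⟩, ⟨5712, false, false, 2696976⟩, ⟨5640, true, false, 2914517⟩]) (.leaf [⟨2880, false, false, 5201475⟩, ⟨5752, false, false, 5068517⟩, ⟨2880, false, true, 4935173⟩, ⟨5712, false, false, 1572051⟩])) (.node false 48 2880 (.leaf [⟨2880, true, true, 5468678⟩, ⟨5712, false, false, 3672975⟩, ⟨5648, true, false, 1932389⟩, ⟨2880, false, true, 5703175⟩]) (.leaf [⟨2880, false, false, 5201475⟩, ⟨5752, false, false, 5068517⟩, ⟨2880, false, true, 4935173⟩, ⟨5712, false, false, 1572051⟩]))) (.node false 48 2880 (.leaf [⟨2880, true, false, 5424218⟩, ⟨2880, true, true, 4761079⟩, ⟨5712, false, false, 2828351⟩, ⟨5656, true, false, 2282848⟩, ⟨5648, true, false, 1480720⟩]) (.leaf [⟨2880, false, false, 5201475⟩, ⟨5752, false, false, 5068517⟩, ⟨2880, false, true, 4935173⟩, ⟨5712, false, false, 1572051⟩]))) (.leaf [⟨2880, true, false, 5602103⟩, ⟨2880, true, true, 4236124⟩, ⟨5752, false,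 false, 2619626⟩, ⟨5664, true, false, 2312254⟩, ⟨5656, true, false, 2007109⟩])) (.leaf [⟨5752, false, false, 1332990⟩, ⟨2880, false, false, 5148075⟩, ⟨0, false, false, 5148075⟩, ⟨2880, false, true, 5148075⟩]))) (.node false 8 2880 (.node false 48 2880 (.node false 64 2880 (.leaf [⟨2880, false, true, 6165575⟩, ⟨2880, false, false, 5003078⟩, ⟨5696, false, false, 2132439⟩, ⟨5664, true, false, 3476124⟩]) (.leaf [⟨2880, false, false, 5475249⟩, ⟨5712, false, false, 4925637⟩, ⟨2880, false, true, 4116987⟩, ⟨5696, false, false, 2259342⟩])) (.leaf [⟨2880, false, false, 5177481⟩, ⟨2880, false, true, 4910051⟩, ⟨5752, false, false, 5043958⟩, ⟨5672, false, false, 1645726⟩])) (.leaf [⟨5752, false, false, 1332990⟩, ⟨2880, false, false, 5148075⟩, ⟨0, false, false, 5148075⟩, ⟨2880, false, true, 5148075⟩]))) (.node true 48 2880 (.leaf [⟨2880, true, false, 3022585⟩, ⟨5712, true, false, 3939617⟩, ⟨2880, true, true, 4384901⟩, ⟨5664, true, false, 1727025⟩, ⟨2880, false, true, 2622375⟩, ⟨0,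 false, false, 1080713⟩]) (.leaf [⟨0, true, false, 4417003⟩, ⟨2880, true, true, 4417003⟩, ⟨2880, true, false, 4417003⟩, ⟨5712, true, false, 2266522⟩, ⟨2712, false, false, 1259686⟩])))) (.node true 8 2880 (.node true 48 2880 (.leaf [⟨2880, true, false, 5464854⟩, ⟨5712, true, false, 4393768⟩, ⟨2880, true, true, 4193870⟩, ⟨5672, true, false, 2200106⟩, ⟨0, false, false, 524618⟩]) (.node true 16 2880 (.leaf [⟨5744, true, false, 4952064⟩, ⟨2880, true, false, 5369595⟩, ⟨2880, true, true, 3944603⟩, ⟨5712, true, false, 2510954⟩]) (.leaf [⟨5752, true, false, 5104991⟩, ⟨2880, true, false, 5229885⟩, ⟨2880, true, true, 3453639⟩, ⟨5744, true, false, 2988701⟩]))) (.leaf [⟨0, true, false, 5129070⟩, ⟨2880, true, false, 5203031⟩, ⟨2880, true, true, 3344738⟩, ⟨5752, true, false, 3100378⟩]))) (by decide +kernel)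
theorem yo146 : (bN 460 1044 460 9093870392).Ok := ok1 (.node true 4 2640 (.node true 12 2880 (.node true 16 2648 (.node true 20 2876 (.node true 48 2880 (.node true 60 2660 (.node true 68 2880 (.leaf [⟨5692, true, false, 6456405⟩, ⟨2880, false, true, 4939641⟩, ⟨2880, false, false, 2473161⟩, ⟨2880, true, true, 2908009⟩]) (.leaf [⟨2880, true, true, 4176269⟩, ⟨5692, true, false, 2710035⟩, ⟨2880, false, true, 3422567⟩, ⟨5712, true, false, 5679841⟩, ⟨2880, false, false, 788504⟩])) (.leaf [⟨5712, true, false, 5671635⟩, ⟨2880, true, true, 4180884⟩, ⟨5700, true, false, 2705420⟩, ⟨2880, false, true, 3442955⟩, ⟨2880, false, false, 776322⟩])) (.node true 24 2880 (.node true 28 2656 (.node true 32 2880 (.node true 40 2660 (.leaf [⟨5712, true, false, 3419332⟩, ⟨2880, true, true, 1589958⟩, ⟨5720, true, false, 2564796⟩, ⟨5728, true, false, 1834975⟩, ⟨2880, true, false, 3596626⟩, ⟨2880, false, false, 3073872⟩, ⟨0, false, false, 697658⟩]) (.leaf [⟨5728, true, false, 4912431⟩, ⟨5720,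 true, false, 3139854⟩, ⟨2880, true, true, 4844062⟩, ⟨2880, false, true, 3530394⟩, ⟨0, false, false, 350475⟩])) (.leaf [⟨5728, true, false, 3771519⟩, ⟨2880, true, true, 1920989⟩, ⟨2880, true, false, 3779460⟩, ⟨5736, true, false, 3668823⟩, ⟨2880, false, false, 2535760⟩, ⟨24, false, false, 1100666⟩])) (.leaf [⟨5732, true, false, 3802271⟩, ⟨5736, true, false, 3586074⟩, ⟨2880, true, true, 4425358⟩, ⟨2880, true, false, 1327706⟩, ⟨2880, false, true, 2485461⟩, ⟨24, false, false, 1150346⟩])) (.node false 240 2880 (.node false 360 2768 (.node false 420 2880 (.leaf [⟨2880, true, true, 4455146⟩, ⟨5736, true, false, 3794850⟩, ⟨2880, true, false, 1807241⟩, ⟨5740, true, false, 2213885⟩, ⟨5748, true, false, 1515330⟩, ⟨2880, false, true, 1812059⟩, ⟨2840, true, false, 1178704⟩]) (.leaf [⟨2880, true, true, 5469347⟩, ⟨5736, true, false, 1651099⟩, ⟨2880, true, false, 2909209⟩, ⟨5520, false, false, 6747561⟩])) (.leaf [⟨2880, true, true, 5469348⟩, ⟨5520, false, false, 6747561⟩, ⟨5736, true,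 false, 1651099⟩, ⟨2880, true, false, 2909209⟩])) (.leaf [⟨0, false, false, 4670811⟩, ⟨5736, true, false, 4105725⟩, ⟨2880, true, true, 4211653⟩, ⟨2880, true, false, 3789027⟩])))) (.node false 240 2880 (.node false 360 2768 (.node false 420 2880 (.leaf [⟨2880, true, true, 4446419⟩, ⟨5740, true, false, 3804889⟩, ⟨2880, true, false, 1854760⟩, ⟨5744, true, false, 2188791⟩, ⟨5748, true, false, 1500470⟩, ⟨2880, false, true, 1787838⟩, ⟨2840, true, false, 1194049⟩]) (.leaf [⟨2880, true, true, 5468482⟩, ⟨5740, true, false, 1643873⟩, ⟨5520, false, false, 6751201⟩, ⟨2880, true, false, 2913660⟩])) (.leaf [⟨2880, true, true, 5468482⟩, ⟨5520, false, false, 6751201⟩, ⟨5740, true, false, 1643873⟩, ⟨2880, true, false, 2913660⟩])) (.leaf [⟨0, false, false, 4696306⟩, ⟨5740, true, false, 4062458⟩, ⟨2880, true, true, 4218625⟩, ⟨2880, true, false, 3799826⟩]))) (.node false 240 2880 (.node false 360 2880 (.leaf [⟨5748, true, false, 3897302⟩, ⟨5744, true, false, 3632165⟩, ⟨2880, true, true,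 4738236⟩, ⟨2880, true, false, 1188324⟩, ⟨2880, false, true, 2418732⟩, ⟨5400, false, false, 902457⟩]) (.leaf [⟨2880, true, true, 5467609⟩, ⟨5520, false, false, 6754798⟩, ⟨5744, true, false, 1636742⟩, ⟨2880, true, false, 2918067⟩])) (.leaf [⟨0, false, false, 4721737⟩, ⟨5744, true, false, 4019500⟩, ⟨2880, true, true, 4225545⟩, ⟨2880, true, false, 3810435⟩]))) (.node true 8 2880 (.node false 240 2880 (.node false 360 2880 (.leaf [⟨5748, true, false, 3667216⟩, ⟨2880, true, true, 4726189⟩, ⟨5752, true, false, 3810533⟩, ⟨2880, true, false, 1281834⟩, ⟨2880, false, true, 2351209⟩, ⟨5400, false, false, 940237⟩]) (.leaf [⟨2880, true, true, 5466738⟩, ⟨5520, false, false, 6758351⟩, ⟨5748, true, false, 1629696⟩, ⟨2880, true, false, 2922431⟩])) (.leaf [⟨0, false, false, 4747091⟩, ⟨2880, true, false, 3820853⟩, ⟨5748, true, false, 3976861⟩, ⟨2880, true, true, 4232410⟩])) (.node false 240 2880 (.node false 360 2876 (.node false 420 2880 (.leaf [⟨2880, true, true, 4416029⟩, ⟨5752, true,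 false, 3837579⟩, ⟨2880, true, false, 2086956⟩, ⟨0, true, false, 3483073⟩, ⟨2840, true, false, 1286858⟩, ⟨2880, false, true, 1666722⟩]) (.leaf [⟨2780, true, false, 6139834⟩, ⟨5752, true, false, 3842612⟩, ⟨0, true, false, 1531788⟩, ⟨2880, true, true, 2266525⟩, ⟨2880, true, false, 2996457⟩])) (.leaf [⟨2880, true, true, 5465862⟩, ⟨5752, true, false, 1622741⟩, ⟨5520, false, false, 6761861⟩, ⟨2880, true, false, 2926753⟩])) (.leaf [⟨0, false, false, 4772358⟩, ⟨2880, true, false, 3831084⟩, ⟨2880, true, true, 4239219⟩, ⟨5752, true, false, 3934555⟩])))) (.node false 240 2880 (.node false 360 2880 (.node true 4 2160 (.node true 4 2248 (.leaf [⟨5756, true, false, 4194461⟩, ⟨2880, true, true, 4216727⟩, ⟨0, true, false, 2539288⟩, ⟨2880, true, false, 2418406⟩, ⟨2880, false, true, 1730895⟩, ⟨0, false, false, 1677439⟩]) (.leaf [⟨5756, true, false, 6134101⟩, ⟨2880, true, true, 4341198⟩, ⟨2880, true, false, 1960719⟩, ⟨0, true, false, 4341199⟩])) (.leaf [⟨5756, true, false, 6134101⟩,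 ⟨2880, true, true, 4341198⟩, ⟨2880, true, false, 1960719⟩, ⟨0, true, false, 4341198⟩])) (.leaf [⟨2880, true, true, 5464980⟩, ⟨5756, true, false, 1615875⟩, ⟨5520, false, false, 6765329⟩, ⟨2880, true, false, 2931032⟩])) (.leaf [⟨0, false, false, 4797528⟩, ⟨2880, true, false, 3841127⟩, ⟨2880, true, true, 4245968⟩, ⟨5756, true, false, 3892593⟩]))) (by decide +kernel)
theorem yo141 : (bN 496 964 496 9021167886).Ok := ok1 (.node true 4 2628 (.node true 8 2880 (.node true 16 2632 (.node true 20 2880 (.node true 48 2400 (.node true 60 2880 (.node false 12 2872 (.node false 16 2880 (.node false 488 2880 (.leaf [⟨5700, true, false, 4584483⟩, ⟨2880, false, true, 5542110⟩, ⟨2880, true, true, 5003892⟩, ⟨2872, true, false, 1646731⟩]) (.leaf [⟨5744, false, false, 2834687⟩, ⟨2880, true, true, 5319554⟩, ⟨2880, false, true, 5772544⟩, ⟨5700, true, false, 2850431⟩])) (.leaf [⟨2880, false, true, 4888655⟩, ⟨5744, false, false, 3181242⟩, ⟨2880, false, false, 3861111⟩, ⟨5700, true, false,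 4846208⟩])) (.leaf [⟨2880, false, true, 4889206⟩, ⟨5748, false, false, 3167779⟩, ⟨2880, false, false, 3867796⟩, ⟨5700, true, false, 4852435⟩])) (.node true 52 2640 (.node true 56 2880 (.leaf [⟨5704, true, false, 5485471⟩, ⟨5700, true, false, 3289654⟩, ⟨2880, true, true, 4562040⟩, ⟨2880, false, true, 3440052⟩]) (.node false 488 2872 (.leaf [⟨5740, true, false, 3620398⟩, ⟨2880, true, true, 4402723⟩, ⟨5704, true, false, 1533918⟩, ⟨2880, false, true, 4517700⟩, ⟨2872, true, false, 1517435⟩, ⟨5708, true, false, 1185042⟩]) (.leaf [⟨5704, true, false, 4137567⟩, ⟨2880, true, true, 4256880⟩, ⟨2880, true, false, 4125890⟩, ⟨0, false, false, 4256880⟩]))) (.node false 488 2872 (.node true 36 2640 (.leaf [⟨2880, true, false, 4438826⟩, ⟨5708, true, false, 1732388⟩, ⟨2880, false, false, 4288075⟩, ⟨5744, true, false, 3616655⟩, ⟨2872, true, false, 1570721⟩, ⟨5712, true, false, 1130551⟩]) (.leaf [⟨5724, true, false, 4457331⟩, ⟨5744, true, false, 4225749⟩, ⟨2880, true, false, 4131859⟩,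 ⟨2880, false, false, 3962277⟩])) (.leaf [⟨5708, true, false, 4154022⟩, ⟨2880, true, true, 4244629⟩, ⟨2880, true, false, 4133936⟩, ⟨0, false, false, 4244629⟩])))) (.node true 24 2640 (.node true 28 2880 (.node true 32 2640 (.node true 40 2880 (.leaf [⟨5720, true, false, 5362953⟩, ⟨5712, true, false, 3117631⟩, ⟨2880, true, true, 4723218⟩, ⟨2880, false, true, 3573414⟩]) (.node true 36 2880 (.leaf [⟨5724, true, false, 5330554⟩, ⟨5720, true, false, 3063880⟩, ⟨2880, true, true, 4759368⟩, ⟨2880, false, true, 3623414⟩]) (.leaf [⟨5724, true, false, 3701253⟩, ⟨2880, true, true, 1914781⟩, ⟨2880, true, false, 3358255⟩, ⟨5732, true, false, 2725272⟩, ⟨5728, true, false, 2361576⟩, ⟨2880, false, false, 2716079⟩]))) (.leaf [⟨5732, true, false, 5068000⟩, ⟨5728, true, false, 3686976⟩, ⟨2880, true, true, 1916558⟩, ⟨2880, true, false, 3379924⟩, ⟨2880, false, false, 2725758⟩])) (.node false 488 2872 (.leaf [⟨5732, true, false, 2582884⟩, ⟨2880, true, false, 4149033⟩, ⟨5740, true, false,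 4466843⟩, ⟨2880, false, false, 3219517⟩, ⟨2872, true, false, 2358938⟩]) (.leaf [⟨5732, true, false, 4226938⟩, ⟨2880, true, true, 4183426⟩, ⟨2880, true, false, 4183426⟩, ⟨0, false, false, 4183426⟩]))) (.leaf [⟨5736, true, false, 3822431⟩, ⟨5740, true, false, 3383124⟩, ⟨2880, true, true, 4301630⟩, ⟨2880, true, false, 1949269⟩, ⟨2880, false, true, 2121956⟩, ⟨20, false, false, 1198805⟩]))) (.node false 488 2872 (.leaf [⟨5740, true, false, 3690944⟩, ⟨2880, true, false, 3734977⟩, ⟨2880, true, true, 2183312⟩, ⟨5752, true, false, 2430410⟩, ⟨5744, true, false, 1713492⟩, ⟨2872, true, false, 1206408⟩, ⟨2880, false, false, 1817672⟩]) (.leaf [⟨5740, true, false, 4175791⟩, ⟨2880, true, false, 4200476⟩, ⟨2880, true, true, 4200474⟩, ⟨0, false, false, 4200476⟩]))) (.node true 12 2392 (.node false 488 2872 (.leaf [⟨5744, true, false, 3691906⟩, ⟨2880, true, true, 4048195⟩, ⟨5752, true, false, 4149155⟩, ⟨2880, true, false, 1896844⟩, ⟨2872, true, false, 1147556⟩, ⟨2880, false, true, 1843560⟩])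 (.leaf [⟨5744, true, false, 4150766⟩, ⟨2880, true, false, 4208817⟩, ⟨2880, true, true, 4208816⟩, ⟨0, false, false, 4208817⟩])) (.leaf [⟨5748, true, false, 4431338⟩, ⟨2880, true, true, 2948265⟩, ⟨2880, true, false, 4051229⟩, ⟨5752, true, false, 2777104⟩, ⟨8, false, false, 1421358⟩, ⟨2880, false, false, 1147922⟩]))) (.node false 488 2872 (.node false 248 2880 (.node false 372 2880 (.node false 436 2880 (.node false 468 2880 (.leaf [⟨5752, true, false, 3802591⟩, ⟨2880, true, true, 2356370⟩, ⟨2880, true, false, 3712425⟩, ⟨0, true, false, 2424907⟩, ⟨5756, true, false, 1700398⟩, ⟨2872, true, false, 1032202⟩, ⟨2880, false, false, 1748323⟩]) (.leaf [⟨2872, true, false, 6539169⟩, ⟨2880, true, true, 3983236⟩, ⟨2880, true, false, 2271576⟩, ⟨0, true, false, 3983236⟩])) (.leaf [⟨2872, true, false, 6539169⟩, ⟨2880, true, true, 3983236⟩, ⟨2880, true, false, 2271576⟩, ⟨0, true, false, 3983236⟩])) (.leaf [⟨2872, true, false, 6539169⟩, ⟨2880, true, true, 3983236⟩, ⟨2880, true, false,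 2271576⟩, ⟨0, true, false, 3983236⟩])) (.leaf [⟨2872, true, false, 6539169⟩, ⟨2880, true, false, 2271576⟩, ⟨0, true, false, 3983236⟩, ⟨2880, true, true, 3983236⟩])) (.leaf [⟨5752, true, false, 4101780⟩, ⟨2880, true, true, 4225145⟩, ⟨2880, true, false, 4225145⟩, ⟨0, false, false, 4225145⟩]))) (.node false 488 2872 (.leaf [⟨5756, true, false, 3775406⟩, ⟨0, true, false, 4136816⟩, ⟨2880, true, true, 4136816⟩, ⟨2880, true, false, 1927311⟩, ⟨2880, false, true, 1802807⟩, ⟨2872, true, false, 998061⟩]) (.leaf [⟨5756, true, false, 4077806⟩, ⟨2880, true, false, 4233137⟩, ⟨2880, true, true, 4233137⟩, ⟨0, false, false, 4233137⟩]))) (by decide +kernel)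
theorem yo186 : (bN 480 1000 480 9044386337).Ok := ok1 (.node true 8 2400 (.node true 24 2880 (.node true 32 2640 (.node true 40 2880 (.node true 64 2648 (.node true 72 2880 (.leaf [⟨5688, true, false, 5229076⟩, ⟨2880, false, true, 5464236⟩, ⟨2880, true, true, 3455680⟩, ⟨2880, false, false, 1702811⟩, ⟨0, false, false, 925413⟩]) (.leaf [⟨5688, true, false, 3110624⟩, ⟨2880, true, true, 4379328⟩, ⟨5696, true, false, 2757278⟩, ⟨5720, true, false, 2807138⟩, ⟨2880, false, true, 3357104⟩, ⟨2880, false, false, 365745⟩])) (.node true 48 2528 (.node true 56 2880 (.leaf [⟨5704, true, false, 5603250⟩, ⟨5696, true, false, 3066875⟩, ⟨2880, true, true, 4306101⟩, ⟨2880, false, true, 3393962⟩, ⟨2880, false, false, 407028⟩]) (.leaf [⟨5704, true, false, 3163399⟩, ⟨2880, true, true, 1154949⟩, ⟨5712, true, false, 2704518⟩, ⟨5720, true, false, 2751903⟩, ⟨2880, true, false, 3382050⟩, ⟨2880, false, false, 3620396⟩])) (.leaf [⟨5720, true, false, 5403262⟩, ⟨5712, true, false, 3187924⟩, ⟨2880,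 true, true, 1217056⟩, ⟨2880, true, false, 3396550⟩, ⟨2880, false, false, 3572423⟩]))) (.node false 240 2880 (.node false 360 2760 (.node false 424 2880 (.leaf [⟨5720, true, false, 2265359⟩, ⟨2880, true, true, 5013588⟩, ⟨5728, true, false, 1835216⟩, ⟨5736, true, false, 3072145⟩, ⟨2880, false, true, 4074487⟩, ⟨2824, true, false, 516421⟩]) (.leaf [⟨2880, true, true, 5832755⟩, ⟨5720, true, false, 1004147⟩, ⟨2880, true, false, 3011158⟩, ⟨5520, false, false, 6929155⟩])) (.leaf [⟨2880, true, true, 5832754⟩, ⟨5720, true, false, 1004149⟩, ⟨5520, false, false, 6929155⟩, ⟨2880, true, false, 3011158⟩])) (.leaf [⟨5720, true, false, 4403691⟩, ⟨2880, true, true, 4211698⟩, ⟨0, false, false, 4211698⟩, ⟨2880, true, false, 3950128⟩]))) (.node false 240 2640 (.node false 240 2880 (.node false 360 2760 (.node false 424 2880 (.leaf [⟨5736, true, false, 4223814⟩, ⟨5728, true, false, 3805829⟩, ⟨2880, true, true, 2592268⟩, ⟨2880, true, false, 3501307⟩, ⟨2880, false, false, 1963779⟩, ⟨2824,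 true, false, 690218⟩]) (.leaf [⟨2880, true, true, 5831640⟩, ⟨5728, true, false, 995705⟩, ⟨2880, true, false, 3016480⟩, ⟨5520, false, false, 6933391⟩])) (.leaf [⟨2880, true, true, 5831640⟩, ⟨5728, true, false, 995705⟩, ⟨5520, false, false, 6933391⟩, ⟨2880, true, false, 3016480⟩])) (.leaf [⟨5728, true, false, 4438133⟩, ⟨2880, true, false, 3966033⟩, ⟨0, false, false, 4186525⟩, ⟨2880, true, true, 4186525⟩])) (.leaf [⟨5728, true, false, 4438133⟩, ⟨0, false, false, 4186525⟩, ⟨2880, true, true, 4186525⟩, ⟨2880, true, false, 3966033⟩]))) (.node true 16 2640 (.node false 240 2640 (.node false 240 2880 (.node false 360 2880 (.node false 424 2880 (.node false 456 2640 (.node false 472 2848 (.node true 8 2880 (.leaf [⟨5736, true, false, 3826150⟩, ⟨2880, true, true, 2713228⟩, ⟨2880, true, false, 3576077⟩, ⟨5744, true, false, 2031283⟩, ⟨5752, true, false, 2029693⟩, ⟨2880, false, false, 1855397⟩, ⟨2824, true, false, 745388⟩]) (.leaf [⟨5752, true, false, 4340335⟩, ⟨0, true, false,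 4026060⟩, ⟨2880, true, true, 4026060⟩, ⟨2880, false, true, 4384761⟩])) (.leaf [⟨2880, true, true, 5657023⟩, ⟨2824, true, false, 6001740⟩, ⟨2880, true, false, 2813150⟩, ⟨0, true, false, 2305302⟩])) (.leaf [⟨2880, true, true, 5657023⟩, ⟨2824, true, false, 6001740⟩, ⟨2880, true, false, 2813150⟩, ⟨0, true, false, 2305302⟩])) (.leaf [⟨2880, true, true, 5524731⟩, ⟨2760, true, false, 6192864⟩, ⟨2880, true, false, 3107175⟩, ⟨0, true, false, 1952446⟩])) (.leaf [⟨2880, true, true, 5830516⟩, ⟨5736, true, false, 987476⟩, ⟨2880, true, false, 3021699⟩, ⟨5520, false, false, 6937526⟩])) (.leaf [⟨5736, true, false, 4355884⟩, ⟨0, false, false, 4217847⟩, ⟨2880, true, false, 3985638⟩, ⟨2880, true, true, 4217847⟩])) (.leaf [⟨5736, true, false, 4355884⟩, ⟨0, false, false, 4217847⟩, ⟨2880, true, true, 4217847⟩, ⟨2880, true, false, 3985638⟩])) (.node false 240 2640 (.node false 240 2880 (.node false 360 2880 (.node false 424 2880 (.node false 456 2848 (.node false 472 2880 (.leaf [⟨5744,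 true, false, 3914344⟩, ⟨2880, true, false, 3736513⟩, ⟨2880, true, true, 3054743⟩, ⟨0, true, false, 3620014⟩, ⟨2880, false, false, 1372764⟩, ⟨2872, true, false, 1078838⟩]) (.leaf [⟨2880, true, true, 3575176⟩, ⟨2880, true, false, 2740602⟩, ⟨0, true, false, 3575176⟩, ⟨2848, true, false, 6886263⟩])) (.leaf [⟨2880, true, true, 5657023⟩, ⟨2824, true, false, 6001740⟩, ⟨0, true, false, 2305302⟩, ⟨2880, true, false, 2813150⟩])) (.leaf [⟨2880, true, true, 5524731⟩, ⟨2760, true, false, 6192863⟩, ⟨0, true, false, 1952447⟩, ⟨2880, true, false, 3107175⟩])) (.leaf [⟨2880, true, true, 5829383⟩, ⟨5744, true, false, 979451⟩, ⟨2880, true, false, 3026820⟩, ⟨5520, false, false, 6941562⟩])) (.leaf [⟨5744, true, false, 4250349⟩, ⟨0, false, false, 4262902⟩, ⟨2880, true, true, 4258739⟩, ⟨2880, true, false, 4005225⟩])) (.leaf [⟨5744, true, false, 4250349⟩, ⟨0, false, false, 4262902⟩, ⟨2880, true, true, 4258739⟩, ⟨2880, true, false, 4005225⟩])))) (.leaf [⟨5752, true, false, 5506455⟩, ⟨2880,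 true, true, 3848048⟩, ⟨2880, true, false, 3574665⟩, ⟨0, true, false, 2373038⟩, ⟨0, false, false, 1475010⟩])) (by decide +kernel)
theorem yo185 : (bN 568 800 568 9026977682).Ok := ok1 (.node true 240 2400 (.node true 256 2640 (.node true 296 2832 (.leaf [⟨2880, false, false, 4600487⟩, ⟨2880, true, false, 4467950⟩, ⟨0, true, false, 522258⟩, ⟨0, false, false, 3945692⟩, ⟨2832, false, false, 2018325⟩, ⟨5464, true, false, 1222504⟩]) (.node true 264 2832 (.node false 8 2640 (.leaf [⟨2880, false, true, 4823959⟩, ⟨2880, false, false, 1452587⟩, ⟨0, true, false, 2618454⟩, ⟨0, false, false, 2205505⟩, ⟨2880, true, true, 3528040⟩, ⟨2832, false, false, 1359522⟩, ⟨5496, true, false, 789151⟩]) (.leaf [⟨2880, false, false, 3972383⟩, ⟨2880, false, true, 4590454⟩, ⟨0, false, false, 4590454⟩, ⟨5752, false, false, 3623924⟩])) (.node true 128 2832 (.node false 8 2832 (.node false 16 2880 (.node false 56 2880 (.leaf [⟨2832, false, false, 4083041⟩, ⟨2880, false, false, 750652⟩, ⟨2880, true,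 true, 4136564⟩, ⟨5704, false, false, 2825360⟩, ⟨5632, true, false, 2499019⟩, ⟨2880, false, true, 2198741⟩, ⟨5504, true, false, 283840⟩]) (.leaf [⟨2880, false, false, 3928167⟩, ⟨2880, false, true, 4424954⟩, ⟨5704, false, false, 3734577⟩, ⟨5744, false, false, 4689518⟩])) (.leaf [⟨2880, false, false, 3954395⟩, ⟨2880, false, true, 4597850⟩, ⟨5744, false, false, 3627121⟩, ⟨0, false, false, 4597850⟩])) (.leaf [⟨2880, false, false, 3972383⟩, ⟨2880, false, true, 4590454⟩, ⟨5752, false, false, 3623924⟩, ⟨0, false, false, 4590454⟩])) (.leaf [⟨0, true, false, 4914993⟩, ⟨2880, true, true, 4761457⟩, ⟨5632, true, false, 2185773⟩, ⟨2880, false, true, 4914993⟩])))) (.node true 248 2640 (.node true 128 2832 (.node false 48 2832 (.node false 72 2880 (.leaf [⟨2832, false, false, 4409829⟩, ⟨2880, true, true, 4052386⟩, ⟨5688, false, false, 2542318⟩, ⟨5632, true, false, 3059382⟩, ⟨2880, false, false, 903643⟩, ⟨2880, false, true, 1809658⟩]) (.leaf [⟨2880, false, false, 3824842⟩, ⟨2880,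 false, true, 4649641⟩, ⟨5688, false, false, 3653092⟩, ⟨0, false, false, 4649641⟩])) (.leaf [⟨2880, false, false, 3881153⟩, ⟨2880, false, true, 4627435⟩, ⟨5712, false, false, 3641192⟩, ⟨0, false, false, 4627435⟩])) (.leaf [⟨0, true, false, 4877457⟩, ⟨2880, true, false, 4877457⟩, ⟨5632, true, false, 2301258⟩, ⟨2880, false, false, 4721043⟩])) (.node true 120 2640 (.node true 184 2832 (.node false 48 2832 (.node false 72 2880 (.leaf [⟨2832, false, false, 4221341⟩, ⟨2880, true, true, 4279020⟩, ⟨5688, false, false, 3003101⟩, ⟨5576, true, false, 2669885⟩, ⟨2880, false, false, 544032⟩, ⟨2880, false, true, 2059838⟩]) (.leaf [⟨2880, false, false, 3824842⟩, ⟨2880, false, true, 4649641⟩, ⟨5688, false, false, 3653092⟩, ⟨0, false, false, 4649641⟩])) (.leaf [⟨2880, false, false, 3881153⟩, ⟨2880, false, true, 4627435⟩, ⟨5712, false, false, 3641192⟩, ⟨0, false, false, 4627435⟩])) (.node true 136 2832 (.node false 48 2832 (.node false 72 2880 (.leaf [⟨2832, false, false, 4377156⟩,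 ⟨2880, false, false, 846763⟩, ⟨2880, true, true, 4087931⟩, ⟨2880, false, true, 1853201⟩, ⟨5624, true, false, 2995065⟩, ⟨5688, false, false, 2617100⟩]) (.leaf [⟨2880, false, false, 3824842⟩, ⟨2880, false, true, 4649641⟩, ⟨5688, false, false, 3653092⟩, ⟨0, false, false, 4649641⟩])) (.leaf [⟨2880, false, false, 3881153⟩, ⟨2880, false, true, 4627435⟩, ⟨5712, false, false, 3641192⟩, ⟨0, false, false, 4627436⟩])) (.node true 128 2832 (.leaf [⟨0, true, false, 4744094⟩, ⟨2880, true, true, 4605120⟩, ⟨5624, true, false, 2683908⟩, ⟨2880, true, false, 673195⟩, ⟨2880, false, true, 4070898⟩]) (.leaf [⟨0, true, false, 4914993⟩, ⟨2880, true, true, 4761457⟩, ⟨5632, true, false, 2185773⟩, ⟨2880, false, true, 4914993⟩])))) (.leaf [⟨0, true, false, 4878983⟩, ⟨5640, true, false, 2323136⟩, ⟨2880, true, false, 4878983⟩, ⟨2880, false, false, 4696115⟩])))) (.node true 8 2400 (.node true 48 2640 (.node true 64 2880 (.leaf [⟨2880, false, true, 2718506⟩, ⟨2880, false, false, 4982503⟩, ⟨5696,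 true, false, 3392165⟩, ⟨0, false, false, 2227196⟩, ⟨2880, true, false, 3456846⟩]) (.node true 56 2880 (.leaf [⟨5704, true, false, 4739921⟩, ⟨2880, true, true, 3865937⟩, ⟨2880, true, false, 4248481⟩, ⟨5696, true, false, 3922877⟩]) (.node true 24 2880 (.leaf [⟨5736, true, false, 5324595⟩, ⟨2880, false, false, 4615543⟩, ⟨2880, true, false, 4858131⟩, ⟨5704, true, false, 1978946⟩]) (.leaf [⟨5736, true, false, 4823645⟩, ⟨0, true, false, 4009417⟩, ⟨2880, true, false, 4430789⟩, ⟨2880, true, true, 3513365⟩])))) (.node true 16 2640 (.node true 24 2880 (.leaf [⟨5736, true, false, 5341889⟩, ⟨2880, false, true, 4944029⟩, ⟨2880, true, true, 4698285⟩, ⟨5712, true, false, 1793012⟩]) (.node true 8 2880 (.leaf [⟨5752, true, false, 5393157⟩, ⟨2880, true, false, 4666769⟩, ⟨5736, true, false, 2471884⟩, ⟨2880, false, false, 4245406⟩]) (.leaf [⟨5752, true, false, 4663325⟩, ⟨0, true, false, 3997261⟩, ⟨2880, true, false, 4532574⟩, ⟨2880, true, true, 3584055⟩]))) (.leaf [⟨0, true, false, 5423726⟩,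 ⟨5744, true, false, 2672744⟩, ⟨2880, true, false, 4583967⟩, ⟨2880, false, false, 4096779⟩]))) (.leaf [⟨0, true, false, 5450866⟩, ⟨5752, true, false, 2302542⟩, ⟨2880, false, true, 4737080⟩, ⟨2880, true, true, 4286728⟩]))) (by decide +kernel)
theorem yo184 : (bN 608 760 608 8918104426).Ok := ok1 (.node true 8 2640 (.node true 72 2816 (.node true 104 2880 (.node false 8 2816 (.node false 48 2880 (.node false 64 2880 (.node false 72 2880 (.node false 80 2880 (.node false 112 2880 (.leaf [⟨2880, false, true, 6063212⟩, ⟨5656, true, false, 3715118⟩, ⟨2880, false, false, 2346214⟩, ⟨5648, false, false, 1914396⟩, ⟨2880, true, true, 2738275⟩]) (.leaf [⟨2880, false, true, 4911903⟩, ⟨2880, false, false, 4778975⟩, ⟨5680, false, false, 2646980⟩, ⟨5656, true, false, 2222820⟩, ⟨5648, false, false, 2216538⟩])) (.leaf [⟨2880, false, false, 4879502⟩, ⟨2880, false, true, 4463530⟩, ⟨5688, false, false, 3100478⟩, ⟨5680, false, false, 2742885⟩, ⟨5656, true, false, 1590822⟩])) (.leaf [⟨2880,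 false, false, 4872403⟩, ⟨2880, false, true, 4446223⟩, ⟨5696, false, false, 3246463⟩, ⟨5688, false, false, 2782176⟩, ⟨5656, true, false, 1429950⟩])) (.leaf [⟨2880, false, false, 4796821⟩, ⟨2880, false, true, 3960191⟩, ⟨5712, false, false, 4774459⟩, ⟨5696, false, false, 3245745⟩])) (.leaf [⟨2880, false, true, 4630223⟩, ⟨2880, false, false, 4613861⟩, ⟨0, false, false, 4630223⟩, ⟨5712, false, false, 2902909⟩])) (.leaf [⟨2880, false, false, 4659092⟩, ⟨0, false, false, 4659092⟩, ⟨2880, false, true, 4659092⟩, ⟨5752, false, false, 2799941⟩])) (.node true 80 2880 (.node false 8 2816 (.node false 48 2880 (.node true 88 2880 (.node true 96 2880 (.node false 64 2880 (.node false 72 2880 (.leaf [⟨5664, true, false, 3285086⟩, ⟨2880, true, false, 5607895⟩, ⟨2880, false, false, 4560491⟩, ⟨5688, false, false, 1881657⟩, ⟨5656, true, false, 1442087⟩]) (.leaf [⟨2880, false, false, 3971715⟩, ⟨5688, false, false, 4587784⟩, ⟨2880, false, true, 2653868⟩, ⟨5696, false, false, 3759027⟩, ⟨5656,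 true, false, 1804822⟩])) (.leaf [⟨2880, false, false, 4796821⟩, ⟨5696, false, false, 3245745⟩, ⟨2880, false, true, 3960191⟩, ⟨5712, false, false, 4774459⟩])) (.node false 64 2880 (.leaf [⟨2880, true, true, 4719868⟩, ⟨5672, true, false, 3316614⟩, ⟨2880, false, true, 5777131⟩, ⟨5696, false, false, 1951909⟩, ⟨5664, true, false, 1011694⟩]) (.leaf [⟨5696, false, false, 3245745⟩, ⟨2880, false, false, 4796821⟩, ⟨2880, false, true, 3960192⟩, ⟨5712, false, false, 4774459⟩]))) (.leaf [⟨2880, true, false, 5634115⟩, ⟨5680, true, false, 3226379⟩, ⟨2880, false, false, 4542081⟩, ⟨5672, true, false, 1494312⟩, ⟨5712, false, false, 1880330⟩])) (.leaf [⟨5712, false, false, 2902909⟩, ⟨2880, false, true, 4630223⟩, ⟨2880, false, false, 4613861⟩, ⟨0, false, false, 4630223⟩])) (.leaf [⟨5752, false, false, 2799941⟩, ⟨2880, false, false, 4659092⟩, ⟨2880, false, true, 4659092⟩, ⟨0, false, false, 4659092⟩])) (.node true 40 2880 (.node false 8 2816 (.node false 48 2880 (.node false 720 2880 (.leaf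 [⟨5720, true, false, 5270258⟩, ⟨2880, false, true, 2474767⟩, ⟨2880, false, false, 5580353⟩, ⟨2880, true, false, 3451838⟩]) (.leaf [⟨2880, true, false, 5060365⟩, ⟨2880, true, true, 3035852⟩, ⟨5720, true, false, 3510362⟩, ⟨5680, true, false, 2424749⟩, ⟨5712, false, false, 1277188⟩, ⟨2880, false, false, 1468699⟩])) (.leaf [⟨5712, false, false, 2902909⟩, ⟨2880, false, true, 4630223⟩, ⟨2880, false, false, 4613861⟩, ⟨0, false, false, 4630223⟩])) (.leaf [⟨5752, false, false, 2799941⟩, ⟨0, false, false, 4659092⟩, ⟨2880, false, false, 4659092⟩, ⟨2880, false, true, 4659092⟩])) (.leaf [⟨5720, true, false, 3874359⟩, ⟨2816, false, false, 3312171⟩, ⟨0, false, false, 3196895⟩, ⟨2880, true, true, 3196895⟩, ⟨2880, true, false, 3196895⟩])))) (.node true 16 2816 (.node true 24 2880 (.node true 32 2880 (.node true 48 2496 (.node true 56 2880 (.leaf [⟨2880, true, false, 2190522⟩, ⟨5704, true, false, 3164120⟩, ⟨2880, true, true, 4358304⟩, ⟨2880, false, true, 3313938⟩, ⟨5688, true, false,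 1951582⟩, ⟨0, false, false, 1798750⟩]) (.leaf [⟨5728, true, false, 4947916⟩, ⟨2880, true, false, 2462784⟩, ⟨2880, true, true, 4408459⟩, ⟨5704, true, false, 2338225⟩, ⟨2880, false, true, 2619832⟩])) (.leaf [⟨5728, true, false, 4654592⟩, ⟨2880, true, false, 4911119⟩, ⟨2880, true, true, 4121392⟩, ⟨5712, true, false, 3090113⟩])) (.leaf [⟨5736, true, false, 5163662⟩, ⟨2880, true, true, 4761393⟩, ⟨2880, false, true, 5433480⟩, ⟨5728, true, false, 1418682⟩])) (.node true 8 2880 (.leaf [⟨5752, true, false, 5154857⟩, ⟨2880, true, false, 5175451⟩, ⟨5736, true, false, 2030292⟩, ⟨2880, false, false, 4416615⟩]) (.leaf [⟨5752, true, false, 3253696⟩, ⟨0, true, false, 3118250⟩, ⟨2816, false, false, 4168771⟩, ⟨2880, false, true, 3118250⟩, ⟨2880, false, false, 3118250⟩]))) (.node true 8 2816 (.node true 8 2880 (.leaf [⟨5752, true, false, 4733286⟩, ⟨2880, true, false, 4829887⟩, ⟨5744, true, false, 3427447⟩, ⟨2880, true, true, 3786596⟩]) (.leaf [⟨5752, true, false, 4337589⟩, ⟨2880, true,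 true, 3129622⟩, ⟨0, true, false, 4655002⟩, ⟨2880, true, false, 4655002⟩])) (.leaf [⟨2880, true, false, 4655002⟩, ⟨0, true, false, 4655002⟩, ⟨5752, true, false, 4337589⟩, ⟨2880, true, true, 3129622⟩])))) (.leaf [⟨0, true, false, 4747205⟩, ⟨2880, true, false, 4814180⟩, ⟨5752, true, false, 3506903⟩, ⟨2880, true, true, 3708927⟩])) (by decide +kernel)
theorem yo181 : (bN 480 984 480 9104739299).Ok := ok1 (.node true 8 2400 (.node true 16 2880 (.node true 24 2640 (.node true 56 2880 (.node true 72 2648 (.node true 80 2880 (.leaf [⟨5680, true, false, 5134819⟩, ⟨2880, false, true, 5520794⟩, ⟨2880, false, false, 1605084⟩, ⟨2880, true, true, 3485532⟩, ⟨0, false, false, 1030987⟩]) (.leaf [⟨2880, true, true, 4132710⟩, ⟨5680, true, false, 2475699⟩, ⟨5704, true, false, 5732517⟩, ⟨2880, false, true, 3720318⟩, ⟨2880, false, false, 715972⟩])) (.leaf [⟨5704, true, false, 5639993⟩, ⟨2880, true, true, 4322107⟩, ⟨5688, true, false, 2811508⟩, ⟨2880, false, true, 3561964⟩, ⟨2880, false,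 false, 441643⟩])) (.node true 32 2880 (.node true 40 2648 (.node true 48 2880 (.leaf [⟨5712, true, false, 5427793⟩, ⟨5704, true, false, 3234380⟩, ⟨2880, true, true, 4701486⟩, ⟨2880, false, true, 3413557⟩]) (.leaf [⟨5712, true, false, 3309160⟩, ⟨2880, true, true, 1503993⟩, ⟨2880, true, false, 3405421⟩, ⟨5720, true, false, 2638072⟩, ⟨5728, true, false, 2659424⟩, ⟨2880, false, false, 3261145⟩])) (.leaf [⟨5728, true, false, 5313781⟩, ⟨5720, true, false, 3079559⟩, ⟨2880, true, true, 4840961⟩, ⟨2880, false, true, 3542916⟩])) (.node false 240 2880 (.node false 360 2880 (.node false 424 2816 (.node false 456 2880 (.leaf [⟨2880, true, true, 4644263⟩, ⟨5728, true, false, 3268305⟩, ⟨2880, true, false, 1544057⟩, ⟨5744, true, false, 4187624⟩, ⟨2880, false, true, 2319755⟩, ⟨2856, true, false, 813212⟩]) (.leaf [⟨2880, true, true, 2355232⟩, ⟨5728, true, false, 3354994⟩, ⟨2880, true, false, 2846301⟩, ⟨5744, true, false, 2519525⟩, ⟨2816, true, false, 5701164⟩])) (.leaf [⟨2880, true,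 true, 5391583⟩, ⟨2760, true, false, 6147937⟩, ⟨2880, true, false, 3228187⟩, ⟨5744, true, false, 2009509⟩])) (.leaf [⟨2880, true, true, 5837524⟩, ⟨5728, true, false, 956022⟩, ⟨5520, false, false, 6934546⟩, ⟨2880, true, false, 3049124⟩])) (.leaf [⟨5728, true, false, 4290862⟩, ⟨2880, true, true, 4226443⟩, ⟨0, false, false, 4226443⟩, ⟨2880, true, false, 4033468⟩])))) (.node false 240 2640 (.node false 240 2880 (.node false 360 2880 (.node false 424 2880 (.leaf [⟨5744, true, false, 4247998⟩, ⟨5736, true, false, 3812393⟩, ⟨2880, true, true, 4562481⟩, ⟨2880, true, false, 1690531⟩, ⟨2880, false, true, 1881273⟩, ⟨2824, true, false, 582539⟩]) (.leaf [⟨2880, true, true, 5391583⟩, ⟨2760, true, false, 6147937⟩, ⟨2880, true, false, 3228187⟩, ⟨5744, true, false, 2009509⟩])) (.leaf [⟨2880, true, true, 5836424⟩, ⟨5736, true, false, 948384⟩, ⟨5520, false, false, 6938380⟩, ⟨2880, true, false, 3054029⟩])) (.leaf [⟨5736, true, false, 4323942⟩, ⟨2880, true, false, 4049255⟩, ⟨0, false,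 false, 4202010⟩, ⟨2880, true, true, 4202009⟩])) (.leaf [⟨5736, true, false, 4323941⟩, ⟨2880, true, true, 4202010⟩, ⟨0, false, false, 4202010⟩, ⟨2880, true, false, 4049255⟩]))) (.node false 240 2640 (.node false 240 2880 (.node false 360 2880 (.node false 424 2880 (.node false 456 2848 (.node false 472 2880 (.node true 16 2224 (.node true 16 2232 (.leaf [⟨2880, true, true, 4485100⟩, ⟨5744, true, false, 3874230⟩, ⟨2880, true, false, 2195610⟩, ⟨0, true, false, 2704733⟩, ⟨5752, true, false, 1188197⟩, ⟨2880, false, true, 1508223⟩, ⟨2872, true, false, 821123⟩]) (.node false 480 2864 (.node false 480 2872 (.leaf [⟨5744, true, false, 4971027⟩, ⟨2880, true, true, 4441629⟩, ⟨2880, true, false, 3343945⟩, ⟨0, true, false, 2338804⟩, ⟨5752, true, false, 1110472⟩, ⟨2872, true, false, 571338⟩]) (.leaf [⟨2872, true, false, 10443370⟩, ⟨0, true, false, 1593986⟩, ⟨2880, true, false, 4739860⟩])) (.leaf [⟨2872, true, false, 10443370⟩, ⟨0, true, false, 1593986⟩, ⟨2880, true, false, 4739860⟩])))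 (.node false 480 2864 (.node false 480 2872 (.leaf [⟨5744, true, false, 4971070⟩, ⟨2880, true, true, 4441620⟩, ⟨2880, true, false, 3343896⟩, ⟨0, true, false, 2338832⟩, ⟨5752, true, false, 1110493⟩, ⟨2872, true, false, 571304⟩]) (.leaf [⟨2872, true, false, 10443370⟩, ⟨0, true, false, 1593986⟩, ⟨2880, true, false, 4739860⟩])) (.leaf [⟨2872, true, false, 10443370⟩, ⟨0, true, false, 1593986⟩, ⟨2880, true, false, 4739860⟩]))) (.leaf [⟨2880, true, true, 3582478⟩, ⟨2880, true, false, 2831714⟩, ⟨0, true, false, 3582478⟩, ⟨2848, true, false, 6780545⟩])) (.leaf [⟨2880, true, true, 5604876⟩, ⟨2824, true, false, 5884105⟩, ⟨2880, true, false, 2889361⟩, ⟨0, true, false, 2398873⟩])) (.leaf [⟨2880, true, true, 5483782⟩, ⟨2760, true, false, 6063462⟩, ⟨2880, true, false, 3172336⟩, ⟨0, true, false, 2057637⟩])) (.leaf [⟨2880, true, true, 5835316⟩, ⟨5744, true, false, 940934⟩, ⟨2880, true, false, 3058842⟩, ⟨5520, false, false, 6942123⟩])) (.leaf [⟨5744, true, false, 4315802⟩, ⟨2880, true,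 false, 4065999⟩, ⟨0, false, false, 4197707⟩, ⟨2880, true, true, 4197707⟩])) (.leaf [⟨5744, true, false, 4315802⟩, ⟨0, false, false, 4197707⟩, ⟨2880, true, true, 4197707⟩, ⟨2880, true, false, 4065999⟩]))) (.leaf [⟨5752, true, false, 5306899⟩, ⟨2880, true, false, 3849218⟩, ⟨2880, true, true, 3810549⟩, ⟨0, true, false, 2191827⟩, ⟨0, false, false, 1618722⟩])) (by decide +kernel)
theorem yo180 : (bN 628 728 628 8929361528).Ok := ok1 (.node true 4 2728 (.node true 80 2880 (.node false 240 2640 (.node false 360 2880 (.leaf [⟨2880, false, true, 6130178⟩, ⟨5680, true, false, 4643979⟩, ⟨2880, false, false, 4978895⟩, ⟨5564, false, false, 1024164⟩]) (.node false 4 2880 (.node false 40 2880 (.node false 268 2880 (.leaf [⟨5680, true, false, 4000847⟩, ⟨2880, true, true, 5768716⟩, ⟨2880, false, true, 5343225⟩, ⟨5492, false, false, 1664429⟩]) (.node true 116 2876 (.node true 136 2880 (.leaf [⟨2880, false, true, 5803084⟩, ⟨5720, false, false, 3909265⟩, ⟨5624, true, false, 1698055⟩,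 ⟨2880, true, true, 5366812⟩]) (.node true 120 2880 (.node false 56 2880 (.leaf [⟨2880, false, false, 4752536⟩, ⟨2880, false, true, 6400819⟩, ⟨5704, false, false, 2213515⟩, ⟨5640, true, false, 3410346⟩]) (.leaf [⟨2880, false, false, 5310570⟩, ⟨5720, false, false, 4645666⟩, ⟨2880, false, true, 3971918⟩, ⟨5704, false, false, 2849062⟩])) (.node false 56 2880 (.leaf [⟨2880, true, true, 4972135⟩, ⟨2876, false, false, 3187971⟩, ⟨5704, false, false, 3048122⟩, ⟨2880, true, false, 2370250⟩, ⟨5644, true, false, 2221538⟩, ⟨5640, true, false, 977200⟩]) (.leaf [⟨2880, false, false, 5310570⟩, ⟨5720, false, false, 4645666⟩, ⟨5704, false, false, 2849062⟩, ⟨2880, false, true, 3971918⟩])))) (.node true 84 2876 (.node true 88 2880 (.node true 92 2880 (.node true 104 2880 (.node true 108 2880 (.leaf [⟨2880, true, false, 5314623⟩, ⟨2880, true, true, 4601642⟩, ⟨5720, false, false, 2914010⟩, ⟨5652, true, false, 2061184⟩, ⟨5644, true, false, 1885757⟩]) (.leaf [⟨2880, true, false, 5353853⟩,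 ⟨2880, true, true, 4408116⟩, ⟨5720, false, false, 2577579⟩, ⟨5656, true, false, 2320777⟩, ⟨5652, true, false, 2116890⟩])) (.leaf [⟨2880, true, false, 5349408⟩, ⟨2880, true, true, 4347161⟩, ⟨5668, true, false, 2574797⟩, ⟨5720, false, false, 2288621⟩, ⟨5656, true, false, 2217229⟩])) (.leaf [⟨2880, true, false, 5376035⟩, ⟨2880, true, true, 4238048⟩, ⟨5672, true, false, 2785547⟩, ⟨5668, true, false, 2341330⟩, ⟨5720, false, false, 2036256⟩])) (.leaf [⟨2880, true, false, 5360178⟩, ⟨2880, true, true, 4252475⟩, ⟨5680, true, false, 2933721⟩, ⟨5672, true, false, 2345278⟩, ⟨5720, false, false, 1885563⟩])) (.leaf [⟨2880, true, false, 5366031⟩, ⟨2880, true, true, 4244905⟩, ⟨5680, true, false, 2949992⟩, ⟨5676, true, false, 2347809⟩, ⟨5720, false, false, 1868480⟩])))) (.leaf [⟨2880, false, false, 4992017⟩, ⟨5756, false, false, 4925392⟩, ⟨2880, false, true, 4858674⟩, ⟨5720, false, false, 2001133⟩])) (.leaf [⟨2880, false, true, 4978580⟩, ⟨2880, false, false, 4978580⟩, ⟨0, false, false,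 4978580⟩, ⟨5756, false, false, 1841476⟩]))) (.node false 4 2640 (.node false 40 2880 (.node false 56 2880 (.node false 64 2876 (.node false 68 2880 (.node false 72 2880 (.node false 108 2880 (.leaf [⟨2880, true, false, 4815044⟩, ⟨2880, true, true, 6336824⟩, ⟨5680, true, false, 1825255⟩, ⟨5652, false, false, 3800093⟩]) (.leaf [⟨2880, false, false, 5139605⟩, ⟨2880, false, true, 4875307⟩, ⟨5688, false, false, 2905025⟩, ⟨5680, true, false, 2119452⟩, ⟨5652, false, false, 1737827⟩])) (.leaf [⟨2880, false, false, 5287410⟩, ⟨2880, false, true, 4322461⟩, ⟨5692, false, false, 3543723⟩, ⟨5688, false, false, 2347809⟩, ⟨5680, true, false, 1275812⟩])) (.leaf [⟨2880, false, false, 5268179⟩, ⟨2880, false, true, 3941568⟩, ⟨5704, false, false, 4888640⟩, ⟨5692, false, false, 2678830⟩])) (.leaf [⟨2880, false, false, 5274777⟩, ⟨2880, false, true, 3939997⟩, ⟨5704, false, false, 4886466⟩, ⟨5696, false, false, 2675976⟩])) (.leaf [⟨2880, false, false, 5214986⟩, ⟨2880, false, true, 4172385⟩,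 ⟨5720, false, false, 4845573⟩, ⟨5704, false, false, 2544272⟩])) (.leaf [⟨2880, false, true, 4955284⟩, ⟨2880, false, false, 4955284⟩, ⟨0, false, false, 4955284⟩, ⟨5720, false, false, 1911363⟩])) (.leaf [⟨2880, false, false, 4978580⟩, ⟨2880, false, true, 4978577⟩, ⟨0, false, false, 4978580⟩, ⟨5756, false, false, 1841479⟩]))) (.node true 8 2880 (.node true 44 2876 (.node true 60 2880 (.leaf [⟨5700, true, false, 3650272⟩, ⟨2880, true, true, 4475208⟩, ⟨2880, false, true, 5882545⟩, ⟨5680, true, false, 1232770⟩, ⟨0, false, false, 1536421⟩]) (.leaf [⟨2880, true, true, 4516020⟩, ⟨2876, false, false, 3629056⟩, ⟨5716, true, false, 3241009⟩, ⟨2880, true, false, 1861732⟩, ⟨5700, true, false, 1731695⟩, ⟨5752, true, false, 1797704⟩])) (.node true 12 2876 (.node true 16 2880 (.leaf [⟨5744, true, false, 5162439⟩, ⟨2880, true, false, 5411131⟩, ⟨2880, false, false, 4304362⟩, ⟨5716, true, false, 1899284⟩]) (.leaf [⟨2880, true, true, 3566906⟩, ⟨2880, true, false, 5093001⟩, ⟨5752, true,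 false, 4976559⟩, ⟨5744, true, false, 3140750⟩])) (.leaf [⟨5752, true, false, 4998131⟩, ⟨2880, true, false, 5077907⟩, ⟨2880, true, true, 3506261⟩, ⟨5748, true, false, 3194917⟩]))) (.leaf [⟨0, true, false, 4997617⟩, ⟨2880, true, false, 5069544⟩, ⟨5752, true, false, 3240805⟩, ⟨2880, true, true, 3469251⟩]))) (.leaf [⟨0, true, false, 5019446⟩, ⟨2880, true, false, 5055045⟩, ⟨5756, true, false, 3294526⟩, ⟨2880, true, true, 3408199⟩])) (by decide +kernel)
theorem yo177 : (bN 488 976 488 9048932301).Ok := ok1 (.node true 16 2632 (.node true 24 2872 (.node true 56 2880 (.node true 72 2648 (.node false 488 2640 (.node false 8 2880 (.node true 80 2872 (.leaf [⟨2880, false, false, 1538242⟩, ⟨2880, false, true, 4168926⟩, ⟨5680, true, false, 2276230⟩, ⟨2880, true, true, 3637297⟩, ⟨5704, true, false, 2651339⟩, ⟨2872, false, false, 1388794⟩, ⟨5752, false, false, 1116388⟩]) (.leaf [⟨2880, false, false, 4874901⟩, ⟨2880, true, false, 3920724⟩, ⟨5704, true, false, 5790758⟩, ⟨5680, true,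 false, 2190833⟩])) (.leaf [⟨2880, false, true, 4746084⟩, ⟨5752, false, false, 3464433⟩, ⟨2880, false, false, 3827549⟩, ⟨5704, true, false, 4739151⟩])) (.leaf [⟨0, false, false, 2836729⟩, ⟨2880, true, true, 5245549⟩, ⟨2880, false, true, 5825821⟩, ⟨5704, true, false, 2869117⟩])) (.leaf [⟨5704, true, false, 5782597⟩, ⟨5688, true, false, 2197921⟩, ⟨2880, false, false, 4867211⟩, ⟨2880, true, false, 3929487⟩])) (.node true 32 2880 (.node true 40 2648 (.node true 48 2880 (.leaf [⟨5712, true, false, 5424617⟩, ⟨5704, true, false, 3261126⟩, ⟨2880, true, true, 4669055⟩, ⟨2880, false, true, 3422417⟩]) (.leaf [⟨5712, true, false, 3425940⟩, ⟨2880, true, true, 1571669⟩, ⟨5728, true, false, 2739189⟩, ⟨5720, true, false, 2517192⟩, ⟨2880, true, false, 3385061⟩, ⟨2880, false, false, 3138165⟩])) (.leaf [⟨5728, true, false, 5205488⟩, ⟨5720, true, false, 3443544⟩, ⟨2880, true, true, 1626069⟩, ⟨2880, true, false, 3405807⟩, ⟨2880, false, false, 3096309⟩])) (.node false 488 2640 (.node false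 248 2880 (.node false 376 2880 (.node false 440 2880 (.node true 16 2880 (.leaf [⟨2880, true, true, 4695765⟩, ⟨5728, true, false, 3300244⟩, ⟨2880, true, false, 1374229⟩, ⟨5744, true, false, 4323394⟩, ⟨2880, false, true, 2433817⟩, ⟨2832, true, false, 649767⟩]) (.leaf [⟨0, true, false, 4159363⟩, ⟨2880, true, false, 4127963⟩, ⟨2880, false, false, 4159363⟩, ⟨5744, true, false, 4330527⟩])) (.leaf [⟨2880, true, true, 5671897⟩, ⟨2880, true, false, 3059761⟩, ⟨0, true, false, 2276967⟩, ⟨2768, true, false, 5768591⟩])) (.leaf [⟨2880, true, true, 6589960⟩, ⟨5512, false, false, 7123314⟩, ⟨2880, true, false, 3063942⟩])) (.leaf [⟨5728, true, false, 4285198⟩, ⟨0, false, false, 4198541⟩, ⟨2880, true, true, 4198540⟩, ⟨2880, true, false, 4094937⟩])) (.leaf [⟨5728, true, false, 4285198⟩, ⟨2880, true, true, 4198540⟩, ⟨0, false, false, 4198541⟩, ⟨2880, true, false, 4094937⟩])))) (.node false 488 2640 (.node false 248 2880 (.node false 376 2880 (.node false 440 2880 (.node false 472 2856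 (.node true 8 2872 (.node true 16 2880 (.leaf [⟨5744, true, false, 4219140⟩, ⟨5736, true, false, 3634510⟩, ⟨2880, true, true, 2008133⟩, ⟨2880, true, false, 3695208⟩, ⟨2880, false, false, 2010791⟩, ⟨2856, true, false, 1209434⟩]) (.leaf [⟨2880, true, true, 4791187⟩, ⟨5736, true, false, 2870986⟩, ⟨2872, false, false, 3428300⟩, ⟨5752, true, false, 3264232⟩, ⟨5744, true, false, 2065270⟩, ⟨2880, false, true, 357241⟩])) (.leaf [⟨2880, true, true, 4096605⟩, ⟨5752, true, false, 4357211⟩, ⟨0, true, false, 4096606⟩, ⟨2872, false, false, 4226794⟩])) (.leaf [⟨2880, true, true, 5778343⟩, ⟨2832, true, false, 5605752⟩, ⟨2880, true, false, 2791364⟩, ⟨0, true, false, 2601757⟩])) (.leaf [⟨2880, true, true, 5671897⟩, ⟨2880, true, false, 3059761⟩, ⟨0, true, false, 2276967⟩, ⟨2768, true, false, 5768591⟩])) (.leaf [⟨2880, true, true, 6589959⟩, ⟨5512, false, false, 7123315⟩, ⟨2880, true, false, 3063942⟩])) (.leaf [⟨5736, true, false, 4317720⟩, ⟨2880, true, false, 4111247⟩, ⟨0, false, false,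 4174124⟩, ⟨2880, true, true, 4174124⟩])) (.leaf [⟨5736, true, false, 4317720⟩, ⟨2880, true, true, 4174124⟩, ⟨0, false, false, 4174124⟩, ⟨2880, true, false, 4111247⟩]))) (.node true 8 2504 (.node false 488 2640 (.node false 248 2880 (.node false 376 2880 (.node false 440 2880 (.node false 472 2856 (.node false 488 2880 (.leaf [⟨2880, true, true, 3655367⟩, ⟨5744, true, false, 3857718⟩, ⟨2880, true, false, 3681573⟩, ⟨0, true, false, 3989464⟩, ⟨2880, false, false, 1593094⟩]) (.leaf [⟨2880, true, true, 3552996⟩, ⟨2880, true, false, 2879544⟩, ⟨0, true, false, 3552996⟩, ⟨2856, true, false, 6791680⟩])) (.leaf [⟨2880, true, true, 5778343⟩, ⟨2832, true, false, 5605752⟩, ⟨2880, true, false, 2791364⟩, ⟨0, true, false, 2601757⟩])) (.leaf [⟨2880, true, true, 5671897⟩, ⟨2880, true, false, 3059761⟩, ⟨0, true, false, 2276967⟩, ⟨2768, true, false, 5768591⟩])) (.leaf [⟨2880, true, true, 6589959⟩, ⟨5512, false, false, 7123315⟩, ⟨2880, true, false, 3063942⟩])) (.leaf [⟨5744, true, false,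 4349860⟩, ⟨2880, true, false, 4127739⟩, ⟨0, false, false, 4149808⟩, ⟨2880, true, true, 4149808⟩])) (.leaf [⟨5744, true, false, 4349860⟩, ⟨2880, true, false, 4127739⟩, ⟨0, false, false, 4149808⟩, ⟨2880, true, true, 4149808⟩])) (.leaf [⟨5752, true, false, 4203225⟩, ⟨2880, true, true, 4233686⟩, ⟨2880, true, false, 2630952⟩, ⟨0, true, false, 2862240⟩, ⟨0, false, false, 1371446⟩, ⟨2880, false, true, 1475667⟩]))) (by decide +kernel)
theorem yo179 : (bN 640 704 640 8964680774).Ok := ok1 (.node true 112 2704 (.node true 176 2800 (.node true 208 2880 (.leaf [⟨2880, false, true, 6363222⟩, ⟨2880, false, false, 4815177⟩, ⟨0, false, false, 4350198⟩, ⟨5552, true, false, 1248619⟩]) (.node true 192 2880 (.leaf [⟨2880, false, true, 6359029⟩, ⟨2880, false, false, 4823372⟩, ⟨0, false, false, 4259721⟩, ⟨5568, true, false, 1335094⟩]) (.node false 240 2640 (.node false 368 2880 (.node false 432 2784 (.node false 464 2720 (.node false 480 2848 (.node false 720 2864 (.leaf [⟨0, true, false,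 3051939⟩, ⟨2800, false, false, 3288575⟩, ⟨2880, false, true, 3051939⟩, ⟨2864, true, false, 1896510⟩, ⟨5584, true, false, 1774761⟩, ⟨2880, true, true, 3713492⟩]) (.node true 96 2864 (.leaf [⟨2880, true, true, 5759717⟩, ⟨2864, false, false, 4802999⟩, ⟨5664, true, false, 3137358⟩, ⟨2880, true, false, 434060⟩, ⟨5552, false, false, 2643083⟩]) (.leaf [⟨2800, false, false, 2592049⟩, ⟨2880, false, false, 3957903⟩, ⟨0, true, false, 3957903⟩, ⟨2880, false, true, 3957902⟩, ⟨5664, true, false, 2311460⟩]))) (.leaf [⟨2880, true, true, 6348787⟩, ⟨2880, true, false, 4738741⟩, ⟨0, true, false, 4738742⟩, ⟨5408, false, false, 950946⟩])) (.leaf [⟨2880, true, true, 6348787⟩, ⟨2880, true, false, 4738741⟩, ⟨0, true, false, 4738742⟩, ⟨5408, false, false, 950946⟩])) (.leaf [⟨2880, true, true, 6334859⟩, ⟨2880, true, false, 4828689⟩, ⟨0, true, false, 4369302⟩, ⟨5552, false, false, 1244365⟩])) (.leaf [⟨0, true, false, 5592405⟩, ⟨2880, false, true, 5592405⟩, ⟨2880, false, false, 2796203⟩, ⟨2880,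 true, true, 2796203⟩])) (.leaf [⟨2880, false, true, 5592405⟩, ⟨2880, true, true, 5592405⟩, ⟨0, true, false, 2796203⟩, ⟨0, false, false, 2796202⟩])))) (.node true 128 2800 (.node true 144 2880 (.leaf [⟨2880, false, true, 6340852⟩, ⟨2880, false, false, 4855691⟩, ⟨0, false, false, 3892249⟩, ⟨5616, true, false, 1688424⟩]) (.node false 240 2640 (.node false 240 2880 (.node false 368 2880 (.node false 432 2880 (.node false 464 2880 (.node false 480 2880 (.node false 720 2704 (.node false 720 2784 (.node false 720 2848 (.node true 64 2880 (.leaf [⟨2880, false, true, 6253739⟩, ⟨5696, true, false, 5247401⟩, ⟨2880, false, false, 4181314⟩, ⟨2848, true, false, 1094762⟩]) (.leaf [⟨2800, false, false, 3063080⟩, ⟨2880, true, true, 3302494⟩, ⟨0, true, false, 3302494⟩, ⟨2880, true, false, 3302494⟩, ⟨5696, true, false, 3806656⟩])) (.leaf [⟨2880, true, true, 5772196⟩, ⟨0, true, false, 5248695⟩, ⟨2864, false, false, 3475399⟩, ⟨2880, true, false, 1942990⟩, ⟨2720, true, false, 337935⟩]))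 (.leaf [⟨2880, true, true, 5770763⟩, ⟨0, true, false, 5246464⟩, ⟨2864, false, false, 3487483⟩, ⟨2880, true, false, 1929372⟩, ⟨2704, true, false, 343134⟩])) (.leaf [⟨2880, true, true, 5672015⟩, ⟨0, true, false, 5242946⟩, ⟨2864, false, false, 3509795⟩, ⟨2880, true, false, 1904826⟩, ⟨2720, true, false, 447635⟩])) (.leaf [⟨2880, true, true, 5785687⟩, ⟨2880, true, false, 5157682⟩, ⟨0, true, false, 5157682⟩, ⟨2704, true, false, 676165⟩])) (.leaf [⟨2880, true, true, 5806399⟩, ⟨2880, true, false, 5149592⟩, ⟨0, true, false, 5149592⟩, ⟨2672, true, false, 671632⟩])) (.leaf [⟨2880, true, true, 6334859⟩, ⟨0, true, false, 4369302⟩, ⟨2880, true, false, 4828689⟩, ⟨5552, false, false, 1244365⟩])) (.leaf [⟨2880, true, true, 6346542⟩, ⟨2880, true, false, 4800013⟩, ⟨0, true, false, 4490910⟩, ⟨5520, false, false, 1139751⟩])) (.leaf [⟨0, true, false, 5592405⟩, ⟨2880, false, false, 5592405⟩, ⟨2880, false, true, 2796203⟩, ⟨2880, true, false, 2796203⟩])) (.leaf [⟨2880, false, false, 5592405⟩,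 ⟨2880, true, false, 5592405⟩, ⟨0, true, false, 2796204⟩, ⟨0, false, false, 2796202⟩]))) (.node true 64 2800 (.node true 96 2880 (.leaf [⟨2880, false, true, 5994144⟩, ⟨2880, false, false, 4893024⟩, ⟨5664, true, false, 1899483⟩, ⟨0, true, false, 3554507⟩, ⟨5632, true, false, 436058⟩]) (.node true 80 2880 (.leaf [⟨2880, true, false, 5864522⟩, ⟨2880, true, true, 3184583⟩, ⟨5680, true, false, 4541836⟩, ⟨5664, true, false, 3186276⟩]) (.leaf [⟨0, true, false, 4424672⟩, ⟨2880, true, true, 4424672⟩, ⟨2880, true, false, 4424672⟩, ⟨5680, true, false, 2219856⟩, ⟨2704, false, false, 1283345⟩]))) (.leaf [⟨0, true, false, 4409900⟩, ⟨2880, true, true, 4409900⟩, ⟨2880, true, false, 4409900⟩, ⟨5696, true, false, 2215025⟩, ⟨2704, false, false, 1332491⟩])))) (.node true 16 2800 (.node true 64 2880 (.leaf [⟨5696, true, false, 3395404⟩, ⟨2880, false, true, 5903684⟩, ⟨2880, true, true, 4526580⟩, ⟨0, false, false, 1827999⟩, ⟨5648, true, false, 1123549⟩]) (.node true 32 2880 (.leaf [⟨5728,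 true, false, 5180524⟩, ⟨2880, false, false, 4304193⟩, ⟨2880, true, false, 5641811⟩, ⟨5696, true, false, 1650688⟩]) (.leaf [⟨0, true, false, 5084185⟩, ⟨2880, true, false, 5344796⟩, ⟨5728, true, false, 2735755⟩, ⟨2880, true, true, 3612480⟩]))) (.leaf [⟨0, true, false, 5351087⟩, ⟨2880, true, false, 5350886⟩, ⟨5744, true, false, 2561495⟩, ⟨2880, false, false, 3513749⟩]))) (by decide +kernel)
theorem yo176 : (bN 608 756 608 8936208516).Ok := ok1 (.node true 4 2708 (.node true 68 2816 (.node true 100 2880 (.node false 68 2816 (.node false 100 2880 (.leaf [⟨2880, false, true, 3507047⟩, ⟨2880, false, false, 5063557⟩, ⟨5660, true, false, 3704366⟩, ⟨5660, false, false, 1917850⟩, ⟨2880, true, false, 2584397⟩]) (.node false 72 2880 (.leaf [⟨2880, false, false, 4860643⟩, ⟨2880, false, true, 4599524⟩, ⟨5688, false, false, 2975094⟩, ⟨5660, false, false, 2567246⟩, ⟨5660, true, false, 1774708⟩]) (.leaf [⟨2880, false, true, 4668788⟩, ⟨2880, false, false, 4596281⟩, ⟨0, false, false,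 4668788⟩, ⟨5688, false, false, 2843359⟩]))) (.leaf [⟨2880, false, true, 4666140⟩, ⟨2880, false, false, 4603687⟩, ⟨0, false, false, 4666140⟩, ⟨5692, false, false, 2841250⟩])) (.node true 72 2880 (.node false 68 2816 (.node false 100 2880 (.leaf [⟨5688, true, false, 3995711⟩, ⟨2880, false, true, 5632532⟩, ⟨2880, true, true, 4735359⟩, ⟨5660, false, false, 1268764⟩, ⟨5660, true, false, 1144849⟩]) (.leaf [⟨2880, false, true, 4944290⟩, ⟨2880, false, false, 3383567⟩, ⟨5688, true, false, 2663614⟩, ⟨5660, true, false, 2010509⟩, ⟨5660, false, false, 2266710⟩, ⟨0, false, false, 1508526⟩])) (.leaf [⟨5692, false, false, 2841250⟩, ⟨2880, false, true, 4666140⟩, ⟨2880, false, false, 4603687⟩, ⟨0, false, false, 4666140⟩])) (.node true 36 2880 (.node false 720 2816 (.node false 68 2880 (.node false 100 2880 (.node false 116 2880 (.node false 124 2880 (.node false 128 2880 (.node false 132 2880 (.node false 168 2880 (.node false 184 2880 (.node false 192 2880 (.node false 196 2880 (.node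 false 200 2880 (.leaf [⟨5724, true, false, 4827295⟩, ⟨2880, true, false, 5370395⟩, ⟨2880, false, false, 4677030⟩, ⟨5688, true, false, 1596748⟩, ⟨5644, false, false, 305747⟩]) (.leaf [⟨2880, true, false, 4960305⟩, ⟨2880, true, true, 3750159⟩, ⟨5724, true, false, 4358592⟩, ⟨2816, true, false, 3708160⟩])) (.leaf [⟨2880, true, false, 4960305⟩, ⟨2880, true, true, 3750159⟩, ⟨5724, true, false, 4358592⟩, ⟨2816, true, false, 3708160⟩])) (.leaf [⟨2880, true, false, 4960305⟩, ⟨2880, true, true, 3750159⟩, ⟨5724, true, false, 4358592⟩, ⟨2816, true, false, 3708160⟩])) (.leaf [⟨2880, true, false, 4960305⟩, ⟨2880, true, true, 3750159⟩, ⟨5724, true, false, 4358592⟩, ⟨2816, true, false, 3708160⟩])) (.leaf [⟨2880, true, false, 4960305⟩, ⟨5724, true, false, 4358592⟩, ⟨2880, true, true, 3750159⟩, ⟨2816, true, false, 3708160⟩])) (.leaf [⟨2880, true, false, 4960305⟩, ⟨2880, true, true, 3750159⟩, ⟨5724, true, false, 4358592⟩, ⟨2816, true, false, 3708160⟩])) (.leaf [⟨2880, true, false, 4960305⟩,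 ⟨2880, true, true, 3750159⟩, ⟨5724, true, false, 4358592⟩, ⟨2816, true, false, 3708160⟩])) (.leaf [⟨2880, true, false, 4960305⟩, ⟨2880, true, true, 3750159⟩, ⟨5724, true, false, 4358592⟩, ⟨2816, true, false, 3708160⟩])) (.leaf [⟨2880, true, false, 4960305⟩, ⟨2816, true, false, 3708161⟩, ⟨2880, true, true, 3750158⟩, ⟨5724, true, false, 4358592⟩])) (.leaf [⟨2816, true, false, 3708160⟩, ⟨2880, true, false, 4960305⟩, ⟨2880, true, true, 3750159⟩, ⟨5724, true, false, 4358592⟩])) (.leaf [⟨2816, true, false, 3708160⟩, ⟨2880, true, false, 4960305⟩, ⟨5724, true, false, 4358592⟩, ⟨2880, true, true, 3750159⟩])) (.leaf [⟨2880, true, false, 4821719⟩, ⟨2880, true, true, 3687167⟩, ⟨5724, true, false, 4810008⟩, ⟨5688, true, false, 2943222⟩, ⟨2880, false, false, 515100⟩])) (.leaf [⟨5724, true, false, 3825279⟩, ⟨2816, false, false, 3297887⟩, ⟨0, false, false, 3218017⟩, ⟨2880, true, true, 3218017⟩, ⟨2880, true, false, 3218017⟩])))) (.node true 8 2816 (.node true 12 2880 (.node true 16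 2880 (.node true 40 2876 (.node true 52 2880 (.leaf [⟨5708, true, false, 4808777⟩, ⟨2880, true, false, 4832769⟩, ⟨2880, true, true, 3928704⟩, ⟨5692, true, false, 3206966⟩]) (.leaf [⟨2880, true, true, 4469800⟩, ⟨2876, false, false, 4048197⟩, ⟨5720, true, false, 3596685⟩, ⟨5708, true, false, 1717458⟩, ⟨2880, true, false, 1514764⟩, ⟨16, false, false, 1430312⟩])) (.node true 20 2580 (.node true 24 2876 (.leaf [⟨5736, true, false, 5169292⟩, ⟨2880, true, true, 4767711⟩, ⟨2876, false, false, 5451692⟩, ⟨5720, true, false, 1388522⟩]) (.leaf [⟨5744, true, false, 4749057⟩, ⟨2880, true, true, 3835409⟩, ⟨2880, true, false, 4878895⟩, ⟨5736, true, false, 3313854⟩])) (.leaf [⟨5744, true, false, 4769345⟩, ⟨2880, true, false, 4864950⟩, ⟨2880, true, true, 3781726⟩, ⟨5740, true, false, 3361194⟩]))) (.leaf [⟨5748, true, false, 4776560⟩, ⟨2880, true, false, 4856507⟩, ⟨5744, true, false, 3401827⟩, ⟨2880, true, true, 3742322⟩])) (.leaf [⟨0, true, false, 4757251⟩, ⟨2880, true, true, 3732677⟩,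 ⟨5748, true, false, 3428410⟩, ⟨2880, true, false, 4858878⟩])) (.leaf [⟨0, true, false, 4777918⟩, ⟨2880, true, false, 4845388⟩, ⟨5752, true, false, 3475608⟩, ⟨2880, true, true, 3678301⟩]))) (.leaf [⟨0, true, false, 4798717⟩, ⟨2880, true, false, 4832222⟩, ⟨5756, true, false, 3522596⟩, ⟨2880, true, true, 3623681⟩])) (by decide +kernel)
theorem yo123 : (bN 612 748 612 8946834575).Ok := ok1 (.node true 4 2736 (.node true 72 2812 (.node true 104 2880 (.node false 68 2812 (.node false 104 2880 (.leaf [⟨2880, false, true, 3802407⟩, ⟨2880, false, false, 5040856⟩, ⟨5656, true, false, 3714100⟩, ⟨5656, false, false, 1912415⟩, ⟨2880, true, false, 2307438⟩]) (.node false 72 2880 (.leaf [⟨2880, false, false, 4894362⟩, ⟨2880, false, true, 4782465⟩, ⟨5688, false, false, 2962630⟩, ⟨5656, false, false, 2240648⟩, ⟨5656, true, false, 1897111⟩]) (.leaf [⟨2880, false, true, 4697799⟩, ⟨2880, false, false, 4696158⟩, ⟨0, false, false, 4697800⟩, ⟨5688, false, false, 2685459⟩]))) (.leaf [⟨2880,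 false, false, 4700726⟩, ⟨2880, false, true, 4700726⟩, ⟨0, false, false, 4700726⟩, ⟨5692, false, false, 2675038⟩])) (.node true 76 2880 (.node false 68 2812 (.node false 104 2880 (.leaf [⟨2880, false, true, 3936635⟩, ⟨5684, true, false, 4134509⟩, ⟨2880, false, false, 5110121⟩, ⟨2880, true, false, 2122273⟩, ⟨5656, false, false, 1473678⟩]) (.node false 72 2880 (.leaf [⟨2880, true, true, 5573214⟩, ⟨5688, false, false, 2847796⟩, ⟨5684, true, false, 2756774⟩, ⟨2880, false, true, 5599432⟩]) (.leaf [⟨2880, false, true, 4697799⟩, ⟨2880, false, false, 4696158⟩, ⟨5688, false, false, 2685459⟩, ⟨0, false, false, 4697799⟩]))) (.leaf [⟨5692, false, false, 2675038⟩, ⟨2880, false, true, 4700726⟩, ⟨2880, false, false, 4700726⟩, ⟨0, false, false, 4700726⟩])) (.node true 36 2880 (.node false 720 2812 (.node false 68 2880 (.node false 104 2880 (.node false 120 2880 (.node false 128 2880 (.node false 132 2880 (.node false 136 2880 (.node false 172 2880 (.node false 188 2880 (.node false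 196 2880 (.node false 200 2880 (.node false 204 2880 (.leaf [⟨5724, true, false, 4895940⟩, ⟨2880, true, false, 5407579⟩, ⟨2880, false, false, 4646964⟩, ⟨5684, true, false, 1585878⟩, ⟨5648, false, false, 240854⟩]) (.leaf [⟨2880, true, false, 5030971⟩, ⟨2880, true, true, 3823087⟩, ⟨5724, true, false, 4430445⟩, ⟨2812, true, false, 3492713⟩])) (.leaf [⟨2880, true, false, 5030971⟩, ⟨2880, true, true, 3823087⟩, ⟨5724, true, false, 4430445⟩, ⟨2812, true, false, 3492713⟩])) (.leaf [⟨2880, true, false, 5030971⟩, ⟨2880, true, true, 3823087⟩, ⟨5724, true, false, 4430445⟩, ⟨2812, true, false, 3492713⟩])) (.leaf [⟨2880, true, false, 5030971⟩, ⟨2880, true, true, 3823087⟩, ⟨5724, true, false, 4430445⟩, ⟨2812, true, false, 3492713⟩])) (.leaf [⟨2880, true, false, 5030971⟩, ⟨2880, true, true, 3823087⟩, ⟨5724, true, false, 4430445⟩, ⟨2812, true, false, 3492713⟩])) (.leaf [⟨2880, true, false, 5030971⟩, ⟨2880, true, true, 3823087⟩, ⟨5724, true, false, 4430445⟩, ⟨2812, true, false, 3492713⟩]))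 (.leaf [⟨2880, true, false, 5030971⟩, ⟨2880, true, true, 3823087⟩, ⟨5724, true, false, 4430445⟩, ⟨2812, true, false, 3492713⟩])) (.leaf [⟨2880, true, false, 5030971⟩, ⟨2880, true, true, 3823087⟩, ⟨5724, true, false, 4430445⟩, ⟨2812, true, false, 3492713⟩])) (.leaf [⟨2880, true, false, 5030971⟩, ⟨2880, true, true, 3823087⟩, ⟨5724, true, false, 4430445⟩, ⟨2812, true, false, 3492713⟩])) (.leaf [⟨2880, true, false, 5030971⟩, ⟨2812, true, false, 3492713⟩, ⟨2880, true, true, 3823087⟩, ⟨5724, true, false, 4430445⟩])) (.leaf [⟨2812, true, false, 3886545⟩, ⟨5692, false, false, 3550856⟩, ⟨2880, false, true, 3726146⟩, ⟨2880, false, false, 2498797⟩, ⟨5724, true, false, 3114873⟩])) (.leaf [⟨2880, true, false, 4911086⟩, ⟨2880, true, true, 3700754⟩, ⟨5724, true, false, 4836078⟩, ⟨5684, true, false, 2800639⟩, ⟨2880, false, false, 528659⟩])) (.leaf [⟨5724, true, false, 3808588⟩, ⟨2812, false, false, 3363048⟩, ⟨2880, true, true, 3201860⟩, ⟨2880, true, false, 3201860⟩, ⟨0, false, false,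 3201860⟩])))) (.node true 8 2812 (.node true 12 2880 (.node true 16 2880 (.node true 44 2880 (.leaf [⟨5716, true, false, 4890742⟩, ⟨2880, true, false, 4006338⟩, ⟨2880, true, true, 4149080⟩, ⟨2880, false, true, 1002777⟩, ⟨5688, true, false, 2728279⟩]) (.node true 20 2580 (.node true 24 2880 (.leaf [⟨5736, true, false, 5192033⟩, ⟨2880, true, true, 4726377⟩, ⟨2880, false, true, 5465923⟩, ⟨5716, true, false, 1392883⟩]) (.leaf [⟨5744, true, false, 4807021⟩, ⟨2880, true, false, 4945371⟩, ⟨2880, true, true, 3784532⟩, ⟨5736, true, false, 3240292⟩])) (.leaf [⟨5744, true, false, 4827646⟩, ⟨2880, true, false, 4930905⟩, ⟨2880, true, true, 3729395⟩, ⟨5740, true, false, 3289271⟩]))) (.leaf [⟨5748, true, false, 4835729⟩, ⟨2880, true, false, 4921506⟩, ⟨5744, true, false, 3332125⟩, ⟨2880, true, true, 3687856⟩])) (.leaf [⟨0, true, false, 4818262⟩, ⟨2880, true, false, 4922109⟩, ⟨5748, true, false, 3361902⟩, ⟨2880, true, true, 3674943⟩])) (.leaf [⟨0, true, false, 4839527⟩, ⟨2880, true,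 false, 4907896⟩, ⟨5752, true, false, 3411203⟩, ⟨2880, true, true, 3618590⟩]))) (.leaf [⟨0, true, false, 4860345⟩, ⟨2880, true, false, 4894620⟩, ⟨5756, true, false, 3459084⟩, ⟨2880, true, true, 3563167⟩])) (by decide +kernel)
theorem yo89 : (bN 656 688 656 8951743276).Ok := ok1 (.node true 120 2720 (.node true 176 2880 (.node false 240 2640 (.node false 120 2784 (.node false 360 2608 (.node false 360 2704 (.node false 240 2736 (.node false 304 2752 (.node false 336 2784 (.node false 168 2824 (.node false 256 2840 (.node false 296 2864 (.node false 352 2832 (.node false 664 2688 (.node false 664 2760 (.node false 656 2776 (.leaf [⟨2880, false, true, 6394924⟩, ⟨5584, true, false, 2253646⟩, ⟨2880, false, false, 3841128⟩, ⟨2984, false, false, 1381732⟩, ⟨0, false, false, 2905785⟩]) (.leaf [⟨2880, false, true, 5988549⟩, ⟨5584, true, false, 778641⟩, ⟨2880, false, false, 5186724⟩, ⟨0, false, false, 4823301⟩])) (.leaf [⟨2880, false, true, 5988549⟩, ⟨5584, true, false, 778641⟩,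 ⟨2880, false, false, 5186724⟩, ⟨0, false, false, 4823301⟩])) (.leaf [⟨2880, false, true, 5988549⟩, ⟨5584, true, false, 778641⟩, ⟨2880, false, false, 5186724⟩, ⟨0, false, false, 4823301⟩])) (.leaf [⟨2880, false, true, 5988549⟩, ⟨5584, true, false, 778641⟩, ⟨2880, false, false, 5186724⟩, ⟨0, false, false, 4823301⟩])) (.leaf [⟨2880, false, true, 5988549⟩, ⟨2880, false, false, 5186724⟩, ⟨0, false, false, 4823301⟩, ⟨5584, true, false, 778641⟩])) (.leaf [⟨2880, false, true, 5988549⟩, ⟨2880, false, false, 5186725⟩, ⟨0, false, false, 4823301⟩, ⟨5584, true, false, 778641⟩])) (.leaf [⟨2880, false, true, 5988549⟩, ⟨2880, false, false, 5186725⟩, ⟨0, false, false, 4823301⟩, ⟨5584, true, false, 778641⟩])) (.leaf [⟨2880, false, true, 5988549⟩, ⟨2880, false, false, 5186724⟩, ⟨0, false, false, 4823301⟩, ⟨5584, true, false, 778641⟩])) (.leaf [⟨2880, false, true, 5988549⟩, ⟨2880, false, false, 5186724⟩, ⟨0, false, false, 4823301⟩, ⟨5584, true, false, 778641⟩])) (.leaf [⟨2880, false,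 true, 5988549⟩, ⟨2880, false, false, 5186724⟩, ⟨0, false, false, 4823301⟩, ⟨5584, true, false, 778641⟩])) (.leaf [⟨2880, false, true, 5988549⟩, ⟨2880, false, false, 5186724⟩, ⟨0, false, false, 4823301⟩, ⟨5584, true, false, 778641⟩])) (.leaf [⟨2880, false, true, 5988549⟩, ⟨2880, false, false, 5186724⟩, ⟨0, false, false, 4823301⟩, ⟨5584, true, false, 778641⟩])) (.leaf [⟨2880, false, true, 5988549⟩, ⟨2880, false, false, 5186724⟩, ⟨0, false, false, 4823301⟩, ⟨5584, true, false, 778641⟩])) (.leaf [⟨2880, false, true, 5988549⟩, ⟨2880, false, false, 5186724⟩, ⟨0, false, false, 4823301⟩, ⟨5584, true, false, 778641⟩])) (.node true 128 2880 (.node false 240 2640 (.node false 360 2880 (.leaf [⟨2880, false, true, 6119374⟩, ⟨2880, false, false, 4943959⟩, ⟨5632, true, false, 3997035⟩, ⟨5584, true, false, 282247⟩, ⟨5496, false, false, 1434601⟩]) (.leaf [⟨2880, false, true, 5976538⟩, ⟨2880, false, false, 5201579⟩, ⟨0, false, false, 4567348⟩, ⟨5632, true, false, 1031751⟩])) (.leaf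 [⟨2880, false, true, 5976538⟩, ⟨2880, false, false, 5201579⟩, ⟨0, false, false, 4567348⟩, ⟨5632, true, false, 1031751⟩])) (.node true 64 2880 (.node false 240 2640 (.node false 360 2880 (.leaf [⟨2880, false, true, 5977048⟩, ⟨5696, true, false, 4921414⟩, ⟨2880, false, false, 4724263⟩, ⟨5632, true, false, 709298⟩, ⟨5496, false, false, 445193⟩]) (.leaf [⟨2880, false, true, 5936055⟩, ⟨2880, false, false, 5245778⟩, ⟨0, false, false, 3761909⟩, ⟨5696, true, false, 1833474⟩])) (.node false 8 2640 (.node false 48 2880 (.leaf [⟨2880, false, true, 5860523⟩, ⟨2880, false, false, 5316880⟩, ⟨5712, false, false, 2373967⟩, ⟨5696, true, false, 3225846⟩]) (.leaf [⟨2880, false, true, 5386173⟩, ⟨2880, false, false, 5386174⟩, ⟨0, false, false, 5386174⟩, ⟨5712, false, false, 618695⟩])) (.leaf [⟨2880, false, false, 5394598⟩, ⟨2880, false, true, 5394598⟩, ⟨0, false, false, 5394598⟩, ⟨5752, false, false, 593423⟩]))) (.leaf [⟨0, true, false, 4513688⟩, ⟨2880, true, false, 4513688⟩, ⟨2880, true,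 true, 4513688⟩, ⟨5696, true, false, 1797557⟩, ⟨2720, false, false, 1438595⟩])))) (.node true 8 2880 (.node true 48 2880 (.node false 240 2640 (.node false 360 2880 (.leaf [⟨2880, false, true, 5966159⟩, ⟨5712, true, false, 5176119⟩, ⟨2880, false, false, 4712524⟩, ⟨5640, true, false, 745332⟩, ⟨5496, false, false, 177083⟩]) (.leaf [⟨2880, false, true, 5739098⟩, ⟨0, true, false, 4551506⟩, ⟨5712, true, false, 1041851⟩, ⟨2880, false, false, 5444761⟩])) (.leaf [⟨2880, false, true, 5739098⟩, ⟨0, true, false, 4551506⟩, ⟨5712, true, false, 1041851⟩, ⟨2880, false, false, 5444761⟩])) (.node true 16 2880 (.leaf [⟨2880, true, false, 5507141⟩, ⟨5744, true, false, 5242465⟩, ⟨2880, true, true, 3654213⟩, ⟨5712, true, false, 2373397⟩]) (.leaf [⟨2880, true, false, 5456283⟩, ⟨5752, true, false, 5324376⟩, ⟨2880, true, true, 3356756⟩, ⟨5744, true, false, 2639801⟩]))) (.leaf [⟨0, true, false, 5388654⟩, ⟨2880, true, false, 5388654⟩, ⟨2880, true, true, 3146024⟩, ⟨5752, true, false, 2853885⟩])))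 (by decide +kernel)
theorem yo90 : (bN 656 684 656 8979313075).Ok := ok1 (.node true 120 2704 (.node true 180 2880 (.node false 240 2640 (.node false 120 2688 (.node false 360 2788 (.node false 24 2880 (.node false 36 2880 (.node false 40 2876 (.node false 44 2880 (.node false 60 2876 (.node false 68 2880 (.node false 420 2792 (.node false 72 2876 (.node false 92 2880 (.node false 104 2880 (.node false 108 2880 (.node false 112 2880 (.node false 128 2880 (.node false 452 2796 (.node false 136 2880 (.leaf [⟨2880, false, true, 6335621⟩, ⟨2880, false, false, 3830549⟩, ⟨5580, true, false, 3531547⟩, ⟨5624, false, false, 1662869⟩, ⟨2964, false, false, 901459⟩, ⟨2676, true, false, 515169⟩]) (.leaf [⟨2880, true, false, 5344355⟩, ⟨2880, true, true, 5790570⟩, ⟨5632, false, false, 3541854⟩, ⟨5580, true, false, 2100437⟩])) (.leaf [⟨2880, false, true, 5830720⟩, ⟨2880, false, false, 5300733⟩, ⟨5632, false, false, 2999609⟩, ⟨5580, true, false, 2646154⟩])) (.leaf [⟨2880, true, false,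 5356115⟩, ⟨2880, true, true, 5785683⟩, ⟨5648, false, false, 3721157⟩, ⟨5580, true, false, 1914260⟩])) (.leaf [⟨2880, true, false, 5359186⟩, ⟨2880, true, true, 5784321⟩, ⟨5652, false, false, 3769000⟩, ⟨5580, true, false, 1864708⟩])) (.leaf [⟨2880, true, false, 5362315⟩, ⟨2880, true, true, 5782899⟩, ⟨5656, false, false, 3818147⟩, ⟨5580, true, false, 1813856⟩])) (.leaf [⟨2880, true, false, 5372065⟩, ⟨2880, true, true, 5778242⟩, ⟨5668, false, false, 3973951⟩, ⟨5580, true, false, 1652959⟩])) (.leaf [⟨2880, true, false, 5393462⟩, ⟨2880, true, true, 5766915⟩, ⟨5692, false, false, 4328919⟩, ⟨5580, true, false, 1287921⟩])) (.leaf [⟨2880, false, true, 3753518⟩, ⟨2880, false, false, 6007368⟩, ⟨5692, false, false, 4893900⟩, ⟨5688, false, false, 2122430⟩])) (.leaf [⟨2880, false, true, 5873318⟩, ⟨2880, false, false, 5279678⟩, ⟨5692, false, false, 3665163⟩, ⟨5580, true, false, 1959056⟩])) (.leaf [⟨2880, false, true, 4341019⟩, ⟨2880, false, false, 5794351⟩, ⟨5716, false, false, 5073527⟩,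 ⟨5692, false, false, 1568320⟩])) (.leaf [⟨2880, false, false, 5798533⟩, ⟨2880, false, true, 4346477⟩, ⟨5716, false, false, 5078353⟩, ⟨5700, false, false, 1553853⟩])) (.leaf [⟨2880, false, false, 5734257⟩, ⟨5716, false, false, 1348411⟩, ⟨2880, false, true, 4548968⟩, ⟨5724, false, false, 5145580⟩])) (.leaf [⟨5720, false, false, 1342493⟩, ⟨2880, false, false, 5736005⟩, ⟨2880, false, true, 4551165⟩, ⟨5724, false, false, 5147553⟩])) (.leaf [⟨5724, false, false, 1071189⟩, ⟨2880, false, false, 5629273⟩, ⟨5736, false, false, 5236538⟩, ⟨2880, false, true, 4840215⟩])) (.leaf [⟨5736, false, false, 527973⟩, ⟨2880, false, true, 5416414⟩, ⟨2880, false, false, 5416414⟩, ⟨0, false, false, 5416414⟩])) (.leaf [⟨2880, false, true, 5943643⟩, ⟨2880, false, false, 5232479⟩, ⟨0, false, false, 4922834⟩, ⟨5580, true, false, 678260⟩])) (.leaf [⟨2880, false, true, 5943643⟩, ⟨2880, false, false, 5232479⟩, ⟨0, false, false, 4922834⟩, ⟨5580, true, false, 678260⟩])) (.leaf [⟨2880, false, true,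 5943643⟩, ⟨2880, false, false, 5232479⟩, ⟨0, false, false, 4922834⟩, ⟨5580, true, false, 678260⟩])) (.node true 124 2880 (.node false 240 2640 (.node false 360 2880 (.leaf [⟨2880, false, true, 5991954⟩, ⟨2880, false, false, 4634168⟩, ⟨5636, true, false, 3474048⟩, ⟨5580, true, false, 792252⟩, ⟨5648, false, false, 1884794⟩]) (.leaf [⟨2880, false, true, 5932630⟩, ⟨2880, false, false, 5246415⟩, ⟨0, false, false, 4651359⟩, ⟨5636, true, false, 946812⟩])) (.leaf [⟨2880, false, true, 5932630⟩, ⟨2880, false, false, 5246415⟩, ⟨0, false, false, 4651359⟩, ⟨5636, true, false, 946812⟩])) (.node true 60 2880 (.leaf [⟨2880, false, true, 5970693⟩, ⟨2880, false, false, 4648484⟩, ⟨5700, true, false, 3549295⟩, ⟨0, true, false, 1767893⟩, ⟨5636, true, false, 840851⟩]) (.leaf [⟨0, true, false, 4515453⟩, ⟨2880, true, true, 4515453⟩, ⟨2880, true, false, 4515453⟩, ⟨5700, true, false, 1739298⟩, ⟨2704, false, false, 1491558⟩])))) (.node true 4 2880 (.node true 40 2880 (.leaf [⟨2880, false, true,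 5971957⟩, ⟨5720, true, false, 5316818⟩, ⟨2880, false, false, 4643272⟩, ⟨5640, true, false, 845168⟩]) (.node true 8 2880 (.node true 12 2840 (.node true 16 2880 (.leaf [⟨2880, true, false, 5536687⟩, ⟨5744, true, false, 5273416⟩, ⟨2880, true, true, 3551224⟩, ⟨5720, true, false, 2415888⟩]) (.leaf [⟨2880, true, false, 5480274⟩, ⟨5752, true, false, 5348917⟩, ⟨2880, true, true, 3282175⟩, ⟨5744, true, false, 2665850⟩])) (.leaf [⟨2880, true, false, 5483689⟩, ⟨5752, true, false, 5352428⟩, ⟨2880, true, true, 3264258⟩, ⟨5748, true, false, 2676841⟩])) (.leaf [⟨2880, true, false, 5450069⟩, ⟨5756, true, false, 5384430⟩, ⟨2880, true, true, 3158261⟩, ⟨5752, true, false, 2784456⟩]))) (.leaf [⟨0, true, false, 5416821⟩, ⟨2880, true, false, 5416821⟩, ⟨2880, true, true, 3050413⟩, ⟨5756, true, false, 2893161⟩]))) (by decide +kernel)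
theorem yo169 : (bN 644 704 644 8937795105).Ok := ok1 (.node true 92 2716 (.node true 136 2880 (.node false 240 2640 (.node false 120 2684 (.node false 120 2796 (.node false 180 2836 (.node false 360 2700 (.node false 272 2776 (.node false 316 2780 (.node false 340 2792 (.node false 260 2848 (.leaf [⟨2880, false, true, 6213797⟩, ⟨5624, true, false, 3436433⟩, ⟨2880, false, false, 2712892⟩, ⟨2912, false, false, 2344349⟩, ⟨0, false, false, 1064658⟩, ⟨5500, false, false, 1005088⟩]) (.leaf [⟨2880, false, true, 6250338⟩, ⟨2880, false, false, 4922305⟩, ⟨5624, true, false, 1661543⟩, ⟨0, false, false, 3943029⟩])) (.leaf [⟨2880, false, true, 6250338⟩, ⟨2880, false, false, 4922305⟩, ⟨5624, true, false, 1661543⟩, ⟨0, false, false, 3943029⟩])) (.leaf [⟨2880, false, true, 6250338⟩, ⟨2880, false, false, 4922305⟩, ⟨5624, true, false, 1661543⟩, ⟨0, false, false, 3943029⟩])) (.leaf [⟨2880, false, true, 6250338⟩, ⟨2880, false, false, 4922305⟩, ⟨5624, true, false, 1661543⟩, ⟨0, false,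 false, 3943029⟩])) (.leaf [⟨2880, false, true, 6250338⟩, ⟨2880, false, false, 4922305⟩, ⟨5624, true, false, 1661543⟩, ⟨0, false, false, 3943029⟩])) (.node false 132 2880 (.leaf [⟨2880, false, false, 5568988⟩, ⟨5628, false, false, 2853628⟩, ⟨2880, true, false, 5575786⟩, ⟨5624, true, false, 2778814⟩]) (.node false 124 2880 (.leaf [⟨2880, false, false, 5563127⟩, ⟨2880, true, false, 5584070⟩, ⟨5636, false, false, 2930328⟩, ⟨5624, true, false, 2699690⟩]) (.node true 160 2880 (.leaf [⟨2880, false, true, 6269333⟩, ⟨2880, false, false, 4900716⟩, ⟨0, false, false, 4149593⟩, ⟨5600, true, false, 1457575⟩]) (.leaf [⟨2880, false, true, 6250338⟩, ⟨2880, false, false, 4922305⟩, ⟨0, false, false, 3943030⟩, ⟨5624, true, false, 1661543⟩]))))) (.leaf [⟨2880, false, true, 6250338⟩, ⟨2880, false, false, 4922306⟩, ⟨0, false, false, 3943029⟩, ⟨5624, true, false, 1661543⟩])) (.leaf [⟨2880, false, true, 6250338⟩, ⟨2880, false, false, 4922305⟩, ⟨0, false, false, 3943029⟩, ⟨5624, true, false,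 1661543⟩])) (.node false 4 2640 (.node false 40 2880 (.leaf [⟨2880, false, true, 6171992⟩, ⟨2880, false, false, 4993079⟩, ⟨5720, false, false, 3193218⟩, ⟨5624, true, false, 2418927⟩]) (.leaf [⟨2880, false, true, 5209381⟩, ⟨2880, false, false, 5209381⟩, ⟨0, false, false, 5209381⟩, ⟨5720, false, false, 1149074⟩])) (.leaf [⟨2880, false, false, 5223339⟩, ⟨0, false, false, 5223339⟩, ⟨2880, false, true, 5223339⟩, ⟨5756, false, false, 1107200⟩]))) (.node true 96 2880 (.node false 240 2640 (.node false 360 2880 (.leaf [⟨2880, false, true, 6147076⟩, ⟨2880, false, false, 5087570⟩, ⟨5664, true, false, 4473898⟩, ⟨5480, false, false, 1068672⟩]) (.node false 4 2880 (.node true 100 2880 (.node true 104 2880 (.node true 120 2880 (.leaf [⟨2880, false, true, 6224398⟩, ⟨2880, false, false, 4949385⟩, ⟨5756, false, false, 3674007⟩, ⟨5640, true, false, 1929426⟩]) (.leaf [⟨5756, false, false, 3455622⟩, ⟨2880, false, false, 4971765⟩, ⟨2880, false, true, 6203828⟩, ⟨5656, true, false, 2146002⟩]))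 (.leaf [⟨2880, true, false, 5146200⟩, ⟨2880, true, true, 5279298⟩, ⟨5656, true, false, 1138919⟩, ⟨4, true, false, 5212799⟩])) (.leaf [⟨2880, true, false, 5148064⟩, ⟨2880, true, true, 5281122⟩, ⟨4, true, false, 5214643⟩, ⟨5660, true, false, 1133387⟩])) (.leaf [⟨0, false, false, 5223339⟩, ⟨2880, false, true, 5223334⟩, ⟨2880, false, false, 5223339⟩, ⟨5756, false, false, 1107205⟩]))) (.node false 4 2640 (.node false 40 2880 (.leaf [⟨2880, false, true, 6119554⟩, ⟨2880, false, false, 5052699⟩, ⟨5720, false, false, 2621912⟩, ⟨5664, true, false, 2983051⟩]) (.leaf [⟨2880, false, false, 5209381⟩, ⟨2880, false, true, 5209381⟩, ⟨0, false, false, 5209381⟩, ⟨5720, false, false, 1149074⟩])) (.leaf [⟨2880, false, false, 5223339⟩, ⟨2880, false, true, 5223336⟩, ⟨0, false, false, 5223339⟩, ⟨5756, false, false, 1107202⟩]))) (.node true 48 2880 (.leaf [⟨2880, true, false, 5527561⟩, ⟨5712, true, false, 4977844⟩, ⟨2880, true, true, 4168749⟩, ⟨5664, true, false, 2103061⟩]) (.leaf [⟨0, true,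 false, 4428263⟩, ⟨2880, true, true, 4428263⟩, ⟨2880, true, false, 4428263⟩, ⟨5712, true, false, 2142406⟩, ⟨2716, false, false, 1350021⟩])))) (.node true 4 2796 (.node true 40 2880 (.leaf [⟨5720, true, false, 4943699⟩, ⟨2880, true, false, 5536756⟩, ⟨2880, true, true, 4280448⟩, ⟨5668, true, false, 2016314⟩]) (.node true 8 2880 (.leaf [⟨5752, true, false, 5089691⟩, ⟨2880, true, false, 5347309⟩, ⟨2880, true, true, 3660763⟩, ⟨5720, true, false, 2679453⟩]) (.leaf [⟨0, true, false, 5195345⟩, ⟨2880, true, false, 5270231⟩, ⟨5752, true, false, 3030634⟩, ⟨2880, true, true, 3281006⟩]))) (.leaf [⟨0, true, false, 5217718⟩, ⟨2880, true, false, 5254833⟩, ⟨5756, true, false, 3089977⟩, ⟨2880, true, true, 3214688⟩]))) (by decide +kernel)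
theorem yo124 : (bN 628 724 628 8952413618).Ok := ok1 (.node true 76 2724 (.node true 116 2880 (.node false 240 2640 (.node false 4 2880 (.node false 40 2880 (.leaf [⟨2880, false, true, 6398327⟩, ⟨2880, false, false, 4767803⟩, ⟨5644, true, false, 3220058⟩, ⟨5720, false, false, 2391028⟩]) (.leaf [⟨2880, false, false, 4991133⟩, ⟨5756, false, false, 4924477⟩, ⟨2880, false, true, 4857728⟩, ⟨5684, false, false, 2003878⟩])) (.leaf [⟨2880, false, true, 5002808⟩, ⟨2880, false, false, 5002808⟩, ⟨0, false, false, 5002808⟩, ⟨5756, false, false, 1768791⟩])) (.node false 4 2880 (.node false 40 2880 (.leaf [⟨2880, false, true, 6398327⟩, ⟨2880, false, false, 4767803⟩, ⟨5720, false, false, 2391028⟩, ⟨5644, true, false, 3220058⟩]) (.leaf [⟨2880, false, false, 4991133⟩, ⟨5756, false, false, 4924477⟩, ⟨2880, false, true, 4857728⟩, ⟨5684, false, false, 2003878⟩])) (.leaf [⟨2880, false, false, 5002809⟩, ⟨0, false, false, 5002808⟩, ⟨2880, false, true, 5002808⟩, ⟨5756, false, false, 1768791⟩])))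 (.node true 80 2880 (.node false 240 2640 (.node false 360 2880 (.leaf [⟨2880, false, true, 6086021⟩, ⟨2880, false, false, 5009436⟩, ⟨5680, true, false, 4677444⟩, ⟨5540, false, false, 1004315⟩]) (.node false 4 2880 (.node true 84 2880 (.node true 88 2880 (.node true 100 2880 (.node true 108 2880 (.node true 112 2880 (.node false 40 2880 (.leaf [⟨2880, true, false, 5387692⟩, ⟨2880, true, true, 4494313⟩, ⟨5732, false, false, 3017332⟩, ⟨5648, true, false, 1939535⟩, ⟨5644, true, false, 1938344⟩]) (.leaf [⟨2880, false, false, 5017071⟩, ⟨5756, false, false, 4950716⟩, ⟨2880, false, true, 4884266⟩, ⟨5720, false, false, 1925162⟩])) (.node false 40 2880 (.leaf [⟨2880, true, false, 5418950⟩, ⟨2880, true, true, 4365229⟩, ⟨5736, false, false, 2842352⟩, ⟨5648, true, false, 2085658⟩, ⟨5652, true, false, 2065026⟩]) (.leaf [⟨5720, false, false, 1925162⟩, ⟨2880, false, false, 5017071⟩, ⟨5756, false, false, 4950716⟩, ⟨2880, false, true, 4884266⟩]))) (.leaf [⟨2880, true, false, 5492150⟩,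 ⟨2880, true, true, 4166729⟩, ⟨5756, false, false, 2811978⟩, ⟨5652, true, false, 2276808⟩, ⟨5660, true, false, 2029552⟩])) (.leaf [⟨2880, true, false, 5474455⟩, ⟨2880, true, true, 4182539⟩, ⟨5756, false, false, 2597017⟩, ⟨5660, true, false, 2281379⟩, ⟨5672, true, false, 2241826⟩])) (.leaf [⟨2880, true, false, 5479008⟩, ⟨2880, true, true, 4173621⟩, ⟨5756, false, false, 2468575⟩, ⟨5676, true, false, 2367695⟩, ⟨5672, true, false, 2288316⟩])) (.leaf [⟨2880, true, false, 5472356⟩, ⟨2880, true, true, 4179097⟩, ⟨5680, true, false, 2459930⟩, ⟨5756, false, false, 2375180⟩, ⟨5676, true, false, 2290653⟩])) (.leaf [⟨5756, false, false, 1768791⟩, ⟨2880, false, false, 5002808⟩, ⟨2880, false, true, 5002808⟩, ⟨0, false, false, 5002808⟩]))) (.node false 4 2520 (.node false 40 2880 (.leaf [⟨2880, true, false, 5269601⟩, ⟨2880, true, true, 4734466⟩, ⟨5720, false, false, 2671881⟩, ⟨5680, true, false, 2341606⟩, ⟨5644, true, false, 1759662⟩]) (.leaf [⟨2880, false, true, 4955567⟩, ⟨2880,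 false, false, 4955567⟩, ⟨0, false, false, 4955567⟩, ⟨5684, false, false, 1910514⟩])) (.leaf [⟨5756, false, false, 1768791⟩, ⟨2880, false, false, 5002808⟩, ⟨0, false, false, 5002808⟩, ⟨2880, false, true, 5002808⟩]))) (.node true 40 2880 (.leaf [⟨5720, true, false, 5139557⟩, ⟨2880, true, false, 5573510⟩, ⟨2880, false, false, 4469361⟩, ⟨5680, true, false, 1594788⟩]) (.leaf [⟨0, true, false, 4327100⟩, ⟨2880, true, true, 4327100⟩, ⟨2880, true, false, 4327100⟩, ⟨5684, true, false, 2671536⟩, ⟨2724, false, false, 1124380⟩])))) (.node true 4 2724 (.node true 40 2880 (.leaf [⟨5720, true, false, 5138031⟩, ⟨2880, true, false, 5577484⟩, ⟨2880, false, false, 4468087⟩, ⟨5684, true, false, 1593614⟩]) (.node true 8 2880 (.node true 12 2880 (.leaf [⟨5748, true, false, 5220208⟩, ⟨2880, true, false, 5354483⟩, ⟨2880, false, false, 4098659⟩, ⟨5720, true, false, 2103866⟩]) (.leaf [⟨5752, true, false, 5029262⟩, ⟨2880, true, false, 5110356⟩, ⟨5748, true, false, 3162032⟩, ⟨2880, true, true,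 3475567⟩])) (.leaf [⟨0, true, false, 5028869⟩, ⟨2880, true, false, 5101958⟩, ⟨5752, true, false, 3207834⟩, ⟨2880, true, true, 3438555⟩]))) (.leaf [⟨0, true, false, 5051039⟩, ⟨2880, true, false, 5087025⟩, ⟨5756, true, false, 3262384⟩, ⟨2880, true, true, 3376768⟩]))) (by decide +kernel)
theorem yo164 : (bN 568 820 568 8950666402).Ok := ok1 (.node true 4 2640 (.node false 48 2836 (.node false 72 2880 (.node true 48 2880 (.node true 72 2608 (.node true 84 2880 (.node true 88 2632 (.node true 92 2880 (.node true 116 2392 (.node true 128 2640 (.leaf [⟨2880, false, true, 2209302⟩, ⟨5668, true, false, 3676040⟩, ⟨2880, false, false, 5103980⟩, ⟨2880, true, false, 3775855⟩, ⟨5688, false, false, 2012039⟩]) (.node true 120 2640 (.leaf [⟨2880, false, true, 2209302⟩, ⟨5668, true, false, 3676040⟩, ⟨2880, false, false, 5103980⟩, ⟨2880, true, false, 3775855⟩, ⟨5688, false, false, 2012039⟩]) (.leaf [⟨5668, true, false, 3676040⟩, ⟨2880, false, false, 5103979⟩, ⟨2880, false, true, 2209302⟩,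 ⟨2880, true, false, 3775855⟩, ⟨5688, false, false, 2012039⟩]))) (.leaf [⟨5668, true, false, 3676040⟩, ⟨2880, false, false, 5103980⟩, ⟨2880, true, false, 3775855⟩, ⟨2880, false, true, 2209302⟩, ⟨5688, false, false, 2012039⟩])) (.leaf [⟨2880, true, true, 4799860⟩, ⟨5676, true, false, 3676873⟩, ⟨2880, false, true, 5525254⟩, ⟨5668, true, false, 1061742⟩, ⟨5688, false, false, 1713488⟩])) (.leaf [⟨5676, true, false, 3677240⟩, ⟨2880, true, true, 4797922⟩, ⟨2880, false, true, 5528935⟩, ⟨5672, true, false, 1061412⟩, ⟨5688, false, false, 1711707⟩])) (.node true 76 2880 (.leaf [⟨5684, true, false, 3785396⟩, ⟨2880, true, true, 4809011⟩, ⟨2880, false, true, 5480580⟩, ⟨5676, true, false, 1123318⟩, ⟨5688, false, false, 1578911⟩]) (.leaf [⟨5712, true, false, 4279822⟩, ⟨2880, true, false, 5138641⟩, ⟨2880, false, false, 4769372⟩, ⟨5684, true, false, 1651448⟩, ⟨5688, false, false, 937933⟩]))) (.leaf [⟨5712, true, false, 4262723⟩, ⟨2880, true, true, 4857940⟩, ⟨5688, true, false, 1370547⟩,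 ⟨2880, false, true, 5268563⟩, ⟨5688, false, false, 1017443⟩])) (.node true 8 2880 (.node true 12 2596 (.node true 16 2880 (.node true 32 2600 (.node true 40 2880 (.leaf [⟨5720, true, false, 4920882⟩, ⟨2880, true, true, 4249131⟩, ⟨2880, true, false, 2362671⟩, ⟨5712, true, false, 3263376⟩, ⟨2880, false, true, 1981156⟩]) (.node true 36 2880 (.leaf [⟨5724, true, false, 4536830⟩, ⟨2880, true, false, 4169393⟩, ⟨2880, true, true, 3985189⟩, ⟨5720, true, false, 4085804⟩]) (.node true 24 2880 (.leaf [⟨5736, true, false, 5088047⟩, ⟨2880, true, true, 4687051⟩, ⟨2880, true, false, 857611⟩, ⟨5724, true, false, 2293144⟩, ⟨2880, false, true, 3851363⟩]) (.leaf [⟨5736, true, false, 4666687⟩, ⟨5744, true, false, 4031318⟩, ⟨2880, true, false, 4294918⟩, ⟨2880, true, true, 3784294⟩])))) (.node true 20 2600 (.leaf [⟨5744, true, false, 5134467⟩, ⟨2880, true, true, 4613497⟩, ⟨2880, true, false, 735282⟩, ⟨5728, true, false, 2366020⟩, ⟨2880, false, true, 3927950⟩]) (.leaf [⟨5744, true, false,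 5191628⟩, ⟨2880, true, false, 4921806⟩, ⟨5740, true, false, 1752330⟩, ⟨2880, false, false, 4911452⟩]))) (.leaf [⟨5752, true, false, 5161812⟩, ⟨2880, true, false, 4494573⟩, ⟨5744, true, false, 2806176⟩, ⟨2880, false, false, 3471451⟩, ⟨2880, true, true, 843203⟩])) (.leaf [⟨5752, true, false, 4341420⟩, ⟨2880, true, false, 4362846⟩, ⟨5748, true, false, 3954070⟩, ⟨2880, true, true, 4118880⟩])) (.node true 4 2880 (.leaf [⟨5756, true, false, 4339934⟩, ⟨2880, true, false, 4363992⟩, ⟨5752, true, false, 3976217⟩, ⟨2880, true, true, 4097073⟩]) (.leaf [⟨5756, true, false, 4516241⟩, ⟨0, true, false, 3905126⟩, ⟨2880, true, false, 4450709⟩, ⟨2880, true, true, 3905140⟩])))) (.leaf [⟨2880, false, false, 4912410⟩, ⟨2880, false, true, 4912410⟩, ⟨5688, false, false, 2039986⟩, ⟨0, true, false, 4912410⟩])) (.leaf [⟨2880, false, false, 3741170⟩, ⟨2880, false, true, 4541929⟩, ⟨5712, false, false, 3952187⟩, ⟨0, false, false, 4541930⟩])) (.leaf [⟨2880, true, true, 4075169⟩, ⟨0, true, false,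 4338530⟩, ⟨5756, true, false, 3998335⟩, ⟨2880, true, false, 4365182⟩])) (by decide +kernel)
theorem yo162 : (bN 568 812 568 8986366458).Ok := ok1 (.node true 4 2400 (.node true 40 2836 (.node true 56 2880 (.node false 48 2836 (.node false 72 2880 (.node true 64 2616 (.node true 68 2880 (.node true 72 2628 (.node true 80 2880 (.leaf [⟨2880, false, true, 5963626⟩, ⟨5680, true, false, 3934984⟩, ⟨2880, false, false, 1578827⟩, ⟨2880, true, true, 3546426⟩, ⟨5688, false, false, 1753353⟩]) (.leaf [⟨5692, true, false, 4067287⟩, ⟨2880, true, false, 5225715⟩, ⟨5680, true, false, 1663202⟩, ⟨2880, false, false, 4636123⟩, ⟨5688, false, false, 1184889⟩])) (.leaf [⟨5692, true, false, 4054527⟩, ⟨2880, true, true, 4773570⟩, ⟨5688, true, false, 1233891⟩, ⟨2880, false, true, 5419474⟩, ⟨5688, false, false, 1295754⟩])) (.leaf [⟨5704, true, false, 4883572⟩, ⟨2880, true, false, 3345314⟩, ⟨2880, true, true, 3942786⟩, ⟨5692, true, false, 3801387⟩, ⟨2880, false, true, 804157⟩])) (.leaf [⟨5704,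 true, false, 4739539⟩, ⟨2880, true, false, 4077407⟩, ⟨2880, true, true, 3829829⟩, ⟨5696, true, false, 4130440⟩])) (.leaf [⟨2880, false, true, 4599458⟩, ⟨2880, false, false, 3737517⟩, ⟨5688, false, false, 3840784⟩, ⟨0, false, false, 4599458⟩])) (.leaf [⟨2880, false, true, 4575795⟩, ⟨2880, false, false, 3797285⟩, ⟨5712, false, false, 3828341⟩, ⟨0, false, false, 4575795⟩])) (.node true 44 2880 (.leaf [⟨5716, true, false, 4986937⟩, ⟨2880, true, false, 2271609⟩, ⟨2880, true, true, 4251649⟩, ⟨5704, true, false, 3118619⟩, ⟨2880, false, true, 2148402⟩]) (.node true 20 2880 (.leaf [⟨5740, true, false, 4782694⟩, ⟨2880, true, true, 4882323⟩, ⟨2880, false, true, 4945630⟩, ⟨5716, true, false, 1705832⟩, ⟨5720, true, false, 460737⟩]) (.leaf [⟨5740, true, false, 5356938⟩, ⟨0, false, false, 4903651⟩, ⟨2880, true, false, 5026408⟩, ⟨2880, true, true, 1490219⟩])))) (.node true 8 2836 (.node true 12 2880 (.node true 16 2600 (.node true 28 2880 (.leaf [⟨5732, true, false, 5265951⟩, ⟨2880,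 true, true, 4801202⟩, ⟨2880, false, true, 4982124⟩, ⟨5720, true, false, 1727939⟩]) (.node true 20 2880 (.leaf [⟨5740, true, false, 5249278⟩, ⟨2880, true, true, 4836335⟩, ⟨5732, true, false, 1745875⟩, ⟨2880, false, true, 4945728⟩]) (.leaf [⟨5748, true, false, 5281416⟩, ⟨5740, true, false, 1914421⟩, ⟨2880, true, true, 4712221⟩, ⟨2880, false, true, 4869158⟩]))) (.leaf [⟨5748, true, false, 5281250⟩, ⟨2880, true, true, 4706143⟩, ⟨5744, true, false, 1915423⟩, ⟨2880, false, true, 4874400⟩])) (.node true 4 2880 (.node true 8 2880 (.leaf [⟨5752, true, false, 5298002⟩, ⟨2880, true, true, 4642729⟩, ⟨2880, false, true, 4836676⟩, ⟨5748, true, false, 1999809⟩]) (.leaf [⟨5720, true, false, 3896139⟩, ⟨5752, true, false, 4012862⟩, ⟨2836, false, false, 2972487⟩, ⟨2880, true, false, 3878972⟩, ⟨5756, true, false, 2016755⟩])) (.leaf [⟨5720, true, false, 3891331⟩, ⟨2836, false, false, 2954493⟩, ⟨5756, true, false, 3989169⟩, ⟨2880, true, false, 3922197⟩, ⟨0, true, false, 2020026⟩]))) (.node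 true 4 2836 (.node true 4 2880 (.leaf [⟨5756, true, false, 5300075⟩, ⟨2880, true, false, 4717080⟩, ⟨2880, false, false, 4462084⟩, ⟨5752, true, false, 2297977⟩]) (.leaf [⟨5752, true, false, 3729047⟩, ⟨2836, false, false, 3142576⟩, ⟨5756, true, false, 4019355⟩, ⟨0, true, false, 1933455⟩, ⟨2880, true, false, 3952783⟩])) (.leaf [⟨5756, true, false, 4568923⟩, ⟨0, true, false, 3916947⟩, ⟨2880, true, true, 3788424⟩, ⟨2880, true, false, 4502922⟩])))) (.leaf [⟨0, true, false, 4395918⟩, ⟨5756, true, false, 3940412⟩, ⟨2880, true, false, 4423116⟩, ⟨2880, true, true, 4017770⟩])) (by decide +kernel)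
theorem yo182 : (bN 504 944 504 9010099070).Ok := ok1 (.node true 16 2624 (.node true 24 2880 (.node true 56 2632 (.node true 72 2880 (.node false 16 2864 (.node false 24 2880 (.leaf [⟨5688, true, false, 4051067⟩, ⟨2880, false, true, 1656652⟩, ⟨2880, false, false, 5124203⟩, ⟨2880, true, false, 4132694⟩, ⟨5744, false, false, 1812599⟩]) (.leaf [⟨2880, false, true, 5786946⟩, ⟨2864, true, false, 4988098⟩, ⟨5744, false, false, 2426381⟩, ⟨5688, true, false, 3229730⟩, ⟨2880, false, false, 346062⟩])) (.leaf [⟨2880, true, false, 5957129⟩, ⟨0, false, false, 3702933⟩, ⟨2880, false, false, 5207273⟩, ⟨5688, true, false, 1909882⟩])) (.node true 64 2880 (.leaf [⟨5696, true, false, 5414577⟩, ⟨5688, true, false, 3617423⟩, ⟨2880, true, true, 1416418⟩, ⟨2880, true, false, 3391690⟩, ⟨2880, false, false, 2937109⟩]) (.node false 496 2864 (.leaf [⟨5736, true, false, 4970317⟩, ⟨2880, false, false, 4608132⟩, ⟨2880, true, false, 4448285⟩, ⟨5696, true, false, 1629341⟩, ⟨2864, true, false, 1121141⟩])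 (.leaf [⟨5696, true, false, 3968409⟩, ⟨2880, true, true, 4292234⟩, ⟨2880, true, false, 4224338⟩, ⟨0, false, false, 4292234⟩])))) (.node true 32 2632 (.node true 40 2880 (.leaf [⟨5720, true, false, 5380675⟩, ⟨2880, true, true, 4727369⟩, ⟨5704, true, false, 2968992⟩, ⟨2880, false, true, 3700180⟩]) (.leaf [⟨5720, true, false, 3393465⟩, ⟨2880, true, false, 3573640⟩, ⟨2880, true, true, 1684037⟩, ⟨5736, true, false, 3041448⟩, ⟨2880, false, false, 3008911⟩, ⟨5728, true, false, 2075715⟩])) (.leaf [⟨5736, true, false, 5042784⟩, ⟨5728, true, false, 3504438⟩, ⟨2880, true, false, 3555470⟩, ⟨2880, true, true, 1844769⟩, ⟨2880, false, false, 2829755⟩]))) (.node false 496 2864 (.node true 8 2880 (.leaf [⟨5736, true, false, 3068385⟩, ⟨2880, true, true, 4466146⟩, ⟨5752, true, false, 4578009⟩, ⟨2880, true, false, 1107769⟩, ⟨2880, false, true, 2821356⟩, ⟨2864, true, false, 735551⟩]) (.leaf [⟨5744, true, false, 4458119⟩, ⟨0, true, false, 4195753⟩, ⟨2880, true, false, 4195753⟩, ⟨2880,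 false, false, 3927590⟩])) (.leaf [⟨5736, true, false, 3862821⟩, ⟨2880, true, true, 4304798⟩, ⟨2880, true, false, 4304799⟩, ⟨0, false, false, 4304799⟩]))) (.node true 8 2624 (.node false 496 2864 (.node false 256 2880 (.node false 384 2880 (.node false 448 2880 (.node false 480 2880 (.node true 8 2880 (.leaf [⟨5752, true, false, 4812750⟩, ⟨5744, true, false, 3719216⟩, ⟨2880, true, true, 2267603⟩, ⟨2880, true, false, 3549035⟩, ⟨2880, false, false, 2428611⟩]) (.leaf [⟨5752, true, false, 4354142⟩, ⟨0, true, false, 4222979⟩, ⟨2880, true, false, 4222979⟩, ⟨2880, false, false, 3977117⟩])) (.leaf [⟨2864, true, false, 6529474⟩, ⟨2880, true, true, 3856011⟩, ⟨2880, true, false, 2535721⟩, ⟨0, true, false, 3856011⟩])) (.leaf [⟨2864, true, false, 6529474⟩, ⟨2880, true, true, 3856011⟩, ⟨2880, true, false, 2535721⟩, ⟨0, true, false, 3856011⟩])) (.leaf [⟨2864, true, false, 6529474⟩, ⟨2880, true, false, 2535721⟩, ⟨0, true, false, 3856011⟩, ⟨2880, true, true, 3856011⟩])) (.leaf [⟨2864,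 true, false, 6529474⟩, ⟨0, true, false, 3856011⟩, ⟨2880, true, false, 2535721⟩, ⟨2880, true, true, 3856011⟩])) (.leaf [⟨5744, true, false, 3817607⟩, ⟨2880, true, true, 4319870⟩, ⟨2880, true, false, 4319870⟩, ⟨0, false, false, 4319870⟩])) (.leaf [⟨5752, true, false, 3817743⟩, ⟨2880, true, false, 4172420⟩, ⟨0, true, false, 3306801⟩, ⟨2880, true, true, 2511635⟩, ⟨2880, false, false, 1881885⟩, ⟨0, false, false, 1086732⟩]))) (by decide +kernel)
theorem yo159 : (bN 528 892 528 8991001853).Ok := ok1 (.node true 4 2616 (.node true 28 2880 (.node true 40 2616 (.node false 12 2856 (.node false 20 2880 (.node true 44 2880 (.node true 48 2636 (.node true 60 2880 (.node false 24 2880 (.node false 36 2880 (.node true 68 2396 (.node true 72 2644 (.node true 196 2880 (.leaf [⟨2880, false, true, 6189756⟩, ⟨5724, false, false, 3152272⟩, ⟨2880, true, true, 4678003⟩, ⟨5564, true, false, 2757185⟩]) (.node true 76 2880 (.node false 44 2880 (.leaf [⟨5684, true, false, 3857135⟩, ⟨2880, false,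 true, 5840596⟩, ⟨2880, false, false, 1002787⟩, ⟨2880, true, true, 4162530⟩, ⟨5716, false, false, 1914169⟩]) (.leaf [⟨2880, false, true, 5456722⟩, ⟨5716, false, false, 1915419⟩, ⟨2880, false, false, 4071149⟩, ⟨5684, true, false, 5333927⟩])) (.leaf [⟨2880, true, false, 4991737⟩, ⟨5684, true, false, 1656030⟩, ⟨5700, true, false, 3942127⟩, ⟨2880, false, false, 4774880⟩, ⟨5724, false, false, 1412442⟩]))) (.leaf [⟨5700, true, false, 5092708⟩, ⟨2880, true, false, 3442920⟩, ⟨5688, true, false, 4153371⟩, ⟨2880, false, false, 1673081⟩, ⟨2880, true, true, 2415137⟩])) (.leaf [⟨5700, true, false, 5016429⟩, ⟨2880, true, false, 3281564⟩, ⟨5692, true, false, 4467497⟩, ⟨2880, true, true, 2854958⟩, ⟨2880, false, false, 1156768⟩])) (.leaf [⟨2880, false, true, 5321350⟩, ⟨5724, false, false, 2103297⟩, ⟨2880, false, false, 4178584⟩, ⟨5700, true, false, 5173985⟩])) (.leaf [⟨2880, false, true, 5321908⟩, ⟨5736, false, false, 2078726⟩, ⟨2880, false, false, 4191127⟩, ⟨5700, true, false, 5185455⟩]))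 (.leaf [⟨5716, true, false, 5089468⟩, ⟨2880, true, false, 3609001⟩, ⟨5700, true, false, 3722941⟩, ⟨2880, true, true, 2114676⟩, ⟨2880, false, false, 2241130⟩])) (.leaf [⟨5716, true, false, 5084063⟩, ⟨2880, true, false, 3657954⟩, ⟨5712, true, false, 3683429⟩, ⟨2880, false, false, 2300805⟩, ⟨2880, true, true, 2050964⟩])) (.leaf [⟨5732, true, false, 5167267⟩, ⟨5716, true, false, 2953338⟩, ⟨2880, true, true, 1346632⟩, ⟨2880, true, false, 3954024⟩, ⟨2880, false, false, 3355955⟩])) (.leaf [⟨2880, false, true, 5045906⟩, ⟨5740, false, false, 2458990⟩, ⟨2880, false, false, 4404620⟩, ⟨5732, true, false, 4867699⟩])) (.leaf [⟨2880, false, true, 5046901⟩, ⟨5748, false, false, 2439969⟩, ⟨2880, false, false, 4413831⟩, ⟨5732, true, false, 4876515⟩])) (.leaf [⟨5732, true, false, 5298652⟩, ⟨2880, true, true, 4834628⟩, ⟨5720, true, false, 2395409⟩, ⟨2880, false, true, 4248527⟩])) (.node true 8 2880 (.node true 12 2616 (.node true 16 2880 (.leaf [⟨5744, true, false, 5242357⟩, ⟨2880, true,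 true, 795252⟩, ⟨5732, true, false, 2483151⟩, ⟨2880, true, false, 4162608⟩, ⟨2880, false, false, 4093848⟩]) (.leaf [⟨5752, true, false, 5228695⟩, ⟨5744, true, false, 2653597⟩, ⟨2880, true, true, 842023⟩, ⟨2880, true, false, 4105689⟩, ⟨2880, false, false, 3947212⟩])) (.leaf [⟨5752, true, false, 5350646⟩, ⟨5748, true, false, 1685878⟩, ⟨2880, true, false, 4522067⟩, ⟨2880, false, false, 5218625⟩])) (.node true 4 2880 (.leaf [⟨5756, true, false, 5259431⟩, ⟨2880, true, true, 4819743⟩, ⟨5752, true, false, 2541013⟩, ⟨2880, false, true, 4157029⟩]) (.leaf [⟨5756, true, false, 2930333⟩, ⟨0, true, false, 4615628⟩, ⟨2880, true, true, 4615627⟩, ⟨2880, false, true, 4615628⟩])))) (.leaf [⟨0, true, false, 5258643⟩, ⟨5756, true, false, 2576147⟩, ⟨2880, true, true, 4796219⟩, ⟨2880, false, true, 4146207⟩])) (by decide +kernel)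
theorem yo158 : (bN 512 924 512 9016273129).Ok := ok1 (.node true 4 2620 (.node true 20 2880 (.node true 28 2624 (.node true 32 2860 (.node true 36 2880 (.node false 4 2860 (.node false 8 2880 (.node true 56 2400 (.node true 64 2640 (.node false 24 2880 (.node true 68 2880 (.node false 32 2880 (.leaf [⟨2880, false, true, 5758292⟩, ⟨5692, true, false, 3978551⟩, ⟨2880, true, true, 4224168⟩, ⟨2880, false, false, 983251⟩, ⟨5728, false, false, 1832955⟩]) (.leaf [⟨2880, false, true, 5175528⟩, ⟨5728, false, false, 2515047⟩, ⟨2880, false, false, 3982319⟩, ⟨5692, true, false, 5104322⟩])) (.leaf [⟨5724, true, false, 3157580⟩, ⟨5692, true, false, 3429574⟩, ⟨2880, true, false, 564639⟩, ⟨2880, true, true, 4511433⟩, ⟨2880, false, true, 2975279⟩, ⟨5696, true, false, 2138712⟩])) (.leaf [⟨2880, false, true, 4906134⟩, ⟨5736, false, false, 2907696⟩, ⟨2880, false, false, 4185263⟩, ⟨5724, true, false, 4778122⟩])) (.leaf [⟨5728, true, false, 3867105⟩, ⟨2880, false, false, 3648605⟩, ⟨2880,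 true, false, 3776005⟩, ⟨5696, true, false, 2933277⟩, ⟨2880, true, true, 1065338⟩, ⟨5704, true, false, 1486886⟩])) (.leaf [⟨5724, true, false, 5369214⟩, ⟨2880, true, false, 3869891⟩, ⟨2880, false, false, 3879910⟩, ⟨5704, true, false, 2763712⟩, ⟨2880, true, true, 894490⟩])) (.leaf [⟨2880, false, true, 4908662⟩, ⟨5752, false, false, 2860881⟩, ⟨2880, false, false, 4207959⟩, ⟨5724, true, false, 4799714⟩])) (.leaf [⟨2880, false, true, 4909233⟩, ⟨5756, false, false, 2849532⟩, ⟨2880, false, false, 4213486⟩, ⟨5724, true, false, 4804965⟩])) (.leaf [⟨2880, true, true, 4890939⟩, ⟨5740, true, false, 3631208⟩, ⟨5724, true, false, 2633613⟩, ⟨2880, false, true, 3979219⟩, ⟨5728, true, false, 1642236⟩])) (.leaf [⟨2880, true, true, 4927005⟩, ⟨5740, true, false, 5246906⟩, ⟨5728, true, false, 2596914⟩, ⟨2880, false, true, 4006391⟩])) (.leaf [⟨5740, true, false, 5056750⟩, ⟨2880, true, true, 1623389⟩, ⟨2880, true, false, 3784691⟩, ⟨5732, true, false, 3189994⟩, ⟨2880, false, false, 3122392⟩]))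 (.node true 8 2880 (.node true 12 2416 (.node true 16 2880 (.leaf [⟨5744, true, false, 5215048⟩, ⟨2880, true, true, 4961270⟩, ⟨5740, true, false, 2545065⟩, ⟨2880, false, true, 4055832⟩]) (.leaf [⟨2880, true, true, 4718323⟩, ⟨5744, true, false, 3494023⟩, ⟨5752, true, false, 4836844⟩, ⟨2880, true, false, 1142950⟩, ⟨2880, false, true, 2585075⟩])) (.leaf [⟨5752, true, false, 4790439⟩, ⟨5748, true, false, 3617107⟩, ⟨2880, true, false, 3696690⟩, ⟨2880, true, true, 2273333⟩, ⟨2880, false, false, 2399648⟩])) (.node false 500 2640 (.node false 260 2880 (.node true 4 2880 (.leaf [⟨5756, true, false, 4712595⟩, ⟨5752, true, false, 3731188⟩, ⟨2880, true, true, 2452414⟩, ⟨2880, true, false, 3678501⟩, ⟨2880, false, false, 2202518⟩]) (.leaf [⟨5756, true, false, 4344797⟩, ⟨0, true, false, 4279175⟩, ⟨2880, true, false, 4279175⟩, ⟨2880, false, false, 3874070⟩])) (.leaf [⟨5752, true, false, 3458414⟩, ⟨2880, true, false, 4439601⟩, ⟨2880, true, true, 4439601⟩, ⟨0, false, false, 4439601⟩]))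 (.leaf [⟨5752, true, false, 3458414⟩, ⟨2880, true, false, 4439601⟩, ⟨2880, true, true, 4439601⟩, ⟨0, false, false, 4439601⟩])))) (.leaf [⟨5756, true, false, 4681494⟩, ⟨0, true, false, 1570535⟩, ⟨2880, true, false, 4630589⟩, ⟨2880, true, true, 3732567⟩, ⟨0, false, false, 2162032⟩])) (by decide +kernel)
theorem yo156 : (bN 536 876 536 8983348875).Ok := ok1 (.node true 4 2612 (.node true 32 2880 (.node false 16 2852 (.node false 24 2880 (.node true 44 2612 (.node true 52 2880 (.node false 28 2880 (.node true 56 2632 (.node true 72 2880 (.node false 32 2880 (.node false 44 2880 (.node true 80 2396 (.node true 84 2648 (.node false 52 2880 (.leaf [⟨2880, false, false, 5192956⟩, ⟨5688, true, false, 3937771⟩, ⟨2880, false, true, 1783819⟩, ⟨2880, true, false, 4053477⟩, ⟨5708, false, false, 1809193⟩]) (.leaf [⟨2880, false, true, 5527196⟩, ⟨2880, false, false, 4160786⟩, ⟨5708, false, false, 1729527⟩, ⟨5688, true, false, 5359708⟩])) (.leaf [⟨5688, true, false, 3770225⟩, ⟨2880,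 true, true, 4828975⟩, ⟨5676, true, false, 1197423⟩, ⟨2880, false, true, 5310285⟩, ⟨5716, false, false, 1670308⟩])) (.leaf [⟨5688, true, false, 3775647⟩, ⟨2880, true, false, 5096140⟩, ⟨5680, true, false, 1647422⟩, ⟨2880, false, false, 4696818⟩, ⟨5716, false, false, 1561189⟩])) (.leaf [⟨2880, false, true, 5527336⟩, ⟨2880, false, false, 4167856⟩, ⟨5716, false, false, 1715974⟩, ⟨5688, true, false, 5366050⟩])) (.leaf [⟨2880, false, true, 5527455⟩, ⟨5728, false, false, 1696263⟩, ⟨2880, false, false, 4178196⟩, ⟨5688, true, false, 5375302⟩])) (.leaf [⟨2880, true, false, 3487843⟩, ⟨5708, true, false, 4981416⟩, ⟨5688, true, false, 4198801⟩, ⟨2880, true, true, 2790460⟩, ⟨2880, false, false, 1318697⟩])) (.leaf [⟨5708, true, false, 4977625⟩, ⟨2880, true, true, 4107908⟩, ⟨2880, true, false, 2133192⟩, ⟨5704, true, false, 4124707⟩, ⟨2880, false, true, 1433784⟩])) (.leaf [⟨2880, false, true, 5355885⟩, ⟨5732, false, false, 1933686⟩, ⟨2880, false, false, 4312243⟩, ⟨5708, true, false,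 5175402⟩])) (.leaf [⟨5728, true, false, 5099278⟩, ⟨2880, true, false, 3960232⟩, ⟨5708, true, false, 3151394⟩, ⟨2880, true, true, 1643114⟩, ⟨2880, false, false, 2923198⟩])) (.leaf [⟨5728, true, false, 5098686⟩, ⟨5716, true, false, 3119588⟩, ⟨2880, true, false, 3992623⟩, ⟨2880, true, true, 1591159⟩, ⟨2880, false, false, 2975161⟩])) (.leaf [⟨2880, false, true, 5181648⟩, ⟨5736, false, false, 2163489⟩, ⟨2880, false, false, 4450856⟩, ⟨5728, true, false, 4981224⟩])) (.leaf [⟨2880, false, true, 5182365⟩, ⟨5744, false, false, 2147081⟩, ⟨2880, false, false, 4458907⟩, ⟨5728, true, false, 4988863⟩])) (.node true 8 2880 (.node true 12 2612 (.node true 16 2880 (.leaf [⟨5744, true, false, 5237078⟩, ⟨2880, true, true, 4946989⟩, ⟨5728, true, false, 2225424⟩, ⟨2880, false, true, 4367726⟩]) (.leaf [⟨5752, true, false, 5321118⟩, ⟨5744, true, false, 1741158⟩, ⟨2880, true, false, 4579698⟩, ⟨2880, false, false, 5135241⟩])) (.leaf [⟨5752, true, false, 5319232⟩, ⟨5748, true, false, 1751946⟩,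 ⟨2880, true, false, 4580506⟩, ⟨2880, false, false, 5125532⟩])) (.node true 4 2880 (.leaf [⟨5756, true, false, 5269913⟩, ⟨2880, true, false, 4062938⟩, ⟨5752, true, false, 2935713⟩, ⟨2880, false, false, 3695391⟩, ⟨2880, true, true, 813261⟩]) (.leaf [⟨5756, true, false, 2688309⟩, ⟨0, true, false, 4696303⟩, ⟨2880, true, true, 4696302⟩, ⟨2880, false, true, 4696303⟩])))) (.leaf [⟨0, true, false, 5302988⟩, ⟨5756, true, false, 2565037⟩, ⟨2880, true, true, 4688419⟩, ⟨2880, false, true, 4220773⟩])) (by decide +kernel)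
theorem yo125 : (bN 580 796 580 8943010715).Ok := ok1 (.node true 4 2728 (.node true 56 2828 (.node true 80 2880 (.node false 52 2828 (.node false 80 2880 (.leaf [⟨2880, false, true, 6002833⟩, ⟨5680, true, false, 3865167⟩, ⟨2880, false, false, 1759633⟩, ⟨2880, true, true, 3364465⟩, ⟨5684, false, false, 1785117⟩]) (.leaf [⟨2880, false, true, 6013507⟩, ⟨2880, false, false, 4243740⟩, ⟨5680, true, false, 3415574⟩, ⟨0, false, false, 1726047⟩, ⟨5620, false, false, 1378348⟩])) (.leaf [⟨2880, false, true, 4601081⟩, ⟨2880, false, false, 3993652⟩, ⟨0, false, false, 4601081⟩, ⟨5688, false, false, 3581403⟩])) (.node true 60 2880 (.leaf [⟨5704, true, false, 3101477⟩, ⟨2880, false, true, 5805967⟩, ⟨2880, true, true, 4711907⟩, ⟨0, false, false, 2163245⟩, ⟨5680, true, false, 994620⟩]) (.node false 720 2828 (.node false 52 2880 (.node false 80 2880 (.node false 92 2880 (.node false 100 2880 (.node false 104 2880 (.node false 124 2880 (.node false 132 2880 (.node true 28 2880 (.leaf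 [⟨5732, true, false, 5203660⟩, ⟨2880, true, false, 5038308⟩, ⟨2880, false, false, 4735988⟩, ⟨5700, true, false, 1799261⟩]) (.leaf [⟨5732, true, false, 4876106⟩, ⟨2828, true, false, 3430525⟩, ⟨0, true, false, 4063826⟩, ⟨2880, true, false, 4406760⟩])) (.leaf [⟨2880, true, true, 4590327⟩, ⟨2880, true, false, 4021672⟩, ⟨0, true, false, 4590327⟩, ⟨5700, true, false, 3574890⟩])) (.leaf [⟨2828, true, false, 4143795⟩, ⟨2880, true, true, 4211140⟩, ⟨2880, true, false, 4211140⟩, ⟨0, true, false, 4211140⟩])) (.leaf [⟨2828, true, false, 4143795⟩, ⟨2880, true, true, 4211140⟩, ⟨2880, true, false, 4211140⟩, ⟨0, true, false, 4211140⟩])) (.leaf [⟨2828, true, false, 4143795⟩, ⟨2880, true, true, 4211140⟩, ⟨2880, true, false, 4211140⟩, ⟨0, true, false, 4211140⟩])) (.leaf [⟨2880, true, true, 4590327⟩, ⟨5700, true, false, 3574890⟩, ⟨2880, true, false, 4021672⟩, ⟨0, true, false, 4590327⟩])) (.leaf [⟨2880, true, true, 6376532⟩, ⟨5700, true, false, 212615⟩, ⟨2880, true, false, 4660609⟩, ⟨5708,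 false, false, 5527460⟩])) (.leaf [⟨5700, true, false, 3574890⟩, ⟨2880, true, true, 4590327⟩, ⟨0, true, false, 4590327⟩, ⟨2880, true, false, 4021672⟩])) (.leaf [⟨0, true, false, 5167168⟩, ⟨2880, true, false, 5007509⟩, ⟨5700, true, false, 1435371⟩, ⟨2880, false, false, 5167168⟩])))) (.node true 8 2828 (.node true 12 2880 (.node true 16 2592 (.node true 36 2880 (.leaf [⟨5724, true, false, 4594504⟩, ⟨2880, true, false, 4417157⟩, ⟨2880, true, true, 4037682⟩, ⟨5704, true, false, 3727872⟩]) (.leaf [⟨5748, true, false, 5222405⟩, ⟨2880, true, false, 4933789⟩, ⟨2880, false, false, 4642487⟩, ⟨5724, true, false, 1978535⟩])) (.leaf [⟨5748, true, false, 5280349⟩, ⟨2880, true, true, 4500172⟩, ⟨2880, false, true, 5478826⟩, ⟨16, false, false, 1517869⟩])) (.leaf [⟨0, true, false, 4467812⟩, ⟨5748, true, false, 3749524⟩, ⟨2880, true, false, 4556861⟩, ⟨2880, true, true, 4003019⟩])) (.leaf [⟨0, true, false, 4486739⟩, ⟨5752, true, false, 3788400⟩, ⟨2880, true, false, 4545473⟩, ⟨2880, true,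 true, 3956604⟩]))) (.leaf [⟨0, true, false, 4505464⟩, ⟨5756, true, false, 3826604⟩, ⟨2880, true, false, 4534639⟩, ⟨2880, true, true, 3910509⟩])) (by decide +kernel)
theorem yo154 : (bN 564 828 564 8942792645).Ok := ok1 (.node true 4 2836 (.node false 44 2836 (.node false 68 2880 (.node true 8 2880 (.node true 48 2880 (.node true 68 2608 (.node true 80 2880 (.node true 84 2628 (.node true 88 2636 (.node true 112 2880 (.leaf [⟨2880, false, true, 2039152⟩, ⟨5648, true, false, 3387029⟩, ⟨2880, false, false, 5024254⟩, ⟨5696, false, false, 2329952⟩, ⟨2880, true, false, 3996829⟩]) (.leaf [⟨5680, true, false, 3648810⟩, ⟨2880, false, true, 5490909⟩, ⟨2880, true, true, 4822786⟩, ⟨5696, false, false, 1745899⟩, ⟨5648, true, false, 1068812⟩])) (.leaf [⟨5680, true, false, 3650792⟩, ⟨2880, true, true, 4811468⟩, ⟨5672, true, false, 1066148⟩, ⟨2880, false, true, 5513417⟩, ⟨5696, false, false, 1735390⟩])) (.leaf [⟨5680, true, false, 3650792⟩, ⟨2880, true, true, 4811468⟩, ⟨2880, false,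 true, 5513417⟩, ⟨5672, true, false, 1066148⟩, ⟨5696, false, false, 1735390⟩])) (.leaf [⟨5712, true, false, 4198623⟩, ⟨2880, true, false, 5125123⟩, ⟨5680, true, false, 1644287⟩, ⟨2880, false, false, 4783369⟩, ⟨5696, false, false, 1025814⟩])) (.leaf [⟨5712, true, false, 4203488⟩, ⟨2880, true, false, 5130129⟩, ⟨5688, true, false, 1654142⟩, ⟨2880, false, false, 4774361⟩, ⟨5696, false, false, 1015095⟩])) (.node true 12 2584 (.node true 16 2600 (.node true 20 2880 (.node true 24 2604 (.node true 28 2880 (.leaf [⟨5736, true, false, 5069621⟩, ⟨2880, true, false, 4569852⟩, ⟨2880, true, true, 1075611⟩, ⟨5712, true, false, 2469961⟩, ⟨2880, false, false, 3592171⟩]) (.leaf [⟨5744, true, false, 5208559⟩, ⟨2880, true, false, 4867658⟩, ⟨5728, true, false, 1759345⟩, ⟨2880, false, false, 4941654⟩])) (.leaf [⟨5744, true, false, 4357825⟩, ⟨2880, true, true, 4129529⟩, ⟨5736, true, false, 4060965⟩, ⟨2880, true, false, 4228897⟩])) (.node true 12 2880 (.node true 16 2880 (.leaf [⟨5744, true,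 false, 5192715⟩, ⟨2880, true, true, 4925982⟩, ⟨2880, false, true, 4858664⟩, ⟨5736, true, false, 1799854⟩]) (.leaf [⟨5744, true, false, 4515749⟩, ⟨5752, true, false, 4051213⟩, ⟨2880, true, false, 4275687⟩, ⟨2880, true, true, 3934566⟩])) (.leaf [⟨5744, true, false, 4515762⟩, ⟨5752, true, false, 4051201⟩, ⟨2880, true, false, 4275699⟩, ⟨2880, true, true, 3934554⟩]))) (.leaf [⟨5752, true, false, 5214471⟩, ⟨2880, true, true, 4833162⟩, ⟨5744, true, false, 1941964⟩, ⟨2880, false, true, 4787619⟩])) (.leaf [⟨5752, true, false, 5218907⟩, ⟨2880, true, false, 4805214⟩, ⟨5744, true, false, 1897002⟩, ⟨2880, false, false, 4856093⟩]))) (.leaf [⟨0, true, false, 5201087⟩, ⟨2880, true, false, 4361979⟩, ⟨5752, true, false, 2994536⟩, ⟨2880, true, true, 803438⟩, ⟨2880, false, false, 3416176⟩])) (.leaf [⟨2880, false, false, 4873015⟩, ⟨2880, false, true, 4873015⟩, ⟨5688, false, false, 2158170⟩, ⟨0, true, false, 4873016⟩])) (.leaf [⟨2880, false, false, 4896562⟩, ⟨2880, false, true, 4896562⟩,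 ⟨5712, false, false, 2087531⟩, ⟨0, true, false, 4896562⟩])) (.leaf [⟨0, true, false, 5201079⟩, ⟨2880, true, false, 4361781⟩, ⟨5752, true, false, 2995030⟩, ⟨2880, true, true, 803852⟩, ⟨2880, false, false, 3415474⟩])) (by decide +kernel)
theorem yo173 : (bN 616 736 616 8981186884).Ok := ok1 (.node true 8 2728 (.node true 80 2808 (.node true 112 2880 (.node false 8 2808 (.node false 48 2880 (.leaf [⟨2880, false, true, 4237860⟩, ⟨2880, false, false, 4931111⟩, ⟨5648, true, false, 3079183⟩, ⟨5712, false, false, 2530836⟩, ⟨2880, true, false, 1998227⟩]) (.leaf [⟨2880, false, true, 4786337⟩, ⟨2880, false, false, 4786337⟩, ⟨0, false, false, 4786337⟩, ⟨5672, false, false, 2418205⟩])) (.leaf [⟨2880, false, false, 4853246⟩, ⟨0, false, false, 4853246⟩, ⟨2880, false, true, 4853244⟩, ⟨5752, false, false, 2217480⟩])) (.node true 88 2880 (.node false 8 2880 (.node false 80 2880 (.leaf [⟨2880, false, true, 6177450⟩, ⟨5672, true, false, 3584428⟩, ⟨2880, true, true, 1798745⟩, ⟨2880, false,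 false, 3195101⟩, ⟨5704, false, false, 2021492⟩]) (.leaf [⟨2880, true, false, 5313052⟩, ⟨2880, true, true, 4237712⟩, ⟨5752, false, false, 2780708⟩, ⟨5648, true, false, 2441738⟩, ⟨5672, true, false, 2004006⟩])) (.leaf [⟨5752, false, false, 2217479⟩, ⟨0, false, false, 4853246⟩, ⟨2880, false, false, 4853246⟩, ⟨2880, false, true, 4853246⟩])) (.node true 40 2880 (.node false 240 2640 (.node false 360 2880 (.leaf [⟨5720, true, false, 5313747⟩, ⟨2880, false, true, 4841581⟩, ⟨2880, false, false, 5203498⟩, ⟨2880, true, false, 1127502⟩, ⟨5472, false, false, 290888⟩]) (.leaf [⟨2880, true, false, 5179627⟩, ⟨2880, true, true, 4360062⟩, ⟨5720, true, false, 2934357⟩, ⟨5672, true, false, 2464889⟩, ⟨0, false, false, 1838281⟩])) (.leaf [⟨2880, true, false, 5179627⟩, ⟨2880, true, true, 4360062⟩, ⟨5720, true, false, 2934357⟩, ⟨5672, true, false, 2464889⟩, ⟨0, false, false, 1838280⟩])) (.leaf [⟨2808, false, false, 3608590⟩, ⟨0, true, false, 3360362⟩, ⟨2880, false, false, 3360362⟩, ⟨2880,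 false, true, 3360362⟩, ⟨5680, true, false, 3087541⟩])))) (.node true 16 2808 (.node true 24 2880 (.node true 32 2880 (.node true 56 2504 (.node true 64 2880 (.leaf [⟨5704, true, false, 3677337⟩, ⟨2880, true, false, 5668425⟩, ⟨2880, false, false, 4458402⟩, ⟨0, false, false, 1452652⟩, ⟨5680, true, false, 1520400⟩]) (.leaf [⟨5728, true, false, 5219348⟩, ⟨2880, false, true, 5545914⟩, ⟨2880, true, true, 4687266⟩, ⟨5696, true, false, 1324688⟩])) (.leaf [⟨5728, true, false, 5169473⟩, ⟨2880, false, false, 4496233⟩, ⟨2880, true, false, 5429567⟩, ⟨5704, true, false, 1681943⟩])) (.leaf [⟨5736, true, false, 5250897⟩, ⟨2880, true, true, 4521812⟩, ⟨2880, false, true, 5496027⟩, ⟨5728, true, false, 1508481⟩])) (.node true 8 2880 (.leaf [⟨5752, true, false, 5322130⟩, ⟨2880, true, true, 4249134⟩, ⟨5736, true, false, 1853503⟩, ⟨2880, false, true, 5352449⟩]) (.leaf [⟨0, true, false, 4837317⟩, ⟨2880, true, false, 4837317⟩, ⟨5744, true, false, 4121927⟩, ⟨2880, true, true, 2980655⟩])))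 (.leaf [⟨0, true, false, 5325800⟩, ⟨2880, true, false, 1333082⟩, ⟨5744, true, false, 2596637⟩, ⟨2880, true, true, 3755806⟩, ⟨2880, false, true, 3765891⟩]))) (.leaf [⟨0, true, false, 4932428⟩, ⟨2880, true, false, 5002922⟩, ⟨5752, true, false, 3313694⟩, ⟨2880, true, true, 3528171⟩])) (by decide +kernel)
theorem yo151 : (bN 560 832 560 8962940487).Ok := ok1 (.node false 44 2840 (.node true 4 2840 (.node false 64 2880 (.node true 44 2880 (.node true 64 2600 (.node true 76 2876 (.node true 80 2880 (.node true 84 2636 (.node true 108 2876 (.leaf [⟨2876, false, false, 2008233⟩, ⟨5652, true, false, 3441387⟩, ⟨5696, false, false, 2272820⟩, ⟨2880, false, false, 5035226⟩, ⟨2880, true, false, 1722936⟩, ⟨2884, true, false, 2296614⟩]) (.leaf [⟨5680, true, false, 3805616⟩, ⟨2880, true, false, 3813122⟩, ⟨2880, false, false, 5141532⟩, ⟨2880, false, true, 2131437⟩, ⟨5696, false, false, 1885509⟩])) (.leaf [⟨5680, true, false, 3718753⟩, ⟨2880, true, true, 4800471⟩, ⟨5676, true, false,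 1096433⟩, ⟨2880, false, true, 5480812⟩, ⟨5696, false, false, 1680747⟩])) (.leaf [⟨2880, true, true, 4272644⟩, ⟨5684, true, false, 2644440⟩, ⟨2876, false, false, 2328587⟩, ⟨5680, true, false, 2952727⟩, ⟨2880, true, false, 2332326⟩, ⟨5696, false, false, 1078134⟩, ⟨5716, true, false, 1168357⟩])) (.leaf [⟨5716, true, false, 4367093⟩, ⟨2880, true, false, 5058323⟩, ⟨5684, true, false, 1671304⟩, ⟨2880, false, false, 4804823⟩, ⟨5696, false, false, 875673⟩])) (.leaf [⟨5716, true, false, 4926785⟩, ⟨2880, true, false, 4099119⟩, ⟨2880, true, true, 2531835⟩, ⟨5696, true, false, 3564177⟩, ⟨2880, false, false, 1655300⟩])) (.node true 8 2880 (.node true 12 2600 (.node true 16 2880 (.node true 28 2604 (.node true 36 2880 (.leaf [⟨5724, true, false, 4997097⟩, ⟨2880, true, true, 4395004⟩, ⟨5716, true, false, 3048367⟩, ⟨2880, true, false, 1743634⟩, ⟨2880, false, true, 2593114⟩]) (.leaf [⟨5744, true, false, 4354224⟩, ⟨2880, true, true, 695993⟩, ⟨5724, true, false, 2359689⟩, ⟨2880, true,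 false, 4581325⟩, ⟨2880, false, false, 3983919⟩, ⟨5732, true, false, 802065⟩])) (.leaf [⟨5744, true, false, 5228498⟩, ⟨2880, true, false, 4838267⟩, ⟨2880, false, false, 4962446⟩, ⟨5732, true, false, 1748006⟩])) (.leaf [⟨5752, true, false, 5194996⟩, ⟨2880, true, false, 4415668⟩, ⟨5744, true, false, 2783527⟩, ⟨2880, false, false, 3609574⟩, ⟨2880, true, true, 773450⟩])) (.leaf [⟨5752, true, false, 5248637⟩, ⟨2880, true, false, 4752677⟩, ⟨5748, true, false, 1958443⟩, ⟨2880, false, false, 4817459⟩])) (.node true 4 2880 (.leaf [⟨5756, true, false, 4262985⟩, ⟨5752, true, false, 4061447⟩, ⟨2880, true, false, 4281276⟩, ⟨2880, true, true, 4171508⟩]) (.leaf [⟨5756, true, false, 5172029⟩, ⟨0, false, false, 4764450⟩, ⟨2880, true, true, 1734995⟩, ⟨2880, true, false, 5105743⟩])))) (.leaf [⟨2880, false, false, 4854832⟩, ⟨2880, false, true, 4854832⟩, ⟨5696, false, false, 2212721⟩, ⟨0, true, false, 4854832⟩])) (.leaf [⟨0, true, false, 4259758⟩, ⟨5756, true, false, 4080695⟩, ⟨2880, true,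 false, 4284322⟩, ⟨2880, true, true, 4152441⟩])) (.leaf [⟨2880, false, true, 4874830⟩, ⟨2880, false, false, 4874830⟩, ⟨5716, false, false, 2152725⟩, ⟨0, true, false, 4874830⟩])) (by decide +kernel)
theorem yo150 : (bN 544 860 544 8978866633).Ok := ok1 (.node true 4 2608 (.node true 36 2880 (.node false 20 2848 (.node false 32 2880 (.node true 52 2608 (.node true 60 2880 (.node false 36 2876 (.node false 40 2880 (.node true 64 2632 (.node true 84 2880 (.node false 52 2876 (.leaf [⟨2880, false, true, 5916164⟩, ⟨5676, true, false, 3771222⟩, ⟨2876, true, false, 4049251⟩, ⟨2880, false, false, 1089906⟩, ⟨5708, false, false, 1950673⟩]) (.leaf [⟨2880, false, true, 4840833⟩, ⟨2880, false, false, 3905877⟩, ⟨5708, false, false, 3645149⟩, ⟨5676, true, false, 2413710⟩, ⟨5720, false, false, 1971648⟩])) (.leaf [⟨2880, true, false, 5095348⟩, ⟨5700, true, false, 3900930⟩, ⟨2880, false, false, 4727140⟩, ⟨5676, true, false, 1661509⟩, ⟨5720, false, false, 1392288⟩])) (.leaf [⟨5700, true,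 false, 4933646⟩, ⟨2880, true, true, 3925934⟩, ⟨2880, true, false, 2673624⟩, ⟨5696, true, false, 4296104⟩, ⟨2880, false, true, 947908⟩])) (.leaf [⟨2880, false, true, 5525634⟩, ⟨2880, false, false, 4320322⟩, ⟨5720, false, false, 1612428⟩, ⟨5700, true, false, 5318832⟩])) (.leaf [⟨2880, false, true, 5525713⟩, ⟨2880, false, false, 4323473⟩, ⟨5724, false, false, 1606344⟩, ⟨5700, true, false, 5321686⟩])) (.leaf [⟨5724, true, false, 5050561⟩, ⟨2880, true, true, 4449144⟩, ⟨5700, true, false, 3270076⟩, ⟨2880, false, true, 2572176⟩, ⟨2880, true, false, 1435260⟩])) (.leaf [⟨5724, true, false, 5050604⟩, ⟨2880, true, false, 4041192⟩, ⟨2880, false, false, 2630749⟩, ⟨5708, true, false, 3235506⟩, ⟨2880, true, true, 1819165⟩])) (.leaf [⟨2880, false, true, 5315554⟩, ⟨5728, false, false, 1882164⟩, ⟨2880, false, false, 4490859⟩, ⟨5724, true, false, 5088639⟩])) (.leaf [⟨2880, false, true, 5316300⟩, ⟨5740, false, false, 1861136⟩, ⟨2880, false, false, 4501312⟩, ⟨5724, true, false, 5098467⟩]))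 (.node true 8 2880 (.node true 12 2608 (.node true 16 2880 (.leaf [⟨5744, true, false, 5234605⟩, ⟨2880, true, true, 4941081⟩, ⟨2880, false, true, 4515141⟩, ⟨5724, true, false, 2086390⟩]) (.leaf [⟨5752, true, false, 5299892⟩, ⟨5744, true, false, 1837985⟩, ⟨2880, true, false, 4627430⟩, ⟨2880, false, false, 5011909⟩])) (.leaf [⟨5752, true, false, 5298162⟩, ⟨2880, true, false, 4628310⟩, ⟨5748, true, false, 1849366⟩, ⟨2880, false, false, 5001378⟩])) (.node true 4 2880 (.leaf [⟨5756, true, false, 5257691⟩, ⟨5752, true, false, 2942224⟩, ⟨2880, true, true, 781634⟩, ⟨2880, true, false, 4162626⟩, ⟨2880, false, false, 3633042⟩]) (.leaf [⟨5756, true, false, 2454215⟩, ⟨0, true, false, 4774334⟩, ⟨2880, true, true, 4774333⟩, ⟨2880, false, true, 4774334⟩])))) (.leaf [⟨0, true, false, 5280161⟩, ⟨5756, true, false, 3019961⟩, ⟨2880, true, false, 518850⟩, ⟨2880, true, true, 4351713⟩, ⟨2880, false, true, 3606531⟩])) (by decide +kernel)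
theorem yo91 : (bN 532 888 532 8961091200).Ok := ok1 (.node true 4 2612 (.node true 32 2880 (.node false 4 2852 (.node false 32 2880 (.node true 44 2612 (.node true 52 2880 (.node true 56 2636 (.node true 64 2880 (.node false 44 2880 (.node true 68 2396 (.node true 72 2644 (.node true 100 2880 (.leaf [⟨2880, false, true, 5848520⟩, ⟨5688, true, false, 3824194⟩, ⟨2880, true, true, 4164094⟩, ⟨5716, false, false, 1919440⟩, ⟨2880, false, false, 1020969⟩]) (.leaf [⟨2880, true, false, 5026565⟩, ⟨5696, true, false, 3855282⟩, ⟨2880, false, false, 4795674⟩, ⟨5660, true, false, 1592450⟩, ⟨5716, false, false, 1507245⟩])) (.leaf [⟨5696, true, false, 5073411⟩, ⟨2880, true, false, 3495261⟩, ⟨5688, true, false, 4211355⟩, ⟨2880, false, false, 1582895⟩, ⟨2880, true, true, 2414294⟩])) (.leaf [⟨5696, true, false, 4934236⟩, ⟨2880, true, false, 3159696⟩, ⟨5688, true, false, 4827189⟩, ⟨2880, true, true, 3298122⟩, ⟨2880, false, false, 557974⟩])) (.leaf [⟨2880, false, false, 5441812⟩, ⟨5728,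 false, false, 3205832⟩, ⟨2880, true, false, 5737813⟩, ⟨5696, true, false, 2391760⟩])) (.leaf [⟨2880, true, false, 3439437⟩, ⟨5708, true, false, 5016135⟩, ⟨5688, true, false, 4179118⟩, ⟨2880, true, true, 2604743⟩, ⟨2880, false, false, 1537783⟩])) (.leaf [⟨5708, true, false, 5016135⟩, ⟨2880, true, false, 3439437⟩, ⟨2880, true, true, 2604743⟩, ⟨5688, true, false, 4179118⟩, ⟨2880, false, false, 1537783⟩])) (.leaf [⟨5728, true, false, 3286766⟩, ⟨2880, true, false, 1302670⟩, ⟨5688, true, false, 3610190⟩, ⟨2880, true, true, 4455253⟩, ⟨2880, false, true, 2347073⟩, ⟨5716, true, false, 1775266⟩])) (.leaf [⟨5728, true, false, 5070511⟩, ⟨2880, true, false, 3828258⟩, ⟨5716, true, false, 3341539⟩, ⟨2880, true, true, 1791507⟩, ⟨2880, false, false, 2745401⟩])) (.leaf [⟨2880, false, true, 5123908⟩, ⟨2880, false, false, 4342308⟩, ⟨5688, false, false, 2434564⟩, ⟨5728, true, false, 4876436⟩])) (.leaf [⟨2880, false, true, 5132832⟩, ⟨5756, false, false, 2272978⟩, ⟨2880, false, false, 4420481⟩,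 ⟨5728, true, false, 4950925⟩])) (.node true 8 2880 (.leaf [⟨5752, true, false, 5239846⟩, ⟨2880, true, true, 4895945⟩, ⟨2880, false, true, 4181862⟩, ⟨5728, true, false, 2459563⟩]) (.leaf [⟨0, true, false, 5194550⟩, ⟨5752, true, false, 2977219⟩, ⟨2880, true, true, 999640⟩, ⟨2880, true, false, 4001575⟩, ⟨2880, false, false, 3604232⟩]))) (.leaf [⟨2880, true, false, 4496421⟩, ⟨0, true, false, 5328148⟩, ⟨5756, true, false, 1797304⟩, ⟨2880, false, false, 5155342⟩])) (by decide +kernel)
theorem yo145 : (bN 528 884 528 9022361610).Ok := ok1 (.node true 4 2616 (.node true 28 2880 (.node true 40 2616 (.node true 44 2856 (.node true 48 2880 (.node false 16 2856 (.node false 24 2880 (.node true 64 2636 (.node true 72 2876 (.node true 76 2880 (.leaf [⟨5684, true, false, 3721028⟩, ⟨2880, false, false, 5089670⟩, ⟨2880, false, true, 1786075⟩, ⟨2880, true, false, 4139329⟩, ⟨5736, false, false, 2041114⟩]) (.leaf [⟨2880, true, true, 2296117⟩, ⟨5688, true, false, 3733421⟩, ⟨2876, false,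 false, 4074817⟩, ⟨2880, true, false, 1849096⟩, ⟨5736, false, false, 2011406⟩, ⟨2880, false, false, 2812359⟩])) (.leaf [⟨2880, true, false, 3624958⟩, ⟨5712, true, false, 5131266⟩, ⟨5688, true, false, 3687285⟩, ⟨2880, false, false, 2208116⟩, ⟨2880, true, true, 2125590⟩])) (.leaf [⟨5712, true, false, 5127741⟩, ⟨2880, true, false, 3657362⟩, ⟨2880, false, false, 2247984⟩, ⟨5696, true, false, 3660940⟩, ⟨2880, true, true, 2083189⟩])) (.leaf [⟨2880, false, true, 5219504⟩, ⟨5736, false, false, 2177427⟩, ⟨2880, false, false, 4294901⟩, ⟨5712, true, false, 5085384⟩])) (.leaf [⟨2880, false, true, 5219973⟩, ⟨5744, false, false, 2160931⟩, ⟨2880, false, false, 4303218⟩, ⟨5712, true, false, 5093094⟩])) (.leaf [⟨5732, true, false, 5244770⟩, ⟨2880, true, true, 1032536⟩, ⟨5712, true, false, 2645193⟩, ⟨2880, true, false, 4104519⟩, ⟨2880, false, false, 3750197⟩])) (.leaf [⟨5732, true, false, 5424259⟩, ⟨5716, true, false, 1896871⟩, ⟨2880, true, false, 4493021⟩, ⟨2880, false, false, 4963065⟩]))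 (.leaf [⟨5732, true, false, 5318308⟩, ⟨2880, true, true, 4856936⟩, ⟨5720, true, false, 2315023⟩, ⟨2880, false, true, 4286950⟩])) (.node true 8 2880 (.node true 12 2616 (.node true 16 2880 (.leaf [⟨5744, true, false, 5391483⟩, ⟨5732, true, false, 1734218⟩, ⟨2880, false, false, 5128514⟩, ⟨2880, true, false, 4523001⟩]) (.leaf [⟨5752, true, false, 5401392⟩, ⟨5744, true, false, 1852926⟩, ⟨2880, true, false, 4458533⟩, ⟨2880, false, false, 5064365⟩])) (.leaf [⟨5752, true, false, 5399535⟩, ⟨5748, true, false, 1864491⟩, ⟨2880, true, false, 4459132⟩, ⟨2880, false, false, 5054057⟩])) (.node true 4 2880 (.leaf [⟨5756, true, false, 5411777⟩, ⟨5752, true, false, 1962476⟩, ⟨2880, true, false, 4410644⟩, ⟨2880, false, false, 4992319⟩]) (.leaf [⟨5756, true, false, 2849281⟩, ⟨0, true, false, 4642645⟩, ⟨2880, true, true, 4642645⟩, ⟨2880, false, true, 4642645⟩])))) (.leaf [⟨0, true, false, 5341831⟩, ⟨5756, true, false, 2652170⟩, ⟨2880, true, true, 4658258⟩, ⟨2880, false, true, 4124957⟩]))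 (by decide +kernel)
theorem yo81 : (bN 456 1048 456 9117018359).Ok := ok1 (.node true 8 2640 (.node true 16 2880 (.node true 24 2648 (.node true 56 2872 (.node true 72 2880 (.leaf [⟨5688, true, false, 6489463⟩, ⟨2880, false, true, 4923641⟩, ⟨2880, false, false, 2451255⟩, ⟨2880, true, true, 2912857⟩]) (.node true 64 2880 (.leaf [⟨5696, true, false, 6420652⟩, ⟨2880, true, true, 3014748⟩, ⟨2880, false, true, 4927654⟩, ⟨2880, false, false, 2414161⟩]) (.leaf [⟨2880, true, true, 1642829⟩, ⟨5696, true, false, 3427214⟩, ⟨5704, true, false, 2595689⟩, ⟨5744, true, false, 1761689⟩, ⟨2880, true, false, 3574026⟩, ⟨2880, false, false, 3016046⟩, ⟨0, false, false, 759725⟩]))) (.node true 32 2872 (.node true 40 2880 (.leaf [⟨5720, true, false, 5597415⟩, ⟨2880, true, true, 4311336⟩, ⟨5704, true, false, 2713407⟩, ⟨2880, false, true, 3446204⟩, ⟨2880, false, false, 708853⟩]) (.leaf [⟨2880, true, true, 4492348⟩, ⟨5728, true, false, 3808966⟩, ⟨5720, true, false, 2486692⟩, ⟨2880, true, false,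 1111026⟩, ⟨2872, false, false, 1481844⟩, ⟨5704, true, false, 1204662⟩, ⟨16, false, false, 1053764⟩, ⟨2880, false, true, 1137913⟩])) (.leaf [⟨5728, true, false, 3832433⟩, ⟨2880, true, true, 4435304⟩, ⟨2880, true, false, 1437999⟩, ⟨5736, true, false, 2271906⟩, ⟨2880, false, true, 2387160⟩, ⟨5744, true, false, 1211838⟩, ⟨16, false, false, 1200576⟩]))) (.leaf [⟨5736, true, false, 3931842⟩, ⟨2880, true, true, 4372505⟩, ⟨5744, true, false, 3244555⟩, ⟨2880, true, false, 1681309⟩, ⟨2880, false, true, 2223184⟩, ⟨16, false, false, 1323821⟩])) (.node false 240 2880 (.node false 360 2880 (.node false 424 2648 (.leaf [⟨5744, true, false, 4194770⟩, ⟨2880, true, true, 4234088⟩, ⟨2880, true, false, 2340228⟩, ⟨5752, true, false, 1925991⟩, ⟨2880, false, true, 1733000⟩, ⟨0, true, false, 701215⟩, ⟨0, false, false, 1647923⟩]) (.leaf [⟨2880, true, true, 5028464⟩, ⟨2784, true, false, 7139109⟩, ⟨0, true, false, 1381011⟩, ⟨2880, true, false, 3228631⟩])) (.leaf [⟨2880, true, true, 5419401⟩,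 ⟨5520, false, false, 8115541⟩, ⟨2880, true, false, 3242275⟩])) (.leaf [⟨0, false, false, 4787452⟩, ⟨5744, true, false, 3995974⟩, ⟨2880, true, false, 3791885⟩, ⟨2880, true, true, 4201905⟩]))) (.leaf [⟨5752, true, false, 4231864⟩, ⟨2880, true, true, 4201106⟩, ⟨2880, true, false, 2478044⟩, ⟨0, true, false, 2490647⟩, ⟨0, false, false, 1710459⟩, ⟨2880, false, true, 1665096⟩])) (by decide +kernel)
theorem yo137 : (bN 488 968 488 9080370149).Ok := ok1 (.node true 8 2632 (.node true 16 2872 (.node true 48 2880 (.node true 64 2640 (.node true 72 2872 (.node true 80 2880 (.leaf [⟨5680, true, false, 4622331⟩, ⟨2880, false, true, 5687766⟩, ⟨2880, false, false, 1291824⟩, ⟨2880, true, true, 3755685⟩, ⟨0, false, false, 1419609⟩]) (.leaf [⟨2880, true, true, 4580555⟩, ⟨5688, true, false, 2739610⟩, ⟨5680, true, false, 3311827⟩, ⟨5712, true, false, 2797247⟩, ⟨2880, false, true, 3347977⟩])) (.leaf [⟨2880, true, true, 4696702⟩, ⟨5712, true, false, 5446553⟩, ⟨5688, true, false, 3183660⟩,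 ⟨2880, false, true, 3450302⟩])) (.leaf [⟨5712, true, false, 5441986⟩, ⟨2880, true, true, 4692787⟩, ⟨5696, true, false, 3161206⟩, ⟨2880, false, true, 3481237⟩])) (.node true 24 2880 (.node true 32 2640 (.node true 40 2880 (.leaf [⟨5720, true, false, 5377501⟩, ⟨5712, true, false, 3051709⟩, ⟨2880, true, true, 4762665⟩, ⟨2880, false, true, 3585341⟩]) (.leaf [⟨5720, true, false, 3518176⟩, ⟨2880, true, true, 4717668⟩, ⟨2880, true, false, 519841⟩, ⟨5736, true, false, 2683202⟩, ⟨5728, true, false, 2443716⟩, ⟨2880, false, true, 2894613⟩])) (.leaf [⟨5736, true, false, 5078053⟩, ⟨5728, true, false, 3531851⟩, ⟨2880, true, false, 3438709⟩, ⟨2880, true, true, 1869926⟩, ⟨2880, false, false, 2858677⟩])) (.node false 488 2872 (.leaf [⟨2880, true, true, 2682269⟩, ⟨5736, true, false, 2982673⟩, ⟨5744, true, false, 2745221⟩, ⟨2880, true, false, 2838991⟩, ⟨0, true, false, 1578965⟩, ⟨2872, true, false, 1260198⟩, ⟨2872, false, false, 1174809⟩, ⟨2880, false, false, 1514090⟩]) (.leaf [⟨5736,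 true, false, 4240487⟩, ⟨2880, true, true, 4196075⟩, ⟨2880, true, false, 4144580⟩, ⟨0, false, false, 4196075⟩])))) (.node false 488 2872 (.leaf [⟨5744, true, false, 3852147⟩, ⟨2880, true, false, 3680120⟩, ⟨2880, true, true, 2424519⟩, ⟨0, true, false, 2200106⟩, ⟨5752, true, false, 1895720⟩, ⟨2872, true, false, 1097442⟩, ⟨2880, false, false, 1627163⟩]) (.leaf [⟨5744, true, false, 4272170⟩, ⟨2880, true, false, 4160879⟩, ⟨0, false, false, 4172083⟩, ⟨2880, true, true, 4172083⟩]))) (.leaf [⟨5752, true, false, 4201619⟩, ⟨2880, true, true, 2819929⟩, ⟨2880, true, false, 4106237⟩, ⟨0, true, false, 2928777⟩, ⟨0, false, false, 1305902⟩, ⟨2880, false, false, 1414751⟩])) (by decide +kernel)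
theorem yo78 : (bN 448 1064 448 9149572208).Ok := ok1 (.node true 8 2640 (.node true 24 2880 (.node true 32 2656 (.node true 56 2880 (.node true 72 2664 (.leaf [⟨5704, true, false, 4043169⟩, ⟨2880, false, true, 4897053⟩, ⟨2880, false, false, 2345716⟩, ⟨5688, true, false, 2363178⟩, ⟨2880, true, true, 3128100⟩]) (.leaf [⟨5704, true, false, 5838967⟩, ⟨2880, true, true, 4002162⟩, ⟨5688, true, false, 2421538⟩, ⟨2880, false, true, 3489645⟩, ⟨2880, false, false, 1024905⟩])) (.node true 40 2880 (.leaf [⟨5720, true, false, 5653551⟩, ⟨2880, true, true, 4245907⟩, ⟨5704, true, false, 2555733⟩, ⟨2880, false, true, 3478673⟩, ⟨2880, false, false, 843352⟩]) (.leaf [⟨2880, true, true, 1753077⟩, ⟨5720, true, false, 3487931⟩, ⟨5728, true, false, 2565580⟩, ⟨2880, true, false, 3722079⟩, ⟨5736, true, false, 1439358⟩, ⟨2880, false, false, 2880976⟩, ⟨0, false, false, 928215⟩]))) (.leaf [⟨5736, true, false, 4823581⟩, ⟨2880, true, true, 4925270⟩, ⟨5728, true, false, 3037012⟩, ⟨2880, false,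 true, 3596153⟩, ⟨0, false, false, 395200⟩])) (.node true 16 2880 (.leaf [⟨5736, true, false, 3872404⟩, ⟨2880, true, true, 4388144⟩, ⟨5744, true, false, 3206232⟩, ⟨2880, true, false, 1637575⟩, ⟨2880, false, true, 2300589⟩, ⟨16, false, false, 1372272⟩]) (.node false 240 2880 (.node false 360 2880 (.leaf [⟨5744, true, false, 3711343⟩, ⟨2880, true, true, 2481450⟩, ⟨2880, true, false, 3704145⟩, ⟨5752, true, false, 2323216⟩, ⟨0, true, false, 1336947⟩, ⟨2792, true, false, 1197273⟩, ⟨2880, false, false, 2022843⟩]) (.leaf [⟨2880, true, true, 5258892⟩, ⟨5520, false, false, 8239734⟩, ⟨2880, true, false, 3278591⟩])) (.leaf [⟨0, false, false, 4948360⟩, ⟨5744, true, false, 3929806⟩, ⟨2880, true, false, 3736469⟩, ⟨2880, true, true, 4162581⟩])))) (.node false 240 2640 (.node false 360 2656 (.leaf [⟨5752, true, false, 4134178⟩, ⟨2880, true, true, 4238619⟩, ⟨2880, true, false, 2296024⟩, ⟨0, true, false, 2577767⟩, ⟨0, false, false, 1688235⟩, ⟨2880, false, true, 1842394⟩]) (.leaf [⟨2880,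 true, false, 3757279⟩, ⟨0, false, false, 4993575⟩, ⟨2880, true, true, 4173335⟩, ⟨5752, true, false, 3853027⟩])) (.leaf [⟨0, false, false, 4993576⟩, ⟨5752, true, false, 3853027⟩, ⟨2880, true, false, 3757279⟩, ⟨2880, true, true, 4173335⟩]))) (by decide +kernel)
theorem yo76 : (bN 496 960 496 9028894219).Ok := ok1 (.node true 8 2624 (.node true 16 2880 (.node true 24 2632 (.node true 64 2880 (.node false 16 2872 (.node false 24 2880 (.leaf [⟨5696, true, false, 4695717⟩, ⟨2880, false, true, 5592221⟩, ⟨2880, false, false, 1422328⟩, ⟨2880, true, true, 3798685⟩, ⟨5736, false, false, 1268265⟩]) (.leaf [⟨2880, false, true, 4921366⟩, ⟨5736, false, false, 3124508⟩, ⟨2880, false, false, 3841071⟩, ⟨5696, true, false, 4890271⟩])) (.leaf [⟨2880, false, true, 4922360⟩, ⟨5744, false, false, 3098066⟩, ⟨2880, false, false, 3854276⟩, ⟨5696, true, false, 4902514⟩])) (.node true 32 2880 (.node true 40 2640 (.node true 48 2880 (.leaf [⟨5712, true, false, 5435577⟩, ⟨2880, true, true, 4659185⟩,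 ⟨5696, true, false, 3168717⟩, ⟨2880, false, true, 3513737⟩]) (.leaf [⟨5712, true, false, 3281883⟩, ⟨2880, true, true, 1475779⟩, ⟨5728, true, false, 5233393⟩, ⟨2880, true, false, 3525564⟩, ⟨2880, false, false, 3260596⟩])) (.leaf [⟨5728, true, false, 5139367⟩, ⟨5720, true, false, 3570385⟩, ⟨2880, true, true, 1785250⟩, ⟨2880, true, false, 3418505⟩, ⟨2880, false, false, 2863708⟩])) (.node false 488 2872 (.leaf [⟨5728, true, false, 1678169⟩, ⟨2880, true, true, 4599669⟩, ⟨5744, true, false, 4828434⟩, ⟨2880, false, true, 4471102⟩, ⟨2872, true, false, 1199842⟩]) (.leaf [⟨5728, true, false, 4194950⟩, ⟨2880, true, true, 4195271⟩, ⟨2880, true, false, 4191724⟩, ⟨0, false, false, 4195271⟩])))) (.leaf [⟨5736, true, false, 3820845⟩, ⟨2880, true, true, 4330957⟩, ⟨5744, true, false, 3393977⟩, ⟨2880, true, false, 2009388⟩, ⟨16, false, false, 1157322⟩, ⟨2880, false, true, 2064726⟩])) (.node false 488 2872 (.leaf [⟨5744, true, false, 3847180⟩, ⟨2880, true, true, 2441516⟩, ⟨2880, true,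 false, 3669732⟩, ⟨0, true, false, 2398408⟩, ⟨5752, true, false, 1773685⟩, ⟨2872, true, false, 958837⟩, ⟨2880, false, false, 1687858⟩]) (.leaf [⟨5744, true, false, 4101780⟩, ⟨2880, true, false, 4225145⟩, ⟨2880, true, true, 4225145⟩, ⟨0, false, false, 4225145⟩]))) (.leaf [⟨5752, true, false, 4205809⟩, ⟨2880, true, false, 4107021⟩, ⟨2880, true, true, 2837967⟩, ⟨0, true, false, 2941159⟩, ⟨0, false, false, 1291035⟩, ⟨2880, false, false, 1394226⟩])) (by decide +kernel)
theorem yo129 : (bN 564 824 564 8960452228).Ok := ok1 (.node true 4 2640 (.node false 44 2836 (.node false 68 2880 (.node true 8 2880 (.node true 48 2880 (.node true 68 2600 (.node true 80 2880 (.leaf [⟨2880, false, true, 5963602⟩, ⟨5680, true, false, 3798007⟩, ⟨2880, false, false, 1396457⟩, ⟨2880, true, true, 3735805⟩, ⟨5696, false, false, 1883345⟩]) (.leaf [⟨5712, true, false, 4270908⟩, ⟨2880, true, true, 4851253⟩, ⟨5680, true, false, 1392239⟩, ⟨2880, false, true, 5237881⟩, ⟨5696, false, false, 1024935⟩]))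 (.leaf [⟨5712, true, false, 4274241⟩, ⟨2880, true, true, 4846585⟩, ⟨5688, true, false, 1391214⟩, ⟨2880, false, true, 5246485⟩, ⟨5696, false, false, 1018690⟩])) (.node true 12 2596 (.node true 16 2600 (.node true 20 2880 (.node true 24 2604 (.node true 28 2880 (.leaf [⟨5736, true, false, 5129638⟩, ⟨2880, true, true, 4729257⟩, ⟨2880, true, false, 693161⟩, ⟨5712, true, false, 2245839⟩, ⟨2880, false, true, 3979321⟩]) (.leaf [⟨5744, true, false, 5225145⟩, ⟨2880, true, false, 4865997⟩, ⟨5728, true, false, 1769713⟩, ⟨2880, false, false, 4916361⟩])) (.leaf [⟨5744, true, false, 4362168⟩, ⟨2880, true, true, 4136445⟩, ⟨5736, true, false, 3996306⟩, ⟨2880, true, false, 4282297⟩])) (.leaf [⟨5752, true, false, 5210240⟩, ⟨2880, true, true, 4474741⟩, ⟨5736, true, false, 2547681⟩, ⟨2880, false, true, 3913455⟩, ⟨2880, true, false, 631098⟩])) (.leaf [⟨5752, true, false, 5251367⟩, ⟨2880, true, true, 4760927⟩, ⟨2880, false, true, 4781838⟩, ⟨5744, true, false, 1983084⟩])) (.leaf [⟨5752,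 true, false, 5249504⟩, ⟨2880, true, false, 4773762⟩, ⟨5744, true, false, 2003693⟩, ⟨2880, false, false, 4750256⟩]))) (.leaf [⟨0, true, false, 5246312⟩, ⟨2880, true, false, 4390649⟩, ⟨5752, true, false, 2949506⟩, ⟨2880, false, false, 3525184⟩, ⟨2880, true, true, 665566⟩])) (.leaf [⟨2880, false, false, 4886292⟩, ⟨2880, false, true, 4886292⟩, ⟨5688, false, false, 2118339⟩, ⟨0, true, false, 4886292⟩])) (.leaf [⟨2880, false, false, 4909253⟩, ⟨2880, false, true, 4909252⟩, ⟨5712, false, false, 2049459⟩, ⟨0, true, false, 4909253⟩])) (.leaf [⟨0, true, false, 5246322⟩, ⟨5752, true, false, 2949032⟩, ⟨2880, true, false, 864966⟩, ⟨2880, true, true, 4191025⟩, ⟨2880, false, true, 3525872⟩])) (by decide +kernel)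
theorem yo97 : (bN 516 920 516 8975173015).Ok := ok1 (.node true 4 2620 (.node true 24 2880 (.node true 32 2620 (.node true 36 2860 (.node true 40 2880 (.node false 4 2856 (.node false 8 2880 (.node false 24 2880 (.node true 56 2400 (.node true 64 2640 (.node true 68 2880 (.leaf [⟨2880, false, true, 5809385⟩, ⟨5696, true, false, 3838938⟩, ⟨2880, true, true, 4267986⟩, ⟨5736, false, false, 1931954⟩, ⟨2880, false, false, 928953⟩]) (.leaf [⟨5720, true, false, 5250645⟩, ⟨5692, true, false, 3330461⟩, ⟨2880, true, true, 1510248⟩, ⟨2880, true, false, 3611152⟩, ⟨2880, false, false, 3074710⟩])) (.leaf [⟨5724, true, false, 5275563⟩, ⟨2880, true, true, 1287731⟩, ⟨5696, true, false, 3100857⟩, ⟨2880, true, false, 3723620⟩, ⟨2880, false, false, 3389446⟩])) (.leaf [⟨5720, true, false, 5510937⟩, ⟨2880, true, false, 4284838⟩, ⟨5704, true, false, 2133502⟩, ⟨2880, false, false, 4847939⟩])) (.leaf [⟨2880, false, true, 4990132⟩, ⟨5720, false, false, 2794601⟩, ⟨2880, false, false, 4164856⟩,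 ⟨5720, true, false, 4827628⟩])) (.leaf [⟨2880, false, true, 4994805⟩, ⟨5752, false, false, 2704432⟩, ⟨2880, false, false, 4208782⟩, ⟨5720, true, false, 4869197⟩])) (.leaf [⟨2880, false, true, 4995288⟩, ⟨5756, false, false, 2693771⟩, ⟨2880, false, false, 4214017⟩, ⟨5720, true, false, 4874139⟩])) (.leaf [⟨2880, true, true, 4879565⟩, ⟨5736, true, false, 5272930⟩, ⟨5720, true, false, 2645319⟩, ⟨2880, false, true, 3979402⟩])) (.leaf [⟨5736, true, false, 5272930⟩, ⟨2880, true, true, 4879565⟩, ⟨5720, true, false, 2645319⟩, ⟨2880, false, true, 3979402⟩])) (.leaf [⟨5736, true, false, 5268788⟩, ⟨2880, true, true, 4875769⟩, ⟨5728, true, false, 2630731⟩, ⟨2880, false, true, 4001928⟩])) (.node true 8 2880 (.leaf [⟨5756, true, false, 5136701⟩, ⟨2880, true, true, 5073579⟩, ⟨5736, true, false, 2462445⟩, ⟨2880, false, true, 4104491⟩]) (.leaf [⟨0, true, false, 4809385⟩, ⟨2880, true, false, 4589090⟩, ⟨2880, true, true, 1265815⟩, ⟨8, false, false, 1716070⟩, ⟨2880, false, false, 2866129⟩,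 ⟨5736, true, false, 1530726⟩]))) (.leaf [⟨5756, true, false, 5133626⟩, ⟨2880, true, false, 5071451⟩, ⟨2880, true, true, 2354897⟩, ⟨0, false, false, 4217243⟩])) (by decide +kernel)
theorem yo72 : (bN 520 912 520 8977936923).Ok := ok1 (.node true 8 2616 (.node true 32 2880 (.node false 8 2856 (.node false 16 2880 (.node true 40 2616 (.node true 48 2880 (.node false 32 2880 (.node true 64 2392 (.node true 72 2640 (.node true 80 2880 (.leaf [⟨2880, false, true, 5868250⟩, ⟨5680, true, false, 3690809⟩, ⟨2880, false, false, 810660⟩, ⟨2880, true, true, 4314158⟩, ⟨5728, false, false, 2093339⟩]) (.leaf [⟨5712, true, false, 4153453⟩, ⟨2880, true, false, 4856924⟩, ⟨5680, true, false, 1642193⟩, ⟨2880, false, false, 4891425⟩, ⟨5728, false, false, 1233220⟩])) (.leaf [⟨5712, true, false, 5143793⟩, ⟨2880, true, true, 4341655⟩, ⟨2880, true, false, 1184040⟩, ⟨5688, true, false, 3903713⟩, ⟨2880, false, true, 2204015⟩])) (.leaf [⟨5712, true, false, 5139958⟩, ⟨2880, true, true, 4338803⟩,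 ⟨5696, true, false, 3874262⟩, ⟨2880, false, true, 2246515⟩, ⟨2880, true, false, 1177678⟩])) (.leaf [⟨2880, false, true, 5113457⟩, ⟨5728, false, false, 2533332⟩, ⟨2880, false, false, 4167253⟩, ⟨5712, true, false, 4963174⟩])) (.leaf [⟨5728, true, false, 5230123⟩, ⟨2880, true, true, 1250351⟩, ⟨5712, true, false, 3013501⟩, ⟨2880, true, false, 3835034⟩, ⟨2880, false, false, 3448207⟩])) (.leaf [⟨5728, true, false, 5226290⟩, ⟨2880, true, false, 3861482⟩, ⟨5720, true, false, 2994206⟩, ⟨2880, false, false, 3477472⟩, ⟨2880, true, true, 1217766⟩])) (.leaf [⟨2880, false, true, 4977293⟩, ⟨5744, false, false, 2691663⟩, ⟨2880, false, false, 4289438⟩, ⟨5728, true, false, 4818822⟩])) (.leaf [⟨2880, false, true, 4978429⟩, ⟨5752, false, false, 2670377⟩, ⟨2880, false, false, 4299750⟩, ⟨5728, true, false, 4828661⟩])) (.node true 16 2880 (.leaf [⟨5744, true, false, 5220221⟩, ⟨2880, true, true, 4959267⟩, ⟨5728, true, false, 2516472⟩, ⟨2880, false, true, 4081257⟩]) (.leaf [⟨0, true, false,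 3534313⟩, ⟨5744, true, false, 3122872⟩, ⟨2880, true, true, 1718051⟩, ⟨2880, true, false, 3905484⟩, ⟨2880, false, false, 3102969⟩, ⟨5752, true, false, 1393526⟩]))) (.leaf [⟨0, true, false, 5114661⟩, ⟨5752, true, false, 2376091⟩, ⟨2880, true, true, 5093018⟩, ⟨2880, false, true, 4193446⟩])) (by decide +kernel)
theorem yo38 : (bN 432 1056 432 9358819599).Ok := ok1 (.node true 16 2640 (.node true 32 2880 (.node true 48 2656 (.node true 80 2880 (.leaf [⟨5680, true, false, 6524305⟩, ⟨2880, false, false, 2213820⟩, ⟨2880, false, true, 4858759⟩, ⟨2880, true, true, 3180333⟩]) (.leaf [⟨5712, true, false, 3393667⟩, ⟨2880, true, true, 4441468⟩, ⟨5680, true, false, 2453814⟩, ⟨2880, false, true, 3501230⟩, ⟨5728, true, false, 2285693⟩, ⟨2880, false, false, 701343⟩])) (.leaf [⟨5728, true, false, 5555037⟩, ⟨2880, true, true, 1025689⟩, ⟨5712, true, false, 2516085⟩, ⟨2880, true, false, 3556304⟩, ⟨2880, false, false, 4124101⟩])) (.node false 240 2640 (.node false 368 2656 (.node false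 432 2848 (.leaf [⟨5728, true, false, 3664121⟩, ⟨2880, true, false, 3720849⟩, ⟨5744, true, false, 2723137⟩, ⟨2880, true, true, 1751788⟩, ⟨2848, true, false, 2015315⟩, ⟨2880, false, false, 1884931⟩, ⟨0, true, false, 1017076⟩]) (.leaf [⟨0, false, false, 5020850⟩, ⟨5728, true, false, 4063557⟩, ⟨2880, true, true, 3996289⟩, ⟨2880, true, false, 3696520⟩])) (.leaf [⟨0, false, false, 5020850⟩, ⟨2880, true, true, 3996289⟩, ⟨5728, true, false, 4063557⟩, ⟨2880, true, false, 3696520⟩])) (.leaf [⟨0, false, false, 5020850⟩, ⟨5728, true, false, 4063557⟩, ⟨2880, true, false, 3696520⟩, ⟨2880, true, true, 3996289⟩]))) (.node false 240 2640 (.node false 368 2656 (.node false 432 2848 (.node false 240 2880 (.leaf [⟨5744, true, false, 3733069⟩, ⟨0, true, false, 3550202⟩, ⟨2880, true, true, 3550202⟩, ⟨2880, true, false, 2061339⟩, ⟨2848, true, false, 2127010⟩, ⟨2880, false, true, 1755395⟩]) (.leaf [⟨2848, true, false, 6604921⟩, ⟨0, true, false, 4160766⟩, ⟨2880, true, true, 6011529⟩])) (.leaf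 [⟨0, false, false, 5105497⟩, ⟨2880, true, false, 3738381⟩, ⟨2880, true, true, 4014597⟩, ⟨5744, true, false, 3918740⟩])) (.leaf [⟨0, false, false, 5105497⟩, ⟨2880, true, false, 3738381⟩, ⟨2880, true, true, 4014597⟩, ⟨5744, true, false, 3918740⟩])) (.leaf [⟨0, false, false, 5105497⟩, ⟨5744, true, false, 3918740⟩, ⟨2880, true, true, 4014597⟩, ⟨2880, true, false, 3738381⟩]))) (by decide +kernel)
theorem yo115 : (bN 480 960 480 9165867647).Ok := ok1 (.node true 16 2400 (.node true 64 2880 (.leaf [⟨5696, true, false, 6333385⟩, ⟨2880, false, true, 5125494⟩, ⟨2880, false, false, 2445542⟩, ⟨2880, true, true, 2872795⟩]) (.node true 32 2640 (.node true 48 2880 (.leaf [⟨5712, true, false, 5472874⟩, ⟨2880, true, true, 4761972⟩, ⟨2880, false, true, 3624061⟩, ⟨5696, true, false, 2918309⟩]) (.node false 240 2640 (.node false 240 2880 (.node false 368 2880 (.node false 432 2880 (.leaf [⟨2880, true, false, 3925313⟩, ⟨5712, true, false, 2976069⟩, ⟨2880, true, true, 2021144⟩, ⟨0, true,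 false, 2635737⟩, ⟨2880, false, false, 2783284⟩, ⟨5728, true, false, 1924537⟩, ⟨2832, true, false, 511130⟩]) (.leaf [⟨2880, true, true, 5440622⟩, ⟨2768, true, false, 5843731⟩, ⟨2880, true, false, 3235655⟩, ⟨0, true, false, 2257207⟩])) (.leaf [⟨2880, true, true, 5848579⟩, ⟨5712, true, false, 910769⟩, ⟨2880, true, false, 3088779⟩, ⟨5520, false, false, 6929089⟩])) (.leaf [⟨5712, true, false, 4048746⟩, ⟨0, false, false, 4352690⟩, ⟨2880, true, true, 4274617⟩, ⟨2880, true, false, 4101164⟩])) (.leaf [⟨5712, true, false, 4048746⟩, ⟨2880, true, true, 4274617⟩, ⟨2880, true, false, 4101164⟩, ⟨0, false, false, 4352690⟩]))) (.node false 240 2640 (.node false 240 2880 (.node false 368 2880 (.leaf [⟨5728, true, false, 3696117⟩, ⟨2880, true, false, 3950363⟩, ⟨2880, true, true, 2429036⟩, ⟨0, true, false, 2683281⟩, ⟨2880, false, false, 2112106⟩, ⟨5744, true, false, 1113062⟩, ⟨0, false, false, 793250⟩]) (.leaf [⟨2880, true, true, 5846478⟩, ⟨5728, true, false, 896632⟩, ⟨2880, true, false,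 3097943⟩, ⟨5520, false, false, 6936163⟩])) (.leaf [⟨5728, true, false, 4097908⟩, ⟨0, false, false, 4299433⟩, ⟨2880, true, true, 4248122⟩, ⟨2880, true, false, 4131753⟩])) (.leaf [⟨5728, true, false, 4097908⟩, ⟨2880, true, true, 4248122⟩, ⟨2880, true, false, 4131753⟩, ⟨0, false, false, 4299433⟩])))) (.leaf [⟨5744, true, false, 5420084⟩, ⟨2880, true, true, 4257816⟩, ⟨2880, true, false, 2841500⟩, ⟨0, true, false, 4257816⟩])) (by decide +kernel)
theorem yo58 : (bN 592 776 592 8953373875).Ok := ok1 (.node true 8 2744 (.node true 16 2744 (.node true 64 2880 (.node false 64 2824 (.node false 96 2880 (.leaf [⟨5696, true, false, 4257925⟩, ⟨2880, false, false, 5180536⟩, ⟨2880, false, true, 3156886⟩, ⟨2880, true, false, 2824033⟩, ⟨5664, false, false, 1357836⟩]) (.leaf [⟨2880, false, true, 4790743⟩, ⟨2880, false, false, 4371465⟩, ⟨0, false, false, 3688989⟩, ⟨5664, false, false, 3031725⟩, ⟨5696, true, false, 894293⟩])) (.leaf [⟨2880, false, true, 4628802⟩, ⟨2880, false, false,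 4291665⟩, ⟨0, false, false, 4628802⟩, ⟨5696, false, false, 3227947⟩])) (.node true 24 2880 (.node true 32 2592 (.node true 40 2880 (.leaf [⟨5728, true, false, 5066115⟩, ⟨2880, true, false, 1505215⟩, ⟨2880, true, true, 4530484⟩, ⟨5696, true, false, 2190250⟩, ⟨2880, false, true, 3485152⟩]) (.node true 32 2880 (.leaf [⟨5728, true, false, 5240214⟩, ⟨2880, true, true, 4706444⟩, ⟨2880, false, true, 5295739⟩, ⟨5712, true, false, 1534819⟩]) (.leaf [⟨2880, true, false, 4581204⟩, ⟨5728, true, false, 4466584⟩, ⟨5744, true, false, 4315193⟩, ⟨2880, true, true, 3414235⟩]))) (.leaf [⟨5744, true, false, 4572149⟩, ⟨2880, true, false, 4741458⟩, ⟨2880, true, true, 4048304⟩, ⟨5728, true, false, 3415306⟩])) (.node true 8 2880 (.node true 16 2880 (.leaf [⟨5744, true, false, 5237023⟩, ⟨2880, true, true, 4706087⟩, ⟨2880, false, true, 5196973⟩, ⟨5728, true, false, 1637133⟩]) (.leaf [⟨5744, true, false, 4747180⟩, ⟨0, true, false, 4432294⟩, ⟨2880, true, false, 4481950⟩, ⟨2880, true, true, 3115791⟩]))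 (.leaf [⟨5744, true, false, 4747180⟩, ⟨2880, true, true, 3115791⟩, ⟨0, true, false, 4432294⟩, ⟨2880, true, false, 4481950⟩])))) (.leaf [⟨0, true, false, 5257841⟩, ⟨2880, true, false, 1120620⟩, ⟨5744, true, false, 2696023⟩, ⟨2880, true, true, 4027755⟩, ⟨2880, false, true, 3674977⟩])) (.leaf [⟨0, true, false, 5257839⟩, ⟨2880, true, false, 1120667⟩, ⟨5744, true, false, 2696054⟩, ⟨2880, true, true, 4027736⟩, ⟨2880, false, true, 3674919⟩])) (by decide +kernel)
theorem yo111 : (bN 608 752 608 8962547736).Ok := ok1 (.node true 8 2736 (.node true 72 2880 (.node false 72 2816 (.node false 104 2880 (.node true 104 2880 (.leaf [⟨2880, false, true, 6100115⟩, ⟨5656, true, false, 3750493⟩, ⟨2880, false, false, 2582624⟩, ⟨5656, false, false, 1888888⟩, ⟨2880, true, true, 2455095⟩]) (.leaf [⟨2880, false, false, 5122063⟩, ⟨5688, true, false, 4207090⟩, ⟨2880, false, true, 3832815⟩, ⟨2880, true, false, 2215287⟩, ⟨5656, false, false, 1399961⟩])) (.node false 80 2880 (.leaf [⟨2880, false,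 false, 4975104⟩, ⟨2880, false, true, 4448420⟩, ⟨5680, false, false, 2728909⟩, ⟨5656, false, false, 2625382⟩, ⟨5688, true, false, 1999401⟩]) (.leaf [⟨2880, false, true, 4696197⟩, ⟨2880, false, false, 4609447⟩, ⟨0, false, false, 4696197⟩, ⟨5680, false, false, 2775374⟩]))) (.leaf [⟨2880, false, true, 4691066⟩, ⟨2880, false, false, 4623922⟩, ⟨0, false, false, 4691066⟩, ⟨5688, false, false, 2771161⟩])) (.node true 16 2880 (.node true 24 2880 (.node true 32 2584 (.node true 48 2880 (.leaf [⟨5712, true, false, 3906799⟩, ⟨2880, true, false, 1608940⟩, ⟨2880, true, true, 4444987⟩, ⟨2880, false, true, 3869127⟩, ⟨5688, true, false, 1787998⟩, ⟨0, false, false, 1159366⟩]) (.leaf [⟨5736, true, false, 5207380⟩, ⟨2880, false, true, 5422247⟩, ⟨2880, true, true, 4725866⟩, ⟨5712, true, false, 1421723⟩])) (.leaf [⟨5736, true, false, 5207344⟩, ⟨2880, true, true, 4701962⟩, ⟨2880, false, true, 5435596⟩, ⟨5728, true, false, 1432314⟩])) (.leaf [⟨5744, true, false, 4778275⟩, ⟨2880, true, true,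 3807089⟩, ⟨2880, true, false, 4911517⟩, ⟨5736, true, false, 3280336⟩])) (.node true 8 2880 (.leaf [⟨5752, true, false, 5231044⟩, ⟨2880, true, false, 5134913⟩, ⟨5744, true, false, 2262864⟩, ⟨2880, false, false, 4148395⟩]) (.leaf [⟨0, true, false, 4702663⟩, ⟨2880, true, true, 2994962⟩, ⟨2880, true, false, 4702663⟩, ⟨5752, true, false, 4376929⟩])))) (.leaf [⟨0, true, false, 4808698⟩, ⟨2880, true, false, 4876393⟩, ⟨5752, true, false, 3444641⟩, ⟨2880, true, true, 3647483⟩])) (by decide +kernel)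
theorem yo113 : (bN 560 812 560 9045444710).Ok := ok1 (.node true 4 2400 (.node true 8 2472 (.node true 44 2880 (.node true 64 2600 (.node true 72 2880 (.leaf [⟨2880, false, true, 2524457⟩, ⟨5688, true, false, 3329683⟩, ⟨2880, false, false, 4951197⟩, ⟨0, false, false, 2320344⟩, ⟨2880, true, false, 3651536⟩]) (.leaf [⟨5720, true, false, 5370265⟩, ⟨2880, true, true, 4711401⟩, ⟨2880, false, true, 4917915⟩, ⟨5688, true, false, 1777634⟩])) (.leaf [⟨5720, true, false, 5367358⟩, ⟨2880, true, true, 4708956⟩, ⟨2880, false, true, 4930012⟩, ⟨5696, true, false, 1770890⟩])) (.node true 12 2880 (.node true 16 2604 (.node true 20 2880 (.node true 24 2608 (.node true 28 2880 (.leaf [⟨5736, true, false, 5351301⟩, ⟨2880, false, false, 4647534⟩, ⟨2880, true, false, 4781102⟩, ⟨5712, true, false, 1997279⟩]) (.leaf [⟨5744, true, false, 5395553⟩, ⟨2880, false, true, 4759475⟩, ⟨2880, true, true, 4569216⟩, ⟨5728, true, false, 2052973⟩])) (.leaf [⟨5744, true, false, 5395438⟩, ⟨2880, true,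 true, 4556647⟩, ⟨2880, false, true, 4770612⟩, ⟨5736, true, false, 2054519⟩])) (.leaf [⟨5752, true, false, 5419700⟩, ⟨2880, true, false, 4584232⟩, ⟨5736, true, false, 2462112⟩, ⟨2880, false, false, 4311173⟩])) (.leaf [⟨5752, true, false, 5432164⟩, ⟨2880, true, true, 4428925⟩, ⟨2880, false, true, 4693569⟩, ⟨5744, true, false, 2222559⟩])) (.node true 4 2880 (.node true 8 2880 (.leaf [⟨5752, true, false, 5432164⟩, ⟨5744, true, false, 2222559⟩, ⟨2880, true, true, 4428925⟩, ⟨2880, false, true, 4693569⟩]) (.leaf [⟨5752, true, false, 4654618⟩, ⟨0, true, false, 3825109⟩, ⟨2880, true, false, 4524114⟩, ⟨2880, true, true, 3773375⟩])) (.leaf [⟨5752, true, false, 4654618⟩, ⟨0, true, false, 3825109⟩, ⟨2880, true, false, 4524114⟩, ⟨2880, true, true, 3773375⟩])))) (.leaf [⟨0, true, false, 5470701⟩, ⟨5752, true, false, 2390569⟩, ⟨2880, false, true, 4617471⟩, ⟨2880, true, true, 4298475⟩])) (.leaf [⟨0, true, false, 5460404⟩, ⟨2880, true, false, 4481566⟩, ⟨5752, true, false, 2731111⟩,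 ⟨2880, false, false, 4104134⟩])) (by decide +kernel)
theorem yo106 : (bN 592 760 592 9037386038).Ok := ok1 (.node true 64 2736 (.node true 96 2880 (.leaf [⟨2880, false, true, 3583900⟩, ⟨2880, false, false, 4810968⟩, ⟨0, false, false, 2815655⟩, ⟨5664, true, false, 2786928⟩, ⟨2880, true, false, 2779765⟩]) (.node true 72 2880 (.leaf [⟨2880, false, true, 6306505⟩, ⟨5688, true, false, 3431149⟩, ⟨2880, false, false, 2523848⟩, ⟨0, false, false, 2168308⟩, ⟨2880, true, true, 2347406⟩]) (.node true 32 2880 (.leaf [⟨5728, true, false, 5257852⟩, ⟨2880, false, false, 4524650⟩, ⟨2880, true, false, 5180211⟩, ⟨5688, true, false, 1814503⟩]) (.leaf [⟨0, true, false, 4517271⟩, ⟨2880, true, true, 2875436⟩, ⟨2880, true, false, 4517271⟩, ⟨5728, true, false, 4867239⟩])))) (.node true 8 2400 (.node true 16 2736 (.node true 24 2880 (.node true 40 2592 (.leaf [⟨5736, true, false, 5468666⟩, ⟨2880, false, true, 2264987⟩, ⟨2880, false, false, 4977402⟩, ⟨2880, true, false, 3286819⟩, ⟨5696, true,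 false, 779342⟩]) (.leaf [⟨5736, true, false, 5309635⟩, ⟨2880, true, false, 5066727⟩, ⟨2880, false, false, 4243155⟩, ⟨5720, true, false, 2157699⟩])) (.node true 8 2880 (.leaf [⟨5752, true, false, 5426169⟩, ⟨2880, false, true, 5092340⟩, ⟨2880, true, true, 4223505⟩, ⟨5736, true, false, 2035202⟩]) (.leaf [⟨5752, true, false, 4748774⟩, ⟨0, true, false, 4525223⟩, ⟨2880, true, true, 2885088⟩, ⟨2880, true, false, 4618132⟩]))) (.node true 8 2736 (.node true 8 2880 (.leaf [⟨5752, true, false, 5427118⟩, ⟨5744, true, false, 2041298⟩, ⟨2880, false, true, 5101503⟩, ⟨2880, true, true, 4207297⟩]) (.leaf [⟨5752, true, false, 4748773⟩, ⟨2880, true, true, 2885088⟩, ⟨0, true, false, 4525223⟩, ⟨2880, true, false, 4618132⟩])) (.leaf [⟨5752, true, false, 4748774⟩, ⟨0, true, false, 4525223⟩, ⟨2880, true, false, 4618132⟩, ⟨2880, true, true, 2885088⟩]))) (.leaf [⟨0, true, false, 5467641⟩, ⟨5752, true, false, 2213701⟩, ⟨2880, false, true, 5031535⟩, ⟨2880, true, true, 4064340⟩]))) (by decide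 +kernel)
theorem yo109 : (bN 600 760 600 8965070805).Ok := ok1 (.node true 72 2736 (.node true 104 2880 (.node false 64 2816 (.node false 96 2880 (.leaf [⟨2880, false, false, 5027540⟩, ⟨2880, false, true, 3428154⟩, ⟨5664, true, false, 3693518⟩, ⟨5680, false, false, 1941581⟩, ⟨2880, true, false, 2686423⟩]) (.leaf [⟨2880, false, true, 4697546⟩, ⟨2880, false, false, 4431998⟩, ⟨0, false, false, 4697546⟩, ⟨5664, false, false, 2950126⟩])) (.leaf [⟨2880, false, true, 4697546⟩, ⟨2880, false, false, 4431998⟩, ⟨0, false, false, 4697546⟩, ⟨5664, false, false, 2950126⟩])) (.node true 80 2880 (.leaf [⟨2880, true, false, 5719111⟩, ⟨5680, true, false, 2663547⟩, ⟨0, false, false, 2448656⟩, ⟨2880, false, false, 4409911⟩, ⟨5648, true, false, 1535991⟩]) (.node true 32 2880 (.leaf [⟨5728, true, false, 5247601⟩, ⟨2880, false, true, 5360396⟩, ⟨2880, true, true, 4714219⟩, ⟨5680, true, false, 1455000⟩]) (.leaf [⟨0, true, false, 4568968⟩, ⟨2880, true, false, 4568968⟩, ⟨2880, true, true, 3074357⟩,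 ⟨5728, true, false, 4564923⟩])))) (.node true 8 2736 (.node true 16 2880 (.node true 24 2576 (.node true 32 2584 (.node true 40 2880 (.leaf [⟨5728, true, false, 5247601⟩, ⟨2880, false, true, 5360396⟩, ⟨2880, true, true, 4714219⟩, ⟨5680, true, false, 1455000⟩]) (.leaf [⟨5744, true, false, 5273232⟩, ⟨2880, false, true, 5257109⟩, ⟨2880, true, true, 4588832⟩, ⟨5712, true, false, 1658043⟩])) (.leaf [⟨5744, true, false, 5273660⟩, ⟨2880, true, true, 4562194⟩, ⟨2880, false, true, 5272811⟩, ⟨5728, true, false, 1668551⟩])) (.leaf [⟨5744, true, false, 5273660⟩, ⟨2880, true, true, 4562194⟩, ⟨2880, false, true, 5272811⟩, ⟨5728, true, false, 1668551⟩])) (.leaf [⟨0, true, false, 4707065⟩, ⟨2880, true, false, 4841440⟩, ⟨5744, true, false, 3419412⟩, ⟨2880, true, true, 3809299⟩])) (.leaf [⟨0, true, false, 4706978⟩, ⟨2880, true, false, 4841531⟩, ⟨5744, true, false, 3419244⟩, ⟨2880, true, true, 3809463⟩]))) (by decide +kernel)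
theorem yo120 : (bN 644 700 644 8962349741).Ok := ok1 (.node true 124 2720 (.node true 184 2880 (.node false 240 2640 (.node false 120 2684 (.node false 360 2796 (.leaf [⟨2880, false, true, 6367719⟩, ⟨2880, false, false, 4376477⟩, ⟨0, false, false, 3632211⟩, ⟨5576, true, false, 1775531⟩, ⟨2964, false, false, 423782⟩, ⟨2596, true, false, 201496⟩]) (.leaf [⟨2880, false, true, 6244328⟩, ⟨2880, false, false, 4924026⟩, ⟨0, false, false, 4379246⟩, ⟨5576, true, false, 1229616⟩])) (.leaf [⟨2880, false, true, 6244328⟩, ⟨2880, false, false, 4924026⟩, ⟨0, false, false, 4379246⟩, ⟨5576, true, false, 1229616⟩])) (.leaf [⟨2880, false, true, 6244328⟩, ⟨2880, false, false, 4924026⟩, ⟨0, false, false, 4379246⟩, ⟨5576, true, false, 1229616⟩])) (.node true 128 2880 (.leaf [⟨2880, false, true, 6229620⟩, ⟨2880, false, false, 4784592⟩, ⟨0, false, false, 3629940⟩, ⟨5632, true, false, 1895614⟩, ⟨5576, true, false, 237449⟩]) (.node true 64 2880 (.leaf [⟨2880, false, true, 5973599⟩, ⟨2880,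 false, false, 4887723⟩, ⟨5696, true, false, 2796467⟩, ⟨0, true, false, 2641006⟩, ⟨5632, true, false, 478420⟩]) (.leaf [⟨0, true, false, 4427761⟩, ⟨2880, true, true, 4427761⟩, ⟨2880, true, false, 4427761⟩, ⟨5688, true, false, 2142495⟩, ⟨2720, false, false, 1351437⟩])))) (.node true 4 2796 (.node true 40 2880 (.leaf [⟨2880, false, true, 6028115⟩, ⟨2880, false, false, 4706793⟩, ⟨5720, true, false, 5372719⟩, ⟨5636, true, false, 669589⟩]) (.node true 8 2880 (.leaf [⟨5752, true, false, 5097556⟩, ⟨2880, true, false, 5408963⟩, ⟨2880, true, true, 3688506⟩, ⟨5720, true, false, 2582190⟩]) (.leaf [⟨0, true, false, 5227661⟩, ⟨2880, true, false, 5302851⟩, ⟨5752, true, false, 2997940⟩, ⟨2880, true, true, 3248764⟩]))) (.leaf [⟨0, true, false, 5249864⟩, ⟨2880, true, false, 5287540⟩, ⟨5756, true, false, 3056940⟩, ⟨2880, true, true, 3182872⟩]))) (by decide +kernel)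
theorem yo170 : (bN 656 676 656 9003296186).Ok := ok1 (.node true 116 2724 (.node true 176 2880 (.node false 240 2640 (.node false 120 2692 (.node false 360 2788 (.node false 180 2804 (.node false 272 2840 (.node false 660 2792 (.leaf [⟨2880, false, true, 6488596⟩, ⟨2880, false, false, 3338558⟩, ⟨5584, true, false, 2796900⟩, ⟨0, false, false, 2211851⟩, ⟨2972, false, false, 1941311⟩]) (.leaf [⟨2880, false, true, 5715255⟩, ⟨2880, false, false, 5346707⟩, ⟨0, false, false, 5715254⟩])) (.leaf [⟨2880, false, true, 5715255⟩, ⟨2880, false, false, 5346707⟩, ⟨0, false, false, 5715255⟩])) (.leaf [⟨2880, false, true, 5715255⟩, ⟨2880, false, false, 5346707⟩, ⟨0, false, false, 5715255⟩])) (.leaf [⟨2880, false, true, 5715255⟩, ⟨2880, false, false, 5346707⟩, ⟨0, false, false, 5715255⟩])) (.leaf [⟨2880, false, true, 5715255⟩, ⟨2880, false, false, 5346707⟩, ⟨0, false, false, 5715255⟩])) (.leaf [⟨2880, false, true, 5715255⟩, ⟨2880, false, false, 5346707⟩, ⟨0, false, false, 5715255⟩]))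 (.node true 120 2880 (.leaf [⟨2880, false, true, 6040081⟩, ⟨2880, false, false, 4502500⟩, ⟨4, false, false, 3266175⟩, ⟨5644, true, false, 2021307⟩, ⟨5584, true, false, 947154⟩]) (.node true 60 2880 (.leaf [⟨2880, false, true, 6053970⟩, ⟨2880, false, false, 4295670⟩, ⟨5700, true, false, 5291678⟩, ⟨5640, true, false, 1135898⟩]) (.leaf [⟨0, true, false, 4678310⟩, ⟨2880, false, false, 4678310⟩, ⟨2880, false, true, 4678310⟩, ⟨2724, false, false, 1469242⟩, ⟨5644, true, false, 1273043⟩])))) (.node true 4 2792 (.node true 40 2880 (.leaf [⟨2880, false, true, 5956775⟩, ⟨5720, true, false, 5287762⟩, ⟨2880, false, false, 4425752⟩, ⟨5644, true, false, 1106927⟩]) (.leaf [⟨0, true, false, 5416784⟩, ⟨2880, true, false, 5467129⟩, ⟨5720, true, false, 2720943⟩, ⟨2880, true, true, 3172360⟩])) (.leaf [⟨2880, false, true, 5591961⟩, ⟨0, true, false, 5591961⟩, ⟨2880, false, false, 2996039⟩, ⟨5756, true, false, 2597254⟩]))) (by decide +kernel)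
theorem yo103 : (bN 616 712 616 9109690927).Ok := ok1 (.node true 72 2712 (.node true 112 2880 (.leaf [⟨2880, false, true, 6465455⟩, ⟨2880, false, false, 4690707⟩, ⟨0, false, false, 2833120⟩, ⟨5648, true, false, 2787934⟩]) (.node true 80 2880 (.leaf [⟨2880, false, true, 6363606⟩, ⟨2880, false, false, 4796275⟩, ⟨5680, true, false, 3432834⟩, ⟨0, false, false, 2184500⟩]) (.node true 40 2880 (.leaf [⟨2880, false, true, 6067836⟩, ⟨5720, true, false, 5676327⟩, ⟨2880, false, false, 5033053⟩]) (.leaf [⟨0, true, false, 4948967⟩, ⟨2880, true, true, 2709920⟩, ⟨2880, true, false, 4948967⟩, ⟨5720, true, false, 4169361⟩])))) (.node true 8 2400 (.node true 16 2640 (.node true 24 2880 (.node true 48 2576 (.leaf [⟨2880, false, true, 5909869⟩, ⟨5736, true, false, 5661856⟩, ⟨2880, false, false, 4757692⟩, ⟨5688, true, false, 447799⟩]) (.leaf [⟨5736, true, false, 5661095⟩, ⟨2880, false, true, 5914336⟩, ⟨2880, false, false, 4743391⟩, ⟨5712, true, false, 458394⟩])) (.node true 8 2880 (.leaf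 [⟨5752, true, false, 5577890⟩, ⟨2880, false, true, 5289662⟩, ⟨5736, true, false, 2300546⟩, ⟨2880, true, true, 3609119⟩]) (.leaf [⟨0, true, false, 4992442⟩, ⟨2880, true, false, 4992442⟩, ⟨5752, true, false, 4285062⟩, ⟨2880, true, true, 2507270⟩]))) (.node true 8 2640 (.node true 8 2880 (.leaf [⟨5752, true, false, 5580845⟩, ⟨2880, false, true, 5297893⟩, ⟨5744, true, false, 2312177⟩, ⟨2880, true, true, 3586301⟩]) (.leaf [⟨0, true, false, 4992442⟩, ⟨2880, true, false, 4992442⟩, ⟨5752, true, false, 4285062⟩, ⟨2880, true, true, 2507269⟩])) (.leaf [⟨2880, true, false, 4992442⟩, ⟨0, true, false, 4992442⟩, ⟨5752, true, false, 4285062⟩, ⟨2880, true, true, 2507269⟩]))) (.leaf [⟨0, false, false, 5518297⟩, ⟨5752, true, false, 3168086⟩, ⟨2880, true, false, 5629966⟩, ⟨2880, false, false, 2460866⟩]))) (by decide +kernel)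
theorem yo102 : (bN 600 766 600 8936246094).Ok := ok1 (.node true 6 2736 (.node true 8 2738 (.node true 64 2880 (.node false 64 2818 (.node false 96 2880 (.leaf [⟨2880, false, true, 3317661⟩, ⟨2880, false, false, 5135689⟩, ⟨5696, true, false, 3998804⟩, ⟨2880, true, false, 2722364⟩, ⟨5696, false, false, 1602698⟩]) (.leaf [⟨2880, false, true, 4765335⟩, ⟨2880, false, false, 4476571⟩, ⟨0, false, false, 4002419⟩, ⟨5664, false, false, 2912845⟩, ⟨5696, true, false, 620045⟩])) (.leaf [⟨2880, false, true, 4654963⟩, ⟨2880, false, false, 4420448⟩, ⟨0, false, false, 4654963⟩, ⟨5680, false, false, 3046842⟩])) (.node true 14 2880 (.node true 16 2578 (.node true 22 2880 (.node true 24 2586 (.node true 30 2880 (.leaf [⟨5736, true, false, 5150960⟩, ⟨2880, true, false, 5235263⟩, ⟨2880, false, false, 4722307⟩, ⟨5696, true, false, 1668686⟩]) (.leaf [⟨5744, true, false, 5217900⟩, ⟨2880, true, true, 4694265⟩, ⟨2880, false, true, 5285303⟩, ⟨5728, true, false, 1579749⟩])) (.leaf [⟨5744,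 true, false, 4679280⟩, ⟨2880, true, false, 4795838⟩, ⟨2880, true, true, 3892800⟩, ⟨5736, true, false, 3409298⟩])) (.leaf [⟨5752, true, false, 4650236⟩, ⟨2880, true, false, 4809439⟩, ⟨5736, true, false, 3391871⟩, ⟨2880, true, true, 3925670⟩])) (.leaf [⟨5752, true, false, 4690684⟩, ⟨2880, true, false, 4781941⟩, ⟨5744, true, false, 3482912⟩, ⟨2880, true, true, 3821679⟩])) (.leaf [⟨0, true, false, 4662014⟩, ⟨2880, true, false, 4794897⟩, ⟨5744, true, false, 3466170⟩, ⟨2880, true, true, 3854135⟩]))) (.leaf [⟨0, true, false, 4702759⟩, ⟨2880, true, false, 4768265⟩, ⟨5752, true, false, 3556616⟩, ⟨2880, true, true, 3749576⟩])) (.leaf [⟨0, true, false, 4702698⟩, ⟨2880, true, false, 4768327⟩, ⟨5752, true, false, 3556500⟩, ⟨2880, true, true, 3749691⟩])) (by decide +kernel)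
theorem yo41 : (bN 656 672 656 9039251388).Ok := ok1 (.node true 160 2720 (.node false 720 2640 (.node false 480 2880 (.node true 240 2880 (.leaf [⟨2880, false, true, 6472817⟩, ⟨2880, false, false, 4377167⟩, ⟨5600, true, false, 3337629⟩, ⟨0, true, false, 1648174⟩, ⟨2704, true, false, 941429⟩]) (.node true 176 2880 (.leaf [⟨2880, false, true, 6445246⟩, ⟨2880, false, false, 4374847⟩, ⟨5584, true, false, 3858551⟩, ⟨5648, false, false, 1224127⟩, ⟨2704, true, false, 874445⟩]) (.node true 80 2880 (.leaf [⟨2880, false, true, 6505256⟩, ⟨5680, true, false, 4941318⟩, ⟨2880, false, false, 4561323⟩, ⟨2704, true, false, 769318⟩]) (.leaf [⟨2880, false, false, 4608897⟩, ⟨0, true, false, 4608897⟩, ⟨2880, false, true, 4608897⟩, ⟨2720, false, false, 1584373⟩, ⟨5664, true, false, 1366153⟩])))) (.leaf [⟨2880, false, true, 5624804⟩, ⟨0, true, false, 5624804⟩, ⟨2880, false, false, 5527609⟩])) (.leaf [⟨2880, false, false, 5487879⟩, ⟨2880, false, true, 3483439⟩, ⟨0, false, false, 2875907⟩,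 ⟨0, true, false, 2611972⟩, ⟨2832, false, false, 2318020⟩])) (.node true 16 2784 (.node true 64 2880 (.leaf [⟨2880, false, true, 6022547⟩, ⟨2880, false, false, 4447240⟩, ⟨5696, true, false, 3011484⟩, ⟨32, false, false, 2267191⟩, ⟨5600, true, false, 1028754⟩]) (.node true 32 2880 (.leaf [⟨2880, false, true, 5860445⟩, ⟨5728, true, false, 5365456⟩, ⟨2880, false, false, 4007834⟩, ⟨5696, true, false, 1543481⟩]) (.leaf [⟨0, true, false, 5572868⟩, ⟨2880, false, true, 5572868⟩, ⟨5728, true, false, 2365576⟩, ⟨2880, false, false, 3265905⟩]))) (.leaf [⟨0, true, false, 5584563⟩, ⟨2880, false, true, 5584563⟩, ⟨2880, false, false, 3201685⟩, ⟨5744, true, false, 2406405⟩]))) (by decide +kernel)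
theorem yo165 : (bN 576 804 576 8931541778).Ok := ok1 (.node true 52 2732 (.node true 76 2880 (.node false 52 2832 (.node false 76 2880 (.leaf [⟨2880, false, true, 6040840⟩, ⟨5684, true, false, 3647106⟩, ⟨2880, false, false, 1571006⟩, ⟨2880, true, true, 3534774⟩, ⟨5708, false, false, 1983490⟩]) (.leaf [⟨2880, false, true, 5680793⟩, ⟨2880, false, false, 4175884⟩, ⟨5684, true, false, 2924590⟩, ⟨0, false, false, 2013794⟩, ⟨5636, false, false, 1982155⟩])) (.leaf [⟨2880, false, true, 4587447⟩, ⟨2880, false, false, 3889326⟩, ⟨5688, false, false, 3712996⟩, ⟨0, false, false, 4587447⟩])) (.node true 56 2880 (.leaf [⟨5704, true, false, 3019910⟩, ⟨2880, true, true, 4711490⟩, ⟨2880, false, true, 5831798⟩, ⟨4, false, false, 2257388⟩, ⟨5684, true, false, 956630⟩]) (.node true 28 2880 (.leaf [⟨5732, true, false, 5246419⟩, ⟨2880, true, true, 4778663⟩, ⟨5704, true, false, 1696664⟩, ⟨2880, false, true, 5055470⟩]) (.leaf [⟨5708, true, false, 5051815⟩, ⟨0, true, false, 4093920⟩, ⟨2880,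 true, false, 4185214⟩, ⟨2880, true, true, 3446267⟩])))) (.node true 4 2400 (.node true 8 2640 (.node true 12 2880 (.leaf [⟨5748, true, false, 5231650⟩, ⟨2880, false, true, 4945635⟩, ⟨2880, true, true, 4822836⟩, ⟨5708, true, false, 1777096⟩]) (.leaf [⟨0, true, false, 4412313⟩, ⟨5748, true, false, 3810293⟩, ⟨2880, true, true, 4056033⟩, ⟨2880, true, false, 4498577⟩])) (.leaf [⟨0, true, false, 4430668⟩, ⟨2880, true, false, 4487834⟩, ⟨5752, true, false, 3847602⟩, ⟨2880, true, true, 4011112⟩])) (.leaf [⟨0, true, false, 4449145⟩, ⟨5756, true, false, 3884797⟩, ⟨2880, true, false, 4477301⟩, ⟨2880, true, true, 3965973⟩]))) (by decide +kernel)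
theorem yo99 : (bN 536 860 536 9047669730).Ok := ok1 (.node true 4 2612 (.node true 32 2880 (.node true 44 2612 (.node true 52 2880 (.node false 36 2880 (.leaf [⟨5708, true, false, 4335310⟩, ⟨2880, false, true, 5786107⟩, ⟨2880, false, false, 1503648⟩, ⟨2880, true, true, 3741632⟩, ⟨5724, false, false, 1410519⟩]) (.leaf [⟨2880, false, true, 5354669⟩, ⟨2880, false, false, 4356622⟩, ⟨5724, false, false, 1855463⟩, ⟨5708, true, false, 5210462⟩])) (.leaf [⟨5728, true, false, 5353432⟩, ⟨2880, true, true, 4827750⟩, ⟨5708, true, false, 2113731⟩, ⟨2880, false, true, 4482302⟩])) (.leaf [⟨5728, true, false, 5405287⟩, ⟨2880, true, false, 4606633⟩, ⟨5716, true, false, 1885067⟩, ⟨2880, false, false, 4880229⟩])) (.node true 8 2880 (.node true 12 2612 (.node true 16 2880 (.leaf [⟨5744, true, false, 5381879⟩, ⟨2880, true, true, 4697990⟩, ⟨2880, false, true, 4350319⟩, ⟨5728, true, false, 2347028⟩]) (.leaf [⟨5752, true, false, 5435426⟩, ⟨5744, true, false, 2156755⟩, ⟨2880, true, false,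 4436758⟩, ⟨2880, false, false, 4748277⟩])) (.leaf [⟨5752, true, false, 5434040⟩, ⟨5748, true, false, 2170397⟩, ⟨2880, true, false, 4437193⟩, ⟨2880, false, false, 4735586⟩])) (.node true 4 2880 (.leaf [⟨5756, true, false, 5449430⟩, ⟨5752, true, false, 2276200⟩, ⟨2880, true, false, 4386721⟩, ⟨2880, false, false, 4664865⟩]) (.leaf [⟨5756, true, false, 2532836⟩, ⟨0, true, false, 4748127⟩, ⟨2880, true, true, 4748127⟩, ⟨2880, false, true, 4748127⟩])))) (.leaf [⟨0, true, false, 5465515⟩, ⟨2880, true, false, 4335677⟩, ⟨5756, true, false, 2383867⟩, ⟨2880, false, false, 4592157⟩])) (by decide +kernel)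
theorem yo55 : (bN 648 672 648 9092399835).Ok := ok1 (.node true 136 2736 (.node false 720 2640 (.node false 480 2880 (.node true 200 2880 (.leaf [⟨2880, false, true, 6577487⟩, ⟨2880, false, false, 4190973⟩, ⟨5632, true, false, 5036244⟩, ⟨2704, true, false, 972512⟩]) (.node true 144 2880 (.leaf [⟨2880, false, true, 6677505⟩, ⟨5616, true, false, 5011525⟩, ⟨2880, false, false, 4041406⟩, ⟨2704, true, false, 1046780⟩]) (.node true 64 2880 (.leaf [⟨2880, false, true, 6031329⟩, ⟨5696, true, false, 5370022⟩, ⟨2880, false, false, 4319539⟩, ⟨5616, true, false, 1056326⟩]) (.leaf [⟨0, true, false, 4581059⟩, ⟨2880, false, true, 4581059⟩, ⟨2880, false, false, 4581059⟩, ⟨2736, false, false, 1605654⟩, ⟨5632, true, false, 1428385⟩])))) (.leaf [⟨2880, false, true, 5640772⟩, ⟨0, true, false, 5640772⟩, ⟨2880, false, false, 5495671⟩])) (.leaf [⟨2880, false, false, 5504285⟩, ⟨0, true, false, 5504285⟩, ⟨2880, false, true, 3395339⟩, ⟨2832, false, false, 2373307⟩])) (.node true 8 2736 (.node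 true 16 2880 (.node true 56 2880 (.leaf [⟨2880, false, true, 6068729⟩, ⟨5712, true, false, 5306934⟩, ⟨2880, false, false, 4547071⟩, ⟨5616, true, false, 854482⟩]) (.leaf [⟨2880, false, true, 5851988⟩, ⟨5744, true, false, 5416470⟩, ⟨2880, false, false, 3974672⟩, ⟨5696, true, false, 1534085⟩])) (.leaf [⟨0, true, false, 5636157⟩, ⟨2880, false, true, 5575710⟩, ⟨2880, false, false, 3170079⟩, ⟨5744, true, false, 2395270⟩])) (.leaf [⟨0, true, false, 5636289⟩, ⟨2880, false, true, 5575552⟩, ⟨2880, false, false, 3169703⟩, ⟨5744, true, false, 2395672⟩]))) (by decide +kernel)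
theorem yo63 : (bN 528 896 528 8959650900).Ok := ok1 (.node true 16 2608 (.node true 48 2880 (.node false 16 2848 (.node false 48 2880 (.node true 64 2608 (.node true 80 2880 (.leaf [⟨5696, true, false, 4002663⟩, ⟨2880, false, true, 5775172⟩, ⟨2880, false, false, 1121935⟩, ⟨2880, true, true, 4127880⟩, ⟨5712, false, false, 1749565⟩]) (.leaf [⟨5712, true, false, 5049644⟩, ⟨2880, true, false, 3372437⟩, ⟨5680, true, false, 4111507⟩, ⟨2880, true, true, 2524348⟩, ⟨2880, false, false, 1719279⟩])) (.leaf [⟨5712, true, false, 5042430⟩, ⟨2880, true, false, 3446846⟩, ⟨5696, true, false, 4049377⟩, ⟨2880, true, true, 2427986⟩, ⟨2880, false, false, 1810578⟩])) (.leaf [⟨2880, false, true, 5210225⟩, ⟨2880, false, false, 4167046⟩, ⟨5664, false, false, 2430123⟩, ⟨5712, true, false, 4969823⟩])) (.leaf [⟨2880, false, true, 5219568⟩, ⟨5744, false, false, 2234038⟩, ⟨2880, false, false, 4263531⟩, ⟨5712, true, false, 5060079⟩])) (.node true 32 2880 (.leaf [⟨5728, true, false, 5312343⟩, ⟨2880,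 true, true, 4779957⟩, ⟨5712, true, false, 2455381⟩, ⟨2880, false, true, 4229535⟩]) (.node true 16 2880 (.leaf [⟨5744, true, false, 5225711⟩, ⟨2880, true, true, 4960183⟩, ⟨5728, true, false, 2404660⟩, ⟨2880, false, true, 4186662⟩]) (.leaf [⟨5744, true, false, 4578067⟩, ⟨0, true, false, 4313429⟩, ⟨2880, true, false, 4313429⟩, ⟨2880, false, false, 3572292⟩])))) (.leaf [⟨0, true, false, 5163019⟩, ⟨2880, true, false, 4042973⟩, ⟨5744, true, false, 2786704⟩, ⟨2880, true, true, 1007178⟩, ⟨2880, false, false, 3777342⟩])) (by decide +kernel)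
theorem yo82 : (bN 472 1016 472 9054508418).Ok := ok1 (.node true 8 2640 (.node true 32 2880 (.node true 48 2640 (.node true 56 2880 (.node true 72 2664 (.leaf [⟨5704, true, false, 4202494⟩, ⟨2880, false, true, 5143268⟩, ⟨2880, false, false, 2228674⟩, ⟨2880, true, true, 3122422⟩, ⟨5688, true, false, 1790048⟩, ⟨0, false, false, 290309⟩]) (.leaf [⟨5704, true, false, 5720880⟩, ⟨5672, true, false, 2782564⟩, ⟨2880, true, true, 4127603⟩, ⟨2880, false, false, 717842⟩, ⟨2880, false, true, 3428327⟩])) (.leaf [⟨5704, true, false, 3033665⟩, ⟨2880, true, true, 4489412⟩, ⟨5712, true, false, 2763263⟩, ⟨5728, true, false, 2714231⟩, ⟨2880, false, true, 3392372⟩, ⟨2880, false, false, 384273⟩])) (.leaf [⟨5728, true, false, 5381185⟩, ⟨5712, true, false, 3092547⟩, ⟨2880, true, true, 1233000⟩, ⟨2880, true, false, 3396245⟩, ⟨2880, false, false, 3674238⟩])) (.node true 16 2880 (.leaf [⟨5728, true, false, 4003439⟩, ⟨2880, true, true, 4395480⟩, ⟨5744, true, false, 3489265⟩, ⟨2880, true, false,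 1645628⟩, ⟨2880, false, true, 2128250⟩, ⟨16, false, false, 1115155⟩]) (.leaf [⟨5744, true, false, 4200208⟩, ⟨2880, true, true, 4279872⟩, ⟨2880, true, false, 2337662⟩, ⟨0, false, false, 1464988⟩, ⟨2880, false, true, 1679603⟩, ⟨0, true, false, 2814883⟩]))) (.leaf [⟨5752, true, false, 4198375⟩, ⟨2880, true, true, 4236701⟩, ⟨2880, true, false, 2450995⟩, ⟨0, true, false, 2687763⟩, ⟨0, false, false, 1548938⟩, ⟨2880, false, true, 1654444⟩])) (by decide +kernel)
theorem yo147 : (bN 484 988 484 9032121738).Ok := ok1 (.node true 4 2400 (.node true 16 2876 (.node true 24 2880 (.node true 28 2644 (.node true 52 2876 (.node true 64 2880 (.leaf [⟨5696, true, false, 5183661⟩, ⟨2880, false, true, 5464814⟩, ⟨2880, false, false, 1714529⟩, ⟨2880, true, true, 3498725⟩, ⟨0, false, false, 915487⟩]) (.leaf [⟨2880, true, true, 4770969⟩, ⟨5708, true, false, 2568477⟩, ⟨5696, true, false, 3319171⟩, ⟨5736, true, false, 2777625⟩, ⟨2880, false, true, 3340974⟩])) (.node true 32 2876 (.leaf [⟨5728,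 true, false, 5300003⟩, ⟨2880, true, true, 4813636⟩, ⟨5708, true, false, 3228429⟩, ⟨2876, false, false, 3435148⟩]) (.leaf [⟨5728, true, false, 3117745⟩, ⟨2880, true, true, 4877866⟩, ⟨5736, true, false, 5236794⟩, ⟨2880, false, true, 3544812⟩]))) (.leaf [⟨5732, true, false, 3386448⟩, ⟨5736, true, false, 5157901⟩, ⟨2880, true, true, 1604651⟩, ⟨2880, true, false, 3430163⟩, ⟨2880, false, false, 3198053⟩])) (.leaf [⟨5736, true, false, 4146819⟩, ⟨2880, true, true, 4337230⟩, ⟨2880, true, false, 2140767⟩, ⟨5744, true, false, 1723734⟩, ⟨0, true, false, 1535891⟩, ⟨2880, false, true, 1734664⟩, ⟨0, false, false, 1158110⟩])) (.leaf [⟨5744, true, false, 4208145⟩, ⟨2880, true, true, 2713545⟩, ⟨2880, true, false, 4019056⟩, ⟨0, true, false, 2924505⟩, ⟨0, false, false, 1350502⟩, ⟨2880, false, false, 1561462⟩])) (.leaf [⟨5756, true, false, 5740256⟩, ⟨2880, true, false, 2551440⟩, ⟨2880, true, true, 4242760⟩, ⟨0, true, false, 4242760⟩])) (by decide +kernel)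
theorem yo128 : (bN 504 936 504 9027019622).Ok := ok1 (.node true 8 2624 (.node true 16 2880 (.node true 24 2624 (.node true 56 2856 (.node true 72 2880 (.leaf [⟨2880, false, true, 5873676⟩, ⟨5688, true, false, 3855953⟩, ⟨2880, true, true, 4193462⟩, ⟨2880, false, false, 868332⟩, ⟨0, false, false, 1985793⟩]) (.leaf [⟨2880, true, true, 1754741⟩, ⟨5704, true, false, 3021050⟩, ⟨2856, false, false, 1366774⟩, ⟨5688, true, false, 2331866⟩, ⟨2880, false, false, 3152262⟩, ⟨2880, true, false, 2640861⟩, ⟨5744, true, false, 2509662⟩])) (.node true 32 2856 (.node true 40 2880 (.leaf [⟨5720, true, false, 5607262⟩, ⟨5704, true, false, 2032753⟩, ⟨2880, true, false, 4185703⟩, ⟨2880, false, false, 4951499⟩]) (.leaf [⟨5720, true, false, 1773032⟩, ⟨5728, true, false, 1503933⟩, ⟨2880, true, false, 4301189⟩, ⟨5744, true, false, 4011272⟩, ⟨2880, false, false, 5187791⟩])) (.leaf [⟨2880, true, false, 4336645⟩, ⟨5728, true, false, 1722142⟩, ⟨5744, true, false, 5486879⟩, ⟨2880, false, false,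 5231550⟩]))) (.leaf [⟨5744, true, false, 5479317⟩, ⟨5736, true, false, 1728643⟩, ⟨2880, true, false, 4345018⟩, ⟨2880, false, false, 5224239⟩])) (.leaf [⟨2880, true, true, 5094479⟩, ⟨5744, true, false, 2486751⟩, ⟨0, true, false, 3641370⟩, ⟨5752, true, false, 1488156⟩, ⟨2880, false, true, 4066460⟩])) (.leaf [⟨2880, true, false, 3632877⟩, ⟨0, true, false, 4712186⟩, ⟨5752, true, false, 3719966⟩, ⟨2880, true, true, 2432414⟩, ⟨2880, false, false, 2279773⟩])) (by decide +kernel)
theorem yo153 : (bN 540 872 540 8948536607).Ok := ok1 (.node true 4 2608 (.node true 36 2880 (.node false 4 2848 (.node false 36 2880 (.node true 52 2608 (.node true 60 2880 (.node false 52 2880 (.leaf [⟨5700, true, false, 4022481⟩, ⟨2880, false, false, 5256341⟩, ⟨2880, false, true, 1814783⟩, ⟨2880, true, false, 3996346⟩, ⟨5708, false, false, 1687265⟩]) (.leaf [⟨2880, false, true, 5474901⟩, ⟨2880, false, false, 4250142⟩, ⟨5696, false, false, 1799190⟩, ⟨5700, true, false, 5252983⟩])) (.leaf [⟨2880,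 true, false, 3831598⟩, ⟨5724, true, false, 5016678⟩, ⟨5700, true, false, 3515382⟩, ⟨2880, false, false, 2313417⟩, ⟨2880, true, true, 2100141⟩])) (.leaf [⟨5724, true, false, 5015936⟩, ⟨2880, true, false, 3866982⟩, ⟨5708, true, false, 3480725⟩, ⟨2880, false, false, 2369872⟩, ⟨2880, true, true, 2043702⟩])) (.leaf [⟨2880, false, true, 5261802⟩, ⟨5688, false, false, 2114924⟩, ⟨2880, false, false, 4399480⟩, ⟨5724, true, false, 5001010⟩])) (.leaf [⟨2880, false, true, 5267992⟩, ⟨5756, false, false, 1978327⟩, ⟨2880, false, false, 4466556⟩, ⟨5724, true, false, 5064340⟩])) (.node true 8 2880 (.leaf [⟨5752, true, false, 5232300⟩, ⟨2880, true, true, 4903372⟩, ⟨2880, false, true, 4342781⟩, ⟨5724, true, false, 2298762⟩]) (.leaf [⟨0, true, false, 5305569⟩, ⟨5752, true, false, 1884356⟩, ⟨2880, true, false, 4542959⟩, ⟨2880, false, false, 5044332⟩]))) (.leaf [⟨0, true, false, 5262130⟩, ⟨5756, true, false, 2460445⟩, ⟨2880, true, true, 4749305⟩, ⟨2880, false, true, 4305335⟩])) (by decide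 +kernel)
theorem yo61 : (bN 504 896 504 9188447507).Ok := ok1 (.node true 16 2624 (.node true 24 2872 (.node true 48 2880 (.leaf [⟨5712, true, false, 6120672⟩, ⟨2880, false, true, 5299374⟩, ⟨2880, false, false, 2440444⟩, ⟨2880, true, true, 2916727⟩]) (.leaf [⟨5736, true, false, 3590534⟩, ⟨2880, true, true, 4061478⟩, ⟨2872, false, false, 2438467⟩, ⟨0, true, false, 2083728⟩, ⟨2880, false, false, 1269606⟩, ⟨2880, false, true, 2227103⟩, ⟨5712, true, false, 1106300⟩])) (.node true 8 2872 (.leaf [⟨2880, true, true, 4876941⟩, ⟨2872, false, false, 4205383⟩, ⟨5752, true, false, 5352723⟩, ⟨5736, true, false, 2342169⟩]) (.leaf [⟨5752, true, false, 3274223⟩, ⟨0, true, false, 4458619⟩, ⟨2880, true, true, 4458618⟩, ⟨2872, false, false, 4585756⟩]))) (.node true 8 2400 (.node true 8 2640 (.node true 8 2880 (.leaf [⟨5752, true, false, 5404497⟩, ⟨2880, true, true, 4769443⟩, ⟨2880, false, true, 4129444⟩, ⟨5744, true, false, 2473832⟩]) (.leaf [⟨5752, true, false, 2006552⟩, ⟨2880, true,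 true, 3408327⟩, ⟨2880, true, false, 1931567⟩, ⟨0, true, false, 3408325⟩, ⟨5744, true, false, 3347487⟩, ⟨2640, false, false, 2674958⟩])) (.leaf [⟨5752, true, false, 3243528⟩, ⟨0, true, false, 4511230⟩, ⟨2880, true, true, 4511228⟩, ⟨2880, false, true, 4511230⟩])) (.leaf [⟨0, true, false, 5404726⟩, ⟨2880, true, true, 4723633⟩, ⟨5752, true, false, 2544563⟩, ⟨2880, false, true, 4104294⟩]))) (by decide +kernel)
theorem yo100 : (bN 552 824 552 9053693572).Ok := ok1 (.node true 8 2400 (.node true 40 2840 (.node true 56 2880 (.leaf [⟨5720, true, false, 4229518⟩, ⟨2880, false, true, 5929669⟩, ⟨2880, false, false, 1752264⟩, ⟨2880, true, true, 3427593⟩, ⟨0, false, false, 1438172⟩]) (.node true 48 2880 (.leaf [⟨5720, true, false, 5382064⟩, ⟨2880, true, true, 4725809⟩, ⟨5704, true, false, 1845986⟩, ⟨2880, false, true, 4823357⟩]) (.leaf [⟨2880, true, true, 2812191⟩, ⟨5720, true, false, 3085403⟩, ⟨2840, false, false, 2646461⟩, ⟨0, true, false, 2174784⟩, ⟨5712, true, false, 1822853⟩,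 ⟨2880, true, false, 2174783⟩, ⟨2880, false, false, 2060741⟩]))) (.node true 16 2840 (.node true 24 2880 (.leaf [⟨5736, true, false, 5385511⟩, ⟨2880, false, true, 4712054⟩, ⟨2880, true, true, 4685712⟩, ⟨5720, true, false, 1993939⟩]) (.node true 8 2880 (.leaf [⟨5752, true, false, 5452446⟩, ⟨5736, true, false, 2455241⟩, ⟨2880, true, false, 4499748⟩, ⟨2880, false, false, 4369781⟩]) (.leaf [⟨5744, true, false, 4616005⟩, ⟨0, true, false, 3893151⟩, ⟨2880, true, false, 4374909⟩, ⟨2880, true, true, 3893151⟩]))) (.leaf [⟨0, true, false, 4489771⟩, ⟨5744, true, false, 2467742⟩, ⟨2880, false, true, 4489770⟩, ⟨2880, true, true, 4329955⟩, ⟨5752, true, false, 999978⟩]))) (.leaf [⟨0, true, false, 5497145⟩, ⟨5752, true, false, 2498576⟩, ⟨2880, false, true, 4486729⟩, ⟨2880, true, true, 4294767⟩])) (by decide +kernel)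
theorem yo60 : (bN 552 792 552 9187252013).Ok := ok1 (.node true 240 2400 (.leaf [⟨0, true, false, 5448240⟩, ⟨2880, false, false, 3263369⟩, ⟨2880, false, true, 5393586⟩, ⟨2880, true, true, 2185192⟩, ⟨2560, false, false, 486829⟩]) (.node true 8 2400 (.node true 16 2480 (.node true 56 2880 (.leaf [⟨5712, true, false, 5914202⟩, ⟨2880, false, true, 3381227⟩, ⟨2880, false, false, 5149125⟩, ⟨2880, true, false, 2332662⟩]) (.node true 24 2880 (.leaf [⟨5744, true, false, 5952083⟩, ⟨2880, false, true, 3525321⟩, ⟨2880, false, false, 5234300⟩, ⟨2880, true, false, 2065512⟩]) (.node true 8 2880 (.node true 16 2880 (.leaf [⟨5744, true, false, 5952083⟩, ⟨2880, false, true, 3525321⟩, ⟨2880, false, false, 5234300⟩, ⟨2880, true, false, 2065512⟩]) (.leaf [⟨5744, true, false, 4860287⟩, ⟨0, true, false, 3865361⟩, ⟨2880, true, false, 4606296⟩, ⟨2880, true, true, 3445272⟩])) (.leaf [⟨5744, true, false, 4860287⟩, ⟨0, true, false, 3865361⟩, ⟨2880, true, false, 4606296⟩, ⟨2880, true, true,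 3445272⟩])))) (.leaf [⟨0, true, false, 5501139⟩, ⟨2880, false, false, 4024880⟩, ⟨5744, true, false, 2607738⟩, ⟨2880, true, false, 4643459⟩])) (.leaf [⟨0, true, false, 5501040⟩, ⟨5744, true, false, 2607433⟩, ⟨2880, false, false, 4025116⟩, ⟨2880, true, false, 4643626⟩]))) (by decide +kernel)
theorem yo88 : (bN 560 824 560 8984174689).Ok := ok1 (.node true 8 2600 (.node true 16 2600 (.node true 48 2880 (.node false 48 2880 (.leaf [⟨2880, false, true, 2391055⟩, ⟨5712, true, false, 4277001⟩, ⟨2880, false, false, 5247091⟩, ⟨2880, true, false, 3481743⟩, ⟨5712, false, false, 1380326⟩]) (.leaf [⟨2880, false, true, 4574667⟩, ⟨2880, false, false, 3617983⟩, ⟨5712, false, false, 4009898⟩, ⟨0, false, false, 4574668⟩])) (.node true 24 2880 (.leaf [⟨5744, true, false, 5286123⟩, ⟨2880, false, true, 4756426⟩, ⟨2880, true, true, 4807819⟩, ⟨5712, true, false, 1926848⟩]) (.node true 8 2880 (.node true 16 2880 (.leaf [⟨5744, true, false, 5285676⟩, ⟨2880, true, false, 4781267⟩, ⟨5728, true,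 false, 1921869⟩, ⟨2880, false, false, 4788405⟩]) (.leaf [⟨5744, true, false, 4612524⟩, ⟨0, true, false, 3901573⟩, ⟨2880, true, false, 4361545⟩, ⟨2880, true, true, 3901573⟩])) (.leaf [⟨5744, true, false, 4612525⟩, ⟨0, true, false, 3901573⟩, ⟨2880, true, false, 4361545⟩, ⟨2880, true, true, 3901573⟩])))) (.leaf [⟨0, true, false, 5353380⟩, ⟨5744, true, false, 2265625⟩, ⟨2880, false, true, 4622333⟩, ⟨2880, true, true, 4535877⟩])) (.leaf [⟨0, true, false, 5353380⟩, ⟨5744, true, false, 2265625⟩, ⟨2880, false, true, 4622333⟩, ⟨2880, true, true, 4535877⟩])) (by decide +kernel)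
theorem yo57 : (bN 576 800 576 8963360909).Ok := ok1 (.node true 16 2640 (.node true 64 2880 (.node false 64 2832 (.node false 96 2880 (.leaf [⟨2880, false, true, 5901739⟩, ⟨5696, true, false, 4318628⟩, ⟨2880, false, false, 1975964⟩, ⟨2880, true, true, 3238612⟩, ⟨5664, false, false, 1342274⟩]) (.leaf [⟨2880, false, true, 4824415⟩, ⟨2880, false, false, 4159370⟩, ⟨5664, false, false, 3298144⟩, ⟨0, false, false, 3101578⟩, ⟨5696, true, false, 1393709⟩])) (.leaf [⟨2880, false, true, 4597709⟩, ⟨2880, false, false, 3937297⟩, ⟨5696, false, false, 3644501⟩, ⟨0, false, false, 4597709⟩])) (.node true 32 2880 (.leaf [⟨5728, true, false, 5083358⟩, ⟨2880, true, true, 4548730⟩, ⟨2880, true, false, 1340884⟩, ⟨2880, false, true, 3406057⟩, ⟨5696, true, false, 2398188⟩]) (.node true 16 2880 (.leaf [⟨5744, true, false, 5231633⟩, ⟨2880, true, false, 4932519⟩, ⟨5728, true, false, 1938080⟩, ⟨2880, false, false, 4674984⟩]) (.leaf [⟨5744, true, false, 4702584⟩, ⟨0, true, false, 4098018⟩,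 ⟨2880, true, false, 4437862⟩, ⟨2880, true, true, 3538753⟩])))) (.leaf [⟨0, true, false, 5318195⟩, ⟨2880, true, true, 4518083⟩, ⟨5744, true, false, 2084585⟩, ⟨2880, false, true, 4856352⟩])) (by decide +kernel)
theorem yo42 : (bN 440 1056 440 9246471010).Ok := ok1 (.node true 8 2640 (.node true 24 2880 (.node true 32 2656 (.node true 40 2880 (.node true 64 2672 (.leaf [⟨5720, true, false, 3986421⟩, ⟨2880, false, false, 2165539⟩, ⟨2880, false, true, 4914224⟩, ⟨5696, true, false, 2291269⟩, ⟨2880, true, true, 3419764⟩]) (.leaf [⟨5720, true, false, 5858541⟩, ⟨5696, true, false, 1559667⟩, ⟨2880, false, false, 5311433⟩, ⟨2880, true, false, 4047575⟩])) (.leaf [⟨2880, true, true, 4976115⟩, ⟨5720, true, false, 2942737⟩, ⟨2880, false, true, 3596869⟩, ⟨5736, true, false, 4950073⟩, ⟨0, false, false, 311421⟩])) (.leaf [⟨2880, true, true, 4971560⟩, ⟨5736, true, false, 4952489⟩, ⟨5728, true, false, 2929684⟩, ⟨2880, false, true, 3618793⟩, ⟨0, false, false, 304690⟩])) (.leaf [⟨5736,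 true, false, 4381914⟩, ⟨2880, true, true, 3951623⟩, ⟨2880, true, false, 2909221⟩, ⟨5752, true, false, 2104531⟩, ⟨2880, false, true, 1353631⟩, ⟨0, false, false, 2076295⟩])) (.leaf [⟨5752, true, false, 2941181⟩, ⟨2880, true, true, 5106518⟩, ⟨0, true, false, 4944331⟩, ⟨0, false, false, 162187⟩, ⟨2880, false, true, 3623000⟩])) (by decide +kernel)
theorem yo83 : (bN 488 920 488 9251384102).Ok := ok1 (.node true 8 2632 (.node true 24 2872 (.node true 32 2880 (.leaf [⟨5728, true, false, 6086721⟩, ⟨2880, false, true, 5099489⟩, ⟨2880, true, true, 3272922⟩, ⟨2880, false, false, 2318084⟩]) (.leaf [⟨2880, true, true, 2463912⟩, ⟨5736, true, false, 3321556⟩, ⟨5728, true, false, 2196750⟩, ⟨2872, false, false, 1587662⟩, ⟨0, true, false, 1971250⟩, ⟨2880, false, false, 2617244⟩, ⟨2880, true, false, 2618843⟩])) (.node true 16 2872 (.leaf [⟨5744, true, false, 5291497⟩, ⟨2880, true, true, 5066522⟩, ⟨2872, false, false, 4237866⟩, ⟨5736, true, false, 2181330⟩]) (.node true 8 2872 (.leaf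 [⟨5752, true, false, 5241254⟩, ⟨2880, true, true, 5130170⟩, ⟨2872, false, false, 4289451⟩, ⟨5744, true, false, 2116341⟩]) (.leaf [⟨5752, true, false, 3760827⟩, ⟨0, true, false, 4314626⟩, ⟨2880, true, true, 4261547⟩, ⟨2872, false, false, 4440217⟩])))) (.leaf [⟨0, true, false, 5062929⟩, ⟨5752, true, false, 3116551⟩, ⟨2880, true, true, 4729904⟩, ⟨2880, true, false, 822210⟩, ⟨2880, false, true, 3045622⟩])) (by decide +kernel)
theorem yo117 : (bN 480 992 480 9044397558).Ok := ok1 (.node true 16 2400 (.node true 32 2864 (.node true 64 2880 (.leaf [⟨5696, true, false, 6340793⟩, ⟨2880, false, true, 5130206⟩, ⟨2880, false, false, 2492190⟩, ⟨2880, true, true, 2814026⟩]) (.node true 48 2880 (.leaf [⟨5728, true, false, 5312990⟩, ⟨5696, true, false, 3272564⟩, ⟨2880, true, true, 4834937⟩, ⟨2880, false, true, 3356725⟩]) (.leaf [⟨5712, true, false, 4043998⟩, ⟨2880, true, true, 2471246⟩, ⟨2880, true, false, 3640903⟩, ⟨5728, true, false, 2052895⟩, ⟨2880, false, false, 1980661⟩, ⟨0,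 true, false, 1689705⟩, ⟨0, false, false, 897807⟩]))) (.leaf [⟨5728, true, false, 4128595⟩, ⟨2880, true, true, 4411992⟩, ⟨2880, true, false, 1988351⟩, ⟨0, true, false, 2394153⟩, ⟨0, false, false, 1038576⟩, ⟨5744, true, false, 1026250⟩, ⟨2880, false, true, 1789300⟩])) (.leaf [⟨5744, true, false, 5758553⟩, ⟨2880, true, true, 4280376⟩, ⟨2880, true, false, 2457911⟩, ⟨0, true, false, 4280376⟩])) (by decide +kernel)
theorem yo64 : (bN 520 872 520 9128014318).Ok := ok1 (.node true 24 2616 (.node true 32 2880 (.leaf [⟨5736, true, false, 5311350⟩, ⟨2880, false, true, 5456912⟩, ⟨2880, false, false, 2066638⟩, ⟨2880, true, true, 3418101⟩, ⟨0, false, false, 524215⟩]) (.leaf [⟨0, true, false, 3940215⟩, ⟨2880, false, true, 4077230⟩, ⟨2880, true, true, 4509471⟩, ⟨5728, true, false, 2676603⟩, ⟨5736, true, false, 1573696⟩])) (.node true 8 2400 (.node true 16 2640 (.leaf [⟨0, true, false, 3933810⟩, ⟨2880, false, true, 4077612⟩, ⟨2880, true, true, 4481692⟩, ⟨5736, true, false, 2701143⟩,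 ⟨5744, true, false, 1582960⟩]) (.leaf [⟨0, true, false, 5489581⟩, ⟨2880, true, true, 4502081⟩, ⟨2880, false, true, 4118187⟩, ⟨5744, true, false, 2667367⟩])) (.leaf [⟨0, true, false, 5522877⟩, ⟨2880, false, true, 4078531⟩, ⟨5752, true, false, 2750717⟩, ⟨2880, true, true, 4425091⟩]))) (by decide +kernel)
theorem yo127 : (bN 472 992 472 9124748614).Ok := ok1 (.node true 8 2640 (.node true 24 2880 (.node true 32 2640 (.node true 56 2880 (.leaf [⟨5704, true, false, 6322482⟩, ⟨2880, false, true, 5018141⟩, ⟨2880, false, false, 2439640⟩, ⟨2880, true, true, 2996952⟩]) (.leaf [⟨5704, true, false, 3058105⟩, ⟨2880, true, true, 4941157⟩, ⟨5736, true, false, 5280339⟩, ⟨2880, false, true, 3497615⟩])) (.leaf [⟨5728, true, false, 2992762⟩, ⟨5736, true, false, 5267372⟩, ⟨2880, true, true, 4928970⟩, ⟨2880, false, true, 3588112⟩])) (.leaf [⟨5736, true, false, 3391741⟩, ⟨2880, true, true, 4933111⟩, ⟨2880, true, false, 456039⟩, ⟨5752, true, false, 2486985⟩, ⟨2880, false, true, 3009808⟩,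 ⟨0, true, false, 2499531⟩])) (.leaf [⟨5752, true, false, 4936599⟩, ⟨2880, true, true, 3433116⟩, ⟨2880, true, false, 4832548⟩, ⟨0, true, false, 641633⟩, ⟨0, false, false, 2933319⟩])) (by decide +kernel)
theorem yo132 : (bN 488 952 488 9110302401).Ok := ok1 (.node true 8 2632 (.node true 48 2872 (.leaf [⟨5712, true, false, 4191953⟩, ⟨2880, false, false, 4860947⟩, ⟨2888, true, false, 3924512⟩, ⟨2880, true, true, 378138⟩, ⟨2880, false, true, 1836478⟩, ⟨0, false, false, 1585189⟩]) (.node true 16 2872 (.leaf [⟨2880, true, true, 5012414⟩, ⟨5744, true, false, 5245439⟩, ⟨5712, true, false, 2623706⟩, ⟨2872, false, false, 3895657⟩]) (.leaf [⟨5744, true, false, 4895648⟩, ⟨2880, true, true, 3380524⟩, ⟨2880, true, false, 4686661⟩, ⟨5752, true, false, 1078684⟩, ⟨0, false, false, 2735698⟩]))) (.leaf [⟨5752, true, false, 5186679⟩, ⟨2880, true, true, 2355959⟩, ⟨2880, true, false, 5074908⟩, ⟨0, false, false, 4159670⟩])) (by decide +kernel)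
theorem yo20 : (bN 384 688 688 9786732327).Ok := ok1 (.leaf [⟨2880, true, false, 5586681⟩, ⟨2880, true, true, 2792156⟩, ⟨0, true, false, 4185539⟩, ⟨688, false, true, 2208536⟩, ⟨2880, false, false, 2004304⟩]) (by decide +kernel)
theorem yo40 : (bN 336 720 720 9821561823).Ok := ok1 (.leaf [⟨2880, true, false, 5513371⟩, ⟨2880, true, true, 2500606⟩, ⟨720, false, true, 2432777⟩, ⟨0, true, false, 3900425⟩, ⟨2880, false, false, 2430036⟩]) (by decide +kernel)
theorem yo0 : (bN 320 1344 320 9923510449).Ok := ok1 (.leaf [⟨0, true, false, 6125252⟩, ⟨5440, true, true, 1921969⟩, ⟨5440, true, false, 4574699⟩, ⟨2880, true, true, 4155296⟩]) (by decide +kernel)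
theorem yo2 : (bN 400 1040 400 9689216418).Ok := ok1 (.leaf [⟨0, true, false, 5849117⟩, ⟨2880, false, false, 1443543⟩, ⟨2880, false, true, 5078983⟩, ⟨2880, true, true, 4405573⟩]) (by decide +kernel)
theorem yo7 : (bN 512 768 512 9580551998).Ok := ok1 (.leaf [⟨2880, false, true, 5420428⟩, ⟨0, true, false, 6789892⟩, ⟨2880, false, false, 4492945⟩, ⟨2880, true, true, 73951⟩]) (by decide +kernel)
theorem yo11 : (bN 416 1072 416 9383479728).Ok := ok1 (.leaf [⟨0, true, false, 5883737⟩, ⟨2880, false, false, 1715780⟩, ⟨2880, false, true, 5009742⟩, ⟨2880, true, true, 4167958⟩]) (by decide +kernel)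
theorem yo13 : (bN 400 1088 400 9522839789).Ok := ok1 (.leaf [⟨0, true, false, 5879023⟩, ⟨2880, false, false, 1587833⟩, ⟨2880, false, true, 5019169⟩, ⟨2880, true, true, 4291191⟩]) (by decide +kernel)
theorem yo16 : (bN 464 912 464 9461884189).Ok := ok1 (.leaf [⟨0, true, false, 6196984⟩, ⟨2880, false, false, 2322030⟩, ⟨2880, false, true, 5044458⟩, ⟨2880, true, true, 3213744⟩]) (by decide +kernel)
theorem yo19 : (bN 416 1088 416 9328512709).Ok := ok1 (.leaf [⟨0, true, false, 5893135⟩, ⟨2880, false, false, 1762678⟩, ⟨2880, false, true, 4990946⟩, ⟨2880, true, true, 4130458⟩]) (by decide +kernel)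
theorem yo23 : (bN 496 864 496 9319858292).Ok := ok1 (.leaf [⟨0, true, false, 6355254⟩, ⟨2880, false, false, 3011133⟩, ⟨2880, false, true, 5119005⟩, ⟨2880, true, true, 2291825⟩]) (by decide +kernel)
theorem yo25 : (bN 416 1024 416 9463053404).Ok := ok1 (.leaf [⟨0, true, false, 5854571⟩, ⟨2880, false, false, 1566368⟩, ⟨2880, false, true, 5068074⟩, ⟨2880, true, true, 4288203⟩]) (by decide +kernel)
theorem yo28 : (bN 496 816 496 9485652431).Ok := ok1 (.leaf [⟨2880, false, true, 4013616⟩, ⟨0, true, false, 6692664⟩, ⟨2880, false, false, 4870973⟩, ⟨2880, true, false, 1199963⟩]) (by decide +kernel)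
theorem yo30 : (bN 432 1040 432 9316583829).Ok := ok1 (.leaf [⟨0, true, false, 5877349⟩, ⟨2880, false, false, 1801828⟩, ⟨2880, false, true, 5022517⟩, ⟨2880, true, true, 4075522⟩]) (by decide +kernel)
theorem yo32 : (bN 480 912 480 9315476131).Ok := ok1 (.leaf [⟨0, true, false, 6045798⟩, ⟨2880, false, false, 2310521⟩, ⟨2880, false, true, 5075731⟩, ⟨2880, true, true, 3345166⟩]) (by decide +kernel)
theorem yo34 : (bN 416 1056 416 9408114012).Ok := ok1 (.leaf [⟨0, true, false, 5874189⟩, ⟨2880, false, false, 1667509⟩, ⟨2880, false, true, 5028838⟩, ⟨2880, true, true, 4206680⟩]) (by decide +kernel)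
theorem yo37 : (bN 384 1216 384 9219045115).Ok := ok1 (.leaf [⟨0, true, false, 5940181⟩, ⟨2880, false, false, 1757750⟩, ⟨2880, false, true, 4896855⟩, ⟨2880, true, true, 4182431⟩]) (by decide +kernel)
theorem yo46 : (bN 496 912 496 9162575202).Ok := ok1 (.leaf [⟨0, true, false, 5904383⟩, ⟨2880, false, true, 5093795⟩, ⟨2880, false, false, 2318060⟩, ⟨2880, true, true, 3460979⟩]) (by decide +kernel)
theorem yo48 : (bN 560 784 560 9129070277).Ok := ok1 (.leaf [⟨2880, false, true, 5611124⟩, ⟨0, true, false, 5979127⟩, ⟨2880, false, false, 3649325⟩, ⟨2880, true, true, 1537641⟩]) (by decide +kernel)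
theorem yo50 : (bN 576 768 576 9078190863).Ok := ok1 (.leaf [⟨0, true, false, 5887516⟩, ⟨2880, false, true, 5716156⟩, ⟨2880, false, false, 3970215⟩, ⟨2880, true, true, 1203329⟩]) (by decide +kernel)
theorem yo52 : (bN 384 1088 384 9717198563).Ok := ok1 (.leaf [⟨0, true, false, 5862586⟩, ⟨2880, false, false, 1421753⟩, ⟨2880, false, true, 5052045⟩, ⟨2880, true, true, 4440833⟩]) (by decide +kernel)
theorem yo108 : (bN 456 984 456 9221675026).Ok := ok1 (.leaf [⟨0, true, false, 5860803⟩, ⟨2880, false, false, 5860803⟩, ⟨2880, false, true, 1106793⟩, ⟨2880, true, false, 3948818⟩]) (by decide +kernel)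
theorem yo4 : (bN 624 656 624 9266318764).Ok := ok1 (.leaf [⟨2880, false, true, 6626431⟩, ⟨0, true, false, 5188787⟩, ⟨2880, false, false, 4961997⟩]) (by decide +kernel)
theorem yo9 : (bN 576 672 576 9514482880).Ok := ok1 (.leaf [⟨2880, false, true, 6402651⟩, ⟨2880, false, false, 4665058⟩, ⟨0, true, false, 5709506⟩]) (by decide +kernel)
theorem yo17 : (bN 128 1536 128 9720043450).Ok := ok1 (.leaf [⟨0, true, false, 5476863⟩, ⟨2880, true, true, 5476863⟩, ⟨2880, false, true, 5823490⟩]) (by decide +kernel)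
theorem yo26 : (bN 592 704 592 9261420294).Ok := ok1 (.leaf [⟨2880, false, true, 6173465⟩, ⟨0, true, false, 5718098⟩, ⟨2880, false, false, 4885654⟩]) (by decide +kernel)
theorem yo43 : (bN 608 608 608 9529760838).Ok := ok1 (.leaf [⟨2880, false, true, 7055530⟩, ⟨0, true, false, 4966786⟩, ⟨2880, false, false, 4754901⟩]) (by decide +kernel)

end Pool.Agent.P.MP_d76e6a_co
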