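import Pool.Agent.P.MP_d76e6a_co.ZTree

/-! Long numbers written as lists of blocks. -/

namespace Pool.Agent.P.MP_d76e6a_co

def catN (l : List ℕ) : ℕ := List.rec 0 (fun x _ ih => Nat.add x (Nat.shiftLeft ih 32768)) l

end Pool.Agent.P.MP_d76e6a_co
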