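import Pool.Agent.P.MP_d76e6a_co.ZPos

/-!
The check of a certificate on one half.
-/

namespace Pool.Agent.P.MP_d76e6a_co

open Real

noncomputable section

/-- A mass at direction `p` with sorting key `k`; `s` says that it is known to follow its
predecessor. -/
structure Am where
  p : Ps
  k : ℕ
  s : Bool
  x : T3
  y : T3

/-- The value of a list of masses with their true coordinates. -/
def aval (V : Vr) (H : Half) (gl : List (Am × ℝ × ℝ)) : ℝ :=
  (gl.map fun g => H.X (H.d (pv V g.1.p)) * g.2.1 + H.Y (H.d (pv V g.1.p)) * g.2.2).sum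

def adjK (T : Tb) (l : List Am) : Ps → Bool :=
  List.rec (fun p => ple T p pP) (fun a _ ih p => (a.s || ple T p a.p) && ih a.p) l

def nthK {α : Type} (l : List α) : ℕ → (α → Bool) → Bool :=
  List.rec (fun _ _ => false) (fun a _ ih i k => Nat.rec (k a) (fun j _ => ih j k) i) l

def rulK (T : Tb) (fs : List Fc) (l : List Am) (c : ℕ) :
    ℕ → (List (ℕ × ℕ) → List (ℕ × ℕ) → Bool) → Bool :=
  Nat.rec (fun _ k => k [] []) (fun _ ih n k => gN (Nat.land n 15) fun f =>
    gN (Nat.land (Nat.shiftRight n 4) 31) fun i => gN (Nat.land (Nat.shiftRight n 9) 31) fun j =>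
    gN (Nat.shiftRight n 14) fun n => ih n fun r0 r1 => nthK fs f fun c => nthK l i fun x =>
    nthK l j fun y => Bool.rec
      (Bool.rec (k r0 r1) (k ((i, j) :: r0) r1) (ple T x.p c.a && ple T y.p c.b))
      (Bool.rec (k r0 r1) (k r0 ((i, j) :: r1)) (ple T c.a x.p && ple T c.b y.p)) c.f) c

/-- Partial sums of the masses and of their bounds. -/
structure Cm where
  x : T3
  y : T3
  a : ℕ
  b : ℕ
  c : ℕ
  d : ℕ

def acc (s h : ℕ) : ℕ := Nat.sub (Nat.add s h) 4503599627370496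

def cm0 : Cm := ⟨cT 0, cT 0, 1152921504606846976, 1152921504606846976, 1152921504606846976,
  1152921504606846976⟩

def cumK (l : List Am) : Cm → (List Cm → Bool) → Bool :=
  List.rec (fun _ k => k []) (fun a _ ih P k => ivZ a.x fun h1 l1 => ivZ a.y fun h2 l2 =>
    gT (P.x.add a.x) fun x => gT (P.y.add a.y) fun y => gN (acc P.a h1) fun u =>
    gN (acc P.b l1) fun v => gN (acc P.c h2) fun w => gN (acc P.d l2) fun z =>
    ih ⟨x, y, u, v, w, z⟩ fun r => k (⟨x, y, u, v, w, z⟩ :: r)) l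

def tstK (P c : Cm) : Bool :=
  nrm (Nat.sub c.a P.a) (Nat.sub c.b P.b) (Nat.sub c.c P.c) (Nat.sub c.d P.d) ||
    gT (wsb c.x P.x) fun x => gT (wsb c.y P.y) fun y => nnT (wsb oneT ((x.mul x).add (y.mul y)))

def hmin (i : ℕ) (r : List (ℕ × ℕ)) : ℕ :=
  List.rec 0 (fun a _ ih => Bool.rec ih (Nat.add a.2 (Nat.sub ih a.2)) (Nat.ble i a.1)) r

def hmax (i : ℕ) (r : List (ℕ × ℕ)) : ℕ :=
  List.rec 64 (fun a _ ih => Bool.rec ih (Nat.sub a.2 (Nat.sub a.2 ih)) (Nat.blt a.1 i)) r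

def innK (P : Cm) (mn mx : ℕ) (l : List Cm) : ℕ → Bool :=
  List.rec (fun _ => true) (fun c _ ih j =>
    Nat.ble mx j || (Nat.blt j mn || tstK P c) && gN (Nat.succ j) ih) l

def ouK (r0 r1 : List (ℕ × ℕ)) (l : List Cm) : Cm → ℕ → Bool :=
  List.rec (fun _ _ => true) (fun c r ih P i =>
    (gN (hmin i r0) fun mn => gN (hmax i r1) fun mx => innK P mn mx (c :: r) i) &&
      gN (Nat.succ i) (ih c)) l

/-- The check for one order of the masses. -/
def ordK (T : Tb) (fs : List Fc) (nr rl : ℕ) (l : List Am) : Bool :=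
  adjK T l pZ && Nat.ble l.length 60 &&
    rulK T fs l nr rl fun r0 r1 => cumK l cm0 fun cs => ouK r0 r1 cs cm0 0

def fl (b : Bool) (a : Am) : Am := ⟨a.p, a.k, b, a.x, a.y⟩

def mkL (l : List Am) : ℕ → (List Am → Bool) → Bool :=
  List.rec (fun _ _ => false) (fun a r ih i k => Nat.rec
    (List.rec false (fun b r _ => k (a :: fl true b :: r)) r)
    (fun j _ => ih j fun r => k (a :: r)) i) l

def swL (l : List Am) : ℕ → (List Am → Bool) → Bool :=
  List.rec (fun _ _ => false) (fun a r ih i k => Nat.rec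
    (List.rec false (fun b r _ => List.rec (k [fl false b, fl true a])
      (fun c r _ => k (fl false b :: fl true a :: fl false c :: r)) r) r)
    (fun j _ => ih j fun r => k (a :: r)) i) l

def swK (f : List Am → Bool) (c : ℕ) : ℕ → List Am → Bool :=
  Nat.rec (fun _ l => f l) (fun _ ih n l => gN (Nat.land n 31) fun i =>
    gN (Nat.shiftRight n 5) fun n => mkL l i (ih n) && swL l i (ih n)) c

def halfK (T : Tb) (fs : List Fc) (l : List Am) (n : ℕ) (k : ℕ → Bool) : Bool :=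
  rd 2 n fun ns n => rd (Nat.mul 5 ns) n fun sw n => rd 4 n fun nr n =>
    rd (Nat.mul 14 nr) n fun rl n => swK (ordK T fs nr rl) ns sw l && k n

/-- The flags are justified. -/
def Fl (V : Vr) : Ps → List Am → Prop
  | _, [] => True
  | p, a :: r => (a.s = true → pv V p ≤ pv V a.p) ∧ Fl V a.p r

theorem zh_adj {V : Vr} {T : Tb} (o : TbOK V T) (l : List Am) : ∀ p, Fl V p l →
    adjK T l p = true → pv V p ≤ π ∧ (∀ a ∈ l, pv V p ≤ pv V a.p ∧ pv V a.p ≤ π) ∧
      l.Pairwise fun a b => pv V a.p ≤ pv V b.p := by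
  induction l with
  | nil => exact fun p _ h => ⟨pv_pP V ▸ ple_spec o h, by simp, List.Pairwise.nil⟩
  | cons a r ih =>
    intro p hs h
    obtain ⟨h1, h2⟩ := and_el (a := a.s || ple T p a.p) (b := adjK T r a.p) h
    obtain ⟨k1, k2, k3⟩ := ih a.p hs.2 h2
    have h3 : pv V p ≤ pv V a.p := (Bool.or_eq_true _ _ ▸ h1).elim hs.1 (ple_spec o)
    refine ⟨h3.trans k1, fun b hb => ?_, List.pairwise_cons.2 ⟨fun b hb => (k2 b hb).1, k3⟩⟩
    rcases List.mem_cons.1 hb with rfl | hb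
    · exact ⟨h3, k1⟩
    · exact ⟨h3.trans (k2 b hb).1, (k2 b hb).2⟩

theorem zh_nth {α : Type} (l : List α) : ∀ i (k : α → Bool), nthK l i k = true →
    ∃ a, l[i]? = some a ∧ k a = true := by
  induction l with
  | nil => exact fun _ _ h => absurd h Bool.false_ne_true
  | cons a r ih =>
    intro i k h
    cases i with
    | zero => exact ⟨a, rfl, h⟩
    | succ j => exact ih j k h

/-- A rule of the first kind. -/
def zh_R0 (V : Vr) (fs : List Fc) (l : List Am) (a : ℕ × ℕ) : Prop :=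
  ∃ x y, ∃ c ∈ fs, l[a.1]? = some x ∧ l[a.2]? = some y ∧ c.f = false ∧ pv V x.p ≤ pv V c.a ∧
    pv V y.p ≤ pv V c.b

/-- A rule of the second kind. -/
def zh_R1 (V : Vr) (fs : List Fc) (l : List Am) (a : ℕ × ℕ) : Prop :=
  ∃ x y, ∃ c ∈ fs, l[a.1]? = some x ∧ l[a.2]? = some y ∧ c.f = true ∧ pv V c.a ≤ pv V x.p ∧
    pv V c.b ≤ pv V y.p

theorem zh_rul_succ (T : Tb) (fs : List Fc) (l : List Am) (c n : ℕ)
    (k : List (ℕ × ℕ) → List (ℕ × ℕ) → Bool) : rulK T fs l (c + 1) n k =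
    gN (Nat.land n 15) fun f =>
    gN (Nat.land (Nat.shiftRight n 4) 31) fun i => gN (Nat.land (Nat.shiftRight n 9) 31) fun j =>
    gN (Nat.shiftRight n 14) fun n => rulK T fs l c n fun r0 r1 => nthK fs f fun c =>
    nthK l i fun x => nthK l j fun y => Bool.rec
      (Bool.rec (k r0 r1) (k ((i, j) :: r0) r1) (ple T x.p c.a && ple T y.p c.b))
      (Bool.rec (k r0 r1) (k r0 ((i, j) :: r1)) (ple T c.a x.p && ple T c.b y.p)) c.f := rfl

theorem zh_rul {V : Vr} {T : Tb} (o : TbOK V T) (fs : List Fc) (l : List Am) (c : ℕ) :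
    ∀ n k, rulK T fs l c n k = true → ∃ r0 r1, k r0 r1 = true ∧ (∀ a ∈ r0, zh_R0 V fs l a) ∧
      ∀ a ∈ r1, zh_R1 V fs l a := by
  induction c with
  | zero => exact fun n k h => ⟨[], [], h, by simp, by simp⟩
  | succ c ih =>
    intro n k h
    rw [zh_rul_succ] at h
    obtain ⟨f, h⟩ := gN_ex h
    obtain ⟨i, h⟩ := gN_ex h
    obtain ⟨j, h⟩ := gN_ex h
    obtain ⟨n, h⟩ := gN_ex h
    obtain ⟨r0, r1, h, h0, h1⟩ := ih n _ h
    obtain ⟨c, hc, h⟩ := zh_nth _ _ _ h
    obtain ⟨x, hx, h⟩ := zh_nth _ _ _ h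
    obtain ⟨y, hy, h⟩ := zh_nth _ _ _ h
    have hm := List.mem_of_getElem? hc
    cases hf : c.f
    · rw [hf] at h
      cases ht : (ple T x.p c.a && ple T y.p c.b)
      · rw [ht] at h
        exact ⟨r0, r1, h, h0, h1⟩
      · rw [ht] at h
        exact ⟨_, r1, h, List.forall_mem_cons.2 ⟨⟨x, y, c, hm, hx, hy, hf,
          ple_spec o (and_el ht).1, ple_spec o (and_el ht).2⟩, h0⟩, h1⟩
    · rw [hf] at h
      cases ht : (ple T c.a x.p && ple T c.b y.p)
      · rw [ht] at h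
        exact ⟨r0, r1, h, h0, h1⟩
      · rw [ht] at h
        exact ⟨r0, _, h, h0, List.forall_mem_cons.2 ⟨⟨x, y, c, hm, hx, hy, hf,
          ple_spec o (and_el ht).1, ple_spec o (and_el ht).2⟩, h1⟩⟩

theorem zh_hmin {i m : ℕ} (r : List (ℕ × ℕ)) (h : ∀ a ∈ r, i ≤ a.1 → a.2 ≤ m) : hmin i r ≤ m := by
  induction r with
  | nil => exact Nat.zero_le m
  | cons a r ih =>
    have h1 := ih fun b hb => h b (List.mem_cons_of_mem _ hb)
    have h2 := h a List.mem_cons_self
    show (Bool.rec (hmin i r) (a.2 + (hmin i r - a.2)) (Nat.ble i a.1) : ℕ) ≤ m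
    cases hb : Nat.ble i a.1
    · exact h1
    · have h3 := h2 (Nat.le_of_ble_eq_true hb)
      show a.2 + (hmin i r - a.2) ≤ m
      omega

theorem zh_hmax {i m : ℕ} (hm : m < 64) (r : List (ℕ × ℕ)) (h : ∀ a ∈ r, a.1 < i → m < a.2) :
    m < hmax i r := by
  induction r with
  | nil => exact hm
  | cons a r ih =>
    have h1 := ih fun b hb => h b (List.mem_cons_of_mem _ hb)
    have h2 := h a List.mem_cons_self
    show m < (Bool.rec (hmax i r) (a.2 - (a.2 - hmax i r)) (Nat.blt a.1 i) : ℕ)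
    cases hb : Nat.blt a.1 i
    · exact h1
    · have h3 := h2 (Nat.blt_eq ▸ hb)
      show m < a.2 - (a.2 - hmax i r)
      omega

theorem zh_inn {P : Cm} {mn mx : ℕ} (l : List Cm) : ∀ j, innK P mn mx l j = true →
    ∀ b c, l[b]? = some c → j + b < mx → mn ≤ j + b → tstK P c = true := by
  induction l with
  | nil => exact fun _ _ _ _ h => by simp at h
  | cons a r ih =>
    intro j h b c hc h1 h2
    have h3 : (Nat.ble mx j || (Nat.blt j mn || tstK P a) && gN (Nat.succ j) (innK P mn mx r))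
      = true := h
    simp only [gN_eq, Bool.or_eq_true, Bool.and_eq_true, Nat.ble_eq, Nat.blt_eq] at h3
    rcases h3 with h3 | ⟨h3, h4⟩
    · omega
    cases b with
    | zero =>
      obtain rfl : a = c := by simpa using hc
      exact h3.resolve_left (by omega)
    | succ b => exact ih _ h4 b c hc (by omega) (by omega)

theorem zh_ou {r0 r1 : List (ℕ × ℕ)} (l : List Cm) : ∀ P i, ouK r0 r1 l P i = true →
    ∀ a b p c, a ≤ b → (P :: l)[a]? = some p → l[b]? = some c → i + b < hmax (i + a) r1 →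
      hmin (i + a) r0 ≤ i + b → tstK p c = true := by
  induction l with
  | nil => exact fun _ _ _ _ _ _ _ _ _ h => by simp at h
  | cons d r ih =>
    intro P i h a b p c hab hp hc h1 h2
    have h3 : ((gN (hmin i r0) fun mn => gN (hmax i r1) fun mx => innK P mn mx (d :: r) i) &&
      gN (Nat.succ i) (ouK r0 r1 r d)) = true := h
    simp only [gN_eq, Bool.and_eq_true] at h3
    cases a with
    | zero =>
      obtain rfl : P = p := by simpa using hp
      exact zh_inn _ _ h3.1 b c hc h1 h2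
    | succ a =>
      cases b with
      | zero => omega
      | succ b =>
        have e1 : i.succ + a = i + (a + 1) := by omega
        have e2 : i.succ + b = i + (b + 1) := by omega
        exact ih d _ h3.2 a b p c (by omega) hp hc (by rw [e1, e2]; exact h1)
          (by rw [e1, e2]; exact h2)

/-- The counters bound the differences. -/
def zh_Le (p c : Cm) (u v : ℝ) : Prop :=
  u * 1099511627776 ≤ (c.a : ℝ) - p.a ∧ -(u * 1099511627776) ≤ (c.b : ℝ) - p.b ∧
    v * 1099511627776 ≤ (c.c : ℝ) - p.c ∧ -(v * 1099511627776) ≤ (c.d : ℝ) - p.d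

theorem zh_sub (a b : ℕ) : (a : ℝ) - b ≤ (Nat.sub a b : ℕ) := by
  have h : a ≤ Nat.sub a b + b := by
    show a ≤ a - b + b
    omega
  have h1 : (a : ℝ) ≤ (Nat.sub a b : ℕ) + b := by exact_mod_cast h
  linarith

theorem zh_acc (s h : ℕ) : (h : ℝ) - 4503599627370496 ≤ (acc s h : ℝ) - s := by
  have h1 := zh_sub (Nat.add s h) 4503599627370496
  have h2 : ((Nat.add s h : ℕ) : ℝ) = s + h := Nat.cast_add s h
  rw [h2, Nat.cast_ofNat] at h1
  unfold acc
  linarith

theorem zh_tst {E : Env} {p c : Cm} {X Y X' Y' : ℝ} (h1 : p.x.Mem E X) (h2 : p.y.Mem E Y)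
    (h3 : c.x.Mem E X') (h4 : c.y.Mem E Y') (hl : zh_Le p c (X' - X) (Y' - Y))
    (h : tstK p c = true) : (X' - X) ^ 2 + (Y' - Y) ^ 2 ≤ 1 := by
  simp only [tstK, gT_eq, Bool.or_eq_true] at h
  rcases h with h | h
  · exact nrm_spec h (hl.1.trans (zh_sub _ _)) (hl.2.1.trans (zh_sub _ _))
      (hl.2.2.1.trans (zh_sub _ _)) (hl.2.2.2.trans (zh_sub _ _))
  · have a := (SM.of h3).sub (SM.of h1)
    have b := (SM.of h4).sub (SM.of h2)
    have := (SM.one.sub ((a.mul a).add (b.mul b))).nn rfl h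
    linarith

/-- A default mass. -/
def zh_d : Am × ℝ × ℝ := (⟨pZ, 0, false, badT, badT⟩, 0, 0)

/-- Partial sums. -/
def zh_S (f : Am × ℝ × ℝ → ℝ) (gl : List (Am × ℝ × ℝ)) (m : ℕ) : ℝ :=
  ∑ k ∈ Finset.range m, f (gl.getD k zh_d)

theorem zh_S_zero (f : Am × ℝ × ℝ → ℝ) (gl : List (Am × ℝ × ℝ)) : zh_S f gl 0 = 0 := rfl

theorem zh_S_succ (f : Am × ℝ × ℝ → ℝ) (g : Am × ℝ × ℝ) (gl : List (Am × ℝ × ℝ)) (m : ℕ) :
    zh_S f (g :: gl) (m + 1) = f g + zh_S f gl m := by
  rw [zh_S, Finset.sum_range_succ', add_comm]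
  rfl

theorem zh_S_len (f : Am × ℝ × ℝ → ℝ) (gl : List (Am × ℝ × ℝ)) :
    (gl.map f).sum = zh_S f gl gl.length := by
  induction gl with
  | nil => rfl
  | cons g r ih => rw [List.map_cons, List.sum_cons, ih, List.length_cons, zh_S_succ]

theorem zh_cum_cons (a : Am) (l : List Am) (P : Cm) (k : List Cm → Bool) : cumK (a :: l) P k =
    ivZ a.x fun h1 l1 => ivZ a.y fun h2 l2 =>
    gT (P.x.add a.x) fun x => gT (P.y.add a.y) fun y => gN (acc P.a h1) fun u =>
    gN (acc P.b l1) fun v => gN (acc P.c h2) fun w => gN (acc P.d l2) fun z =>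
    cumK l ⟨x, y, u, v, w, z⟩ fun r => k (⟨x, y, u, v, w, z⟩ :: r) := rfl

theorem zh_cum {E : Env} (gl : List (Am × ℝ × ℝ)) : ∀ (P : Cm) (X Y : ℝ) (k : List Cm → Bool),
    (∀ g ∈ gl, g.1.x.Mem E g.2.1 ∧ g.1.y.Mem E g.2.2) → P.x.Mem E X → P.y.Mem E Y →
    cumK (gl.map Prod.fst) P k = true → ∃ cs, k cs = true ∧ cs.length = gl.length ∧
      (∀ (m : ℕ) (c : Cm), (P :: cs)[m]? = some c → c.x.Mem E (X + zh_S (·.2.1) gl m) ∧
        c.y.Mem E (Y + zh_S (·.2.2) gl m)) ∧
      ∀ (a b : ℕ) (p c : Cm), a ≤ b → (P :: cs)[a]? = some p → (P :: cs)[b]? = some c →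
        zh_Le p c (zh_S (·.2.1) gl b - zh_S (·.2.1) gl a) (zh_S (·.2.2) gl b - zh_S (·.2.2) gl a) := by
  have z : ∀ p : Cm, zh_Le p p 0 0 := fun p => by simp [zh_Le]
  induction gl with
  | nil =>
    refine fun P X Y k _ hx hy h => ⟨[], h, rfl, fun m c hc => ?_, fun a b p c hab hp hc => ?_⟩
    · cases m with
      | zero =>
        obtain rfl : P = c := by simpa using hc
        simpa only [zh_S_zero, add_zero] using And.intro hx hy
      | succ m => simp at hc
    · cases b with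
      | zero =>
        obtain rfl : a = 0 := by omega
        obtain rfl : p = c := Option.some.inj (hp.symm.trans hc)
        simpa only [sub_self] using z p
      | succ b => simp at hc
  | cons g r ih =>
    intro P X Y k hg hx hy h
    obtain ⟨g1, g2⟩ := hg g List.mem_cons_self
    rw [List.map_cons, zh_cum_cons] at h
    obtain ⟨h1, l1, h, i1⟩ := ivZ_spec g1 h
    obtain ⟨h2, l2, h, i2⟩ := ivZ_spec g2 h
    simp only [gT_eq, gN_eq] at h
    obtain ⟨cs, hk, hl, c1, c2⟩ := ih ⟨P.x.add g.1.x, P.y.add g.1.y, acc P.a h1, acc P.b l1,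
      acc P.c h2, acc P.d l2⟩ (X + g.2.1) (Y + g.2.2) _
      (fun g hg' => hg g (List.mem_cons_of_mem _ hg')) (PT.add_mem hx g1) (PT.add_mem hy g2) h
    refine ⟨_, hk, by rw [List.length_cons, List.length_cons, hl], fun m c hc => ?_,
      fun a b p c hab hp hc => ?_⟩
    · cases m with
      | zero =>
        obtain rfl : P = c := by simpa using hc
        simpa only [zh_S_zero, add_zero] using And.intro hx hy
      | succ m =>
        rw [List.getElem?_cons_succ] at hc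
        simpa only [zh_S_succ, add_assoc] using c1 m c hc
    · cases b with
      | zero =>
        obtain rfl : a = 0 := by omega
        obtain rfl : p = c := Option.some.inj (hp.symm.trans hc)
        simpa only [sub_self] using z p
      | succ b =>
        rw [List.getElem?_cons_succ] at hc
        cases a with
        | succ a =>
          rw [List.getElem?_cons_succ] at hp
          simpa only [zh_S_succ, add_sub_add_left_eq_sub] using c2 a b p c (by omega) hp hc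
        | zero =>
          obtain rfl : P = p := by simpa using hp
          obtain ⟨q1, q2, q3, q4⟩ := c2 0 b _ c (Nat.zero_le b) List.getElem?_cons_zero hc
          obtain ⟨j1, j2⟩ := i1 E _ g1
          obtain ⟨j3, j4⟩ := i2 E _ g2
          simp only [zh_S_succ, zh_S_zero, sub_zero] at q1 q2 q3 q4 ⊢
          exact ⟨by linarith [zh_acc P.a h1], by linarith [zh_acc P.b l1],
            by linarith [zh_acc P.c h2], by linarith [zh_acc P.d l2]⟩

theorem zh_get {gl : List (Am × ℝ × ℝ)} {i : ℕ} {x : Am} (h : (gl.map Prod.fst)[i]? = some x) :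
    i < gl.length ∧ (gl.getD i zh_d).1 = x := by
  rw [List.getElem?_map, Option.map_eq_some_iff] at h
  obtain ⟨g, h1, h2⟩ := h
  exact ⟨(List.getElem?_eq_some_iff.1 h1).1, by rw [List.getD_eq_getElem?_getD, h1]; exact h2⟩

theorem zh_block {n lo hi : ℕ} {P : ℕ → Prop} [DecidablePred P] (h1 : lo ≤ hi) (h2 : hi < n)
    (h : ∀ k < n, P k ↔ lo ≤ k ∧ k ≤ hi) (u : ℕ → ℝ) :
    ∑ k ∈ Finset.range n, (if P k then u k else 0) =
      ∑ k ∈ Finset.range (hi + 1), u k - ∑ k ∈ Finset.range lo, u k := by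
  rw [← Finset.sum_filter, ← Finset.sum_Ico_eq_sub u (by omega)]
  congr 1
  ext k
  simp only [Finset.mem_filter, Finset.mem_range, Finset.mem_Ico]
  constructor
  · rintro ⟨k1, k2⟩
    have := (h k k1).1 k2
    omega
  · intro hk
    exact ⟨by omega, (h k (by omega)).2 (by omega)⟩

theorem ordK_spec {E : Env} {V : Vr} {T : Tb} (o : TbOK V T) (H : Half) {fs : List Fc}
    (hf : ∀ c ∈ fs, c.OK V H) {nr rl : ℕ} {gl : List (Am × ℝ × ℝ)}
    (hg : ∀ g ∈ gl, g.1.x.Mem E g.2.1 ∧ g.1.y.Mem E g.2.2) (hs : Fl V pZ (gl.map Prod.fst))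
    (h : ordK T fs nr rl (gl.map Prod.fst) = true) :
    (∀ g ∈ gl, 0 ≤ pv V g.1.p ∧ pv V g.1.p ≤ π) ∧ aval V H gl ≤ H.len := by
  obtain ⟨h1, h⟩ := and_el h
  obtain ⟨h1, h2⟩ := and_el h1
  obtain ⟨-, a1, a2⟩ := zh_adj o _ _ hs h1
  rw [pv_pZ] at a1
  have hn : gl.length ≤ 60 := by simpa using h2
  have b1 : ∀ g ∈ gl, 0 ≤ pv V g.1.p ∧ pv V g.1.p ≤ π := fun g hg' =>
    a1 _ (List.mem_map_of_mem hg')
  refine ⟨b1, ?_⟩
  obtain ⟨r0, r1, h, h0, h1⟩ := zh_rul o _ _ _ _ _ h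
  have m0 : (cT 0).Mem E 0 := ((SM.cst (S := (· = E)) 0).cast (by simp)) E rfl
  obtain ⟨cs, h, hl, c1, c2⟩ := zh_cum gl cm0 0 0 _ hg m0 m0 h
  set q : ℕ → ℝ := fun k => pv V (gl.getD k zh_d).1.p with hq
  have q1 : ∀ k < gl.length, 0 ≤ q k ∧ q k ≤ π := fun k hk => by
    refine b1 _ ?_
    rw [List.getD_eq_getElem _ _ hk]
    exact List.getElem_mem hk
  have q2 : ∀ i j, i ≤ j → j < gl.length → q i ≤ q j := fun i j hij hj => by
    rcases hij.eq_or_lt with rfl | hij
    · exact le_rfl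
    · have h3 := List.pairwise_iff_getElem.1 (List.pairwise_map.1 a2) i j (hij.trans hj) hj hij
      simp only [hq, List.getD_eq_getElem _ _ hj, List.getD_eq_getElem _ _ (hij.trans hj)]
      exact h3
  rw [aval, zh_S_len]
  refine H.sum_le (Finset.range gl.length) (fun k => H.d (q k)) (fun k => H.hd _)
    (fun k => (gl.getD k zh_d).2.1) (fun k => (gl.getD k zh_d).2.2) fun j => ?_
  by_cases hne : ((Finset.range gl.length).filter fun k => j < H.d (q k)).Nonempty
  swap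
  · have h3 : ∀ k ∈ Finset.range gl.length, ¬ j < H.d (q k) := fun k hk hj =>
      hne ⟨k, Finset.mem_filter.2 ⟨hk, hj⟩⟩
    rw [Finset.sum_eq_zero fun k hk => if_neg (h3 k hk),
      Finset.sum_eq_zero fun k hk => if_neg (h3 k hk)]
    norm_num
  obtain ⟨lo, l1, l2⟩ := Finset.exists_min_image _ id hne
  obtain ⟨hi, u1, u2⟩ := Finset.exists_max_image _ id hne
  simp only [Finset.mem_filter, Finset.mem_range, id, and_imp] at l1 l2 u1 u2
  have lh := l2 hi u1.1 u1.2
  have hb : ∀ k < gl.length, j < H.d (q k) ↔ lo ≤ k ∧ k ≤ hi := fun k hk =>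
    ⟨fun hj => ⟨l2 k hk hj, u2 k hk hj⟩, fun hj => by
      have := H.qc _ _ _ (q1 lo l1.1).1 (q2 lo k hj.1 hk) (q2 k hi hj.2 u1.1) (q1 hi u1.1).2
      omega⟩
  rw [zh_block lh u1.1 hb, zh_block lh u1.1 hb]
  obtain ⟨p, hp⟩ : ∃ p, (cm0 :: cs)[lo]? = some p :=
    ⟨_, List.getElem?_eq_getElem (by rw [List.length_cons]; omega)⟩
  obtain ⟨c, hc⟩ : ∃ c, cs[hi]? = some c := ⟨_, List.getElem?_eq_getElem (by omega)⟩
  have t := zh_ou cs cm0 0 h lo hi p c lh hp hc ?_ ?_
  · obtain ⟨e1, e2⟩ := c1 lo p hp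
    obtain ⟨e3, e4⟩ := c1 (hi + 1) c hc
    rw [zero_add] at e1 e2 e3 e4
    exact zh_tst e1 e2 e3 e4 (c2 lo (hi + 1) p c (by omega) hp hc) t
  · rw [zero_add, zero_add]
    refine zh_hmax (by omega) r1 fun a ha hlt => ?_
    obtain ⟨x, y, f, hm, hx, hy, hff, w1, w2⟩ := h1 a ha
    obtain ⟨x1, x2⟩ := zh_get hx
    obtain ⟨y1, y2⟩ := zh_get hy
    obtain ⟨f1, -, -, f4⟩ := hf f hm
    rw [hff, if_pos rfl] at f4
    rw [← x2] at w1
    rw [← y2] at w2
    by_contra hcon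
    have w3 := f4 (q hi) (w2.trans (q2 a.2 hi (by omega) u1.1)) (q1 hi u1.1).2
    have w4 := H.qc _ (q a.1) _ f1 w1 (q2 a.1 hi (by omega) u1.1) (q1 hi u1.1).2
    have w5 := l2 a.1 x1 (by omega)
    omega
  · rw [zero_add, zero_add]
    refine zh_hmin r0 fun a ha hle => ?_
    obtain ⟨x, y, f, hm, hx, hy, hff, w1, w2⟩ := h0 a ha
    obtain ⟨x1, x2⟩ := zh_get hx
    obtain ⟨y1, y2⟩ := zh_get hy
    obtain ⟨-, -, f3, f4⟩ := hf f hm
    rw [hff, if_neg Bool.false_ne_true] at f4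
    rw [← x2] at w1
    rw [← y2] at w2
    by_contra hcon
    have w3 := f4 (q lo) (q1 lo l1.1).1 ((q2 lo a.1 hle x1).trans w1)
    have w4 := H.qc _ (q a.2) _ (q1 lo l1.1).1 (q2 lo a.2 (by omega) y1) w2 f3
    have w5 := u2 a.2 y1 (by omega)
    omega

/-- The part of a mass that does not depend on the flag. -/
def zh_c (g : Am × ℝ × ℝ) : Ps × T3 × T3 × ℝ × ℝ := (g.1.p, g.1.x, g.1.y, g.2)

theorem zh_sw (V : Vr) (gl : List (Am × ℝ × ℝ)) : ∀ (p : Ps) (i : ℕ) (k : List Am → Bool),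
    Fl V p (gl.map Prod.fst) → mkL (gl.map Prod.fst) i k = true →
    swL (gl.map Prod.fst) i k = true → ∃ gl' : List (Am × ℝ × ℝ), k (gl'.map Prod.fst) = true ∧
      Fl V p (gl'.map Prod.fst) ∧ (gl'.map zh_c).Perm (gl.map zh_c) := by
  induction gl with
  | nil => exact fun _ _ _ _ h => absurd h Bool.false_ne_true
  | cons a r ih =>
    intro p i k hs h1 h2
    cases i with
    | succ j =>
      obtain ⟨gl', k1, k2, k3⟩ := ih a.1.p j (fun r => k (a.1 :: r)) hs.2 h1 h2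
      exact ⟨a :: gl', k1, ⟨hs.1, k2⟩, k3.cons _⟩
    | zero =>
      cases r with
      | nil => exact absurd h1 Bool.false_ne_true
      | cons b r =>
        rcases le_total (pv V a.1.p) (pv V b.1.p) with hab | hab
        · exact ⟨a :: (fl true b.1, b.2) :: r, h1, ⟨hs.1, fun _ => hab, hs.2.2⟩, List.Perm.refl _⟩
        · cases r with
          | nil =>
            exact ⟨[(fl false b.1, b.2), (fl true a.1, a.2)], h2,
              ⟨fun h => absurd h Bool.false_ne_true, fun _ => hab, trivial⟩, List.Perm.swap _ _ _⟩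
          | cons c r =>
            exact ⟨(fl false b.1, b.2) :: (fl true a.1, a.2) :: (fl false c.1, c.2) :: r, h2,
              ⟨fun h => absurd h Bool.false_ne_true, fun _ => hab,
                fun h => absurd h Bool.false_ne_true, hs.2.2.2⟩, List.Perm.swap _ _ _⟩

theorem zh_all {gl gl' : List (Am × ℝ × ℝ)} (h : (gl'.map zh_c).Perm (gl.map zh_c))
    (Q : Ps × T3 × T3 × ℝ × ℝ → Prop) (hq : ∀ g ∈ gl, Q (zh_c g)) : ∀ g ∈ gl', Q (zh_c g) :=
  fun g hg => by
    obtain ⟨g', h1, h2⟩ := List.mem_map.1 (h.subset (List.mem_map_of_mem hg))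
    exact h2 ▸ hq g' h1

theorem zh_aval (V : Vr) (H : Half) {gl gl' : List (Am × ℝ × ℝ)}
    (h : (gl'.map zh_c).Perm (gl.map zh_c)) : aval V H gl' = aval V H gl := by
  have h1 := (h.map fun c => H.X (H.d (pv V c.1)) * c.2.2.2.1 + H.Y (H.d (pv V c.1)) * c.2.2.2.2).sum_eq
  rw [List.map_map, List.map_map] at h1
  exact h1

theorem zh_swK_succ (f : List Am → Bool) (c n : ℕ) (l : List Am) : swK f (c + 1) n l =
    gN (Nat.land n 31) fun i => gN (Nat.shiftRight n 5) fun n =>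
      mkL l i (swK f c n) && swL l i (swK f c n) := rfl

theorem zh_swK {E : Env} {V : Vr} {T : Tb} (o : TbOK V T) (H : Half) {fs : List Fc}
    (hf : ∀ c ∈ fs, c.OK V H) {nr rl : ℕ} (c : ℕ) : ∀ (n : ℕ) (gl : List (Am × ℝ × ℝ)),
    (∀ g ∈ gl, g.1.x.Mem E g.2.1 ∧ g.1.y.Mem E g.2.2) → Fl V pZ (gl.map Prod.fst) →
    swK (ordK T fs nr rl) c n (gl.map Prod.fst) = true →
    (∀ g ∈ gl, 0 ≤ pv V g.1.p ∧ pv V g.1.p ≤ π) ∧ aval V H gl ≤ H.len := by
  induction c with
  | zero => exact fun n gl hg hs h => ordK_spec o H hf hg hs h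
  | succ c ih =>
    intro n gl hg hs h
    rw [zh_swK_succ] at h
    obtain ⟨i, h⟩ := gN_ex h
    obtain ⟨n, h⟩ := gN_ex h
    obtain ⟨gl', k1, k2, k3⟩ := zh_sw V gl pZ i _ hs (and_el h).1 (and_el h).2
    obtain ⟨r1, r2⟩ := ih n gl' (zh_all k3
      (fun c => c.2.1.Mem E c.2.2.2.1 ∧ c.2.2.1.Mem E c.2.2.2.2) hg) k2 k1
    exact ⟨zh_all k3.symm (fun c => 0 ≤ pv V c.1 ∧ pv V c.1 ≤ π) r1, zh_aval V H k3 ▸ r2⟩

theorem zh_fl (V : Vr) (l : List Am) (h : ∀ a ∈ l, a.s = false) : ∀ p, Fl V p l := by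
  induction l with
  | nil => exact fun _ => trivial
  | cons a r ih =>
    exact fun p => ⟨fun h1 => absurd ((h a List.mem_cons_self).symm.trans h1) Bool.false_ne_true,
      ih (fun b hb => h b (List.mem_cons_of_mem _ hb)) _⟩

theorem halfK_spec {E : Env} {V : Vr} {T : Tb} (o : TbOK V T) (H : Half) {fs : List Fc}
    (hf : ∀ c ∈ fs, c.OK V H) {n : ℕ} {k : ℕ → Bool} {gl : List (Am × ℝ × ℝ)}
    (hg : ∀ g ∈ gl, g.1.s = false ∧ g.1.x.Mem E g.2.1 ∧ g.1.y.Mem E g.2.2)
    (h : halfK T fs (gl.map Prod.fst) n k = true) :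
    (∀ g ∈ gl, 0 ≤ pv V g.1.p ∧ pv V g.1.p ≤ π) ∧ aval V H gl ≤ H.len := by
  iterate 4 obtain ⟨_, _, h⟩ := rd_ex h
  refine zh_swK o H hf _ _ gl (fun g hg' => (hg g hg').2) (zh_fl V _ (fun a ha => ?_) _)
    (and_el h).1
  obtain ⟨g, h1, rfl⟩ := List.mem_map.1 ha
  exact (hg g h1).1

theorem halfK_k {T : Tb} {fs : List Fc} {l : List Am} {n : ℕ} {k : ℕ → Bool}
    (h : halfK T fs l n k = true) : ∃ m, k m = true := by
  iterate 4 obtain ⟨_, _, h⟩ := rd_ex h
  exact ⟨_, (and_el h).2⟩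

end

end Pool.Agent.P.MP_d76e6a_co
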