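import Pool.Agent.P.MP_d76e6a_co.ZUb
import Pool.Agent.P.MP_d76e6a_co.HBc

/-!
The certificates for the point-symmetric zigzags.
-/

namespace Pool.Agent.P.MP_d76e6a_co

open Real

noncomputable section

def setZK (b : Bx) (a0 n : ℕ) (k : ℕ → ℕ → Bool) : Bool :=
  rd 9 n fun z n => rd 28 n fun c n => rd 22 n fun s n => rd 24 n fun r n =>
    Nat.ble z a0 && zcK b z c s r && k z n

theorem setZK_spec {b : Bx} {a0 n : ℕ} {k : ℕ → ℕ → Bool}
    (h : setZK b a0 n k = true) : ∃ z m, k z m = true ∧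
      ∀ (α β A B v : ℝ) (E : Env), SB α β E → BxOK (SB α β) b A B → Ang A B → ang a0 ≤ A →
      Low2 A B v → ZOK A B v z := by
  obtain ⟨z, _, h⟩ := rd_ex h
  iterate 3 obtain ⟨_, _, h⟩ := rd_ex h
  simp only [Bool.and_eq_true, Nat.ble_eq] at h
  exact ⟨z, _, h.2, fun _ _ _ _ _ _ e o a h1 lo =>
    zcK_spec e o a ((ang_mono h.1.1).trans h1) lo h.1.2⟩

def setBK (b : Bx) (a0 n : ℕ) (k : ℕ → ℕ → Bool) : Bool :=
  rd 9 n fun z n => rd 7 n fun t n => rd 6 n fun s n => Nat.ble z a0 && bcK2 b z t s && k z n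

theorem setBK_spec {b : Bx} {a0 n : ℕ} {k : ℕ → ℕ → Bool}
    (h : setBK b a0 n k = true) : ∃ z m, k z m = true ∧
      ∀ (α β A B v : ℝ) (E : Env), SB α β E → BxOK (SB α β) b A B → Ang A B → ang a0 ≤ A →
      Low2 A B v → BOK A B v z := by
  obtain ⟨z, _, h⟩ := rd_ex h
  iterate 2 obtain ⟨_, _, h⟩ := rd_ex h
  simp only [Bool.and_eq_true, Nat.ble_eq] at h
  exact ⟨z, _, h.2, fun _ _ _ _ _ _ e o a h1 lo =>
    bcK2_spec e o a ((ang_mono h.1.1).trans h1) lo.w.1 h.1.2⟩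

end

end Pool.Agent.P.MP_d76e6a_co
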