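import Pool.Agent.P.MP_d76e6a_co.ZHalf

/-!
Certificates with weights depending on the angles of the triangle and on the crossing angles.
-/

namespace Pool.Agent.P.MP_d76e6a_co

open Real

noncomputable section

def insA (a : Am) (l : List Am) : (List Am → Bool) → Bool :=
  List.rec (fun k => k [a]) (fun b r ih k =>
    Bool.rec (ih fun r => k (b :: r)) (k (a :: b :: r)) (Nat.ble a.k b.k)) l

/-- The models needed for the rows: `h`, `h cot A` and the sines and cosines of the crossing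
angles. -/
structure Lf where
  h : T3
  hx : T3
  s0 : T3
  c0 : T3
  s1 : T3
  c1 : T3

structure LfOK (E : Env) (V : Vr) (o : Lf) : Prop where
  h : o.h.Mem E (alt V.A V.B)
  hx : o.hx.Mem E (alt V.A V.B * (cos V.A / sin V.A))
  s0 : o.s0.Mem E (sin V.s)
  c0 : o.c0.Mem E (cos V.s)
  s1 : o.s1.Mem E (sin V.t)
  c1 : o.c1.Mem E (cos V.t)

def kp (v : ℕ) : ℕ := Nat.add (Nat.mul 256 v) 1099511627776
def kn (v : ℕ) : ℕ := Nat.sub 3298534883328 (Nat.mul 256 v)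

def rotK (g : ℕ) (c s : T3) (σ : Bool) (k : T3 → T3 → Bool) : Bool :=
  gN (sP (Nat.add g 1664)) fun sg => gN (sP (Nat.add g 3104)) fun cg =>
  gT (PT.lin 2199023255552 (kp sg) (Bool.rec (kn cg) (kp cg) σ) 2199023255552 c s c 5120 0) fun S =>
  gT (PT.lin 2199023255552 (kp cg) (Bool.rec (kp sg) (kn sg) σ) 2199023255552 c s c 5120 0) fun C =>
  k S C

/-- Sine and cosine of the direction `⟨g, 0, kv⟩`, and the index of the opposite variable. -/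
def dirK (o : Lf) (g kv : ℕ) (k : T3 → T3 → ℕ → Bool) : Bool :=
  Nat.rec (rotK g oneT (cT 0) true fun S C => k S C 0) (fun j _ =>
    Nat.rec (rotK g o.c0 o.s0 true fun S C => k S C 2) (fun j _ =>
      Nat.rec (rotK g o.c0 o.s0 false fun S C => k S C 1) (fun j _ =>
        Nat.rec false (fun j _ =>
          Nat.rec (rotK g o.c1 o.s1 true fun S C => k S C 5) (fun j _ =>
            Nat.rec (rotK g o.c1 o.s1 false fun S C => k S C 4) (fun _ _ => false) j) j) j) j) j) kv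

theorem zr_kp {v : ℕ} {z : ℝ} (hz : |z| ≤ 1) (h : |(v : ℝ) - 2 ^ 32 * (1 + z)| ≤ 10) :
    kp v ≤ 4398046511104 ∧ |((kp v : ℕ) : ℝ) - 2199023255552 - 1099511627776 * z| ≤ 2560 := by
  rw [abs_le] at hz h
  have e : ((kp v : ℕ) : ℝ) = 256 * v + 1099511627776 := by
    simp only [kp, Nat.add_eq, Nat.mul_eq]
    push_cast
    ring
  refine ⟨?_, by rw [e, abs_le]; constructor <;> linarith [h.1, h.2]⟩
  have : ((kp v : ℕ) : ℝ) ≤ (4398046511104 : ℕ) := by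
    rw [e]
    push_cast
    linarith [h.2, hz.2]
  exact_mod_cast this

theorem zr_kn {v : ℕ} {z : ℝ} (hz : |z| ≤ 1) (h : |(v : ℝ) - 2 ^ 32 * (1 + z)| ≤ 10) :
    kn v ≤ 4398046511104 ∧ |((kn v : ℕ) : ℝ) - 2199023255552 - 1099511627776 * (-z)| ≤ 2560 := by
  rw [abs_le] at hz h
  have l : 256 * v ≤ 3298534883328 := by
    have : ((256 * v : ℕ) : ℝ) ≤ (3298534883328 : ℕ) := by
      push_cast
      linarith [h.2, hz.2]
    exact_mod_cast this
  have e : ((kn v : ℕ) : ℝ) = 3298534883328 - 256 * v := by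
    simp only [kn, Nat.sub_eq, Nat.mul_eq]
    rw [Nat.cast_sub l]
    push_cast
    ring
  refine ⟨?_, by rw [e, abs_le]; constructor <;> linarith [h.1, h.2]⟩
  simp only [kn, Nat.sub_eq, Nat.mul_eq]
  omega

theorem zr_lin {E : Env} {c s : T3} {t a b : ℝ} {k1 k2 : ℕ} (hc : c.Mem E (cos t))
    (hs : s.Mem E (sin t))
    (h1 : k1 ≤ 4398046511104 ∧ |(k1 : ℝ) - 2199023255552 - 1099511627776 * a| ≤ 2560)
    (h2 : k2 ≤ 4398046511104 ∧ |(k2 : ℝ) - 2199023255552 - 1099511627776 * b| ≤ 2560) :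
    (PT.lin 2199023255552 k1 k2 2199023255552 c s c 5120 0).Mem E (a * cos t + b * sin t) := by
  refine PT.lin_mem hc hs hc h1.1 h2.1 (by norm_num) fun _ _ _ => ?_
  have e : (a * cos t + b * sin t) * 1099511627776 - ((((2199023255552 : ℕ) : ℝ) - 2199023255552)
      + (k1 - 2199023255552) * cos t + (k2 - 2199023255552) * sin t
      + (((2199023255552 : ℕ) : ℝ) - 2199023255552) * cos t) =
      -((k1 - 2199023255552 - 1099511627776 * a) * cos t +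
        (k2 - 2199023255552 - 1099511627776 * b) * sin t) := by
    push_cast
    ring
  rw [e, abs_neg]
  refine (abs_add_le _ _).trans ?_
  rw [abs_mul, abs_mul]
  have a1 := mul_le_mul h1.2 (abs_cos_le_one t) (abs_nonneg _) (by norm_num)
  have a2 := mul_le_mul h2.2 (abs_sin_le_one t) (abs_nonneg _) (by norm_num)
  push_cast
  linarith

theorem zr_rot {E : Env} {c s : T3} {t : ℝ} (hc : c.Mem E (cos t)) (hs : s.Mem E (sin t)) {g : ℕ}
    {σ : Bool} {k : T3 → T3 → Bool} (h : rotK g c s σ k = true) :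
    ∃ S C, S.Mem E (sin (ang g - ang 4096 + cond σ t (-t))) ∧
      C.Mem E (cos (ang g - ang 4096 + cond σ t (-t))) ∧ k S C = true := by
  simp only [rotK, gN_eq, gT_eq] at h
  have e1 : ang (Nat.add g 1664) = ang g - ang 4096 + 2 * π := by
    simp only [ang, Nat.add_eq]
    push_cast
    ring
  have e2 : ang (Nat.add g 3104) = ang g - ang 4096 + π / 2 + 2 * π := by
    simp only [ang, Nat.add_eq]
    push_cast
    ring
  have b1 := sP_spec (Nat.add g 1664)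
  have b2 := sP_spec (Nat.add g 3104)
  rw [e1, sin_add_two_pi] at b1
  rw [e2, sin_add_two_pi, sin_add_pi_div_two] at b2
  generalize ang g - ang 4096 = φ at *
  have p1 := zr_kp (abs_sin_le_one φ) b1
  have p2 := zr_kp (abs_cos_le_one φ) b2
  have n1 := zr_kn (abs_sin_le_one φ) b1
  have n2 := zr_kn (abs_cos_le_one φ) b2
  refine ⟨_, _, ?_, ?_, h⟩
  · cases σ
    · refine SM.cast (SM.of (zr_lin hc hs p1 n2)) ?_ E rfl
      simp only [cond_false, sin_add, sin_neg, cos_neg]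
      ring
    · refine SM.cast (SM.of (zr_lin hc hs p1 p2)) ?_ E rfl
      simp only [cond_true, sin_add]
  · cases σ
    · refine SM.cast (SM.of (zr_lin hc hs p2 p1)) ?_ E rfl
      simp only [cond_false, cos_add, sin_neg, cos_neg]
      ring
    · refine SM.cast (SM.of (zr_lin hc hs p2 n1)) ?_ E rfl
      simp only [cond_true, cos_add]
      ring

theorem dirK_spec {E : Env} {V : Vr} {o : Lf} (ok : LfOK E V o) {g kv : ℕ}
    {k : T3 → T3 → ℕ → Bool} (h : dirK o g kv k = true) : ∃ S C j, S.Mem E (sin (pv V ⟨g, 0, kv⟩)) ∧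
      C.Mem E (cos (pv V ⟨g, 0, kv⟩)) ∧ V.v j = -V.v kv ∧ k S C j = true := by
  have key : ∀ (c s : T3) (t : ℝ) (σ : Bool) (j : ℕ), c.Mem E (cos t) → s.Mem E (sin t) →
      V.v kv = cond σ t (-t) → V.v j = -V.v kv → (rotK g c s σ fun S C => k S C j) = true →
      ∃ S C j, S.Mem E (sin (pv V ⟨g, 0, kv⟩)) ∧ C.Mem E (cos (pv V ⟨g, 0, kv⟩)) ∧
        V.v j = -V.v kv ∧ k S C j = true := by
    intro c s t σ j hc hs e1 e2 h
    obtain ⟨S, C, a1, a2, h⟩ := zr_rot hc hs h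
    have e : pv V ⟨g, 0, kv⟩ = ang g - ang 4096 + cond σ t (-t) := by
      simp only [pv, Vr.a, e1, add_zero]
    exact ⟨S, C, j, e ▸ a1, e ▸ a2, e2, h⟩
  rcases kv with _ | _ | _ | _ | _ | _ | kv
  · refine key oneT (cT 0) 0 true 0 ?_ ?_ rfl (by simp [Vr.v]) h
    · exact (SM.one (S := (· = E))).cast cos_zero.symm E rfl
    · exact (SM.cst (S := (· = E)) 0).cast (by simp) E rfl
  · exact key _ _ _ true 2 ok.c0 ok.s0 rfl rfl h
  · exact key _ _ _ false 1 ok.c0 ok.s0 rfl (neg_neg _).symm h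
  · cases h
  · exact key _ _ _ true 5 ok.c1 ok.s1 rfl rfl h
  · exact key _ _ _ false 4 ok.c1 ok.s1 rfl (neg_neg _).symm h
  · cases h

/-- Insert the mass `-(x, y)` of a slanted side; `ip`, `im` are the indices of the angle and of
its negative. -/
def putK (cd g kv nv ip im key : ℕ) (x y : T3) (O P : List Am)
    (k : List Am → List Am → Bool) : Bool :=
  gT y.neg fun y => Nat.rec
    (gN (Nat.add g 2880) fun g => gT x.neg fun x => insA ⟨⟨g, ip, kv⟩, key, false, x, y⟩ O fun O =>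
      k O P)
    (fun j _ => Nat.rec
      (Nat.ble 2880 g && gN (Nat.sub g 2880) fun g => gT x.neg fun x =>
        insA ⟨⟨g, ip, kv⟩, key, false, x, y⟩ O fun O => k O P)
      (fun _ _ => Nat.ble g 11072 && gN (Nat.sub 11072 g) fun g =>
        insA ⟨⟨g, im, nv⟩, key, false, x, y⟩ P fun P => k O P) j) cd

def twn (kv : ℕ) : Bool := Nat.beq kv 1 || Nat.beq kv 4

/-- Read the weights and insert the masses of the side `c`. -/
def cenK (md g kv k1 k2 : ℕ) (S C : T3) (n : ℕ) (O P : List Am)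
    (k : T3 → T3 → T3 → List Am → List Am → ℕ → Bool) : Bool :=
  wK n fun w n => nnT w && gT (w.mul S) fun x => gT (w.mul C) fun y => Nat.rec
    (insA ⟨⟨g, 0, kv⟩, k1, false, x, y⟩ O fun O => k w x y O P n)
    (fun j _ => Nat.rec
      (twn kv && gN (Nat.add kv 2) fun kv => insA ⟨⟨g, 0, kv⟩, k1, false, x, y⟩ O fun O =>
        k w x y O P n)
      (fun j _ => wK n fun w2 n => nnT w2 && gT (w2.mul S) fun x2 => gT (w2.mul C) fun y2 =>
        gT (w.add w2) fun W => gT (x.add x2) fun X => gT (y.add y2) fun Y =>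
        insA ⟨⟨g, 0, kv⟩, k1, false, x, y⟩ O fun O => Nat.rec
          (twn kv && gN (Nat.add kv 2) fun kv => insA ⟨⟨g, 0, kv⟩, k2, false, x2, y2⟩ O fun O =>
            k W X Y O P n)
          (fun _ _ => Nat.beq kv 0 && Nat.beq g 6976 &&
            insA ⟨pP, k2, false, x2, y2⟩ P fun P => k W X Y O P n) j) j) md

def bit (n o w : ℕ) : ℕ := Nat.land (Nat.shiftRight n o) w

/-- One row; `O` is the half that carries the side `c`, `d` the header. -/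
def rowK (o : Lf) (d n : ℕ) (O P : List Am) (k : T3 → List Am → List Am → ℕ → Bool) : Bool :=
  gB (Nat.beq (bit d 1 1) 0) fun δ => gN (bit d 2 7) fun kv => gN (bit d 5 8191) fun g =>
  gN (bit d 24 31) fun k1 => gN (bit d 29 31) fun k2 => gN (bit d 34 31) fun k3 =>
  gN (bit d 39 31) fun k4 => dirK o g kv fun S C nv => cenK (bit d 22 3) g kv k1 k2 S C n O P
    fun W X Y O P n => gT (o.h.mul X) fun hX => gT (o.h.mul Y) fun hY =>
    gT ((o.hx.mul X).add (Bool.rec hY.neg hY δ)) fun x =>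
    gT ((o.hx.mul Y).add (Bool.rec hX hX.neg δ)) fun y =>
    putK (bit d 18 3) g kv nv (Bool.rec 2 1 δ) (Bool.rec 1 2 δ) k3 x y O P fun O P =>
    gT (wsb X x) fun x => gT (wsb Y y) fun y =>
    putK (bit d 20 3) g kv nv (Bool.rec 3 4 δ) (Bool.rec 4 3 δ) k4 x y O P fun O P =>
    k W O P n

/-- The masses are enclosed by their models. -/
def GlOK (E : Env) (gl : List (Am × ℝ × ℝ)) : Prop :=
  ∀ g ∈ gl, g.1.s = false ∧ g.1.x.Mem E g.2.1 ∧ g.1.y.Mem E g.2.2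

/-- All directions lie in `[0, π]`. -/
def GlIn (V : Vr) (gl : List (Am × ℝ × ℝ)) : Prop := ∀ g ∈ gl, 0 ≤ pv V g.1.p ∧ pv V g.1.p ≤ π

theorem zr_perm (z : Am × ℝ × ℝ) (gl : List (Am × ℝ × ℝ)) : ∀ k : List Am → Bool,
    insA z.1 (gl.map Prod.fst) k = true →
      ∃ gl' : List (Am × ℝ × ℝ), gl'.Perm (z :: gl) ∧ k (gl'.map Prod.fst) = true := by
  induction gl with
  | nil => exact fun k h => ⟨[z], List.Perm.refl _, h⟩
  | cons b r ih =>
    intro k h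
    replace h : Bool.rec (insA z.1 (r.map Prod.fst) fun r => k (b.1 :: r))
      (k (z.1 :: b.1 :: r.map Prod.fst)) (Nat.ble z.1.k b.1.k) = true := h
    cases hb : Nat.ble z.1.k b.1.k <;> rw [hb] at h
    · obtain ⟨l, h1, h2⟩ := ih _ h
      exact ⟨b :: l, (h1.cons b).trans (List.Perm.swap _ _ _), h2⟩
    · exact ⟨z :: b :: r, List.Perm.refl _, h⟩

theorem zr_ins {E : Env} (V : Vr) (H : Half) {gl : List (Am × ℝ × ℝ)} (h1 : GlOK E gl) {p : Ps}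
    {key : ℕ} {x y : T3} {m η : ℝ} (mx : SM (· = E) x (m * sin η)) (my : SM (· = E) y (m * cos η))
    {k : List Am → Bool} (h : insA ⟨p, key, false, x, y⟩ (gl.map Prod.fst) k = true) :
    ∃ gl', GlOK E gl' ∧ (∀ g ∈ gl, g ∈ gl') ∧ (GlIn V gl' → 0 ≤ pv V p ∧ pv V p ≤ π) ∧
      aval V H gl' = aval V H gl + m * H.hh η (pv V p) ∧ k (gl'.map Prod.fst) = true := by
  obtain ⟨l, h2, h⟩ := zr_perm (⟨p, key, false, x, y⟩, m * sin η, m * cos η) gl k h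
  refine ⟨l, fun g hg => ?_, fun g hg => h2.mem_iff.2 (List.mem_cons_of_mem _ hg),
    fun i => i _ (h2.mem_iff.2 List.mem_cons_self), ?_, h⟩
  · rcases List.mem_cons.1 (h2.mem_iff.1 hg) with rfl | hg
    · exact ⟨rfl, mx E rfl, my E rfl⟩
    · exact h1 g hg
  · rw [aval, (h2.map _).sum_eq, List.map_cons, List.sum_cons, aval, Half.hh]
    ring

theorem zr_in {V : Vr} {g g' : List (Am × ℝ × ℝ)} (h : ∀ x ∈ g, x ∈ g') (i : GlIn V g') :
    GlIn V g := fun x hx => i x (h x hx)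

theorem zr_put {E : Env} {V : Vr} {τ : ℝ} (hτ : 0 ≤ τ) (H K : Half) {cd g kv nv ip im key : ℕ}
    {x y : T3} {m α : ℝ} (e1 : V.a ip = α) (e2 : V.a im = -α) (e3 : V.v nv = -V.v kv)
    (mx : SM (· = E) x (m * sin (pv V ⟨g, 0, kv⟩ + α)))
    (my : SM (· = E) y (m * cos (pv V ⟨g, 0, kv⟩ + α))) {gO gP : List (Am × ℝ × ℝ)}
    (h1 : GlOK E gO) (h2 : GlOK E gP) {k : List Am → List Am → Bool}
    (h : putK cd g kv nv ip im key x y (gO.map Prod.fst) (gP.map Prod.fst) k = true) :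
    ∃ gO' gP', GlOK E gO' ∧ GlOK E gP' ∧ (∀ g ∈ gO, g ∈ gO') ∧ (∀ g ∈ gP, g ∈ gP') ∧
      (GlIn V gO' → GlIn V gP' → ∃ c, SupT τ H K (pv V ⟨g, 0, kv⟩ + π + α) c ∧
        aval V H gO' + aval V K gP' = aval V H gO + aval V K gP + m * c) ∧
      k (gO'.map Prod.fst) (gP'.map Prod.fst) = true := by
  obtain ⟨y', my', h⟩ := my.neg.el h
  have e0 : V.a 0 = 0 := rfl
  have key1 : ∀ (g' : ℕ) (j : ℤ), pv V ⟨g, 0, kv⟩ + π + α = pv V ⟨g', ip, kv⟩ + j * (2 * π) →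
      (gT x.neg fun x => insA ⟨⟨g', ip, kv⟩, key, false, x, y'⟩ (gO.map Prod.fst) fun O =>
        k O (gP.map Prod.fst)) = true →
      ∃ gO' gP', GlOK E gO' ∧ GlOK E gP' ∧ (∀ g ∈ gO, g ∈ gO') ∧ (∀ g ∈ gP, g ∈ gP') ∧
      (GlIn V gO' → GlIn V gP' → ∃ c, SupT τ H K (pv V ⟨g, 0, kv⟩ + π + α) c ∧
        aval V H gO' + aval V K gP' = aval V H gO + aval V K gP + m * c) ∧
      k (gO'.map Prod.fst) (gP'.map Prod.fst) = true := by
    intro g' j e h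
    obtain ⟨x', mx', h⟩ := mx.neg.el h
    have e' : pv V ⟨g', ip, kv⟩ = pv V ⟨g, 0, kv⟩ + α + π - j * (2 * π) := by linarith
    obtain ⟨l, a1, a2, a3, a4, h⟩ := zr_ins V H h1 (m := m) (η := pv V ⟨g', ip, kv⟩)
      (mx'.cast (by rw [e', sin_sub_int_mul_two_pi, sin_add_pi]; ring))
      (my'.cast (by rw [e', cos_sub_int_mul_two_pi, cos_add_pi]; ring)) h
    refine ⟨l, gP, a1, h2, a2, fun _ h => h, fun i _ => ⟨_, SupT.left H K j (a3 i).1 (a3 i).2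
      (by simpa using hτ) e, by rw [a4]; ring⟩, h⟩
  rcases cd with _ | _ | cd
  · replace h := (gN_eq _ _).symm.trans h
    refine key1 (Nat.add g 2880) 0 ?_ h
    simp only [pv, Nat.add_eq, ang_add, ang_pi, e1, e0]
    push_cast
    ring
  · obtain ⟨l, h⟩ := and_el h
    replace h := (gN_eq _ _).symm.trans h
    refine key1 (Nat.sub g 2880) 1 ?_ h
    have := ang_add (g - 2880) 2880
    rw [Nat.sub_add_cancel (Nat.le_of_ble_eq_true l), ang_pi] at this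
    simp only [pv, Nat.sub_eq, e1, e0]
    push_cast
    linarith
  · obtain ⟨l, h⟩ := and_el h
    replace h := (gN_eq _ _).symm.trans h
    have e : pv V ⟨g, 0, kv⟩ + π + α = -pv V ⟨Nat.sub 11072 g, im, nv⟩ + (1 : ℤ) * (2 * π) := by
      have := ang_add (11072 - g) g
      rw [Nat.sub_add_cancel (Nat.le_of_ble_eq_true l)] at this
      have e4 : ang 11072 = 2 * ang 4096 + π := by
        simp only [ang]
        push_cast
        ring
      simp only [pv, Nat.sub_eq, e2, e3, e0]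
      push_cast
      linarith
    have e' : pv V ⟨Nat.sub 11072 g, im, nv⟩ = π - (pv V ⟨g, 0, kv⟩ + α) := by
      push_cast at e
      linarith
    obtain ⟨l, a1, a2, a3, a4, h⟩ := zr_ins V K h2 (m := m) (η := pv V ⟨Nat.sub 11072 g, im, nv⟩)
      (mx.cast (by rw [e', sin_pi_sub])) (my'.cast (by rw [e', cos_pi_sub]; ring)) h
    refine ⟨gO, l, h1, a1, fun _ h => h, a2, fun _ i => ⟨_, SupT.right H K 1 (a3 i).1 (a3 i).2
      (by simpa using hτ) e, by rw [a4]; ring⟩, h⟩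

theorem zr_twn {V : Vr} {τ : ℝ} (s1 : |V.s - V.s'| ≤ τ) (s2 : |V.t - V.t'| ≤ τ) {g kv : ℕ}
    (h : twn kv = true) : |pv V ⟨g, 0, kv⟩ - pv V ⟨g, 0, Nat.add kv 2⟩| ≤ τ := by
  simp only [twn, Bool.or_eq_true, Nat.beq_eq] at h
  rcases h with rfl | rfl
  · simpa [pv, Vr.v] using s1
  · simpa [pv, Vr.v] using s2

theorem zr_cen {E : Env} {V : Vr} {τ : ℝ} (hτ : 0 ≤ τ) (s1 : |V.s - V.s'| ≤ τ)
    (s2 : |V.t - V.t'| ≤ τ) (H K : Half) {md g kv k1 k2 n : ℕ} {S C : T3}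
    (mS : SM (· = E) S (sin (pv V ⟨g, 0, kv⟩))) (mC : SM (· = E) C (cos (pv V ⟨g, 0, kv⟩)))
    {gO gP : List (Am × ℝ × ℝ)} (h1 : GlOK E gO) (h2 : GlOK E gP)
    {k : T3 → T3 → T3 → List Am → List Am → ℕ → Bool}
    (h : cenK md g kv k1 k2 S C n (gO.map Prod.fst) (gP.map Prod.fst) k = true) :
    ∃ W X Y w gO' gP' m, SM (· = E) W w ∧ SM (· = E) X (w * sin (pv V ⟨g, 0, kv⟩)) ∧
      SM (· = E) Y (w * cos (pv V ⟨g, 0, kv⟩)) ∧ GlOK E gO' ∧ GlOK E gP' ∧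
      (∀ g ∈ gO, g ∈ gO') ∧ (∀ g ∈ gP, g ∈ gP') ∧
      (GlIn V gO' → GlIn V gP' → ∀ z, (∀ c, SupT τ H K (pv V ⟨g, 0, kv⟩) c → z ≤ c) →
        aval V H gO + aval V K gP + w * z ≤ aval V H gO' + aval V K gP') ∧
      k W X Y (gO'.map Prod.fst) (gP'.map Prod.fst) m = true := by
  obtain ⟨w, n, u, mw, h⟩ := wK_at E h
  obtain ⟨p, h⟩ := and_el h
  have u0 := mw.nn rfl p
  obtain ⟨x, mx, h⟩ := (mw.mul mS).el h
  obtain ⟨y, my, h⟩ := (mw.mul mC).el h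
  have sl : ∀ η', 0 ≤ η' ∧ η' ≤ π → |pv V ⟨g, 0, kv⟩ - η'| ≤ τ →
      SupT τ H K (pv V ⟨g, 0, kv⟩) (H.hh (pv V ⟨g, 0, kv⟩) η') := fun η' a b =>
    SupT.left H K 0 a.1 a.2 b (by simp)
  have s0 : |pv V ⟨g, 0, kv⟩ - pv V ⟨g, 0, kv⟩| ≤ τ := by simpa using hτ
  rcases md with _ | _ | md
  · obtain ⟨l, a1, a2, a3, a4, h⟩ := zr_ins V H h1 mx my h
    refine ⟨w, x, y, u, l, gP, n, mw, mx, my, a1, h2, a2, fun _ h => h, fun i _ z hz => ?_, h⟩
    have := mul_le_mul_of_nonneg_left (hz _ (sl _ (a3 i) s0)) u0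
    linarith
  · obtain ⟨t, h⟩ := and_el h
    obtain ⟨l, a1, a2, a3, a4, h⟩ := zr_ins V H h1 mx my ((gN_eq _ _).symm.trans h)
    refine ⟨w, x, y, u, l, gP, n, mw, mx, my, a1, h2, a2, fun _ h => h, fun i _ z hz => ?_, h⟩
    have := mul_le_mul_of_nonneg_left (hz _ (sl _ (a3 i) (zr_twn s1 s2 t))) u0
    linarith
  · obtain ⟨w2, n, v, mw2, h⟩ := wK_at E h
    obtain ⟨p2, h⟩ := and_el h
    have v0 := mw2.nn rfl p2
    obtain ⟨x2, mx2, h⟩ := (mw2.mul mS).el h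
    obtain ⟨y2, my2, h⟩ := (mw2.mul mC).el h
    obtain ⟨W, mW, h⟩ := (mw.add mw2).el h
    obtain ⟨X, mX, h⟩ := ((mx.add mx2).cast (add_mul _ _ _).symm).el h
    obtain ⟨Y, mY, h⟩ := ((my.add my2).cast (add_mul _ _ _).symm).el h
    obtain ⟨l, a1, a2, a3, a4, h⟩ := zr_ins V H h1 mx my h
    rcases md with _ | md
    · obtain ⟨t, h⟩ := and_el h
      obtain ⟨l', b1, b2, b3, b4, h⟩ := zr_ins V H a1 mx2 my2 ((gN_eq _ _).symm.trans h)
      refine ⟨W, X, Y, u + v, l', gP, n, mW, mX, mY, b1, h2, fun g hg => b2 g (a2 g hg),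
        fun _ h => h, fun i _ z hz => ?_, h⟩
      have c1 := mul_le_mul_of_nonneg_left (hz _ (sl _ (a3 (zr_in b2 i)) s0)) u0
      have c2 := mul_le_mul_of_nonneg_left (hz _ (sl _ (b3 i) (zr_twn s1 s2 t))) v0
      linarith
    · obtain ⟨t, h⟩ := and_el h
      obtain ⟨l', b1, b2, b3, b4, h⟩ := zr_ins V K h2 mx2 my2 h
      refine ⟨W, X, Y, u + v, l, l', n, mW, mX, mY, a1, b1, a2, b2, fun i _ z hz => ?_, h⟩
      simp only [Bool.and_eq_true, Nat.beq_eq] at t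
      obtain ⟨rfl, rfl⟩ := t
      have e : pv V ⟨6976, 0, 0⟩ = π := pv_pP V
      have c1 := mul_le_mul_of_nonneg_left (hz _ (sl _ (a3 i) s0)) u0
      have c2 := mul_le_mul_of_nonneg_left (hz _ (SupT.right H K (η := pv V ⟨6976, 0, 0⟩)
        (η' := pv V pP) 1 (by rw [pv_pP]; exact pi_pos.le) (pv_pP V).le s0
        (by rw [e]; push_cast; ring))) v0
      linarith

theorem zr_neg {τ : ℝ} {H K : Half} {ψ ψ' c : ℝ} (h : SupT τ H K ψ c) (j : ℤ)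
    (e : ψ' = -ψ + j * (2 * π)) : SupT τ K H ψ' c := by
  obtain ⟨η, η', k, a1, a2, a3, ⟨rfl, rfl⟩ | ⟨rfl, rfl⟩⟩ := h
  · exact SupT.right K H (j - k) a1 a2 a3 (by rw [e]; push_cast; ring)
  · exact SupT.left K H (j - k) a1 a2 a3 (by rw [e]; push_cast; ring)

theorem zr_row {E : Env} {V : Vr} {o : Lf} (ok : LfOK E V o) (an : Ang V.A V.B) {τ ρ : ℝ}
    (hτ : 0 ≤ τ) (s1 : |V.s - V.s'| ≤ τ) (s2 : |V.t - V.t'| ≤ τ) {H K : Half}
    (r1 : RowsT τ ρ H K V.A V.B) (r2 : RowsT τ ρ K H V.A V.B)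
    {gO gP : List (Am × ℝ × ℝ)} (h1 : GlOK E gO) (h2 : GlOK E gP)
    {k : T3 → List Am → List Am → ℕ → Bool} {δ : Bool} {g kv k1 k2 k3 k4 md c1 c2 n : ℕ}
    (h : (dirK o g kv fun S C nv => cenK md g kv k1 k2 S C n (gO.map Prod.fst) (gP.map Prod.fst)
      fun W X Y O P n => gT (o.h.mul X) fun hX => gT (o.h.mul Y) fun hY =>
      gT ((o.hx.mul X).add (Bool.rec hY.neg hY δ)) fun x =>
      gT ((o.hx.mul Y).add (Bool.rec hX hX.neg δ)) fun y =>
      putK c1 g kv nv (Bool.rec 2 1 δ) (Bool.rec 1 2 δ) k3 x y O P fun O P =>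
      gT (wsb X x) fun x => gT (wsb Y y) fun y =>
      putK c2 g kv nv (Bool.rec 3 4 δ) (Bool.rec 4 3 δ) k4 x y O P fun O P =>
      k W O P n) = true) :
    ∃ W w gO' gP' m, W.Mem E w ∧ GlOK E gO' ∧ GlOK E gP' ∧ (∀ g ∈ gO, g ∈ gO') ∧
      (∀ g ∈ gP, g ∈ gP') ∧ (GlIn V gO' → GlIn V gP' →
        ρ * w + (aval V H gO + aval V K gP) ≤ aval V H gO' + aval V K gP') ∧
      k W (gO'.map Prod.fst) (gP'.map Prod.fst) m = true := by
  obtain ⟨sA, sAB, sBC⟩ := an.sins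
  have sC : 0 < sin (V.A + V.B) := by linarith
  obtain ⟨S, C, nv, mS, mC, e3, h⟩ := dirK_spec ok h
  obtain ⟨W, X, Y, w, O1, P1, n, mW, mX, mY, a1, a2, a3, a4, a5, h⟩ :=
    zr_cen hτ s1 s2 H K (SM.of mS) (SM.of mC) h1 h2 h
  have mh := SM.of ok.h
  have mhx := SM.of ok.hx
  obtain ⟨hX, mhX, h⟩ := (mh.mul mX).el h
  obtain ⟨hY, mhY, h⟩ := (mh.mul mY).el h
  obtain ⟨ε, eε, m1, m2, f1, f2, f3, f4, es⟩ : ∃ ε : ℝ, (ε = 1 ∨ ε = -1) ∧
      SM (· = E) (Bool.rec hY.neg hY δ) (ε * (alt V.A V.B * (w * cos (pv V ⟨g, 0, kv⟩)))) ∧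
      SM (· = E) (Bool.rec hX hX.neg δ) (-ε * (alt V.A V.B * (w * sin (pv V ⟨g, 0, kv⟩)))) ∧
      V.a (Bool.rec 2 1 δ) = ε * V.A ∧ V.a (Bool.rec 1 2 δ) = -(ε * V.A) ∧
      V.a (Bool.rec 3 4 δ) = -(ε * V.B) ∧ V.a (Bool.rec 4 3 δ) = - -(ε * V.B) ∧
      ∀ θ c1 c2 c3, SupT τ H K (θ + π + ε * V.A) c1 → SupT τ H K (θ + π + -(ε * V.B)) c2 →
        SupT τ H K θ c3 →
        ρ * sin (V.A + V.B) ≤ sin V.B * c1 + sin V.A * c2 + sin (V.A + V.B) * c3 := by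
    cases δ
    · refine ⟨-1, Or.inr rfl, mhY.neg.cast (by ring), mhX.cast (by ring), by simp [Vr.a],
        by simp [Vr.a], by simp [Vr.a], by simp [Vr.a], fun θ c1 c2 c3 b1 b2 b3 => ?_⟩
      exact r2 (-θ) c1 c2 c3 (zr_neg b1 1 (by push_cast; ring)) (zr_neg b2 1 (by push_cast; ring))
        (zr_neg b3 0 (by push_cast; ring))
    · refine ⟨1, Or.inl rfl, mhY.cast (by ring), mhX.neg.cast (by ring), by simp [Vr.a],
        by simp [Vr.a], by simp [Vr.a], by simp [Vr.a], fun θ c1 c2 c3 b1 b2 b3 => ?_⟩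
      rw [one_mul] at b1 b2
      exact r1 θ c1 c2 c3 b1 (by rwa [sub_eq_add_neg]) b3
  have t1 : sin (ε * V.A) = ε * sin V.A ∧ cos (ε * V.A) = cos V.A ∧
      sin (ε * V.B) = ε * sin V.B ∧ cos (ε * V.B) = cos V.B := by
    rcases eε with rfl | rfl <;> simp
  obtain ⟨x, mx, h⟩ := (((mhx.mul mX).add m1).cast
    (v := w * sin V.B / sin (V.A + V.B) * sin (pv V ⟨g, 0, kv⟩ + ε * V.A)) (by
      rw [sin_add (pv V _), t1.1, t1.2.1, alt]; field_simp)).el h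
  obtain ⟨y, my, h⟩ := (((mhx.mul mY).add m2).cast
    (v := w * sin V.B / sin (V.A + V.B) * cos (pv V ⟨g, 0, kv⟩ + ε * V.A)) (by
      rw [cos_add (pv V _), t1.1, t1.2.1, alt]; field_simp; ring)).el h
  obtain ⟨O2, P2, b1, b2, b3, b4, b5, h⟩ := zr_put hτ H K f1 f2 e3 mx my a1 a2 h
  obtain ⟨x', mx', h⟩ := ((mX.sub mx).cast
    (v := w * sin V.A / sin (V.A + V.B) * sin (pv V ⟨g, 0, kv⟩ + -(ε * V.B))) (by
      rw [sin_add (pv V _), sin_add (pv V _), sin_neg, cos_neg, t1.1, t1.2.1, t1.2.2.1, t1.2.2.2]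
      field_simp
      rw [sin_add]
      ring)).el h
  obtain ⟨y', my', h⟩ := ((mY.sub my).cast
    (v := w * sin V.A / sin (V.A + V.B) * cos (pv V ⟨g, 0, kv⟩ + -(ε * V.B))) (by
      rw [cos_add (pv V _), cos_add (pv V _), sin_neg, cos_neg, t1.1, t1.2.1, t1.2.2.1, t1.2.2.2]
      field_simp
      rw [sin_add]
      ring)).el h
  obtain ⟨O3, P3, d1, d2, d3, d4, d5, h⟩ := zr_put hτ H K f3 f4 e3 mx' my' b1 b2 h
  refine ⟨W, w, O3, P3, n, mW E rfl, d1, d2, fun g hg => d3 g (b3 g (a3 g hg)),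
    fun g hg => d4 g (b4 g (a4 g hg)), fun i j => ?_, h⟩
  obtain ⟨c2, u2, q2⟩ := d5 i j
  obtain ⟨c1, u1, q1⟩ := b5 (zr_in d3 i) (zr_in d4 j)
  have q0 := a5 (zr_in b3 (zr_in d3 i)) (zr_in b4 (zr_in d4 j))
    ((ρ * sin (V.A + V.B) - sin V.B * c1 - sin V.A * c2) / sin (V.A + V.B)) fun c u3 => by
      rw [div_le_iff₀ sC]
      linarith [es _ _ _ _ u1 u2 u3]
  have e : w * ((ρ * sin (V.A + V.B) - sin V.B * c1 - sin V.A * c2) / sin (V.A + V.B)) =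
      ρ * w - w * sin V.B / sin (V.A + V.B) * c1 - w * sin V.A / sin (V.A + V.B) * c2 := by
    field_simp
  linarith

theorem rowK_spec {E : Env} {V : Vr} {o : Lf} (ok : LfOK E V o) (an : Ang V.A V.B) {τ ρ : ℝ}
    (hτ : 0 ≤ τ) (s1 : |V.s - V.s'| ≤ τ) (s2 : |V.t - V.t'| ≤ τ) {H K : Half}
    (r1 : RowsT τ ρ H K V.A V.B) (r2 : RowsT τ ρ K H V.A V.B) {d n : ℕ}
    {gO gP : List (Am × ℝ × ℝ)} (h1 : GlOK E gO) (h2 : GlOK E gP)
    {k : T3 → List Am → List Am → ℕ → Bool}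
    (h : rowK o d n (gO.map Prod.fst) (gP.map Prod.fst) k = true) :
    ∃ W w gO' gP' m, W.Mem E w ∧ GlOK E gO' ∧ GlOK E gP' ∧ (∀ g ∈ gO, g ∈ gO') ∧
      (∀ g ∈ gP, g ∈ gP') ∧ (GlIn V gO' → GlIn V gP' →
        ρ * w + (aval V H gO + aval V K gP) ≤ aval V H gO' + aval V K gP') ∧
      k W (gO'.map Prod.fst) (gP'.map Prod.fst) m = true := by
  simp only [rowK, gB_eq, gN_eq] at h
  exact zr_row ok an hτ s1 s2 r1 r2 h1 h2 h

def rwsK (o : Lf) (c : ℕ) :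
    ℕ → List Am → List Am → T3 → (List Am → List Am → T3 → ℕ → Bool) → Bool :=
  Nat.rec (fun n L R W k => k L R W n) (fun _ ih n L R W k => rd 44 n fun d n => Bool.rec
    (rowK o d n R L fun w R L n => gT (W.add w) fun W => ih n L R W k)
    (rowK o d n L R fun w L R n => gT (W.add w) fun W => ih n L R W k)
    (Nat.beq (Nat.land d 1) 0)) c

def celA (u : Bool) (t : T3) (k : T3 → T3 → Bool) : Bool :=
  Bool.rec (k badT badT) (gT t fun t => scK t k) u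

/-- The check of a leaf: the value is at least `U`. -/
def tmK (h hx U : T3) (T : Tb) (fL fR : List Fc) (p0 q0 p1 q1 n : ℕ) (k : ℕ → Bool) : Bool :=
  rd 6 n fun d n =>
  celA (Nat.beq (bit d 0 1) 0) (angT (Nat.mul 2 (Nat.add p0 q0)) (Nat.mul 2 (Nat.sub q0 p0)) 0 0 0)
    fun s0 c0 =>
  celA (Nat.beq (bit d 1 1) 0) (angT (Nat.mul 2 (Nat.add p1 q1)) 0 (Nat.mul 2 (Nat.sub q1 p1)) 0 0)
    fun s1 c1 =>
  rwsK ⟨h, hx, s0, c0, s1, c1⟩ (bit d 2 15) n [] [] (cT 0) fun L R W n =>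
    nnT (wsb (h.mul W) U) && halfK T fL L n fun n => halfK T fR R n k

theorem zr_ins_ex (a : Am) (l : List Am) : ∀ k : List Am → Bool, insA a l k = true →
    ∃ l', k l' = true := by
  induction l with
  | nil => exact fun k h => ⟨_, h⟩
  | cons b r ih =>
    intro k h
    replace h : Bool.rec (insA a r fun r => k (b :: r)) (k (a :: b :: r)) (Nat.ble a.k b.k)
      = true := h
    cases hb : Nat.ble a.k b.k <;> rw [hb] at h
    · obtain ⟨l, h⟩ := ih _ h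
      exact ⟨_, h⟩
    · exact ⟨_, h⟩

theorem zr_rot_ex {g : ℕ} {c s : T3} {σ : Bool} {k : T3 → T3 → Bool}
    (h : rotK g c s σ k = true) : ∃ S C, k S C = true := by
  simp only [rotK, gN_eq, gT_eq] at h
  exact ⟨_, _, h⟩

theorem zr_dir_ex {o : Lf} {g kv : ℕ} {k : T3 → T3 → ℕ → Bool} (h : dirK o g kv k = true) :
    ∃ S C j, k S C j = true := by
  have key : ∀ (c s : T3) (σ : Bool) (j : ℕ), (rotK g c s σ fun S C => k S C j) = true →
      ∃ S C j, k S C j = true := fun c s σ j h => by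
    obtain ⟨S, C, h⟩ := zr_rot_ex h
    exact ⟨_, _, _, h⟩
  rcases kv with _ | _ | _ | _ | _ | _ | kv
  · exact key oneT (cT 0) true 0 h
  · exact key o.c0 o.s0 true 2 h
  · exact key o.c0 o.s0 false 1 h
  · cases h
  · exact key o.c1 o.s1 true 5 h
  · exact key o.c1 o.s1 false 4 h
  · cases h

theorem zr_put_ex {cd g kv nv ip im key : ℕ} {x y : T3} {O P : List Am}
    {k : List Am → List Am → Bool} (h : putK cd g kv nv ip im key x y O P k = true) :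
    ∃ O P, k O P = true := by
  obtain ⟨_, h⟩ := gT_ex h
  rcases cd with _ | _ | cd
  · obtain ⟨_, h⟩ := gN_ex h
    obtain ⟨_, h⟩ := gT_ex h
    obtain ⟨_, h⟩ := zr_ins_ex _ _ _ h
    exact ⟨_, _, h⟩
  · obtain ⟨_, h⟩ := gN_ex (and_el h).2
    obtain ⟨_, h⟩ := gT_ex h
    obtain ⟨_, h⟩ := zr_ins_ex _ _ _ h
    exact ⟨_, _, h⟩
  · obtain ⟨_, h⟩ := gN_ex (and_el h).2
    obtain ⟨_, h⟩ := zr_ins_ex _ _ _ h
    exact ⟨_, _, h⟩

theorem zr_cen_ex {md g kv k1 k2 n : ℕ} {S C : T3} {O P : List Am}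
    {k : T3 → T3 → T3 → List Am → List Am → ℕ → Bool}
    (h : cenK md g kv k1 k2 S C n O P k = true) : ∃ W X Y O P n, k W X Y O P n = true := by
  obtain ⟨_, _, h, -⟩ := wK_spec h
  obtain ⟨_, h⟩ := gT_ex (and_el h).2
  obtain ⟨_, h⟩ := gT_ex h
  rcases md with _ | _ | md
  · obtain ⟨_, h⟩ := zr_ins_ex _ _ _ h
    exact ⟨_, _, _, _, _, _, h⟩
  · obtain ⟨_, h⟩ := gN_ex (and_el h).2
    obtain ⟨_, h⟩ := zr_ins_ex _ _ _ h
    exact ⟨_, _, _, _, _, _, h⟩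
  · obtain ⟨_, _, h, -⟩ := wK_spec h
    obtain ⟨_, h⟩ := gT_ex (and_el h).2
    iterate 4 obtain ⟨_, h⟩ := gT_ex h
    obtain ⟨_, h⟩ := zr_ins_ex _ _ _ h
    rcases md with _ | md
    · obtain ⟨_, h⟩ := gN_ex (and_el h).2
      obtain ⟨_, h⟩ := zr_ins_ex _ _ _ h
      exact ⟨_, _, _, _, _, _, h⟩
    · obtain ⟨_, h⟩ := zr_ins_ex _ _ _ (and_el h).2
      exact ⟨_, _, _, _, _, _, h⟩

theorem zr_row_ex {o : Lf} {d n : ℕ} {O P : List Am} {k : T3 → List Am → List Am → ℕ → Bool}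
    (h : rowK o d n O P k = true) : ∃ W O P n, k W O P n = true := by
  simp only [rowK, gB_eq, gN_eq] at h
  obtain ⟨_, _, _, h⟩ := zr_dir_ex h
  obtain ⟨_, _, _, _, _, _, h⟩ := zr_cen_ex h
  iterate 4 obtain ⟨_, h⟩ := gT_ex h
  obtain ⟨_, _, h⟩ := zr_put_ex h
  iterate 2 obtain ⟨_, h⟩ := gT_ex h
  obtain ⟨_, _, h⟩ := zr_put_ex h
  exact ⟨_, _, _, _, h⟩

theorem zr_rws_ex (o : Lf) (c : ℕ) : ∀ n L R W k, rwsK o c n L R W k = true →
    ∃ L R W n, k L R W n = true := by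
  induction c with
  | zero => exact fun _ _ _ _ _ h => ⟨_, _, _, _, h⟩
  | succ c ih =>
    intro n L R W k h
    obtain ⟨d, n, h⟩ := rd_ex h
    cases hb : Nat.beq (Nat.land d 1) 0 <;> rw [hb] at h
    all_goals
      obtain ⟨_, _, _, _, h⟩ := zr_row_ex h
      obtain ⟨_, h⟩ := gT_ex h
      exact ih _ _ _ _ _ h

theorem zr_cel_ex {u : Bool} {t : T3} {k : T3 → T3 → Bool} (h : celA u t k = true) :
    ∃ s c, k s c = true := by
  cases u
  · exact ⟨_, _, h⟩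
  · replace h : (gT t fun t => scK t k) = true := h
    simp only [scK, gT_eq] at h
    exact ⟨_, _, h⟩

theorem zr_cel {S : Env → Prop} {u : Bool} {t : T3} {x : ℝ} (m : SM S t x) {k : T3 → T3 → Bool}
    (h : celA u t k = true) : ∃ s c, SM S s (sin x) ∧ SM S c (cos x) ∧ k s c = true := by
  cases u
  · exact ⟨_, _, fun E _ => badT_mem E _, fun E _ => badT_mem E _, h⟩
  · replace h : (gT t fun t => scK t k) = true := h
    obtain ⟨t, m, h⟩ := m.el h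
    exact m.scK h

theorem zr_rws {E : Env} {V : Vr} {o : Lf} (ok : LfOK E V o) (an : Ang V.A V.B) {τ ρ : ℝ}
    (hτ : 0 ≤ τ) (s1 : |V.s - V.s'| ≤ τ) (s2 : |V.t - V.t'| ≤ τ) {L R : Half}
    (r1 : RowsT τ ρ L R V.A V.B) (r2 : RowsT τ ρ R L V.A V.B) (c : ℕ) :
    ∀ (n : ℕ) (gL gR : List (Am × ℝ × ℝ)) (W : T3) (w : ℝ) k, GlOK E gL → GlOK E gR →
      W.Mem E w → (GlIn V gL → GlIn V gR → ρ * w ≤ aval V L gL + aval V R gR) →
      rwsK o c n (gL.map Prod.fst) (gR.map Prod.fst) W k = true →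
      ∃ (gL gR : List (Am × ℝ × ℝ)) (W : T3) (w : ℝ) (m : ℕ), GlOK E gL ∧ GlOK E gR ∧ W.Mem E w ∧
        (GlIn V gL → GlIn V gR → ρ * w ≤ aval V L gL + aval V R gR) ∧
        k (gL.map Prod.fst) (gR.map Prod.fst) W m = true := by
  induction c with
  | zero => exact fun n gL gR W w k a1 a2 a3 a4 h => ⟨gL, gR, W, w, n, a1, a2, a3, a4, h⟩
  | succ c ih =>
    intro n gL gR W w k a1 a2 a3 a4 h
    obtain ⟨d, n, h⟩ := rd_ex h
    cases hb : Nat.beq (Nat.land d 1) 0 <;> rw [hb] at h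
    · obtain ⟨W', w', gR', gL', m, b1, b2, b3, b4, b5, b6, h⟩ :=
        rowK_spec ok an hτ s1 s2 r2 r1 a2 a1 h
      refine ih m gL' gR' _ (w + w') k b3 b2 (PT.add_mem a3 b1) (fun i j => ?_)
        ((gT_eq _ _).symm.trans h)
      linarith [a4 (zr_in b5 i) (zr_in b4 j), b6 j i]
    · obtain ⟨W', w', gL', gR', m, b1, b2, b3, b4, b5, b6, h⟩ :=
        rowK_spec ok an hτ s1 s2 r1 r2 a1 a2 h
      refine ih m gL' gR' _ (w + w') k b2 b3 (PT.add_mem a3 b1) (fun i j => ?_)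
        ((gT_eq _ _).symm.trans h)
      linarith [a4 (zr_in b4 i) (zr_in b5 j), b6 i j]

theorem tmK_k {h hx U : T3} {T : Tb} {fL fR : List Fc} {p0 q0 p1 q1 n : ℕ} {k : ℕ → Bool}
    (e : tmK h hx U T fL fR p0 q0 p1 q1 n k = true) : ∃ m, k m = true := by
  obtain ⟨_, _, e⟩ := rd_ex e
  obtain ⟨_, _, e⟩ := zr_cel_ex e
  obtain ⟨_, _, e⟩ := zr_cel_ex e
  obtain ⟨_, _, _, _, e⟩ := zr_rws_ex _ _ _ _ _ _ _ e
  obtain ⟨_, e⟩ := halfK_k (and_el e).2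
  exact halfK_k e

theorem tmK_spec {a b : ℝ} {E : Env} (q : SB a b E) {V : Vr} (an : Ang V.A V.B) {h hx U : T3}
    (m1 : SM (SB a b) h (alt V.A V.B))
    (m2 : SM (SB a b) hx (alt V.A V.B * (cos V.A / sin V.A))) {u : ℝ} (m3 : SM (SB a b) U u)
    {T : Tb} (o : TbOK V T) {τ γ : ℝ} (hτ : 0 ≤ τ) (hγ : 0 ≤ γ) (s1 : |V.s - V.s'| ≤ τ)
    (s2 : |V.t - V.t'| ≤ τ) {L R : Half} (r1 : RowsT τ (γ * alt V.A V.B) L R V.A V.B)
    (r2 : RowsT τ (γ * alt V.A V.B) R L V.A V.B) {fL fR : List Fc} (f1 : ∀ c ∈ fL, c.OK V L)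
    (f2 : ∀ c ∈ fR, c.OK V R) {p0 q0 p1 q1 n : ℕ} (c1 : ang p0 ≤ V.s) (c2 : V.s ≤ ang q0)
    (c3 : ang p1 ≤ V.t) (c4 : V.t ≤ ang q1) {k : ℕ → Bool}
    (e : tmK h hx U T fL fR p0 q0 p1 q1 n k = true) : γ * u ≤ L.len + R.len := by
  obtain ⟨x, hx', es⟩ := ang_coord c1 c2
  obtain ⟨y, hy', et⟩ := ang_coord c3 c4
  obtain ⟨E, q⟩ := SC.ex q hx' hy'
  obtain ⟨d, n, e⟩ := rd_ex e
  obtain ⟨s0, c0, a1, a2, e⟩ := zr_cel (x := V.s) (SM.cast (SM.of (angT_mem E _ _ _ _ _)) (by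
    rw [es, q.2.1]; simp only [Nat.mul_eq, Nat.add_eq, Nat.sub_eq]; push_cast; ring)) e
  obtain ⟨s1', c1', a3, a4, e⟩ := zr_cel (x := V.t) (SM.cast (SM.of (angT_mem E _ _ _ _ _)) (by
    rw [et, q.2.2]; simp only [Nat.mul_eq, Nat.add_eq, Nat.sub_eq]; push_cast; ring)) e
  obtain ⟨gL, gR, W, w, m, b1, b2, b3, b4, e⟩ := zr_rws (o := ⟨h, hx, s0, c0, s1', c1'⟩)
    ⟨m1 E q.1, m2 E q.1, a1 E rfl, a2 E rfl, a3 E rfl, a4 E rfl⟩ an hτ s1 s2 r1 r2 _ n [] []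
    (cT 0) 0 _ (fun _ h => absurd h List.not_mem_nil) (fun _ h => absurd h List.not_mem_nil)
    ((SM.cst (S := (· = E)) 0).cast (by simp) E rfl) (fun _ _ => by simp [aval]) e
  obtain ⟨e0, e⟩ := and_el e
  have d0 := (((m1.at q.1).mul (SM.of b3)).sub (m3.at q.1)).nn rfl e0
  obtain ⟨i, d1⟩ := halfK_spec o L f1 b1 e
  obtain ⟨_, e⟩ := halfK_k e
  obtain ⟨j, d2⟩ := halfK_spec o R f2 b2 e
  have d3 := b4 i j
  have d4 := mul_nonneg hγ d0
  linarith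

end

end Pool.Agent.P.MP_d76e6a_co
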