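import Pool.Agent.P.MP_d76e6a_co.ZHook
import Pool.Agent.P.MP_d76e6a_co.ZRow
import Pool.Agent.P.MP_d76e6a_co.WTab

/-!
The data of a box and the leaves of the tree.
-/

namespace Pool.Agent.P.MP_d76e6a_co

open Real

noncomputable section

/-- The lower corner of a box. -/
structure Nm where
  a : ℕ
  b : ℕ
  c : ℕ
  sa : ℕ
  sb : ℕ
  sc : ℕ
  w : ℕ

structure NmOK (m : Nm) (A B : ℝ) : Prop where
  a : ang m.a ≤ A
  b : ang m.b ≤ B
  a0 : 1 ≤ m.a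
  b0 : 1 ≤ m.b
  c : m.c = m.a + m.b
  c1 : m.a + m.b ≤ 2880
  sa : m.sa = sn m.a
  sb : m.sb = sn m.b
  sc : m.sc = sn (m.a + m.b)
  w : (m.w : ℝ) ≤ 2 ^ 32 * alt (ang m.a) (ang m.b)
  w0 : 4294967296 ≤ 6 * m.w
  h : 1 / 6 ≤ alt A B

def setXK (a0 a1 b0 b1 : ℕ) (k : Bx → T3 → Nm → Bool) : Bool :=
  gN (Nat.add a0 b0) fun c => gN (sn a0) fun sa => gN (sn b0) fun sb => gN (sn c) fun sc =>
  gN (Nat.div (Nat.mul (Nat.sub sa 10) (Nat.sub sb 10)) (Nat.add sc 10)) fun w =>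
  Nat.ble 1 a0 && Nat.ble 1 b0 && Nat.blt c 2880 && Nat.ble 4294967296 (Nat.mul 6 w) &&
  bxK a0 a1 b0 b1 fun x => nnT (wsb (PT.nm 6 x.h) oneT) && gT ((oneT.add x.ka).mul (cT 549755813888)) fun hx =>
    k x hx ⟨a0, b0, c, sa, sb, sc, w⟩

/-- The models of the box are valid. -/
def XOK (x : Bx) (hx : T3) (A B : ℝ) : Prop := ∃ α β E, SB α β E ∧ BxOK (SB α β) x A B ∧
  SM (SB α β) hx (alt A B * (cos A / sin A))

theorem zu_inv {t : T3} {k : T3 → Bool} (h : invK t k = true) : ∃ s, k s = true := by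
  obtain ⟨_, h⟩ := gT_ex h
  exact gT_ex (and_el h).2

theorem zu_bx {a0 a1 b0 b1 : ℕ} {k : Bx → Bool} (h : bxK a0 a1 b0 b1 k = true) :
    ∃ x, k x = true := by
  iterate 9 obtain ⟨_, h⟩ := gT_ex h
  iterate 3 obtain ⟨_, h⟩ := zu_inv h
  iterate 7 obtain ⟨_, h⟩ := gT_ex h
  exact ⟨_, h⟩

theorem setXK_ex {a0 a1 b0 b1 : ℕ} {k : Bx → T3 → Nm → Bool} (h : setXK a0 a1 b0 b1 k = true) :
    ∃ x hx m, k x hx m = true := by
  iterate 5 obtain ⟨_, h⟩ := gN_ex h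
  obtain ⟨_, h⟩ := zu_bx (and_el h).2
  obtain ⟨_, h⟩ := gT_ex (and_el h).2
  exact ⟨_, _, _, h⟩

theorem zu_w {a0 b0 : ℕ} (k1 : 1 ≤ a0) (k3 : a0 + b0 < 2880) :
    ((Nat.div ((sn a0 - 10) * (sn b0 - 10)) (sn (a0 + b0) + 10) : ℕ) : ℝ)
      ≤ 2 ^ 32 * alt (ang a0) (ang b0) := by
  set w := Nat.div ((sn a0 - 10) * (sn b0 - 10)) (sn (a0 + b0) + 10) with hw
  have s1 := sn_sub (k := a0) (by omega)
  have s2 := sn_sub (k := b0) (by omega)
  have s3 := (abs_le.1 (sn_spec k3.le)).1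
  have s4 : 0 < sin (ang (a0 + b0)) := sin_pos_of_pos_of_lt_pi (ang_pos (by omega)) (by
    have := ang_pos (x := 2880 - (a0 + b0)) (by omega)
    have e := ang_add (a0 + b0) (2880 - (a0 + b0))
    rw [Nat.add_sub_cancel' k3.le, ang_pi] at e
    linarith)
  have i1 : ((w * (sn (a0 + b0) + 10) : ℕ) : ℝ) ≤ ((sn a0 - 10) * (sn b0 - 10) : ℕ) :=
    Nat.cast_le.2 (Nat.div_mul_le_self _ _)
  have i2 := mul_le_mul s1 s2 (Nat.cast_nonneg _) ((Nat.cast_nonneg _).trans s1)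
  have i3 := mul_le_mul_of_nonneg_left (show 2 ^ 32 * sin (ang (a0 + b0)) ≤ sn (a0 + b0) + 10 by
    linarith) (Nat.cast_nonneg (α := ℝ) w)
  push_cast [-Nat.cast_sub] at i1
  rw [alt, ← ang_add, ← mul_div_assoc, le_div_iff₀ s4]
  linarith

theorem setXK_spec {a0 a1 b0 b1 : ℕ} {k : Bx → T3 → Nm → Bool} (h : setXK a0 a1 b0 b1 k = true)
    {A B : ℝ} (h1 : ang a0 ≤ A) (h2 : A ≤ ang a1) (h3 : ang b0 ≤ B) (h4 : B ≤ ang b1) :
    ∃ x hx m, XOK x hx A B ∧ NmOK m A B ∧ k x hx m = true := by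
  simp only [setXK, gN_eq, Bool.and_eq_true, Nat.ble_eq, Nat.blt_eq, Nat.add_eq, Nat.mul_eq,
    Nat.sub_eq] at h
  obtain ⟨⟨⟨⟨k1, k2⟩, k3⟩, k4⟩, h⟩ := h
  obtain ⟨a, b, E, x, e, o, h⟩ := bxK_spec h h1 h2 h3 h4
  obtain ⟨k5, h⟩ := and_el h
  have h6 : alt A B ≠ 0 := by
    have := (o.h.n6.sub SM.one).nn e k5
    intro c
    rw [c] at this
    linarith
  have sA : sin A ≠ 0 := fun c => h6 (by rw [alt, c]; simp)
  have sC : sin (A + B) ≠ 0 := fun c => h6 (by rw [alt, c]; simp)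
  obtain ⟨hx, mx, h⟩ := (((SM.one.add o.ka).mul (SM.cst _)).cast (v := alt A B * (cos A / sin A)) (by
    rw [alt, kap]
    push_cast
    field_simp
    rw [sin_add, sin_sub]
    ring)).el h
  exact ⟨x, hx, _, ⟨a, b, E, e, o, mx⟩, ⟨h1, h3, k1, k2, rfl, k3.le, rfl, rfl, rfl, zu_w k1 k3, k4,
    by linarith [(o.h.n6.sub SM.one).nn e k5]⟩, h⟩

/-- A certificate on the grid for the lower corner of the box. -/
def nmK (m : Nm) (U : T3) (T : Tb) (fL fR : List Fc) (n : ℕ) (k : ℕ → Bool) : Bool :=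
  ivZ U fun h _ => gN (Nat.succ (Nat.div (Nat.mul (Nat.sub h 4503599627370496) 16777216) m.w))
    fun V => rd 5 n fun c n => rd (Nat.mul c 33) n fun d n =>
      (decsK T fL fun dL => decsK T fR fun dR => rowsK c d fun l =>
        chk m.a m.b m.c m.sa m.sb m.sc V (.leaf l) dL dR) && k n

theorem nmK_k {m : Nm} {U : T3} {T : Tb} {fL fR : List Fc} {n : ℕ} {k : ℕ → Bool}
    (h : nmK m U T fL fR n k = true) : ∃ n, k n = true := by
  rw [nmK, ivZ, gN_eq, gN_eq] at h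
  replace h := (and_el h).2
  rw [gN_eq, gN_eq] at h
  obtain ⟨_, h⟩ := gN_ex h
  iterate 2 obtain ⟨_, _, h⟩ := rd_ex h
  exact ⟨_, (and_el h).2⟩

theorem nmK_spec {m : Nm} {U : T3} {T : Tb} {fL fR : List Fc} {n : ℕ} {k : ℕ → Bool}
    (h : nmK m U T fL fR n k = true) {V : Vr} (om : NmOK m V.A V.B) {E : Env} {u : ℝ}
    (mU : U.Mem E u) (o : TbOK V T) {τ γ : ℝ} (hτ : 0 ≤ τ) (hγ : 0 ≤ γ) {L R : Half}
    (cr : CRows τ γ L R V.A V.B) (n1 : NoTie L) (n2 : NoTie R) (f1 : ∀ c ∈ fL, c.OK V L)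
    (f2 : ∀ c ∈ fR, c.OK V R) : γ * u ≤ L.len + R.len := by
  obtain ⟨p, q, h, hI⟩ := ivZ_spec mU h
  have i1 := (hI E u mU).1
  rw [gN_eq] at h
  iterate 2 obtain ⟨_, _, h⟩ := rd_ex h
  obtain ⟨dL, hL, h⟩ := decsK_spec o n1 f1 (and_el h).1
  obtain ⟨dR, hR, h⟩ := decsK_spec o n2 f2 h
  obtain ⟨l, h⟩ := rowsK_ex _ _ _ h
  rw [om.c, om.sa, om.sb, om.sc] at h
  have w1 := om.w
  have w2 : (4294967296 : ℝ) ≤ 6 * m.w := by exact_mod_cast om.w0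
  have w0 : 0 < m.w := by have := om.w0; omega
  obtain ⟨r3, r4⟩ := cr _ _ (ang_pos om.a0) om.a (ang_pos om.b0) om.b (by linarith)
  refine le_trans ?_ (chk_spec om.c1 (mul_nonneg hγ (by linarith)) (r3.rows hτ) (r4.rows hτ) n1 n2
    _ _ _ hL hR h)
  rw [mul_assoc]
  refine mul_le_mul_of_nonneg_left ?_ hγ
  have i2 : (p - 4503599627370496) * 16777216
      ≤ m.w * Nat.succ (Nat.div (Nat.mul (Nat.sub p 4503599627370496) 16777216) m.w) :=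
    (Nat.lt_mul_div_succ _ w0).le
  generalize Nat.succ (Nat.div (Nat.mul (Nat.sub p 4503599627370496) 16777216) m.w) = W at i2 ⊢
  have i3 : (p : ℝ) - 4503599627370496 ≤ (p - 4503599627370496 : ℕ) := by
    rw [sub_le_iff_le_add]
    exact_mod_cast le_tsub_add
  have i4 := (Nat.cast_le (α := ℝ)).2 i2
  rw [Nat.cast_mul, Nat.cast_mul] at i4
  generalize ((p - 4503599627370496 : ℕ) : ℝ) = z at i3 i4
  have i5 := mul_le_mul_of_nonneg_right w1 (Nat.cast_nonneg (α := ℝ) W)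
  push_cast at i4
  linarith

def notZ (a1 b0 b1 : ℕ) (z : List (ℕ × ℕ × ℕ)) : Bool :=
  List.rec true (fun t _ ih => (Nat.ble a1 t.1 || Nat.ble b1 t.2.1 || Nat.blt t.2.2 b0) && ih) z

def inW (a0 a1 b0 b1 : ℕ) (l : List (Sec × Sec)) : Bool :=
  List.rec false (fun s _ ih => Nat.ble s.1.1 a0 && Nat.ble a1 s.2.1 && Nat.blt s.1.1 s.2.1 &&
    !below s.1.1 s.1.2.1 s.2.1 s.2.2.1 a0 b0 && !below s.1.1 s.1.2.1 s.2.1 s.2.2.1 a1 b0 &&
    !above s.1.1 s.1.2.2 s.2.1 s.2.2.2 a0 b1 && !above s.1.1 s.1.2.2 s.2.1 s.2.2.2 a1 b1 || ih) l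

theorem notZ_spec {a1 b0 b1 : ℕ} {z : List (ℕ × ℕ × ℕ)} (h : notZ a1 b0 b1 z = true) {A B : ℝ}
    (h2 : A < ang a1) (h3 : ang b0 ≤ B) (h4 : B < ang b1) :
    ¬∃ t ∈ z, ang t.1 ≤ A ∧ ang t.2.1 ≤ B ∧ B ≤ ang t.2.2 := by
  induction z with
  | nil => simp
  | cons s z ih =>
    obtain ⟨h, h'⟩ := and_el h
    rintro ⟨t, ht, c1, c2, c3⟩
    rcases List.mem_cons.1 ht with rfl | ht
    · simp only [Bool.or_eq_true, Nat.ble_eq, Nat.blt_eq] at h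
      rcases h with (h | h) | h
      · linarith [ang_mono h]
      · linarith [ang_mono h]
      · have := ang_mono (Nat.succ_le_of_lt h)
        rw [Nat.succ_eq_add_one, ang_add] at this
        linarith [ang_pos (x := 1) le_rfl]
    · exact ih h' ⟨t, ht, c1, c2, c3⟩

theorem inW_spec {a0 a1 b0 b1 : ℕ} {l : List (Sec × Sec)} (h : inW a0 a1 b0 b1 l = true) {A B : ℝ}
    (h1 : ang a0 ≤ A) (h2 : A ≤ ang a1) (h3 : ang b0 ≤ B) (h4 : B ≤ ang b1) :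
    ∃ s ∈ l, InCol s.1 s.2 A B := by
  induction l with
  | nil => cases h
  | cons s l ih =>
    replace h : (Nat.ble s.1.1 a0 && Nat.ble a1 s.2.1 && Nat.blt s.1.1 s.2.1 &&
      !below s.1.1 s.1.2.1 s.2.1 s.2.2.1 a0 b0 && !below s.1.1 s.1.2.1 s.2.1 s.2.2.1 a1 b0 &&
      !above s.1.1 s.1.2.2 s.2.1 s.2.2.2 a0 b1 && !above s.1.1 s.1.2.2 s.2.1 s.2.2.2 a1 b1 ||
      inW a0 a1 b0 b1 l) = true := h
    rw [Bool.or_eq_true] at h
    rcases h with h | h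
    swap
    · obtain ⟨t, ht, h⟩ := ih h
      exact ⟨t, List.mem_cons_of_mem _ ht, h⟩
    refine ⟨s, List.mem_cons_self, ?_⟩
    obtain ⟨⟨p, c, c'⟩, q, d, d'⟩ := s
    simp only [below, above, Bool.and_eq_true, Bool.not_eq_true', ← Bool.not_eq_true, Nat.ble_eq,
      Nat.blt_eq, Nat.add_eq, Nat.mul_eq, not_lt] at h
    obtain ⟨⟨⟨⟨⟨⟨k1, k2⟩, k3⟩, k4⟩, k5⟩, k6⟩, k7⟩ := h
    have hp : 0 < π / 2880 := by positivity
    obtain ⟨X, rfl⟩ : ∃ X, A = X * (π / 2880) := ⟨_, (div_mul_cancel₀ A hp.ne').symm⟩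
    replace h1 : (a0 : ℝ) ≤ X := le_of_mul_le_mul_right h1 hp
    replace h2 : X ≤ a1 := le_of_mul_le_mul_right h2 hp
    have j1 : (p : ℝ) ≤ a0 := by exact_mod_cast k1
    have j2 : (a1 : ℝ) ≤ q := by exact_mod_cast k2
    have j3 : (0 : ℝ) < q - p := sub_pos.2 (by exact_mod_cast k3)
    have j4 : (q : ℝ) * c + a0 * d + b0 * p ≤ b0 * q + p * d + a0 * c := by exact_mod_cast k4
    have j5 : (q : ℝ) * c + a1 * d + b0 * p ≤ b0 * q + p * d + a1 * c := by exact_mod_cast k5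
    have j6 : (b1 : ℝ) * q + p * d' + a0 * c' ≤ q * c' + a0 * d' + b1 * p := by exact_mod_cast k6
    have j7 : (b1 : ℝ) * q + p * d' + a1 * c' ≤ q * c' + a1 * d' + b1 * p := by exact_mod_cast k7
    have l1 := lin_between (a := b0 * q + p * d - q * c - b0 * p) (b := c - d) (by linarith)
      (by linarith) h1 h2
    have l2 := lin_between (a := q * c' + b1 * p - b1 * q - p * d') (b := d' - c') (by linarith)
      (by linarith) h1 h2
    obtain ⟨u, hu⟩ : ∃ u, X = p + u * (q - p) := ⟨(X - p) / (q - p), by field_simp; ring⟩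
    refine ⟨u, ⟨le_of_mul_le_mul_right (by linarith) j3, le_of_mul_le_mul_right (by linarith) j3⟩,
      by rw [hu]; ring, le_trans (mul_le_mul_of_nonneg_right ?_ hp.le) h3,
      h4.trans (mul_le_mul_of_nonneg_right ?_ hp.le)⟩
    · refine le_of_mul_le_mul_right ?_ j3
      rw [hu] at l1
      linarith
    · refine le_of_mul_le_mul_right ?_ j3
      rw [hu] at l2
      linarith

theorem Half.cell (H : Half) (n : NoTie H) {τ : ℝ} (hτ : 0 < τ) : ∃ (k : ℕ) (x y : ℝ), k < 2880 ∧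
    ang k ≤ x ∧ x ≤ y ∧ y ≤ ang (k + 1) ∧ y - x ≤ τ ∧ H.d x < H.d π ∧ H.d π ≤ H.d y := by
  have ex : ∃ m, H.d π ≤ H.d (ang m) := ⟨2880, by rw [ang_pi]⟩
  have h1 : Nat.find ex ≤ 2880 := Nat.find_min' ex (by rw [ang_pi])
  have h2 := Nat.find_spec ex
  have h3 := fun m => Nat.find_min ex (m := m)
  generalize Nat.find ex = j at h1 h2 h3
  rcases j with _ | j
  · have := n 0 2880 (by norm_num) le_rfl
    have e : ang 0 = 0 := by simp [ang]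
    rw [ang_pi, e, H.d0] at this
    rw [e, H.d0] at h2
    omega
  · obtain ⟨x, y, hxy⟩ := H.crossing (ang_mono (Nat.le_succ j)) hτ
      (not_le.1 (h3 j (Nat.lt_succ_self j))) h2
    exact ⟨j, x, y, by omega, hxy⟩

end

end Pool.Agent.P.MP_d76e6a_co
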