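import Pool.Agent.P.MP_d76e6a_co.ZD1
import Pool.Agent.P.MP_d76e6a_co.ZD2
import Pool.Agent.P.MP_d76e6a_co.ZD3
import Pool.Agent.P.MP_d76e6a_co.ZD4
import Pool.Agent.P.MP_d76e6a_co.ZD5
import Pool.Agent.P.MP_d76e6a_co.ZD6
import Pool.Agent.P.MP_d76e6a_co.ZD7
import Pool.Agent.P.MP_d76e6a_co.ZD8
import Pool.Agent.P.MP_d76e6a_co.ZD9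
import Pool.Agent.P.MP_d76e6a_co.ZD10
import Pool.Agent.P.MP_d76e6a_co.ZD11
import Pool.Agent.P.MP_d76e6a_co.ZD12
import Pool.Agent.P.MP_d76e6a_co.ZD13
import Pool.Agent.P.MP_d76e6a_co.ZD14
import Pool.Agent.P.MP_d76e6a_co.ZD15
import Pool.Agent.P.MP_d76e6a_co.ZD16
import Pool.Agent.P.MP_d76e6a_co.ZD17
import Pool.Agent.P.MP_d76e6a_co.ZD18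
import Pool.Agent.P.MP_d76e6a_co.ZD19

/-!
The zone is covered.
-/

namespace Pool.Agent.P.MP_d76e6a_co

theorem cov_zone : CovZ 436 724 656 1232 :=
  (CovZ.sb (CovZ.sb (CovZ.sb (CovZ.sb zd19.1 (CovZ.sb (CovZ.sa zd8.1 (CovZ.sa zd11.1 (CovZ.sa
  zd7.1 zd7.2.1))) (CovZ.sa zd8.2.1 (CovZ.sa zd6.1 (CovZ.sa zd13.1 zd11.2.1))))) (CovZ.sb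
  (CovZ.sb (CovZ.sa zd8.2.2.1 (CovZ.sa zd2.1 (CovZ.sa zd16.1 zd18.1))) (CovZ.sa zd8.2.2.2.1
  (CovZ.sa zd9.1 zd10.1))) (CovZ.sb zd11.2.2.1 (CovZ.sb zd10.2.1 zd11.2.2.2.1)))) (CovZ.sb
  (CovZ.sb (CovZ.sb zd17.1 zd5.1) (CovZ.sb (CovZ.sa zd6.2.1 zd8.2.2.2.2.1) (CovZ.sa zd4.1
  zd15.1))) (CovZ.sb (CovZ.sb (CovZ.sa (CovZ.sa zd8.2.2.2.2.2.1 (CovZ.sa zd9.2.1 (CovZ.sa zd12.1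
  (CovZ.sa zd5.2.1 zd19.2.1)))) zd13.2.1) (CovZ.sa (CovZ.sa zd8.2.2.2.2.2.2.1 (CovZ.sa zd10.2.2.1
  (CovZ.sa zd5.2.2.1 (CovZ.sa (CovZ.sa zd3.1 zd10.2.2.2.1) zd18.2.1)))) zd1.1)) (CovZ.sb (CovZ.sa
  (CovZ.sa zd8.2.2.2.2.2.2.2.1 (CovZ.sa zd2.2.1 (CovZ.sa zd4.2.1 (CovZ.sa (CovZ.sa zd17.2.1
  zd15.2.1) zd4.2.2.1)))) zd7.2.2.1) (CovZ.sb (CovZ.sa (CovZ.sa zd8.2.2.2.2.2.2.2.2.1 (CovZ.sa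
  zd11.2.2.2.2.1 (CovZ.sa zd11.2.2.2.2.2.1 (CovZ.sa (CovZ.sa (CovZ.sb zd11.2.2.2.2.2.2.1
  zd19.2.2.1) zd6.2.2.1) zd12.2.1)))) zd8.2.2.2.2.2.2.2.2.2.1) (CovZ.sa (CovZ.sa zd3.2.1 (CovZ.sa
  zd12.2.2.1 (CovZ.sa (CovZ.sa zd5.2.2.2.1 zd13.2.2.1) (CovZ.sa (CovZ.sa (CovZ.sb (CovZ.sa
  zd4.2.2.2.1 zd14.1) zd10.2.2.2.2.1) zd15.2.2.1) zd17.2.2.1)))) zd8.2.2.2.2.2.2.2.2.2.2.1))))))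
  (CovZ.sb (CovZ.sb (CovZ.sb (CovZ.sb (CovZ.sa (CovZ.sa zd14.2.1 (CovZ.sa zd14.2.2.1 (CovZ.sa
  (CovZ.sa zd18.2.2.1 (CovZ.sb zd19.2.2.2.1 zd8.2.2.2.2.2.2.2.2.2.2.2.1)) (CovZ.sa (CovZ.sa
  (CovZ.sb zd12.2.2.2.1 zd16.2.1) zd5.2.2.2.2.1) zd10.2.2.2.2.2.1))))
  zd8.2.2.2.2.2.2.2.2.2.2.2.2.1) (CovZ.sa (CovZ.sa zd6.2.2.2.1 (CovZ.sa zd18.2.2.2.1 (CovZ.sa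
  zd3.2.2.1 (CovZ.sa zd1.2.1 zd8.2.2.2.2.2.2.2.2.2.2.2.2.2.1))))
  zd8.2.2.2.2.2.2.2.2.2.2.2.2.2.2.1)) (CovZ.sb (CovZ.sa (CovZ.sa zd2.2.2.1 (CovZ.sa zd16.2.2.1
  (CovZ.sa zd12.2.2.2.2.1 (CovZ.sa zd19.2.2.2.2.1 zd1.2.2.1))))
  zd8.2.2.2.2.2.2.2.2.2.2.2.2.2.2.2.1) (CovZ.sa (CovZ.sa zd6.2.2.2.2.1 (CovZ.sa zd12.2.2.2.2.2.1
  (CovZ.sa zd17.2.2.2.1 (CovZ.sa zd7.2.2.2.1 zd19.2.2.2.2.2.1))))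
  zd8.2.2.2.2.2.2.2.2.2.2.2.2.2.2.2.2.1))) (CovZ.sb (CovZ.sb (CovZ.sa (CovZ.sa zd7.2.2.2.2.1
  (CovZ.sa zd8.2.2.2.2.2.2.2.2.2.2.2.2.2.2.2.2.2.1 (CovZ.sa
  zd8.2.2.2.2.2.2.2.2.2.2.2.2.2.2.2.2.2.2.1 (CovZ.sa zd3.2.2.2.1 zd17.2.2.2.2.1))))
  zd17.2.2.2.2.2.1) (CovZ.sa (CovZ.sa zd3.2.2.2.2.1 (CovZ.sa (CovZ.sa zd13.2.2.2.1
  zd13.2.2.2.2.1) (CovZ.sa zd2.2.2.2.1 (CovZ.sa zd5.2.2.2.2.2.1 zd7.2.2.2.2.2.1)))) (CovZ.sa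
  (CovZ.sa zd18.2.2.2.2.1 zd1.2.2.2.1) zd4.2.2.2.2.1))) (CovZ.sb (CovZ.sa (CovZ.sa
  zd6.2.2.2.2.2.1 (CovZ.sa (CovZ.sa zd9.2.2.1 (CovZ.sa zd1.2.2.2.2.1 zd10.2.2.2.2.2.2.1))
  (CovZ.sa zd9.2.2.2.1 (CovZ.sa zd7.2.2.2.2.2.2.1 zd15.2.2.2.1)))) (CovZ.sa (CovZ.sa
  zd3.2.2.2.2.2.1 zd17.2.2.2.2.2.2.1) zd3.2.2.2.2.2.2.1)) (CovZ.sb (CovZ.sa (CovZ.sa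
  zd4.2.2.2.2.2.1 (CovZ.sa (CovZ.sa zd9.2.2.2.2.1 (CovZ.sa zd11.2.2.2.2.2.2.2.1 zd16.2.2.2.1))
  (CovZ.sa (CovZ.sa zd10.2.2.2.2.2.2.2.1 zd4.2.2.2.2.2.2.1) (CovZ.sa zd5.2.2.2.2.2.2.1
  zd9.2.2.2.2.2.1)))) (CovZ.sa (CovZ.sa (CovZ.sa zd16.2.2.2.2.1 zd18.2.2.2.2.2.1) zd14.2.2.2.1)
  (CovZ.sa zd15.2.2.2.2.1 zd4.2.2.2.2.2.2.2.1))) (CovZ.sa (CovZ.sa zd14.2.2.2.2.1 (CovZ.sa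
  (CovZ.sa zd17.2.2.2.2.2.2.2.1 (CovZ.sa zd2.2.2.2.2.1 zd17.2.2.2.2.2.2.2.2.1)) (CovZ.sa (CovZ.sa
  zd1.2.2.2.2.2.1 zd18.2.2.2.2.2.2.1) zd9.2.2.2.2.2.2.1))) (CovZ.sa (CovZ.sa (CovZ.sa
  zd16.2.2.2.2.2.1 zd15.2.2.2.2.2.1) (CovZ.sa zd18.2.2.2.2.2.2.2.1 zd13.2.2.2.2.2.1)) (CovZ.sa
  zd19.2.2.2.2.2.2.1 (CovZ.sa zd2.2.2.2.2.2.1 zd1.2.2.2.2.2.2.1)))))))) (CovZ.sb (CovZ.sb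
  (CovZ.sb (CovZ.sa (CovZ.sa zd5.2.2.2.2.2.2.2.1 (CovZ.sa (CovZ.sa zd3.2.2.2.2.2.2.2.1 (CovZ.sa
  zd6.2.2.2.2.2.2.1 (CovZ.sb zd2.2.2.2.2.2.2.1 zd9.2.2.2.2.2.2.2.1))) (CovZ.sa (CovZ.sa
  zd8.2.2.2.2.2.2.2.2.2.2.2.2.2.2.2.2.2.2.2.1 zd6.2.2.2.2.2.2.2.1) (CovZ.sa zd13.2.2.2.2.2.2.1
  zd11.2.2.2.2.2.2.2.2.1)))) (CovZ.sa (CovZ.sa (CovZ.sa zd10.2.2.2.2.2.2.2.2.1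
  zd11.2.2.2.2.2.2.2.2.2.1) (CovZ.sa zd7.2.2.2.2.2.2.2.1 zd1.2.2.2.2.2.2.2.1)) (CovZ.sa (CovZ.sa
  zd12.2.2.2.2.2.2.1 zd6.2.2.2.2.2.2.2.2.1) (CovZ.sa (CovZ.sa zd15.2.2.2.2.2.2.1
  zd7.2.2.2.2.2.2.2.2.1) zd8.2.2.2.2.2.2.2.2.2.2.2.2.2.2.2.2.2.2.2.2.1)))) (CovZ.sa (CovZ.sa
  zd9.2.2.2.2.2.2.2.2.1 (CovZ.sa (CovZ.sa zd15.2.2.2.2.2.2.2.1 (CovZ.sa zd3.2.2.2.2.2.2.2.2.1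
  zd5.2.2.2.2.2.2.2.2.1)) (CovZ.sa (CovZ.sa zd12.2.2.2.2.2.2.2.1 (CovZ.sb
  zd8.2.2.2.2.2.2.2.2.2.2.2.2.2.2.2.2.2.2.2.2.2.1 zd4.2.2.2.2.2.2.2.2.1)) (CovZ.sa
  zd17.2.2.2.2.2.2.2.2.2.1 zd6.2.2.2.2.2.2.2.2.2.1)))) (CovZ.sa (CovZ.sa (CovZ.sa
  zd11.2.2.2.2.2.2.2.2.2.2.1 zd8.2.2.2.2.2.2.2.2.2.2.2.2.2.2.2.2.2.2.2.2.2.2.1) (CovZ.sa (CovZ.sa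
  zd10.2.2.2.2.2.2.2.2.2.1 zd9.2.2.2.2.2.2.2.2.2.1) (CovZ.sa zd11.2.2.2.2.2.2.2.2.2.2.2.1
  zd3.2.2.2.2.2.2.2.2.2.1))) (CovZ.sa (CovZ.sa (CovZ.sa zd5.2.2.2.2.2.2.2.2.2.1
  zd10.2.2.2.2.2.2.2.2.2.2.1) zd13.2.2.2.2.2.2.2.1) (CovZ.sa (CovZ.sa
  zd10.2.2.2.2.2.2.2.2.2.2.2.1 (CovZ.sa zd7.2.2.2.2.2.2.2.2.2.1 (CovZ.sa zd14.2.2.2.2.2.1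
  zd16.2.2.2.2.2.2.1))) zd8.2.2.2.2.2.2.2.2.2.2.2.2.2.2.2.2.2.2.2.2.2.2.2.1))))) (CovZ.sb
  (CovZ.sa (CovZ.sa zd10.2.2.2.2.2.2.2.2.2.2.2.2.1 (CovZ.sa zd14.2.2.2.2.2.2.1 (CovZ.sa (CovZ.sa
  zd2.2.2.2.2.2.2.2.1 zd5.2.2.2.2.2.2.2.2.2.2.1) (CovZ.sa (CovZ.sb zd1.2.2.2.2.2.2.2.2.1
  zd19.2.2.2.2.2.2.2.1) (CovZ.sb zd6.2.2.2.2.2.2.2.2.2.2.1 zd6.2.2.2.2.2.2.2.2.2.2.2.1)))))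
  (CovZ.sa (CovZ.sa (CovZ.sa (CovZ.sb zd14.2.2.2.2.2.2.2.1 zd2.2.2.2.2.2.2.2.2.1)
  zd17.2.2.2.2.2.2.2.2.2.2.1) (CovZ.sa (CovZ.sa (CovZ.sb zd12.2.2.2.2.2.2.2.2.1
  zd4.2.2.2.2.2.2.2.2.2.1) zd7.2.2.2.2.2.2.2.2.2.2.1) (CovZ.sa zd15.2.2.2.2.2.2.2.2.1
  zd14.2.2.2.2.2.2.2.2.1))) (CovZ.sa (CovZ.sa zd13.2.2.2.2.2.2.2.2.1 zd16.2.2.2.2.2.2.2.1)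
  (CovZ.sa (CovZ.sa zd17.2.2.2.2.2.2.2.2.2.2.2.1 (CovZ.sa zd12.2.2.2.2.2.2.2.2.2.1 (CovZ.sa
  zd1.2.2.2.2.2.2.2.2.2.1 (CovZ.sa zd2.2.2.2.2.2.2.2.2.2.1 zd18.2.2.2.2.2.2.2.2.1))))
  zd8.2.2.2.2.2.2.2.2.2.2.2.2.2.2.2.2.2.2.2.2.2.2.2.2.1)))) (CovZ.sa (CovZ.sa
  zd19.2.2.2.2.2.2.2.2.1 (CovZ.sa zd9.2.2.2.2.2.2.2.2.2.2.1 (CovZ.sa zd19.2.2.2.2.2.2.2.2.2.1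
  (CovZ.sa zd13.2.2.2.2.2.2.2.2.2.1 zd15.2.2.2.2.2.2.2.2.2.1)))) (CovZ.sa (CovZ.sa (CovZ.sa
  (CovZ.sb zd19.2.2.2.2.2.2.2.2.2.2.1 zd12.2.2.2.2.2.2.2.2.2.2.1) (CovZ.sb
  zd15.2.2.2.2.2.2.2.2.2.2.1 zd14.2.2.2.2.2.2.2.2.2.1)) (CovZ.sa (CovZ.sb
  zd1.2.2.2.2.2.2.2.2.2.2.1 zd8.2.2.2.2.2.2.2.2.2.2.2.2.2.2.2.2.2.2.2.2.2.2.2.2.2.1) (CovZ.sb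
  zd14.2.2.2.2.2.2.2.2.2.2.1 zd13.2.2.2.2.2.2.2.2.2.2.1))) (CovZ.sa (CovZ.sa (CovZ.sb
  zd2.2.2.2.2.2.2.2.2.2.2.1 zd16.2.2.2.2.2.2.2.2.1) (CovZ.sb zd4.2.2.2.2.2.2.2.2.2.2.1
  zd12.2.2.2.2.2.2.2.2.2.2.2.1)) (CovZ.sa (CovZ.sa (CovZ.sb
  zd8.2.2.2.2.2.2.2.2.2.2.2.2.2.2.2.2.2.2.2.2.2.2.2.2.2.2.1 zd2.2.2.2.2.2.2.2.2.2.2.2.1) (CovZ.sa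
  (CovZ.sb zd6.2.2.2.2.2.2.2.2.2.2.2.2.1 zd7.2.2.2.2.2.2.2.2.2.2.2.1) (CovZ.sa (CovZ.sb
  zd3.2.2.2.2.2.2.2.2.2.2.1 zd9.2.2.2.2.2.2.2.2.2.2.2.1) (CovZ.sa zd3.2.2.2.2.2.2.2.2.2.2.2.1
  (CovZ.sa zd9.2.2.2.2.2.2.2.2.2.2.2.2.1 zd4.2.2.2.2.2.2.2.2.2.2.2.1)))))
  zd8.2.2.2.2.2.2.2.2.2.2.2.2.2.2.2.2.2.2.2.2.2.2.2.2.2.2.2.1)))))) (CovZ.sb (CovZ.sb (CovZ.sa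
  (CovZ.sa zd8.2.2.2.2.2.2.2.2.2.2.2.2.2.2.2.2.2.2.2.2.2.2.2.2.2.2.2.2.1 (CovZ.sa
  zd17.2.2.2.2.2.2.2.2.2.2.2.2.1 (CovZ.sa zd2.2.2.2.2.2.2.2.2.2.2.2.2.1
  zd4.2.2.2.2.2.2.2.2.2.2.2.2.1))) (CovZ.sa (CovZ.sa (CovZ.sa zd14.2.2.2.2.2.2.2.2.2.2.2.1
  (CovZ.sb zd8.2.2.2.2.2.2.2.2.2.2.2.2.2.2.2.2.2.2.2.2.2.2.2.2.2.2.2.2.2.1
  zd18.2.2.2.2.2.2.2.2.2.1)) (CovZ.sa (CovZ.sb zd5.2.2.2.2.2.2.2.2.2.2.2.1 (CovZ.sa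
  zd19.2.2.2.2.2.2.2.2.2.2.2.1 zd10.2.2.2.2.2.2.2.2.2.2.2.2.2.1)) (CovZ.sb
  zd3.2.2.2.2.2.2.2.2.2.2.2.2.1 (CovZ.sa zd10.2.2.2.2.2.2.2.2.2.2.2.2.2.2
  zd5.2.2.2.2.2.2.2.2.2.2.2.2.1)))) (CovZ.sa (CovZ.sa (CovZ.sb zd19.2.2.2.2.2.2.2.2.2.2.2.2.1
  zd9.2.2.2.2.2.2.2.2.2.2.2.2.2.1) (CovZ.sa (CovZ.sb zd14.2.2.2.2.2.2.2.2.2.2.2.2.1 (CovZ.sa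
  zd3.2.2.2.2.2.2.2.2.2.2.2.2.2.1 zd14.2.2.2.2.2.2.2.2.2.2.2.2.2.1)) (CovZ.sa (CovZ.sb
  zd17.2.2.2.2.2.2.2.2.2.2.2.2.2 (CovZ.sa zd7.2.2.2.2.2.2.2.2.2.2.2.2.1
  zd16.2.2.2.2.2.2.2.2.2.1)) (CovZ.sa (CovZ.sb zd16.2.2.2.2.2.2.2.2.2.2.1 (CovZ.sa (CovZ.sb
  zd11.2.2.2.2.2.2.2.2.2.2.2.2.1
  zd8.2.2.2.2.2.2.2.2.2.2.2.2.2.2.2.2.2.2.2.2.2.2.2.2.2.2.2.2.2.2.1)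
  zd13.2.2.2.2.2.2.2.2.2.2.2.1)) (CovZ.sb (CovZ.sa zd16.2.2.2.2.2.2.2.2.2.2.2.1 (CovZ.sa
  zd8.2.2.2.2.2.2.2.2.2.2.2.2.2.2.2.2.2.2.2.2.2.2.2.2.2.2.2.2.2.2.2.1
  zd15.2.2.2.2.2.2.2.2.2.2.2.1))
  zd8.2.2.2.2.2.2.2.2.2.2.2.2.2.2.2.2.2.2.2.2.2.2.2.2.2.2.2.2.2.2.2.2.1)))))
  zd8.2.2.2.2.2.2.2.2.2.2.2.2.2.2.2.2.2.2.2.2.2.2.2.2.2.2.2.2.2.2.2.2.2.1))) (CovZ.sa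
  zd13.2.2.2.2.2.2.2.2.2.2.2.2.1 (CovZ.sa (CovZ.sa zd12.2.2.2.2.2.2.2.2.2.2.2.2.1 (CovZ.sb
  zd5.2.2.2.2.2.2.2.2.2.2.2.2.2.1 zd18.2.2.2.2.2.2.2.2.2.2.1)) (CovZ.sa (CovZ.sa (CovZ.sb
  zd13.2.2.2.2.2.2.2.2.2.2.2.2.2 zd15.2.2.2.2.2.2.2.2.2.2.2.2.1) (CovZ.sb (CovZ.sa
  zd11.2.2.2.2.2.2.2.2.2.2.2.2.2.1 (CovZ.sa zd16.2.2.2.2.2.2.2.2.2.2.2.2.1 (CovZ.sa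
  zd8.2.2.2.2.2.2.2.2.2.2.2.2.2.2.2.2.2.2.2.2.2.2.2.2.2.2.2.2.2.2.2.2.2.2.1 (CovZ.sa (CovZ.sb
  (CovZ.sa zd7.2.2.2.2.2.2.2.2.2.2.2.2.2.1 zd2.2.2.2.2.2.2.2.2.2.2.2.2.2.1) (CovZ.sa
  zd6.2.2.2.2.2.2.2.2.2.2.2.2.2.1 zd1.2.2.2.2.2.2.2.2.2.2.2.1)) (CovZ.sa (CovZ.sb
  zd6.2.2.2.2.2.2.2.2.2.2.2.2.2.2
  zd8.2.2.2.2.2.2.2.2.2.2.2.2.2.2.2.2.2.2.2.2.2.2.2.2.2.2.2.2.2.2.2.2.2.2.2.1)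
  zd8.2.2.2.2.2.2.2.2.2.2.2.2.2.2.2.2.2.2.2.2.2.2.2.2.2.2.2.2.2.2.2.2.2.2.2.2.1))))) (CovZ.sa
  (CovZ.sb (CovZ.sa zd9.2.2.2.2.2.2.2.2.2.2.2.2.2.2 zd18.2.2.2.2.2.2.2.2.2.2.2.1) (CovZ.sa
  zd12.2.2.2.2.2.2.2.2.2.2.2.2.2.1 (CovZ.sa zd18.2.2.2.2.2.2.2.2.2.2.2.2.1
  zd1.2.2.2.2.2.2.2.2.2.2.2.2.1))) (CovZ.sa (CovZ.sb (CovZ.sa zd4.2.2.2.2.2.2.2.2.2.2.2.2.2.1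
  (CovZ.sb zd5.2.2.2.2.2.2.2.2.2.2.2.2.2.2
  zd8.2.2.2.2.2.2.2.2.2.2.2.2.2.2.2.2.2.2.2.2.2.2.2.2.2.2.2.2.2.2.2.2.2.2.2.2.2.1))
  zd8.2.2.2.2.2.2.2.2.2.2.2.2.2.2.2.2.2.2.2.2.2.2.2.2.2.2.2.2.2.2.2.2.2.2.2.2.2.2.1)
  zd8.2.2.2.2.2.2.2.2.2.2.2.2.2.2.2.2.2.2.2.2.2.2.2.2.2.2.2.2.2.2.2.2.2.2.2.2.2.2.2.1))))
  zd8.2.2.2.2.2.2.2.2.2.2.2.2.2.2.2.2.2.2.2.2.2.2.2.2.2.2.2.2.2.2.2.2.2.2.2.2.2.2.2.2.1))))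
  (CovZ.sb (CovZ.sa zd16.2.2.2.2.2.2.2.2.2.2.2.2.2 (CovZ.sa (CovZ.sa
  zd11.2.2.2.2.2.2.2.2.2.2.2.2.2.2 (CovZ.sa (CovZ.sb zd19.2.2.2.2.2.2.2.2.2.2.2.2.2.1
  zd1.2.2.2.2.2.2.2.2.2.2.2.2.2.1) (CovZ.sa (CovZ.sb (CovZ.sa zd7.2.2.2.2.2.2.2.2.2.2.2.2.2.2
  zd4.2.2.2.2.2.2.2.2.2.2.2.2.2.2) (CovZ.sb (CovZ.sa zd14.2.2.2.2.2.2.2.2.2.2.2.2.2.2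
  zd12.2.2.2.2.2.2.2.2.2.2.2.2.2.2) (CovZ.sa (CovZ.sa zd18.2.2.2.2.2.2.2.2.2.2.2.2.2
  zd3.2.2.2.2.2.2.2.2.2.2.2.2.2.2)
  zd8.2.2.2.2.2.2.2.2.2.2.2.2.2.2.2.2.2.2.2.2.2.2.2.2.2.2.2.2.2.2.2.2.2.2.2.2.2.2.2.2.2.1)))
  (CovZ.sa (CovZ.sb zd2.2.2.2.2.2.2.2.2.2.2.2.2.2.2
  zd8.2.2.2.2.2.2.2.2.2.2.2.2.2.2.2.2.2.2.2.2.2.2.2.2.2.2.2.2.2.2.2.2.2.2.2.2.2.2.2.2.2.2.1)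
  zd8.2.2.2.2.2.2.2.2.2.2.2.2.2.2.2.2.2.2.2.2.2.2.2.2.2.2.2.2.2.2.2.2.2.2.2.2.2.2.2.2.2.2.2.1))))
  zd8.2.2.2.2.2.2.2.2.2.2.2.2.2.2.2.2.2.2.2.2.2.2.2.2.2.2.2.2.2.2.2.2.2.2.2.2.2.2.2.2.2.2.2.2.1))
  (CovZ.sb (CovZ.sa (CovZ.sa zd19.2.2.2.2.2.2.2.2.2.2.2.2.2.2 zd15.2.2.2.2.2.2.2.2.2.2.2.2.2)
  zd8.2.2.2.2.2.2.2.2.2.2.2.2.2.2.2.2.2.2.2.2.2.2.2.2.2.2.2.2.2.2.2.2.2.2.2.2.2.2.2.2.2.2.2.2.2)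
  zd1.2.2.2.2.2.2.2.2.2.2.2.2.2.2))))))

end Pool.Agent.P.MP_d76e6a_co
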