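import Pool.Agent.P.MP_d76e6a_co.ZMm
import Pool.Agent.P.MP_d76e6a_co.ZIv

/-!
Bands of crossing angles for the decoupled certificate.
-/

namespace Pool.Agent.P.MP_d76e6a_co

open Real

noncomputable section

/-- Sines and cosines of `x`, `2 x`, `A - x`. -/
structure Xs where
  s : T3
  c : T3
  s2 : T3
  c2 : T3
  sA : T3
  cA : T3

structure XsOK (S : Env → Prop) (t : Xs) (A x : ℝ) : Prop where
  s : SM S t.s (sin x)
  c : SM S t.c (cos x)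
  s2 : SM S t.s2 (sin (2 * x))
  c2 : SM S t.c2 (cos (2 * x))
  sA : SM S t.sA (sin (A - x))
  cA : SM S t.cA (cos (A - x))

def xsK (b : Bx) (X : T3) (k : Xs → Bool) : Bool :=
  scK X fun s c => gT (PT.nm 2 (s.mul c)) fun s2 => gT (wsb oneT (PT.nm 2 (s.mul s))) fun c2 =>
    gT (wsb (b.sA.mul c) (b.cA.mul s)) fun sA => gT ((b.cA.mul c).add (b.sA.mul s)) fun cA =>
    k ⟨s, c, s2, c2, sA, cA⟩

theorem zb_el {t : T3} {k : T3 → Bool} (h : gT t k = true) :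
    ∃ s, (∀ {S : Env → Prop} {u : ℝ}, SM S t u → SM S s u) ∧ k s = true :=
  ⟨t, fun a => a, gT_eq t k ▸ h⟩

theorem zb_inv {t : T3} {k : T3 → Bool} (h : invK t k = true) :
    ∃ s, (∀ {S : Env → Prop} {u : ℝ}, SM S t u → SM S s (1 / u)) ∧ k s = true := by
  obtain ⟨s, h1, h⟩ := zb_el h
  obtain ⟨h2, h⟩ := and_el h
  obtain ⟨s', h3, h⟩ := zb_el h
  exact ⟨s', fun a => h3 fun E q => (PT.inv_mem (by norm_num) h2 (h1 a E q)).2, h⟩

theorem zb_xs {b : Bx} {X : T3} {k : Xs → Bool} (h : xsK b X k = true) :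
    ∃ t, (∀ {S : Env → Prop} {A B x : ℝ}, BxOK S b A B → SM S X x → XsOK S t A x) ∧
      k t = true := by
  unfold xsK scK at h
  obtain ⟨s, m1, h⟩ := zb_el h
  obtain ⟨c, m2, h⟩ := zb_el h
  obtain ⟨s2, m3, h⟩ := zb_el h
  obtain ⟨c2, m4, h⟩ := zb_el h
  obtain ⟨sA, m5, h⟩ := zb_el h
  obtain ⟨cA, m6, h⟩ := zb_el h
  refine ⟨_, fun {S A B x} o m => ?_, h⟩
  have a1 := m1 m.sin
  have a2 := m2 m.cos
  exact ⟨a1, a2, (m3 (a1.mul a2).n2).cast (by rw [sin_two_mul]; ring),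
    (m4 (SM.one.sub (a1.mul a1).n2)).cast (by rw [cos_two_mul, cos_sq']; ring),
    (m5 ((o.sA.mul a2).sub (o.cA.mul a1))).cast (sin_sub A x).symm,
    (m6 ((o.cA.mul a2).add (o.sA.mul a1))).cast (cos_sub A x).symm⟩

theorem xsK_spec {S : Env → Prop} {b : Bx} {A B x : ℝ} (o : BxOK S b A B) {X : T3} (m : SM S X x)
    {k : Xs → Bool} (h : xsK b X k = true) : ∃ t, XsOK S t A x ∧ k t = true := by
  obtain ⟨t, ht, h⟩ := zb_xs h
  exact ⟨t, ht o m, h⟩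

def vcK (b : Bx) (t : Xs) (u w : T3) (k : T3 → T3 → Bool) : Bool :=
  gT (t.c.add (b.y.mul t.s)) fun kB => gT (t.c.add (b.x.mul t.s)) fun kA =>
  gT (wsb (w.mul t.cA) (u.mul t.sA)) fun σ => gT (b.sA.mul w) fun aw => gT (b.h.mul σ) fun hσ =>
  gT (wsb (kB.mul aw) hσ) fun D => gT (wsb kB oneT) fun k1 => gT (k1.mul b.sA) fun k2 =>
  gT (wsb (u.mul t.c) (w.mul t.s)) fun cg =>
  nnT u && nnT (wsb w (cT 1)) && nnT σ && nnT cg &&
  nnT (wsb (PT.nm 2 (cg.mul (t.s.mul b.sB))) (wsb (b.sA.mul u) (b.cA.mul w))) &&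
  nnT (wsb D (cT 1)) && nnT (wsb ((wsb kA oneT).mul D) ((k1.mul kA).mul aw)) &&
  nnT (wsb ((wsb aw hσ).mul t.s)
    (PT.nm 2 ((b.h.mul k2).mul (((w.mul t.c2).add (u.mul t.s2)).mul t.c)))) && k k2 D

theorem vcK_spec {S : Env → Prop} {E : Env} (q : S E) {b : Bx} {A B x u w : ℝ} (o : BxOK S b A B)
    (a : Ang A B) {t : Xs} (ot : XsOK S t A x) {U W : T3} (mu : SM S U u) (mw : SM S W w)
    (x0 : 1 / 30 ≤ x) (x1 : 2 * x ≤ A) {k : T3 → T3 → Bool} (h : vcK b t U W k = true) :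
    VC A B x u w ∧ ∃ k2 D, SM S k2 ((wk B x - 1) * sin A) ∧
      SM S D (wk B x * (sin A * w) - alt A B * (w * cos (A - x) - u * sin (A - x))) ∧
      k k2 D = true := by
  obtain ⟨sA, sAB, -⟩ := a.sins
  obtain ⟨kB, mkB, h⟩ := ((ot.c.add (o.y.mul ot.s)).cast
    (wk_eq (B := B) (φ := x) (by linarith)).symm).el h
  obtain ⟨kA, mkA, h⟩ := ((ot.c.add (o.x.mul ot.s)).cast (wk_eq (B := A) (φ := x) sA).symm).el h
  obtain ⟨σ, mσ, h⟩ := ((mw.mul ot.cA).sub (mu.mul ot.sA)).el h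
  obtain ⟨aw, maw, h⟩ := (o.sA.mul mw).el h
  obtain ⟨hσ, mhσ, h⟩ := (o.h.mul mσ).el h
  obtain ⟨D, mD, h⟩ := ((mkB.mul maw).sub mhσ).el h
  obtain ⟨k1, mk1, h⟩ := (mkB.sub SM.one).el h
  obtain ⟨k2, mk2, h⟩ := (mk1.mul o.sA).el h
  obtain ⟨cg, mcg, h⟩ := ((mu.mul ot.c).sub (mw.mul ot.s)).el h
  obtain ⟨h, h9⟩ := and_el h
  obtain ⟨h, h8⟩ := and_el h
  obtain ⟨h, h7⟩ := and_el h
  obtain ⟨h, h6⟩ := and_el h
  obtain ⟨h, h5⟩ := and_el h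
  obtain ⟨h, h4⟩ := and_el h
  obtain ⟨h, h3⟩ := and_el h
  obtain ⟨h1, h2⟩ := and_el h
  have a2 := (mw.sub (SM.cst 1)).nn q h2
  have a5 := ((mcg.mul (ot.s.mul o.sB)).n2.sub ((o.sA.mul mu).sub (o.cA.mul mw))).nn q h5
  have a6 := (mD.sub (SM.cst 1)).nn q h6
  have a7 := (((mkA.sub SM.one).mul mD).sub ((mk1.mul mkA).mul maw)).nn q h7
  have a8 := (((maw.sub mhσ).mul ot.s).sub ((o.h.mul mk2).mul
    (((mw.mul ot.c2).add (mu.mul ot.s2)).mul ot.c)).n2).nn q h8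
  push_cast at a2 a6
  exact ⟨⟨x0, x1, mu.nn q h1, by linarith, mσ.nn q h3, mcg.nn q h4, by linarith, by linarith,
    by linarith, by linarith⟩, k2, D, mk2, mD, h9⟩

def wcK (b : Bx) (t : Xs) : Bool :=
  nnT (wsb (t.s2.mul t.c) (((PT.nm 4 ((b.h.mul (wsb (t.c.add (b.y.mul t.s)) oneT)).mul t.c)).add
    t.s).mul t.c2))

theorem wcK_spec {S : Env → Prop} {E : Env} (q : S E) {b : Bx} {A B x : ℝ} (o : BxOK S b A B)
    (a : Ang A B) {t : Xs} (ot : XsOK S t A x) (x0 : 0 ≤ x) (x1 : 2 * x ≤ A)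
    (h : wcK b t = true) : wY A B x * cos (2 * x) ≤ sin (2 * x) := by
  obtain ⟨sA, sAB, -⟩ := a.sins
  have mk := (ot.c.add (o.y.mul ot.s)).cast (wk_eq (B := B) (φ := x) (by linarith)).symm
  have a1 := ((ot.s2.mul ot.c).sub ((((o.h.mul (mk.sub SM.one)).mul ot.c).n4.add ot.s).mul
    ot.c2)).nn q h
  have hp := pi_pos
  have c : 0 < cos x := cos_pos_of_mem_Ioo ⟨by linarith, by linarith [a.h1, a.h2]⟩
  have e : tan x * cos x = sin x := tan_mul_cos c.ne'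
  refine le_of_mul_le_mul_right ?_ c
  rw [wY]
  linear_combination a1 + cos (2 * x) * e

structure Jv where
  h : ℕ
  l : ℕ

def Jv.In (i : Jv) (u : ℝ) : Prop := Ib i.h i.l u

def iK (t : T3) (k : Jv → Bool) : Bool := ivZ t fun h l => k ⟨h, l⟩

/-- A band of crossing angles with enclosures of the data of the certificate. -/
structure Mb where
  x0 : ℕ
  x1 : ℕ
  f1 : Jv
  f2 : Jv
  u : Jv
  v : Jv
  x4 : Jv
  y4 : Jv
  x5 : Jv
  y5 : Jv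
  gx : Jv
  gy : Jv
  hx : Jv
  hy : Jv

structure Mb.At (w : Mb) (A B x p : ℝ) : Prop where
  f1 : w.f1.In (mF1 A B x p)
  f2 : w.f2.In (mF2 A B x p)
  u : w.u.In (mU A B x p)
  v : w.v.In (mV A B x p)
  x4 : w.x4.In (mX4 A B x p)
  y4 : w.y4.In (mY4 A B x p)
  x5 : w.x5.In (mX5 A B x p)
  y5 : w.y5.In (mY5 A B x p)
  gx : w.gx.In (mGx A B x p)
  gy : w.gy.In (mGy A B x p)
  hx : w.hx.In (mHx A B x p)
  hy : w.hy.In (mHy A B x p)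

def Mb.OK (A B v : ℝ) (w : Mb) : Prop := ∀ x, ang w.x0 ≤ x → x ≤ ang w.x1 →
  ∃ p, MOwn A B x p ∧ v ≤ mT A B x p ∧ w.At A B x p

def fK (b : Bx) (t : Xs) (i p : T3) (k : T3 → T3 → T3 → T3 → T3 → T3 → T3 → T3 → Bool) : Bool :=
  gT (wsb (cT 549755813888) (b.h.mul p)) fun x4 => gT (x4.mul i) fun ν => gT (ν.mul b.rB) fun w =>
  gT (w.mul t.sA) fun x5 => gT (w.mul t.cA) fun y5 => gT (wsb p t.s2) fun s =>
  gT (wsb t.c2 x5) fun u => gT (s.add y5) fun v => gT (wsb ((u.mul u).add (v.mul v)) oneT) fun F =>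
  k x4 ν x5 y5 s u v F

def pK (md r : ℕ) (nW : T3) (n : ℕ) (k : T3 → ℕ → Bool) : Bool :=
  Nat.rec (wK n k) (fun j _ => Nat.rec
    (wK n fun p n => gT (p.add (affT 0 0 0 0 0 r)) fun p => k p n) (fun j _ => Nat.rec (k nW n)
      (fun _ _ => gT ((wsb nW (cT r)).add (affT 0 0 0 0 0 r)) fun p => k p n) j) j) md

def mdK (md r : ℕ) (ok : Bool) (b : Bx) (t : Xs) (i nW U p x4 ν u v F : T3) : Bool :=
  Nat.rec (nnT (wsb nW p) && nnT F.neg &&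
      nnT (wsb (oneT.add (PT.nm 2 (wsb (ν.mul b.sB) x4))) U)) (fun j _ => ok && Nat.rec
    (nnT (wsb nW p) && PT.dom 2 F && vcK b t u v fun _ _ => true) (fun j _ => wcK b t && Nat.rec
      (nnT F.neg) (fun _ _ => (gT (wsb nW (cT (Nat.mul 2 r))) fun p =>
        fK b t i p fun _ _ _ _ _ _ _ F => nnT F.neg) && vcK b t u v fun _ _ => true) j) j) md

/-- The check of one band; `ik` is `1 / kap`, `hy` is `h cot B`, and `U` an upper bound for the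
value. -/
def mbK (b : Bx) (ik hy U : T3) (a0 b1 n : ℕ) (k : Mb → ℕ → Bool) : Bool :=
  rd 9 n fun x0 n => rd 9 n fun x1 n => rd 2 n fun md n => rd 26 n fun r n =>
  gN (Nat.mul r 1024) fun r => Nat.ble (Nat.add b1 x1) 1440 &&
  gT (angT (Nat.mul 2 (Nat.add x0 x1)) (Nat.mul 2 (Nat.sub x1 x0)) 0 0 0) fun X => xsK b X fun t =>
  invK ((b.sB.mul t.c).add (b.cB.mul t.s)) fun i =>
  gT (wsb (b.cB.mul t.c) (b.sB.mul t.s)) fun cK => gT (PT.nm 2 t.s2) fun nW =>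
  pK md r nW n fun p n => fK b t i p fun x4 ν x5 y5 s u v F =>
  gT (wsb (ν.mul b.rC) (PT.nm 2 t.s)) fun l => gT (wsb t.c2 (l.mul t.s)) fun c1 =>
  gT (wsb s (l.mul t.c)) fun s1 =>
  nnT s && nnT l && nnT (wsb oneT ((c1.mul c1).add (s1.mul s1))) &&
  mdK md r (Nat.ble 31 x0 && Nat.ble (Nat.mul 2 x1) a0) b t i nW U p x4 ν u v F &&
  gT (ν.mul cK) fun y4 => gT (p.mul (cT 549755813888)) fun hp => gT ((wsb hp y4).mul ik) fun ξ =>
  gT (hp.add ξ) fun f1 => gT (wsb hp ξ) fun f2 =>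
  gT ((b.h.mul f2).add x5) fun gx => gT (wsb (hy.mul f2) y5) fun gy =>
  gT ((b.h.mul f1).add x4) fun hx => gT (wsb (hy.mul f1) y4) fun hy =>
  iK f1 fun f1 => iK f2 fun f2 => iK u fun u => iK v fun v => iK x4 fun x4 => iK y4 fun y4 =>
  iK x5 fun x5 => iK y5 fun y5 => iK gx fun gx => iK gy fun gy => iK hx fun hx => iK hy fun hy =>
  k ⟨x0, x1, f1, f2, u, v, x4, y4, x5, y5, gx, gy, hx, hy⟩ n

theorem zb_iK {t : T3} {k : Jv → Bool} (h : iK t k = true) :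
    ∃ j, (∀ {E : Env} {u : ℝ}, SM (· = E) t u → j.In u) ∧ k j = true := by
  by_cases c : ∃ E u, t.Mem E u
  · obtain ⟨E, u, a⟩ := c
    obtain ⟨p, q, h, H⟩ := ivZ_spec a h
    exact ⟨⟨p, q⟩, fun m => H _ _ (m _ rfl), h⟩
  · unfold iK ivZ at h
    obtain ⟨_, h⟩ := gN_ex h
    obtain ⟨_, h⟩ := gN_ex h
    obtain ⟨p, h⟩ := gN_ex (and_el h).2
    obtain ⟨q, h⟩ := gN_ex h
    exact ⟨⟨p, q⟩, fun m => absurd ⟨_, _, m _ rfl⟩ c, h⟩

structure zb_FOK (S : Env → Prop) (x4 ν x5 y5 s u v F : T3) (A B x p : ℝ) : Prop where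
  x4 : SM S x4 (mX4 A B x p)
  ν : SM S ν (mNu A B x p)
  x5 : SM S x5 (mX5 A B x p)
  y5 : SM S y5 (mY5 A B x p)
  s : SM S s (p - sin (2 * x))
  u : SM S u (mU A B x p)
  v : SM S v (mV A B x p)
  F : SM S F (mU A B x p ^ 2 + mV A B x p ^ 2 - 1)

theorem zb_f {b : Bx} {t : Xs} {i p : T3} {k : T3 → T3 → T3 → T3 → T3 → T3 → T3 → T3 → Bool}
    (h : fK b t i p k = true) : ∃ x4 ν x5 y5 s u v F,
      (∀ {S : Env → Prop} {A B x z : ℝ}, BxOK S b A B → XsOK S t A x →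
        SM S i (1 / sin (B + x)) → SM S p z → zb_FOK S x4 ν x5 y5 s u v F A B x z) ∧
      k x4 ν x5 y5 s u v F = true := by
  obtain ⟨x4, m1, h⟩ := zb_el h
  obtain ⟨ν, m2, h⟩ := zb_el h
  obtain ⟨w, m3, h⟩ := zb_el h
  obtain ⟨x5, m4, h⟩ := zb_el h
  obtain ⟨y5, m5, h⟩ := zb_el h
  obtain ⟨s, m6, h⟩ := zb_el h
  obtain ⟨u, m7, h⟩ := zb_el h
  obtain ⟨v, m8, h⟩ := zb_el h
  obtain ⟨F, m9, h⟩ := zb_el h
  refine ⟨x4, ν, x5, y5, s, u, v, F, fun {S A B x z} o ot mi mp => ?_, h⟩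
  have a1 : SM S x4 (mX4 A B x z) :=
    (m1 ((SM.cst _).sub (o.h.mul mp))).cast (by rw [mX4]; norm_num)
  have a2 : SM S ν (mNu A B x z) := (m2 (a1.mul mi)).cast (by rw [mX4, mNu, mul_one_div])
  have a3 : SM S w (mW A B x z) := m3 (a2.mul o.rB)
  have a4 : SM S x5 (mX5 A B x z) := m4 (a3.mul ot.sA)
  have a5 : SM S y5 (mY5 A B x z) := m5 (a3.mul ot.cA)
  have a6 := m6 (mp.sub ot.s2)
  have a7 : SM S u (mU A B x z) := m7 (ot.c2.sub a4)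
  have a8 : SM S v (mV A B x z) := m8 (a6.add a5)
  exact ⟨a1, a2, a4, a5, a6, a7, a8,
    (m9 (((a7.mul a7).add (a8.mul a8)).sub SM.one)).cast (by ring)⟩

theorem zb_p {md r n : ℕ} {nW : T3} {k : T3 → ℕ → Bool} (h : pK md r nW n k = true) :
    ∃ p m, (∀ e1 e2 u : ℝ, ∃ f : (ℕ → ℝ) → ℝ, Continuous f ∧
      (∀ E : Env, E.e1 = e1 → E.e2 = e2 → SM (· = E) nW u → SM (· = E) p (f E.xi)) ∧
      (md = 2 → ∀ z, f z = u) ∧
      (3 ≤ md → ∀ z, f z = u - r / 1099511627776 + r * z 2 / 1099511627776)) ∧ k p m = true := by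
  have af : ∀ E : Env, SM (· = E) (affT 0 0 0 0 0 r) (r * E.xi 2 / 1099511627776) := fun E =>
    (SM.of (affT_mem E 0 0 0 0 0 r)).cast (by simp)
  rcases md with _ | _ | _ | md
  · obtain ⟨p, m, h, H⟩ := wK_spec h
    refine ⟨p, m, fun e1 e2 u => ?_, h⟩
    obtain ⟨f, fc, hf⟩ := H e1 e2
    exact ⟨f, fc, fun E a b _ => SM.of (hf E a b), by omega, by omega⟩
  · obtain ⟨p, m, h, H⟩ := wK_spec h
    obtain ⟨p', mp, h⟩ := zb_el h
    refine ⟨p', m, fun e1 e2 u => ?_, h⟩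
    obtain ⟨f, fc, hf⟩ := H e1 e2
    exact ⟨fun z => f z + r * z 2 / 1099511627776, by fun_prop,
      fun E a b _ => mp ((SM.of (hf E a b)).add (af E)), by omega, by omega⟩
  · exact ⟨nW, n, fun e1 e2 u => ⟨fun _ => u, continuous_const, fun E _ _ a => a,
      fun _ _ => rfl, by omega⟩, h⟩
  · replace h : gT ((wsb nW (cT r)).add (affT 0 0 0 0 0 r)) (fun p => k p n) = true := h
    obtain ⟨p', mp, h⟩ := zb_el h
    exact ⟨p', n, fun e1 e2 u => ⟨fun z => u - r / 1099511627776 + r * z 2 / 1099511627776,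
      by fun_prop, fun E _ _ a => mp ((a.sub (SM.cst r)).add (af E)), by omega, fun _ _ => rfl⟩, h⟩

theorem zb_ivt {A B x : ℝ} {g : ℝ → ℝ} (hg : Continuous g)
    (h0 : mU A B x (g (-1)) ^ 2 + mV A B x (g (-1)) ^ 2 - 1 ≤ 0)
    (h1 : 0 ≤ mU A B x (g 1) ^ 2 + mV A B x (g 1) ^ 2 - 1) :
    ∃ ξ, |ξ| ≤ 1 ∧ mU A B x (g ξ) ^ 2 + mV A B x (g ξ) ^ 2 = 1 := by
  have c : Continuous fun ξ => mU A B x (g ξ) ^ 2 + mV A B x (g ξ) ^ 2 - 1 := by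
    unfold mU mV mW mNu
    fun_prop
  obtain ⟨ξ, a, e⟩ := intermediate_value_Icc (a := -1) (b := 1) (by norm_num) c.continuousOn
    (show 0 ∈ Set.Icc _ _ from ⟨h0, h1⟩)
  exact ⟨ξ, abs_le.2 a, sub_eq_zero.1 e⟩

theorem zb_md {md r : ℕ} {ok : Bool} {b : Bx} {t : Xs} {i nW U p x4 ν u v F x5 y5 s : T3}
    (h : mdK md r ok b t i nW U p x4 ν u v F = true) {S : Env → Prop}
    (hS : ∀ E ξ, S E → S (E.set ξ)) {E : Env} (q : S E) {A B x w z : ℝ} (o : BxOK S b A B)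
    (ot : XsOK S t A x) (mi : SM S i (1 / sin (B + x))) (mW : SM S nW (2 * sin (2 * x)))
    (mU' : SM S U z) (a : Ang A B) (lo : Low2 A B w) (wz : w ≤ z)
    (hok : ok = true → 1 / 30 ≤ x ∧ 2 * x ≤ A) {g : ℝ → ℝ} (hg : Continuous g)
    (mp : ∀ ξ, SM (· = E.set ξ) p (g ξ))
    (mf : ∀ ξ, zb_FOK (· = E.set ξ) x4 ν x5 y5 s u v F A B x (g ξ))
    (g2 : md = 2 → ∀ ξ, g ξ = 2 * sin (2 * x))
    (g3 : 3 ≤ md → ∀ ξ, |ξ| ≤ 1 →
      g ξ = 2 * sin (2 * x) - r / 1099511627776 + r * ξ / 1099511627776) :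
    ∃ ξ, g ξ ≤ 2 * sin (2 * x) ∧ mU A B x (g ξ) ^ 2 + mV A B x (g ξ) ^ 2 ≤ 1 ∧
      w ≤ mT A B x (g ξ) := by
  have q' : ∀ ξ, S (E.set ξ) := fun ξ => hS E ξ q
  have xat : ∀ ξ, XsOK (· = E.set ξ) t A x := fun ξ =>
    ⟨ot.s.at (q' ξ), ot.c.at (q' ξ), ot.s2.at (q' ξ), ot.c2.at (q' ξ), ot.sA.at (q' ξ),
      ot.cA.at (q' ξ)⟩
  have vc : ∀ ξ, ok = true → (vcK b t u v fun _ _ => true) = true →
      mU A B x (g ξ) ^ 2 + mV A B x (g ξ) ^ 2 = 1 → w ≤ mT A B x (g ξ) := fun ξ k h e =>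
    mT_V a lo e (vcK_spec (S := (· = E.set ξ)) (E := E.set ξ) rfl (o.at (q' ξ)) a (xat ξ) (mf ξ).u
      (mf ξ).v (hok k).1 (hok k).2 h).1
  have wc : ok = true → wcK b t = true → w ≤ mT A B x (2 * sin (2 * x)) := fun k h =>
    mT_W a lo.w (by linarith [(hok k).1]) (hok k).2
      (wcK_spec q o a ot (by linarith [(hok k).1]) (hok k).2 h)
  rcases md with _ | _ | _ | md
  · replace h : (nnT (wsb nW p) && nnT F.neg &&
      nnT (wsb (oneT.add (PT.nm 2 (wsb (ν.mul b.sB) x4))) U)) = true := h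
    obtain ⟨h, h3⟩ := and_el h
    obtain ⟨h1, h2⟩ := and_el h
    have a1 := ((mW.at (q' 0)).sub (mp 0)).nn rfl h1
    have a2 := (mf 0).F.neg.nn rfl h2
    have a3 := ((SM.one.add (((mf 0).ν.mul (o.sB.at (q' 0))).sub (mf 0).x4).n2).sub
      (mU'.at (q' 0))).nn rfl h3
    refine ⟨0, by linarith, by linarith, ?_⟩
    rw [mX4] at a3
    rw [mT]
    linarith
  · obtain ⟨k, h⟩ := and_el h
    obtain ⟨h, h3⟩ := and_el h
    obtain ⟨h1, h2⟩ := and_el h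
    have d := fun ξ => PT.dom_sound (by norm_num) (by norm_num) h2 ((mf ξ).F _ rfl)
    obtain ⟨ξ, -, e⟩ := zb_ivt hg ((d (-1)).2 (E.set_two (by simp)))
      ((d 1).1 (E.set_two (by simp)))
    have a1 := ((mW.at (q' ξ)).sub (mp ξ)).nn rfl h1
    exact ⟨ξ, by linarith, e.le, vc ξ k h3 e⟩
  · obtain ⟨k, h⟩ := and_el h
    obtain ⟨h1, h2⟩ := and_el h
    have a2 := (mf 0).F.neg.nn rfl h2
    exact ⟨0, (g2 rfl 0).le, by linarith, (g2 rfl 0).symm ▸ wc k h1⟩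
  · obtain ⟨k, h⟩ := and_el h
    obtain ⟨h1, h⟩ := and_el h
    obtain ⟨h2, h3⟩ := and_el h
    have g3 := g3 (by omega)
    have e1 : g 1 = 2 * sin (2 * x) := by rw [g3 1 (by simp)]; ring
    rcases le_total (mU A B x (g 1) ^ 2 + mV A B x (g 1) ^ 2 - 1) 0 with c | c
    · exact ⟨1, e1.le, by linarith, e1.symm ▸ wc k h1⟩
    · obtain ⟨p', mp', h2⟩ := ((mW.sub (SM.cst _)).cast (v := g (-1)) (by
        rw [g3 (-1) (by simp)]; simp only [Nat.mul_eq]; push_cast; ring)).el h2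
      obtain ⟨_, _, _, _, _, _, _, F', H, h2⟩ := zb_f h2
      have a2 := (H o ot mi mp').F.neg.nn q h2
      obtain ⟨ξ, x1, e⟩ := zb_ivt hg (by linarith) c
      refine ⟨ξ, ?_, e.le, vc ξ k h3 e⟩
      rw [g3 ξ x1]
      have := mul_le_mul_of_nonneg_left (abs_le.1 x1).2 (Nat.cast_nonneg (α := ℝ) r)
      linarith

theorem mbK_spec {b : Bx} {ik hy U : T3} {a0 b1 n : ℕ} {k : Mb → ℕ → Bool}
    (h : mbK b ik hy U a0 b1 n k = true) : ∃ w m, k w m = true ∧ ∀ (α β A B v u : ℝ) (E : Env),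
      SB α β E → BxOK (SB α β) b A B → SM (SB α β) ik (1 / kap A B) →
      SM (SB α β) hy (alt A B * (cos B / sin B)) → SM (SB α β) U u → Ang A B → A < B →
      ang a0 ≤ A → B ≤ ang b1 → Low2 A B v → v ≤ u → w.OK A B v := by
  obtain ⟨x0, n, h⟩ := rd_ex h
  obtain ⟨x1, n, h⟩ := rd_ex h
  obtain ⟨md, n, h⟩ := rd_ex h
  obtain ⟨r, n, h⟩ := rd_ex h
  obtain ⟨r, h⟩ := gN_ex h
  obtain ⟨h0, h⟩ := and_el h
  obtain ⟨X, mX, h⟩ := zb_el h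
  obtain ⟨t, mt, h⟩ := zb_xs h
  obtain ⟨i, mi, h⟩ := zb_inv h
  obtain ⟨cK, mcK, h⟩ := zb_el h
  obtain ⟨nW, mW, h⟩ := zb_el h
  obtain ⟨p, n, mp, h⟩ := zb_p h
  obtain ⟨x4, ν, x5, y5, s, u, v, F, mf, h⟩ := zb_f h
  obtain ⟨l, ml, h⟩ := zb_el h
  obtain ⟨c1, mc1, h⟩ := zb_el h
  obtain ⟨s1, ms1, h⟩ := zb_el h
  obtain ⟨h1, h⟩ := and_el h
  obtain ⟨h1, h4⟩ := and_el h1
  obtain ⟨h1, h3⟩ := and_el h1
  obtain ⟨h1, h2⟩ := and_el h1
  obtain ⟨y4, my4, h⟩ := zb_el h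
  obtain ⟨hp, mhp, h⟩ := zb_el h
  obtain ⟨η, mη, h⟩ := zb_el h
  obtain ⟨f1, mf1, h⟩ := zb_el h
  obtain ⟨f2, mf2, h⟩ := zb_el h
  obtain ⟨gx, mgx, h⟩ := zb_el h
  obtain ⟨gy, mgy, h⟩ := zb_el h
  obtain ⟨hx, mhx, h⟩ := zb_el h
  obtain ⟨hy', mhy, h⟩ := zb_el h
  obtain ⟨_, j1, h⟩ := zb_iK h
  obtain ⟨_, j2, h⟩ := zb_iK h
  obtain ⟨_, j3, h⟩ := zb_iK h
  obtain ⟨_, j4, h⟩ := zb_iK h
  obtain ⟨_, j5, h⟩ := zb_iK h
  obtain ⟨_, j6, h⟩ := zb_iK h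
  obtain ⟨_, j7, h⟩ := zb_iK h
  obtain ⟨_, j8, h⟩ := zb_iK h
  obtain ⟨_, j9, h⟩ := zb_iK h
  obtain ⟨_, j10, h⟩ := zb_iK h
  obtain ⟨_, j11, h⟩ := zb_iK h
  obtain ⟨_, j12, h⟩ := zb_iK h
  refine ⟨_, n, h, fun α β A B w z E q o mik mhy0 mU' a ab ha hb lo wz x hx0 hx1 => ?_⟩
  clear h
  replace hx0 : ang x0 ≤ x := hx0
  replace hx1 : x ≤ ang x1 := hx1
  obtain ⟨e, he, ex⟩ := ang_coord hx0 hx1
  obtain ⟨E, q⟩ := SC.ex q he (show |(0 : ℝ)| ≤ 1 by simp)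
  have sub : ∀ E, SC α β e 0 E → SB α β E := fun _ h => h.1
  replace o := o.mono sub
  have aX : SM (SC α β e 0) X x := mX fun E q => SM.cast (SM.of (angT_mem E _ _ _ _ _))
    (by rw [ex, q.2.1]; simp only [Nat.mul_eq, Nat.add_eq, Nat.sub_eq]; push_cast; ring) E rfl
  have ot := mt o aX
  have ai := mi (((o.sB.mul ot.c).add (o.cB.mul ot.s)).cast (sin_add B x).symm)
  have aK := mcK (((o.cB.mul ot.c).sub (o.sB.mul ot.s)).cast (cos_add B x).symm)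
  have aW := mW ot.s2.n2
  obtain ⟨f, fc, hf, g2, g3⟩ := mp E.e1 E.e2 (2 * sin (2 * x))
  have q' : ∀ ξ, SC α β e 0 (E.set ξ) := fun ξ => SC.set E ξ q
  have ap : ∀ ξ, SM (· = E.set ξ) p (f (E.set ξ).xi) := fun ξ => hf _ rfl rfl (aW.at (q' ξ))
  have xat : ∀ ξ, XsOK (· = E.set ξ) t A x := fun ξ =>
    ⟨ot.s.at (q' ξ), ot.c.at (q' ξ), ot.s2.at (q' ξ), ot.c2.at (q' ξ), ot.sA.at (q' ξ),
      ot.cA.at (q' ξ)⟩
  have af := fun ξ => mf (o.at (q' ξ)) (xat ξ) (ai.at (q' ξ)) (ap ξ)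
  have cF : Continuous fun ξ => f (E.set ξ).xi := fc.comp (continuous_pi fun i => by
    simp only [Env.set]
    split_ifs <;> fun_prop)
  obtain ⟨ξ, r1, r2, r3⟩ := zb_md h4 SC.set q o ot ai aW (mU'.mono sub) a lo wz (fun k => by
      obtain ⟨k1, k2⟩ := and_el k
      simp only [Nat.ble_eq, Nat.mul_eq] at k1 k2
      have b1 := ang_mono k1
      have b2 := ang_mono k2
      rw [ang_two] at b2
      have b3 : 1 / 30 ≤ ang 31 := by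
        unfold ang
        push_cast
        linarith [pi_gt_d2]
      constructor <;> linarith) cF ap af (fun k ξ => g2 k _)
    fun k ξ a => by rw [g3 k, E.set_two a]
  replace o := o.at (q' ξ)
  replace ot := xat ξ
  replace ap := ap ξ
  replace af := af ξ
  generalize f (E.set ξ).xi = y at r1 r2 r3 ap af
  have al : SM (· = E.set ξ) l (mL A B x y) := ml ((af.ν.mul o.rC).sub ot.s.n2)
  have a1 := mc1 (ot.c2.sub (al.mul ot.s))
  have a2 := ms1 (af.s.sub (al.mul ot.c))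
  have a3 := (SM.one.sub ((a1.mul a1).add (a2.mul a2))).nn rfl h3
  have a4 : SM (· = E.set ξ) y4 (mY4 A B x y) := my4 (af.ν.mul (aK.at (q' ξ)))
  have a5 : SM (· = E.set ξ) hp (y / 2) := (mhp (ap.mul (SM.cst _))).cast (by norm_num; ring)
  have a6 := mη ((a5.sub a4).mul ((mik.mono sub).at (q' ξ)))
  have a7 : SM (· = E.set ξ) f1 (mF1 A B x y) :=
    (mf1 (a5.add a6)).cast (by rw [mF1, mY4, mul_one_div])
  have a8 : SM (· = E.set ξ) f2 (mF2 A B x y) :=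
    (mf2 (a5.sub a6)).cast (by rw [mF2, mY4, mul_one_div])
  have a9 := (mhy0.mono sub).at (q' ξ)
  refine ⟨y, ⟨ab, (ang_nonneg x0).trans hx0, ?_, sub_nonneg.1 (af.s.nn rfl h1), r1, al.nn rfl h2,
    r2, by linarith⟩, r3, j1 a7, j2 a8, j3 af.u, j4 af.v, j5 af.x4, j6 a4, j7 af.x5, j8 af.y5,
    j9 (mgx ((o.h.mul a8).add af.x5)), j10 (mgy ((a9.mul a8).sub af.y5)),
    j11 (mhx ((o.h.mul a7).add af.x4)), j12 (mhy ((a9.mul a7).sub a4))⟩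
  simp only [Nat.ble_eq, Nat.add_eq] at h0
  have b1 := ang_mono h0
  have b2 := ang_two 1440
  rw [ang_add] at b1
  rw [ang_pi] at b2
  linarith

def mbsK (b : Bx) (ik hy U : T3) (a0 b1 c : ℕ) : ℕ → (List Mb → ℕ → Bool) → Bool :=
  Nat.rec (fun n k => k [] n) (fun _ ih n k => mbK b ik hy U a0 b1 n fun w n =>
    ih n fun l n => k (w :: l) n) c

def setMK (b : Bx) (U : T3) (a0 a1 b0 b1 n : ℕ) (k : List Mb → ℕ → Bool) : Bool :=
  Nat.ble a1 b0 && invK b.ka fun ik => gT (b.h.mul b.y) fun hy => rd 5 n fun c n =>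
    mbsK b ik hy U a0 b1 c n k

theorem zb_mbs {b : Bx} {ik hy U : T3} {a0 b1 : ℕ} (c : ℕ) : ∀ (n : ℕ) (k : List Mb → ℕ → Bool),
    mbsK b ik hy U a0 b1 c n k = true → ∃ l m, k l m = true ∧ ∀ (α β A B v u : ℝ) (E : Env),
      SB α β E → BxOK (SB α β) b A B → SM (SB α β) ik (1 / kap A B) →
      SM (SB α β) hy (alt A B * (cos B / sin B)) → SM (SB α β) U u → Ang A B → A < B →
      ang a0 ≤ A → B ≤ ang b1 → Low2 A B v → v ≤ u → ∀ w ∈ l, w.OK A B v := by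
  induction c with
  | zero => exact fun n k h => ⟨[], n, h, by simp⟩
  | succ c ih =>
    intro n k h
    replace h : mbK b ik hy U a0 b1 n (fun w n =>
      mbsK b ik hy U a0 b1 c n fun l n => k (w :: l) n) = true := h
    obtain ⟨w, m, h, H⟩ := mbK_spec h
    obtain ⟨l, m, h, H'⟩ := ih _ _ h
    refine ⟨w :: l, m, h, fun α β A B v u E a1 a2 a3 a4 a5 a6 a7 a8 a9 a10 a11 w' hw => ?_⟩
    rcases List.mem_cons.1 hw with rfl | hw
    · exact H α β A B v u E a1 a2 a3 a4 a5 a6 a7 a8 a9 a10 a11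
    · exact H' α β A B v u E a1 a2 a3 a4 a5 a6 a7 a8 a9 a10 a11 w' hw

theorem setMK_spec {b : Bx} {U : T3} {a0 a1 b0 b1 n : ℕ} {k : List Mb → ℕ → Bool}
    (h : setMK b U a0 a1 b0 b1 n k = true) : ∃ l m, k l m = true ∧
      ∀ (α β A B v u : ℝ) (E : Env), SB α β E → BxOK (SB α β) b A B → SM (SB α β) U u → Ang A B →
      ang a0 ≤ A → A < ang a1 → ang b0 ≤ B → B ≤ ang b1 → Low2 A B v → v ≤ u →
      ∀ w ∈ l, w.OK A B v := by
  obtain ⟨h0, h⟩ := and_el h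
  obtain ⟨ik, m1, h⟩ := zb_inv h
  obtain ⟨hy, m2, h⟩ := zb_el h
  obtain ⟨c, n, h⟩ := rd_ex h
  obtain ⟨l, m, h, H⟩ := zb_mbs c n k h
  refine ⟨l, m, h, fun α β A B v u E q o mU a h1 h2 h3 h4 lo vu =>
    H α β A B v u E q o (m1 o.ka) (m2 (o.h.mul o.y)) mU a ?_ h1 h4 lo vu⟩
  rw [Nat.ble_eq] at h0
  linarith [ang_mono h0]

def sm (a b : ℕ) : ℕ := Nat.sub (Nat.add a b) 9007199254740992

def prK (a b : Mb) : Bool :=
  Nat.ble (Nat.add a.f1.l b.f2.l) 9007199254740992 &&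
  Nat.ble (Nat.add b.y4.h a.v.l) 9007199254740992 &&
  nrm (sm a.u.h b.x4.l) (sm a.u.l b.x4.h) (sm a.v.h b.y4.h) (sm a.v.l b.y4.l) &&
  nrm (sm a.gx.h b.hx.h) (sm a.gx.l b.hx.l) (sm a.gy.h b.hy.h) (sm a.gy.l b.hy.l) &&
  nrm (sm a.x5.h b.x4.h) (sm a.x5.l b.x4.l) (sm a.y5.h b.y4.h) (sm a.y5.l b.y4.l)

theorem zb_sm (a b : ℕ) : (a : ℝ) + b - 9007199254740992 ≤ (sm a b : ℕ) := by
  have g : ∀ c : ℕ, a + b ≤ Nat.sub (Nat.add a b) c + c := fun c => le_tsub_add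
  have h : a + b ≤ sm a b + 9007199254740992 := by
    unfold sm
    exact g _
  have h' : (a : ℝ) + b ≤ (sm a b : ℕ) + 9007199254740992 := by exact_mod_cast h
  linarith

theorem zb_add {i j : Jv} {u v : ℝ} (a : i.In u) (b : j.In v) :
    (u + v) * 1099511627776 ≤ (sm i.h j.h : ℕ) ∧ -((u + v) * 1099511627776) ≤ (sm i.l j.l : ℕ) :=
  ⟨by linarith [a.1, b.1, zb_sm i.h j.h], by linarith [a.2, b.2, zb_sm i.l j.l]⟩

theorem zb_sub {i j : Jv} {u v : ℝ} (a : i.In u) (b : j.In v) :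
    (u - v) * 1099511627776 ≤ (sm i.h j.l : ℕ) ∧ -((u - v) * 1099511627776) ≤ (sm i.l j.h : ℕ) :=
  ⟨by linarith [a.1, b.2, zb_sm i.h j.l], by linarith [a.2, b.1, zb_sm i.l j.h]⟩

theorem prK_spec {a b : Mb} {A B x p z q : ℝ} (h : prK a b = true) (h1 : a.At A B x p)
    (h2 : b.At A B z q) : MPair A B x p z q := by
  obtain ⟨h, k5⟩ := and_el h
  obtain ⟨h, k4⟩ := and_el h
  obtain ⟨h, k3⟩ := and_el h
  obtain ⟨k1, k2⟩ := and_el h
  simp only [Nat.ble_eq, Nat.add_eq] at k1 k2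
  have k1' : (a.f1.l : ℝ) + b.f2.l ≤ 9007199254740992 := by exact_mod_cast k1
  have k2' : (b.y4.h : ℝ) + a.v.l ≤ 9007199254740992 := by exact_mod_cast k2
  have a3 := nrm_spec k3 (zb_sub h1.u h2.x4).1 (zb_sub h1.u h2.x4).2 (zb_add h1.v h2.y4).1
    (zb_add h1.v h2.y4).2
  have a4 := nrm_spec k4 (zb_add h1.gx h2.hx).1 (zb_add h1.gx h2.hx).2 (zb_add h1.gy h2.hy).1
    (zb_add h1.gy h2.hy).2
  have a5 := nrm_spec k5 (zb_add h1.x5 h2.x4).1 (zb_add h1.x5 h2.x4).2 (zb_add h1.y5 h2.y4).1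
    (zb_add h1.y5 h2.y4).2
  refine ⟨by linarith [h1.f1.2, h2.f2.2], a3, by linarith [h2.y4.1, h1.v.2], a4, ?_⟩
  rwa [add_comm (mX4 A B z q), add_comm (mY4 A B z q)]

def chM (q : ℕ) (f : Mb → Bool) (l : List Mb) : ℕ → Bool :=
  List.rec (fun _ => false) (fun w _ ih s => Bool.rec (ih s) (f w && (Nat.ble q w.x1 || ih w.x1))
    (Nat.ble w.x0 s && Nat.blt s w.x1)) l

theorem chM_spec {q : ℕ} {f : Mb → Bool} {x : ℝ} (hq : x ≤ ang q) (l : List Mb) : ∀ s,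
    chM q f l s = true → ang s ≤ x → ∃ w ∈ l, ang w.x0 ≤ x ∧ x ≤ ang w.x1 ∧ f w = true := by
  induction l with
  | nil => intro s h; cases h
  | cons w l ih =>
    intro s h hs
    have nx : ∀ s, chM q f l s = true → ang s ≤ x →
        ∃ v ∈ w :: l, ang v.x0 ≤ x ∧ x ≤ ang v.x1 ∧ f v = true := fun s a b =>
      (ih s a b).imp fun _ c => ⟨List.mem_cons_of_mem _ c.1, c.2⟩
    replace h : Bool.rec (chM q f l s) (f w && (Nat.ble q w.x1 || chM q f l w.x1))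
      (Nat.ble w.x0 s && Nat.blt s w.x1) = true := h
    cases c : (Nat.ble w.x0 s && Nat.blt s w.x1)
    · rw [c] at h
      exact nx s h hs
    · rw [c] at h
      obtain ⟨h1, h2⟩ := and_el h
      have c1 := (and_el c).1
      rw [Nat.ble_eq] at c1
      rcases le_total x (ang w.x1) with d | d
      · exact ⟨w, List.mem_cons_self, (ang_mono c1).trans hs, d, h1⟩
      · rw [Bool.or_eq_true, Nat.ble_eq] at h2
        rcases h2 with h2 | h2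
        · exact ⟨w, List.mem_cons_self, (ang_mono c1).trans hs, hq.trans (ang_mono h2), h1⟩
        · exact nx _ h2 d

def covM (l : List Mb) (p0 q0 p1 q1 : ℕ) : Bool :=
  chM q0 (fun a => chM q1 (fun b => prK a b && prK b a) l p1) l p0

theorem covM_spec {l : List Mb} {p0 q0 p1 q1 : ℕ} (h : covM l p0 q0 p1 q1 = true)
    {τ γ A B v α β : ℝ} {L R : Half} (hl : ∀ w ∈ l, w.OK A B v)
    (r1 : RowsT τ (γ * alt A B) L R A B) (r2 : RowsT τ (γ * alt A B) R L A B) (hτ : 0 ≤ τ)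
    (hγ : 0 ≤ γ) (a : Ang A B) (c1 : Cx L τ A α) (c2 : Cx R τ A β) (h1 : ang p0 ≤ α)
    (h2 : α ≤ ang q0) (h3 : ang p1 ≤ β) (h4 : β ≤ ang q1) : γ * v ≤ L.len + R.len := by
  obtain ⟨w, hw, a1, a2, h⟩ := chM_spec h2 l p0 h h1
  obtain ⟨w', hw', b1, b2, h⟩ := chM_spec h4 l p1 h h3
  obtain ⟨k1, k2⟩ := and_el h
  obtain ⟨p, o1, v1, t1⟩ := hl w hw α a1 a2
  obtain ⟨q, o2, v2, t2⟩ := hl w' hw' β b1 b2
  exact (mul_le_mul_of_nonneg_left (by linarith) hγ).trans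
    (m_mode r1 r2 hτ a c1 c2 o1 o2 (prK_spec k1 t1 t2) (prK_spec k2 t2 t1))

end

end Pool.Agent.P.MP_d76e6a_co
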