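import Pool.Agent.P.MP_d76e6a_co.HLow

/-!
A certificate in which the two halves decouple.
-/

namespace Pool.Agent.P.MP_d76e6a_co

open Real

noncomputable section

def mNu (A B x p : ℝ) : ℝ := (1 / 2 - alt A B * p) / sin (B + x)
def mW (A B x p : ℝ) : ℝ := mNu A B x p * (sin B / sin A)
def mL (A B x p : ℝ) : ℝ := mNu A B x p * (sin (A + B) / sin A) - 2 * sin x
def mU (A B x p : ℝ) : ℝ := cos (2 * x) - mW A B x p * sin (A - x)
def mV (A B x p : ℝ) : ℝ := p - sin (2 * x) + mW A B x p * cos (A - x)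
def mF1 (A B x p : ℝ) : ℝ := p / 2 + (p / 2 - mNu A B x p * cos (B + x)) / kap A B
def mF2 (A B x p : ℝ) : ℝ := p / 2 - (p / 2 - mNu A B x p * cos (B + x)) / kap A B
def mX4 (A B x p : ℝ) : ℝ := 1 / 2 - alt A B * p
def mY4 (A B x p : ℝ) : ℝ := mNu A B x p * cos (B + x)
def mX5 (A B x p : ℝ) : ℝ := mW A B x p * sin (A - x)
def mY5 (A B x p : ℝ) : ℝ := mW A B x p * cos (A - x)
def mGx (A B x p : ℝ) : ℝ := alt A B * mF2 A B x p + mX5 A B x p
def mGy (A B x p : ℝ) : ℝ := alt A B * (cos B / sin B) * mF2 A B x p - mY5 A B x p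
def mHx (A B x p : ℝ) : ℝ := alt A B * mF1 A B x p + mX4 A B x p
def mHy (A B x p : ℝ) : ℝ := alt A B * (cos B / sin B) * mF1 A B x p - mY4 A B x p
def mT (A B x p : ℝ) : ℝ := 2 * (alt A B * p + mNu A B x p * sin B)

/-- The conditions that involve one half only. -/
structure MOwn (A B x p : ℝ) : Prop where
  ab : A < B
  x0 : 0 ≤ x
  x1 : B + x ≤ π / 2
  s0 : sin (2 * x) ≤ p
  s1 : p ≤ 2 * sin (2 * x)
  l0 : 0 ≤ mL A B x p
  f0 : mU A B x p ^ 2 + mV A B x p ^ 2 ≤ 1
  q2 : (cos (2 * x) - mL A B x p * sin x) ^ 2 + (p - sin (2 * x) - mL A B x p * cos x) ^ 2 ≤ 1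

/-- The conditions on the half with data `x`, `p` that involve the other half. -/
structure MPair (A B x p z q : ℝ) : Prop where
  n1 : 0 ≤ mF1 A B x p + mF2 A B z q
  n3 : (mU A B x p - mX4 A B z q) ^ 2 + (mV A B x p + mY4 A B z q) ^ 2 ≤ 1
  c3 : mY4 A B z q ≤ mV A B x p
  q3 : (mGx A B x p + mHx A B z q) ^ 2 + (mGy A B x p + mHy A B z q) ^ 2 ≤ 1
  q4 : (mX4 A B z q + mX5 A B x p) ^ 2 + (mY4 A B z q + mY5 A B x p) ^ 2 ≤ 1

theorem zm_side {A B x y z p q : ℝ} (H : Half) (a : Ang A B) (o1 : MOwn A B x p)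
    (o2 : MOwn A B z q) (m : MPair A B x p z q) (n2 : 0 ≤ mF1 A B z q + mF2 A B x p) (xy : x ≤ y)
    (yA : y ≤ A) (d0 : H.d x < H.d π) (d1 : H.d π ≤ H.d y) :
    part H A B x y z (2 * sin x) (mL A B x p) (mF1 A B x p + mF2 A B z q)
      (mF2 A B x p + mF1 A B z q) (mNu A B x p) (mNu A B z q) p ≤ H.len := by
  obtain ⟨sA, sAB, sBC⟩ := a.sins
  have hh := a.alt_pos
  obtain ⟨A0, A1, A2⟩ := a
  have hpi := pi_pos
  have hAB := o1.ab
  have x0 := o1.x0
  have z0 := o2.x0
  have bx := o1.x1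
  have bz := o2.x1
  have sB : 0 < sin B := by linarith
  have sC : 0 < sin (A + B) := by linarith
  have sn : ∀ t, 0 ≤ t → t ≤ π / 2 → 0 ≤ sin t := fun t h1 h2 =>
    sin_nonneg_of_nonneg_of_le_pi h1 (by linarith)
  have cn : ∀ t, 0 ≤ t → t ≤ π / 2 → 0 ≤ cos t := fun t h1 h2 =>
    cos_nonneg_of_mem_Icc ⟨by linarith, h2⟩
  have sX : 0 < sin (B + x) := sin_pos_of_pos_of_lt_pi (by linarith) (by linarith)
  have sZ : 0 < sin (B + z) := sin_pos_of_pos_of_lt_pi (by linarith) (by linarith)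
  have sK : 0 < sin (B - A) := sin_pos_of_pos_of_lt_pi (by linarith) (by linarith)
  have sx := sn x x0 (by linarith)
  have sz := sn z z0 (by linarith)
  have cx := cn x x0 (by linarith)
  have pos : ∀ {x p}, 0 ≤ sin x → 0 ≤ mL A B x p → 0 ≤ mNu A B x p := by
    intro x p h1 h2
    have : 0 ≤ mNu A B x p * (sin (A + B) / sin A) := by unfold mL at h2; linarith
    exact nonneg_of_mul_nonneg_left this (div_pos sC sA)
  have v1 := pos sx o1.l0
  have v2 := pos sz o2.l0
  have E1 : mNu A B x p * sin (B + x) = 1 / 2 - alt A B * p := div_mul_cancel₀ _ sX.ne'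
  have E2 : mNu A B z q * sin (B + z) = 1 / 2 - alt A B * q := div_mul_cancel₀ _ sZ.ne'
  have n1 := m.n1
  have n2' : 0 ≤ mF2 A B x p + mF1 A B z q := by linarith
  have cA := cn A A0.le (by linarith)
  have cB := cn B (by linarith) (by linarith)
  have p2 := cn (B + z) (by linarith) bz
  have p3 := sn (A - x) (by linarith) (by linarith)
  have p4 := cn (A - x) (by linarith) (by linarith)
  have l0 := o1.l0
  have f1 : mL A B x p * sin x + mNu A B x p * (sin B / sin A) * sin (A - x)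
      = mNu A B x p * sin (B + x) - 2 * sin x * sin x := by
    rw [mL]; field_simp
    simp only [sin_add, sin_sub]; ring
  have f2 : mL A B x p * cos x - mNu A B x p * (sin B / sin A) * cos (A - x)
      = mNu A B x p * cos (B + x) - 2 * sin x * cos x := by
    rw [mL]; field_simp
    simp only [sin_add, cos_add, cos_sub]; ring
  have f3 : alt A B * (mF1 A B x p + mF2 A B z q) * (cos A / sin A)
      + alt A B * (mF2 A B x p + mF1 A B z q) * (cos B / sin B)
      = p - mNu A B x p * cos (B + x) + mNu A B z q * cos (B + z) := by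
    simp only [mF1, mF2]
    generalize mNu A B x p * cos (B + x) = Y
    generalize mNu A B z q * cos (B + z) = Y'
    rw [alt, kap]; field_simp
    simp only [sin_add, sin_sub]; ring
  have f4 : alt A B * (mF1 A B x p + mF2 A B z q) + alt A B * (mF2 A B x p + mF1 A B z q)
      = alt A B * p + alt A B * q := by
    simp only [mF1, mF2]; ring
  have c2 : cos (2 * x) = 1 - 2 * sin x * sin x := by
    rw [cos_two_mul, cos_sq']; ring
  have s2 := sin_two_mul x
  have T := cos_sq_add_sin_sq (2 * x)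
  have s0 := o1.s0
  have s1 := o1.s1
  have a1 : 0 ≤ mL A B x p * sin x := by positivity
  have a2 : 0 ≤ alt A B * (mF1 A B x p + mF2 A B z q) := by positivity
  have a3 : 0 ≤ alt A B * (mF2 A B x p + mF1 A B z q) := by positivity
  have a4 : 0 ≤ mNu A B z q * sin (B + z) := by positivity
  have a5 : 0 ≤ mNu A B x p * (sin B / sin A) * sin (A - x) := by positivity
  have b1 : 0 ≤ mL A B x p * cos x := by positivity
  have b2 : 0 ≤ alt A B * (mF1 A B x p + mF2 A B z q) * (cos A / sin A) := by positivity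
  have b3 : 0 ≤ alt A B * (mF2 A B x p + mF1 A B z q) * (cos B / sin B) := by positivity
  have b4 : 0 ≤ mNu A B z q * cos (B + z) := by positivity
  have b5 : 0 ≤ mNu A B x p * (sin B / sin A) * cos (A - x) := by positivity
  have n3 := m.n3
  have c3 := m.c3
  have q3 := m.q3
  have q4 := m.q4
  have f0 := o1.f0
  simp only [mU, mV, mW, mX4, mY4, mX5, mY5, mGx, mGy, mHx, mHy] at n3 c3 q3 q4 f0
  refine H.zig (c := cos (2 * x)) (s := p - sin (2 * x)) (by linarith) yA A1 (by linarith)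
    (by linarith) (by linarith) d0 d1 a1 a2 a3 a4 a5 b1 b2 b3 b4 b5 (by linarith) (by linarith)
    (by linarith) ?_ ?_ ?_ ?_ f0 c3 o1.q2 ?_ ?_
  · have : (p - sin (2 * x)) ^ 2 ≤ sin (2 * x) ^ 2 :=
      pow_le_pow_left₀ (by linarith) (by linarith) 2
    linarith
  · rw [show cos (2 * x) + 2 * sin x * sin x = 1 by linarith,
      show p - sin (2 * x) - p + 2 * sin x * cos x = 0 by linarith]
    norm_num
  · linarith
  · convert n3 using 3 <;> linarith
  · convert q3 using 3 <;> linarith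
  · rwa [E2]

theorem m_mode {τ γ A B α β p q : ℝ} {L R : Half} (r1 : RowsT τ (γ * alt A B) L R A B)
    (r2 : RowsT τ (γ * alt A B) R L A B) (hτ : 0 ≤ τ) (a : Ang A B) (c1 : Cx L τ A α)
    (c2 : Cx R τ A β) (o1 : MOwn A B α p) (o2 : MOwn A B β q) (m1 : MPair A B α p β q)
    (m2 : MPair A B β q α p) : γ * ((mT A B α p + mT A B β q) / 2) ≤ L.len + R.len := by
  obtain ⟨a0, yL, a1, a2, a3, d0, d1⟩ := c1
  obtain ⟨b0, yR, b1, b2, b3, d2, d3⟩ := c2
  obtain ⟨sA, sAB, sBC⟩ := a.sins
  have A0 := a.h0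
  have A1 := a.h1
  have A2 := a.h2
  have sC : 0 < sin (A + B) := by linarith
  have sn : ∀ t, 0 ≤ t → t ≤ π → 0 ≤ sin t := fun t => sin_nonneg_of_nonneg_of_le_pi
  have u1 := zm_side L a o1 o2 m1 m2.n1 a1 a2 d0 d1
  have u2 := zm_side R a o2 o1 m2 m1.n1 b1 b2 d2 d3
  rw [add_comm (mF1 A B β q), add_comm (mF2 A B β q)] at u2
  have w := rows4 r1 r2 hτ a a0 a1 a2 a3 b0 b1 b2 b3 (np := mF1 A B α p + mF2 A B β q)
    (nm := mF2 A B α p + mF1 A B β q) (ea := 2 * sin α) (la := mL A B α p) (eb := 2 * sin β)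
    (lb := mL A B β q) (να := mNu A B α p) (νβ := mNu A B β q) (pL := p) (pR := q) m1.n1
    (by linarith [m2.n1]) (by linarith [sn α a0 (by linarith)]) o1.l0
    (by linarith [sn β b0 (by linarith)]) o2.l0
    ((sn (2 * α) (by linarith) (by linarith)).trans o1.s0)
    ((sn (2 * β) (by linarith) (by linarith)).trans o2.s0) (by simp only [mF1, mF2]; ring)
    (by rw [mL]; field_simp; ring) (by rw [mL]; field_simp; ring)
  refine le_trans (le_of_eq ?_) (w.trans (add_le_add u1 u2))
  have e : ∀ x r, alt A B * (2 * sin x + mL A B x r) = mNu A B x r * sin B := fun x r => by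
    rw [mL, alt]; field_simp; ring
  simp only [mT, mF1, mF2]
  linear_combination -γ * e α p - γ * e β q

theorem zm_nu {A B x p : ℝ} (sB : 0 < sin B) (k : 0 < wk B x) :
    mNu A B x p * sin B * wk B x = 1 / 2 - alt A B * p := by
  have sX : sin (B + x) ≠ 0 := fun h => by simp [wk, h] at k
  rw [mNu, wk]; field_simp

theorem mT_W {A B x v : ℝ} (a : Ang A B) (lo : Low A B v) (h0 : 0 < x) (h1 : 2 * x ≤ A)
    (h2 : wY A B x * cos (2 * x) ≤ sin (2 * x)) : v ≤ mT A B x (2 * sin (2 * x)) := by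
  obtain ⟨sA, sAB, -⟩ := a.sins
  have k1 := a.wk_gt h0 h1
  have A1 := a.h1
  have A2 := a.h2
  have hpi := pi_lt_d2
  have sB : 0 < sin B := by linarith
  have cx : 0 < cos x := cos_pos_of_mem_Ioo ⟨by linarith, by linarith⟩
  have e : wg A B x = 2 * x := max_eq_right (tan_cmp (by linarith) (by linarith) h2)
  refine (lo.2 x h0 h1).trans (le_of_eq ?_)
  have hN := zm_nu (A := A) (p := 2 * sin (2 * x)) sB (by linarith)
  have c1 : cos (2 * x) + sin (2 * x) * tan x = 1 := by
    rw [cos_two_mul, sin_two_mul]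
    linear_combination 2 * sin x * tan_mul_cos cx.ne' + 2 * sin_sq_add_cos_sq x
  rw [wV, e, div_eq_iff (by linarith), wY, mT]
  linear_combination c1 - 2 * hN

/-- Polynomial form of the range of the parameters of `vPts`, with `u = cos g`, `w = sin g`. -/
structure VC (A B x u w : ℝ) : Prop where
  x0 : 1 / 30 ≤ x
  x1 : 2 * x ≤ A
  u0 : 0 ≤ u
  w0 : 0 < w
  c1 : 0 ≤ w * cos (A - x) - u * sin (A - x)
  c2 : 0 ≤ u * cos x - w * sin x
  c3 : sin A * u - cos A * w ≤ 2 * ((u * cos x - w * sin x) * (sin x * sin B))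
  c4 : 0 < wk B x * (sin A * w) - alt A B * (w * cos (A - x) - u * sin (A - x))
  c5 : (wk B x - 1) * wk A x * (sin A * w)
    ≤ (wk A x - 1) * (wk B x * (sin A * w) - alt A B * (w * cos (A - x) - u * sin (A - x)))
  c6 : 2 * (alt A B * (wk B x - 1) * sin A * ((w * cos (2 * x) + u * sin (2 * x)) * cos x))
    ≤ (sin A * w - alt A B * (w * cos (A - x) - u * sin (A - x))) * sin x

theorem zm_S (A x g : ℝ) : sin (g + x - A) = sin g * cos (A - x) - cos g * sin (A - x) := by
  rw [← sin_sub]; congr 1; ring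

theorem zm_vy {A B x g : ℝ} (hh : 0 < alt A B) (sA : 0 < sin A) (w0 : 0 < sin g)
    (D : 0 < wk B x * (sin A * sin g) - alt A B * sin (g + x - A)) :
    vy A B x g * (wk B x * (sin A * sin g) - alt A B * sin (g + x - A))
      = (wk B x - 1) * alt A B * (sin A * sin g) := by
  have e : wk B x / alt A B - sin (g + x - A) / (sin A * sin g)
      = (wk B x * (sin A * sin g) - alt A B * sin (g + x - A)) / (alt A B * (sin A * sin g)) := by
    field_simp
  rw [vy, e, div_div_eq_mul_div, div_mul_cancel₀ _ D.ne', mul_assoc]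

theorem VC.val {A B x g : ℝ} (a : Ang A B) (g0 : 0 ≤ g) (g1 : g ≤ π / 2)
    (c : VC A B x (cos g) (sin g)) : VVal A B x g := by
  obtain ⟨sA, sAB, -⟩ := a.sins
  have hh := a.alt_pos
  have A0 := a.h0
  have A1 := a.h1
  have A2 := a.h2
  have hpi := pi_pos
  have x0 := c.x0
  have x1 := c.x1
  have w0 := c.w0
  have sx : 0 < sin x := sin_pos_of_pos_of_lt_pi (by linarith) (by linarith)
  have c1 := c.c1
  have c4 := c.c4
  have c5 := c.c5
  have c6 := c.c6
  rw [← zm_S] at c1 c4 c5 c6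
  refine ⟨x0, x1, ?_, ?_, ?_, ?_, ?_⟩
  · by_contra h
    exact absurd c1 (not_le.2 (sin_neg_of_neg_of_neg_pi_lt (by linarith) (by linarith)))
  · by_contra h
    have c2 := c.c2
    rw [← cos_add] at c2
    exact absurd c2 (not_le.2 (cos_neg_of_pi_div_two_lt_of_lt (by linarith) (by linarith)))
  · rw [sin_sub, cos_add]
    linarith [c.c3]
  · refine le_of_mul_le_mul_right (c5.trans (le_of_eq ?_)) (mul_pos sA w0)
    field_simp
  · have hv := zm_vy hh sA w0 c4
    rw [← sin_add] at c6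
    refine le_of_mul_le_mul_right ?_ (mul_pos c4 sx)
    have e1 : cot x * sin x = cos x := by rw [cot_eq_cos_div_sin]; field_simp
    have e2 : vy A B x g / alt A B * (wk B x * (sin A * sin g) - alt A B * sin (g + x - A))
        = (wk B x - 1) * (sin A * sin g) := by
      rw [div_mul_eq_mul_div, hv]; field_simp
    have h3 := mul_le_mul_of_nonneg_left c6 w0.le
    calc _ = 2 * (vy A B x g * (wk B x * (sin A * sin g) - alt A B * sin (g + x - A)))
          * sin (g + 2 * x) * (cot x * sin x) := by ring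
      _ ≤ (sin A * sin g - alt A B * sin (g + x - A)) * sin g * sin x := by
          rw [hv, e1]; linarith
      _ = _ := by linear_combination sin g * sin x * e2

theorem VC.up {A B x g v U : ℝ} (a : Ang A B) (lo : Low2 A B v) (g0 : 0 ≤ g) (g1 : g ≤ π / 2)
    (c : VC A B x (cos g) (sin g))
    (h : (1 - U) * (wk B x * (sin A * sin g)
        - alt A B * (sin g * cos (A - x) - cos g * sin (A - x)))
      ≤ (wk B x - 1) * sin A * (sin g - 2 * (alt A B
        * (1 - (cos g * cos (2 * x) - sin g * sin (2 * x)))))) : v ≤ U := by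
  have hh := a.alt_pos
  have w0 := c.w0
  have c4 := c.c4
  rw [← zm_S] at c4 h
  rw [← cos_add] at h
  have hv := zm_vy hh a.sins.1 w0 c4
  refine (lo.v5 x g (c.val a g0 g1)).trans ?_
  rw [vV, sub_le_comm]
  refine le_of_mul_le_mul_right (h.trans (le_of_eq ?_)) c4
  rw [mul_right_comm (vy A B x g), hv]
  field_simp

theorem mT_V {A B x p v : ℝ} (a : Ang A B) (lo : Low2 A B v)
    (h : mU A B x p ^ 2 + mV A B x p ^ 2 = 1) (c : VC A B x (mU A B x p) (mV A B x p)) :
    v ≤ mT A B x p := by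
  obtain ⟨sA, sAB, -⟩ := a.sins
  have x0 := c.x0
  have k1 := a.wk_gt (by linarith) c.x1
  have sB : 0 < sin B := by linarith
  have u0 := c.u0
  have w0 := c.w0
  have u1 : mU A B x p ≤ 1 := by nlinarith
  have e1 : cos (arccos (mU A B x p)) = mU A B x p := cos_arccos (by linarith) u1
  have e2 : sin (arccos (mU A B x p)) = mV A B x p := by
    rw [sin_arccos, show 1 - mU A B x p ^ 2 = mV A B x p ^ 2 by linarith, sqrt_sq w0.le]
  refine VC.up (x := x) (g := arccos (mU A B x p)) a lo (arccos_nonneg _)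
    (arccos_le_pi_div_two.2 u0) (by rwa [e1, e2]) (le_of_eq ?_)
  rw [e1, e2]
  have hN := zm_nu (A := A) (p := p) sB (by linarith : 0 < wk B x)
  have hW : mW A B x p * sin A = mNu A B x p * sin B := by rw [mW]; field_simp
  have hI : p * mV A B x p + mW A B x p * (mV A B x p * cos (A - x) - mU A B x p * sin (A - x))
      = 1 - (mU A B x p * cos (2 * x) - mV A B x p * sin (2 * x)) := by
    have hu : mU A B x p = cos (2 * x) - mW A B x p * sin (A - x) := rfl
    have hv : mV A B x p = p - sin (2 * x) + mW A B x p * cos (A - x) := rfl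
    linear_combination h - mU A B x p * hu - mV A B x p * hv
  rw [← hI, mT]
  generalize mV A B x p * cos (A - x) - mU A B x p * sin (A - x) = S
  linear_combination (2 * (wk B x - 1) * sin A * mV A B x p
    - 2 * (wk B x * (sin A * mV A B x p) - alt A B * S)) * hN
    + 2 * (wk B x - 1) * alt A B * S * hW

end

end Pool.Agent.P.MP_d76e6a_co
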