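import Pool.Agent.P.MP_d76e6a_co.ZIv

/-!
Symbolic directions and facts on the order of the contacts.
-/

namespace Pool.Agent.P.MP_d76e6a_co

open Real

noncomputable section

/-- The direction `(g - 4096) π / 2880 + (0, A, -A, B, -B) + (0, s, -s, s', t, -t, t')`. -/
structure Ps where
  g : ℕ
  ka : ℕ
  kv : ℕ

/-- The angles of the triangle and the crossing angles of the two halves. -/
structure Vr where
  A : ℝ
  B : ℝ
  s : ℝ
  s' : ℝ
  t : ℝ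
  t' : ℝ

def Vr.a (V : Vr) : ℕ → ℝ
  | 0 => 0
  | 1 => V.A
  | 2 => -V.A
  | 3 => V.B
  | 4 => -V.B
  | _ => -ang 4096

def Vr.v (V : Vr) : ℕ → ℝ
  | 0 => 0
  | 1 => V.s
  | 2 => -V.s
  | 3 => V.s'
  | 4 => V.t
  | 5 => -V.t
  | 6 => V.t'
  | _ => -ang 4096

def pv (V : Vr) (p : Ps) : ℝ := ang p.g - ang 4096 + V.a p.ka + V.v p.kv

def pZ : Ps := ⟨4096, 0, 0⟩
def pP : Ps := ⟨6976, 0, 0⟩

theorem pv_pZ (V : Vr) : pv V pZ = 0 := by simp [pv, pZ, Vr.a, Vr.v]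

theorem pv_pP (V : Vr) : pv V pP = π := by
  simp only [pv, pP, Vr.a, Vr.v, ang]; push_cast; ring

/-- Tables of lower and upper bounds, digits in base `2 ^ 16` with shift `4096`. -/
structure Tb where
  la : ℕ
  ha : ℕ
  lv : ℕ
  hv : ℕ

def dgt (t k : ℕ) : ℕ := Nat.land (Nat.shiftRight t (Nat.mul 16 k)) 65535

structure TbOK (V : Vr) (T : Tb) : Prop where
  la : ∀ k, ang (dgt T.la k) - ang 4096 ≤ V.a k
  ha : ∀ k, V.a k ≤ ang (dgt T.ha k) - ang 4096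
  lv : ∀ k, ang (dgt T.lv k) - ang 4096 ≤ V.v k
  hv : ∀ k, V.v k ≤ ang (dgt T.hv k) - ang 4096
  ab : V.A ≤ V.B
  s1 : V.s ≤ V.s'
  s2 : V.s' ≤ V.s + ang 1
  t1 : V.t ≤ V.t'
  t2 : V.t' ≤ V.t + ang 1

def up (x s : ℕ) : ℕ := Nat.shiftLeft (Nat.add 4096 x) s
def dn (x s : ℕ) : ℕ := Nat.shiftLeft (Nat.sub 4096 x) s
def tA (a0 a1 b0 b1 : ℕ) : ℕ :=
  Nat.add (Nat.add 4096 (up a0 16)) (Nat.add (dn a1 32) (Nat.add (up b0 48) (dn b1 64)))
def tV (p0 q0 p1 q1 : ℕ) : ℕ :=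
  Nat.add (Nat.add (Nat.add 4096 (up p0 16)) (Nat.add (dn q0 32) (up p0 48)))
    (Nat.add (up p1 64) (Nat.add (dn q1 80) (up p1 96)))

def tbK (a0 a1 b0 b1 p0 q0 p1 q1 : ℕ) (k : Tb → Bool) : Bool :=
  Nat.ble a1 2880 && Nat.ble b1 2880 && Nat.ble q0 2880 && Nat.ble q1 2880 &&
  gN (tA a0 a1 b0 b1) fun la => gN (tA a1 a0 b1 b0) fun ha => gN (tV p0 q0 p1 q1) fun lv =>
  gN (tV q0 p0 q1 p1) fun hv => k ⟨la, ha, lv, hv⟩

theorem zp_dgt (t k : ℕ) : dgt t k = t / 2 ^ (16 * k) % 65536 := by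
  unfold dgt
  rw [Nat.shiftRight_eq, Nat.shiftRight_eq_div_pow, Nat.land_eq, Nat.mul_eq]
  exact Nat.and_two_pow_sub_one_eq_mod _ 16

theorem zp_d0 {d : ℕ} (t : ℕ) (h : d < 65536) : dgt (d + 65536 * t) 0 = d := by
  rw [zp_dgt]
  omega

theorem zp_ds {d : ℕ} (t k : ℕ) (h : d < 65536) : dgt (d + 65536 * t) (k + 1) = dgt t k := by
  have e : 2 ^ (16 * (k + 1)) = 65536 * 2 ^ (16 * k) := by ring
  have e2 : (d + 65536 * t) / 65536 = t := by omega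
  rw [zp_dgt, zp_dgt, e, ← Nat.div_div_eq_div_mul, e2]

theorem zp_dz (k : ℕ) : dgt 0 k = 0 := by rw [zp_dgt, Nat.zero_div]

theorem zp_tA {a b c d : ℕ} (ha : a ≤ 2880) (hc : c ≤ 2880) :
    dgt (tA a b c d) 0 = 4096 ∧ dgt (tA a b c d) 1 = 4096 + a ∧ dgt (tA a b c d) 2 = 4096 - b ∧
    dgt (tA a b c d) 3 = 4096 + c ∧ dgt (tA a b c d) 4 = 4096 - d ∧
    ∀ k, dgt (tA a b c d) (k + 5) = 0 := by
  have e : tA a b c d = 4096 + 65536 * (4096 + a + 65536 * (4096 - b + 65536 *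
      (4096 + c + 65536 * (4096 - d + 65536 * 0)))) := by
    simp only [tA, up, dn, Nat.add_eq, Nat.sub_eq, Nat.shiftLeft_eq', Nat.shiftLeft_eq]
    generalize 4096 - b = x
    generalize 4096 - d = y
    ring
  have h0 : 4096 < 65536 := by norm_num
  have h1 : 4096 + a < 65536 := by omega
  have h2 : 4096 - b < 65536 := by omega
  have h3 : 4096 + c < 65536 := by omega
  have h4 : 4096 - d < 65536 := by omega
  rw [e]
  refine ⟨zp_d0 _ h0, ?_, ?_, ?_, ?_, fun k => ?_⟩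
  · rw [zp_ds _ 0 h0, zp_d0 _ h1]
  · rw [zp_ds _ 1 h0, zp_ds _ 0 h1, zp_d0 _ h2]
  · rw [zp_ds _ 2 h0, zp_ds _ 1 h1, zp_ds _ 0 h2, zp_d0 _ h3]
  · rw [zp_ds _ 3 h0, zp_ds _ 2 h1, zp_ds _ 1 h2, zp_ds _ 0 h3, zp_d0 _ h4]
  · rw [zp_ds _ (k + 4) h0, zp_ds _ (k + 3) h1, zp_ds _ (k + 2) h2, zp_ds _ (k + 1) h3,
      zp_ds _ k h4, zp_dz]

theorem zp_tV {a b c d : ℕ} (ha : a ≤ 2880) (hc : c ≤ 2880) :
    dgt (tV a b c d) 0 = 4096 ∧ dgt (tV a b c d) 1 = 4096 + a ∧ dgt (tV a b c d) 2 = 4096 - b ∧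
    dgt (tV a b c d) 3 = 4096 + a ∧ dgt (tV a b c d) 4 = 4096 + c ∧
    dgt (tV a b c d) 5 = 4096 - d ∧ dgt (tV a b c d) 6 = 4096 + c ∧
    ∀ k, dgt (tV a b c d) (k + 7) = 0 := by
  have e : tV a b c d = 4096 + 65536 * (4096 + a + 65536 * (4096 - b + 65536 *
      (4096 + a + 65536 * (4096 + c + 65536 * (4096 - d + 65536 * (4096 + c + 65536 * 0)))))) := by
    simp only [tV, up, dn, Nat.add_eq, Nat.sub_eq, Nat.shiftLeft_eq', Nat.shiftLeft_eq]
    generalize 4096 - b = x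
    generalize 4096 - d = y
    ring
  have h0 : 4096 < 65536 := by norm_num
  have h1 : 4096 + a < 65536 := by omega
  have h2 : 4096 - b < 65536 := by omega
  have h3 : 4096 + c < 65536 := by omega
  have h4 : 4096 - d < 65536 := by omega
  rw [e]
  refine ⟨zp_d0 _ h0, ?_, ?_, ?_, ?_, ?_, ?_, fun k => ?_⟩
  · rw [zp_ds _ 0 h0, zp_d0 _ h1]
  · rw [zp_ds _ 1 h0, zp_ds _ 0 h1, zp_d0 _ h2]
  · rw [zp_ds _ 2 h0, zp_ds _ 1 h1, zp_ds _ 0 h2, zp_d0 _ h1]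
  · rw [zp_ds _ 3 h0, zp_ds _ 2 h1, zp_ds _ 1 h2, zp_ds _ 0 h1, zp_d0 _ h3]
  · rw [zp_ds _ 4 h0, zp_ds _ 3 h1, zp_ds _ 2 h2, zp_ds _ 1 h1, zp_ds _ 0 h3, zp_d0 _ h4]
  · rw [zp_ds _ 5 h0, zp_ds _ 4 h1, zp_ds _ 3 h2, zp_ds _ 2 h1, zp_ds _ 1 h3, zp_ds _ 0 h4,
      zp_d0 _ h3]
  · rw [zp_ds _ (k + 6) h0, zp_ds _ (k + 5) h1, zp_ds _ (k + 4) h2, zp_ds _ (k + 3) h1,
      zp_ds _ (k + 2) h3, zp_ds _ (k + 1) h4, zp_ds _ k h3, zp_dz]

theorem zp_le {x y : ℕ} (h : ang x ≤ ang y) : x ≤ y := by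
  unfold ang at h
  exact_mod_cast le_of_mul_le_mul_right h (by positivity)

theorem zp_up (x : ℕ) : ang (4096 + x) - ang 4096 = ang x := by rw [ang_add]; ring

theorem zp_dn {x : ℕ} (h : x ≤ 2880) : ang (4096 - x) - ang 4096 = -ang x := by
  have := ang_add (4096 - x) x
  rw [Nat.sub_add_cancel (by omega)] at this
  linarith

theorem zp_zero : ang 0 = 0 := by simp [ang]

theorem tbK_spec {a0 a1 b0 b1 p0 q0 p1 q1 : ℕ} {k : Tb → Bool} {V : Vr}
    (h : tbK a0 a1 b0 b1 p0 q0 p1 q1 k = true) (h1 : ang a0 ≤ V.A) (h2 : V.A ≤ ang a1)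
    (h3 : ang b0 ≤ V.B) (h4 : V.B ≤ ang b1) (h5 : ang p0 ≤ V.s) (h6 : V.s' ≤ ang q0)
    (h7 : ang p1 ≤ V.t) (h8 : V.t' ≤ ang q1) (ab : V.A ≤ V.B) (s1 : V.s ≤ V.s')
    (s2 : V.s' ≤ V.s + ang 1) (t1 : V.t ≤ V.t') (t2 : V.t' ≤ V.t + ang 1) :
    ∃ T, TbOK V T ∧ k T = true := by
  simp only [tbK, gN_eq, Bool.and_eq_true, Nat.ble_eq] at h
  obtain ⟨⟨⟨⟨k1, k2⟩, k3⟩, k4⟩, h⟩ := h
  have l1 : a0 ≤ 2880 := (zp_le (h1.trans h2)).trans k1
  have l2 : b0 ≤ 2880 := (zp_le (h3.trans h4)).trans k2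
  have l3 : p0 ≤ 2880 := (zp_le (h5.trans (s1.trans h6))).trans k3
  have l4 : p1 ≤ 2880 := (zp_le (h7.trans (t1.trans h8))).trans k4
  refine ⟨_, ⟨fun j => ?_, fun j => ?_, fun j => ?_, fun j => ?_, ab, s1, s2, t1, t2⟩, h⟩
  · obtain ⟨e0, e1, e2, e3, e4, e5⟩ := zp_tA (b := a1) (d := b1) l1 l2
    rcases j with _ | _ | _ | _ | _ | j
    · rw [e0, sub_self]; exact le_rfl
    · rw [e1, zp_up]; exact h1
    · rw [e2, zp_dn k1]; exact neg_le_neg h2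
    · rw [e3, zp_up]; exact h3
    · rw [e4, zp_dn k2]; exact neg_le_neg h4
    · rw [e5, zp_zero, zero_sub]; exact le_rfl
  · obtain ⟨e0, e1, e2, e3, e4, e5⟩ := zp_tA (b := a0) (d := b0) k1 k2
    rcases j with _ | _ | _ | _ | _ | j
    · rw [e0, sub_self]; exact le_rfl
    · rw [e1, zp_up]; exact h2
    · rw [e2, zp_dn l1]; exact neg_le_neg h1
    · rw [e3, zp_up]; exact h4
    · rw [e4, zp_dn l2]; exact neg_le_neg h3
    · rw [e5, zp_zero, zero_sub]; exact le_rfl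
  · obtain ⟨e0, e1, e2, e3, e4, e5, e6, e7⟩ := zp_tV (b := q0) (d := q1) l3 l4
    rcases j with _ | _ | _ | _ | _ | _ | _ | j
    · rw [e0, sub_self]; exact le_rfl
    · rw [e1, zp_up]; exact h5
    · rw [e2, zp_dn k3]; exact neg_le_neg (s1.trans h6)
    · rw [e3, zp_up]; exact h5.trans s1
    · rw [e4, zp_up]; exact h7
    · rw [e5, zp_dn k4]; exact neg_le_neg (t1.trans h8)
    · rw [e6, zp_up]; exact h7.trans t1
    · rw [e7, zp_zero, zero_sub]; exact le_rfl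
  · obtain ⟨e0, e1, e2, e3, e4, e5, e6, e7⟩ := zp_tV (b := p0) (d := p1) k3 k4
    rcases j with _ | _ | _ | _ | _ | _ | _ | j
    · rw [e0, sub_self]; exact le_rfl
    · rw [e1, zp_up]; exact s1.trans h6
    · rw [e2, zp_dn l3]; exact neg_le_neg h5
    · rw [e3, zp_up]; exact h6
    · rw [e4, zp_up]; exact t1.trans h8
    · rw [e5, zp_dn l4]; exact neg_le_neg h7
    · rw [e6, zp_up]; exact h8
    · rw [e7, zp_zero, zero_sub]; exact le_rfl

def tw2 (i j : ℕ) : Bool := Nat.beq (Nat.add i 2) j && (Nat.beq i 1 || Nat.beq i 4)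
def tw3 (i j : ℕ) : Bool := Nat.beq i 1 && Nat.beq j 3 || Nat.beq i 4 && Nat.beq j 2

def ple2 (T : Tb) (x y i j : ℕ) : Bool :=
  Bool.rec (Bool.rec (Bool.rec (Nat.ble (Nat.add x (dgt T.hv i)) (Nat.add y (dgt T.lv j)))
    (Nat.blt x y) (tw2 j i)) (Nat.ble x y) (tw2 i j)) (Nat.ble x y) (Nat.beq i j)

/-- A test for `a ≤ b`. -/
def ple (T : Tb) (a b : Ps) : Bool :=
  Bool.rec (ple2 T (Nat.add a.g (dgt T.ha a.ka)) (Nat.add b.g (dgt T.la b.ka)) a.kv b.kv ||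
      tw3 a.ka b.ka && ple2 T a.g b.g a.kv b.kv)
    (ple2 T a.g b.g a.kv b.kv) (Nat.beq a.ka b.ka)

theorem zp_tw2 {V : Vr} {T : Tb} (o : TbOK V T) {i j : ℕ} (h : tw2 i j = true) :
    V.v i ≤ V.v j ∧ V.v j ≤ V.v i + ang 1 := by
  simp only [tw2, Bool.and_eq_true, Bool.or_eq_true, Nat.beq_eq, Nat.add_eq] at h
  obtain ⟨rfl, rfl | rfl⟩ := h
  · exact ⟨o.s1, o.s2⟩
  · exact ⟨o.t1, o.t2⟩

theorem zp_ple2 {V : Vr} {T : Tb} (o : TbOK V T) {x y i j : ℕ} (h : ple2 T x y i j = true) :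
    ang x + V.v i ≤ ang y + V.v j := by
  unfold ple2 at h
  cases h1 : Nat.beq i j <;> rw [h1] at h
  · cases h2 : tw2 i j <;> rw [h2] at h
    · cases h3 : tw2 j i <;> rw [h3] at h
      · have h4 : x + dgt T.hv i ≤ y + dgt T.lv j := Nat.le_of_ble_eq_true h
        have h5 := ang_mono h4
        rw [ang_add, ang_add] at h5
        linarith [o.hv i, o.lv j]
      · have h4 : x + 1 ≤ y := Nat.le_of_ble_eq_true h
        have h5 := ang_mono h4
        rw [ang_add] at h5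
        linarith [(zp_tw2 o h3).2]
    · exact add_le_add (ang_mono (Nat.le_of_ble_eq_true h)) (zp_tw2 o h2).1
  · rw [Nat.eq_of_beq_eq_true h1]
    exact add_le_add (ang_mono (Nat.le_of_ble_eq_true h)) le_rfl

theorem ple_spec {V : Vr} {T : Tb} (o : TbOK V T) {a b : Ps} (h : ple T a b = true) :
    pv V a ≤ pv V b := by
  unfold ple at h
  unfold pv
  cases h1 : Nat.beq a.ka b.ka <;> rw [h1] at h
  · simp only [Bool.or_eq_true, Bool.and_eq_true] at h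
    rcases h with h | ⟨h2, h⟩
    · have h3 := zp_ple2 o h
      rw [Nat.add_eq, Nat.add_eq, ang_add, ang_add] at h3
      linarith [o.ha a.ka, o.la b.ka]
    · have h3 := zp_ple2 o h
      have h4 : V.a a.ka ≤ V.a b.ka := by
        simp only [tw3, Bool.and_eq_true, Bool.or_eq_true, Nat.beq_eq] at h2
        rcases h2 with ⟨e1, e2⟩ | ⟨e1, e2⟩ <;> rw [e1, e2]
        · exact o.ab
        · exact neg_le_neg o.ab
      linarith
  · have h3 := zp_ple2 o h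
    rw [Nat.eq_of_beq_eq_true h1]
    linarith

/-- A fact on the order of the contacts. -/
structure Fc where
  f : Bool
  a : Ps
  b : Ps

def Fc.OK (V : Vr) (H : Half) (c : Fc) : Prop :=
  0 ≤ pv V c.a ∧ pv V c.a ≤ pv V c.b ∧ pv V c.b ≤ π ∧
    if c.f then ∀ x, pv V c.b ≤ x → x ≤ π → H.d x ≤ H.d (pv V c.a)
    else ∀ x, 0 ≤ x → x ≤ pv V c.a → H.d x ≤ H.d (pv V c.b)

theorem Fc.dich (V : Vr) (H : Half) {a b : Ps} (h0 : 0 ≤ pv V a) (h1 : pv V a ≤ pv V b)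
    (h2 : pv V b ≤ π) : Fc.OK V H ⟨false, a, b⟩ ∨ Fc.OK V H ⟨true, a, b⟩ := by
  by_cases c : ∀ x, 0 ≤ x → x ≤ pv V a → H.d x ≤ H.d (pv V b)
  · exact Or.inl ⟨h0, h1, h2, c⟩
  · refine Or.inr ⟨h0, h1, h2, fun y y1 y2 => ?_⟩
    push Not at c
    obtain ⟨x, x1, x2, x3⟩ := c
    have q1 := H.qc x (pv V a) y x1 x2 (h1.trans y1) y2
    have q2 := H.qc x (pv V b) y x1 (x2.trans h1) y1 y2
    change H.d y ≤ H.d (pv V a)
    omega

theorem Fc.early (V : Vr) (H : Half) {a : Ps} (h0 : 0 ≤ pv V a) (h1 : pv V a ≤ π)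
    (h : H.d (pv V a) < H.d π) : Fc.OK V H ⟨false, a, pP⟩ := by
  refine ⟨h0, ?_, ?_, fun x x1 x2 => ?_⟩
  · rw [pv_pP]; exact h1
  · rw [pv_pP]
  · change H.d x ≤ H.d (pv V pP)
    rw [pv_pP]
    exact (H.bt' x1 x2 h1 h).trans h.le

theorem Fc.late (V : Vr) (H : Half) {a : Ps} (h0 : 0 ≤ pv V a) (h1 : pv V a ≤ π)
    (h : H.d π ≤ H.d (pv V a)) : Fc.OK V H ⟨true, a, pP⟩ := by
  refine ⟨h0, ?_, ?_, fun x x1 x2 => ?_⟩
  · rw [pv_pP]; exact h1
  · rw [pv_pP]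
  · change pv V pP ≤ x at x1
    rw [pv_pP] at x1
    rw [le_antisymm x2 x1]
    exact h

def bnd (s t : ℕ) (a : Ps) : ℕ := Nat.add a.g (Nat.add (dgt s a.ka) (dgt t a.kv))

def fdK (s t : ℕ) (c : Fc) (ds : List Dec) (k : List Dec → Bool) : Bool :=
  gN (bnd s t c.a) fun x => gN (bnd s t c.b) fun y => gN (Nat.sub y (Nat.sub y 15168)) fun y =>
    Bool.rec (k ds) (gN (Nat.sub x 12288) fun x => gN (Nat.sub y 12288) fun y =>
      k (⟨x, y, c.f⟩ :: ds)) (Nat.ble 12288 x && Nat.blt x y)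

/-- The decisions on the grid implied by a list of facts. -/
def decsK (T : Tb) (fs : List Fc) : (List Dec → Bool) → Bool :=
  List.rec (fun k => k []) (fun c _ ih k => ih fun ds =>
    Bool.rec (fdK T.la T.lv c ds k) (fdK T.ha T.hv c ds k) c.f) fs

theorem zp_fd {s t : ℕ} {c : Fc} {ds : List Dec} {k : List Dec → Bool} {H : Half}
    (hd : Holds H ds) (h : fdK s t c ds k = true)
    (hc : ∀ x y : ℕ, x < y → y ≤ 2880 → bnd s t c.a = x + 12288 →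
      min (bnd s t c.b) 15168 = y + 12288 →
      if c.f then H.d (ang y) < H.d (ang x) else H.d (ang x) < H.d (ang y)) :
    ∃ ds, Holds H ds ∧ k ds = true := by
  simp only [fdK, gN_eq] at h
  cases h1 : (Nat.ble 12288 (bnd s t c.a) &&
    Nat.blt (bnd s t c.a) (Nat.sub (bnd s t c.b) (Nat.sub (bnd s t c.b) 15168))) <;> rw [h1] at h
  · exact ⟨ds, hd, h⟩
  · simp only [Bool.and_eq_true, Nat.ble_eq, Nat.blt_eq, Nat.sub_eq] at h1
    refine ⟨_, fun d hd' => ?_, h⟩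
    rcases List.mem_cons.1 hd' with rfl | hd'
    · simp only [Nat.sub_eq]
      exact ⟨by omega, by omega, hc _ _ (by omega) (by omega) (by omega) (by omega)⟩
    · exact hd d hd'

theorem zp_bnd (s t : ℕ) (a : Ps) : ang (bnd s t a) - ang 12288 =
    ang a.g - ang 4096 + (ang (dgt s a.ka) - ang 4096) + (ang (dgt t a.kv) - ang 4096) := by
  have e : ang 12288 = ang 4096 + ang 4096 + ang 4096 := by rw [← ang_add, ← ang_add]
  rw [bnd, Nat.add_eq, Nat.add_eq, ang_add, ang_add, e]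
  ring

theorem zp_lo {V : Vr} {T : Tb} (o : TbOK V T) (a : Ps) :
    ang (bnd T.la T.lv a) - ang 12288 ≤ pv V a := by
  rw [zp_bnd, pv]
  linarith [o.la a.ka, o.lv a.kv]

theorem zp_up' {V : Vr} {T : Tb} (o : TbOK V T) (a : Ps) :
    pv V a ≤ ang (bnd T.ha T.hv a) - ang 12288 := by
  rw [zp_bnd, pv]
  linarith [o.ha a.ka, o.hv a.kv]

theorem decsK_spec {V : Vr} {T : Tb} (o : TbOK V T) {H : Half} (n : NoTie H) {fs : List Fc}
    (hf : ∀ c ∈ fs, c.OK V H) {k : List Dec → Bool} (h : decsK T fs k = true) :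
    ∃ ds, Holds H ds ∧ k ds = true := by
  induction fs generalizing k with
  | nil => exact ⟨[], fun d hd => absurd hd List.not_mem_nil, h⟩
  | cons c fs ih =>
    obtain ⟨ds, hd, h⟩ := ih (fun c hc => hf c (List.mem_cons_of_mem _ hc)) h
    obtain ⟨c0, c1, c2, c3⟩ := hf c List.mem_cons_self
    cases hc : c.f <;> rw [hc] at h c3
    · refine zp_fd hd h fun x y xy y1 ex ey => ?_
      rw [hc]
      have a1 := zp_lo o c.a
      have a2 := zp_lo o c.b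
      rw [ex, ang_add, add_sub_cancel_right] at a1
      have a3 : ang (y + 12288) ≤ ang (bnd T.la T.lv c.b) := ang_mono (by omega)
      rw [ang_add] at a3
      have q1 : H.d (ang x) ≤ H.d (pv V c.b) := c3 _ (ang_nonneg x) a1
      have q2 := H.qc (ang x) (ang y) (pv V c.b) (ang_nonneg x) (ang_mono xy.le) (by linarith) c2
      have q3 := n x y xy y1
      change H.d (ang x) < H.d (ang y)
      omega
    · refine zp_fd hd h fun x y xy y1 ex ey => ?_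
      rw [hc]
      have a1 := zp_up' o c.a
      have a2 := zp_up' o c.b
      rw [ex, ang_add, add_sub_cancel_right] at a1
      have a3 : pv V c.b ≤ ang y := by
        rcases le_total (bnd T.ha T.hv c.b) 15168 with b | b
        · rw [min_eq_left b] at ey
          rw [ey, ang_add, add_sub_cancel_right] at a2
          exact a2
        · rw [min_eq_right b] at ey
          have : y = 2880 := by omega
          rw [this, ang_pi]
          exact c2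
      have q1 : H.d (ang y) ≤ H.d (pv V c.a) := c3 _ a3 (ang_le y1)
      have q2 := H.qc (pv V c.a) (ang x) (ang y) c0 a1 (ang_mono xy.le) (ang_le y1)
      have q3 := n x y xy y1
      change H.d (ang y) < H.d (ang x)
      omega

/-- Read a direction. -/
def psK (n : ℕ) (k : Ps → ℕ → Bool) : Bool :=
  gN (Nat.land n 8191) fun g => gN (Nat.land (Nat.shiftRight n 13) 7) fun a =>
    gN (Nat.land (Nat.shiftRight n 16) 7) fun v => gN (Nat.shiftRight n 19) fun n => k ⟨g, a, v⟩ n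

theorem psK_ex {n : ℕ} {k : Ps → ℕ → Bool} (h : psK n k = true) : ∃ p m, k p m = true := by
  simp only [psK, gN_eq] at h
  exact ⟨_, _, h⟩

end

end Pool.Agent.P.MP_d76e6a_co
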