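import Pool.Agent.P.MP_d76e6a_co.ZLeaf
import Pool.Agent.P.MP_d76e6a_co.GZone
import Pool.Agent.P.MP_d76e6a_co.HUp

/-!
The tree of cases in the zone in which zigzags compete.
-/

namespace Pool.Agent.P.MP_d76e6a_co

open Real

noncomputable section

/-- The data attached to a box. -/
structure Gs where
  x : Bx
  hx : T3
  nm : Nm
  u : Us
  cs : List Bnd
  zb : ℕ
  zz : ℕ
  ms : List Mb
  gg : ℕ

structure Gs.OK (g : Gs) (A B v : ℝ) : Prop where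
  x : XOK g.x g.hx A B
  nm : NmOK g.nm A B
  u : g.u.OK A B v
  cs : ∀ c ∈ g.cs, c.OK A B v
  zb : BOK A B v g.zb
  zz : ZOK A B v g.zz
  ms : ∀ w ∈ g.ms, w.OK A B v
  gg : GoodAt A B (ang g.gg)

def outZ (a0 a1 b0 b1 : ℕ) : Bool :=
  Nat.ble b1 a0 || Nat.blt 2880 (Nat.add a0 (Nat.mul 2 b0)) || notZ a1 b0 b1 zL ||
    Nat.ble 480 a0 && Nat.ble a1 960 && Nat.ble 465 b0 && Nat.ble b1 1201 &&
      inW a0 a1 b0 b1 wPairs

def covZ (zb gg a0 a1 b0 b1 p0 q0 p1 q1 : ℕ) : Bool :=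
  Nat.ble 1 zb && Nat.ble q1 zb || Nat.ble gg p1 ||
    Nat.ble 800 p1 && Nat.ble (Nat.add (Nat.mul 2 a1) b1) 2112 || Nat.ble q1 p1 || Nat.ble q0 p0 ||
      outZ a0 a1 b0 b1

/-- The leaves. -/
def lfZ (g : Gs) (a0 a1 b0 b1 p0 q0 p1 q1 : ℕ) (fL fR : List Fc) (t n : ℕ) (k : ℕ → Bool) : Bool :=
  Nat.rec (mixK g.x g.u n fun U n => tbK a0 a1 b0 b1 p0 q0 p1 q1 fun T => nmK g.nm U T fL fR n k)
    (fun t _ => Nat.rec (mixK g.x g.u n fun U n => tbK a0 a1 b0 b1 p0 q0 p1 q1 fun T =>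
        tmK g.x.h g.hx U T fL fR p0 q0 p1 q1 n k)
      (fun t _ => Nat.rec (covZ g.zb g.gg a0 a1 b0 b1 p0 q0 p1 q1 && k n)
        (fun t _ => Nat.ble q0 a0 && Nat.ble q1 a0 &&
          Nat.rec (covK p0 q0 p1 q1 g.cs (Nat.add p0 p1)) (fun _ _ => covM g.ms p0 q0 p1 q1) t &&
          k n) t) t) t

def setVK (b : Bx) (u : Us) (a0 b0 n : ℕ) (f : Us → ℕ → Bool) : Bool :=
  rd 36 n fun c n => rd 36 n fun k n => rd 36 n fun l n =>
    afK b (Nat.mul 64 c) (Nat.mul 64 k) (Nat.mul 64 l) fun U => setU b U a0 b0 n fun n =>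
      f ⟨c, k, l, u.c1, u.k1, u.l1, u.c2, u.k2, u.l2⟩ n

theorem setVK_spec {b : Bx} {u : Us} {a0 b0 n : ℕ} {f : Us → ℕ → Bool}
    (h : setVK b u a0 b0 n f = true) :
    ∃ u' m, f u' m = true ∧ ∀ (α β A B v : ℝ) (E : Env), SB α β E → BxOK (SB α β) b A B →
      Ang A B → ang a0 ≤ A → ang b0 ≤ B → Low2 A B v → u.OK A B v → u'.OK A B v := by
  obtain ⟨c, _, h⟩ := rd_ex h
  obtain ⟨k, _, h⟩ := rd_ex h
  obtain ⟨l, _, h⟩ := rd_ex h
  obtain ⟨_, h'⟩ := afK_ex h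
  obtain ⟨m, hm⟩ := (setU_spec h').1
  refine ⟨_, m, hm, fun α β A B v E e o an h1 h2 lo hu => ⟨?_, hu.1, hu.2.1⟩⟩
  obtain ⟨U, mU, h⟩ := afK_spec o h
  exact (setU_spec h).2 α β A B v _ E e o mU an h1 h2 lo

def setGK (a0 a1 b0 b1 n : ℕ) (k : ℕ → ℕ → Bool) : Bool :=
  rd 12 n fun g n => rd 28 n fun s n => rd 5 n fun m n => rd 8 n fun c n => rd 6 n fun r n =>
    rd (Nat.mul 96 (Nat.succ m)) n fun P n => rd (Nat.mul 32 c) n fun I n =>
    rd (Nat.mul 40 r) n fun D n => (gN (mn a1 b1) fun a1 => gN (mx b0 a0) fun b0 =>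
      gN (mn b1 (Nat.div (Nat.sub 2881 a0) 2)) fun b1 => goodK a0 a1 b0 b1 g s m c r P I D) && k g n

theorem setGK_spec {a0 a1 b0 b1 n : ℕ} {k : ℕ → ℕ → Bool} (h : setGK a0 a1 b0 b1 n k = true) :
    ∃ g m, k g m = true ∧ ∀ A B, Ang A B → ang a0 ≤ A → A ≤ ang a1 → ang b0 ≤ B → B ≤ ang b1 →
      GoodAt A B (ang g) := by
  obtain ⟨g, _, h⟩ := rd_ex h
  iterate 7 obtain ⟨_, _, h⟩ := rd_ex h
  obtain ⟨h, h'⟩ := and_el h
  refine ⟨g, _, h', fun A B a h1 h2 h3 h4 => ?_⟩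
  have h5 := a.h1
  have h6 := a.h2
  rw [gN_eq, gN_eq, gN_eq, mn_eq, mn_eq, mx_eq] at h
  refine goodK_spec h h1 ?_ ?_ ?_ a.h0 h5 h6
  · rcases min_choice a1 b1 with e | e <;> rw [e] <;> linarith
  · rcases max_choice b0 a0 with e | e <;> rw [e] <;> linarith
  · rcases min_choice b1 (Nat.div (Nat.sub 2881 a0) 2) with e | e <;> rw [e]
    · exact h4
    · have := ang_mono (show 2880 ≤ a0 + ((2881 - a0) / 2 + (2881 - a0) / 2) by omega)
      rw [ang_add, ang_add, ang_pi] at this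
      change B ≤ ang ((2881 - a0) / 2)
      linarith

/-- The changes of the data of the box. -/
def stZ (g : Gs) (a0 a1 b0 b1 t n : ℕ) (k : Gs → ℕ → Bool) : Bool :=
  Gs.rec (fun x hx nm u cs zb zz ms gg =>
    Nat.rec (setXK a0 a1 b0 b1 fun x hx nm => k ⟨x, hx, nm, u, cs, zb, zz, ms, gg⟩ n)
      (fun t _ => Nat.rec (setUK x u n fun u n => k ⟨x, hx, nm, u, cs, zb, zz, ms, gg⟩ n)
        (fun t _ => Nat.rec (macK a0 a1 b0 b1 n fun cs _ n => k ⟨x, hx, nm, u, cs, zb, zz, ms, gg⟩ n)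
          (fun t _ => Nat.rec (mixK x u n fun U n => setMK x U a0 a1 b0 b1 n fun ms n =>
              k ⟨x, hx, nm, u, cs, zb, zz, ms, gg⟩ n)
            (fun _ _ => rd 2 n fun j n => Nat.rec
              (setZK x a0 n fun zz n => k ⟨x, hx, nm, u, cs, zb, zz, ms, gg⟩ n)
              (fun j _ => Nat.rec
                (setBK x a0 n fun zb n => k ⟨x, hx, nm, u, cs, zb, zz, ms, gg⟩ n)
                (fun j _ => Nat.rec
                  (setVK x u a0 b0 n fun u n => k ⟨x, hx, nm, u, cs, zb, zz, ms, gg⟩ n)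
                  (fun _ _ => setGK a0 a1 b0 b1 n fun gg n =>
                    k ⟨x, hx, nm, u, cs, zb, zz, ms, gg⟩ n) j) j) j)
            t) t) t) t) g

def mnN (a b : ℕ) : ℕ := Nat.sub a (Nat.sub a b)
def mxN (a b : ℕ) : ℕ := Nat.add a (Nat.sub b a)

def goZ (f : ℕ) : Gs → ℕ → ℕ → ℕ → ℕ → ℕ → ℕ → ℕ → ℕ → List Fc → List Fc → ℕ → (ℕ → Bool) → Bool :=
  Nat.rec (fun _ _ _ _ _ _ _ _ _ _ _ _ _ => false)
    (fun _ ih g a0 a1 b0 b1 p0 q0 p1 q1 fL fR n k => rd 4 n fun t n => Bool.rec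
      (Bool.rec
        (Bool.rec
          (stZ g a0 a1 b0 b1 (Nat.sub t 10) n fun g n => ih g a0 a1 b0 b1 p0 q0 p1 q1 fL fR n k)
          (Nat.ble a1 p0 && Nat.ble 1 g.zz && Nat.ble q1 g.zz && Nat.ble q1 a0 &&
            ih g a0 a1 b0 b1 p0 q0 p1 q1 fL (⟨false, ⟨4096, 0, 6⟩, ⟨6976, 2, 4⟩⟩ :: fR) n k)
          (Nat.beq t 15))
        (lfZ g a0 a1 b0 b1 p0 q0 p1 q1 fL fR (Nat.sub t 5) n k) (Nat.blt t 10))
      (Bool.rec
        (rd 12 n fun m n => Nat.rec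
          (ih g a0 m b0 b1 p0 q0 p1 q1 fL fR n fun n => ih g m a1 b0 b1 p0 q0 p1 q1 fL fR n k)
          (fun t _ => Nat.rec
            (ih g a0 a1 b0 m p0 q0 p1 q1 fL fR n fun n => ih g a0 a1 m b1 p0 q0 p1 q1 fL fR n k)
            (fun t _ => Nat.rec
              (gN (mnN q1 m) fun q => ih g a0 a1 b0 b1 p0 m p1 q fL fR n fun n =>
                ih g a0 a1 b0 b1 m q0 p1 q1 fL fR n k)
              (fun _ _ => gN (mxN p0 m) fun p => ih g a0 a1 b0 b1 p0 q0 p1 m fL fR n fun n =>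
                ih g a0 a1 b0 b1 p q0 m q1 fL fR n k) t) t) t)
        (rd 1 n fun h n => psK n fun a n => psK n fun b n =>
          (tbK a0 a1 b0 b1 p0 q0 p1 q1 fun T => ple T pZ a && ple T a b && ple T b pP) && Bool.rec
            (ih g a0 a1 b0 b1 p0 q0 p1 q1 fL (⟨false, a, b⟩ :: fR) n fun n =>
              ih g a0 a1 b0 b1 p0 q0 p1 q1 fL (⟨true, a, b⟩ :: fR) n k)
            (ih g a0 a1 b0 b1 p0 q0 p1 q1 (⟨false, a, b⟩ :: fL) fR n fun n =>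
              ih g a0 a1 b0 b1 p0 q0 p1 q1 (⟨true, a, b⟩ :: fL) fR n k) (Nat.beq h 0))
        (Nat.beq t 4)) (Nat.blt t 5)) f

def fL0 : List Fc := [⟨false, ⟨4096, 0, 1⟩, pP⟩, ⟨true, ⟨4096, 0, 3⟩, pP⟩]
def fR0 : List Fc := [⟨false, ⟨4096, 0, 4⟩, pP⟩, ⟨true, ⟨4096, 0, 6⟩, pP⟩]

/-- The outer tree of boxes. -/
def kdZ (f : ℕ) : ℕ → ℕ → ℕ → ℕ → ℕ → (ℕ → Bool) → Bool :=
  Nat.rec (fun _ _ _ _ _ _ => false) (fun _ ih a0 a1 b0 b1 n k => rd 2 n fun t n =>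
    Nat.rec (rd 12 n fun m n => ih a0 m b0 b1 n fun n => ih m a1 b0 b1 n k)
      (fun t _ => Nat.rec (rd 12 n fun m n => ih a0 a1 b0 m n fun n => ih a0 a1 m b1 n k)
        (fun t _ => Nat.rec (outZ a0 a1 b0 b1 && k n)
          (fun _ _ => setXK a0 a1 b0 b1 fun x hx nm =>
            goZ 200 ⟨x, hx, nm, us0, [], 0, 0, [], 960⟩ a0 a1 b0 b1 0 2880 0 2880 fL0 fR0 n k) t) t) t) f

def topZ (a0 a1 b0 b1 n : ℕ) : Bool := kdZ 64 a0 a1 b0 b1 n fun _ => true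

/-- The part of the zone in a half-open rectangle has been checked. -/
def CovZ (a0 a1 b0 b1 : ℕ) : Prop :=
  Cov wPairs 480 960 465 1201 → ∀ A B v, Ang A B → InZ zL A B → Low2 A B v → GP A B →
    ang a0 ≤ A → A < ang a1 → ang b0 ≤ B → B < ang b1 → Core A B v

/-- The fixed data of the proof. -/
structure Cz (V : Vr) (v τ γ : ℝ) (L R : Half) (k0 k1 : ℕ) : Prop where
  an : Ang V.A V.B
  z : InZ zL V.A V.B
  lo : Low2 V.A V.B v
  gp : GP V.A V.B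
  w : Cov wPairs 480 960 465 1201
  t0 : 0 < τ
  g0 : 0 ≤ γ
  cr : CRows τ γ L R V.A V.B
  n1 : NoTie L
  n2 : NoTie R
  k : k1 ≤ k0
  k2 : k0 < 2880
  s0 : ang k0 ≤ V.s
  s1 : V.s ≤ V.s'
  s2 : V.s' ≤ ang (k0 + 1)
  s3 : V.s' - V.s ≤ τ
  s4 : L.d V.s < L.d π
  s5 : L.d π ≤ L.d V.s'
  u0 : ang k1 ≤ V.t
  u1 : V.t ≤ V.t'
  u2 : V.t' ≤ ang (k1 + 1)
  u3 : V.t' - V.t ≤ τ
  u4 : R.d V.t < R.d π
  u5 : R.d π ≤ R.d V.t'

/-- The data lie in the current box. -/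
structure Iz (V : Vr) (k0 k1 a0 a1 b0 b1 p0 q0 p1 q1 : ℕ) : Prop where
  ha : ang a0 ≤ V.A
  ha' : V.A < ang a1
  hb : ang b0 ≤ V.B
  hb' : V.B < ang b1
  hp : p0 ≤ k0
  hq : k0 < q0
  hr : p1 ≤ k1
  hs : k1 < q1

section

variable {V : Vr} {v τ γ : ℝ} {L R : Half} {k0 k1 a0 a1 b0 b1 p0 q0 p1 q1 : ℕ}

theorem Cz.pi1 (c : Cz V v τ γ L R k0 k1) : V.s' ≤ π :=
  c.s2.trans ((ang_mono c.k2).trans ang_pi.le)

theorem Cz.pi2 (c : Cz V v τ γ L R k0 k1) : V.t' ≤ π :=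
  c.u2.trans ((ang_mono (c.k.trans_lt c.k2)).trans ang_pi.le)

theorem Cz.tb (c : Cz V v τ γ L R k0 k1) (i : Iz V k0 k1 a0 a1 b0 b1 p0 q0 p1 q1) {k : Tb → Bool}
    (h : tbK a0 a1 b0 b1 p0 q0 p1 q1 k = true) : ∃ T, TbOK V T ∧ k T = true :=
  tbK_spec h i.ha i.ha'.le i.hb i.hb'.le ((ang_mono i.hp).trans c.s0) (c.s2.trans (ang_mono i.hq))
    ((ang_mono i.hr).trans c.u0) (c.u2.trans (ang_mono i.hs)) c.an.h1 c.s1
    (by linarith [c.s0, c.s2, ang_add k0 1]) c.u1 (by linarith [c.u0, c.u2, ang_add k1 1])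

theorem tbK_ex {k : Tb → Bool} (h : tbK a0 a1 b0 b1 p0 q0 p1 q1 k = true) : ∃ T, k T = true := by
  replace h := (and_el h).2
  iterate 4 obtain ⟨_, h⟩ := gN_ex h
  exact ⟨_, h⟩

theorem Cz.out (c : Cz V v τ γ L R k0 k1) (h1 : ang a0 ≤ V.A) (h2 : V.A < ang a1)
    (h3 : ang b0 ≤ V.B) (h4 : V.B < ang b1) (h : outZ a0 a1 b0 b1 = true) :
    γ * v ≤ L.len + R.len := by
  simp only [outZ, Bool.or_eq_true, Bool.and_eq_true, Nat.ble_eq, Nat.blt_eq, Nat.add_eq,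
    Nat.mul_eq] at h
  rcases h with ((h | h) | h) | ⟨⟨⟨⟨e1, e2⟩, e3⟩, e4⟩, h⟩
  · linarith [ang_mono h, c.an.h1]
  · have e := ang_mono (show 2880 + 1 ≤ a0 + (b0 + b0) by omega)
    rw [ang_add, ang_add, ang_add, ang_pi] at e
    linarith [c.an.h2, ang_pos (x := 1) le_rfl]
  · exact (notZ_spec h h2 h3 h4 c.z).elim
  · exact c.w _ _ v c.an c.lo.w (inW_spec h h1 h2.le h3 h4.le) ((ang_mono e1).trans h1)
      (h2.le.trans (ang_mono e2)) ((ang_mono e3).trans h3) (h4.le.trans (ang_mono e4)) τ γ c.t0 c.g0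
      L R c.cr

theorem Cz.rows (c : Cz V v τ γ L R k0 k1) {g : Gs} (o : g.OK V.A V.B v) :
    RowsT τ (γ * alt V.A V.B) L R V.A V.B ∧ RowsT τ (γ * alt V.A V.B) R L V.A V.B :=
  c.cr _ _ c.an.h0 le_rfl (c.an.h0.trans_le c.an.h1) le_rfl o.nm.h

theorem Cz.good (c : Cz V v τ γ L R k0 k1) {g : Gs} (o : g.OK V.A V.B v) {m : ℕ} (h : m ≤ k1)
    (G : GoodAt V.A V.B (ang m)) : γ * v ≤ L.len + R.len := by
  obtain ⟨r1, r2⟩ := c.rows o
  have := G _ L R (r1.rows c.t0.le) (r2.rows c.t0.le)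
    ((L.bt' (ang_nonneg m) ((ang_mono (h.trans c.k)).trans c.s0) (c.s1.trans c.pi1) c.s4).trans_lt
      c.s4)
    ((R.bt' (ang_nonneg m) ((ang_mono h).trans c.u0) (c.u1.trans c.pi2) c.u4).trans_lt c.u4)
  linarith [mul_le_mul_of_nonneg_left c.lo.u c.g0]

theorem lfZ_k {g : Gs} {fL fR : List Fc} {t n : ℕ} {k : ℕ → Bool}
    (h : lfZ g a0 a1 b0 b1 p0 q0 p1 q1 fL fR t n k = true) : ∃ m, k m = true := by
  rcases t with _ | _ | _ | t
  · obtain ⟨_, _, h⟩ := mixK_ex h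
    obtain ⟨_, h⟩ := tbK_ex h
    exact nmK_k h
  · obtain ⟨_, _, h⟩ := mixK_ex h
    obtain ⟨_, h⟩ := tbK_ex h
    exact tmK_k h
  · exact ⟨_, (and_el h).2⟩
  · exact ⟨_, (and_el h).2⟩

theorem lfZ_spec (c : Cz V v τ γ L R k0 k1) (i : Iz V k0 k1 a0 a1 b0 b1 p0 q0 p1 q1) {g : Gs}
    (o : g.OK V.A V.B v) {fL fR : List Fc} (f1 : ∀ x ∈ fL, x.OK V L) (f2 : ∀ x ∈ fR, x.OK V R)
    {t n : ℕ} {k : ℕ → Bool} (h : lfZ g a0 a1 b0 b1 p0 q0 p1 q1 fL fR t n k = true) :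
    γ * v ≤ L.len + R.len := by
  obtain ⟨r1, r2⟩ := c.rows o
  obtain ⟨α, β, E, e, bx, mx⟩ := o.x
  have c1 := (ang_mono i.hp).trans c.s0
  have c2 := c.s2.trans (ang_mono i.hq)
  have c3 := (ang_mono i.hr).trans c.u0
  have c4 := c.u2.trans (ang_mono i.hs)
  rcases t with _ | _ | _ | t
  · obtain ⟨U, y, _, mU, hy, h⟩ := mixK_spec bx o.u h
    obtain ⟨T, oT, h⟩ := c.tb i h
    exact (mul_le_mul_of_nonneg_left hy c.g0).trans
      (nmK_spec h o.nm (mU E e) oT c.t0.le c.g0 c.cr c.n1 c.n2 f1 f2)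
  · obtain ⟨U, y, _, mU, hy, h⟩ := mixK_spec bx o.u h
    obtain ⟨T, oT, h⟩ := c.tb i h
    exact (mul_le_mul_of_nonneg_left hy c.g0).trans
      (tmK_spec e c.an bx.h mx mU oT c.t0.le c.g0
        (abs_le.2 ⟨by linarith [c.s3], by linarith [c.s1, c.t0]⟩)
        (abs_le.2 ⟨by linarith [c.u3], by linarith [c.u1, c.t0]⟩) r1 r2 f1 f2 c1 (c.s1.trans c2) c3
        (c.u1.trans c4) h)
  · replace h := (and_el h).1
    simp only [covZ, Bool.or_eq_true, Bool.and_eq_true, Nat.ble_eq, Nat.add_eq, Nat.mul_eq] at h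
    rcases h with ((((⟨h1, h2⟩ | h) | ⟨h1, h2⟩) | h) | h) | h
    · exact o.zb h1 τ γ L R c.t0.le c.g0 r1 r2 ⟨_, _, (ang_mono (Nat.zero_le _)).trans c.u0, c.u1,
        c4.trans (ang_mono h2), c.u3, c.u4, c.u5⟩
    · exact c.good o (h.trans i.hr) o.gg
    · have e := ang_mono (show a1 + a1 + b1 ≤ 2112 by omega)
      rw [ang_add, ang_add] at e
      exact c.good o (h1.trans i.hr) (c.gp.2 (by linarith [i.ha', i.hb']))
    · exact absurd (i.hr.trans_lt i.hs) (not_lt.2 h)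
    · exact absurd (i.hp.trans_lt i.hq) (not_lt.2 h)
    · exact c.out i.ha i.ha' i.hb i.hb' h
  · obtain ⟨h1, h⟩ := and_el (and_el h).1
    simp only [Bool.and_eq_true, Nat.ble_eq] at h1
    have x1 : Cx L τ V.A V.s := ⟨(ang_nonneg _).trans c1, _, c.s1,
      c2.trans ((ang_mono h1.1).trans i.ha), c.s3, c.s4, c.s5⟩
    have x2 : Cx R τ V.A V.t := ⟨(ang_nonneg _).trans c3, _, c.u1,
      c4.trans ((ang_mono h1.2).trans i.ha), c.u3, c.u4, c.u5⟩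
    rcases t with _ | t
    · have hU : 0 < π / 2880 := by positivity
      have a1 := (le_div_iff₀ hU).2 c1
      have a2 := (le_div_iff₀ hU).2 c3
      obtain ⟨w, hw, j⟩ := covK_spec a1 ((div_le_iff₀ hU).2 (c.s1.trans c2)) a2
        ((div_le_iff₀ hU).2 (c.u1.trans c4)) _ _ h (by rw [Nat.add_eq]; push_cast; linarith)
      exact o.cs w hw τ γ L R _ _ c.t0.le c.g0 r1 r2 (by rwa [div_mul_cancel₀ _ hU.ne'])
        (by rwa [div_mul_cancel₀ _ hU.ne']) j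
    · exact covM_spec h o.ms r1 r2 c.t0.le c.g0 c.an x1 x2 c1 (c.s1.trans c2) c3 (c.u1.trans c4)

theorem stZ_k {g : Gs} {t n : ℕ} {k : Gs → ℕ → Bool} (h : stZ g a0 a1 b0 b1 t n k = true) :
    ∃ g m, k g m = true := by
  obtain ⟨x, hx, nm, u, cs, zb, zz, ms, gg⟩ := g
  rcases t with _ | _ | _ | _ | t <;> unfold stZ at h <;> dsimp only at h
  · obtain ⟨_, _, _, h⟩ := setXK_ex h
    exact ⟨_, _, h⟩
  · obtain ⟨_, _, h, -⟩ := setUK_spec h
    exact ⟨_, _, h⟩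
  · obtain ⟨_, _, _, h, -⟩ := macK_spec h
    exact ⟨_, _, h⟩
  · obtain ⟨_, _, h⟩ := mixK_ex h
    obtain ⟨_, _, h, -⟩ := setMK_spec h
    exact ⟨_, _, h⟩
  · obtain ⟨j, _, h⟩ := rd_ex h
    rcases j with _ | _ | _ | j
    · obtain ⟨_, _, h, -⟩ := setZK_spec h
      exact ⟨_, _, h⟩
    · obtain ⟨_, _, h, -⟩ := setBK_spec h
      exact ⟨_, _, h⟩
    · obtain ⟨_, _, h, -⟩ := setVK_spec h
      exact ⟨_, _, h⟩
    · obtain ⟨_, _, h, -⟩ := setGK_spec h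
      exact ⟨_, _, h⟩

theorem stZ_spec {A B : ℝ} (an : Ang A B) (lo : Low2 A B v) (h1 : ang a0 ≤ A) (h2 : A < ang a1)
    (h3 : ang b0 ≤ B) (h4 : B < ang b1) {g : Gs} (o : g.OK A B v) {t n : ℕ} {k : Gs → ℕ → Bool}
    (h : stZ g a0 a1 b0 b1 t n k = true) : ∃ g m, k g m = true ∧ g.OK A B v := by
  obtain ⟨x, hx, nm, u, cs, zb, zz, ms, gg⟩ := g
  obtain ⟨α, β, E, e, bx, -⟩ := o.x
  rcases t with _ | _ | _ | _ | t <;> unfold stZ at h <;> dsimp only at h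
  · obtain ⟨_, _, _, o1, o2, h⟩ := setXK_spec h h1 h2.le h3 h4.le
    exact ⟨_, _, h, o1, o2, o.u, o.cs, o.zb, o.zz, o.ms, o.gg⟩
  · obtain ⟨_, _, h, j⟩ := setUK_spec h
    exact ⟨_, _, h, o.x, o.nm, j _ _ _ _ _ E e bx an lo o.u, o.cs, o.zb, o.zz, o.ms, o.gg⟩
  · obtain ⟨_, _, _, h, j⟩ := macK_spec h
    exact ⟨_, _, h, o.x, o.nm, o.u, (j A B v an h1 h2.le h3 h4.le lo.w).1, o.zb, o.zz, o.ms, o.gg⟩
  · obtain ⟨_, _, _, mU, hy, h⟩ := mixK_spec bx o.u h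
    obtain ⟨_, _, h, j⟩ := setMK_spec h
    exact ⟨_, _, h, o.x, o.nm, o.u, o.cs, o.zb, o.zz,
      j _ _ _ _ _ _ E e bx mU an h1 h2 h3 h4.le lo hy, o.gg⟩
  · obtain ⟨j, _, h⟩ := rd_ex h
    rcases j with _ | _ | _ | j
    · obtain ⟨_, _, h, j⟩ := setZK_spec h
      exact ⟨_, _, h, o.x, o.nm, o.u, o.cs, o.zb, j _ _ _ _ _ E e bx an h1 lo, o.ms, o.gg⟩
    · obtain ⟨_, _, h, j⟩ := setBK_spec h
      exact ⟨_, _, h, o.x, o.nm, o.u, o.cs, j _ _ _ _ _ E e bx an h1 lo, o.zz, o.ms, o.gg⟩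
    · obtain ⟨_, _, h, j⟩ := setVK_spec h
      exact ⟨_, _, h, o.x, o.nm, j _ _ _ _ _ E e bx an h1 h3 lo o.u, o.cs, o.zb, o.zz, o.ms, o.gg⟩
    · obtain ⟨_, _, h, j⟩ := setGK_spec h
      exact ⟨_, _, h, o.x, o.nm, o.u, o.cs, o.zb, o.zz, o.ms, j A B an h1 h2.le h3 h4.le⟩

theorem goZ_k (f : ℕ) : ∀ g a0 a1 b0 b1 p0 q0 p1 q1 fL fR n k,
    goZ f g a0 a1 b0 b1 p0 q0 p1 q1 fL fR n k = true → ∃ m, k m = true := by
  induction f with
  | zero => intro _ _ _ _ _ _ _ _ _ _ _ _ _ h; cases h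
  | succ f ih =>
    have i2 : ∀ {g a0 a1 b0 b1 p0 q0 p1 q1 fL fR n k},
      goZ f g a0 a1 b0 b1 p0 q0 p1 q1 fL fR n k = true → ∃ m, k m = true :=
        ih _ _ _ _ _ _ _ _ _ _ _ _ _
    intro g a0 a1 b0 b1 p0 q0 p1 q1 fL fR n k h
    obtain ⟨t, n, h⟩ := rd_ex h
    cases e5 : Nat.blt t 5 <;> rw [e5] at h
    · cases e : Nat.blt t 10 <;> rw [e] at h
      · cases e : Nat.beq t 15 <;> rw [e] at h
        · obtain ⟨_, _, h⟩ := stZ_k h
          exact i2 h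
        · exact i2 (and_el h).2
      · exact lfZ_k h
    · cases e : Nat.beq t 4 <;> rw [e] at h
      · obtain ⟨m, n, h⟩ := rd_ex h
        rcases t with _ | _ | _ | t
        · obtain ⟨_, h⟩ := i2 h
          exact i2 h
        · obtain ⟨_, h⟩ := i2 h
          exact i2 h
        · obtain ⟨_, h⟩ := gN_ex h
          obtain ⟨_, h⟩ := i2 h
          exact i2 h
        · obtain ⟨_, h⟩ := gN_ex h
          obtain ⟨_, h⟩ := i2 h
          exact i2 h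
      · obtain ⟨j, _, h⟩ := rd_ex h
        iterate 2 obtain ⟨_, _, h⟩ := psK_ex h
        replace h := (and_el h).2
        cases e : Nat.beq j 0 <;> rw [e] at h <;> obtain ⟨_, h⟩ := i2 h <;> exact i2 h

theorem fc_cons {H : Half} {l : List Fc} {x : Fc} (h : x.OK V H) (f : ∀ y ∈ l, y.OK V H) :
    ∀ y ∈ x :: l, y.OK V H := List.forall_mem_cons.2 ⟨h, f⟩

theorem goZ_spec (c : Cz V v τ γ L R k0 k1) (f : ℕ) : ∀ g a0 a1 b0 b1 p0 q0 p1 q1 fL fR n k,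
    goZ f g a0 a1 b0 b1 p0 q0 p1 q1 fL fR n k = true → g.OK V.A V.B v →
      Iz V k0 k1 a0 a1 b0 b1 p0 q0 p1 q1 → (∀ x ∈ fL, x.OK V L) → (∀ x ∈ fR, x.OK V R) →
      γ * v ≤ L.len + R.len := by
  induction f with
  | zero => intro _ _ _ _ _ _ _ _ _ _ _ _ _ h; cases h
  | succ f ih =>
    have i2 : ∀ {g a0 a1 b0 b1 p0 q0 p1 q1 fL fR n k},
      goZ f g a0 a1 b0 b1 p0 q0 p1 q1 fL fR n k = true → g.OK V.A V.B v →
      Iz V k0 k1 a0 a1 b0 b1 p0 q0 p1 q1 → (∀ x ∈ fL, x.OK V L) → (∀ x ∈ fR, x.OK V R) →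
      γ * v ≤ L.len + R.len := ih _ _ _ _ _ _ _ _ _ _ _ _ _
    have k2 : ∀ {g a0 a1 b0 b1 p0 q0 p1 q1 fL fR n k},
      goZ f g a0 a1 b0 b1 p0 q0 p1 q1 fL fR n k = true → ∃ m, k m = true :=
        goZ_k f _ _ _ _ _ _ _ _ _ _ _ _ _
    intro g a0 a1 b0 b1 p0 q0 p1 q1 fL fR n k h o i f1 f2
    obtain ⟨t, n, h⟩ := rd_ex h
    cases e5 : Nat.blt t 5 <;> rw [e5] at h
    · cases e : Nat.blt t 10 <;> rw [e] at h
      · cases e : Nat.beq t 15 <;> rw [e] at h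
        · obtain ⟨_, _, h, o'⟩ := stZ_spec c.an c.lo i.ha i.ha' i.hb i.hb' o h
          exact i2 h o' i f1 f2
        · obtain ⟨h1, h⟩ := and_el h
          simp only [Bool.and_eq_true, Nat.ble_eq] at h1
          obtain ⟨⟨⟨h1, h2⟩, h3⟩, h4⟩ := h1
          have e1 : pv V ⟨4096, 0, 6⟩ = V.t' := by simp [pv, Vr.a, Vr.v]
          have e2 : pv V ⟨6976, 2, 4⟩ = π - V.A + V.t := by
            simp only [pv, Vr.a, Vr.v, ang]; push_cast; ring
          have t0 := (ang_nonneg _).trans c.u0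
          have t1 := c.u2.trans (ang_mono i.hs)
          have t2 := t1.trans ((ang_mono h4).trans i.ha)
          have t3 : π - V.A + V.t ≤ π := by linarith [c.u1]
          rcases Fc.dich V R (a := ⟨4096, 0, 6⟩) (b := ⟨6976, 2, 4⟩) (e1 ▸ t0.trans c.u1)
            (by rw [e1, e2]; linarith [c.an.h0, c.an.h1, c.an.h2]) (e2 ▸ t3) with d | d
          · exact i2 h o i f1 (fc_cons d f2)
          · obtain ⟨r1, r2⟩ := c.rows o
            have d2 : R.d (pv V ⟨6976, 2, 4⟩) ≤ R.d (pv V ⟨4096, 0, 6⟩) :=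
              d.2.2.2 _ le_rfl d.2.2.1
            rw [e1, e2] at d2
            exact o.zz h2 τ γ L R _ _ c.t0.le c.g0 r1 r2
              ((L.bt' c.an.h0.le (i.ha'.le.trans ((ang_mono (h1.trans i.hp)).trans c.s0))
                (c.s1.trans c.pi1) c.s4).trans c.s4.le) t0 c.u1 (t1.trans (ang_mono h3)) c.u3 c.u4
              c.u5 d2
      · exact lfZ_spec c i o f1 f2 h
    · cases e : Nat.beq t 4 <;> rw [e] at h
      · obtain ⟨m, n, h⟩ := rd_ex h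
        rcases t with _ | _ | _ | t
        · rcases lt_or_ge V.A (ang m) with d | d
          · exact i2 h o { i with ha' := d } f1 f2
          · obtain ⟨_, h⟩ := k2 h
            exact i2 h o { i with ha := d } f1 f2
        · rcases lt_or_ge V.B (ang m) with d | d
          · exact i2 h o { i with hb' := d } f1 f2
          · obtain ⟨_, h⟩ := k2 h
            exact i2 h o { i with hb := d } f1 f2
        · replace h := (gN_eq _ _).symm.trans h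
          rcases lt_or_ge k0 m with d | d
          · exact i2 h o { i with
              hq := d
              hs := by
                have := i.hs
                have := c.k
                simp only [mnN, Nat.sub_eq]
                omega } f1 f2
          · obtain ⟨_, h⟩ := k2 h
            exact i2 h o { i with hp := d } f1 f2
        · replace h := (gN_eq _ _).symm.trans h
          rcases lt_or_ge k1 m with d | d
          · exact i2 h o { i with hs := d } f1 f2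
          · obtain ⟨_, h⟩ := k2 h
            exact i2 h o { i with
              hr := d
              hp := by
                have := i.hp
                have := c.k
                simp only [mxN, Nat.sub_eq, Nat.add_eq]
                omega } f1 f2
      · obtain ⟨j, _, h⟩ := rd_ex h
        obtain ⟨a, _, h⟩ := psK_ex h
        obtain ⟨b, _, h⟩ := psK_ex h
        obtain ⟨h1, h⟩ := and_el h
        obtain ⟨T, oT, h1⟩ := c.tb i h1
        simp only [Bool.and_eq_true] at h1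
        have d1 := pv_pZ V ▸ ple_spec oT h1.1.1
        have d2 := ple_spec oT h1.1.2
        have d3 := pv_pP V ▸ ple_spec oT h1.2
        cases e : Nat.beq j 0 <;> rw [e] at h
        · rcases Fc.dich V R d1 d2 d3 with d | d
          · exact i2 h o i f1 (fc_cons d f2)
          · obtain ⟨_, h⟩ := k2 h
            exact i2 h o i f1 (fc_cons d f2)
        · rcases Fc.dich V L d1 d2 d3 with d | d
          · exact i2 h o i (fc_cons d f1) f2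
          · obtain ⟨_, h⟩ := k2 h
            exact i2 h o i (fc_cons d f1) f2

theorem kdZ_k (f : ℕ) : ∀ a0 a1 b0 b1 n k, kdZ f a0 a1 b0 b1 n k = true → ∃ m, k m = true := by
  induction f with
  | zero => intro _ _ _ _ _ _ h; cases h
  | succ f ih =>
    intro a0 a1 b0 b1 n k h
    obtain ⟨t, n, h⟩ := rd_ex h
    rcases t with _ | _ | _ | t
    · obtain ⟨_, _, h⟩ := rd_ex h
      obtain ⟨_, h⟩ := ih _ _ _ _ _ _ h
      exact ih _ _ _ _ _ _ h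
    · obtain ⟨_, _, h⟩ := rd_ex h
      obtain ⟨_, h⟩ := ih _ _ _ _ _ _ h
      exact ih _ _ _ _ _ _ h
    · exact ⟨_, (and_el h).2⟩
    · obtain ⟨_, _, _, h⟩ := setXK_ex h
      exact goZ_k _ _ _ _ _ _ _ _ _ _ _ _ _ _ h

theorem kdZ_spec (c : Cz V v τ γ L R k0 k1) (f : ℕ) : ∀ a0 a1 b0 b1 n k,
    kdZ f a0 a1 b0 b1 n k = true → ang a0 ≤ V.A → V.A < ang a1 → ang b0 ≤ V.B → V.B < ang b1 →
      γ * v ≤ L.len + R.len := by
  induction f with
  | zero => intro _ _ _ _ _ _ h; cases h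
  | succ f ih =>
    intro a0 a1 b0 b1 n k h h1 h2 h3 h4
    obtain ⟨t, n, h⟩ := rd_ex h
    rcases t with _ | _ | _ | t
    · obtain ⟨m, _, h⟩ := rd_ex h
      rcases lt_or_ge V.A (ang m) with d | d
      · exact ih _ _ _ _ _ _ h h1 d h3 h4
      · obtain ⟨_, h⟩ := kdZ_k _ _ _ _ _ _ _ h
        exact ih _ _ _ _ _ _ h d h2 h3 h4
    · obtain ⟨m, _, h⟩ := rd_ex h
      rcases lt_or_ge V.B (ang m) with d | d
      · exact ih _ _ _ _ _ _ h h1 h2 h3 d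
      · obtain ⟨_, h⟩ := kdZ_k _ _ _ _ _ _ _ h
        exact ih _ _ _ _ _ _ h h1 h2 d h4
    · exact c.out h1 h2 h3 h4 (and_el h).1
    · obtain ⟨x, hx, m, o1, o2, h⟩ := setXK_spec h h1 h2.le h3 h4.le
      have e1 : pv V ⟨4096, 0, 1⟩ = V.s := by simp [pv, Vr.a, Vr.v]
      have e3 : pv V ⟨4096, 0, 3⟩ = V.s' := by simp [pv, Vr.a, Vr.v]
      have e4 : pv V ⟨4096, 0, 4⟩ = V.t := by simp [pv, Vr.a, Vr.v]
      have e6 : pv V ⟨4096, 0, 6⟩ = V.t' := by simp [pv, Vr.a, Vr.v]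
      have s0 := (ang_nonneg _).trans c.s0
      have t0 := (ang_nonneg _).trans c.u0
      refine goZ_spec c _ _ _ _ _ _ _ _ _ _ _ _ _ _ h ⟨o1, o2, us0_ok c.lo.w, by simp,
        fun h => absurd h (by simp), fun h => absurd h (by simp), by simp, c.gp.1⟩
        ⟨h1, h2, h3, h4, Nat.zero_le _, c.k2, Nat.zero_le _, c.k.trans_lt c.k2⟩
        (fc_cons (Fc.early V L ?_ ?_ ?_) (fc_cons (Fc.late V L ?_ ?_ ?_) (by simp)))
        (fc_cons (Fc.early V R ?_ ?_ ?_) (fc_cons (Fc.late V R ?_ ?_ ?_) (by simp))) <;>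
        simp only [e1, e3, e4, e6]
      exacts [s0, c.s1.trans c.pi1, c.s4, s0.trans c.s1, c.pi1, c.s5, t0, c.u1.trans c.pi2, c.u4,
        t0.trans c.u1, c.pi2, c.u5]

end

theorem CovZ.of {a0 a1 b0 b1 n : ℕ} (h : topZ a0 a1 b0 b1 n = true) : CovZ a0 a1 b0 b1 := by
  intro w A B v an z lo gp h1 h2 h3 h4 τ γ hτ hγ L R cr
  obtain ⟨L', e1, e2, n1⟩ := L.refine'
  obtain ⟨R', f1, f2, n2⟩ := R.refine'
  replace cr := cr.refine e1 f1
  obtain ⟨k0, s, s', k2, s0, s1, s2, s3, s4, s5⟩ := L'.cell n1 hτ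
  obtain ⟨k1, t, t', k3, u0, u1, u2, u3, u4, u5⟩ := R'.cell n2 hτ
  rw [← e2, ← f2]
  rcases le_total k1 k0 with c | c
  · exact kdZ_spec (V := ⟨A, B, s, s', t, t'⟩) ⟨an, z, lo, gp, w, hτ, hγ, cr, n1, n2, c, k2, s0, s1,
      s2, s3, s4, s5, u0, u1, u2, u3, u4, u5⟩ _ _ _ _ _ _ _ h h1 h2 h3 h4
  · rw [add_comm]
    exact kdZ_spec (V := ⟨A, B, t, t', s, s'⟩) ⟨an, z, lo, gp, w, hτ, hγ, cr.swap, n2, n1, c, k3, u0,
      u1, u2, u3, u4, u5, s0, s1, s2, s3, s4, s5⟩ _ _ _ _ _ _ _ h h1 h2 h3 h4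

theorem CovZ.sa {a0 m a1 b0 b1 : ℕ} (h : CovZ a0 m b0 b1) (h' : CovZ m a1 b0 b1) :
    CovZ a0 a1 b0 b1 := fun w A B v an z lo gp h1 h2 h3 h4 =>
  (lt_or_ge A (ang m)).elim (fun c => h w A B v an z lo gp h1 c h3 h4)
    fun c => h' w A B v an z lo gp c h2 h3 h4

theorem CovZ.sb {a0 a1 b0 m b1 : ℕ} (h : CovZ a0 a1 b0 m) (h' : CovZ a0 a1 m b1) :
    CovZ a0 a1 b0 b1 := fun w A B v an z lo gp h1 h2 h3 h4 =>
  (lt_or_ge B (ang m)).elim (fun c => h w A B v an z lo gp h1 h2 h3 c)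
    fun c => h' w A B v an z lo gp h1 h2 c h4

theorem zone_of (h : CovZ 436 724 656 1232) (w : Cov wPairs 480 960 465 1201) {A B : ℝ}
    (a : Ang A B) (z : InZ zL A B) (gp : A ≤ ang 768 → GP A B) (v : ℝ) (lo : Low2 A B v) :
    Core A B v := by
  have := pi_pos
  have a1 := a.h1
  have a2 := a.h2
  rcases lt_or_ge A (ang 724) with c | c
  · obtain ⟨t, ht, h1, h2, -⟩ := id z
    have k : 436 ≤ t.1 ∧ 656 ≤ t.2.1 := (by decide : ∀ t ∈ zL, 436 ≤ t.1 ∧ 656 ≤ t.2.1) t ht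
    have p := (ang_mono k.1).trans h1
    refine h w A B v a z lo (gp (c.le.trans (ang_mono (by norm_num)))) p c
      ((ang_mono k.2).trans h2) ?_
    unfold ang at p ⊢
    push_cast at p ⊢
    linarith
  · unfold ang at c
    push_cast at c
    refine w A B v a lo.w (inW_spec (a0 := 723) (a1 := 960) (b0 := 723) (b1 := 1440) (by decide)
      ?_ ?_ ?_ ?_) ?_ ?_ ?_ ?_ <;> unfold ang <;> push_cast <;> linarith

end

end Pool.Agent.P.MP_d76e6a_co
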