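import Pool.Agent.P.MP_d76e6a_co.ZMb

/-!
Upper bounds for the value on a box.
-/

namespace Pool.Agent.P.MP_d76e6a_co

open Real

noncomputable section

def ubB (b : Bx) (U : T3) : Bool :=
  nnT U && nnT (wsb ((U.mul U).mul ((cT 9895604649984).add (b.y.mul b.y))) (cT 9895604649984))

def ubW (b : Bx) (U X : T3) (md : Bool) : Bool :=
  nnT (wsb X (cT 1)) && nnT (wsb b.A (PT.nm 2 X)) && xsK b X fun t => invK t.c fun i =>
  gT (yT b t.s t.c (t.s.mul i)) fun Y => gT (U.mul (t.c.add (b.y.mul t.s))) fun V => Bool.rec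
    (nnT V && nnT (wsb (V.mul V) (oneT.add (Y.mul Y))))
    (wcK b t && nnT (wsb V (t.c2.add (t.s2.mul Y)))) md

def ubZ (b : Bx) (U S T : T3) : Bool :=
  nnT (wsb S b.A) && nnT (wsb (cT 1726233255608) S) && nnT (wsb T (cT 54975581389)) &&
  nnT (wsb (cT 1726233255608) T) && scK S fun s c => scK T fun t d =>
  gT ((s.mul d).add (c.mul t)) fun e => nnT (wsb (b.sA.mul e) t) &&
  nnT ((U.mul (s.mul t)).add (b.h.mul (wsb (U.mul e) ((PT.nm 2 t).add s))))

def ubV (b : Bx) (U X G : T3) : Bool :=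
  nnT (wsb X (cT 36650387593)) && nnT (wsb b.A (PT.nm 2 X)) && nnT G &&
  nnT (wsb (cT 1726233255608) G) && xsK b X fun t => scK G fun w u => vcK b t u w fun k2 D =>
  nnT (wsb (k2.mul (wsb w (PT.nm 2 (b.h.mul (wsb oneT (wsb (u.mul t.c2) (w.mul t.s2)))))))
    ((wsb oneT U).mul D))

/-- The check that `U` bounds the length of a member of one of the families. -/
def ubK2 (b : Bx) (U : T3) (n : ℕ) (k : ℕ → Bool) : Bool :=
  rd 3 n fun f n => Nat.rec (ubB b U && k n) (fun j _ => wK n fun X n => Nat.rec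
    (ubW b U X false && k n) (fun j _ => Nat.rec (ubW b U X true && k n) (fun j _ =>
      wK n fun Y n => Nat.rec (ubZ b U X Y && k n) (fun _ _ => ubV b U X Y && k n) j) j) j) f

theorem zu_B {E : Env} {b : Bx} {U : T3} {A B v u : ℝ} (o : BxOK (· = E) b A B)
    (mU : SM (· = E) U u) (lo : Low A B v) (h : ubB b U = true) : v ≤ u := by
  obtain ⟨h1, h2⟩ := and_el h
  have c9 : SM (· = E) (cT 9895604649984) 9 := (SM.cst _).cast (by norm_num)
  have u0 := mU.nn rfl h1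
  have := (((mU.mul mU).mul (c9.add (o.y.mul o.y))).sub c9).nn rfl h2
  refine lo.1.trans ?_
  rw [bV, cot_eq_cos_div_sin, div_le_iff₀ (by positivity)]
  refine abs_le_of_sq_le_sq' ?_ (by positivity) |>.2
  rw [mul_pow, sq_sqrt (by positivity)]
  linarith

theorem zu_cs {g y V : ℝ} (b1 : 0 ≤ V) (b2 : 0 ≤ V * V - (1 + y * y)) :
    cos g + sin g * y ≤ V := by
  refine abs_le_of_sq_le_sq' ?_ b1 |>.2
  have e : (cos g + sin g * y) ^ 2 + (sin g - cos g * y) ^ 2 = 1 + y * y := by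
    linear_combination (1 + y * y) * sin_sq_add_cos_sq g
  linarith [sq_nonneg (sin g - cos g * y)]

theorem zu_W {E : Env} {b : Bx} {U X : T3} {A B v u x : ℝ} (o : BxOK (· = E) b A B)
    (mU : SM (· = E) U u) (mX : SM (· = E) X x) (an : Ang A B) (lo : Low A B v) {md : Bool}
    (h : ubW b U X md = true) : v ≤ u := by
  obtain ⟨h, h3⟩ := and_el h
  obtain ⟨h1, h2⟩ := and_el h
  have a1 := (mX.sub (SM.cst _)).nn rfl h1
  have a2 := (o.A'.sub mX.n2).nn rfl h2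
  push_cast at a1
  have x0 : 0 < x := by linarith
  have x1 : 2 * x ≤ A := by linarith
  obtain ⟨t, ot, h⟩ := xsK_spec o mX h3
  obtain ⟨-, i, mi, h⟩ := ot.c.invK rfl h
  obtain ⟨Y, mY, h⟩ := (yT_spec o an ot.s ot.c ((ot.s.mul mi).cast (v := tan x) (by
    rw [tan_eq_sin_div_cos, mul_one_div]))).el h
  obtain ⟨V, mV, h⟩ := ((mU.mul (ot.c.add (o.y.mul ot.s))).cast (v := u * wk B x) (by
    rw [wk_eq (by linarith [an.sins.1, an.sins.2.1])])).el h
  refine (lo.2 x x0 x1).trans ?_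
  rw [wV, div_le_iff₀ (by linarith [an.wk_gt x0 x1])]
  cases md
  · obtain ⟨k1, k2⟩ := and_el (a := nnT V) h
    have b1 := mV.nn rfl k1
    have b2 := ((mV.mul mV).sub (SM.one.add (mY.mul mY))).nn rfl k2
    exact zu_cs b1 b2
  · obtain ⟨k1, k2⟩ := and_el (a := wcK b t) h
    have b1 := wcK_spec (S := (· = E)) rfl o an ot x0.le x1 k1
    have b2 := (mV.sub (ot.c2.add (ot.s2.mul mY))).nn rfl k2
    have b3 : arctan (wY A B x) ≤ 2 * x :=
      tan_cmp (by linarith) (by linarith [an.h1, an.h2, pi_lt_d2]) b1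
    rw [wg, max_eq_right b3]
    linarith

theorem zu_Z {E : Env} {b : Bx} {U S T : T3} {A B v u s t : ℝ} (o : BxOK (· = E) b A B)
    (mU : SM (· = E) U u) (mS : SM (· = E) S s) (mT : SM (· = E) T t) (an : Ang A B)
    (lo : Low2 A B v) (h : ubZ b U S T = true) : v ≤ u := by
  obtain ⟨h, h5⟩ := and_el h
  obtain ⟨h, h4⟩ := and_el h
  obtain ⟨h, h3⟩ := and_el h
  obtain ⟨h1, h2⟩ := and_el h
  have a1 := (mS.sub o.A').nn rfl h1
  have a2 := ((SM.cst _).sub mS).nn rfl h2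
  have a3 := (mT.sub (SM.cst _)).nn rfl h3
  have a4 := ((SM.cst _).sub mT).nn rfl h4
  push_cast at a2 a3 a4
  obtain ⟨ss, cs, mss, mcs, h⟩ := mS.scK h5
  obtain ⟨st, ct, mst, mct, h⟩ := mT.scK h
  obtain ⟨e, me, h⟩ := ((mss.mul mct).add (mcs.mul mst)).el h
  obtain ⟨k1, k2⟩ := and_el h
  have b1 := ((o.sA.mul me).sub mst).nn rfl k1
  have b2 := ((mU.mul (mss.mul mst)).add (o.h.mul ((mU.mul me).sub (mst.n2.add mss)))).nn rfl k2
  have hp := pi_gt_d2
  have A0 := an.h0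
  have s0 : 0 < sin s := sin_pos_of_pos_of_lt_pi (by linarith) (by linarith)
  have t0 : 0 < sin t := sin_pos_of_pos_of_lt_pi (by linarith) (by linarith)
  have s1 : 0 ≤ cos s := cos_nonneg_of_mem_Icc ⟨by linarith, by linarith⟩
  have t1 : 0 ≤ cos t := cos_nonneg_of_mem_Icc ⟨by linarith, by linarith⟩
  have h0 := an.alt_pos
  refine (lo.z s t ⟨by linarith, by linarith, by linarith, by linarith, ?_⟩).trans ?_
  · have e : sin A * sin s * (cot s + cot t)
        = sin A * (sin s * cos t + cos s * sin t) / sin t := by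
      rw [cot_eq_cos_div_sin, cot_eq_cos_div_sin]
      field_simp
      ring
    rw [e, le_div_iff₀ t0]
    linarith
  · have e : zV A B s t = alt A B * (2 * sin t + sin s)
        / (sin s * sin t + alt A B * (sin s * cos t + cos s * sin t)) := by
      rw [zV, cot_eq_cos_div_sin, cot_eq_cos_div_sin]
      field_simp
      ring
    rw [e, div_le_iff₀ (by positivity)]
    linarith

theorem zu_V {E : Env} {b : Bx} {U X G : T3} {A B v u x g : ℝ} (o : BxOK (· = E) b A B)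
    (mU : SM (· = E) U u) (mX : SM (· = E) X x) (mG : SM (· = E) G g) (an : Ang A B)
    (lo : Low2 A B v) (h : ubV b U X G = true) : v ≤ u := by
  obtain ⟨h, h5⟩ := and_el h
  obtain ⟨h, h4⟩ := and_el h
  obtain ⟨h, h3⟩ := and_el h
  obtain ⟨h1, h2⟩ := and_el h
  have a1 := (mX.sub (SM.cst _)).nn rfl h1
  have a2 := (o.A'.sub mX.n2).nn rfl h2
  have a3 := mG.nn rfl h3
  have a4 := ((SM.cst _).sub mG).nn rfl h4
  push_cast at a1 a4
  obtain ⟨t, ot, h⟩ := xsK_spec o mX h5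
  obtain ⟨w, c, mw, mc, h⟩ := mG.scK h
  obtain ⟨vc, k2, D, mk, mD, h⟩ := vcK_spec (S := (· = E)) rfl o an ot mc mw (by linarith) (by linarith) h
  have b1 := ((mk.mul (mw.sub (o.h.mul (SM.one.sub ((mc.mul ot.c2).sub (mw.mul ot.s2)))).n2)).sub
    ((SM.one.sub mU).mul mD)).nn rfl h
  exact vc.up an lo a3 (by linarith [pi_gt_d2]) (by linarith)

theorem ubK2_spec {b : Bx} {U : T3} {n : ℕ} {k : ℕ → Bool} (h : ubK2 b U n k = true) :
    (∃ m, k m = true) ∧ ∀ (α β A B v u : ℝ) (E : Env), SB α β E → BxOK (SB α β) b A B →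
      SM (SB α β) U u → Ang A B → Low2 A B v → v ≤ u := by
  obtain ⟨f, n, h⟩ := rd_ex h
  refine ⟨?_, fun α β A B v u E e o mU an lo => ?_⟩
  · rcases f with _ | f
    · exact ⟨_, (and_el h).2⟩
    obtain ⟨X, n, h, -⟩ := wK_spec h
    rcases f with _ | _ | f
    · exact ⟨_, (and_el h).2⟩
    · exact ⟨_, (and_el h).2⟩
    obtain ⟨Y, n, h, -⟩ := wK_spec h
    rcases f with _ | f
    · exact ⟨_, (and_el h).2⟩
    · exact ⟨_, (and_el h).2⟩
  · replace o := o.at e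
    replace mU := mU.at e
    rcases f with _ | f
    · exact zu_B o mU lo.w (and_el h).1
    obtain ⟨X, n, x, mX, h⟩ := wK_at E h
    rcases f with _ | _ | f
    · exact zu_W o mU mX an lo.w (and_el h).1
    · exact zu_W o mU mX an lo.w (and_el h).1
    obtain ⟨Y, n, y, mY, h⟩ := wK_at E h
    rcases f with _ | f
    · exact zu_Z o mU mX mY an lo (and_el h).1
    · exact zu_V o mU mX mY an lo (and_el h).1

/-- The affine function with coefficients `c`, `k`, `l`; scale `2 ^ 40`, shift `2 ^ 41`. -/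
def afV (A B : ℝ) (c k l : ℕ) : ℝ :=
  ((c - 2199023255552) + (k - 2199023255552) * A + (l - 2199023255552) * B) / 1099511627776

def afK (b : Bx) (c k l : ℕ) (f : T3 → Bool) : Bool :=
  gN c fun c => gN k fun k => gN l fun l => Nat.ble k 4398046511104 && Nat.ble l 4398046511104 &&
    gT (PT.lin c k l 2199023255552 b.A b.B b.A 0 0) f

theorem afK_spec {S : Env → Prop} {b : Bx} {A B : ℝ} (o : BxOK S b A B) {c k l : ℕ}
    {f : T3 → Bool} (h : afK b c k l f = true) : ∃ U, SM S U (afV A B c k l) ∧ f U = true := by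
  simp only [afK, gN_eq, gT_eq, Bool.and_eq_true, Nat.ble_eq] at h
  refine ⟨_, fun E q => PT.lin_mem (o.A' E q) (o.B' E q) (o.A' E q) h.1.1 h.1.2 (by norm_num)
    fun _ _ _ => le_of_eq ?_, h.2⟩
  rw [afV, Nat.cast_zero, abs_eq_zero]
  push_cast
  ring

theorem afK_ex {b : Bx} {c k l : ℕ} {f : T3 → Bool} (h : afK b c k l f = true) :
    ∃ U, f U = true := by
  simp only [afK, gN_eq, gT_eq] at h
  exact ⟨_, (and_el h).2⟩

/-- Three affine upper bounds, scale `2 ^ 34`, shift `2 ^ 35`. -/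
structure Us where
  c1 : ℕ
  k1 : ℕ
  l1 : ℕ
  c2 : ℕ
  k2 : ℕ
  l2 : ℕ
  c3 : ℕ
  k3 : ℕ
  l3 : ℕ

def Us.OK (u : Us) (A B v : ℝ) : Prop :=
  v ≤ afV A B (64 * u.c1) (64 * u.k1) (64 * u.l1) ∧ v ≤ afV A B (64 * u.c2) (64 * u.k2) (64 * u.l2) ∧
    v ≤ afV A B (64 * u.c3) (64 * u.k3) (64 * u.l3)

def us0 : Us := ⟨51539607552, 34359738368, 34359738368, 51539607552, 34359738368, 34359738368,
  51539607552, 34359738368, 34359738368⟩

theorem us0_ok {A B v : ℝ} (lo : Low A B v) : us0.OK A B v := by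
  have h1 : v ≤ 1 := by
    refine lo.1.trans ?_
    rw [bV, div_le_one (by positivity)]
    exact le_sqrt_of_sq_le (by nlinarith [sq_nonneg (cot B)])
  have h2 : afV A B (64 * 51539607552) (64 * 34359738368) (64 * 34359738368) = 1 := by
    rw [afV]
    push_cast
    ring
  exact ⟨h1.trans h2.ge, h1.trans h2.ge, h1.trans h2.ge⟩

def mx3 (i j k a b c : ℕ) : ℕ := Nat.add (Nat.mul i a) (Nat.add (Nat.mul j b) (Nat.mul k c))

/-- A convex combination of the three bounds. -/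
def mixK (b : Bx) (u : Us) (n : ℕ) (f : T3 → ℕ → Bool) : Bool :=
  rd 7 n fun i n => rd 7 n fun j n => Nat.ble (Nat.add i j) 64 &&
    gN (Nat.sub 64 (Nat.add i j)) fun k => afK b (mx3 i j k u.c1 u.c2 u.c3)
      (mx3 i j k u.k1 u.k2 u.k3) (mx3 i j k u.l1 u.l2 u.l3) fun U => f U n

theorem mixK_spec {S : Env → Prop} {b : Bx} {A B v : ℝ} (o : BxOK S b A B) {u : Us}
    (hu : u.OK A B v) {n : ℕ} {f : T3 → ℕ → Bool} (h : mixK b u n f = true) :
    ∃ U y m, SM S U y ∧ v ≤ y ∧ f U m = true := by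
  obtain ⟨i, _, h⟩ := rd_ex h
  obtain ⟨j, m, h⟩ := rd_ex h
  obtain ⟨h1, h⟩ := and_el h
  rw [gN_eq] at h
  obtain ⟨U, mU, h⟩ := afK_spec o h
  refine ⟨U, _, m, mU, ?_, h⟩
  simp only [Nat.ble_eq, Nat.add_eq] at h1
  simp only [Nat.add_eq, Nat.sub_eq]
  obtain ⟨k, hk⟩ : ∃ k, k = 64 - (i + j) := ⟨_, rfl⟩
  rw [← hk]
  have e : (i : ℝ) + j + k = 64 := by exact_mod_cast (by omega : i + j + k = 64)
  have b1 := mul_le_mul_of_nonneg_left hu.1 (Nat.cast_nonneg (α := ℝ) i)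
  have b2 := mul_le_mul_of_nonneg_left hu.2.1 (Nat.cast_nonneg (α := ℝ) j)
  have b3 := mul_le_mul_of_nonneg_left hu.2.2 (Nat.cast_nonneg (α := ℝ) k)
  simp only [afV, mx3, Nat.add_eq, Nat.mul_eq] at b1 b2 b3 ⊢
  push_cast at b1 b2 b3 ⊢
  linear_combination (b1 + b2 + b3) / 64 - (v + 2 + 2 * A + 2 * B) / 64 * e

theorem mixK_ex {b : Bx} {u : Us} {n : ℕ} {f : T3 → ℕ → Bool} (h : mixK b u n f = true) :
    ∃ U m, f U m = true := by
  obtain ⟨_, _, h⟩ := rd_ex h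
  obtain ⟨_, m, h⟩ := rd_ex h
  obtain ⟨_, h⟩ := gN_ex (and_el h).2
  obtain ⟨U, h⟩ := afK_ex h
  exact ⟨U, m, h⟩

/-- Replace the third bound by a new one and rotate. -/
def setUK (b : Bx) (u : Us) (n : ℕ) (f : Us → ℕ → Bool) : Bool :=
  rd 36 n fun c n => rd 36 n fun k n => rd 36 n fun l n =>
    afK b (Nat.mul 64 c) (Nat.mul 64 k) (Nat.mul 64 l) fun U => ubK2 b U n fun n =>
      f ⟨c, k, l, u.c1, u.k1, u.l1, u.c2, u.k2, u.l2⟩ n

theorem setUK_spec {b : Bx} {u : Us} {n : ℕ} {f : Us → ℕ → Bool} (h : setUK b u n f = true) :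
    ∃ u' m, f u' m = true ∧ ∀ (α β A B v : ℝ) (E : Env), SB α β E → BxOK (SB α β) b A B →
      Ang A B → Low2 A B v → u.OK A B v → u'.OK A B v := by
  obtain ⟨c, _, h⟩ := rd_ex h
  obtain ⟨k, _, h⟩ := rd_ex h
  obtain ⟨l, _, h⟩ := rd_ex h
  obtain ⟨_, h'⟩ := afK_ex h
  obtain ⟨m, hm⟩ := (ubK2_spec h').1
  refine ⟨_, m, hm, fun α β A B v E e o an lo hu => ⟨?_, hu.1, hu.2.1⟩⟩
  obtain ⟨U, mU, h⟩ := afK_spec o h
  exact (ubK2_spec h).2 α β A B v _ E e o mU an lo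

end

end Pool.Agent.P.MP_d76e6a_co
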